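import Pool.Agent.H54.UB.Core

/-!
# Row ASA: cocycles near the diagonal, basic lemmas

`NCoc c S`, `NTriv c S` (see `Core.lean`).  Note `c a a = 1` for `a ∈ S` if `NCoc c S`.

* `union_closed`: `g_A`, `g_B` primitives on the closed sets `A, B`.  On `A ∩ B` the function
  `g_A g_B⁻¹` is locally constant: for `x, y ∈ A ∩ B` close to each other
  `(g_A x)⁻¹ g_A y = c x y = (g_B x)⁻¹ g_B y`; so it is constant `= a` (`IsPreconnected`,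
  e.g. `IsPreconnected.constant_of_...` / `isPreconnected_iff_subset_of_disjoint`).  Put
  `g = g_A` on `A` and `a * g_B` on `B \ A` (they agree on `A ∩ B`).  Near a point `z ∈ A ∩ B`:
  for `x ∈ A, y ∈ B` close to `z`: `c x y = c x z * c z y = (g x)⁻¹ g z (g z)⁻¹ g y`.  Near a point
  `z ∉ B` a neighbourhood misses `B` (closed).
* `union_two`: same, but `g_A g_B⁻¹` is constant `a₁` on `W₁` and `a₂` on `W₂`; compare with the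
  primitive `g_S` on `S`: `g_S g_A⁻¹` is constant on `S ∩ A`, `g_S g_B⁻¹` is constant on `S ∩ B`, and
  evaluate at points of `S ∩ W₁` and `S ∩ W₂`: `a₁ = a₂`.
* `retract`: `T` is the image of `S`: `c` on `T`, pull back by `φ`, primitive `g` on `S`, then
  `g ∘ ψ` is a primitive of `c` on `T`, because `φ (ψ y) = y` on `T`.
-/

open Set Topology

namespace Pool.H54.UB

variable {X Y Q : Type*} [TopologicalSpace X] [TopologicalSpace Y] [Group Q]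

theorem NCoc.mono {c : X → X → Q} {S T : Set X} (h : NCoc c T) (hST : S ⊆ T) : NCoc c S := by
  intro x hx
  obtain ⟨U, hU, h1⟩ := h x (hST hx)
  exact ⟨U, hU, fun a ha b hb d hd => h1 a ⟨ha.1, hST ha.2⟩ b ⟨hb.1, hST hb.2⟩ d
    ⟨hd.1, hST hd.2⟩⟩

theorem NTriv.mono {c : X → X → Q} {S T : Set X} (h : NTriv c T) (hST : S ⊆ T) : NTriv c S := by
  obtain ⟨g, h⟩ := h
  refine ⟨g, fun x hx => ?_⟩
  obtain ⟨U, hU, h1⟩ := h x (hST hx)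
  exact ⟨U, hU, fun a ha b hb => h1 a ⟨ha.1, hST ha.2⟩ b ⟨hb.1, hST hb.2⟩⟩

theorem NTriv.ncoc {c : X → X → Q} {S : Set X} (h : NTriv c S) : NCoc c S := by
  obtain ⟨g, h⟩ := h
  intro x hx
  obtain ⟨U, hU, h1⟩ := h x hx
  refine ⟨U, hU, fun a ha b hb d hd => ?_⟩
  rw [h1 a ha b hb, h1 b hb d hd, h1 a ha d hd]
  group

private theorem ASA_pull {S : Set Y} {φ : Y → X} (hφ : ContinuousOn φ S) {y : Y} (hy : y ∈ S)
    {U : Set X} (hU : U ∈ 𝓝 (φ y)) : ∃ V ∈ 𝓝 y, ∀ a ∈ V ∩ S, φ a ∈ U ∩ φ '' S := by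
  have h1 : φ ⁻¹' U ∈ 𝓝[S] y := hφ y hy hU
  obtain ⟨V, hV, h2⟩ := mem_nhdsWithin_iff_exists_mem_nhds_inter.1 h1
  exact ⟨V, hV, fun a ha => ⟨h2 ha, mem_image_of_mem φ ha.2⟩⟩

theorem NCoc.comp {c : X → X → Q} {S : Set Y} {φ : Y → X} (hφ : ContinuousOn φ S)
    (h : NCoc c (φ '' S)) : NCoc (fun a b => c (φ a) (φ b)) S := by
  intro y hy
  obtain ⟨U, hU, h1⟩ := h (φ y) (mem_image_of_mem φ hy)
  obtain ⟨V, hV, h2⟩ := ASA_pull hφ hy hU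
  exact ⟨V, hV, fun a ha b hb d hd => h1 _ (h2 a ha) _ (h2 b hb) _ (h2 d hd)⟩

theorem NTriv.comp {c : X → X → Q} {S : Set Y} {φ : Y → X} (hφ : ContinuousOn φ S)
    (h : NTriv c (φ '' S)) : NTriv (fun a b => c (φ a) (φ b)) S := by
  obtain ⟨g, h⟩ := h
  refine ⟨fun y => g (φ y), fun y hy => ?_⟩
  obtain ⟨U, hU, h1⟩ := h (φ y) (mem_image_of_mem φ hy)
  obtain ⟨V, hV, h2⟩ := ASA_pull hφ hy hU
  exact ⟨V, hV, fun a ha b hb => h1 _ (h2 a ha) _ (h2 b hb)⟩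

theorem NCoc.self {c : X → X → Q} {S : Set X} (h : NCoc c S) {x : X} (hx : x ∈ S) : c x x = 1 :=
  by
  obtain ⟨U, hU, h1⟩ := h x hx
  have hxU : x ∈ U ∩ S := ⟨mem_of_mem_nhds hU, hx⟩
  exact mul_eq_left.1 (h1 x hxU x hxU x hxU)

/-- Two functions with the same local differences differ by a constant on a preconnected set. -/
theorem const_of_local {g g' : X → Q} {S : Set X} (hS : IsPreconnected S)
    (h : ∀ x ∈ S, ∃ U ∈ 𝓝 x, ∀ y ∈ U ∩ S, (g x)⁻¹ * g y = (g' x)⁻¹ * g' y)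
    {x y : X} (hx : x ∈ S) (hy : y ∈ S) : g x * (g' x)⁻¹ = g y * (g' y)⁻¹ := by
  let _ : TopologicalSpace Q := ⊥
  have _ : DiscreteTopology Q := ⟨rfl⟩
  have hc : ContinuousOn (fun x => g x * (g' x)⁻¹) S := by
    intro z hz
    obtain ⟨U, hU, h1⟩ := h z hz
    refine (continuousWithinAt_const (b := g z * (g' z)⁻¹)).congr_of_eventuallyEq ?_ rfl
    filter_upwards [mem_nhdsWithin_of_mem_nhds hU, self_mem_nhdsWithin] with w hw hw'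
    have h2 := h1 w ⟨hw, hw'⟩
    have h3 : g w = g z * ((g' z)⁻¹ * g' w) := by
      rw [← h2]
      group
    rw [h3]
    group
  exact hS.constant hc hx hy

/-- the local differences of two primitives agree -/
private theorem ASA_loc {c : X → X → Q} {S S' T : Set X} {g g' : X → Q}
    (h : ∀ x ∈ S, ∃ U ∈ 𝓝 x, ∀ a ∈ U ∩ S, ∀ b ∈ U ∩ S, c a b = (g a)⁻¹ * g b)
    (h' : ∀ x ∈ S', ∃ U ∈ 𝓝 x, ∀ a ∈ U ∩ S', ∀ b ∈ U ∩ S', c a b = (g' a)⁻¹ * g' b)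
    (hT : T ⊆ S) (hT' : T ⊆ S') :
    ∀ x ∈ T, ∃ U ∈ 𝓝 x, ∀ y ∈ U ∩ T, (g x)⁻¹ * g y = (g' x)⁻¹ * g' y := by
  intro x hx
  obtain ⟨U, hU, h1⟩ := h x (hT hx)
  obtain ⟨V, hV, h2⟩ := h' x (hT' hx)
  refine ⟨U ∩ V, Filter.inter_mem hU hV, fun y hy => ?_⟩
  rw [← h1 x ⟨mem_of_mem_nhds hU, hT hx⟩ y ⟨hy.1.1, hT hy.2⟩,
    ← h2 x ⟨mem_of_mem_nhds hV, hT' hx⟩ y ⟨hy.1.2, hT' hy.2⟩]

private theorem ASA_glue {c : X → X → Q} {A B : Set X} (hA : IsClosed A) (hB : IsClosed B)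
    (hc : NCoc c (A ∪ B)) {g g' : X → Q}
    (h : ∀ x ∈ A, ∃ U ∈ 𝓝 x, ∀ a ∈ U ∩ A, ∀ b ∈ U ∩ A, c a b = (g a)⁻¹ * g b)
    (h' : ∀ x ∈ B, ∃ U ∈ 𝓝 x, ∀ a ∈ U ∩ B, ∀ b ∈ U ∩ B, c a b = (g' a)⁻¹ * g' b)
    (q : Q) (hq : ∀ x ∈ A ∩ B, g x = q * g' x) : NTriv c (A ∪ B) := by
  classical
  obtain ⟨G, hG⟩ : ∃ G : X → Q, G = fun x => if x ∈ A then g x else q * g' x := ⟨_, rfl⟩
  have GA : ∀ x ∈ A, G x = g x := fun x hx => by
    rw [hG]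
    exact if_pos hx
  have GB : ∀ x ∈ B, G x = q * g' x := fun x hx => by
    by_cases hxA : x ∈ A
    · rw [GA x hxA, hq x ⟨hxA, hx⟩]
    · rw [hG]
      exact if_neg hxA
  refine ⟨G, fun x hx => ?_⟩
  by_cases hxA : x ∈ A
  · obtain ⟨U, hU, h1⟩ := h x hxA
    by_cases hxB : x ∈ B
    · obtain ⟨V, hV, h2⟩ := h' x hxB
      obtain ⟨W, hW, h3⟩ := hc x hx
      have hxU := mem_of_mem_nhds hU
      have hxV := mem_of_mem_nhds hV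
      have hxW := mem_of_mem_nhds hW
      refine ⟨U ∩ (V ∩ W), Filter.inter_mem hU (Filter.inter_mem hV hW), ?_⟩
      have e1 : ∀ a ∈ (U ∩ (V ∩ W)) ∩ (A ∪ B), c a x = (G a)⁻¹ * G x := by
        rintro a ⟨⟨haU, haV, haW⟩, ha | ha⟩
        · rw [h1 a ⟨haU, ha⟩ x ⟨hxU, hxA⟩, GA a ha, GA x hxA]
        · rw [h2 a ⟨haV, ha⟩ x ⟨hxV, hxB⟩, GB a ha, GB x hxB]
          group
      have e2 : ∀ a ∈ (U ∩ (V ∩ W)) ∩ (A ∪ B), c x a = (G x)⁻¹ * G a := by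
        rintro a ⟨⟨haU, haV, haW⟩, ha | ha⟩
        · rw [h1 x ⟨hxU, hxA⟩ a ⟨haU, ha⟩, GA a ha, GA x hxA]
        · rw [h2 x ⟨hxV, hxB⟩ a ⟨haV, ha⟩, GB a ha, GB x hxB]
          group
      intro a ha b hb
      rw [← h3 a ⟨ha.1.2.2, ha.2⟩ x ⟨hxW, hx⟩ b ⟨hb.1.2.2, hb.2⟩, e1 a ha, e2 b hb]
      group
    · refine ⟨U ∩ Bᶜ, Filter.inter_mem hU (hB.isOpen_compl.mem_nhds hxB), ?_⟩
      rintro a ⟨⟨haU, haB⟩, ha⟩ b ⟨⟨hbU, hbB⟩, hb⟩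
      have ha' : a ∈ A := ha.resolve_right haB
      have hb' : b ∈ A := hb.resolve_right hbB
      rw [h1 a ⟨haU, ha'⟩ b ⟨hbU, hb'⟩, GA a ha', GA b hb']
  · have hxB : x ∈ B := hx.resolve_left hxA
    obtain ⟨V, hV, h2⟩ := h' x hxB
    refine ⟨V ∩ Aᶜ, Filter.inter_mem hV (hA.isOpen_compl.mem_nhds hxA), ?_⟩
    rintro a ⟨⟨haV, haA⟩, ha⟩ b ⟨⟨hbV, hbA⟩, hb⟩
    have ha' : a ∈ B := ha.resolve_left haA
    have hb' : b ∈ B := hb.resolve_left hbA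
    rw [h2 a ⟨haV, ha'⟩ b ⟨hbV, hb'⟩, GB a ha', GB b hb']
    group

theorem NTriv.union_closed {c : X → X → Q} {A B : Set X} (hA : IsClosed A) (hB : IsClosed B)
    (hc : NCoc c (A ∪ B)) (hAB : IsPreconnected (A ∩ B)) (h1 : NTriv c A) (h2 : NTriv c B) :
    NTriv c (A ∪ B) := by
  obtain ⟨g, h⟩ := h1
  obtain ⟨g', h'⟩ := h2
  have hl := ASA_loc h h' (inter_subset_left : A ∩ B ⊆ A) inter_subset_right
  by_cases hne : (A ∩ B).Nonempty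
  · obtain ⟨z, hz⟩ := hne
    refine ASA_glue hA hB hc h h' (g z * (g' z)⁻¹) fun x hx => ?_
    rw [← const_of_local hAB hl hx hz]
    group
  · refine ASA_glue hA hB hc h h' 1 fun x hx => ?_
    exact absurd ⟨x, hx⟩ hne

theorem NTriv.union_two {c : X → X → Q} {A B W₁ W₂ S : Set X} (hA : IsClosed A) (hB : IsClosed B)
    (hc : NCoc c (A ∪ B)) (hAB : A ∩ B = W₁ ∪ W₂) (hW₁ : IsPreconnected W₁)
    (hW₂ : IsPreconnected W₂) (h1 : NTriv c A) (h2 : NTriv c B) (hS : S ⊆ A ∪ B)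
    (hSA : IsPreconnected (S ∩ A)) (hSB : IsPreconnected (S ∩ B)) (hS1 : (S ∩ W₁).Nonempty)
    (hS2 : (S ∩ W₂).Nonempty) (h3 : NTriv c S) : NTriv c (A ∪ B) := by
  obtain ⟨g, h⟩ := h1
  obtain ⟨g', h'⟩ := h2
  obtain ⟨s, hs⟩ := h3
  have w1 : W₁ ⊆ A ∩ B := by
    rw [hAB]
    exact subset_union_left
  have w2 : W₂ ⊆ A ∩ B := by
    rw [hAB]
    exact subset_union_right
  obtain ⟨z₁, hz₁S, hz₁⟩ := hS1
  obtain ⟨z₂, hz₂S, hz₂⟩ := hS2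
  have l1 := ASA_loc h h' (w1.trans inter_subset_left) (w1.trans inter_subset_right)
  have l2 := ASA_loc h h' (w2.trans inter_subset_left) (w2.trans inter_subset_right)
  have lA := ASA_loc hs h (inter_subset_left : S ∩ A ⊆ S) inter_subset_right
  have lB := ASA_loc hs h' (inter_subset_left : S ∩ B ⊆ S) inter_subset_right
  have eA := const_of_local hSA lA ⟨hz₁S, (w1 hz₁).1⟩ ⟨hz₂S, (w2 hz₂).1⟩
  have eB := const_of_local hSB lB ⟨hz₁S, (w1 hz₁).2⟩ ⟨hz₂S, (w2 hz₂).2⟩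
  have e : g z₁ * (g' z₁)⁻¹ = g z₂ * (g' z₂)⁻¹ := by
    have e1 : g z₁ * (g' z₁)⁻¹ = (s z₁ * (g z₁)⁻¹)⁻¹ * (s z₁ * (g' z₁)⁻¹) := by group
    rw [e1, eA, eB]
    group
  refine ASA_glue hA hB hc h h' (g z₁ * (g' z₁)⁻¹) fun x hx => ?_
  rw [hAB] at hx
  rcases hx with hx | hx
  · rw [← const_of_local hW₁ l1 hx hz₁]
    group
  · rw [e, ← const_of_local hW₂ l2 hx hz₂]
    group

theorem NTriv.singleton {c : X → X → Q} {x : X} (h : NCoc c {x}) : NTriv c {x} := by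
  refine ⟨fun _ => 1, fun y hy => ⟨univ, Filter.univ_mem, ?_⟩⟩
  rintro a ⟨-, ha⟩ b ⟨-, hb⟩
  rw [mem_singleton_iff] at ha hb
  rw [ha, hb, h.self (mem_singleton x)]
  group

theorem QTriv.retract {S : Set X} {T : Set Y} {φ : X → Y} {ψ : Y → X}
    (hφ : ContinuousOn φ S) (hψ : ContinuousOn ψ T) (hST : MapsTo φ S T) (hTS : MapsTo ψ T S)
    (h : ∀ y ∈ T, φ (ψ y) = y) (hS : QTriv Q S) : QTriv Q T := by
  intro c hc
  have h1 : NCoc (fun a b => c (φ a) (φ b)) S := NCoc.comp hφ (hc.mono hST.image_subset)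
  obtain ⟨g, h2⟩ := NTriv.comp hψ ((hS _ h1).mono hTS.image_subset)
  refine ⟨g, fun x hx => ?_⟩
  obtain ⟨U, hU, h3⟩ := h2 x hx
  refine ⟨U, hU, fun a ha b hb => ?_⟩
  have h4 : c (φ (ψ a)) (φ (ψ b)) = (g a)⁻¹ * g b := h3 a ha b hb
  rwa [h a ha.2, h b hb.2] at h4

end Pool.H54.UB
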