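import Pool.Agent.H54.UB.ASA

/-!
# Row ASB: cocycles near the diagonal: intervals and homotopy invariance

* `qtriv_Icc`: compactness of `[0,1]`: `sup {t | NTriv c (Icc 0 t)}`, or finite subdivision
  `0 = t_0 < .. < t_n = 1` such that `c` satisfies the cocycle identity on the intervals
  `[t_{i-1}, t_{i+1}]` (Lebesgue number), and `NTriv.union_closed` with
  `Icc 0 t_i ∩ Icc t_i t_{i+1} = {t_i}`.
* `NTriv.prod_Icc`: for `a ∈ S` let `p_a : ℝ → Q` be a primitive of `t, s ↦ c (a,t) (a,s)` on `[0,1]`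
  with `p_a 0 = 1` (left multiply), and `g₀` a primitive of `c (·,0) (·,0)` on `S`.  Put
  `g (a,t) = g₀ a * p_a t`.  Fix `a ∈ S`.  By compactness of `{a} × [0,1]` there are `V ∈ 𝓝 a`,
  and a subdivision `0 = t_0 < ... < t_n = 1` such that for each `i` the cocycle identity
  holds for triples in `(V ∩ S) × [t_{i-1}, t_{i+1}]`.  Claim: for `b ∈ V ∩ S` (small `V`), and all
  `t ∈ [0,1]`: `p_b t = c(..)`: precisely the function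
  `F_b t = (g (a,t))⁻¹ ...`: the quantity `g (a,t) * c (a,t) (b,t) * (g (b,t))⁻¹` is locally constant in
  `t ∈ [0,1]` (as `c (a,t) (b,t) = c (a,t) (a,s) c (a,s) (b,s) c (b,s) (b,t)` for `s, t` in the same
  interval), hence constant, equal to its value at `t = 0`, which is `1` if `V` is small
  (`g₀` is a primitive near `a`).  So `c (a,t) (b,t) = (g (a,t))⁻¹ g (b,t)` for all `b ∈ V ∩ S`,
  `t ∈ [0,1]`; then for `(b,s)`, `(b',s')` close to `(a,t)`: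
  `c (b,s) (b',s') = c (b,s) (a,s) c (a,s) (a,s') c (a,s') (b',s') = (g (b,s))⁻¹ g (b',s')`.
* `NTriv.deform`: apply the previous statement to `c ∘ H` and the time reversed homotopy: the
  restriction to `t = 1` is the pull back of `NTriv c T` under `H (·,1)`, so `c ∘ H` is trivial on
  `S × [0,1]`, restrict to `t = 0`.
* `QTriv.convex`: `S = ∅` trivial; otherwise deform to a point: `H (x,t) = (1-t) x + t x₀`.
* `NTriv.move`: the classes of `c ∘ Φ_0` and `c ∘ Φ_1` are trivial simultaneously.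
-/

open Set Topology

namespace Pool.H54.UB

variable {X A Q : Type*} [TopologicalSpace X] [TopologicalSpace A] [Group Q]

private theorem ASB_congr {S : Set X} {c c' : X → X → Q} (h : ∀ a ∈ S, ∀ b ∈ S, c a b = c' a b)
    (hc : NTriv c S) : NTriv c' S := by
  obtain ⟨g, hg⟩ := hc
  refine ⟨g, fun x hx => ?_⟩
  obtain ⟨U, hU, h1⟩ := hg x hx
  refine ⟨U, hU, fun a ha b hb => ?_⟩
  rw [← h a ha.2 b hb.2]
  exact h1 a ha b hb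

private theorem ASB_full {S : Set X} {c : X → X → Q} {x₀ : X} (hx₀ : x₀ ∈ S)
    (h : ∀ a ∈ S, ∀ b ∈ S, ∀ d ∈ S, c a b * c b d = c a d) : NTriv c S := by
  refine ⟨fun z => c x₀ z, fun x _ => ⟨univ, Filter.univ_mem, fun a ha b hb => ?_⟩⟩
  beta_reduce
  rw [← h x₀ hx₀ a ha.2 b hb.2]
  group

private theorem ASB_step {a b : ℝ} {c : ℝ → ℝ → Q} (hc : NCoc c (Icc a b)) {x y : ℝ} (hax : a ≤ x)
    (hxy : x ≤ y) (hyb : y ≤ b)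
    (h : ∀ u ∈ Icc x y, ∀ v ∈ Icc x y, ∀ w ∈ Icc x y, c u v * c v w = c u w)
    (h1 : NTriv c (Icc a x)) : NTriv c (Icc a y) := by
  have e : Icc a x ∪ Icc x y = Icc a y := Icc_union_Icc_eq_Icc hax hxy
  rw [← e]
  refine NTriv.union_closed isClosed_Icc isClosed_Icc ?_ ?_ h1
    (ASB_full (left_mem_Icc.2 hxy) h)
  · rw [e]; exact hc.mono (Icc_subset_Icc le_rfl hyb)
  · have e2 : Icc a x ∩ Icc x y = {x} := by
      ext z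
      simp only [mem_inter_iff, mem_Icc, mem_singleton_iff]
      constructor
      · rintro ⟨⟨_, h2⟩, h3, _⟩; exact le_antisymm h2 h3
      · rintro rfl; exact ⟨⟨hax, le_rfl⟩, le_rfl, hxy⟩
    rw [e2]; exact isPreconnected_singleton

theorem qtriv_Icc (a b : ℝ) : QTriv Q (Icc a b) := by
  intro c hc
  by_cases hab : a ≤ b
  · have h1 : NTriv c (Icc a a) := by
      rw [Icc_self]
      exact NTriv.singleton (hc.mono (by rw [singleton_subset_iff]; exact left_mem_Icc.2 hab))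
    refine (isPreconnected_Icc (a := a) (b := b)).induction₂'
      (fun x y => NTriv c (Icc a x) → NTriv c (Icc a y)) ?_ ?_ (left_mem_Icc.2 hab)
      (right_mem_Icc.2 hab) h1
    · intro x hx
      obtain ⟨U, hU, h2⟩ := hc x hx
      obtain ⟨r, hr, hrU⟩ := Metric.mem_nhds_iff.1 hU
      filter_upwards [mem_nhdsWithin_of_mem_nhds (Metric.ball_mem_nhds x hr), self_mem_nhdsWithin]
        with y hy1 hy2
      have hy3 : |y - x| < r := by rwa [Metric.mem_ball, Real.dist_eq] at hy1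
      have key : ∀ u v : ℝ, u ∈ Icc a b → v ∈ Icc a b → |u - x| < r → |v - x| < r → u ≤ v →
          NTriv c (Icc a u) → NTriv c (Icc a v) := by
        intro u v hu hv hu1 hv1 huv
        refine ASB_step hc hu.1 huv hv.2 ?_
        have h3 : ∀ w ∈ Icc u v, w ∈ U ∩ Icc a b := by
          intro w hw
          refine ⟨hrU ?_, hu.1.trans hw.1, hw.2.trans hv.2⟩
          rw [Metric.mem_ball, Real.dist_eq, abs_lt]
          rw [abs_lt] at hu1 hv1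
          constructor
          · linarith [hw.1, hu1.1]
          · linarith [hw.2, hv1.2]
        intro u1 hu1 v1 hv1 w1 hw1
        exact h2 _ (h3 _ hu1) _ (h3 _ hv1) _ (h3 _ hw1)
      have hxx : |x - x| < r := by simpa using hr
      rcases le_total x y with h4 | h4
      · exact ⟨key x y hx hy2 hxx hy3 h4, fun h5 => h5.mono (Icc_subset_Icc le_rfl h4)⟩
      · exact ⟨fun h5 => h5.mono (Icc_subset_Icc le_rfl h4), key y x hy2 hx hy3 hxx h4⟩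
    · intro x y z _ _ _ h2 h3 h4
      exact h3 (h2 h4)
  · rw [Icc_eq_empty hab]
    exact ⟨fun _ => 1, fun x hx => absurd hx (notMem_empty x)⟩

private theorem ASB_prim {S : Set A} {c : A × ℝ → A × ℝ → Q} (hc : NCoc c (S ×ˢ Icc (0 : ℝ) 1))
    (t₀ : ℝ) {a : A} (ha : a ∈ S) : ∃ p : ℝ → Q, p t₀ = 1 ∧ ∀ t ∈ Icc (0 : ℝ) 1, ∃ U ∈ 𝓝 t,
      ∀ s ∈ U ∩ Icc (0 : ℝ) 1, ∀ s' ∈ U ∩ Icc (0 : ℝ) 1, c (a, s) (a, s') = (p s)⁻¹ * p s' := by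
  have h1 : NCoc (fun s s' : ℝ => c (a, s) (a, s')) (Icc (0 : ℝ) 1) := by
    refine NCoc.comp (φ := fun s : ℝ => (a, s)) (by fun_prop) (hc.mono ?_)
    rintro _ ⟨s, hs, rfl⟩
    exact ⟨ha, hs⟩
  obtain ⟨g, hg⟩ := qtriv_Icc (Q := Q) 0 1 _ h1
  refine ⟨fun s => (g t₀)⁻¹ * g s, by group, fun t ht => ?_⟩
  obtain ⟨U, hU, h2⟩ := hg t ht
  refine ⟨U, hU, fun s hs s' hs' => ?_⟩
  rw [show c (a, s) (a, s') = (g s)⁻¹ * g s' from h2 s hs s' hs']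
  group

theorem NTriv.prod_Icc {S : Set A} {c : A × ℝ → A × ℝ → Q} (hc : NCoc c (S ×ˢ Icc (0 : ℝ) 1))
    (t₀ : ℝ) (ht₀ : t₀ ∈ Icc (0 : ℝ) 1) (h0 : NTriv (fun a b => c (a, t₀) (b, t₀)) S) :
    NTriv c (S ×ˢ Icc (0 : ℝ) 1) := by
  classical
  obtain ⟨g₀, hg₀⟩ := h0
  have hp : ∀ a : A, ∃ p : ℝ → Q, a ∈ S → (p t₀ = 1 ∧ ∀ t ∈ Icc (0 : ℝ) 1, ∃ U ∈ 𝓝 t,
      ∀ s ∈ U ∩ Icc (0 : ℝ) 1, ∀ s' ∈ U ∩ Icc (0 : ℝ) 1, c (a, s) (a, s') = (p s)⁻¹ * p s') := by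
    intro a
    by_cases ha : a ∈ S
    · obtain ⟨p, hp⟩ := ASB_prim hc t₀ ha
      exact ⟨p, fun _ => hp⟩
    · exact ⟨fun _ => 1, fun h => absurd h ha⟩
  choose p hp using hp
  -- good product neighbourhoods
  have hnb : ∀ a ∈ S, ∀ t ∈ Icc (0 : ℝ) 1, ∃ V ∈ 𝓝 a, ∃ r > 0,
      (∀ x ∈ (V ∩ S) ×ˢ (Metric.ball t r ∩ Icc (0 : ℝ) 1), ∀ y ∈ (V ∩ S) ×ˢ (Metric.ball t r ∩ Icc (0 : ℝ) 1),
        ∀ z ∈ (V ∩ S) ×ˢ (Metric.ball t r ∩ Icc (0 : ℝ) 1), c x y * c y z = c x z) := by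
    intro a ha t ht
    obtain ⟨U, hU, h1⟩ := hc (a, t) ⟨ha, ht⟩
    obtain ⟨V, hV, W, hW, hVW⟩ := mem_nhds_prod_iff.1 hU
    obtain ⟨r, hr, hrW⟩ := Metric.mem_nhds_iff.1 hW
    refine ⟨V, hV, r, hr, ?_⟩
    have h2 : ∀ x ∈ (V ∩ S) ×ˢ (Metric.ball t r ∩ Icc (0 : ℝ) 1), x ∈ U ∩ S ×ˢ Icc (0 : ℝ) 1 := by
      rintro ⟨b, s⟩ ⟨⟨h3, h4⟩, h5, h6⟩
      exact ⟨hVW ⟨h3, hrW h5⟩, h4, h6⟩
    intro x hx y hy z hz
    exact h1 x (h2 x hx) y (h2 y hy) z (h2 z hz)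
  -- the fibre formula
  have hfib : ∀ (V : Set A) (t r : ℝ), (∀ x ∈ (V ∩ S) ×ˢ (Metric.ball t r ∩ Icc (0 : ℝ) 1),
      ∀ y ∈ (V ∩ S) ×ˢ (Metric.ball t r ∩ Icc (0 : ℝ) 1),
        ∀ z ∈ (V ∩ S) ×ˢ (Metric.ball t r ∩ Icc (0 : ℝ) 1), c x y * c y z = c x z) →
      ∀ b ∈ V ∩ S, ∀ s ∈ Metric.ball t r ∩ Icc (0 : ℝ) 1, ∀ s' ∈ Metric.ball t r ∩ Icc (0 : ℝ) 1,
        c (b, s) (b, s') = (p b s)⁻¹ * p b s' := by
    intro V t r h1 b hb s hs s' hs'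
    have hpre : IsPreconnected (Metric.ball t r ∩ Icc (0 : ℝ) 1) := by
      rw [Real.ball_eq_Ioo]
      exact (ordConnected_Ioo.inter ordConnected_Icc).isPreconnected
    have h2 : ∀ x ∈ Metric.ball t r ∩ Icc (0 : ℝ) 1, ∃ U ∈ 𝓝 x, ∀ y ∈ U ∩ (Metric.ball t r ∩ Icc (0 : ℝ) 1),
        (p b x)⁻¹ * p b y = (c (b, s) (b, x))⁻¹ * c (b, s) (b, y) := by
      intro x hx
      obtain ⟨U, hU, h3⟩ := (hp b hb.2).2 x hx.2
      refine ⟨U, hU, fun y hy => ?_⟩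
      rw [← h3 x ⟨mem_of_mem_nhds hU, hx.2⟩ y ⟨hy.1, hy.2.2⟩,
        ← h1 (b, s) ⟨hb, hs⟩ (b, x) ⟨hb, hx⟩ (b, y) ⟨hb, hy.2⟩]
      group
    have h3 := const_of_local (g := p b) (g' := fun y => c (b, s) (b, y)) hpre h2 hs hs'
    have h4 : c (b, s) (b, s) = 1 := by
      have := h1 (b, s) ⟨hb, hs⟩ (b, s) ⟨hb, hs⟩ (b, s) ⟨hb, hs⟩
      exact mul_eq_left.1 this
    simp only [h4, inv_one, mul_one] at h3
    rw [h3]
    group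
  -- the horizontal formula
  have hhor : ∀ a ∈ S, ∀ t ∈ Icc (0 : ℝ) 1, ∃ V ∈ 𝓝 a, ∀ b ∈ V ∩ S,
      c (a, t) (b, t) = (g₀ a * p a t)⁻¹ * (g₀ b * p b t) := by
    intro a ha t ht
    have h1 : ∃ V ∈ 𝓝 a, ∀ b ∈ V ∩ S, c (a, t₀) (b, t₀) = (g₀ a * p a t₀)⁻¹ * (g₀ b * p b t₀) := by
      obtain ⟨V, hV, h2⟩ := hg₀ a ha
      refine ⟨V, hV, fun b hb => ?_⟩
      rw [(hp a ha).1, (hp b hb.2).1, mul_one, mul_one]
      exact h2 a ⟨mem_of_mem_nhds hV, ha⟩ b hb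
    refine (isPreconnected_Icc (a := (0 : ℝ)) (b := 1)).induction₂'
      (fun t s => (∃ V ∈ 𝓝 a, ∀ b ∈ V ∩ S, c (a, t) (b, t) = (g₀ a * p a t)⁻¹ * (g₀ b * p b t)) →
        (∃ V ∈ 𝓝 a, ∀ b ∈ V ∩ S, c (a, s) (b, s) = (g₀ a * p a s)⁻¹ * (g₀ b * p b s))) ?_ ?_ ht₀ ht h1
    · intro x hx
      obtain ⟨V, hV, r, hr, h2⟩ := hnb a ha x hx
      have h3 := hfib V x r h2
      have key : ∀ u ∈ Metric.ball x r ∩ Icc (0 : ℝ) 1, ∀ v ∈ Metric.ball x r ∩ Icc (0 : ℝ) 1,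
          (∃ V ∈ 𝓝 a, ∀ b ∈ V ∩ S, c (a, u) (b, u) = (g₀ a * p a u)⁻¹ * (g₀ b * p b u)) →
          (∃ V ∈ 𝓝 a, ∀ b ∈ V ∩ S, c (a, v) (b, v) = (g₀ a * p a v)⁻¹ * (g₀ b * p b v)) := by
        rintro u hu v hv ⟨V', hV', h4⟩
        refine ⟨V ∩ V', Filter.inter_mem hV hV', ?_⟩
        rintro b ⟨⟨hb1, hb2⟩, hb3⟩
        have ha1 : a ∈ V ∩ S := ⟨mem_of_mem_nhds hV, ha⟩
        rw [← h2 (a, v) ⟨ha1, hv⟩ (a, u) ⟨ha1, hu⟩ (b, v) ⟨⟨hb1, hb3⟩, hv⟩,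
          ← h2 (a, u) ⟨ha1, hu⟩ (b, u) ⟨⟨hb1, hb3⟩, hu⟩ (b, v) ⟨⟨hb1, hb3⟩, hv⟩,
          h3 a ha1 v hv u hu, h3 b ⟨hb1, hb3⟩ u hu v hv, h4 b ⟨hb2, hb3⟩]
        group
      have hx1 : x ∈ Metric.ball x r ∩ Icc (0 : ℝ) 1 := ⟨Metric.mem_ball_self hr, hx⟩
      filter_upwards [mem_nhdsWithin_of_mem_nhds (Metric.ball_mem_nhds x hr), self_mem_nhdsWithin]
        with y hy1 hy2
      exact ⟨key x hx1 y ⟨hy1, hy2⟩, key y ⟨hy1, hy2⟩ x hx1⟩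
    · intro x y z _ _ _ h2 h3 h4
      exact h3 (h2 h4)
  refine ⟨fun x => g₀ x.1 * p x.1 x.2, ?_⟩
  rintro ⟨a, t⟩ ⟨ha, ht⟩
  obtain ⟨V, hV, r, hr, h2⟩ := hnb a ha t ht
  have h3 := hfib V t r h2
  obtain ⟨V', hV', h4⟩ := hhor a ha t ht
  refine ⟨(V ∩ V') ×ˢ Metric.ball t r, prod_mem_nhds (Filter.inter_mem hV hV')
    (Metric.ball_mem_nhds t hr), ?_⟩
  rintro ⟨b, s⟩ ⟨⟨⟨hb1, hb2⟩, hs1⟩, hb3, hs2⟩ ⟨b', s'⟩ ⟨⟨⟨hb1', hb2'⟩, hs1'⟩, hb3', hs2'⟩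
  have ha1 : a ∈ V ∩ S := ⟨mem_of_mem_nhds hV, ha⟩
  have hb : b ∈ V ∩ S := ⟨hb1, hb3⟩
  have hb' : b' ∈ V ∩ S := ⟨hb1', hb3'⟩
  have ht1 : t ∈ Metric.ball t r ∩ Icc (0 : ℝ) 1 := ⟨Metric.mem_ball_self hr, ht⟩
  have hs : s ∈ Metric.ball t r ∩ Icc (0 : ℝ) 1 := ⟨hs1, hs2⟩
  have hs' : s' ∈ Metric.ball t r ∩ Icc (0 : ℝ) 1 := ⟨hs1', hs2'⟩
  have e1 := h2 (b, s) ⟨hb, hs⟩ (b, t) ⟨hb, ht1⟩ (b', s') ⟨hb', hs'⟩
  have e2 := h2 (b, t) ⟨hb, ht1⟩ (b', t) ⟨hb', ht1⟩ (b', s') ⟨hb', hs'⟩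
  have e3 := h2 (a, t) ⟨ha1, ht1⟩ (b, t) ⟨hb, ht1⟩ (b', t) ⟨hb', ht1⟩
  have e4 : c (b, t) (b', t) = (c (a, t) (b, t))⁻¹ * c (a, t) (b', t) := by
    rw [← e3]; group
  simp only []
  rw [← e1, ← e2, e4, h3 b hb s hs t ht1, h3 b' hb' t ht1 s' hs', h4 b ⟨hb2, hb3⟩,
    h4 b' ⟨hb2', hb3'⟩]
  group

theorem NTriv.move {S : Set A} {c : X → X → Q} {Φ : A × ℝ → X}
    (hΦ : ContinuousOn Φ (S ×ˢ Icc (0 : ℝ) 1)) (hc : NCoc c (Φ '' (S ×ˢ Icc (0 : ℝ) 1)))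
    {t₀ : ℝ} (ht₀ : t₀ ∈ Icc (0 : ℝ) 1)
    (h0 : NTriv (fun a b => c (Φ (a, t₀)) (Φ (b, t₀))) S) {t : ℝ} (ht : t ∈ Icc (0 : ℝ) 1) :
    NTriv (fun a b => c (Φ (a, t)) (Φ (b, t))) S := by
  have h1 := NCoc.comp hΦ hc
  have h2 := NTriv.prod_Icc h1 t₀ ht₀ h0
  refine NTriv.comp (c := fun x y => c (Φ x) (Φ y)) (φ := fun a : A => (a, t)) (by fun_prop)
    (h2.mono ?_)
  rintro _ ⟨a, ha, rfl⟩
  exact ⟨ha, ht⟩

theorem NTriv.deform {S T : Set X} {c : X → X → Q} {H : X × ℝ → X}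
    (hH : ContinuousOn H (S ×ˢ Icc (0 : ℝ) 1)) (hc : NCoc c S)
    (hS : ∀ x ∈ S, ∀ t ∈ Icc (0 : ℝ) 1, H (x, t) ∈ S) (h0 : ∀ x ∈ S, H (x, 0) = x)
    (h1 : ∀ x ∈ S, H (x, 1) ∈ T) (hT : NTriv c T) : NTriv c S := by
  have hi0 : (0 : ℝ) ∈ Icc (0 : ℝ) 1 := ⟨le_rfl, zero_le_one⟩
  have hi1 : (1 : ℝ) ∈ Icc (0 : ℝ) 1 := ⟨zero_le_one, le_rfl⟩
  have h2 : NTriv (fun a b => c (H (a, 1)) (H (b, 1))) S := by
    refine NTriv.comp (φ := fun a => H (a, 1)) ?_ (hT.mono ?_)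
    · refine hH.comp (f := fun a : X => (a, (1 : ℝ))) (by fun_prop) ?_
      intro a ha
      exact ⟨ha, hi1⟩
    · rintro _ ⟨a, ha, rfl⟩
      exact h1 a ha
  have h3 : NCoc c (H '' (S ×ˢ Icc (0 : ℝ) 1)) := by
    refine hc.mono ?_
    rintro _ ⟨⟨a, s⟩, ⟨ha, hs⟩, rfl⟩
    exact hS a ha s hs
  have h4 := NTriv.move hH h3 hi1 h2 hi0
  refine ASB_congr ?_ h4
  intro a ha b hb
  simp only [h0 a ha, h0 b hb]

theorem QTriv.convex {E : Type*} [NormedAddCommGroup E] [NormedSpace ℝ E] {S : Set E}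
    (hS : Convex ℝ S) : QTriv Q S := by
  intro c hc
  rcases S.eq_empty_or_nonempty with rfl | ⟨x₀, hx₀⟩
  · exact ⟨fun _ => 1, fun x hx => absurd hx (notMem_empty x)⟩
  · refine NTriv.deform (T := {x₀}) (H := fun p : E × ℝ => (1 - p.2) • p.1 + p.2 • x₀)
      (by fun_prop) hc ?_ ?_ ?_ (NTriv.singleton (hc.mono (singleton_subset_iff.2 hx₀)))
    · intro x hx t ht
      exact hS hx hx₀ (by linarith [ht.2]) ht.1 (by ring)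
    · intro x _; simp
    · intro x _; simp

/-- Product with a convex set. -/
theorem NTriv.prod_convex {E : Type*} [NormedAddCommGroup E] [NormedSpace ℝ E] {S : Set A}
    {C : Set E} (hC : Convex ℝ C) {e₀ : E} (he₀ : e₀ ∈ C) {c : A × E → A × E → Q}
    (hc : NCoc c (S ×ˢ C)) (h0 : NTriv (fun a b => c (a, e₀) (b, e₀)) S) :
    NTriv c (S ×ˢ C) := by
  have h1 : NTriv c (S ×ˢ {e₀}) := by
    have h2 : NTriv (fun x y : A × E => c (x.1, e₀) (y.1, e₀)) (S ×ˢ {e₀}) := by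
      refine NTriv.comp (c := fun a b => c (a, e₀) (b, e₀)) (φ := Prod.fst) (by fun_prop)
        (h0.mono ?_)
      rintro _ ⟨⟨a, e⟩, ⟨ha, _⟩, rfl⟩
      exact ha
    refine ASB_congr ?_ h2
    rintro ⟨a, e⟩ ⟨_, he⟩ ⟨b, e'⟩ ⟨_, he'⟩
    rw [mem_singleton_iff] at he he'
    simp only at he he' ⊢
    rw [he, he']
  refine NTriv.deform (T := S ×ˢ {e₀})
    (H := fun p : (A × E) × ℝ => (p.1.1, (1 - p.2) • p.1.2 + p.2 • e₀)) (by fun_prop) hc ?_ ?_ ?_ h1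
  · rintro ⟨a, e⟩ ⟨ha, he⟩ t ht
    exact ⟨ha, hC he he₀ (by linarith [ht.2]) ht.1 (by ring)⟩
  · rintro ⟨a, e⟩ _; simp
  · rintro ⟨a, e⟩ ⟨ha, _⟩; exact ⟨ha, by simp⟩

end Pool.H54.UB
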