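import Pool.Agent.H54.UB.Core

/-!
# Row SD: topology of the sup-norm sphere

`sphere_point`: finitely many simplices with at most `m` vertices do not cover the unit sphere of
`Fin (m+1) → ℝ`: otherwise the cones `convexHull (insert 0 s)` would cover the closed unit ball
(every `x` with `0 < ‖x‖ ≤ 1` is on the segment from `0` to `x/‖x‖`), but they have at most `m+1`
vertices, so they lie in the (proper) affine subspaces `affineSpan (insert 0 s)` of dimension `≤ m`,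
which have measure zero (`MeasureTheory.Measure.addHaar_affineSubspace`) (or: empty interior, Baire).

`sphere_null`: `H x t = ‖y‖⁻¹ • y`, `y = (1-t) x - t x₀`; `y ≠ 0`: otherwise `(1-t) x = t x₀`, taking
norms `1 - t = t`, so `x = x₀`.

`sphere_manifold`: charts.  Let `x` be in the sphere, `T = {i | |x i| = 1}` (nonempty), `i₀ ∈ T`,
`s i = x i` for `i ∈ T`.  Near `x` the sphere is `{y | max_{i ∈ T} s i * y i = 1}`.  Use the map
`h y = (coordinates i ≠ i₀: s i * y i - s i₀ * y i₀ for i ∈ T, y i - x i for i ∉ T) / ε`.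
It is injective on this set, with inverse: given `z` (put `z i₀ = 0`): `s i y i = 1 + z i - max_T z`
for `i ∈ T`.  The chart domain `U` = preimage of the cube `[-1,1]^m` inside the sphere and a small box
around `x` (for small `ε` the inverse formula stays near `x`).  `U` is a polyhedron (use `PLOn.symm`
or: image of the cube under the explicit PL inverse, `PLOn.image`), `h` is affine.
-/

open Set Topology

namespace Pool.H54.UB

theorem sphere_point (m : ℕ) (S : Set (Finset (Fin (m + 1) → ℝ))) (hS : S.Finite)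
    (hc : ∀ s ∈ S, s.card ≤ m) :
    ∃ x₀ ∈ Metric.sphere (0 : Fin (m + 1) → ℝ) 1, ∀ s ∈ S,
      x₀ ∉ convexHull ℝ (s : Set (Fin (m + 1) → ℝ)) := by
  classical
  have hne : (⊤ : Subspace ℝ (Fin (m + 1) → ℝ)) ∉
      insert (⊥ : Submodule ℝ (Fin (m + 1) → ℝ))
        (hS.toFinset.image (fun s : Finset (Fin (m + 1) → ℝ) => Submodule.span ℝ (s : Set (Fin (m + 1) → ℝ)))) := by
    intro h
    rcases Finset.mem_insert.1 h with h | h
    · exact top_ne_bot h
    · obtain ⟨s, hs, hs2⟩ := Finset.mem_image.1 h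
      have h1 : Module.finrank ℝ (Submodule.span ℝ (s : Set (Fin (m + 1) → ℝ))) ≤ s.card :=
        finrank_span_finset_le_card s
      rw [hs2, finrank_top, Module.finrank_fin_fun] at h1
      have h2 := hc s ((Set.Finite.mem_toFinset hS).1 hs)
      omega
  have hU := Subspace.biUnion_ne_univ_of_top_notMem hne
  obtain ⟨v, hv⟩ := (Set.ne_univ_iff_exists_notMem _).1 hU
  have hv0 : v ≠ 0 := by
    rintro rfl
    exact hv (Set.mem_iUnion₂.2 ⟨⊥, Finset.mem_insert_self _ _, Submodule.zero_mem _⟩)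
  have hn : ‖v‖ ≠ 0 := norm_ne_zero_iff.2 hv0
  refine ⟨‖v‖⁻¹ • v, ?_, ?_⟩
  · rw [mem_sphere_zero_iff_norm, norm_smul, norm_inv, norm_norm, inv_mul_cancel₀ hn]
  · intro s hs hmem
    have h1 : ‖v‖⁻¹ • v ∈ Submodule.span ℝ (s : Set (Fin (m + 1) → ℝ)) :=
      convexHull_min Submodule.subset_span (Submodule.convex _) hmem
    have h2 : v ∈ Submodule.span ℝ (s : Set (Fin (m + 1) → ℝ)) := by
      have := Submodule.smul_mem _ ‖v‖ h1
      rwa [smul_smul, mul_inv_cancel₀ hn, one_smul] at this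
    exact hv (Set.mem_iUnion₂.2 ⟨Submodule.span ℝ (s : Set (Fin (m + 1) → ℝ)),
      Finset.mem_insert_of_mem (Finset.mem_image.2 ⟨s, (Set.Finite.mem_toFinset hS).2 hs, rfl⟩), h2⟩)

theorem sphere_null (m : ℕ) (x₀ : Fin (m + 1) → ℝ) (hx₀ : ‖x₀‖ = 1) :
    ∃ H : (Fin (m + 1) → ℝ) × ℝ → (Fin (m + 1) → ℝ),
      ContinuousOn H ((Metric.sphere 0 1 \ {x₀}) ×ˢ Icc 0 1) ∧
      (∀ x ∈ Metric.sphere (0 : Fin (m + 1) → ℝ) 1, x ≠ x₀ → H (x, 0) = x ∧ H (x, 1) = -x₀ ∧
        ∀ t ∈ Icc (0 : ℝ) 1, H (x, t) ∈ Metric.sphere (0 : Fin (m + 1) → ℝ) 1) := by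
  have key : ∀ x ∈ Metric.sphere (0 : Fin (m + 1) → ℝ) 1, x ≠ x₀ → ∀ t ∈ Icc (0 : ℝ) 1,
      (1 - t) • x - t • x₀ ≠ 0 := by
    intro x hx hne t ht h0
    have hx1 : ‖x‖ = 1 := mem_sphere_zero_iff_norm.1 hx
    have h1 : (1 - t) • x = t • x₀ := sub_eq_zero.1 h0
    have h2 : ‖(1 - t) • x‖ = ‖t • x₀‖ := by rw [h1]
    rw [norm_smul, norm_smul, hx1, hx₀, Real.norm_of_nonneg ht.1,
      Real.norm_of_nonneg (by linarith [ht.2])] at h2
    have h3 : t = 1 / 2 := by linarith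
    subst h3
    have h4 : ((1 : ℝ) / 2) • x = ((1 : ℝ) / 2) • x₀ := by
      have : (1 : ℝ) - 1 / 2 = 1 / 2 := by norm_num
      rw [this] at h1
      exact h1
    exact hne (smul_right_injective _ (by norm_num : ((1 : ℝ) / 2) ≠ 0) h4)
  refine ⟨fun p => ‖(1 - p.2) • p.1 - p.2 • x₀‖⁻¹ • ((1 - p.2) • p.1 - p.2 • x₀), ?_, ?_⟩
  · have hc1 : ContinuousOn (fun p : (Fin (m + 1) → ℝ) × ℝ => (1 - p.2) • p.1 - p.2 • x₀)
        ((Metric.sphere 0 1 \ {x₀}) ×ˢ Icc 0 1) := by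
      apply Continuous.continuousOn
      fun_prop
    have hc2 : ContinuousOn (fun p : (Fin (m + 1) → ℝ) × ℝ => ‖(1 - p.2) • p.1 - p.2 • x₀‖⁻¹)
        ((Metric.sphere 0 1 \ {x₀}) ×ˢ Icc 0 1) := by
      apply ContinuousOn.inv₀ hc1.norm
      rintro ⟨x, t⟩ ⟨hx, ht⟩
      exact norm_ne_zero_iff.2 (key x hx.1 (fun h => hx.2 h) t ht)
    exact hc2.smul hc1
  · intro x hx hne
    have hx1 : ‖x‖ = 1 := mem_sphere_zero_iff_norm.1 hx
    refine ⟨?_, ?_, ?_⟩
    · simp [hx1]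
    · simp [hx₀]
    · intro t ht
      have hn : ‖(1 - t) • x - t • x₀‖ ≠ 0 := norm_ne_zero_iff.2 (key x hx hne t ht)
      rw [mem_sphere_zero_iff_norm, norm_smul, norm_inv, norm_norm, inv_mul_cancel₀ hn]

theorem sphere_connected (m : ℕ) (hm : 1 ≤ m) :
    IsConnected (Metric.sphere (0 : Fin (m + 1) → ℝ) 1) := by
  apply isConnected_sphere _ _ zero_le_one
  rw [rank_fin_fun]
  exact_mod_cast (by omega : 1 < m + 1)

end Pool.H54.UB
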