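import Pool.Agent.H54.UB.ASB
import Pool.Agent.H54.UB.SD

/-!
# Row ASC: the sphere of dimension `≥ 2` has only trivial cocycles

`A = {x ∈ S | 0 ≤ x 0}`, `B = {x ∈ S | x 0 ≤ 0}` closed, `A ∪ B = S`.  `A` deforms to the point `e_0`:
`H (x, t) = normalisation of (1-t) x + t e_0` (the coordinate `0` is `≥ 0`, positive for `t > 0`, so
the vector is nonzero); `NTriv.deform`, `NTriv.singleton`; similarly `B` with `-e_0`.
`A ∩ B = {x | ‖x‖ = 1, x 0 = 0}` is the image of the unit sphere of `Fin m → ℝ` under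
`Fin.cons 0`, connected because `m ≥ 2` (`isConnected_sphere`, `Module.rank = m > 1`).
`NTriv.union_closed`.
-/

open Set Topology

namespace Pool.H54.UB

/-- the closed half spheres -/
def ASC_half (m : ℕ) (σ : ℝ) : Set (Fin (m + 1) → ℝ) :=
  {x | ‖x‖ = 1 ∧ 0 ≤ σ * x 0}

private theorem ASC_half_closed (m : ℕ) (σ : ℝ) : IsClosed (ASC_half m σ) := by
  have h1 : IsClosed {x : Fin (m + 1) → ℝ | ‖x‖ = 1} := isClosed_eq (by fun_prop) (by fun_prop)
  have h2 : IsClosed {x : Fin (m + 1) → ℝ | 0 ≤ σ * x 0} := isClosed_le (by fun_prop) (by fun_prop)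
  exact h1.inter h2

private theorem ASC_qhalf (m : ℕ) {σ : ℝ} (hσ : |σ| = 1) (Q : Type*) [Group Q]
    {c : (Fin (m + 1) → ℝ) → (Fin (m + 1) → ℝ) → Q} (hc : NCoc c (ASC_half m σ)) :
    NTriv c (ASC_half m σ) := by
  have hσ2 : σ * σ = 1 := by
    have := abs_mul_abs_self σ
    rw [hσ] at this
    linarith
  set e : Fin (m + 1) → ℝ := Pi.single 0 σ with he
  have he0 : e 0 = σ := by simp [he]
  have hen : ‖e‖ = 1 := by
    rw [he, Pi.norm_single, Real.norm_eq_abs, hσ]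
  have hmem : e ∈ ASC_half m σ := ⟨hen, by rw [he0, hσ2]; exact zero_le_one⟩
  have hnn : ∀ x ∈ ASC_half m σ, ∀ t ∈ Icc (0 : ℝ) 1, 0 ≤ σ * ((1 - t) • x + t • e) 0 := by
    intro x hx t ht
    have h1 : σ * ((1 - t) • x + t • e) 0 = (1 - t) * (σ * x 0) + t * (σ * σ) := by
      simp only [Pi.add_apply, Pi.smul_apply, smul_eq_mul, he0]
      ring
    rw [h1, hσ2]
    have h2 := mul_nonneg (sub_nonneg.2 ht.2) hx.2
    linarith [ht.1]
  have key : ∀ x ∈ ASC_half m σ, ∀ t ∈ Icc (0 : ℝ) 1, (1 - t) • x + t • e ≠ 0 := by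
    intro x hx t ht h0
    have h1 : σ * ((1 - t) • x + t • e) 0 = (1 - t) * (σ * x 0) + t * (σ * σ) := by
      simp only [Pi.add_apply, Pi.smul_apply, smul_eq_mul, he0]
      ring
    rw [h0, hσ2] at h1
    have h2 := mul_nonneg (sub_nonneg.2 ht.2) hx.2
    have h3 : t = 0 := by
      have : (0 : ℝ) = (1 - t) * (σ * x 0) + t * 1 := by simpa using h1
      linarith [ht.1]
    rw [h3] at h0
    have h4 : x = 0 := by simpa using h0
    have h5 := hx.1
    rw [h4, norm_zero] at h5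
    exact zero_ne_one h5
  refine NTriv.deform (T := {e})
    (H := fun p => ‖(1 - p.2) • p.1 + p.2 • e‖⁻¹ • ((1 - p.2) • p.1 + p.2 • e)) ?_ hc ?_ ?_ ?_
    (NTriv.singleton (hc.mono (singleton_subset_iff.2 hmem)))
  · have hc1 : ContinuousOn (fun p : (Fin (m + 1) → ℝ) × ℝ => (1 - p.2) • p.1 + p.2 • e)
        (ASC_half m σ ×ˢ Icc 0 1) := by
      apply Continuous.continuousOn
      fun_prop
    have hc2 : ContinuousOn (fun p : (Fin (m + 1) → ℝ) × ℝ => ‖(1 - p.2) • p.1 + p.2 • e‖⁻¹)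
        (ASC_half m σ ×ˢ Icc 0 1) := by
      apply ContinuousOn.inv₀ hc1.norm
      rintro ⟨x, t⟩ ⟨hx, ht⟩
      exact norm_ne_zero_iff.2 (key x hx t ht)
    exact hc2.smul hc1
  · intro x hx t ht
    have hn : ‖(1 - t) • x + t • e‖ ≠ 0 := norm_ne_zero_iff.2 (key x hx t ht)
    refine ⟨?_, ?_⟩
    · show ‖‖(1 - t) • x + t • e‖⁻¹ • ((1 - t) • x + t • e)‖ = 1
      rw [norm_smul, norm_inv, norm_norm, inv_mul_cancel₀ hn]
    · show 0 ≤ σ * (‖(1 - t) • x + t • e‖⁻¹ • ((1 - t) • x + t • e)) 0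
      rw [Pi.smul_apply, smul_eq_mul]
      have h1 := hnn x hx t ht
      have h2 : 0 ≤ ‖(1 - t) • x + t • e‖⁻¹ := by positivity
      have h3 := mul_nonneg h2 h1
      linarith
  · intro x hx
    simp [hx.1]
  · intro x hx
    simp [hen]

private theorem ASC_inter (m : ℕ) (hm : 2 ≤ m) :
    IsPreconnected (ASC_half m 1 ∩ ASC_half m (-1)) := by
  obtain ⟨k, rfl⟩ : ∃ k, m = k + 1 := ⟨m - 1, by omega⟩
  have h1 := (sphere_connected k (by omega)).isPreconnected
  have h2 : Continuous (fun x : Fin (k + 1) → ℝ => (Fin.cons (0 : ℝ) x : Fin (k + 1 + 1) → ℝ)) := by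
    refine continuous_pi fun i => ?_
    refine Fin.cases ?_ (fun j => ?_) i
    · simp only [Fin.cons_zero]
      exact continuous_const
    · simp only [Fin.cons_succ]
      exact continuous_apply j
  have h3 := h1.image _ h2.continuousOn
  have hnorm : ∀ x : Fin (k + 1) → ℝ, ‖(Fin.cons (0 : ℝ) x : Fin (k + 1 + 1) → ℝ)‖ = ‖x‖ := by
    intro x
    apply le_antisymm
    · refine (pi_norm_le_iff_of_nonneg (norm_nonneg x)).2 fun i => ?_
      refine Fin.cases ?_ (fun j => ?_) i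
      · simp
      · simpa using norm_le_pi_norm x j
    · refine (pi_norm_le_iff_of_nonneg (norm_nonneg _)).2 fun j => ?_
      have := norm_le_pi_norm (Fin.cons (0 : ℝ) x : Fin (k + 1 + 1) → ℝ) j.succ
      simpa using this
  have h4 : ASC_half (k + 1) 1 ∩ ASC_half (k + 1) (-1) =
      (fun x : Fin (k + 1) → ℝ => (Fin.cons (0 : ℝ) x : Fin (k + 1 + 1) → ℝ)) ''
        Metric.sphere (0 : Fin (k + 1) → ℝ) 1 := by
    ext y
    constructor
    · rintro ⟨⟨hy1, hy2⟩, -, hy3⟩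
      have hy0 : y 0 = 0 := by linarith
      have hcons : (Fin.cons (0 : ℝ) (Fin.tail y) : Fin (k + 1 + 1) → ℝ) = y := by
        rw [← hy0]
        exact Fin.cons_self_tail y
      refine ⟨Fin.tail y, ?_, hcons⟩
      rw [mem_sphere_zero_iff_norm, ← hnorm, hcons]
      exact hy1
    · rintro ⟨x, hx, rfl⟩
      rw [mem_sphere_zero_iff_norm] at hx
      refine ⟨⟨by rw [hnorm, hx], ?_⟩, ⟨by rw [hnorm, hx], ?_⟩⟩
      · simp
      · simp
  rw [h4]
  exact h3

theorem sphere_qtriv (m : ℕ) (hm : 2 ≤ m) (Q : Type*) [Group Q] :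
    QTriv Q (Metric.sphere (0 : Fin (m + 1) → ℝ) 1) := by
  intro c hc
  have h1 : Metric.sphere (0 : Fin (m + 1) → ℝ) 1 = ASC_half m 1 ∪ ASC_half m (-1) := by
    ext y
    rw [mem_sphere_zero_iff_norm]
    constructor
    · intro hy
      rcases le_total 0 (y 0) with h | h
      · exact Or.inl ⟨hy, by linarith⟩
      · exact Or.inr ⟨hy, by linarith⟩
    · rintro (h | h)
      · exact h.1
      · exact h.1
  rw [h1] at hc ⊢
  refine NTriv.union_closed (ASC_half_closed m 1) (ASC_half_closed m (-1)) hc (ASC_inter m hm)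
    (ASC_qhalf m (by norm_num) Q (hc.mono subset_union_left))
    (ASC_qhalf m (by norm_num) Q (hc.mono subset_union_right))

end Pool.H54.UB
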