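import Pool.Agent.H54.UB.GA

/-!
# Row BAR: barycentric coordinates are continuous; the vertex map `lam`

`bary`: define `β v x` = weight of `v` in the unique positive representation of `x` (0 if `v` is not
in the carrier or `x` is not in the space).  On `convexHull s` (`s` a face) it is the restriction of
an affine (hence continuous) function (barycentric coordinate of the affinely independent set `s`,
or by compactness: the map from the standard simplex on `s` to `convexHull s` is a continuous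
bijection of compact Hausdorff spaces, a homeomorphism).  Finite closed cover => continuous on the
space.

`exists_lam`: let `n` be the number of vertices (if the space is empty everything is trivial).
`lam x` := a vertex with maximal `β v x` (so `β (lam x) x ≥ 1/n` for `x` in the space).  The space is
compact, so the `β v` are uniformly continuous on it: there is `δ > 0` with
`dist x y < δ → |β v x - β v y| < 1/n` for all vertices `v`; then `β (lam x) y > 0`, i.e. `lam x`
belongs to the carrier of `y`.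
-/

open Set Topology

namespace Pool.H54.UB

variable {E : Type*} [NormedAddCommGroup E] [NormedSpace ℝ E]

theorem BAR_affcomb (A : E →ᵃ[ℝ] ℝ) (s : Finset E) (w : E → ℝ) (h1 : ∑ u ∈ s, w u = 1) :
    A (∑ u ∈ s, w u • u) = ∑ u ∈ s, w u * A u := by
  have hA : ∀ x, A x = A.linear x + A 0 := by
    intro x
    have := A.decomp
    exact congrFun this x
  rw [hA, map_sum]
  have : ∑ u ∈ s, w u * A u = ∑ u ∈ s, (w u * A.linear u + w u * A 0) := by
    refine Finset.sum_congr rfl fun u _ => ?_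
    rw [hA u]; ring
  rw [this, Finset.sum_add_distrib, ← Finset.sum_mul, h1, one_mul]
  congr 1
  refine Finset.sum_congr rfl fun u _ => ?_
  rw [map_smul, smul_eq_mul]

theorem BAR_cont (A : E →ᵃ[ℝ] ℝ) (s : Finset E) :
    ContinuousOn A (convexHull ℝ (s : Set E)) := by
  have hsub : convexHull ℝ (s : Set E) ⊆ (Submodule.span ℝ (s : Set E) : Set E) :=
    convexHull_min Submodule.subset_span (Submodule.convex _)
  refine ContinuousOn.mono ?_ hsub
  rw [continuousOn_iff_continuous_domRestrict]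
  have hfd : FiniteDimensional ℝ (Submodule.span ℝ (s : Set E)) :=
    FiniteDimensional.span_finset ℝ s
  exact (A.comp (Submodule.span ℝ (s : Set E)).subtype.toAffineMap).continuous_of_finiteDimensional

open Classical in
theorem BAR_coord {s : Finset E} (hs : AffineIndependent ℝ (fun x : s => (x : E))) {v : E}
    (hv : v ∈ s) : ∃ A : E →ᵃ[ℝ] ℝ, ∀ u ∈ s, A u = if u = v then 1 else 0 := by
  obtain ⟨t, hst, ht, hspan⟩ := exists_subset_affineIndependent_affineSpan_eq_top
    (s := (s : Set E)) (k := ℝ) hs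
  let b : AffineBasis t ℝ E := ⟨fun x : t => (x : E), ht, by simpa using hspan⟩
  refine ⟨b.coord ⟨v, hst hv⟩, fun u hu => ?_⟩
  have hbu : b ⟨u, hst hu⟩ = u := rfl
  by_cases huv : u = v
  · subst huv
    rw [if_pos rfl]
    exact b.coord_apply_eq ⟨u, hst hu⟩
  · rw [if_neg huv]
    refine b.coord_apply_ne (i := ⟨v, hst hv⟩) (j := ⟨u, hst hu⟩) ?_
    intro h
    exact huv (congrArg Subtype.val h).symm

open Classical in
/-- The barycentric coordinate. -/
noncomputable def BAR_b (K : GC E) (v x : E) : ℝ :=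
  if h : ∃ (t : Finset E) (w : E → ℝ), t ∈ K.faces ∧ (∀ y ∈ t, 0 < w y) ∧ ∑ y ∈ t, w y = 1 ∧
      ∑ y ∈ t, w y • y = x then
    (if v ∈ h.choose then h.choose_spec.choose v else 0)
  else 0

open Classical in
theorem BAR_b_eq (K : GC E) {v x : E} {t : Finset E} {w : E → ℝ} (ht : t ∈ K.faces)
    (hw : ∀ y ∈ t, 0 < w y) (h1 : ∑ y ∈ t, w y = 1) (hx : ∑ y ∈ t, w y • y = x) :
    BAR_b K v x = if v ∈ t then w v else 0 := by
  have h : ∃ (t : Finset E) (w : E → ℝ), t ∈ K.faces ∧ (∀ y ∈ t, 0 < w y) ∧ ∑ y ∈ t, w y = 1 ∧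
      ∑ y ∈ t, w y • y = x := ⟨t, w, ht, hw, h1, hx⟩
  unfold BAR_b
  rw [dif_pos h]
  obtain ⟨a1, a2, a3, a4⟩ := h.choose_spec.choose_spec
  obtain ⟨e1, e2⟩ := K.uniq t ht _ a1 w _ hw a2 h1 a3 (hx.trans a4.symm)
  by_cases hv : v ∈ t
  · rw [if_pos hv, if_pos (e1 ▸ hv), e2 v hv]
  · rw [if_neg hv, if_neg (fun h' => hv (e1 ▸ h'))]

open Classical in
theorem BAR_b_eq' (K : GC E) {v x : E} {s : Finset E} {w : E → ℝ} (hs : s ∈ K.faces)
    (hw : ∀ y ∈ s, 0 ≤ w y) (h1 : ∑ y ∈ s, w y = 1) (hx : ∑ y ∈ s, w y • y = x) :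
    BAR_b K v x = if v ∈ s then w v else 0 := by
  set t := s.filter (fun y => 0 < w y) with htdef
  have hts : t ⊆ s := Finset.filter_subset _ _
  have hz : ∀ y ∈ s, y ∉ t → w y = 0 := by
    intro y hy hyt
    have : ¬ 0 < w y := fun h => hyt (Finset.mem_filter.2 ⟨hy, h⟩)
    exact le_antisymm (not_lt.1 this) (hw y hy)
  have h1' : ∑ y ∈ t, w y = 1 := by
    rw [Finset.sum_subset hts hz, h1]
  have hx' : ∑ y ∈ t, w y • y = x := by
    rw [Finset.sum_subset hts (fun y hy hyt => by rw [hz y hy hyt, zero_smul]), hx]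
  have hne : t.Nonempty := by
    rw [Finset.nonempty_iff_ne_empty]
    intro h
    rw [h] at h1'
    simp at h1'
  have ht : t ∈ K.faces := K.down s hs t hts hne
  rw [BAR_b_eq K ht (fun y hy => (Finset.mem_filter.1 hy).2) h1' hx']
  by_cases hvt : v ∈ t
  · rw [if_pos hvt, if_pos (hts hvt)]
  · rw [if_neg hvt]
    by_cases hvs : v ∈ s
    · rw [if_pos hvs, hz v hvs hvt]
    · rw [if_neg hvs]

theorem BAR_mem {s : Finset E} {x : E} (hx : x ∈ convexHull ℝ (s : Set E)) :
    ∃ w : E → ℝ, (∀ y ∈ s, 0 ≤ w y) ∧ ∑ y ∈ s, w y = 1 ∧ ∑ y ∈ s, w y • y = x :=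
  Finset.mem_convexHull'.1 hx

theorem BAR_aff (K : GC E) {s : Finset E} (hs : s ∈ K.faces) (v : E) :
    AffOn (BAR_b K v) (convexHull ℝ (s : Set E)) := by
  classical
  by_cases hv : v ∈ s
  · obtain ⟨A, hA⟩ := BAR_coord (K.affineIndependent hs) hv
    refine ⟨A, fun x hx => ?_⟩
    obtain ⟨w, hw, h1, rfl⟩ := BAR_mem hx
    rw [BAR_b_eq' K hs hw h1 rfl, if_pos hv, BAR_affcomb A s w h1]
    rw [Finset.sum_congr rfl (fun u hu => by rw [hA u hu])]
    simp [Finset.sum_ite_eq', hv]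
  · refine ⟨AffineMap.const ℝ E 0, fun x hx => ?_⟩
    obtain ⟨w, hw, h1, rfl⟩ := BAR_mem hx
    rw [BAR_b_eq' K hs hw h1 rfl, if_neg hv]
    simp

theorem BAR_contOn (K : GC E) (v : E) : ContinuousOn (BAR_b K v) K.space := by
  have hfin : Finite K.faces := K.fin
  have hsp : K.space = ⋃ s : K.faces, convexHull ℝ ((s : Finset E) : Set E) := by
    unfold GC.space
    rw [biUnion_eq_iUnion]
  rw [hsp]
  refine LocallyFinite.continuousOn_iUnion (locallyFinite_of_finite _) (fun s => ?_) (fun s => ?_)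
  · exact (Set.Finite.isCompact_convexHull (𝕜 := ℝ) (Finset.finite_toSet _)).isClosed
  · obtain ⟨A, hA⟩ := BAR_aff K s.2 v
    exact (BAR_cont A _).congr hA

theorem GC.bary (K : GC E) :
    ∃ β : E → E → ℝ, (∀ v, ContinuousOn (β v) K.space) ∧ (∀ v x, 0 ≤ β v x) ∧
      (∀ v x s, K.IsCarrier x s → (0 < β v x ↔ v ∈ s)) ∧
      (∀ x s, K.IsCarrier x s → ∑ v ∈ s, β v x = 1 ∧ ∑ v ∈ s, β v x • v = x) ∧
      ∀ s ∈ K.faces, ∀ v, AffOn (β v) (convexHull ℝ (s : Set E)) := by
  classical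
  refine ⟨BAR_b K, BAR_contOn K, ?_, ?_, ?_, fun s hs v => BAR_aff K hs v⟩
  · intro v x
    by_cases h : ∃ (t : Finset E) (w : E → ℝ), t ∈ K.faces ∧ (∀ y ∈ t, 0 < w y) ∧
        ∑ y ∈ t, w y = 1 ∧ ∑ y ∈ t, w y • y = x
    · obtain ⟨t, w, a1, a2, a3, a4⟩ := h
      rw [BAR_b_eq K a1 a2 a3 a4]
      split_ifs with hv
      · exact (a2 v hv).le
      · exact le_rfl
    · unfold BAR_b
      rw [dif_neg h]
  · rintro v x s ⟨hs, w, a2, a3, a4⟩
    rw [BAR_b_eq K hs a2 a3 a4]
    split_ifs with hv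
    · exact ⟨fun _ => hv, fun _ => a2 v hv⟩
    · exact ⟨fun h => absurd h (lt_irrefl _), fun h => absurd h hv⟩
  · rintro x s ⟨hs, w, a2, a3, a4⟩
    have key : ∀ v ∈ s, BAR_b K v x = w v := fun v hv => by
      rw [BAR_b_eq K hs a2 a3 a4, if_pos hv]
    constructor
    · rw [Finset.sum_congr rfl key, a3]
    · rw [Finset.sum_congr rfl (fun v hv => by rw [key v hv]), a4]

theorem BAR_compact (K : GC E) : IsCompact K.space :=
  K.fin.isCompact_biUnion fun _ _ =>
    Set.Finite.isCompact_convexHull (𝕜 := ℝ) (Finset.finite_toSet _)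

theorem GC.exists_lam (K : GC E) :
    ∃ (lam : E → E) (δ : ℝ), 0 < δ ∧ ∀ x ∈ K.space, ∀ y ∈ K.space, dist x y < δ →
      ∀ s, K.IsCarrier y s → lam x ∈ s := by
  classical
  obtain ⟨β, hc, h0, hpos, hsum, -⟩ := K.bary
  rcases K.space.eq_empty_or_nonempty with he | ⟨x0, hx0⟩
  · refine ⟨id, 1, one_pos, fun x hx => ?_⟩
    rw [he] at hx
    exact hx.elim
  have hsv : ∀ {x s}, K.IsCarrier x s → s ⊆ K.verts_finite.toFinset := by
    intro x s hs v hv
    rw [Set.Finite.mem_toFinset]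
    exact ⟨s, hs.1, hv⟩
  set V := K.verts_finite.toFinset with hV
  have hVpos : 0 < V.card := by
    obtain ⟨s, hs⟩ := K.exists_carrier' hx0
    have hne := K.ne s hs.1
    exact Finset.card_pos.2 (hne.mono (hsv hs))
  have hex : ∀ x, ∃ v, x ∈ K.space → v ∈ V ∧ (1 : ℝ) / V.card ≤ β v x := by
    intro x
    by_cases hx : x ∈ K.space
    · obtain ⟨s, hs⟩ := K.exists_carrier' hx
      obtain ⟨h1, -⟩ := hsum x s hs
      by_contra hcon
      push Not at hcon
      have hlt : ∀ v ∈ s, β v x < (1 : ℝ) / V.card := fun v hv => (hcon v).2 (hsv hs hv)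
      have h2 : ∑ v ∈ s, β v x < ∑ v ∈ s, (1 : ℝ) / V.card :=
        Finset.sum_lt_sum_of_nonempty (K.ne s hs.1) hlt
      rw [h1, Finset.sum_const, nsmul_eq_mul] at h2
      have hcard : (s.card : ℝ) ≤ V.card := by exact_mod_cast Finset.card_le_card (hsv hs)
      have hVp : (0 : ℝ) < V.card := by exact_mod_cast hVpos
      have : (s.card : ℝ) * (1 / V.card) ≤ 1 := by
        rw [mul_one_div, div_le_one hVp]
        exact hcard
      linarith
    · exact ⟨x, fun h => absurd h hx⟩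
  choose lam hlam using hex
  have hF : ContinuousOn (fun x => fun v : V => β v x) K.space :=
    continuousOn_pi.2 fun v => hc v
  have hU := (BAR_compact K).uniformContinuousOn_of_continuous hF
  rw [Metric.uniformContinuousOn_iff] at hU
  have hVp : (0 : ℝ) < V.card := by exact_mod_cast hVpos
  obtain ⟨δ, hδ, hU⟩ := hU (1 / V.card) (by positivity)
  refine ⟨lam, δ, hδ, fun x hx y hy hxy s hs => ?_⟩
  obtain ⟨hl1, hl2⟩ := hlam x hx
  have h3 := hU x hx y hy hxy
  have h4 := (dist_le_pi_dist (fun v : V => β v x) (fun v : V => β v y) ⟨lam x, hl1⟩).trans_lt h3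
  rw [Real.dist_eq] at h4
  have h5 := (abs_lt.1 h4).2
  simp only at h5
  rw [← hpos (lam x) y s hs]
  linarith

end Pool.H54.UB
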