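import Mathlib

/-!
# Row NEWT: the combinatorial Newton argument

Let `I : (Fin m → Fin d) → R`, `d < m`, such that for every nonempty proper subset `B` of `Fin m` and
every `s`, `∑_{j} I (i ↦ if i ∈ B then j else s i) = 0`.  Then `∑_j I (fun _ => j) = 0` if
`(m-1)! ≠ 0` in the field `R`.

Proof.  For `κ : Fin m → Fin r` put `S κ = ∑_{e : Fin r ↪ Fin d} I (e ∘ κ)`.
For `κ : Fin m → Fin (r+1)` surjective, `r ≥ 1`:
`S κ = - ∑_{t : Fin r} S (merge_t ∘ κ)`, `merge_t : Fin (r+1) → Fin r`, `last ↦ t`, `castSucc i ↦ i`: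
an embedding `Fin (r+1) ↪ Fin d` is an embedding `e : Fin r ↪ Fin d` together with a value `j` outside
its range; `∑_{j ∈ range e complement} = ∑_{all j} - ∑_{t} (j = e t)`, and `∑_{all j} = 0` by the
hypothesis for `B = κ⁻¹ (last)` (nonempty and proper because `κ` is surjective and `r ≥ 1`).
`merge_t ∘ κ` is again surjective.  By induction on `r`:
`S κ = (-1)^r r! S (const : Fin m → Fin 1)` for surjective `κ : Fin m → Fin (r+1)`, and
`S const = ∑_j I (fun _ => j)`.  For `κ = id` (`r + 1 = m`; note `m ≥ 1` since `d < m`) there is no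
embedding `Fin m ↪ Fin d`, so `0 = (-1)^(m-1) (m-1)! S const`.
-/

namespace Pool.H54.UB

open Finset

open Classical in
/-- sum over the injective maps -/
noncomputable def NEWT_S {R : Type*} [Field R] {m d : ℕ} (I : (Fin m → Fin d) → R) (r : ℕ)
    (κ : Fin m → Fin r) : R :=
  ∑ e : Fin r → Fin d, if Function.Injective e then I (e ∘ κ) else 0

theorem NEWT_cons {m d r : ℕ} (κ : Fin m → Fin (r + 1)) (e : Fin r → Fin d) (t : Fin r) :
    (Fin.cons (e t) e : Fin (r + 1) → Fin d) ∘ κ =
      e ∘ ((Fin.cons t id : Fin (r + 1) → Fin r) ∘ κ) := by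
  funext i
  simp only [Function.comp_apply]
  refine Fin.cases ?_ (fun x => ?_) (κ i)
  · simp
  · simp

theorem NEWT_zero {R : Type*} [Field R] {m d : ℕ} (I : (Fin m → Fin d) → R)
    (h : ∀ B : Finset (Fin m), B.Nonempty → B ≠ univ → ∀ s : Fin m → Fin d,
      ∑ j : Fin d, I (fun i => if i ∈ B then j else s i) = 0) {r : ℕ} (hr : 0 < r)
    (κ : Fin m → Fin (r + 1)) (hκ : Function.Surjective κ) (e : Fin r → Fin d) :
    ∑ j : Fin d, I ((Fin.cons j e : Fin (r + 1) → Fin d) ∘ κ) = 0 := by
  have h1 := h (univ.filter fun i => κ i = 0) ?_ ?_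
    (fun i => (Fin.cons (e ⟨0, hr⟩) e : Fin (r + 1) → Fin d) (κ i))
  · rw [← h1]
    refine sum_congr rfl fun j _ => ?_
    congr 1
    funext i
    by_cases hi : κ i = 0
    · simp [hi]
    · simp only [Function.comp_apply, mem_filter, mem_univ, true_and, hi, if_false]
      obtain ⟨x, hx⟩ := Fin.exists_succ_eq.mpr hi
      rw [← hx]
      simp
  · obtain ⟨i, hi⟩ := hκ 0
    exact ⟨i, by simp [hi]⟩
  · intro h2
    obtain ⟨i, hi⟩ := hκ (Fin.succ ⟨0, hr⟩)
    have h3 : i ∈ univ.filter fun i => κ i = 0 := by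
      rw [h2]
      exact mem_univ i
    rw [mem_filter] at h3
    rw [hi] at h3
    exact Fin.succ_ne_zero _ h3.2

theorem NEWT_step {R : Type*} [Field R] {m d : ℕ} (I : (Fin m → Fin d) → R)
    (h : ∀ B : Finset (Fin m), B.Nonempty → B ≠ univ → ∀ s : Fin m → Fin d,
      ∑ j : Fin d, I (fun i => if i ∈ B then j else s i) = 0) {r : ℕ} (hr : 0 < r)
    (κ : Fin m → Fin (r + 1)) (hκ : Function.Surjective κ) :
    NEWT_S I (r + 1) κ = -∑ t : Fin r, NEWT_S I r ((Fin.cons t id : Fin (r + 1) → Fin r) ∘ κ) := by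
  classical
  unfold NEWT_S
  rw [← (Fin.consEquiv (fun _ : Fin (r + 1) => Fin d)).sum_comp, Fintype.sum_prod_type_right,
    sum_comm (s := (univ : Finset (Fin r))), ← sum_neg_distrib]
  refine sum_congr rfl fun e _ => ?_
  by_cases he : Function.Injective e
  · have h1 : ∀ j : Fin d, (if Function.Injective ((Fin.consEquiv (fun _ : Fin (r + 1) => Fin d))
        (j, e)) then I (((Fin.consEquiv (fun _ : Fin (r + 1) => Fin d)) (j, e)) ∘ κ) else 0) =
        I ((Fin.cons j e : Fin (r + 1) → Fin d) ∘ κ) -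
          if j ∈ Set.range e then I ((Fin.cons j e : Fin (r + 1) → Fin d) ∘ κ) else 0 := by
      intro j
      have h2 : ((Fin.consEquiv (fun _ : Fin (r + 1) => Fin d)) (j, e)) =
          (Fin.cons j e : Fin (r + 1) → Fin d) := rfl
      rw [h2]
      by_cases hj : j ∈ Set.range e
      · rw [if_pos hj, sub_self, if_neg]
        rw [Fin.cons_injective_iff]
        exact fun h3 => h3.1 hj
      · rw [if_neg hj, sub_zero, if_pos]
        rw [Fin.cons_injective_iff]
        exact ⟨hj, he⟩
    rw [sum_congr rfl fun j _ => h1 j, sum_sub_distrib, NEWT_zero I h hr κ hκ e, zero_sub]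
    congr 1
    rw [← sum_filter]
    have h3 : (univ.filter fun j : Fin d => j ∈ Set.range e) = univ.image e := by
      ext j
      simp
    rw [h3, sum_image fun a _ b _ hab => he hab]
    refine sum_congr rfl fun t _ => ?_
    rw [if_pos he, NEWT_cons]
  · have h1 : ∀ j : Fin d, ¬ Function.Injective
        ((Fin.consEquiv (fun _ : Fin (r + 1) => Fin d)) (j, e)) := by
      intro j h2
      have h3 : ((Fin.consEquiv (fun _ : Fin (r + 1) => Fin d)) (j, e)) =
          (Fin.cons j e : Fin (r + 1) → Fin d) := rfl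
      rw [h3, Fin.cons_injective_iff] at h2
      exact he h2.2
    rw [sum_congr rfl fun j _ => if_neg (h1 j), sum_congr rfl fun t _ => if_neg he]
    simp

theorem NEWT_ind {R : Type*} [Field R] {m d : ℕ} (I : (Fin m → Fin d) → R)
    (h : ∀ B : Finset (Fin m), B.Nonempty → B ≠ univ → ∀ s : Fin m → Fin d,
      ∑ j : Fin d, I (fun i => if i ∈ B then j else s i) = 0) (r : ℕ) :
    ∀ κ : Fin m → Fin (r + 1), Function.Surjective κ →
      NEWT_S I (r + 1) κ = (-1) ^ r * (r.factorial : R) * NEWT_S I 1 (fun _ => 0) := by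
  induction r with
  | zero =>
    intro κ _
    have : κ = fun _ => 0 := by
      funext i
      exact Fin.ext (by omega)
    rw [this]
    simp
  | succ r ih =>
    intro κ hκ
    rw [NEWT_step I h (Nat.succ_pos r) κ hκ]
    have h1 : ∀ t : Fin (r + 1),
        NEWT_S I (r + 1) ((Fin.cons t id : Fin (r + 1 + 1) → Fin (r + 1)) ∘ κ) =
          (-1) ^ r * (r.factorial : R) * NEWT_S I 1 (fun _ => 0) := by
      intro t
      refine ih _ (Function.Surjective.comp ?_ hκ)
      intro x
      exact ⟨x.succ, by simp⟩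
    rw [sum_congr rfl fun t _ => h1 t, sum_const, card_univ, Fintype.card_fin, nsmul_eq_mul,
      Nat.factorial_succ]
    push_cast
    ring

theorem newton_like {R : Type*} [Field R] (m d : ℕ) (hd : d < m) (I : (Fin m → Fin d) → R)
    (h : ∀ B : Finset (Fin m), B.Nonempty → B ≠ univ → ∀ s : Fin m → Fin d,
      ∑ j : Fin d, I (fun i => if i ∈ B then j else s i) = 0)
    (hm : ((m.factorial : ℕ) : R) ≠ 0) :
    ∑ j : Fin d, I (fun _ => j) = 0 := by
  classical
  obtain ⟨r, rfl⟩ : ∃ r, m = r + 1 := ⟨m - 1, by omega⟩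
  have h1 := NEWT_ind I h r id Function.surjective_id
  have h2 : NEWT_S I (r + 1) id = 0 := by
    unfold NEWT_S
    refine sum_eq_zero fun e _ => if_neg fun he => ?_
    have h3 := Fintype.card_le_of_injective e he
    rw [Fintype.card_fin, Fintype.card_fin] at h3
    omega
  have h3 : NEWT_S I 1 (fun _ => 0) = ∑ j : Fin d, I (fun _ => j) := by
    unfold NEWT_S
    refine Fintype.sum_equiv (Equiv.funUnique (Fin 1) (Fin d)) _ _ fun e => ?_
    rw [if_pos (Function.injective_of_subsingleton e)]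
    rfl
  rw [h2, h3] at h1
  have h4 : ((r.factorial : ℕ) : R) ≠ 0 := by
    intro h5
    apply hm
    rw [Nat.factorial_succ]
    push_cast
    rw [h5, mul_zero]
  have h5 : ((-1 : R) ^ r * (r.factorial : R)) ≠ 0 :=
    mul_ne_zero (pow_ne_zero _ (by simp)) h4
  exact (mul_eq_zero.mp h1.symm).resolve_left h5

end Pool.H54.UB
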