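import Mathlib

/-!
# Row PERM: the integral of a product of 1-cocycles is alternating

`I(a) = ∑_i wt i * ∏_{k<m} a k (τ i k) (τ i (k+1))` for a chain `(τ, wt)` satisfying Stokes and
1-cochains `a k` that are cocycles on all the tuples `τ i`.

`int_swap`: exchanging `a r` and `a (r+1)` changes the sign.  Apply Stokes to the cochain
`φ(v) = ∏_{k<r} a k (v_k)(v_{k+1}) * (a r (v_r)(v_{r+1}) * a (r+1) (v_r)(v_{r+1})) *
        ∏_{k>r+1} a k (v_{k-1})(v_k)`   (`v : Fin m → X`).
With `h(v_0,v_1) = A(v_0,v_1) B(v_0,v_1)`, `A, B` cocycles: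
`h(v_1,v_2) - h(v_0,v_2) + h(v_0,v_1) = - A(v_0,v_1)B(v_1,v_2) - B(v_0,v_1)A(v_1,v_2)`,
(because `A(v_0,v_2) = A(v_0,v_1)+A(v_1,v_2)` etc.) and the two outer products are products of
cocycles (telescoping as in the proof of `prod_cocycle`), so `δ φ (t)` is
`∓ (∏_{k<r} ..) * (a_r(t_r,t_{r+1}) a_{r+1}(t_{r+1},t_{r+2}) + a_{r+1}(t_r,t_{r+1}) a_r(t_{r+1},t_{r+2}))
* (∏_{k>r+1} ..)`, and its integral is 0.

`int_perm`: adjacent transpositions generate the symmetric group
(`Equiv.Perm.mclosure_swap_castSucc_succ`), `Equiv.Perm.sign` is multiplicative.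
-/

namespace Pool.H54.UB

open Finset

/-- the coboundary of a product of 1-cochains -/
theorem PERM_cup {X R : Type*} [CommRing R] (T : ℕ → X) (c : ℕ → X → X → R) (n : ℕ) :
    ∑ j ∈ range (n + 2), (-1 : R) ^ j *
        ∏ k ∈ range n, c k (T (if k < j then k else k + 1)) (T (if k + 1 < j then k + 1 else k + 2)) =
      ∑ j ∈ range n, (-1 : R) ^ (j + 1) * ((∏ k ∈ range j, c k (T k) (T (k + 1))) *
        (c j (T j) (T (j + 2)) - c j (T j) (T (j + 1)) - c j (T (j + 1)) (T (j + 2))) *
        ∏ k ∈ Ico (j + 1) n, c k (T (k + 1)) (T (k + 2))) := by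
  induction n with
  | zero => simp [Finset.sum_range_succ]
  | succ n ih =>
    have hR : ∑ j ∈ range (n + 1), (-1 : R) ^ (j + 1) * ((∏ k ∈ range j, c k (T k) (T (k + 1))) *
        (c j (T j) (T (j + 2)) - c j (T j) (T (j + 1)) - c j (T (j + 1)) (T (j + 2))) *
        ∏ k ∈ Ico (j + 1) (n + 1), c k (T (k + 1)) (T (k + 2))) =
        (∑ j ∈ range n, (-1 : R) ^ (j + 1) * ((∏ k ∈ range j, c k (T k) (T (k + 1))) *
        (c j (T j) (T (j + 2)) - c j (T j) (T (j + 1)) - c j (T (j + 1)) (T (j + 2))) *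
        ∏ k ∈ Ico (j + 1) n, c k (T (k + 1)) (T (k + 2)))) * c n (T (n + 1)) (T (n + 2)) +
        (-1 : R) ^ (n + 1) * ((∏ k ∈ range n, c k (T k) (T (k + 1))) *
        (c n (T n) (T (n + 2)) - c n (T n) (T (n + 1)) - c n (T (n + 1)) (T (n + 2)))) := by
      rw [Finset.sum_range_succ, Finset.Ico_self, Finset.prod_empty, mul_one, Finset.sum_mul]
      congr 1
      refine Finset.sum_congr rfl fun j hj => ?_
      have hj' := Finset.mem_range.1 hj
      rw [Finset.prod_Ico_succ_top (by omega)]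
      ring
    rw [hR, ← ih]
    rw [Finset.sum_range_succ _ (n + 2), Finset.sum_range_succ _ (n + 1),
      Finset.sum_range_succ _ (n + 1)]
    have h1 : ∀ j ∈ range (n + 1), (-1 : R) ^ j *
        ∏ k ∈ range (n + 1), c k (T (if k < j then k else k + 1))
          (T (if k + 1 < j then k + 1 else k + 2)) =
        ((-1 : R) ^ j * ∏ k ∈ range n, c k (T (if k < j then k else k + 1))
          (T (if k + 1 < j then k + 1 else k + 2))) * c n (T (n + 1)) (T (n + 2)) := by
      intro j hj
      have hj' := Finset.mem_range.1 hj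
      rw [Finset.prod_range_succ, if_neg (show ¬ n < j by omega),
        if_neg (show ¬ n + 1 < j by omega)]
      ring
    rw [Finset.sum_congr rfl h1, ← Finset.sum_mul]
    have h2 : ∏ k ∈ range (n + 1), c k (T (if k < n + 1 then k else k + 1))
          (T (if k + 1 < n + 1 then k + 1 else k + 2)) =
        (∏ k ∈ range n, c k (T k) (T (k + 1))) * c n (T n) (T (n + 2)) := by
      rw [Finset.prod_range_succ, if_pos (show n < n + 1 by omega),
        if_neg (show ¬ n + 1 < n + 1 by omega)]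
      congr 1
      refine Finset.prod_congr rfl fun k hk => ?_
      have hk' := Finset.mem_range.1 hk
      rw [if_pos (show k < n + 1 by omega), if_pos (show k + 1 < n + 1 by omega)]
    have h3 : ∏ k ∈ range (n + 1), c k (T (if k < n + 2 then k else k + 1))
          (T (if k + 1 < n + 2 then k + 1 else k + 2)) =
        (∏ k ∈ range n, c k (T k) (T (k + 1))) * c n (T n) (T (n + 1)) := by
      rw [Finset.prod_range_succ, if_pos (show n < n + 2 by omega),
        if_pos (show n + 1 < n + 2 by omega)]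
      congr 1
      refine Finset.prod_congr rfl fun k hk => ?_
      have hk' := Finset.mem_range.1 hk
      rw [if_pos (show k < n + 2 by omega), if_pos (show k + 1 < n + 2 by omega)]
    have h4 : ∏ k ∈ range n, c k (T (if k < n + 1 then k else k + 1))
          (T (if k + 1 < n + 1 then k + 1 else k + 2)) =
        ∏ k ∈ range n, c k (T k) (T (k + 1)) := by
      refine Finset.prod_congr rfl fun k hk => ?_
      have hk' := Finset.mem_range.1 hk
      rw [if_pos (show k < n + 1 by omega), if_pos (show k + 1 < n + 1 by omega)]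
    rw [h2, h3, h4]
    ring

theorem PERM_split {R : Type*} [CommRing R] (g : ℕ → R) {r n : ℕ} (h : r < n) :
    ∏ k ∈ range (n + 1), g k =
      (∏ k ∈ range r, g k) * (g r * g (r + 1)) * ∏ k ∈ Ico (r + 1) n, g (k + 1) := by
  obtain ⟨d, rfl⟩ : ∃ d, n = r + 1 + d := ⟨n - (r + 1), by omega⟩
  have e1 : r + 1 + d + 1 = (r + 1 + 1) + d := by ring
  rw [e1, Finset.prod_range_add, Finset.prod_range_succ, Finset.prod_range_succ,
    Finset.prod_Ico_eq_prod_range]
  have e2 : r + 1 + d - (r + 1) = d := by omega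
  rw [e2]
  have e3 : ∏ x ∈ range d, g (r + 1 + 1 + x) = ∏ x ∈ range d, g (r + 1 + x + 1) :=
    Finset.prod_congr rfl fun x _ => by congr 1; ring
  rw [e3]
  ring

/-- the coboundary of the product with the double factor at `r` -/
theorem PERM_key {X R : Type*} [CommRing R] (T : ℕ → X) (a : ℕ → X → X → R) (n r : ℕ) (hr : r < n)
    (ha : ∀ k u v z, a k (T u) (T v) + a k (T v) (T z) = a k (T u) (T z)) :
    ∑ j ∈ range (n + 2), (-1 : R) ^ j *
        ∏ k ∈ range n, (if k < r then a k else if k = r then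
          (fun x y => a r x y * a (r + 1) x y) else a (k + 1))
          (T (if k < j then k else k + 1)) (T (if k + 1 < j then k + 1 else k + 2)) =
      (-1 : R) ^ (r + 1) * (∏ k ∈ range (n + 1), a k (T k) (T (k + 1)) +
        ∏ k ∈ range (n + 1), a (Equiv.swap r (r + 1) k) (T k) (T (k + 1))) := by
  obtain ⟨c, hc⟩ : ∃ c : ℕ → X → X → R, c = fun k => if k < r then a k else if k = r then
          (fun x y => a r x y * a (r + 1) x y) else a (k + 1) := ⟨_, rfl⟩
  have h1 := PERM_cup T c n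
  rw [hc] at h1
  rw [h1, ← hc]
  have hlt : ∀ k, k < r → c k = a k := fun k hk => by rw [hc]; simp only [if_pos hk]
  have heq : c r = fun x y => a r x y * a (r + 1) x y := by rw [hc]; simp
  have hgt : ∀ k, r < k → c k = a (k + 1) := fun k hk => by
    rw [hc]; simp only [if_neg (show ¬ k < r by omega), if_neg (show ¬ k = r by omega)]
  rw [Finset.sum_eq_single r]
  · congr 1
    rw [PERM_split _ hr, PERM_split _ hr, Equiv.swap_apply_left, Equiv.swap_apply_right, heq]
    have e1 : ∏ k ∈ range r, c k (T k) (T (k + 1)) = ∏ k ∈ range r, a k (T k) (T (k + 1)) :=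
      Finset.prod_congr rfl fun k hk => by rw [hlt k (Finset.mem_range.1 hk)]
    have e2 : ∏ k ∈ range r, a (Equiv.swap r (r + 1) k) (T k) (T (k + 1)) =
        ∏ k ∈ range r, a k (T k) (T (k + 1)) :=
      Finset.prod_congr rfl fun k hk => by
        have := Finset.mem_range.1 hk
        rw [Equiv.swap_apply_of_ne_of_ne (by omega) (by omega)]
    have e3 : ∏ k ∈ Ico (r + 1) n, c k (T (k + 1)) (T (k + 2)) =
        ∏ k ∈ Ico (r + 1) n, a (k + 1) (T (k + 1)) (T (k + 1 + 1)) :=
      Finset.prod_congr rfl fun k hk => by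
        have := (Finset.mem_Ico.1 hk).1
        rw [hgt k (by omega)]
    have e4 : ∏ k ∈ Ico (r + 1) n, a (Equiv.swap r (r + 1) (k + 1)) (T (k + 1)) (T (k + 1 + 1)) =
        ∏ k ∈ Ico (r + 1) n, a (k + 1) (T (k + 1)) (T (k + 1 + 1)) :=
      Finset.prod_congr rfl fun k hk => by
        have := (Finset.mem_Ico.1 hk).1
        rw [Equiv.swap_apply_of_ne_of_ne (by omega) (by omega)]
    rw [e1, e2, e3, e4]
    have f1 := ha r r (r + 1) (r + 2)
    have f2 := ha (r + 1) r (r + 1) (r + 2)
    simp only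
    rw [← f1, ← f2]
    ring
  · intro j hj hne
    have hcoc : c j (T j) (T (j + 1)) + c j (T (j + 1)) (T (j + 2)) = c j (T j) (T (j + 2)) := by
      rcases lt_or_gt_of_ne hne with h | h
      · rw [hlt j h]; exact ha _ _ _ _
      · rw [hgt j h]; exact ha _ _ _ _
    rw [← hcoc]
    ring
  · intro h
    exact absurd (Finset.mem_range.2 hr) h

theorem PERM_swap {X R ι : Type*} [CommRing R] [Fintype ι] (n : ℕ)
    (τ : ι → Fin (n + 1 + 1) → X) (wt : ι → R)
    (stokes : ∀ φ : (Fin (n + 1) → X) → R,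
      ∑ i, wt i * ∑ j : Fin (n + 1 + 1), (-1) ^ (j : ℕ) * φ (τ i ∘ j.succAbove) = 0)
    (a : Fin (n + 1) → X → X → R)
    (ha : ∀ k, ∀ i, ∀ u v z : Fin (n + 1 + 1),
      a k (τ i u) (τ i v) + a k (τ i v) (τ i z) = a k (τ i u) (τ i z))
    (r : Fin n) :
    ∑ i, wt i * ∏ k : Fin (n + 1), a (Equiv.swap r.castSucc r.succ k) (τ i k.castSucc)
        (τ i k.succ) =
      - ∑ i, wt i * ∏ k : Fin (n + 1), a k (τ i k.castSucc) (τ i k.succ) := by
  obtain ⟨a', ha'⟩ : ∃ a' : ℕ → X → X → R, a' = fun k => if h : k < n + 1 then a ⟨k, h⟩ else 0 :=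
    ⟨_, rfl⟩
  have ha'k : ∀ k : Fin (n + 1), a' k.1 = a k := fun k => by
    rw [ha']; simp only [dif_pos k.2]
  obtain ⟨T, hT⟩ : ∃ T : ι → ℕ → X, T = fun i k => if h : k < n + 1 + 1 then τ i ⟨k, h⟩ else
    τ i 0 := ⟨_, rfl⟩
  have hTk : ∀ i, ∀ k : Fin (n + 1 + 1), T i k.1 = τ i k := fun i k => by
    rw [hT]; simp only [dif_pos k.2]
  have hTr : ∀ i, ∀ k, ∃ u, T i k = τ i u := fun i k => by
    by_cases h : k < n + 1 + 1
    · exact ⟨⟨k, h⟩, hTk i ⟨k, h⟩⟩
    · exact ⟨0, by rw [hT]; simp only [dif_neg h]⟩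
  have hcoc : ∀ i k u v z, a' k (T i u) (T i v) + a' k (T i v) (T i z) = a' k (T i u) (T i z) := by
    intro i k u v z
    obtain ⟨u', hu⟩ := hTr i u
    obtain ⟨v', hv⟩ := hTr i v
    obtain ⟨z', hz⟩ := hTr i z
    rw [hu, hv, hz]
    by_cases h : k < n + 1
    · have := ha'k ⟨k, h⟩
      rw [show a' k = a ⟨k, h⟩ from this]
      exact ha _ _ _ _ _
    · have : a' k = 0 := by rw [ha']; simp only [dif_neg h]
      rw [this]; simp
  have key := fun i => PERM_key (T i) a' n r.1 r.2 (hcoc i)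
  have hst := stokes (fun v => ∏ k : Fin n, (if k.1 < r.1 then a' k.1 else if k.1 = r.1 then
          (fun x y => a' r.1 x y * a' (r.1 + 1) x y) else a' (k.1 + 1)) (v k.castSucc) (v k.succ))
  have hL : ∀ i, ∑ j : Fin (n + 1 + 1), (-1 : R) ^ (j : ℕ) *
      ∏ k : Fin n, (if k.1 < r.1 then a' k.1 else if k.1 = r.1 then
          (fun x y => a' r.1 x y * a' (r.1 + 1) x y) else a' (k.1 + 1))
          ((τ i ∘ j.succAbove) k.castSucc) ((τ i ∘ j.succAbove) k.succ) =
      (-1 : R) ^ (r.1 + 1) * (∏ k : Fin (n + 1), a k (τ i k.castSucc) (τ i k.succ) +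
        ∏ k : Fin (n + 1), a (Equiv.swap r.castSucc r.succ k) (τ i k.castSucc) (τ i k.succ)) := by
    intro i
    have e1 : ∏ k ∈ range (n + 1), a' k (T i k) (T i (k + 1)) =
        ∏ k : Fin (n + 1), a k (τ i k.castSucc) (τ i k.succ) := by
      rw [Finset.prod_range]
      refine Finset.prod_congr rfl fun k _ => ?_
      rw [ha'k k]
      have f1 := hTk i k.castSucc
      have f2 := hTk i k.succ
      rw [Fin.val_castSucc] at f1
      rw [Fin.val_succ] at f2
      rw [f1, f2]
    have e2 : ∏ k ∈ range (n + 1), a' (Equiv.swap r.1 (r.1 + 1) k) (T i k) (T i (k + 1)) =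
        ∏ k : Fin (n + 1), a (Equiv.swap r.castSucc r.succ k) (τ i k.castSucc) (τ i k.succ) := by
      rw [Finset.prod_range]
      refine Finset.prod_congr rfl fun k _ => ?_
      have f1 := hTk i k.castSucc
      have f2 := hTk i k.succ
      rw [Fin.val_castSucc] at f1
      rw [Fin.val_succ] at f2
      have f3 : Equiv.swap r.1 (r.1 + 1) k.1 = (Equiv.swap r.castSucc r.succ k).1 := by
        rw [Equiv.swap_apply_def, Equiv.swap_apply_def]
        have g1 : (k = r.castSucc) ↔ k.1 = r.1 := by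
          rw [Fin.ext_iff, Fin.val_castSucc]
        have g2 : (k = r.succ) ↔ k.1 = r.1 + 1 := by
          rw [Fin.ext_iff, Fin.val_succ]
        by_cases h1 : k.1 = r.1
        · rw [if_pos h1, if_pos (g1.2 h1), Fin.val_succ]
        · by_cases h2 : k.1 = r.1 + 1
          · rw [if_neg h1, if_pos h2, if_neg (fun h => h1 (g1.1 h)), if_pos (g2.2 h2),
              Fin.val_castSucc]
          · rw [if_neg h1, if_neg h2, if_neg (fun h => h1 (g1.1 h)),
              if_neg (fun h => h2 (g2.1 h))]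
      rw [f1, f2, f3, ha'k]
    rw [← e1, ← e2, ← key i, Finset.sum_range]
    refine Finset.sum_congr rfl fun j _ => ?_
    congr 1
    rw [Finset.prod_range]
    refine Finset.prod_congr rfl fun k _ => ?_
    have f1 : (τ i ∘ j.succAbove) k.castSucc = T i (if k.1 < j.1 then k.1 else k.1 + 1) := by
      rw [Function.comp_apply, ← hTk i]
      congr 1
      unfold Fin.succAbove
      by_cases h : k.1 < j.1
      · rw [if_pos h, if_pos (by rw [Fin.lt_def]; exact h)]
        rfl
      · rw [if_neg h, if_neg (by rw [Fin.lt_def]; exact h)]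
        rfl
    have f2 : (τ i ∘ j.succAbove) k.succ = T i (if k.1 + 1 < j.1 then k.1 + 1 else k.1 + 2) := by
      rw [Function.comp_apply, ← hTk i]
      congr 1
      unfold Fin.succAbove
      by_cases h : k.1 + 1 < j.1
      · rw [if_pos h, if_pos (by rw [Fin.lt_def]; exact h)]
        rfl
      · rw [if_neg h, if_neg (by rw [Fin.lt_def]; exact h)]
        rfl
    rw [f1, f2]
  simp only [hL] at hst
  have h5 : (-1 : R) ^ (r.1 + 1) * ∑ i, wt i *
      (∏ k : Fin (n + 1), a k (τ i k.castSucc) (τ i k.succ) +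
        ∏ k : Fin (n + 1), a (Equiv.swap r.castSucc r.succ k) (τ i k.castSucc) (τ i k.succ)) = 0 := by
    rw [Finset.mul_sum, ← hst]
    exact Finset.sum_congr rfl fun i _ => by ring
  have h6 : ∑ i, wt i *
      (∏ k : Fin (n + 1), a k (τ i k.castSucc) (τ i k.succ) +
        ∏ k : Fin (n + 1), a (Equiv.swap r.castSucc r.succ k) (τ i k.castSucc) (τ i k.succ)) = 0 := by
    have h7 := congrArg (fun x => (-1 : R) ^ (r.1 + 1) * x) h5
    simp only [mul_zero, ← mul_assoc, ← mul_pow, neg_one_mul, neg_neg, one_pow, one_mul] at h7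
    exact h7
  simp only [mul_add, Finset.sum_add_distrib] at h6
  rw [eq_neg_iff_add_eq_zero, add_comm]
  exact h6

theorem int_perm {X R ι : Type*} [CommRing R] [Fintype ι] (m : ℕ)
    (τ : ι → Fin (m + 1) → X) (wt : ι → R)
    (stokes : ∀ φ : (Fin m → X) → R,
      ∑ i, wt i * ∑ j : Fin (m + 1), (-1) ^ (j : ℕ) * φ (τ i ∘ j.succAbove) = 0)
    (a : Fin m → X → X → R)
    (ha : ∀ k, ∀ i, ∀ u v z : Fin (m + 1),
      a k (τ i u) (τ i v) + a k (τ i v) (τ i z) = a k (τ i u) (τ i z))
    (π : Equiv.Perm (Fin m)) :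
    ∑ i, wt i * ∏ k : Fin m, a (π k) (τ i k.castSucc) (τ i k.succ) =
      ((Equiv.Perm.sign π : ℤ) : R) *
        ∑ i, wt i * ∏ k : Fin m, a k (τ i k.castSucc) (τ i k.succ) := by
  cases m with
  | zero =>
    have h : π = 1 := Subsingleton.elim _ _
    rw [h]
    simp
  | succ n =>
    have hmem : π ∈ Submonoid.closure
        (Set.range fun i : Fin n => Equiv.swap i.castSucc i.succ) := by
      rw [Equiv.Perm.mclosure_swap_castSucc_succ]
      trivial
    induction hmem using Submonoid.closure_induction generalizing a with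
    | mem x hx =>
      obtain ⟨r, rfl⟩ := hx
      have h1 := PERM_swap n τ wt stokes a ha r
      have h2 : r.castSucc ≠ r.succ := (Fin.castSucc_lt_succ).ne
      simp only
      rw [h1, Equiv.Perm.sign_swap h2]
      simp
    | one => simp
    | mul x y _ _ hx hy =>
      have h1 := hy (fun k => a (x k)) (fun k => ha (x k))
      have h2 := hx a ha
      simp only [Equiv.Perm.mul_apply] at h1 ⊢
      rw [h1, h2, Equiv.Perm.sign_mul]
      push_cast
      ring

end Pool.H54.UB
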