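import Pool.Agent.H54.UB.CH
import Pool.Agent.H54.UB.PERM
import Pool.Agent.H54.UB.NEWT

/-!
# Row BEA: the complex of orderings of the fibre

Given a finite set `T` of `(m+1)`-tuples in `V` with weights `ε` satisfying Stokes, and for every
`t ∈ T` a set `L t` of `d` lifts (tuples in `W`) such that the facets of the lifts of a fixed `t` are
distinct (`hfacet`) and the multisets of the facets agree whenever two tuples of `T` share a facet
(special case of `hcons`), consider the family of all `(t, e)`, `t ∈ T`, `e` a bijection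
`Fin d ≃ L t`, as a chain in the vertex type `V × (Fin d → W)`:
`τ (t, e) i = (t i, fun j => (e j) i)`, with weight `ε t`.

`bea_stokes`: it satisfies Stokes.  Proof: for `φ` and fixed `t, j` the sum over `e` of
`φ (i ↦ (t (δ_j i), k ↦ (e k) (δ_j i)))` is a sum over all bijections from `Fin d` to the *set* of
facets `{σ ∘ δ_j | σ ∈ L t}` (`σ ↦ σ ∘ δ_j` is injective on `L t`), hence depends only on
`r = t ∘ δ_j` (for another `t', j'` with the same `r` the two sets of facets agree by `hcons`).  Call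
it `φ̃ (r)` and apply Stokes for `(T, ε)` to `φ̃`.

Here the index type is `Σ t : T, (Fin d ≃ L t)` (a `Fintype`, classical decidability).
-/

namespace Pool.H54.UB

open Finset

open Classical in
/-- the enumerations of the finite set `L` -/
noncomputable def BEA_P {X : Type*} (d : ℕ) (L : Finset X) : Finset (Fin d → X) :=
  (Fintype.piFinset fun _ : Fin d => L).filter
    (fun g => Function.Injective g ∧ ∀ s ∈ L, ∃ k, g k = s)

theorem BEA_mem {X : Type*} {d : ℕ} {L : Finset X} {g : Fin d → X} :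
    g ∈ BEA_P d L ↔ (∀ k, g k ∈ L) ∧ Function.Injective g ∧ ∀ s ∈ L, ∃ k, g k = s := by
  classical
  unfold BEA_P
  rw [Finset.mem_filter, Fintype.mem_piFinset]

theorem BEA_sum {X R : Type*} [AddCommMonoid R] (d : ℕ) (L : Finset X) [Fintype (Fin d ≃ L)]
    (H : (Fin d → X) → R) :
    ∑ e : (Fin d ≃ L), H (fun k => (e k).1) = ∑ g ∈ BEA_P d L, H g := by
  refine Finset.sum_bij (fun (e : Fin d ≃ L) _ => fun k => (e k).1) ?_ ?_ ?_ ?_
  · intro e _
    rw [BEA_mem]
    refine ⟨fun k => (e k).2, ?_, ?_⟩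
    · intro k k' h
      exact e.injective (Subtype.ext h)
    · intro s hs
      exact ⟨e.symm ⟨s, hs⟩, by simp⟩
  · intro e1 _ e2 _ h
    ext k
    exact congrFun h k
  · intro g hg
    rw [BEA_mem] at hg
    obtain ⟨h1, h2, h3⟩ := hg
    refine ⟨Equiv.ofBijective (fun k => (⟨g k, h1 k⟩ : L)) ⟨?_, ?_⟩, Finset.mem_univ _, ?_⟩
    · intro k k' h
      exact h2 (congrArg Subtype.val h)
    · rintro ⟨s, hs⟩
      obtain ⟨k, hk⟩ := h3 s hs
      exact ⟨k, Subtype.ext hk⟩
    · funext k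
      rfl
  · intro e _
    rfl

theorem BEA_image {X Y R : Type*} [DecidableEq Y] [AddCommMonoid R] (d : ℕ) (L : Finset X) (u : X → Y)
    (hu : Set.InjOn u L) (H : (Fin d → Y) → R) :
    ∑ g ∈ BEA_P d L, H (fun k => u (g k)) = ∑ g ∈ BEA_P d (L.image u), H g := by
  refine Finset.sum_bij (fun g _ => fun k => u (g k)) ?_ ?_ ?_ ?_
  · intro g hg
    rw [BEA_mem] at hg ⊢
    obtain ⟨h1, h2, h3⟩ := hg
    refine ⟨fun k => Finset.mem_image_of_mem u (h1 k), ?_, ?_⟩
    · intro k k' h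
      exact h2 (hu (h1 k) (h1 k') h)
    · intro s hs
      obtain ⟨a, ha, rfl⟩ := Finset.mem_image.1 hs
      obtain ⟨k, hk⟩ := h3 a ha
      exact ⟨k, by rw [hk]⟩
  · intro g1 hg1 g2 hg2 h
    rw [BEA_mem] at hg1 hg2
    funext k
    exact hu (hg1.1 k) (hg2.1 k) (congrFun h k)
  · intro g hg
    rw [BEA_mem] at hg
    obtain ⟨h1, h2, h3⟩ := hg
    have h4 : ∀ k, ∃ a ∈ L, u a = g k := fun k => by
      obtain ⟨a, ha, hau⟩ := Finset.mem_image.1 (h1 k)
      exact ⟨a, ha, hau⟩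
    choose s hs hsu using h4
    refine ⟨s, ?_, ?_⟩
    · rw [BEA_mem]
      refine ⟨hs, ?_, ?_⟩
      · intro k k' h
        apply h2
        rw [← hsu k, ← hsu k', h]
      · intro a ha
        obtain ⟨k, hk⟩ := h3 (u a) (Finset.mem_image_of_mem u ha)
        refine ⟨k, hu (hs k) ha ?_⟩
        rw [hsu k, hk]
    · funext k
      exact hsu k
  · intro g _
    rfl

theorem bea_stokes {V W R : Type*} [Field R] (m d : ℕ)
    (T : Finset (Fin (m + 1) → V)) (ε : (Fin (m + 1) → V) → R)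
    (stokes : ∀ φ : (Fin m → V) → R,
      ∑ t ∈ T, ε t * ∑ j : Fin (m + 1), (-1) ^ (j : ℕ) * φ (t ∘ j.succAbove) = 0)
    (L : (Fin (m + 1) → V) → Finset (Fin (m + 1) → W))
    (hfacet : ∀ t ∈ T, ∀ j : Fin (m + 1),
      Set.InjOn (fun σ : Fin (m + 1) → W => σ ∘ j.succAbove) (L t))
    (hcons : ∀ t ∈ T, ∀ t' ∈ T, ∀ (b : ℕ) (α α' : Fin b → Fin (m + 1)), t ∘ α = t' ∘ α' →
      (L t).val.map (fun σ => σ ∘ α) = (L t').val.map (fun σ => σ ∘ α'))
    [Fintype (Σ t : T, (Fin d ≃ L t.1))]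
    (φ : (Fin m → V × (Fin d → W)) → R) :
    ∑ q : (Σ t : T, (Fin d ≃ L t.1)), ε q.1.1 * ∑ j : Fin (m + 1), (-1) ^ (j : ℕ) *
      φ (fun i => (q.1.1 (j.succAbove i), fun k => (q.2 k).1 (j.succAbove i))) = 0 := by
  classical
  obtain ⟨F, hF⟩ : ∃ F : (Fin m → V) → (Fin d → (Fin m → W)) → R,
      F = fun r g => φ (fun i => (r i, fun k => g k i)) := ⟨_, rfl⟩
  obtain ⟨S, hS⟩ : ∃ S : (Fin (m + 1) → V) → Fin (m + 1) → Finset (Fin m → W),
      S = fun t j => (L t).image (fun σ => σ ∘ j.succAbove) := ⟨_, rfl⟩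
  have hSc : ∀ t ∈ T, ∀ t' ∈ T, ∀ j j' : Fin (m + 1), t ∘ j.succAbove = t' ∘ j'.succAbove →
      S t j = S t' j' := by
    intro t ht t' ht' j j' h
    have h1 := hcons t ht t' ht' m j.succAbove j'.succAbove h
    rw [hS]
    ext r
    have h2 := congrArg (fun M : Multiset (Fin m → W) => r ∈ M) h1
    simp only [Multiset.mem_map, Finset.mem_val] at h2
    simp only [Finset.mem_image]
    exact h2.to_iff
  have hsum : ∀ t ∈ T, ∀ j : Fin (m + 1), ∑ e : (Fin d ≃ L t),
      φ (fun i => (t (j.succAbove i), fun k => (e k).1 (j.succAbove i))) =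
      ∑ g ∈ BEA_P d (S t j), F (t ∘ j.succAbove) g := by
    intro t ht j
    have h1 := BEA_sum d (L t) (fun g => F (t ∘ j.succAbove) (fun k => g k ∘ j.succAbove))
    have h2 := BEA_image d (L t) (fun σ : Fin (m + 1) → W => σ ∘ j.succAbove) (hfacet t ht j)
      (F (t ∘ j.succAbove))
    have h3 : S t j = (L t).image (fun σ => σ ∘ j.succAbove) := by rw [hS]
    rw [h3]
    refine Eq.trans ?_ (h1.trans h2)
    rw [hF]
    rfl
  obtain ⟨ψ, hψ⟩ : ∃ ψ : (Fin m → V) → R, ∀ t ∈ T, ∀ j : Fin (m + 1),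
      ψ (t ∘ j.succAbove) = ∑ g ∈ BEA_P d (S t j), F (t ∘ j.succAbove) g := by
    refine ⟨fun r => if h : ∃ q : (Fin (m + 1) → V) × Fin (m + 1), q.1 ∈ T ∧
      q.1 ∘ q.2.succAbove = r then ∑ g ∈ BEA_P d (S h.choose.1 h.choose.2), F r g else 0, ?_⟩
    intro t ht j
    have h : ∃ q : (Fin (m + 1) → V) × Fin (m + 1), q.1 ∈ T ∧
      q.1 ∘ q.2.succAbove = t ∘ j.succAbove := ⟨(t, j), ht, rfl⟩
    show (if h : ∃ q : (Fin (m + 1) → V) × Fin (m + 1), q.1 ∈ T ∧
      q.1 ∘ q.2.succAbove = t ∘ j.succAbove then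
        ∑ g ∈ BEA_P d (S h.choose.1 h.choose.2), F (t ∘ j.succAbove) g else 0) = _
    rw [dif_pos h]
    rw [hSc _ h.choose_spec.1 t ht _ j h.choose_spec.2]
  obtain rfl : ‹Fintype (Σ t : T, (Fin d ≃ L t.1))› = Sigma.instFintype := Subsingleton.elim _ _
  rw [Fintype.sum_sigma]
  have h1 := stokes ψ
  rw [← Finset.sum_coe_sort] at h1
  rw [← h1]
  refine Finset.sum_congr rfl fun t _ => ?_
  show ∑ e : (Fin d ≃ L t.1), ε t.1 * ∑ j : Fin (m + 1), (-1) ^ (j : ℕ) *
      φ (fun i => (t.1 (j.succAbove i), fun k => (e k).1 (j.succAbove i))) = _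
  rw [← Finset.mul_sum, Finset.sum_comm]
  congr 1
  refine Finset.sum_congr rfl fun j _ => ?_
  rw [← Finset.mul_sum, hsum t.1 t.2 j, hψ t.1 t.2 j]

/-- Summing over all bijections, one chosen sheet. -/
theorem sum_equiv_apply {R W : Type*} [Field R] (d : ℕ) (L : Finset W) (hL : L.card = d)
    [Fintype (Fin d ≃ L)] (j : Fin d) (G : W → R) :
    ∑ e : (Fin d ≃ L), G (e j).1 = ((d - 1).factorial : ℕ) * ∑ σ ∈ L, G σ := by
  classical
  have hd : 0 < d := lt_of_le_of_lt (Nat.zero_le _) j.2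
  obtain rfl : ‹Fintype (Fin d ≃ L)› = Equiv.instFintype := Subsingleton.elim _ _
  -- the fibres
  obtain ⟨Nf, hNf⟩ : ∃ Nf : L → ℕ, Nf = fun σ =>
      ((Finset.univ : Finset (Fin d ≃ L)).filter (fun e => e j = σ)).card := ⟨_, rfl⟩
  have hconst : ∀ σ σ' : L, Nf σ ≤ Nf σ' := by
    intro σ σ'
    rw [hNf]
    refine Finset.card_le_card_of_injOn (fun e => e.trans (Equiv.swap σ σ')) ?_ ?_
    · intro e he
      have he' : e j = σ := by simpa using he
      simp [he']
    · intro e _ e' _ h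
      have h1 := congrArg (fun q : Fin d ≃ L => q.trans (Equiv.swap σ σ')) h
      simp only [Equiv.trans_assoc] at h1
      have h2 : (Equiv.swap σ σ').trans (Equiv.swap σ σ') = Equiv.refl L := by
        ext x
        simp
      rw [h2] at h1
      simpa using h1
  have hcard : Fintype.card (Fin d ≃ L) = d.factorial := by
    have e0 : Fin d ≃ L := (Fintype.equivFinOfCardEq (by simpa using hL)).symm
    have h1 := Fintype.card_equiv e0
    rw [Fintype.card_fin] at h1
    rw [← h1]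
  have hsumN : ∑ σ : L, Nf σ = d.factorial := by
    rw [← hcard, ← Finset.card_univ, hNf]
    exact (Finset.card_eq_sum_card_fiberwise (f := fun e : Fin d ≃ L => e j)
      (s := Finset.univ) (t := Finset.univ) (fun _ _ => Finset.mem_coe.2 (Finset.mem_univ _))).symm
  have hN : ∀ σ : L, Nf σ = (d - 1).factorial := by
    intro σ
    have h1 : ∑ σ' : L, Nf σ' = d * Nf σ := by
      rw [Finset.sum_congr rfl fun σ' _ => le_antisymm (hconst σ' σ) (hconst σ σ')]
      simp [hL]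
    rw [hsumN] at h1
    have h2 : d * (d - 1).factorial = d.factorial := Nat.mul_factorial_pred hd.ne'
    rw [← h2] at h1
    exact (Nat.eq_of_mul_eq_mul_left hd h1).symm
  rw [← Finset.sum_fiberwise (Finset.univ : Finset (Fin d ≃ L)) (fun e => e j)
    (fun e => G (e j).1)]
  have h3 : ∀ σ : L, ∑ e ∈ (Finset.univ : Finset (Fin d ≃ L)).filter (fun e => e j = σ),
      G (e j).1 = ((d - 1).factorial : ℕ) * G σ.1 := by
    intro σ
    rw [Finset.sum_congr rfl (g := fun _ => G σ.1) (fun e he => by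
      rw [(Finset.mem_filter.1 he).2])]
    rw [Finset.sum_const, nsmul_eq_mul, ← hN σ, hNf]
  rw [Finset.sum_congr rfl fun σ _ => h3 σ, ← Finset.mul_sum]
  congr 1
  exact Finset.sum_coe_sort L G

end Pool.H54.UB
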