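import Pool.Agent.H54.UB.BEA

/-!
# Row BEB: the Berstein-Edmonds argument

Notation as in `BEA`: index type `Σ t : T, (Fin d ≃ L t)`, vertex type `X' = V × (Fin d → W)`.
For `s : Fin m → Fin d` put
`I s = ∑_{(t,e)} ε t * ∏_{i<m} x i ((e (s i)) i) ((e (s i)) (i+1))`.

Claim (exactness).  For `B` nonempty and proper and every `s`:
`∑_j I (i ↦ if i ∈ B then j else s i) = 0`.
Proof.  `b = |B|`, `0 < b < m`.  Choose a permutation `π` of `Fin m` with `π k ∈ B ↔ k < b`.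
For fixed `j` the 1-cochains on `X'`: `a k (u, u') = x k (u.2 (if k ∈ B then j else s k))
(u'.2 (...))` are cocycles on all tuples `τ (t, e)`; by `int_perm` (row PERM)
`∫ ∏ a (π k) = sign π ∫ ∏ a k`.  In `∫ ∏_k a (π k)` the first `b` factors use the sheet `j`, the other
factors do not depend on `j`.  Sum over `j`: the front factor becomes
`∑_j X ((e j) restricted to 0..b)` with `X (w) = ∏_{k<b} x (π k) (w_k) (w_{k+1})`, which equals
`C (t_0, .., t_b)` where `C (v) = ∑_{σ ∈ L t'} X (σ ∘ α)` for any `t' ∈ T`, `α` with `v = t' ∘ α`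
(well defined by `hcons`; define it by choice, `0` if there is no such `t', α`).
`C` is a cocycle on the `T`-tuples by `prod_cocycle` (row CH), so by `acyc` (degree `i = b`,
`0 < b < m`) there is `c : (Fin b → V) → R` with `C (t ∘ α) = ∑_j (-1)^j c (t ∘ α ∘ δ_j)`.  Now
`int_front` (row CH) for the chain of `BEA` (Stokes: `bea_stokes`), the cochain `c ∘ (Prod.fst ∘ ·)`
and the `a (π k)` gives `0`.

By `newton_like`: `∑_j I (fun _ => j) = 0`.  If `d = 0` then all `L t` are empty and the claim is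
trivial; otherwise `∑_j I (const j) = d * (d-1)! * ∑_t ε t ∑_{σ ∈ L t} ∏_i x i (σ i) (σ (i+1))`
by `sum_equiv_apply`, and `d! ∣ m!` is nonzero in `R`.
-/

namespace Pool.H54.UB

open Finset

theorem BEB_card {m b : ℕ} (h : b ≤ m) : Fintype.card {k : Fin m // (k : ℕ) < b} = b := by
  have e : {k : Fin m // (k : ℕ) < b} ≃ Fin b :=
    { toFun := fun k => ⟨k.1, k.2⟩
      invFun := fun k => ⟨Fin.castLE h k, k.2⟩
      left_inv := fun k => by ext; rfl
      right_inv := fun k => by ext; rfl }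
  rw [Fintype.card_congr e, Fintype.card_fin]

theorem BEB_perm {m b : ℕ} (B : Finset (Fin m)) (hb : B.card = b) :
    ∃ π : Equiv.Perm (Fin m), ∀ k, π k ∈ B ↔ (k : ℕ) < b := by
  classical
  have hbm : b ≤ m := by
    rw [← hb]
    simpa using Finset.card_le_univ B
  have h1 : Fintype.card {k : Fin m // (k : ℕ) < b} = Fintype.card {k : Fin m // k ∈ B} := by
    rw [BEB_card hbm, Fintype.card_coe, hb]
  let e : {k : Fin m // (k : ℕ) < b} ≃ {k : Fin m // k ∈ B} := Fintype.equivOfCardEq h1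
  refine ⟨e.extendSubtype, fun k => ⟨fun hk => ?_, fun hk => ?_⟩⟩
  · by_contra hc
    exact e.extendSubtype_not_mem k hc hk
  · exact e.extendSubtype_mem k hk

theorem BEB_split {R : Type*} [CommRing R] {m b : ℕ} (hbm : b ≤ m) (f : Fin m → R) :
    ∏ k : Fin m, f k = (∏ k : Fin b, f (Fin.castLE hbm k)) *
      ∏ k ∈ univ.filter (fun k : Fin m => b ≤ (k : ℕ)), f k := by
  classical
  rw [← Finset.prod_filter_mul_prod_filter_not univ (fun k : Fin m => (k : ℕ) < b)]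
  congr 1
  · symm
    refine Finset.prod_bij' (fun k _ => Fin.castLE hbm k)
      (fun k hk => ⟨k.1, (Finset.mem_filter.1 hk).2⟩) ?_ ?_ ?_ ?_ ?_
    · intro k _
      exact Finset.mem_filter.2 ⟨Finset.mem_univ _, k.2⟩
    · intro k _
      exact Finset.mem_univ _
    · intro k _
      rfl
    · intro k _
      rfl
    · intro k _
      rfl
  · refine Finset.prod_congr ?_ fun _ _ => rfl
    ext k
    simp

open Classical in
/-- The cochain obtained by summing over the lifts. -/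
noncomputable def BEB_C {V W R : Type*} [Field R] {m b : ℕ} (T : Finset (Fin (m + 1) → V))
    (L : (Fin (m + 1) → V) → Finset (Fin (m + 1) → W)) (X : (Fin b → W) → R)
    (v : Fin b → V) : R :=
  if h : ∃ p : (Fin (m + 1) → V) × (Fin b → Fin (m + 1)), p.1 ∈ T ∧ v = p.1 ∘ p.2 then
    ∑ σ ∈ L h.choose.1, X (σ ∘ h.choose.2) else 0

theorem BEB_C_eq {V W R : Type*} [Field R] {m b : ℕ} {T : Finset (Fin (m + 1) → V)}
    {L : (Fin (m + 1) → V) → Finset (Fin (m + 1) → W)}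
    (hcons : ∀ t ∈ T, ∀ t' ∈ T, ∀ (b : ℕ) (α α' : Fin b → Fin (m + 1)), t ∘ α = t' ∘ α' →
      (L t).val.map (fun σ => σ ∘ α) = (L t').val.map (fun σ => σ ∘ α'))
    (X : (Fin b → W) → R) {t : Fin (m + 1) → V} (ht : t ∈ T) (α : Fin b → Fin (m + 1)) :
    BEB_C T L X (t ∘ α) = ∑ σ ∈ L t, X (σ ∘ α) := by
  have h : ∃ p : (Fin (m + 1) → V) × (Fin b → Fin (m + 1)), p.1 ∈ T ∧ t ∘ α = p.1 ∘ p.2 :=
    ⟨(t, α), ht, rfl⟩
  rw [BEB_C, dif_pos h]
  obtain ⟨h1, h2⟩ := h.choose_spec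
  have h3 := hcons t ht _ h1 b α _ h2
  have h4 : ∀ (t : Fin (m + 1) → V) (α : Fin b → Fin (m + 1)),
      ∑ σ ∈ L t, X (σ ∘ α) = (((L t).val.map (fun σ => σ ∘ α)).map X).sum := by
    intro t α
    rw [Multiset.map_map]
    rfl
  rw [h4, h4, h3]

section

variable {V W R : Type*} [Field R] {m d : ℕ} {T : Finset (Fin (m + 1) → V)}
  {L : (Fin (m + 1) → V) → Finset (Fin (m + 1) → W)}

/-- the tuples of the complex of orderings -/
def BEB_tau (q : (Σ t : T, (Fin d ≃ L t.1))) (i : Fin (m + 1)) : V × (Fin d → W) :=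
  (q.1.1 i, fun k => (q.2 k).1 i)

/-- the integrals -/
noncomputable def BEB_I [Fintype (Σ t : T, (Fin d ≃ L t.1))] (ε : (Fin (m + 1) → V) → R)
    (x : Fin m → W → W → R) (s : Fin m → Fin d) : R :=
  ∑ q : (Σ t : T, (Fin d ≃ L t.1)), ε q.1.1 *
    ∏ i : Fin m, x i ((q.2 (s i)).1 i.castSucc) ((q.2 (s i)).1 i.succ)

theorem BEB_exact [Fintype (Σ t : T, (Fin d ≃ L t.1))] (ε : (Fin (m + 1) → V) → R)
    (stokes : ∀ φ : (Fin m → V) → R,
      ∑ t ∈ T, ε t * ∑ j : Fin (m + 1), (-1) ^ (j : ℕ) * φ (t ∘ j.succAbove) = 0)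
    (hfacet : ∀ t ∈ T, ∀ j : Fin (m + 1),
      Set.InjOn (fun σ : Fin (m + 1) → W => σ ∘ j.succAbove) (L t))
    (hcons : ∀ t ∈ T, ∀ t' ∈ T, ∀ (b : ℕ) (α α' : Fin b → Fin (m + 1)), t ∘ α = t' ∘ α' →
      (L t).val.map (fun σ => σ ∘ α) = (L t').val.map (fun σ => σ ∘ α'))
    (acyc : ∀ i : ℕ, 0 < i → i < m → ∀ c : (Fin (i + 1) → V) → R,
      (∀ t ∈ T, ∀ α : Fin (i + 2) → Fin (m + 1),
        ∑ j : Fin (i + 2), (-1) ^ (j : ℕ) * c ((t ∘ α) ∘ j.succAbove) = 0) →
      ∃ b : (Fin i → V) → R, ∀ t ∈ T, ∀ α : Fin (i + 1) → Fin (m + 1),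
        c (t ∘ α) = ∑ j : Fin (i + 1), (-1) ^ (j : ℕ) * b ((t ∘ α) ∘ j.succAbove))
    (x : Fin m → W → W → R)
    (hx : ∀ i, ∀ t ∈ T, ∀ σ ∈ L t, ∀ a b c : Fin (m + 1),
      x i (σ a) (σ b) + x i (σ b) (σ c) = x i (σ a) (σ c))
    (B : Finset (Fin m)) (hB : B.Nonempty) (hB' : B ≠ univ) (s : Fin m → Fin d) :
    ∑ j : Fin d, BEB_I (T := T) (L := L) ε x (fun i => if i ∈ B then j else s i) = 0 := by
  classical
  set b := B.card with hb
  have hb1 : 1 ≤ b := Finset.card_pos.2 hB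
  have hbm : b < m := by
    have h1 : B ⊂ univ := Finset.ssubset_univ_iff.2 hB'
    simpa using Finset.card_lt_card h1
  obtain ⟨π, hπ⟩ := BEB_perm B hb.symm
  have hst : ∀ φ : (Fin m → V × (Fin d → W)) → R,
      ∑ q : (Σ t : T, (Fin d ≃ L t.1)), ε q.1.1 * ∑ j : Fin (m + 1), (-1) ^ (j : ℕ) *
        φ (BEB_tau q ∘ j.succAbove) = 0 := fun φ =>
    bea_stokes m d T ε stokes L hfacet hcons φ
  have hcoc : ∀ (i : Fin m) (k : Fin d) (q : (Σ t : T, (Fin d ≃ L t.1))) (u v z : Fin (m + 1)),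
      x i ((q.2 k).1 u) ((q.2 k).1 v) + x i ((q.2 k).1 v) ((q.2 k).1 z) =
        x i ((q.2 k).1 u) ((q.2 k).1 z) := fun i k q u v z =>
    hx i q.1.1 q.1.2 (q.2 k).1 (q.2 k).2 u v z
  -- the front cochain
  let X : (Fin (b + 1) → W) → R := fun w =>
    ∏ k : Fin b, x (π (Fin.castLE hbm.le k)) (w k.castSucc) (w k.succ)
  have hC := fun {t : Fin (m + 1) → V} (ht : t ∈ T) (α : Fin (b + 1) → Fin (m + 1)) =>
    BEB_C_eq (R := R) hcons X ht α
  obtain ⟨cc, hcc⟩ := acyc b hb1 hbm (BEB_C T L X) (by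
    intro t ht α
    have h1 : ∀ j : Fin (b + 2), BEB_C T L X ((t ∘ α) ∘ j.succAbove) =
        ∑ σ ∈ L t, X (σ ∘ (α ∘ j.succAbove)) := fun j => hC ht (α ∘ j.succAbove)
    simp only [h1, Finset.mul_sum]
    rw [Finset.sum_comm]
    refine Finset.sum_eq_zero fun σ hσ => ?_
    exact prod_cocycle b hb1 (fun k => x (π (Fin.castLE hbm.le k))) (σ ∘ α)
      (fun i u v z => hx _ t ht σ hσ _ _ _))
  -- the permuted integrals
  have hperm : ∀ j : Fin d, ∑ q : (Σ t : T, (Fin d ≃ L t.1)), ε q.1.1 *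
      ∏ k : Fin m, x (π k) ((q.2 (if π k ∈ B then j else s (π k))).1 k.castSucc)
        ((q.2 (if π k ∈ B then j else s (π k))).1 k.succ) =
      ((Equiv.Perm.sign π : ℤ) : R) *
        BEB_I (T := T) (L := L) ε x (fun i => if i ∈ B then j else s i) := by
    intro j
    exact int_perm m (BEB_tau (T := T) (L := L) (d := d)) (fun q => ε q.1.1) hst
      (fun k u u' => x k (u.2 (if k ∈ B then j else s k)) (u'.2 (if k ∈ B then j else s k)))
      (fun k q u v z => hcoc k _ q u v z) π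
  have hsum : ∑ j : Fin d, ∑ q : (Σ t : T, (Fin d ≃ L t.1)), ε q.1.1 *
      ∏ k : Fin m, x (π k) ((q.2 (if π k ∈ B then j else s (π k))).1 k.castSucc)
        ((q.2 (if π k ∈ B then j else s (π k))).1 k.succ) = 0 := by
    rw [Finset.sum_comm]
    have h2 := int_front m (BEB_tau (T := T) (L := L) (d := d)) (fun q => ε q.1.1) hst b hb1
      hbm.le (fun v => cc (fun k => (v k).1))
      (fun k u u' => x (π k) (u.2 (s (π k))) (u'.2 (s (π k))))
      (fun k q u v z => hcoc (π k) _ q u v z)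
    rw [← h2]
    refine Finset.sum_congr rfl fun q _ => ?_
    rw [← Finset.mul_sum, mul_assoc]
    congr 1
    have h3 : (∑ j : Fin (b + 1), (-1 : R) ^ (j : ℕ) * cc (fun k : Fin b =>
        (BEB_tau q (Fin.castLE (by omega) (j.succAbove k))).1)) =
        ∑ j : Fin d, X ((q.2 j).1 ∘ Fin.castLE (by omega)) := by
      have h4 := hcc q.1.1 q.1.2 (Fin.castLE (by omega))
      rw [hC q.1.2] at h4
      have h5 : ∑ j : Fin d, X ((q.2 j).1 ∘ Fin.castLE (by omega)) =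
          ∑ σ ∈ L q.1.1, X (σ ∘ Fin.castLE (by omega)) := by
        rw [Equiv.sum_comp q.2 (fun σ : L q.1.1 => X (σ.1 ∘ Fin.castLE (by omega)))]
        exact Finset.sum_coe_sort (L q.1.1) (fun σ => X (σ ∘ Fin.castLE (by omega)))
      rw [h5, h4]
      rfl
    rw [h3, Finset.sum_mul]
    refine Finset.sum_congr rfl fun j _ => ?_
    rw [BEB_split hbm.le]
    congr 1
    · refine Finset.prod_congr rfl fun k _ => ?_
      have h6 : π (Fin.castLE hbm.le k) ∈ B := (hπ _).2 k.2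
      rw [if_pos h6]
      rfl
    · refine Finset.prod_congr rfl fun k hk => ?_
      have h6 : ¬ π k ∈ B := fun h => by
        have h7 := (hπ k).1 h
        have h8 := (Finset.mem_filter.1 hk).2
        omega
      rw [if_neg h6]
      rfl
  simp only [hperm, ← Finset.mul_sum] at hsum
  rcases mul_eq_zero.1 hsum with h | h
  · exfalso
    rcases Int.units_eq_one_or (Equiv.Perm.sign π) with h1 | h1
    · rw [h1] at h; simp at h
    · rw [h1] at h; simp at h
  · exact h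

end

/-- Berstein-Edmonds, combinatorial form. -/
theorem berstein_edmonds {V W R : Type*} [Field R] (m d : ℕ) (hd : d < m)
    (T : Finset (Fin (m + 1) → V)) (ε : (Fin (m + 1) → V) → R)
    (stokes : ∀ φ : (Fin m → V) → R,
      ∑ t ∈ T, ε t * ∑ j : Fin (m + 1), (-1) ^ (j : ℕ) * φ (t ∘ j.succAbove) = 0)
    (L : (Fin (m + 1) → V) → Finset (Fin (m + 1) → W))
    (hcard : ∀ t ∈ T, (L t).card = d)
    (hfacet : ∀ t ∈ T, ∀ j : Fin (m + 1),
      Set.InjOn (fun σ : Fin (m + 1) → W => σ ∘ j.succAbove) (L t))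
    (hcons : ∀ t ∈ T, ∀ t' ∈ T, ∀ (b : ℕ) (α α' : Fin b → Fin (m + 1)), t ∘ α = t' ∘ α' →
      (L t).val.map (fun σ => σ ∘ α) = (L t').val.map (fun σ => σ ∘ α'))
    (acyc : ∀ i : ℕ, 0 < i → i < m → ∀ c : (Fin (i + 1) → V) → R,
      (∀ t ∈ T, ∀ α : Fin (i + 2) → Fin (m + 1),
        ∑ j : Fin (i + 2), (-1) ^ (j : ℕ) * c ((t ∘ α) ∘ j.succAbove) = 0) →
      ∃ b : (Fin i → V) → R, ∀ t ∈ T, ∀ α : Fin (i + 1) → Fin (m + 1),
        c (t ∘ α) = ∑ j : Fin (i + 1), (-1) ^ (j : ℕ) * b ((t ∘ α) ∘ j.succAbove))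
    (x : Fin m → W → W → R)
    (hx : ∀ i, ∀ t ∈ T, ∀ σ ∈ L t, ∀ a b c : Fin (m + 1),
      x i (σ a) (σ b) + x i (σ b) (σ c) = x i (σ a) (σ c))
    (hm : ((m.factorial : ℕ) : R) ≠ 0) :
    ∑ t ∈ T, ε t * ∑ σ ∈ L t, ∏ i : Fin m, x i (σ i.castSucc) (σ i.succ) = 0 := by
  classical
  rcases Nat.eq_zero_or_pos d with h0 | h0
  · refine Finset.sum_eq_zero fun t ht => ?_
    have h1 := hcard t ht
    rw [h0, Finset.card_eq_zero] at h1
    rw [h1, Finset.sum_empty, mul_zero]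
  · have h1 := newton_like m d hd (BEB_I (T := T) (L := L) ε x)
      (BEB_exact ε stokes hfacet hcons acyc x hx) hm
    have h2 : ∀ j : Fin d, BEB_I (T := T) (L := L) ε x (fun _ => j) =
        ((d - 1).factorial : ℕ) *
          ∑ t ∈ T, ε t * ∑ σ ∈ L t, ∏ i : Fin m, x i (σ i.castSucc) (σ i.succ) := by
      intro j
      rw [BEB_I, Fintype.sum_sigma, Finset.mul_sum,
        ← Finset.sum_coe_sort T (fun t => (((d - 1).factorial : ℕ) : R) *
          (ε t * ∑ σ ∈ L t, ∏ i : Fin m, x i (σ i.castSucc) (σ i.succ)))]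
      refine Finset.sum_congr rfl fun t _ => ?_
      simp only
      rw [← Finset.mul_sum, sum_equiv_apply d (L t.1) (hcard t.1 t.2) j
        (fun σ => ∏ i : Fin m, x i (σ i.castSucc) (σ i.succ))]
      ring
    simp only [h2, Finset.sum_const, Finset.card_univ, Fintype.card_fin, nsmul_eq_mul] at h1
    rw [← mul_assoc] at h1
    rcases mul_eq_zero.1 h1 with h | h
    · exfalso
      have h3 : ((d : ℕ) : R) * (((d - 1).factorial : ℕ) : R) = ((d.factorial : ℕ) : R) := by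
        rw [← Nat.cast_mul, Nat.mul_factorial_pred (by omega)]
      rw [h3] at h
      obtain ⟨k, hk⟩ := Nat.factorial_dvd_factorial hd.le
      apply hm
      rw [hk, Nat.cast_mul, h, zero_mul]
    · exact h

end Pool.H54.UB
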