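import Mathlib

/-!
# Row CH: products of 1-cocycles, Stokes for a product with a front cochain

Cochains of degree `n` on a vertex type `X` are functions `(Fin (n+1) → X) → R`.
A 1-cochain is `x : X → X → R`; it is a cocycle on a tuple `t` if
`x (t a) (t b) + x (t b) (t c) = x (t a) (t c)` for all entries (so `x (t a) (t a) = 0`).

`prod_cocycle`: for `w : Fin (b+2) → X` and 1-cochains `x 0, ..., x (b-1)` (`b ≥ 1`) that are cocycles
on `w`, the product `X_b(v) = ∏_{i<b} x i (v i) (v (i+1))` satisfies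
`∑_{j<b+2} (-1)^j X_b (w ∘ succAbove j) = 0`.
Proof: induction on `b`, or telescoping: write
`X_b(w ∘ δ_j)` for `0 < j < b+1` as `P_{j-1} · x_{j-1}(w_{j-1}, w_{j+1}) · S_{j+1}` with
`P_{k} = ∏_{i<k} x_i(w_i, w_{i+1})`, `S_k = ∏_{i ≥ k-1, i<b} x_i (w_{i+1}, w_{i+2})`, and
`x_{j-1}(w_{j-1},w_{j+1}) = x_{j-1}(w_{j-1}, w_j) + x_{j-1}(w_j, w_{j+1})`: the alternating sum
telescopes against the terms `j = 0` and `j = b+1`.

`int_front`: a chain is a finite family `τ : ι → (Fin (m+1) → X)` with weights `wt` such that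
(Stokes) `∑_i wt i ∑_j (-1)^j φ (τ i ∘ succAbove j) = 0` for every `φ : (Fin m → X) → R`.
For `1 ≤ b ≤ m`, `c : (Fin b → X) → R` and 1-cochains `a i` that are cocycles on all `τ i`:
`∑_i wt i * (δ c)(front b-face of τ i) * ∏_{k ≥ b} a k (τ i k) (τ i (k+1)) = 0`.
Proof: apply Stokes to `φ (v) = c (v_0, .., v_{b-1}) * ∏_{k ≥ b} a k (v_{k-1}) (v_k)` (`v : Fin m → X`);
the terms `j < b` of `δ φ` are `(-1)^j c(front ∘ δ_j) * ∏_{k ≥ b} a k (τ k) (τ (k+1))`;
the terms `j ≥ b`: `c (τ_0 .. τ_{b-1})` times the product over the tail `τ_{b-1}, ..., τ_m` with one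
of the entries `τ_b, ..., τ_m` omitted; the alternating sum of these is
`(-1)^b c (τ_0..τ_{b-1}) ∏_{k ≥ b} a k (τ k)(τ (k+1))` by `prod_cocycle` for the tail
(`∑_{j ≥ b-1} (omit τ_j) ± = 0`, the term `j = b-1` being the product over `τ_b..τ_m`), which is
exactly the missing term `j = b` of `(δ c)(front)`, with the right sign.  (If `b = m` the tail
product is empty; then the claim is Stokes itself.)
It is convenient to prove everything for sequences `ℕ → X` (no casts) and then to specialise.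
-/

namespace Pool.H54.UB

open Finset

private def CH_D {X : Type*} (w : ℕ → X) (j i : ℕ) : X := if i < j then w i else w (i + 1)

private theorem CH_seq {X R : Type*} [CommRing R] (x : ℕ → X → X → R) (w : ℕ → X) (b : ℕ)
    (h : ∀ i < b, x i (w i) (w (i + 1)) + x i (w (i + 1)) (w (i + 2)) = x i (w i) (w (i + 2))) :
    ∑ j ∈ range (b + 2), (-1 : R) ^ j *
      ∏ i ∈ range b, x i (CH_D w j i) (CH_D w j (i + 1)) = 0 := by
  induction b with
  | zero => simp [Finset.sum_range_succ]
  | succ b ih =>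
    have ih := ih (fun i hi => h i (by omega))
    have hb := h b (by omega)
    have eP : ∀ j, b + 1 ≤ j → ∏ i ∈ range b, x i (CH_D w j i) (CH_D w j (i + 1)) =
        ∏ i ∈ range b, x i (w i) (w (i + 1)) := by
      intro j hj
      refine Finset.prod_congr rfl fun i hi => ?_
      rw [Finset.mem_range] at hi
      rw [CH_D, CH_D, if_pos (by omega), if_pos (by omega)]
    rw [Finset.sum_range_succ, eP (b + 1) le_rfl] at ih
    rw [Finset.sum_range_succ, Finset.sum_range_succ]
    have e1 : ∑ j ∈ range (b + 1), (-1 : R) ^ j *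
        ∏ i ∈ range (b + 1), x i (CH_D w j i) (CH_D w j (i + 1)) =
        (∑ j ∈ range (b + 1), (-1 : R) ^ j *
          ∏ i ∈ range b, x i (CH_D w j i) (CH_D w j (i + 1))) * x b (w (b + 1)) (w (b + 2)) := by
      rw [Finset.sum_mul]
      refine Finset.sum_congr rfl fun j hj => ?_
      rw [Finset.mem_range] at hj
      rw [Finset.prod_range_succ]
      have h1 : CH_D w j b = w (b + 1) := if_neg (by omega)
      have h2 : CH_D w j (b + 1) = w (b + 2) := if_neg (by omega)
      rw [h1, h2]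
      ring
    rw [e1, Finset.prod_range_succ, Finset.prod_range_succ, eP (b + 1) le_rfl,
      eP (b + 1 + 1) (by omega)]
    have h1 : CH_D w (b + 1) b = w b := if_pos (by omega)
    have h2 : CH_D w (b + 1) (b + 1) = w (b + 2) := if_neg (by omega)
    have h3 : CH_D w (b + 1 + 1) b = w b := if_pos (by omega)
    have h4 : CH_D w (b + 1 + 1) (b + 1) = w (b + 1) := if_pos (by omega)
    rw [h1, h2, h3, h4]
    linear_combination x b (w (b + 1)) (w (b + 2)) * ih -
      (-1) ^ (b + 1) * (∏ i ∈ range b, x i (w i) (w (i + 1))) * hb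

/-- Extension of a tuple to a sequence. -/
private def CH_T {X : Type*} {m : ℕ} (t : Fin (m + 1) → X) (n : ℕ) : X :=
  t ⟨min n m, by omega⟩

private theorem CH_T_val {X : Type*} {m : ℕ} (t : Fin (m + 1) → X) (k : Fin (m + 1)) :
    CH_T t k = t k := by
  rw [CH_T]
  congr 1
  apply Fin.ext
  show min (k : ℕ) m = k
  omega

private theorem CH_T_D {X : Type*} {m : ℕ} (t : Fin (m + 1) → X) (j k : ℕ)
    (p : Fin (m + 1)) (hp : (p : ℕ) = if k < j then k else k + 1) :
    CH_D (CH_T t) j k = t p := by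
  rw [← CH_T_val t p, hp, CH_D]
  split_ifs <;> rfl

private theorem CH_sa {n : ℕ} (j : Fin (n + 1)) (k : Fin n) :
    ((j.succAbove k : Fin (n + 1)) : ℕ) = if (k : ℕ) < j then (k : ℕ) else k + 1 := by
  rw [Fin.succAbove]
  by_cases h : (k : ℕ) < j
  · rw [if_pos (show k.castSucc < j from h), if_pos h]
    rfl
  · rw [if_neg (show ¬ k.castSucc < j from h), if_neg h]
    rfl

theorem prod_cocycle {X R : Type*} [CommRing R] (b : ℕ) (hb : 1 ≤ b) (x : Fin b → X → X → R)
    (w : Fin (b + 2) → X)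
    (h : ∀ i, ∀ u v z : Fin (b + 2), x i (w u) (w v) + x i (w v) (w z) = x i (w u) (w z)) :
    ∑ j : Fin (b + 2), (-1 : R) ^ (j : ℕ) *
      ∏ i : Fin b, x i (w (j.succAbove i.castSucc)) (w (j.succAbove i.succ)) = 0 := by
  obtain ⟨x', hx'⟩ : ∃ x' : ℕ → X → X → R, ∀ i : Fin b, x' i = x i :=
    ⟨fun i => if h : i < b then x ⟨i, h⟩ else fun _ _ => 0, fun i => by simp⟩
  have key := CH_seq x' (CH_T w) b (fun i hi => by
    have e : ∀ n (hn : n < b + 2), CH_T w n = w ⟨n, hn⟩ := fun n hn => CH_T_val w ⟨n, hn⟩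
    rw [e i (by omega), e (i + 1) (by omega), e (i + 2) (by omega),
      show x' i = x ⟨i, hi⟩ from hx' ⟨i, hi⟩]
    exact h _ _ _ _)
  rw [← key, ← Fin.sum_univ_eq_sum_range]
  refine Finset.sum_congr rfl fun j _ => ?_
  rw [← Fin.prod_univ_eq_prod_range]
  congr 1
  refine Finset.prod_congr rfl fun i _ => ?_
  rw [hx', CH_T_D w j i (j.succAbove i.castSucc) (CH_sa j i.castSucc),
    CH_T_D w j (i + 1) (j.succAbove i.succ) (CH_sa j i.succ)]

private theorem CH_filter {R : Type*} [CommRing R] (b n : ℕ) (F : ℕ → R) :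
    ∏ k ∈ univ.filter (fun k : Fin (b + n) => b ≤ (k : ℕ)), F k =
      ∏ i ∈ range n, F (b + i) := by
  rw [Finset.prod_filter, Fin.prod_univ_eq_prod_range (fun k => if b ≤ k then F k else 1) (b + n),
    Finset.prod_range_add]
  have e1 : ∏ k ∈ range b, (if b ≤ k then F k else 1) = 1 :=
    Finset.prod_eq_one fun k hk => by
      rw [Finset.mem_range] at hk
      exact if_neg (by omega)
  rw [e1, one_mul]
  exact Finset.prod_congr rfl fun k _ => if_pos (by omega)

private theorem CH_point {X R : Type*} [CommRing R] (b n : ℕ) (hb : 1 ≤ b)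
    (t : Fin (b + n + 1) → X) (c : (Fin b → X) → R) (a : Fin (b + n) → X → X → R)
    (ha : ∀ k, ∀ u v z : Fin (b + n + 1), a k (t u) (t v) + a k (t v) (t z) = a k (t u) (t z))
    (φ : (Fin (b + n) → X) → R)
    (hφ : ∀ v, φ v = c (fun k => v (Fin.castLE (by omega) k)) *
      ∏ k ∈ univ.filter (fun k : Fin (b + n) => b ≤ (k : ℕ)),
        a k (v ⟨(k : ℕ) - 1, by omega⟩) (v k)) :
    ∑ j : Fin (b + n + 1), (-1 : R) ^ (j : ℕ) * φ (t ∘ j.succAbove) =
      (∑ j : Fin (b + 1), (-1) ^ (j : ℕ) *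
        c (fun k : Fin b => t (Fin.castLE (by omega) (j.succAbove k)))) *
      ∏ k ∈ univ.filter (fun k : Fin (b + n) => b ≤ (k : ℕ)),
        a k (t k.castSucc) (t k.succ) := by
  obtain ⟨A, hA⟩ : ∃ A : ℕ → X → X → R, ∀ i : Fin (b + n), A i = a i :=
    ⟨fun i => if h : i < b + n then a ⟨i, h⟩ else fun _ _ => 0, fun i => by simp⟩
  obtain ⟨T, hT⟩ : ∃ T : ℕ → X, T = CH_T t := ⟨_, rfl⟩
  -- the terms as functions of sequences
  have e1 : ∀ j : Fin (b + n + 1), φ (t ∘ j.succAbove) =
      c (fun k : Fin b => CH_D T j k) *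
        ∏ i ∈ range n, A (b + i) (CH_D T j (b + i - 1)) (CH_D T j (b + i)) := by
    intro j
    rw [hφ, ← CH_filter b n (fun k => A k (CH_D T j (k - 1)) (CH_D T j k))]
    congr 1
    · congr 1
      funext k
      rw [hT]
      exact (CH_T_D t j k _ (by
        show ((j.succAbove (Fin.castLE (by omega) k) : Fin (b + n + 1)) : ℕ) = _
        rw [CH_sa]
        rfl)).symm
    · refine Finset.prod_congr rfl fun k hk => ?_
      rw [hA, hT]
      congr 1
      · exact (CH_T_D t j (k - 1) (j.succAbove ⟨(k : ℕ) - 1, by omega⟩)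
          (CH_sa j ⟨(k : ℕ) - 1, by omega⟩)).symm
      · exact (CH_T_D t j k _ (CH_sa j k)).symm
  have e2 : ∀ j : Fin (b + 1), c (fun k : Fin b => t (Fin.castLE (by omega) (j.succAbove k))) =
      c (fun k : Fin b => CH_D T j k) := by
    intro j
    congr 1
    funext k
    rw [hT]
    exact (CH_T_D t j k _ (by
      show ((j.succAbove k : Fin (b + 1)) : ℕ) = _
      rw [CH_sa])).symm
  have e3 : ∏ k ∈ univ.filter (fun k : Fin (b + n) => b ≤ (k : ℕ)),
      a k (t k.castSucc) (t k.succ) = ∏ i ∈ range n, A (b + i) (T (b + i)) (T (b + i + 1)) := by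
    rw [← CH_filter b n (fun k => A k (T k) (T (k + 1)))]
    refine Finset.prod_congr rfl fun k hk => ?_
    rw [hA, hT, ← CH_T_val t k.castSucc, ← CH_T_val t k.succ]
    rfl
  rw [e3]
  simp only [e1, e2]
  rw [Fin.sum_univ_eq_sum_range (fun j => (-1 : R) ^ j * (c (fun k : Fin b => CH_D T j k) *
        ∏ i ∈ range n, A (b + i) (CH_D T j (b + i - 1)) (CH_D T j (b + i)))) (b + n + 1),
    Fin.sum_univ_eq_sum_range (fun j => (-1 : R) ^ j * c (fun k : Fin b => CH_D T j k)) (b + 1),
    show b + n + 1 = b + (n + 1) by ring, Finset.sum_range_add, Finset.sum_range_succ _ b,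
    add_mul]
  congr 1
  · rw [Finset.sum_mul]
    refine Finset.sum_congr rfl fun j hj => ?_
    rw [Finset.mem_range] at hj
    rw [mul_assoc]
    congr 2
    refine Finset.prod_congr rfl fun i _ => ?_
    have h1 : CH_D T j (b + i - 1) = T (b + i) := by
      rw [CH_D, if_neg (by omega)]
      congr 1
      omega
    have h2 : CH_D T j (b + i) = T (b + i + 1) := by
      rw [CH_D, if_neg (by omega)]
    rw [h1, h2]
  · have key := CH_seq (fun i => A (b + i)) (fun i => T (b - 1 + i)) n (fun i hi => by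
      have e : ∀ p (hp : p < b + n + 1), T p = t ⟨p, hp⟩ := fun p hp => by
        rw [hT]
        exact CH_T_val t ⟨p, hp⟩
      show A (b + i) (T (b - 1 + i)) (T (b - 1 + (i + 1))) +
        A (b + i) (T (b - 1 + (i + 1))) (T (b - 1 + (i + 2))) =
        A (b + i) (T (b - 1 + i)) (T (b - 1 + (i + 2)))
      rw [e (b - 1 + i) (by omega), e (b - 1 + (i + 1)) (by omega),
        e (b - 1 + (i + 2)) (by omega),
        show A (b + i) = a ⟨b + i, by omega⟩ from hA ⟨b + i, by omega⟩]
      exact ha _ _ _ _)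
    rw [Finset.sum_range_succ'] at key
    have k0 : ∏ i ∈ range n, A (b + i) (CH_D (fun i => T (b - 1 + i)) 0 i)
        (CH_D (fun i => T (b - 1 + i)) 0 (i + 1)) =
        ∏ i ∈ range n, A (b + i) (T (b + i)) (T (b + i + 1)) := by
      refine Finset.prod_congr rfl fun i _ => ?_
      have h1 : CH_D (fun i => T (b - 1 + i)) 0 i = T (b + i) := by
        show T (b - 1 + (i + 1)) = _
        congr 1
        omega
      have h2 : CH_D (fun i => T (b - 1 + i)) 0 (i + 1) = T (b + i + 1) := by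
        show T (b - 1 + (i + 1 + 1)) = _
        congr 1
        omega
      rw [h1, h2]
    have k1 : ∀ j, ∏ i ∈ range n, A (b + i) (CH_D (fun i => T (b - 1 + i)) (j + 1) i)
        (CH_D (fun i => T (b - 1 + i)) (j + 1) (i + 1)) =
        ∏ i ∈ range n, A (b + i) (CH_D T (b + j) (b + i - 1)) (CH_D T (b + j) (b + i)) := by
      intro j
      refine Finset.prod_congr rfl fun i _ => ?_
      have h1 : CH_D (fun i => T (b - 1 + i)) (j + 1) i = CH_D T (b + j) (b + i - 1) := by
        unfold CH_D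
        by_cases h : i < j + 1
        · rw [if_pos h, if_pos (by omega)]
          show T (b - 1 + i) = T (b + i - 1)
          congr 1
          omega
        · rw [if_neg h, if_neg (by omega)]
          show T (b - 1 + (i + 1)) = T (b + i - 1 + 1)
          congr 1
          omega
      have h2 : CH_D (fun i => T (b - 1 + i)) (j + 1) (i + 1) = CH_D T (b + j) (b + i) := by
        unfold CH_D
        by_cases h : i + 1 < j + 1
        · rw [if_pos h, if_pos (by omega)]
          show T (b - 1 + (i + 1)) = T (b + i)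
          congr 1
          omega
        · rw [if_neg h, if_neg (by omega)]
          show T (b - 1 + (i + 1 + 1)) = T (b + i + 1)
          congr 1
          omega
      rw [h1, h2]
    rw [k0, pow_zero, one_mul, Finset.sum_congr rfl (fun j _ => by rw [k1 j])] at key
    have k2 : ∀ j ∈ range (n + 1), (-1 : R) ^ (b + j) *
        (c (fun k : Fin b => CH_D T (b + j) k) * ∏ i ∈ range n,
          A (b + i) (CH_D T (b + j) (b + i - 1)) (CH_D T (b + j) (b + i))) =
        -((-1) ^ b * c (fun k : Fin b => CH_D T b k)) * ((-1) ^ (j + 1) *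
          ∏ i ∈ range n, A (b + i) (CH_D T (b + j) (b + i - 1)) (CH_D T (b + j) (b + i))) := by
      intro j _
      have h3 : (fun k : Fin b => CH_D T (b + j) k) = fun k : Fin b => CH_D T b k := by
        funext k
        rw [CH_D, CH_D, if_pos (by omega), if_pos (by omega)]
      rw [h3]
      ring
    rw [Finset.sum_congr rfl k2, ← Finset.mul_sum]
    linear_combination -((-1) ^ b * c (fun k : Fin b => CH_D T b k)) * key

theorem int_front {X R ι : Type*} [CommRing R] [Fintype ι] (m : ℕ)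
    (τ : ι → Fin (m + 1) → X) (wt : ι → R)
    (stokes : ∀ φ : (Fin m → X) → R,
      ∑ i, wt i * ∑ j : Fin (m + 1), (-1) ^ (j : ℕ) * φ (τ i ∘ j.succAbove) = 0)
    (b : ℕ) (hb : 1 ≤ b) (hbm : b ≤ m) (c : (Fin b → X) → R) (a : Fin m → X → X → R)
    (ha : ∀ k, ∀ i, ∀ u v z : Fin (m + 1),
      a k (τ i u) (τ i v) + a k (τ i v) (τ i z) = a k (τ i u) (τ i z)) :
    ∑ i, wt i * (∑ j : Fin (b + 1), (-1) ^ (j : ℕ) *
        c (fun k : Fin b => τ i (Fin.castLE (by omega) (j.succAbove k)))) *
      ∏ k ∈ univ.filter (fun k : Fin m => b ≤ (k : ℕ)), a k (τ i k.castSucc) (τ i k.succ) = 0 := by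
  obtain ⟨n, rfl⟩ := Nat.exists_eq_add_of_le hbm
  rw [← stokes (fun v => c (fun k => v (Fin.castLE (by omega) k)) *
    ∏ k ∈ univ.filter (fun k : Fin (b + n) => b ≤ (k : ℕ)),
      a k (v ⟨(k : ℕ) - 1, by omega⟩) (v k))]
  refine Finset.sum_congr rfl fun i _ => ?_
  rw [CH_point b n hb (τ i) c a (fun k => ha k i) _ (fun v => rfl), mul_assoc]

end Pool.H54.UB
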