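import Pool.Agent.H54.UB.PD

/-!
# Row GA: basic facts on the geometric complexes `GC`

`GC.IsCarrier K x s`: `x` has strictly positive barycentric coordinates with respect to the face `s`.

* `exists_carrier`: a point of `convexHull s` is a convex combination of `s`; drop the vertices with
  weight 0 (the remaining set is nonempty since the weights sum to 1) and use `K.down`.
* `carrier_unique`: `K.uniq`.
* `affineIndependent`: if `Σ_{x∈s} c x = 0`, `Σ c x • x = 0`, `c ≠ 0`, compare the positive weights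
  `1/|s|` and `1/|s| + ε c` for small `ε > 0`: contradiction with `K.uniq` (`s = t`).
* `carrier_sub`: if `x ∈ convexHull s`, `s` a face, then the carrier of `x` is contained in `s`
  (the carrier produced inside `s` is the unique one).
* `adapted` lemmas: unfold.
* `ofSimplex`: all nonempty subsets of an affinely independent finset; `uniq` from affine
  independence (extend weights by zero; `affineIndependent_iff_...`, or
  `AffineIndependent` + `Finset.affineCombination` equality).
* `restrict`: the subcomplex of the faces contained in an adapted set.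
* `exists_top_nhds`/finite closed cover: every point `x` of the space has a neighbourhood `U` such
  that all points of `U ∩ K.space` have a carrier containing the carrier of `x` (the union of the
  hulls of the faces not containing the carrier of `x` is closed and does not contain `x`).
-/

open Set Topology

namespace Pool.H54.UB

variable {E : Type*} [NormedAddCommGroup E] [NormedSpace ℝ E]

/-- `s` is the carrier of `x`. -/
def GC.IsCarrier (K : GC E) (x : E) (s : Finset E) : Prop :=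
  s ∈ K.faces ∧ ∃ w : E → ℝ, (∀ y ∈ s, 0 < w y) ∧ ∑ y ∈ s, w y = 1 ∧ ∑ y ∈ s, w y • y = x

theorem GC.exists_carrier {K : GC E} {x : E} {s : Finset E} (hs : s ∈ K.faces)
    (hx : x ∈ convexHull ℝ (s : Set E)) : ∃ t ⊆ s, K.IsCarrier x t := by
  classical
  obtain ⟨w, hw0, hw1, hwx⟩ := Finset.mem_convexHull'.1 hx
  have hsub : s.filter (fun y => 0 < w y) ⊆ s := Finset.filter_subset _ _
  have hzero : ∀ y ∈ s, y ∉ s.filter (fun y => 0 < w y) → w y = 0 := by
    intro y hy hny
    have h1 : ¬ 0 < w y := fun h => hny (Finset.mem_filter.2 ⟨hy, h⟩)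
    exact le_antisymm (not_lt.1 h1) (hw0 y hy)
  have hsum : ∑ y ∈ s.filter (fun y => 0 < w y), w y = 1 := by
    rw [Finset.sum_subset hsub hzero]; exact hw1
  have hsum2 : ∑ y ∈ s.filter (fun y => 0 < w y), w y • y = x := by
    rw [Finset.sum_subset hsub (fun y hy hny => by rw [hzero y hy hny, zero_smul])]; exact hwx
  have hne : (s.filter (fun y => 0 < w y)).Nonempty := by
    rw [Finset.nonempty_iff_ne_empty]
    intro h
    rw [h, Finset.sum_empty] at hsum
    exact zero_ne_one hsum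
  exact ⟨_, hsub, K.down s hs _ hsub hne, w, fun y hy => (Finset.mem_filter.1 hy).2, hsum, hsum2⟩

theorem GC.exists_carrier' {K : GC E} {x : E} (hx : x ∈ K.space) : ∃ t, K.IsCarrier x t := by
  obtain ⟨s, hs, hxs⟩ := Set.mem_iUnion₂.1 hx
  obtain ⟨t, -, ht⟩ := GC.exists_carrier hs hxs
  exact ⟨t, ht⟩

theorem GC.carrier_unique {K : GC E} {x : E} {s t : Finset E} (hs : K.IsCarrier x s)
    (ht : K.IsCarrier x t) : s = t := by
  obtain ⟨hs1, w, hw0, hw1, hwx⟩ := hs
  obtain ⟨ht1, v, hv0, hv1, hvx⟩ := ht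
  exact (K.uniq s hs1 t ht1 w v hw0 hv0 hw1 hv1 (hwx.trans hvx.symm)).1

theorem GC.IsCarrier.mem_hull {K : GC E} {x : E} {s : Finset E} (h : K.IsCarrier x s) :
    x ∈ convexHull ℝ (s : Set E) := by
  obtain ⟨_, w, hw0, hw1, hwx⟩ := h
  exact Finset.mem_convexHull'.2 ⟨w, fun y hy => (hw0 y hy).le, hw1, hwx⟩

theorem GC.carrier_sub {K : GC E} {x : E} {s t : Finset E} (hs : s ∈ K.faces)
    (hx : x ∈ convexHull ℝ (s : Set E)) (ht : K.IsCarrier x t) : t ⊆ s := by
  obtain ⟨t', ht', hc⟩ := GC.exists_carrier hs hx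
  rw [GC.carrier_unique ht hc]
  exact ht'

theorem GC.affineIndependent {K : GC E} {s : Finset E} (hs : s ∈ K.faces) :
    AffineIndependent ℝ (fun x : s => (x : E)) := by
  classical
  rw [affineIndependent_iff]
  intro u w hw0 hw1 e he
  obtain ⟨c, hc⟩ : ∃ c : E → ℝ, c = fun y => if h : y ∈ s then (if (⟨y, h⟩ : s) ∈ u then w ⟨y, h⟩ else 0) else 0 :=
    ⟨_, rfl⟩
  have hcs : ∀ y : s, c y = if y ∈ u then w y else 0 := by
    intro y
    rw [hc]
    simp only [y.2, dite_true]
  have h1 : ∑ y ∈ s, c y = 0 := by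
    rw [← Finset.sum_coe_sort s (fun y => c y)]
    rw [Finset.sum_congr rfl (fun y _ => hcs y)]
    rw [Finset.sum_ite_mem, Finset.univ_inter]
    exact hw0
  have h2 : ∑ y ∈ s, c y • y = 0 := by
    rw [← Finset.sum_coe_sort s (fun y => c y • y)]
    have : ∀ y : s, c y • (y : E) = if y ∈ u then w y • (y : E) else 0 := by
      intro y
      rw [hcs y]
      split_ifs
      · rfl
      · rw [zero_smul]
    rw [Finset.sum_congr rfl (fun y _ => this y)]
    rw [Finset.sum_ite_mem, Finset.univ_inter]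
    exact hw1
  have hne : s.Nonempty := K.ne s hs
  have hn : (0 : ℝ) < s.card := by exact_mod_cast hne.card_pos
  have hM : (0 : ℝ) < 1 + ∑ y ∈ s, |c y| := by
    have : 0 ≤ ∑ y ∈ s, |c y| := Finset.sum_nonneg (fun y _ => abs_nonneg _)
    linarith
  obtain ⟨M, hMd⟩ : ∃ M : ℝ, M = 1 + ∑ y ∈ s, |c y| := ⟨_, rfl⟩
  rw [← hMd] at hM
  have hlt : ∀ y ∈ s, |c y| < M := by
    intro y hy
    have : |c y| ≤ ∑ y ∈ s, |c y| := Finset.single_le_sum (f := fun y => |c y|) (fun y _ => abs_nonneg _) hy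
    rw [hMd]; linarith
  have key := K.uniq s hs s hs (fun _ => 1 / (s.card : ℝ)) (fun y => 1 / (s.card : ℝ) * (1 + c y / M))
    (fun y _ => by positivity)
    (fun y hy => by
      have h3 := hlt y hy
      have h4 : -(1 : ℝ) < c y / M := by
        rw [lt_div_iff₀ hM]
        have := neg_abs_le (c y)
        linarith
      have h5 : (0 : ℝ) < 1 + c y / M := by linarith
      positivity)
    (by
      rw [Finset.sum_const, nsmul_eq_mul]
      field_simp)
    (by
      rw [← Finset.mul_sum, Finset.sum_add_distrib, ← Finset.sum_div, h1, Finset.sum_const, nsmul_eq_mul]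
      simp only [zero_div, add_zero, mul_one]
      field_simp)
    (by
      have h6 : ∀ y ∈ s, (1 / (s.card : ℝ) * (1 + c y / M)) • y =
          (1 / (s.card : ℝ)) • y + (1 / (s.card : ℝ) / M) • (c y • y) := by
        intro y _
        rw [smul_smul, ← add_smul]
        congr 1
        ring
      rw [Finset.sum_congr rfl h6, Finset.sum_add_distrib, ← Finset.smul_sum (r := 1 / (s.card : ℝ) / M), h2,
        smul_zero, add_zero])
  have h7 := key.2 (e : E) e.2
  have h8 : c e = 0 := by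
    have h9 : (1 / (s.card : ℝ)) * (c e / M) = 0 := by linarith
    have h10 : c e / M = 0 := by
      rcases mul_eq_zero.1 h9 with h | h
      · exact absurd h (one_div_pos.2 hn).ne'
      · exact h
    rcases div_eq_zero_iff.1 h10 with h | h
    · exact h
    · exact absurd h hM.ne'
  rw [hcs e, if_pos he] at h8
  exact h8

theorem GC.mem_of_mem_hull {K : GC E} {s : Finset E} (hs : s ∈ K.faces) {v : E}
    (hv : v ∈ K.verts) (h : v ∈ convexHull ℝ (s : Set E)) : v ∈ s := by
  obtain ⟨t, ht, hvt⟩ := hv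
  have hc : K.IsCarrier v {v} :=
    ⟨K.down t ht {v} (Finset.singleton_subset_iff.2 hvt) (Finset.singleton_nonempty v),
      fun _ => 1, fun _ _ => one_pos, by simp, by simp⟩
  exact GC.carrier_sub hs h hc (Finset.mem_singleton_self v)

theorem GC.verts_carrier {K : GC E} {v : E} (hv : v ∈ K.verts) : K.IsCarrier v {v} := by
  obtain ⟨t, ht, hvt⟩ := hv
  exact ⟨K.down t ht {v} (Finset.singleton_subset_iff.2 hvt) (Finset.singleton_nonempty v),
      fun _ => 1, fun _ _ => one_pos, by simp, by simp⟩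

theorem GC.isPoly (K : GC E) : IsPoly K.space :=
  ⟨K.fin.toFinset, by
    unfold GC.space
    ext x
    simp only [Set.mem_iUnion, Set.Finite.mem_toFinset]⟩

theorem GC.isPoly_adapted [FiniteDimensional ℝ E] {K : GC E} {Y : Set E} (h : K.Adapted Y)
    (hY : Y ⊆ K.space) : IsPoly Y ∧ Y = ⋃ s ∈ {s | s ∈ K.faces ∧ convexHull ℝ (s : Set E) ⊆ Y},
      convexHull ℝ (s : Set E) := by
  classical
  have hEq : Y = ⋃ s ∈ {s | s ∈ K.faces ∧ convexHull ℝ (s : Set E) ⊆ Y},
      convexHull ℝ (s : Set E) := by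
    ext x
    simp only [Set.mem_iUnion, Set.mem_ofPred_eq]
    constructor
    · intro hx
      obtain ⟨t, ht⟩ := GC.exists_carrier' (hY hx)
      have hm := ht.mem_hull
      obtain ⟨ht1, w, hw0, hw1, hwx⟩ := ht
      exact ⟨t, ⟨ht1, h t ht1 w hw0 hw1 (hwx.symm ▸ hx)⟩, hm⟩
    · rintro ⟨s, ⟨_, hs⟩, hx⟩
      exact hs hx
  refine ⟨⟨(K.fin.toFinset).filter (fun s => convexHull ℝ (s : Set E) ⊆ Y), ?_⟩, hEq⟩
  conv_lhs => rw [hEq]
  ext x
  simp only [Set.mem_iUnion, Set.mem_ofPred_eq, Finset.mem_filter, Set.Finite.mem_toFinset]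

theorem GC.adapted_iff {K : GC E} {Y : Set E} :
    K.Adapted Y ↔ ∀ x s, K.IsCarrier x s → x ∈ Y → convexHull ℝ (s : Set E) ⊆ Y := by
  constructor
  · rintro h x s ⟨hs, w, hw0, hw1, hwx⟩ hx
    exact h s hs w hw0 hw1 (hwx.symm ▸ hx)
  · intro h s hs w hw0 hw1 hx
    exact h _ s ⟨hs, w, hw0, hw1, rfl⟩ hx

theorem GC.Adapted.inter {K : GC E} {Y Z : Set E} (hY : K.Adapted Y) (hZ : K.Adapted Z) :
    K.Adapted (Y ∩ Z) := by
  intro s hs w hw0 hw1 hx
  exact Set.subset_inter (hY s hs w hw0 hw1 hx.1) (hZ s hs w hw0 hw1 hx.2)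

theorem GC.Adapted.union {K : GC E} {Y Z : Set E} (hY : K.Adapted Y) (hZ : K.Adapted Z) :
    K.Adapted (Y ∪ Z) := by
  intro s hs w hw0 hw1 hx
  rcases hx with hx | hx
  · exact (hY s hs w hw0 hw1 hx).trans Set.subset_union_left
  · exact (hZ s hs w hw0 hw1 hx).trans Set.subset_union_right

/-- Points near `x` have a carrier that contains the carrier of `x`. -/
theorem GC.exists_nhd_star {K : GC E} {x : E} {s : Finset E} (hs : K.IsCarrier x s) :
    ∃ U ∈ 𝓝 x, ∀ y ∈ U ∩ K.space, ∀ t, K.IsCarrier y t → s ⊆ t := by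
  have hfin : {t | t ∈ K.faces ∧ ¬ s ⊆ t}.Finite := K.fin.subset (fun t ht => ht.1)
  have hcl : IsClosed (⋃ t ∈ {t | t ∈ K.faces ∧ ¬ s ⊆ t}, convexHull ℝ (t : Set E)) :=
    hfin.isClosed_biUnion (fun t _ => (t.finite_toSet.isCompact_convexHull ℝ).isClosed)
  refine ⟨(⋃ t ∈ {t | t ∈ K.faces ∧ ¬ s ⊆ t}, convexHull ℝ (t : Set E))ᶜ, hcl.isOpen_compl.mem_nhds ?_, ?_⟩
  · intro hx
    obtain ⟨t, ht, hxt⟩ := Set.mem_iUnion₂.1 hx
    exact ht.2 (GC.carrier_sub ht.1 hxt hs)
  · rintro y ⟨hy, -⟩ t ht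
    by_contra hst
    exact hy (Set.mem_iUnion₂.2 ⟨t, ⟨ht.1, hst⟩, ht.mem_hull⟩)

/-- The full complex of an affinely independent set. -/
theorem GC.ofSimplex (s : Finset E) (hs : AffineIndependent ℝ (fun x : s => (x : E))) :
    ∃ K : GC E, (∀ t : Finset E, t ∈ K.faces ↔ t ⊆ s ∧ t.Nonempty) ∧
      (s.Nonempty → K.space = convexHull ℝ (s : Set E)) := by
  classical
  have key : ∀ c : E → ℝ, ∑ y ∈ s, c y = 0 → ∑ y ∈ s, c y • y = 0 → ∀ y ∈ s, c y = 0 := by
    intro c h1 h2 y hy
    rw [affineIndependent_iff] at hs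
    have h3 := hs Finset.univ (fun y : s => c y) (by rw [Finset.sum_coe_sort s (fun y => c y)]; exact h1)
      (by rw [Finset.sum_coe_sort s (fun y => c y • y)]; exact h2) ⟨y, hy⟩ (Finset.mem_univ _)
    exact h3
  have hext : ∀ t : Finset E, t ⊆ s → ∀ w : E → ℝ,
      ∑ y ∈ s, (if y ∈ t then w y else 0) = ∑ y ∈ t, w y := by
    intro t ht w
    rw [Finset.sum_ite_mem, Finset.inter_eq_right.2 ht]
  have hext2 : ∀ t : Finset E, t ⊆ s → ∀ w : E → ℝ,
      ∑ y ∈ s, (if y ∈ t then w y else 0) • y = ∑ y ∈ t, w y • y := by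
    intro t ht w
    have : ∀ y ∈ s, (if y ∈ t then w y else 0) • y = if y ∈ t then w y • y else 0 := by
      intro y _
      split_ifs
      · rfl
      · rw [zero_smul]
    rw [Finset.sum_congr rfl this, Finset.sum_ite_mem, Finset.inter_eq_right.2 ht]
  refine ⟨{ faces := {t | t ⊆ s ∧ t.Nonempty}
            fin := (s.powerset.finite_toSet).subset (fun t ht => by simpa using ht.1)
            ne := fun t ht => ht.2
            down := fun t ht u hu hne => ⟨hu.trans ht.1, hne⟩
            uniq := ?_ }, fun t => Iff.rfl, ?_⟩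
  · rintro t ⟨ht, -⟩ u ⟨hu, -⟩ w v hw0 hv0 hw1 hv1 hwv
    have hz := key (fun y => (if y ∈ t then w y else 0) - (if y ∈ u then v y else 0))
      (by rw [Finset.sum_sub_distrib, hext t ht, hext u hu, hw1, hv1, sub_self])
      (by
        simp only [sub_smul]
        rw [Finset.sum_sub_distrib, hext2 t ht, hext2 u hu, hwv, sub_self])
    have htu : t ⊆ u := by
      intro y hy
      by_contra hyu
      have := hz y (ht hy)
      rw [if_pos hy, if_neg hyu, sub_zero] at this
      exact (hw0 y hy).ne' this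
    have hut : u ⊆ t := by
      intro y hy
      by_contra hyt
      have := hz y (hu hy)
      rw [if_neg hyt, if_pos hy, zero_sub, neg_eq_zero] at this
      exact (hv0 y hy).ne' this
    refine ⟨htu.antisymm hut, fun y hy => ?_⟩
    have := hz y (ht hy)
    rw [if_pos hy, if_pos (htu hy)] at this
    linarith
  · intro hne
    unfold GC.space
    apply Set.Subset.antisymm
    · refine Set.iUnion₂_subset (fun t ht => convexHull_mono ?_)
      exact_mod_cast ht.1
    · exact Set.subset_biUnion_of_mem (u := fun t : Finset E => convexHull ℝ (t : Set E))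
        (show s ∈ {t | t ⊆ s ∧ t.Nonempty} from ⟨Finset.Subset.refl s, hne⟩)

/-- The subcomplex of the faces contained in `Y`. -/
theorem GC.restrict (K : GC E) (Y : Set E) (hY : K.Adapted Y) :
    ∃ K' : GC E, (∀ t, t ∈ K'.faces ↔ t ∈ K.faces ∧ convexHull ℝ (t : Set E) ⊆ Y) ∧
      K'.space = K.space ∩ Y ∧ ∀ Z, K.Adapted Z → K'.Adapted Z := by
  refine ⟨{ faces := {t | t ∈ K.faces ∧ convexHull ℝ (t : Set E) ⊆ Y}
            fin := K.fin.subset (fun t ht => ht.1)
            ne := fun t ht => K.ne t ht.1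
            down := fun t ht u hu hne => ⟨K.down t ht.1 u hu hne,
              (convexHull_mono (by exact_mod_cast hu)).trans ht.2⟩
            uniq := fun t ht u hu => K.uniq t ht.1 u hu.1 }, fun t => Iff.rfl, ?_, ?_⟩
  · unfold GC.space
    ext x
    simp only [Set.mem_iUnion, Set.mem_ofPred_eq, Set.mem_inter_iff]
    constructor
    · rintro ⟨t, ⟨ht, htY⟩, hx⟩
      exact ⟨⟨t, ht, hx⟩, htY hx⟩
    · rintro ⟨⟨t, ht, hx⟩, hxY⟩
      obtain ⟨u, hut, hu⟩ := GC.exists_carrier ht hx
      have hm := hu.mem_hull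
      obtain ⟨hu1, w, hw0, hw1, hwx⟩ := hu
      exact ⟨u, ⟨hu1, hY u hu1 w hw0 hw1 (hwx.symm ▸ hxY)⟩, hm⟩
  · intro Z hZ t ht w hw0 hw1 hx
    exact hZ t ht.1 w hw0 hw1 hx

end Pool.H54.UB
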