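import Pool.Agent.H54.UB.PE

/-!
# Row PF: PL maps, second part (composition, inverse, pairs, lattice operations)

* `comp`: the graph of `g ∘ f` over `X` is the image under the linear map `(x, y, z) ↦ (x, z)` of
  `(graph f ×ˢ g(Y)) ∩ {(x, y, z) | (y, z) ∈ graph g}` (use `IsPoly.prod`, `IsPoly.inter_preimage`).
* `prodMk`: graph of `(f, g)` = `{(x, y, z) | (x, y) ∈ graph f, (x, z) ∈ graph g}`.
* `symm`: swap the graph.
* `max`, `min`, `abs`, `add`, `smul`: compose `prodMk` with the function `max : ℝ × ℝ → ℝ`, which is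
  PL on every compact polyhedron `Y ⊆ ℝ × ℝ` (`Y = Y ∩ {p.1 ≤ p.2} ∪ Y ∩ {p.2 ≤ p.1}`,
  `IsPoly.inter_halfspace`, `PLOn.affine`, `PLOn.congr`, `PLOn.union`).
* `pi`: for `f : E → Fin m → ℝ`: induction on `m` or directly: the graph is
  `⋂ i {(x, y) | (x, y i) ∈ graph (f · i)}` intersected with `X ×ˢ box`.
-/

set_option linter.unusedSectionVars false

open Set Topology

namespace Pool.H54.UB

variable {E F G : Type*} [NormedAddCommGroup E] [NormedSpace ℝ E] [FiniteDimensional ℝ E]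
  [NormedAddCommGroup F] [NormedSpace ℝ F] [FiniteDimensional ℝ F]
  [NormedAddCommGroup G] [NormedSpace ℝ G] [FiniteDimensional ℝ G]

/-- the affine map `((x, y), z) ↦ (y, z)` -/
noncomputable def PF_a (E F G : Type*) [NormedAddCommGroup E] [NormedSpace ℝ E]
    [NormedAddCommGroup F] [NormedSpace ℝ F] [NormedAddCommGroup G] [NormedSpace ℝ G] :
    (E × F) × G →ᵃ[ℝ] F × G :=
  (((LinearMap.snd ℝ E F).comp (LinearMap.fst ℝ (E × F) G)).prod
    (LinearMap.snd ℝ (E × F) G)).toAffineMap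

/-- the affine map `((x, y), z) ↦ (x, z)` -/
noncomputable def PF_b (E F G : Type*) [NormedAddCommGroup E] [NormedSpace ℝ E]
    [NormedAddCommGroup F] [NormedSpace ℝ F] [NormedAddCommGroup G] [NormedSpace ℝ G] :
    (E × F) × G →ᵃ[ℝ] E × G :=
  (((LinearMap.fst ℝ E F).comp (LinearMap.fst ℝ (E × F) G)).prod
    (LinearMap.snd ℝ (E × F) G)).toAffineMap

/-- the affine map `((x, y), z) ↦ (x, (y, z))` -/
noncomputable def PF_c (E F G : Type*) [NormedAddCommGroup E] [NormedSpace ℝ E]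
    [NormedAddCommGroup F] [NormedSpace ℝ F] [NormedAddCommGroup G] [NormedSpace ℝ G] :
    (E × F) × G →ᵃ[ℝ] E × (F × G) :=
  (((LinearMap.fst ℝ E F).comp (LinearMap.fst ℝ (E × F) G)).prod
    (((LinearMap.snd ℝ E F).comp (LinearMap.fst ℝ (E × F) G)).prod
    (LinearMap.snd ℝ (E × F) G))).toAffineMap

/-- the affine map `(x, y) ↦ (y, x)` -/
noncomputable def PF_s (E F : Type*) [NormedAddCommGroup E] [NormedSpace ℝ E]
    [NormedAddCommGroup F] [NormedSpace ℝ F] : E × F →ᵃ[ℝ] F × E :=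
  ((LinearMap.snd ℝ E F).prod (LinearMap.fst ℝ E F)).toAffineMap

theorem PF_a_apply (x : E) (y : F) (z : G) : PF_a E F G ((x, y), z) = (y, z) := rfl
theorem PF_b_apply (x : E) (y : F) (z : G) : PF_b E F G ((x, y), z) = (x, z) := rfl
theorem PF_c_apply (x : E) (y : F) (z : G) : PF_c E F G ((x, y), z) = (x, (y, z)) := rfl
theorem PF_s_apply (x : E) (y : F) : PF_s E F (x, y) = (y, x) := rfl

theorem PLOn.comp {f : E → F} {g : F → G} {X : Set E} {Y : Set F} (hg : PLOn g Y)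
    (hf : PLOn f X) (h : MapsTo f X Y) : PLOn (fun x => g (f x)) X := by
  have h1 : IsPoly ((((fun x => (x, f x)) '' X) ×ˢ (g '' Y)) ∩
      (PF_a E F G) ⁻¹' ((fun y => (y, g y)) '' Y)) :=
    IsPoly.inter_preimage (IsPoly.prod hf hg.image) hg _
  have h2 := h1.image_affine (PF_b E F G)
  have h3 : (fun x => (x, g (f x))) '' X = (PF_b E F G) '' ((((fun x => (x, f x)) '' X) ×ˢ (g '' Y)) ∩
      (PF_a E F G) ⁻¹' ((fun y => (y, g y)) '' Y)) := by
    ext p
    constructor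
    · rintro ⟨x, hx, rfl⟩
      exact ⟨((x, f x), g (f x)), ⟨⟨⟨x, hx, rfl⟩, ⟨f x, h hx, rfl⟩⟩, ⟨f x, h hx, rfl⟩⟩, rfl⟩
    · rintro ⟨⟨⟨x, y⟩, z⟩, ⟨⟨⟨x', hx', e1⟩, _⟩, ⟨y', hy', e2⟩⟩, rfl⟩
      rw [PF_a_apply] at e2
      simp only [Prod.mk.injEq] at e1 e2
      obtain ⟨rfl, rfl⟩ := e1
      obtain ⟨rfl, rfl⟩ := e2
      exact ⟨x', hx', rfl⟩
  unfold PLOn
  rw [h3]
  exact h2

theorem PLOn.prodMk {f : E → F} {g : E → G} {X : Set E} (hf : PLOn f X) (hg : PLOn g X) :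
    PLOn (fun x => (f x, g x)) X := by
  have h1 : IsPoly ((((fun x => (x, f x)) '' X) ×ˢ (g '' X)) ∩
      (PF_b E F G) ⁻¹' ((fun y => (y, g y)) '' X)) :=
    IsPoly.inter_preimage (IsPoly.prod hf hg.image) hg _
  have h2 := h1.image_affine (PF_c E F G)
  have h3 : (fun x => (x, (f x, g x))) '' X = (PF_c E F G) '' ((((fun x => (x, f x)) '' X) ×ˢ
      (g '' X)) ∩ (PF_b E F G) ⁻¹' ((fun y => (y, g y)) '' X)) := by
    ext p
    constructor
    · rintro ⟨x, hx, rfl⟩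
      exact ⟨((x, f x), g x), ⟨⟨⟨x, hx, rfl⟩, ⟨x, hx, rfl⟩⟩, ⟨x, hx, rfl⟩⟩, rfl⟩
    · rintro ⟨⟨⟨x, y⟩, z⟩, ⟨⟨⟨x', hx', e1⟩, _⟩, ⟨y', hy', e2⟩⟩, rfl⟩
      rw [PF_b_apply] at e2
      simp only [Prod.mk.injEq] at e1 e2
      obtain ⟨rfl, rfl⟩ := e1
      obtain ⟨rfl, rfl⟩ := e2
      exact ⟨_, hx', rfl⟩
  unfold PLOn
  rw [h3]
  exact h2

/-- Any left inverse is PL. -/
theorem PLOn.of_leftInv {f : E → F} {g : F → E} {X : Set E} (hf : PLOn f X)
    (h : ∀ x ∈ X, g (f x) = x) : PLOn g (f '' X) := by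
  have h2 := IsPoly.image_affine hf (PF_s E F)
  have h3 : (fun y => (y, g y)) '' (f '' X) = (PF_s E F) '' ((fun x => (x, f x)) '' X) := by
    ext p
    constructor
    · rintro ⟨_, ⟨x, hx, rfl⟩, rfl⟩
      refine ⟨(x, f x), ⟨x, hx, rfl⟩, ?_⟩
      show (f x, x) = (f x, g (f x))
      rw [h x hx]
    · rintro ⟨_, ⟨x, hx, rfl⟩, rfl⟩
      refine ⟨f x, ⟨x, hx, rfl⟩, ?_⟩
      show (f x, g (f x)) = (f x, x)
      rw [h x hx]
  unfold PLOn
  rw [h3]
  exact h2

theorem PLOn.symm {f : E → F} {X : Set E} (hf : PLOn f X) (hi : InjOn f X) :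
    PLOn (Function.invFunOn f X) (f '' X) :=
  hf.of_leftInv fun _ hx => hi.leftInvOn_invFunOn hx

/-- Affine post-composition and pre-composition. -/
theorem PLOn.affine_comp {f : E → F} {X : Set E} (hf : PLOn f X) (A : F →ᵃ[ℝ] G) :
    PLOn (fun x => A (f x)) X :=
  (PLOn.affine A hf.image).comp hf (mapsTo_image f X)

theorem PLOn.comp_affine {f : F → G} {X : Set E} (A : E →ᵃ[ℝ] F) (hX : IsPoly X)
    (hf : PLOn f (A '' X)) : PLOn (fun x => f (A x)) X :=
  hf.comp (PLOn.affine A hX) (mapsTo_image A X)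

theorem PLOn.const {X : Set E} (hX : IsPoly X) (c : F) : PLOn (fun _ => c) X :=
  PLOn.affine (AffineMap.const ℝ E c) hX

theorem PLOn.id {X : Set E} (hX : IsPoly X) : PLOn (fun x => x) X :=
  PLOn.affine (AffineMap.id ℝ E) hX

theorem PLOn.add {f g : E → F} {X : Set E} (hf : PLOn f X) (hg : PLOn g X) :
    PLOn (fun x => f x + g x) X :=
  (hf.prodMk hg).affine_comp ((LinearMap.fst ℝ F F + LinearMap.snd ℝ F F).toAffineMap)

theorem PLOn.const_smul {f : E → F} {X : Set E} (hf : PLOn f X) (c : ℝ) :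
    PLOn (fun x => c • f x) X :=
  hf.affine_comp ((c • (LinearMap.id : F →ₗ[ℝ] F)).toAffineMap)

/-- the difference of the coordinates -/
noncomputable def PF_d : ℝ × ℝ →ᵃ[ℝ] ℝ := (LinearMap.snd ℝ ℝ ℝ - LinearMap.fst ℝ ℝ ℝ).toAffineMap

/-- the difference of the coordinates -/
noncomputable def PF_e : ℝ × ℝ →ᵃ[ℝ] ℝ := (LinearMap.fst ℝ ℝ ℝ - LinearMap.snd ℝ ℝ ℝ).toAffineMap

theorem PF_max {Y : Set (ℝ × ℝ)} (hY : IsPoly Y) :
    PLOn (fun p : ℝ × ℝ => Max.max p.1 p.2) Y := by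
  have h1 : Y = (Y ∩ {p | 0 ≤ PF_d p}) ∪ (Y ∩ {p | 0 ≤ PF_e p}) := by
    rw [← inter_union_distrib_left]
    symm
    rw [inter_eq_left]
    intro p _
    rcases le_total p.1 p.2 with h | h
    · left
      show 0 ≤ p.2 - p.1
      linarith
    · right
      show 0 ≤ p.1 - p.2
      linarith
  rw [h1]
  refine PLOn.union ?_ ?_
  · refine PLOn.congr (PLOn.affine (LinearMap.snd ℝ ℝ ℝ).toAffineMap (hY.inter_halfspace PF_d)) ?_
    intro p hp
    have h2 : 0 ≤ p.2 - p.1 := hp.2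
    show p.2 = Max.max p.1 p.2
    rw [max_eq_right (by linarith)]
  · refine PLOn.congr (PLOn.affine (LinearMap.fst ℝ ℝ ℝ).toAffineMap (hY.inter_halfspace PF_e)) ?_
    intro p hp
    have h2 : 0 ≤ p.1 - p.2 := hp.2
    show p.1 = Max.max p.1 p.2
    rw [max_eq_left (by linarith)]

theorem PLOn.max {f g : E → ℝ} {X : Set E} (hf : PLOn f X) (hg : PLOn g X) :
    PLOn (fun x => max (f x) (g x)) X :=
  (PF_max (hf.prodMk hg).image).comp (hf.prodMk hg) (mapsTo_image _ X)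

theorem PLOn.min {f g : E → ℝ} {X : Set E} (hf : PLOn f X) (hg : PLOn g X) :
    PLOn (fun x => min (f x) (g x)) X := by
  have h := ((hf.const_smul (-1)).max (hg.const_smul (-1))).const_smul (-1)
  refine h.congr ?_
  intro x _
  show (-1 : ℝ) • Max.max ((-1 : ℝ) • f x) ((-1 : ℝ) • g x) = Min.min (f x) (g x)
  simp only [smul_eq_mul, neg_mul, one_mul]
  rw [max_neg_neg, neg_neg]

/-- the affine map `(x, y) ↦ (x, y i)` -/
noncomputable def PF_p (E : Type*) [NormedAddCommGroup E] [NormedSpace ℝ E] {m : ℕ} (i : Fin m) :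
    E × (Fin m → ℝ) →ᵃ[ℝ] E × ℝ :=
  ((LinearMap.fst ℝ E (Fin m → ℝ)).prod
    ((LinearMap.proj i).comp (LinearMap.snd ℝ E (Fin m → ℝ)))).toAffineMap

theorem PF_p_apply {m : ℕ} (i : Fin m) (x : E) (y : Fin m → ℝ) : PF_p E i (x, y) = (x, y i) := rfl

theorem PLOn.pi {m : ℕ} {f : E → Fin m → ℝ} {X : Set E} (hX : IsPoly X)
    (h : ∀ i, PLOn (fun x => f x i) X) : PLOn f X := by
  have hb : ∀ i, ∃ c : ℝ × ℝ, ∀ x ∈ X, c.1 ≤ f x i ∧ f x i ≤ c.2 := by
    intro i
    have h1 := (h i).image.isCompact.isBounded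
    obtain ⟨R, hR⟩ := h1.subset_closedBall 0
    refine ⟨(-R, R), fun x hx => ?_⟩
    have h2 := hR ⟨x, hx, rfl⟩
    rw [mem_closedBall_zero_iff, Real.norm_eq_abs] at h2
    exact abs_le.1 h2
  choose c hc using hb
  have hbox := isPoly_box (fun i => (c i).1) (fun i => (c i).2)
  have key : ∀ s : Finset (Fin m), IsPoly {p : E × (Fin m → ℝ) | p ∈ X ×ˢ
      {y : Fin m → ℝ | ∀ i, (c i).1 ≤ y i ∧ y i ≤ (c i).2} ∧
      ∀ i ∈ s, (p.1, p.2 i) ∈ (fun x => (x, f x i)) '' X} := by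
    intro s
    classical
    induction s using Finset.induction_on with
    | empty =>
      have e : {p : E × (Fin m → ℝ) | p ∈ X ×ˢ
          {y : Fin m → ℝ | ∀ i, (c i).1 ≤ y i ∧ y i ≤ (c i).2} ∧
          ∀ i ∈ (∅ : Finset (Fin m)), (p.1, p.2 i) ∈ (fun x => (x, f x i)) '' X} =
          X ×ˢ {y : Fin m → ℝ | ∀ i, (c i).1 ≤ y i ∧ y i ≤ (c i).2} := by
        ext p
        simp
      rw [e]
      exact hX.prod hbox
    | insert j s hj ih =>
      have e : {p : E × (Fin m → ℝ) | p ∈ X ×ˢ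
          {y : Fin m → ℝ | ∀ i, (c i).1 ≤ y i ∧ y i ≤ (c i).2} ∧
          ∀ i ∈ insert j s, (p.1, p.2 i) ∈ (fun x => (x, f x i)) '' X} =
          {p : E × (Fin m → ℝ) | p ∈ X ×ˢ
          {y : Fin m → ℝ | ∀ i, (c i).1 ≤ y i ∧ y i ≤ (c i).2} ∧
          ∀ i ∈ s, (p.1, p.2 i) ∈ (fun x => (x, f x i)) '' X} ∩
          (PF_p E j) ⁻¹' ((fun x => (x, f x j)) '' X) := by
        ext p
        constructor
        · rintro ⟨h1, h2⟩
          exact ⟨⟨h1, fun i hi => h2 i (Finset.mem_insert_of_mem hi)⟩,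
            h2 j (Finset.mem_insert_self _ _)⟩
        · rintro ⟨⟨h1, h2⟩, h3⟩
          refine ⟨h1, fun i hi => ?_⟩
          rcases Finset.mem_insert.1 hi with rfl | hi
          · exact h3
          · exact h2 i hi
      rw [e]
      exact ih.inter_preimage (h j) _
  have h4 := key Finset.univ
  have e : (fun x => (x, f x)) '' X = {p : E × (Fin m → ℝ) | p ∈ X ×ˢ
      {y : Fin m → ℝ | ∀ i, (c i).1 ≤ y i ∧ y i ≤ (c i).2} ∧
      ∀ i ∈ (Finset.univ : Finset (Fin m)), (p.1, p.2 i) ∈ (fun x => (x, f x i)) '' X} := by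
    ext p
    constructor
    · rintro ⟨x, hx, rfl⟩
      exact ⟨⟨hx, fun i => hc i x hx⟩, fun i _ => ⟨x, hx, rfl⟩⟩
    · rintro ⟨⟨h1, _⟩, h2⟩
      refine ⟨p.1, h1, ?_⟩
      apply Prod.ext
      · rfl
      · funext i
        obtain ⟨x, _, hx⟩ := h2 i (Finset.mem_univ i)
        simp only [Prod.mk.injEq] at hx
        obtain ⟨e1, e2⟩ := hx
        rw [← e1]
        exact e2
  unfold PLOn
  rw [e]
  exact h4

theorem PLOn.apply {m : ℕ} {f : E → Fin m → ℝ} {X : Set E} (hf : PLOn f X) (i : Fin m) :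
    PLOn (fun x => f x i) X :=
  hf.affine_comp ((LinearMap.proj (R := ℝ) (φ := fun _ : Fin m => ℝ) i).toAffineMap)

theorem PLOn.prodMap {F' : Type*} [NormedAddCommGroup F'] [NormedSpace ℝ F']
    [FiniteDimensional ℝ F'] {f : E → F} {g : G → F'} {X : Set E} {Y : Set G}
    (hf : PLOn f X) (hg : PLOn g Y) : PLOn (fun p : E × G => (f p.1, g p.2)) (X ×ˢ Y) := by
  have hP : IsPoly (X ×ˢ Y) := hf.domain.prod hg.domain
  have h1 : PLOn (fun p : E × G => f p.1) (X ×ˢ Y) :=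
    hf.comp (PLOn.affine (LinearMap.fst ℝ E G).toAffineMap hP) (fun p hp => hp.1)
  have h2 : PLOn (fun p : E × G => g p.2) (X ×ˢ Y) :=
    hg.comp (PLOn.affine (LinearMap.snd ℝ E G).toAffineMap hP) (fun p hp => hp.2)
  exact h1.prodMk h2

/-- Finite maxima and minima over nonempty finsets. -/
theorem PLOn.sup' {ι : Type*} (s : Finset ι) (hs : s.Nonempty) {f : ι → E → ℝ} {X : Set E}
    (h : ∀ i ∈ s, PLOn (f i) X) : PLOn (fun x => s.sup' hs (fun i => f i x)) X := by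
  induction hs using Finset.Nonempty.cons_induction with
  | singleton a =>
    refine PLOn.congr (h a (Finset.mem_singleton_self a)) fun x _ => ?_
    rw [Finset.sup'_singleton]
  | cons a s ha hs ih =>
    have h1 := (h a (Finset.mem_cons_self a s)).max (ih fun i hi => h i (Finset.mem_cons_of_mem hi))
    refine PLOn.congr h1 fun x _ => ?_
    rw [Finset.sup'_cons hs]

theorem PLOn.inf' {ι : Type*} (s : Finset ι) (hs : s.Nonempty) {f : ι → E → ℝ} {X : Set E}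
    (h : ∀ i ∈ s, PLOn (f i) X) : PLOn (fun x => s.inf' hs (fun i => f i x)) X := by
  induction hs using Finset.Nonempty.cons_induction with
  | singleton a =>
    refine PLOn.congr (h a (Finset.mem_singleton_self a)) fun x _ => ?_
    rw [Finset.inf'_singleton]
  | cons a s ha hs ih =>
    have h1 := (h a (Finset.mem_cons_self a s)).min (ih fun i hi => h i (Finset.mem_cons_of_mem hi))
    refine PLOn.congr h1 fun x _ => ?_
    rw [Finset.inf'_cons hs]

/-- If the finite union of PL homeomorphic images... : a PL injection has a PL image and maps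
polyhedra to polyhedra. -/
theorem PLOn.image_poly {f : E → F} {X Y : Set E} (hf : PLOn f X) (hY : IsPoly Y) (h : Y ⊆ X) :
    IsPoly (f '' Y) :=
  (hf.mono hY h).image

end Pool.H54.UB
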