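import Pool.Agent.H54.UB.TRI
import Pool.Agent.H54.UB.PF
import Pool.Agent.H54.UB.GA

/-!
# Row CRF: refinements adapted to a chart, image complexes

* `image_complex`: faces of `L'` = images of the faces of `L`.  `uniq`: positive weights on `h(s)`,
  `h(t)` with the same barycentre pull back (`h` is injective on `s`, affine on the hulls) to positive
  weights on `s`, `t`, whose barycentres have the same image under `h`, hence are equal.
* `affine_refine`: `PLOn.pieces` for `h`, and `triang` for `X` with the list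
  `{A ∩ X | A ∈ Y} ∪ {pieces}`.  (`L.Adapted (A ∩ X)` implies `L.Adapted A` as hulls lie in `X`.)
  A face has a carrier point in some piece, so its hull is contained in that piece.
* `chart_refine`: combine the two.
* `carrier_refine`: `x, y` with the same `L`-carrier `s`; `a` the `K`-carrier of `x`;
  `convexHull s ⊆ convexHull a` since `L` is adapted to `convexHull a` and `x` is in it; so the
  `K`-carrier `a'` of `y` is `⊆ a` (`carrier_sub`); exchanging the roles `a ⊆ a'`.
* `exists_face_dim`: if `O` is open, `x ∈ O ∩ convexHull a`, `a` a face of `K` (affinely independent),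
  `convexHull a ∩ O ⊆ L.space` and `L` is adapted to `convexHull a`, then there is an `L`-face `b` with
  `b.card = a.card`, `convexHull b ⊆ convexHull a` and a point `y ∈ O` with `L`-carrier `b` and
  `K`-carrier `a`.  Proof: the points of `O ∩ convexHull a` with `K`-carrier `a` form a nonempty open
  subset of `convexHull a` in its affine span (dimension `card a - 1`); it is covered by the hulls of the
  finitely many `L`-faces contained in `convexHull a`; those with fewer vertices than `a` are closed and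
  nowhere dense in the affine span (Baire; or transport to `Fin (card a - 1) → ℝ` by an affine
  isomorphism and use measure zero); no face in `convexHull a` can have more vertices than `a`
  (affine independence).
-/

set_option linter.unusedSectionVars false

open Set Topology

namespace Pool.H54.UB

variable {E F : Type*} [NormedAddCommGroup E] [NormedSpace ℝ E] [FiniteDimensional ℝ E]
  [NormedAddCommGroup F] [NormedSpace ℝ F] [FiniteDimensional ℝ F]

theorem CRF_aff_sum (A : E →ᵃ[ℝ] F) (s : Finset E) (w : E → ℝ) (hw : ∑ x ∈ s, w x = 1) :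
    A (∑ x ∈ s, w x • x) = ∑ x ∈ s, w x • A x := by
  have hdec : ∀ x : E, A x = A.linear x + A 0 := fun x => by
    have := A.decomp
    exact congrFun this x
  rw [hdec, map_sum]
  have h2 : ∑ x ∈ s, w x • A x = ∑ x ∈ s, (w x • A.linear x) + ∑ x ∈ s, w x • A 0 := by
    rw [← Finset.sum_add_distrib]
    exact Finset.sum_congr rfl fun x _ => by rw [hdec x, smul_add]
  rw [h2, ← Finset.sum_smul, hw, one_smul]
  congr 1
  exact Finset.sum_congr rfl fun x _ => by rw [map_smul]

theorem CRF_h_sum {h : E → F} {s : Finset E} (hh : AffOn h (convexHull ℝ (s : Set E))) {w : E → ℝ}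
    (hw0 : ∀ x ∈ s, 0 < w x) (hw : ∑ x ∈ s, w x = 1) :
    h (∑ x ∈ s, w x • x) = ∑ x ∈ s, w x • h x := by
  obtain ⟨A, hA⟩ := hh
  have h1 : ∑ x ∈ s, w x • x ∈ convexHull ℝ (s : Set E) :=
    Finset.mem_convexHull'.2 ⟨w, fun y hy => (hw0 y hy).le, hw, rfl⟩
  rw [hA h1, CRF_aff_sum A s w hw]
  exact Finset.sum_congr rfl fun x hx => by rw [hA (subset_convexHull ℝ _ hx)]

theorem CRF_image_hull {h : E → F} {s : Finset E} (hh : AffOn h (convexHull ℝ (s : Set E))) :
    h '' convexHull ℝ (s : Set E) = convexHull ℝ (h '' (s : Set E)) := by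
  obtain ⟨A, hA⟩ := hh
  rw [Set.image_congr hA, A.image_convexHull]
  congr 1
  exact Set.image_congr fun x hx => (hA (subset_convexHull ℝ _ hx)).symm

theorem GC.image_complex (L : GC E) (h : E → F)
    (hh : ∀ s ∈ L.faces, AffOn h (convexHull ℝ (s : Set E))) (hi : InjOn h L.space) :
    ∃ L' : GC F, (∀ s' : Finset F, s' ∈ L'.faces ↔ ∃ s ∈ L.faces, (s' : Set F) = h '' (s : Set E)) ∧
      L'.space = h '' L.space ∧
      (∀ x s, L.IsCarrier x s → ∀ s' : Finset F, (s' : Set F) = h '' (s : Set E) →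
        L'.IsCarrier (h x) s') ∧
      (∀ s ∈ L.faces, h '' convexHull ℝ (s : Set E) = convexHull ℝ (h '' (s : Set E))) := by
  classical
  have hsub : ∀ s ∈ L.faces, convexHull ℝ (s : Set E) ⊆ L.space := fun s hs =>
    Set.subset_iUnion₂ (s := fun (s : Finset E) (_ : s ∈ L.faces) => convexHull ℝ (s : Set E)) s hs
  have hinj : ∀ s ∈ L.faces, InjOn h (s : Set E) := fun s hs =>
    hi.mono ((subset_convexHull ℝ _).trans (hsub s hs))
  have himg : ∀ (s : Finset E) (s' : Finset F), (s' : Set F) = h '' (s : Set E) → s' = s.image h := by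
    intro s s' h1
    apply Finset.coe_injective
    rw [h1, Finset.coe_image]
  have hsum : ∀ s ∈ L.faces, ∀ (s' : Finset F), (s' : Set F) = h '' (s : Set E) →
      ∀ (g : F → ℝ), ∑ y ∈ s', g y = ∑ x ∈ s, g (h x) := by
    intro s hs s' h1 g
    rw [himg s s' h1]
    exact Finset.sum_image (hinj s hs)
  have hsumF : ∀ s ∈ L.faces, ∀ (s' : Finset F), (s' : Set F) = h '' (s : Set E) →
      ∀ (g : F → F), ∑ y ∈ s', g y = ∑ x ∈ s, g (h x) := by
    intro s hs s' h1 g
    rw [himg s s' h1]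
    exact Finset.sum_image (hinj s hs)
  let L' : GC F :=
    { faces := {s' | ∃ s ∈ L.faces, (s' : Set F) = h '' (s : Set E)}
      fin := by
        refine (L.fin.image (fun s => s.image h)).subset ?_
        rintro s' ⟨s, hs, h1⟩
        exact ⟨s, hs, (himg s s' h1).symm⟩
      ne := by
        rintro s' ⟨s, hs, h1⟩
        rw [← Finset.coe_nonempty, h1]
        exact (Finset.coe_nonempty.2 (L.ne s hs)).image h
      down := by
        rintro s' ⟨s, hs, h1⟩ t' ht' hne
        have h2 : h '' ((s.filter (fun x => h x ∈ t') : Finset E) : Set E) = (t' : Set F) := by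
          ext y
          constructor
          · rintro ⟨x, hx, rfl⟩
            exact (Finset.mem_filter.1 hx).2
          · intro hy
            have h3 : y ∈ h '' (s : Set E) := by rw [← h1]; exact ht' hy
            obtain ⟨x, hx, rfl⟩ := h3
            exact ⟨x, Finset.mem_coe.2 (Finset.mem_filter.2 ⟨hx, hy⟩), rfl⟩
        refine ⟨s.filter (fun x => h x ∈ t'), L.down s hs _ (Finset.filter_subset _ _) ?_, h2.symm⟩
        obtain ⟨y, hy⟩ := hne
        have h3 : y ∈ h '' ((s.filter (fun x => h x ∈ t') : Finset E) : Set E) := by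
          rw [h2]; exact hy
        obtain ⟨x, hx, -⟩ := h3
        exact ⟨x, hx⟩
      uniq := by
        rintro s' ⟨s, hs, h1⟩ t' ⟨t, ht, h2⟩ w v hw hv hw1 hv1 heq
        have hw' : ∀ x ∈ s, 0 < w (h x) := fun x hx => hw _ (by
          rw [himg s s' h1]; exact Finset.mem_image_of_mem h hx)
        have hv' : ∀ x ∈ t, 0 < v (h x) := fun x hx => hv _ (by
          rw [himg t t' h2]; exact Finset.mem_image_of_mem h hx)
        rw [hsum s hs s' h1] at hw1
        rw [hsum t ht t' h2] at hv1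
        rw [hsumF s hs s' h1, hsumF t ht t' h2] at heq
        have h3 := CRF_h_sum (hh s hs) hw' hw1
        have h4 := CRF_h_sum (hh t ht) hv' hv1
        have h5 : ∑ x ∈ s, w (h x) • x ∈ L.space := hsub s hs
          (Finset.mem_convexHull'.2 ⟨_, fun y hy => (hw' y hy).le, hw1, rfl⟩)
        have h6 : ∑ x ∈ t, v (h x) • x ∈ L.space := hsub t ht
          (Finset.mem_convexHull'.2 ⟨_, fun y hy => (hv' y hy).le, hv1, rfl⟩)
        have h7 : ∑ x ∈ s, w (h x) • x = ∑ x ∈ t, v (h x) • x :=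
          hi h5 h6 (h3.trans (heq.trans h4.symm))
        obtain ⟨h8, h9⟩ := L.uniq s hs t ht (fun x => w (h x)) (fun x => v (h x)) hw' hv' hw1 hv1 h7
        refine ⟨by rw [himg s s' h1, himg t t' h2, h8], ?_⟩
        intro y hy
        rw [himg s s' h1] at hy
        obtain ⟨x, hx, rfl⟩ := Finset.mem_image.1 hy
        exact h9 x hx }
  have hface : ∀ s' : Finset F, s' ∈ L'.faces ↔ ∃ s ∈ L.faces, (s' : Set F) = h '' (s : Set E) :=
    fun s' => Iff.rfl
  have hhull : ∀ s ∈ L.faces, h '' convexHull ℝ (s : Set E) = convexHull ℝ (h '' (s : Set E)) :=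
    fun s hs => CRF_image_hull (hh s hs)
  refine ⟨L', hface, ?_, ?_, hhull⟩
  · ext y
    constructor
    · intro hy
      obtain ⟨s', hs', hy'⟩ := Set.mem_iUnion₂.1 hy
      obtain ⟨s, hs, h1⟩ := (hface s').1 hs'
      rw [h1, ← hhull s hs] at hy'
      obtain ⟨x, hx, rfl⟩ := hy'
      exact ⟨x, hsub s hs hx, rfl⟩
    · rintro ⟨x, hx, rfl⟩
      obtain ⟨s, hs, hx'⟩ := Set.mem_iUnion₂.1 hx
      refine Set.mem_iUnion₂.2 ⟨s.image h, (hface _).2 ⟨s, hs, Finset.coe_image⟩, ?_⟩
      rw [Finset.coe_image, ← hhull s hs]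
      exact ⟨x, hx', rfl⟩
  · rintro x s ⟨hs, w, hw0, hw1, hwx⟩ s' h1
    have hinv : ∀ y ∈ s, Function.invFunOn h (s : Set E) (h y) = y := fun y hy =>
      (hinj s hs).leftInvOn_invFunOn hy
    refine ⟨(hface s').2 ⟨s, hs, h1⟩, fun y => w (Function.invFunOn h (s : Set E) y), ?_, ?_, ?_⟩
    · intro y hy
      rw [himg s s' h1] at hy
      obtain ⟨z, hz, rfl⟩ := Finset.mem_image.1 hy
      show 0 < w (Function.invFunOn h (s : Set E) (h z))
      rw [hinv z hz]
      exact hw0 z hz
    · rw [hsum s hs s' h1, ← hw1]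
      exact Finset.sum_congr rfl fun y hy => by rw [hinv y hy]
    · rw [hsumF s hs s' h1, ← hwx, CRF_h_sum (hh s hs) hw0 hw1]
      refine Finset.sum_congr rfl fun y hy => ?_
      show w (Function.invFunOn h (s : Set E) (h y)) • h y = w y • h y
      rw [hinv y hy]

theorem CRF_bary (s : Finset E) (hne : s.Nonempty) :
    ∃ w : E → ℝ, (∀ x ∈ s, 0 < w x) ∧ ∑ x ∈ s, w x = 1 := by
  have hc : (0 : ℝ) < s.card := by exact_mod_cast hne.card_pos
  refine ⟨fun _ => 1 / s.card, fun x _ => by positivity, ?_⟩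
  rw [Finset.sum_const, nsmul_eq_mul]
  field_simp

theorem affine_refine {X : Set E} {h : E → F} (hh : PLOn h X) (Y : Finset (Set E))
    (hY : ∀ A ∈ Y, IsPoly A) :
    ∃ L : GC E, L.space = X ∧ (∀ A ∈ Y, L.Adapted A) ∧
      ∀ s ∈ L.faces, AffOn h (convexHull ℝ (s : Set E)) := by
  classical
  obtain ⟨S, hS, hS2⟩ := hh.pieces
  have hX : IsPoly X := hh.domain
  obtain ⟨L, hL, hL2⟩ := triang X hX (Y.image (fun A => A ∩ X) ∪
    S.image (fun s : Finset E => convexHull ℝ (s : Set E))) (by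
      intro A hA
      rcases Finset.mem_union.1 hA with hA | hA
      · obtain ⟨B, hB, rfl⟩ := Finset.mem_image.1 hA
        exact ⟨(hY B hB).inter hX, Set.inter_subset_right⟩
      · obtain ⟨s, hs, rfl⟩ := Finset.mem_image.1 hA
        refine ⟨IsPoly.hull s, ?_⟩
        rw [hS]
        exact Set.subset_iUnion₂
          (s := fun (s : Finset E) (_ : s ∈ S) => convexHull ℝ (s : Set E)) s hs)
  refine ⟨L, hL, ?_, ?_⟩
  · intro A hA s hs w hw hw1 hmem
    have h1 := hL2 (A ∩ X) (Finset.mem_union_left _ (Finset.mem_image.2 ⟨A, hA, rfl⟩)) s hs w hw hw1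
      ⟨hmem, by
        rw [← hL]
        exact Set.mem_iUnion₂.2 ⟨s, hs,
          Finset.mem_convexHull'.2 ⟨w, fun y hy => (hw y hy).le, hw1, rfl⟩⟩⟩
    exact h1.trans Set.inter_subset_left
  · intro s hs
    obtain ⟨w, hw, hw1⟩ := CRF_bary s (L.ne s hs)
    have h1 : ∑ x ∈ s, w x • x ∈ X := by
      rw [← hL]
      exact Set.mem_iUnion₂.2 ⟨s, hs,
        Finset.mem_convexHull'.2 ⟨w, fun y hy => (hw y hy).le, hw1, rfl⟩⟩
    rw [hS] at h1
    obtain ⟨t, ht, h2⟩ := Set.mem_iUnion₂.1 h1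
    have h3 := hL2 _ (Finset.mem_union_right _ (Finset.mem_image.2 ⟨t, ht, rfl⟩)) s hs w hw hw1 h2
    obtain ⟨A, hA⟩ := (hS2 t ht).2.2
    exact ⟨A, hA.mono h3⟩

theorem chart_refine {m : ℕ} {M U : Set E} {h : E → Fin m → ℝ} (hc : IsChart m M U h)
    (Y : Finset (Set E)) (hY : ∀ A ∈ Y, IsPoly A) :
    ∃ (L : GC E) (L' : GC (Fin m → ℝ)), L.space = U ∧ (∀ A ∈ Y, L.Adapted A) ∧
      (∀ s ∈ L.faces, AffOn h (convexHull ℝ (s : Set E))) ∧ L'.space = cube m ∧
      (∀ s' : Finset (Fin m → ℝ), s' ∈ L'.faces ↔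
        ∃ s ∈ L.faces, (s' : Set (Fin m → ℝ)) = h '' (s : Set E)) ∧
      (∀ x s, L.IsCarrier x s → ∀ s' : Finset (Fin m → ℝ),
        (s' : Set (Fin m → ℝ)) = h '' (s : Set E) → L'.IsCarrier (h x) s') ∧
      (∀ s ∈ L.faces, h '' convexHull ℝ (s : Set E) = convexHull ℝ (h '' (s : Set E))) := by
  obtain ⟨-, h1, h2, h3⟩ := hc
  obtain ⟨L, hL1, hL2, hL3⟩ := affine_refine h1 Y hY
  obtain ⟨L', h4, h5, h6, h7⟩ := L.image_complex h hL3 (by rw [hL1]; exact h2)
  exact ⟨L, L', hL1, hL2, hL3, by rw [h5, hL1, h3], h4, h6, h7⟩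

/-- The finite set of hulls of the faces, as polyhedra (for use as `Y`). -/
theorem GC.exists_hulls (K : GC E) :
    ∃ Y : Finset (Set E), (∀ A, A ∈ Y ↔ ∃ s ∈ K.faces, A = convexHull ℝ (s : Set E)) ∧
      ∀ A ∈ Y, IsPoly A := by
  classical
  refine ⟨K.fin.toFinset.image (fun s : Finset E => convexHull ℝ (s : Set E)), ?_, ?_⟩
  · intro A
    rw [Finset.mem_image]
    constructor
    · rintro ⟨s, hs, rfl⟩
      exact ⟨s, K.fin.mem_toFinset.1 hs, rfl⟩
    · rintro ⟨s, hs, rfl⟩
      exact ⟨s, K.fin.mem_toFinset.2 hs, rfl⟩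
  · intro A hA
    obtain ⟨s, -, rfl⟩ := Finset.mem_image.1 hA
    exact IsPoly.hull s

theorem GC.carrier_refine {K L : GC E}
    (had : ∀ s ∈ K.faces, L.Adapted (convexHull ℝ (s : Set E))) {x y : E} {s a : Finset E}
    (hx : L.IsCarrier x s) (hy : L.IsCarrier y s) (ha : K.IsCarrier x a) :
    K.IsCarrier y a ∧ convexHull ℝ (s : Set E) ⊆ convexHull ℝ (a : Set E) := by
  have h1 : convexHull ℝ (s : Set E) ⊆ convexHull ℝ (a : Set E) :=
    GC.adapted_iff.1 (had a ha.1) x s hx ha.mem_hull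
  have h2 : y ∈ convexHull ℝ (a : Set E) := h1 hy.mem_hull
  obtain ⟨a', ha', hc⟩ := GC.exists_carrier ha.1 h2
  have h3 : convexHull ℝ (s : Set E) ⊆ convexHull ℝ (a' : Set E) :=
    GC.adapted_iff.1 (had a' hc.1) y s hy hc.mem_hull
  have h4 : a ⊆ a' := GC.carrier_sub hc.1 (h3 hx.mem_hull) ha
  have h5 : a' = a := Finset.Subset.antisymm ha' h4
  exact ⟨h5 ▸ hc, h1⟩

/-- the weights on `a` given by a vector indexed by `Fin (n + 1)`. -/
theorem CRF_weights {a : Finset E} {n : ℕ} (e : a ≃ Fin (n + 1)) (ω : Fin (n + 1) → ℝ) :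
    ∃ w : E → ℝ, (∀ j, w (e.symm j : E) = ω j) ∧ (∑ x ∈ a, w x = ∑ j, ω j) ∧
      ∑ x ∈ a, w x • x = ∑ j, ω j • (e.symm j : E) := by
  classical
  have h1 : ∀ j, (fun y : E => if h : y ∈ a then ω (e ⟨y, h⟩) else 0) (e.symm j : E) = ω j := by
    intro j
    have h2 : ((e.symm j : a) : E) ∈ a := (e.symm j).2
    simp only [h2, dite_true]
    congr 1
    exact e.apply_symm_apply j
  refine ⟨fun y => if h : y ∈ a then ω (e ⟨y, h⟩) else 0, h1, ?_, ?_⟩
  · rw [← Finset.sum_coe_sort a, ← Equiv.sum_comp e.symm]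
    exact Finset.sum_congr rfl fun j _ => h1 j
  · rw [← Finset.sum_coe_sort a, ← Equiv.sum_comp e.symm]
    exact Finset.sum_congr rfl fun j _ => by rw [h1 j]

theorem GC.exists_face_dim {K L : GC E} {a : Finset E} (ha : a ∈ K.faces)
    (had : L.Adapted (convexHull ℝ (a : Set E))) {O : Set E} (hO : IsOpen O) {x : E} (hx : x ∈ O)
    (hxa : x ∈ convexHull ℝ (a : Set E)) (hsub : convexHull ℝ (a : Set E) ∩ O ⊆ L.space) :
    ∃ b ∈ L.faces, b.card = a.card ∧ convexHull ℝ (b : Set E) ⊆ convexHull ℝ (a : Set E) ∧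
      ∃ y ∈ O, L.IsCarrier y b ∧ K.IsCarrier y a := by
  classical
  obtain ⟨n, hn⟩ : ∃ n, a.card = n + 1 := ⟨a.card - 1, by
    have := (K.ne a ha).card_pos
    omega⟩
  have e : a ≃ Fin (n + 1) := a.equivFinOfCardEq hn
  obtain ⟨p, hp⟩ : ∃ p : Fin (n + 1) → E, p = fun j => (e.symm j : E) := ⟨_, rfl⟩
  have hpa : ∀ j, p j ∈ a := fun j => by rw [hp]; exact (e.symm j).2
  have haff : AffineIndependent ℝ p := by
    have h1 := K.affineIndependent ha
    have h2 := h1.comp_embedding e.symm.toEmbedding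
    rw [hp]
    exact h2
  -- the linear map
  obtain ⟨T, hT⟩ : ∃ T : (Fin n → ℝ) →ₗ[ℝ] E, ∀ z, T z = ∑ i, z i • (p i.succ - p 0) :=
    ⟨Fintype.linearCombination ℝ (fun i : Fin n => p i.succ - p 0), fun z => by
      rw [Fintype.linearCombination_apply]⟩
  have hTinj : Function.Injective T := by
    have h1 : LinearIndependent ℝ (fun i : Fin n => p i.succ - p 0) := by
      have h2 := (affineIndependent_iff_linearIndependent_vsub ℝ p 0).1 haff
      have h3 := h2.comp (fun i : Fin n => (⟨i.succ, Fin.succ_ne_zero i⟩ : {x // x ≠ (0 : Fin (n + 1))}))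
        (fun i j hij => Fin.succ_injective _ (Subtype.ext_iff.1 hij))
      exact h3
    rw [← LinearMap.ker_eq_bot, LinearMap.ker_eq_bot']
    intro z hz
    rw [hT] at hz
    exact funext (Fintype.linearIndependent_iff.1 h1 z hz)
  have hTcont : Continuous T := T.continuous_of_finiteDimensional
  have hφ : ∀ z : Fin n → ℝ, p 0 + T z = ∑ j, (Fin.cons (1 - ∑ i, z i) z : Fin (n + 1) → ℝ) j • p j := by
    intro z
    rw [hT, Fin.sum_univ_succ]
    simp only [Fin.cons_zero, Fin.cons_succ, smul_sub, Finset.sum_sub_distrib, ← Finset.sum_smul,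
      sub_smul, one_smul]
    abel
  have hcar : ∀ z : Fin n → ℝ, (∀ i, 0 < z i) → ∑ i, z i < 1 → K.IsCarrier (p 0 + T z) a := by
    intro z hz hz1
    obtain ⟨w, hw1, hw2, hw3⟩ := CRF_weights e (Fin.cons (1 - ∑ i, z i) z)
    refine ⟨ha, w, ?_, ?_, ?_⟩
    · intro y hy
      have h1 : y = (e.symm (e ⟨y, hy⟩) : E) := by rw [e.symm_apply_apply]
      rw [h1, hw1]
      refine Fin.cases ?_ (fun i => ?_) (e ⟨y, hy⟩)
      · rw [Fin.cons_zero]; linarith
      · rw [Fin.cons_succ]; exact hz i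
    · rw [hw2, Fin.sum_univ_succ]
      simp only [Fin.cons_zero, Fin.cons_succ]
      ring
    · rw [hw3, hφ, hp]
  -- the open set
  obtain ⟨U, hU⟩ : ∃ U : Set (Fin n → ℝ), U = {z | (∀ i, 0 < z i) ∧ ∑ i, z i < 1 ∧ p 0 + T z ∈ O} :=
    ⟨_, rfl⟩
  have hUopen : IsOpen U := by
    have h1 : U = (⋂ i, {z : Fin n → ℝ | 0 < z i}) ∩ ({z | ∑ i, z i < 1} ∩
        (fun z => p 0 + T z) ⁻¹' O) := by
      rw [hU]; ext z; simp
    rw [h1]
    refine IsOpen.inter (isOpen_iInter_of_finite fun i => ?_) (IsOpen.inter ?_ ?_)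
    · exact isOpen_lt continuous_const (continuous_apply i)
    · exact isOpen_lt (continuous_finsetSum _ fun i _ => continuous_apply i) continuous_const
    · exact hO.preimage (continuous_const.add hTcont)
  have hUne : U.Nonempty := by
    obtain ⟨w, hw0, hw1, hwx⟩ := Finset.mem_convexHull'.1 hxa
    -- coordinates of x
    have hn0 : (0 : ℝ) < n + 1 := by positivity
    have hwsum : ∑ j, w (p j) = 1 := by
      rw [← hw1, ← Finset.sum_coe_sort a, ← Equiv.sum_comp e.symm, hp]
    have hwsum2 : ∑ j, w (p j) • p j = x := by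
      rw [← hwx, ← Finset.sum_coe_sort a, ← Equiv.sum_comp e.symm, hp]
    have hf : ∀ t : ℝ, ∃ z : Fin n → ℝ, z = fun i => (1 - t) * w (p i.succ) + t * (1 / (n + 1)) :=
      fun t => ⟨_, rfl⟩
    obtain ⟨f, hfdef⟩ : ∃ f : ℝ → Fin n → ℝ,
        f = fun t i => (1 - t) * w (p i.succ) + t * (1 / (n + 1)) := ⟨_, rfl⟩
    have hfc : Continuous f := by
      rw [hfdef]
      refine continuous_pi fun i => ?_
      fun_prop
    have hf0 : p 0 + T (f 0) = x := by
      rw [hφ, ← hwsum2]
      refine Finset.sum_congr rfl fun j _ => ?_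
      congr 1
      refine Fin.cases ?_ (fun i => ?_) j
      · rw [Fin.cons_zero]
        have h2 := hwsum
        rw [Fin.sum_univ_succ] at h2
        have h3 : ∑ i, f 0 i = ∑ i : Fin n, w (p i.succ) :=
          Finset.sum_congr rfl fun i _ => by rw [hfdef]; simp
        rw [h3]
        linarith
      · rw [Fin.cons_succ, hfdef]; simp
    have hmemO : ∀ᶠ t in 𝓝 (0 : ℝ), p 0 + T (f t) ∈ O := by
      have hc : Continuous fun t => p 0 + T (f t) := continuous_const.add (hTcont.comp hfc)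
      exact hc.continuousAt.eventually_mem (hO.mem_nhds (by rw [hf0]; exact hx))
    obtain ⟨t, ht0, ht1, htO⟩ : ∃ t : ℝ, 0 < t ∧ t < 1 ∧ p 0 + T (f t) ∈ O := by
      have h1 : ∀ᶠ t in 𝓝[>] (0 : ℝ), p 0 + T (f t) ∈ O := hmemO.filter_mono nhdsWithin_le_nhds
      have h2 : ∀ᶠ t in 𝓝[>] (0 : ℝ), t ∈ Ioo (0 : ℝ) 1 := Ioo_mem_nhdsGT one_pos
      obtain ⟨t, h3, h4⟩ := (h1.and h2).exists
      exact ⟨t, h4.1, h4.2, h3⟩
    refine ⟨f t, ?_⟩
    rw [hU]
    refine ⟨fun i => ?_, ?_, htO⟩
    · rw [hfdef]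
      have h1 : 0 ≤ w (p i.succ) := hw0 _ (hpa _)
      have h2 : 0 < t * (1 / ((n : ℝ) + 1)) := by positivity
      have h3 : 0 ≤ (1 - t) * w (p i.succ) := mul_nonneg (by linarith) h1
      show 0 < (1 - t) * w (p i.succ) + t * (1 / (n + 1))
      linarith
    · have h1 : ∑ i, f t i = (1 - t) * ∑ i : Fin n, w (p i.succ) + t * (n / (n + 1)) := by
        rw [hfdef, Finset.mul_sum, Finset.sum_add_distrib, Finset.sum_const, Finset.card_univ,
          Fintype.card_fin, nsmul_eq_mul]
        congr 1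
        field_simp
      have h2 : ∑ i : Fin n, w (p i.succ) ≤ 1 := by
        have h3 := hwsum
        rw [Fin.sum_univ_succ] at h3
        have h4 := hw0 _ (hpa 0)
        linarith
      have h5 : (n : ℝ) / (n + 1) < 1 := by
        rw [div_lt_one hn0]; linarith
      rw [h1]
      nlinarith
  -- dimension
  have hdim : ∀ (b : Finset E), AffineIndependent ℝ (fun x : b => (x : E)) → b.Nonempty →
      Module.finrank ℝ (vectorSpan ℝ (b : Set E)) + 1 = b.card := by
    intro b hb hne
    obtain ⟨k, hk⟩ : ∃ k, b.card = k + 1 := ⟨b.card - 1, by have := hne.card_pos; omega⟩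
    have h1 := hb.finrank_vectorSpan (n := k) (by rw [Fintype.card_coe, hk])
    have h2 : Set.range (fun x : b => (x : E)) = (b : Set E) := by
      ext y; simp
    rw [h2] at h1
    rw [h1, hk]
  by_contra hcon
  push Not at hcon
  have hcov : U ⊆ ⋃ b ∈ {b | b ∈ L.faces ∧ b.card < a.card}, (fun z => p 0 + T z) ⁻¹'
      (affineSpan ℝ (b : Set E) : Set E) := by
    intro z hz
    rw [hU] at hz
    obtain ⟨hz1, hz2, hz3⟩ := hz
    have hc := hcar z hz1 hz2
    obtain ⟨b, hb⟩ := GC.exists_carrier' (hsub ⟨hc.mem_hull, hz3⟩)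
    have hba : convexHull ℝ (b : Set E) ⊆ convexHull ℝ (a : Set E) :=
      GC.adapted_iff.1 had _ b hb hc.mem_hull
    have hcard : b.card ≤ a.card := by
      have h1 := hdim a (K.affineIndependent ha) (K.ne a ha)
      have h2 := hdim b (L.affineIndependent hb.1) (L.ne b hb.1)
      have h3 : vectorSpan ℝ (b : Set E) ≤ vectorSpan ℝ (a : Set E) := by
        have h4 : (b : Set E) ⊆ (affineSpan ℝ (a : Set E) : Set E) :=
          ((subset_convexHull ℝ _).trans hba).trans (convexHull_subset_affineSpan _)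
        have h5 : affineSpan ℝ (b : Set E) ≤ affineSpan ℝ (a : Set E) := affineSpan_le.2 h4
        rw [← direction_affineSpan, ← direction_affineSpan]
        exact AffineSubspace.direction_le h5
      have h6 := Submodule.finrank_mono h3
      omega
    have hlt : b.card < a.card := by
      refine lt_of_le_of_ne hcard fun heq => ?_
      exact hcon b hb.1 heq hba _ hz3 hb hc
    exact Set.mem_iUnion₂.2 ⟨b, ⟨hb.1, hlt⟩, convexHull_subset_affineSpan _ hb.mem_hull⟩
  have hnull : MeasureTheory.volume (⋃ b ∈ {b | b ∈ L.faces ∧ b.card < a.card},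
      (fun z => p 0 + T z) ⁻¹' (affineSpan ℝ (b : Set E) : Set E)) = 0 := by
    have hfin : {b | b ∈ L.faces ∧ b.card < a.card}.Finite := L.fin.subset fun b hb => hb.1
    rw [MeasureTheory.measure_biUnion_null_iff hfin.countable]
    rintro b ⟨hb, hlt⟩
    obtain ⟨φ, hφ'⟩ : ∃ φ : (Fin n → ℝ) →ᵃ[ℝ] E, ∀ z, φ z = p 0 + T z :=
      ⟨AffineMap.const ℝ _ (p 0) + T.toAffineMap, fun z => rfl⟩
    have h1 : (fun z => p 0 + T z) ⁻¹' (affineSpan ℝ (b : Set E) : Set E)
        = ((affineSpan ℝ (b : Set E)).comap φ : Set (Fin n → ℝ)) := by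
      ext z
      rw [Set.mem_preimage, SetLike.mem_coe, SetLike.mem_coe, AffineSubspace.mem_comap, hφ']
    rw [h1]
    apply MeasureTheory.Measure.addHaar_affineSubspace
    intro htop
    have h2 : ∀ z, p 0 + T z ∈ affineSpan ℝ (b : Set E) := by
      intro z
      have h3 : z ∈ (affineSpan ℝ (b : Set E)).comap φ := by rw [htop]; trivial
      rw [AffineSubspace.mem_comap, hφ'] at h3
      exact h3
    have h4 : LinearMap.range T ≤ vectorSpan ℝ (b : Set E) := by
      rintro _ ⟨z, rfl⟩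
      rw [← direction_affineSpan]
      have h5 := AffineSubspace.vsub_mem_direction (h2 z) (h2 0)
      rw [map_zero, add_zero, vsub_eq_sub, add_sub_cancel_left] at h5
      exact h5
    have h6 := Submodule.finrank_mono h4
    rw [LinearMap.finrank_range_of_inj hTinj, Module.finrank_fin_fun] at h6
    have h7 := hdim b (L.affineIndependent hb) (L.ne b hb)
    omega
  have hpos := hUopen.measure_pos MeasureTheory.volume hUne
  exact absurd (MeasureTheory.measure_mono_null hcov hnull) hpos.ne'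

end Pool.H54.UB
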