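import Pool.Agent.H54.UB.Defs

/-!
# Universal bases: internal definitions
-/

open Set Topology

namespace Pool.H54.UB

section GCs

variable {E F : Type*} [NormedAddCommGroup E] [NormedSpace ℝ E]
  [NormedAddCommGroup F] [NormedSpace ℝ F]

/-- A finite geometric simplicial complex, described by uniqueness of (positive) barycentric
coordinates. -/
structure GC (E : Type*) [NormedAddCommGroup E] [NormedSpace ℝ E] where
  faces : Set (Finset E)
  fin : faces.Finite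
  ne : ∀ s ∈ faces, s.Nonempty
  down : ∀ s ∈ faces, ∀ t : Finset E, t ⊆ s → t.Nonempty → t ∈ faces
  uniq : ∀ s ∈ faces, ∀ t ∈ faces, ∀ w v : E → ℝ, (∀ x ∈ s, 0 < w x) → (∀ x ∈ t, 0 < v x) →
    ∑ x ∈ s, w x = 1 → ∑ x ∈ t, v x = 1 → ∑ x ∈ s, w x • x = ∑ x ∈ t, v x • x →
    s = t ∧ ∀ x ∈ s, w x = v x

/-- The underlying compact polyhedron. -/
def GC.space (K : GC E) : Set E := ⋃ s ∈ K.faces, convexHull ℝ (s : Set E)

/-- The set of vertices. -/
def GC.verts (K : GC E) : Set E := {v | ∃ s ∈ K.faces, v ∈ s}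

/-- An ordered tuple of vertices, repetitions allowed, contained in a face. -/
def GC.Tup (K : GC E) {n : ℕ} (t : Fin n → E) : Prop := ∃ s ∈ K.faces, ∀ a, t a ∈ s

/-- `Y` is a union of faces: every face whose relative interior meets `Y` is contained in `Y`. -/
def GC.Adapted (K : GC E) (Y : Set E) : Prop :=
  ∀ s ∈ K.faces, ∀ w : E → ℝ, (∀ x ∈ s, 0 < w x) → ∑ x ∈ s, w x = 1 →
    ∑ x ∈ s, w x • x ∈ Y → convexHull ℝ (s : Set E) ⊆ Y

theorem GC.verts_finite (K : GC E) : K.verts.Finite := by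
  have h : K.verts = ⋃ s ∈ K.faces, (s : Set E) := by
    ext v; simp [GC.verts]
  rw [h]
  exact K.fin.biUnion fun s _ => s.finite_toSet

theorem GC.topset_finite (K : GC E) (m : ℕ) :
    {t : Fin (m + 1) → E | Function.Injective t ∧ K.Tup t}.Finite := by
  refine (Set.Finite.pi' (fun _ : Fin (m + 1) => K.verts_finite)).subset ?_
  rintro t ⟨-, s, hs, h⟩ a
  exact ⟨s, hs, h a⟩

/-- The ordered `m`-simplices (all orderings). -/
noncomputable def GC.tops (K : GC E) (m : ℕ) : Finset (Fin (m + 1) → E) :=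
  (K.topset_finite m).toFinset

theorem GC.mem_tops {K : GC E} {m : ℕ} {t : Fin (m + 1) → E} :
    t ∈ K.tops m ↔ Function.Injective t ∧ K.Tup t := by
  simp [GC.tops]

/-- `σ` is a lift of the tuple `t` inside one of the linear pieces `convexHull s`, `s ∈ S`. -/
def IsLift (S : Finset (Finset E)) (f : E → F) {n : ℕ} (t : Fin n → F) (σ : Fin n → E) : Prop :=
  (∃ s ∈ S, ∀ a, σ a ∈ convexHull ℝ (s : Set E)) ∧ ∀ a, f (σ a) = t a

open Classical in
/-- The finite set of lifts. -/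
noncomputable def lifts (S : Finset (Finset E)) (f : E → F) {n : ℕ} (t : Fin n → F) :
    Finset (Fin n → E) :=
  if h : {σ | IsLift S f t σ}.Finite then h.toFinset else ∅

/-- `K` is a triangulation adapted to the piecewise linear map `f` on `N = ⋃ convexHull s`. -/
structure Adm (K : GC F) (S : Finset (Finset E)) (f : E → F) (N : Set E) : Prop where
  cover : N = ⋃ s ∈ S, convexHull ℝ (s : Set E)
  aff : ∀ s ∈ S, AffOn f (convexHull ℝ (s : Set E))
  inj : ∀ s ∈ S, InjOn f (convexHull ℝ (s : Set E))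
  maps : MapsTo f N K.space
  ad1 : ∀ s ∈ S, K.Adapted (f '' convexHull ℝ (s : Set E))
  ad2 : ∀ s ∈ S, ∀ s' ∈ S, K.Adapted (f '' (convexHull ℝ (s : Set E) ∩ convexHull ℝ (s' : Set E)))

end GCs

section AS

variable {X Q : Type*} [TopologicalSpace X] [Group Q]

/-- `c` satisfies the cocycle identity near the diagonal of `S`. -/
def NCoc (c : X → X → Q) (S : Set X) : Prop :=
  ∀ x ∈ S, ∃ U ∈ 𝓝 x, ∀ a ∈ U ∩ S, ∀ b ∈ U ∩ S, ∀ d ∈ U ∩ S, c a b * c b d = c a d

/-- `c` is a coboundary near the diagonal of `S`. -/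
def NTriv (c : X → X → Q) (S : Set X) : Prop :=
  ∃ g : X → Q, ∀ x ∈ S, ∃ U ∈ 𝓝 x, ∀ a ∈ U ∩ S, ∀ b ∈ U ∩ S, c a b = (g a)⁻¹ * g b

/-- All cocycles with values in `Q` on `S` are trivial. -/
def QTriv (Q : Type*) [Group Q] (S : Set X) : Prop :=
  ∀ c : X → X → Q, NCoc c S → NTriv c S

end AS

section Eval

variable {E : Type*} [NormedAddCommGroup E] [NormedSpace ℝ E]

/-- Data describing `m` one-dimensional cohomology classes `x_i` with coefficients in `R` by local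
primitives `φ i P` on the pieces `P` of a polyhedral cover, whose product is concentrated in one
cube `P₀`, where `x_i` is the indicator function of the wall `y_i = 1`. -/
structure EvalData (m : ℕ) (N : Set E) (R : Type*) [CommRing R] where
  P : Finset (Set E)
  poly : ∀ A ∈ P, IsPoly A
  cover : N = ⋃ A ∈ P, A
  φ : Fin m → Set E → E → R
  compat : ∀ i, ∀ A ∈ P, ∀ B ∈ P, ∀ x ∈ A ∩ B, ∃ U ∈ 𝓝 x, ∀ a ∈ U ∩ (A ∩ B),
    φ i A a - φ i B a = φ i A x - φ i B x
  P₀ : Set E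
  mem₀ : P₀ ∈ P
  y : E → Fin m → ℝ
  pl : PLOn y P₀
  inj : InjOn y P₀
  img : y '' P₀ = {z | ∀ i, 0 ≤ z i ∧ z i ≤ 1}
  nhd : ∀ v ∈ P₀, (∀ i, 0 < y v i ∧ y v i < 1) → P₀ ∈ 𝓝[N] v
  wall : ∀ i, ∀ v ∈ P₀, (y v i = 1 → φ i P₀ v = 1) ∧ (y v i ≠ 1 → φ i P₀ v = 0)
  off : ∀ A ∈ P, A ≠ P₀ → ∃ i, ∀ a ∈ A, ∀ b ∈ A, φ i A a = φ i A b

end Eval

end Pool.H54.UB
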