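import Mathlib

/-!
# Universal bases: statement-level definitions (MP_23da35_gt)

All PL manifolds are compact polyhedra in some `Fin n → ℝ`.
-/

open Set Topology

namespace Pool.H54.UB

variable {E F : Type*} [NormedAddCommGroup E] [NormedSpace ℝ E]
  [NormedAddCommGroup F] [NormedSpace ℝ F]

/-- A compact polyhedron: a finite union of convex hulls of finite sets. -/
def IsPoly (X : Set E) : Prop :=
  ∃ S : Finset (Finset E), X = ⋃ s ∈ S, convexHull ℝ (s : Set E)

/-- `f` is a PL map on `X`: its graph over `X` is a compact polyhedron (in particular `X` is a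
compact polyhedron and `f` is continuous on `X`). -/
def PLOn (f : E → F) (X : Set E) : Prop :=
  IsPoly ((fun x => (x, f x)) '' X)

/-- The standard cube `[-1,1]^m`. -/
def cube (m : ℕ) : Set (Fin m → ℝ) := {y | ∀ i, -1 ≤ y i ∧ y i ≤ 1}

/-- `h : U → [-1,1]^m` is a PL homeomorphism of the compact polyhedron `U ⊆ X` onto the cube. -/
def IsChart (m : ℕ) (X U : Set E) (h : E → Fin m → ℝ) : Prop :=
  U ⊆ X ∧ PLOn h U ∧ InjOn h U ∧ h '' U = cube m

/-- The chart `(U, h)` of `X` is centred near `x`: `U` is a neighbourhood of `x` in `X` and `x` is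
mapped to an interior point of the cube. -/
def ChartAt (m : ℕ) (X U : Set E) (h : E → Fin m → ℝ) (x : E) : Prop :=
  IsChart m X U h ∧ x ∈ U ∧ U ∈ 𝓝[X] x ∧ ∀ i, -1 < h x i ∧ h x i < 1

/-- A closed PL manifold of dimension `m` (compact, empty boundary), as a compact polyhedron all of
whose points have a neighbourhood that is PL homeomorphic to `[-1,1]^m`, the point being mapped to
an interior point. -/
def IsClosedPLManifold (m : ℕ) (X : Set E) : Prop :=
  IsPoly X ∧ ∀ x ∈ X, ∃ U h, ChartAt m X U h x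

/-- `h` is affine on `S`. -/
def AffOn (h : E → F) (S : Set E) : Prop := ∃ A : E →ᵃ[ℝ] F, EqOn h A S

/-- The signed volume (times `m!`) of the simplex with vertices `h (a 0), ..., h (a m)`. -/
noncomputable def sdet {m : ℕ} (h : E → Fin m → ℝ) (a : Fin (m + 1) → E) : ℝ :=
  Matrix.det (Matrix.of fun i j : Fin m => h (a i.succ) j - h (a 0) j)

/-- `X` has an atlas of PL charts such that any two charts have the same orientation on every
linear `m`-simplex of their common domain on which both charts are affine. -/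
def IsOrientable (m : ℕ) (X : Set E) : Prop :=
  ∃ A : Set (Set E × (E → Fin m → ℝ)),
    (∀ c ∈ A, IsChart m X c.1 c.2) ∧
    (∀ x ∈ X, ∃ c ∈ A, ChartAt m X c.1 c.2 x) ∧
    ∀ c ∈ A, ∀ c' ∈ A, ∀ a : Fin (m + 1) → E,
      convexHull ℝ (range a) ⊆ c.1 ∩ c'.1 →
      AffOn c.2 (convexHull ℝ (range a)) → AffOn c'.2 (convexHull ℝ (range a)) →
      0 ≤ sdet c.2 a * sdet c'.2 a

/-- `B` is a compact polyhedron of dimension `m - 2`: a finite union of convex hulls of at most
`m - 1` points, containing a simplex with exactly `m - 1` vertices. -/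
def IsCodimTwo (m : ℕ) (B : Set E) : Prop :=
  (∃ S : Finset (Finset E), (∀ s ∈ S, s.card + 1 ≤ m) ∧
      B = ⋃ s ∈ S, convexHull ℝ (s : Set E)) ∧
  ∃ s : Finset E, s.card + 1 = m ∧ AffineIndependent ℝ (fun x : s => (x : E)) ∧
      convexHull ℝ (s : Set E) ⊆ B

/-- `f : N → M` is a branched cover of degree `d` of `m`-dimensional PL manifolds: `f` is PL and
nondegenerate (all point inverses are finite), and there is a nonempty codimension-2 subpolyhedron
`B ⊆ M` such that the restriction `N \ f⁻¹ B → M \ B` is a `d`-sheeted covering map. -/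
def IsBranchedCover (m d : ℕ) (N : Set E) (M : Set F) (f : E → F) : Prop :=
  PLOn f N ∧ (∀ y, (N ∩ f ⁻¹' {y}).Finite) ∧
  ∃ hf : MapsTo f N M, ∃ B : Set F, B ⊆ M ∧ B.Nonempty ∧ IsCodimTwo m B ∧
    IsCoveringMap (fun y : ↥(N \ f ⁻¹' B) => (⟨f y, hf y.2.1, y.2.2⟩ : ↥(M \ B))) ∧
    ∀ x ∈ M \ B, (N ∩ f ⁻¹' {x}).ncard = d

/-- `M` is a universal `k`-base in dimension `m`: every connected closed orientable `m`-manifold
admits a branched cover onto `M` of degree exactly `k`. -/
def IsUniversalBase (m k : ℕ) (M : Set F) : Prop :=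
  ∀ (r : ℕ) (N : Set (Fin r → ℝ)), IsClosedPLManifold m N → IsConnected N → IsOrientable m N →
    ∃ f : (Fin r → ℝ) → F, IsBranchedCover m k N M f

end Pool.H54.UB
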