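import Pool.Agent.H54.UB.TIL

/-!
# Row EUC: the covering complex multiplies the numbers of simplices by `|Q|`

`u ↦ (fst ∘ u)` maps `tilT c T` onto `T` with fibres of size `|Q|` (a member over `t` is determined by
the second component at any one index, which is arbitrary in `Q`; `mem_tilT`).  Similarly for the
vertices and the ordered edges: a vertex `v` of `T` has the `|Q|` lifts `(v, q)`, an edge
`(t a, t b)`, has the `|Q|` lifts `((t a, q), (t b, q * c (t a) (t b)))`.
-/

namespace Pool.H54.UB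

open Finset

open Classical in
theorem til_counts {V Q : Type*} [Group Q] [Fintype Q] (c : V → V → Q) (T : Finset (Fin 3 → V))
    (hc : ∀ t ∈ T, ∀ i j k, c (t i) (t j) * c (t j) (t k) = c (t i) (t k)) :
    (tilT c T).card = Fintype.card Q * T.card ∧
    ((tilT c T).biUnion fun t => univ.image t).card =
      Fintype.card Q * (T.biUnion fun t => univ.image t).card ∧
    ((tilT c T).biUnion fun t => (univ.filter (fun p : Fin 3 × Fin 3 => p.1 ≠ p.2)).image
        (fun p => (t p.1, t p.2))).card =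
      Fintype.card Q * (T.biUnion fun t =>
        (univ.filter (fun p : Fin 3 × Fin 3 => p.1 ≠ p.2)).image (fun p => (t p.1, t p.2))).card := by
  refine ⟨?_, ?_, ?_⟩
  · unfold tilT
    rw [Finset.card_image_of_injOn (TIL_inj hc), Finset.card_product, Finset.card_univ, mul_comm]
  · have h : ((tilT c T).biUnion fun t => univ.image t) =
        (T.biUnion fun t => univ.image t) ×ˢ (univ : Finset Q) := by
      ext ⟨v, q⟩
      simp only [Finset.mem_biUnion, Finset.mem_image, Finset.mem_univ, true_and,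
        Finset.mem_product, and_true]
      constructor
      · rintro ⟨u, hu, i, hi⟩
        rw [mem_tilT hc] at hu
        exact ⟨_, hu.1, i, by rw [hi]⟩
      · rintro ⟨t, ht, i, rfl⟩
        refine ⟨fun j => (t j, q * c (t i) (t j)), ?_, i, ?_⟩
        · rw [mem_tilT hc]
          refine ⟨ht, fun j k => ?_⟩
          show q * c (t i) (t k) = q * c (t i) (t j) * c (t j) (t k)
          rw [mul_assoc, hc t ht]
        · have h1 : c (t i) (t i) = 1 := TIL_self (hc t ht) i
          simp only [h1, mul_one]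
    rw [h, Finset.card_product, Finset.card_univ, mul_comm]
  · have h : ((tilT c T).biUnion fun t => (univ.filter (fun p : Fin 3 × Fin 3 => p.1 ≠ p.2)).image
        (fun p => (t p.1, t p.2))) =
        ((T.biUnion fun t => (univ.filter (fun p : Fin 3 × Fin 3 => p.1 ≠ p.2)).image
          (fun p => (t p.1, t p.2))) ×ˢ (univ : Finset Q)).image
          (fun w => ((w.1.1, w.2), (w.1.2, w.2 * c w.1.1 w.1.2))) := by
      ext ⟨⟨v, q⟩, ⟨v', q'⟩⟩
      simp only [Finset.mem_biUnion, Finset.mem_image, Finset.mem_univ, true_and,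
        Finset.mem_product, and_true, Finset.mem_filter]
      constructor
      · rintro ⟨u, hu, ⟨i, j⟩, hij, he⟩
        rw [mem_tilT hc] at hu
        simp only [Prod.mk.injEq] at he
        refine ⟨((v, v'), q), ⟨_, hu.1, (i, j), hij, ?_⟩, ?_⟩
        · simp only [he.1, he.2]
        · have h1 := hu.2 i j
          rw [he.1, he.2] at h1
          have h2 : q' = q * c v v' := h1
          simp only [h2]
      · rintro ⟨⟨⟨x, y⟩, q0⟩, ⟨t, ht, ⟨i, j⟩, hij, he⟩, he2⟩
        simp only [Prod.mk.injEq] at he he2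
        obtain ⟨rfl, rfl⟩ := he
        obtain ⟨⟨rfl, rfl⟩, ⟨rfl, rfl⟩⟩ := he2
        refine ⟨fun k => (t k, q0 * c (t i) (t k)), ?_, (i, j), hij, ?_⟩
        · rw [mem_tilT hc]
          refine ⟨ht, fun j k => ?_⟩
          show q0 * c (t i) (t k) = q0 * c (t i) (t j) * c (t j) (t k)
          rw [mul_assoc, hc t ht]
        · have h1 : c (t i) (t i) = 1 := TIL_self (hc t ht) i
          simp only [h1, mul_one]
    rw [h, Finset.card_image_of_injective, Finset.card_product, Finset.card_univ, mul_comm]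
    rintro ⟨⟨x, y⟩, q⟩ ⟨⟨x', y'⟩, q'⟩ he
    simp only [Prod.mk.injEq] at he
    obtain ⟨⟨rfl, rfl⟩, ⟨rfl, -⟩⟩ := he
    rfl

/-- Uniqueness of the alternating 2-cycle up to a scalar on the covering complex, from the pairs
structure of facets and connectivity through facets. -/
theorem cycle_unique {X R : Type*} [Field R] (T : Finset (Fin 3 → X))
    (hperm : ∀ t ∈ T, ∀ π : Equiv.Perm (Fin 3), t ∘ π ∈ T) (hne : T.Nonempty)
    (ε : (Fin 3 → X) → R) (hε : ∀ t ∈ T, ε t ≠ 0)
    (hεalt : ∀ t ∈ T, ∀ π : Equiv.Perm (Fin 3), ε (t ∘ π) = ((Equiv.Perm.sign π : ℤ) : R) * ε t)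
    (htwo : ∀ r : Fin 2 → X, (∃ u, (Fin.cons u r : Fin 3 → X) ∈ T) →
      ∃ u v, u ≠ v ∧ (Fin.cons u r : Fin 3 → X) ∈ T ∧ (Fin.cons v r : Fin 3 → X) ∈ T ∧
        (∀ w, (Fin.cons w r : Fin 3 → X) ∈ T → w = u ∨ w = v) ∧
        ε (Fin.cons u r : Fin 3 → X) = - ε (Fin.cons v r : Fin 3 → X))
    (hstrong : ∀ P : (Fin 3 → X) → Prop,
      (∀ t ∈ T, ∀ π : Equiv.Perm (Fin 3), P t → P (t ∘ π)) →
      (∀ (r : Fin 2 → X) u v, (Fin.cons u r : Fin 3 → X) ∈ T → (Fin.cons v r : Fin 3 → X) ∈ T →
        P (Fin.cons u r : Fin 3 → X) → P (Fin.cons v r : Fin 3 → X)) →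
      ∀ t ∈ T, ∀ t' ∈ T, P t → P t')
    (ζ : (Fin 3 → X) → R)
    (hζ : ∀ t ∈ T, ∀ π : Equiv.Perm (Fin 3), ζ (t ∘ π) = ((Equiv.Perm.sign π : ℤ) : R) * ζ t)
    (hζc : ∀ φ : (Fin 2 → X) → R, ∑ t ∈ T, ζ t * φ (fun i : Fin 2 => t i.succ) = 0) :
    ∃ l : R, ∀ t ∈ T, ζ t = l * ε t := by
  classical
  obtain ⟨t0, ht0⟩ := hne
  obtain ⟨l, hl⟩ : ∃ l : R, l = ζ t0 / ε t0 := ⟨_, rfl⟩
  have hsum : ∀ (r : Fin 2 → X) u v, u ≠ v → (Fin.cons u r : Fin 3 → X) ∈ T →
      (Fin.cons v r : Fin 3 → X) ∈ T →
      (∀ w, (Fin.cons w r : Fin 3 → X) ∈ T → w = u ∨ w = v) →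
      ζ (Fin.cons u r : Fin 3 → X) + ζ (Fin.cons v r : Fin 3 → X) = 0 := by
    intro r u v huv hu hv hw
    have h := hζc (fun r' => if r' = r then 1 else 0)
    have h1 : ∑ t ∈ T, ζ t * (if (fun i : Fin 2 => t i.succ) = r then (1 : R) else 0) =
        ∑ t ∈ ({(Fin.cons u r : Fin 3 → X), (Fin.cons v r : Fin 3 → X)} : Finset (Fin 3 → X)),
          ζ t := by
      have h2 : ({(Fin.cons u r : Fin 3 → X), (Fin.cons v r : Fin 3 → X)} :
          Finset (Fin 3 → X)) = T.filter (fun t => (fun i : Fin 2 => t i.succ) = r) := by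
        ext t
        simp only [Finset.mem_insert, Finset.mem_singleton, Finset.mem_filter]
        constructor
        · rintro (rfl | rfl)
          · refine ⟨hu, ?_⟩
            funext i
            rw [Fin.cons_succ]
          · refine ⟨hv, ?_⟩
            funext i
            rw [Fin.cons_succ]
        · rintro ⟨ht, hr⟩
          have h3 : t = (Fin.cons (t 0) r : Fin 3 → X) := by
            rw [← hr]
            exact (Fin.cons_self_tail t).symm
          rw [h3] at ht
          rcases hw _ ht with h4 | h4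
          · left
            rw [h3, h4]
          · right
            rw [h3, h4]
      rw [h2, Finset.sum_filter]
      refine Finset.sum_congr rfl fun t _ => ?_
      split_ifs <;> simp
    rw [h1, Finset.sum_pair] at h
    · exact h
    · intro he
      exact huv (by simpa using congrFun he 0)
  refine ⟨l, fun t ht => ?_⟩
  refine hstrong (fun t => t ∈ T → ζ t = l * ε t) ?_ ?_ t0 ht0 t ht ?_ ht
  · intro t ht π hP _
    rw [hζ t ht, hεalt t ht, hP ht]
    ring
  · intro r u v hu hv hP _
    by_cases huv : u = v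
    · rw [← huv]
      exact hP hu
    · obtain ⟨u0, v0, huv0, hu0, hv0, hw, hε0⟩ := htwo r ⟨u, hu⟩
      have h1 := hsum r u0 v0 huv0 hu0 hv0 hw
      have h2 := hP hu
      rcases hw u hu with rfl | rfl
      · rcases hw v hv with rfl | rfl
        · exact absurd rfl huv
        · rw [eq_neg_of_add_eq_zero_right h1, h2, hε0]
          ring
      · rcases hw v hv with rfl | rfl
        · rw [eq_neg_of_add_eq_zero_left h1, h2, hε0]
          ring
        · exact absurd rfl huv
  · intro _
    rw [hl, div_mul_cancel₀ _ (hε t0 ht0)]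

end Pool.H54.UB
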