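import Mathlib

/-!
# Row EUL: Euler characteristic of a closed oriented surface with `H¹ = 0` (combinatorial form)

`T` = ordered triangles (all orderings), `R` a field with `6 ≠ 0`.
`V₁` = vertices, `E₂` = ordered edges `(t a, t b)`, `a ≠ b`.  Claim: `6 |V₁| + |T| = 3 |E₂| + 12`
(i.e. `V - E + F = 2` with `E = |E₂|/2`, `F = |T|/6`).

Proof.  Vector spaces: `C⁰ = V₁ → R`; `C¹` = alternating functions on `E₂` (`f (a,b) = - f (b,a)`),
dimension `|E₂|/2`; `C²` = alternating functions on `T`, dimension `|T|/6` (`T` is closed under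
permutations and its members are injective, so the symmetric group `S₃` acts freely on `T`; choose
representatives).  `δ⁰ f (a,b) = f b - f a`, kernel = constants (dimension 1, by `conn` and `T ≠ ∅`).
`δ¹ g (a,b,c) = g(b,c) - g(a,c) + g(a,b)`; its kernel is the image of `δ⁰` (`H1`: extend `g` by `0` to
all pairs, also `g(a,a) = 0`; the cocycle condition on all index maps `α : Fin 3 → Fin 3` follows from
the one for injective `α` and from being alternating).  So `rank δ¹ = |E₂|/2 - (|V₁| - 1)`.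
The cokernel of `δ¹` has dimension 1: the annihilator of the image of `δ¹` in the dual of `C²` is,
with the pairing `⟨ζ, f⟩ = ∑_{t ∈ T} ζ t f t` on `C²` (nondegenerate as `6 ≠ 0`), the space of
alternating `ζ` with `∑_{t ∈ T} ζ t (δ¹ g)(t) = 0` for all `g`, i.e.
(each of the three terms of `δ¹ g` contributes the same) `∑_{t : (t 1, t 2) = (a, b)} ζ t = 0` for all
edges `(a,b)`, i.e. the cycles: by `Z2` it is one-dimensional.  So
`|T|/6 - rank δ¹ = 1`.
-/

namespace Pool.H54.UB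

open Finset

section EULaux

variable {X R : Type*} [LinearOrder X] [Field R]

theorem EUL_mono (t : Fin 3 → X) : (t 0 < t 1 ∧ t 1 < t 2) ↔ StrictMono t := by
  rw [Fin.strictMono_iff_lt_succ, Fin.forall_fin_two]
  rfl

/-- the increasing members -/
def EUL_S (T : Finset (Fin 3 → X)) : Finset (Fin 3 → X) := T.filter (fun t => t 0 < t 1 ∧ t 1 < t 2)

theorem EUL_mem (T : Finset (Fin 3 → X)) (t : Fin 3 → X) :
    t ∈ EUL_S T ↔ t ∈ T ∧ StrictMono t := by
  unfold EUL_S
  rw [mem_filter, EUL_mono]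

omit [LinearOrder X] in
theorem EUL_inj {t : Fin 3 → X} (ht : Function.Injective t) {π σ : Equiv.Perm (Fin 3)}
    (h : t ∘ π = t ∘ σ) : π = σ :=
  Equiv.ext fun i => ht (congrFun h i)

theorem EUL_sorted {t : Fin 3 → X} (ht : Function.Injective t) : StrictMono (t ∘ Tuple.sort t) :=
  (Tuple.monotone_sort t).strictMono_of_injective (ht.comp (Tuple.sort t).injective)

theorem EUL_sum {M : Type*} [AddCommMonoid M] (T : Finset (Fin 3 → X))
    (hinj : ∀ t ∈ T, Function.Injective t)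
    (hperm : ∀ t ∈ T, ∀ π : Equiv.Perm (Fin 3), t ∘ π ∈ T) (φ : (Fin 3 → X) → M) :
    ∑ t ∈ T, φ t = ∑ s ∈ EUL_S T, ∑ π : Equiv.Perm (Fin 3), φ (s ∘ π) := by
  rw [← Finset.sum_product' (EUL_S T) univ (fun s (π : Equiv.Perm (Fin 3)) => φ (s ∘ π))]
  symm
  refine Finset.sum_bij' (fun q _ => q.1 ∘ q.2)
    (fun t _ => (t ∘ Tuple.sort t, (Tuple.sort t)⁻¹)) ?_ ?_ ?_ ?_ ?_
  · intro q hq
    rw [mem_product] at hq
    exact hperm _ ((EUL_mem T _).1 hq.1).1 _
  · intro t ht
    rw [mem_product]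
    exact ⟨(EUL_mem T _).2 ⟨hperm t ht _, EUL_sorted (hinj t ht)⟩, mem_univ _⟩
  · intro q hq
    rw [mem_product] at hq
    have h1 := (EUL_mem T _).1 hq.1
    have h2 : (q.1 ∘ q.2) ∘ Tuple.sort (q.1 ∘ q.2) = q.1 := by
      rw [Tuple.comp_perm_comp_sort_eq_comp_sort,
        Tuple.sort_eq_refl_iff_monotone.2 h1.2.monotone]
      rfl
    have h3 : q.2 * Tuple.sort (q.1 ∘ q.2) = 1 := by
      apply EUL_inj h1.2.injective
      exact h2
    refine Prod.ext h2 ?_
    show (Tuple.sort (q.1 ∘ q.2))⁻¹ = q.2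
    exact (eq_inv_of_mul_eq_one_left h3).symm
  · intro t ht
    funext i
    simp
  · intro q hq
    rfl

/-- the incidence number -/
def EUL_D (R : Type*) [Field R] (s : Fin 3 → X) (x y : X) : R :=
  (if s 1 = x ∧ s 2 = y then 1 else 0) - (if s 0 = x ∧ s 2 = y then 1 else 0) +
    (if s 0 = x ∧ s 1 = y then 1 else 0)

theorem EUL_and (a b : Prop) [Decidable a] [Decidable b] :
    (if a ∧ b then (1 : R) else 0) = (if a then 1 else 0) * (if b then 1 else 0) := by
  by_cases ha : a <;> by_cases hb : b <;> simp [ha, hb]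

theorem EUL_det (s : Fin 3 → X) (x y : X) :
    ∑ π : Equiv.Perm (Fin 3), (if s (π 1) = x ∧ s (π 2) = y then ((Equiv.Perm.sign π : ℤ) : R)
      else 0) = EUL_D R s x y - EUL_D R s y x := by
  let A : Matrix (Fin 3) (Fin 3) R :=
    Matrix.of fun i j => ![1, if s i = x then 1 else 0, if s i = y then 1 else 0] j
  have h1 : A.det = ∑ π : Equiv.Perm (Fin 3),
      (if s (π 1) = x ∧ s (π 2) = y then ((Equiv.Perm.sign π : ℤ) : R) else 0) := by
    rw [Matrix.det_apply']
    refine Finset.sum_congr rfl fun π _ => ?_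
    rw [Fin.prod_univ_three]
    show ((Equiv.Perm.sign π : ℤ) : R) *
      (1 * (if s (π 1) = x then (1 : R) else 0) * (if s (π 2) = y then (1 : R) else 0)) = _
    by_cases ha : s (π 1) = x <;> by_cases hb : s (π 2) = y <;> simp [ha, hb]
  rw [← h1, Matrix.det_fin_three]
  simp only [EUL_D, EUL_and]
  show (1 : R) * (if s 1 = x then (1 : R) else 0) * (if s 2 = y then (1 : R) else 0) -
      1 * (if s 1 = y then (1 : R) else 0) * (if s 2 = x then (1 : R) else 0) -
      (if s 0 = x then (1 : R) else 0) * 1 * (if s 2 = y then (1 : R) else 0) +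
      (if s 0 = x then (1 : R) else 0) * (if s 1 = y then (1 : R) else 0) * 1 +
      (if s 0 = y then (1 : R) else 0) * 1 * (if s 2 = x then (1 : R) else 0) -
      (if s 0 = y then (1 : R) else 0) * (if s 1 = x then (1 : R) else 0) * 1 = _
  ring

/-- the alternating functions -/
def EUL_Alt (T : Finset (Fin 3 → X)) (ζ : (Fin 3 → X) → R) : Prop :=
  ∀ t ∈ T, ∀ π : Equiv.Perm (Fin 3), ζ (t ∘ π) = ((Equiv.Perm.sign π : ℤ) : R) * ζ t

theorem EUL_bd (T : Finset (Fin 3 → X)) (hinj : ∀ t ∈ T, Function.Injective t)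
    (hperm : ∀ t ∈ T, ∀ π : Equiv.Perm (Fin 3), t ∘ π ∈ T) (ζ : (Fin 3 → X) → R)
    (hζ : EUL_Alt T ζ) (x y : X) :
    ∑ t ∈ T, (if t 1 = x ∧ t 2 = y then ζ t else 0) =
      ∑ s ∈ EUL_S T, (EUL_D R s x y - EUL_D R s y x) * ζ s := by
  rw [EUL_sum T hinj hperm]
  refine Finset.sum_congr rfl fun s hs => ?_
  have hs' := ((EUL_mem T s).1 hs).1
  rw [← EUL_det, Finset.sum_mul]
  refine Finset.sum_congr rfl fun π _ => ?_
  rw [hζ s hs' π]
  show (if s (π 1) = x ∧ s (π 2) = y then _ else _) = _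
  split_ifs
  · rfl
  · rw [zero_mul]

theorem EUL_D0 {s : Fin 3 → X} (hs : StrictMono s) {x y : X} (h : x < y) :
    EUL_D R s y x = 0 := by
  have h01 : s 0 < s 1 := hs (by decide)
  have h12 : s 1 < s 2 := hs (by decide)
  have h02 : s 0 < s 2 := hs (by decide)
  unfold EUL_D
  rw [if_neg, if_neg, if_neg]
  · ring
  · rintro ⟨h1, h2⟩
    rw [← h1, ← h2] at h
    exact lt_asymm h h01
  · rintro ⟨h1, h2⟩
    rw [← h1, ← h2] at h
    exact lt_asymm h h02
  · rintro ⟨h1, h2⟩
    rw [← h1, ← h2] at h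
    exact lt_asymm h h12

/-- extension of a function on the increasing triangles to an alternating function -/
noncomputable def EUL_ext (T : Finset (Fin 3 → X)) (ζ : {s // s ∈ EUL_S T} → R)
    (t : Fin 3 → X) : R :=
  if h : t ∘ Tuple.sort t ∈ EUL_S T then
    ((Equiv.Perm.sign (Tuple.sort t) : ℤ) : R) * ζ ⟨_, h⟩ else 0

theorem EUL_ext_S (T : Finset (Fin 3 → X)) (ζ : {s // s ∈ EUL_S T} → R)
    (s : {s // s ∈ EUL_S T}) : EUL_ext T ζ s.1 = ζ s := by
  obtain ⟨s, hs⟩ := s
  have h1 := (EUL_mem T s).1 hs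
  have h2 : Tuple.sort s = Equiv.refl _ := Tuple.sort_eq_refl_iff_monotone.2 h1.2.monotone
  have h3 : s ∘ Tuple.sort s = s := by rw [h2]; rfl
  unfold EUL_ext
  show (if h : s ∘ Tuple.sort s ∈ EUL_S T then _ else _) = _
  rw [dif_pos (by rw [h3]; exact hs)]
  have h4 : (⟨s ∘ Tuple.sort s, by rw [h3]; exact hs⟩ : {s // s ∈ EUL_S T}) = ⟨s, hs⟩ :=
    Subtype.ext h3
  rw [h4, h2]
  simp

theorem EUL_ext_alt (T : Finset (Fin 3 → X)) (hinj : ∀ t ∈ T, Function.Injective t)
    (ζ : {s // s ∈ EUL_S T} → R) : EUL_Alt T (EUL_ext T ζ) := by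
  intro t ht π
  have h1 : (t ∘ π) ∘ Tuple.sort (t ∘ π) = t ∘ Tuple.sort t :=
    Tuple.comp_perm_comp_sort_eq_comp_sort
  have h2 : π * Tuple.sort (t ∘ π) = Tuple.sort t := EUL_inj (hinj t ht) h1
  have h3 : Equiv.Perm.sign (Tuple.sort (t ∘ π)) =
      Equiv.Perm.sign π * Equiv.Perm.sign (Tuple.sort t) := by
    rw [← h2, Equiv.Perm.sign_mul, ← mul_assoc, Int.units_mul_self, one_mul]
  unfold EUL_ext
  by_cases h : t ∘ Tuple.sort t ∈ EUL_S T
  · have h' : (t ∘ π) ∘ Tuple.sort (t ∘ π) ∈ EUL_S T := by rw [h1]; exact h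
    rw [dif_pos h, dif_pos h', h3]
    have h4 : (⟨(t ∘ π) ∘ Tuple.sort (t ∘ π), h'⟩ : {s // s ∈ EUL_S T}) =
        ⟨t ∘ Tuple.sort t, h⟩ := Subtype.ext h1
    rw [h4]
    push_cast
    ring
  · have h' : ¬ (t ∘ π) ∘ Tuple.sort (t ∘ π) ∈ EUL_S T := by rw [h1]; exact h
    rw [dif_neg h, dif_neg h', mul_zero]

/-- alternating extension of a function on increasing edges -/
noncomputable def EUL_c (F : Finset (X × X)) (g : {p // p ∈ F} → R) (r : Fin 2 → X) : R :=
  (if h : (r 0, r 1) ∈ F then g ⟨_, h⟩ else 0) - (if h : (r 1, r 0) ∈ F then g ⟨_, h⟩ else 0)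

theorem EUL_core (T : Finset (Fin 3 → X)) (V : Finset X) (E : Finset (X × X))
    (hV : ∀ x, x ∈ V ↔ ∃ t ∈ T, ∃ i, t i = x)
    (hE : ∀ p : X × X, p ∈ E ↔ ∃ t ∈ T, ∃ i j, i ≠ j ∧ (t i, t j) = p)
    (hinj : ∀ t ∈ T, Function.Injective t)
    (hperm : ∀ t ∈ T, ∀ π : Equiv.Perm (Fin 3), t ∘ π ∈ T) (hne : T.Nonempty)
    (conn : ∀ D : X → R, (∀ t ∈ T, ∀ a b, D (t a) = D (t b)) →
      ∀ t ∈ T, ∀ t' ∈ T, ∀ a b, D (t a) = D (t' b))
    (H1 : ∀ c : (Fin 2 → X) → R,
      (∀ t ∈ T, ∀ α : Fin 3 → Fin 3, ∑ j : Fin 3, (-1) ^ (j : ℕ) * c ((t ∘ α) ∘ j.succAbove) = 0) →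
      ∃ b : (Fin 1 → X) → R, ∀ t ∈ T, ∀ α : Fin 2 → Fin 3,
        c (t ∘ α) = ∑ j : Fin 2, (-1) ^ (j : ℕ) * b ((t ∘ α) ∘ j.succAbove))
    (ε : (Fin 3 → X) → R) (hε : ∀ t ∈ T, ε t ≠ 0) (hεalt : EUL_Alt T ε)
    (hεcyc : ∀ x y : X, ∑ t ∈ T, (if t 1 = x ∧ t 2 = y then ε t else 0) = 0)
    (Z2 : ∀ ζ : (Fin 3 → X) → R, EUL_Alt T ζ →
      (∀ x y : X, ∑ t ∈ T, (if t 1 = x ∧ t 2 = y then ζ t else 0) = 0) →
      ∃ l : R, ∀ t ∈ T, ζ t = l * ε t) :
    6 * V.card + T.card = 3 * E.card + 12 := by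
  classical
  -- orientation of the edges
  obtain ⟨F, hF⟩ : ∃ F : Finset (X × X), F = E.filter (fun p => p.1 < p.2) := ⟨_, rfl⟩
  have memF : ∀ p : X × X, p ∈ F ↔ p ∈ E ∧ p.1 < p.2 := fun p => by rw [hF, mem_filter]
  have EV1 : ∀ p ∈ E, p.1 ∈ V := by
    intro p hp
    obtain ⟨t, ht, i, j, -, rfl⟩ := (hE p).1 hp
    exact (hV _).2 ⟨t, ht, i, rfl⟩
  have EV2 : ∀ p ∈ E, p.2 ∈ V := by
    intro p hp
    obtain ⟨t, ht, i, j, -, rfl⟩ := (hE p).1 hp
    exact (hV _).2 ⟨t, ht, j, rfl⟩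
  have Ene : ∀ p ∈ E, p.1 ≠ p.2 := by
    intro p hp
    obtain ⟨t, ht, i, j, hij, rfl⟩ := (hE p).1 hp
    exact fun h => hij (hinj t ht h)
  have Esw : ∀ p ∈ E, p.swap ∈ E := by
    intro p hp
    obtain ⟨t, ht, i, j, hij, rfl⟩ := (hE p).1 hp
    exact (hE _).2 ⟨t, ht, j, i, hij.symm, rfl⟩
  -- cardinalities
  have cT : T.card = 6 * (EUL_S T).card := by
    have h := EUL_sum T hinj hperm (fun _ => (1 : ℕ))
    rw [Finset.sum_const, smul_eq_mul, mul_one] at h
    rw [h]
    simp only [Finset.sum_const, smul_eq_mul, mul_one, Finset.card_univ, Fintype.card_perm,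
      Fintype.card_fin]
    rw [mul_comm]
    rfl
  have cE : E.card = 2 * F.card := by
    have h1 := Finset.card_filter_add_card_filter_not (s := E) (fun p : X × X => p.1 < p.2)
    have h2 : (E.filter (fun p : X × X => ¬ p.1 < p.2)).card = F.card := by
      refine Finset.card_bij' (fun p _ => p.swap) (fun p _ => p.swap) ?_ ?_ ?_ ?_
      · intro p hp
        rw [mem_filter] at hp
        rw [memF]
        exact ⟨Esw p hp.1, lt_of_le_of_ne (not_lt.1 hp.2) (Ene p hp.1).symm⟩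
      · intro p hp
        rw [memF] at hp
        rw [mem_filter]
        exact ⟨Esw p hp.1, not_lt.2 hp.2.le⟩
      · intro p _
        exact Prod.swap_swap p
      · intro p _
        exact Prod.swap_swap p
    rw [← hF, h2] at h1
    omega
  -- faces of the increasing triangles
  have fc : ∀ s ∈ EUL_S T, ∀ i j : Fin 3, i < j → (s i, s j) ∈ F := by
    intro s hs i j hij
    have h1 := (EUL_mem T s).1 hs
    exact (memF _).2 ⟨(hE _).2 ⟨s, h1.1, i, j, hij.ne, rfl⟩, h1.2 hij⟩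
  let M : Matrix {s // s ∈ EUL_S T} {p // p ∈ F} R := fun s p => EUL_D R s.1 p.1.1 p.1.2
  let N : Matrix {p // p ∈ F} {v // v ∈ V} R := fun p v =>
    (if p.1.2 = v.1 then 1 else 0) - (if p.1.1 = v.1 then 1 else 0)
  have hN : ∀ (f : {v // v ∈ V} → R) (p : {p // p ∈ F}), N.mulVec f p =
      f ⟨p.1.2, EV2 _ ((memF _).1 p.2).1⟩ - f ⟨p.1.1, EV1 _ ((memF _).1 p.2).1⟩ := by
    intro f p
    show ∑ v, N p v * f v = _
    simp only [N, sub_mul, Finset.sum_sub_distrib, ite_mul, one_mul, zero_mul]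
    rw [Finset.sum_eq_single (⟨p.1.2, EV2 _ ((memF _).1 p.2).1⟩ : {v // v ∈ V}),
      Finset.sum_eq_single (⟨p.1.1, EV1 _ ((memF _).1 p.2).1⟩ : {v // v ∈ V}), if_pos rfl,
      if_pos rfl]
    · intro v _ hv
      rw [if_neg]
      intro h
      exact hv (Subtype.ext h.symm)
    · intro h
      exact absurd (mem_univ _) h
    · intro v _ hv
      rw [if_neg]
      intro h
      exact hv (Subtype.ext h.symm)
    · intro h
      exact absurd (mem_univ _) h
  have one : ∀ (g : {p // p ∈ F} → R) (a b : X) (h : (a, b) ∈ F),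
      ∑ p : {p // p ∈ F}, (if a = p.1.1 ∧ b = p.1.2 then (1 : R) else 0) * g p = g ⟨(a, b), h⟩ := by
    intro g a b h
    rw [Finset.sum_eq_single (⟨(a, b), h⟩ : {p // p ∈ F}), if_pos ⟨rfl, rfl⟩, one_mul]
    · intro p _ hp
      rw [if_neg, zero_mul]
      rintro ⟨h1, h2⟩
      exact hp (Subtype.ext (Prod.ext h1.symm h2.symm))
    · intro h
      exact absurd (mem_univ _) h
  have hM : ∀ (g : {p // p ∈ F} → R) (s : {s // s ∈ EUL_S T}), M.mulVec g s =
      g ⟨(s.1 1, s.1 2), fc _ s.2 _ _ (by decide)⟩ - g ⟨(s.1 0, s.1 2), fc _ s.2 _ _ (by decide)⟩ +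
        g ⟨(s.1 0, s.1 1), fc _ s.2 _ _ (by decide)⟩ := by
    intro g s
    show ∑ p, M s p * g p = _
    simp only [M, EUL_D, sub_mul, add_mul, Finset.sum_sub_distrib, Finset.sum_add_distrib]
    rw [one g _ _ (fc _ s.2 1 2 (by decide)), one g _ _ (fc _ s.2 0 2 (by decide)),
      one g _ _ (fc _ s.2 0 1 (by decide))]
  -- the kernel of N
  obtain ⟨t0, ht0⟩ := hne
  have kN : Module.finrank R (LinearMap.ker N.mulVecLin) = 1 := by
    rw [finrank_eq_one_iff']
    refine ⟨⟨fun _ => 1, ?_⟩, ?_, ?_⟩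
    · rw [LinearMap.mem_ker]
      funext p
      rw [Matrix.mulVecLin_apply, hN]
      simp
    · intro h
      have h1 := congrFun (congrArg Subtype.val h) ⟨t0 0, (hV _).2 ⟨t0, ht0, 0, rfl⟩⟩
      simp at h1
    · rintro ⟨f, hf⟩
      rw [LinearMap.mem_ker] at hf
      have hf' : ∀ p : {p // p ∈ F}, f ⟨p.1.2, EV2 _ ((memF _).1 p.2).1⟩ =
          f ⟨p.1.1, EV1 _ ((memF _).1 p.2).1⟩ := by
        intro p
        have h := congrFun hf p
        rw [Matrix.mulVecLin_apply, hN] at h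
        exact sub_eq_zero.1 h
      obtain ⟨D, hD⟩ : ∃ D : X → R, ∀ v : {v // v ∈ V}, D v.1 = f v :=
        ⟨fun x => if h : x ∈ V then f ⟨x, h⟩ else 0, fun v => dif_pos v.2⟩
      have hD1 : ∀ t ∈ T, ∀ a b, t a < t b → D (t a) = D (t b) := by
        intro t ht a b hab
        have hab' : a ≠ b := by
          rintro rfl
          exact lt_irrefl _ hab
        have hp : (t a, t b) ∈ F := (memF _).2 ⟨(hE _).2 ⟨t, ht, a, b, hab', rfl⟩, hab⟩
        have h1 := hf' ⟨_, hp⟩
        rw [← hD, ← hD] at h1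
        exact h1.symm
      have hD2 : ∀ t ∈ T, ∀ a b, D (t a) = D (t b) := by
        intro t ht a b
        rcases lt_trichotomy (t a) (t b) with h | h | h
        · exact hD1 t ht a b h
        · rw [h]
        · exact (hD1 t ht b a h).symm
      refine ⟨D (t0 0), ?_⟩
      apply Subtype.ext
      funext v
      obtain ⟨t, ht, i, hi⟩ := (hV _).1 v.2
      show D (t0 0) * 1 = f v
      rw [mul_one, ← hD, ← hi]
      exact conn D hD2 t0 ht0 t ht 0 i
  -- exactness in the middle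
  have ex : LinearMap.ker M.mulVecLin = LinearMap.range N.mulVecLin := by
    apply le_antisymm
    · intro g hg
      rw [LinearMap.mem_ker] at hg
      have hg' : ∀ s : {s // s ∈ EUL_S T},
          g ⟨(s.1 1, s.1 2), fc _ s.2 _ _ (by decide)⟩ -
            g ⟨(s.1 0, s.1 2), fc _ s.2 _ _ (by decide)⟩ +
            g ⟨(s.1 0, s.1 1), fc _ s.2 _ _ (by decide)⟩ = 0 := by
        intro s
        have h := congrFun hg s
        rw [Matrix.mulVecLin_apply, hM] at h
        exact h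
      have c1 : ∀ r : Fin 2 → X, ∀ h : (r 0, r 1) ∈ F, EUL_c F g r = g ⟨(r 0, r 1), h⟩ := by
        intro r h
        unfold EUL_c
        rw [dif_pos h, dif_neg, sub_zero]
        intro h'
        exact lt_asymm ((memF _).1 h).2 ((memF _).1 h').2
      have csw : ∀ x y : X, EUL_c F g ![x, y] = - EUL_c F g ![y, x] := by
        intro x y
        unfold EUL_c
        simp only [Matrix.cons_val_zero, Matrix.cons_val_one]
        ring
      have pot : ∀ t ∈ T, ∃ P : Fin 3 → R, ∀ i j, EUL_c F g ![t i, t j] = P j - P i := by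
        intro t ht
        -- sorted version
        have hs : t ∘ Tuple.sort t ∈ EUL_S T :=
          (EUL_mem T _).2 ⟨hperm t ht _, EUL_sorted (hinj t ht)⟩
        obtain ⟨s, hs'⟩ : ∃ s, s = t ∘ Tuple.sort t := ⟨_, rfl⟩
        rw [← hs'] at hs
        have r1 := hg' ⟨s, hs⟩
        have e01 : EUL_c F g ![s 0, s 1] = g ⟨(s 0, s 1), fc s hs _ _ (by decide)⟩ :=
          c1 ![s 0, s 1] (fc s hs _ _ (by decide))
        have e02 : EUL_c F g ![s 0, s 2] = g ⟨(s 0, s 2), fc s hs _ _ (by decide)⟩ :=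
          c1 ![s 0, s 2] (fc s hs _ _ (by decide))
        have e12 : EUL_c F g ![s 1, s 2] = g ⟨(s 1, s 2), fc s hs _ _ (by decide)⟩ :=
          c1 ![s 1, s 2] (fc s hs _ _ (by decide))
        simp only at r1
        rw [← e01, ← e02, ← e12] at r1
        have dg : ∀ x, EUL_c F g ![x, x] = 0 := by
          intro x
          unfold EUL_c
          simp
        have key : ∀ i j, EUL_c F g ![s i, s j] = EUL_c F g ![s 0, s j] - EUL_c F g ![s 0, s i] := by
          intro i j
          fin_cases i <;> fin_cases j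
          · show EUL_c F g ![s 0, s 0] = EUL_c F g ![s 0, s 0] - EUL_c F g ![s 0, s 0]
            rw [dg]; ring
          · show EUL_c F g ![s 0, s 1] = EUL_c F g ![s 0, s 1] - EUL_c F g ![s 0, s 0]
            rw [dg]; ring
          · show EUL_c F g ![s 0, s 2] = EUL_c F g ![s 0, s 2] - EUL_c F g ![s 0, s 0]
            rw [dg]; ring
          · show EUL_c F g ![s 1, s 0] = EUL_c F g ![s 0, s 0] - EUL_c F g ![s 0, s 1]
            rw [dg, csw]; ring
          · show EUL_c F g ![s 1, s 1] = EUL_c F g ![s 0, s 1] - EUL_c F g ![s 0, s 1]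
            rw [dg]; ring
          · show EUL_c F g ![s 1, s 2] = EUL_c F g ![s 0, s 2] - EUL_c F g ![s 0, s 1]
            linear_combination r1
          · show EUL_c F g ![s 2, s 0] = EUL_c F g ![s 0, s 0] - EUL_c F g ![s 0, s 2]
            rw [dg, csw]; ring
          · show EUL_c F g ![s 2, s 1] = EUL_c F g ![s 0, s 1] - EUL_c F g ![s 0, s 2]
            rw [csw (s 2) (s 1)]
            linear_combination -r1
          · show EUL_c F g ![s 2, s 2] = EUL_c F g ![s 0, s 2] - EUL_c F g ![s 0, s 2]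
            rw [dg]; ring
        refine ⟨fun i => EUL_c F g ![s 0, t i], fun i j => ?_⟩
        have h3 : ∀ i, t i = s ((Tuple.sort t).symm i) := by
          intro i
          rw [hs']
          simp
        simp only [h3 i, h3 j]
        exact key _ _
      obtain ⟨b, hb⟩ := H1 (EUL_c F g) (by
        intro t ht α
        obtain ⟨P, hP⟩ := pot t ht
        rw [Fin.sum_univ_three]
        have a0 : (t ∘ α) ∘ (0 : Fin 3).succAbove = ![t (α 1), t (α 2)] := by
          funext i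
          fin_cases i <;> rfl
        have a1 : (t ∘ α) ∘ (1 : Fin 3).succAbove = ![t (α 0), t (α 2)] := by
          funext i
          fin_cases i <;> rfl
        have a2 : (t ∘ α) ∘ (2 : Fin 3).succAbove = ![t (α 0), t (α 1)] := by
          funext i
          fin_cases i <;> rfl
        rw [a0, a1, a2, hP, hP, hP]
        simp)
      refine ⟨fun v => b (fun _ => v.1), ?_⟩
      funext p
      rw [Matrix.mulVecLin_apply, hN]
      obtain ⟨t, ht, i, j, hij, e⟩ := (hE _).1 ((memF _).1 p.2).1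
      have h5 := hb t ht ![i, j]
      have h6 : t ∘ ![i, j] = ![p.1.1, p.1.2] := by
        funext k
        fin_cases k
        · exact congrArg Prod.fst e
        · exact congrArg Prod.snd e
      rw [h6, Fin.sum_univ_two] at h5
      have b0 : (![p.1.1, p.1.2] : Fin 2 → X) ∘ (0 : Fin 2).succAbove = fun _ => p.1.2 := by
        funext k
        fin_cases k
        rfl
      have b1 : (![p.1.1, p.1.2] : Fin 2 → X) ∘ (1 : Fin 2).succAbove = fun _ => p.1.1 := by
        funext k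
        fin_cases k
        rfl
      rw [b0, b1, c1 ![p.1.1, p.1.2] p.2] at h5
      have h7 : g p = b (fun _ => p.1.2) - b (fun _ => p.1.1) := by
        have h8 : g p = g ⟨(p.1.1, p.1.2), p.2⟩ := rfl
        rw [h8]
        refine h5.trans ?_
        simp
        ring
      exact h7.symm
    · rintro _ ⟨f, rfl⟩
      rw [LinearMap.mem_ker]
      funext s
      rw [Matrix.mulVecLin_apply, hM, Matrix.mulVecLin_apply, hN, hN, hN]
      show _ = (0 : R)
      ring
  -- the kernel of the transpose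
  have hMt : ∀ (ζ : {s // s ∈ EUL_S T} → R) (p : {p // p ∈ F}),
      M.transpose.mulVec ζ p = ∑ s : {s // s ∈ EUL_S T}, EUL_D R s.1 p.1.1 p.1.2 * ζ s := by
    intro ζ p
    rfl
  have att : ∀ φ : (Fin 3 → X) → R, ∑ s : {s // s ∈ EUL_S T}, φ s.1 = ∑ s ∈ EUL_S T, φ s := by
    intro φ
    exact Finset.sum_coe_sort (EUL_S T) φ
  have t0S : t0 ∘ Tuple.sort t0 ∈ EUL_S T :=
    (EUL_mem T _).2 ⟨hperm t0 ht0 _, EUL_sorted (hinj t0 ht0)⟩
  have kM : Module.finrank R (LinearMap.ker M.transpose.mulVecLin) = 1 := by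
    rw [finrank_eq_one_iff']
    refine ⟨⟨fun s => ε s.1, ?_⟩, ?_, ?_⟩
    · rw [LinearMap.mem_ker]
      funext p
      rw [Matrix.mulVecLin_apply, hMt, att (fun s => EUL_D R s p.1.1 p.1.2 * ε s)]
      have h1 := EUL_bd T hinj hperm ε hεalt p.1.1 p.1.2
      rw [hεcyc] at h1
      show _ = (0 : R)
      rw [h1]
      refine Finset.sum_congr rfl fun s hs => ?_
      rw [EUL_D0 ((EUL_mem T s).1 hs).2 ((memF _).1 p.2).2, sub_zero]
    · intro h
      have h1 := congrFun (congrArg Subtype.val h) ⟨_, t0S⟩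
      exact hε _ ((EUL_mem T _).1 t0S).1 h1
    · rintro ⟨ζ, hζ⟩
      rw [LinearMap.mem_ker] at hζ
      have hz : ∀ x y : X, x < y → ∑ s ∈ EUL_S T, EUL_D R s x y * EUL_ext T ζ s = 0 := by
        intro x y hxy
        by_cases hp : (x, y) ∈ F
        · have h1 := congrFun hζ ⟨_, hp⟩
          rw [Matrix.mulVecLin_apply, hMt] at h1
          rw [← att (fun s => EUL_D R s x y * EUL_ext T ζ s)]
          simp only [EUL_ext_S]
          exact h1
        · refine Finset.sum_eq_zero fun s hs => ?_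
          have h2 : EUL_D R s x y = 0 := by
            unfold EUL_D
            rw [if_neg, if_neg, if_neg]
            · ring
            · rintro ⟨h1, h2⟩
              apply hp
              rw [← h1, ← h2]
              exact fc s hs _ _ (by decide)
            · rintro ⟨h1, h2⟩
              apply hp
              rw [← h1, ← h2]
              exact fc s hs _ _ (by decide)
            · rintro ⟨h1, h2⟩
              apply hp
              rw [← h1, ← h2]
              exact fc s hs _ _ (by decide)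
          rw [h2, zero_mul]
      have hz2 : ∀ x y : X, x < y →
          ∑ s ∈ EUL_S T, (EUL_D R s x y - EUL_D R s y x) * EUL_ext T ζ s = 0 := by
        intro x y hxy
        rw [← hz x y hxy]
        refine Finset.sum_congr rfl fun s hs => ?_
        rw [EUL_D0 ((EUL_mem T s).1 hs).2 hxy, sub_zero]
      have hz3 : ∀ x y : X,
          ∑ s ∈ EUL_S T, (EUL_D R s x y - EUL_D R s y x) * EUL_ext T ζ s = 0 := by
        intro x y
        rcases lt_trichotomy x y with h | h | h
        · exact hz2 x y h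
        · subst h
          refine Finset.sum_eq_zero fun s _ => ?_
          rw [sub_self, zero_mul]
        · rw [← neg_eq_zero, ← Finset.sum_neg_distrib, ← hz2 y x h]
          refine Finset.sum_congr rfl fun s _ => ?_
          ring
      obtain ⟨l, hl⟩ := Z2 (EUL_ext T ζ) (EUL_ext_alt T hinj ζ) (by
        intro x y
        rw [EUL_bd T hinj hperm _ (EUL_ext_alt T hinj ζ), hz3])
      refine ⟨l, ?_⟩
      apply Subtype.ext
      funext s
      have h1 := hl s.1 ((EUL_mem T _).1 s.2).1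
      rw [EUL_ext_S] at h1
      exact h1.symm
  -- counting
  have d1 := LinearMap.finrank_range_add_finrank_ker N.mulVecLin
  have d2 := LinearMap.finrank_range_add_finrank_ker M.mulVecLin
  have d3 := LinearMap.finrank_range_add_finrank_ker M.transpose.mulVecLin
  have d4 : Module.finrank R (LinearMap.range M.transpose.mulVecLin) =
      Module.finrank R (LinearMap.range M.mulVecLin) := Matrix.rank_transpose M
  rw [kN] at d1
  rw [ex] at d2
  rw [kM, d4] at d3
  rw [Module.finrank_fintype_fun_eq_card, Fintype.card_coe] at d1 d2 d3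
  rw [cT, cE]
  omega

end EULaux

open Classical in
theorem euler_char {X R : Type*} [Field R] (hR : (6 : R) ≠ 0) (T : Finset (Fin 3 → X))
    (hinj : ∀ t ∈ T, Function.Injective t)
    (hperm : ∀ t ∈ T, ∀ π : Equiv.Perm (Fin 3), t ∘ π ∈ T) (hne : T.Nonempty)
    (conn : ∀ D : X → R, (∀ t ∈ T, ∀ a b, D (t a) = D (t b)) →
      ∀ t ∈ T, ∀ t' ∈ T, ∀ a b, D (t a) = D (t' b))
    (H1 : ∀ c : (Fin 2 → X) → R,
      (∀ t ∈ T, ∀ α : Fin 3 → Fin 3, ∑ j : Fin 3, (-1) ^ (j : ℕ) * c ((t ∘ α) ∘ j.succAbove) = 0) →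
      ∃ b : (Fin 1 → X) → R, ∀ t ∈ T, ∀ α : Fin 2 → Fin 3,
        c (t ∘ α) = ∑ j : Fin 2, (-1) ^ (j : ℕ) * b ((t ∘ α) ∘ j.succAbove))
    (ε : (Fin 3 → X) → R) (hε : ∀ t ∈ T, ε t ≠ 0)
    (hεalt : ∀ t ∈ T, ∀ π : Equiv.Perm (Fin 3), ε (t ∘ π) = ((Equiv.Perm.sign π : ℤ) : R) * ε t)
    (hεcyc : ∀ r : Fin 2 → X, ∑ t ∈ T.filter (fun t => (fun i : Fin 2 => t i.succ) = r), ε t = 0)
    (Z2 : ∀ ζ : (Fin 3 → X) → R,
      (∀ t ∈ T, ∀ π : Equiv.Perm (Fin 3), ζ (t ∘ π) = ((Equiv.Perm.sign π : ℤ) : R) * ζ t) →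
      (∀ r : Fin 2 → X, ∑ t ∈ T.filter (fun t => (fun i : Fin 2 => t i.succ) = r), ζ t = 0) →
      ∃ l : R, ∀ t ∈ T, ζ t = l * ε t) :
    6 * (T.biUnion fun t => univ.image t).card + T.card =
      3 * (T.biUnion fun t => (univ.filter (fun p : Fin 3 × Fin 3 => p.1 ≠ p.2)).image
        (fun p => (t p.1, t p.2))).card + 12 := by
  classical
  let _ : LinearOrder X := linearOrderOfSTO (WellOrderingRel (α := X))
  refine EUL_core T _ _ ?_ ?_ hinj hperm hne conn H1 ε hε hεalt ?_ ?_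
  · intro x
    simp only [mem_biUnion, mem_image, mem_univ, true_and]
  · intro p
    simp only [mem_biUnion, mem_image, mem_filter, mem_univ, true_and, Prod.exists]
  · intro x y
    have h := hεcyc ![x, y]
    rw [Finset.sum_filter] at h
    refine Eq.trans ?_ h
    refine Finset.sum_congr rfl fun t _ => ?_
    have e : (t 1 = x ∧ t 2 = y) ↔ (fun i : Fin 2 => t i.succ) = ![x, y] := by
      constructor
      · rintro ⟨h1, h2⟩
        funext k
        fin_cases k
        · exact h1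
        · exact h2
      · intro h
        exact ⟨congrFun h 0, congrFun h 1⟩
    by_cases h1 : t 1 = x ∧ t 2 = y
    · rw [if_pos h1, if_pos (e.1 h1)]
    · rw [if_neg h1, if_neg (fun h2 => h1 (e.2 h2))]
  · intro ζ halt hcyc
    refine Z2 ζ halt ?_
    intro r
    rw [Finset.sum_filter]
    refine Eq.trans ?_ (hcyc (r 0) (r 1))
    refine Finset.sum_congr rfl fun t _ => ?_
    have e : (t 1 = r 0 ∧ t 2 = r 1) ↔ (fun i : Fin 2 => t i.succ) = r := by
      constructor
      · rintro ⟨h1, h2⟩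
        funext k
        fin_cases k
        · exact h1
        · exact h2
      · intro h
        exact ⟨congrFun h 0, congrFun h 1⟩
    by_cases h1 : t 1 = r 0 ∧ t 2 = r 1
    · rw [if_pos h1, if_pos (e.1 h1)]
    · rw [if_neg h1, if_neg (fun h2 => h1 (e.2 h2))]

end Pool.H54.UB
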