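import Pool.Agent.H54.UB.GA
import Pool.Agent.H54.UB.CRF

/-!
# Row IMG: tops of an image complex

If `L' = h(L)` is the image complex of `GC.image_complex` (`h` injective on `L.space`, affine on the
hulls) then the ordered top simplices of `L'` are the images `h ∘ t` of those of `L`, bijectively.
-/

open Set Topology

namespace Pool.H54.UB

variable {E F : Type*} [NormedAddCommGroup E] [NormedSpace ℝ E]
  [NormedAddCommGroup F] [NormedSpace ℝ F]

theorem IMG_sub {L : GC E} {s : Finset E} (hs : s ∈ L.faces) {x : E} (hx : x ∈ s) :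
    x ∈ L.space := by
  unfold GC.space
  exact mem_biUnion hs (subset_convexHull ℝ _ hx)

theorem IMG_tup {L : GC E} {n : ℕ} {t : Fin n → E} (ht : L.Tup t) (i : Fin n) : t i ∈ L.space := by
  obtain ⟨s, hs, h⟩ := ht
  exact IMG_sub hs (h i)

theorem GC.tup_image {L : GC E} {L' : GC F} {h : E → F} (hi : InjOn h L.space)
    (hL' : ∀ s' : Finset F, s' ∈ L'.faces ↔ ∃ s ∈ L.faces, (s' : Set F) = h '' (s : Set E))
    {n : ℕ} (t : Fin n → E) (ht : L.Tup t) : L'.Tup (fun i => h (t i)) := by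
  classical
  obtain ⟨s, hs, h1⟩ := ht
  refine ⟨s.image h, (hL' _).2 ⟨s, hs, by simp⟩, fun a => Finset.mem_image_of_mem _ (h1 a)⟩

theorem GC.tops_image {L : GC E} {L' : GC F} {h : E → F} (hi : InjOn h L.space)
    (hL' : ∀ s' : Finset F, s' ∈ L'.faces ↔ ∃ s ∈ L.faces, (s' : Set F) = h '' (s : Set E))
    (m : ℕ) :
    (∀ t ∈ L.tops m, (fun i => h (t i)) ∈ L'.tops m) ∧
      (∀ t' ∈ L'.tops m, ∃ t ∈ L.tops m, (fun i => h (t i)) = t') ∧
      InjOn (fun t : Fin (m + 1) → E => fun i => h (t i)) (L.tops m) := by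
  classical
  refine ⟨fun t ht => ?_, fun t' ht' => ?_, fun t ht t' ht' e => ?_⟩
  · have h1 := GC.mem_tops.1 ht
    refine GC.mem_tops.2 ⟨fun i j e => ?_, GC.tup_image hi hL' t h1.2⟩
    exact h1.1 (hi (IMG_tup h1.2 i) (IMG_tup h1.2 j) e)
  · have h1 := GC.mem_tops.1 ht'
    obtain ⟨s', hs', h2⟩ := h1.2
    obtain ⟨s, hs, h3⟩ := (hL' s').1 hs'
    have h4 : ∀ i, ∃ x ∈ s, h x = t' i := by
      intro i
      have : t' i ∈ (s' : Set F) := h2 i
      rw [h3] at this
      obtain ⟨x, hx, e⟩ := this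
      exact ⟨x, hx, e⟩
    choose t ht hte using h4
    refine ⟨t, GC.mem_tops.2 ⟨fun i j e => ?_, s, hs, ht⟩, funext hte⟩
    apply h1.1
    rw [← hte i, ← hte j, e]
  · have h1 := GC.mem_tops.1 (Finset.mem_coe.1 ht)
    have h2 := GC.mem_tops.1 (Finset.mem_coe.1 ht')
    funext i
    exact hi (IMG_tup h1.2 i) (IMG_tup h2.2 i) (congrFun e i)

end Pool.H54.UB
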