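import Mathlib

/-!
# Row STK: Stokes for a pseudomanifold with coherent orientation

Proof.  Fix `φ`.  `∑_t ε t ∑_j (-1)^j φ (t ∘ δ_j) = ∑_j ∑_r (-1)^j φ r * (∑_{t ∈ T, t ∘ δ_j = r} ε t)`
(sum over the finitely many `r` that occur).  The tuples `t ∈ T` with `t ∘ δ_j = r` are the
`Fin.insertNth j w r ∈ T`; since `T` is closed under permutations and `ε` is alternating,
`insertNth j w r ∈ T ↔ cons w r ∈ T` and `ε (insertNth j w r) = (-1)^j ε (cons w r)` (the permutation
moving position `0` to position `j` is a cycle of length `j+1`, e.g. `Fin.cycleRange`; sign `(-1)^j`).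
By `htwo` there are exactly two such `w`, with opposite `ε`: the sum vanishes.
-/

namespace Pool.H54.UB

open Finset

theorem STK_ins {X : Type*} {m : ℕ} (j : Fin (m + 1)) (w : X) (r : Fin m → X) :
    (Fin.insertNth j w r : Fin (m + 1) → X) =
      (Fin.cons w r : Fin (m + 1) → X) ∘ j.cycleRange := by
  funext i
  refine Fin.succAboveCases j ?_ (fun k => ?_) i
  · rw [Fin.insertNth_apply_same, Function.comp_apply, Fin.cycleRange_self, Fin.cons_zero]
  · rw [Fin.insertNth_apply_succAbove, Function.comp_apply, Fin.cycleRange_succAbove,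
      Fin.cons_succ]

theorem eps_insertNth {X : Type*} {m : ℕ} (T : Finset (Fin (m + 1) → X))
    (hperm : ∀ t ∈ T, ∀ π : Equiv.Perm (Fin (m + 1)), t ∘ π ∈ T)
    (ε : (Fin (m + 1) → X) → ℤ)
    (halt : ∀ t ∈ T, ∀ π : Equiv.Perm (Fin (m + 1)),
      ε (t ∘ π) = (Equiv.Perm.sign π : ℤ) * ε t)
    (j : Fin (m + 1)) (w : X) (r : Fin m → X) :
    ((Fin.insertNth j w r : Fin (m + 1) → X) ∈ T ↔ (Fin.cons w r : Fin (m + 1) → X) ∈ T) ∧
    ((Fin.cons w r : Fin (m + 1) → X) ∈ T →
      ε (Fin.insertNth j w r : Fin (m + 1) → X) =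
        (-1) ^ (j : ℕ) * ε (Fin.cons w r : Fin (m + 1) → X)) := by
  refine ⟨⟨fun h => ?_, fun h => ?_⟩, fun h => ?_⟩
  · have h1 := hperm _ h (j.cycleRange).symm
    rw [STK_ins] at h1
    have h2 : ((Fin.cons w r : Fin (m + 1) → X) ∘ j.cycleRange) ∘ ⇑(j.cycleRange).symm =
        (Fin.cons w r : Fin (m + 1) → X) := by
      funext i
      simp only [Function.comp_apply, Equiv.apply_symm_apply]
    rwa [h2] at h1
  · rw [STK_ins]
    exact hperm _ h _
  · rw [STK_ins, halt _ h, Fin.sign_cycleRange]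
    push_cast
    rfl

theorem STK_zero {X R : Type*} [CommRing R] {m : ℕ} (T : Finset (Fin (m + 1) → X))
    (ε : (Fin (m + 1) → X) → ℤ)
    (htwo : ∀ r : Fin m → X, (∃ u, (Fin.cons u r : Fin (m + 1) → X) ∈ T) →
      ∃ u v, u ≠ v ∧ (Fin.cons u r : Fin (m + 1) → X) ∈ T ∧
        (Fin.cons v r : Fin (m + 1) → X) ∈ T ∧
        (∀ w, (Fin.cons w r : Fin (m + 1) → X) ∈ T → w = u ∨ w = v) ∧
        ε (Fin.cons u r : Fin (m + 1) → X) = - ε (Fin.cons v r : Fin (m + 1) → X))
    (φ : (Fin m → X) → R) :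
    ∑ t ∈ T, (ε t : R) * φ (fun i => t i.succ) = 0 := by
  have key : ∀ t ∈ T, ∃ w, w ≠ t 0 ∧ (Fin.cons w (fun i => t i.succ) : Fin (m + 1) → X) ∈ T ∧
      ε (Fin.cons w (fun i => t i.succ) : Fin (m + 1) → X) = - ε t ∧
      ∀ w', (Fin.cons w' (fun i => t i.succ) : Fin (m + 1) → X) ∈ T → w' = t 0 ∨ w' = w := by
    intro t ht
    have e : (Fin.cons (t 0) (fun i => t i.succ) : Fin (m + 1) → X) = t := Fin.cons_self_tail t
    obtain ⟨u, v, huv, hu, hv, hall, hε⟩ := htwo (fun i => t i.succ) ⟨t 0, by rw [e]; exact ht⟩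
    rcases hall (t 0) (by rw [e]; exact ht) with h1 | h1
    · refine ⟨v, fun h => huv (h1 ▸ h.symm), hv, ?_, fun w' hw' => ?_⟩
      · rw [← h1, e] at hε
        rw [hε, neg_neg]
      · rcases hall w' hw' with h2 | h2
        · exact Or.inl (h2.trans h1.symm)
        · exact Or.inr h2
    · refine ⟨u, fun h => huv (h.trans h1), hu, ?_, fun w' hw' => ?_⟩
      · rw [← h1, e] at hε
        exact hε
      · rcases hall w' hw' with h2 | h2
        · exact Or.inr h2
        · exact Or.inl (h2.trans h1.symm)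
  choose w hw1 hw2 hw3 hw4 using key
  refine Finset.sum_involution
    (fun t ht => (Fin.cons (w t ht) (fun i => t i.succ) : Fin (m + 1) → X)) ?_ ?_ ?_ ?_
  · intro t ht
    have h1 : (fun i : Fin m => (Fin.cons (w t ht) (fun i => t i.succ) : Fin (m + 1) → X) i.succ) =
        fun i => t i.succ := by
      funext i
      rw [Fin.cons_succ]
    rw [h1, hw3 t ht]
    push_cast
    ring
  · intro t ht _ h
    apply hw1 t ht
    have := congrFun h 0
    rw [Fin.cons_zero] at this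
    exact this
  · intro t ht
    exact hw2 t ht
  · intro t ht
    have h1 : (fun i : Fin m => (Fin.cons (w t ht) (fun i => t i.succ) : Fin (m + 1) → X) i.succ) =
        fun i => t i.succ := by
      funext i
      rw [Fin.cons_succ]
    have h2 := hw1 _ (hw2 t ht)
    have h3 := hw2 _ (hw2 t ht)
    rw [h1] at h3
    rw [Fin.cons_zero] at h2
    have h4 : w _ (hw2 t ht) = t 0 := by
      rcases hw4 t ht _ h3 with h5 | h5
      · exact h5
      · exact absurd h5 h2
    show (Fin.cons (w _ (hw2 t ht)) (fun i : Fin m =>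
      (Fin.cons (w t ht) (fun i => t i.succ) : Fin (m + 1) → X) i.succ) : Fin (m + 1) → X) = t
    rw [h1, h4]
    exact Fin.cons_self_tail t

theorem stokes_of_two {X R : Type*} [CommRing R] {m : ℕ} (T : Finset (Fin (m + 1) → X))
    (hperm : ∀ t ∈ T, ∀ π : Equiv.Perm (Fin (m + 1)), t ∘ π ∈ T)
    (ε : (Fin (m + 1) → X) → ℤ)
    (halt : ∀ t ∈ T, ∀ π : Equiv.Perm (Fin (m + 1)),
      ε (t ∘ π) = (Equiv.Perm.sign π : ℤ) * ε t)
    (htwo : ∀ r : Fin m → X, (∃ u, (Fin.cons u r : Fin (m + 1) → X) ∈ T) →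
      ∃ u v, u ≠ v ∧ (Fin.cons u r : Fin (m + 1) → X) ∈ T ∧
        (Fin.cons v r : Fin (m + 1) → X) ∈ T ∧
        (∀ w, (Fin.cons w r : Fin (m + 1) → X) ∈ T → w = u ∨ w = v) ∧
        ε (Fin.cons u r : Fin (m + 1) → X) = - ε (Fin.cons v r : Fin (m + 1) → X))
    (φ : (Fin m → X) → R) :
    ∑ t ∈ T, (ε t : R) * ∑ j : Fin (m + 1), (-1) ^ (j : ℕ) * φ (t ∘ j.succAbove) = 0 := by
  simp only [Finset.mul_sum]
  rw [Finset.sum_comm]
  refine Finset.sum_eq_zero fun j _ => ?_
  rw [← STK_zero T ε htwo φ]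
  refine Finset.sum_bij (fun t _ => t ∘ ⇑(j.cycleRange).symm) (fun t ht => hperm t ht _) ?_ ?_ ?_
  · intro t _ t' _ h
    funext i
    have := congrFun h (j.cycleRange i)
    simpa using this
  · intro t ht
    refine ⟨t ∘ ⇑(j.cycleRange), hperm t ht _, ?_⟩
    funext i
    simp only [Function.comp_apply, Equiv.apply_symm_apply]
  · intro t ht
    have h1 : t ∘ ⇑(j.cycleRange).symm ∘ Fin.succ = t ∘ j.succAbove := by
      funext i
      show t ((j.cycleRange).symm i.succ) = t (j.succAbove i)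
      rw [← Fin.cycleRange_succAbove j i, Equiv.symm_apply_apply]
    have h2 : ε (t ∘ ⇑(j.cycleRange).symm) = (-1) ^ (j : ℕ) * ε t := by
      rw [halt t ht, Equiv.Perm.sign_symm, Fin.sign_cycleRange]
      push_cast
      rfl
    have h3 : (fun i : Fin m => (t ∘ ⇑(j.cycleRange).symm) i.succ) = t ∘ j.succAbove := h1
    rw [h2, h3]
    push_cast
    ring

end Pool.H54.UB
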