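import Pool.Agent.H54.UB.GRM
import Pool.Agent.H54.UB.STK
import Pool.Agent.H54.UB.IMG

/-!
# Row EVA: the corner evaluation on a triangulated unit cube

`L` is a complex in `Fin m → ℝ` whose space is the unit cube and which is adapted to the facets
`{y ∈ cube | y i = 0}` and `{y ∈ cube | y i = 1}`.  `θ i v = 1` if `v i = 1`, else `0`.
`ζ` is `±1` on the ordered top simplices, alternating, and (if `m > 0`) satisfies the *relative* Stokes
formula:
`∑_t ζ t ∑_j (-1)^j φ (t ∘ δ_j) = 0` for all `φ` that vanish on the facet tuples `r` whose entries all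
lie in one facet of the cube.  Claim:
`∑_t ζ t ∏_{i<m} (θ i (t (i+1)) - θ i (t i)) = ± (m+1)!`.

Proof by induction on `m`.  `m = 0`: one vertex, the sum is `ζ = ±1`.
Step: `φ r = θ 0 (r 0) * ∏_{1 ≤ i < m} (θ i (r i) - θ i (r (i-1)))` for `r : Fin m → ..`.  Since
`δ (θ_0 ∪ u) = δθ_0 ∪ u` for the cocycle `u = δθ_1 ∪ .. ∪ δθ_{m-1}` (telescoping as in row CH, or a direct
induction), `∑_j (-1)^j φ (t ∘ δ_j) = ∏_{i<m} (θ i (t (i+1)) - θ i (t i))` for every `t`.
Split `φ = φ₁ + φ₂`, `φ₁` = part supported on tuples contained in a facet of the cube, and apply the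
relative Stokes formula to `φ₂`.  Let `r` be a tuple with `r = t ∘ δ_j`, `t` top, contained in a facet
`{y i = c}`: if `i ≥ 1` then `φ r = 0` (one factor is `0`); if `i = 0, c = 0` then `φ r = 0`
(`θ 0 (r 0) = 0`); if all entries are in `{y 0 = 1}`: `φ r = ∏_{1 ≤ i < m} (..)`.  For such `r` there is
exactly one vertex `u_r` with `cons u_r r` a top tuple (`unique_top`: existence: the barycentre of `r`
is a limit of interior points of the cube, each in the hull of a top face, finiteness, closedness,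
`carrier_sub`; uniqueness: two different top faces containing `r` would be on opposite sides of the
hyperplane `{y 0 = 1}` by `GC.opposite`, but both lie in `{y 0 ≤ 1}`).  By `eps_insertNth` (row STK)
`∑_{t, j : t ∘ δ_j = r} (-1)^j ζ t = (m+1) ζ (cons u_r r)`.
So the sum equals `(m+1) ∑_r ζ' r ∏_{1≤i<m} ..` with `ζ' r = ζ (cons u_r r)`, `r` running over the ordered
`m`-element faces of `L` in `{y 0 = 1}`.  The subcomplex of `L` in that facet is mapped by
`y ↦ Fin.tail y` to a complex in `Fin (m-1) → ℝ` (`GC.restrict`, `GC.image_complex`) whose space is the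
unit cube, adapted to its facets; `ζ'` is `±1`, alternating.  Relative Stokes for `ζ'`: let `ψ` (on
`(m-1)`-tuples) vanish on tuples in a facet of the smaller cube; apply `∑_j (-1)^j φ(t∘δ_j) = 0`
for `φ = δ ψ'`, where `ψ' q = ψ (tail ∘ q)` if all entries of `q` are in `{y 0 = 1}`, and `0` otherwise
(`δ δ = 0`, pure algebra, gives `∑_t ζ t ∑_j (-1)^j (δψ') (t ∘ δ_j) = 0` without any hypothesis);
in this sum the tuples `r` not contained in any facet of the cube contribute `0` by the relative Stokes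
formula; a tuple `r` contained in a facet different from `{y 0 = 1}`: every `q = r ∘ δ_j` with
`ψ' q ≠ 0` would be in `{y 0 = 1}` and in the other facet, i.e. its tail in a facet of the smaller
cube (or the facet is `{y 0 = 0}`, impossible; `m ≥ 2`; for `m = 1` the smaller cube is a point and there
is nothing to prove), so `ψ' q = 0`; the remaining `r` are in `{y 0 = 1}` and give
`(m+1) ∑_r ζ' r (δ ψ)(tail r)`; divide by `(m+1) ≠ 0`.
-/

open Set Topology

namespace Pool.H54.UB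

section alg

variable {X R : Type*}

theorem EVA_sign [CommRing R] (n : ℕ) (i : Fin (n + 2)) (j : Fin (n + 1)) :
    (-1 : R) ^ (i.succAbove j : ℕ) * (-1 : R) ^ (j.predAbove i : ℕ) =
      -((-1 : R) ^ (i : ℕ) * (-1 : R) ^ (j : ℕ)) := by
  rcases lt_or_ge j.castSucc i with h | h
  · rw [Fin.succAbove_of_castSucc_lt _ _ h, Fin.predAbove_of_castSucc_lt _ _ h, Fin.val_castSucc]
    have h1 : (i : ℕ) = (i.pred (Fin.ne_zero_of_lt h) : ℕ) + 1 := by
      rw [Fin.val_pred]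
      have : (j.castSucc : ℕ) < i := h
      omega
    rw [h1, pow_succ]
    ring
  · rw [Fin.succAbove_of_le_castSucc _ _ h, Fin.predAbove_of_le_castSucc _ _ h, Fin.val_succ,
      Fin.coe_castPred, pow_succ]
    ring

theorem EVA_dd [CommRing R] (n : ℕ) (φ : (Fin n → X) → R) (t : Fin (n + 2) → X) :
    ∑ i : Fin (n + 2), (-1 : R) ^ (i : ℕ) *
      ∑ j : Fin (n + 1), (-1 : R) ^ (j : ℕ) * φ ((t ∘ i.succAbove) ∘ j.succAbove) = 0 := by
  simp only [Finset.mul_sum]
  rw [← Finset.sum_product']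
  refine Finset.sum_involution
    (fun (p : Fin (n + 2) × Fin (n + 1)) _ => (p.1.succAbove p.2, p.2.predAbove p.1)) ?_ ?_ ?_ ?_
  · rintro ⟨i, j⟩ -
    have h1 : (t ∘ (i.succAbove j).succAbove) ∘ (j.predAbove i).succAbove =
        (t ∘ i.succAbove) ∘ j.succAbove := by
      funext x
      simp only [Function.comp_apply]
      rw [Fin.succAbove_succAbove_succAbove_predAbove]
    show (-1 : R) ^ (i : ℕ) * ((-1 : R) ^ (j : ℕ) * φ ((t ∘ i.succAbove) ∘ j.succAbove)) +
      (-1 : R) ^ (i.succAbove j : ℕ) * ((-1 : R) ^ (j.predAbove i : ℕ) *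
        φ ((t ∘ (i.succAbove j).succAbove) ∘ (j.predAbove i).succAbove)) = 0
    rw [h1, ← mul_assoc, ← mul_assoc, EVA_sign]
    ring
  · rintro ⟨i, j⟩ - - h
    have h1 : i.succAbove j = i := congrArg Prod.fst h
    exact Fin.succAbove_ne i j h1
  · rintro ⟨i, j⟩ -
    exact Finset.mem_product.2 ⟨Finset.mem_univ _, Finset.mem_univ _⟩
  · rintro ⟨i, j⟩ -
    show ((i.succAbove j).succAbove (j.predAbove i), (j.predAbove i).predAbove (i.succAbove j)) =
      (i, j)
    rcases lt_or_ge j.castSucc i with h | h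
    · rw [Fin.succAbove_of_castSucc_lt _ _ h, Fin.predAbove_of_castSucc_lt _ _ h]
      have h1 : j.castSucc ≤ (i.pred (Fin.ne_zero_of_lt h)).castSucc := by
        rw [Fin.le_def, Fin.val_castSucc, Fin.val_castSucc, Fin.val_pred]
        have : (j.castSucc : ℕ) < i := h
        rw [Fin.val_castSucc] at this
        omega
      rw [Fin.succAbove_of_le_castSucc _ _ h1, Fin.predAbove_of_le_castSucc _ _ h1,
        Fin.succ_pred, Fin.castPred_castSucc]
    · rw [Fin.succAbove_of_le_castSucc _ _ h, Fin.predAbove_of_le_castSucc _ _ h]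
      have h1 : (i.castPred (Fin.ne_last_of_lt (lt_of_le_of_lt h (Fin.castSucc_lt_last j)))).castSucc
          < j.succ := by
        rw [Fin.castSucc_castPred]
        exact lt_of_le_of_lt h (Fin.castSucc_lt_succ)
      rw [Fin.succAbove_of_castSucc_lt _ _ h1, Fin.predAbove_of_castSucc_lt _ _ h1,
        Fin.pred_succ]
      exact Prod.ext (Fin.castSucc_castPred _ _) rfl

/-- Product of the coboundaries of the functions `g i`. -/
def EVA_P [CommRing R] {k : ℕ} (g : Fin k → X → R) (r : Fin (k + 1) → X) : R :=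
  ∏ i : Fin k, (g i (r i.succ) - g i (r i.castSucc))

theorem EVA_P_succ [CommRing R] {k : ℕ} (g : Fin (k + 1) → X → R) (r : Fin (k + 2) → X) :
    EVA_P g r = (g 0 (r 1) - g 0 (r 0)) * EVA_P (fun i => g i.succ) (r ∘ Fin.succ) := by
  unfold EVA_P
  rw [Fin.prod_univ_succ]
  rfl

theorem EVA_A_of [CommRing R] {k : ℕ} (g : Fin k → X → R)
    (hg : ∀ t : Fin (k + 2) → X, ∑ j : Fin (k + 2), (-1 : R) ^ (j : ℕ) *
      EVA_P g (t ∘ j.succAbove) = 0) (f : X → R) (t : Fin (k + 2) → X) :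
    ∑ j : Fin (k + 2), (-1 : R) ^ (j : ℕ) *
      (f ((t ∘ j.succAbove) 0) * EVA_P g (t ∘ j.succAbove)) =
      (f (t 1) - f (t 0)) * EVA_P g (t ∘ Fin.succ) := by
  have h1 := hg t
  rw [Fin.sum_univ_succ] at h1
  rw [Fin.sum_univ_succ]
  have h2 : ∀ j : Fin (k + 1), (t ∘ j.succ.succAbove) 0 = t 0 := by
    intro j
    rw [Function.comp_apply, Fin.succ_succAbove_zero]
  simp only [h2]
  have h3 : (t ∘ (0 : Fin (k + 2)).succAbove) = t ∘ Fin.succ := by
    rw [Fin.succAbove_zero]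
  rw [h3] at h1 ⊢
  have h4 : (t ∘ Fin.succ) 0 = t 1 := rfl
  have h5 : ∑ j : Fin (k + 1), (-1 : R) ^ (j.succ : ℕ) *
      (f (t 0) * EVA_P g (t ∘ j.succ.succAbove)) =
      f (t 0) * ∑ j : Fin (k + 1), (-1 : R) ^ (j.succ : ℕ) * EVA_P g (t ∘ j.succ.succAbove) := by
    rw [Finset.mul_sum]
    exact Finset.sum_congr rfl fun j _ => by ring
  rw [h4, h5, Fin.val_zero, pow_zero, one_mul]
  rw [Fin.val_zero, pow_zero, one_mul] at h1
  linear_combination f (t 0) * h1

theorem EVA_cocycle [CommRing R] : ∀ {k : ℕ} (g : Fin k → X → R) (t : Fin (k + 2) → X),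
    ∑ j : Fin (k + 2), (-1 : R) ^ (j : ℕ) * EVA_P g (t ∘ j.succAbove) = 0 := by
  intro k
  induction k with
  | zero =>
    intro g t
    rw [Fin.sum_univ_two]
    simp [EVA_P]
  | succ k ih =>
    intro g t
    have h1 : ∀ r : Fin (k + 2) → X, EVA_P g r = ∑ j : Fin (k + 2), (-1 : R) ^ (j : ℕ) *
        (fun q : Fin (k + 1) → X => g 0 (q 0) * EVA_P (fun i => g i.succ) q)
          (r ∘ j.succAbove) := by
      intro r
      rw [EVA_P_succ]
      exact (EVA_A_of (fun i => g i.succ) (ih _) (g 0) r).symm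
    simp only [h1]
    exact EVA_dd (R := R) (k + 1)
      (fun q : Fin (k + 1) → X => g 0 (q 0) * EVA_P (fun i => g i.succ) q) t

theorem EVA_A [CommRing R] {k : ℕ} (g : Fin (k + 1) → X → R) (t : Fin (k + 2) → X) :
    ∑ j : Fin (k + 2), (-1 : R) ^ (j : ℕ) *
      (g 0 ((t ∘ j.succAbove) 0) * EVA_P (fun i => g i.succ) (t ∘ j.succAbove)) = EVA_P g t := by
  rw [EVA_P_succ]
  exact EVA_A_of (fun i => g i.succ) (EVA_cocycle fun i => g i.succ) (g 0) t

/-- Collapsing the sum over the faces. -/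
theorem EVA_C [CommRing R] {n : ℕ} (T : Finset (Fin (n + 1) → X))
    (hperm : ∀ t ∈ T, ∀ π : Equiv.Perm (Fin (n + 1)), t ∘ π ∈ T)
    (ε : (Fin (n + 1) → X) → ℤ)
    (halt : ∀ t ∈ T, ∀ π : Equiv.Perm (Fin (n + 1)),
      ε (t ∘ π) = (Equiv.Perm.sign π : ℤ) * ε t) (Ψ : (Fin n → X) → R) :
    ∑ t ∈ T, (ε t : R) * ∑ j : Fin (n + 1), (-1 : R) ^ (j : ℕ) * Ψ (t ∘ j.succAbove) =
      ((n + 1 : ℕ) : R) * ∑ t ∈ T, (ε t : R) * Ψ (t ∘ Fin.succ) := by
  simp only [Finset.mul_sum (Finset.univ)]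
  rw [Finset.sum_comm]
  have key : ∀ j : Fin (n + 1),
      ∑ t ∈ T, (ε t : R) * ((-1 : R) ^ (j : ℕ) * Ψ (t ∘ j.succAbove)) =
        ∑ t ∈ T, (ε t : R) * Ψ (t ∘ Fin.succ) := by
    intro j
    have hself : ∀ t : Fin (n + 1) → X,
        (Fin.insertNth j (t j) (t ∘ j.succAbove) : Fin (n + 1) → X) = t := by
      intro t
      exact Fin.insertNth_self_removeNth j t
    refine Finset.sum_nbij' (fun t => (Fin.cons (t j) (t ∘ j.succAbove) : Fin (n + 1) → X))
      (fun t => (Fin.insertNth j (t 0) (t ∘ Fin.succ) : Fin (n + 1) → X)) ?_ ?_ ?_ ?_ ?_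
    · intro t ht
      refine ((eps_insertNth T hperm ε halt j (t j) (t ∘ j.succAbove)).1).1 ?_
      rw [hself]
      exact ht
    · intro t ht
      refine ((eps_insertNth T hperm ε halt j (t 0) (t ∘ Fin.succ)).1).2 ?_
      have : (Fin.cons (t 0) (t ∘ Fin.succ) : Fin (n + 1) → X) = t := Fin.cons_self_tail t
      rw [this]
      exact ht
    · intro t _
      have h1 : (Fin.cons (t j) (t ∘ j.succAbove) : Fin (n + 1) → X) ∘ Fin.succ =
          t ∘ j.succAbove := by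
        funext x
        simp
      show (Fin.insertNth j ((Fin.cons (t j) (t ∘ j.succAbove) : Fin (n + 1) → X) 0)
        ((Fin.cons (t j) (t ∘ j.succAbove) : Fin (n + 1) → X) ∘ Fin.succ) : Fin (n + 1) → X) = t
      rw [h1, Fin.cons_zero, hself]
    · intro t _
      have h1 : (Fin.insertNth j (t 0) (t ∘ Fin.succ) : Fin (n + 1) → X) ∘ j.succAbove =
          t ∘ Fin.succ := by
        funext x
        simp
      show (Fin.cons ((Fin.insertNth j (t 0) (t ∘ Fin.succ) : Fin (n + 1) → X) j)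
        ((Fin.insertNth j (t 0) (t ∘ Fin.succ) : Fin (n + 1) → X) ∘ j.succAbove) :
          Fin (n + 1) → X) = t
      rw [h1, Fin.insertNth_apply_same]
      exact Fin.cons_self_tail t
    · intro t ht
      have h1 : (Fin.cons (t j) (t ∘ j.succAbove) : Fin (n + 1) → X) ∘ Fin.succ =
          t ∘ j.succAbove := by
        funext x
        simp
      have h2 := (eps_insertNth T hperm ε halt j (t j) (t ∘ j.succAbove)).2 (by
        refine ((eps_insertNth T hperm ε halt j (t j) (t ∘ j.succAbove)).1).1 ?_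
        rw [hself]
        exact ht)
      rw [hself] at h2
      rw [h1, h2]
      push_cast
      have h3 : (-1 : R) ^ (j : ℕ) * (-1 : R) ^ (j : ℕ) = 1 := by
        rw [← mul_pow]
        norm_num
      linear_combination (ε (Fin.cons (t j) (t ∘ j.succAbove) : Fin (n + 1) → X) : R) *
        Ψ (t ∘ j.succAbove) * h3
  rw [Finset.sum_congr rfl fun j _ => key j, Finset.sum_const, Finset.card_univ, Fintype.card_fin,
    nsmul_eq_mul]

end alg

section geo

theorem EVA_tops_perm {E : Type*} [NormedAddCommGroup E] [NormedSpace ℝ E] (L : GC E) (n : ℕ) :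
    ∀ t ∈ L.tops n, ∀ π : Equiv.Perm (Fin (n + 1)), t ∘ π ∈ L.tops n := by
  intro t ht π
  rw [GC.mem_tops] at ht ⊢
  obtain ⟨hi, s, hs, hts⟩ := ht
  exact ⟨hi.comp π.injective, s, hs, fun a => hts (π a)⟩

theorem EVA_face {E : Type*} [NormedAddCommGroup E] [NormedSpace ℝ E] [DecidableEq E] {L : GC E} {n : ℕ}
    {t : Fin (n + 1) → E} (h : L.Tup t) : (Finset.univ.image t) ∈ L.faces := by
  obtain ⟨s, hs, hts⟩ := h
  refine L.down s hs _ ?_ ⟨t 0, Finset.mem_image_of_mem t (Finset.mem_univ 0)⟩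
  intro x hx
  obtain ⟨a, -, rfl⟩ := Finset.mem_image.1 hx
  exact hts a

theorem EVA_mem_space {E : Type*} [NormedAddCommGroup E] [NormedSpace ℝ E] {L : GC E} {n : ℕ}
    {t : Fin n → E} (h : L.Tup t) (a : Fin n) : t a ∈ L.space := by
  obtain ⟨s, hs, hts⟩ := h
  exact Set.mem_iUnion₂.2 ⟨s, hs, subset_convexHull ℝ _ (hts a)⟩

theorem EVA_aff {E : Type*} [NormedAddCommGroup E] [NormedSpace ℝ E] {L : GC E} {n : ℕ}
    {t : Fin (n + 1) → E} (hi : Function.Injective t) (h : L.Tup t) : AffineIndependent ℝ t := by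
  classical
  have h1 := GC.affineIndependent (EVA_face h)
  have h2 := h1.comp_embedding (⟨fun i => ⟨t i, Finset.mem_image_of_mem t (Finset.mem_univ i)⟩,
    fun i j hij => hi (congrArg Subtype.val hij)⟩ : Fin (n + 1) ↪ (Finset.univ.image t))
  exact h2

/-- points of the hyperplane `y 0 = 1` -/
theorem EVA_basis {m : ℕ} {L : GC (Fin (m + 1) → ℝ)} (r : Fin (m + 1) → (Fin (m + 1) → ℝ))
    (hri : Function.Injective r) (hrt : L.Tup r) (hr : ∀ a, r a 0 = 1) (w : Fin (m + 1) → ℝ) :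
    ∃ β : Fin (m + 1) → ℝ, ∑ i, β i = w 0 ∧ w = ∑ i, β i • r i := by
  have haff := EVA_aff hri hrt
  have hlin : LinearIndependent ℝ r := by
    rw [Fintype.linearIndependent_iff]
    intro g hg i
    rw [affineIndependent_iff] at haff
    refine haff Finset.univ g ?_ hg i (Finset.mem_univ i)
    have h1 := congrFun hg 0
    rw [Finset.sum_apply] at h1
    simpa [hr] using h1
  have hspan := hlin.span_eq_top_of_card_eq_finrank' (by simp)
  have hw : w ∈ Submodule.span ℝ (range r) := by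
    rw [hspan]
    trivial
  obtain ⟨β, hβ⟩ := (Submodule.mem_span_range_iff_exists_fun ℝ).1 hw
  refine ⟨β, ?_, hβ.symm⟩
  rw [← hβ, Finset.sum_apply]
  simp [hr]

theorem EVA_tail_tup {E : Type*} [NormedAddCommGroup E] [NormedSpace ℝ E] {L : GC E} {n : ℕ}
    {u : E} {r : Fin (n + 1) → E} (h : (Fin.cons u r : Fin (n + 2) → E) ∈ L.tops (n + 1)) :
    Function.Injective r ∧ L.Tup r ∧ ∀ a, r a ≠ u := by
  rw [GC.mem_tops] at h
  obtain ⟨hi, s, hs, hts⟩ := h
  refine ⟨fun a b hab => ?_, ⟨s, hs, fun a => ?_⟩, fun a ha => ?_⟩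
  · have h1 : (Fin.cons u r : Fin (n + 2) → E) a.succ = (Fin.cons u r : Fin (n + 2) → E) b.succ := by
      rw [Fin.cons_succ, Fin.cons_succ, hab]
    exact Fin.succ_injective _ (hi h1)
  · have h1 := hts a.succ
    rwa [Fin.cons_succ] at h1
  · have h1 : (Fin.cons u r : Fin (n + 2) → E) a.succ = (Fin.cons u r : Fin (n + 2) → E) 0 := by
      rw [Fin.cons_succ, Fin.cons_zero, ha]
    exact Fin.succ_ne_zero a (hi h1)

theorem EVA_lt {m : ℕ} {L : GC (Fin (m + 1) → ℝ)} (hsp : L.space ⊆ {z | z 0 ≤ 1})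
    (r : Fin (m + 1) → (Fin (m + 1) → ℝ)) (hr : ∀ a, r a 0 = 1) {u : Fin (m + 1) → ℝ}
    (hu : (Fin.cons u r : Fin (m + 2) → (Fin (m + 1) → ℝ)) ∈ L.tops (m + 1)) : u 0 < 1 := by
  obtain ⟨hri, hrt, -⟩ := EVA_tail_tup hu
  have hu' := hu
  rw [GC.mem_tops] at hu'
  have h0 : u 0 ≤ 1 := by
    have := hsp (EVA_mem_space hu'.2 0)
    rwa [Fin.cons_zero] at this
  refine lt_of_le_of_ne h0 fun h1 => ?_
  obtain ⟨β, hβ, hub⟩ := EVA_basis r hri hrt hr u
  have haff := EVA_aff hu'.1 hu'.2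
  rw [affineIndependent_iff] at haff
  have h2 := haff Finset.univ (Fin.cons (-1) β : Fin (m + 2) → ℝ) (by
    rw [Fin.sum_univ_succ]
    simp only [Fin.cons_zero, Fin.cons_succ]
    rw [hβ, h1]
    ring) (by
    rw [Fin.sum_univ_succ]
    simp only [Fin.cons_zero, Fin.cons_succ]
    rw [← hub]
    module) 0 (Finset.mem_univ 0)
  rw [Fin.cons_zero] at h2
  norm_num at h2

theorem EVA_uniq {m : ℕ} {L : GC (Fin (m + 1) → ℝ)} (hsp : L.space ⊆ {z | z 0 ≤ 1})
    (r : Fin (m + 1) → (Fin (m + 1) → ℝ)) (hr : ∀ a, r a 0 = 1) {u v : Fin (m + 1) → ℝ}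
    (hu : (Fin.cons u r : Fin (m + 2) → (Fin (m + 1) → ℝ)) ∈ L.tops (m + 1))
    (hv : (Fin.cons v r : Fin (m + 2) → (Fin (m + 1) → ℝ)) ∈ L.tops (m + 1)) : u = v := by
  by_contra huv
  obtain ⟨hri, hrt, hru⟩ := EVA_tail_tup hu
  obtain ⟨-, -, hrv⟩ := EVA_tail_tup hv
  have hu0 := EVA_lt hsp r hr hu
  have hv0 := EVA_lt hsp r hr hv
  have hu' := (GC.mem_tops.1 hu).2
  have hv' := (GC.mem_tops.1 hv).2
  have himg : ∀ w : Fin (m + 1) → ℝ,
      ((Finset.univ.image (Fin.cons w r : Fin (m + 2) → (Fin (m + 1) → ℝ)) :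
        Finset (Fin (m + 1) → ℝ)) : Set (Fin (m + 1) → ℝ)) =
        insert w ((Finset.univ.image r : Finset (Fin (m + 1) → ℝ)) : Set (Fin (m + 1) → ℝ)) := by
    intro w
    rw [Finset.coe_image, Finset.coe_image, Finset.coe_univ, Finset.coe_univ, Set.image_univ,
      Set.image_univ, Fin.range_cons]
  have hus : u ∉ Finset.univ.image r := by
    intro h
    obtain ⟨a, -, ha⟩ := Finset.mem_image.1 h
    exact hru a ha
  have hvs : v ∉ Finset.univ.image r := by
    intro h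
    obtain ⟨a, -, ha⟩ := Finset.mem_image.1 h
    exact hrv a ha
  set α : ℝ := (1 - u 0) / (1 - v 0) with hα
  have hαpos : 0 < α := div_pos (by linarith) (by linarith)
  obtain ⟨β, hβ, hub⟩ := EVA_basis r hri hrt hr (u - α • v)
  have hsum : ∀ {M : Type} [AddCommMonoid M] (F : (Fin (m + 1) → ℝ) → M),
      ∑ x ∈ Finset.univ.image r, F x = ∑ i, F (r i) := by
    intro M _ F
    exact Finset.sum_image fun a _ b _ hab => hri hab
  have hext : ∀ i, Function.extend r β 0 (r i) = β i := fun i => hri.extend_apply β 0 i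
  refine GC.no_same_side L (EVA_face hu') (EVA_face hv') ?_
    ⟨r 0, Finset.mem_image_of_mem r (Finset.mem_univ 0)⟩ (himg u) (himg v) hus hvs hαpos
    (β := Function.extend r β 0) ?_ ?_
  · intro hab
    have h1 : u ∈ ((Finset.univ.image (Fin.cons u r : Fin (m + 2) → (Fin (m + 1) → ℝ)) :
        Finset (Fin (m + 1) → ℝ)) : Set (Fin (m + 1) → ℝ)) := by
      rw [himg]
      exact Set.mem_insert _ _
    rw [hab, himg] at h1
    rcases h1 with h1 | h1
    · exact huv h1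
    · exact hus h1
  · rw [hsum]
    simp only [hext]
    rw [hβ]
    simp only [Pi.sub_apply, Pi.smul_apply, smul_eq_mul]
    have h1 : α * (1 - v 0) = 1 - u 0 := by
      rw [hα]
      exact div_mul_cancel₀ _ (by linarith)
    linarith
  · rw [hsum]
    simp only [hext]
    rw [← hub]
    module

theorem EVA_cube_closure (m : ℕ) :
    closure (interior {z : Fin m → ℝ | ∀ i, 0 ≤ z i ∧ z i ≤ 1}) =
      {z : Fin m → ℝ | ∀ i, 0 ≤ z i ∧ z i ≤ 1} := by
  have h1 : {z : Fin m → ℝ | ∀ i, 0 ≤ z i ∧ z i ≤ 1} =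
      Set.pi Set.univ (fun _ : Fin m => Set.Icc (0 : ℝ) 1) := by
    ext z
    exact ⟨fun h i _ => h i, fun h i => h i (Set.mem_univ i)⟩
  rw [h1, interior_pi_set Set.finite_univ]
  simp only [interior_Icc]
  rw [closure_pi_set]
  simp only [closure_Ioo (zero_ne_one' ℝ)]

theorem EVA_exist {m : ℕ} {L : GC (Fin (m + 1) → ℝ)}
    (hsp : L.space = {z | ∀ i, 0 ≤ z i ∧ z i ≤ 1})
    (r : Fin (m + 1) → (Fin (m + 1) → ℝ)) (hri : Function.Injective r) (hrt : L.Tup r) :
    ∃ u, (Fin.cons u r : Fin (m + 2) → (Fin (m + 1) → ℝ)) ∈ L.tops (m + 1) := by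
  have hs1 := EVA_face hrt
  have hcard : (Finset.univ.image r).card = m + 1 := by
    rw [Finset.card_image_of_injective _ hri, Finset.card_univ, Fintype.card_fin]
  have hpos : (0 : ℝ) < (m : ℝ) + 1 := by positivity
  obtain ⟨g, hg⟩ : ∃ g, g = ∑ y ∈ Finset.univ.image r, ((m : ℝ) + 1)⁻¹ • y := ⟨_, rfl⟩
  have hc : L.IsCarrier g (Finset.univ.image r) := by
    refine ⟨hs1, fun _ => ((m : ℝ) + 1)⁻¹, fun _ _ => inv_pos.2 hpos, ?_, hg.symm⟩
    rw [Finset.sum_const, hcard, nsmul_eq_mul]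
    push_cast
    exact mul_inv_cancel₀ hpos.ne'
  have hgs : g ∈ L.space := Set.mem_iUnion₂.2 ⟨_, hs1, hc.mem_hull⟩
  have hfin : {a | a ∈ L.faces ∧ a.card = m + 2}.Finite := L.fin.subset fun a ha => ha.1
  have hcl : IsClosed (⋃ a ∈ {a | a ∈ L.faces ∧ a.card = m + 2}, convexHull ℝ (a : Set (Fin (m + 1) → ℝ))) :=
    hfin.isClosed_biUnion fun a _ => (a.finite_toSet.isCompact_convexHull ℝ).isClosed
  have hsub : interior L.space ⊆
      ⋃ a ∈ {a | a ∈ L.faces ∧ a.card = m + 2}, convexHull ℝ (a : Set (Fin (m + 1) → ℝ)) := by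
    intro x hx
    obtain ⟨a, ha, hac, hxa⟩ := L.exists_top_of_interior hx
    exact Set.mem_iUnion₂.2 ⟨a, ⟨ha, hac⟩, hxa⟩
  have hgA : g ∈ ⋃ a ∈ {a | a ∈ L.faces ∧ a.card = m + 2},
      convexHull ℝ (a : Set (Fin (m + 1) → ℝ)) := by
    apply closure_minimal hsub hcl
    rw [hsp] at hgs ⊢
    rw [EVA_cube_closure]
    exact hgs
  obtain ⟨a, ⟨ha, hac⟩, hga⟩ := Set.mem_iUnion₂.1 hgA
  have hra := GC.carrier_sub ha hga hc
  obtain ⟨u, hu⟩ : (a \ Finset.univ.image r).Nonempty := by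
    rw [← Finset.card_pos, Finset.card_sdiff_of_subset hra, hac, hcard]
    omega
  rw [Finset.mem_sdiff] at hu
  refine ⟨u, ?_⟩
  rw [GC.mem_tops]
  refine ⟨?_, a, ha, ?_⟩
  · rw [Fin.cons_injective_iff]
    refine ⟨?_, hri⟩
    rintro ⟨i, hi⟩
    exact hu.2 (Finset.mem_image.2 ⟨i, Finset.mem_univ i, hi⟩)
  · intro i
    refine Fin.cases ?_ (fun k => ?_) i
    · rw [Fin.cons_zero]
      exact hu.1
    · rw [Fin.cons_succ]
      exact hra (Finset.mem_image_of_mem r (Finset.mem_univ k))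

end geo

section facet

/-- The lift to the facet `y 0 = 1`. -/
def EVA_lift {m : ℕ} (z : Fin m → ℝ) : Fin (m + 1) → ℝ := Fin.cons 1 z

theorem EVA_lift_inj {m : ℕ} : Function.Injective (EVA_lift : (Fin m → ℝ) → Fin (m + 1) → ℝ) := by
  intro a b h
  funext i
  have := congrFun h i.succ
  simpa [EVA_lift] using this

theorem EVA_lift_zero {m : ℕ} (z : Fin m → ℝ) : EVA_lift z 0 = 1 := by simp [EVA_lift]

theorem EVA_lift_succ {m : ℕ} (z : Fin m → ℝ) (i : Fin m) : EVA_lift z i.succ = z i := by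
  simp [EVA_lift]

theorem EVA_lift_tail {m : ℕ} (z : Fin (m + 1) → ℝ) (h : z 0 = 1) :
    EVA_lift (fun i => z i.succ) = z := by
  funext i
  refine Fin.cases ?_ (fun k => ?_) i
  · rw [EVA_lift_zero, h]
  · rw [EVA_lift_succ]

theorem EVA_facet {m : ℕ} {L : GC (Fin (m + 1) → ℝ)}
    (hsp : L.space = {z | ∀ i, 0 ≤ z i ∧ z i ≤ 1})
    (h0 : ∀ i, L.Adapted {z | (∀ i, 0 ≤ z i ∧ z i ≤ 1) ∧ z i = 0})
    (h1 : ∀ i, L.Adapted {z | (∀ i, 0 ≤ z i ∧ z i ≤ 1) ∧ z i = 1}) :
    ∃ L' : GC (Fin m → ℝ), L'.space = {z | ∀ i, 0 ≤ z i ∧ z i ≤ 1} ∧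
      (∀ i, L'.Adapted {z | (∀ i, 0 ≤ z i ∧ z i ≤ 1) ∧ z i = 0}) ∧
      (∀ i, L'.Adapted {z | (∀ i, 0 ≤ z i ∧ z i ≤ 1) ∧ z i = 1}) ∧
      ∀ r : Fin (m + 1) → (Fin m → ℝ), r ∈ L'.tops m ↔
        Function.Injective (fun a => EVA_lift (r a)) ∧ L.Tup (fun a => EVA_lift (r a)) := by
  classical
  obtain ⟨K, hKf, hKs, hKa⟩ := L.restrict _ (h1 0)
  have hKs' : K.space = {z | (∀ i, 0 ≤ z i ∧ z i ≤ 1) ∧ z 0 = 1} := by
    rw [hKs, hsp]
    ext z
    exact ⟨fun h => h.2, fun h => ⟨h.1, h⟩⟩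
  obtain ⟨h, hh⟩ : ∃ h : (Fin (m + 1) → ℝ) → (Fin m → ℝ), h = fun z i => z i.succ := ⟨_, rfl⟩
  have hhl : ∀ z, h (EVA_lift z) = z := by
    intro z
    rw [hh]
    funext i
    exact EVA_lift_succ z i
  have hlh : ∀ z : Fin (m + 1) → ℝ, z 0 = 1 → EVA_lift (h z) = z := by
    intro z hz
    rw [hh]
    exact EVA_lift_tail z hz
  have hinj : InjOn h K.space := by
    intro z hz z' hz' hzz
    rw [hKs'] at hz hz'
    rw [← hlh z hz.2, ← hlh z' hz'.2, hzz]
  have haff : ∀ s ∈ K.faces, AffOn h (convexHull ℝ (s : Set (Fin (m + 1) → ℝ))) := by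
    intro s _
    refine ⟨(LinearMap.funLeft ℝ ℝ (Fin.succ : Fin m → Fin (m + 1))).toAffineMap, ?_⟩
    intro z _
    rw [hh]
    rfl
  obtain ⟨L', hL'f, hL's, hL'c, hL'h⟩ := K.image_complex h haff hinj
  have hcube : L'.space = {z | ∀ i, 0 ≤ z i ∧ z i ≤ 1} := by
    rw [hL's, hKs']
    ext z
    constructor
    · rintro ⟨w, ⟨hw, -⟩, rfl⟩ i
      rw [hh]
      exact hw i.succ
    · intro hz
      refine ⟨EVA_lift z, ⟨fun i => ?_, EVA_lift_zero z⟩, hhl z⟩
      refine Fin.cases ?_ (fun k => ?_) i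
      · rw [EVA_lift_zero]
        norm_num
      · rw [EVA_lift_succ]
        exact hz k
  have hadapt : ∀ (Y : Set (Fin (m + 1) → ℝ)) (Y' : Set (Fin m → ℝ)), L.Adapted Y →
      (∀ z, z 0 = 1 → h z ∈ Y' → (∀ i, 0 ≤ z i ∧ z i ≤ 1) → z ∈ Y) →
      (∀ z ∈ Y, h z ∈ Y') → L'.Adapted Y' := by
    intro Y Y' hY hY1 hY2
    rw [GC.adapted_iff]
    intro x' s' hx's' hx'
    have hx1 : x' ∈ L'.space := Set.mem_iUnion₂.2 ⟨s', hx's'.1, hx's'.mem_hull⟩
    rw [hL's] at hx1
    obtain ⟨x, hx, rfl⟩ := hx1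
    obtain ⟨s, hs⟩ := GC.exists_carrier' hx
    have hs1 : ((s.image h : Finset (Fin m → ℝ)) : Set (Fin m → ℝ)) = h '' (s : Set (Fin (m + 1) → ℝ)) := by
      rw [Finset.coe_image]
    have hs2 := hL'c x s hs (s.image h) hs1
    have hs3 := GC.carrier_unique hx's' hs2
    rw [hs3, hs1, ← hL'h s hs.1]
    have hxK := hx
    rw [hKs'] at hxK
    have hsub := (GC.adapted_iff.1 (hKa Y hY)) x s hs (hY1 x hxK.2 hx' hxK.1)
    rintro _ ⟨z, hz, rfl⟩
    exact hY2 z (hsub hz)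
  refine ⟨L', hcube, fun i => ?_, fun i => ?_, ?_⟩
  · refine hadapt _ _ (h0 i.succ) ?_ ?_
    · intro z _ hz hz'
      refine ⟨hz', ?_⟩
      have := hz.2
      rw [hh] at this
      exact this
    · rintro z ⟨hz, hz'⟩
      rw [hh]
      exact ⟨fun j => hz j.succ, hz'⟩
  · refine hadapt _ _ (h1 i.succ) ?_ ?_
    · intro z _ hz hz'
      refine ⟨hz', ?_⟩
      have := hz.2
      rw [hh] at this
      exact this
    · rintro z ⟨hz, hz'⟩
      rw [hh]
      exact ⟨fun j => hz j.succ, hz'⟩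
  · obtain ⟨ht1, ht2, -⟩ := GC.tops_image hinj hL'f m
    have hK : ∀ t : Fin (m + 1) → (Fin (m + 1) → ℝ), t ∈ K.tops m ↔
        Function.Injective t ∧ L.Tup t ∧ ∀ a, t a 0 = 1 := by
      intro t
      rw [GC.mem_tops]
      constructor
      · rintro ⟨hi, s, hs, hts⟩
        rw [hKf] at hs
        exact ⟨hi, ⟨s, hs.1, hts⟩, fun a => (hs.2 (subset_convexHull ℝ _ (hts a))).2⟩
      · rintro ⟨hi, ht, hta⟩
        refine ⟨hi, Finset.univ.image t, (hKf _).2 ⟨EVA_face ht, ?_⟩, fun a =>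
          Finset.mem_image_of_mem t (Finset.mem_univ a)⟩
        have hconv : Convex ℝ {z : Fin (m + 1) → ℝ | (∀ i, 0 ≤ z i ∧ z i ≤ 1) ∧ z 0 = 1} := by
          intro x hx y hy a b ha hb hab
          refine ⟨fun i => ?_, ?_⟩
          · simp only [Pi.add_apply, Pi.smul_apply, smul_eq_mul]
            have h2 := hx.1 i
            have h3 := hy.1 i
            constructor
            · have := mul_nonneg ha h2.1
              have := mul_nonneg hb h3.1
              linarith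
            · have := mul_le_mul_of_nonneg_left h2.2 ha
              have := mul_le_mul_of_nonneg_left h3.2 hb
              linarith
          · simp only [Pi.add_apply, Pi.smul_apply, smul_eq_mul]
            rw [hx.2, hy.2]
            linarith
        refine convexHull_min ?_ hconv
        intro x hx
        rw [Finset.coe_image] at hx
        obtain ⟨a, -, rfl⟩ := hx
        have := EVA_mem_space ht a
        rw [hsp] at this
        exact ⟨this, hta a⟩
    intro r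
    constructor
    · intro hr
      obtain ⟨t, ht, rfl⟩ := ht2 r hr
      rw [hK] at ht
      have h2 : (fun a => EVA_lift (h (t a))) = t := by
        funext a
        exact hlh (t a) (ht.2.2 a)
      rw [h2]
      exact ⟨ht.1, ht.2.1⟩
    · rintro ⟨hi, ht⟩
      have h2 := ht1 (fun a => EVA_lift (r a)) ((hK _).2 ⟨hi, ht, fun a => EVA_lift_zero _⟩)
      have h3 : (fun i => h (EVA_lift (r i))) = r := by
        funext a
        exact hhl (r a)
      rwa [h3] at h2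

end facet

section transfer

open Classical in
/-- The orientation of the facet complex. -/
noncomputable def EVA_ze {m : ℕ} (L : GC (Fin (m + 1) → ℝ))
    (ζ : (Fin (m + 2) → (Fin (m + 1) → ℝ)) → ℤ) (r : Fin (m + 1) → (Fin m → ℝ)) : ℤ :=
  if h : ∃ u, (Fin.cons u (fun a => EVA_lift (r a)) : Fin (m + 2) → (Fin (m + 1) → ℝ)) ∈
      L.tops (m + 1) then
    ζ (Fin.cons h.choose (fun a => EVA_lift (r a)) : Fin (m + 2) → (Fin (m + 1) → ℝ)) else 0

theorem EVA_le {m : ℕ} {L : GC (Fin (m + 1) → ℝ)} (hsp : L.space = {z | ∀ i, 0 ≤ z i ∧ z i ≤ 1}) :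
    L.space ⊆ {z | z 0 ≤ 1} := by
  rw [hsp]
  intro z hz
  exact (hz 0).2

theorem EVA_ze_eq {m : ℕ} {L : GC (Fin (m + 1) → ℝ)}
    (hsp : L.space = {z | ∀ i, 0 ≤ z i ∧ z i ≤ 1})
    (ζ : (Fin (m + 2) → (Fin (m + 1) → ℝ)) → ℤ) (r : Fin (m + 1) → (Fin m → ℝ))
    {u : Fin (m + 1) → ℝ}
    (hu : (Fin.cons u (fun a => EVA_lift (r a)) : Fin (m + 2) → (Fin (m + 1) → ℝ)) ∈
      L.tops (m + 1)) :
    EVA_ze L ζ r =
      ζ (Fin.cons u (fun a => EVA_lift (r a)) : Fin (m + 2) → (Fin (m + 1) → ℝ)) := by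
  have hex : ∃ u, (Fin.cons u (fun a => EVA_lift (r a)) : Fin (m + 2) → (Fin (m + 1) → ℝ)) ∈
      L.tops (m + 1) := ⟨u, hu⟩
  unfold EVA_ze
  rw [dif_pos hex, EVA_uniq (EVA_le hsp) _ (fun a => EVA_lift_zero _) hex.choose_spec hu]

open Classical in
theorem EVA_transfer {m : ℕ} {R : Type*} [CommRing R] {L : GC (Fin (m + 1) → ℝ)}
    (hsp : L.space = {z | ∀ i, 0 ≤ z i ∧ z i ≤ 1}) {L' : GC (Fin m → ℝ)}
    (hL' : ∀ r : Fin (m + 1) → (Fin m → ℝ), r ∈ L'.tops m ↔
        Function.Injective (fun a => EVA_lift (r a)) ∧ L.Tup (fun a => EVA_lift (r a)))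
    (ζ : (Fin (m + 2) → (Fin (m + 1) → ℝ)) → ℤ)
    (G : (Fin (m + 1) → (Fin m → ℝ)) → R) :
    ∑ t ∈ L.tops (m + 1), (ζ t : R) *
      (if ∀ a, (t ∘ Fin.succ) a 0 = 1 then G (fun a i => (t ∘ Fin.succ) a i.succ) else 0) =
    ∑ r ∈ L'.tops m, (EVA_ze L ζ r : R) * G r := by
  have h1 : ∀ t ∈ L.tops (m + 1), (ζ t : R) *
      (if ∀ a, (t ∘ Fin.succ) a 0 = 1 then G (fun a i => (t ∘ Fin.succ) a i.succ) else 0) =
      if ∀ a, (t ∘ Fin.succ) a 0 = 1 then (ζ t : R) * G (fun a i => (t ∘ Fin.succ) a i.succ)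
        else 0 := by
    intro t _
    rw [mul_ite, mul_zero]
  rw [Finset.sum_congr rfl h1, ← Finset.sum_filter]
  have hcons : ∀ t : Fin (m + 2) → (Fin (m + 1) → ℝ), (∀ a, (t ∘ Fin.succ) a 0 = 1) →
      (Fin.cons (t 0) (fun a => EVA_lift (fun i => (t ∘ Fin.succ) a i.succ)) :
        Fin (m + 2) → (Fin (m + 1) → ℝ)) = t := by
    intro t ht
    have h2 : (fun a => EVA_lift (fun i => (t ∘ Fin.succ) a i.succ)) = t ∘ Fin.succ := by
      funext a
      exact EVA_lift_tail _ (ht a)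
    rw [h2]
    exact Fin.cons_self_tail t
  refine Finset.sum_bij (fun t _ => fun a i => (t ∘ Fin.succ) a i.succ) ?_ ?_ ?_ ?_
  · intro t ht
    rw [Finset.mem_filter] at ht
    have h2 := ht.1
    rw [← hcons t ht.2] at h2
    obtain ⟨h3, h4, -⟩ := EVA_tail_tup h2
    exact (hL' _).2 ⟨h3, h4⟩
  · intro t ht t' ht' htt
    rw [Finset.mem_filter] at ht ht'
    have h2 := ht.1
    have h3 := ht'.1
    rw [← hcons t ht.2] at h2
    rw [← hcons t' ht'.2] at h3
    have htt' : (fun a (i : Fin m) => (t ∘ Fin.succ) a i.succ) =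
      (fun a (i : Fin m) => (t' ∘ Fin.succ) a i.succ) := htt
    have h5 : ∀ a, (fun i : Fin m => (t ∘ Fin.succ) a i.succ) =
        (fun i : Fin m => (t' ∘ Fin.succ) a i.succ) := fun a => congrFun htt' a
    simp only [h5] at h2
    have h4 := EVA_uniq (EVA_le hsp) _ (fun a => EVA_lift_zero _) h2 h3
    rw [← hcons t ht.2, ← hcons t' ht'.2, h4]
    simp only [h5]
  · intro r hr
    obtain ⟨h2, h3⟩ := (hL' r).1 hr
    obtain ⟨u, hu⟩ := EVA_exist hsp _ h2 h3
    refine ⟨_, Finset.mem_filter.2 ⟨hu, fun a => ?_⟩, ?_⟩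
    · rw [Function.comp_apply, Fin.cons_succ, EVA_lift_zero]
    · funext a i
      rw [Function.comp_apply, Fin.cons_succ, EVA_lift_succ]
  · intro t ht
    rw [Finset.mem_filter] at ht
    have h2 := ht.1
    rw [← hcons t ht.2] at h2
    have h3 := EVA_ze_eq hsp ζ _ h2
    rw [hcons t ht.2] at h3
    rw [← h3]

theorem EVA_ze_alt {m : ℕ} {L : GC (Fin (m + 1) → ℝ)}
    (hsp : L.space = {z | ∀ i, 0 ≤ z i ∧ z i ≤ 1}) {L' : GC (Fin m → ℝ)}
    (hL' : ∀ r : Fin (m + 1) → (Fin m → ℝ), r ∈ L'.tops m ↔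
        Function.Injective (fun a => EVA_lift (r a)) ∧ L.Tup (fun a => EVA_lift (r a)))
    (ζ : (Fin (m + 2) → (Fin (m + 1) → ℝ)) → ℤ)
    (hζ : ∀ t ∈ L.tops (m + 1), ∀ π : Equiv.Perm (Fin (m + 2)),
        ζ (t ∘ π) = (Equiv.Perm.sign π : ℤ) * ζ t) :
    ∀ t ∈ L'.tops m, ∀ π : Equiv.Perm (Fin (m + 1)),
        EVA_ze L ζ (t ∘ π) = (Equiv.Perm.sign π : ℤ) * EVA_ze L ζ t := by
  intro t ht π
  obtain ⟨h2, h3⟩ := (hL' t).1 ht
  obtain ⟨u, hu⟩ := EVA_exist hsp _ h2 h3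
  have h4 : (Fin.cons u (fun a => EVA_lift ((t ∘ π) a)) : Fin (m + 2) → (Fin (m + 1) → ℝ)) =
      (Fin.cons u (fun a => EVA_lift (t a)) : Fin (m + 2) → (Fin (m + 1) → ℝ)) ∘
        (Equiv.Perm.decomposeFin.symm (0, π)) := by
    funext i
    refine Fin.cases ?_ (fun k => ?_) i
    · rw [Fin.cons_zero, Function.comp_apply, Equiv.Perm.decomposeFin_symm_apply_zero,
        Fin.cons_zero]
    · have h6 : (Equiv.Perm.decomposeFin.symm ((0 : Fin (m + 2)), π)) k.succ = (π k).succ := by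
        rw [Equiv.Perm.decomposeFin_symm_apply_succ, Equiv.swap_self, Equiv.refl_apply]
      show EVA_lift (t (π k)) = (Fin.cons u (fun a => EVA_lift (t a)) :
        Fin (m + 2) → (Fin (m + 1) → ℝ)) ((Equiv.Perm.decomposeFin.symm ((0 : Fin (m + 2)), π))
          k.succ)
      rw [h6, Fin.cons_succ]
  have h5 : (Fin.cons u (fun a => EVA_lift ((t ∘ π) a)) : Fin (m + 2) → (Fin (m + 1) → ℝ)) ∈
      L.tops (m + 1) := by
    rw [h4]
    exact EVA_tops_perm L (m + 1) _ hu _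
  rw [EVA_ze_eq hsp ζ _ h5, EVA_ze_eq hsp ζ t hu, h4, hζ _ hu, Equiv.Perm.decomposeFin.symm_sign,
    if_pos rfl, one_mul]

/-- all entries in one facet of the cube -/
def EVA_Fac {n k : ℕ} (r : Fin k → (Fin n → ℝ)) : Prop :=
  ∃ i, (∀ a, r a i = 0) ∨ (∀ a, r a i = 1)

open Classical in
theorem EVA_rel {m : ℕ} {R : Type*} [Field R] (hm : 0 < m) (hne : ((m + 2 : ℕ) : R) ≠ 0)
    {L : GC (Fin (m + 1) → ℝ)} (hsp : L.space = {z | ∀ i, 0 ≤ z i ∧ z i ≤ 1})
    {L' : GC (Fin m → ℝ)}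
    (hL' : ∀ r : Fin (m + 1) → (Fin m → ℝ), r ∈ L'.tops m ↔
        Function.Injective (fun a => EVA_lift (r a)) ∧ L.Tup (fun a => EVA_lift (r a)))
    (ζ : (Fin (m + 2) → (Fin (m + 1) → ℝ)) → ℤ)
    (hζ : ∀ t ∈ L.tops (m + 1), ∀ π : Equiv.Perm (Fin (m + 2)),
        ζ (t ∘ π) = (Equiv.Perm.sign π : ℤ) * ζ t)
    (hst : ∀ φ : (Fin (m + 1) → (Fin (m + 1) → ℝ)) → R,
      (∀ r : Fin (m + 1) → (Fin (m + 1) → ℝ), EVA_Fac r → φ r = 0) →
        ∑ t ∈ L.tops (m + 1), (ζ t : R) *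
          ∑ j : Fin (m + 2), (-1) ^ (j : ℕ) * φ (t ∘ j.succAbove) = 0)
    (φ : (Fin m → (Fin m → ℝ)) → R)
    (hφ : ∀ r : Fin m → (Fin m → ℝ), EVA_Fac r → φ r = 0) :
    ∑ t ∈ L'.tops m, (EVA_ze L ζ t : R) *
      ∑ j : Fin (m + 1), (-1) ^ (j : ℕ) * φ (t ∘ j.succAbove) = 0 := by
  set ψ : (Fin m → (Fin (m + 1) → ℝ)) → R := fun q =>
    if ∀ a, q a 0 = 1 then φ (fun a i => q a i.succ) else 0 with hψ
  set D : (Fin (m + 1) → (Fin (m + 1) → ℝ)) → R := fun r =>
    ∑ j : Fin (m + 1), (-1) ^ (j : ℕ) * ψ (r ∘ j.succAbove) with hD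
  set G : (Fin (m + 1) → (Fin m → ℝ)) → R := fun r =>
    ∑ j : Fin (m + 1), (-1) ^ (j : ℕ) * φ (r ∘ j.succAbove) with hG
  have hsplit : ∀ r, D r = (if EVA_Fac r then 0 else D r) +
      (if ∀ a, r a 0 = 1 then G (fun a i => r a i.succ) else 0) := by
    intro r
    by_cases hall : ∀ a, r a 0 = 1
    · have hF : EVA_Fac r := ⟨0, Or.inr hall⟩
      rw [if_pos hF, if_pos hall, zero_add]
      simp only [hD, hG, hψ]
      refine Finset.sum_congr rfl fun j _ => ?_
      have hj : ∀ a, (r ∘ j.succAbove) a 0 = 1 := fun a => hall _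
      rw [if_pos hj]
      rfl
    · rw [if_neg hall, add_zero]
      by_cases hF : EVA_Fac r
      · rw [if_pos hF]
        simp only [hD]
        refine Finset.sum_eq_zero fun j _ => ?_
        have h1 : ψ (r ∘ j.succAbove) = 0 := by
          simp only [hψ]
          split_ifs with h2
          · obtain ⟨i, hi⟩ := hF
            revert hi
            refine Fin.cases ?_ (fun k => ?_) i
            · rintro (hi | hi)
              · exfalso
                have h3 := h2 ⟨0, hm⟩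
                rw [Function.comp_apply, hi] at h3
                exact zero_ne_one h3
              · exact absurd hi hall
            · rintro hi
              apply hφ
              refine ⟨k, ?_⟩
              rcases hi with hi | hi
              · exact Or.inl fun a => hi _
              · exact Or.inr fun a => hi _
          · rfl
        rw [h1, mul_zero]
      · rw [if_neg hF]
  have h1 := hst (fun r => if EVA_Fac r then 0 else D r) (fun r hr => if_pos hr)
  have h2 : ∑ t ∈ L.tops (m + 1), (ζ t : R) *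
      ∑ j : Fin (m + 2), (-1) ^ (j : ℕ) * D (t ∘ j.succAbove) = 0 := by
    refine Finset.sum_eq_zero fun t _ => ?_
    have h3 := EVA_dd (R := R) m ψ t
    simp only [hD]
    rw [h3, mul_zero]
  have h3 := EVA_C (R := R) (L.tops (m + 1)) (EVA_tops_perm L (m + 1)) ζ hζ
    (fun r => if ∀ a, r a 0 = 1 then G (fun a i => r a i.succ) else 0)
  rw [EVA_transfer hsp hL' ζ G] at h3
  have h4 : ∑ t ∈ L.tops (m + 1), (ζ t : R) *
      ∑ j : Fin (m + 2), (-1) ^ (j : ℕ) * D (t ∘ j.succAbove) =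
      ∑ t ∈ L.tops (m + 1), (ζ t : R) *
        ∑ j : Fin (m + 2), (-1) ^ (j : ℕ) *
          (if EVA_Fac (t ∘ j.succAbove) then 0 else D (t ∘ j.succAbove)) +
      ∑ t ∈ L.tops (m + 1), (ζ t : R) *
        ∑ j : Fin (m + 2), (-1) ^ (j : ℕ) *
          (if ∀ a, (t ∘ j.succAbove) a 0 = 1 then G (fun a i => (t ∘ j.succAbove) a i.succ)
            else 0) := by
    rw [← Finset.sum_add_distrib]
    refine Finset.sum_congr rfl fun t _ => ?_
    rw [← mul_add, ← Finset.sum_add_distrib]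
    congr 1
    refine Finset.sum_congr rfl fun j _ => ?_
    rw [← mul_add, ← hsplit]
  rw [h2, h1, zero_add, h3] at h4
  rcases mul_eq_zero.1 h4.symm with h5 | h5
  · exact absurd h5 hne
  · exact h5

end transfer

open Classical in
theorem corner_eval {R : Type*} [Field R] : ∀ (m : ℕ) (_ : (((m + 1).factorial : ℕ) : R) ≠ 0)
    (L : GC (Fin m → ℝ)) (_ : L.space = {z | ∀ i, 0 ≤ z i ∧ z i ≤ 1})
    (_ : ∀ i, L.Adapted {z | (∀ i, 0 ≤ z i ∧ z i ≤ 1) ∧ z i = 0})
    (_ : ∀ i, L.Adapted {z | (∀ i, 0 ≤ z i ∧ z i ≤ 1) ∧ z i = 1})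
    (ζ : (Fin (m + 1) → (Fin m → ℝ)) → ℤ) (_ : ∀ t ∈ L.tops m, ζ t = 1 ∨ ζ t = -1)
    (_ : ∀ t ∈ L.tops m, ∀ π : Equiv.Perm (Fin (m + 1)),
        ζ (t ∘ π) = (Equiv.Perm.sign π : ℤ) * ζ t)
    (_ : 0 < m → ∀ φ : (Fin m → (Fin m → ℝ)) → R,
      (∀ r : Fin m → (Fin m → ℝ), (∃ i, (∀ a, r a i = 0) ∨ (∀ a, r a i = 1)) → φ r = 0) →
        ∑ t ∈ L.tops m, (ζ t : R) * ∑ j : Fin (m + 1), (-1) ^ (j : ℕ) * φ (t ∘ j.succAbove) = 0),
    ∑ t ∈ L.tops m, (ζ t : R) * ∏ i : Fin m,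
      ((if t i.succ i = 1 then (1 : R) else 0) - (if t i.castSucc i = 1 then (1 : R) else 0)) ≠ 0 := by
  intro m
  induction m with
  | zero =>
    intro _ L hsp _ _ ζ hζ1 _ _
    have h1 : (0 : Fin 0 → ℝ) ∈ L.space := by
      rw [hsp]
      intro i
      exact i.elim0
    obtain ⟨s, hs, -⟩ := Set.mem_iUnion₂.1 h1
    obtain ⟨v, hv⟩ := L.ne s hs
    have ht0 : (fun _ : Fin 1 => (0 : Fin 0 → ℝ)) ∈ L.tops 0 := by
      rw [GC.mem_tops]
      refine ⟨fun a b _ => Subsingleton.elim (α := Fin 1) a b, s, hs, fun a => ?_⟩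
      rw [Subsingleton.elim (0 : Fin 0 → ℝ) v]
      exact hv
    have h2 : L.tops 0 = {fun _ : Fin 1 => (0 : Fin 0 → ℝ)} := by
      rw [Finset.eq_singleton_iff_unique_mem]
      exact ⟨ht0, fun t _ => Subsingleton.elim _ _⟩
    rw [h2, Finset.sum_singleton, Finset.prod_of_isEmpty, mul_one]
    rcases hζ1 _ ht0 with h3 | h3 <;> rw [h3] <;> simp
  | succ m ih =>
    intro hfac L hsp h0 h1 ζ hζ1 hζa hst
    rw [Nat.factorial_succ, Nat.cast_mul] at hfac
    have hne : ((m + 2 : ℕ) : R) ≠ 0 := left_ne_zero_of_mul hfac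
    have hfac' : (((m + 1).factorial : ℕ) : R) ≠ 0 := right_ne_zero_of_mul hfac
    obtain ⟨L', hs', h0', h1', hL'⟩ := EVA_facet hsp h0 h1
    have hst' := hst (Nat.succ_pos m)
    have IH := ih hfac' L' hs' h0' h1' (EVA_ze L ζ) (by
      intro t ht
      obtain ⟨h2, h3⟩ := (hL' t).1 ht
      obtain ⟨u, hu⟩ := EVA_exist hsp _ h2 h3
      rw [EVA_ze_eq hsp ζ t hu]
      exact hζ1 _ hu) (EVA_ze_alt hsp hL' ζ hζa) (by
      intro hm φ hφ
      exact EVA_rel hm hne hsp hL' ζ hζa hst' φ hφ)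
    set g : Fin (m + 1) → (Fin (m + 1) → ℝ) → R := fun i v => if v i = 1 then (1 : R) else 0 with hg
    set G : (Fin (m + 1) → (Fin m → ℝ)) → R := fun r => ∏ i : Fin m,
      ((if r i.succ i = 1 then (1 : R) else 0) - (if r i.castSucc i = 1 then (1 : R) else 0)) with hG
    set φ : (Fin (m + 1) → (Fin (m + 1) → ℝ)) → R := fun r =>
      g 0 (r 0) * EVA_P (fun i => g i.succ) r with hφ
    have hA : ∀ t : Fin (m + 2) → (Fin (m + 1) → ℝ), (∏ i : Fin (m + 1),
      ((if t i.succ i = 1 then (1 : R) else 0) - (if t i.castSucc i = 1 then (1 : R) else 0))) =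
        ∑ j : Fin (m + 2), (-1 : R) ^ (j : ℕ) * φ (t ∘ j.succAbove) := by
      intro t
      exact (EVA_A g t).symm
    have hsplit : ∀ r, φ r = (if EVA_Fac r then 0 else φ r) +
        (if ∀ a, r a 0 = 1 then G (fun a i => r a i.succ) else 0) := by
      intro r
      by_cases hall : ∀ a, r a 0 = 1
      · have hF : EVA_Fac r := ⟨0, Or.inr hall⟩
        rw [if_pos hF, if_pos hall, zero_add]
        have h2 : g 0 (r 0) = 1 := if_pos (hall 0)
        show g 0 (r 0) * EVA_P (fun i => g i.succ) r = _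
        rw [h2, one_mul]
        rfl
      · rw [if_neg hall, add_zero]
        by_cases hF : EVA_Fac r
        · rw [if_pos hF]
          obtain ⟨i, hi⟩ := hF
          show g 0 (r 0) * EVA_P (fun i => g i.succ) r = 0
          revert hi
          refine Fin.cases ?_ (fun k => ?_) i
          · rintro (hi | hi)
            · have h2 : g 0 (r 0) = 0 := if_neg (by rw [hi 0]; norm_num)
              rw [h2, zero_mul]
            · exact absurd hi hall
          · intro hi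
            have h2 : g k.succ (r k.succ) = g k.succ (r k.castSucc) := by
              simp only [hg]
              rcases hi with hi | hi
              · rw [hi, hi]
              · rw [hi, hi]
            have h3 : EVA_P (fun i => g i.succ) r = 0 := by
              unfold EVA_P
              exact Finset.prod_eq_zero (Finset.mem_univ k) (sub_eq_zero.2 h2)
            rw [h3, mul_zero]
        · rw [if_neg hF]
    have h2 := hst' (fun r => if EVA_Fac r then 0 else φ r) (fun r hr => if_pos hr)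
    have h3 := EVA_C (R := R) (L.tops (m + 1)) (EVA_tops_perm L (m + 1)) ζ hζa
      (fun r => if ∀ a, r a 0 = 1 then G (fun a i => r a i.succ) else 0)
    rw [EVA_transfer hsp hL' ζ G] at h3
    have h4 : ∑ t ∈ L.tops (m + 1), (ζ t : R) *
        ∑ j : Fin (m + 2), (-1) ^ (j : ℕ) * φ (t ∘ j.succAbove) =
        ∑ t ∈ L.tops (m + 1), (ζ t : R) *
          ∑ j : Fin (m + 2), (-1) ^ (j : ℕ) *
            (if EVA_Fac (t ∘ j.succAbove) then 0 else φ (t ∘ j.succAbove)) +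
        ∑ t ∈ L.tops (m + 1), (ζ t : R) *
          ∑ j : Fin (m + 2), (-1) ^ (j : ℕ) *
            (if ∀ a, (t ∘ j.succAbove) a 0 = 1 then G (fun a i => (t ∘ j.succAbove) a i.succ)
              else 0) := by
      rw [← Finset.sum_add_distrib]
      refine Finset.sum_congr rfl fun t _ => ?_
      rw [← mul_add, ← Finset.sum_add_distrib]
      congr 1
      refine Finset.sum_congr rfl fun j _ => ?_
      rw [← mul_add, ← hsplit]
    rw [h2, zero_add, h3] at h4
    simp only [hA]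
    rw [h4]
    exact mul_ne_zero hne IH

end Pool.H54.UB
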