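import Pool.Agent.H54.UB.EVA
import Pool.Agent.H54.UB.CRF
import Pool.Agent.H54.UB.BAR

/-!
# Row EVB: the classes of an `EvalData` have nonzero product on every unimodular cycle

1. Cochains.  For a face `s` of `K` let `A ∈ D.P` be a piece with `convexHull s ⊆ A` (exists: the
   barycentre of `s` is in some `A`, `K` is adapted to `A`).  Put `x i a b = D.φ i A b - D.φ i A a` for any
   face `s ∋ a, b` and any such `A` (choice; `0` if there is none).  Well defined: if
   `{a, b} ⊆ s ∩ s'`, then the segment `[a, b]` is in `A ∩ A'`, and the function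
   `D.φ i A - D.φ i A'` is locally constant on it (`D.compat`), hence equal at `a` and `b`
   (connectedness of the segment).  Cocycle identity: use the same `A` for the three vertices.
2. If `t` is an ordered top simplex and `∏ x i (t i) (t (i+1)) ≠ 0` then the hull of `t` is in `P₀`
   (otherwise it is in a piece `A ≠ P₀` and `D.off` makes one factor `0`).  For such `t` the product is
   `∏ (θ i (t (i+1)) - θ i (t i))`, `θ i v = 1` if `D.y v i = 1`, else `0` (`D.wall`).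
3. `L₀` = subcomplex of `K` in `P₀` (`GC.restrict`), `L = y(L₀)` (`GC.image_complex`; `y` is affine on the
   faces by `hy`, injective): space = unit cube (`D.img`), adapted to the facets (from `h0`, `h1`).
   Transport `ζ` through `t ↦ y ∘ t` (`GC.tops_image`); alternating, `±1`.
4. Relative Stokes for `L`: let `φ` be as in `corner_eval`.  Define `φ' : (Fin m → E) → R` by
   `φ' r = φ (y ∘ r)` if the entries of `r` are in a common face of `L₀`, else `0`.  Then
   `∑_{t ∈ K.tops} ζ t ∑_j (-1)^j φ' (t ∘ δ_j) = 0` by `hst`.  Claim: if `φ' (t ∘ δ_j) ≠ 0` then the hull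
   of `t` is in `P₀`: let `z` be the barycentre of the facet `r = t ∘ δ_j`; `y z` is an interior point of
   the cube: its carrier is `y(r)`; if `(y z) i = 0` (or `1`) then all `(y (r a)) i = 0` (adaptedness
   `h0`, `h1`), and `φ` would vanish.  So `P₀` is a neighbourhood of `z` in `N` (`D.nhd`), points of the
   open simplex `t` close to `z` are in `P₀`, and `K` is adapted to `P₀`.  So the sum only runs over
   `t` in `L₀`, and is the sum for `L`.
5. `corner_eval`.
-/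

open Set Topology

namespace Pool.H54.UB

/-- every face is a carrier -/
theorem EVB_bary {E : Type*} [NormedAddCommGroup E] [NormedSpace ℝ E] (K : GC E) {s : Finset E}
    (hs : s ∈ K.faces) : ∃ x, K.IsCarrier x s := by
  have hc : 0 < (s.card : ℝ) := by exact_mod_cast (K.ne s hs).card_pos
  exact ⟨∑ y ∈ s, ((s.card : ℝ)⁻¹) • y, hs, fun _ => (s.card : ℝ)⁻¹, fun _ _ => inv_pos.2 hc,
    by rw [Finset.sum_const, nsmul_eq_mul, mul_inv_cancel₀ hc.ne'], rfl⟩

/-- points of the open segment from the interior of a face to the opposite vertex -/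
theorem EVB_line {E : Type*} [NormedAddCommGroup E] [NormedSpace ℝ E] (K : GC E) {z u : E}
    {r s : Finset E} (hz : K.IsCarrier z r) (hs : s ∈ K.faces) (hu : u ∉ r)
    (hsr : ∀ x, x ∈ s ↔ x = u ∨ x ∈ r) {η : ℝ} (h0 : 0 < η) (h1 : η < 1) :
    K.IsCarrier ((1 - η) • z + η • u) s := by
  classical
  obtain ⟨-, w, hw, hw1, hwz⟩ := hz
  have hsi : s = insert u r := by
    ext x
    rw [hsr, Finset.mem_insert]
  have hxu : ∀ x ∈ r, x ≠ u := fun x hx h => hu (by rw [← h]; exact hx)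
  refine ⟨hs, fun x => if x = u then η else (1 - η) * w x, ?_, ?_, ?_⟩
  · intro x hx
    dsimp only
    split_ifs with h
    · exact h0
    · exact mul_pos (by linarith) (hw x (((hsr x).1 hx).resolve_left h))
  · have h2 : ∑ x ∈ r, (if x = u then η else (1 - η) * w x) = ∑ x ∈ r, (1 - η) * w x :=
      Finset.sum_congr rfl fun x hx => if_neg (hxu x hx)
    rw [hsi, Finset.sum_insert hu, if_pos rfl, h2, ← Finset.mul_sum, hw1]
    ring
  · have h2 : ∑ x ∈ r, (if x = u then η else (1 - η) * w x) • x = (1 - η) • z := by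
      rw [← hwz, Finset.smul_sum]
      exact Finset.sum_congr rfl fun x hx => by rw [if_neg (hxu x hx), mul_smul]
    show ∑ x ∈ s, (if x = u then η else (1 - η) * w x) • x = _
    rw [hsi, Finset.sum_insert hu, if_pos rfl, h2, add_comm]

section

variable {E : Type*} [NormedAddCommGroup E] [NormedSpace ℝ E] {m : ℕ} {N : Set E} {R : Type*}
  [CommRing R]

theorem EVB_piece (D : EvalData m N R) (K : GC E) (hK : K.space = N)
    (had : ∀ A ∈ D.P, K.Adapted A) {s : Finset E} (hs : s ∈ K.faces) :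
    ∃ A ∈ D.P, convexHull ℝ (s : Set E) ⊆ A := by
  obtain ⟨x, hx⟩ := EVB_bary K hs
  have hxN : x ∈ N := by
    rw [← hK]
    exact Set.mem_biUnion hs hx.mem_hull
  rw [D.cover] at hxN
  obtain ⟨A, hA, hxA⟩ := Set.mem_iUnion₂.1 hxN
  exact ⟨A, hA, GC.adapted_iff.1 (had A hA) x s hx hxA⟩

theorem EVB_wd (D : EvalData m N R) (i : Fin m) {A B : Set E} (hA : A ∈ D.P) (hB : B ∈ D.P)
    {a b : E} (h1 : segment ℝ a b ⊆ A) (h2 : segment ℝ a b ⊆ B) :
    D.φ i A b - D.φ i A a = D.φ i B b - D.φ i B a := by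
  let _ : TopologicalSpace R := ⊥
  have : DiscreteTopology R := ⟨rfl⟩
  have hc : ContinuousOn (fun z => D.φ i A z - D.φ i B z) (segment ℝ a b) := by
    intro x hx
    obtain ⟨U, hU, h⟩ := D.compat i A hA B hB x ⟨h1 hx, h2 hx⟩
    refine ContinuousWithinAt.congr_of_eventuallyEq
      (continuousWithinAt_const (b := D.φ i A x - D.φ i B x)) ?_ rfl
    filter_upwards [mem_nhdsWithin_of_mem_nhds hU, self_mem_nhdsWithin] with z hz hz'
    exact h z ⟨hz, h1 hz', h2 hz'⟩
  have h3 := (convex_segment a b).isPreconnected.constant hc (left_mem_segment ℝ a b)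
    (right_mem_segment ℝ a b)
  linear_combination -h3

theorem EVB_x (D : EvalData m N R) : ∃ x : Fin m → E → E → R, ∀ i, ∀ A ∈ D.P, ∀ a b,
    segment ℝ a b ⊆ A → x i a b = D.φ i A b - D.φ i A a := by
  classical
  refine ⟨fun i a b => if h : ∃ A ∈ D.P, segment ℝ a b ⊆ A then
    D.φ i h.choose b - D.φ i h.choose a else 0, ?_⟩
  intro i A hA a b hab
  have h : ∃ A ∈ D.P, segment ℝ a b ⊆ A := ⟨A, hA, hab⟩
  dsimp only
  rw [dif_pos h]
  exact EVB_wd D i h.choose_spec.1 hA h.choose_spec.2 hab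

theorem EVB_facet (D : EvalData m N R) (K : GC E) (hK : K.space = N) (had : K.Adapted D.P₀)
    (h0 : ∀ i, K.Adapted {v | v ∈ D.P₀ ∧ D.y v i = 0})
    (h1 : ∀ i, K.Adapted {v | v ∈ D.P₀ ∧ D.y v i = 1}) {r s : Finset E} {u : E}
    (hs : s ∈ K.faces) (hr : r.Nonempty) (hu : u ∉ r) (hsr : ∀ x, x ∈ s ↔ x = u ∨ x ∈ r)
    (hrP : convexHull ℝ (r : Set E) ⊆ D.P₀)
    (hr0 : ∀ i, (¬ ∀ x ∈ r, D.y x i = 0) ∧ (¬ ∀ x ∈ r, D.y x i = 1)) :
    convexHull ℝ (s : Set E) ⊆ D.P₀ := by
  have hrf : r ∈ K.faces := K.down s hs r (fun x hx => (hsr x).2 (Or.inr hx)) hr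
  obtain ⟨z, hz⟩ := EVB_bary K hrf
  have hzP : z ∈ D.P₀ := hrP hz.mem_hull
  have hzc : ∀ i, 0 < D.y z i ∧ D.y z i < 1 := by
    intro i
    have h2 : D.y z ∈ D.y '' D.P₀ := mem_image_of_mem _ hzP
    rw [D.img] at h2
    have h3 := h2 i
    refine ⟨lt_of_le_of_ne h3.1 ?_, lt_of_le_of_ne h3.2 ?_⟩
    · intro h4
      have h5 := GC.adapted_iff.1 (h0 i) z r hz ⟨hzP, h4.symm⟩
      exact (hr0 i).1 fun x hx => (h5 (subset_convexHull ℝ _ hx)).2
    · intro h4
      have h5 := GC.adapted_iff.1 (h1 i) z r hz ⟨hzP, h4⟩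
      exact (hr0 i).2 fun x hx => (h5 (subset_convexHull ℝ _ hx)).2
  have hIoo : ∀ᶠ η in 𝓝[>] (0 : ℝ), η ∈ Ioo (0 : ℝ) 1 := Ioo_mem_nhdsGT one_pos
  have ht : Filter.Tendsto (fun η : ℝ => (1 - η) • z + η • u) (𝓝[>] 0) (𝓝[N] z) := by
    rw [tendsto_nhdsWithin_iff]
    constructor
    · have hc : Continuous (fun η : ℝ => (1 - η) • z + η • u) := by fun_prop
      have h2 := hc.tendsto 0
      simp only [sub_zero, one_smul, zero_smul, add_zero] at h2
      exact h2.mono_left nhdsWithin_le_nhds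
    · filter_upwards [hIoo] with η hη
      rw [← hK]
      exact Set.mem_biUnion hs (EVB_line K hz hs hu hsr hη.1 hη.2).mem_hull
  have h2 : ∀ᶠ η in 𝓝[>] (0 : ℝ), (1 - η) • z + η • u ∈ D.P₀ := ht (D.nhd z hzP hzc)
  obtain ⟨η, h3, h4⟩ := (h2.and hIoo).exists
  exact GC.adapted_iff.1 had _ s (EVB_line K hz hs hu hsr h4.1 h4.2) h3

end

theorem EvalData.eval_ne_zero {E : Type*} [NormedAddCommGroup E] [NormedSpace ℝ E]
    [FiniteDimensional ℝ E] {m : ℕ} {N : Set E} {R : Type*} [Field R] (D : EvalData m N R)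
    (hR : (((m + 1).factorial : ℕ) : R) ≠ 0) (K : GC E) (hK : K.space = N)
    (had : ∀ A ∈ D.P, K.Adapted A)
    (hy : ∀ s ∈ K.faces, convexHull ℝ (s : Set E) ⊆ D.P₀ → AffOn D.y (convexHull ℝ (s : Set E)))
    (h0 : ∀ i, K.Adapted {v | v ∈ D.P₀ ∧ D.y v i = 0})
    (h1 : ∀ i, K.Adapted {v | v ∈ D.P₀ ∧ D.y v i = 1})
    (ζ : (Fin (m + 1) → E) → ℤ) (hζ : ∀ t ∈ K.tops m, ζ t = 1 ∨ ζ t = -1)
    (halt : ∀ t ∈ K.tops m, ∀ π : Equiv.Perm (Fin (m + 1)),
        ζ (t ∘ π) = (Equiv.Perm.sign π : ℤ) * ζ t)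
    (hst : ∀ φ : (Fin m → E) → R,
        ∑ t ∈ K.tops m, (ζ t : R) * ∑ j : Fin (m + 1), (-1) ^ (j : ℕ) * φ (t ∘ j.succAbove) = 0) :
    ∃ x : Fin m → E → E → R,
      (∀ i, ∀ s ∈ K.faces, ∀ a ∈ s, ∀ b ∈ s, ∀ d ∈ s, x i a b + x i b d = x i a d) ∧
      ∑ t ∈ K.tops m, (ζ t : R) * ∏ i : Fin m, x i (t i.castSucc) (t i.succ) ≠ 0 := by
  classical
  obtain ⟨x, hx⟩ := EVB_x D
  have hseg : ∀ (s : Finset E) (A : Set E), convexHull ℝ (s : Set E) ⊆ A →
      ∀ a ∈ s, ∀ b ∈ s, segment ℝ a b ⊆ A := fun s A hsA a ha b hb =>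
    (segment_subset_convexHull (Finset.mem_coe.2 ha) (Finset.mem_coe.2 hb)).trans hsA
  refine ⟨x, ?_, ?_⟩
  · intro i s hs a ha b hb d hd
    obtain ⟨A, hA, hsA⟩ := EVB_piece D K hK had hs
    rw [hx i A hA a b (hseg s A hsA a ha b hb), hx i A hA b d (hseg s A hsA b hb d hd),
      hx i A hA a d (hseg s A hsA a ha d hd)]
    ring
  -- the subcomplex in `P₀`
  have hP0 := had D.P₀ D.mem₀
  obtain ⟨L₀, hL₀f, hL₀s, hL₀a⟩ := K.restrict D.P₀ hP0
  have hPN : D.P₀ ⊆ N := by
    intro v hv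
    rw [D.cover]
    exact Set.mem_biUnion D.mem₀ hv
  have hL₀P : L₀.space = D.P₀ := by
    rw [hL₀s, hK]
    exact inter_eq_right.2 hPN
  have hinj : InjOn D.y L₀.space := by
    rw [hL₀P]
    exact D.inj
  obtain ⟨L, hLf, hLs, hLc, hLh⟩ := L₀.image_complex D.y
    (fun s hs => hy s ((hL₀f s).1 hs).1 ((hL₀f s).1 hs).2) hinj
  obtain ⟨hT1, hT2, hT3⟩ := GC.tops_image (L := L₀) (L' := L) (h := D.y) hinj hLf m
  have hspace : L.space = {z | ∀ i, 0 ≤ z i ∧ z i ≤ 1} := by
    rw [hLs, hL₀P, D.img]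
  -- adaptedness
  have hadL : ∀ (i : Fin m) (c : ℝ), K.Adapted {v | v ∈ D.P₀ ∧ D.y v i = c} →
      L.Adapted {z | (∀ i, 0 ≤ z i ∧ z i ≤ 1) ∧ z i = c} := by
    intro i c hc
    rw [GC.adapted_iff]
    rintro x' s' hs' ⟨hx'c, hx'i⟩
    have hx's : x' ∈ D.y '' D.P₀ := by
      rw [D.img]
      exact hx'c
    obtain ⟨v, hv, rfl⟩ := hx's
    have hv' : v ∈ L₀.space := by
      rw [hL₀P]
      exact hv
    obtain ⟨s, hs⟩ := GC.exists_carrier' hv'
    have h2 := hLc v s hs (s.image D.y) (by rw [Finset.coe_image])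
    have h3 : s' = s.image D.y := GC.carrier_unique hs' h2
    have h4 := GC.adapted_iff.1 (hL₀a _ hc) v s hs ⟨hv, hx'i⟩
    rw [h3, Finset.coe_image, ← hLh s hs.1]
    rintro _ ⟨w, hw, rfl⟩
    obtain ⟨hw1, hw2⟩ := h4 hw
    have h5 : D.y w ∈ D.y '' D.P₀ := mem_image_of_mem _ hw1
    rw [D.img] at h5
    exact ⟨h5, hw2⟩
  -- transport
  obtain ⟨g, hg⟩ : ∃ g : (Fin m → ℝ) → E, ∀ v ∈ D.P₀, g (D.y v) = v :=
    ⟨Function.invFunOn D.y D.P₀, D.inj.leftInvOn_invFunOn⟩
  have hTP : ∀ t ∈ L₀.tops m, ∀ a, t a ∈ D.P₀ := by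
    intro t ht a
    obtain ⟨-, s, hs, hts⟩ := GC.mem_tops.1 ht
    exact ((hL₀f s).1 hs).2 (subset_convexHull ℝ _ (hts a))
  have hTg : ∀ t ∈ L₀.tops m, (fun a => g (D.y (t a))) = t := fun t ht =>
    funext fun a => hg _ (hTP t ht a)
  have hsum : ∀ F : (Fin (m + 1) → (Fin m → ℝ)) → R,
      ∑ t' ∈ L.tops m, (ζ (fun a => g (t' a)) : R) * F t' =
        ∑ t ∈ L₀.tops m, (ζ t : R) * F (fun a => D.y (t a)) := by
    intro F
    symm
    refine Finset.sum_bij (fun t _ => fun a => D.y (t a)) hT1 (fun t ht t' ht' h => hT3 ht ht' h)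
      (fun t' ht' => ?_) (fun t ht => ?_)
    · obtain ⟨t, ht, h⟩ := hT2 t' ht'
      exact ⟨t, ht, h⟩
    · rw [hTg t ht]
  have hsub : L₀.tops m ⊆ K.tops m := by
    intro t ht
    obtain ⟨h2, s, hs, hts⟩ := GC.mem_tops.1 ht
    exact GC.mem_tops.2 ⟨h2, s, ((hL₀f s).1 hs).1, hts⟩
  -- relative Stokes
  have hst' : 0 < m → ∀ φ : (Fin m → (Fin m → ℝ)) → R,
      (∀ r : Fin m → (Fin m → ℝ), (∃ i, (∀ a, r a i = 0) ∨ (∀ a, r a i = 1)) → φ r = 0) →
        ∑ t ∈ L.tops m, (ζ (fun a => g (t a)) : R) *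
          ∑ j : Fin (m + 1), (-1) ^ (j : ℕ) * φ (t ∘ j.succAbove) = 0 := by
    intro hm φ hφ
    rw [hsum (fun t => ∑ j : Fin (m + 1), (-1) ^ (j : ℕ) * φ (t ∘ j.succAbove)),
      ← hst (fun r => if L₀.Tup r then φ (fun a => D.y (r a)) else 0),
      ← Finset.sum_subset hsub]
    · refine Finset.sum_congr rfl fun t ht => ?_
      congr 1
      refine Finset.sum_congr rfl fun j _ => ?_
      have h2 : L₀.Tup (t ∘ j.succAbove) := by
        obtain ⟨-, s, hs, hts⟩ := GC.mem_tops.1 ht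
        exact ⟨s, hs, fun a => hts _⟩
      rw [if_pos h2]
      rfl
    · intro t ht hnt
      refine mul_eq_zero_of_right _ (Finset.sum_eq_zero fun j _ => mul_eq_zero_of_right _ ?_)
      split_ifs with h2
      · by_contra h3
        apply hnt
        obtain ⟨hti, s₁, hs₁, hts₁⟩ := GC.mem_tops.1 ht
        obtain ⟨s₂, hs₂, hts₂⟩ := h2
        have hsf : Finset.univ.image t ∈ K.faces := by
          refine K.down s₁ hs₁ _ ?_ ⟨t 0, Finset.mem_image_of_mem _ (Finset.mem_univ _)⟩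
          intro v hv
          obtain ⟨a, -, rfl⟩ := Finset.mem_image.1 hv
          exact hts₁ a
        have h4 : convexHull ℝ ((Finset.univ.image t : Finset E) : Set E) ⊆ D.P₀ := by
          refine EVB_facet D K hK hP0 h0 h1 (r := Finset.univ.image (t ∘ j.succAbove)) (u := t j)
            hsf ?_ ?_ ?_ ?_ ?_
          · exact ⟨_, Finset.mem_image_of_mem _ (Finset.mem_univ (⟨0, hm⟩ : Fin m))⟩
          · intro h5
            obtain ⟨a, -, ha⟩ := Finset.mem_image.1 h5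
            exact Fin.succAbove_ne j a (hti ha)
          · intro v
            constructor
            · intro hv
              obtain ⟨b, -, rfl⟩ := Finset.mem_image.1 hv
              by_cases hbj : b = j
              · exact Or.inl (by rw [hbj])
              · obtain ⟨a, rfl⟩ := Fin.exists_succAbove_eq hbj
                exact Or.inr (Finset.mem_image.2 ⟨a, Finset.mem_univ _, rfl⟩)
            · rintro (rfl | hv)
              · exact Finset.mem_image_of_mem _ (Finset.mem_univ _)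
              · obtain ⟨a, -, rfl⟩ := Finset.mem_image.1 hv
                exact Finset.mem_image_of_mem _ (Finset.mem_univ _)
          · refine (convexHull_mono ?_).trans ((hL₀f s₂).1 hs₂).2
            intro v hv
            obtain ⟨a, -, rfl⟩ := Finset.mem_image.1 (Finset.mem_coe.1 hv)
            exact hts₂ a
          · intro i
            constructor
            · intro h5
              exact h3 (hφ _ ⟨i, Or.inl fun a => h5 _ (Finset.mem_image.2 ⟨a, Finset.mem_univ _, rfl⟩)⟩)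
            · intro h5
              exact h3 (hφ _ ⟨i, Or.inr fun a => h5 _ (Finset.mem_image.2 ⟨a, Finset.mem_univ _, rfl⟩)⟩)
        exact GC.mem_tops.2 ⟨hti, _, (hL₀f _).2 ⟨hsf, h4⟩,
          fun a => Finset.mem_image_of_mem _ (Finset.mem_univ _)⟩
      · rfl
  have key := corner_eval m hR L hspace (fun i => hadL i 0 (h0 i)) (fun i => hadL i 1 (h1 i))
    (fun t' => ζ (fun a => g (t' a))) (by
      intro t' ht'
      obtain ⟨t, ht, rfl⟩ := hT2 t' ht'
      dsimp only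
      rw [hTg t ht]
      exact hζ t (hsub ht)) (by
      intro t' ht' π
      obtain ⟨t, ht, rfl⟩ := hT2 t' ht'
      have h2 : (fun a => g (((fun i => D.y (t i)) ∘ π) a)) = t ∘ π :=
        funext fun a => hg _ (hTP t ht _)
      dsimp only
      rw [h2, hTg t ht]
      exact halt t (hsub ht) π) hst'
  rw [hsum (fun t => ∏ i : Fin m,
      ((if t i.succ i = 1 then (1 : R) else 0) - (if t i.castSucc i = 1 then (1 : R) else 0)))] at key
  rw [← Finset.sum_subset hsub]
  · convert key using 1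
    refine Finset.sum_congr rfl fun t ht => ?_
    congr 1
    refine Finset.prod_congr rfl fun i _ => ?_
    have hφ : ∀ v ∈ D.P₀, D.φ i D.P₀ v = if D.y v i = 1 then 1 else 0 := by
      intro v hv
      split_ifs with h
      · exact (D.wall i v hv).1 h
      · exact (D.wall i v hv).2 h
    obtain ⟨-, s, hs, hts⟩ := GC.mem_tops.1 ht
    rw [hx i D.P₀ D.mem₀ _ _ (hseg s D.P₀ ((hL₀f s).1 hs).2 _ (hts _) _ (hts _)),
      hφ _ (hTP t ht _), hφ _ (hTP t ht _)]
  · intro t ht hnt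
    obtain ⟨hti, s, hs, hts⟩ := GC.mem_tops.1 ht
    obtain ⟨A, hA, hsA⟩ := EVB_piece D K hK had hs
    have hAP : A ≠ D.P₀ := by
      rintro rfl
      exact hnt (GC.mem_tops.2 ⟨hti, s, (hL₀f s).2 ⟨hs, hsA⟩, hts⟩)
    obtain ⟨i, hi⟩ := D.off A hA hAP
    refine mul_eq_zero_of_right _ (Finset.prod_eq_zero (Finset.mem_univ i) ?_)
    rw [hx i A hA _ _ (hseg s A hsA _ (hts _) _ (hts _)), sub_eq_zero]
    exact hi _ (hsA (subset_convexHull ℝ _ (hts _))) _ (hsA (subset_convexHull ℝ _ (hts _)))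

end Pool.H54.UB
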