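import Pool.Agent.H54.UB.TUB

/-!
# Row EVC: evaluation data with an index type and a distinguished cube

`EvC m N R`: like `EvalData m N R`, the pieces are `A a`, `a` in a finite index type, with local
primitives `φ i a`; moreover a PL cube `κ` in `N` disjoint from the distinguished piece `A o` on which all
`φ i a` are locally constant.

* `restrict`: pieces `D.A a ∩ Y`, everything else unchanged (`IsPoly.inter`; `D.A D.o ∩ Y = D.A D.o`).
* `map`: transport by a linear equivalence `L`: pieces `L '' D.A a`, functions composed with `L.symm`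
  (`PLOn.comp_affine` / `IsPoly.image_affine` for `L` as an affine map).
* `toEvalData`: `P` is the image of `A`; for `S ∈ P` choose the index `o` if `S = A o`, any index with
  `A a = S` otherwise; `φ i S` is `φ i` of that index.
-/

open Set Topology Metric

namespace Pool.H54.UB

variable {E F : Type*} [NormedAddCommGroup E] [NormedSpace ℝ E]
  [NormedAddCommGroup F] [NormedSpace ℝ F]

structure EvC (m : ℕ) (N : Set E) (R : Type*) [CommRing R] where
  ι : Type
  fin : Finite ι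
  A : ι → Set E
  poly : ∀ a, IsPoly (A a)
  cover : N = ⋃ a, A a
  φ : Fin m → ι → E → R
  compat : ∀ i a b, ∀ x ∈ A a ∩ A b, ∃ U ∈ 𝓝 x, ∀ y ∈ U ∩ (A a ∩ A b),
    φ i a y - φ i b y = φ i a x - φ i b x
  o : ι
  y : E → Fin m → ℝ
  pl : PLOn y (A o)
  inj : InjOn y (A o)
  img : y '' A o = {z | ∀ i, 0 ≤ z i ∧ z i ≤ 1}
  nhd : ∀ v ∈ A o, (∀ i, 0 < y v i ∧ y v i < 1) → A o ∈ 𝓝[N] v
  wall : ∀ i, ∀ v ∈ A o, (y v i = 1 → φ i o v = 1) ∧ (y v i ≠ 1 → φ i o v = 0)
  off : ∀ a, a ≠ o → ∃ i, ∀ x ∈ A a, ∀ x' ∈ A a, φ i a x = φ i a x'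
  κ : (Fin m → ℝ) → E
  cube : CubeT m N κ
  lc : ∀ i a, ∀ u ∈ closedBall (0 : Fin m → ℝ) 2, κ u ∈ A a → ∃ U ∈ 𝓝 u,
    ∀ u' ∈ U ∩ closedBall (0 : Fin m → ℝ) 2, κ u' ∈ A a → φ i a (κ u') = φ i a (κ u)
  disj : ∀ u ∈ closedBall (0 : Fin m → ℝ) 2, κ u ∉ A o

variable [FiniteDimensional ℝ E] [FiniteDimensional ℝ F]

theorem EvC.restrict {m : ℕ} {N : Set E} {R : Type*} [CommRing R] (D : EvC m N R) {Y : Set E}
    (hY : IsPoly Y) (hYN : Y ⊆ N) (ho : D.A D.o ⊆ Y)
    (hκ : MapsTo D.κ (closedBall (0 : Fin m → ℝ) 2) Y) :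
    ∃ D' : EvC m Y R, D'.ι = D.ι ∧ (∀ v, D'.κ v = D.κ v) ∧ D'.A D'.o = D.A D.o ∧
      ∀ a' : D'.ι, ∃ a : D.ι, D'.A a' = D.A a ∩ Y ∧ ∀ i x, D'.φ i a' x = D.φ i a x := by
  have hoY : D.A D.o ∩ Y = D.A D.o := inter_eq_left.2 ho
  refine ⟨
    { ι := D.ι
      fin := D.fin
      A := fun a => D.A a ∩ Y
      poly := fun a => (D.poly a).inter hY
      cover := ?_
      φ := D.φ
      compat := ?_
      o := D.o
      y := D.y
      pl := ?_
      inj := D.inj.mono inter_subset_left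
      img := ?_
      nhd := ?_
      wall := fun i v hv => D.wall i v hv.1
      off := ?_
      κ := D.κ
      cube := D.cube.mono hYN hκ
      lc := ?_
      disj := fun u hu h => D.disj u hu h.1 }, rfl, fun _ => rfl, hoY, fun a' => ⟨a', rfl, fun _ _ => rfl⟩⟩
  · rw [← iUnion_inter, ← D.cover, inter_eq_right.2 hYN]
  · intro i a b x hx
    obtain ⟨U, hU, h⟩ := D.compat i a b x ⟨hx.1.1, hx.2.1⟩
    exact ⟨U, hU, fun z hz => h z ⟨hz.1, hz.2.1.1, hz.2.2.1⟩⟩
  · rw [hoY]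
    exact D.pl
  · rw [hoY]
    exact D.img
  · intro v hv hy
    exact Filter.inter_mem (nhdsWithin_mono v hYN (D.nhd v hv.1 hy)) self_mem_nhdsWithin
  · intro a ha
    obtain ⟨i, hi⟩ := D.off a ha
    exact ⟨i, fun x hx x' hx' => hi x hx.1 x' hx'.1⟩
  · intro i a u hu hua
    obtain ⟨U, hU, h⟩ := D.lc i a u hu hua.1
    exact ⟨U, hU, fun u' hu' hu'a => h u' hu' hu'a.1⟩

theorem EVC_mem (L : E ≃L[ℝ] F) {S : Set E} {x : F} : x ∈ L '' S ↔ L.symm x ∈ S := by
  constructor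
  · rintro ⟨p, hp, rfl⟩
    rw [L.symm_apply_apply]
    exact hp
  · intro h
    exact ⟨L.symm x, h, L.apply_symm_apply x⟩

theorem EVC_nhds (L : E ≃L[ℝ] F) {S N : Set E} {p : E} (h : S ∈ 𝓝[N] p) :
    L '' S ∈ 𝓝[L '' N] (L p) := by
  have h1 : 𝓝[L '' N] (L p) = Filter.map L (𝓝[N] p) :=
    (L.toHomeomorph.isEmbedding.map_nhdsWithin_eq N p).symm
  rw [h1]
  exact Filter.image_mem_map h

theorem EvC.map {m : ℕ} {N : Set E} {R : Type*} [CommRing R] (D : EvC m N R) (L : E ≃L[ℝ] F) :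
    Nonempty (EvC m (L '' N) R) := by
  obtain ⟨A, hA⟩ : ∃ A : E →ᵃ[ℝ] F, ∀ v, A v = L v :=
    ⟨(L : E →ₗ[ℝ] F).toAffineMap, fun _ => rfl⟩
  obtain ⟨B, hB⟩ : ∃ B : F →ᵃ[ℝ] E, ∀ v, B v = L.symm v :=
    ⟨(L.symm : F →ₗ[ℝ] E).toAffineMap, fun _ => rfl⟩
  have hpoly : ∀ S : Set E, IsPoly S → IsPoly (L '' S) := by
    intro S hS
    have h1 := hS.image_affine A
    have h2 : A '' S = L '' S := image_congr fun v _ => hA v
    rwa [h2] at h1
  refine ⟨
    { ι := D.ι
      fin := D.fin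
      A := fun a => L '' D.A a
      poly := fun a => hpoly _ (D.poly a)
      cover := ?_
      φ := fun i a x => D.φ i a (L.symm x)
      compat := ?_
      o := D.o
      y := fun x => D.y (L.symm x)
      pl := ?_
      inj := ?_
      img := ?_
      nhd := ?_
      wall := ?_
      off := ?_
      κ := fun v => L (D.κ v)
      cube := ?_
      lc := ?_
      disj := ?_ }⟩
  · rw [← image_iUnion, ← D.cover]
  · rintro i a b x ⟨hxa, hxb⟩
    rw [EVC_mem] at hxa hxb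
    obtain ⟨U, hU, h⟩ := D.compat i a b (L.symm x) ⟨hxa, hxb⟩
    refine ⟨L.symm ⁻¹' U, L.symm.continuous.continuousAt.preimage_mem_nhds hU, ?_⟩
    rintro z ⟨hz, hza, hzb⟩
    rw [EVC_mem] at hza hzb
    exact h (L.symm z) ⟨hz, hza, hzb⟩
  · have h1 : PLOn B (L '' D.A D.o) := PLOn.affine B (hpoly _ (D.poly D.o))
    have h2 : MapsTo B (L '' D.A D.o) (D.A D.o) := by
      intro x hx
      rw [hB]
      exact (EVC_mem L).1 hx
    refine (D.pl.comp h1 h2).congr fun x _ => ?_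
    show D.y (B x) = D.y (L.symm x)
    rw [hB]
  · intro x hx x' hx' e
    exact L.symm.injective (D.inj ((EVC_mem L).1 hx) ((EVC_mem L).1 hx') e)
  · rw [← D.img, image_image]
    refine image_congr fun v _ => ?_
    rw [L.symm_apply_apply]
  · intro v hv hy
    have h1 := EVC_nhds L (D.nhd (L.symm v) ((EVC_mem L).1 hv) hy)
    rwa [L.apply_symm_apply] at h1
  · intro i v hv
    exact D.wall i (L.symm v) ((EVC_mem L).1 hv)
  · intro a ha
    obtain ⟨i, hi⟩ := D.off a ha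
    exact ⟨i, fun x hx x' hx' => hi _ ((EVC_mem L).1 hx) _ ((EVC_mem L).1 hx')⟩
  · refine ⟨?_, ?_, ?_, ?_⟩
    · refine (D.cube.pl.affine_comp A).congr fun v _ => ?_
      exact hA _
    · intro u hu u' hu' e
      exact D.cube.inj hu hu' (L.injective e)
    · intro u hu
      exact ⟨D.κ u, D.cube.maps hu, rfl⟩
    · intro p hp
      have h1 := EVC_nhds L (D.cube.nhd p hp)
      rwa [image_image] at h1
  · intro i a u hu hua
    rw [EVC_mem, L.symm_apply_apply] at hua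
    obtain ⟨U, hU, h⟩ := D.lc i a u hu hua
    refine ⟨U, hU, fun u' hu' hu'a => ?_⟩
    rw [EVC_mem, L.symm_apply_apply] at hu'a
    show D.φ i a (L.symm (L (D.κ u'))) = D.φ i a (L.symm (L (D.κ u)))
    rw [L.symm_apply_apply, L.symm_apply_apply]
    exact h u' hu' hu'a
  · intro u hu h
    rw [EVC_mem, L.symm_apply_apply] at h
    exact D.disj u hu h

theorem EvC.toEvalData {m : ℕ} {N : Set E} {R : Type*} [CommRing R] (D : EvC m N R) :
    Nonempty (EvalData m N R) := by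
  classical
  have hf : Finite D.ι := D.fin
  obtain ⟨idx, hidx1, hidx2⟩ : ∃ idx : Set E → D.ι, idx (D.A D.o) = D.o ∧
      ∀ a, D.A (idx (D.A a)) = D.A a := by
    refine ⟨fun S => if S = D.A D.o then D.o else
      if h : ∃ a, D.A a = S then h.choose else D.o, ?_, ?_⟩
    · simp only [if_true]
    · intro a
      by_cases h : D.A a = D.A D.o
      · simp only [if_pos h]
        exact h.symm
      · have h2 : ∃ b, D.A b = D.A a := ⟨a, rfl⟩
        simp only [if_neg h, dif_pos h2]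
        exact h2.choose_spec
  have hfr : (range D.A).Finite := finite_range D.A
  have hP : ∀ S, S ∈ hfr.toFinset ↔ ∃ a, D.A a = S := fun S => by
    rw [Set.Finite.mem_toFinset, mem_range]
  have hP2 : ∀ S, S ∈ hfr.toFinset → D.A (idx S) = S := by
    intro S hS
    obtain ⟨a, rfl⟩ := (hP S).1 hS
    exact hidx2 a
  refine ⟨
    { P := hfr.toFinset
      poly := ?_
      cover := ?_
      φ := fun i S => D.φ i (idx S)
      compat := ?_
      P₀ := D.A D.o
      mem₀ := (hP _).2 ⟨D.o, rfl⟩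
      y := D.y
      pl := D.pl
      inj := D.inj
      img := D.img
      nhd := D.nhd
      wall := ?_
      off := ?_ }⟩
  · intro S hS
    obtain ⟨a, rfl⟩ := (hP S).1 hS
    exact D.poly a
  · refine D.cover.trans ?_
    ext x
    rw [mem_iUnion, mem_iUnion₂]
    constructor
    · rintro ⟨a, ha⟩
      exact ⟨D.A a, (hP _).2 ⟨a, rfl⟩, ha⟩
    · rintro ⟨S, hS, hx⟩
      obtain ⟨a, rfl⟩ := (hP S).1 hS
      exact ⟨a, hx⟩
  · intro i S hS T hT x hx
    have e1 := hP2 S hS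
    have e2 := hP2 T hT
    have h := D.compat i (idx S) (idx T) x (by rw [e1, e2]; exact hx)
    rw [e1, e2] at h
    exact h
  · intro i v hv
    show (D.y v i = 1 → D.φ i (idx (D.A D.o)) v = 1) ∧ (D.y v i ≠ 1 → D.φ i (idx (D.A D.o)) v = 0)
    rw [hidx1]
    exact D.wall i v hv
  · intro S hS hne
    have e1 := hP2 S hS
    have h1 : idx S ≠ D.o := by
      intro e
      apply hne
      rw [← e1, e]
    obtain ⟨i, hi⟩ := D.off (idx S) h1
    rw [e1] at hi
    exact ⟨i, hi⟩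

end Pool.H54.UB
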