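import Pool.Agent.H54.UB.GD

/-!
# Row TRI: the triangulation theorem

Proof.  `X` is bounded, so it lies in a big simplex `convexHull s₀` (`exists_big_simplex`); start from
`GC.ofSimplex s₀`.  Decompose `X` and all the `A ∈ Y` into simplices (`IsPoly.exists_simplices`),
collect in a list all the functionals that describe these simplices (`simplex_halfspaces`), and
refine (`GC.refine_list`).  By `GC.adapted_halfspaces` all the simplices are adapted, hence
(`GC.Adapted.union`, finite unions) `X` and all the `A ∈ Y` are adapted.  Finally restrict to the faces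
contained in `X` (`GC.restrict`); the space is `convexHull s₀ ∩ X = X`.

`triang_over`: same, starting from a given complex (a common refinement): every face of the new
complex is contained in the hull of a face of `K`: apply `GC.refine_list` to `K` itself instead of the
big simplex.
-/

open Set Topology

namespace Pool.H54.UB

variable {E : Type*} [NormedAddCommGroup E] [NormedSpace ℝ E] [FiniteDimensional ℝ E]

/-- finitely many functionals describe the simplices of a compact polyhedron -/
theorem TRI_funs (A : Set E) (hA : IsPoly A) :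
    ∃ L : List (E →ᵃ[ℝ] ℝ), ∀ K : GC E, (∀ B ∈ L, K.NoCross B) → K.Adapted A := by
  obtain ⟨S, hS, hS2⟩ := hA.exists_simplices
  have hunion : ∀ T : Finset (Finset E), T ⊆ S →
      ∃ L : List (E →ᵃ[ℝ] ℝ), ∀ K : GC E, (∀ B ∈ L, K.NoCross B) →
        K.Adapted (⋃ s ∈ T, convexHull ℝ (s : Set E)) := by
    classical
    intro T
    induction T using Finset.induction_on with
    | empty =>
      intro _
      refine ⟨[], fun K _ => ?_⟩
      intro s hs w hw hw1 hmem
      simp at hmem
    | insert s T hs ih =>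
      intro hT
      obtain ⟨L, hL⟩ := ih (fun t ht => hT (Finset.mem_insert_of_mem ht))
      obtain ⟨hne, hind⟩ := hS2 s (hT (Finset.mem_insert_self s T))
      obtain ⟨n, B, hB⟩ := simplex_halfspaces s hne hind
      refine ⟨List.ofFn B ++ L, fun K hK => ?_⟩
      rw [Finset.set_biUnion_insert]
      refine GC.Adapted.union ?_ (hL K fun C hC => hK C (List.mem_append_right _ hC))
      rw [hB]
      exact GC.adapted_halfspaces B fun i => hK (B i) (List.mem_append_left _
        ((List.mem_ofFn' B (B i)).2 ⟨i, rfl⟩))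
  obtain ⟨L, hL⟩ := hunion S subset_rfl
  refine ⟨L, fun K hK => ?_⟩
  rw [hS]
  exact hL K hK

theorem TRI_list (Y : Finset (Set E)) (hY : ∀ A ∈ Y, IsPoly A) :
    ∃ L : List (E →ᵃ[ℝ] ℝ), ∀ K : GC E, (∀ B ∈ L, K.NoCross B) → ∀ A ∈ Y, K.Adapted A := by
  classical
  induction Y using Finset.induction_on with
  | empty => exact ⟨[], fun K _ A hA => absurd hA (Finset.notMem_empty A)⟩
  | insert A Y hA ih =>
    obtain ⟨L, hL⟩ := ih (fun B hB => hY B (Finset.mem_insert_of_mem hB))
    obtain ⟨L', hL'⟩ := TRI_funs A (hY A (Finset.mem_insert_self A Y))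
    refine ⟨L ++ L', fun K hK B hB => ?_⟩
    rcases Finset.mem_insert.1 hB with rfl | hB
    · exact hL' K fun C hC => hK C (List.mem_append_right _ hC)
    · exact hL K (fun C hC => hK C (List.mem_append_left _ hC)) B hB

theorem triang_over (K : GC E) (Y : Finset (Set E)) (hY : ∀ A ∈ Y, IsPoly A) :
    ∃ K' : GC E, K'.space = K.space ∧
      (∀ s ∈ K'.faces, ∃ s' ∈ K.faces, convexHull ℝ (s : Set E) ⊆ convexHull ℝ (s' : Set E)) ∧
      ∀ A ∈ Y, K'.Adapted A := by
  obtain ⟨L, hL⟩ := TRI_list Y hY
  obtain ⟨K', h1, h2, h3⟩ := K.refine_list L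
  exact ⟨K', h1, h2, hL K' h3⟩

theorem triang (X : Set E) (hX : IsPoly X) (Y : Finset (Set E))
    (hY : ∀ A ∈ Y, IsPoly A ∧ A ⊆ X) :
    ∃ K : GC E, K.space = X ∧ ∀ A ∈ Y, K.Adapted A := by
  classical
  obtain ⟨s₀, hne, hind, hsub⟩ := exists_big_simplex hX.isCompact.isBounded
  obtain ⟨K₀, -, hK₀⟩ := GC.ofSimplex s₀ hind
  have hY' : ∀ A ∈ insert X Y, IsPoly A := by
    intro A hA
    rcases Finset.mem_insert.1 hA with rfl | hA
    · exact hX
    · exact (hY A hA).1
  obtain ⟨K₁, h1, -, h3⟩ := triang_over K₀ (insert X Y) hY'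
  obtain ⟨K₂, -, h5, h6⟩ := K₁.restrict X (h3 X (Finset.mem_insert_self X Y))
  refine ⟨K₂, ?_, fun A hA => h6 A (h3 A (Finset.mem_insert_of_mem hA))⟩
  rw [h5, h1, hK₀ hne]
  exact Set.inter_eq_self_of_subset_right hsub

end Pool.H54.UB
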