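import Pool.Agent.H54.UB.MBG
import Pool.Agent.H54.UB.TRI
import Pool.Agent.H54.UB.BAR
import Pool.Agent.H54.UB.PF

/-!
# Row GLU: PL extension and abstract gluing

* `pl_extend`: triangulate `A` adapted to `D` and to the pieces of `f` on `D` (`PLOn.pieces`, `triang`);
  `g x = ∑_v β_v x • g₀ v` over the vertices, `β` from `GC.bary`, `g₀ v = f v` if `v ∈ D`, else `0`.
  On a face contained in a piece of `D` on which `f` is affine all vertices are in `D`, so `g = f`.
  `g` is affine on every face: PL (`PLOn.of_pieces`).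
* `pl_bump`: triangulate `A` adapted to `D`;
  `u x = max over the faces τ with convexHull τ ⊄ D of (min over v ∈ τ of β_v x)` (`0` if there is no such
  face).  If `x ∉ D` its carrier `τ` is such a face and the minimum is positive.  If `x ∈ D` and `τ` is
  such a face, then `τ` is not contained in the carrier `s` of `x` (`convexHull s ⊆ D`), so there is
  `v ∈ τ` with `β_v x = 0`.  PL by `PLOn.sup'`, `PLOn.inf'`, and `β_v` is affine on the faces.
* `glue_embed`: `jA x = (x, Φ x, u_A x)`, `jB y = (Ψ y, y, - u_B y)`, `Ψ` extends `φ` from `D_B` to `B`, `Φ`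
  extends the inverse of `φ` (`PLOn.symm`) from `D_A` to `A`; `u_A, u_B` bumps vanishing exactly on `D_A`,
  `D_B`.  If `jA x = jB y` then `u_A x = - u_B y`, so both are `0`, `x ∈ D_A`, `y ∈ D_B`, `x = Ψ y = φ y`.
* `glue_mfd`: for `x` in the image of `A \ D_A`: `jA(A) ∪ jB(B)` agrees with `jA(A)` near `jA x` (`jB(B)` is
  closed and does not contain it): `IntPt.image`, `IntPt.congr_nhds`.  On the common boundary:
  `BdPt.image` for both sides and `BdPt.glue`.
-/

open Set Topology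

namespace Pool.H54.UB

variable {E F : Type*} [NormedAddCommGroup E] [NormedSpace ℝ E] [FiniteDimensional ℝ E]
  [NormedAddCommGroup F] [NormedSpace ℝ F] [FiniteDimensional ℝ F]

/-- affine maps and convex combinations -/
theorem GLU_affcomb (A : E →ᵃ[ℝ] F) (s : Finset E) (w : E → ℝ) (h1 : ∑ u ∈ s, w u = 1) :
    A (∑ u ∈ s, w u • u) = ∑ u ∈ s, w u • A u := by
  have hA : ∀ x, A x = A.linear x + A 0 := by
    intro x
    have := A.decomp
    exact congrFun this x
  rw [hA, map_sum]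
  have h2 : ∀ u ∈ s, w u • A u = A.linear (w u • u) + w u • A 0 := by
    intro u _
    rw [hA u, smul_add, map_smul]
  rw [Finset.sum_congr rfl h2, Finset.sum_add_distrib, ← Finset.sum_smul, h1, one_smul]

theorem GLU_sum {ι : Type*} (s : Finset ι) {f : ι → E → F} {X : Set E} (hX : IsPoly X)
    (h : ∀ i ∈ s, PLOn (f i) X) : PLOn (fun x => ∑ i ∈ s, f i x) X := by
  classical
  induction s using Finset.induction_on with
  | empty =>
    refine (PLOn.const hX (0 : F)).congr ?_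
    intro x _
    simp
  | insert i s hi ih =>
    have h1 := (h i (Finset.mem_insert_self i s)).add
      (ih (fun j hj => h j (Finset.mem_insert_of_mem hj)))
    refine h1.congr ?_
    intro x _
    simp [Finset.sum_insert hi]

theorem GLU_plOn (K : GC E) {f : E → F}
    (h : ∀ s ∈ K.faces, AffOn f (convexHull ℝ (s : Set E))) : PLOn f K.space := by
  have h1 := PLOn.of_pieces (f := f) K.fin.toFinset (fun s hs => h s (K.fin.mem_toFinset.1 hs))
  have h2 : (⋃ s ∈ K.fin.toFinset, convexHull ℝ (s : Set E)) = K.space := by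
    unfold GC.space
    ext x
    simp
  rwa [h2] at h1

theorem pl_extend {A D : Set E} (hA : IsPoly A) (hDA : D ⊆ A) {f : E → F} (hf : PLOn f D) :
    ∃ g : E → F, PLOn g A ∧ EqOn g f D := by
  classical
  obtain ⟨S, hS, hS2⟩ := hf.pieces
  obtain ⟨K, hK, hK2⟩ := triang A hA (S.image (fun s : Finset E => convexHull ℝ (s : Set E))) (by
    intro B hB
    obtain ⟨s, hs, rfl⟩ := Finset.mem_image.1 hB
    refine ⟨IsPoly.hull s, ?_⟩
    refine Subset.trans ?_ hDA
    rw [hS]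
    exact subset_biUnion_of_mem (u := fun s : Finset E => convexHull ℝ (s : Set E)) hs)
  obtain ⟨β, -, h0, hpos, hsum, haff⟩ := K.bary
  obtain ⟨V, hV⟩ : ∃ V : Finset E, ∀ v, v ∈ V ↔ v ∈ K.verts :=
    ⟨K.verts_finite.toFinset, fun v => K.verts_finite.mem_toFinset⟩
  refine ⟨fun x => ∑ v ∈ V, β v x • (if v ∈ D then f v else 0), ?_, ?_⟩
  · refine GLU_sum V hA (fun v _ => ?_)
    have h1 : PLOn (β v) A := by
      rw [← hK]
      exact GLU_plOn K (fun s hs => haff s hs v)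
    exact h1.affine_comp
      (LinearMap.toSpanSingleton ℝ F (if v ∈ D then f v else 0)).toAffineMap
  · intro x hx
    have hxA : x ∈ K.space := by rw [hK]; exact hDA hx
    obtain ⟨t, ht⟩ := K.exists_carrier' hxA
    have hx' := hx
    rw [hS] at hx'
    obtain ⟨s₀, hs₀, hxs⟩ := mem_iUnion₂.1 hx'
    have hsub : convexHull ℝ (t : Set E) ⊆ convexHull ℝ (s₀ : Set E) :=
      GC.adapted_iff.1 (hK2 _ (Finset.mem_image_of_mem _ hs₀)) x t ht hxs
    obtain ⟨B, hB⟩ := (hS2 s₀ hs₀).2.2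
    obtain ⟨e1, e2⟩ := hsum x t ht
    have htV : t ⊆ V := fun v hv => (hV v).2 ⟨t, ht.1, hv⟩
    have h3 : (∑ v ∈ V, β v x • (if v ∈ D then f v else 0)) =
        ∑ v ∈ t, β v x • (if v ∈ D then f v else 0) := by
      symm
      refine Finset.sum_subset htV (fun v _ hv => ?_)
      have h4 : β v x = 0 := by
        by_contra hne
        exact hv ((hpos v x t ht).1 (lt_of_le_of_ne (h0 v x) (Ne.symm hne)))
      rw [h4, zero_smul]
    change (∑ v ∈ V, β v x • (if v ∈ D then f v else 0)) = f x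
    rw [h3, hB hxs]
    conv_rhs => rw [← e2]
    rw [GLU_affcomb B t (fun v => β v x) e1]
    refine Finset.sum_congr rfl (fun v hv => ?_)
    have hv1 : v ∈ convexHull ℝ (s₀ : Set E) := hsub (subset_convexHull ℝ _ hv)
    have hv2 : v ∈ D := by
      rw [hS]
      exact mem_iUnion₂.2 ⟨s₀, hs₀, hv1⟩
    rw [if_pos hv2, hB hv1]

theorem pl_bump {A D : Set E} (hA : IsPoly A) (hD : IsPoly D) (hDA : D ⊆ A) :
    ∃ u : E → ℝ, PLOn u A ∧ (∀ x ∈ A, 0 ≤ u x) ∧ ∀ x ∈ A, u x = 0 ↔ x ∈ D := by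
  classical
  obtain ⟨K, hK, hK2⟩ := triang A hA {D} (by
    intro B hB
    rw [Finset.mem_singleton] at hB
    subst hB
    exact ⟨hD, hDA⟩)
  have hKD := hK2 D (Finset.mem_singleton_self D)
  obtain ⟨β, -, h0, hpos, hsum, haff⟩ := K.bary
  obtain ⟨T, hT⟩ : ∃ T : Finset (Finset E), ∀ τ, τ ∈ T ↔
      τ ∈ K.faces ∧ ¬ convexHull ℝ (τ : Set E) ⊆ D :=
    ⟨K.fin.toFinset.filter (fun τ => ¬ convexHull ℝ (τ : Set E) ⊆ D), fun τ => by
      rw [Finset.mem_filter, K.fin.mem_toFinset]⟩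
  obtain ⟨m, hm⟩ : ∃ m : Finset E → E → ℝ, ∀ (τ : Finset E) (hτ : τ.Nonempty) (x : E),
      m τ x = τ.inf' hτ (fun v => β v x) :=
    ⟨fun τ x => if h : τ.Nonempty then τ.inf' h (fun v => β v x) else 0, fun τ hτ x => by
      simp only [dif_pos hτ]⟩
  have hm0 : ∀ τ ∈ T, ∀ x, 0 ≤ m τ x := by
    intro τ hτ x
    rw [hm τ (K.ne τ ((hT τ).1 hτ).1) x]
    exact Finset.le_inf' _ _ (fun v _ => h0 v x)
  refine ⟨fun x => ∑ τ ∈ T, m τ x, ?_, fun x _ => Finset.sum_nonneg (fun τ hτ => hm0 τ hτ x), ?_⟩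
  · refine GLU_sum T hA (fun τ hτ => ?_)
    have hne := K.ne τ ((hT τ).1 hτ).1
    refine (PLOn.inf' τ hne (f := β) (X := A) (fun v _ => ?_)).congr ?_
    · rw [← hK]
      exact GLU_plOn K (fun s hs => haff s hs v)
    · intro x _
      exact (hm τ hne x).symm
  · intro x hx
    have hxA : x ∈ K.space := by rw [hK]; exact hx
    obtain ⟨t, ht⟩ := K.exists_carrier' hxA
    constructor
    · intro hu
      by_contra hxD
      have htT : t ∈ T := (hT t).2 ⟨ht.1, fun hsub => hxD (hsub ht.mem_hull)⟩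
      have hmt : 0 < m t x := by
        rw [hm t (K.ne t ht.1) x, Finset.lt_inf'_iff]
        intro v hv
        exact (hpos v x t ht).2 hv
      have : 0 < ∑ τ ∈ T, m τ x :=
        Finset.sum_pos' (fun τ hτ => hm0 τ hτ x) ⟨t, htT, hmt⟩
      exact this.ne' hu
    · intro hxD
      have hsub : convexHull ℝ (t : Set E) ⊆ D := GC.adapted_iff.1 hKD x t ht hxD
      refine Finset.sum_eq_zero (fun τ hτ => ?_)
      have hτ2 : ¬ τ ⊆ t := by
        intro hst
        refine ((hT τ).1 hτ).2 (Subset.trans ?_ hsub)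
        exact convexHull_mono (Finset.coe_subset.2 hst)
      obtain ⟨v, hv, hvt⟩ := Finset.not_subset.1 hτ2
      have h4 : β v x = 0 := by
        by_contra hne
        exact hvt ((hpos v x t ht).1 (lt_of_le_of_ne (h0 v x) (Ne.symm hne)))
      refine le_antisymm ?_ (hm0 τ hτ x)
      rw [hm τ (K.ne τ ((hT τ).1 hτ).1) x, ← h4]
      exact Finset.inf'_le (fun v => β v x) hv

theorem glue_embed {A DA : Set E} {B DB : Set F} (hA : IsPoly A) (hB : IsPoly B)
    (hDA : IsPoly DA) (hDB : IsPoly DB) (hAs : DA ⊆ A) (hBs : DB ⊆ B) {φ : F → E}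
    (hφ : PLOn φ DB) (hi : InjOn φ DB) (him : φ '' DB = DA) :
    ∃ (jA : E → E × F × ℝ) (jB : F → E × F × ℝ), PLOn jA A ∧ InjOn jA A ∧ PLOn jB B ∧ InjOn jB B ∧
      (∀ y ∈ DB, jA (φ y) = jB y) ∧ (∀ x ∈ A, ∀ y ∈ B, jA x = jB y → y ∈ DB ∧ x = φ y) := by
  obtain ⟨Ψ, hΨ, hΨe⟩ := pl_extend hB hBs hφ
  have hsym : PLOn (Function.invFunOn φ DB) DA := by
    have := hφ.symm hi
    rwa [him] at this
  obtain ⟨Φ, hΦ, hΦe⟩ := pl_extend hA hAs hsym
  obtain ⟨u, hu, hu0, huz⟩ := pl_bump hA hDA hAs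
  obtain ⟨w, hw, hw0, hwz⟩ := pl_bump hB hDB hBs
  refine ⟨fun x => (x, Φ x, u x), fun y => (Ψ y, y, - w y), ?_, ?_, ?_, ?_, ?_, ?_⟩
  · exact (PLOn.id hA).prodMk (hΦ.prodMk hu)
  · intro x _ y _ hxy
    exact congrArg Prod.fst hxy
  · refine hΨ.prodMk ((PLOn.id hB).prodMk ?_)
    refine (hw.const_smul (-1)).congr ?_
    intro y _
    simp
  · intro x _ y _ hxy
    exact congrArg (fun p : E × F × ℝ => p.2.1) hxy
  · intro y hy
    have hyA : φ y ∈ DA := by rw [← him]; exact mem_image_of_mem _ hy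
    have e1 : Ψ y = φ y := hΨe hy
    have e2 : Φ (φ y) = y := by
      rw [hΦe hyA]
      exact hi.leftInvOn_invFunOn hy
    have e3 : u (φ y) = 0 := (huz _ (hAs hyA)).2 hyA
    have e4 : w y = 0 := (hwz _ (hBs hy)).2 hy
    simp only [e1, e2, e3, e4, neg_zero]
  · intro x hx y hy hxy
    have e1 : x = Ψ y := congrArg Prod.fst hxy
    have e3 : u x = - w y := congrArg (fun p : E × F × ℝ => p.2.2) hxy
    have hx0 := hu0 x hx
    have hy0 := hw0 y hy
    have hwy : w y = 0 := by linarith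
    have hyD : y ∈ DB := (hwz y hy).1 hwy
    exact ⟨hyD, by rw [e1, hΨe hyD]⟩

theorem glue_mfd {n : ℕ} {A DA : Set E} {B DB : Set F} (hA : IsPoly A) (hB : IsPoly B)
    (hDA : IsPoly DA) (hDB : IsPoly DB) (hAs : DA ⊆ A) (hBs : DB ⊆ B)
    (hAi : ∀ x ∈ A \ DA, IntPt (n + 1) A x) (hAb : ∀ x ∈ DA, BdPt n A DA x)
    (hBi : ∀ x ∈ B \ DB, IntPt (n + 1) B x) (hBb : ∀ x ∈ DB, BdPt n B DB x)
    {φ : F → E} (hφ : PLOn φ DB) (hi : InjOn φ DB) (him : φ '' DB = DA) :
    ∃ (jA : E → E × F × ℝ) (jB : F → E × F × ℝ), PLOn jA A ∧ InjOn jA A ∧ PLOn jB B ∧ InjOn jB B ∧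
      (∀ y ∈ DB, jA (φ y) = jB y) ∧ (∀ x ∈ A, ∀ y ∈ B, jA x = jB y → y ∈ DB ∧ x = φ y) ∧
      IsClosedPLManifold (n + 1) (jA '' A ∪ jB '' B) := by
  obtain ⟨jA, jB, h1, h2, h3, h4, h5, h6⟩ := glue_embed hA hB hDA hDB hAs hBs hφ hi him
  refine ⟨jA, jB, h1, h2, h3, h4, h5, h6, h1.image.union h3.image, ?_⟩
  have hclA : IsClosed (jA '' A) := h1.image.isCompact.isClosed
  have hclB : IsClosed (jB '' B) := h3.image.isCompact.isClosed
  have hDD : jB '' DB = jA '' DA := by
    rw [← him, image_image]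
    refine image_congr (fun y hy => (h5 y hy).symm)
  have hbd : ∀ y ∈ DB, IntPt (n + 1) (jA '' A ∪ jB '' B) (jB y) := by
    intro y hy
    have hyA : φ y ∈ DA := by rw [← him]; exact mem_image_of_mem _ hy
    have k1 := (hAb (φ y) hyA).image h1 h2 hAs
    have k2 := (hBb y hy).image h3 h4 hBs
    rw [h5 y hy] at k1
    rw [hDD] at k2
    refine k1.glue k2 ?_
    apply Subset.antisymm
    · rintro p ⟨⟨x, hx, rfl⟩, ⟨z, hz, hxz⟩⟩
      obtain ⟨hz1, hz2⟩ := h6 x hx z hz hxz.symm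
      refine mem_image_of_mem _ ?_
      rw [hz2, ← him]
      exact mem_image_of_mem _ hz1
    · rintro p hp
      refine ⟨image_mono hAs hp, ?_⟩
      rw [← hDD] at hp
      exact image_mono hBs hp
  have key : ∀ p ∈ jA '' A ∪ jB '' B, IntPt (n + 1) (jA '' A ∪ jB '' B) p := by
    rintro p (⟨x, hx, rfl⟩ | ⟨y, hy, rfl⟩)
    · by_cases hxD : x ∈ DA
      · rw [← him] at hxD
        obtain ⟨y, hy, rfl⟩ := hxD
        rw [h5 y hy]
        exact hbd y hy
      · have k := (hAi x ⟨hx, hxD⟩).image h1 h2 hx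
        have hnot : jA x ∈ (jB '' B)ᶜ := by
          rintro ⟨z, hz, hzx⟩
          obtain ⟨hz1, hz2⟩ := h6 x hx z hz hzx.symm
          apply hxD
          rw [hz2, ← him]
          exact mem_image_of_mem _ hz1
        refine k.congr_nhds (hclB.isOpen_compl.mem_nhds hnot) ?_
        rw [union_inter_distrib_right, inter_compl_self, union_empty]
    · by_cases hyD : y ∈ DB
      · exact hbd y hyD
      · have k := (hBi y ⟨hy, hyD⟩).image h3 h4 hy
        have hnot : jB y ∈ (jA '' A)ᶜ := by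
          rintro ⟨x, hx, hxy⟩
          exact hyD (h6 x hx y hy hxy).1
        refine k.congr_nhds (hclA.isOpen_compl.mem_nhds hnot) ?_
        rw [union_inter_distrib_right, inter_compl_self, empty_union]
  intro p hp
  exact key p hp

end Pool.H54.UB
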