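import Pool.Agent.H54.UB.EVC
import Pool.Agent.H54.UB.GLU

/-!
# Row EVG: gluing evaluation data

`Glued A B DB φ jA jB H`: `jA`, `jB` are PL embeddings of `A`, `B` into `H` whose images meet exactly
along `jB '' DB`, where `jB = jA ∘ φ`.
`EvB`: pieces and local primitives on `B`, without distinguished piece.

Construction on `jA '' A ∪ jB '' B`: index type `D.ι ⊕ D'.ι`, pieces `jA '' D.A a`, `jB '' D'.A b`, functions
`D.φ i a ∘ (inverse of jA)`, `D'.φ i b ∘ (inverse of jB)` (`Function.invFunOn jA A`, continuous on the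
compact image); `o`, `y`, `κ` from `D` (`y ∘ inverse of jA`, PL by `PLOn.symm`, `PLOn.comp`; `κ' = jA ∘ κ`).
* compat on two pieces of `A`: transport through the homeomorphism `jA`; same for `B`; mixed: a point of
  `jA '' D.A a ∩ jB '' D'.A b` is `jB y = jA (φ y)`, `y ∈ DB`: the hypothesis `cross`, transported by the
  homeomorphism `jB` (both signs: `a - b` and `b - a`).
* nhd: `jA '' D.A o` is a neighbourhood of `jA v` in `jA '' A` (`emb_nhds`), and `jB '' B` is closed and does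
  not contain `jA v` (`v ∉ φ '' DB` by `ho`), so it is a neighbourhood in the union.
* cube: same argument with `hκ`.
-/

open Set Topology Metric

namespace Pool.H54.UB

variable {E F H : Type*} [NormedAddCommGroup E] [NormedSpace ℝ E]
  [NormedAddCommGroup F] [NormedSpace ℝ F]
  [NormedAddCommGroup H] [NormedSpace ℝ H]

structure Glued (A : Set E) (B DB : Set F) (φ : F → E) (jA : E → H) (jB : F → H) : Prop where
  plA : PLOn jA A
  injA : InjOn jA A
  plB : PLOn jB B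
  injB : InjOn jB B
  sub : DB ⊆ B
  maps : MapsTo φ DB A
  plφ : PLOn φ DB
  comm : ∀ y ∈ DB, jA (φ y) = jB y
  sep : ∀ x ∈ A, ∀ y ∈ B, jA x = jB y → y ∈ DB ∧ x = φ y

structure EvB (m : ℕ) (N : Set E) (R : Type*) [CommRing R] where
  ι : Type
  fin : Finite ι
  A : ι → Set E
  poly : ∀ a, IsPoly (A a)
  cover : N = ⋃ a, A a
  φ : Fin m → ι → E → R
  compat : ∀ i a b, ∀ x ∈ A a ∩ A b, ∃ U ∈ 𝓝 x, ∀ y ∈ U ∩ (A a ∩ A b),
    φ i a y - φ i b y = φ i a x - φ i b x
  off : ∀ a, ∃ i, ∀ x ∈ A a, ∀ x' ∈ A a, φ i a x = φ i a x'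

variable [FiniteDimensional ℝ E] [FiniteDimensional ℝ F] [FiniteDimensional ℝ H]

omit [FiniteDimensional ℝ E] [FiniteDimensional ℝ H] in
theorem EVG_tr {K : Set E} (hK : IsCompact K) {j : E → H} (hc : ContinuousOn j K)
    (hi : InjOn j K) {gj : H → E} (hg : ∀ x ∈ K, gj (j x) = x) {p : E} (hp : p ∈ K) {U : Set E}
    (hU : U ∈ 𝓝 p) : ∃ W ∈ 𝓝 (j p), ∀ z ∈ W, z ∈ j '' K → gj z ∈ U := by
  have h1 := emb_nhds hK hc hi hp (mem_nhdsWithin_of_mem_nhds hU)
  obtain ⟨O, hO, hpO, hOV⟩ := mem_nhdsWithin.1 h1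
  refine ⟨O, hO.mem_nhds hpO, fun z hz hzK => ?_⟩
  obtain ⟨q, ⟨hqU, hqK⟩, rfl⟩ := hOV ⟨hz, hzK⟩
  rw [hg q hqK]
  exact hqU

omit [FiniteDimensional ℝ E] [FiniteDimensional ℝ F] [FiniteDimensional ℝ H] in
theorem EVG_sub {ι : Type*} {N : Set E} {A : ι → Set E} (h : N = ⋃ a, A a) (a : ι) : A a ⊆ N := by
  rw [h]
  exact subset_iUnion A a

omit [FiniteDimensional ℝ E] [FiniteDimensional ℝ F] in
theorem EVG_nhds {X : Type*} [TopologicalSpace X] {P Q V : Set X} {x : X} (hQ : IsClosed Q)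
    (hx : x ∉ Q) (hV : V ∈ 𝓝[P] x) : V ∈ 𝓝[P ∪ Q] x := by
  rw [nhdsWithin_union]
  refine Filter.mem_sup.2 ⟨hV, ?_⟩
  have h1 : 𝓝[Q] x = ⊥ := by
    rw [← notMem_closure_iff_nhdsWithin_eq_bot, hQ.closure_eq]
    exact hx
  rw [h1]
  exact Filter.mem_bot

theorem Glued.evc {m : ℕ} {R : Type*} [CommRing R] {A : Set E} {B DB : Set F} {φ : F → E}
    {jA : E → H} {jB : F → H} (g : Glued A B DB φ jA jB) (hDB : IsPoly DB) (D : EvC m A R)
    (D' : EvB m B R)
    (cross : ∀ i a b, ∀ y ∈ DB, y ∈ D'.A b → φ y ∈ D.A a → ∃ U ∈ 𝓝 y, ∀ y' ∈ U ∩ DB,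
      y' ∈ D'.A b → φ y' ∈ D.A a →
      D.φ i a (φ y') - D'.φ i b y' = D.φ i a (φ y) - D'.φ i b y)
    (ho : ∀ y ∈ DB, φ y ∉ D.A D.o)
    (hκ : ∀ u ∈ closedBall (0 : Fin m → ℝ) 2, D.κ u ∉ φ '' DB) :
    Nonempty (EvC m (jA '' A ∪ jB '' B) R) := by
  classical
  set gA : H → E := Function.invFunOn jA A with hgA
  set gB : H → F := Function.invFunOn jB B with hgB
  have lA : ∀ x ∈ A, gA (jA x) = x := fun x hx => g.injA.leftInvOn_invFunOn hx
  have lB : ∀ x ∈ B, gB (jB x) = x := fun x hx => g.injB.leftInvOn_invFunOn hx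
  have cA : IsCompact A := g.plA.domain.isCompact
  have cB : IsCompact B := g.plB.domain.isCompact
  have subA : ∀ a, D.A a ⊆ A := EVG_sub D.cover
  have subB : ∀ b, D'.A b ⊆ B := EVG_sub D'.cover
  have clB : IsClosed (jB '' B) := (cB.image_of_continuousOn g.plB.continuousOn).isClosed
  have mixed : ∀ i a b, ∀ x, x ∈ jA '' D.A a → x ∈ jB '' D'.A b → ∃ U ∈ 𝓝 x, ∀ y ∈ U,
      y ∈ jA '' D.A a → y ∈ jB '' D'.A b →
      D.φ i a (gA y) - D'.φ i b (gB y) = D.φ i a (gA x) - D'.φ i b (gB x) := by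
    rintro i a b x ⟨p, hp, rfl⟩ ⟨q, hq, hqp⟩
    obtain ⟨hqD, hpq⟩ := g.sep p (subA a hp) q (subB b hq) hqp.symm
    obtain ⟨U, hU, hU2⟩ := cross i a b q hqD hq (hpq ▸ hp)
    obtain ⟨W, hW, hW2⟩ := EVG_tr cB g.plB.continuousOn g.injB lB (subB b hq) hU
    rw [hqp] at hW
    refine ⟨W, hW, ?_⟩
    rintro y hy ⟨p', hp', rfl⟩ ⟨q', hq', hqp'⟩
    obtain ⟨hqD', hpq'⟩ := g.sep p' (subA a hp') q' (subB b hq') hqp'.symm
    have e1 := hW2 (jA p') hy ⟨q', subB b hq', hqp'⟩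
    have e2 : gB (jA p') = q' := by rw [← hqp', lB q' (subB b hq')]
    have e3 : gB (jA p) = q := by rw [← hqp, lB q (subB b hq)]
    rw [e2] at e1
    rw [e2, e3, lA p' (subA a hp'), lA p (subA a hp)]
    have e4 := hU2 q' ⟨e1, hqD'⟩ hq' (hpq' ▸ hp')
    rw [← hpq, ← hpq'] at e4
    exact e4
  have poA : IsPoly (jA '' D.A D.o) := g.plA.image_poly (D.poly D.o) (subA D.o)
  have plgA : PLOn gA (jA '' D.A D.o) :=
    (g.plA.of_leftInv lA).mono poA (image_mono (subA D.o))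
  haveI := D.fin
  haveI := D'.fin
  refine ⟨{ ι := D.ι ⊕ D'.ι
            fin := inferInstance
            A := Sum.elim (fun a => jA '' D.A a) (fun b => jB '' D'.A b)
            poly := ?_
            cover := ?_
            φ := fun i => Sum.elim (fun a z => D.φ i a (gA z)) (fun b z => D'.φ i b (gB z))
            compat := ?_
            o := Sum.inl D.o
            y := fun z => D.y (gA z)
            pl := ?_
            inj := ?_
            img := ?_
            nhd := ?_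
            wall := ?_
            off := ?_
            κ := fun u => jA (D.κ u)
            cube := ?_
            lc := ?_
            disj := ?_ }⟩
  · rintro (a | b)
    · exact g.plA.image_poly (D.poly a) (subA a)
    · exact g.plB.image_poly (D'.poly b) (subB b)
  · rw [iUnion_sum]
    simp only [Sum.elim_inl, Sum.elim_inr]
    rw [← image_iUnion, ← image_iUnion, ← D.cover, ← D'.cover]
  · rintro i (a | a) (b | b) x ⟨hxa, hxb⟩
    · obtain ⟨p, hp, rfl⟩ := hxa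
      obtain ⟨q, hq, hqp⟩ := hxb
      have hpq : q = p := g.injA (subA b hq) (subA a hp) hqp
      rw [hpq] at hq
      obtain ⟨U, hU, hU2⟩ := D.compat i a b p ⟨hp, hq⟩
      obtain ⟨W, hW, hW2⟩ := EVG_tr cA g.plA.continuousOn g.injA lA (subA a hp) hU
      refine ⟨W, hW, ?_⟩
      rintro y ⟨hyW, ⟨p', hp', rfl⟩, ⟨q', hq', hqp'⟩⟩
      have hpq' : q' = p' := g.injA (subA b hq') (subA a hp') hqp'
      rw [hpq'] at hq'
      have e1 := hW2 (jA p') hyW ⟨p', subA a hp', rfl⟩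
      rw [lA p' (subA a hp')] at e1
      have e2 := hU2 p' ⟨e1, hp', hq'⟩
      simp only [Sum.elim_inl]
      rw [lA p' (subA a hp'), lA p (subA a hp)]
      exact e2
    · obtain ⟨U, hU, hU2⟩ := mixed i a b x hxa hxb
      exact ⟨U, hU, fun y hy => hU2 y hy.1 hy.2.1 hy.2.2⟩
    · obtain ⟨U, hU, hU2⟩ := mixed i b a x hxb hxa
      refine ⟨U, hU, fun y hy => ?_⟩
      have e := hU2 y hy.1 hy.2.2 hy.2.1
      simp only [Sum.elim_inl, Sum.elim_inr]
      linear_combination -e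
    · obtain ⟨p, hp, rfl⟩ := hxa
      obtain ⟨q, hq, hqp⟩ := hxb
      have hpq : q = p := g.injB (subB b hq) (subB a hp) hqp
      rw [hpq] at hq
      obtain ⟨U, hU, hU2⟩ := D'.compat i a b p ⟨hp, hq⟩
      obtain ⟨W, hW, hW2⟩ := EVG_tr cB g.plB.continuousOn g.injB lB (subB a hp) hU
      refine ⟨W, hW, ?_⟩
      rintro y ⟨hyW, ⟨p', hp', rfl⟩, ⟨q', hq', hqp'⟩⟩
      have hpq' : q' = p' := g.injB (subB b hq') (subB a hp') hqp'
      rw [hpq'] at hq'
      have e1 := hW2 (jB p') hyW ⟨p', subB a hp', rfl⟩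
      rw [lB p' (subB a hp')] at e1
      have e2 := hU2 p' ⟨e1, hp', hq'⟩
      simp only [Sum.elim_inr]
      rw [lB p' (subB a hp'), lB p (subB a hp)]
      exact e2
  · refine D.pl.comp plgA ?_
    rintro _ ⟨p, hp, rfl⟩
    rw [lA p (subA D.o hp)]
    exact hp
  · rintro _ ⟨p, hp, rfl⟩ _ ⟨q, hq, rfl⟩ he
    simp only [lA p (subA D.o hp), lA q (subA D.o hq)] at he
    rw [D.inj hp hq he]
  · rw [← D.img]
    simp only [Sum.elim_inl]
    rw [image_image]
    exact image_congr fun p hp => by rw [lA p (subA D.o hp)]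
  · rintro _ ⟨p, hp, rfl⟩ hv
    simp only [lA p (subA D.o hp)] at hv
    have h1 := D.nhd p hp hv
    have h2 := emb_nhds cA g.plA.continuousOn g.injA (subA D.o hp) h1
    refine EVG_nhds clB ?_ (Filter.mem_of_superset h2 (image_mono inter_subset_left))
    rintro ⟨q, hq, hqp⟩
    obtain ⟨hqD, hpq⟩ := g.sep p (subA D.o hp) q hq hqp.symm
    exact ho q hqD (hpq ▸ hp)
  · rintro i _ ⟨p, hp, rfl⟩
    simp only [Sum.elim_inl, lA p (subA D.o hp)]
    exact D.wall i p hp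
  · rintro (a | b) hne
    · obtain ⟨i, hi⟩ := D.off a (fun h => hne (by rw [h]))
      refine ⟨i, ?_⟩
      rintro _ ⟨p, hp, rfl⟩ _ ⟨q, hq, rfl⟩
      simp only [Sum.elim_inl, lA p (subA a hp), lA q (subA a hq)]
      exact hi p hp q hq
    · obtain ⟨i, hi⟩ := D'.off b
      refine ⟨i, ?_⟩
      rintro _ ⟨p, hp, rfl⟩ _ ⟨q, hq, rfl⟩
      simp only [Sum.elim_inr, lB p (subB b hp), lB q (subB b hq)]
      exact hi p hp q hq
  · refine ⟨?_, ?_, ?_, ?_⟩
    · exact g.plA.comp D.cube.pl D.cube.maps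
    · intro p hp q hq he
      exact D.cube.inj hp hq (g.injA (D.cube.maps hp) (D.cube.maps hq) he)
    · intro p hp
      exact Or.inl ⟨D.κ p, D.cube.maps hp, rfl⟩
    · intro p hp
      have hpC := ball_subset_closedBall hp
      have h1 := D.cube.nhd p hp
      have h2 := emb_nhds cA g.plA.continuousOn g.injA (D.cube.maps hpC) h1
      refine EVG_nhds clB ?_ (Filter.mem_of_superset h2 ?_)
      · rintro ⟨q, hq, hqp⟩
        obtain ⟨hqD, hpq⟩ := g.sep _ (D.cube.maps hpC) q hq hqp.symm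
        exact hκ p hpC ⟨q, hqD, hpq.symm⟩
      · rintro _ ⟨_, ⟨⟨u, hu, rfl⟩, -⟩, rfl⟩
        exact ⟨u, hu, rfl⟩
  · rintro i (a | b) u hu hua
    · obtain ⟨p, hp, hpu⟩ := hua
      have hpu' : p = D.κ u := g.injA (subA a hp) (D.cube.maps hu) hpu
      rw [hpu'] at hp
      obtain ⟨U, hU, hU2⟩ := D.lc i a u hu hp
      refine ⟨U, hU, ?_⟩
      rintro u' hu' ⟨q, hq, hqu⟩
      have hqu' : q = D.κ u' := g.injA (subA a hq) (D.cube.maps hu'.2) hqu
      rw [hqu'] at hq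
      simp only [Sum.elim_inl, lA _ (subA a hp), lA _ (subA a hq)]
      exact hU2 u' hu' hq
    · exfalso
      obtain ⟨q, hq, hqp⟩ := hua
      obtain ⟨hqD, hpq⟩ := g.sep _ (D.cube.maps hu) q (subB b hq) hqp.symm
      exact hκ u hu ⟨q, hqD, hpq.symm⟩
  · rintro u hu ⟨p, hp, hpu⟩
    have hpu' : p = D.κ u := g.injA (subA D.o hp) (D.cube.maps hu) hpu
    rw [hpu'] at hp
    exact D.disj u hu hp

end Pool.H54.UB
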