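import Pool.Agent.H54.UB.EVC

/-!
# Row EVP: evaluation data on `N × gam`

Arcs: `slab = wnd '' Icc 7 8`, `rest = wnd '' Icc 0 7`; `gam = slab ∪ rest`, `slab ∩ rest` consists of the
two points `wnd 0 = wnd 8` and `wnd 7` (`wnd_eq_iff`).
* index type `D.ι × Bool`; pieces `D.A a × slab` (true), `D.A a × rest` (false); `o' = (o, true)`.
* `φ (castSucc i) (a, _) (x, z) = D.φ i a x`; `φ last (a, true) (x, z) = if z = wnd 0 then 1 else 0`,
  `φ last (a, false) = 0`.
* compat: for `castSucc i` from `D.compat` (neighbourhood `U × univ`); for `last` on the same kind of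
  pieces trivial, on `slab ∩ rest = {wnd 0, wnd 7}` every function of `z` is locally constant.
* `y (x, z) = Fin.snoc (D.y x) (s - 7)` for `z = wnd s`, `s ∈ [7,8]` (use `Function.invFunOn wnd (Icc 7 8)`;
  PL by `PLOn.of_leftInv`); `y = 1` in the last coordinate iff `z = wnd 8 = wnd 0`.
* nhd: `slab` is a neighbourhood in `gam` of `wnd s`, `s ∈ (7,8)` (`wnd_open`), product neighbourhood.
* off: `(a, true)`, `a ≠ o`: from `D.off`; `(a, false)`: `φ last = 0`.
* cube `κ v = (D.κ (c + (1/8) • tail v), wnd (3 + v 0 / 8))`, `c = fun _ => 3/2`, `tail v = v ∘ Fin.succ`: in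
  the ball of radius 2 as `3/2 + 1/4 < 2`; openness from `D.cube.image_nhds` and `wnd_open`.
  It does not meet `D.A D.o × slab` by `D.disj`.
* the last clauses are then immediate.
-/

open Set Topology Metric

namespace Pool.H54.UB

variable {E : Type*} [NormedAddCommGroup E] [NormedSpace ℝ E] [FiniteDimensional ℝ E]

private theorem EVP_nw {s t : ℝ} (h : wnd s = wnd t) (h1 : -8 < t - s) (h2 : t - s < 8) :
    s = t := by
  obtain ⟨k, hk⟩ := wnd_eq_iff.1 h
  have h3 : ((-1 : ℤ) : ℝ) < k := by push_cast; linarith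
  have h4 : (k : ℝ) < ((1 : ℤ) : ℝ) := by push_cast; linarith
  have h5 : -1 < k := by exact_mod_cast h3
  have h6 : k < 1 := by exact_mod_cast h4
  have h7 : k = 0 := by omega
  subst h7
  simpa using hk.symm

private theorem EVP_08 : wnd 0 = wnd 8 := by
  have := wnd_per 0 1
  simpa using this.symm

/-- The two arcs. -/
private def EVP_arc : Bool → Set V2
  | true => wnd '' Icc 7 8
  | false => wnd '' Icc 0 7

private theorem EVP_arc_poly (b : Bool) : IsPoly (EVP_arc b) := by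
  cases b
  · exact (wnd_pl 0 7).image
  · exact (wnd_pl 7 8).image

private theorem EVP_arc_sub (b : Bool) : EVP_arc b ⊆ gam := by
  cases b
  · rintro _ ⟨s, _, rfl⟩; exact wnd_mem s
  · rintro _ ⟨s, _, rfl⟩; exact wnd_mem s

private theorem EVP_arc_cover {z : V2} (hz : z ∈ gam) : ∃ b, z ∈ EVP_arc b := by
  obtain ⟨s, hs, rfl⟩ := wnd_surj 0 hz
  rcases le_total s 7 with h | h
  · exact ⟨false, s, ⟨hs.1, h⟩, rfl⟩
  · exact ⟨true, s, ⟨h, by linarith [hs.2]⟩, rfl⟩

private theorem EVP_arc_inter {z : V2} (h1 : z ∈ EVP_arc true) (h2 : z ∈ EVP_arc false) :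
    z = wnd 0 ∨ z = wnd 7 := by
  obtain ⟨s, hs, rfl⟩ := h1
  obtain ⟨t, ht, hst⟩ := h2
  rcases lt_or_ge (s - t) 8 with h | h
  · have h3 : t = s := EVP_nw hst (by linarith [hs.1, ht.2]) h
    right
    have : s = 7 := le_antisymm (by linarith [ht.2]) hs.1
    rw [this]
  · left
    have h4 : t = 0 := le_antisymm (by linarith [hs.2]) ht.1
    rw [← hst, h4]

private noncomputable def EVP_g (z : V2) : ℝ := Function.invFunOn wnd (Icc 7 8) z

private theorem EVP_g_wnd {s : ℝ} (hs : s ∈ Icc (7 : ℝ) 8) : EVP_g (wnd s) = s :=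
  (wnd_injOn (by norm_num)).leftInvOn_invFunOn hs

private theorem EVP_g_arc {z : V2} (hz : z ∈ EVP_arc true) :
    EVP_g z ∈ Icc (7 : ℝ) 8 ∧ wnd (EVP_g z) = z := by
  obtain ⟨s, hs, rfl⟩ := hz
  rw [EVP_g_wnd hs]
  exact ⟨hs, rfl⟩

private theorem EVP_g_pl : PLOn EVP_g (EVP_arc true) :=
  PLOn.of_leftInv (wnd_pl 7 8) fun _ hs => EVP_g_wnd hs

/-- The last primitive. -/
private noncomputable def EVP_last (R : Type*) [CommRing R] (b : Bool) (z : V2) : R :=
  open Classical in if b = true ∧ z = wnd 0 then 1 else 0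

private theorem EVP_last_false (R : Type*) [CommRing R] (z : V2) : EVP_last R false z = 0 := by
  simp [EVP_last]

private theorem EVP_last_true (R : Type*) [CommRing R] (z : V2) :
    EVP_last R true z = open Classical in if z = wnd 0 then 1 else 0 := by
  simp [EVP_last]

/-- The affine map of the small cube. -/
private noncomputable def EVP_t {n : ℕ} (v : Fin (n + 1) → ℝ) : Fin n → ℝ :=
  (fun _ => 3 / 2) + (1 / 8 : ℝ) • fun i => v i.succ

private theorem EVP_t_apply {n : ℕ} (v : Fin (n + 1) → ℝ) (i : Fin n) :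
    EVP_t v i = 3 / 2 + 1 / 8 * v i.succ := rfl

private theorem EVP_abs {n : ℕ} {v : Fin n → ℝ} (hv : v ∈ closedBall (0 : Fin n → ℝ) 2)
    (i : Fin n) : |v i| ≤ 2 := by
  rw [mem_closedBall_zero_iff, pi_norm_le_iff_of_nonneg (by norm_num)] at hv
  simpa using hv i

private theorem EVP_t_mem {n : ℕ} {v : Fin (n + 1) → ℝ}
    (hv : v ∈ closedBall (0 : Fin (n + 1) → ℝ) 2) : EVP_t v ∈ ball (0 : Fin n → ℝ) 2 := by
  rw [mem_ball_zero_iff, pi_norm_lt_iff (by norm_num)]
  intro i
  rw [Real.norm_eq_abs, EVP_t_apply, abs_lt]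
  have := abs_le.1 (EVP_abs hv i.succ)
  constructor <;> linarith [this.1, this.2]

private theorem EVP_t_cont {n : ℕ} : Continuous (EVP_t (n := n)) := by
  unfold EVP_t
  fun_prop

private theorem EVP_t_pl {n : ℕ} {X : Set (Fin (n + 1) → ℝ)} (hX : IsPoly X) :
    PLOn (EVP_t (n := n)) X := by
  refine PLOn.pi hX fun i => ?_
  have h1 : PLOn (fun v : Fin (n + 1) → ℝ => v i.succ) X := (PLOn.id hX).apply i.succ
  have h2 : PLOn (fun v : Fin (n + 1) → ℝ => (3 / 2 : ℝ) + (1 / 8 : ℝ) • v i.succ) X :=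
    (PLOn.const hX (3 / 2 : ℝ)).add (h1.const_smul (1 / 8 : ℝ))
  exact h2.congr fun v _ => rfl

private theorem EVP_w_mem {n : ℕ} {v : Fin (n + 1) → ℝ}
    (hv : v ∈ closedBall (0 : Fin (n + 1) → ℝ) 2) : 3 + v 0 / 8 ∈ Icc (2 : ℝ) 4 := by
  have := abs_le.1 (EVP_abs hv 0)
  constructor <;> linarith [this.1, this.2]

private theorem EVP_w_pl {n : ℕ} {X : Set (Fin (n + 1) → ℝ)} (hX : IsPoly X) :
    PLOn (fun v : Fin (n + 1) → ℝ => 3 + v 0 / 8) X := by
  have h1 : PLOn (fun v : Fin (n + 1) → ℝ => v 0) X := (PLOn.id hX).apply 0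
  have h2 : PLOn (fun v : Fin (n + 1) → ℝ => (3 : ℝ) + (1 / 8 : ℝ) • v 0) X :=
    (PLOn.const hX (3 : ℝ)).add (h1.const_smul (1 / 8 : ℝ))
  refine h2.congr fun v _ => ?_
  simp only [smul_eq_mul]
  ring

private theorem EVP_box (n : ℕ) : IsPoly (closedBall (0 : Fin n → ℝ) 2) := by
  have h := isPoly_box (m := n) (fun _ => (-2 : ℝ)) (fun _ => 2)
  have e : closedBall (0 : Fin n → ℝ) 2 = {y : Fin n → ℝ | ∀ i, -2 ≤ y i ∧ y i ≤ 2} := by
    ext y
    rw [mem_closedBall_zero_iff, pi_norm_le_iff_of_nonneg (by norm_num)]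
    simp [abs_le]
  rw [e]
  exact h

private theorem EVP_cube {n : ℕ} {N : Set E} {κ : (Fin n → ℝ) → E} (h : CubeT n N κ) :
    CubeT (n + 1) (N ×ˢ gam)
      (fun v : Fin (n + 1) → ℝ => (κ (EVP_t v), wnd (3 + v 0 / 8))) where
  pl := by
    have hX := EVP_box (n + 1)
    refine PLOn.prodMk ?_ ?_
    · exact h.pl.comp (EVP_t_pl hX) fun v hv => ball_subset_closedBall (EVP_t_mem hv)
    · exact (wnd_pl 2 4).comp (EVP_w_pl hX) fun v hv => EVP_w_mem hv
  inj := by
    intro v hv v' hv' he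
    have h1 : κ (EVP_t v) = κ (EVP_t v') := congrArg Prod.fst he
    have h2 : wnd (3 + v 0 / 8) = wnd (3 + v' 0 / 8) := congrArg Prod.snd he
    have h3 := h.inj (ball_subset_closedBall (EVP_t_mem hv))
      (ball_subset_closedBall (EVP_t_mem hv')) h1
    have h4 := wnd_injOn (a := 2) (b := 4) (by norm_num) (EVP_w_mem hv) (EVP_w_mem hv') h2
    funext i
    refine Fin.cases ?_ (fun j => ?_) i
    · linarith
    · have := congrFun h3 j
      rw [EVP_t_apply, EVP_t_apply] at this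
      linarith
  maps := fun v hv => ⟨h.maps (ball_subset_closedBall (EVP_t_mem hv)), wnd_mem _⟩
  nhd := by
    intro p hp
    have hpc := ball_subset_closedBall hp
    have hu := EVP_t_mem hpc
    have hp' : ∀ i, |p i| < 2 := by
      rw [mem_ball_zero_iff, pi_norm_lt_iff (by norm_num)] at hp
      simpa using hp
    let W : Set (Fin n → ℝ) := {u | ∀ i, |8 * (u i - 3 / 2)| < 2}
    have hWo : IsOpen W := by
      have : W = ⋂ i, {u : Fin n → ℝ | |8 * (u i - 3 / 2)| < 2} := by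
        ext u
        simp [W]
      rw [this]
      refine isOpen_iInter_of_finite fun i => ?_
      exact isOpen_lt (by fun_prop) continuous_const
    have hW : W ∈ 𝓝 (EVP_t p) := by
      refine hWo.mem_nhds fun i => ?_
      rw [EVP_t_apply]
      have : 8 * (3 / 2 + 1 / 8 * p i.succ - 3 / 2) = p i.succ := by ring
      rw [this]
      exact hp' _
    have h1 := h.image_nhds hu hW
    have hε : 0 < (2 - |p 0|) / 8 := by
      have := hp' 0
      linarith
    have h2 := wnd_open (3 + p 0 / 8) hε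
    refine Filter.mem_of_superset (nhdsWithin_prod h1 h2) ?_
    rintro ⟨x, z⟩ ⟨⟨u, ⟨huW, huc⟩, rfl⟩, ⟨s, hs, rfl⟩⟩
    refine ⟨Fin.cons (8 * (s - 3)) (fun i => 8 * (u i - 3 / 2)), ?_, ?_⟩
    · rw [mem_closedBall_zero_iff, pi_norm_le_iff_of_nonneg (by norm_num)]
      intro i
      rw [Real.norm_eq_abs]
      refine Fin.cases ?_ (fun j => ?_) i
      · rw [Fin.cons_zero, abs_le]
        have h3 := le_abs_self (p 0)
        have h4 := neg_abs_le (p 0)
        constructor <;> linarith [hs.1, hs.2]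
      · rw [Fin.cons_succ]
        exact (huW j).le
    · simp only [Prod.mk.injEq]
      constructor
      · congr 1
        funext i
        rw [EVP_t_apply, Fin.cons_succ]
        ring
      · congr 1
        rw [Fin.cons_zero]
        ring

private theorem EVP_ne0 {n : ℕ} {v : Fin (n + 1) → ℝ}
    (hv : v ∈ closedBall (0 : Fin (n + 1) → ℝ) 2) : wnd (3 + v 0 / 8) ≠ wnd 0 := by
  intro h
  have h1 := EVP_w_mem hv
  have h2 := EVP_nw h (by linarith [h1.2]) (by linarith [h1.1])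
  linarith [h1.1]

private theorem EVP_slab_nhds {z : V2} (hz : z ∈ EVP_arc true) (h1 : 0 < EVP_g z - 7)
    (h2 : EVP_g z - 7 < 1) : EVP_arc true ∈ 𝓝[gam] z := by
  obtain ⟨_, hg⟩ := EVP_g_arc hz
  have hε : 0 < min (EVP_g z - 7) (8 - EVP_g z) := lt_min h1 (by linarith)
  have h3 := wnd_open (EVP_g z) hε
  rw [hg] at h3
  refine Filter.mem_of_superset h3 ?_
  rintro _ ⟨s, hs, rfl⟩
  have h4 := min_le_left (EVP_g z - 7) (8 - EVP_g z)
  have h5 := min_le_right (EVP_g z - 7) (8 - EVP_g z)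
  exact ⟨s, ⟨by linarith [hs.1], by linarith [hs.2]⟩, rfl⟩

/-- The functions on the product. -/
private noncomputable def EVP_phi {n : ℕ} {N : Set E} {R : Type*} [CommRing R] (D : EvC n N R)
    (i : Fin (n + 1)) (a : D.ι × Bool) (x : E × V2) : R :=
  Fin.snoc (α := fun _ => R) (fun j => D.φ j a.1 x.1) (EVP_last R a.2 x.2) i

private theorem EVP_phi_c {n : ℕ} {N : Set E} {R : Type*} [CommRing R] (D : EvC n N R)
    (i : Fin n) (a : D.ι × Bool) (x : E × V2) :
    EVP_phi D i.castSucc a x = D.φ i a.1 x.1 := by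
  unfold EVP_phi
  rw [Fin.snoc_castSucc]

private theorem EVP_phi_l {n : ℕ} {N : Set E} {R : Type*} [CommRing R] (D : EvC n N R)
    (a : D.ι × Bool) (x : E × V2) :
    EVP_phi D (Fin.last n) a x = EVP_last R a.2 x.2 := by
  unfold EVP_phi
  rw [Fin.snoc_last]

private noncomputable def EVP_y {n : ℕ} {N : Set E} {R : Type*} [CommRing R] (D : EvC n N R)
    (x : E × V2) : Fin (n + 1) → ℝ :=
  Fin.snoc (α := fun _ => ℝ) (D.y x.1) (EVP_g x.2 - 7)

private theorem EVP_y_c {n : ℕ} {N : Set E} {R : Type*} [CommRing R] (D : EvC n N R)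
    (x : E × V2) (i : Fin n) : EVP_y D x i.castSucc = D.y x.1 i := by
  unfold EVP_y
  rw [Fin.snoc_castSucc]

private theorem EVP_y_l {n : ℕ} {N : Set E} {R : Type*} [CommRing R] (D : EvC n N R)
    (x : E × V2) : EVP_y D x (Fin.last n) = EVP_g x.2 - 7 := by
  unfold EVP_y
  rw [Fin.snoc_last]

private noncomputable def EVP_D {n : ℕ} {N : Set E} {R : Type*} [CommRing R] (D : EvC n N R) :
    EvC (n + 1) (N ×ˢ gam) R where
  ι := D.ι × Bool
  fin := by
    have := D.fin
    infer_instance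
  A := fun a => D.A a.1 ×ˢ EVP_arc a.2
  poly := fun a => (D.poly a.1).prod (EVP_arc_poly a.2)
  cover := by
    ext ⟨x, z⟩
    constructor
    · rintro ⟨hx, hz⟩
      simp only at hx hz
      rw [D.cover] at hx
      obtain ⟨a, ha⟩ := mem_iUnion.1 hx
      obtain ⟨b, hb⟩ := EVP_arc_cover hz
      exact mem_iUnion.2 ⟨(a, b), ha, hb⟩
    · intro h
      obtain ⟨a, ha⟩ := mem_iUnion.1 h
      refine ⟨?_, EVP_arc_sub _ ha.2⟩
      rw [D.cover]
      exact mem_iUnion.2 ⟨a.1, ha.1⟩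
  φ := EVP_phi D
  compat := by
    intro i a b x hx
    refine Fin.lastCases ?_ (fun j => ?_) i
    · by_cases hab : a.2 = b.2
      · refine ⟨univ, Filter.univ_mem, fun y _ => ?_⟩
        rw [EVP_phi_l, EVP_phi_l, EVP_phi_l, EVP_phi_l, hab, sub_self, sub_self]
      · have hfin : ∀ y : E × V2, y ∈ (D.A a.1 ×ˢ EVP_arc a.2) ∩ (D.A b.1 ×ˢ EVP_arc b.2) →
            y.2 = wnd 0 ∨ y.2 = wnd 7 := by
          rintro y ⟨hya, hyb⟩
          have h1 := hya.2
          have h2 := hyb.2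
          rcases ha2 : a.2 with _ | _ <;> rcases hb2 : b.2 with _ | _
          · exact absurd (ha2.trans hb2.symm) hab
          · rw [ha2] at h1
            rw [hb2] at h2
            exact EVP_arc_inter h2 h1
          · rw [ha2] at h1
            rw [hb2] at h2
            exact EVP_arc_inter h1 h2
          · exact absurd (ha2.trans hb2.symm) hab
        have hfs : (({wnd 0, wnd 7} : Set V2) \ {x.2}).Finite :=
          ((finite_singleton _).insert _).subset sdiff_subset
        refine ⟨Prod.snd ⁻¹' ((({wnd 0, wnd 7} : Set V2) \ {x.2})ᶜ), ?_, ?_⟩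
        · refine continuous_snd.continuousAt.preimage_mem_nhds
            (hfs.isClosed.isOpen_compl.mem_nhds ?_)
          intro h
          exact h.2 rfl
        · rintro y ⟨hyU, hy⟩
          have hy2 : y.2 = x.2 := by
            by_contra hne
            apply hyU
            exact ⟨hfin y hy, hne⟩
          rw [EVP_phi_l, EVP_phi_l, EVP_phi_l, EVP_phi_l, hy2]
    · obtain ⟨U, hU, hc⟩ := D.compat j a.1 b.1 x.1 ⟨hx.1.1, hx.2.1⟩
      refine ⟨Prod.fst ⁻¹' U, continuous_fst.continuousAt.preimage_mem_nhds hU, ?_⟩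
      rintro y ⟨hyU, hy⟩
      rw [EVP_phi_c, EVP_phi_c, EVP_phi_c, EVP_phi_c]
      exact hc y.1 ⟨hyU, hy.1.1, hy.2.1⟩
  o := (D.o, true)
  y := EVP_y D
  pl := by
    have hA : IsPoly (D.A D.o ×ˢ EVP_arc true) := (D.poly D.o).prod (EVP_arc_poly true)
    refine PLOn.pi hA fun i => ?_
    refine Fin.lastCases ?_ (fun j => ?_) i
    · have h1 : PLOn (fun x : E × V2 => EVP_g x.2) (D.A D.o ×ˢ EVP_arc true) :=
        EVP_g_pl.comp (PLOn.affine (LinearMap.snd ℝ E V2).toAffineMap hA) fun x hx => hx.2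
      have h2 := h1.add (PLOn.const hA (-7 : ℝ))
      refine h2.congr fun x _ => ?_
      simp only
      rw [EVP_y_l]
      ring
    · have h1 : PLOn (fun x : E × V2 => D.y x.1 j) (D.A D.o ×ˢ EVP_arc true) :=
        (D.pl.apply j).comp (PLOn.affine (LinearMap.fst ℝ E V2).toAffineMap hA) fun x hx => hx.1
      refine h1.congr fun x _ => ?_
      simp only
      rw [EVP_y_c]
  inj := by
    rintro ⟨x, z⟩ hx ⟨x', z'⟩ hx' he
    have h1 : x = x' := by
      refine D.inj hx.1 hx'.1 ?_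
      funext j
      have := congrFun he j.castSucc
      rwa [EVP_y_c, EVP_y_c] at this
    have h2 : z = z' := by
      have := congrFun he (Fin.last n)
      rw [EVP_y_l, EVP_y_l] at this
      have h3 : EVP_g z = EVP_g z' := by
        simp only at this
        linarith
      exact (EVP_g_arc hx.2).2.symm.trans ((congrArg wnd h3).trans (EVP_g_arc hx'.2).2)
    rw [h1, h2]
  img := by
    ext w
    constructor
    · rintro ⟨x, hx, rfl⟩ i
      refine Fin.lastCases ?_ (fun j => ?_) i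
      · rw [EVP_y_l]
        have := (EVP_g_arc hx.2).1
        constructor <;> linarith [this.1, this.2]
      · rw [EVP_y_c]
        have : D.y x.1 ∈ D.y '' D.A D.o := mem_image_of_mem _ hx.1
        rw [D.img] at this
        exact this j
    · intro hw
      have h1 : (fun j : Fin n => w j.castSucc) ∈ D.y '' D.A D.o := by
        rw [D.img]
        exact fun j => hw j.castSucc
      obtain ⟨x, hx, hxw⟩ := h1
      have hl := hw (Fin.last n)
      have h7 : 7 + w (Fin.last n) ∈ Icc (7 : ℝ) 8 := ⟨by linarith [hl.1], by linarith [hl.2]⟩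
      refine ⟨(x, wnd (7 + w (Fin.last n))), ⟨hx, ⟨_, h7, rfl⟩⟩, ?_⟩
      funext i
      refine Fin.lastCases ?_ (fun j => ?_) i
      · rw [EVP_y_l]
        simp only
        rw [EVP_g_wnd h7]
        ring
      · rw [EVP_y_c]
        exact congrFun hxw j
  nhd := by
    rintro ⟨x, z⟩ hv h
    have h1 : D.A D.o ∈ 𝓝[N] x := by
      refine D.nhd x hv.1 fun j => ?_
      have := h j.castSucc
      rwa [EVP_y_c] at this
    have h2 : EVP_arc true ∈ 𝓝[gam] z := by
      have := h (Fin.last n)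
      rw [EVP_y_l] at this
      exact EVP_slab_nhds hv.2 this.1 this.2
    exact nhdsWithin_prod h1 h2
  wall := by
    intro i v hv
    refine Fin.lastCases ?_ (fun j => ?_) i
    · rw [EVP_y_l, EVP_phi_l]
      obtain ⟨hg1, hg2⟩ := EVP_g_arc hv.2
      show (_ → EVP_last R true v.2 = 1) ∧ (_ → EVP_last R true v.2 = 0)
      rw [EVP_last_true]
      constructor
      · intro h
        have h8 : EVP_g v.2 = 8 := by linarith
        rw [if_pos]
        rw [← hg2, h8, EVP_08]
      · intro h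
        rw [if_neg]
        intro h0
        apply h
        rw [h0, EVP_08, EVP_g_wnd ⟨by norm_num, le_rfl⟩]
        norm_num
    · rw [EVP_y_c, EVP_phi_c]
      exact D.wall j v.1 hv.1
  off := by
    intro a ha
    by_cases h : a.1 = D.o
    · refine ⟨Fin.last n, fun x _ x' _ => ?_⟩
      have hf : a.2 = false := by
        rcases h2 : a.2 with _ | _
        · rfl
        · exact absurd (Prod.ext h h2) ha
      rw [EVP_phi_l, EVP_phi_l, hf, EVP_last_false, EVP_last_false]
    · obtain ⟨i, hi⟩ := D.off a.1 h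
      refine ⟨i.castSucc, fun x hx x' hx' => ?_⟩
      rw [EVP_phi_c, EVP_phi_c]
      exact hi x.1 hx.1 x'.1 hx'.1
  κ := fun v => (D.κ (EVP_t v), wnd (3 + v 0 / 8))
  cube := EVP_cube D.cube
  lc := by
    intro i a u hu hm
    refine Fin.lastCases ?_ (fun j => ?_) i
    · refine ⟨univ, Filter.univ_mem, fun u' hu' _ => ?_⟩
      rw [EVP_phi_l, EVP_phi_l]
      simp only [EVP_last, EVP_ne0 hu, EVP_ne0 hu'.2, and_false]
    · obtain ⟨U, hU, hc⟩ := D.lc j a.1 (EVP_t u) (ball_subset_closedBall (EVP_t_mem hu)) hm.1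
      refine ⟨EVP_t ⁻¹' U, EVP_t_cont.continuousAt.preimage_mem_nhds hU, ?_⟩
      intro u' hu' hm'
      rw [EVP_phi_c, EVP_phi_c]
      exact hc _ ⟨hu'.1, ball_subset_closedBall (EVP_t_mem hu'.2)⟩ hm'.1
  disj := fun u hu h => D.disj _ (ball_subset_closedBall (EVP_t_mem hu)) h.1

theorem EvC.prodGam {n : ℕ} {N : Set E} {R : Type*} [CommRing R] (D : EvC n N R) :
    ∃ D' : EvC (n + 1) (N ×ˢ gam) R,
      (∀ i : Fin n, ∀ a, ∀ v ∈ closedBall (0 : Fin n → ℝ) 2, ∀ z ∈ gam, (D.κ v, z) ∈ D'.A a →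
        ∃ U ∈ 𝓝 (v, z), ∀ q ∈ U, q.1 ∈ closedBall (0 : Fin n → ℝ) 2 → q.2 ∈ gam →
          (D.κ q.1, q.2) ∈ D'.A a →
          D'.φ i.castSucc a (D.κ q.1, q.2) = D'.φ i.castSucc a (D.κ v, z)) ∧
      (∀ a, (∀ x ∈ D'.A a, x.2 ∈ wnd '' Icc 7 8 ∧
            D'.φ (Fin.last n) a x = open Classical in if x.2 = wnd 0 then 1 else 0) ∨
          ∀ x ∈ D'.A a, x.2 ∈ wnd '' Icc 0 7 ∧ D'.φ (Fin.last n) a x = 0) ∧
      D'.A D'.o ⊆ D.A D.o ×ˢ gam ∧
      ∀ v, D'.κ v = (D.κ ((fun _ => 3 / 2) + (1 / 8 : ℝ) • fun i => v i.succ),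
        wnd (3 + v 0 / 8)) := by
  refine ⟨EVP_D D, ?_, ?_, ?_, fun v => rfl⟩
  · intro i a v hv z _ hm
    obtain ⟨U, hU, hc⟩ := D.lc i a.1 v hv hm.1
    refine ⟨Prod.fst ⁻¹' U, continuous_fst.continuousAt.preimage_mem_nhds hU, ?_⟩
    intro q hq hq1 _ hqm
    exact (EVP_phi_c D i a (D.κ q.1, q.2)).trans
      ((hc q.1 ⟨hq, hq1⟩ hqm.1).trans (EVP_phi_c D i a (D.κ v, z)).symm)
  · rintro ⟨a, b⟩
    rcases b with _ | _
    · right
      intro x hx
      refine ⟨hx.2, ?_⟩
      show EVP_phi D (Fin.last n) (a, false) x = 0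
      rw [EVP_phi_l, EVP_last_false]
    · left
      intro x hx
      refine ⟨hx.2, ?_⟩
      show EVP_phi D (Fin.last n) (a, true) x = _
      rw [EVP_phi_l, EVP_last_true]
  · intro x hx
    exact ⟨hx.1, EVP_arc_sub _ hx.2⟩

end Pool.H54.UB
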