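import Pool.Agent.H54.UB.TUB

/-!
# Row EXT: extending a cocycle over a tube on whose boundary it is trivial

Let `A = X \ ι (P × ball 0 1)`.  Step 1: `c` is trivial on the shell `Sh = ι (P × {1 ≤ ‖u‖ ≤ 2}) ⊆ A`
(`NTriv.deform` with `H (ι (z,u), t) = ι (z, (1-t) u + t u/‖u‖)`, written with the inverse of `ι`, which is
continuous on the compact image; `T = ι (P × sphere 0 1)`).  Let `g` be a primitive on the shell; redefine
`g x = 1` for `x ∉ Sh`.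
Step 2: put `c' a b = (g a)⁻¹ * g b` if `a, b ∈ W := ι (P × closedBall 0 2)`, and `c' a b = c a b` otherwise.
* Near a point `x ∈ ι (P × ball 0 2)`: `W` is a neighbourhood in `X`, so `c'` is the coboundary of `g`
  there.
* Near any point `x ∈ A`, for `a, b ∈ A` near `x`: if `a, b ∈ W` then `a, b ∈ Sh` (injectivity of `ι`) and
  `c a b = (g a)⁻¹ * g b = c' a b` provided `x ∈ Sh` and `a, b` are near `x`; if `x ∉ Sh` then (`x ∉ W`,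
  `W` closed) `a, b ∉ W`.  So `c' = c` near `x` on `A`: in particular `c'` satisfies the cocycle identity
  near every point of `A \ ι (P × closedBall 0 1)`, which is open in `X`.
Hence `NCoc c' X`; and `c'` is trivial on `W` (primitive `g`).
-/

open Set Topology Metric

namespace Pool.H54.UB

variable {E G : Type*} [NormedAddCommGroup E] [NormedSpace ℝ E] [FiniteDimensional ℝ E]
  [NormedAddCommGroup G] [NormedSpace ℝ G] [FiniteDimensional ℝ G]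

theorem EXT_congr {X Q : Type*} [TopologicalSpace X] [Group Q] {c c' : X → X → Q} {S : Set X}
    (h : ∀ a ∈ S, ∀ b ∈ S, c a b = c' a b) (hc : NTriv c S) : NTriv c' S := by
  obtain ⟨g, hg⟩ := hc
  refine ⟨g, fun x hx => ?_⟩
  obtain ⟨U, hU, h1⟩ := hg x hx
  exact ⟨U, hU, fun a ha b hb => by rw [← h a ha.2 b hb.2]; exact h1 a ha b hb⟩

theorem EXT_inv {X Y : Type*} [TopologicalSpace X] [TopologicalSpace Y] [T2Space Y] [Nonempty X]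
    {K : Set X} (hK : IsCompact K) {ι : X → Y} (hc : ContinuousOn ι K) (hi : InjOn ι K) :
    ContinuousOn (Function.invFunOn ι K) (ι '' K) := by
  rintro _ ⟨p, hp, rfl⟩
  have hinv : ∀ q ∈ K, Function.invFunOn ι K (ι q) = q := fun q hq => hi.leftInvOn_invFunOn hq
  intro V hV
  rw [hinv p hp] at hV
  have h1 := emb_nhds hK hc hi hp (mem_nhdsWithin_of_mem_nhds hV)
  rw [Filter.mem_map]
  refine Filter.mem_of_superset h1 ?_
  rintro _ ⟨q, ⟨hqV, hqK⟩, rfl⟩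
  show Function.invFunOn ι K (ι q) ∈ V
  rw [hinv q hqK]
  exact hqV

/-- the shell -/
def EXT_sh (k : ℕ) : Set (Fin k → ℝ) := {u | 1 ≤ ‖u‖ ∧ ‖u‖ ≤ 2}

theorem EXT_shell {Q : Type*} [Group Q] {P : Set G} {k : ℕ} {X : Set E}
    {ι : G × (Fin k → ℝ) → E} (h : Tube P k X ι)
    {c : E → E → Q} (hc : NCoc c (ι '' (P ×ˢ EXT_sh k)))
    (ht : NTriv c (ι '' (P ×ˢ sphere (0 : Fin k → ℝ) 1))) : NTriv c (ι '' (P ×ˢ EXT_sh k)) := by
  have hK : IsCompact (P ×ˢ closedBall (0 : Fin k → ℝ) 2) := h.pl.domain.isCompact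
  have hιc := h.pl.continuousOn
  have hsub : P ×ˢ EXT_sh k ⊆ P ×ˢ closedBall (0 : Fin k → ℝ) 2 :=
    prod_mono le_rfl fun u hu => mem_closedBall_zero_iff.2 hu.2
  have hsub1 : P ×ˢ sphere (0 : Fin k → ℝ) 1 ⊆ P ×ˢ closedBall (0 : Fin k → ℝ) 2 :=
    prod_mono le_rfl fun u hu => mem_closedBall_zero_iff.2 (by
      rw [mem_sphere_zero_iff_norm] at hu
      rw [hu]
      norm_num)
  have h1 : NCoc (fun a b => c (ι a) (ι b)) (P ×ˢ EXT_sh k) := NCoc.comp (hιc.mono hsub) hc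
  have h2 : NTriv (fun a b => c (ι a) (ι b)) (P ×ˢ sphere (0 : Fin k → ℝ) 1) :=
    NTriv.comp (hιc.mono hsub1) ht
  have h3 : NTriv (fun a b => c (ι a) (ι b)) (P ×ˢ EXT_sh k) := by
    refine NTriv.deform (T := P ×ˢ sphere (0 : Fin k → ℝ) 1)
      (H := fun q : (G × (Fin k → ℝ)) × ℝ =>
        (q.1.1, ((1 - q.2) + q.2 * ‖q.1.2‖⁻¹) • q.1.2)) ?_ h1 ?_ ?_ ?_ h2
    · have hn : ContinuousOn (fun q : (G × (Fin k → ℝ)) × ℝ => ‖q.1.2‖⁻¹)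
          ((P ×ˢ EXT_sh k) ×ˢ Icc (0 : ℝ) 1) := by
        refine ContinuousOn.inv₀ (by fun_prop) ?_
        rintro ⟨⟨z, u⟩, t⟩ ⟨⟨_, hu⟩, _⟩
        have h4 : 1 ≤ ‖u‖ := hu.1
        show ‖u‖ ≠ 0
        linarith
      have hf : ContinuousOn (fun q : (G × (Fin k → ℝ)) × ℝ => q.2)
          ((P ×ˢ EXT_sh k) ×ˢ Icc (0 : ℝ) 1) := continuous_snd.continuousOn
      have hu : ContinuousOn (fun q : (G × (Fin k → ℝ)) × ℝ => q.1.2)
          ((P ×ˢ EXT_sh k) ×ˢ Icc (0 : ℝ) 1) := (continuous_snd.comp continuous_fst).continuousOn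
      have hz : ContinuousOn (fun q : (G × (Fin k → ℝ)) × ℝ => q.1.1)
          ((P ×ˢ EXT_sh k) ×ˢ Icc (0 : ℝ) 1) := (continuous_fst.comp continuous_fst).continuousOn
      exact hz.prodMk (((continuousOn_const.sub hf).add (hf.mul hn)).smul hu)
    · rintro ⟨z, u⟩ ⟨hz, hu⟩ t ht'
      refine ⟨hz, ?_⟩
      have a1 : 1 ≤ ‖u‖ := hu.1
      have a2 : ‖u‖ ≤ 2 := hu.2
      have a3 : 0 < ‖u‖ := by linarith
      have a4 : ‖(1 - t + t * ‖u‖⁻¹) • u‖ = (1 - t) * ‖u‖ + t := by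
        rw [norm_smul, Real.norm_of_nonneg]
        · field_simp
        · have : 0 ≤ t * ‖u‖⁻¹ := mul_nonneg ht'.1 (inv_nonneg.2 a3.le)
          linarith [ht'.2]
      show 1 ≤ ‖(1 - t + t * ‖u‖⁻¹) • u‖ ∧ ‖(1 - t + t * ‖u‖⁻¹) • u‖ ≤ 2
      rw [a4]
      have b1 := ht'.1
      have b2 := ht'.2
      constructor
      · nlinarith [mul_nonneg (sub_nonneg.2 b2) (sub_nonneg.2 a1)]
      · nlinarith [mul_nonneg (sub_nonneg.2 b2) (sub_nonneg.2 a2)]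
    · rintro ⟨z, u⟩ _
      show (z, ((1 - 0) + 0 * ‖u‖⁻¹) • u) = (z, u)
      rw [sub_zero, zero_mul, add_zero, one_smul]
    · rintro ⟨z, u⟩ ⟨hz, hu⟩
      refine ⟨hz, ?_⟩
      have a1 : 1 ≤ ‖u‖ := hu.1
      have a3 : ‖u‖ ≠ 0 := by
        intro h0
        rw [h0] at a1
        linarith
      show ((1 - 1) + 1 * ‖u‖⁻¹) • u ∈ sphere (0 : Fin k → ℝ) 1
      rw [mem_sphere_zero_iff_norm, sub_self, zero_add, one_mul, norm_smul, norm_inv, norm_norm,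
        inv_mul_cancel₀ a3]
  have hinvK : ∀ q ∈ P ×ˢ closedBall (0 : Fin k → ℝ) 2,
      Function.invFunOn ι (P ×ˢ closedBall (0 : Fin k → ℝ) 2) (ι q) = q :=
    fun q hq => h.inj.leftInvOn_invFunOn hq
  have h5 : NTriv (fun a b => (fun a b => c (ι a) (ι b))
      (Function.invFunOn ι (P ×ˢ closedBall (0 : Fin k → ℝ) 2) a)
      (Function.invFunOn ι (P ×ˢ closedBall (0 : Fin k → ℝ) 2) b)) (ι '' (P ×ˢ EXT_sh k)) := by
    refine NTriv.comp (c := fun a b => c (ι a) (ι b))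
      (φ := Function.invFunOn ι (P ×ˢ closedBall (0 : Fin k → ℝ) 2))
      ((EXT_inv hK hιc h.inj).mono (image_mono hsub)) (h3.mono ?_)
    rintro _ ⟨_, ⟨q, hq, rfl⟩, rfl⟩
    rw [hinvK q (hsub hq)]
    exact hq
  refine EXT_congr ?_ h5
  rintro _ ⟨q, hq, rfl⟩ _ ⟨q', hq', rfl⟩
  simp only [hinvK q (hsub hq), hinvK q' (hsub hq')]

theorem tube_extend {Q : Type*} [Group Q] {P : Set G} {k : ℕ} {X : Set E}
    {ι : G × (Fin k → ℝ) → E} (h : Tube P k X ι) (hP : IsPoly P) (hX : IsClosed X)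
    {c : E → E → Q} (hc : NCoc c (X \ ι '' (P ×ˢ ball (0 : Fin k → ℝ) 1)))
    (ht : NTriv c (ι '' (P ×ˢ sphere (0 : Fin k → ℝ) 1))) :
    ∃ c' : E → E → Q, NCoc c' X ∧
      (∀ x ∈ X \ ι '' (P ×ˢ ball (0 : Fin k → ℝ) 1), ∃ U ∈ 𝓝 x,
        ∀ a ∈ U ∩ (X \ ι '' (P ×ˢ ball (0 : Fin k → ℝ) 1)),
        ∀ b ∈ U ∩ (X \ ι '' (P ×ˢ ball (0 : Fin k → ℝ) 1)), c' a b = c a b) ∧
      NTriv c' (ι '' (P ×ˢ closedBall (0 : Fin k → ℝ) 2)) := by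
  classical
  have hK : IsCompact (P ×ˢ closedBall (0 : Fin k → ℝ) 2) := h.pl.domain.isCompact
  have hιc := h.pl.continuousOn
  have hb1 : P ×ˢ ball (0 : Fin k → ℝ) 1 ⊆ P ×ˢ closedBall (0 : Fin k → ℝ) 2 :=
    prod_mono le_rfl (ball_subset_closedBall.trans (closedBall_subset_closedBall one_le_two))
  have hb1' : P ×ˢ closedBall (0 : Fin k → ℝ) 1 ⊆ P ×ˢ closedBall (0 : Fin k → ℝ) 2 :=
    prod_mono le_rfl (closedBall_subset_closedBall one_le_two)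
  have hW : IsClosed (ι '' (P ×ˢ closedBall (0 : Fin k → ℝ) 2)) :=
    (hK.image_of_continuousOn hιc).isClosed
  have hT : IsClosed (ι '' (P ×ˢ closedBall (0 : Fin k → ℝ) 1)) :=
    ((hP.isCompact.prod (isCompact_closedBall _ _)).image_of_continuousOn
      (hιc.mono hb1')).isClosed
  have hsub : P ×ˢ EXT_sh k ⊆ P ×ˢ closedBall (0 : Fin k → ℝ) 2 :=
    prod_mono le_rfl fun u hu => mem_closedBall_zero_iff.2 hu.2
  set A := X \ ι '' (P ×ˢ ball (0 : Fin k → ℝ) 1) with hAdef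
  set W := ι '' (P ×ˢ closedBall (0 : Fin k → ℝ) 2) with hWdef
  have hShA : ι '' (P ×ˢ EXT_sh k) ⊆ A := by
    rintro _ ⟨p, hp, rfl⟩
    refine ⟨h.maps (hsub hp), ?_⟩
    rintro ⟨q, hq, he⟩
    have hqp := h.inj (hb1 hq) (hsub hp) he
    have h4 := hq.2
    rw [hqp, mem_ball_zero_iff] at h4
    exact absurd hp.2.1 (not_le.2 h4)
  have hAW : ∀ y ∈ A, y ∈ W → y ∈ ι '' (P ×ˢ EXT_sh k) := by
    rintro y hyA ⟨p, hp, rfl⟩
    refine ⟨p, ⟨hp.1, ?_, mem_closedBall_zero_iff.1 hp.2⟩, rfl⟩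
    by_contra hlt
    exact hyA.2 ⟨p, ⟨hp.1, mem_ball_zero_iff.2 (not_le.1 hlt)⟩, rfl⟩
  obtain ⟨g, hg⟩ := EXT_shell h (hc.mono hShA) ht
  have hc'W : ∀ a ∈ W, ∀ b ∈ W,
      (if a ∈ W ∧ b ∈ W then (g a)⁻¹ * g b else c a b) = (g a)⁻¹ * g b :=
    fun a ha b hb => if_pos ⟨ha, hb⟩
  have hloc : ∀ x ∈ A, ∃ U ∈ 𝓝 x, ∀ a ∈ U ∩ A, ∀ b ∈ U ∩ A,
      (if a ∈ W ∧ b ∈ W then (g a)⁻¹ * g b else c a b) = c a b := by
    intro x hx
    by_cases hxW : x ∈ W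
    · obtain ⟨U, hU, h1⟩ := hg x (hAW x hx hxW)
      refine ⟨U, hU, fun a ha b hb => ?_⟩
      by_cases hab : a ∈ W ∧ b ∈ W
      · rw [if_pos hab]
        exact (h1 a ⟨ha.1, hAW a ha.2 hab.1⟩ b ⟨hb.1, hAW b hb.2 hab.2⟩).symm
      · rw [if_neg hab]
    · refine ⟨Wᶜ, hW.isOpen_compl.mem_nhds hxW, fun a ha b hb => ?_⟩
      rw [if_neg (fun hab => ha.1 hab.1)]
  refine ⟨fun a b => if a ∈ W ∧ b ∈ W then (g a)⁻¹ * g b else c a b, ?_, hloc, ?_⟩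
  · intro x hx
    by_cases hxb : x ∈ ι '' (P ×ˢ ball (0 : Fin k → ℝ) 2)
    · obtain ⟨p, hp, rfl⟩ := hxb
      obtain ⟨U, hU, hUX⟩ := mem_nhdsWithin_iff_exists_mem_nhds_inter.1 (h.nhd p hp)
      refine ⟨U, hU, fun a ha b hb d hd => ?_⟩
      simp only [hc'W a (hUX ha) b (hUX hb), hc'W b (hUX hb) d (hUX hd), hc'W a (hUX ha) d (hUX hd)]
      group
    · have hxT : x ∉ ι '' (P ×ˢ closedBall (0 : Fin k → ℝ) 1) := by
        intro h1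
        refine hxb (image_mono (prod_mono le_rfl ?_) h1)
        exact closedBall_subset_ball one_lt_two
      have hUA : ∀ y ∈ (ι '' (P ×ˢ closedBall (0 : Fin k → ℝ) 1))ᶜ ∩ X, y ∈ A := by
        rintro y ⟨hy1, hy2⟩
        refine ⟨hy2, fun h1 => hy1 (image_mono (prod_mono le_rfl ball_subset_closedBall) h1)⟩
      have hxA : x ∈ A := hUA x ⟨hxT, hx⟩
      obtain ⟨U1, hU1, h1⟩ := hc x hxA
      obtain ⟨U2, hU2, h2⟩ := hloc x hxA
      refine ⟨(ι '' (P ×ˢ closedBall (0 : Fin k → ℝ) 1))ᶜ ∩ (U1 ∩ U2),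
        Filter.inter_mem (hT.isOpen_compl.mem_nhds hxT) (Filter.inter_mem hU1 hU2), ?_⟩
      intro a ha b hb d hd
      have ha' := hUA a ⟨ha.1.1, ha.2⟩
      have hb' := hUA b ⟨hb.1.1, hb.2⟩
      have hd' := hUA d ⟨hd.1.1, hd.2⟩
      have e1 := h2 a ⟨ha.1.2.2, ha'⟩ b ⟨hb.1.2.2, hb'⟩
      have e2 := h2 b ⟨hb.1.2.2, hb'⟩ d ⟨hd.1.2.2, hd'⟩
      have e3 := h2 a ⟨ha.1.2.2, ha'⟩ d ⟨hd.1.2.2, hd'⟩
      simp only [e1, e2, e3]
      exact h1 a ⟨ha.1.2.1, ha'⟩ b ⟨hb.1.2.1, hb'⟩ d ⟨hd.1.2.1, hd'⟩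
  · exact ⟨g, fun x _ => ⟨univ, Filter.univ_mem, fun a ha b hb => hc'W a ha.2 b hb.2⟩⟩

/-- If the extended cocycle is trivial, so is the given one. -/
theorem NTriv.of_local_eq {X Q : Type*} [TopologicalSpace X] [Group Q] {c c' : X → X → Q}
    {S : Set X} (h : ∀ x ∈ S, ∃ U ∈ 𝓝 x, ∀ a ∈ U ∩ S, ∀ b ∈ U ∩ S, c' a b = c a b)
    (hc : NTriv c' S) : NTriv c S := by
  obtain ⟨g, hg⟩ := hc
  refine ⟨g, fun x hx => ?_⟩
  obtain ⟨U, hU, h1⟩ := hg x hx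
  obtain ⟨U', hU', h2⟩ := h x hx
  refine ⟨U ∩ U', Filter.inter_mem hU hU', fun a ha b hb => ?_⟩
  rw [← h2 a ⟨ha.1.2, ha.2⟩ b ⟨hb.1.2, hb.2⟩]
  exact h1 a ⟨ha.1.1, ha.2⟩ b ⟨hb.1.1, hb.2⟩

end Pool.H54.UB
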