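import Pool.Agent.H54.UB.GRM

/-!
# Row GRC: connectivity through facets in `ℝ^m`

Proof.  `D` is open, `convexHull a` has nonempty interior and is the closure of its interior, so
there is `x ∈ interior (convexHull a) ∩ D`; similarly the set `interior (convexHull b) ∩ D` is open and
nonempty; choose in it a point `y` outside all the affine subspaces `affineSpan (insert x r)`, `r` a
face with at most `m-1` vertices (`dim ≤ m-1`, proper subspaces; finitely many have empty interior).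
Then no point of the segment `[x, y]` lies in `convexHull r` for such an `r` (except if `x` itself were
in `affineSpan r`: choose also `x` outside the finitely many `affineSpan r`): if
`z ∈ [x,y] ∩ affineSpan r`, `z ≠ x`, then `y` is in `affineSpan (insert x r)`.
So all points `z` of `[x,y] ⊆ D ⊆ L.space` have a carrier with `m` or `m+1` vertices.  Each `z ∈ D`
lies in the hull of a face with `m+1` vertices (`exists_top_of_interior`).  The sets
`F = {τ ∈ [0,1] | z_τ in the hull of a face a' with m+1 vertices and P a'}`,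
`G = {.. and ¬ P a'}` are closed, cover `[0,1]`; `0 ∈ F` (the only face with `m+1` vertices that
contains `x` is `a`: its carrier is `a`).  If `¬ P b` then `1 ∈ G`, so by connectedness of `[0,1]`
there is `τ ∈ F ∩ G`: `z_τ ∈ conv a' ∩ conv a''`, `P a'`, `¬ P a''`; the carrier `r` of `z_τ` is contained
in both; if it has `m+1` vertices then `a' = r = a''`, contradiction; if it has `m` vertices then `hP`
gives `P a''`, contradiction.
-/

open Set Topology

namespace Pool.H54.UB

theorem GRC_thin {m : ℕ} {s : Finset (Fin m → ℝ)} (hs : s.Nonempty) (hc : s.card ≤ m) :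
    MeasureTheory.volume (affineSpan ℝ (s : Set (Fin m → ℝ)) : Set (Fin m → ℝ)) = 0 := by
  classical
  have h1 : affineSpan ℝ (s : Set (Fin m → ℝ)) ≠ ⊤ := by
    intro h
    have h2 : vectorSpan ℝ (s : Set (Fin m → ℝ)) = ⊤ := by
      rw [← direction_affineSpan, h, AffineSubspace.direction_top]
    have h3 : Module.finrank ℝ (vectorSpan ℝ (s : Set (Fin m → ℝ))) = m := by
      rw [h2, finrank_top, Module.finrank_fin_fun]
    obtain ⟨n, hn⟩ : ∃ n, s.card = n + 1 := ⟨s.card - 1, by have := hs.card_pos; omega⟩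
    have h4 := finrank_vectorSpan_image_finset_le ℝ (id : (Fin m → ℝ) → (Fin m → ℝ)) s hn
    rw [Finset.image_id] at h4
    omega
  exact MeasureTheory.Measure.addHaar_affineSubspace _ _ h1

theorem GRC_avoid {m : ℕ} {U : Set (Fin m → ℝ)} (hU : IsOpen U) (hne : U.Nonempty)
    {A : Set (Finset (Fin m → ℝ))} (hA : A.Finite)
    (h : ∀ s ∈ A, s.Nonempty ∧ s.card ≤ m) :
    ∃ x ∈ U, ∀ s ∈ A, x ∉ affineSpan ℝ (s : Set (Fin m → ℝ)) := by
  by_contra hc
  push Not at hc
  have hpos := hU.measure_pos MeasureTheory.volume hne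
  have hsub : U ⊆ ⋃ s ∈ A, (affineSpan ℝ (s : Set (Fin m → ℝ)) : Set (Fin m → ℝ)) := by
    intro x hx
    obtain ⟨s, hs, h1⟩ := hc x hx
    exact Set.mem_iUnion₂.2 ⟨s, hs, h1⟩
  have hz : MeasureTheory.volume
      (⋃ s ∈ A, (affineSpan ℝ (s : Set (Fin m → ℝ)) : Set (Fin m → ℝ))) = 0 := by
    rw [MeasureTheory.measure_biUnion_null_iff hA.countable]
    intro s hs
    exact GRC_thin (h s hs).1 (h s hs).2
  exact hpos.ne' (MeasureTheory.measure_mono_null hsub hz)

theorem GRC_int {m : ℕ} (L : GC (Fin m → ℝ)) {D : Set (Fin m → ℝ)} (hD : IsOpen D)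
    {a : Finset (Fin m → ℝ)} (ha : a ∈ L.faces) (hac : a.card = m + 1)
    (hDa : (convexHull ℝ (a : Set (Fin m → ℝ)) ∩ D).Nonempty) :
    (interior (convexHull ℝ (a : Set (Fin m → ℝ))) ∩ D).Nonempty := by
  have hind := GC.affineIndependent ha
  have htop : affineSpan ℝ (a : Set (Fin m → ℝ)) = ⊤ := by
    have h1 : affineSpan ℝ (Set.range fun x : a => (x : Fin m → ℝ)) = ⊤ := by
      rw [hind.affineSpan_eq_top_iff_card_eq_finrank_add_one, Fintype.card_coe, hac,
        Module.finrank_fin_fun]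
    have h2 : (Set.range fun x : a => (x : Fin m → ℝ)) = (a : Set (Fin m → ℝ)) := by
      ext x
      simp
    rwa [h2] at h1
  have hne : (interior (convexHull ℝ (a : Set (Fin m → ℝ)))).Nonempty :=
    interior_convexHull_nonempty_iff_affineSpan_eq_top.2 htop
  obtain ⟨x, hx, hxD⟩ := hDa
  have h1 : x ∈ closure (interior (convexHull ℝ (a : Set (Fin m → ℝ)))) := by
    rw [(convex_convexHull ℝ _).closure_interior_eq_closure_of_nonempty_interior hne]
    exact subset_closure hx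
  obtain ⟨y, hy1, hy2⟩ := mem_closure_iff.1 h1 D hD hxD
  exact ⟨y, hy2, hy1⟩

theorem GC.conn_convex {m : ℕ} (L : GC (Fin m → ℝ)) (D : Set (Fin m → ℝ)) (hD : IsOpen D)
    (hDc : Convex ℝ D) (hDs : D ⊆ L.space) (P : Finset (Fin m → ℝ) → Prop)
    (hP : ∀ a ∈ L.faces, ∀ b ∈ L.faces, a.card = m + 1 → b.card = m + 1 → P a →
      (∃ (r : Finset (Fin m → ℝ)) (x : Fin m → ℝ),
        x ∈ D ∧ L.IsCarrier x r ∧ r ⊆ a ∧ r ⊆ b ∧ r.card = m) → P b)
    {a b : Finset (Fin m → ℝ)} (ha : a ∈ L.faces) (hb : b ∈ L.faces) (hac : a.card = m + 1)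
    (hbc : b.card = m + 1) (hDa : (convexHull ℝ (a : Set (Fin m → ℝ)) ∩ D).Nonempty)
    (hDb : (convexHull ℝ (b : Set (Fin m → ℝ)) ∩ D).Nonempty) (hPa : P a) : P b := by
  classical
  by_contra hPb
  obtain ⟨x, ⟨hx1, hx2⟩, hx3⟩ := GRC_avoid (A := {r | r ∈ L.faces ∧ r.card < m})
    (isOpen_interior.inter hD) (GRC_int L hD ha hac hDa) (L.fin.subset fun r hr => hr.1)
    (fun r hr => ⟨L.ne r hr.1, hr.2.le⟩)
  obtain ⟨y, ⟨hy1, hy2⟩, hy3⟩ := GRC_avoid
    (A := (fun r : Finset (Fin m → ℝ) => insert x r) '' {r | r ∈ L.faces ∧ r.card < m})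
    (isOpen_interior.inter hD) (GRC_int L hD hb hbc hDb)
    ((L.fin.subset fun r hr => hr.1).image _)
    (by
      rintro _ ⟨r, hr, rfl⟩
      refine ⟨Finset.insert_nonempty _ _, ?_⟩
      have h1 := Finset.card_insert_le x r
      have h2 := hr.2
      show (insert x r : Finset (Fin m → ℝ)).card ≤ m
      omega)
  have hcl : ∀ Q : Finset (Fin m → ℝ) → Prop, IsClosed (⋃ t ∈ {t | t ∈ L.faces ∧ Q t},
      convexHull ℝ (t : Set (Fin m → ℝ))) := fun Q =>
    (L.fin.subset fun t ht => ht.1).isClosed_biUnion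
      (fun t _ => (t.finite_toSet.isCompact_convexHull ℝ).isClosed)
  have hpre := (convex_segment (𝕜 := ℝ) x y).isPreconnected
  obtain ⟨z, hz, hz1, hz2⟩ := isPreconnected_closed_iff.1 hpre _ _
    (hcl fun t => t.card = m + 1 ∧ P t) (hcl fun t => t.card = m + 1 ∧ ¬ P t)
    (by
      intro z hz
      have hzD : z ∈ D := hDc.segment_subset hx2 hy2 hz
      obtain ⟨t, ht, htc, hzt⟩ := L.exists_top_of_interior (interior_maximal hDs hD hzD)
      by_cases h : P t
      · exact Or.inl (Set.mem_iUnion₂.2 ⟨t, ⟨ht, htc, h⟩, hzt⟩)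
      · exact Or.inr (Set.mem_iUnion₂.2 ⟨t, ⟨ht, htc, h⟩, hzt⟩))
    ⟨x, left_mem_segment ℝ x y, Set.mem_iUnion₂.2 ⟨a, ⟨ha, hac, hPa⟩, interior_subset hx1⟩⟩
    ⟨y, right_mem_segment ℝ x y, Set.mem_iUnion₂.2 ⟨b, ⟨hb, hbc, hPb⟩, interior_subset hy1⟩⟩
  obtain ⟨a', ⟨ha', hac', hPa'⟩, hza'⟩ := Set.mem_iUnion₂.1 hz1
  obtain ⟨b', ⟨hb', hbc', hPb'⟩, hzb'⟩ := Set.mem_iUnion₂.1 hz2
  obtain ⟨r, hra, hr⟩ := GC.exists_carrier ha' hza'
  have hrb := GC.carrier_sub hb' hzb' hr
  have hzD : z ∈ D := hDc.segment_subset hx2 hy2 hz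
  rcases lt_trichotomy r.card m with h | h | h
  · have hzr : z ∈ affineSpan ℝ (r : Set (Fin m → ℝ)) :=
      convexHull_subset_affineSpan _ hr.mem_hull
    rw [segment_eq_image_lineMap] at hz
    obtain ⟨τ, hτ, rfl⟩ := hz
    rcases eq_or_ne τ 0 with h0 | h0
    · rw [h0, AffineMap.lineMap_apply_zero] at hzr
      exact hx3 r ⟨hr.1, h⟩ hzr
    · have h1 : y = AffineMap.lineMap x (AffineMap.lineMap x y τ) τ⁻¹ := by
        simp only [AffineMap.lineMap_apply_module']
        rw [add_sub_cancel_right, smul_smul, inv_mul_cancel₀ h0, one_smul, sub_add_cancel]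
      apply hy3 (insert x r) ⟨r, ⟨hr.1, h⟩, rfl⟩
      rw [h1]
      apply AffineMap.lineMap_mem
      · exact subset_affineSpan ℝ _ (by simp)
      · exact affineSpan_mono ℝ (by simp) hzr
  · exact hPb' (hP a' ha' b' hb' hac' hbc' hPa' ⟨r, z, hzD, hr, hra, hrb, h⟩)
  · have h1 : r = a' := Finset.eq_of_subset_of_card_le hra (by omega)
    have h2 : r = b' := Finset.eq_of_subset_of_card_le hrb (by omega)
    exact hPb' (h2 ▸ h1 ▸ hPa')

end Pool.H54.UB
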