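import Pool.Agent.H54.UB.PUR
import Pool.Agent.H54.UB.GRC

/-!
# Row LCN: local connectivity through facets

Proof.  Let `x` be the barycentre of `s`; chart `(U, h)` at `x`; `L, L'` from `chart_refine` with
`Y` = hulls of the faces of `K`.  Let `V ∋ x` be open with: `V ∩ M ⊆ U`, and all points of `V ∩ M` have a
`K`-carrier containing `s` (`GC.exists_nhd_star`).  Choose an open ball (convex) `D` around `h x`,
`D ⊆ cube m`, with `h⁻¹(D) ∩ U ⊆ V` (the inverse of `h : U → cube` is continuous: `U` compact).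

For an `L'`-face `a' = h(a₁)` with `m+1` vertices let `τ(a') =` the `K`-carrier of the barycentre of
`a₁`: a face of `K` with `convexHull a₁ ⊆ convexHull τ(a')`, so it has `m+1` vertices
(`card_le_of_hull_subset`, `GC.pure`).  Put `P' a' :⟺ P (τ a')`.

Hypothesis of `GC.conn_convex` for `P'`: `a' = h(a₁)`, `b' = h(b₁)` share `r' = h(r₁)` with `m` vertices,
and some `z ∈ D` has carrier `r'`; `z = h y`, `y ∈ V` with `L`-carrier `r₁` (carriers correspond).  If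
`τ a' = τ b'` nothing to do.  Otherwise let `r` be the `K`-carrier of `y`: `s ⊆ r` (as `y ∈ V`), `r ⊆ τ a'`,
`r ⊆ τ b'` (`carrier_sub`, as `y ∈ convexHull a₁ ⊆ convexHull (τ a')`), and `r.card ≥ m` since
`convexHull r₁ ⊆ convexHull r` (`carrier_refine`); `r.card = m`, otherwise `r = τ a' = τ b'`.  So `hP`
applies.

The given faces `a, b ⊇ s`: `x ∈ convexHull a`; `GC.exists_face_dim` for `a` and the open set
`V' = V ∩ h⁻¹(D)`-like neighbourhood of `x` gives an `L`-face `a₁` with `m+1` vertices,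
`convexHull a₁ ⊆ convexHull a`, and a point `y` of it with `h y ∈ D`, `K`-carrier of `y` equal to `a`, so
`τ (h a₁) = a`.  Similarly `b`.  Conclude with `GC.conn_convex`.
-/

open Set Topology

namespace Pool.H54.UB

variable {E : Type*} [NormedAddCommGroup E] [NormedSpace ℝ E] [FiniteDimensional ℝ E]

omit [FiniteDimensional ℝ E] in
private theorem LCN_bary (K : GC E) {s : Finset E} (hs : s ∈ K.faces) : ∃ x, K.IsCarrier x s := by
  have hn : (0 : ℝ) < s.card := by exact_mod_cast (K.ne s hs).card_pos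
  refine ⟨_, hs, fun _ => 1 / (s.card : ℝ), fun _ _ => by positivity, ?_, rfl⟩
  rw [Finset.sum_const, nsmul_eq_mul]
  field_simp

omit [FiniteDimensional ℝ E] in
private theorem LCN_vert {L : GC E} {s : Finset E} (hs : s ∈ L.faces) {v : E} (hv : v ∈ s) :
    v ∈ L.space :=
  Set.mem_iUnion₂.2 ⟨s, hs, subset_convexHull ℝ _ hv⟩

omit [FiniteDimensional ℝ E] in
private theorem LCN_sub {F : Type*} {L : GC E} {h : E → F} (hi : InjOn h L.space)
    {r a : Finset E} {r' a' : Finset F} (hr : r ∈ L.faces) (ha : a ∈ L.faces)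
    (er : (r' : Set F) = h '' (r : Set E)) (ea : (a' : Set F) = h '' (a : Set E))
    (hra : r' ⊆ a') : r ⊆ a := by
  intro v hv
  have h1 : h v ∈ (a' : Set F) := hra (by
    rw [← Finset.mem_coe, er]
    exact mem_image_of_mem h hv)
  rw [ea] at h1
  obtain ⟨w, hw, hwv⟩ := h1
  rw [← hi (LCN_vert ha hw) (LCN_vert hr hv) hwv]
  exact hw

omit [FiniteDimensional ℝ E] in
private theorem LCN_card {F : Type*} {L : GC E} {h : E → F} (hi : InjOn h L.space)
    {r : Finset E} {r' : Finset F} (hr : r ∈ L.faces)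
    (er : (r' : Set F) = h '' (r : Set E)) : r'.card = r.card := by
  classical
  have h1 : r' = r.image h := by
    apply Finset.coe_injective
    rw [er, Finset.coe_image]
  rw [h1]
  exact Finset.card_image_of_injOn (hi.mono fun v hv => LCN_vert hr hv)

theorem GC.localConn {m : ℕ} {M : Set E} (hM : IsClosedPLManifold m M) (K : GC E)
    (hK : K.space = M) (s : Finset E) (hs : s ∈ K.faces) (P : Finset E → Prop)
    (hP : ∀ a ∈ K.faces, ∀ b ∈ K.faces, a.card = m + 1 → b.card = m + 1 →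
      (∃ r : Finset E, s ⊆ r ∧ r ⊆ a ∧ r ⊆ b ∧ r.card = m) → P a → P b)
    (a b : Finset E) (ha : a ∈ K.faces) (hb : b ∈ K.faces) (hac : a.card = m + 1)
    (hbc : b.card = m + 1) (hsa : s ⊆ a) (hsb : s ⊆ b) : P a → P b := by
  classical
  intro hPa
  obtain ⟨x, hx⟩ := LCN_bary K hs
  have hxs := hx.mem_hull
  have hxM : x ∈ M := by
    rw [← hK]
    exact Set.mem_iUnion₂.2 ⟨s, hs, hxs⟩
  obtain ⟨U, h, hc, hxU, hUn, hint⟩ := hM.2 x hxM
  obtain ⟨hUM, hPL, hinj, himg⟩ := hc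
  obtain ⟨Y, hY1, hY2⟩ := K.exists_hulls
  obtain ⟨L, L', hL, had, -, hL', hfac, hcar, -⟩ := chart_refine ⟨hUM, hPL, hinj, himg⟩ Y hY2
  have had' : ∀ t ∈ K.faces, L.Adapted (convexHull ℝ (t : Set E)) := fun t ht =>
    had _ ((hY1 _).2 ⟨t, ht, rfl⟩)
  have hinjL : InjOn h L.space := by rw [hL]; exact hinj
  have hpure := GC.pure hM K hK
  -- the neighbourhoods
  obtain ⟨O1, hO1, hxO1, hO1U⟩ := mem_nhdsWithin.1 hUn
  obtain ⟨O2', hO2', hstar'⟩ := GC.exists_nhd_star hx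
  obtain ⟨O2, hO2s, hO2, hxO2⟩ := mem_nhds_iff.1 hO2'
  obtain ⟨V, hV⟩ : ∃ V : Set E, V = O1 ∩ O2 := ⟨_, rfl⟩
  have hVo : IsOpen V := by rw [hV]; exact hO1.inter hO2
  have hxV : x ∈ V := by rw [hV]; exact ⟨hxO1, hxO2⟩
  have hstar : ∀ y ∈ V ∩ M, ∀ t, K.IsCarrier y t → s ⊆ t := by
    rintro y ⟨hy, hyM⟩ t ht
    rw [hV] at hy
    exact hstar' y ⟨hO2s hy.2, hK ▸ hyM⟩ t ht
  have hUc : IsCompact U := hPL.domain.isCompact
  have hhc : ContinuousOn h U := hPL.continuousOn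
  have hCc : IsClosed (h '' (U \ V)) :=
    ((hUc.diff hVo).image_of_continuousOn (hhc.mono sdiff_subset)).isClosed
  have hxC : h x ∉ h '' (U \ V) := by
    rintro ⟨y, hy, hyx⟩
    rw [hinj hy.1 hxU hyx] at hy
    exact hy.2 hxV
  obtain ⟨ε, hε, hball⟩ := Metric.isOpen_iff.1 (hCc.isOpen_compl.inter isOpen_interior) (h x)
    ⟨hxC, interior_cube_mem hint⟩
  obtain ⟨D, hD⟩ : ∃ D : Set (Fin m → ℝ), D = Metric.ball (h x) ε := ⟨_, rfl⟩
  rw [← hD] at hball
  have hDV : ∀ y ∈ U, h y ∈ D → y ∈ V := by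
    intro y hy hyD
    by_contra hyV
    exact (hball hyD).1 ⟨y, ⟨hy, hyV⟩, rfl⟩
  have hDo : IsOpen D := by rw [hD]; exact Metric.isOpen_ball
  have hDL : D ⊆ L'.space := by
    rw [hL']
    exact fun z hz => interior_subset (hball hz).2
  -- the transported property
  obtain ⟨P', hP'⟩ : ∃ P' : Finset (Fin m → ℝ) → Prop, ∀ a', P' a' ↔
      ∀ (a₁ : Finset E) (y : E) (c : Finset E), a₁ ∈ L.faces →
        (a' : Set (Fin m → ℝ)) = h '' (a₁ : Set E) → L.IsCarrier y a₁ → K.IsCarrier y c → P c :=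
    ⟨_, fun _ => Iff.rfl⟩
  -- the K-carrier of a point with a top dimensional L-carrier
  have htop : ∀ (a₁ c : Finset E) (y : E), L.IsCarrier y a₁ → K.IsCarrier y c →
      a₁.card = m + 1 → c ∈ K.faces ∧ c.card = m + 1 ∧
        convexHull ℝ (a₁ : Set E) ⊆ convexHull ℝ (c : Set E) := by
    intro a₁ c y h1 h2 h3
    have h4 := (GC.carrier_refine had' h1 h1 h2).2
    have h5 := card_le_of_hull_subset (GC.affineIndependent h1.1) h4
    have h6 := hpure.2 c h2.1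
    exact ⟨h2.1, by omega, h4⟩
  have hP'' : ∀ a' ∈ L'.faces, ∀ b' ∈ L'.faces, a'.card = m + 1 → b'.card = m + 1 → P' a' →
      (∃ (r : Finset (Fin m → ℝ)) (x : Fin m → ℝ),
        x ∈ D ∧ L'.IsCarrier x r ∧ r ⊆ a' ∧ r ⊆ b' ∧ r.card = m) → P' b' := by
    rintro a' ha' b' hb' hac' hbc' hPa' ⟨r', z, hzD, hzr', hra', hrb', hrc'⟩
    rw [hP'] at hPa' ⊢
    intro b₁ yb β hb₁ eb hyb hβ
    obtain ⟨a₁, ha₁, ea⟩ := (hfac a').1 ha'
    obtain ⟨ya, hya⟩ := LCN_bary L ha₁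
    have hyaM : ya ∈ K.space := by
      rw [hK]
      apply hUM
      rw [← hL]
      exact Set.mem_iUnion₂.2 ⟨a₁, ha₁, hya.mem_hull⟩
    obtain ⟨α, hα⟩ := GC.exists_carrier' hyaM
    have hPα : P α := hPa' a₁ ya α ha₁ ea hya hα
    have ca₁ : a₁.card = m + 1 := by rw [← LCN_card hinjL ha₁ ea, hac']
    have cb₁ : b₁.card = m + 1 := by rw [← LCN_card hinjL hb₁ eb, hbc']
    obtain ⟨hαK, cα, sα⟩ := htop a₁ α ya hya hα ca₁
    obtain ⟨hβK, cβ, sβ⟩ := htop b₁ β yb hyb hβ cb₁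
    -- the point `y` above `z`
    have hz : z ∈ h '' U := by
      rw [himg, ← hL']
      exact hDL hzD
    obtain ⟨y, hyU, rfl⟩ := hz
    have hyV := hDV y hyU hzD
    obtain ⟨r₁, hr₁⟩ := GC.exists_carrier' (K := L) (x := y) (by rw [hL]; exact hyU)
    have er : (r' : Set (Fin m → ℝ)) = h '' (r₁ : Set E) := by
      have h1 := hcar y r₁ hr₁ (r₁.image h) (by rw [Finset.coe_image])
      rw [GC.carrier_unique hzr' h1, Finset.coe_image]
    have hr₁a : r₁ ⊆ a₁ := LCN_sub hinjL hr₁.1 ha₁ er ea hra'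
    have hr₁b : r₁ ⊆ b₁ := LCN_sub hinjL hr₁.1 hb₁ er eb hrb'
    have cr₁ : r₁.card = m := by rw [← LCN_card hinjL hr₁.1 er, hrc']
    have hyM : y ∈ M := hUM hyU
    obtain ⟨r, hr⟩ := GC.exists_carrier' (K := K) (x := y) (by rw [hK]; exact hyM)
    have hsr : s ⊆ r := hstar y ⟨hyV, hyM⟩ r hr
    have hyr₁ := hr₁.mem_hull
    have hrα : r ⊆ α := GC.carrier_sub hαK
      (sα (convexHull_mono (by exact_mod_cast hr₁a) hyr₁)) hr
    have hrβ : r ⊆ β := GC.carrier_sub hβK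
      (sβ (convexHull_mono (by exact_mod_cast hr₁b) hyr₁)) hr
    have hcr : m ≤ r.card := by
      have h4 := (GC.carrier_refine had' hr₁ hr₁ hr).2
      have h5 := card_le_of_hull_subset (GC.affineIndependent hr₁.1) h4
      omega
    by_cases hrm : r.card = m
    · exact hP α hαK β hβK cα cβ ⟨r, hsr, hrα, hrβ, hrm⟩ hPα
    · have e1 : r = α := Finset.eq_of_subset_of_card_le hrα (by omega)
      have e2 : r = β := Finset.eq_of_subset_of_card_le hrβ (by omega)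
      rw [← e2, e1]
      exact hPα
  -- the faces over `a` and `b`
  have hcont : h ⁻¹' D ∈ 𝓝[U] x := hhc x hxU (hDo.mem_nhds (by
    rw [hD]
    exact Metric.mem_ball_self hε))
  obtain ⟨O3, hO3, hxO3, hO3D⟩ := mem_nhdsWithin.1 hcont
  have hface : ∀ c : Finset E, c ∈ K.faces → c.card = m + 1 → s ⊆ c →
      ∃ c₁ ∈ L.faces, c₁.card = m + 1 ∧ ∃ y, h y ∈ D ∧ L.IsCarrier y c₁ ∧ K.IsCarrier y c := by
    intro c hcK hcc hsc
    have hxc : x ∈ convexHull ℝ (c : Set E) := convexHull_mono (by exact_mod_cast hsc) hxs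
    obtain ⟨c₁, hc₁, cc₁, -, y, hyO, hyc₁, hyc⟩ := GC.exists_face_dim hcK (had' c hcK)
      (hVo.inter hO3) (x := x) ⟨hxV, hxO3⟩ hxc (by
        rintro y ⟨hyc, hyV, -⟩
        rw [hL]
        rw [hV] at hyV
        refine hO1U ⟨hyV.1, ?_⟩
        rw [← hK]
        exact Set.mem_iUnion₂.2 ⟨c, hcK, hyc⟩)
    refine ⟨c₁, hc₁, cc₁.trans hcc, y, ?_, hyc₁, hyc⟩
    have hyU : y ∈ U := by
      rw [← hL]
      exact Set.mem_iUnion₂.2 ⟨c₁, hc₁, hyc₁.mem_hull⟩
    exact hO3D ⟨hyO.2, hyU⟩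
  obtain ⟨a₁, ha₁, ca₁, ya, hyaD, hya, hyaK⟩ := hface a ha hac hsa
  obtain ⟨b₁, hb₁, cb₁, yb, hybD, hyb, hybK⟩ := hface b hb hbc hsb
  have ea : ((a₁.image h : Finset (Fin m → ℝ)) : Set (Fin m → ℝ)) = h '' (a₁ : Set E) :=
    Finset.coe_image
  have eb : ((b₁.image h : Finset (Fin m → ℝ)) : Set (Fin m → ℝ)) = h '' (b₁ : Set E) :=
    Finset.coe_image
  have hPa' : P' (a₁.image h) := by
    rw [hP']
    intro a₂ y₂ c ha₂ e₂ hy₂ hc₂
    have e3 : a₂ = a₁ := Finset.Subset.antisymm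
      (LCN_sub hinjL ha₂ ha₁ e₂ ea (Finset.Subset.refl _))
      (LCN_sub hinjL ha₁ ha₂ ea e₂ (Finset.Subset.refl _))
    rw [e3] at hy₂
    have h5 := (GC.carrier_refine had' hya hy₂ hyaK).1
    rw [GC.carrier_unique hc₂ h5]
    exact hPa
  have hPb' := GC.conn_convex L' D hDo (by rw [hD]; exact convex_ball _ _) hDL P' hP''
    ((hfac _).2 ⟨a₁, ha₁, ea⟩) ((hfac _).2 ⟨b₁, hb₁, eb⟩)
    ((LCN_card hinjL ha₁ ea).trans ca₁) ((LCN_card hinjL hb₁ eb).trans cb₁)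
    ⟨h ya, (hcar ya a₁ hya _ ea).mem_hull, hyaD⟩ ⟨h yb, (hcar yb b₁ hyb _ eb).mem_hull, hybD⟩
    hPa'
  rw [hP'] at hPb'
  exact hPb' b₁ yb b hb₁ eb hyb hybK

end Pool.H54.UB
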