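import Pool.Agent.H54.UB.LFB
import Pool.Agent.H54.UB.LCN

/-!
# Row LFC: consistency of the lifts over common faces

Claim: for ordered top simplices `t, t'` and index maps with `t ∘ α = t' ∘ α' =: v` the multisets of the
restricted lifts agree.

`b = 0`: both multisets are `k` copies of the unique function.
`b ≥ 1`: `s = ` finset of the entries of `v`, a face.  For a top face `a ⊇ s` let `P a` be: for all
`t'' ∈ K.tops m` with range `a` and all `α''` with `t'' ∘ α'' = v`,
`(lifts t'').map (· ∘ α'') = (lifts t).map (· ∘ α)`.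
* Reordering: if `t'' = t₀ ∘ π` then `lifts t'' = (lifts t₀).map (· ∘ π)`, and `α'' = π⁻¹ ∘ α₀` (since
  `t₀` is injective), so it is enough to check one ordering; in particular `P (range t)`.
* `GC.localConn`: let `a, b` be top faces with a common facet `r ⊇ s`.  Order `r` as `ρ : Fin m → F`
  (injective), `t_a = cons u ρ`, `t_b = cons w ρ`, and write `v = ρ ∘ γ`.  Restriction
  `σ ↦ σ ∘ Fin.succ` maps `lifts t_a` injectively (`Adm.facet_inj` with `j = 0`) into `lifts ρ`; both
  have `k` elements (`Adm.card_lifts`), so `(lifts t_a).map (· ∘ succ) = lifts ρ` as multisets, and the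
  restriction to `v` is `(lifts ρ).map (· ∘ γ)`.  Same for `t_b`.
So `P (range t)` implies `P (range t')`.
-/

open Set Topology

namespace Pool.H54.UB

variable {E F : Type*} [NormedAddCommGroup E] [NormedSpace ℝ E] [FiniteDimensional ℝ E]
  [NormedAddCommGroup F] [NormedSpace ℝ F] [FiniteDimensional ℝ F]
  {K : GC F} {S : Finset (Finset E)} {f : E → F} {N : Set E}

theorem LFC_perm (h : Adm K S f N) {n : ℕ} (t : Fin n → F) (π : Equiv.Perm (Fin n)) :
    (lifts S f (t ∘ π)).val = (lifts S f t).val.map (fun σ => σ ∘ π) := by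
  classical
  have hinj : Function.Injective (fun σ : Fin n → E => σ ∘ π) := by
    intro σ σ' e
    funext i
    have := congrFun e (π.symm i)
    simpa using this
  have h1 : lifts S f (t ∘ π) = (lifts S f t).image (fun σ => σ ∘ π) := by
    ext σ
    rw [h.mem_lifts, Finset.mem_image]
    constructor
    · rintro ⟨⟨s, hs, h1⟩, h2⟩
      refine ⟨σ ∘ π.symm, (h.mem_lifts _ _).2 ⟨⟨s, hs, fun a => h1 _⟩, fun a => ?_⟩, ?_⟩
      · show f (σ (π.symm a)) = t a
        rw [h2 (π.symm a)]
        show t (π (π.symm a)) = t a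
        rw [Equiv.apply_symm_apply]
      · funext a
        show σ (π.symm (π a)) = σ a
        rw [Equiv.symm_apply_apply]
    · rintro ⟨τ, hτ, rfl⟩
      obtain ⟨⟨s, hs, h1⟩, h2⟩ := (h.mem_lifts _ _).1 hτ
      exact ⟨⟨s, hs, fun a => h1 _⟩, fun a => h2 _⟩
  rw [h1, Finset.image_val_of_injOn (fun x _ y _ e => hinj e)]

theorem LFC_reord (h : Adm K S f N) {n b : ℕ} {t t' : Fin n → F} (ht : Function.Injective t)
    (ht' : Function.Injective t') {r : Finset F} (hr : r.card = n) (h1 : ∀ i, t i ∈ r)
    (h2 : ∀ i, t' i ∈ r) {α α' : Fin b → Fin n} (e : t ∘ α = t' ∘ α') :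
    (lifts S f t).val.map (fun σ => σ ∘ α) = (lifts S f t').val.map (fun σ => σ ∘ α') := by
  classical
  have h3 : Finset.univ.image t' = r := by
    apply Finset.eq_of_subset_of_card_le
    · intro x hx
      obtain ⟨i, -, rfl⟩ := Finset.mem_image.1 hx
      exact h2 i
    · rw [Finset.card_image_of_injective _ ht', Finset.card_univ, Fintype.card_fin, hr]
  have h4 : ∀ i, ∃ k, t' k = t i := by
    intro i
    have : t i ∈ Finset.univ.image t' := by rw [h3]; exact h1 i
    obtain ⟨k, -, hk⟩ := Finset.mem_image.1 this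
    exact ⟨k, hk⟩
  choose g hg using h4
  have hginj : Function.Injective g := by
    intro i j e
    apply ht
    rw [← hg i, ← hg j, e]
  obtain ⟨π, hπ⟩ : ∃ π : Equiv.Perm (Fin n), ∀ i, π i = g i :=
    ⟨Equiv.ofBijective g (Finite.injective_iff_bijective.1 hginj), fun i => rfl⟩
  have h5 : t = t' ∘ π := by
    funext i
    show t i = t' (π i)
    rw [hπ, hg]
  have h6 : π ∘ α = α' := by
    funext i
    apply ht'
    have := congrFun e i
    rw [h5] at this
    exact this
  rw [h5, LFC_perm h, Multiset.map_map, ← h6]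
  rfl

theorem LFC_fac (h : Adm K S f N) {m k : ℕ} (hm : 1 ≤ m) {M : Set F} (hK : K.space = M)
    (hf : MapsTo f N M) {B : Set F} (hB2 : IsCodimTwo m B) (hBad : K.Adapted B)
    (hcov : IsCoveringMap (fun y : ↥(N \ f ⁻¹' B) => (⟨f y, hf y.2.1, y.2.2⟩ : ↥(M \ B))))
    (hcard : ∀ x ∈ M \ B, (N ∩ f ⁻¹' {x}).ncard = k) {t : Fin (m + 1) → F} (ht : t ∈ K.tops m)
    {r : Finset F} (hr : r.card = m) (hrt : ∀ x ∈ r, ∃ i, t i = x) {b : ℕ}
    {α : Fin b → Fin (m + 1)} (hα : ∀ i, t (α i) ∈ r) :
    ∃ (ρ : Fin m → F) (γ : Fin b → Fin m), Function.Injective ρ ∧ (∀ i, ρ i ∈ r) ∧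
      ρ ∘ γ = t ∘ α ∧
      (lifts S f t).val.map (fun σ => σ ∘ α) = (lifts S f ρ).val.map (fun σ => σ ∘ γ) := by
  classical
  have ht' := GC.mem_tops.1 ht
  have hinj := ht'.1
  have himc : (Finset.univ.image t).card = m + 1 := by
    rw [Finset.card_image_of_injective _ hinj, Finset.card_univ, Fintype.card_fin]
  obtain ⟨j, hj⟩ : ∃ j, t j ∉ r := by
    by_contra hc
    push Not at hc
    have : (Finset.univ.image t) ⊆ r := by
      intro x hx
      obtain ⟨i, -, rfl⟩ := Finset.mem_image.1 hx
      exact hc i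
    have := Finset.card_le_card this
    omega
  have hre : r = (Finset.univ.image t).erase (t j) := by
    apply Finset.eq_of_subset_of_card_le
    · intro x hx
      obtain ⟨i, rfl⟩ := hrt x hx
      refine Finset.mem_erase.2 ⟨fun e => hj (e ▸ hx), Finset.mem_image_of_mem _ (Finset.mem_univ _)⟩
    · rw [Finset.card_erase_of_mem (Finset.mem_image_of_mem _ (Finset.mem_univ _)), himc, hr]
      exact le_rfl
  have hmem : ∀ i : Fin m, t (j.succAbove i) ∈ r := by
    intro i
    rw [hre]
    refine Finset.mem_erase.2 ⟨fun e => ?_, Finset.mem_image_of_mem _ (Finset.mem_univ _)⟩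
    exact Fin.succAbove_ne j i (hinj e)
  have hγ : ∀ i, ∃ c, j.succAbove c = α i := by
    intro i
    apply Fin.exists_succAbove_eq
    intro e
    apply hj
    rw [← e]
    exact hα i
  choose γ hγ using hγ
  have hρinj : Function.Injective (t ∘ j.succAbove) := hinj.comp (Fin.succAbove_right_injective)
  have hρtup : K.Tup (t ∘ j.succAbove) := by
    obtain ⟨s, hs, h1⟩ := ht'.2
    exact ⟨s, hs, fun a => h1 _⟩
  refine ⟨t ∘ j.succAbove, γ, hρinj, hmem, ?_, ?_⟩
  · funext i
    show t (j.succAbove (γ i)) = t (α i)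
    rw [hγ]
  · have hI := h.facet_inj hm hK hf hB2 hBad hcov ht j
    have e1 : (lifts S f t).image (fun σ : Fin (m + 1) → E => σ ∘ j.succAbove) =
        lifts S f (t ∘ j.succAbove) := by
      apply Finset.eq_of_subset_of_card_le
      · intro σ hσ
        obtain ⟨τ, hτ, rfl⟩ := Finset.mem_image.1 hσ
        obtain ⟨⟨s, hs, h1⟩, h2⟩ := (h.mem_lifts _ _).1 hτ
        exact (h.mem_lifts _ _).2 ⟨⟨s, hs, fun a => h1 _⟩, fun a => h2 _⟩
      · rw [Finset.card_image_of_injOn hI,
          h.card_lifts hK hB2 hBad hcard (Nat.le_succ m) (Nat.succ_pos m) ht'.2 hinj,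
          h.card_lifts hK hB2 hBad hcard le_rfl hm hρtup hρinj]
    have e2 : (lifts S f (t ∘ j.succAbove)).val =
        (lifts S f t).val.map (fun σ : Fin (m + 1) → E => σ ∘ j.succAbove) := by
      rw [← e1, Finset.image_val_of_injOn hI]
    rw [e2, Multiset.map_map]
    congr 1
    funext σ
    funext i
    show σ (α i) = σ (j.succAbove (γ i))
    rw [hγ]

theorem Adm.lifts_cons (h : Adm K S f N) {m k : ℕ} (hm : 1 ≤ m) {M : Set F}
    (hM : IsClosedPLManifold m M) (hK : K.space = M)
    (hf : MapsTo f N M) {B : Set F} (hB2 : IsCodimTwo m B) (hBad : K.Adapted B)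
    (hcov : IsCoveringMap (fun y : ↥(N \ f ⁻¹' B) => (⟨f y, hf y.2.1, y.2.2⟩ : ↥(M \ B))))
    (hcard : ∀ x ∈ M \ B, (N ∩ f ⁻¹' {x}).ncard = k) :
    ∀ t ∈ K.tops m, ∀ t' ∈ K.tops m, ∀ (b : ℕ) (α α' : Fin b → Fin (m + 1)), t ∘ α = t' ∘ α' →
      (lifts S f t).val.map (fun σ => σ ∘ α) = (lifts S f t').val.map (fun σ => σ ∘ α') := by
  classical
  intro t ht t' ht' b α α' e
  have htt := GC.mem_tops.1 ht
  have htt' := GC.mem_tops.1 ht'
  rcases Nat.eq_zero_or_pos b with hb | hb
  · subst hb
    have h1 : (lifts S f t).card = k :=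
      h.card_lifts hK hB2 hBad hcard (Nat.le_succ m) (Nat.succ_pos m) htt.2 htt.1
    have h2 : (lifts S f t').card = k :=
      h.card_lifts hK hB2 hBad hcard (Nat.le_succ m) (Nat.succ_pos m) htt'.2 htt'.1
    have e1 : (fun σ : Fin (m + 1) → E => σ ∘ α) = fun _ => Fin.elim0 := by
      funext σ i
      exact Fin.elim0 i
    have e2 : (fun σ : Fin (m + 1) → E => σ ∘ α') = fun _ => Fin.elim0 := by
      funext σ i
      exact Fin.elim0 i
    rw [e1, e2, Multiset.map_const', Multiset.map_const']
    congr 1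
    exact h1.trans h2.symm
  · have face : ∀ u : Fin (m + 1) → F, u ∈ K.tops m → (Finset.univ.image u) ∈ K.faces ∧
        (Finset.univ.image u).card = m + 1 := by
      intro u hu
      have hu' := GC.mem_tops.1 hu
      constructor
      · obtain ⟨s, hs, h1⟩ := hu'.2
        refine K.down s hs _ (fun x hx => ?_) ⟨u 0, Finset.mem_image_of_mem _ (Finset.mem_univ _)⟩
        obtain ⟨i, -, rfl⟩ := Finset.mem_image.1 hx
        exact h1 i
      · rw [Finset.card_image_of_injective _ hu'.1, Finset.card_univ, Fintype.card_fin]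
    have hsface : Finset.univ.image (t ∘ α) ∈ K.faces := by
      refine K.down _ (face t ht).1 _ (fun x hx => ?_)
        ⟨(t ∘ α) ⟨0, hb⟩, Finset.mem_image_of_mem _ (Finset.mem_univ _)⟩
      obtain ⟨i, -, rfl⟩ := Finset.mem_image.1 hx
      exact Finset.mem_image_of_mem _ (Finset.mem_univ _)
    have key := GC.localConn hM K hK (Finset.univ.image (t ∘ α)) hsface
      (fun a => ∀ u ∈ K.tops m, (∀ i, u i ∈ a) → ∀ β : Fin b → Fin (m + 1), u ∘ β = t ∘ α →
        (lifts S f u).val.map (fun σ => σ ∘ β) = (lifts S f t).val.map (fun σ => σ ∘ α))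
      (by
        rintro a ha c hc hac hcc ⟨r, hsr, hra, hrc, hrm⟩ hPa u hu huc β hβ
        obtain ⟨ta, hta1, hta2⟩ : ∃ ta : Fin (m + 1) → F, Function.Injective ta ∧ ∀ i, ta i ∈ a :=
          ⟨fun i => ((Finset.equivFinOfCardEq hac).symm i : F), fun i j hij =>
            (Finset.equivFinOfCardEq hac).symm.injective (Subtype.ext hij), fun i =>
              ((Finset.equivFinOfCardEq hac).symm i).2⟩
        have htatop : ta ∈ K.tops m := GC.mem_tops.2 ⟨hta1, a, ha, hta2⟩
        have hima : Finset.univ.image ta = a := by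
          apply Finset.eq_of_subset_of_card_le
          · intro x hx
            obtain ⟨i, -, rfl⟩ := Finset.mem_image.1 hx
            exact hta2 i
          · rw [(face ta htatop).2, hac]
        have himc : Finset.univ.image u = c := by
          apply Finset.eq_of_subset_of_card_le
          · intro x hx
            obtain ⟨i, -, rfl⟩ := Finset.mem_image.1 hx
            exact huc i
          · rw [(face u hu).2, hcc]
        have hsura : ∀ x ∈ a, ∃ i, ta i = x := by
          intro x hx
          rw [← hima] at hx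
          obtain ⟨i, -, hi⟩ := Finset.mem_image.1 hx
          exact ⟨i, hi⟩
        have hsurc : ∀ x ∈ c, ∃ i, u i = x := by
          intro x hx
          rw [← himc] at hx
          obtain ⟨i, -, hi⟩ := Finset.mem_image.1 hx
          exact ⟨i, hi⟩
        have hv : ∀ i, t (α i) ∈ r := fun i =>
          hsr (Finset.mem_image_of_mem (t ∘ α) (Finset.mem_univ i))
        choose δ hδ using fun i => hsura (t (α i)) (hra (hv i))
        have hδ' : ta ∘ δ = t ∘ α := funext hδ
        have e1 := hPa ta htatop hta2 δ hδ'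
        obtain ⟨ρ, γ, a1, a2, a3, a4⟩ := LFC_fac h hm hK hf hB2 hBad hcov hcard htatop hrm
          (fun x hx => hsura x (hra hx)) (α := δ) (fun i => by rw [hδ i]; exact hv i)
        obtain ⟨ρ', γ', b1, b2, b3, b4⟩ := LFC_fac h hm hK hf hB2 hBad hcov hcard hu hrm
          (fun x hx => hsurc x (hrc hx)) (α := β)
          (fun i => by
            have := congrFun hβ i
            show (u ∘ β) i ∈ r
            rw [this]
            exact hv i)
        rw [b4, ← e1, a4]
        exact LFC_reord h b1 a1 hrm b2 a2 (by rw [b3, a3, hβ, hδ']))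
      (Finset.univ.image t) (Finset.univ.image t') (face t ht).1 (face t' ht').1 (face t ht).2
      (face t' ht').2
      (by
        intro x hx
        obtain ⟨i, -, rfl⟩ := Finset.mem_image.1 hx
        exact Finset.mem_image_of_mem _ (Finset.mem_univ _))
      (by
        intro x hx
        obtain ⟨i, -, rfl⟩ := Finset.mem_image.1 hx
        rw [e]
        exact Finset.mem_image_of_mem _ (Finset.mem_univ _))
      (by
        intro u hu hua β hβ
        exact LFC_reord h (GC.mem_tops.1 hu).1 htt.1 (face t ht).2 hua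
          (fun i => Finset.mem_image_of_mem _ (Finset.mem_univ _)) hβ)
    exact (key t' ht' (fun i => Finset.mem_image_of_mem _ (Finset.mem_univ _)) α' e.symm).symm

end Pool.H54.UB
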