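import Pool.Agent.H54.UB.PD

/-!
# Row PE: PL maps, first part

`PLOn f X` means that the graph `G = {(x, f x) | x ∈ X}` is a compact polyhedron in `E × F`.

* `domain`, `image`: images of `G` under the linear projections.
* `restrict`: `graph (f|X) = G ∩ (X ×ˢ f(N))`, `preimage`: projection of `G ∩ (N ×ˢ Y)`.
* `pieces`: write `G` as a union of `convexHull σ` (`σ ⊆ E × F` finite, may be taken affinely
  independent); the projection `convexHull (fst '' σ)` of `convexHull σ` is a piece `P` on which `f`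
  is affine: `f (Σ w_i x_i) = Σ w_i y_i` for `(x_i, y_i) ∈ σ`, because `(Σ w x, Σ w y)` is a point of
  `G`, and `G` is a graph.  To get an affine map on all of `E`: if `σ` is affinely independent then so
  is `fst '' σ` (the projection is injective on `convexHull σ ⊆ G`, hence on its affine span), extend
  it to an affine basis and prescribe the values.
* `of_pieces`: the graph over a piece `convexHull s` on which `f = A` is affine is the image of
  `convexHull s` under the affine map `x ↦ (x, A x)`.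
* `continuousOn`: from `pieces`: finite closed cover by sets on which `f` is continuous
  (`LocallyFinite.continuousOn_iUnion`, `continuousOn_... union`), or: compact graph.
-/

open Set Topology

namespace Pool.H54.UB

variable {E F : Type*} [NormedAddCommGroup E] [NormedSpace ℝ E] [FiniteDimensional ℝ E]
  [NormedAddCommGroup F] [NormedSpace ℝ F] [FiniteDimensional ℝ F]

theorem PE_fst (f : E → F) (X : Set E) :
    (LinearMap.fst ℝ E F).toAffineMap '' ((fun x => (x, f x)) '' X) = X := by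
  ext x
  constructor
  · rintro ⟨_, ⟨y, hy, rfl⟩, rfl⟩
    exact hy
  · intro hx
    exact ⟨(x, f x), ⟨x, hx, rfl⟩, rfl⟩

theorem PE_snd (f : E → F) (X : Set E) :
    (LinearMap.snd ℝ E F).toAffineMap '' ((fun x => (x, f x)) '' X) = f '' X := by
  ext x
  constructor
  · rintro ⟨_, ⟨y, hy, rfl⟩, rfl⟩
    exact ⟨y, hy, rfl⟩
  · rintro ⟨y, hy, rfl⟩
    exact ⟨(y, f y), ⟨y, hy, rfl⟩, rfl⟩

theorem PLOn.domain {f : E → F} {X : Set E} (hf : PLOn f X) : IsPoly X := by
  have h := IsPoly.image_affine hf (LinearMap.fst ℝ E F).toAffineMap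
  rwa [PE_fst] at h

theorem PLOn.image {f : E → F} {X : Set E} (hf : PLOn f X) : IsPoly (f '' X) := by
  have h := IsPoly.image_affine hf (LinearMap.snd ℝ E F).toAffineMap
  rwa [PE_snd] at h

theorem PLOn.congr {f g : E → F} {X : Set E} (hf : PLOn f X) (h : EqOn f g X) : PLOn g X := by
  have h1 : (fun x => (x, g x)) '' X = (fun x => (x, f x)) '' X :=
    Set.image_congr fun x hx => by rw [h hx]
  unfold PLOn
  rw [h1]
  exact hf

theorem PLOn.mono {f : E → F} {N X : Set E} (hf : PLOn f N) (hX : IsPoly X) (h : X ⊆ N) :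
    PLOn f X := by
  have h1 : (fun x => (x, f x)) '' X = ((fun x => (x, f x)) '' N) ∩ (X ×ˢ (f '' N)) := by
    ext ⟨x, y⟩
    constructor
    · rintro ⟨z, hz, he⟩
      rw [Prod.mk.injEq] at he
      obtain ⟨rfl, rfl⟩ := he
      exact ⟨⟨z, h hz, rfl⟩, hz, z, h hz, rfl⟩
    · rintro ⟨⟨z, hz, he⟩, hx, -⟩
      rw [Prod.mk.injEq] at he
      obtain ⟨rfl, rfl⟩ := he
      exact ⟨z, hx, rfl⟩
  unfold PLOn
  rw [h1]
  exact IsPoly.inter hf (hX.prod hf.image)

theorem PLOn.preimage {f : E → F} {N : Set E} {Y : Set F} (hf : PLOn f N) (hY : IsPoly Y) :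
    IsPoly (N ∩ f ⁻¹' Y) := by
  have h1 : N ∩ f ⁻¹' Y =
      (LinearMap.fst ℝ E F).toAffineMap '' (((fun x => (x, f x)) '' N) ∩ (N ×ˢ Y)) := by
    ext x
    constructor
    · rintro ⟨hx, hy⟩
      exact ⟨(x, f x), ⟨⟨x, hx, rfl⟩, hx, hy⟩, rfl⟩
    · rintro ⟨_, ⟨⟨z, hz, rfl⟩, -, h2⟩, rfl⟩
      exact ⟨hz, h2⟩
  rw [h1]
  exact (IsPoly.inter hf (hf.domain.prod hY)).image_affine _

theorem PE_graph (A : E →ᵃ[ℝ] F) {X : Set E} (hX : IsPoly X) :
    IsPoly ((fun x => (x, A x)) '' X) :=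
  hX.image_affine ((AffineMap.id ℝ E).prod A)

theorem PLOn.of_affOn {f : E → F} {s : Finset E} (h : AffOn f (convexHull ℝ (s : Set E))) :
    PLOn f (convexHull ℝ (s : Set E)) := by
  obtain ⟨A, hA⟩ := h
  exact PLOn.congr (f := A) (PE_graph A (IsPoly.hull s)) hA.symm

theorem PLOn.union {f : E → F} {X Y : Set E} (hX : PLOn f X) (hY : PLOn f Y) :
    PLOn f (X ∪ Y) := by
  unfold PLOn
  rw [Set.image_union]
  exact IsPoly.union hX hY

theorem PLOn.biUnion {ι : Type*} {s : Set ι} (hs : s.Finite) {f : E → F} {X : ι → Set E}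
    (h : ∀ i ∈ s, PLOn f (X i)) : PLOn f (⋃ i ∈ s, X i) := by
  unfold PLOn
  rw [Set.image_iUnion₂]
  exact IsPoly.biUnion hs h

theorem PLOn.of_pieces {f : E → F} (S : Finset (Finset E))
    (h : ∀ s ∈ S, AffOn f (convexHull ℝ (s : Set E))) :
    PLOn f (⋃ s ∈ S, convexHull ℝ (s : Set E)) :=
  PLOn.biUnion S.finite_toSet fun s hs => PLOn.of_affOn (h s hs)

theorem PLOn.affine (A : E →ᵃ[ℝ] F) {X : Set E} (hX : IsPoly X) : PLOn A X := PE_graph A hX

/-- differences of points of a convex set fill its direction -/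
theorem PE_span {V : Type*} [AddCommGroup V] [Module ℝ V] {C : Set V} (hC : Convex ℝ C)
    (hne : C.Nonempty) {w : V} (hw : w ∈ vectorSpan ℝ C) :
    ∃ r : ℝ, 0 ≤ r ∧ ∃ a ∈ C, ∃ b ∈ C, w = r • (a - b) := by
  rw [vectorSpan_def] at hw
  induction hw using Submodule.span_induction with
  | mem x hx =>
    obtain ⟨a, ha, b, hb, rfl⟩ := hx
    exact ⟨1, zero_le_one, a, ha, b, hb, by simp⟩
  | zero =>
    obtain ⟨a, ha⟩ := hne
    exact ⟨0, le_rfl, a, ha, a, ha, by simp⟩
  | add x y _ _ hx hy =>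
    obtain ⟨r, hr, a, ha, b, hb, rfl⟩ := hx
    obtain ⟨s, hs, c, hc, d, hd, rfl⟩ := hy
    rcases eq_or_lt_of_le (add_nonneg hr hs) with h0 | h0
    · have h1 : r = 0 := by linarith
      have h2 : s = 0 := by linarith
      exact ⟨0, le_rfl, a, ha, a, ha, by rw [h1, h2]; simp⟩
    · refine ⟨r + s, h0.le, (r / (r + s)) • a + (s / (r + s)) • c, ?_,
        (r / (r + s)) • b + (s / (r + s)) • d, ?_, ?_⟩
      · exact hC ha hc (by positivity) (by positivity) (by field_simp)
      · exact hC hb hd (by positivity) (by positivity) (by field_simp)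
      · have e1 : (r + s) * (r / (r + s)) = r := by field_simp
        have e2 : (r + s) * (s / (r + s)) = s := by field_simp
        calc r • (a - b) + s • (c - d)
            = ((r + s) * (r / (r + s))) • (a - b) + ((r + s) * (s / (r + s))) • (c - d) := by
              rw [e1, e2]
          _ = _ := by module
  | smul c x _ hx =>
    obtain ⟨r, hr, a, ha, b, hb, rfl⟩ := hx
    rcases le_total 0 c with h0 | h0
    · exact ⟨c * r, mul_nonneg h0 hr, a, ha, b, hb, by rw [smul_smul]⟩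
    · refine ⟨(-c) * r, mul_nonneg (by linarith) hr, b, hb, a, ha, ?_⟩
      rw [smul_smul, ← neg_sub a b, smul_neg, ← neg_smul]
      congr 1
      ring

/-- the projection is injective on the direction of a convex piece of the graph -/
theorem PE_ker {f : E → F} {C : Set (E × F)} (hC : Convex ℝ C) (hne : C.Nonempty)
    (hG : ∀ p ∈ C, p.2 = f p.1) {w : E × F} (hw : w ∈ vectorSpan ℝ C) (h0 : w.1 = 0) : w = 0 := by
  obtain ⟨r, hr, a, ha, b, hb, rfl⟩ := PE_span hC hne hw
  rcases eq_or_lt_of_le hr with h1 | h1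
  · rw [← h1, zero_smul]
  · have h2 : r • (a.1 - b.1) = 0 := h0
    rw [smul_eq_zero] at h2
    have h3 : a.1 = b.1 := by
      rcases h2 with h2 | h2
      · exact absurd h2 h1.ne'
      · exact sub_eq_zero.1 h2
    have h4 : a.2 = b.2 := by rw [hG a ha, hG b hb, h3]
    have h5 : a = b := Prod.ext h3 h4
    rw [h5, sub_self, smul_zero]

theorem PE_affOn {f : E → F} {C : Set (E × F)} (hC : Convex ℝ C) (hne : C.Nonempty)
    (hG : ∀ p ∈ C, p.2 = f p.1) : AffOn f (Prod.fst '' C) := by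
  obtain ⟨p0, hp0⟩ := hne
  obtain ⟨φ, hφ⟩ : ∃ φ : vectorSpan ℝ C →ₗ[ℝ] E,
      φ = (LinearMap.fst ℝ E F).comp (vectorSpan ℝ C).subtype := ⟨_, rfl⟩
  have hker : LinearMap.ker φ = ⊥ := by
    rw [LinearMap.ker_eq_bot']
    rintro ⟨w, hw⟩ h
    rw [hφ] at h
    have := PE_ker hC ⟨p0, hp0⟩ hG hw h
    exact Subtype.ext this
  obtain ⟨g, hg⟩ := φ.exists_leftInverse_of_injective hker
  have hgw : ∀ w : vectorSpan ℝ C, g (φ w) = w := fun w => by
    have := congrArg (fun l : vectorSpan ℝ C →ₗ[ℝ] vectorSpan ℝ C => l w) hg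
    exact this
  obtain ⟨L, hL⟩ : ∃ L : E →ₗ[ℝ] F, L =
    (LinearMap.snd ℝ E F).comp ((vectorSpan ℝ C).subtype.comp g) := ⟨_, rfl⟩
  refine ⟨L.toAffineMap + AffineMap.const ℝ E (p0.2 - L p0.1), ?_⟩
  rintro x ⟨p, hp, rfl⟩
  have hw : p - p0 ∈ vectorSpan ℝ C := by
    have := vsub_mem_vectorSpan ℝ hp hp0
    rwa [vsub_eq_sub] at this
  have h1 := hgw ⟨p - p0, hw⟩
  have h2 : φ ⟨p - p0, hw⟩ = p.1 - p0.1 := by rw [hφ]; rfl
  rw [h2] at h1
  have h3 : L (p.1 - p0.1) = p.2 - p0.2 := by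
    rw [hL]
    show ((g (p.1 - p0.1) : vectorSpan ℝ C) : E × F).2 = _
    rw [h1]
    rfl
  show f p.1 = L p.1 + (p0.2 - L p0.1)
  rw [← hG p hp]
  rw [map_sub] at h3
  have h4 : L p.1 = p.2 - p0.2 + L p0.1 := by rw [← h3]; abel
  rw [h4]
  abel

theorem PLOn.pieces {f : E → F} {N : Set E} (hf : PLOn f N) :
    ∃ S : Finset (Finset E), N = (⋃ s ∈ S, convexHull ℝ (s : Set E)) ∧
      ∀ s ∈ S, s.Nonempty ∧ AffineIndependent ℝ (fun x : s => (x : E)) ∧
        AffOn f (convexHull ℝ (s : Set E)) := by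
  classical
  obtain ⟨S, hS, hS2⟩ := IsPoly.exists_simplices hf
  have himg : ∀ s : Finset (E × F), convexHull ℝ ((s.image Prod.fst : Finset E) : Set E) =
      Prod.fst '' convexHull ℝ (s : Set (E × F)) := by
    intro s
    rw [Finset.coe_image]
    exact ((LinearMap.fst ℝ E F).toAffineMap.image_convexHull (s : Set (E × F))).symm
  have hG : ∀ s ∈ S, ∀ p ∈ convexHull ℝ (s : Set (E × F)), p.2 = f p.1 := by
    intro s hs p hp
    have h1 : p ∈ (fun x => (x, f x)) '' N := by
      rw [hS]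
      exact mem_iUnion₂.2 ⟨s, hs, hp⟩
    obtain ⟨x, -, rfl⟩ := h1
    rfl
  refine ⟨S.image (fun s => s.image Prod.fst), ?_, ?_⟩
  · rw [← PE_fst f N, hS, Set.image_iUnion₂]
    ext x
    simp only [mem_iUnion, Finset.mem_image, exists_prop]
    constructor
    · rintro ⟨s, hs, h⟩
      refine ⟨s.image Prod.fst, ⟨s, hs, rfl⟩, ?_⟩
      rw [himg]
      exact h
    · rintro ⟨_, ⟨s, hs, rfl⟩, h⟩
      rw [himg] at h
      exact ⟨s, hs, h⟩
  · intro t ht
    obtain ⟨s, hs, rfl⟩ := Finset.mem_image.1 ht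
    obtain ⟨hne, hind⟩ := hS2 s hs
    have hneC : (convexHull ℝ (s : Set (E × F))).Nonempty :=
      convexHull_nonempty_iff.2 (Finset.coe_nonempty.2 hne)
    refine ⟨hne.image _, ?_, ?_⟩
    · obtain ⟨x0, hx0⟩ := hne
      rw [affineIndependent_iff_linearIndependent_vsub ℝ _ (⟨x0, hx0⟩ : s)] at hind
      have h1 := hind.map (f := LinearMap.fst ℝ E F) (by
        rw [Submodule.disjoint_def]
        intro w hw hk
        refine PE_ker (convex_convexHull ℝ _) hneC (hG s hs) ?_ hk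
        refine Submodule.span_le.2 ?_ hw
        rintro _ ⟨i, rfl⟩
        exact vsub_mem_vectorSpan ℝ (subset_convexHull ℝ _ i.1.2) (subset_convexHull ℝ _ hx0))
      have h2 : AffineIndependent ℝ (fun x : s => (x : E × F).1) := by
        rw [affineIndependent_iff_linearIndependent_vsub ℝ _ (⟨x0, hx0⟩ : s)]
        exact h1
      have h3 := h2.range
      refine h3.mono ?_
      intro y hy
      obtain ⟨p, hp, rfl⟩ := Finset.mem_image.1 (Finset.mem_coe.1 hy)
      exact ⟨⟨p, hp⟩, rfl⟩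
    · rw [himg]
      exact PE_affOn (convex_convexHull ℝ _) hneC (hG s hs)

theorem PLOn.continuousOn {f : E → F} {N : Set E} (hf : PLOn f N) : ContinuousOn f N := by
  have hc : IsCompact ((fun x => (x, f x)) '' N) := IsPoly.isCompact hf
  intro x hx
  rw [ContinuousWithinAt, Filter.tendsto_iff_ultrafilter]
  intro U hU
  have hUN : N ∈ U := hU self_mem_nhdsWithin
  have hUx : (U : Filter E) ≤ 𝓝 x := hU.trans nhdsWithin_le_nhds
  obtain ⟨G, hG⟩ : ∃ G : Ultrafilter (E × F), G = U.map (fun x => (x, f x)) := ⟨_, rfl⟩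
  have h1 : (G : Filter (E × F)) ≤ Filter.principal ((fun x => (x, f x)) '' N) := by
    rw [hG, Filter.le_principal_iff]
    exact Filter.mem_of_superset (Filter.image_mem_map hUN) subset_rfl
  obtain ⟨p, ⟨z, hz, rfl⟩, hp⟩ := hc.ultrafilter_le_nhds G h1
  have h2 : Filter.Tendsto Prod.fst (G : Filter (E × F)) (𝓝 z) :=
    (continuous_fst.tendsto _).mono_left hp
  have h3 : Filter.Tendsto Prod.snd (G : Filter (E × F)) (𝓝 (f z)) :=
    (continuous_snd.tendsto _).mono_left hp
  rw [hG, Ultrafilter.coe_map] at h2 h3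
  rw [Filter.tendsto_map'_iff] at h2 h3
  have h2' : Filter.Tendsto (fun x : E => x) (U : Filter E) (𝓝 z) := h2
  have hUx' : Filter.Tendsto (fun x : E => x) (U : Filter E) (𝓝 x) := hUx
  have h4 : z = x := tendsto_nhds_unique h2' hUx'
  rw [h4] at h3
  exact h3

theorem AffOn.injOn_of_finite {f : E → F} {C : Set E} (hC : Convex ℝ C) (hf : AffOn f C)
    (h : ∀ y, (C ∩ f ⁻¹' {y}).Finite) : InjOn f C := by
  obtain ⟨A, hA⟩ := hf
  intro a ha b hb hab
  by_contra hne
  have h1 : (AffineMap.lineMap a b : ℝ → E) '' Icc (0 : ℝ) 1 ⊆ C ∩ f ⁻¹' {f a} := by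
    rintro _ ⟨t, ht, rfl⟩
    have hmem : (AffineMap.lineMap a b : ℝ → E) t ∈ C := by
      refine hC.segment_subset ha hb ?_
      rw [segment_eq_image_lineMap]
      exact ⟨t, ht, rfl⟩
    refine ⟨hmem, ?_⟩
    show f _ = f a
    rw [hA hmem, AffineMap.apply_lineMap, ← hA ha, ← hA hb, hab, AffineMap.lineMap_same_apply]
  have h2 : ((AffineMap.lineMap a b : ℝ → E) '' Icc (0 : ℝ) 1).Infinite := by
    rw [Set.infinite_image_iff]
    · exact Set.Icc_infinite zero_lt_one
    · exact (AffineMap.lineMap_injective ℝ hne).injOn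
  exact h2 ((h (f a)).subset h1)

end Pool.H54.UB
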