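import Pool.Agent.H54.UB.ASB
import Pool.Agent.H54.UB.BAR

/-!
# Row PIB: pulling back a simplicial cocycle

`lam, δ` from `GC.exists_lam K`.  `c' a b = c (lam (f a)) (lam (f b))` satisfies `NCoc c' N`: for `y ∈ N`
choose a neighbourhood on which `f` (restricted to `N`) has oscillation `< δ`; for `a, b, d` in it the
points `f a, f b, f d` are pairwise `< δ` apart, so `lam (f a), lam (f b), lam (f d)` are all in the
carrier of `f a`; use `hc`.  `QTriv` gives a primitive `g`.

Let `y, y'` be as in the claim, `u = f y`, `u' = f y'` vertices in a common face `s`.  For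
`t ∈ [0,1]` put `y_t = (1-t) y + t y'`; `f y_t = (1-t) u + t u'` (affine), whose carrier is contained in
`{u, u'}` (`GC.carrier_sub` for the face `{u, u'}`), so `lam (f y_t) ∈ {u, u'} ⊆ s`.
`F t = g y_t * c (lam (f y_t)) u'` is locally constant on `[0,1]`:
`(F t)⁻¹ * F t' = c(l_t,u')⁻¹ * c(l_t, l_t') * c (l_t', u') = 1` for `t'` close to `t`, by the cocycle
identity in `s`.  So `F 0 = F 1`, i.e. `g y * c u u' = g y' * c u' u' = g y'` (`lam u = u` because the
carrier of the vertex `u` is `{u}`; `c u' u' = 1`).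
-/

open Set Topology

namespace Pool.H54.UB

/-- the image of a segment on which `f` is affine, with end points mapped to vertices of a face -/
theorem PIB_seg {E F : Type*} [NormedAddCommGroup E] [NormedSpace ℝ E]
    [NormedAddCommGroup F] [NormedSpace ℝ F] {f : E → F} {y y' : E} (ha : AffOn f (segment ℝ y y'))
    {s : Finset F} (h1 : f y ∈ s) (h2 : f y' ∈ s) {z : E} (hz : z ∈ segment ℝ y y') :
    f z ∈ convexHull ℝ (s : Set F) := by
  obtain ⟨A, hA⟩ := ha
  have hy : f y = A y := hA (left_mem_segment ℝ y y')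
  have hy' : f y' = A y' := hA (right_mem_segment ℝ y y')
  rw [hA hz]
  have h3 : A z ∈ segment ℝ (A y) (A y') := by
    rw [← image_segment]
    exact mem_image_of_mem _ hz
  refine segment_subset_convexHull ?_ ?_ h3
  · rw [← hy]
    exact h1
  · rw [← hy']
    exact h2

theorem pull_triv {E F Q : Type*} [NormedAddCommGroup E] [NormedSpace ℝ E]
    [NormedAddCommGroup F] [NormedSpace ℝ F] [Group Q] (K : GC F) (c : F → F → Q)
    (hc : ∀ s ∈ K.faces, ∀ u ∈ s, ∀ v ∈ s, ∀ w ∈ s, c u v * c v w = c u w)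
    (N : Set E) (f : E → F) (hf : ContinuousOn f N) (hm : MapsTo f N K.space) (hQ : QTriv Q N) :
    ∃ g : E → Q, ∀ y ∈ N, ∀ y' ∈ N, segment ℝ y y' ⊆ N → AffOn f (segment ℝ y y') →
      (∃ s ∈ K.faces, f y ∈ s ∧ f y' ∈ s) → c (f y) (f y') = (g y)⁻¹ * g y' := by
  obtain ⟨lam, δ, hδ, hlam⟩ := K.exists_lam
  have hN : NCoc (fun a b => c (lam (f a)) (lam (f b))) N := by
    intro x hx
    obtain ⟨s, hs⟩ := GC.exists_carrier' (hm hx)
    have h1 : ∀ᶠ a in 𝓝[N] x, dist (f a) (f x) < δ := by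
      have := (hf x hx).eventually (Metric.ball_mem_nhds (f x) hδ)
      exact this
    rw [eventually_nhdsWithin_iff] at h1
    refine ⟨_, h1, ?_⟩
    have h2 : ∀ a ∈ {a | a ∈ N → dist (f a) (f x) < δ} ∩ N, lam (f a) ∈ s := fun a ha =>
      hlam _ (hm ha.2) _ (hm hx) (ha.1 ha.2) s hs
    intro a ha b hb d hd
    exact hc s hs.1 _ (h2 a ha) _ (h2 b hb) _ (h2 d hd)
  obtain ⟨g, hg⟩ := hQ _ hN
  refine ⟨g, fun y hy y' hy' hseg haff hs => ?_⟩
  obtain ⟨s, hs, h1, h2⟩ := hs
  have hL : ∀ z ∈ segment ℝ y y', lam (f z) ∈ s := by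
    intro z hz
    obtain ⟨t, ht⟩ := GC.exists_carrier' (hm (hseg hz))
    refine GC.carrier_sub hs (PIB_seg haff h1 h2 hz) ht ?_
    refine hlam _ (hm (hseg hz)) _ (hm (hseg hz)) ?_ t ht
    rw [dist_self]
    exact hδ
  have hv : ∀ u ∈ s, u ∈ K.space → lam u = u := by
    intro u hu hu'
    have h3 := hlam u hu' u hu' (by rw [dist_self]; exact hδ) _ (GC.verts_carrier ⟨s, hs, hu⟩)
    exact Finset.mem_singleton.1 h3
  have hyl := hv _ h1 (hm hy)
  have hyl' := hv _ h2 (hm hy')
  have key := const_of_local (g := g) (g' := fun z => (c (lam (f z)) (f y'))⁻¹)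
    (convex_segment y y').isPreconnected (S := segment ℝ y y') (x := y) (y := y') ?_
    (left_mem_segment ℝ y y') (right_mem_segment ℝ y y')
  · have h3 : c (f y') (f y') = 1 := by
      have h4 := hc s hs _ h2 _ h2 _ h2
      exact mul_eq_left.1 h4
    simp only [inv_inv] at key
    rw [hyl, hyl', h3, mul_one] at key
    rw [← key, inv_mul_cancel_left]
  · intro x hx
    obtain ⟨U, hU, h3⟩ := hg x (hseg hx)
    refine ⟨U, hU, fun z hz => ?_⟩
    rw [← h3 x ⟨mem_of_mem_nhds hU, hseg hx⟩ z ⟨hz.1, hseg hz.2⟩, inv_inv,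
      ← hc s hs _ (hL x hx) _ (hL z hz.2) _ h2, mul_inv_cancel_right]

end Pool.H54.UB
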