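import Pool.Agent.H54.UB.FDF
import Pool.Agent.H54.UB.LFC
import Pool.Agent.H54.UB.PIB
import Pool.Agent.H54.UB.PE
import Pool.Agent.H54.UB.PF

/-!
# Row FA: a branched cover and a triangulation adapted to it

* `brc_family`: `S` from `PLOn.pieces`; `f` is injective on every piece by `AffOn.injOn_of_finite`.  The
  family consists of `f '' convexHull s`, `f '' (convexHull s ∩ convexHull s')`, `B`, and
  `f '' (A ∩ convexHull s)` for `A` in the given family (`IsPoly.inter`, `PLOn.image_poly`; `B` is a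
  polyhedron by `IsCodimTwo`).  Then `Adm K S f N`, and `Adm.card_lifts` (`n = m + 1`),
  `Adm.facet_inj`, `Adm.lifts_cons`.
* `lprim_exists`: `pull_triv`; for `σ ∈ lifts S f t` (`Adm.mem_lifts`) all `σ i` lie in one piece
  `convexHull s ⊆ N`, which contains the segment, and `f` is affine on it; `t i, t j` are in a common
  face.  `AffOn.mono`-type step: restrict the affine map to the segment.
-/

open Set Topology

namespace Pool.H54.UB

variable {E F : Type*} [NormedAddCommGroup E] [NormedSpace ℝ E] [FiniteDimensional ℝ E]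
  [NormedAddCommGroup F] [NormedSpace ℝ F] [FiniteDimensional ℝ F]

theorem brc_family {m k : ℕ} (hm : 1 ≤ m) {M : Set F} {N : Set E} {f : E → F}
    (hM : IsClosedPLManifold m M) (hf : IsBranchedCover m k N M f)
    (Y : Finset (Set E)) (hY : ∀ A ∈ Y, IsPoly A ∧ A ⊆ N) :
    ∃ (S : Finset (Finset E)) (G : Finset (Set F)), (∀ A ∈ G, IsPoly A ∧ A ⊆ M) ∧
      ∀ K : GC F, K.space = M → (∀ A ∈ G, K.Adapted A) →
        BrC m k K S f N ∧ ∀ A ∈ Y, ∀ s ∈ S, K.Adapted (f '' (A ∩ convexHull ℝ (s : Set E))) := by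
  classical
  obtain ⟨hpl, hfin, hmaps, B, hBM, -, hB2, hcov, hcard⟩ := hf
  obtain ⟨S, hS, hSa⟩ := hpl.pieces
  have hSN : ∀ s ∈ S, convexHull ℝ (s : Set E) ⊆ N := fun s hs => by
    rw [hS]
    exact subset_biUnion_of_mem (u := fun s : Finset E => convexHull ℝ (s : Set E)) hs
  have hSP : ∀ s ∈ S, IsPoly (convexHull ℝ (s : Set E)) := fun s _ => IsPoly.hull s
  have hBP : IsPoly B := by
    obtain ⟨⟨SB, -, hSB⟩, -⟩ := hB2
    exact ⟨SB, hSB⟩
  obtain ⟨G1, hG1⟩ : ∃ G1 : Finset (Set F), G1 = S.image (fun s : Finset E => f '' convexHull ℝ (s : Set E)) :=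
    ⟨_, rfl⟩
  obtain ⟨G2, hG2⟩ : ∃ G2 : Finset (Set F), G2 = (S ×ˢ S).image
      (fun q : Finset E × Finset E =>
        f '' (convexHull ℝ (q.1 : Set E) ∩ convexHull ℝ (q.2 : Set E))) := ⟨_, rfl⟩
  obtain ⟨G3, hG3⟩ : ∃ G3 : Finset (Set F), G3 = (Y ×ˢ S).image
      (fun q : Set E × Finset E => f '' (q.1 ∩ convexHull ℝ (q.2 : Set E))) := ⟨_, rfl⟩
  refine ⟨S, insert B (G1 ∪ G2 ∪ G3), ?_, ?_⟩
  · intro A hA
    rcases Finset.mem_insert.1 hA with rfl | hA
    · exact ⟨hBP, hBM⟩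
    rcases Finset.mem_union.1 hA with hA | hA
    · rcases Finset.mem_union.1 hA with hA | hA
      · rw [hG1, Finset.mem_image] at hA
        obtain ⟨s, hs, rfl⟩ := hA
        exact ⟨hpl.image_poly (hSP s hs) (hSN s hs),
          (image_mono (hSN s hs)).trans hmaps.image_subset⟩
      · rw [hG2, Finset.mem_image] at hA
        obtain ⟨⟨s, s'⟩, hs, rfl⟩ := hA
        rw [Finset.mem_product] at hs
        have h1 : convexHull ℝ (s : Set E) ∩ convexHull ℝ (s' : Set E) ⊆ N :=
          inter_subset_left.trans (hSN s hs.1)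
        exact ⟨hpl.image_poly ((hSP s hs.1).inter (hSP s' hs.2)) h1,
          (image_mono h1).trans hmaps.image_subset⟩
    · rw [hG3, Finset.mem_image] at hA
      obtain ⟨⟨A', s⟩, hs, rfl⟩ := hA
      rw [Finset.mem_product] at hs
      have h1 : A' ∩ convexHull ℝ (s : Set E) ⊆ N :=
        inter_subset_left.trans (hY A' hs.1).2
      exact ⟨hpl.image_poly ((hY A' hs.1).1.inter (hSP s hs.2)) h1,
        (image_mono h1).trans hmaps.image_subset⟩
  · intro K hK hG
    have hadm : Adm K S f N := by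
      refine ⟨hS, fun s hs => (hSa s hs).2.2, fun s hs => ?_, ?_, fun s hs => ?_,
        fun s hs s' hs' => ?_⟩
      · refine AffOn.injOn_of_finite (convex_convexHull ℝ _) (hSa s hs).2.2 fun y => ?_
        exact (hfin y).subset (inter_subset_inter_left _ (hSN s hs))
      · rw [hK]
        exact hmaps
      · refine hG _ (Finset.mem_insert_of_mem (Finset.mem_union_left _ (Finset.mem_union_left _ ?_)))
        rw [hG1]
        exact Finset.mem_image_of_mem _ hs
      · refine hG _ (Finset.mem_insert_of_mem (Finset.mem_union_left _ (Finset.mem_union_right _ ?_)))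
        rw [hG2]
        exact Finset.mem_image.2 ⟨(s, s'), Finset.mem_product.2 ⟨hs, hs'⟩, rfl⟩
    have hBad : K.Adapted B := hG _ (Finset.mem_insert_self _ _)
    refine ⟨⟨hadm, ?_, ?_, ?_⟩, ?_⟩
    · intro t ht
      obtain ⟨hinj, htup⟩ := GC.mem_tops.1 ht
      exact hadm.card_lifts hK hB2 hBad hcard (Nat.le_succ m) (Nat.succ_pos m) htup hinj
    · intro t ht j
      exact hadm.facet_inj hm hK hmaps hB2 hBad hcov ht j
    · exact hadm.lifts_cons hm hM hK hmaps hB2 hBad hcov hcard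
    · intro A hA s hs
      refine hG _ (Finset.mem_insert_of_mem (Finset.mem_union_right _ ?_))
      rw [hG3]
      exact Finset.mem_image.2 ⟨(A, s), Finset.mem_product.2 ⟨hA, hs⟩, rfl⟩

theorem lprim_exists {Q : Type*} [Group Q] {m : ℕ} {K : GC F} {S : Finset (Finset E)} {f : E → F}
    {N : Set E} (h : Adm K S f N) (hf : ContinuousOn f N) (hQ : QTriv Q N) (c : F → F → Q)
    (hc : ∀ s ∈ K.faces, ∀ u ∈ s, ∀ v ∈ s, ∀ w ∈ s, c u v * c v w = c u w) :
    ∃ g : E → Q, LPrim m K S f c g := by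
  obtain ⟨g, hg⟩ := pull_triv K c hc N f hf h.maps hQ
  refine ⟨g, fun t ht σ hσ i j => ?_⟩
  obtain ⟨⟨s, hs, hσs⟩, hσf⟩ := (h.mem_lifts t σ).1 hσ
  obtain ⟨-, u, hu, htu⟩ := GC.mem_tops.1 ht
  have hsN : convexHull ℝ (s : Set E) ⊆ N := by
    rw [h.cover]
    exact subset_biUnion_of_mem (u := fun s : Finset E => convexHull ℝ (s : Set E)) hs
  have hseg : segment ℝ (σ i) (σ j) ⊆ convexHull ℝ (s : Set E) :=
    (convex_convexHull ℝ _).segment_subset (hσs i) (hσs j)
  obtain ⟨A, hA⟩ := h.aff s hs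
  have h1 := hg (σ i) (hsN (hσs i)) (σ j) (hsN (hσs j)) (hseg.trans hsN)
    ⟨A, hA.mono hseg⟩ ⟨u, hu, by rw [hσf]; exact htu i, by rw [hσf]; exact htu j⟩
  rwa [hσf, hσf] at h1

end Pool.H54.UB
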