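import Pool.Agent.H54.UB.PIA
import Pool.Agent.H54.UB.BAR

/-!
# Row PIC: the simplicial cocycle with values in the fundamental group

`X = ↥K.space` is path connected (`space_pathConnected`).  For every vertex `u` choose a path `α_u` from
`x₀` to `u`.  For `u, v` in a common face put `c u v = [α_u · seg u v · α_v⁻¹] ∈ π₁(X, x₀)` (if Mathlib's
multiplication in `FundamentalGroup` is composition in the opposite order, use the inverse/opposite
convention: `c u v = [α_v · seg v u · α_u⁻¹]` so that `c u v * c v w = c u w`), otherwise `1`.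
The cocycle identity is `seg_trans`.

Connectivity (`D`).  Let `lam, δ` be from `GC.exists_lam`.  Let `β : [0,1] → X` be a path from the vertex
`u` to the vertex `v`.  For `t ∈ [0,1]` let `l_t = lam (β t)` and
`q_t = q * [α_u · β|[0,t] · seg (β t) l_t · α_{l_t}⁻¹]` (with the order convention above).  Claim: for
`t, t'` close to each other `q_{t'} = q_t * c l_t l_{t'}`: by uniform continuity `β` maps the interval
between `t` and `t'` to the points whose carrier contains `l_t` (`exists_lam`: all `β τ` with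
`dist (β t) (β τ) < δ`), so by `star_path`, `β|[t,t'] ≃ seg (β t) l_t · seg l_t (β t')`, and in the
carrier of `β t'`, which contains `l_t` and `l_{t'}`: `seg l_t (β t') · seg (β t') l_{t'} ≃ seg l_t l_{t'}`.
By hypothesis `D l_t q_t = D l_{t'} (q_t * c l_t l_{t'}) = D l_{t'} q_{t'}`: so `t ↦ D l_t q_t` is locally
constant, hence constant: `D u q = D v (q * [α_u · β · α_v⁻¹])`.  Given `q'`, choose
`β = α_u⁻¹ · γ · α_v` with `[γ] = q⁻¹ q'`.
(Restriction of a path to `[0,t]`: `Path.truncate`, `Path.subpath`, or the path `τ ↦ β (t τ)`.)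
-/

open Set Topology

namespace Pool.H54.UB

/-- the class of a path closed up by the paths `A` -/
noncomputable def PIC_G {X : Type*} [TopologicalSpace X] {x₀ : X} (A : ∀ x : X, Path x₀ x) {x y : X}
    (p : Path x y) : FundamentalGroup X x₀ :=
  ((Path.Homotopic.Quotient.mk (A y)).trans (Path.Homotopic.Quotient.mk p.symm)).trans
    (Path.Homotopic.Quotient.mk (A x).symm)

theorem PIC_G_congr {X : Type*} [TopologicalSpace X] {x₀ : X} (A : ∀ x : X, Path x₀ x) {x y : X}
    {p q : Path x y} (h : p.Homotopic q) : PIC_G A p = PIC_G A q := by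
  unfold PIC_G
  rw [Path.Homotopic.Quotient.eq.2 h.symm₂]

theorem PIC_G_trans {X : Type*} [TopologicalSpace X] {x₀ : X} (A : ∀ x : X, Path x₀ x) {x y z : X}
    (p : Path x y) (q : Path y z) : PIC_G A (p.trans q) = PIC_G A p * PIC_G A q := by
  rw [FundamentalGroup.mul_def]
  unfold PIC_G
  rw [Path.trans_symm, Path.Homotopic.Quotient.mk_trans]
  simp only [Path.Homotopic.Quotient.trans_assoc]
  rw [← Path.Homotopic.Quotient.trans_assoc (Path.Homotopic.Quotient.mk (A y).symm)
    (Path.Homotopic.Quotient.mk (A y)), Path.Homotopic.Quotient.mk_symm (A y),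
    Path.Homotopic.Quotient.symm_trans, Path.Homotopic.Quotient.refl_trans]

theorem PIC_G_refl {X : Type*} [TopologicalSpace X] {x₀ : X} (A : ∀ x : X, Path x₀ x) (x : X) :
    PIC_G A (Path.refl x) = 1 := by
  rw [FundamentalGroup.one_def]
  unfold PIC_G
  rw [Path.refl_symm, Path.Homotopic.Quotient.mk_refl, Path.Homotopic.Quotient.trans_refl,
    Path.Homotopic.Quotient.mk_symm, Path.Homotopic.Quotient.trans_symm]

theorem PIC_G_cast {X : Type*} [TopologicalSpace X] {x₀ : X} (A : ∀ x : X, Path x₀ x) {x y x' y' : X}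
    (p : Path x y) (h : x' = x) (h' : y' = y) : PIC_G A (p.cast h h') = PIC_G A p := by
  subst h
  subst h'
  rfl

theorem PIC_G_surj {X : Type*} [TopologicalSpace X] {x₀ : X} (A : ∀ x : X, Path x₀ x) (x y : X)
    (g : FundamentalGroup X x₀) : ∃ p : Path x y, PIC_G A p = g := by
  obtain ⟨γ, hγ⟩ := Path.Homotopic.Quotient.mk_surjective g
  refine ⟨(((A y).symm.trans γ).trans (A x)).symm, ?_⟩
  unfold PIC_G
  rw [Path.symm_symm, Path.Homotopic.Quotient.mk_trans, Path.Homotopic.Quotient.mk_trans, hγ]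
  simp only [Path.Homotopic.Quotient.trans_assoc]
  rw [Path.Homotopic.Quotient.mk_symm (A x), Path.Homotopic.Quotient.trans_symm,
    Path.Homotopic.Quotient.trans_refl, ← Path.Homotopic.Quotient.trans_assoc,
    Path.Homotopic.Quotient.mk_symm (A y), Path.Homotopic.Quotient.trans_symm]
  exact Path.Homotopic.Quotient.refl_trans _

theorem PIC_between {t t' τ : unitInterval} (h : τ ∈ uIcc t t') : dist τ t ≤ dist t' t := by
  rw [Subtype.dist_eq, Subtype.dist_eq, Real.dist_eq, Real.dist_eq]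
  rcases Set.mem_uIcc.1 h with ⟨h1, h2⟩ | ⟨h1, h2⟩
  · have h1' : (t : ℝ) ≤ τ := h1
    have h2' : (τ : ℝ) ≤ t' := h2
    rw [abs_of_nonneg (by linarith), abs_of_nonneg (by linarith)]
    linarith
  · have h1' : (t' : ℝ) ≤ τ := h1
    have h2' : (τ : ℝ) ≤ t := h2
    rw [abs_of_nonpos (by linarith), abs_of_nonpos (by linarith)]
    linarith

theorem pi1_cocycle {n : ℕ} {M : Set (Fin n → ℝ)} (hc : IsConnected M) (K : GC (Fin n → ℝ))
    (hK : K.space = M) (x₀ : M) :
    ∃ c : (Fin n → ℝ) → (Fin n → ℝ) → FundamentalGroup M x₀,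
      (∀ s ∈ K.faces, ∀ u ∈ s, ∀ v ∈ s, ∀ w ∈ s, c u v * c v w = c u w) ∧
      (∀ D : (Fin n → ℝ) → FundamentalGroup M x₀ → ℕ,
        (∀ s ∈ K.faces, ∀ u ∈ s, ∀ v ∈ s, ∀ q, D u q = D v (q * c u v)) →
        ∀ u ∈ K.verts, ∀ v ∈ K.verts, ∀ q q', D u q = D v q') := by
  classical
  subst hK
  have hpc := K.space_pathConnected hc
  let A : ∀ x : ↥K.space, Path x₀ x := fun x => PathConnectedSpace.somePath x₀ x
  let c : (Fin n → ℝ) → (Fin n → ℝ) → FundamentalGroup ↥K.space x₀ := fun u v =>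
    if h : ∃ s, s ∈ K.faces ∧ u ∈ s ∧ v ∈ s then
      PIC_G A (K.seg h.choose_spec.1 (subset_convexHull ℝ _ h.choose_spec.2.1)
        (subset_convexHull ℝ _ h.choose_spec.2.2))
    else 1
  have hcs : ∀ s (hs : s ∈ K.faces) u (hu : u ∈ s) v (hv : v ∈ s), c u v =
      PIC_G A (K.seg hs (subset_convexHull ℝ _ hu) (subset_convexHull ℝ _ hv)) := by
    intro s hs u hu v hv
    have h : ∃ s, s ∈ K.faces ∧ u ∈ s ∧ v ∈ s := ⟨s, hs, hu, hv⟩
    exact dif_pos h
  refine ⟨c, ?_, ?_⟩
  · intro s hs u hu v hv w hw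
    rw [hcs s hs u hu v hv, hcs s hs v hv w hw, hcs s hs u hu w hw, ← PIC_G_trans]
    exact PIC_G_congr A (K.seg_trans hs _ _ _)
  intro D HD u hu v hv q q'
  obtain ⟨lam, δ, hδ, hl⟩ := K.exists_lam
  have hex : ∀ x : ↥K.space, ∃ t, K.IsCarrier (x : Fin n → ℝ) t := fun x => GC.exists_carrier' x.2
  choose car hcar using hex
  have hlam : ∀ x : ↥K.space, lam x ∈ car x := fun x =>
    hl x x.2 x x.2 (by rw [dist_self]; exact hδ) _ (hcar x)
  let V : ↥K.space → FundamentalGroup ↥K.space x₀ → ℕ := fun x q =>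
    D (lam x) (q * PIC_G A (K.seg (hcar x).1 (hcar x).mem_hull (subset_convexHull ℝ _ (hlam x))))
  have hshort : ∀ (x y : ↥K.space) (β : Path x y) (q : FundamentalGroup ↥K.space x₀),
      (∀ t, dist (x : Fin n → ℝ) (β t : Fin n → ℝ) < δ) → V x q = V y (q * PIC_G A β) := by
    intro x y β q hd
    have hl' : ∀ t s, K.IsCarrier (β t : Fin n → ℝ) s → lam x ∈ s := fun t s hs =>
      hl x x.2 (β t) (β t).2 (hd t) s hs
    have hly : lam x ∈ car y := hl' 1 (car y) (by rw [β.target]; exact hcar y)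
    have h1 := K.star_path β hl' (hcar x).1 (hcar y).1 (hcar x).mem_hull (hcar y).mem_hull
      (hlam x) hly
    have h2 := PIC_G_congr A h1
    rw [PIC_G_trans] at h2
    have h3 := PIC_G_congr A (K.seg_trans (hcar y).1 (subset_convexHull ℝ _ hly) (hcar y).mem_hull
      (subset_convexHull ℝ _ (hlam y)))
    rw [PIC_G_trans, ← hcs (car y) (hcar y).1 (lam x) hly (lam y) (hlam y)] at h3
    have h4 := HD (car y) (hcar y).1 (lam x) hly (lam y) (hlam y)
      (q * PIC_G A (K.seg (hcar x).1 (hcar x).mem_hull (subset_convexHull ℝ _ (hlam x))))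
    show D (lam x) (q * PIC_G A (K.seg (hcar x).1 (hcar x).mem_hull
        (subset_convexHull ℝ _ (hlam x)))) =
      D (lam y) (q * PIC_G A β * PIC_G A (K.seg (hcar y).1 (hcar y).mem_hull
        (subset_convexHull ℝ _ (hlam y))))
    rw [h4, ← h3, h2]
    simp only [mul_assoc]
  have hvert : ∀ (w : Fin n → ℝ) (hw : w ∈ K.verts) (hw' : w ∈ K.space)
      (q : FundamentalGroup ↥K.space x₀), D w q = V ⟨w, hw'⟩ q := by
    intro w hw hw' q
    have h1 : w ∈ car ⟨w, hw'⟩ := by
      rw [GC.carrier_unique (hcar ⟨w, hw'⟩) (GC.verts_carrier hw)]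
      exact Finset.mem_singleton_self w
    rw [HD (car ⟨w, hw'⟩) (hcar ⟨w, hw'⟩).1 w h1 (lam w) (hlam ⟨w, hw'⟩) q,
      hcs (car ⟨w, hw'⟩) (hcar ⟨w, hw'⟩).1 w h1 (lam w) (hlam ⟨w, hw'⟩)]
  have hsp : ∀ w, w ∈ K.verts → w ∈ K.space := by
    rintro w ⟨s, hs, hws⟩
    exact mem_biUnion hs (subset_convexHull ℝ _ hws)
  obtain ⟨β, hβ⟩ := PIC_G_surj A (⟨u, hsp u hu⟩ : ↥K.space) ⟨v, hsp v hv⟩ (q⁻¹ * q')
  let W : unitInterval → ℕ := fun t => V (β t) (q * PIC_G A (β.subpath 0 t))
  have hW : IsLocallyConstant W := by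
    rw [IsLocallyConstant.iff_eventually_eq]
    intro t
    have hcont : ContinuousAt (fun τ => β τ) t := β.continuous.continuousAt
    obtain ⟨η, hη, hη'⟩ := Metric.continuousAt_iff.1 hcont δ hδ
    filter_upwards [Metric.ball_mem_nhds t hη] with t' ht'
    have h1 := hshort (β t) (β t') (β.subpath t t') (q * PIC_G A (β.subpath 0 t)) (by
      intro s
      have h2 := Set.mem_range_self (f := β.subpath t t') s
      rw [Path.range_subpath] at h2
      obtain ⟨τ, hτ, hτe⟩ := h2
      rw [← hτe]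
      have h3 := hη' (lt_of_le_of_lt (PIC_between hτ) ht')
      rw [dist_comm]
      exact h3)
    have h4 := PIC_G_congr A ⟨Path.Homotopy.subpathTransSubpath β 0 t t'⟩
    rw [PIC_G_trans] at h4
    show V (β t') (q * PIC_G A (β.subpath 0 t')) = V (β t) (q * PIC_G A (β.subpath 0 t))
    rw [h1, ← h4, mul_assoc]
  have h01 := hW.apply_eq_of_preconnectedSpace 0 1
  have h0 : W 0 = V ⟨u, hsp u hu⟩ q := by
    show V (β 0) (q * PIC_G A (β.subpath 0 0)) = _
    rw [Path.subpath_self, PIC_G_refl, mul_one, β.source]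
  have h1 : W 1 = V ⟨v, hsp v hv⟩ q' := by
    show V (β 1) (q * PIC_G A (β.subpath 0 1)) = _
    rw [Path.subpath_zero_one, PIC_G_cast, hβ, mul_inv_cancel_left, β.target]
  rw [hvert u hu (hsp u hu), hvert v hv (hsp v hv), ← h0, ← h1, h01]

end Pool.H54.UB
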