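import Pool.Agent.H54.UB.Core

/-!
# Row SDT: linear algebra of `sdet`

`sdet h a = det (h (a (i+1)) - h (a 0))_{i<m}` is the signed volume (times `m!`).
Key formula (`sdet_eq_det`): it is the determinant of the `(m+1) × (m+1)` matrix with rows
`(1, h (a i))` (subtract the first row, expand along the first column: `Matrix.det_succ_column_zero`).
Everything else follows:
* `sdet_perm`: permuting the rows (`Matrix.det_permute`).
* `sdet_comb`: if `a' i = ∑_k W i k • a k` with row sums 1 and `A` is affine, then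
  `sdet A a' = det W * sdet A a` (`Matrix.det_mul`).
* `sdet_cons_comb`: `sdet` is affine in the first entry.
* `sdet_ne_zero_iff`: nonzero iff the points `h (a i)` are affinely independent.
* `sdet_insertNth`: moving the first entry to position `j`.
-/

open Set Topology

namespace Pool.H54.UB

variable {E : Type*} [NormedAddCommGroup E] [NormedSpace ℝ E] {m : ℕ}

/-- the bordered matrix -/
def SDT_mat (h : E → Fin m → ℝ) (a : Fin (m + 1) → E) : Matrix (Fin (m + 1)) (Fin (m + 1)) ℝ :=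
  Matrix.of fun i j : Fin (m + 1) => (Fin.cons (1 : ℝ) (h (a i)) : Fin (m + 1) → ℝ) j

theorem SDT_zero (h : E → Fin m → ℝ) (a : Fin (m + 1) → E) (i : Fin (m + 1)) :
    SDT_mat h a i 0 = 1 := by
  simp [SDT_mat]

theorem SDT_succ (h : E → Fin m → ℝ) (a : Fin (m + 1) → E) (i : Fin (m + 1)) (j : Fin m) :
    SDT_mat h a i j.succ = h (a i) j := by
  simp [SDT_mat]

theorem SDT_det (h : E → Fin m → ℝ) (a : Fin (m + 1) → E) : sdet h a = (SDT_mat h a).det := by
  obtain ⟨A, hA⟩ : ∃ A : Matrix (Fin (m + 1)) (Fin (m + 1)) ℝ, A = Matrix.of fun i j =>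
    SDT_mat h a i j + (if i = 0 then 0 else -1) * SDT_mat h a 0 j := ⟨_, rfl⟩
  have h1 : A.det = (SDT_mat h a).det :=
    Matrix.det_eq_of_forall_row_eq_smul_add_const (fun i : Fin (m + 1) => if i = 0 then 0 else -1) 0
      (by simp) (fun i j => by rw [hA]; rfl)
  rw [← h1, Matrix.det_succ_column_zero, Fin.sum_univ_succ]
  have h2 : ∀ i : Fin m, A i.succ 0 = 0 := by
    intro i
    rw [hA]
    show SDT_mat h a i.succ 0 + (if i.succ = 0 then 0 else -1) * SDT_mat h a 0 0 = 0
    rw [SDT_zero, SDT_zero, if_neg (Fin.succ_ne_zero i)]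
    ring
  have h3 : A 0 0 = 1 := by
    rw [hA]
    show SDT_mat h a 0 0 + (if (0 : Fin (m + 1)) = 0 then 0 else -1) * SDT_mat h a 0 0 = 1
    rw [SDT_zero, if_pos rfl]
    ring
  rw [Finset.sum_eq_zero fun i _ => by rw [h2]; ring, h3]
  simp only [Fin.val_zero, pow_zero, one_mul, add_zero, Fin.zero_succAbove]
  unfold sdet
  congr 1
  ext i j
  rw [hA]
  show h (a i.succ) j - h (a 0) j = SDT_mat h a i.succ j.succ +
    (if i.succ = 0 then 0 else -1) * SDT_mat h a 0 j.succ
  rw [SDT_succ, SDT_succ, if_neg (Fin.succ_ne_zero i)]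
  ring

theorem sdet_eq_det (h : E → Fin m → ℝ) (a : Fin (m + 1) → E) :
    sdet h a = Matrix.det (Matrix.of fun i j : Fin (m + 1) =>
      (Fin.cons (1 : ℝ) (h (a i)) : Fin (m + 1) → ℝ) j) := SDT_det h a

theorem sdet_congr {h h' : E → Fin m → ℝ} {a : Fin (m + 1) → E} (e : ∀ i, h (a i) = h' (a i)) :
    sdet h a = sdet h' a := by
  unfold sdet
  simp only [e]

theorem sdet_perm (h : E → Fin m → ℝ) (a : Fin (m + 1) → E) (π : Equiv.Perm (Fin (m + 1))) :
    sdet h (a ∘ π) = (Equiv.Perm.sign π : ℤ) * sdet h a := by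
  rw [SDT_det, SDT_det, ← Matrix.det_permute]
  rfl

theorem SDT_aff {ι : Type*} (s : Finset ι) (w : ι → ℝ) (z : ι → E) (hw : ∑ i ∈ s, w i = 1)
    (A : E →ᵃ[ℝ] (Fin m → ℝ)) : A (∑ i ∈ s, w i • z i) = ∑ i ∈ s, w i • A (z i) := by
  have h1 : ∀ x, A x = A.linear x + A 0 := fun x => by
    have := congrFun A.decomp x
    simpa using this
  rw [h1, map_sum]
  have h2 : ∑ i ∈ s, w i • A (z i) = ∑ i ∈ s, (w i • A.linear (z i) + w i • A 0) :=
    Finset.sum_congr rfl (fun i _ => by rw [h1 (z i), smul_add])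
  rw [h2, Finset.sum_add_distrib, ← Finset.sum_smul, hw, one_smul]
  congr 1
  exact Finset.sum_congr rfl (fun i _ => by rw [map_smul])

theorem sdet_comb (A : E →ᵃ[ℝ] (Fin m → ℝ)) (a a' : Fin (m + 1) → E)
    (W : Matrix (Fin (m + 1)) (Fin (m + 1)) ℝ) (hW : ∀ i, ∑ k, W i k = 1)
    (ha : ∀ i, a' i = ∑ k, W i k • a k) : sdet A a' = W.det * sdet A a := by
  rw [SDT_det, SDT_det, ← Matrix.det_mul]
  congr 1
  ext i j
  rw [Matrix.mul_apply]
  refine Fin.cases ?_ (fun j => ?_) j
  · rw [SDT_zero]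
    simp only [SDT_zero, mul_one]
    exact (hW i).symm
  · rw [SDT_succ]
    simp only [SDT_succ]
    rw [ha i, SDT_aff _ _ _ (hW i), Finset.sum_apply]
    rfl

theorem sdet_cons_comb {ι : Type*} (s : Finset ι) (w : ι → ℝ) (z : ι → E) (hw : ∑ i ∈ s, w i = 1)
    (A : E →ᵃ[ℝ] (Fin m → ℝ)) (t : Fin m → E) :
    sdet A (Fin.cons (∑ i ∈ s, w i • z i) t : Fin (m + 1) → E) =
      ∑ i ∈ s, w i * sdet A (Fin.cons (z i) t : Fin (m + 1) → E) := by
  have hrow : ∀ u : E, sdet A (Fin.cons u t : Fin (m + 1) → E) =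
      ∑ j : Fin (m + 1), (-1) ^ (j : ℕ) * (Fin.cons (1 : ℝ) (A u) : Fin (m + 1) → ℝ) j *
        (Matrix.of fun i k : Fin m => (Fin.cons (1 : ℝ) (A (t i)) : Fin (m + 1) → ℝ)
          (j.succAbove k)).det := by
    intro u
    rw [SDT_det, Matrix.det_succ_row_zero]
    refine Finset.sum_congr rfl fun j _ => ?_
    congr 1
  simp only [hrow]
  simp only [Finset.mul_sum]
  rw [Finset.sum_comm]
  refine Finset.sum_congr rfl fun j _ => ?_
  have h1 : (Fin.cons (1 : ℝ) (A (∑ i ∈ s, w i • z i)) : Fin (m + 1) → ℝ) j =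
      ∑ i ∈ s, w i * (Fin.cons (1 : ℝ) (A (z i)) : Fin (m + 1) → ℝ) j := by
    refine Fin.cases ?_ (fun j => ?_) j
    · simp only [Fin.cons_zero, mul_one]
      exact hw.symm
    · simp only [Fin.cons_succ]
      rw [SDT_aff _ _ _ hw, Finset.sum_apply]
      rfl
  rw [h1, Finset.mul_sum, Finset.sum_mul]
  exact Finset.sum_congr rfl fun i _ => by ring

theorem sdet_ne_zero_iff (h : E → Fin m → ℝ) (a : Fin (m + 1) → E) :
    sdet h a ≠ 0 ↔ AffineIndependent ℝ (fun i => h (a i)) := by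
  rw [affineIndependent_iff_linearIndependent_vsub ℝ _ (0 : Fin (m + 1)),
    ← linearIndependent_equiv (finSuccAboveEquiv (0 : Fin (m + 1)))]
  unfold sdet
  rw [← isUnit_iff_ne_zero, ← Matrix.isUnit_iff_isUnit_det,
    ← Matrix.linearIndependent_rows_iff_isUnit]
  rfl

theorem sdet_insertNth (h : E → Fin m → ℝ) (j : Fin (m + 1)) (u : E) (t : Fin m → E) :
    sdet h (Fin.insertNth j u t : Fin (m + 1) → E) =
      (-1) ^ (j : ℕ) * sdet h (Fin.cons u t : Fin (m + 1) → E) := by
  have h1 : (Fin.insertNth j u t : Fin (m + 1) → E) =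
      (Fin.cons u t : Fin (m + 1) → E) ∘ j.cycleRange := by
    funext i
    refine Fin.succAboveCases j ?_ (fun k => ?_) i
    · rw [Fin.insertNth_apply_same, Function.comp_apply, Fin.cycleRange_self, Fin.cons_zero]
    · rw [Fin.insertNth_apply_succAbove, Function.comp_apply, Fin.cycleRange_succAbove,
        Fin.cons_succ]
  rw [h1, sdet_perm, Fin.sign_cycleRange]
  push_cast
  rfl

/-- The first entry may be replaced by a point of the affine span of the others: value 0. -/
theorem sdet_cons_self (h : E → Fin m → ℝ) (t : Fin m → E) (k : Fin m) :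
    sdet h (Fin.cons (t k) t : Fin (m + 1) → E) = 0 := by
  rw [SDT_det]
  refine Matrix.det_zero_of_row_eq (Fin.succ_ne_zero k).symm ?_
  funext j
  show (Fin.cons (1 : ℝ) (h ((Fin.cons (t k) t : Fin (m + 1) → E) 0)) : Fin (m + 1) → ℝ) j =
    (Fin.cons (1 : ℝ) (h ((Fin.cons (t k) t : Fin (m + 1) → E) k.succ)) : Fin (m + 1) → ℝ) j
  rw [Fin.cons_zero, Fin.cons_succ]

/-- Composition with an affine map: `sdet A a = sdet id (A ∘ a)`. -/
theorem sdet_comp (h : E → Fin m → ℝ) (a : Fin (m + 1) → E) :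
    sdet h a = sdet (fun x : Fin m → ℝ => x) (fun i => h (a i)) := rfl

/-- If `t` is affinely independent in `E` (`m+1` points) and `B, B'` are affine maps to `ℝ^m`, and `a`
consists of affine combinations of `t` with `sdet B a * sdet B' a > 0`, then
`sdet B t * sdet B' t > 0`. -/
theorem sdet_mul_pos_of_comb (B B' : E →ᵃ[ℝ] (Fin m → ℝ)) (t a : Fin (m + 1) → E)
    (ha : ∀ i, a i ∈ affineSpan ℝ (range t)) (h : 0 < sdet B a * sdet B' a) :
    0 < sdet B t * sdet B' t := by
  choose W hW1 hW2 using fun i => eq_affineCombination_of_mem_affineSpan_of_fintype (ha i)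
  have hW3 : ∀ i, a i = ∑ k, W i k • t k := fun i => by
    rw [hW2 i, Finset.affineCombination_eq_linear_combination _ _ _ (hW1 i)]
  have e1 := sdet_comb B t a (Matrix.of W) hW1 hW3
  have e2 := sdet_comb B' t a (Matrix.of W) hW1 hW3
  rw [e1, e2] at h
  have h1 : (Matrix.of W).det * sdet B t * ((Matrix.of W).det * sdet B' t) =
      (Matrix.of W).det ^ 2 * (sdet B t * sdet B' t) := by ring
  rw [h1] at h
  by_contra hc
  push Not at hc
  exact absurd h (not_lt.mpr (mul_nonpos_of_nonneg_of_nonpos (sq_nonneg _) hc))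

end Pool.H54.UB
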