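import Pool.Agent.H54.UB.GA
import Pool.Agent.H54.UB.SDT

/-!
# Row GRM: geometric complexes in `ℝ^m`

* `no_same_side` (any `E`): `r ⊆ a ∩ b`, `u ∈ a`, `v ∈ b`, `a = insert u r`, `b = insert v r` as sets, and
  `u = α v + ∑_{x ∈ r} β x • x` with `α > 0`, `α + ∑ β = 1`.  Let `g` be the barycentre of `r`.  For small
  `η > 0` the point `(1-η) g + η u` is a positive combination of `a = r ∪ {u}` and equals
  `η α v + ∑ ((1-η)/|r| + η β x) x`, a positive combination of `b`; so `a = b` by `K.uniq`.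
* `card_le`: affinely independent sets in `ℝ^m` have at most `m+1` points.
* `exists_top_of_interior`: the hulls of the faces with at most `m` vertices are closed with empty
  interior (contained in a proper affine subspace); if `x` were not in the (closed) union of the
  hulls of the faces with `m+1` vertices, a neighbourhood of `x` would be covered by finitely many
  closed sets with empty interior (Baire / `IsClosed.interior_union_left`...).
* `opposite`: write `z ↦ sdet id (cons z t)`, affine in `z` (`sdet_cons_comb`), zero on `range t`,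
  nonzero at `u` and `v` (affine independence of `a`, `b`).  Write `u` as an affine combination of the
  affine basis `(v, t)`: `u = α v + ∑ β_i t_i`, then `δ u = α δ v`.  If the product is positive then
  `α > 0`, contradiction with `no_same_side`.
* `two_of_interior`: let `t` enumerate `r`, `δ z = sdet id (cons z t)`.  For a vector `n` with
  `δ (x + n) > δ x = 0` the points `x ± η n` are in `L.space` for small `η`, and by
  `exists_top_of_interior` (they are interior points) in the hull of a face with `m+1` vertices; by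
  finiteness there is such a face `a` containing `x + η n` for arbitrarily small `η > 0` (a sequence
  tending to 0), so `x ∈ convexHull a` (closed), `r ⊆ a` (`carrier_sub`), and the remaining vertex `u`
  of `a` has `δ u > 0`.  Similarly `b` with `δ < 0`.  Any other face `d ⊇ r` with `m+1` vertices has its
  remaining vertex on one of the two sides (`δ ≠ 0`), so it is `a` or `b` by `opposite`.
-/

open Set Topology

namespace Pool.H54.UB

theorem GC.no_same_side {E : Type*} [NormedAddCommGroup E] [NormedSpace ℝ E] (L : GC E)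
    {a b r : Finset E} (ha : a ∈ L.faces) (hb : b ∈ L.faces) (hab : a ≠ b) (hr : r.Nonempty)
    {u v : E} (hua : (a : Set E) = insert u (r : Set E)) (hvb : (b : Set E) = insert v (r : Set E))
    (hu : u ∉ r) (hv : v ∉ r) {α : ℝ} (hα : 0 < α) {β : E → ℝ} (hsum : α + ∑ x ∈ r, β x = 1)
    (h : u = α • v + ∑ x ∈ r, β x • x) : False := by
  classical
  have ha' : a = insert u r := Finset.coe_injective (by rw [Finset.coe_insert]; exact hua)
  have hb' : b = insert v r := Finset.coe_injective (by rw [Finset.coe_insert]; exact hvb)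
  have hn : (0 : ℝ) < r.card := by exact_mod_cast hr.card_pos
  obtain ⟨n, hnn⟩ : ∃ n : ℝ, n = r.card := ⟨_, rfl⟩
  rw [← hnn] at hn
  obtain ⟨M, hM⟩ : ∃ M : ℝ, M = 1 + ∑ x ∈ r, |β x| := ⟨_, rfl⟩
  have hs0 : 0 ≤ ∑ x ∈ r, |β x| := Finset.sum_nonneg fun _ _ => abs_nonneg _
  have hMp : 0 < M := by linarith
  have hβ : ∀ x ∈ r, |β x| ≤ M := by
    intro x hx
    have := Finset.single_le_sum (f := fun x => |β x|) (fun _ _ => abs_nonneg _) hx
    linarith
  obtain ⟨η, hη⟩ : ∃ η : ℝ, η = 1 / (2 * (1 + n * M)) := ⟨_, rfl⟩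
  have hD : 0 < 1 + n * M := by positivity
  have hη0 : 0 < η := by rw [hη]; positivity
  have hη1 : η * (1 + n * M) = 1 / 2 := by
    rw [hη]
    field_simp
  have hη2 : η < 1 := by nlinarith [mul_pos hn hMp]
  have hw : ∀ x ∈ r, 0 < (1 - η) / n + η * β x := by
    intro x hx
    have h1 := hβ x hx
    have h2 := neg_abs_le (β x)
    have h3 : -(η * M) ≤ η * β x := by nlinarith
    have h4 : η * M < (1 - η) / n := by
      rw [lt_div_iff₀ hn]
      nlinarith
    linarith
  have hru : ∀ x ∈ r, x ≠ u := fun x hx he => hu (he ▸ hx)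
  have hrv : ∀ x ∈ r, x ≠ v := fun x hx he => hv (he ▸ hx)
  have hsumn : ∑ _x ∈ r, (1 - η) / n = 1 - η := by
    rw [Finset.sum_const, nsmul_eq_mul, ← hnn]
    field_simp
  have key := L.uniq a ha b hb (fun y => if y = u then η else (1 - η) / n)
    (fun y => if y = v then η * α else (1 - η) / n + η * β y) ?_ ?_ ?_ ?_ ?_
  · exact hab key.1
  · intro y hy
    rw [ha', Finset.mem_insert] at hy
    rcases hy with rfl | hy
    · simp only [if_true]
      exact hη0
    · simp only [if_neg (hru y hy)]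
      exact div_pos (by linarith) hn
  · intro y hy
    rw [hb', Finset.mem_insert] at hy
    rcases hy with rfl | hy
    · simp only [if_true]
      positivity
    · simp only [if_neg (hrv y hy)]
      exact hw y hy
  · rw [ha', Finset.sum_insert hu, Finset.sum_congr rfl fun x hx => if_neg (hru x hx), hsumn]
    simp
  · rw [hb', Finset.sum_insert hv, Finset.sum_congr rfl fun x hx => if_neg (hrv x hx),
      Finset.sum_add_distrib, hsumn, ← Finset.mul_sum]
    simp only [if_true]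
    linear_combination η * hsum
  · rw [ha', hb', Finset.sum_insert hu, Finset.sum_insert hv]
    have e1 : ∑ x ∈ r, (if x = u then η else (1 - η) / n) • x = ∑ x ∈ r, ((1 - η) / n) • x :=
      Finset.sum_congr rfl fun x hx => by rw [if_neg (hru x hx)]
    have e2 : ∑ x ∈ r, (if x = v then η * α else (1 - η) / n + η * β x) • x =
        ∑ x ∈ r, ((1 - η) / n) • x + η • ∑ x ∈ r, β x • x := by
      rw [Finset.smul_sum, ← Finset.sum_add_distrib]
      refine Finset.sum_congr rfl fun x hx => ?_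
      rw [if_neg (hrv x hx), add_smul, mul_smul]
    simp only [if_true] at e1 e2 ⊢
    rw [e1, e2]
    have e3 : η • u = (η * α) • v + η • ∑ x ∈ r, β x • x := by
      conv_lhs => rw [h]
      rw [smul_add, smul_smul]
    rw [e3]
    abel

theorem GC.card_le {m : ℕ} (L : GC (Fin m → ℝ)) {s : Finset (Fin m → ℝ)} (hs : s ∈ L.faces) :
    s.card ≤ m + 1 := by
  have h1 := (GC.affineIndependent hs).card_le_finrank_succ
  rw [Fintype.card_coe] at h1
  have h2 := Submodule.finrank_le (vectorSpan ℝ (Set.range fun x : s => (x : Fin m → ℝ)))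
  rw [Module.finrank_fin_fun] at h2
  omega

theorem GRM_thin {m : ℕ} {s : Finset (Fin m → ℝ)} (hs : s.Nonempty) (hc : s.card ≤ m) :
    MeasureTheory.volume (convexHull ℝ (s : Set (Fin m → ℝ))) = 0 := by
  classical
  have h1 : affineSpan ℝ (s : Set (Fin m → ℝ)) ≠ ⊤ := by
    intro h
    have h2 : vectorSpan ℝ (s : Set (Fin m → ℝ)) = ⊤ := by
      rw [← direction_affineSpan, h, AffineSubspace.direction_top]
    have h3 : Module.finrank ℝ (vectorSpan ℝ (s : Set (Fin m → ℝ))) = m := by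
      rw [h2, finrank_top, Module.finrank_fin_fun]
    obtain ⟨n, hn⟩ : ∃ n, s.card = n + 1 := ⟨s.card - 1, by have := hs.card_pos; omega⟩
    have h4 := finrank_vectorSpan_image_finset_le ℝ (id : (Fin m → ℝ) → (Fin m → ℝ)) s hn
    rw [Finset.image_id] at h4
    omega
  exact MeasureTheory.measure_mono_null (convexHull_subset_affineSpan _)
    (MeasureTheory.Measure.addHaar_affineSubspace _ _ h1)

theorem GC.exists_top_of_interior {m : ℕ} (L : GC (Fin m → ℝ)) {x : Fin m → ℝ}
    (hx : x ∈ interior L.space) :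
    ∃ s ∈ L.faces, s.card = m + 1 ∧ x ∈ convexHull ℝ (s : Set (Fin m → ℝ)) := by
  by_contra hcon
  push Not at hcon
  have hcl : IsClosed (⋃ t ∈ {t | t ∈ L.faces ∧ t.card = m + 1},
      convexHull ℝ (t : Set (Fin m → ℝ))) :=
    (L.fin.subset fun t ht => ht.1).isClosed_biUnion
      (fun t _ => (t.finite_toSet.isCompact_convexHull ℝ).isClosed)
  have hxn : x ∉ ⋃ t ∈ {t | t ∈ L.faces ∧ t.card = m + 1},
      convexHull ℝ (t : Set (Fin m → ℝ)) := by
    intro h
    obtain ⟨t, ht, hxt⟩ := Set.mem_iUnion₂.1 h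
    exact hcon t ht.1 ht.2 hxt
  have hop : IsOpen (interior L.space ∩ (⋃ t ∈ {t | t ∈ L.faces ∧ t.card = m + 1},
      convexHull ℝ (t : Set (Fin m → ℝ)))ᶜ) := isOpen_interior.inter hcl.isOpen_compl
  have hpos := hop.measure_pos MeasureTheory.volume ⟨x, hx, hxn⟩
  have hsub : interior L.space ∩ (⋃ t ∈ {t | t ∈ L.faces ∧ t.card = m + 1},
      convexHull ℝ (t : Set (Fin m → ℝ)))ᶜ ⊆ ⋃ t ∈ {t | t ∈ L.faces ∧ t.card ≤ m},
      convexHull ℝ (t : Set (Fin m → ℝ)) := by
    rintro y ⟨hy, hyn⟩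
    obtain ⟨t, ht, hyt⟩ := Set.mem_iUnion₂.1 (interior_subset hy)
    refine Set.mem_iUnion₂.2 ⟨t, ⟨ht, ?_⟩, hyt⟩
    have h1 := L.card_le ht
    by_contra h2
    exact hyn (Set.mem_iUnion₂.2 ⟨t, ⟨ht, by omega⟩, hyt⟩)
  have hz : MeasureTheory.volume (⋃ t ∈ {t | t ∈ L.faces ∧ t.card ≤ m},
      convexHull ℝ (t : Set (Fin m → ℝ))) = 0 := by
    rw [MeasureTheory.measure_biUnion_null_iff (L.fin.subset fun t ht => ht.1).countable]
    intro t ht
    exact GRM_thin (L.ne t ht.1) ht.2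
  exact hpos.ne' (MeasureTheory.measure_mono_null hsub hz)

theorem GRM_comb {m : ℕ} {ι : Type*} (s : Finset ι) (w : ι → ℝ) (z : ι → (Fin m → ℝ))
    (hw : ∑ i ∈ s, w i = 1) (t : Fin m → (Fin m → ℝ)) :
    sdet (fun x : Fin m → ℝ => x) (Fin.cons (∑ i ∈ s, w i • z i) t : Fin (m + 1) → (Fin m → ℝ)) =
      ∑ i ∈ s, w i * sdet (fun x : Fin m → ℝ => x)
        (Fin.cons (z i) t : Fin (m + 1) → (Fin m → ℝ)) :=
  sdet_cons_comb s w z hw (AffineMap.id ℝ (Fin m → ℝ)) t

theorem GRM_ind {m : ℕ} {L : GC (Fin m → ℝ)} {a : Finset (Fin m → ℝ)} (ha : a ∈ L.faces)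
    (t : Fin m → (Fin m → ℝ)) (ht : Function.Injective t) (hta : ∀ i, t i ∈ a)
    {u : Fin m → ℝ} (hu : u ∈ a) (hu' : u ∉ range t) :
    AffineIndependent ℝ (Fin.cons u t : Fin (m + 1) → (Fin m → ℝ)) := by
  have hinj : Function.Injective (Fin.cons u t : Fin (m + 1) → (Fin m → ℝ)) :=
    Fin.cons_injective_iff.2 ⟨hu', ht⟩
  have hmem : ∀ i, (Fin.cons u t : Fin (m + 1) → (Fin m → ℝ)) i ∈ a := by
    intro i
    refine Fin.cases ?_ (fun j => ?_) i
    · simpa using hu
    · simpa using hta j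
  let f : Fin (m + 1) ↪ a := ⟨fun i => ⟨(Fin.cons u t : Fin (m + 1) → (Fin m → ℝ)) i, hmem i⟩,
    fun i j hij => hinj (congrArg Subtype.val hij)⟩
  exact (GC.affineIndependent ha).comp_embedding f

theorem GRM_ne {m : ℕ} {L : GC (Fin m → ℝ)} {a : Finset (Fin m → ℝ)} (ha : a ∈ L.faces)
    (t : Fin m → (Fin m → ℝ)) (ht : Function.Injective t) (hta : ∀ i, t i ∈ a)
    {u : Fin m → ℝ} (hu : u ∈ a) (hu' : u ∉ range t) :
    sdet (fun x : Fin m → ℝ => x) (Fin.cons u t : Fin (m + 1) → (Fin m → ℝ)) ≠ 0 :=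
  (sdet_ne_zero_iff _ _).2 (GRM_ind ha t ht hta hu hu')

theorem GRM_set {m : ℕ} {a : Finset (Fin m → ℝ)} (hac : a.card = m + 1)
    (t : Fin m → (Fin m → ℝ)) (ht : Function.Injective t) (hta : ∀ i, t i ∈ a)
    {u : Fin m → ℝ} (hu : u ∈ a) (hu' : u ∉ range t) [DecidableEq (Fin m → ℝ)] :
    a = insert u (Finset.univ.image t) := by
  symm
  apply Finset.eq_of_subset_of_card_le
  · intro y hy
    rw [Finset.mem_insert, Finset.mem_image] at hy
    rcases hy with rfl | ⟨i, -, rfl⟩
    · exact hu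
    · exact hta i
  · rw [hac, Finset.card_insert_of_notMem, Finset.card_image_of_injective _ ht, Finset.card_univ,
      Fintype.card_fin]
    intro hy
    rw [Finset.mem_image] at hy
    obtain ⟨i, -, hi⟩ := hy
    exact hu' ⟨i, hi⟩

theorem GC.opposite {m : ℕ} (L : GC (Fin m → ℝ)) {a b : Finset (Fin m → ℝ)} (ha : a ∈ L.faces)
    (hb : b ∈ L.faces) (hac : a.card = m + 1) (hbc : b.card = m + 1) (hab : a ≠ b)
    (t : Fin m → (Fin m → ℝ)) (ht : Function.Injective t) (hta : ∀ i, t i ∈ a)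
    (htb : ∀ i, t i ∈ b) {u v : Fin m → ℝ} (hu : u ∈ a) (hu' : u ∉ range t) (hv : v ∈ b)
    (hv' : v ∉ range t) :
    sdet (fun x : Fin m → ℝ => x) (Fin.cons u t : Fin (m + 1) → (Fin m → ℝ)) *
      sdet (fun x : Fin m → ℝ => x) (Fin.cons v t : Fin (m + 1) → (Fin m → ℝ)) < 0 := by
  classical
  have hau := GRM_set hac t ht hta hu hu'
  have hbv := GRM_set hbc t ht htb hv hv'
  rcases Nat.eq_zero_or_pos m with hm | hm
  · exfalso
    subst hm
    apply hab
    rw [hau, hbv, Subsingleton.elim u v]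
  haveI : Nonempty (Fin m) := ⟨⟨0, hm⟩⟩
  have hnu := GRM_ne ha t ht hta hu hu'
  have hnv := GRM_ne hb t ht htb hv hv'
  have hind := GRM_ind hb t ht htb hv hv'
  have htop : affineSpan ℝ (Set.range (Fin.cons v t : Fin (m + 1) → (Fin m → ℝ))) = ⊤ := by
    rw [hind.affineSpan_eq_top_iff_card_eq_finrank_add_one, Fintype.card_fin,
      Module.finrank_fin_fun]
  have hmem : u ∈ affineSpan ℝ (Set.range (Fin.cons v t : Fin (m + 1) → (Fin m → ℝ))) := by
    rw [htop]
    exact AffineSubspace.mem_top _ _ _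
  obtain ⟨w, hw1, hw2⟩ := eq_affineCombination_of_mem_affineSpan_of_fintype hmem
  rw [Finset.affineCombination_eq_linear_combination _ _ _ hw1] at hw2
  have hd : sdet (fun x : Fin m → ℝ => x) (Fin.cons u t : Fin (m + 1) → (Fin m → ℝ)) =
      w 0 * sdet (fun x : Fin m → ℝ => x) (Fin.cons v t : Fin (m + 1) → (Fin m → ℝ)) := by
    have h1 := GRM_comb Finset.univ w (Fin.cons v t : Fin (m + 1) → (Fin m → ℝ)) hw1 t
    rw [← hw2, Fin.sum_univ_succ] at h1
    rw [h1]
    have h2 : ∑ i : Fin m, w i.succ * sdet (fun x : Fin m → ℝ => x)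
        (Fin.cons ((Fin.cons v t : Fin (m + 1) → (Fin m → ℝ)) i.succ) t :
          Fin (m + 1) → (Fin m → ℝ)) = 0 := by
      apply Finset.sum_eq_zero
      intro i _
      rw [Fin.cons_succ, sdet_cons_self, mul_zero]
    rw [h2, add_zero, Fin.cons_zero]
  by_contra hcon
  push Not at hcon
  have hw0 : 0 < w 0 := by
    rw [hd] at hcon hnu
    have h3 : 0 < sdet (fun x : Fin m → ℝ => x) (Fin.cons v t : Fin (m + 1) → (Fin m → ℝ)) ^ 2 :=
      by positivity
    have h4 : w 0 ≠ 0 := fun h => hnu (by rw [h, zero_mul])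
    rcases lt_or_gt_of_ne h4 with h5 | h5
    · nlinarith
    · exact h5
  have hsum := hw1
  rw [Fin.sum_univ_succ] at hsum
  rw [Fin.sum_univ_succ, Fin.cons_zero] at hw2
  have hβ : ∀ i, w (Fin.succ (Function.invFun t (t i))) = w i.succ := by
    intro i
    rw [Function.leftInverse_invFun ht i]
  refine L.no_same_side (r := Finset.univ.image t) (u := u) (v := v) (α := w 0)
    (β := fun y => w (Fin.succ (Function.invFun t y))) ha hb hab ?_ ?_ ?_ ?_ ?_ hw0 ?_ ?_
  · exact ⟨t ⟨0, hm⟩, Finset.mem_image_of_mem _ (Finset.mem_univ _)⟩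
  · conv_lhs => rw [hau]
    rw [Finset.coe_insert]
  · conv_lhs => rw [hbv]
    rw [Finset.coe_insert]
  · intro hy
    rw [Finset.mem_image] at hy
    obtain ⟨i, -, hi⟩ := hy
    exact hu' ⟨i, hi⟩
  · intro hy
    rw [Finset.mem_image] at hy
    obtain ⟨i, -, hi⟩ := hy
    exact hv' ⟨i, hi⟩
  · rw [Finset.sum_image fun i _ j _ hij => ht hij]
    simp only [hβ]
    exact hsum
  · rw [Finset.sum_image fun i _ j _ hij => ht hij]
    simp only [hβ]
    rw [hw2]
    simp only [Fin.cons_succ]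

theorem GC.two_of_interior {m : ℕ} (L : GC (Fin m → ℝ)) {r : Finset (Fin m → ℝ)}
    (hr : r ∈ L.faces) (hrc : r.card = m) {x : Fin m → ℝ} (hx : L.IsCarrier x r)
    (hxi : x ∈ interior L.space) :
    ∃ a ∈ L.faces, ∃ b ∈ L.faces, a ≠ b ∧ a.card = m + 1 ∧ b.card = m + 1 ∧ r ⊆ a ∧ r ⊆ b ∧
      ∀ d ∈ L.faces, d.card = m + 1 → r ⊆ d → d = a ∨ d = b := by
  classical
  let e := r.equivFinOfCardEq hrc
  let t : Fin m → (Fin m → ℝ) := fun i => ((e.symm i : r) : Fin m → ℝ)
  have ht : Function.Injective t := fun i j hij => e.symm.injective (Subtype.ext hij)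
  have htr : ∀ i, t i ∈ r := fun i => (e.symm i).2
  have hrt : ∀ y ∈ r, y ∈ range t := fun y hy => ⟨e ⟨y, hy⟩, by simp [t]⟩
  have hrt' : ∀ y, y ∉ r → y ∉ range t := by
    rintro y hy ⟨i, rfl⟩
    exact hy (htr i)
  obtain ⟨δ, hδ⟩ : ∃ δ : (Fin m → ℝ) → ℝ, δ = fun z => sdet (fun x : Fin m → ℝ => x)
    (Fin.cons z t : Fin (m + 1) → (Fin m → ℝ)) := ⟨_, rfl⟩
  have hδr : ∀ y ∈ r, δ y = 0 := by
    intro y hy
    obtain ⟨i, rfl⟩ := hrt y hy
    rw [hδ]
    exact sdet_cons_self _ t i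
  have hδc : ∀ {ι : Type} (s : Finset ι) (w : ι → ℝ) (z : ι → (Fin m → ℝ)), ∑ i ∈ s, w i = 1 →
      δ (∑ i ∈ s, w i • z i) = ∑ i ∈ s, w i * δ (z i) := by
    intro ι s w z hw
    rw [hδ]
    exact GRM_comb s w z hw t
  have hδx : δ x = 0 := by
    obtain ⟨_, w, hw0, hw1, hwx⟩ := hx
    rw [← hwx]
    have h1 := hδc r w (fun y => y) hw1
    rw [h1]
    exact Finset.sum_eq_zero fun y hy => by rw [hδr y hy, mul_zero]
  obtain ⟨a, ha, hac, hxa⟩ := L.exists_top_of_interior hxi
  have hra : r ⊆ a := GC.carrier_sub ha hxa hx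
  obtain ⟨u, hua, hur⟩ := Finset.exists_mem_notMem_of_card_lt_card (s := r) (t := a) (by omega)
  have hδu : δ u ≠ 0 := by
    rw [hδ]
    exact GRM_ne ha t ht (fun i => hra (htr i)) hua (hrt' u hur)
  obtain ⟨U, hU, hstar⟩ := GC.exists_nhd_star hx
  -- a point on the other side
  have hcont : Continuous fun η : ℝ => x + η • (x - u) := by fun_prop
  have hnb : U ∩ interior L.space ∈ 𝓝 x := Filter.inter_mem hU (isOpen_interior.mem_nhds hxi)
  have hev : ∀ᶠ η in 𝓝 (0 : ℝ), x + η • (x - u) ∈ U ∩ interior L.space := by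
    refine hcont.continuousAt.eventually_mem ?_
    simpa using hnb
  obtain ⟨d0, hd0, hd⟩ := Metric.eventually_nhds_iff.1 hev
  have hη0 : 0 < d0 / 2 := by linarith
  have hy := hd (y := d0 / 2) (by
    rw [dist_zero_right, Real.norm_of_nonneg hη0.le]
    linarith)
  obtain ⟨η, hη⟩ : ∃ η : ℝ, η = d0 / 2 := ⟨_, rfl⟩
  rw [← hη] at hη0 hy
  obtain ⟨y, hyd⟩ : ∃ y, y = x + η • (x - u) := ⟨_, rfl⟩
  rw [← hyd] at hy
  have hδy : δ y = -(η * δ u) := by
    have h1 := hδc (Finset.univ : Finset (Fin 2)) ![1 + η, -η] ![x, u] (by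
      rw [Fin.sum_univ_two]
      simp)
    rw [Fin.sum_univ_two, Fin.sum_univ_two] at h1
    simp only [Matrix.cons_val_zero, Matrix.cons_val_one] at h1
    have h2 : y = (1 + η) • x + (-η) • u := by
      rw [hyd, smul_sub, add_smul, one_smul, neg_smul]
      abel
    rw [h2, h1, hδx]
    ring
  obtain ⟨b, hb, hbc, hyb⟩ := L.exists_top_of_interior hy.2
  obtain ⟨t', ht'b, ht'⟩ := GC.exists_carrier hb hyb
  have hrb : r ⊆ b := (hstar y ⟨hy.1, interior_subset hy.2⟩ t' ht').trans ht'b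
  obtain ⟨v, hvb, hvr⟩ := Finset.exists_mem_notMem_of_card_lt_card (s := r) (t := b) (by omega)
  have hbi : b = insert v r := by
    symm
    apply Finset.eq_of_subset_of_card_le
    · intro z hz
      rw [Finset.mem_insert] at hz
      rcases hz with rfl | hz
      · exact hvb
      · exact hrb hz
    · rw [hbc, Finset.card_insert_of_notMem hvr, hrc]
  have hopp : ∀ {c d : Finset (Fin m → ℝ)}, c ∈ L.faces → d ∈ L.faces → c.card = m + 1 →
      d.card = m + 1 → c ≠ d → r ⊆ c → r ⊆ d → ∀ {z z' : Fin m → ℝ}, z ∈ c → z ∉ r → z' ∈ d →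
      z' ∉ r → δ z * δ z' < 0 := by
    intro c d hc hd hcc hdc hcd hrc' hrd z z' hz hzr hz' hzr'
    rw [hδ]
    exact L.opposite hc hd hcc hdc hcd t ht (fun i => hrc' (htr i)) (fun i => hrd (htr i)) hz
      (hrt' z hzr) hz' (hrt' z' hzr')
  have hδv : δ u * δ v < 0 := by
    obtain ⟨c, hc0, hc1, hcx⟩ := Finset.mem_convexHull'.1 hyb
    have h1 := hδc b c (fun z => z) hc1
    rw [hcx, hδy, hbi, Finset.sum_insert hvr, Finset.sum_eq_zero (s := r) fun z hz => by
      rw [hδr z hz, mul_zero], add_zero] at h1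
    have h2 := hc0 v hvb
    have h3 : 0 < δ u ^ 2 := by positivity
    have h4 : c v * (δ u * δ v) = -(η * δ u ^ 2) := by
      linear_combination (-δ u) * h1
    by_contra hcon
    push Not at hcon
    have h5 : 0 ≤ c v * (δ u * δ v) := mul_nonneg h2 hcon
    have h6 : 0 < η * δ u ^ 2 := mul_pos hη0 h3
    linarith
  have hne : a ≠ b := by
    intro hab
    have h1 : v ∈ a := by rw [hab]; exact hvb
    have h2 : u = v := by
      have h3 : u ∈ insert v r := by rw [← hbi, ← hab]; exact hua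
      rw [Finset.mem_insert] at h3
      exact h3.resolve_right hur
    rw [h2] at hδv
    nlinarith [mul_self_nonneg (δ v)]
  refine ⟨a, ha, b, hb, hne, hac, hbc, hra, hrb, fun d hd hdc hrd => ?_⟩
  obtain ⟨w, hwd, hwr⟩ := Finset.exists_mem_notMem_of_card_lt_card (s := r) (t := d) (by omega)
  by_contra hcon
  push Not at hcon
  have h1 := hopp hd ha hdc hac hcon.1 hrd hra hwd hwr hua hur
  have h2 := hopp hd hb hdc hbc hcon.2 hrd hrb hwd hwr hvb hvr
  -- signs
  have h3 : 0 < (δ w * δ u) * (δ w * δ v) := mul_pos_of_neg_of_neg h1 h2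
  have h4 : (δ w * δ u) * (δ w * δ v) = δ w ^ 2 * (δ u * δ v) := by ring
  rw [h4] at h3
  have h5 : δ w ^ 2 * (δ u * δ v) ≤ 0 := mul_nonpos_of_nonneg_of_nonpos (sq_nonneg _) hδv.le
  linarith

end Pool.H54.UB
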