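import Pool.Agent.H54.UB.CRF
import Pool.Agent.H54.UB.GRM

/-!
# Row PUR: triangulations of a closed PL manifold are pure

`local_data`: for `x ∈ M` take a chart `(U, h)` at `x` (`ChartAt`), and `chart_refine` for
`Y = ` hulls of the faces of `K` (`GC.exists_hulls`).

Claim 1 (`card_le`): every face `s` of `K` has at most `m+1` vertices.  Take `x` = barycentre of `s`
(carrier `s`), a chart at `x`, `L, L'` from `chart_refine`, an open `O ∋ x` with `O ∩ M ⊆ U`
(`U ∈ 𝓝[M] x`).  `GC.exists_face_dim` gives an `L`-face `b` with `b.card = s.card`; `h` is injective on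
it, so `h(b)` is an `L'`-face with the same number of vertices, `≤ m+1` by `GC.card_le`.

Claim 2: every face `s` is contained in a face with `m+1` vertices.  Same `x`; `h x` is an interior
point of the cube `= L'.space`; `GC.exists_top_of_interior` gives an `L'`-face `h(b)` with `m+1`
vertices, `h x ∈ convexHull (h b) = h (convexHull b)`, so `x ∈ convexHull b` (`h` injective on `U`).
Let `y` be the barycentre of `b`, `a` its `K`-carrier: `convexHull b ⊆ convexHull a`
(`carrier_refine`), so `x ∈ convexHull a` and `s ⊆ a` (`carrier_sub`); `b` is affinely independent with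
`m+1` points in the affine span of `a`, so `a.card ≥ m+1`, and `= m+1` by claim 1.
-/

open Set Topology

namespace Pool.H54.UB

variable {E : Type*} [NormedAddCommGroup E] [NormedSpace ℝ E] [FiniteDimensional ℝ E]

theorem interior_cube_mem {m : ℕ} {y : Fin m → ℝ} (h : ∀ i, -1 < y i ∧ y i < 1) :
    y ∈ interior (cube m) := by
  have h1 : IsOpen (Set.pi (univ : Set (Fin m)) (fun _ => Ioo (-1 : ℝ) 1)) :=
    isOpen_set_pi finite_univ fun _ _ => isOpen_Ioo
  have h2 : Set.pi (univ : Set (Fin m)) (fun _ => Ioo (-1 : ℝ) 1) ⊆ cube m := by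
    intro z hz i
    have := hz i (mem_univ i)
    exact ⟨this.1.le, this.2.le⟩
  exact interior_maximal h2 h1 (fun i _ => h i)

/-- A set of affinely independent points in the hull of `a` has at most `a.card` points. -/
theorem card_le_of_hull_subset {a b : Finset E}
    (hb : AffineIndependent ℝ (fun x : b => (x : E)))
    (h : convexHull ℝ (b : Set E) ⊆ convexHull ℝ (a : Set E)) : b.card ≤ a.card :=
  AffineIndependent.card_le_card_of_subset_affineSpan hb
    ((subset_convexHull ℝ _).trans (h.trans (convexHull_subset_affineSpan _)))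

theorem PUR_bary (s : Finset E) (hne : s.Nonempty) :
    ∃ w : E → ℝ, (∀ x ∈ s, 0 < w x) ∧ ∑ x ∈ s, w x = 1 := by
  have hc : (0 : ℝ) < s.card := by exact_mod_cast hne.card_pos
  refine ⟨fun _ => 1 / (s.card : ℝ), fun x _ => by positivity, ?_⟩
  rw [Finset.sum_const, nsmul_eq_mul]
  field_simp

theorem PUR_data {m : ℕ} {M : Set E} (hM : IsClosedPLManifold m M) (K : GC E)
    (hK : K.space = M) {s : Finset E} (hs : s ∈ K.faces) :
    ∃ (x : E) (U O : Set E) (h : E → Fin m → ℝ) (L : GC E) (L' : GC (Fin m → ℝ)),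
      K.IsCarrier x s ∧ U ⊆ M ∧ x ∈ U ∧ InjOn h U ∧ IsOpen O ∧ x ∈ O ∧ O ∩ M ⊆ U ∧
      (∀ t ∈ K.faces, L.Adapted (convexHull ℝ (t : Set E))) ∧ L.space = U ∧
      h x ∈ interior L'.space ∧ (∀ s' : Finset (Fin m → ℝ), s' ∈ L'.faces ↔
        ∃ s ∈ L.faces, (s' : Set (Fin m → ℝ)) = h '' (s : Set E)) ∧
      (∀ s ∈ L.faces, h '' convexHull ℝ (s : Set E) = convexHull ℝ (h '' (s : Set E))) := by
  obtain ⟨w, hw0, hw1⟩ := PUR_bary s (K.ne s hs)
  have hx : K.IsCarrier (∑ y ∈ s, w y • y) s := ⟨hs, w, hw0, hw1, rfl⟩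
  obtain ⟨x, hxe⟩ : ∃ x, x = ∑ y ∈ s, w y • y := ⟨_, rfl⟩
  rw [← hxe] at hx
  have hxK : x ∈ K.space := mem_biUnion hs hx.mem_hull
  obtain ⟨U, h, hc, hxU, hnU, hint⟩ := hM.2 x (hK ▸ hxK)
  obtain ⟨Y, hY1, hY2⟩ := GC.exists_hulls K
  obtain ⟨L, L', hL1, hL2, -, hL4, hL5, -, hL7⟩ := chart_refine hc Y hY2
  obtain ⟨O, hO, hxO, hOU⟩ := mem_nhdsWithin.1 hnU
  exact ⟨x, U, O, h, L, L', hx, hc.1, hxU, hc.2.2.1, hO, hxO, hOU,
    fun t ht => hL2 _ ((hY1 _).2 ⟨t, ht, rfl⟩), hL1, by rw [hL4]; exact interior_cube_mem hint,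
    hL5, hL7⟩

theorem PUR_card {m : ℕ} {L : GC E} {h : E → Fin m → ℝ}
    (hi : InjOn h L.space) {b : Finset E} (hb : b ∈ L.faces) {b' : Finset (Fin m → ℝ)}
    (he : (b' : Set (Fin m → ℝ)) = h '' (b : Set E)) : b'.card = b.card := by
  classical
  have h1 : b' = b.image h := by
    apply Finset.coe_injective
    rw [he, Finset.coe_image]
  rw [h1, Finset.card_image_of_injOn]
  refine hi.mono fun x hx => ?_
  exact mem_biUnion hb (subset_convexHull ℝ _ hx)

theorem PUR_le {m : ℕ} {M : Set E} (hM : IsClosedPLManifold m M) (K : GC E)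
    (hK : K.space = M) {s : Finset E} (hs : s ∈ K.faces) : s.card ≤ m + 1 := by
  classical
  obtain ⟨x, U, O, h, L, L', hx, hUM, hxU, hi, hO, hxO, hOU, had, hLs, -, hf, -⟩ :=
    PUR_data hM K hK hs
  obtain ⟨b, hb, hbc, -, -⟩ := GC.exists_face_dim hs (had s hs) hO hxO hx.mem_hull (by
    rintro z ⟨hz1, hz2⟩
    rw [hLs]
    refine hOU ⟨hz2, ?_⟩
    rw [← hK]
    exact mem_biUnion hs hz1)
  have h1 : (b.image h) ∈ L'.faces := (hf _).2 ⟨b, hb, Finset.coe_image⟩
  have h2 : (b.image h).card = b.card := PUR_card (hLs ▸ hi) hb (Finset.coe_image)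
  have h3 := L'.card_le h1
  omega

theorem GC.pure {m : ℕ} {M : Set E} (hM : IsClosedPLManifold m M) (K : GC E)
    (hK : K.space = M) :
    (∀ s ∈ K.faces, ∃ s' ∈ K.faces, s ⊆ s' ∧ s'.card = m + 1) ∧
      ∀ s ∈ K.faces, s.card ≤ m + 1 := by
  refine ⟨fun s hs => ?_, fun s hs => PUR_le hM K hK hs⟩
  obtain ⟨x, U, O, h, L, L', hx, hUM, hxU, hi, hO, hxO, hOU, had, hLs, hint, hf, hhull⟩ :=
    PUR_data hM K hK hs
  obtain ⟨s', hs', hs'c, hxs'⟩ := L'.exists_top_of_interior hint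
  obtain ⟨b, hb, hbe⟩ := (hf s').1 hs'
  have hbc : b.card = m + 1 := by
    rw [← PUR_card (hLs ▸ hi) hb hbe, hs'c]
  rw [hbe, ← hhull b hb] at hxs'
  obtain ⟨z, hz, hzx⟩ := hxs'
  have hzU : z ∈ U := by
    rw [← hLs]
    exact mem_biUnion hb hz
  have hzx' : z = x := hi hzU hxU hzx
  rw [hzx'] at hz
  obtain ⟨w, hw0, hw1⟩ := PUR_bary b (L.ne b hb)
  have hy : L.IsCarrier (∑ y ∈ b, w y • y) b := ⟨hb, w, hw0, hw1, rfl⟩
  have hyK : (∑ y ∈ b, w y • y) ∈ K.space := by
    rw [hK]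
    apply hUM
    rw [← hLs]
    exact mem_biUnion hb hy.mem_hull
  obtain ⟨a, ha⟩ := GC.exists_carrier' hyK
  have h1 := (GC.carrier_refine had hy hy ha).2
  refine ⟨a, ha.1, GC.carrier_sub ha.1 (h1 hz) hx, ?_⟩
  have h2 := card_le_of_hull_subset (GC.affineIndependent hb) h1
  have h3 := PUR_le hM K hK ha.1
  omega

end Pool.H54.UB
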