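import Mathlib

/-!
# Row SC: cochain homotopy between two vertex maps

`mix f g t k : Fin (i+2) → V` is the tuple `(f t_0, .., f t_k, g t_k, .., g t_i)`.
Put `β v = ∑_{k : Fin i} (-1)^k c (f v_0, .., f v_k, g v_k, .., g v_{i-1})` (this is `c (mix f g v k)`
for `v : Fin i → X`, up to the sign conventions).  Then (formal prism identity)
`∑_j (-1)^j β (t ∘ δ_j) = ± (c (g ∘ t) - c (f ∘ t)) - ∑_k (-1)^k (δ c) (mix f g t k)`
(find the right signs), so if `δ c` vanishes on all `mix f g t k` the function `± β` does the job.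
For `i = 0` the claim is `c (g t_0) = c (f t_0)`.
-/

namespace Pool.H54.UB

open Finset

/-- The mixed tuple `(f t_0, .., f t_k, g t_k, .., g t_i)`. -/
def mix {X V : Type*} {i : ℕ} (f g : X → V) (t : Fin (i + 1) → X) (k : Fin (i + 1)) :
    Fin (i + 2) → V :=
  fun a => if h : (a : ℕ) ≤ k then f (t ⟨a, by omega⟩) else g (t ⟨(a : ℕ) - 1, by omega⟩)

theorem SC_sum {R : Type*} [CommRing R] (i : ℕ) (P : ℕ → ℕ → R) (N : ℕ → R)
    (h1 : ∀ k, P k k = N k) (h2 : ∀ k, P k (k + 1) = N (k + 1)) :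
    ∑ k ∈ range (i + 1), (-1 : R) ^ k * ∑ j ∈ range (i + 2), (-1 : R) ^ j * P k j =
      N 0 - N (i + 1) - ∑ j ∈ range (i + 1), (-1 : R) ^ j *
        ∑ k ∈ range i, (-1 : R) ^ k * (if j ≤ k then P (k + 1) j else P k (j + 1)) := by
  -- the left hand side
  have hL : ∑ k ∈ range (i + 1), (-1 : R) ^ k * ∑ j ∈ range (i + 2), (-1 : R) ^ j * P k j =
      (∑ k ∈ range (i + 1), ∑ j ∈ range (i + 2),
        if j < k then (-1 : R) ^ (k + j) * P k j else 0) +
      (∑ k ∈ range (i + 1), ∑ j ∈ range (i + 2),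
        if j = k then (-1 : R) ^ (k + j) * P k j else 0) +
      (∑ k ∈ range (i + 1), ∑ j ∈ range (i + 2),
        if j = k + 1 then (-1 : R) ^ (k + j) * P k j else 0) +
      (∑ k ∈ range (i + 1), ∑ j ∈ range (i + 2),
        if k + 1 < j then (-1 : R) ^ (k + j) * P k j else 0) := by
    simp only [← Finset.sum_add_distrib, Finset.mul_sum]
    refine Finset.sum_congr rfl fun k _ => Finset.sum_congr rfl fun j _ => ?_
    rw [← mul_assoc, ← pow_add]
    rcases lt_trichotomy j k with h | h | h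
    · rw [if_pos h, if_neg (by omega), if_neg (by omega), if_neg (by omega)]
      ring
    · rw [if_neg (by omega), if_pos h, if_neg (by omega), if_neg (by omega)]
      ring
    · rcases Nat.lt_or_ge (k + 1) j with h' | h'
      · rw [if_neg (by omega), if_neg (by omega), if_neg (by omega), if_pos h']
        ring
      · rw [if_neg (by omega), if_neg (by omega), if_pos (by omega), if_neg (by omega)]
        ring
  have hX2 : (∑ k ∈ range (i + 1), ∑ j ∈ range (i + 2),
        if j = k then (-1 : R) ^ (k + j) * P k j else 0) = ∑ k ∈ range (i + 1), N k := by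
    refine Finset.sum_congr rfl fun k hk => ?_
    rw [Finset.sum_ite_eq', if_pos (by rw [Finset.mem_range] at hk ⊢; omega), h1, ← two_mul,
      pow_mul]
    simp
  have hX3 : (∑ k ∈ range (i + 1), ∑ j ∈ range (i + 2),
        if j = k + 1 then (-1 : R) ^ (k + j) * P k j else 0) =
        - ∑ k ∈ range (i + 1), N (k + 1) := by
    rw [← Finset.sum_neg_distrib]
    refine Finset.sum_congr rfl fun k hk => ?_
    rw [Finset.sum_ite_eq', if_pos (by rw [Finset.mem_range] at hk ⊢; omega), h2,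
      show k + (k + 1) = 2 * k + 1 by ring, pow_succ, pow_mul]
    simp
  have hN : (∑ k ∈ range (i + 1), N k) + (- ∑ k ∈ range (i + 1), N (k + 1)) =
      N 0 - N (i + 1) := by
    rw [← sub_eq_add_neg, ← Finset.sum_sub_distrib, Finset.sum_range_sub']
  -- the right hand side
  have hR : ∑ j ∈ range (i + 1), (-1 : R) ^ j *
        ∑ k ∈ range i, (-1 : R) ^ k * (if j ≤ k then P (k + 1) j else P k (j + 1)) =
      (∑ k ∈ range i, ∑ j ∈ range (i + 1),
        if j < k + 1 then (-1 : R) ^ (k + j) * P (k + 1) j else 0) +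
      ∑ k ∈ range i, ∑ j ∈ range (i + 1),
        if k < j then (-1 : R) ^ (k + j) * P k (j + 1) else 0 := by
    simp only [Finset.mul_sum]
    rw [Finset.sum_comm, ← Finset.sum_add_distrib]
    refine Finset.sum_congr rfl fun k _ => ?_
    rw [← Finset.sum_add_distrib]
    refine Finset.sum_congr rfl fun j _ => ?_
    rw [← mul_assoc, ← pow_add, add_comm j k]
    rcases Nat.lt_or_ge k j with h | h
    · rw [if_neg (by omega), if_neg (by omega), if_pos h]
      ring
    · rw [if_pos h, if_pos (by omega), if_neg (by omega)]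
      ring
  have hX1 : (∑ k ∈ range (i + 1), ∑ j ∈ range (i + 2),
        if j < k then (-1 : R) ^ (k + j) * P k j else 0) =
      - ∑ k ∈ range i, ∑ j ∈ range (i + 1),
        if j < k + 1 then (-1 : R) ^ (k + j) * P (k + 1) j else 0 := by
    rw [Finset.sum_range_succ']
    have e0 : (∑ j ∈ range (i + 2), if j < 0 then (-1 : R) ^ (0 + j) * P 0 j else 0) = 0 :=
      Finset.sum_eq_zero fun j _ => if_neg (by omega)
    rw [e0, add_zero, ← Finset.sum_neg_distrib]
    refine Finset.sum_congr rfl fun k hk => ?_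
    rw [Finset.mem_range] at hk
    rw [Finset.sum_range_succ, if_neg (by omega : ¬ i + 1 < k + 1), add_zero,
      ← Finset.sum_neg_distrib]
    refine Finset.sum_congr rfl fun j _ => ?_
    by_cases h : j < k + 1
    · rw [if_pos h, if_pos h, show k + 1 + j = (k + j) + 1 by ring, pow_succ]
      ring
    · rw [if_neg h, if_neg h, neg_zero]
  have hX4 : (∑ k ∈ range (i + 1), ∑ j ∈ range (i + 2),
        if k + 1 < j then (-1 : R) ^ (k + j) * P k j else 0) =
      - ∑ k ∈ range i, ∑ j ∈ range (i + 1),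
        if k < j then (-1 : R) ^ (k + j) * P k (j + 1) else 0 := by
    rw [Finset.sum_range_succ]
    have e0 : (∑ j ∈ range (i + 2), if i + 1 < j then (-1 : R) ^ (i + j) * P i j else 0) = 0 :=
      Finset.sum_eq_zero fun j hj => if_neg (by rw [Finset.mem_range] at hj; omega)
    rw [e0, add_zero, ← Finset.sum_neg_distrib]
    refine Finset.sum_congr rfl fun k hk => ?_
    rw [Finset.sum_range_succ', if_neg (by omega : ¬ k + 1 < 0), add_zero,
      ← Finset.sum_neg_distrib]
    refine Finset.sum_congr rfl fun j _ => ?_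
    by_cases h : k < j
    · rw [if_pos h, if_pos (by omega), show k + (j + 1) = (k + j) + 1 by ring, pow_succ]
      ring
    · rw [if_neg h, if_neg (by omega), neg_zero]
  rw [hL, hR, hX1, hX2, hX3, hX4, ← hN]
  ring

/-- the mixed tuple with an omitted entry, indices in the natural numbers -/
def SC_P {X V R : Type*} {i : ℕ} (f g : X → V) (c : (Fin (i + 1) → V) → R)
    (T : ℕ → X) (k j : ℕ) : R :=
  c fun a : Fin (i + 1) =>
    if (if (a : ℕ) < j then (a : ℕ) else (a : ℕ) + 1) ≤ k then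
      f (T (if (a : ℕ) < j then (a : ℕ) else (a : ℕ) + 1))
    else g (T ((if (a : ℕ) < j then (a : ℕ) else (a : ℕ) + 1) - 1))

/-- the mixed tuple without repetition -/
def SC_N {X V R : Type*} {i : ℕ} (f g : X → V) (c : (Fin (i + 1) → V) → R)
    (T : ℕ → X) (k : ℕ) : R :=
  c fun a : Fin (i + 1) => if (a : ℕ) < k then f (T a) else g (T a)

theorem SC_PN {X V R : Type*} {i : ℕ} (f g : X → V) (c : (Fin (i + 1) → V) → R)
    (T : ℕ → X) (k : ℕ) : SC_P f g c T k k = SC_N f g c T k := by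
  rw [SC_P, SC_N]
  congr 1
  funext a
  by_cases h : (a : ℕ) < k
  · rw [if_pos h, if_pos h, if_pos h.le]
  · rw [if_neg h, if_neg h, if_neg (by omega), Nat.add_sub_cancel]

theorem SC_PN' {X V R : Type*} {i : ℕ} (f g : X → V) (c : (Fin (i + 1) → V) → R)
    (T : ℕ → X) (k : ℕ) : SC_P f g c T k (k + 1) = SC_N f g c T (k + 1) := by
  rw [SC_P, SC_N]
  congr 1
  funext a
  by_cases h : (a : ℕ) < k + 1
  · rw [if_pos h, if_pos h, if_pos (by omega)]
  · rw [if_neg h, if_neg h, if_neg (by omega), Nat.add_sub_cancel]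

theorem SC_val {n : ℕ} (j : Fin (n + 1)) (a : Fin n) :
    ((j.succAbove a : Fin (n + 1)) : ℕ) = if (a : ℕ) < j then (a : ℕ) else (a : ℕ) + 1 := by
  by_cases h : (a : ℕ) < j
  · rw [if_pos h, Fin.succAbove_of_castSucc_lt j a (by rw [Fin.lt_def]; simpa using h)]
    rfl
  · rw [if_neg h, Fin.succAbove_of_le_castSucc j a (by
      rw [Fin.le_def]; simpa using not_lt.1 h)]
    rfl

theorem SC_mix {X V R : Type*} {i : ℕ} (f g : X → V) (c : (Fin (i + 1) → V) → R)
    (t : Fin (i + 1) → X) (T : ℕ → X) (hT : ∀ a : Fin (i + 1), T a = t a) (k : Fin (i + 1))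
    (j : Fin (i + 2)) : c (mix f g t k ∘ j.succAbove) = SC_P f g c T k j := by
  rw [SC_P]
  congr 1
  funext a
  have hv := SC_val j a
  simp only [Function.comp_apply, mix, hv]
  have ha := a.2
  have hk := k.2
  by_cases h : (if (a : ℕ) < j then (a : ℕ) else (a : ℕ) + 1) ≤ k
  · rw [dif_pos h, if_pos h]
    congr 1
    exact (hT ⟨_, _⟩).symm
  · rw [dif_neg h, if_neg h]
    congr 1
    exact (hT ⟨_, _⟩).symm

/-- the prism cochain -/
def SC_m {X V : Type*} {i : ℕ} (f g : X → V) (v : Fin i → X) (k : Fin i) :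
    Fin (i + 1) → V :=
  fun a => if h : (a : ℕ) ≤ k then f (v ⟨a, by omega⟩) else g (v ⟨(a : ℕ) - 1, by omega⟩)

theorem SC_face {X V R : Type*} {i : ℕ} (f g : X → V) (c : (Fin (i + 1) → V) → R)
    (t : Fin (i + 1) → X) (T : ℕ → X) (hT : ∀ a : Fin (i + 1), T a = t a) (k : Fin i)
    (j : Fin (i + 1)) : c (SC_m f g (t ∘ j.succAbove) k) =
      if (j : ℕ) ≤ k then SC_P f g c T (k + 1) j else SC_P f g c T k (j + 1) := by
  have hk := k.2
  have hval : ∀ b : Fin i, t (j.succAbove b) =
      T (if (b : ℕ) < j then (b : ℕ) else (b : ℕ) + 1) := fun b => by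
    rw [← hT, SC_val]
  by_cases hjk : (j : ℕ) ≤ k
  · rw [if_pos hjk, SC_P]
    congr 1
    funext a
    have ha := a.2
    simp only [SC_m, Function.comp_apply]
    by_cases h : (a : ℕ) ≤ k
    · rw [dif_pos h, hval]
      by_cases h3 : (a : ℕ) < j
      · rw [if_pos h3, if_pos (show (a : ℕ) ≤ k + 1 by omega)]
      · rw [if_neg h3, if_pos (show (a : ℕ) + 1 ≤ k + 1 by omega)]
    · rw [dif_neg h, hval]
      have e1 : ¬ (a : ℕ) < j := by omega
      have e2 : ¬ (a : ℕ) - 1 < j := by omega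
      rw [if_neg e1, if_neg e2, if_neg (by omega)]
      congr 2
      show (a : ℕ) - 1 + 1 = (a : ℕ) + 1 - 1
      omega
  · rw [if_neg hjk, SC_P]
    congr 1
    funext a
    have ha := a.2
    simp only [SC_m, Function.comp_apply]
    by_cases h : (a : ℕ) ≤ k
    · rw [dif_pos h, hval]
      have e1 : (a : ℕ) < j := by omega
      have e2 : (a : ℕ) < j + 1 := by omega
      rw [if_pos e1, if_pos e2, if_pos h]
    · rw [dif_neg h, hval]
      by_cases h3 : (a : ℕ) < j + 1
      · have e1 : (a : ℕ) - 1 < j := by omega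
        rw [if_pos h3, if_pos e1, if_neg h]
      · have e1 : ¬ (a : ℕ) - 1 < j := by omega
        rw [if_neg h3, if_neg e1, if_neg (by omega)]
        congr 2
        show (a : ℕ) - 1 + 1 = (a : ℕ) + 1 - 1
        omega

theorem cochain_homotopy {X V R : Type*} [CommRing R] (i : ℕ) (f g : X → V)
    (c : (Fin (i + 1) → V) → R) :
    ∃ β : (Fin i → X) → R, ∀ t : Fin (i + 1) → X,
      (∀ k : Fin (i + 1), ∑ j : Fin (i + 2), (-1 : R) ^ (j : ℕ) * c (mix f g t k ∘ j.succAbove) = 0) →
      c (g ∘ t) - c (f ∘ t) = ∑ j : Fin (i + 1), (-1 : R) ^ (j : ℕ) * β (t ∘ j.succAbove) := by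
  refine ⟨fun v => ∑ k : Fin i, (-1 : R) ^ (k : ℕ) * c (SC_m f g v k), fun t ht => ?_⟩
  let T : ℕ → X := fun n => t ⟨min n i, by omega⟩
  have hT : ∀ a : Fin (i + 1), T a = t a := fun a => by
    show t ⟨min (a : ℕ) i, _⟩ = t a
    congr 1
    apply Fin.ext
    show min (a : ℕ) i = a
    have := a.2
    omega
  have h1 : ∀ k ∈ range (i + 1), ∑ j ∈ range (i + 2), (-1 : R) ^ j * SC_P f g c T k j = 0 := by
    intro k hk
    have h2 := ht ⟨k, Finset.mem_range.1 hk⟩
    simp only [SC_mix f g c t T hT] at h2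
    rw [← Fin.sum_univ_eq_sum_range (fun j => (-1 : R) ^ j * SC_P f g c T k j) (i + 2)]
    exact h2
  have h3 := SC_sum i (SC_P f g c T) (SC_N f g c T) (SC_PN f g c T) (SC_PN' f g c T)
  rw [Finset.sum_eq_zero fun k hk => by rw [h1 k hk, mul_zero]] at h3
  have h4 : SC_N f g c T 0 = c (g ∘ t) := by
    rw [SC_N]
    congr 1
    funext a
    rw [if_neg (Nat.not_lt_zero _), hT]
    rfl
  have h5 : SC_N f g c T (i + 1) = c (f ∘ t) := by
    rw [SC_N]
    congr 1
    funext a
    rw [if_pos a.2, hT]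
    rfl
  have h6 : ∑ j : Fin (i + 1), (-1 : R) ^ (j : ℕ) *
      (∑ k : Fin i, (-1 : R) ^ (k : ℕ) * c (SC_m f g (t ∘ j.succAbove) k)) =
      ∑ j ∈ range (i + 1), (-1 : R) ^ j *
        ∑ k ∈ range i, (-1 : R) ^ k *
          (if j ≤ k then SC_P f g c T (k + 1) j else SC_P f g c T k (j + 1)) := by
    rw [← Fin.sum_univ_eq_sum_range (fun j => (-1 : R) ^ j *
        ∑ k ∈ range i, (-1 : R) ^ k *
          (if j ≤ k then SC_P f g c T (k + 1) j else SC_P f g c T k (j + 1))) (i + 1)]
    refine Finset.sum_congr rfl fun j _ => ?_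
    rw [← Fin.sum_univ_eq_sum_range (fun k => (-1 : R) ^ k *
          (if (j : ℕ) ≤ k then SC_P f g c T (k + 1) j else SC_P f g c T k (j + 1))) i]
    congr 1
    refine Finset.sum_congr rfl fun k _ => ?_
    rw [SC_face f g c t T hT]
  rw [h4, h5, ← h6] at h3
  linear_combination -h3

end Pool.H54.UB
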