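import Pool.Agent.H54.UB.SB
import Pool.Agent.H54.UB.SC
import Pool.Agent.H54.UB.SD
import Pool.Agent.H54.UB.BAR

/-!
# Row SE: cohomology of a triangulated sphere vanishes in degrees `0 < i < m`

Let `K.space` be the sphere, `c` a cocycle of degree `i` on the `K`-tuples (`K.Tup`), `0 < i < m`.
1. `lam, δ` from `GC.exists_lam`.  Fact (*): if the points `x_0, .., x_r ∈ K.space` have pairwise
   distances `< δ` then `lam ∘ x` is a `K`-tuple (all `lam x_j` are in the carrier of `x_0`).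
2. `x₀` from `sphere_point` for the faces with at most `m` vertices; let `L` be the union of the hulls
   of these faces: compact, `x₀ ∉ L`.  Call a tuple an `L`-tuple if its entries are in a common face
   with at most `m` vertices; every `K`-tuple with at most `m` entries is an `L`-tuple (`K.down`).
3. `H` from `sphere_null`; it is uniformly continuous on `L × [0,1]`: choose `N ≥ 1` and `ε > 0`,
   `ε ≤ δ`, such that `dist (H (x, k/N)) (H (x', l/N)) < δ` whenever `x, x' ∈ L`, `dist x x' < ε` and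
   `|k - l| ≤ 1`.  Put `f_k x = lam (H (x, k/N))`, `0 ≤ k ≤ N`.
   For a tuple `u : Fin (i+1) → L` with pairwise distances `< ε` all the mixed tuples
   `mix f_k f_{k+1} u a` are `K`-tuples by (*), so by `cochain_homotopy` (`β_k` for `f_k, f_{k+1}`) and
   telescoping: `c (f_N ∘ u) - c (f_0 ∘ u) = δ (∑ β_k) (u)`, and `f_0 = lam` on `L`,
   `f_N ∘ u = (v, .., v)`, `v = lam (-x₀)`.  Let `κ = c (v, .., v)`.  If `i` is odd the cocycle
   condition for the constant `K`-tuple `(v, .., v)` (`i + 2` entries, odd) gives `κ = 0`; if `i` is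
   even the constant function `κ` on `i`-tuples has coboundary `κ`.  So in both cases there is
   `β : (Fin i → E) → R` with `c (lam ∘ u) = ∑_j (-1)^j β (u ∘ δ_j)` for all such `u`.
4. `T` from `exists_subdiv ε`.  For an `L`-tuple `t`, all tuples of the chain `T n t` have entries in
   `L` (hull of the range of `t`, which is contained in the hull of a face `s`), pairwise distances
   `< ε`.  `T' n t = (lam ∘ ·)_* (T n t)` (`Finsupp.mapDomain`).  The entries `lam (u a)` are in the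
   carrier of `u a ∈ convexHull (range t)`, which is contained in `range t` (`GC.carrier_sub` for the
   face `range t`).  `T'` satisfies the hypotheses of `exists_homotopy` with `Tp n t` = (`t` is an
   `L`-tuple; `n ≥ 1`; for `n = 0` put `Tp 0 t = True`), so we get `D`.
5. Evaluate `c` (extended linearly: `Finsupp.sum` / `linearCombination`) on
   `T' (i+1) t - t = bd (D (i+1) t) + ∑_j (-1)^j D i (t ∘ δ_j)` for an `L`-tuple `t` with `i+1` entries:
   `c (bd (D t)) = (δ c)(D t) = 0` since the tuples of `D t` have entries in a face;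
   `c (T' t) = ∑_u (T t)(u) δβ(u) = β (bd (T t)) = ∑_j (-1)^j β (T i (t ∘ δ_j))`.
   Hence `c t = ∑_j (-1)^j b (t ∘ δ_j)` with `b v = β (T i v) - c (D i v)` (linear extensions).
-/

open Set Topology

namespace Pool.H54.UB

/-- extend a function on tuples linearly to chains -/
noncomputable def SE_ev {X R : Type*} [CommRing R] (n : ℕ) (f : (Fin n → X) → R) :
    ((Fin n → X) →₀ R) →ₗ[R] R := Finsupp.linearCombination R f

/-- the map of chains induced by a map of vertices -/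
noncomputable def SE_map {X Y R : Type*} [CommRing R] (n : ℕ) (g : X → Y) :
    ((Fin n → X) →₀ R) →ₗ[R] ((Fin n → Y) →₀ R) := Finsupp.lmapDomain R R (fun u => g ∘ u)

theorem SE_ev_single {X R : Type*} [CommRing R] (n : ℕ) (f : (Fin n → X) → R) (t : Fin n → X)
    (r : R) : SE_ev n f (Finsupp.single t r) = r * f t := by
  unfold SE_ev
  rw [Finsupp.linearCombination_single, smul_eq_mul]

theorem SE_map_single {X Y R : Type*} [CommRing R] (n : ℕ) (g : X → Y) (t : Fin n → X)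
    (r : R) : SE_map n g (Finsupp.single t r) = Finsupp.single (g ∘ t) r := by
  unfold SE_map
  rw [Finsupp.lmapDomain_apply, Finsupp.mapDomain_single]

theorem SE_ev_bd {X R : Type*} [CommRing R] (n : ℕ) (f : (Fin n → X) → R)
    (z : (Fin (n + 1) → X) →₀ R) : SE_ev n f (bd n z) =
      SE_ev (n + 1) (fun u => ∑ j : Fin (n + 1), (-1) ^ (j : ℕ) * f (u ∘ j.succAbove)) z := by
  have h : (SE_ev n f).comp (bd n) =
      SE_ev (n + 1) (fun u => ∑ j : Fin (n + 1), (-1) ^ (j : ℕ) * f (u ∘ j.succAbove)) := by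
    refine Finsupp.lhom_ext fun t r => ?_
    rw [LinearMap.comp_apply, bd_single, map_sum, SE_ev_single, Finset.mul_sum]
    refine Finset.sum_congr rfl fun j _ => ?_
    rw [SE_ev_single]
    ring
  exact LinearMap.congr_fun h z

theorem SE_ev_map {X Y R : Type*} [CommRing R] (n : ℕ) (g : X → Y) (f : (Fin n → Y) → R)
    (z : (Fin n → X) →₀ R) : SE_ev n f (SE_map n g z) = SE_ev n (fun u => f (g ∘ u)) z := by
  have h : (SE_ev n f).comp (SE_map n g) = SE_ev n (fun u => f (g ∘ u)) := by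
    refine Finsupp.lhom_ext fun t r => ?_
    rw [LinearMap.comp_apply, SE_map_single, SE_ev_single, SE_ev_single]
  exact LinearMap.congr_fun h z

theorem SE_bd_map {X Y R : Type*} [CommRing R] (n : ℕ) (g : X → Y)
    (z : (Fin (n + 1) → X) →₀ R) : bd n (SE_map (n + 1) g z) = SE_map n g (bd n z) := by
  have h : (bd (R := R) n).comp (SE_map (n + 1) g) = (SE_map n g).comp (bd n) := by
    refine Finsupp.lhom_ext fun t r => ?_
    rw [LinearMap.comp_apply, SE_map_single, bd_single, LinearMap.comp_apply, bd_single, map_sum]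
    refine Finset.sum_congr rfl fun j _ => ?_
    rw [SE_map_single]
    rfl
  exact LinearMap.congr_fun h z

theorem SE_ev_congr {X R : Type*} [CommRing R] (n : ℕ) (f g : (Fin n → X) → R)
    (z : (Fin n → X) →₀ R) (h : ∀ u ∈ z.support, f u = g u) : SE_ev n f z = SE_ev n g z := by
  unfold SE_ev
  rw [Finsupp.linearCombination_apply, Finsupp.linearCombination_apply]
  refine Finsupp.sum_congr fun u hu => ?_
  rw [h u hu]

theorem SE_ev_zero {X R : Type*} [CommRing R] (n : ℕ) (z : (Fin n → X) →₀ R) :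
    SE_ev n (fun _ => (0 : R)) z = 0 := by
  unfold SE_ev
  rw [Finsupp.linearCombination_apply]
  simp

/-- alternating sum of a constant -/
theorem SE_alt {R : Type*} [CommRing R] (n : ℕ) (κ : R) :
    ∑ j : Fin n, (-1 : R) ^ (j : ℕ) * κ = if Even n then 0 else κ := by
  rw [Fin.sum_univ_eq_sum_range (fun j => (-1 : R) ^ j * κ) n]
  induction n with
  | zero => simp
  | succ n ih =>
    rw [Finset.sum_range_succ, ih]
    by_cases h : Even n
    · have h2 : ¬ Even (n + 1) := by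
        rw [Nat.even_add_one]
        exact fun h3 => h3 h
      rw [if_pos h, if_neg h2, h.neg_one_pow]
      ring
    · have h2 : Even (n + 1) := by
        rw [Nat.even_add_one]
        exact h
      rw [if_neg h, if_pos h2, (Nat.not_even_iff_odd.1 h).neg_one_pow]
      ring

/-- step 3 -/
theorem SE_step3 (m : ℕ) (K : GC (Fin (m + 1) → ℝ)) (hK : K.space = Metric.sphere 0 1)
    (R : Type) [CommRing R] (i : ℕ)
    (c : (Fin (i + 1) → (Fin (m + 1) → ℝ)) → R)
    (hc : ∀ t : Fin (i + 2) → (Fin (m + 1) → ℝ), K.Tup t →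
      ∑ j : Fin (i + 2), (-1) ^ (j : ℕ) * c (t ∘ j.succAbove) = 0)
    (lam : (Fin (m + 1) → ℝ) → (Fin (m + 1) → ℝ)) (δ : ℝ) (hδ : 0 < δ)
    (hlam : ∀ x ∈ K.space, ∀ y ∈ K.space, dist x y < δ → ∀ s, K.IsCarrier y s → lam x ∈ s)
    (x₀ : Fin (m + 1) → ℝ) (hx₀ : x₀ ∈ Metric.sphere (0 : Fin (m + 1) → ℝ) 1)
    (L : Set (Fin (m + 1) → ℝ)) (hL : IsCompact L) (hLK : L ⊆ K.space) (hxL : x₀ ∉ L) :
    ∃ ε > 0, ∃ β : (Fin i → (Fin (m + 1) → ℝ)) → R, ∀ u : Fin (i + 1) → (Fin (m + 1) → ℝ),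
      (∀ a, u a ∈ L) → (∀ a b, dist (u a) (u b) < ε) →
      c (lam ∘ u) = ∑ j : Fin (i + 1), (-1) ^ (j : ℕ) * β (u ∘ j.succAbove) := by
  -- the fact (*)
  have hstar : ∀ (r : ℕ) (x : Fin (r + 1) → (Fin (m + 1) → ℝ)), (∀ a, x a ∈ K.space) →
      (∀ a b, dist (x a) (x b) < δ) → K.Tup (lam ∘ x) := by
    intro r x hx hd
    obtain ⟨s, hs⟩ := GC.exists_carrier' (hx 0)
    exact ⟨s, hs.1, fun a => hlam _ (hx a) _ (hx 0) (hd a 0) s hs⟩
  obtain ⟨H, hHc, hH⟩ := sphere_null m x₀ (by simpa using hx₀)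
  have hLs : L ⊆ Metric.sphere 0 1 := by rw [← hK]; exact hLK
  have hLx : ∀ x ∈ L, x ≠ x₀ := fun x hx h => hxL (h ▸ hx)
  have hcomp : IsCompact (L ×ˢ Icc (0 : ℝ) 1) := hL.prod isCompact_Icc
  have hsub : L ×ˢ Icc (0 : ℝ) 1 ⊆ (Metric.sphere 0 1 \ {x₀}) ×ˢ Icc 0 1 := by
    rintro ⟨x, t⟩ ⟨hx, ht⟩
    exact ⟨⟨hLs hx, hLx x hx⟩, ht⟩
  have hU := hcomp.uniformContinuousOn_of_continuous (hHc.mono hsub)
  rw [Metric.uniformContinuousOn_iff] at hU
  obtain ⟨η, hη, hU⟩ := hU δ hδ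
  obtain ⟨N, hN⟩ := exists_nat_one_div_lt hη
  have hNp : (0 : ℝ) < (N : ℝ) + 1 := by positivity
  -- the maps
  obtain ⟨G, hG⟩ : ∃ G : ℕ → (Fin (m + 1) → ℝ) → (Fin (m + 1) → ℝ),
      G = fun (k : ℕ) x => H (x, (k : ℝ) / (N + 1)) := ⟨_, rfl⟩
  obtain ⟨f, hf⟩ : ∃ f : ℕ → (Fin (m + 1) → ℝ) → (Fin (m + 1) → ℝ),
      f = fun (k : ℕ) x => lam (G k x) := ⟨_, rfl⟩
  have hmemI : ∀ k : ℕ, k ≤ N + 1 → (k : ℝ) / (N + 1) ∈ Icc (0 : ℝ) 1 := by
    intro k hk
    refine ⟨by positivity, ?_⟩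
    rw [div_le_one hNp]
    exact_mod_cast hk
  have hGm : ∀ k ≤ N + 1, ∀ x ∈ L, G k x ∈ K.space := by
    intro k hk x hx
    rw [hK, hG]
    exact (hH x (hLs hx) (hLx x hx)).2.2 _ (hmemI k hk)
  have hGd : ∀ k l : ℕ, k ≤ N + 1 → l ≤ N + 1 → k ≤ l + 1 → l ≤ k + 1 → ∀ x ∈ L, ∀ y ∈ L,
      dist x y < η → dist (G k x) (G l y) < δ := by
    intro k l hk hl hkl hlk x hx y hy hxy
    rw [hG]
    refine hU (x, (k : ℝ) / (N + 1)) ⟨hx, hmemI k hk⟩ (y, (l : ℝ) / (N + 1)) ⟨hy, hmemI l hl⟩ ?_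
    rw [Prod.dist_eq]
    refine max_lt hxy ?_
    show dist ((k : ℝ) / (N + 1)) ((l : ℝ) / (N + 1)) < η
    rw [Real.dist_eq, ← sub_div, abs_div, abs_of_pos hNp]
    refine lt_of_le_of_lt ?_ hN
    refine div_le_div_of_nonneg_right ?_ hNp.le
    rw [abs_le]
    constructor
    · have : (l : ℝ) ≤ k + 1 := by exact_mod_cast hlk
      linarith
    · have : (k : ℝ) ≤ l + 1 := by exact_mod_cast hkl
      linarith
  have hβ : ∀ k : ℕ, ∃ β : (Fin i → (Fin (m + 1) → ℝ)) → R,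
      ∀ t : Fin (i + 1) → (Fin (m + 1) → ℝ),
      (∀ a : Fin (i + 1), ∑ j : Fin (i + 2), (-1 : R) ^ (j : ℕ) *
        c (mix (f k) (f (k + 1)) t a ∘ j.succAbove) = 0) →
      c (f (k + 1) ∘ t) - c (f k ∘ t) =
        ∑ j : Fin (i + 1), (-1 : R) ^ (j : ℕ) * β (t ∘ j.succAbove) :=
    fun k => cochain_homotopy i (f k) (f (k + 1)) c
  choose β hβ using hβ
  -- the constant
  obtain ⟨v, hv⟩ : ∃ v, v = lam (-x₀) := ⟨_, rfl⟩
  have hv2 : ∑ j : Fin (i + 2), (-1 : R) ^ (j : ℕ) * c (fun _ => v) = 0 := by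
    have h1 := hstar (i + 1) (fun _ => -x₀) (fun _ => by
      rw [hK]
      simpa using hx₀) (fun _ _ => by simpa using hδ)
    have h2 := hc _ h1
    rw [hv]
    exact h2
  obtain ⟨γ, hγ⟩ : ∃ γ : R, ∑ j : Fin (i + 1), (-1 : R) ^ (j : ℕ) * γ = c (fun _ => v) := by
    rw [SE_alt] at hv2
    by_cases h : Even i
    · refine ⟨c (fun _ => v), ?_⟩
      rw [SE_alt, if_neg]
      rw [Nat.even_add_one]
      exact fun h3 => h3 h
    · refine ⟨0, ?_⟩
      rw [if_neg (by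
        rw [Nat.even_add]
        intro h3
        exact h (h3.2 even_two))] at hv2
      rw [hv2]
      simp
  refine ⟨min η δ, lt_min hη hδ, fun w => γ - ∑ k ∈ Finset.range (N + 1), β k w, ?_⟩
  intro u hu hd
  have hd1 : ∀ a b, dist (u a) (u b) < η := fun a b => (hd a b).trans_le (min_le_left _ _)
  -- one step
  have hstep : ∀ k < N + 1, c (f (k + 1) ∘ u) - c (f k ∘ u) =
      ∑ j : Fin (i + 1), (-1 : R) ^ (j : ℕ) * β k (u ∘ j.succAbove) := by
    intro k hk
    refine hβ k u fun a => hc _ ?_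
    have h1 : mix (f k) (f (k + 1)) u a = lam ∘ (mix (G k) (G (k + 1)) u a) := by
      funext b
      rw [hf]
      unfold mix
      simp only [Function.comp]
      split_ifs <;> rfl
    rw [h1]
    refine hstar (i + 1) _ ?_ ?_
    · intro b
      unfold mix
      split_ifs
      · exact hGm k hk.le _ (hu _)
      · exact hGm (k + 1) hk _ (hu _)
    · intro b b'
      unfold mix
      split_ifs
      · exact hGd k k hk.le hk.le (by omega) (by omega) _ (hu _) _ (hu _) (hd1 _ _)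
      · exact hGd k (k + 1) hk.le hk (by omega) (by omega) _ (hu _) _ (hu _) (hd1 _ _)
      · exact hGd (k + 1) k hk hk.le (by omega) (by omega) _ (hu _) _ (hu _) (hd1 _ _)
      · exact hGd (k + 1) (k + 1) hk hk (by omega) (by omega) _ (hu _) _ (hu _) (hd1 _ _)
  have htel : c (f (N + 1) ∘ u) - c (f 0 ∘ u) =
      ∑ k ∈ Finset.range (N + 1), ∑ j : Fin (i + 1), (-1 : R) ^ (j : ℕ) *
        β k (u ∘ j.succAbove) := by
    rw [← Finset.sum_range_sub (fun k => c (f k ∘ u))]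
    exact Finset.sum_congr rfl fun k hk => hstep k (Finset.mem_range.1 hk)
  have hf0 : f 0 ∘ u = lam ∘ u := by
    funext a
    rw [hf, hG]
    simp only [Function.comp]
    have h1 := (hH (u a) (hLs (hu a)) (hLx _ (hu a))).1
    rw [Nat.cast_zero, zero_div, h1]
  have hfN : f (N + 1) ∘ u = fun _ => v := by
    funext a
    rw [hf, hG, hv]
    simp only [Function.comp]
    have h1 := (hH (u a) (hLs (hu a)) (hLx _ (hu a))).2.1
    have h2 : ((N + 1 : ℕ) : ℝ) / (N + 1) = 1 := by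
      push_cast
      exact div_self hNp.ne'
    rw [h2, h1]
  rw [hf0, hfN] at htel
  have h5 : c (lam ∘ u) = c (fun _ => v) - ∑ k ∈ Finset.range (N + 1),
      ∑ j : Fin (i + 1), (-1 : R) ^ (j : ℕ) * β k (u ∘ j.succAbove) := by
    rw [← htel]
    ring
  rw [h5, ← hγ, Finset.sum_comm, ← Finset.sum_sub_distrib]
  refine Finset.sum_congr rfl fun j _ => ?_
  rw [mul_sub, Finset.mul_sum]

theorem sphere_acyclic (m : ℕ) (K : GC (Fin (m + 1) → ℝ)) (hK : K.space = Metric.sphere 0 1)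
    (R : Type) [CommRing R] (i : ℕ) (hi : 0 < i) (him : i < m)
    (c : (Fin (i + 1) → (Fin (m + 1) → ℝ)) → R)
    (hc : ∀ t : Fin (i + 2) → (Fin (m + 1) → ℝ), K.Tup t →
      ∑ j : Fin (i + 2), (-1) ^ (j : ℕ) * c (t ∘ j.succAbove) = 0) :
    ∃ b : (Fin i → (Fin (m + 1) → ℝ)) → R, ∀ t : Fin (i + 1) → (Fin (m + 1) → ℝ), K.Tup t →
      c t = ∑ j : Fin (i + 1), (-1) ^ (j : ℕ) * b (t ∘ j.succAbove) := by
  classical
  obtain ⟨lam, δ, hδ, hlam⟩ := K.exists_lam
  have hSfin : {s | s ∈ K.faces ∧ s.card ≤ m}.Finite := K.fin.subset fun s hs => hs.1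
  obtain ⟨x₀, hx₀, hx₀'⟩ := sphere_point m {s | s ∈ K.faces ∧ s.card ≤ m} hSfin fun s hs => hs.2
  obtain ⟨L, hL⟩ : ∃ L : Set (Fin (m + 1) → ℝ), L = ⋃ s ∈ {s | s ∈ K.faces ∧ s.card ≤ m},
      convexHull ℝ (s : Set (Fin (m + 1) → ℝ)) := ⟨_, rfl⟩
  have hLc : IsCompact L := by
    rw [hL]
    exact hSfin.isCompact_biUnion fun s _ => s.finite_toSet.isCompact_convexHull ℝ
  have hLK : L ⊆ K.space := by
    rw [hL]
    intro x hx
    obtain ⟨s, hs, hxs⟩ := Set.mem_iUnion₂.1 hx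
    exact Set.mem_iUnion₂.2 ⟨s, hs.1, hxs⟩
  have hxL : x₀ ∉ L := by
    rw [hL]
    intro h
    obtain ⟨s, hs, hxs⟩ := Set.mem_iUnion₂.1 h
    exact hx₀' s hs hxs
  obtain ⟨ε, hε, β, hβ⟩ := SE_step3 m K hK R i c hc lam δ hδ hlam x₀ hx₀ L hLc hLK hxL
  obtain ⟨T, hT, hT0, hT1, hTbd⟩ := exists_subdiv (E := Fin (m + 1) → ℝ) (R := R) ε hε
  obtain ⟨LT, hLT⟩ : ∃ LT : ∀ n : ℕ, (Fin n → (Fin (m + 1) → ℝ)) → Prop,
      LT = fun n t => ∃ s ∈ K.faces, s.card ≤ m ∧ ∀ a, t a ∈ s := ⟨_, rfl⟩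
  have hLTm : ∀ n t, LT n t ↔ ∃ s ∈ K.faces, s.card ≤ m ∧ ∀ a, t a ∈ s := by
    intro n t
    rw [hLT]
  -- hulls
  have hhull : ∀ n t, LT n t → convexHull ℝ (Set.range t) ⊆ L := by
    intro n t ht
    obtain ⟨s, hs, hsc, hts⟩ := (hLTm n t).1 ht
    rw [hL]
    refine Set.Subset.trans ?_ (Set.subset_biUnion_of_mem
      (show s ∈ {s | s ∈ K.faces ∧ s.card ≤ m} from ⟨hs, hsc⟩))
    refine convexHull_mono ?_
    rintro _ ⟨a, rfl⟩
    exact hts a
  have hlamr : ∀ n (t : Fin (n + 1) → (Fin (m + 1) → ℝ)), LT (n + 1) t →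
      ∀ x ∈ convexHull ℝ (Set.range t), lam x ∈ Set.range t := by
    intro n t ht x hx
    obtain ⟨s, hs, hsc, hts⟩ := (hLTm _ t).1 ht
    have hface : Finset.univ.image t ∈ K.faces := by
      refine K.down s hs _ ?_ ⟨t 0, Finset.mem_image_of_mem _ (Finset.mem_univ _)⟩
      intro y hy
      obtain ⟨a, -, rfl⟩ := Finset.mem_image.1 hy
      exact hts a
    have hcoe : ((Finset.univ.image t : Finset (Fin (m + 1) → ℝ)) : Set (Fin (m + 1) → ℝ)) =
        Set.range t := by simp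
    rw [← hcoe] at hx ⊢
    obtain ⟨s', hs', hcar⟩ := GC.exists_carrier hface hx
    have hxK : x ∈ K.space := Set.mem_iUnion₂.2 ⟨_, hface, hx⟩
    exact hs' (hlam x hxK x hxK (by simpa using hδ) s' hcar)
  have hmapsupp : ∀ n (z : (Fin n → (Fin (m + 1) → ℝ)) →₀ R), ∀ u ∈ (SE_map n lam z).support,
      ∃ w ∈ z.support, u = lam ∘ w := by
    intro n z u hu
    have h1 := Finsupp.mapDomain_support hu
    obtain ⟨w, hw, rfl⟩ := Finset.mem_image.1 h1
    exact ⟨w, hw, rfl⟩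
  obtain ⟨D, hD, hD0, hDbd⟩ := exists_homotopy (V := Fin (m + 1) → ℝ) (R := R) LT
    (by
      intro n t ht j
      obtain ⟨s, hs, hsc, hts⟩ := (hLTm _ t).1 ht
      exact (hLTm _ _).2 ⟨s, hs, hsc, fun a => hts _⟩)
    (fun n t => SE_map n lam (T n t))
    (by
      intro t
      show SE_map 0 lam (T 0 t) = Finsupp.single t 1
      rw [hT0, SE_map_single]
      congr 1
      exact Subsingleton.elim _ _)
    (by
      intro n t ht u hu a
      obtain ⟨w, hw, rfl⟩ := hmapsupp _ _ u hu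
      exact hlamr n t ht _ ((hT (n + 1) t w hw).1 a))
    (by
      intro n t ht
      show bd n (SE_map (n + 1) lam (T (n + 1) t)) =
        ∑ j : Fin (n + 1), ((-1 : R) ^ (j : ℕ)) • SE_map n lam (T n (t ∘ j.succAbove))
      rw [SE_bd_map, hTbd, map_sum]
      refine Finset.sum_congr rfl fun j _ => ?_
      rw [map_smul])
  refine ⟨fun w => SE_ev i β (T i w) - SE_ev (i + 1) c (D i w), ?_⟩
  intro t ht
  have htL : LT (i + 1) t := by
    obtain ⟨s, hs, hts⟩ := ht
    refine (hLTm _ t).2 ⟨Finset.univ.image t, K.down s hs _ ?_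
      ⟨t 0, Finset.mem_image_of_mem _ (Finset.mem_univ _)⟩, ?_,
      fun a => Finset.mem_image_of_mem _ (Finset.mem_univ _)⟩
    · intro y hy
      obtain ⟨a, -, rfl⟩ := Finset.mem_image.1 hy
      exact hts a
    · refine Finset.card_image_le.trans ?_
      rw [Finset.card_univ, Fintype.card_fin]
      exact him
  have h1 := congrArg (SE_ev (i + 1) c) (hDbd i t htL)
  rw [map_add, map_sub, SE_ev_single, one_mul, map_sum] at h1
  -- the cocycle term
  have h2 : SE_ev (i + 1) c (bd (i + 1) (D (i + 1) t)) = 0 := by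
    rw [SE_ev_bd, SE_ev_congr (i + 2) _ (fun _ => 0), SE_ev_zero]
    intro u hu
    refine hc u ?_
    obtain ⟨s, hs, hsc, hts⟩ := (hLTm _ t).1 htL
    refine ⟨s, hs, fun a => ?_⟩
    obtain ⟨b, hb⟩ := hD i t htL u hu a
    rw [← hb]
    exact hts b
  have h3 : SE_ev (i + 1) c (SE_map (i + 1) lam (T (i + 1) t)) =
      ∑ j : Fin (i + 1), (-1) ^ (j : ℕ) * SE_ev i β (T i (t ∘ j.succAbove)) := by
    rw [SE_ev_map, SE_ev_congr (i + 1) _
      (fun u => ∑ j : Fin (i + 1), (-1) ^ (j : ℕ) * β (u ∘ j.succAbove)), ← SE_ev_bd, hTbd,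
      map_sum]
    · refine Finset.sum_congr rfl fun j _ => ?_
      rw [map_smul, smul_eq_mul]
    · intro u hu
      obtain ⟨h4, h5⟩ := hT (i + 1) t u hu
      exact hβ u (fun a => hhull _ t htL (h4 a)) h5
  rw [h2, h3, zero_add] at h1
  have h4 : ∑ j : Fin (i + 1), SE_ev (i + 1) c (((-1 : R) ^ (j : ℕ)) • D i (t ∘ j.succAbove)) =
      ∑ j : Fin (i + 1), (-1) ^ (j : ℕ) * SE_ev (i + 1) c (D i (t ∘ j.succAbove)) := by
    refine Finset.sum_congr rfl fun j _ => ?_
    rw [map_smul, smul_eq_mul]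
  rw [h4] at h1
  have h5 : c t = ∑ j : Fin (i + 1), (-1) ^ (j : ℕ) * SE_ev i β (T i (t ∘ j.succAbove)) -
      ∑ j : Fin (i + 1), (-1) ^ (j : ℕ) * SE_ev (i + 1) c (D i (t ∘ j.succAbove)) := by
    rw [h1]
    ring
  rw [h5, ← Finset.sum_sub_distrib]
  refine Finset.sum_congr rfl fun j _ => ?_
  ring

end Pool.H54.UB
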