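import Pool.Agent.H54.UB.PF

/-!
# Row SM: the sup-norm sphere is a closed PL manifold; local criterion for charts

`chart_of_local`: let `W ⊆ X` be a polyhedron, a neighbourhood of `x` in `X`, `h` PL and injective on
`W`, and suppose that for some `ε₀ > 0` the cube `{y | ∀ i, |y i - h x i| ≤ ε₀}` is contained in `h '' W`.
Then `X` has a chart at `x`: take `ε ≤ ε₀`, `U = W ∩ h⁻¹ (cube around h x of radius ε)`, chart
`(h - h x) / ε`.  `U` is a neighbourhood of `x` in `X` (`h` is continuous on `W`).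

`sphere_manifold`: the sphere is the union of the `2 (m+1)` facets `{y | y i = ±1, |y j| ≤ 1}`.
Let `x` be in the sphere, `T = {i | |x i| = 1}`, `i₀ ∈ T`, `s i = x i` for `i ∈ T`.
`W = {y ∈ sphere | ∀ i ∈ T, s i y i ≥ 1 - η, ∀ i ∉ T, |y i - x i| ≤ η}` with `η` small
(`η < 1`, `|x i| + η < 1` for `i ∉ T`): on `W`, `max_{i∈T} s i y i = 1`.
`h y` = the `m` numbers, indexed by `i ≠ i₀` (`Fin.succAbove i₀`): `s i y i - s i₀ y i₀` for `i ∈ T`,
`y i - x i` for `i ∉ T`: affine, `h x = 0`.  Injective on `W` and explicit inverse: given small `z`, with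
`z i₀ = 0`: `s i y i = 1 + z i - max_T z` for `i ∈ T`, `y i = x i + z i` for `i ∉ T`; for `|z| ≤ η/2` this
is in `W`.
-/

open Set Topology

namespace Pool.H54.UB

theorem chart_of_local {E : Type*} [NormedAddCommGroup E] [NormedSpace ℝ E]
    [FiniteDimensional ℝ E] {m : ℕ} {X W : Set E} {h : E → Fin m → ℝ} {x : E} (hWX : W ⊆ X)
    (hx : x ∈ W) (hW : W ∈ 𝓝[X] x) (hh : PLOn h W) (hi : InjOn h W) {ε₀ : ℝ} (hε : 0 < ε₀)
    (him : ∀ y : Fin m → ℝ, (∀ i, |y i - h x i| ≤ ε₀) → y ∈ h '' W) :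
    ∃ U h', ChartAt m X U h' x := by
  have hBp : IsPoly {y : Fin m → ℝ | ∀ i, h x i - ε₀ ≤ y i ∧ y i ≤ h x i + ε₀} :=
    isPoly_box (fun i => h x i - ε₀) (fun i => h x i + ε₀)
  obtain ⟨B, hB⟩ : ∃ B, B = {y : Fin m → ℝ | ∀ i, h x i - ε₀ ≤ y i ∧ y i ≤ h x i + ε₀} := ⟨_, rfl⟩
  rw [← hB] at hBp
  have hBmem : ∀ y, y ∈ B ↔ ∀ i, |y i - h x i| ≤ ε₀ := by
    intro y
    rw [hB]
    show (∀ i, h x i - ε₀ ≤ y i ∧ y i ≤ h x i + ε₀) ↔ _
    refine forall_congr' fun i => ?_
    rw [abs_le]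
    constructor
    · rintro ⟨h1, h2⟩; constructor <;> linarith
    · rintro ⟨h1, h2⟩; constructor <;> linarith
  have hBn : B ∈ 𝓝 (h x) := by
    refine Filter.mem_of_superset (Metric.closedBall_mem_nhds (h x) hε) ?_
    intro y hy
    rw [hBmem]
    intro i
    have h1 := (dist_pi_le_iff hε.le).1 (Metric.mem_closedBall.1 hy) i
    rwa [Real.dist_eq] at h1
  have hUp : IsPoly (W ∩ h ⁻¹' B) := hh.preimage hBp
  have hUW : W ∩ h ⁻¹' B ⊆ W := inter_subset_left
  have hval : ∀ y i, (ε₀⁻¹ • (h y + (-(h x)))) i = ε₀⁻¹ * (h y i - h x i) := by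
    intro y i
    simp only [Pi.smul_apply, Pi.add_apply, Pi.neg_apply, smul_eq_mul]
    ring
  refine ⟨W ∩ h ⁻¹' B, fun y => ε₀⁻¹ • (h y + (-(h x))), ⟨hUW.trans hWX, ?_, ?_, ?_⟩, ⟨hx, ?_⟩, ?_, ?_⟩
  · exact ((hh.mono hUp hUW).add (PLOn.const hUp (-(h x)))).const_smul ε₀⁻¹
  · intro y hy y' hy' he
    apply hi (hUW hy) (hUW hy')
    have h1 : h y + (-(h x)) = h y' + (-(h x)) := smul_right_injective _ (inv_ne_zero hε.ne') he
    exact add_right_cancel h1
  · ext z
    constructor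
    · rintro ⟨y, hy, rfl⟩ i
      have h1 := abs_le.1 ((hBmem _).1 hy.2 i)
      show -1 ≤ (ε₀⁻¹ • (h y + (-(h x)))) i ∧ (ε₀⁻¹ • (h y + (-(h x)))) i ≤ 1
      rw [hval, inv_mul_eq_div]
      constructor
      · rw [le_div_iff₀ hε]; linarith [h1.1]
      · rw [div_le_one hε]; linarith [h1.2]
    · intro hz
      have h1 : ∀ i, |(h x + ε₀ • z) i - h x i| ≤ ε₀ := by
        intro i
        have h2 := hz i
        simp only [Pi.add_apply, Pi.smul_apply, smul_eq_mul, add_sub_cancel_left]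
        rw [abs_mul, abs_of_pos hε]
        have h3 : |z i| ≤ 1 := abs_le.2 h2
        nlinarith
      obtain ⟨w, hw, hwz⟩ := him _ h1
      refine ⟨w, ⟨hw, ?_⟩, ?_⟩
      · show h w ∈ B
        rw [hwz, hBmem]
        exact h1
      · ext i
        show (ε₀⁻¹ • (h w + (-(h x)))) i = z i
        rw [hval, hwz]
        simp only [Pi.add_apply, Pi.smul_apply, smul_eq_mul, add_sub_cancel_left]
        field_simp
  · show h x ∈ B
    rw [hBmem]
    intro i
    rw [sub_self, abs_zero]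
    exact hε.le
  · have hc : ContinuousWithinAt h W x := hh.continuousOn x hx
    exact Filter.inter_mem hW (nhdsWithin_le_of_mem hW (hc hBn))
  · intro i
    show -1 < (ε₀⁻¹ • (h x + (-(h x)))) i ∧ (ε₀⁻¹ • (h x + (-(h x)))) i < 1
    rw [hval, sub_self, mul_zero]
    constructor <;> norm_num

private theorem SM_mem {m : ℕ} (y : Fin (m + 1) → ℝ) :
    y ∈ Metric.sphere (0 : Fin (m + 1) → ℝ) 1 ↔ (∀ i, |y i| ≤ 1) ∧ ∃ i, |y i| = 1 := by
  rw [mem_sphere_zero_iff_norm]
  constructor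
  · intro h
    have h1 : ∀ i, |y i| ≤ 1 := by
      intro i
      have := norm_le_pi_norm y i
      rw [h, Real.norm_eq_abs] at this
      exact this
    refine ⟨h1, ?_⟩
    by_contra hne
    push Not at hne
    have : ‖y‖ < 1 := by
      rw [pi_norm_lt_iff zero_lt_one]
      intro i
      rw [Real.norm_eq_abs]
      exact lt_of_le_of_ne (h1 i) (hne i)
    rw [h] at this
    exact lt_irrefl _ this
  · rintro ⟨h1, i, hi⟩
    apply le_antisymm
    · rw [pi_norm_le_iff_of_nonneg zero_le_one]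
      intro j
      rw [Real.norm_eq_abs]
      exact h1 j
    · rw [← hi, ← Real.norm_eq_abs]
      exact norm_le_pi_norm y i

private theorem SM_poly (m : ℕ) : IsPoly (Metric.sphere (0 : Fin (m + 1) → ℝ) 1) := by
  have h1 : Metric.sphere (0 : Fin (m + 1) → ℝ) 1 =
      ⋃ p ∈ (univ : Set (Fin (m + 1) × Bool)),
        {y : Fin (m + 1) → ℝ | ∀ i, (if i = p.1 then (if p.2 then (1 : ℝ) else -1) else -1) ≤ y i ∧
          y i ≤ (if i = p.1 then (if p.2 then (1 : ℝ) else -1) else 1)} := by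
    ext y
    rw [SM_mem]
    simp only [mem_iUnion, mem_univ, exists_prop, true_and, mem_setOf_eq]
    constructor
    · rintro ⟨h1, i, hi⟩
      rcases (abs_eq zero_le_one).1 hi with h | h
      · refine ⟨(i, true), fun j => ?_⟩
        by_cases hj : j = i
        · subst hj
          simp [h]
        · simp only [hj, if_false]
          exact abs_le.1 (h1 j)
      · refine ⟨(i, false), fun j => ?_⟩
        by_cases hj : j = i
        · subst hj
          simp [h]
        · simp only [hj, if_false]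
          exact abs_le.1 (h1 j)
    · rintro ⟨⟨i, b⟩, hy⟩
      refine ⟨fun j => ?_, i, ?_⟩
      · have h2 := hy j
        by_cases hj : j = i
        · subst hj
          cases b
          · simp at h2
            rw [le_antisymm h2.2 h2.1]
            norm_num
          · simp at h2
            rw [le_antisymm h2.2 h2.1]
            norm_num
        · simp only [hj, if_false] at h2
          exact abs_le.2 h2
      · have h2 := hy i
        cases b
        · simp at h2
          rw [le_antisymm h2.2 h2.1]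
          norm_num
        · simp at h2
          rw [le_antisymm h2.2 h2.1]
          norm_num
  rw [h1]
  exact IsPoly.biUnion (Set.finite_univ) fun p _ => isPoly_box _ _

theorem sphere_manifold (m : ℕ) (hm : 1 ≤ m) :
    IsClosedPLManifold m (Metric.sphere (0 : Fin (m + 1) → ℝ) 1) := by
  classical
  refine ⟨SM_poly m, fun x hx => ?_⟩
  obtain ⟨hx1, i₀, hi₀⟩ := (SM_mem x).1 hx
  have hsq : ∀ i, |x i| = 1 → x i * x i = 1 := by
    intro i hi
    rw [← abs_mul_abs_self, hi, one_mul]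
  -- the radius
  obtain ⟨η, hη0, hη1, hη⟩ : ∃ η : ℝ, 0 < η ∧ η < 1 ∧ ∀ i, |x i| ≠ 1 → |x i| + η < 1 := by
    have h1 : ∀ᶠ η in 𝓝[>] (0 : ℝ), η < 1 :=
      mem_nhdsWithin_of_mem_nhds (Iio_mem_nhds zero_lt_one)
    have h2 : ∀ᶠ η in 𝓝[>] (0 : ℝ), ∀ i, |x i| ≠ 1 → |x i| + η < 1 := by
      rw [Filter.eventually_all]
      intro i
      by_cases hi : |x i| = 1
      · exact Filter.Eventually.of_forall fun η h => absurd hi h
      · have hlt : |x i| < 1 := lt_of_le_of_ne (hx1 i) hi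
        have h3 : ∀ᶠ η in 𝓝[>] (0 : ℝ), η < 1 - |x i| :=
          mem_nhdsWithin_of_mem_nhds (Iio_mem_nhds (by linarith))
        filter_upwards [h3] with η h4 _
        linarith
    have h3 : ∀ᶠ η in 𝓝[>] (0 : ℝ), 0 < η := self_mem_nhdsWithin
    obtain ⟨η, h4, h5, h6⟩ := (h3.and (h1.and h2)).exists
    exact ⟨η, h4, h5, h6⟩
  obtain ⟨S, hS⟩ : ∃ S, S = Metric.sphere (0 : Fin (m + 1) → ℝ) 1 := ⟨_, rfl⟩
  have hSp : IsPoly S := by rw [hS]; exact SM_poly m
  have hSm : ∀ y, y ∈ S ↔ (∀ i, |y i| ≤ 1) ∧ ∃ i, |y i| = 1 := by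
    intro y; rw [hS]; exact SM_mem y
  rw [← hS]
  obtain ⟨W, hW⟩ : ∃ W, W = S ∩ {y : Fin (m + 1) → ℝ | ∀ i, x i - η ≤ y i ∧ y i ≤ x i + η} := ⟨_, rfl⟩
  have hWp : IsPoly W := by
    rw [hW]; exact hSp.inter (isPoly_box (fun i => x i - η) (fun i => x i + η))
  have hWm : ∀ y, y ∈ W ↔ y ∈ S ∧ ∀ i, |y i - x i| ≤ η := by
    intro y
    rw [hW]
    show (y ∈ S ∧ ∀ i, x i - η ≤ y i ∧ y i ≤ x i + η) ↔ _
    refine and_congr_right fun _ => forall_congr' fun i => ?_
    rw [abs_le]
    constructor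
    · rintro ⟨h1, h2⟩; constructor <;> linarith
    · rintro ⟨h1, h2⟩; constructor <;> linarith
  have hWS : W ⊆ S := fun y hy => ((hWm y).1 hy).1
  have hxW : x ∈ W := (hWm x).2 ⟨(hSm x).2 ⟨hx1, i₀, hi₀⟩, fun i => by
    rw [sub_self, abs_zero]; exact hη0.le⟩
  have hWn : W ∈ 𝓝[S] x := by
    have h1 : Metric.closedBall x η ∈ 𝓝[S] x :=
      mem_nhdsWithin_of_mem_nhds (Metric.closedBall_mem_nhds x hη0)
    refine Filter.mem_of_superset (Filter.inter_mem self_mem_nhdsWithin h1) ?_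
    rintro y ⟨hy, hy2⟩
    rw [hWm]
    refine ⟨hy, fun i => ?_⟩
    have h3 := (dist_pi_le_iff hη0.le).1 (Metric.mem_closedBall.1 hy2) i
    rwa [Real.dist_eq] at h3
  -- the chart
  obtain ⟨h, hh⟩ : ∃ h : (Fin (m + 1) → ℝ) → Fin m → ℝ, h = fun y k =>
      if |x (i₀.succAbove k)| = 1 then
        x (i₀.succAbove k) * y (i₀.succAbove k) - x i₀ * y i₀
      else y (i₀.succAbove k) - x (i₀.succAbove k) := ⟨_, rfl⟩
  have hhT : ∀ y k, |x (i₀.succAbove k)| = 1 →
      h y k = x (i₀.succAbove k) * y (i₀.succAbove k) - x i₀ * y i₀ := by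
    intro y k hk
    rw [hh]
    exact if_pos hk
  have hhN : ∀ y k, |x (i₀.succAbove k)| ≠ 1 →
      h y k = y (i₀.succAbove k) - x (i₀.succAbove k) := by
    intro y k hk
    rw [hh]
    exact if_neg hk
  have hhx : ∀ k, h x k = 0 := by
    intro k
    by_cases hk : |x (i₀.succAbove k)| = 1
    · rw [hhT x k hk, hsq _ hk, hsq _ hi₀, sub_self]
    · rw [hhN x k hk, sub_self]
  have hPL : PLOn h W := by
    refine PLOn.pi hWp fun k => ?_
    by_cases hk : |x (i₀.succAbove k)| = 1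
    · have h1 := ((((PLOn.id hWp).apply (i₀.succAbove k)).const_smul (x (i₀.succAbove k))).add
        (((PLOn.id hWp).apply i₀).const_smul (-(x i₀))))
      refine h1.congr fun y _ => ?_
      show x (i₀.succAbove k) • y (i₀.succAbove k) + (-(x i₀)) • y i₀ = h y k
      rw [hhT y k hk, smul_eq_mul, smul_eq_mul]
      ring
    · have h1 := ((PLOn.id hWp).apply (i₀.succAbove k)).add
        (PLOn.const hWp (-(x (i₀.succAbove k))))
      refine h1.congr fun y _ => ?_
      show y (i₀.succAbove k) + (-(x (i₀.succAbove k))) = h y k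
      rw [hhN y k hk]
      ring
  -- the extreme coordinate
  have hle : ∀ y ∈ W, ∀ i, |x i| = 1 → x i * y i ≤ 1 := by
    intro y hy i hi
    have h1 := ((hSm y).1 (hWS hy)).1 i
    have h2 : |x i * y i| ≤ 1 := by rw [abs_mul, hi, one_mul]; exact h1
    exact (abs_le.1 h2).2
  have hat : ∀ y ∈ W, ∃ i, |x i| = 1 ∧ x i * y i = 1 := by
    intro y hy
    obtain ⟨hyS, hyη⟩ := (hWm y).1 hy
    obtain ⟨_, i, hi⟩ := (hSm y).1 hyS
    have hxi : |x i| = 1 := by
      by_contra hne
      have h1 := hη i hne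
      have h2 : |y i| ≤ |x i| + |y i - x i| := by
        have h4 := abs_add_le (x i) (y i - x i)
        have h5 : x i + (y i - x i) = y i := by ring
        rwa [h5] at h4
      have h3 := hyη i
      rw [hi] at h2
      linarith
    refine ⟨i, hxi, ?_⟩
    have h1 : |x i * y i| = 1 := by rw [abs_mul, hxi, hi, one_mul]
    rcases (abs_eq zero_le_one).1 h1 with h2 | h2
    · exact h2
    · exfalso
      have h3 : |x i * (y i - x i)| ≤ η := by rw [abs_mul, hxi, one_mul]; exact hyη i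
      have h4 := (abs_le.1 h3).1
      have h5 : x i * (y i - x i) = x i * y i - x i * x i := by ring
      rw [h5, h2, hsq i hxi] at h4
      linarith
  have hinj : InjOn h W := by
    have key : ∀ y ∈ W, ∀ y' ∈ W, h y = h y' → 0 ≤ x i₀ * y i₀ - x i₀ * y' i₀ := by
      intro y hy y' hy' he
      obtain ⟨j, hj, hj1⟩ := hat y hy
      have h1 : x j * y j - x i₀ * y i₀ = x j * y' j - x i₀ * y' i₀ := by
        by_cases hji : j = i₀
        · rw [hji]; ring
        · obtain ⟨k, rfl⟩ := Fin.exists_succAbove_eq hji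
          have := congrFun he k
          rwa [hhT y k hj, hhT y' k hj] at this
      have h2 := hle y' hy' j hj
      linarith
    intro y hy y' hy' he
    have hc : x i₀ * y i₀ = x i₀ * y' i₀ := by
      have h1 := key y hy y' hy' he
      have h2 := key y' hy' y hy he.symm
      linarith
    ext i
    have hcancel : ∀ i, |x i| = 1 → x i * y i = x i * y' i → y i = y' i := by
      intro i hi h1
      have hne : x i ≠ 0 := by
        intro h0
        rw [h0, abs_zero] at hi
        exact zero_ne_one hi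
      exact mul_left_cancel₀ hne h1
    by_cases hii : i = i₀
    · rw [hii]
      exact hcancel i₀ hi₀ hc
    · obtain ⟨k, rfl⟩ := Fin.exists_succAbove_eq hii
      have h1 := congrFun he k
      by_cases hk : |x (i₀.succAbove k)| = 1
      · rw [hhT y k hk, hhT y' k hk] at h1
        exact hcancel _ hk (by linarith)
      · rw [hhN y k hk, hhN y' k hk] at h1
        linarith
  refine chart_of_local hWS hxW hWn hPL hinj (ε₀ := η / 2) (by linarith) ?_
  intro z hz
  have hz' : ∀ k, |z k| ≤ η / 2 := by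
    intro k
    have := hz k
    rwa [hhx k, sub_zero] at this
  obtain ⟨w, hw⟩ : ∃ w : Fin (m + 1) → ℝ, w = Fin.insertNth (α := fun _ => ℝ) i₀ 0 z := ⟨_, rfl⟩
  have hw0 : w i₀ = 0 := by rw [hw]; exact Fin.insertNth_apply_same _ _ _
  have hwk : ∀ k, w (i₀.succAbove k) = z k := by
    intro k; rw [hw]; exact Fin.insertNth_apply_succAbove _ _ _ _
  have hwb : ∀ i, |w i| ≤ η / 2 := by
    intro i
    by_cases hi : i = i₀
    · rw [hi, hw0, abs_zero]; linarith
    · obtain ⟨k, rfl⟩ := Fin.exists_succAbove_eq hi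
      rw [hwk]; exact hz' k
  obtain ⟨j, hj, hjmax⟩ := Finset.exists_max_image
    (Finset.univ.filter fun i => |x i| = 1) w ⟨i₀, Finset.mem_filter.2 ⟨Finset.mem_univ _, hi₀⟩⟩
  have hj1 : |x j| = 1 := (Finset.mem_filter.1 hj).2
  have hjm : ∀ i, |x i| = 1 → w i ≤ w j := fun i hi =>
    hjmax i (Finset.mem_filter.2 ⟨Finset.mem_univ _, hi⟩)
  have hjn : 0 ≤ w j := by rw [← hw0]; exact hjm i₀ hi₀
  obtain ⟨y, hy⟩ : ∃ y : Fin (m + 1) → ℝ, y = fun i =>
    if |x i| = 1 then x i * (1 + w i - w j) else x i + w i := ⟨_, rfl⟩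
  have hyT : ∀ i, |x i| = 1 → y i = x i * (1 + w i - w j) := by
    intro i hi; rw [hy]; exact if_pos hi
  have hyN : ∀ i, |x i| ≠ 1 → y i = x i + w i := by
    intro i hi; rw [hy]; exact if_neg hi
  refine ⟨y, (hWm y).2 ⟨(hSm y).2 ⟨fun i => ?_, j, ?_⟩, fun i => ?_⟩, ?_⟩
  · by_cases hi : |x i| = 1
    · rw [hyT i hi, abs_mul, hi, one_mul, abs_le]
      have h1 := (abs_le.1 (hwb i)).1
      have h2 := (abs_le.1 (hwb j)).2
      have h3 := hjm i hi
      constructor <;> linarith
    · rw [hyN i hi]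
      have h1 := abs_add_le (x i) (w i)
      have h2 := hwb i
      have h3 := hη i hi
      linarith
  · rw [hyT j hj1, add_sub_cancel_right, mul_one, hj1]
  · by_cases hi : |x i| = 1
    · have h4 : y i - x i = x i * (w i - w j) := by rw [hyT i hi]; ring
      rw [h4, abs_mul, hi, one_mul, abs_le]
      have h1 := (abs_le.1 (hwb i)).1
      have h2 := (abs_le.1 (hwb j)).2
      have h3 := hjm i hi
      constructor <;> linarith
    · rw [hyN i hi, add_sub_cancel_left]
      have h2 := hwb i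
      linarith
  · ext k
    by_cases hk : |x (i₀.succAbove k)| = 1
    · rw [hhT y k hk, hyT _ hk, hyT _ hi₀, ← mul_assoc, ← mul_assoc, hsq _ hk, hsq _ hi₀, hwk, hw0]
      ring
    · rw [hhN y k hk, hyN _ hk, hwk]
      ring

end Pool.H54.UB
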