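import Mathlib

/-!
# Row TRF: transfer

Proof.  Put `b' v = (1/d) ∑_{σ ∈ L t} b (σ ∘ α)` for any `t ∈ T` and `α : Fin i → Fin (m+1)` with
`v = t ∘ α` (by choice; well defined by `hcons`, `0` if there is no such pair).  Then
`∑_j (-1)^j b' ((t ∘ α) ∘ δ_j) = (1/d) ∑_{σ ∈ L t} ∑_j (-1)^j b ((σ ∘ α) ∘ δ_j)
= (1/d) ∑_{σ ∈ L t} c (t ∘ α) = c (t ∘ α)`.
-/

namespace Pool.H54.UB

open Finset

theorem transfer_acyc {V W R : Type*} [Field R] (m d : ℕ)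
    (T : Finset (Fin (m + 1) → V))
    (L : (Fin (m + 1) → V) → Finset (Fin (m + 1) → W))
    (hcard : ∀ t ∈ T, (L t).card = d) (hd : (d : R) ≠ 0)
    (hcons : ∀ t ∈ T, ∀ t' ∈ T, ∀ (b : ℕ) (α α' : Fin b → Fin (m + 1)), t ∘ α = t' ∘ α' →
      (L t).val.map (fun σ => σ ∘ α) = (L t').val.map (fun σ => σ ∘ α'))
    (i : ℕ) (c : (Fin (i + 1) → V) → R) (b : (Fin i → W) → R)
    (hb : ∀ t ∈ T, ∀ σ ∈ L t, ∀ α : Fin (i + 1) → Fin (m + 1),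
      c (t ∘ α) = ∑ j : Fin (i + 1), (-1) ^ (j : ℕ) * b ((σ ∘ α) ∘ j.succAbove)) :
    ∃ b' : (Fin i → V) → R, ∀ t ∈ T, ∀ α : Fin (i + 1) → Fin (m + 1),
      c (t ∘ α) = ∑ j : Fin (i + 1), (-1) ^ (j : ℕ) * b' ((t ∘ α) ∘ j.succAbove) := by
  classical
  obtain ⟨b', hb'⟩ : ∃ b' : (Fin i → V) → R, ∀ t ∈ T, ∀ α : Fin i → Fin (m + 1),
      b' (t ∘ α) = (d : R)⁻¹ * ∑ σ ∈ L t, b (σ ∘ α) := by
    refine ⟨fun v => if h : ∃ q : (Fin (m + 1) → V) × (Fin i → Fin (m + 1)), q.1 ∈ T ∧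
      q.1 ∘ q.2 = v then (d : R)⁻¹ * ∑ σ ∈ L h.choose.1, b (σ ∘ h.choose.2) else 0, ?_⟩
    intro t ht α
    have h : ∃ q : (Fin (m + 1) → V) × (Fin i → Fin (m + 1)), q.1 ∈ T ∧ q.1 ∘ q.2 = t ∘ α :=
      ⟨(t, α), ht, rfl⟩
    show (if h : ∃ q : (Fin (m + 1) → V) × (Fin i → Fin (m + 1)), q.1 ∈ T ∧
      q.1 ∘ q.2 = t ∘ α then (d : R)⁻¹ * ∑ σ ∈ L h.choose.1, b (σ ∘ h.choose.2) else 0) = _
    rw [dif_pos h]
    have h1 := hcons _ h.choose_spec.1 t ht i _ α h.choose_spec.2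
    have h2 := congrArg (fun M : Multiset (Fin i → W) => (M.map b).sum) h1
    simp only [Multiset.map_map] at h2
    congr 1
  refine ⟨b', fun t ht α => ?_⟩
  have h1 : ∀ j : Fin (i + 1), b' ((t ∘ α) ∘ j.succAbove) =
      (d : R)⁻¹ * ∑ σ ∈ L t, b ((σ ∘ α) ∘ j.succAbove) := fun j => hb' t ht (α ∘ j.succAbove)
  simp only [h1]
  have h2 : ∑ j : Fin (i + 1), (-1 : R) ^ (j : ℕ) * ((d : R)⁻¹ *
      ∑ σ ∈ L t, b ((σ ∘ α) ∘ j.succAbove)) =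
      (d : R)⁻¹ * ∑ σ ∈ L t, ∑ j : Fin (i + 1), (-1 : R) ^ (j : ℕ) *
        b ((σ ∘ α) ∘ j.succAbove) := by
    rw [Finset.sum_comm, Finset.mul_sum]
    refine Finset.sum_congr rfl fun j _ => ?_
    rw [← Finset.mul_sum]
    ring
  rw [h2, Finset.sum_congr rfl fun σ hσ => (hb t ht σ hσ α).symm, Finset.sum_const, hcard t ht,
    nsmul_eq_mul, ← mul_assoc, inv_mul_cancel₀ hd, one_mul]

end Pool.H54.UB
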