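import Pool.Agent.H54.UB.FDF
import Pool.Agent.H54.UB.PIC
import Pool.Agent.H54.UB.PUR
import Pool.Agent.H54.UB.SE
import Pool.Agent.H54.UB.SM
import Pool.Agent.H54.UB.TRF

/-!
# Row FB: the connected covering complex and its acyclicity

* `ccov_pi1`: `c` from `pi1_cocycle`.  `coc`: the entries of `t ∈ K.tops m` are in a face.  `conn`: given `D`
  with the property for top tuples, the property for faces follows from purity (`GC.pure`: every face is
  contained in a face with `m + 1` vertices, which is the range of some `t ∈ K.tops m`); the entries of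
  `t ∈ K.tops m` are in `K.verts`.  `ne`: `M` is nonempty, purity.
* `ccov_unit`: from a `CCov` for any `Q`: `D : F → Unit → ℕ` gives `D' v q = D v ()`.
* `til_degree`: `til_card`; `til_props`: `facet` (subset), `cons` (`til_cons`).
* `cover_acyclic`: `N = sphere`, `K'` from `Adm.pullback`.  Given `c'` on `tilT c (K.tops m)`, apply
  `sphere_acyclic` to `K'` and `c'' τ = c' (fun i => (f (τ i), g (τ i)))`.  Cocycle condition: for
  `K'.Tup τ` (`τ : Fin (i+2) → E`): by `GC.pure` for the sphere (`sphere_manifold`) the face containing `τ` is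
  contained in a face with `m + 1` vertices, the range of some `σ : Fin (m+1) → E` injective, `τ = σ ∘ α`;
  by `Adm.tup_iff`, `K.Tup (f ∘ σ)` and `IsLift S f (f ∘ σ) σ`, `f ∘ σ` is injective (`f` is injective on the
  pieces), so `f ∘ σ ∈ K.tops m`, and `u = (f ∘ σ, g ∘ σ) ∈ tilT c (K.tops m)` by `mem_tilT` and `LPrim`.
  The primitive `b` satisfies for `u ∈ tilT`, `σ ∈ tilL (lifts S f) g u` (so `u i = (f (σ i), g (σ i))`):
  `c' (u ∘ α) = c'' (σ ∘ α) = ∑ ± b ((σ ∘ α) ∘ δ_j)`.  `transfer_acyc` with `L = tilL (lifts S f) g`,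
  `d * card Q = k`, so `(d : R) ≠ 0`.
-/

open Set Topology

namespace Pool.H54.UB

/-- A face with `m + 1` vertices is the range of a top tuple. -/
theorem FB_top {V : Type*} [NormedAddCommGroup V] [NormedSpace ℝ V] {m : ℕ} (K : GC V)
    {s : Finset V} (hs : s ∈ K.faces) (hc : s.card = m + 1) :
    ∃ t ∈ K.tops m, ∀ x ∈ s, ∃ i, t i = x := by
  have e := (Finset.equivFinOfCardEq hc).symm
  refine ⟨fun i => (e i : V), GC.mem_tops.2 ⟨?_, s, hs, fun a => (e a).2⟩, fun x hx => ?_⟩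
  · intro a b hab
    exact e.injective (Subtype.ext hab)
  · exact ⟨e.symm ⟨x, hx⟩, by simp⟩

theorem ccov_pi1 {n m : ℕ} {M : Set (Fin n → ℝ)} (hM : IsClosedPLManifold m M)
    (hc : IsConnected M) (K : GC (Fin n → ℝ)) (hK : K.space = M) (x₀ : M) :
    ∃ c : (Fin n → ℝ) → (Fin n → ℝ) → FundamentalGroup M x₀,
      (∀ s ∈ K.faces, ∀ u ∈ s, ∀ v ∈ s, ∀ w ∈ s, c u v * c v w = c u w) ∧
      CCov m K (FundamentalGroup M x₀) c := by
  obtain ⟨c, hc1, hc2⟩ := pi1_cocycle hc K hK x₀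
  have hpure := (GC.pure hM K hK).1
  refine ⟨c, hc1, ⟨?_, ?_, ?_⟩⟩
  · intro t ht i j k
    obtain ⟨-, s, hs, h⟩ := GC.mem_tops.1 ht
    exact hc1 s hs _ (h i) _ (h j) _ (h k)
  · intro D hD t ht t' ht' i j q q'
    obtain ⟨-, s, hs, h⟩ := GC.mem_tops.1 ht
    obtain ⟨-, s', hs', h'⟩ := GC.mem_tops.1 ht'
    refine hc2 D ?_ (t i) ⟨s, hs, h i⟩ (t' j) ⟨s', hs', h' j⟩ q q'
    intro r hr u hu v hv p
    obtain ⟨r', hr', hrr, hr'c⟩ := hpure r hr
    obtain ⟨t0, ht0, ht0'⟩ := FB_top K hr' hr'c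
    obtain ⟨a, rfl⟩ := ht0' u (hrr hu)
    obtain ⟨b, rfl⟩ := ht0' v (hrr hv)
    exact hD t0 ht0 a b p
  · have hx : (x₀ : Fin n → ℝ) ∈ K.space := by
      rw [hK]
      exact x₀.2
    obtain ⟨s, hs, -⟩ := mem_iUnion₂.1 hx
    obtain ⟨s', hs', -, hs'c⟩ := hpure s hs
    obtain ⟨t0, ht0, -⟩ := FB_top K hs' hs'c
    exact ⟨t0, ht0⟩

variable {E F : Type*} [NormedAddCommGroup E] [NormedSpace ℝ E] [FiniteDimensional ℝ E]
  [NormedAddCommGroup F] [NormedSpace ℝ F] [FiniteDimensional ℝ F]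

theorem ccov_unit {m : ℕ} {K : GC F} {Q : Type*} [Group Q] {c : F → F → Q}
    (h : CCov m K Q c) : CCov m K (Multiplicative Unit) (fun _ _ => 1) := by
  refine ⟨fun t _ i j k => Subsingleton.elim _ _, ?_, h.ne⟩
  intro D hD t ht t' ht' i j q q'
  have h1 := h.conn (fun v _ => D v 1) (fun t ht i j q => by
    have h2 := hD t ht i j 1
    rw [mul_one] at h2
    exact h2) t ht t' ht' i j 1 1
  rw [Subsingleton.elim q 1, Subsingleton.elim q' 1]
  exact h1

theorem til_degree {m k : ℕ} {K : GC F} {S : Finset (Finset E)} {f : E → F} {N : Set E}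
    (h : BrC m k K S f N) {Q : Type*} [Group Q] [Fintype Q] {c : F → F → Q}
    (hc : CCov m K Q c) {g : E → Q} (hg : LPrim m K S f c g) :
    ∃ d : ℕ, d * Fintype.card Q = k ∧
      (∀ u ∈ tilT c (K.tops m), (tilL (lifts S f) g u).card = d) ∧
      (∀ u ∈ tilT c (K.tops m), ∀ j : Fin (m + 1),
        InjOn (fun σ : Fin (m + 1) → E => σ ∘ j.succAbove) (tilL (lifts S f) g u)) ∧
      ∀ u ∈ tilT c (K.tops m), ∀ u' ∈ tilT c (K.tops m), ∀ (b : ℕ) (α α' : Fin b → Fin (m + 1)),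
        u ∘ α = u' ∘ α' → (tilL (lifts S f) g u).val.map (fun σ => σ ∘ α) =
          (tilL (lifts S f) g u').val.map (fun σ => σ ∘ α') := by
  classical
  obtain ⟨d, hd, hd2⟩ := til_card k c (K.tops m) hc.ne hc.coc (lifts S f) h.cards h.cons g hg
    hc.conn
  refine ⟨d, hd, hd2, fun u hu j => ?_, ?_⟩
  · obtain ⟨h1, -⟩ := (mem_tilT hc.coc).1 hu
    refine (h.facet _ h1 j).mono ?_
    intro σ hσ
    unfold tilL at hσ
    exact Finset.mem_coe.2 (Finset.mem_filter.1 (Finset.mem_coe.1 hσ)).1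
  · exact til_cons k c (K.tops m) hc.ne hc.coc (lifts S f) h.cards h.cons g hg hc.conn

theorem cover_acyclic {m k : ℕ} (hm : 1 ≤ m) {K : GC F} {S : Finset (Finset (Fin (m + 1) → ℝ))}
    {f : (Fin (m + 1) → ℝ) → F} (h : BrC m k K S f (Metric.sphere 0 1)) {Q : Type*} [Group Q]
    [Fintype Q] {c : F → F → Q} (hc : CCov m K Q c) {g : (Fin (m + 1) → ℝ) → Q}
    (hg : LPrim m K S f c g) (R : Type) [Field R] (hk : (k : R) ≠ 0) :
    Acyc m (tilT c (K.tops m)) R := by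
  classical
  intro i hi him c' hc'
  obtain ⟨K', hK's, hK'f, -⟩ := h.adm.pullback
  obtain ⟨d, hd, hcard, -, hcons⟩ := til_degree h hc hg
  have hdR : (d : R) ≠ 0 := by
    intro h0
    apply hk
    rw [← hd, Nat.cast_mul, h0, zero_mul]
  have key : ∀ (n : ℕ) (τ : Fin n → (Fin (m + 1) → ℝ)), K'.Tup τ →
      ∃ (σ : Fin (m + 1) → (Fin (m + 1) → ℝ)) (α : Fin n → Fin (m + 1)), τ = σ ∘ α ∧
        (fun a => (f (σ a), g (σ a))) ∈ tilT c (K.tops m) := by
    rintro n τ ⟨s, hs, hτ⟩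
    obtain ⟨s', hs', hss, hs'c⟩ := (GC.pure (sphere_manifold m hm) K' hK's).1 s hs
    obtain ⟨σ, hσ, hσs⟩ := FB_top K' hs' hs'c
    have h1 : ∀ a, ∃ i, σ i = τ a := fun a => hσs _ (hss (hτ a))
    choose α hα using h1
    obtain ⟨hσi, hσt⟩ := GC.mem_tops.1 hσ
    obtain ⟨h2, h3⟩ := (h.adm.tup_iff hK'f (Nat.succ_pos m) σ).1 hσt
    have h4 : (fun a => f (σ a)) ∈ K.tops m := by
      refine GC.mem_tops.2 ⟨?_, h2⟩
      obtain ⟨⟨s0, hs0, h5⟩, -⟩ := h3
      intro a b hab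
      exact hσi (h.adm.inj s0 hs0 (h5 a) (h5 b) hab)
    have h5 : σ ∈ lifts S f (fun a => f (σ a)) := (h.adm.mem_lifts _ _).2 h3
    refine ⟨σ, α, funext fun a => (hα a).symm, (mem_tilT hc.coc).2 ⟨h4, fun a b => ?_⟩⟩
    change g (σ b) = g (σ a) * c (f (σ a)) (f (σ b))
    have h6 := hg _ h4 σ h5 a b
    change c (f (σ a)) (f (σ b)) = _ at h6
    rw [h6, mul_inv_cancel_left]
  obtain ⟨b, hb⟩ := sphere_acyclic m K' hK's R i hi him
    (fun τ => c' (fun a => (f (τ a), g (τ a)))) (by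
      intro τ hτ
      obtain ⟨σ, α, rfl, hu⟩ := key _ τ hτ
      exact hc' _ hu α)
  refine transfer_acyc m d (tilT c (K.tops m)) (tilL (lifts S f) g) hcard hdR hcons i c' b ?_
  intro u hu σ hσ α
  obtain ⟨h1, h2⟩ := (mem_tilT hc.coc).1 hu
  unfold tilL at hσ
  obtain ⟨h3, h4⟩ := Finset.mem_filter.1 hσ
  have h5 := (h.adm.mem_lifts _ _).1 h3
  obtain ⟨⟨s, hs, h6⟩, h7⟩ := h5
  obtain ⟨-, s1, hs1, h8⟩ := GC.mem_tops.1 h1
  have hT : K'.Tup (σ ∘ α) := by
    refine (h.adm.tup_iff hK'f (Nat.succ_pos i) (σ ∘ α)).2 ⟨⟨s1, hs1, fun a => ?_⟩,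
      ⟨s, hs, fun a => h6 _⟩, fun a => rfl⟩
    change f (σ (α a)) ∈ s1
    rw [h7]
    exact h8 _
  rw [← hb _ hT]
  congr 1
  funext a
  exact Prod.ext (h7 (α a)).symm (h4 (α a)).symm

end Pool.H54.UB
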