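import Pool.Agent.H54.UB.CRF

/-!
# Row LFA: lifts of simplices under a nondegenerate PL map, the complex upstairs

Setting: `Adm K S f N` (see `Core.lean`): `N = ⋃ conv s`, `f` affine and injective on each piece
`conv s`, `K` adapted to the sets `f (conv s)` and `f (conv s ∩ conv s')`.

* `lift_unique`: `σ` in the piece `s`, `σ'` in `s'`, `y = ∑ w σ = ∑ w σ'` (`w > 0`), so
  `f y = ∑ w t =: x` has `K`-carrier `range t` and `x ∈ f (conv s ∩ conv s')`; `ad2` gives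
  `t a ∈ f (conv s ∩ conv s')` for all `a`, say `t a = f z`, and injectivity on the pieces gives
  `σ a = z = σ' a`.
* `exists_lift`: `y` in the piece `s`; `ad1`: `convexHull (range t) ⊆ f (conv s)`, so `t a = f (σ a)`
  with `σ a ∈ conv s`; `f (∑ w σ) = ∑ w t = f y`, so `∑ w σ = y`.
* `finite`: at most one lift in each piece.
* `pullback`: faces = finsets `t ≠ ∅` contained in a piece `conv s` whose image is a face of `K`
  (`f` is injective on `t`).  `uniq`: positive combinations `y` of `t` and of `t'`; apply the argument of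
  `lift_unique` (their images have the same barycentre, so `f(t) = f(t')` with the same weights by
  `K.uniq`; then `t = t'`).  `space`: `exists_lift`.
  Adapted: if `y ∈ Y` has carrier `t ⊆ conv s` then `f y ∈ f (Y ∩ conv s)`, so
  `convexHull (f t) ⊆ f (Y ∩ conv s)`, and by injectivity on `conv s`, `convexHull t ⊆ Y`.
-/

open Set Topology

namespace Pool.H54.UB

variable {E F : Type*} [NormedAddCommGroup E] [NormedSpace ℝ E] [FiniteDimensional ℝ E]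
  [NormedAddCommGroup F] [NormedSpace ℝ F] [FiniteDimensional ℝ F]
  {K : GC F} {S : Finset (Finset E)} {f : E → F} {N : Set E}

omit [FiniteDimensional ℝ E] [FiniteDimensional ℝ F] in
private theorem LFA_aff (A : E →ᵃ[ℝ] F) {ι : Type*} (s : Finset ι) (w : ι → ℝ) (p : ι → E)
    (hw : ∑ i ∈ s, w i = 1) : A (∑ i ∈ s, w i • p i) = ∑ i ∈ s, w i • A (p i) := by
  have hA : ∀ x, A x = A.linear x + A 0 := fun x => congrFun A.decomp x
  rw [hA, map_sum]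
  have h1 : ∀ i ∈ s, w i • A (p i) = A.linear (w i • p i) + w i • A 0 := by
    intro i _
    rw [hA (p i), smul_add, map_smul]
  rw [Finset.sum_congr rfl h1, Finset.sum_add_distrib, ← Finset.sum_smul, hw, one_smul]

omit [FiniteDimensional ℝ E] [FiniteDimensional ℝ F] in
/-- a map which is affine on a convex set commutes with convex combinations -/
private theorem LFA_conv {f : E → F} {C : Set E} (hC : Convex ℝ C) (hf : AffOn f C) {ι : Type*}
    (s : Finset ι) (w : ι → ℝ) (p : ι → E) (hw0 : ∀ i ∈ s, 0 ≤ w i) (hw : ∑ i ∈ s, w i = 1)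
    (hp : ∀ i ∈ s, p i ∈ C) :
    ∑ i ∈ s, w i • p i ∈ C ∧ f (∑ i ∈ s, w i • p i) = ∑ i ∈ s, w i • f (p i) := by
  obtain ⟨A, hA⟩ := hf
  have h1 : ∑ i ∈ s, w i • p i ∈ C := hC.sum_mem hw0 hw hp
  refine ⟨h1, ?_⟩
  rw [hA h1, LFA_aff A s w p hw]
  exact Finset.sum_congr rfl fun i hi => by rw [hA (hp i hi)]

omit [FiniteDimensional ℝ F] in
/-- the carrier of a positive combination of a tuple -/
private theorem LFA_tup {K : GC F} {n : ℕ} {t : Fin n → F} (ht : K.Tup t) {w : Fin n → ℝ}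
    (hw : ∀ a, 0 < w a) (hw1 : ∑ a, w a = 1) {Y : Set F} (hY : K.Adapted Y)
    (hx : ∑ a, w a • t a ∈ Y) : ∀ a, t a ∈ Y := by
  classical
  obtain ⟨s, hs, hts⟩ := ht
  have hne : (Finset.univ.image t).Nonempty := by
    rw [Finset.image_nonempty, Finset.univ_nonempty_iff]
    by_contra hc
    rw [not_nonempty_iff] at hc
    rw [Finset.univ_eq_empty, Finset.sum_empty] at hw1
    exact zero_ne_one hw1
  have hsub : Finset.univ.image t ⊆ s := by
    intro z hz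
    obtain ⟨a, -, rfl⟩ := Finset.mem_image.1 hz
    exact hts a
  have hT := K.down s hs _ hsub hne
  have h1 := hY _ hT (fun z => ∑ a ∈ Finset.univ.filter (fun a => t a = z), w a) ?_ ?_ ?_
  · intro a
    refine h1 (subset_convexHull ℝ _ ?_)
    rw [Finset.mem_coe]
    exact Finset.mem_image_of_mem t (Finset.mem_univ a)
  · intro z hz
    obtain ⟨a, -, rfl⟩ := Finset.mem_image.1 hz
    refine Finset.sum_pos (fun b _ => hw b) ⟨a, ?_⟩
    rw [Finset.mem_filter]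
    exact ⟨Finset.mem_univ a, rfl⟩
  · rw [← hw1]
    exact Finset.sum_fiberwise_of_maps_to (fun a _ => Finset.mem_image_of_mem t
      (Finset.mem_univ a)) w
  · have h2 : ∑ z ∈ Finset.univ.image t,
        (∑ a ∈ Finset.univ.filter (fun a => t a = z), w a) • z = ∑ a, w a • t a := by
      rw [← Finset.sum_fiberwise_of_maps_to (s := Finset.univ) (t := Finset.univ.image t)
        (g := t) (fun a _ => Finset.mem_image_of_mem t (Finset.mem_univ a))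
        (fun a => w a • t a)]
      refine Finset.sum_congr rfl fun z _ => ?_
      rw [Finset.sum_smul]
      refine Finset.sum_congr rfl fun a ha => ?_
      rw [Finset.mem_filter] at ha
      rw [ha.2]
    rw [h2]
    exact hx

omit [FiniteDimensional ℝ E] [FiniteDimensional ℝ F] in
theorem Adm.lift_maps_aux (h : Adm K S f N) {n : ℕ} {t : Fin n → F} {σ : Fin n → E} {s : Finset E}
    (hs : s ∈ S) (hσ : ∀ a, σ a ∈ convexHull ℝ (s : Set E)) (hf : ∀ a, f (σ a) = t a)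
    {w : Fin n → ℝ} (hw : ∀ a, 0 ≤ w a) (hw1 : ∑ a, w a = 1) :
    ∑ a, w a • σ a ∈ convexHull ℝ (s : Set E) ∧ f (∑ a, w a • σ a) = ∑ a, w a • t a := by
  obtain ⟨h1, h2⟩ := LFA_conv (convex_convexHull ℝ (s : Set E)) (h.aff s hs) Finset.univ w σ
    (fun a _ => hw a) hw1 (fun a _ => hσ a)
  refine ⟨h1, h2.trans ?_⟩
  exact Finset.sum_congr rfl fun a _ => by rw [hf a]

omit [FiniteDimensional ℝ E] [FiniteDimensional ℝ F] in
theorem Adm.lift_unique (h : Adm K S f N) {n : ℕ} {t : Fin n → F} (ht : K.Tup t)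
    {σ σ' : Fin n → E} (hσ : IsLift S f t σ) (hσ' : IsLift S f t σ') {w : Fin n → ℝ}
    (hw : ∀ a, 0 < w a) (hw1 : ∑ a, w a = 1) (heq : ∑ a, w a • σ a = ∑ a, w a • σ' a) :
    σ = σ' := by
  obtain ⟨⟨s, hs, h1⟩, h2⟩ := hσ
  obtain ⟨⟨s', hs', h1'⟩, h2'⟩ := hσ'
  obtain ⟨g1, g2⟩ := h.lift_maps_aux hs h1 h2 (fun a => (hw a).le) hw1
  obtain ⟨g1', -⟩ := h.lift_maps_aux hs' h1' h2' (fun a => (hw a).le) hw1
  rw [← heq] at g1'
  have h3 := LFA_tup ht hw hw1 (h.ad2 s hs s' hs') ⟨_, ⟨g1, g1'⟩, g2⟩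
  funext a
  obtain ⟨z, ⟨hz, hz'⟩, hfz⟩ := h3 a
  have e1 : σ a = z := h.inj s hs (h1 a) hz (by rw [h2 a, hfz])
  have e2 : σ' a = z := h.inj s' hs' (h1' a) hz' (by rw [h2' a, hfz])
  rw [e1, e2]

omit [FiniteDimensional ℝ E] [FiniteDimensional ℝ F] in
theorem Adm.exists_lift (h : Adm K S f N) {n : ℕ} {t : Fin n → F} (ht : K.Tup t)
    {w : Fin n → ℝ} (hw : ∀ a, 0 < w a) (hw1 : ∑ a, w a = 1) {y : E} (hy : y ∈ N)
    (hfy : f y = ∑ a, w a • t a) : ∃ σ, IsLift S f t σ ∧ ∑ a, w a • σ a = y := by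
  rw [h.cover] at hy
  obtain ⟨s, hs, hys⟩ := Set.mem_iUnion₂.1 hy
  have h3 := LFA_tup ht hw hw1 (h.ad1 s hs) ⟨y, hys, hfy⟩
  choose σ hσ hfσ using h3
  obtain ⟨g1, g2⟩ := h.lift_maps_aux hs hσ hfσ (fun a => (hw a).le) hw1
  exact ⟨σ, ⟨⟨s, hs, hσ⟩, hfσ⟩, h.inj s hs g1 hys (by rw [g2, hfy])⟩

omit [FiniteDimensional ℝ E] [FiniteDimensional ℝ F] in
theorem Adm.lift_maps (h : Adm K S f N) {n : ℕ} {t : Fin n → F} {σ : Fin n → E}
    (hσ : IsLift S f t σ) {w : Fin n → ℝ} (hw : ∀ a, 0 ≤ w a) (hw1 : ∑ a, w a = 1) :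
    ∑ a, w a • σ a ∈ N ∧ f (∑ a, w a • σ a) = ∑ a, w a • t a := by
  obtain ⟨⟨s, hs, h1⟩, h2⟩ := hσ
  obtain ⟨g1, g2⟩ := h.lift_maps_aux hs h1 h2 hw hw1
  refine ⟨?_, g2⟩
  rw [h.cover]
  exact Set.mem_iUnion₂.2 ⟨s, hs, g1⟩

omit [FiniteDimensional ℝ E] [FiniteDimensional ℝ F] in
theorem Adm.mem_lifts (h : Adm K S f N) {n : ℕ} (t : Fin n → F) (σ : Fin n → E) :
    σ ∈ lifts S f t ↔ IsLift S f t σ := by
  classical
  have hfin : {σ : Fin n → E | IsLift S f t σ}.Finite := by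
    have h1 : {σ : Fin n → E | IsLift S f t σ} ⊆
        ⋃ s ∈ S, {σ : Fin n → E | (∀ a, σ a ∈ convexHull ℝ (s : Set E)) ∧
          ∀ a, f (σ a) = t a} := by
      rintro τ ⟨⟨s, hs, h2⟩, h3⟩
      exact Set.mem_iUnion₂.2 ⟨s, hs, h2, h3⟩
    refine (S.finite_toSet.biUnion fun s hs => ?_).subset h1
    refine Set.Subsingleton.finite ?_
    rintro τ ⟨h2, h3⟩ τ' ⟨h2', h3'⟩
    funext a
    exact h.inj s hs (h2 a) (h2' a) (by rw [h3 a, h3' a])
  unfold lifts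
  rw [dif_pos hfin, Set.Finite.mem_toFinset]
  rfl

omit [NormedSpace ℝ E] [FiniteDimensional ℝ E] [FiniteDimensional ℝ F] in
/-- push forward of weights -/
private theorem LFA_push {t : Finset E} {u : Finset F} (hu : f '' (t : Set E) = u)
    (hi : InjOn f (t : Set E)) (w : E → ℝ) (hw : ∀ x ∈ t, 0 < w x) (hw1 : ∑ x ∈ t, w x = 1) :
    ∃ W : F → ℝ, (∀ x ∈ t, W (f x) = w x) ∧ (∀ z ∈ u, 0 < W z) ∧ ∑ z ∈ u, W z = 1 ∧
      ∑ z ∈ u, W z • z = ∑ x ∈ t, w x • f x := by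
  classical
  have h1 : u = t.image f := by
    apply Finset.coe_injective
    rw [Finset.coe_image, hu]
  have h2 : ∀ x ∈ t, Function.invFunOn f (t : Set E) (f x) = x := fun x hx =>
    hi.leftInvOn_invFunOn hx
  refine ⟨fun z => w (Function.invFunOn f (t : Set E) z), ?_, ?_, ?_, ?_⟩
  · intro x hx
    simp only
    rw [h2 x hx]
  · intro z hz
    rw [h1] at hz
    obtain ⟨x, hx, rfl⟩ := Finset.mem_image.1 hz
    simp only
    rw [h2 x hx]
    exact hw x hx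
  · rw [h1, Finset.sum_image fun a ha b hb hab => hi ha hb hab, ← hw1]
    exact Finset.sum_congr rfl fun x hx => by rw [h2 x hx]
  · rw [h1, Finset.sum_image fun a ha b hb hab => hi ha hb hab]
    exact Finset.sum_congr rfl fun x hx => by simp only [h2 x hx]

omit [FiniteDimensional ℝ E] [FiniteDimensional ℝ F] in
private theorem LFA_face (h : Adm K S f N) {t : Finset E} {s : Finset E} (hs : s ∈ S)
    (hts : (t : Set E) ⊆ convexHull ℝ (s : Set E)) {u : Finset F} (hu : f '' (t : Set E) = u)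
    (w : E → ℝ) (hw : ∀ x ∈ t, 0 < w x) (hw1 : ∑ x ∈ t, w x = 1) :
    ∃ W : F → ℝ, (∀ x ∈ t, W (f x) = w x) ∧ (∀ z ∈ u, 0 < W z) ∧ ∑ z ∈ u, W z = 1 ∧
      ∑ z ∈ u, W z • z = f (∑ x ∈ t, w x • x) ∧ ∑ x ∈ t, w x • x ∈ convexHull ℝ (s : Set E) := by
  obtain ⟨W, h1, h2, h3, h4⟩ := LFA_push hu ((h.inj s hs).mono hts) w hw hw1
  obtain ⟨g1, g2⟩ := LFA_conv (convex_convexHull ℝ (s : Set E)) (h.aff s hs) t w (fun x => x)
    (fun x hx => (hw x hx).le) hw1 (fun x hx => hts hx)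
  exact ⟨W, h1, h2, h3, by rw [h4, g2], g1⟩

omit [FiniteDimensional ℝ E] [FiniteDimensional ℝ F] in
private theorem LFA_sub (h : Adm K S f N) {t t' : Finset E} {s s' : Finset E} (hs : s ∈ S)
    (hs' : s' ∈ S) (hts : (t : Set E) ⊆ convexHull ℝ (s : Set E))
    (hts' : (t' : Set E) ⊆ convexHull ℝ (s' : Set E)) {u : Finset F} (huK : u ∈ K.faces)
    (hu : f '' (t : Set E) = u) (hu' : f '' (t' : Set E) = u) (w : E → ℝ)
    (hw : ∀ x ∈ t, 0 < w x) (hw1 : ∑ x ∈ t, w x = 1)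
    (hy : ∑ x ∈ t, w x • x ∈ convexHull ℝ (s' : Set E)) : t ⊆ t' := by
  obtain ⟨W, h1, h2, h3, h4, h5⟩ := LFA_face h hs hts hu w hw hw1
  have h6 := h.ad2 s hs s' hs' u huK W h2 h3 (by
    rw [h4]
    exact ⟨_, ⟨h5, hy⟩, rfl⟩)
  intro x hx
  have h7 : f x ∈ (u : Set F) := by
    rw [← hu]
    exact ⟨x, hx, rfl⟩
  obtain ⟨z, ⟨hz, hz'⟩, hfz⟩ := h6 (subset_convexHull ℝ _ h7)
  have e1 : x = z := h.inj s hs (hts hx) hz hfz.symm
  rw [← hu'] at h7
  obtain ⟨x', hx', hfx'⟩ := h7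
  have e2 : x' = z := h.inj s' hs' (hts' hx') hz' (by rw [hfx', hfz])
  rw [e1, ← e2]
  exact hx'

omit [FiniteDimensional ℝ E] [FiniteDimensional ℝ F] in
private theorem LFA_uniq (h : Adm K S f N) {t t' : Finset E}
    (ht : ∃ s ∈ S, (t : Set E) ⊆ convexHull ℝ (s : Set E))
    (ht' : ∃ s ∈ S, (t' : Set E) ⊆ convexHull ℝ (s : Set E))
    (hu : ∃ u ∈ K.faces, f '' (t : Set E) = u) (hu' : ∃ u ∈ K.faces, f '' (t' : Set E) = u)
    (w v : E → ℝ) (hw : ∀ x ∈ t, 0 < w x) (hv : ∀ x ∈ t', 0 < v x) (hw1 : ∑ x ∈ t, w x = 1)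
    (hv1 : ∑ x ∈ t', v x = 1) (e : ∑ x ∈ t, w x • x = ∑ x ∈ t', v x • x) :
    t = t' ∧ ∀ x ∈ t, w x = v x := by
  obtain ⟨s, hs, hts⟩ := ht
  obtain ⟨s', hs', hts'⟩ := ht'
  obtain ⟨u, huK, hu⟩ := hu
  obtain ⟨u', huK', hu'⟩ := hu'
  obtain ⟨W, h1, h2, h3, h4, h5⟩ := LFA_face h hs hts hu w hw hw1
  obtain ⟨W', h1', h2', h3', h4', h5'⟩ := LFA_face h hs' hts' hu' v hv hv1
  obtain ⟨e1, e2⟩ := K.uniq u huK u' huK' W W' h2 h2' h3 h3' (by rw [h4, h4', e])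
  subst e1
  have i1 : t ⊆ t' := LFA_sub h hs hs' hts hts' huK hu hu' w hw hw1 (by rw [e]; exact h5')
  have i2 : t' ⊆ t := LFA_sub h hs' hs hts' hts huK hu' hu v hv hv1 (by rw [← e]; exact h5)
  refine ⟨Finset.Subset.antisymm i1 i2, fun x hx => ?_⟩
  have h6 : f x ∈ u := by
    rw [← Finset.mem_coe, ← hu]
    exact ⟨x, hx, rfl⟩
  rw [← h1 x hx, ← h1' x (i1 hx)]
  exact e2 _ h6

omit [FiniteDimensional ℝ E] [FiniteDimensional ℝ F] in
private theorem LFA_fin (h : Adm K S f N) :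
    {t : Finset E | t.Nonempty ∧ (∃ s ∈ S, (t : Set E) ⊆ convexHull ℝ (s : Set E)) ∧
      ∃ u ∈ K.faces, f '' (t : Set E) = u}.Finite := by
  have h1 : {t : Finset E | t.Nonempty ∧ (∃ s ∈ S, (t : Set E) ⊆ convexHull ℝ (s : Set E)) ∧
      ∃ u ∈ K.faces, f '' (t : Set E) = u} ⊆ ⋃ s ∈ S, ⋃ u ∈ K.faces,
        {t : Finset E | (t : Set E) ⊆ convexHull ℝ (s : Set E) ∧ f '' (t : Set E) = u} := by
    rintro t ⟨-, ⟨s, hs, h2⟩, u, hu, h3⟩
    exact Set.mem_iUnion₂.2 ⟨s, hs, Set.mem_iUnion₂.2 ⟨u, hu, h2, h3⟩⟩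
  refine (S.finite_toSet.biUnion fun s hs => K.fin.biUnion fun u _ => ?_).subset h1
  refine Set.Subsingleton.finite ?_
  rintro t ⟨h2, h3⟩ t' ⟨h2', h3'⟩
  apply Finset.coe_injective
  exact ((h.inj s hs).image_eq_image_iff h2 h2').1 (by rw [h3, h3'])

/-- the complex upstairs -/
private def LFA_K (h : Adm K S f N) : GC E where
  faces := {t : Finset E | t.Nonempty ∧ (∃ s ∈ S, (t : Set E) ⊆ convexHull ℝ (s : Set E)) ∧
      ∃ u ∈ K.faces, f '' (t : Set E) = u}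
  fin := LFA_fin h
  ne := fun t ht => ht.1
  down := by
    classical
    rintro t ⟨-, ⟨s, hs, h2⟩, u, hu, h3⟩ t' ht' hne
    refine ⟨hne, ⟨s, hs, fun x hx => h2 (ht' hx)⟩, t'.image f, ?_, by rw [Finset.coe_image]⟩
    refine K.down u hu _ ?_ (hne.image f)
    intro z hz
    obtain ⟨x, hx, rfl⟩ := Finset.mem_image.1 hz
    rw [← Finset.mem_coe, ← h3]
    exact ⟨x, ht' hx, rfl⟩
  uniq := fun t ht t' ht' w v hw hv hw1 hv1 e =>
    LFA_uniq h ht.2.1 ht'.2.1 ht.2.2 ht'.2.2 w v hw hv hw1 hv1 e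

omit [FiniteDimensional ℝ E] [FiniteDimensional ℝ F] in
private theorem LFA_cover (h : Adm K S f N) {y : E} (hy : y ∈ N) :
    ∃ t : Finset E, (t.Nonempty ∧ (∃ s ∈ S, (t : Set E) ⊆ convexHull ℝ (s : Set E)) ∧
      ∃ u ∈ K.faces, f '' (t : Set E) = u) ∧ y ∈ convexHull ℝ (t : Set E) := by
  classical
  have hfy := h.maps hy
  rw [h.cover] at hy
  obtain ⟨s, hs, hys⟩ := Set.mem_iUnion₂.1 hy
  obtain ⟨u, hu, W, hW, hW1, hWy⟩ := GC.exists_carrier' hfy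
  have h1 := h.ad1 s hs u hu W hW hW1 (by
    rw [hWy]
    exact ⟨y, hys, rfl⟩)
  have h2 : ∀ z : F, ∃ x : E, z ∈ u → x ∈ convexHull ℝ (s : Set E) ∧ f x = z := by
    intro z
    by_cases hz : z ∈ u
    · obtain ⟨x, hx, hfx⟩ := h1 (subset_convexHull ℝ _ (Finset.mem_coe.2 hz))
      exact ⟨x, fun _ => ⟨hx, hfx⟩⟩
    · exact ⟨0, fun h3 => absurd h3 hz⟩
  choose g hg using h2
  obtain ⟨g1, g2⟩ := LFA_conv (convex_convexHull ℝ (s : Set E)) (h.aff s hs) u W g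
    (fun z hz => (hW z hz).le) hW1 (fun z hz => (hg z hz).1)
  have e : ∑ z ∈ u, W z • g z = y := by
    refine h.inj s hs g1 hys ?_
    rw [g2, ← hWy]
    exact Finset.sum_congr rfl fun z hz => by rw [(hg z hz).2]
  refine ⟨u.image g, ⟨(K.ne u hu).image g, ⟨s, hs, ?_⟩, u, hu, ?_⟩, ?_⟩
  · intro x hx
    rw [Finset.mem_coe] at hx
    obtain ⟨z, hz, rfl⟩ := Finset.mem_image.1 hx
    exact (hg z hz).1
  · ext z
    constructor
    · rintro ⟨x, hx, rfl⟩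
      rw [Finset.mem_coe] at hx
      obtain ⟨z, hz, rfl⟩ := Finset.mem_image.1 hx
      rw [(hg z hz).2]
      exact hz
    · intro hz
      exact ⟨g z, Finset.mem_coe.2 (Finset.mem_image_of_mem g hz), (hg z hz).2⟩
  · rw [← e]
    refine (convex_convexHull ℝ _).sum_mem (fun z hz => (hW z hz).le) hW1 fun z hz => ?_
    exact subset_convexHull ℝ _ (Finset.mem_coe.2 (Finset.mem_image_of_mem g hz))

omit [FiniteDimensional ℝ E] [FiniteDimensional ℝ F] in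
private theorem LFA_ad (h : Adm K S f N) {Y : Set E}
    (hY : ∀ s ∈ S, K.Adapted (f '' (Y ∩ convexHull ℝ (s : Set E)))) : (LFA_K h).Adapted Y := by
  rintro t ⟨-, ⟨s, hs, hts⟩, u, hu, h3⟩ w hw hw1 hy
  obtain ⟨W, h1, h2, h3', h4, h5⟩ := LFA_face h hs hts h3 w hw hw1
  have h6 := hY s hs u hu W h2 h3' (by
    rw [h4]
    exact ⟨_, ⟨hy, h5⟩, rfl⟩)
  intro y' hy'
  have hy's : y' ∈ convexHull ℝ (s : Set E) :=
    (convex_convexHull ℝ (s : Set E)).convexHull_subset_iff.2 hts hy'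
  obtain ⟨v, hv0, hv1, hvy⟩ := Finset.mem_convexHull'.1 hy'
  obtain ⟨g1, g2⟩ := LFA_conv (convex_convexHull ℝ (s : Set E)) (h.aff s hs) t v (fun x => x)
    hv0 hv1 (fun x hx => hts hx)
  rw [hvy] at g1 g2
  have h7 : f y' ∈ convexHull ℝ (u : Set F) := by
    rw [g2]
    refine (convex_convexHull ℝ _).sum_mem hv0 hv1 fun x hx => subset_convexHull ℝ _ ?_
    rw [← h3]
    exact ⟨x, hx, rfl⟩
  obtain ⟨z, ⟨hzY, hzs⟩, hfz⟩ := h6 h7
  have e : y' = z := h.inj s hs hy's hzs hfz.symm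
  rw [e]
  exact hzY

omit [FiniteDimensional ℝ E] [FiniteDimensional ℝ F] in
theorem Adm.pullback (h : Adm K S f N) :
    ∃ K' : GC E, K'.space = N ∧
      (∀ t : Finset E, t ∈ K'.faces ↔ t.Nonempty ∧ (∃ s ∈ S, (t : Set E) ⊆ convexHull ℝ (s : Set E))
        ∧ ∃ u ∈ K.faces, f '' (t : Set E) = u) ∧
      ∀ Y ⊆ N, (∀ s ∈ S, K.Adapted (f '' (Y ∩ convexHull ℝ (s : Set E)))) → K'.Adapted Y := by
  refine ⟨LFA_K h, ?_, fun t => Iff.rfl, fun Y _ hY => LFA_ad h hY⟩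
  apply Set.Subset.antisymm
  · intro y hy
    obtain ⟨t, ⟨-, ⟨s, hs, hts⟩, -⟩, hyt⟩ := Set.mem_iUnion₂.1 hy
    rw [h.cover]
    exact Set.mem_iUnion₂.2 ⟨s, hs,
      (convex_convexHull ℝ (s : Set E)).convexHull_subset_iff.2 hts hyt⟩
  · intro y hy
    obtain ⟨t, ht, hyt⟩ := LFA_cover h hy
    exact Set.mem_iUnion₂.2 ⟨t, ht, hyt⟩

omit [FiniteDimensional ℝ E] [FiniteDimensional ℝ F] in
/-- Tuples of the complex upstairs. -/
theorem Adm.tup_iff (h : Adm K S f N) {K' : GC E}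
    (hK' : ∀ t : Finset E, t ∈ K'.faces ↔ t.Nonempty ∧
      (∃ s ∈ S, (t : Set E) ⊆ convexHull ℝ (s : Set E)) ∧ ∃ u ∈ K.faces, f '' (t : Set E) = u)
    {n : ℕ} (hn : 0 < n) (σ : Fin n → E) :
    K'.Tup σ ↔ K.Tup (fun a => f (σ a)) ∧ IsLift S f (fun a => f (σ a)) σ := by
  classical
  have _ := h
  constructor
  · rintro ⟨t, ht, hσ⟩
    obtain ⟨-, ⟨s, hs, hts⟩, u, hu, h3⟩ := (hK' t).1 ht
    refine ⟨⟨u, hu, fun a => ?_⟩, ⟨s, hs, fun a => hts (hσ a)⟩, fun a => rfl⟩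
    rw [← Finset.mem_coe, ← h3]
    exact ⟨σ a, hσ a, rfl⟩
  · rintro ⟨⟨u, hu, hfu⟩, ⟨s, hs, hσ⟩, -⟩
    have hne : (Finset.univ.image σ).Nonempty := by
      rw [Finset.image_nonempty, Finset.univ_nonempty_iff]
      exact ⟨⟨0, hn⟩⟩
    refine ⟨Finset.univ.image σ, (hK' _).2 ⟨hne, ⟨s, hs, ?_⟩, (Finset.univ.image σ).image f,
      K.down u hu _ ?_ (hne.image f), (Finset.coe_image).symm⟩,
      fun a => Finset.mem_image_of_mem σ (Finset.mem_univ a)⟩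
    · intro x hx
      rw [Finset.mem_coe] at hx
      obtain ⟨a, -, rfl⟩ := Finset.mem_image.1 hx
      exact hσ a
    · intro z hz
      obtain ⟨x, hx, rfl⟩ := Finset.mem_image.1 hz
      obtain ⟨a, -, rfl⟩ := Finset.mem_image.1 hx
      exact hfu a

end Pool.H54.UB
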