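import Pool.Agent.H54.UB.FDF
import Pool.Agent.H54.UB.PE
import Pool.Agent.H54.UB.PF
import Pool.Agent.H54.UB.LFA
import Pool.Agent.H54.UB.EVB

/-!
# Row FC: the evaluation on the total space of a branched cover

* `brc_sum`: `K'.tops m` is the disjoint union of the `lifts S f t`, `t ∈ K.tops m`: for
  `σ ∈ K'.tops m`, `f ∘ σ ∈ K.tops m` (`Adm.tup_iff`, `f` injective on the piece) and `σ ∈ lifts S f (f ∘ σ)`;
  conversely if `σ ∈ lifts S f t`, `t ∈ K.tops m`, then `σ` is injective (`f ∘ σ = t` is) and `K'.Tup σ`.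
* `brc_eval`: `K'` from `Adm.pullback`.  The family `Y` consists of the pieces `D.P`, the sets
  `{v ∈ D.P₀ : y_i v = 0}`, `{.. = 1}` (polyhedra by `PLOn.preimage`), and the hulls of the affine pieces
  of `D.y` (`PLOn.pieces`).  If `K` has the stated property for `Y` then `K'` is adapted to all of them.
  `hy`: a face hull contained in `D.P₀`: the point with equal weights lies in some affine piece of
  `D.y`, hence by adaptedness the whole hull does.
  `ζ σ = ε (f ∘ σ)`.  Signs and alternation from `Ori`.  Stokes for `ζ`: by `brc_sum` the sum is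
  `∑ t, ε t * ∑ j, (-1)^j * Φ_j t`, `Φ_j t = ∑ σ ∈ lifts S f t, φ (σ ∘ δ_j)`; by `cons` it depends only on
  `t ∘ δ_j` (the sum over the multiset `(lifts S f t).val.map (· ∘ δ_j)`), `Φ_j t = Ψ (t ∘ δ_j)` for one
  function `Ψ` independent of `j`; apply `Ori.stokes` to `Ψ`.
  Then `EvalData.eval_ne_zero`, and `brc_sum` for the final sum.
-/

open Set Topology

namespace Pool.H54.UB

variable {E F : Type*} [NormedAddCommGroup E] [NormedSpace ℝ E] [FiniteDimensional ℝ E]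
  [NormedAddCommGroup F] [NormedSpace ℝ F] [FiniteDimensional ℝ F]

theorem FC_top {m k : ℕ} {K : GC F} {S : Finset (Finset E)} {f : E → F} {N : Set E}
    (h : BrC m k K S f N) {K' : GC E}
    (hK' : ∀ t : Finset E, t ∈ K'.faces ↔ t.Nonempty ∧
      (∃ s ∈ S, (t : Set E) ⊆ convexHull ℝ (s : Set E)) ∧ ∃ u ∈ K.faces, f '' (t : Set E) = u)
    {σ : Fin (m + 1) → E} (hσ : σ ∈ K'.tops m) :
    (fun a => f (σ a)) ∈ K.tops m ∧ σ ∈ lifts S f (fun a => f (σ a)) := by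
  obtain ⟨hinj, htup⟩ := GC.mem_tops.1 hσ
  obtain ⟨h1, h2⟩ := (h.adm.tup_iff hK' (Nat.succ_pos m) σ).1 htup
  refine ⟨GC.mem_tops.2 ⟨?_, h1⟩, (h.adm.mem_lifts _ σ).2 h2⟩
  obtain ⟨⟨s, hs, h3⟩, -⟩ := h2
  intro a b hab
  exact hinj (h.adm.inj s hs (h3 a) (h3 b) hab)

theorem FC_lift {m k : ℕ} {K : GC F} {S : Finset (Finset E)} {f : E → F} {N : Set E}
    (h : BrC m k K S f N) {K' : GC E}
    (hK' : ∀ t : Finset E, t ∈ K'.faces ↔ t.Nonempty ∧
      (∃ s ∈ S, (t : Set E) ⊆ convexHull ℝ (s : Set E)) ∧ ∃ u ∈ K.faces, f '' (t : Set E) = u)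
    {t : Fin (m + 1) → F} (ht : t ∈ K.tops m) {σ : Fin (m + 1) → E} (hσ : σ ∈ lifts S f t) :
    σ ∈ K'.tops m ∧ (fun a => f (σ a)) = t := by
  have h2 := (h.adm.mem_lifts t σ).1 hσ
  obtain ⟨hinj, htup⟩ := GC.mem_tops.1 ht
  have h3 : (fun a => f (σ a)) = t := funext h2.2
  refine ⟨GC.mem_tops.2 ⟨?_, ?_⟩, h3⟩
  · intro a b hab
    apply hinj
    rw [← h2.2 a, ← h2.2 b, hab]
  · rw [h.adm.tup_iff hK' (Nat.succ_pos m) σ, h3]
    exact ⟨htup, h2⟩

theorem brc_sum {m k : ℕ} {K : GC F} {S : Finset (Finset E)} {f : E → F} {N : Set E}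
    (h : BrC m k K S f N) {K' : GC E}
    (hK' : ∀ t : Finset E, t ∈ K'.faces ↔ t.Nonempty ∧
      (∃ s ∈ S, (t : Set E) ⊆ convexHull ℝ (s : Set E)) ∧ ∃ u ∈ K.faces, f '' (t : Set E) = u)
    {A : Type*} [AddCommMonoid A] (G : (Fin (m + 1) → E) → A) :
    ∑ σ ∈ K'.tops m, G σ = ∑ t ∈ K.tops m, ∑ σ ∈ lifts S f t, G σ := by
  classical
  rw [← Finset.sum_fiberwise_of_maps_to (g := fun σ : Fin (m + 1) → E => fun a => f (σ a))
    (fun σ hσ => (FC_top h hK' hσ).1) G]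
  refine Finset.sum_congr rfl fun t ht => Finset.sum_congr ?_ fun _ _ => rfl
  ext σ
  rw [Finset.mem_filter]
  constructor
  · rintro ⟨h1, h2⟩
    have h3 := (FC_top h hK' h1).2
    rw [h2] at h3
    exact h3
  · intro h1
    exact FC_lift h hK' ht h1

theorem FC_sing {m : ℕ} {N : Set E} {R : Type*} [CommRing R] (D : EvalData m N R) (i : Fin m)
    (c : ℝ) : IsPoly {v | v ∈ D.P₀ ∧ D.y v i = c} := by
  have h1 : IsPoly ({c} : Set ℝ) := IsPoly.singleton c
  have h2 := (D.pl.apply i).preimage h1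
  have h3 : {v | v ∈ D.P₀ ∧ D.y v i = c} = D.P₀ ∩ (fun x => D.y x i) ⁻¹' {c} := by
    ext v
    simp
  rw [h3]
  exact h2

theorem FC_stokes {m k : ℕ} {K : GC F} {S : Finset (Finset E)} {f : E → F} {N : Set E}
    (h : BrC m k K S f N) {ε : (Fin (m + 1) → F) → ℤ} (hε : Ori m K ε) {R : Type} [CommRing R]
    (φ : (Fin m → E) → R) :
    ∑ t ∈ K.tops m, (ε t : R) * ∑ j : Fin (m + 1), (-1) ^ (j : ℕ) *
      ∑ σ ∈ lifts S f t, φ (σ ∘ j.succAbove) = 0 := by
  classical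
  -- the function of the facet
  have hval : ∀ (t : Fin (m + 1) → F) (j : Fin (m + 1)),
      ∑ σ ∈ lifts S f t, φ (σ ∘ j.succAbove) =
        (((lifts S f t).val.map (fun σ => σ ∘ j.succAbove)).map φ).sum := by
    intro t j
    rw [Multiset.map_map]
    rfl
  have hcons : ∀ t ∈ K.tops m, ∀ t' ∈ K.tops m, ∀ j j' : Fin (m + 1),
      t ∘ j.succAbove = t' ∘ j'.succAbove →
      ∑ σ ∈ lifts S f t, φ (σ ∘ j.succAbove) = ∑ σ ∈ lifts S f t', φ (σ ∘ j'.succAbove) := by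
    intro t ht t' ht' j j' hjj
    rw [hval, hval, h.cons t ht t' ht' m j.succAbove j'.succAbove hjj]
  obtain ⟨Ψ, hΨ⟩ : ∃ Ψ : (Fin m → F) → R, ∀ t ∈ K.tops m, ∀ j : Fin (m + 1),
      ∑ σ ∈ lifts S f t, φ (σ ∘ j.succAbove) = Ψ (t ∘ j.succAbove) := by
    refine ⟨fun r => if hr : ∃ p : (Fin (m + 1) → F) × Fin (m + 1), p.1 ∈ K.tops m ∧
      p.1 ∘ p.2.succAbove = r then
        ∑ σ ∈ lifts S f hr.choose.1, φ (σ ∘ hr.choose.2.succAbove) else 0, fun t ht j => ?_⟩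
    have hr : ∃ p : (Fin (m + 1) → F) × Fin (m + 1), p.1 ∈ K.tops m ∧
      p.1 ∘ p.2.succAbove = t ∘ j.succAbove := ⟨(t, j), ht, rfl⟩
    dsimp only
    rw [dif_pos hr]
    exact hcons t ht _ hr.choose_spec.1 j _ hr.choose_spec.2.symm
  have h1 := hε.stokes R Ψ
  rw [← h1]
  refine Finset.sum_congr rfl fun t ht => ?_
  congr 1
  refine Finset.sum_congr rfl fun j _ => ?_
  rw [hΨ t ht j]

theorem brc_eval {m k : ℕ} {N : Set E} {R : Type} [Field R] (D : EvalData m N R)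
    (hR : (((m + 1).factorial : ℕ) : R) ≠ 0) :
    ∃ Y : Finset (Set E), (∀ A ∈ Y, IsPoly A ∧ A ⊆ N) ∧
      ∀ (K : GC F) (S : Finset (Finset E)) (f : E → F), BrC m k K S f N →
        (∀ A ∈ Y, ∀ s ∈ S, K.Adapted (f '' (A ∩ convexHull ℝ (s : Set E)))) →
        ∀ ε : (Fin (m + 1) → F) → ℤ, Ori m K ε →
        ∃ x : Fin m → E → E → R,
          (∀ i, ∀ t ∈ K.tops m, ∀ σ ∈ lifts S f t, ∀ a b c : Fin (m + 1),
            x i (σ a) (σ b) + x i (σ b) (σ c) = x i (σ a) (σ c)) ∧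
          ∑ t ∈ K.tops m, (ε t : R) * ∑ σ ∈ lifts S f t,
            ∏ i : Fin m, x i (σ i.castSucc) (σ i.succ) ≠ 0 := by
  classical
  obtain ⟨T, hT, hT2⟩ := D.pl.pieces
  have hPN : ∀ A ∈ D.P, A ⊆ N := by
    intro A hA
    rw [D.cover]
    exact Set.subset_biUnion_of_mem (u := fun A : Set E => A) (Finset.mem_coe.2 hA)
  have hP0 : D.P₀ ⊆ N := hPN _ D.mem₀
  refine ⟨D.P ∪ (Finset.univ.image fun i : Fin m => {v | v ∈ D.P₀ ∧ D.y v i = 0}) ∪
    (Finset.univ.image fun i : Fin m => {v | v ∈ D.P₀ ∧ D.y v i = 1}) ∪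
    (T.image fun s : Finset E => convexHull ℝ (s : Set E)), ?_, ?_⟩
  · intro A hA
    rw [Finset.mem_union, Finset.mem_union, Finset.mem_union] at hA
    rcases hA with ((hA | hA) | hA) | hA
    · exact ⟨D.poly A hA, hPN A hA⟩
    · obtain ⟨i, -, rfl⟩ := Finset.mem_image.1 hA
      exact ⟨FC_sing D i 0, fun v hv => hP0 hv.1⟩
    · obtain ⟨i, -, rfl⟩ := Finset.mem_image.1 hA
      exact ⟨FC_sing D i 1, fun v hv => hP0 hv.1⟩
    · obtain ⟨s, hs, rfl⟩ := Finset.mem_image.1 hA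
      refine ⟨IsPoly.hull s, fun v hv => hP0 ?_⟩
      rw [hT]
      exact Set.mem_iUnion₂.2 ⟨s, hs, hv⟩
  · intro K S f hB hY ε hε
    obtain ⟨K', hsp, hK', had⟩ := hB.adm.pullback
    have hadP : ∀ A ∈ D.P, K'.Adapted A := fun A hA =>
      had A (hPN A hA) fun s hs => hY A (by
        rw [Finset.mem_union, Finset.mem_union, Finset.mem_union]
        exact Or.inl (Or.inl (Or.inl hA))) s hs
    have had0 : ∀ i, K'.Adapted {v | v ∈ D.P₀ ∧ D.y v i = 0} := fun i =>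
      had _ (fun v hv => hP0 hv.1) fun s hs => hY _ (by
        rw [Finset.mem_union, Finset.mem_union, Finset.mem_union]
        exact Or.inl (Or.inl (Or.inr (Finset.mem_image_of_mem _ (Finset.mem_univ i))))) s hs
    have had1 : ∀ i, K'.Adapted {v | v ∈ D.P₀ ∧ D.y v i = 1} := fun i =>
      had _ (fun v hv => hP0 hv.1) fun s hs => hY _ (by
        rw [Finset.mem_union, Finset.mem_union, Finset.mem_union]
        exact Or.inl (Or.inr (Finset.mem_image_of_mem _ (Finset.mem_univ i)))) s hs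
    have hadT : ∀ s0 ∈ T, K'.Adapted (convexHull ℝ (s0 : Set E)) := fun s0 hs0 =>
      had _ (fun v hv => hP0 (by
        rw [hT]
        exact Set.mem_iUnion₂.2 ⟨s0, hs0, hv⟩)) fun s hs => hY _ (by
        rw [Finset.mem_union]
        exact Or.inr (Finset.mem_image_of_mem (fun s : Finset E => convexHull ℝ (s : Set E))
          hs0)) s hs
    have hy : ∀ s ∈ K'.faces, convexHull ℝ (s : Set E) ⊆ D.P₀ →
        AffOn D.y (convexHull ℝ (s : Set E)) := by
      intro s hs hsP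
      obtain ⟨x, hx⟩ := EVB_bary K' hs
      have hxP := hsP hx.mem_hull
      rw [hT] at hxP
      obtain ⟨s0, hs0, hxs0⟩ := Set.mem_iUnion₂.1 hxP
      have h1 := GC.adapted_iff.1 (hadT s0 hs0) x s hx hxs0
      obtain ⟨A, hA⟩ := (hT2 s0 hs0).2.2
      exact ⟨A, hA.mono h1⟩
    obtain ⟨x, hx1, hx2⟩ := D.eval_ne_zero hR K' hsp hadP hy had0 had1
      (fun σ => ε fun a => f (σ a)) (fun σ hσ => hε.sign _ (FC_top hB hK' hσ).1)
      (fun σ hσ π => hε.alt _ (FC_top hB hK' hσ).1 π) (fun φ => by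
        rw [brc_sum hB hK']
        rw [← FC_stokes hB hε φ]
        refine Finset.sum_congr rfl fun t ht => ?_
        have h1 : ∀ σ ∈ lifts S f t, ((ε fun a => f (σ a) : ℤ) : R) *
            ∑ j : Fin (m + 1), (-1) ^ (j : ℕ) * φ (σ ∘ j.succAbove) =
            (ε t : R) * ∑ j : Fin (m + 1), (-1) ^ (j : ℕ) * φ (σ ∘ j.succAbove) := by
          intro σ hσ
          rw [(FC_lift hB hK' ht hσ).2]
        rw [Finset.sum_congr rfl h1, ← Finset.mul_sum, Finset.sum_comm]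
        congr 1
        refine Finset.sum_congr rfl fun j _ => ?_
        rw [Finset.mul_sum])
    refine ⟨x, ?_, ?_⟩
    · intro i t ht σ hσ a b c
      obtain ⟨-, s, hs, h1⟩ := GC.mem_tops.1 (FC_lift hB hK' ht hσ).1
      exact hx1 i s hs _ (h1 a) _ (h1 b) _ (h1 c)
    · rw [brc_sum hB hK'] at hx2
      intro h0
      apply hx2
      rw [← h0]
      refine Finset.sum_congr rfl fun t ht => ?_
      rw [Finset.mul_sum]
      refine Finset.sum_congr rfl fun σ hσ => ?_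
      rw [(FC_lift hB hK' ht hσ).2]

end Pool.H54.UB
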