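import Pool.Agent.H54.UB.MBD

/-!
# Row MBP: products of PL manifolds with boundary

Use the local data (`IntPt.data`, `BdPt.data`), product maps (`PLOn.prodMap`), reorder the factors by
linear isomorphisms, and `of_nhds`.
* interior × interior: `(f, g) : W × W' → (Fin n → ℝ) × (Fin m → ℝ)`.
* boundary × interior: `((f₁, g), f₂)`, boundary `D × Y`.  interior × boundary: symmetric.
* boundary × boundary (corner): `f = (f₁, s)`, `g = (g₁, t)`, `s, t ≥ 0`; use the PL homeomorphism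
  `(s, t) ↦ (s - t, min s t)` from `{s, t ≥ 0}` onto `ℝ × {r ≥ 0}`, with inverse
  `(a, r) ↦ (r + max a 0, r + max (-a) 0)`; so `h = (((f₁, g₁), s - t), min s t)`; `min s t = 0` iff
  `s = 0` or `t = 0`, i.e. on `X × D' ∪ D × Y`.  The image is a neighbourhood in the half space because
  the map `(s,t) ↦ (s-t, min s t)` is a homeomorphism of the quadrant onto the half plane.
-/

open Set Topology

namespace Pool.H54.UB

variable {E F : Type*} [NormedAddCommGroup E] [NormedSpace ℝ E] [FiniteDimensional ℝ E]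
  [NormedAddCommGroup F] [NormedSpace ℝ F] [FiniteDimensional ℝ F]

private theorem MBP_img {A B : Type*} [TopologicalSpace A] [TopologicalSpace B] (φ : A → B)
    (ψ : B → A) {H : Set B} {K : Set A} {b : B} (hψ : Continuous ψ)
    (hm : MapsTo ψ H K) (hr : ∀ q ∈ H, φ (ψ q) = q) {S : Set A} (hS : S ∈ 𝓝[K] (ψ b)) :
    φ '' S ∈ 𝓝[H] b := by
  have h0 : Filter.Tendsto ψ (𝓝[H] b) (𝓝[K] (ψ b)) :=
    hψ.continuousWithinAt.tendsto_nhdsWithin hm
  have h1 : ψ ⁻¹' S ∈ 𝓝[H] b := h0 hS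
  filter_upwards [h1, self_mem_nhdsWithin] with q hq hqH
  exact ⟨ψ q, hq, hr q hqH⟩

private theorem MBP_inj {A B : Type*} {f : E → A} {g : F → B} {W : Set E} {W' : Set F}
    (hf : InjOn f W) (hg : InjOn g W') :
    InjOn (fun p : E × F => (f p.1, g p.2)) (W ×ˢ W') := by
  rintro ⟨a, b⟩ ⟨ha, hb⟩ ⟨a', b'⟩ ⟨ha', hb'⟩ he
  have h1 : f a = f a' := congrArg Prod.fst he
  have h2 : g b = g b' := congrArg Prod.snd he
  exact Prod.ext (hf ha ha' h1) (hg hb hb' h2)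

theorem IntPt.prod {n m : ℕ} {X : Set E} {Y : Set F} {x : E} {y : F} (hx : IntPt n X x)
    (hy : IntPt m Y y) : IntPt (n + m) (X ×ˢ Y) (x, y) := by
  obtain ⟨W, f, hWX, hxW, hW, hf, hfi, hfim⟩ := hx.data
  obtain ⟨W', g, hWY, hyW, hW', hg, hgi, hgim⟩ := hy.data
  refine IntPt.of_nhds (F := (Fin n → ℝ) × (Fin m → ℝ)) (W := W ×ˢ W')
    (h := fun p => (f p.1, g p.2)) ?_ (Set.prod_mono hWX hWY) ⟨hxW, hyW⟩
    (nhdsWithin_prod hW hW') (hf.prodMap hg) (MBP_inj hfi hgi) ?_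
  · rw [Module.finrank_prod, Module.finrank_fin_fun, Module.finrank_fin_fun]
  · rw [← Set.prod_image_image_eq]
    exact prod_mem_nhds hfim hgim

/-- the affine map `((a, s), b) ↦ ((a, b), s)` -/
private noncomputable def MBP_r (A B : Type*) [NormedAddCommGroup A] [NormedSpace ℝ A]
    [NormedAddCommGroup B] [NormedSpace ℝ B] : (A × ℝ) × B →ₗ[ℝ] (A × B) × ℝ :=
  (((LinearMap.fst ℝ A ℝ).comp (LinearMap.fst ℝ (A × ℝ) B)).prod (LinearMap.snd ℝ (A × ℝ) B)).prod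
    ((LinearMap.snd ℝ A ℝ).comp (LinearMap.fst ℝ (A × ℝ) B))

/-- the affine map `(a, (b, s)) ↦ ((a, b), s)` -/
private noncomputable def MBP_l (A B : Type*) [NormedAddCommGroup A] [NormedSpace ℝ A]
    [NormedAddCommGroup B] [NormedSpace ℝ B] : A × (B × ℝ) →ₗ[ℝ] (A × B) × ℝ :=
  ((LinearMap.fst ℝ A (B × ℝ)).prod ((LinearMap.fst ℝ B ℝ).comp (LinearMap.snd ℝ A (B × ℝ)))).prod
    ((LinearMap.snd ℝ B ℝ).comp (LinearMap.snd ℝ A (B × ℝ)))

theorem BdPt.prod_int {n m : ℕ} {X D : Set E} {Y : Set F} {x : E} {y : F} (hx : BdPt n X D x)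
    (hy : IntPt m Y y) : BdPt (n + m) (X ×ˢ Y) (D ×ˢ Y) (x, y) := by
  obtain ⟨W, f, hWX, hxW, hW, hf, hfi, hfp, hfD, hf0, hfim⟩ := hx.data
  obtain ⟨W', g, hWY, hyW, hW', hg, hgi, hgim⟩ := hy.data
  have hPL : PLOn (fun p : E × F => (((f p.1).1, g p.2), (f p.1).2)) (W ×ˢ W') :=
    (hf.prodMap hg).affine_comp (MBP_r (Fin n → ℝ) (Fin m → ℝ)).toAffineMap
  refine BdPt.of_nhds (F := (Fin n → ℝ) × (Fin m → ℝ)) (W := W ×ˢ W')
    (h := fun p => (((f p.1).1, g p.2), (f p.1).2)) ?_ (Set.prod_mono hWX hWY) ⟨hxW, hyW⟩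
    (nhdsWithin_prod hW hW') hPL ?_ ?_ ?_ ?_ ?_
  · rw [Module.finrank_prod, Module.finrank_fin_fun, Module.finrank_fin_fun]
  · intro p hp q hq he
    apply MBP_inj hfi hgi hp hq
    have h1 : (f p.1).1 = (f q.1).1 := congrArg (fun z => z.1.1) he
    have h2 : g p.2 = g q.2 := congrArg (fun z => z.1.2) he
    have h3 : (f p.1).2 = (f q.1).2 := congrArg (fun z => z.2) he
    exact Prod.ext (Prod.ext h1 h3) h2
  · intro p hp
    exact hfp _ hp.1
  · intro p hp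
    show (p.1 ∈ D ∧ p.2 ∈ Y) ↔ (f p.1).2 = 0
    rw [← hfD _ hp.1]
    exact ⟨fun h => h.1, fun h => ⟨h, hWY hp.2⟩⟩
  · exact hf0
  · have h1 : (fun p : E × F => (((f p.1).1, g p.2), (f p.1).2)) '' (W ×ˢ W') =
        (fun z : ((Fin n → ℝ) × ℝ) × (Fin m → ℝ) => ((z.1.1, z.2), z.1.2)) ''
          ((f '' W) ×ˢ (g '' W')) := by
      rw [Set.prod_image_image_eq, Set.image_image]
    rw [h1]
    refine MBP_img (K := {q : ((Fin n → ℝ) × ℝ) | 0 ≤ q.2} ×ˢ univ) _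
      (fun z : ((Fin n → ℝ) × (Fin m → ℝ)) × ℝ => ((z.1.1, z.2), z.1.2)) (by fun_prop) ?_ ?_ ?_
    · intro z hz
      exact ⟨hz, mem_univ _⟩
    · intro z _
      rfl
    · refine nhdsWithin_prod hfim ?_
      rw [nhdsWithin_univ]
      exact hgim

theorem IntPt.prod_bd {n m : ℕ} {X : Set E} {Y D : Set F} {x : E} {y : F} (hx : IntPt n X x)
    (hy : BdPt m Y D y) : BdPt (n + m) (X ×ˢ Y) (X ×ˢ D) (x, y) := by
  obtain ⟨W, f, hWX, hxW, hW, hf, hfi, hfim⟩ := hx.data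
  obtain ⟨W', g, hWY, hyW, hW', hg, hgi, hgp, hgD, hg0, hgim⟩ := hy.data
  have hPL : PLOn (fun p : E × F => ((f p.1, (g p.2).1), (g p.2).2)) (W ×ˢ W') :=
    (hf.prodMap hg).affine_comp (MBP_l (Fin n → ℝ) (Fin m → ℝ)).toAffineMap
  refine BdPt.of_nhds (F := (Fin n → ℝ) × (Fin m → ℝ)) (W := W ×ˢ W')
    (h := fun p => ((f p.1, (g p.2).1), (g p.2).2)) ?_ (Set.prod_mono hWX hWY) ⟨hxW, hyW⟩
    (nhdsWithin_prod hW hW') hPL ?_ ?_ ?_ ?_ ?_
  · rw [Module.finrank_prod, Module.finrank_fin_fun, Module.finrank_fin_fun]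
  · intro p hp q hq he
    apply MBP_inj hfi hgi hp hq
    have h1 : f p.1 = f q.1 := congrArg (fun z => z.1.1) he
    have h2 : (g p.2).1 = (g q.2).1 := congrArg (fun z => z.1.2) he
    have h3 : (g p.2).2 = (g q.2).2 := congrArg (fun z => z.2) he
    exact Prod.ext h1 (Prod.ext h2 h3)
  · intro p hp
    exact hgp _ hp.2
  · intro p hp
    show (p.1 ∈ X ∧ p.2 ∈ D) ↔ (g p.2).2 = 0
    rw [← hgD _ hp.2]
    exact ⟨fun h => h.2, fun h => ⟨hWX hp.1, h⟩⟩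
  · exact hg0
  · have h1 : (fun p : E × F => ((f p.1, (g p.2).1), (g p.2).2)) '' (W ×ˢ W') =
        (fun z : (Fin n → ℝ) × ((Fin m → ℝ) × ℝ) => ((z.1, z.2.1), z.2.2)) ''
          ((f '' W) ×ˢ (g '' W')) := by
      rw [Set.prod_image_image_eq, Set.image_image]
    rw [h1]
    refine MBP_img (K := univ ×ˢ {q : ((Fin m → ℝ) × ℝ) | 0 ≤ q.2}) _
      (fun z : ((Fin n → ℝ) × (Fin m → ℝ)) × ℝ => (z.1.1, (z.1.2, z.2))) (by fun_prop) ?_ ?_ ?_
    · intro z hz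
      exact ⟨mem_univ _, hz⟩
    · intro z _
      rfl
    · refine nhdsWithin_prod ?_ hgim
      rw [nhdsWithin_univ]
      exact hfim

/-- The boundary description is local: here `x` is an interior point of `X` away from `D`. -/
theorem IntPt.prod_bd' {n m : ℕ} {X D : Set E} {Y D' : Set F} {x : E} {y : F}
    (hx : IntPt n X x) (hD : IsClosed D) (hxD : x ∉ D) (hy : BdPt m Y D' y) :
    BdPt (n + m) (X ×ˢ Y) (X ×ˢ D' ∪ D ×ˢ Y) (x, y) := by
  refine BdPt.congr_nhds (V := Dᶜ ×ˢ univ) (prod_mem_nhds (hD.isOpen_compl.mem_nhds hxD)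
    Filter.univ_mem) rfl ?_ (hx.prod_bd hy)
  ext ⟨a, b⟩
  constructor
  · rintro ⟨h1, h2⟩
    exact ⟨Or.inl h1, h2⟩
  · rintro ⟨h1 | h1, h2⟩
    · exact ⟨h1, h2⟩
    · exact absurd h1.1 h2.1

theorem BdPt.prod_int' {n m : ℕ} {X D : Set E} {Y D' : Set F} {x : E} {y : F}
    (hx : BdPt n X D x) (hD : IsClosed D') (hyD : y ∉ D') (hy : IntPt m Y y) :
    BdPt (n + m) (X ×ˢ Y) (X ×ˢ D' ∪ D ×ˢ Y) (x, y) := by
  refine BdPt.congr_nhds (V := univ ×ˢ D'ᶜ) (prod_mem_nhds Filter.univ_mem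
    (hD.isOpen_compl.mem_nhds hyD)) rfl ?_ (hx.prod_int hy)
  ext ⟨a, b⟩
  constructor
  · rintro ⟨h1, h2⟩
    exact ⟨Or.inr h1, h2⟩
  · rintro ⟨h1 | h1, h2⟩
    · exact absurd h1.2 h2.2
    · exact ⟨h1, h2⟩

private theorem MBP_min (s t s' t' : ℝ) (h1 : s - t = s' - t') (h2 : min s t = min s' t') :
    s = s' ∧ t = t' := by
  rcases le_total s t with h | h
  · have h' : s' ≤ t' := by linarith
    rw [min_eq_left h, min_eq_left h'] at h2
    exact ⟨h2, by linarith⟩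
  · have h' : t' ≤ s' := by linarith
    rw [min_eq_right h, min_eq_right h'] at h2
    exact ⟨by linarith, h2⟩

private theorem MBP_min0 (s t : ℝ) (hs : 0 ≤ s) (ht : 0 ≤ t) : min s t = 0 ↔ t = 0 ∨ s = 0 := by
  constructor
  · intro h
    rcases le_total s t with h1 | h1
    · rw [min_eq_left h1] at h; exact Or.inr h
    · rw [min_eq_right h1] at h; exact Or.inl h
  · rintro (h | h)
    · rw [h, min_eq_right hs]
    · rw [h, min_eq_left ht]

theorem BdPt.prod_bd {n m : ℕ} {X D : Set E} {Y D' : Set F} {x : E} {y : F} (hx : BdPt n X D x)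
    (hy : BdPt m Y D' y) :
    BdPt (n + m + 1) (X ×ˢ Y) (X ×ˢ D' ∪ D ×ˢ Y) (x, y) := by
  obtain ⟨W, f, hWX, hxW, hW, hf, hfi, hfp, hfD, hf0, hfim⟩ := hx.data
  obtain ⟨W', g, hWY, hyW, hW', hg, hgi, hgp, hgD, hg0, hgim⟩ := hy.data
  have hP : PLOn (fun p : E × F => (f p.1, g p.2)) (W ×ˢ W') := hf.prodMap hg
  have hs : PLOn (fun p : E × F => (f p.1).2) (W ×ˢ W') :=
    hP.affine_comp ((LinearMap.snd ℝ (Fin n → ℝ) ℝ).comp
      (LinearMap.fst ℝ ((Fin n → ℝ) × ℝ) ((Fin m → ℝ) × ℝ))).toAffineMap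
  have ht : PLOn (fun p : E × F => (g p.2).2) (W ×ˢ W') :=
    hP.affine_comp ((LinearMap.snd ℝ (Fin m → ℝ) ℝ).comp
      (LinearMap.snd ℝ ((Fin n → ℝ) × ℝ) ((Fin m → ℝ) × ℝ))).toAffineMap
  have ha : PLOn (fun p : E × F => (f p.1).1) (W ×ˢ W') :=
    hP.affine_comp ((LinearMap.fst ℝ (Fin n → ℝ) ℝ).comp
      (LinearMap.fst ℝ ((Fin n → ℝ) × ℝ) ((Fin m → ℝ) × ℝ))).toAffineMap
  have hb : PLOn (fun p : E × F => (g p.2).1) (W ×ˢ W') :=
    hP.affine_comp ((LinearMap.fst ℝ (Fin m → ℝ) ℝ).comp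
      (LinearMap.snd ℝ ((Fin n → ℝ) × ℝ) ((Fin m → ℝ) × ℝ))).toAffineMap
  have hd : PLOn (fun p : E × F => (f p.1).2 - (g p.2).2) (W ×ˢ W') := by
    refine (hs.add (ht.const_smul (-1))).congr fun p _ => ?_
    show (f p.1).2 + (-1 : ℝ) • (g p.2).2 = (f p.1).2 - (g p.2).2
    rw [smul_eq_mul]; ring
  have hPL : PLOn (fun p : E × F => ((((f p.1).1, (g p.2).1), (f p.1).2 - (g p.2).2),
      min (f p.1).2 (g p.2).2)) (W ×ˢ W') :=
    ((ha.prodMk hb).prodMk hd).prodMk (hs.min ht)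
  refine BdPt.of_nhds (F := ((Fin n → ℝ) × (Fin m → ℝ)) × ℝ) (W := W ×ˢ W')
    (h := fun p => ((((f p.1).1, (g p.2).1), (f p.1).2 - (g p.2).2),
      min (f p.1).2 (g p.2).2)) ?_ (Set.prod_mono hWX hWY) ⟨hxW, hyW⟩
    (nhdsWithin_prod hW hW') hPL ?_ ?_ ?_ ?_ ?_
  · rw [Module.finrank_prod, Module.finrank_prod, Module.finrank_fin_fun, Module.finrank_fin_fun,
      Module.finrank_self]
  · intro p hp q hq he
    apply MBP_inj hfi hgi hp hq
    have h1 : (f p.1).1 = (f q.1).1 := congrArg (fun z => z.1.1.1) he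
    have h2 : (g p.2).1 = (g q.2).1 := congrArg (fun z => z.1.1.2) he
    have h3 : (f p.1).2 - (g p.2).2 = (f q.1).2 - (g q.2).2 := congrArg (fun z => z.1.2) he
    have h4 : min (f p.1).2 (g p.2).2 = min (f q.1).2 (g q.2).2 := congrArg (fun z => z.2) he
    obtain ⟨h5, h6⟩ := MBP_min _ _ _ _ h3 h4
    exact Prod.ext (Prod.ext h1 h5) (Prod.ext h2 h6)
  · intro p hp
    exact le_min (hfp _ hp.1) (hgp _ hp.2)
  · intro p hp
    show (p ∈ X ×ˢ D' ∪ D ×ˢ Y) ↔ min (f p.1).2 (g p.2).2 = 0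
    rw [MBP_min0 _ _ (hfp _ hp.1) (hgp _ hp.2), ← hfD _ hp.1, ← hgD _ hp.2]
    constructor
    · rintro (h | h)
      · exact Or.inl h.2
      · exact Or.inr h.1
    · rintro (h | h)
      · exact Or.inl ⟨hWX hp.1, h⟩
      · exact Or.inr ⟨h, hWY hp.2⟩
  · show min (f x).2 (g y).2 = 0
    rw [hf0, hg0, min_self]
  · have h1 : (fun p : E × F => ((((f p.1).1, (g p.2).1), (f p.1).2 - (g p.2).2),
          min (f p.1).2 (g p.2).2)) '' (W ×ˢ W') =
        (fun z : ((Fin n → ℝ) × ℝ) × ((Fin m → ℝ) × ℝ) =>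
          (((z.1.1, z.2.1), z.1.2 - z.2.2), min z.1.2 z.2.2)) ''
          ((f '' W) ×ˢ (g '' W')) := by
      rw [Set.prod_image_image_eq, Set.image_image]
    rw [h1]
    refine MBP_img (K := {q : ((Fin n → ℝ) × ℝ) | 0 ≤ q.2} ×ˢ {q : ((Fin m → ℝ) × ℝ) | 0 ≤ q.2}) _
      (fun z : (((Fin n → ℝ) × (Fin m → ℝ)) × ℝ) × ℝ =>
        ((z.1.1.1, z.2 + max z.1.2 0), (z.1.1.2, z.2 + max (-z.1.2) 0))) (by fun_prop) ?_ ?_ ?_
    · intro z hz
      have hz' : 0 ≤ z.2 := hz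
      exact ⟨add_nonneg hz' (le_max_right _ _), add_nonneg hz' (le_max_right _ _)⟩
    · rintro ⟨⟨⟨a, b⟩, c⟩, r⟩ _
      show (((a, b), (r + max c 0) - (r + max (-c) 0)), min (r + max c 0) (r + max (-c) 0))
        = (((a, b), c), r)
      rcases le_total c 0 with hc | hc
      · rw [max_eq_right hc, max_eq_left (by linarith : (0 : ℝ) ≤ -c), add_zero,
          min_eq_left (by linarith)]
        congr 2
        ring
      · rw [max_eq_left hc, max_eq_right (by linarith : -c ≤ (0 : ℝ)), add_zero,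
          min_eq_right (by linarith)]
        congr 2
        ring
    · have h2 : ((((f x).1, (f x).2), ((g y).1, (g y).2)) : ((Fin n → ℝ) × ℝ) × ((Fin m → ℝ) × ℝ)) =
          (((f x).1, min (f x).2 (g y).2 + max ((f x).2 - (g y).2) 0),
            ((g y).1, min (f x).2 (g y).2 + max (-((f x).2 - (g y).2)) 0)) := by
        rw [hf0, hg0]
        simp
      show (f '' W) ×ˢ (g '' W') ∈ 𝓝[{q : ((Fin n → ℝ) × ℝ) | 0 ≤ q.2} ×ˢ
          {q : ((Fin m → ℝ) × ℝ) | 0 ≤ q.2}]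
          (((f x).1, min (f x).2 (g y).2 + max ((f x).2 - (g y).2) 0),
            ((g y).1, min (f x).2 (g y).2 + max (-((f x).2 - (g y).2)) 0))
      rw [← h2]
      exact nhdsWithin_prod hfim hgim

theorem IsClosedPLManifold.prod {n m : ℕ} {X : Set E} {Y : Set F}
    (hX : IsClosedPLManifold n X) (hY : IsClosedPLManifold m Y) :
    IsClosedPLManifold (n + m) (X ×ˢ Y) := by
  refine ⟨hX.1.prod hY.1, ?_⟩
  rintro ⟨x, y⟩ ⟨hx, hy⟩
  exact IntPt.prod (hX.2 x hx) (hY.2 y hy)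

end Pool.H54.UB
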