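import Pool.Agent.H54.UB.TUB
import Pool.Agent.H54.UB.MBP

/-!
# Row NTA: the three straight tubes in the 3-torus

`tub0 (z, u) = (z, wnd (1 + u 0 / 4), wnd (3 + u 1 / 4))`, and its images under the rotation
`rho (x, y, z) = (z, x, y)`.  With `tubj j = rho^j ∘ tub0`:
`tubj 1 (z,u) = (wnd (3 + u 1/4), z, wnd (1 + u 0/4))`, `tubj 2 (z,u) = (wnd (1+u 0/4), wnd (3+u 1/4), z)`.

* each is a tube: PL (`wnd_pl` on `[1/2, 3/2]`, `[5/2, 7/2]`), injective (`wnd_injOn`), neighbourhoods: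
  `wnd_open` and products of neighbourhoods.  For `|u i| < 2`.
* the images are pairwise disjoint: the coordinate in which tube `j` is in `wnd '' Icc (1/2) (3/2)` is one in
  which another tube is in `wnd '' Icc (5/2) (7/2)`: tubes 0, 1: third coordinate (`5/2..7/2` against
  `1/2..3/2`); tubes 1, 2: first; tubes 0, 2: second coordinate.
* `Tube.finite` with `J3 = {0, 1, 2}`, then compare with `tub3`.
* `mem_tub3`: membership in the removed part by coordinates.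
-/

open Set Topology Metric

namespace Pool.H54.UB

abbrev V6 : Type := V2 × V2 × V2

def T3 : Set V6 := gam ×ˢ gam ×ˢ gam

def J3 : Set ℝ := {0, 1, 2}

def rho (x : V6) : V6 := (x.2.2, x.1, x.2.1)

noncomputable def tub0 (q : V2 × V2) : V6 := (q.1, wnd (1 + q.2 0 / 4), wnd (3 + q.2 1 / 4))

open Classical in
noncomputable def tub3 (q : (V2 × ℝ) × V2) : V6 :=
  if q.1.2 = 0 then tub0 (q.1.1, q.2) else if q.1.2 = 1 then rho (tub0 (q.1.1, q.2))
  else rho (rho (tub0 (q.1.1, q.2)))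

/-- The open arcs removed. -/
noncomputable def ar1 : Set V2 := wnd '' Ioo (3 / 4) (5 / 4)
noncomputable def ar3 : Set V2 := wnd '' Ioo (11 / 4) (13 / 4)

/-- The 3-torus minus the open tubes. -/
def A3 : Set V6 := T3 \ tub3 '' ((gam ×ˢ J3) ×ˢ ball (0 : V2) 1)

theorem T3_mfd : IsClosedPLManifold 3 T3 := gam_mfd.prod (gam_mfd.prod gam_mfd)

theorem T3_conn : IsConnected T3 := gam_conn.prod (gam_conn.prod gam_conn)

theorem NTA_fin : J3.Finite := by
  unfold J3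
  exact Set.toFinite _

theorem NTA_J0 : IsClosedPLManifold 0 J3 := by
  refine ⟨?_, fun x hx => ?_⟩
  · have h : J3 = {0} ∪ ({1} ∪ {2}) := by
      ext x
      exact Iff.rfl
    rw [h]
    exact (IsPoly.singleton 0).union ((IsPoly.singleton 1).union (IsPoly.singleton 2))
  · refine ⟨{x}, fun _ => 0, ⟨singleton_subset_iff.2 hx, PLOn.const (IsPoly.singleton x) 0,
      injOn_singleton _ _, ?_⟩, mem_singleton x, ?_, fun i => i.elim0⟩
    · rw [image_singleton]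
      ext y
      constructor
      · intro _ i
        exact i.elim0
      · intro _
        exact Subsingleton.elim _ _
    · refine mem_nhdsWithin.2 ⟨(J3 \ {x})ᶜ, (NTA_fin.subset sdiff_subset).isClosed.isOpen_compl,
        fun h => h.2 rfl, ?_⟩
      rintro y ⟨hy1, hy2⟩
      by_contra hne
      exact hy1 ⟨hy2, hne⟩

theorem J3_mfd : IsClosedPLManifold 1 (gam ×ˢ J3) := gam_mfd.prod NTA_J0

theorem NTA_ball {r : ℝ} (hr : 0 < r) (u : V2) :
    u ∈ ball (0 : V2) r ↔ |u 0| < r ∧ |u 1| < r := by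
  rw [mem_ball_zero_iff, pi_norm_lt_iff hr]
  constructor
  · intro h
    exact ⟨h 0, h 1⟩
  · rintro ⟨h0, h1⟩ i
    fin_cases i
    · exact h0
    · exact h1

theorem NTA_cball {r : ℝ} (hr : 0 ≤ r) (u : V2) :
    u ∈ closedBall (0 : V2) r ↔ |u 0| ≤ r ∧ |u 1| ≤ r := by
  rw [mem_closedBall_zero_iff, pi_norm_le_iff_of_nonneg hr]
  constructor
  · intro h
    exact ⟨h 0, h 1⟩
  · rintro ⟨h0, h1⟩ i
    fin_cases i
    · exact h0
    · exact h1

theorem NTA_l (c : ℝ) (i : Fin 2) :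
    PLOn (fun q : V2 × V2 => wnd (c + q.2 i / 4)) (gam ×ˢ closedBall (0 : V2) 2) := by
  have hP : IsPoly (gam ×ˢ closedBall (0 : V2) 2) := gam_mfd.1.prod (isPoly_closedBall 2 2)
  have h1 : PLOn (fun q : V2 × V2 => q.2) (gam ×ˢ closedBall (0 : V2) 2) :=
    PLOn.affine (LinearMap.snd ℝ V2 V2).toAffineMap hP
  have h2 : PLOn (fun q : V2 × V2 => c + q.2 i / 4) (gam ×ˢ closedBall (0 : V2) 2) := by
    refine ((PLOn.const hP c).add ((h1.apply i).const_smul (1 / 4))).congr fun q _ => ?_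
    show c + (1 / 4) • q.2 i = c + q.2 i / 4
    rw [smul_eq_mul]
    ring
  refine (wnd_pl (c - 1 / 2) (c + 1 / 2)).comp h2 fun q hq => ?_
  have h3 := (NTA_cball (by norm_num) q.2).1 hq.2
  have h4 : |q.2 i| ≤ 2 := by
    fin_cases i
    · exact h3.1
    · exact h3.2
  have h5 := abs_le.1 h4
  constructor
  · linarith
  · linarith

theorem NTA_inj {a b c : ℝ} (ha : |a| ≤ 2) (hb : |b| ≤ 2)
    (h : wnd (c + a / 4) = wnd (c + b / 4)) : a = b := by
  have h1 := abs_le.1 ha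
  have h2 := abs_le.1 hb
  have h3 := wnd_injOn (a := c - 1 / 2) (b := c + 1 / 2) (by linarith)
    ⟨by linarith, by linarith⟩ ⟨by linarith, by linarith⟩ h
  linarith

theorem NTA_tub0 : Tube gam 2 T3 tub0 where
  pl := by
    have hP : IsPoly (gam ×ˢ closedBall (0 : V2) 2) := gam_mfd.1.prod (isPoly_closedBall 2 2)
    have h1 : PLOn (fun q : V2 × V2 => q.1) (gam ×ˢ closedBall (0 : V2) 2) :=
      PLOn.affine (LinearMap.fst ℝ V2 V2).toAffineMap hP
    exact h1.prodMk ((NTA_l 1 0).prodMk (NTA_l 3 1))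
  inj := by
    intro p hp q hq he
    have e1 : p.1 = q.1 := congrArg (fun x : V6 => x.1) he
    have e2 : wnd (1 + p.2 0 / 4) = wnd (1 + q.2 0 / 4) := congrArg (fun x : V6 => x.2.1) he
    have e3 : wnd (3 + p.2 1 / 4) = wnd (3 + q.2 1 / 4) := congrArg (fun x : V6 => x.2.2) he
    have h1 := (NTA_cball (by norm_num) p.2).1 hp.2
    have h2 := (NTA_cball (by norm_num) q.2).1 hq.2
    have e4 := NTA_inj h1.1 h2.1 e2
    have e5 := NTA_inj h1.2 h2.2 e3
    refine Prod.ext e1 (funext fun i => ?_)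
    fin_cases i
    · exact e4
    · exact e5
  maps := fun p hp => ⟨hp.1, wnd_mem _, wnd_mem _⟩
  nhd := by
    intro p hp
    have h0 := (NTA_ball (by norm_num) p.2).1 hp.2
    have ha : 0 < (2 - |p.2 0|) / 4 := by linarith [h0.1]
    have hb : 0 < (2 - |p.2 1|) / 4 := by linarith [h0.2]
    have h1 := nhdsWithin_prod (self_mem_nhdsWithin (s := gam) (a := p.1))
      (nhdsWithin_prod (wnd_open (1 + p.2 0 / 4) ha) (wnd_open (3 + p.2 1 / 4) hb))
    refine Filter.mem_of_superset h1 ?_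
    rintro ⟨x, y, z⟩ ⟨hx, ⟨s, hs, hsy⟩, t, ht, htz⟩
    have a1 := neg_abs_le (p.2 0)
    have a2 := le_abs_self (p.2 0)
    have a3 := neg_abs_le (p.2 1)
    have a4 := le_abs_self (p.2 1)
    have hsy' : wnd s = y := hsy
    have htz' : wnd t = z := htz
    refine ⟨(x, ![4 * (s - 1), 4 * (t - 3)]), ⟨hx, ?_⟩, ?_⟩
    · rw [NTA_cball (by norm_num)]
      constructor
      · show |4 * (s - 1)| ≤ 2
        rw [abs_le]
        constructor
        · linarith [hs.1, hs.2]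
        · linarith [hs.1, hs.2]
      · show |4 * (t - 3)| ≤ 2
        rw [abs_le]
        constructor
        · linarith [ht.1, ht.2]
        · linarith [ht.1, ht.2]
    · show (x, wnd (1 + 4 * (s - 1) / 4), wnd (3 + 4 * (t - 3) / 4)) = (x, y, z)
      rw [← hsy', ← htz']
      have e1 : 1 + 4 * (s - 1) / 4 = s := by ring
      have e2 : 3 + 4 * (t - 3) / 4 = t := by ring
      rw [e1, e2]

theorem NTA_rho_cont : Continuous rho := by
  unfold rho
  fun_prop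

theorem NTA_rho_T3 : MapsTo rho T3 T3 := fun x hx => ⟨hx.2.2, hx.1, hx.2.1⟩

theorem NTA_rho3 (x : V6) : rho (rho (rho x)) = x := rfl

theorem NTA_rho_inj : Function.Injective rho := by
  intro x y h
  rw [← NTA_rho3 x, h, NTA_rho3]

theorem NTA_rho_aff : ∃ A : V6 →ᵃ[ℝ] V6, ∀ x, A x = rho x :=
  ⟨(((LinearMap.snd ℝ V2 V2).comp (LinearMap.snd ℝ V2 (V2 × V2))).prod
    ((LinearMap.fst ℝ V2 (V2 × V2)).prod
      ((LinearMap.fst ℝ V2 V2).comp (LinearMap.snd ℝ V2 (V2 × V2))))).toAffineMap, fun _ => rfl⟩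

theorem NTA_rho_tube {ι : V2 × V2 → V6} (h : Tube gam 2 T3 ι) :
    Tube gam 2 T3 (fun q => rho (ι q)) where
  pl := by
    obtain ⟨A, hA⟩ := NTA_rho_aff
    exact (h.pl.affine_comp A).congr fun q _ => hA _
  inj := fun p hp q hq he => h.inj hp hq (NTA_rho_inj he)
  maps := fun p hp => NTA_rho_T3 (h.maps hp)
  nhd := by
    intro p hp
    have h1 := h.nhd p hp
    have hc : Continuous fun x => rho (rho x) := NTA_rho_cont.comp NTA_rho_cont
    have h2 : Filter.Tendsto (fun x => rho (rho x)) (𝓝[T3] (rho (ι p))) (𝓝[T3] (ι p)) :=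
      hc.continuousWithinAt.tendsto_nhdsWithin fun x hx => NTA_rho_T3 (NTA_rho_T3 hx)
    refine Filter.mem_of_superset (h2 h1) ?_
    rintro y ⟨q, hq, hqy⟩
    refine ⟨q, hq, ?_⟩
    show rho (ι q) = y
    rw [hqy, NTA_rho3]

theorem NTA_t0 (z u : V2) : tub3 ((z, 0), u) = tub0 (z, u) := by
  unfold tub3
  rw [if_pos rfl]

theorem NTA_t1 (z u : V2) : tub3 ((z, 1), u) = rho (tub0 (z, u)) := by
  unfold tub3
  rw [if_neg (by norm_num), if_pos rfl]

theorem NTA_t2 (z u : V2) : tub3 ((z, 2), u) = rho (rho (tub0 (z, u))) := by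
  unfold tub3
  rw [if_neg (by norm_num), if_neg (by norm_num)]

/-- the two arcs are disjoint -/
theorem NTA_arcs {z : V2} (h1 : z ∈ wnd '' Icc (1 / 2) (3 / 2)) (h2 : z ∈ wnd '' Icc (5 / 2) (7 / 2)) :
    False := by
  obtain ⟨s, hs, rfl⟩ := h1
  obtain ⟨t, ht, he⟩ := h2
  have h3 := wnd_injOn (a := 0) (b := 4) (by norm_num) ⟨by linarith [ht.1], by linarith [ht.2]⟩
    ⟨by linarith [hs.1], by linarith [hs.2]⟩ he
  linarith [ht.1, hs.2]

theorem NTA_mem0 {q : V2 × V2} (hq : q ∈ gam ×ˢ closedBall (0 : V2) 2) :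
    (tub0 q).2.1 ∈ wnd '' Icc (1 / 2) (3 / 2) ∧ (tub0 q).2.2 ∈ wnd '' Icc (5 / 2) (7 / 2) := by
  have h1 := (NTA_cball (by norm_num) q.2).1 hq.2
  have h2 := abs_le.1 h1.1
  have h3 := abs_le.1 h1.2
  exact ⟨⟨_, ⟨by linarith, by linarith⟩, rfl⟩, ⟨_, ⟨by linarith, by linarith⟩, rfl⟩⟩

theorem NTA_d01 {q q' : V2 × V2} (hq : q ∈ gam ×ˢ closedBall (0 : V2) 2)
    (hq' : q' ∈ gam ×ˢ closedBall (0 : V2) 2) (h : tub0 q = rho (tub0 q')) : False := by
  have h1 := (NTA_mem0 hq).2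
  have h2 := (NTA_mem0 hq').1
  have h3 : (tub0 q).2.2 = (tub0 q').2.1 := congrArg (fun x : V6 => x.2.2) h
  rw [h3] at h1
  exact NTA_arcs h2 h1

theorem NTA_d02 {q q' : V2 × V2} (hq : q ∈ gam ×ˢ closedBall (0 : V2) 2)
    (hq' : q' ∈ gam ×ˢ closedBall (0 : V2) 2) (h : tub0 q = rho (rho (tub0 q'))) : False := by
  have h1 := (NTA_mem0 hq).1
  have h2 := (NTA_mem0 hq').2
  have h3 : (tub0 q).2.1 = (tub0 q').2.2 := congrArg (fun x : V6 => x.2.1) h
  rw [h3] at h1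
  exact NTA_arcs h1 h2

theorem tub3_tube : Tube (gam ×ˢ J3) 2 T3 tub3 := by
  have h := Tube.finite (P := gam) (k := 2) (X := T3) NTA_fin
    (ι := fun j q => tub3 ((q.1, j), q.2)) ?_ ?_
  · exact h
  · intro j hj
    rcases hj with rfl | rfl | hj
    · have h1 : (fun q : V2 × V2 => tub3 ((q.1, 0), q.2)) = tub0 := funext fun q => NTA_t0 q.1 q.2
      show Tube gam 2 T3 (fun q : V2 × V2 => tub3 ((q.1, 0), q.2))
      rw [h1]
      exact NTA_tub0
    · have h1 : (fun q : V2 × V2 => tub3 ((q.1, 1), q.2)) = fun q => rho (tub0 q) :=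
        funext fun q => NTA_t1 q.1 q.2
      show Tube gam 2 T3 (fun q : V2 × V2 => tub3 ((q.1, 1), q.2))
      rw [h1]
      exact NTA_rho_tube NTA_tub0
    · have hj' : j = 2 := hj
      subst hj'
      have h1 : (fun q : V2 × V2 => tub3 ((q.1, 2), q.2)) = fun q => rho (rho (tub0 q)) :=
        funext fun q => NTA_t2 q.1 q.2
      show Tube gam 2 T3 (fun q : V2 × V2 => tub3 ((q.1, 2), q.2))
      rw [h1]
      exact NTA_rho_tube (NTA_rho_tube NTA_tub0)
  · intro j hj j' hj' hne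
    rw [Set.disjoint_left]
    rintro x ⟨q, hq, hqx⟩ ⟨q', hq', hqx'⟩
    have h1 : tub3 ((q.1, j), q.2) = tub3 ((q'.1, j'), q'.2) := hqx.trans hqx'.symm
    rcases hj with rfl | rfl | hj
    · rcases hj' with rfl | rfl | hj'
      · exact hne rfl
      · rw [NTA_t0, NTA_t1] at h1
        exact NTA_d01 hq hq' h1
      · have hj2 : j' = 2 := hj'
        rw [hj2, NTA_t0, NTA_t2] at h1
        exact NTA_d02 hq hq' h1
    · rcases hj' with rfl | rfl | hj'
      · rw [NTA_t0, NTA_t1] at h1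
        exact NTA_d01 hq' hq h1.symm
      · exact hne rfl
      · have hj2 : j' = 2 := hj'
        rw [hj2, NTA_t1, NTA_t2] at h1
        exact NTA_d01 hq hq' (NTA_rho_inj h1)
    · have hj1 : j = 2 := hj
      rcases hj' with rfl | rfl | hj'
      · rw [hj1, NTA_t2, NTA_t0] at h1
        exact NTA_d02 hq' hq h1.symm
      · rw [hj1, NTA_t2, NTA_t1] at h1
        exact NTA_d01 hq' hq (NTA_rho_inj h1).symm
      · have hj2 : j' = 2 := hj'
        exact hne (hj1.trans hj2.symm)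

theorem NTA_m0 (y : V6) : (∃ z ∈ gam, ∃ u ∈ ball (0 : V2) 1, tub0 (z, u) = y) ↔
    (y.1 ∈ gam ∧ y.2.1 ∈ ar1 ∧ y.2.2 ∈ ar3) := by
  constructor
  · rintro ⟨z, hz, u, hu, rfl⟩
    have h1 := (NTA_ball one_pos u).1 hu
    have h2 := abs_lt.1 h1.1
    have h3 := abs_lt.1 h1.2
    exact ⟨hz, ⟨_, ⟨by linarith, by linarith⟩, rfl⟩, ⟨_, ⟨by linarith, by linarith⟩, rfl⟩⟩
  · obtain ⟨x, y, w⟩ := y
    rintro ⟨hx, ⟨s, hs, hsy⟩, t, ht, htw⟩
    have hsy' : wnd s = y := hsy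
    have htw' : wnd t = w := htw
    refine ⟨x, hx, ![4 * (s - 1), 4 * (t - 3)], ?_, ?_⟩
    · rw [NTA_ball one_pos]
      constructor
      · show |4 * (s - 1)| < 1
        rw [abs_lt]
        constructor
        · linarith [hs.1, hs.2]
        · linarith [hs.1, hs.2]
      · show |4 * (t - 3)| < 1
        rw [abs_lt]
        constructor
        · linarith [ht.1, ht.2]
        · linarith [ht.1, ht.2]
    · show (x, wnd (1 + 4 * (s - 1) / 4), wnd (3 + 4 * (t - 3) / 4)) = (x, y, w)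
      rw [← hsy', ← htw']
      have e1 : 1 + 4 * (s - 1) / 4 = s := by ring
      have e2 : 3 + 4 * (t - 3) / 4 = t := by ring
      rw [e1, e2]

theorem mem_tub3 (x : V6) : x ∈ tub3 '' ((gam ×ˢ J3) ×ˢ ball (0 : V2) 1) ↔
    (x.1 ∈ gam ∧ x.2.1 ∈ ar1 ∧ x.2.2 ∈ ar3) ∨ (x.2.1 ∈ gam ∧ x.2.2 ∈ ar1 ∧ x.1 ∈ ar3) ∨
      (x.2.2 ∈ gam ∧ x.1 ∈ ar1 ∧ x.2.1 ∈ ar3) := by
  constructor
  · rintro ⟨⟨⟨z, j⟩, u⟩, ⟨⟨hz, hj⟩, hu⟩, rfl⟩
    have hj' : j = 0 ∨ j = 1 ∨ j = 2 := hj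
    have h0 := (NTA_m0 (tub0 (z, u))).1 ⟨z, hz, u, hu, rfl⟩
    rcases hj' with rfl | rfl | rfl
    · rw [NTA_t0]
      exact Or.inl h0
    · rw [NTA_t1]
      exact Or.inr (Or.inl h0)
    · rw [NTA_t2]
      exact Or.inr (Or.inr h0)
  · rintro (h | h | h)
    · obtain ⟨z, hz, u, hu, he⟩ := (NTA_m0 x).2 h
      refine ⟨((z, 0), u), ⟨⟨hz, Or.inl rfl⟩, hu⟩, ?_⟩
      rw [NTA_t0, he]
    · obtain ⟨z, hz, u, hu, he⟩ := (NTA_m0 (rho (rho x))).2 h
      refine ⟨((z, 1), u), ⟨⟨hz, Or.inr (Or.inl rfl)⟩, hu⟩, ?_⟩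
      rw [NTA_t1, he, NTA_rho3]
    · obtain ⟨z, hz, u, hu, he⟩ := (NTA_m0 (rho x)).2 h
      refine ⟨((z, 2), u), ⟨⟨hz, Or.inr (Or.inr rfl)⟩, hu⟩, ?_⟩
      rw [NTA_t2, he, NTA_rho3]

theorem rho_A3 : MapsTo rho A3 A3 := by
  intro x hx
  refine ⟨NTA_rho_T3 hx.1, fun h => hx.2 ?_⟩
  rw [mem_tub3] at h ⊢
  rcases h with h | h | h
  · exact Or.inr (Or.inr h)
  · exact Or.inl h
  · exact Or.inr (Or.inl h)

end Pool.H54.UB
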