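import Pool.Agent.H54.UB.EVC
import Pool.Agent.H54.UB.NTA

/-!
# Row NTE: evaluation data on the 3-torus

Direct construction.  Arcs `slab = wnd '' Icc 7 8`, `rest = wnd '' Icc 0 7`; `gam = slab ∪ rest`,
`slab ∩ rest = {wnd 0, wnd 7}`.
* index type `Bool × Bool × Bool`, pieces `K₁ × K₂ × K₃`, `K = slab` for `true`, `rest` for `false`;
  `o = (true, true, true)`.
* `φ i a x = if a_i = true ∧ x_i = wnd 0 then 1 else 0`.  compat: on `slab ∩ slab`, `rest ∩ rest` the
  difference is `0`, on `slab ∩ rest` (two points in the coordinate `i`) every function of `x_i` is locally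
  constant.
* `y x = ![s₁ - 7, s₂ - 7, s₃ - 7]` for `x_i = wnd s_i`, `s_i ∈ [7,8]`.
* cube: `κ v = (wnd (3 + v 0 / 8), wnd (3 + v 1 / 8), wnd (3 + v 2 / 8))`, coordinates in
  `wnd '' Icc (11/4) (13/4)`, which is in the interior of `rest` and disjoint from `slab`; all `φ` vanish
  there.
-/

open Set Topology Metric

namespace Pool.H54.UB

/-- The coordinates of a point of the 3-torus. -/
def co3 (i : Fin 3) (x : V6) : V2 := ![x.1, x.2.1, x.2.2] i

theorem NTE_int (k : ℤ) (h1 : -1 < (k : ℝ)) (h2 : (k : ℝ) < 1) : k = 0 := by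
  have h3 : -1 < k := by exact_mod_cast h1
  have h4 : k < 1 := by exact_mod_cast h2
  omega

/-- the two arcs -/
noncomputable def NTE_S (b : Bool) : Set V2 := if b = true then wnd '' Icc 7 8 else wnd '' Icc 0 7

theorem NTE_S_true : NTE_S true = wnd '' Icc 7 8 := by
  unfold NTE_S
  rw [if_pos rfl]

theorem NTE_S_false : NTE_S false = wnd '' Icc 0 7 := by
  unfold NTE_S
  rw [if_neg (by simp)]

theorem NTE_S_poly (b : Bool) : IsPoly (NTE_S b) := by
  cases b
  · rw [NTE_S_false]; exact (wnd_pl 0 7).image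
  · rw [NTE_S_true]; exact (wnd_pl 7 8).image

theorem NTE_S_sub (b : Bool) : NTE_S b ⊆ gam := by
  cases b
  · rw [NTE_S_false]; rintro _ ⟨s, -, rfl⟩; exact wnd_mem s
  · rw [NTE_S_true]; rintro _ ⟨s, -, rfl⟩; exact wnd_mem s

theorem NTE_S_cover {z : V2} (hz : z ∈ gam) : ∃ b, z ∈ NTE_S b := by
  obtain ⟨s, ⟨h1, h2⟩, rfl⟩ := wnd_surj 0 hz
  rw [zero_add] at h2
  rcases le_total s 7 with h | h
  · exact ⟨false, by rw [NTE_S_false]; exact ⟨s, ⟨h1, h⟩, rfl⟩⟩
  · exact ⟨true, by rw [NTE_S_true]; exact ⟨s, ⟨h, h2.le⟩, rfl⟩⟩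

theorem NTE_S_inter {z : V2} (h1 : z ∈ NTE_S true) (h2 : z ∈ NTE_S false) :
    z = wnd 0 ∨ z = wnd 7 := by
  rw [NTE_S_true] at h1
  rw [NTE_S_false] at h2
  obtain ⟨s, ⟨hs1, hs2⟩, rfl⟩ := h1
  obtain ⟨t, ⟨ht1, ht2⟩, he⟩ := h2
  obtain ⟨k, hk⟩ := wnd_eq_iff.1 he
  have hk1 : (-1 : ℝ) < k := by linarith
  have hk2 : (k : ℝ) < 2 := by linarith
  have h3 : -1 < k := by exact_mod_cast hk1
  have h4 : k < 2 := by exact_mod_cast hk2
  have h5 : k = 0 ∨ k = 1 := by omega
  rcases h5 with rfl | rfl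
  · right
    have : s = 7 := by push_cast at hk; linarith
    rw [this]
  · left
    have h6 := wnd_per 0 1
    have : s = 0 + 8 * ((1 : ℤ) : ℝ) := by push_cast at hk ⊢; linarith
    rw [this, h6]

/-- the coordinates of the index -/
def NTE_b (i : Fin 3) (a : Bool × Bool × Bool) : Bool := ![a.1, a.2.1, a.2.2] i

theorem NTE_cont (i : Fin 3) : Continuous (co3 i) := by
  fin_cases i
  · exact continuous_fst
  · exact continuous_fst.comp continuous_snd
  · exact continuous_snd.comp continuous_snd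

theorem NTE_prod (S : Fin 3 → Set V2) : {x : V6 | ∀ i, co3 i x ∈ S i} = S 0 ×ˢ S 1 ×ˢ S 2 := by
  ext x
  constructor
  · intro h
    exact ⟨h 0, h 1, h 2⟩
  · rintro ⟨h0, h1, h2⟩ i
    fin_cases i
    · exact h0
    · exact h1
    · exact h2

theorem NTE_ext {x x' : V6} (h : ∀ i, co3 i x = co3 i x') : x = x' :=
  Prod.ext (h 0) (Prod.ext (h 1) (h 2))

theorem NTE_T3 : T3 = {x : V6 | ∀ i, co3 i x ∈ (fun _ : Fin 3 => gam) i} := by
  rw [NTE_prod]
  rfl

theorem NTE_poly {S : Fin 3 → Set V2} (h : ∀ i, IsPoly (S i)) :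
    IsPoly {x : V6 | ∀ i, co3 i x ∈ S i} := by
  rw [NTE_prod]
  exact (h 0).prod ((h 1).prod (h 2))

theorem NTE_nhds {S : Fin 3 → Set V2} {v : V6} (h : ∀ i, S i ∈ 𝓝[gam] (co3 i v)) :
    {x : V6 | ∀ i, co3 i x ∈ S i} ∈ 𝓝[T3] v := by
  rw [NTE_prod]
  have h1 := nhdsWithin_prod (h 0) (nhdsWithin_prod (h 1) (h 2))
  exact h1

theorem NTE_co_pl (i : Fin 3) {X : Set V6} (hX : IsPoly X) : PLOn (co3 i) X := by
  fin_cases i
  · exact PLOn.affine (LinearMap.fst ℝ V2 (V2 × V2)).toAffineMap hX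
  · exact PLOn.affine ((LinearMap.fst ℝ V2 V2).comp (LinearMap.snd ℝ V2 (V2 × V2))).toAffineMap hX
  · exact PLOn.affine ((LinearMap.snd ℝ V2 V2).comp (LinearMap.snd ℝ V2 (V2 × V2))).toAffineMap hX

/-- the parameter on the arc `wnd '' Icc 7 8` -/
noncomputable def NTE_par (z : V2) : ℝ := Function.invFunOn wnd (Icc 7 8) z

theorem NTE_par_wnd {s : ℝ} (hs : s ∈ Icc (7 : ℝ) 8) : NTE_par (wnd s) = s :=
  (wnd_injOn (a := 7) (b := 8) (by norm_num)).leftInvOn_invFunOn hs

theorem NTE_par_pl : PLOn NTE_par (wnd '' Icc 7 8) :=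
  (wnd_pl 7 8).symm (wnd_injOn (a := 7) (b := 8) (by norm_num))

theorem NTE_arc_nhds {a b s : ℝ} (h1 : a < s) (h2 : s < b) : wnd '' Icc a b ∈ 𝓝[gam] (wnd s) := by
  refine Filter.mem_of_superset (wnd_open s (ε := min (s - a) (b - s))
    (lt_min (by linarith) (by linarith))) ?_
  refine image_mono ?_
  rintro t ⟨ht1, ht2⟩
  have h3 := min_le_left (s - a) (b - s)
  have h4 := min_le_right (s - a) (b - s)
  exact ⟨by linarith, by linarith⟩

theorem NTE_cball : IsPoly (closedBall (0 : Fin 3 → ℝ) 2) := by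
  have h := isPoly_box (m := 3) (fun _ => -2) (fun _ => 2)
  have h2 : closedBall (0 : Fin 3 → ℝ) 2 = {y : Fin 3 → ℝ | ∀ i, (-2 : ℝ) ≤ y i ∧ y i ≤ 2} := by
    ext y
    rw [mem_closedBall, dist_zero_right, pi_norm_le_iff_of_nonneg (by norm_num)]
    simp only [mem_ofPred_eq]
    exact forall_congr' fun i => by rw [Real.norm_eq_abs, abs_le]
  rw [h2]
  exact h

theorem NTE_mem_cball {v : Fin 3 → ℝ} (hv : v ∈ closedBall (0 : Fin 3 → ℝ) 2) (i : Fin 3) :
    -2 ≤ v i ∧ v i ≤ 2 := by
  rw [mem_closedBall, dist_zero_right, pi_norm_le_iff_of_nonneg (by norm_num)] at hv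
  have := hv i
  rwa [Real.norm_eq_abs, abs_le] at this

theorem NTE_mem_ball {v : Fin 3 → ℝ} (hv : v ∈ ball (0 : Fin 3 → ℝ) 2) (i : Fin 3) :
    -2 < v i ∧ v i < 2 := by
  rw [mem_ball, dist_zero_right, pi_norm_lt_iff (by norm_num)] at hv
  have := hv i
  rwa [Real.norm_eq_abs, abs_lt] at this

/-- the cube -/
noncomputable def NTE_k (v : Fin 3 → ℝ) : V6 :=
  (wnd (3 + v 0 / 8), wnd (3 + v 1 / 8), wnd (3 + v 2 / 8))

theorem NTE_k_co (v : Fin 3 → ℝ) (i : Fin 3) : co3 i (NTE_k v) = wnd (3 + v i / 8) := by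
  fin_cases i <;> rfl

theorem NTE_k_mem {v : Fin 3 → ℝ} (hv : v ∈ closedBall (0 : Fin 3 → ℝ) 2) (i : Fin 3) :
    3 + v i / 8 ∈ Icc (11 / 4 : ℝ) (13 / 4) := by
  obtain ⟨h1, h2⟩ := NTE_mem_cball hv i
  exact ⟨by linarith, by linarith⟩

theorem NTE_cube : CubeT 3 T3 NTE_k where
  pl := by
    have h1 : ∀ i : Fin 3, PLOn (fun v : Fin 3 → ℝ => wnd (3 + v i / 8))
        (closedBall (0 : Fin 3 → ℝ) 2) := by
      intro i
      have h2 : PLOn (fun v : Fin 3 → ℝ => 3 + v i / 8) (closedBall (0 : Fin 3 → ℝ) 2) := by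
        have h3 := (PLOn.const NTE_cball (3 : ℝ)).add
          (((PLOn.id NTE_cball).apply i).const_smul (1 / 8))
        refine h3.congr fun v _ => ?_
        show (3 : ℝ) + (1 / 8) * v i = 3 + v i / 8
        ring
      exact (wnd_pl (11 / 4) (13 / 4)).comp h2 fun v hv => NTE_k_mem hv i
    exact (h1 0).prodMk ((h1 1).prodMk (h1 2))
  inj := by
    intro v hv v' hv' he
    funext i
    have h1 : wnd (3 + v i / 8) = wnd (3 + v' i / 8) := by
      rw [← NTE_k_co, ← NTE_k_co, he]
    have h2 := wnd_injOn (a := 11 / 4) (b := 13 / 4) (by norm_num) (NTE_k_mem hv i)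
      (NTE_k_mem hv' i) h1
    linarith
  maps := by
    intro v _
    rw [NTE_T3]
    intro i
    rw [NTE_k_co]
    exact wnd_mem _
  nhd := by
    intro p hp
    refine Filter.mem_of_superset (NTE_nhds (S := fun _ => wnd '' Icc (11 / 4) (13 / 4)) ?_) ?_
    · intro i
      rw [NTE_k_co]
      obtain ⟨h1, h2⟩ := NTE_mem_ball hp i
      exact NTE_arc_nhds (by linarith) (by linarith)
    · intro x hx
      have h1 : ∀ i, ∃ s ∈ Icc (11 / 4 : ℝ) (13 / 4), wnd s = co3 i x := hx
      choose s hs hsx using h1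
      refine ⟨fun i => 8 * (s i - 3), ?_, ?_⟩
      · rw [mem_closedBall, dist_zero_right, pi_norm_le_iff_of_nonneg (by norm_num)]
        intro i
        obtain ⟨h2, h3⟩ := hs i
        rw [Real.norm_eq_abs, abs_le]
        exact ⟨by linarith, by linarith⟩
      · refine NTE_ext fun i => ?_
        rw [NTE_k_co, ← hsx i]
        congr 1
        ring

theorem NTE_k_ne {v : Fin 3 → ℝ} (hv : v ∈ closedBall (0 : Fin 3 → ℝ) 2) (i : Fin 3) :
    co3 i (NTE_k v) ∉ wnd '' Icc 7 8 := by
  rw [NTE_k_co]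
  rintro ⟨s, ⟨hs1, hs2⟩, he⟩
  obtain ⟨h1, h2⟩ := NTE_k_mem hv i
  obtain ⟨k, hk⟩ := wnd_eq_iff.1 he.symm
  have h3 : k = 0 := NTE_int k (by linarith) (by linarith)
  rw [h3] at hk
  push_cast at hk
  linarith

open Classical in
/-- the local primitives -/
noncomputable def NTE_phi (R : Type*) [CommRing R] (i : Fin 3) (a : Bool × Bool × Bool) (x : V6) : R :=
  if NTE_b i a = true ∧ co3 i x = wnd 0 then 1 else 0

theorem NTE_phi_true (R : Type*) [CommRing R] {i : Fin 3} {a : Bool × Bool × Bool}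
    (h : NTE_b i a = true) (x : V6) :
    NTE_phi R i a x = open Classical in if co3 i x = wnd 0 then 1 else 0 := by
  unfold NTE_phi
  by_cases hx : co3 i x = wnd 0
  · rw [if_pos ⟨h, hx⟩, if_pos hx]
  · rw [if_neg (fun h2 => hx h2.2), if_neg hx]

theorem NTE_phi_false (R : Type*) [CommRing R] {i : Fin 3} {a : Bool × Bool × Bool}
    (h : NTE_b i a = false) (x : V6) : NTE_phi R i a x = 0 := by
  unfold NTE_phi
  rw [if_neg]
  rintro ⟨h2, -⟩
  rw [h] at h2
  exact Bool.false_ne_true h2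

/-- the pieces -/
def NTE_A (a : Bool × Bool × Bool) : Set V6 := {x | ∀ i, co3 i x ∈ NTE_S (NTE_b i a)}

noncomputable def NTE_D (R : Type*) [CommRing R] : EvC 3 T3 R where
  ι := Bool × Bool × Bool
  fin := inferInstance
  A := NTE_A
  poly := fun a => NTE_poly fun i => NTE_S_poly _
  cover := by
    ext x
    rw [mem_iUnion]
    constructor
    · intro hx
      rw [NTE_T3] at hx
      obtain ⟨b0, h0⟩ := NTE_S_cover (hx 0)
      obtain ⟨b1, h1⟩ := NTE_S_cover (hx 1)
      obtain ⟨b2, h2⟩ := NTE_S_cover (hx 2)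
      refine ⟨(b0, b1, b2), fun i => ?_⟩
      fin_cases i
      · exact h0
      · exact h1
      · exact h2
    · rintro ⟨a, ha⟩
      rw [NTE_T3]
      intro i
      exact NTE_S_sub _ (ha i)
  φ := NTE_phi R
  compat := by
    intro i a b x hx
    by_cases hab : NTE_b i a = NTE_b i b
    · have h1 : ∀ y, NTE_phi R i a y = NTE_phi R i b y := by
        intro y
        unfold NTE_phi
        rw [hab]
      refine ⟨univ, Filter.univ_mem, fun y _ => ?_⟩
      rw [h1 y, h1 x, sub_self, sub_self]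
    · have key : ∀ z ∈ NTE_A a ∩ NTE_A b, co3 i z = wnd 0 ∨ co3 i z = wnd 7 := by
        intro z hz
        have h1 := hz.1 i
        have h2 := hz.2 i
        rcases Bool.eq_false_or_eq_true (NTE_b i a) with h3 | h3
        · have h4 : NTE_b i b = false := by
            rw [h3] at hab
            simpa using Ne.symm hab
          rw [h3] at h1
          rw [h4] at h2
          exact NTE_S_inter h1 h2
        · have h4 : NTE_b i b = true := by
            rw [h3] at hab
            simpa using Ne.symm hab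
          rw [h3] at h1
          rw [h4] at h2
          exact NTE_S_inter h2 h1
      have hfin : (({wnd 0, wnd 7} : Set V2) \ {co3 i x}).Finite :=
        ((Set.finite_singleton _).insert _).subset Set.sdiff_subset
      have hopen : IsOpen (co3 i ⁻¹' (({wnd 0, wnd 7} : Set V2) \ {co3 i x})ᶜ) :=
        hfin.isClosed.isOpen_compl.preimage (NTE_cont i)
      refine ⟨_, hopen.mem_nhds ?_, ?_⟩
      · intro h
        exact h.2 rfl
      · rintro y ⟨hy1, hy2⟩
        have he : co3 i y = co3 i x := by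
          by_contra hne
          apply hy1
          refine ⟨?_, hne⟩
          rcases key y hy2 with h | h
          · rw [h]; simp
          · rw [h]; simp
        unfold NTE_phi
        rw [he]
  o := (true, true, true)
  y := fun x i => NTE_par (co3 i x) - 7
  pl := by
    have hP : IsPoly (NTE_A (true, true, true)) := NTE_poly fun i => NTE_S_poly _
    refine PLOn.pi hP fun i => ?_
    have h1 : PLOn (fun x => NTE_par (co3 i x)) (NTE_A (true, true, true)) := by
      refine NTE_par_pl.comp (NTE_co_pl i hP) ?_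
      intro x hx
      have h2 := hx i
      have h3 : NTE_b i (true, true, true) = true := by fin_cases i <;> rfl
      rw [h3, NTE_S_true] at h2
      exact h2
    have h2 := h1.add (PLOn.const hP (-7 : ℝ))
    exact h2.congr fun x _ => by ring
  inj := by
    intro x hx x' hx' he
    refine NTE_ext fun i => ?_
    have h3 : NTE_b i (true, true, true) = true := by fin_cases i <;> rfl
    have h1 := hx i
    have h2 := hx' i
    rw [h3, NTE_S_true] at h1 h2
    obtain ⟨s, hs, hsx⟩ := h1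
    obtain ⟨t, ht, htx⟩ := h2
    have h4 : NTE_par (co3 i x) - 7 = NTE_par (co3 i x') - 7 := congrFun he i
    rw [← hsx, ← htx, NTE_par_wnd hs, NTE_par_wnd ht] at h4
    have h5 : s = t := by linarith
    rw [← hsx, ← htx, h5]
  img := by
    ext z
    constructor
    · rintro ⟨x, hx, rfl⟩ i
      have h3 : NTE_b i (true, true, true) = true := by fin_cases i <;> rfl
      have h1 := hx i
      rw [h3, NTE_S_true] at h1
      obtain ⟨s, hs, hsx⟩ := h1
      show 0 ≤ NTE_par (co3 i x) - 7 ∧ NTE_par (co3 i x) - 7 ≤ 1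
      rw [← hsx, NTE_par_wnd hs]
      exact ⟨by linarith [hs.1], by linarith [hs.2]⟩
    · intro hz
      have hs : ∀ i, 7 + z i ∈ Icc (7 : ℝ) 8 := fun i => ⟨by linarith [(hz i).1], by linarith [(hz i).2]⟩
      have hco : ∀ i, co3 i ((wnd (7 + z 0), wnd (7 + z 1), wnd (7 + z 2)) : V6) = wnd (7 + z i) := by
        intro i
        fin_cases i <;> rfl
      refine ⟨(wnd (7 + z 0), wnd (7 + z 1), wnd (7 + z 2)), ?_, ?_⟩
      · intro i
        have h3 : NTE_b i (true, true, true) = true := by fin_cases i <;> rfl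
        rw [h3, NTE_S_true, hco]
        exact ⟨_, hs i, rfl⟩
      · funext i
        show NTE_par (co3 i ((wnd (7 + z 0), wnd (7 + z 1), wnd (7 + z 2)) : V6)) - 7 = z i
        rw [hco, NTE_par_wnd (hs i)]
        ring
  nhd := by
    intro v hv hlt
    refine NTE_nhds fun i => ?_
    have h3 : NTE_b i (true, true, true) = true := by fin_cases i <;> rfl
    have h1 := hv i
    rw [h3, NTE_S_true] at h1 ⊢
    obtain ⟨s, hs, hsx⟩ := h1
    have h2 : 0 < NTE_par (co3 i v) - 7 ∧ NTE_par (co3 i v) - 7 < 1 := hlt i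
    rw [← hsx, NTE_par_wnd hs] at h2
    rw [← hsx]
    exact NTE_arc_nhds (by linarith [h2.1]) (by linarith [h2.2])
  wall := by
    intro i v hv
    have h3 : NTE_b i (true, true, true) = true := by fin_cases i <;> rfl
    have h1 := hv i
    rw [h3, NTE_S_true] at h1
    obtain ⟨s, hs, hsx⟩ := h1
    rw [NTE_phi_true R h3]
    have h8 : wnd 8 = wnd 0 := by
      have := wnd_per 0 1
      rw [← this]
      norm_num
    show (NTE_par (co3 i v) - 7 = 1 → _) ∧ (NTE_par (co3 i v) - 7 ≠ 1 → _)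
    rw [← hsx, NTE_par_wnd hs]
    constructor
    · intro h
      have h4 : s = 8 := by linarith
      rw [if_pos (by rw [h4, h8])]
    · intro h
      rw [if_neg]
      intro h5
      rw [← h8] at h5
      have h6 := wnd_injOn (a := 7) (b := 8) (by norm_num) hs (by norm_num) h5
      apply h
      rw [h6]
      norm_num
  off := by
    intro a ha
    have h1 : ∃ i, NTE_b i a = false := by
      by_contra hcon
      push Not at hcon
      apply ha
      have h2 : ∀ i, NTE_b i a = true := fun i => by simpa using hcon i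
      have e0 := h2 0
      have e1 := h2 1
      have e2 := h2 2
      obtain ⟨a0, a1, a2⟩ := a
      have f0 : a0 = true := e0
      have f1 : a1 = true := e1
      have f2 : a2 = true := e2
      rw [f0, f1, f2]
    obtain ⟨i, hi⟩ := h1
    refine ⟨i, fun x _ x' _ => ?_⟩
    rw [NTE_phi_false R hi, NTE_phi_false R hi]
  κ := NTE_k
  cube := NTE_cube
  lc := by
    intro i a u hu _
    have h0 : wnd 0 ∈ wnd '' Icc 7 8 := by
      have := wnd_per 0 1
      rw [← this]
      exact ⟨0 + 8 * ((1 : ℤ) : ℝ), by norm_num, rfl⟩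
    have key : ∀ u ∈ closedBall (0 : Fin 3 → ℝ) 2, NTE_phi R i a (NTE_k u) = 0 := by
      intro u hu
      unfold NTE_phi
      rw [if_neg]
      rintro ⟨-, h⟩
      apply NTE_k_ne hu i
      rw [h]
      exact h0
    refine ⟨univ, Filter.univ_mem, fun u' hu' _ => ?_⟩
    rw [key u hu, key u' hu'.2]
  disj := by
    intro u hu h
    have h1 := h 0
    have h3 : NTE_b 0 (true, true, true) = true := rfl
    rw [h3, NTE_S_true] at h1
    exact NTE_k_ne hu 0 h1

theorem T3_evc (R : Type*) [CommRing R] :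
    ∃ D : EvC 3 T3 R,
      (∀ i a, (∀ x ∈ D.A a, co3 i x ∈ wnd '' Icc 7 8 ∧
            D.φ i a x = open Classical in if co3 i x = wnd 0 then 1 else 0) ∨
          ∀ x ∈ D.A a, co3 i x ∈ wnd '' Icc 0 7 ∧ D.φ i a x = 0) ∧
      (∀ x ∈ D.A D.o, ∀ i, co3 i x ∈ wnd '' Icc 7 8) ∧
      ∀ v ∈ closedBall (0 : Fin 3 → ℝ) 2, ∀ i, co3 i (D.κ v) ∈ wnd '' Icc (11 / 4) (13 / 4) := by
  refine ⟨NTE_D R, ?_, ?_, ?_⟩
  · intro i a
    rcases Bool.eq_false_or_eq_true (NTE_b i a) with h | h
    · left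
      intro x hx
      have h1 : co3 i x ∈ NTE_S (NTE_b i a) := hx i
      rw [h, NTE_S_true] at h1
      exact ⟨h1, NTE_phi_true R h x⟩
    · right
      intro x hx
      have h1 : co3 i x ∈ NTE_S (NTE_b i a) := hx i
      rw [h, NTE_S_false] at h1
      exact ⟨h1, NTE_phi_false R h x⟩
  · intro x hx i
    have h3 : NTE_b i (true, true, true) = true := by fin_cases i <;> rfl
    have h1 : co3 i x ∈ NTE_S (NTE_b i (true, true, true)) := hx i
    rw [h3, NTE_S_true] at h1
    exact h1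
  · intro v hv i
    show co3 i (NTE_k v) ∈ wnd '' Icc (11 / 4) (13 / 4)
    rw [NTE_k_co]
    exact ⟨_, NTE_k_mem hv i, rfl⟩

end Pool.H54.UB
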