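import Pool.Agent.H54.UB.NTB
import Pool.Agent.H54.UB.NTE

/-!
# Row NTF: evaluation data on the base manifold

* restrict the data of `T3_evc` to `A3` (`EvC.restrict`; `A3` is a polyhedron by `Tube.poly_remove`): a point
  of `D.A D.o` has all coordinates in `wnd '' Icc 7 8`, a point of the cube has all coordinates in
  `wnd '' Icc (11/4) (13/4)`, points of the closed tubes have a coordinate in `wnd '' Icc (3/4) (5/4)`.
* `EvB 3 B3`: index type `Fin 3 × Bool`, pieces `(K × {j}) × closedBall 0 1`, `K = wnd '' Icc 7 8` (true) or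
  `wnd '' Icc 0 7` (false).  Local primitives: `φ i (j, _) = 0` for `i ≠ j`.  For `i = j`: if `K` is given by
  `s ∈ [7,8]` resp. `s ∈ [0,7]` (the parameter of `z` in that interval) and `w = wnd t ∈ gam` put
  `φ j (j,K) ((z,j),w) = (⌊(a s + p t)/8⌋ : ZMod p)` (independent of the choice of `t`, as `t + 8` adds
  `p = 0`), and for `w ∉ gam` put `a` if `K` is the slab and `z = wnd 0`, and `0` otherwise.
  compat: on the overlap `z = wnd 7`: difference `0`; on `z = wnd 0` (`s = 8`, resp. `s = 0`): difference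
  `⌊(8a + p t)/8⌋ - ⌊p t/8⌋ = a`, and `a - 0 = a` for `w ∉ gam`.
* cross condition at `y = ((wnd s, j), wnd t)`: `phi3 T y` has `j`-th coordinate `wnd (a s + p t)`, the other
  coordinates are in `wnd '' Icc (3/4) (5/4)` or `wnd '' Icc (11/4) (13/4)`, not in `wnd '' Icc 7 8`: so for
  `i ≠ j` the second alternative holds and both functions are `0`.  For `i = j`: on
  `{a s + p t ∈ ⋃ [8k, 8k+7]}` (`rest`) `⌊(a s + p t)/8⌋` is locally constant; on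
  `{a s + p t ∈ ⋃ [8k+7, 8k+8]}` (`slab`) the difference
  `(if wnd (a s + p t) = wnd 0 then 1 else 0) - ⌊(a s + p t)/8⌋ = -k` is locally constant.
  Near a point of `K × gam` every point is `(wnd s', wnd t')` with `s'` in the interval of `K` near `s` and
  `t'` near `t`.  (Different `j` are separated by the real coordinate.)
* `Glued.evc`.
-/

open Set Topology Metric

namespace Pool.H54.UB

theorem NTF_int {k : ℤ} (h1 : (-8 : ℝ) < 8 * k) (h2 : (8 : ℝ) * k < 8) : k = 0 := by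
  have h3 : (-1 : ℝ) < k := by linarith
  have h4 : (k : ℝ) < 1 := by linarith
  have h5 : (-1 : ℤ) < k := by exact_mod_cast h3
  have h6 : k < 1 := by exact_mod_cast h4
  omega

theorem NTF_eq {s t : ℝ} (h : wnd s = wnd t) (h1 : s < t + 8) (h2 : t < s + 8) : s = t := by
  obtain ⟨k, hk⟩ := wnd_eq_iff.1 h
  have h3 : k = 0 := NTF_int (by linarith) (by linarith)
  rw [h3] at hk
  push_cast at hk
  linarith

noncomputable def NTF_lo (b : Bool) : ℝ := cond b 7 0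
noncomputable def NTF_hi (b : Bool) : ℝ := cond b 8 7
def NTF_I (b : Bool) : Set ℝ := Icc (NTF_lo b) (NTF_hi b)

theorem NTF_len (b : Bool) : NTF_hi b ≤ NTF_lo b + 7 := by
  cases b <;> norm_num [NTF_lo, NTF_hi]

theorem NTF_inj (b : Bool) : InjOn wnd (NTF_I b) := wnd_injOn (by have := NTF_len b; linarith)

noncomputable def NTF_par (b : Bool) (z : V2) : ℝ := Function.invFunOn wnd (NTF_I b) z

theorem NTF_par_wnd (b : Bool) {s : ℝ} (hs : s ∈ NTF_I b) : NTF_par b (wnd s) = s :=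
  (NTF_inj b).leftInvOn_invFunOn hs

noncomputable def NTF_fl (p : ℕ) (a : ℤ) (s t : ℝ) : ZMod p :=
  ((⌊((a : ℝ) * s + (p : ℝ) * t) / 8⌋ : ℤ) : ZMod p)

theorem NTF_fl_per (p : ℕ) (a : ℤ) (s t : ℝ) (k : ℤ) :
    NTF_fl p a s (t + 8 * k) = NTF_fl p a s t := by
  have h : ((a : ℝ) * s + (p : ℝ) * (t + 8 * k)) / 8 =
      ((a : ℝ) * s + (p : ℝ) * t) / 8 + (((p : ℤ) * k : ℤ) : ℝ) := by
    push_cast
    ring
  rw [NTF_fl, NTF_fl, h, Int.floor_add_intCast]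
  push_cast
  rw [ZMod.natCast_self, zero_mul, add_zero]

theorem NTF_fl_eight (p : ℕ) (a : ℤ) (t : ℝ) :
    NTF_fl p a 8 t = NTF_fl p a 0 t + (a : ZMod p) := by
  have h : ((a : ℝ) * 8 + (p : ℝ) * t) / 8 = ((a : ℝ) * 0 + (p : ℝ) * t) / 8 + ((a : ℤ) : ℝ) := by
    ring
  rw [NTF_fl, NTF_fl, h, Int.floor_add_intCast]
  push_cast
  rfl

open Classical in
noncomputable def NTF_phi (p : ℕ) (a : ℤ) (i : Fin 3) (c : Fin 3 × Bool)
    (q : (V2 × ℝ) × V2) : ZMod p :=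
  if i = c.1 then
    (if q.2 ∈ gam then NTF_fl p a (NTF_par c.2 q.1.1) (ang q.2)
      else if c.2 = true ∧ q.1.1 = wnd 0 then (a : ZMod p) else 0)
  else 0

theorem NTF_phi_ne (p : ℕ) (a : ℤ) {i : Fin 3} {c : Fin 3 × Bool} (h : i ≠ c.1)
    (q : (V2 × ℝ) × V2) : NTF_phi p a i c q = 0 := by
  rw [NTF_phi, if_neg h]

theorem NTF_phi_gam (p : ℕ) (a : ℤ) (j : Fin 3) (b : Bool) {s : ℝ} (hs : s ∈ NTF_I b) (r t : ℝ) :
    NTF_phi p a j (j, b) ((wnd s, r), wnd t) = NTF_fl p a s t := by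
  obtain ⟨k, hk⟩ := ang_wnd t
  rw [NTF_phi, if_pos rfl, if_pos (wnd_mem t)]
  show NTF_fl p a (NTF_par b (wnd s)) (ang (wnd t)) = _
  rw [NTF_par_wnd b hs, hk, NTF_fl_per]

def NTF_A (c : Fin 3 × Bool) : Set ((V2 × ℝ) × V2) :=
  ((wnd '' NTF_I c.2) ×ˢ {((c.1 : ℕ) : ℝ)}) ×ˢ closedBall (0 : V2) 1

theorem NTF_J3 (r : ℝ) : r ∈ J3 ↔ ∃ j : Fin 3, r = ((j : ℕ) : ℝ) := by
  unfold J3
  constructor
  · rintro (h | h | h)
    · exact ⟨0, by rw [h]; norm_num⟩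
    · exact ⟨1, by rw [h]; norm_num⟩
    · refine ⟨2, ?_⟩
      rw [mem_singleton_iff.1 h]
      norm_num
  · rintro ⟨j, rfl⟩
    fin_cases j <;> norm_num

theorem NTF_cover : B3 = ⋃ c, NTF_A c := by
  ext ⟨⟨z, r⟩, w⟩
  simp only [B3, NTF_A, mem_iUnion, mem_prod, mem_singleton_iff]
  constructor
  · rintro ⟨⟨hz, hr⟩, hw⟩
    obtain ⟨j, hj⟩ := (NTF_J3 r).1 hr
    obtain ⟨s, hs, rfl⟩ := wnd_surj 0 hz
    rcases le_total s 7 with h7 | h7
    · exact ⟨(j, false), ⟨⟨s, ⟨hs.1, h7⟩, rfl⟩, hj⟩, hw⟩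
    · refine ⟨(j, true), ⟨⟨s, ⟨h7, ?_⟩, rfl⟩, hj⟩, hw⟩
      have h8 := hs.2
      show s ≤ 8
      linarith
  · rintro ⟨c, ⟨⟨s, hs, rfl⟩, hr⟩, hw⟩
    exact ⟨⟨wnd_mem s, (NTF_J3 r).2 ⟨_, hr⟩⟩, hw⟩

theorem NTF_two {z : V2} (h1 : z ∈ wnd '' NTF_I true) (h2 : z ∈ wnd '' NTF_I false) :
    (z = wnd 7 ∧ NTF_par true z = 7 ∧ NTF_par false z = 7) ∨
      (z = wnd 0 ∧ NTF_par true z = 8 ∧ NTF_par false z = 0) := by
  obtain ⟨s, hs, rfl⟩ := h1
  obtain ⟨s', hs', h⟩ := h2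
  rw [NTF_par_wnd true hs, ← h, NTF_par_wnd false hs']
  have a1 : 7 ≤ s := hs.1
  have a2 : s ≤ 8 := hs.2
  have a3 : 0 ≤ s' := hs'.1
  have a4 : s' ≤ 7 := hs'.2
  by_cases h8 : s < s' + 8
  · have h3 := NTF_eq h.symm h8 (by linarith)
    have h4 : s' = 7 := by linarith
    exact Or.inl ⟨by rw [h4], by linarith, h4⟩
  · have h4 : s' = 0 := by linarith
    exact Or.inr ⟨by rw [h4], by linarith, h4⟩

theorem NTF_ne : wnd 0 ≠ wnd 7 := by
  intro h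
  have := NTF_eq h (by norm_num) (by norm_num)
  norm_num at this

open Classical in
theorem NTF_rel (p : ℕ) (a : ℤ) (j : Fin 3) {y : (V2 × ℝ) × V2} (h1 : y.1.1 ∈ wnd '' NTF_I true)
    (h2 : y.1.1 ∈ wnd '' NTF_I false) :
    NTF_phi p a j (j, true) y =
      NTF_phi p a j (j, false) y + (if y.1.1 = wnd 7 then (0 : ZMod p) else (a : ZMod p)) := by
  rw [NTF_phi, NTF_phi, if_pos rfl, if_pos rfl]
  by_cases hy : y.2 ∈ gam
  · rw [if_pos hy, if_pos hy]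
    show NTF_fl p a (NTF_par true y.1.1) (ang y.2) =
      NTF_fl p a (NTF_par false y.1.1) (ang y.2) + _
    rcases NTF_two h1 h2 with ⟨h3, h4, h5⟩ | ⟨h3, h4, h5⟩
    · rw [h4, h5, if_pos h3, add_zero]
    · rw [h4, h5, if_neg (by rw [h3]; exact NTF_ne), NTF_fl_eight]
  · rw [if_neg hy, if_neg hy, if_neg (c := ((j, false) : Fin 3 × Bool).2 = true ∧ y.1.1 = wnd 0)
      (fun h => Bool.false_ne_true h.1), zero_add]
    rcases NTF_two h1 h2 with ⟨h3, -, -⟩ | ⟨h3, -, -⟩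
    · rw [if_pos h3, if_neg]
      rintro ⟨-, h⟩
      exact NTF_ne (h.symm.trans h3)
    · rw [if_pos ⟨rfl, h3⟩, if_neg (by rw [h3]; exact NTF_ne)]

theorem NTF_sep {z₀ : V2} (X : Type*) [TopologicalSpace X] {f : X → V2} (hf : Continuous f) {x : X}
    (hx : f x = z₀) : ∃ U ∈ 𝓝 x, ∀ y ∈ U, f y ∈ ({wnd 0, wnd 7} : Set V2) → f y = z₀ := by
  have hfin : (({wnd 0, wnd 7} : Set V2) \ {z₀}).Finite := (Set.toFinite _).sdiff
  refine ⟨f ⁻¹' (({wnd 0, wnd 7} : Set V2) \ {z₀})ᶜ,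
    hf.continuousAt.preimage_mem_nhds (hfin.isClosed.isOpen_compl.mem_nhds ?_), ?_⟩
  · rw [hx]
    exact fun h => h.2 rfl
  · intro y hy h
    by_contra hne
    exact hy ⟨h, hne⟩

theorem NTF_two' {z : V2} {b b' : Bool} (hb : b ≠ b') (h1 : z ∈ wnd '' NTF_I b)
    (h2 : z ∈ wnd '' NTF_I b') : z ∈ ({wnd 0, wnd 7} : Set V2) := by
  have h3 : z ∈ wnd '' NTF_I true ∧ z ∈ wnd '' NTF_I false := by
    cases b <;> cases b'
    · exact absurd rfl hb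
    · exact ⟨h2, h1⟩
    · exact ⟨h1, h2⟩
    · exact absurd rfl hb
  rcases NTF_two h3.1 h3.2 with ⟨h, -, -⟩ | ⟨h, -, -⟩
  · exact Or.inr h
  · exact Or.inl h

open Classical in
theorem NTF_compat (p : ℕ) (a : ℤ) (i : Fin 3) (c c' : Fin 3 × Bool) :
    ∀ x ∈ NTF_A c ∩ NTF_A c', ∃ U ∈ 𝓝 x, ∀ y ∈ U ∩ (NTF_A c ∩ NTF_A c'),
      NTF_phi p a i c y - NTF_phi p a i c' y = NTF_phi p a i c x - NTF_phi p a i c' x := by
  rintro x ⟨hx, hx'⟩
  obtain ⟨j, b⟩ := c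
  obtain ⟨j', b'⟩ := c'
  have hj : j = j' := by
    have h1 : x.1.2 = ((j : ℕ) : ℝ) := hx.1.2
    have h2 : x.1.2 = ((j' : ℕ) : ℝ) := hx'.1.2
    rw [h1] at h2
    exact Fin.ext (by exact_mod_cast h2)
  subst hj
  by_cases hij : i = j
  · subst hij
    by_cases hb : b = b'
    · subst hb
      exact ⟨univ, Filter.univ_mem, fun y _ => by rw [sub_self, sub_self]⟩
    · obtain ⟨U, hU, h⟩ := NTF_sep ((V2 × ℝ) × V2) (continuous_fst.comp continuous_fst)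
        (x := x) rfl
      refine ⟨U, hU, ?_⟩
      rintro y ⟨hyU, hy, hy'⟩
      have h1 : y.1.1 = x.1.1 := h y hyU (NTF_two' hb hy.1.1 hy'.1.1)
      cases b <;> cases b'
      · exact absurd rfl hb
      · have e1 := NTF_rel p a i hy'.1.1 hy.1.1
        have e2 := NTF_rel p a i hx'.1.1 hx.1.1
        rw [e1, e2, h1]
        ring
      · have e1 := NTF_rel p a i hy.1.1 hy'.1.1
        have e2 := NTF_rel p a i hx.1.1 hx'.1.1
        rw [e1, e2, h1]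
        ring
      · exact absurd rfl hb
  · refine ⟨univ, Filter.univ_mem, fun y _ => ?_⟩
    rw [NTF_phi_ne p a (c := (j, b)) hij, NTF_phi_ne p a (c := (j, b')) hij,
      NTF_phi_ne p a (c := (j, b)) hij, NTF_phi_ne p a (c := (j, b')) hij]

noncomputable def NTF_B (p : ℕ) (a : ℤ) : EvB 3 B3 (ZMod p) where
  ι := Fin 3 × Bool
  fin := inferInstance
  A := NTF_A
  poly := fun c => ((((wnd_pl _ _).image).prod (IsPoly.singleton _)).prod (isPoly_closedBall 2 1))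
  cover := NTF_cover
  φ := NTF_phi p a
  compat := NTF_compat p a
  off := fun c => by
    obtain ⟨i, hi⟩ : ∃ i : Fin 3, i ≠ c.1 := exists_ne c.1
    exact ⟨i, fun x _ x' _ => by rw [NTF_phi_ne p a hi, NTF_phi_ne p a hi]⟩

theorem NTF_near (b : Bool) {s₀ : ℝ} (hs₀ : s₀ ∈ NTF_I b) {ε : ℝ} (h0 : 0 < ε) (h1 : ε ≤ 1) :
    ∀ᶠ z in 𝓝 (wnd s₀), ∀ s ∈ NTF_I b, wnd s = z → |s - s₀| < ε := by
  have h := wnd_open s₀ h0
  rw [mem_nhdsWithin_iff_eventually] at h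
  filter_upwards [h] with z hz s hs hsz
  obtain ⟨t, ht, htz⟩ := hz (hsz ▸ wnd_mem s)
  have hl := NTF_len b
  have a1 := hs.1
  have a2 := hs.2
  have a3 := hs₀.1
  have a4 := hs₀.2
  have a5 := ht.1
  have a6 := ht.2
  have e : s = t := NTF_eq (hsz.trans htz.symm) (by linarith) (by linarith)
  rw [e, abs_lt]
  constructor <;> linarith

theorem NTF_near' (t₀ : ℝ) {ε : ℝ} (h0 : 0 < ε) :
    ∀ᶠ w in 𝓝 (wnd t₀), w ∈ gam → ∃ t, wnd t = w ∧ |t - t₀| < ε := by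
  have h := wnd_open t₀ h0
  rw [mem_nhdsWithin_iff_eventually] at h
  filter_upwards [h] with w hw hwg
  obtain ⟨t, ht, htw⟩ := hw hwg
  have a5 := ht.1
  have a6 := ht.2
  refine ⟨t, htw, ?_⟩
  rw [abs_lt]
  constructor <;> linarith

theorem NTF_floor {v : ℝ} (h0 : 0 ≤ v) (h1 : v < 8) (k : ℤ) : ⌊(v + 8 * k) / 8⌋ = k := by
  rw [Int.floor_eq_iff]
  constructor <;> linarith

theorem NTF_rest {u u' : ℝ} (h : wnd u ∈ wnd '' Icc 0 7) (h' : wnd u' ∈ wnd '' Icc 0 7)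
    (hd : |u' - u| < 1) : ⌊u' / 8⌋ = ⌊u / 8⌋ := by
  obtain ⟨v, hv, e⟩ := h
  obtain ⟨v', hv', e'⟩ := h'
  obtain ⟨k, hk⟩ := wnd_eq_iff.1 e
  obtain ⟨k', hk'⟩ := wnd_eq_iff.1 e'
  rw [abs_lt] at hd
  have a1 := hv.1
  have a2 := hv.2
  have a3 := hv'.1
  have a4 := hv'.2
  have h3 : k' - k = 0 := NTF_int (by push_cast; linarith) (by push_cast; linarith)
  rw [hk, hk', NTF_floor a1 (by linarith), NTF_floor a3 (by linarith)]
  omega

open Classical in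
theorem NTF_slab1 (p : ℕ) {v : ℝ} (h7 : 7 ≤ v) (h8 : v ≤ 8) (k : ℤ) :
    (if wnd (v + 8 * k) = wnd 0 then (1 : ZMod p) else 0) -
      ((⌊(v + 8 * k) / 8⌋ : ℤ) : ZMod p) = -((k : ℤ) : ZMod p) := by
  rw [wnd_per]
  by_cases h : v = 8
  · have e1 : wnd v = wnd 0 := by
      rw [h]
      have := wnd_per 0 1
      rw [← this]
      norm_num
    have e2 : (v + 8 * k) / 8 = 0 + ((k + 1 : ℤ) : ℝ) := by
      rw [h]
      push_cast
      ring
    rw [if_pos e1, e2, Int.floor_add_intCast, Int.floor_zero]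
    push_cast
    ring
  · have h9 : v < 8 := lt_of_le_of_ne h8 h
    have e1 : wnd v ≠ wnd 0 := by
      intro h1
      have := NTF_eq h1 (by linarith) (by linarith)
      linarith
    rw [if_neg e1, NTF_floor (by linarith) h9, zero_sub]

open Classical in
theorem NTF_slab (p : ℕ) {u u' : ℝ} (h : wnd u ∈ wnd '' Icc 7 8) (h' : wnd u' ∈ wnd '' Icc 7 8)
    (hd : |u' - u| < 1) :
    (if wnd u' = wnd 0 then (1 : ZMod p) else 0) - ((⌊u' / 8⌋ : ℤ) : ZMod p) =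
      (if wnd u = wnd 0 then (1 : ZMod p) else 0) - ((⌊u / 8⌋ : ℤ) : ZMod p) := by
  obtain ⟨v, hv, e⟩ := h
  obtain ⟨v', hv', e'⟩ := h'
  obtain ⟨k, hk⟩ := wnd_eq_iff.1 e
  obtain ⟨k', hk'⟩ := wnd_eq_iff.1 e'
  rw [abs_lt] at hd
  have a1 := hv.1
  have a2 := hv.2
  have a3 := hv'.1
  have a4 := hv'.2
  have h3 : k' - k = 0 := NTF_int (by push_cast; linarith) (by push_cast; linarith)
  have h4 : k' = k := by omega
  rw [hk, hk', NTF_slab1 p a1 a2, NTF_slab1 p a3 a4, h4]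

theorem NTF_fin (j : Fin 3) : j = 0 ∨ j = 1 ∨ j = 2 := by
  fin_cases j <;> simp

/-- coordinates of the image of the gluing map -/
theorem NTF_co {T : V2 × V2 → V2 × V2} (hTm : MapsTo T (gam ×ˢ gam) (gam ×ˢ gam))
    {z w : V2} (hz : z ∈ gam) (hw : w ∈ gam) (j : Fin 3) :
    co3 j (phi3 T ((z, ((j : ℕ) : ℝ)), w)) = (T (z, w)).1 ∧
    (∃ i, i ≠ j ∧ co3 i (phi3 T ((z, ((j : ℕ) : ℝ)), w)) ∈ wnd '' Icc (3 / 4) (5 / 4)) ∧
    ∀ i, i ≠ j → co3 i (phi3 T ((z, ((j : ℕ) : ℝ)), w)) ∈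
      wnd '' Icc (3 / 4) (5 / 4) ∪ wnd '' Icc (11 / 4) (13 / 4) := by
  have h2 : (T (z, w)).2 ∈ gam := (hTm (show (z, w) ∈ gam ×ˢ gam from ⟨hz, hw⟩)).2
  rcases hTT : T (z, w) with ⟨z', w'⟩
  rw [hTT] at h2
  have hn : ‖w'‖ = 1 := mem_sphere_zero_iff_norm.1 h2
  have hb : ∀ i, |w' i| ≤ 1 := by
    intro i
    have := norm_le_pi_norm w' i
    rw [hn, Real.norm_eq_abs] at this
    exact this
  have b0 := abs_le.1 (hb 0)
  have b1 := abs_le.1 (hb 1)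
  have c1 : wnd (1 + w' 0 / 4) ∈ wnd '' Icc (3 / 4) (5 / 4) :=
    ⟨_, ⟨by linarith, by linarith⟩, rfl⟩
  have c3 : wnd (3 + w' 1 / 4) ∈ wnd '' Icc (11 / 4) (13 / 4) :=
    ⟨_, ⟨by linarith, by linarith⟩, rfl⟩
  rcases NTF_fin j with rfl | rfl | rfl
  · have e : phi3 T ((z, (((0 : Fin 3) : ℕ) : ℝ)), w) =
        (z', wnd (1 + w' 0 / 4), wnd (3 + w' 1 / 4)) := by
      simp [phi3, hTT, tub3, tub0]
    rw [e]
    refine ⟨rfl, ⟨1, by decide, c1⟩, fun i hi => ?_⟩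
    rcases NTF_fin i with rfl | rfl | rfl
    · exact absurd rfl hi
    · exact Or.inl c1
    · exact Or.inr c3
  · have e : phi3 T ((z, (((1 : Fin 3) : ℕ) : ℝ)), w) =
        (wnd (3 + w' 1 / 4), z', wnd (1 + w' 0 / 4)) := by
      simp [phi3, hTT, tub3, tub0, rho]
    rw [e]
    refine ⟨rfl, ⟨2, by decide, c1⟩, fun i hi => ?_⟩
    rcases NTF_fin i with rfl | rfl | rfl
    · exact Or.inr c3
    · exact absurd rfl hi
    · exact Or.inl c1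
  · have e : phi3 T ((z, (((2 : Fin 3) : ℕ) : ℝ)), w) =
        (wnd (1 + w' 0 / 4), wnd (3 + w' 1 / 4), z') := by
      simp [phi3, hTT, tub3, tub0, rho]
    rw [e]
    refine ⟨rfl, ⟨0, by decide, c1⟩, fun i hi => ?_⟩
    rcases NTF_fin i with rfl | rfl | rfl
    · exact Or.inl c1
    · exact Or.inr c3
    · exact absurd rfl hi

theorem NTF_d78_1 {z : V2} (h : z ∈ wnd '' Icc 7 8) (h' : z ∈ wnd '' Icc (3 / 4) (5 / 4)) :
    False := by
  obtain ⟨s, hs, rfl⟩ := h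
  obtain ⟨t, ht, h⟩ := h'
  have a1 := hs.1
  have a2 := hs.2
  have a3 := ht.1
  have a4 := ht.2
  have := NTF_eq h (by linarith) (by linarith)
  linarith

theorem NTF_d78_3 {z : V2} (h : z ∈ wnd '' Icc 7 8) (h' : z ∈ wnd '' Icc (11 / 4) (13 / 4)) :
    False := by
  obtain ⟨s, hs, rfl⟩ := h
  obtain ⟨t, ht, h⟩ := h'
  have a1 := hs.1
  have a2 := hs.2
  have a3 := ht.1
  have a4 := ht.2
  have := NTF_eq h (by linarith) (by linarith)
  linarith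

theorem NTF_d13 {z : V2} (h : z ∈ wnd '' Icc (3 / 4) (5 / 4))
    (h' : z ∈ wnd '' Icc (11 / 4) (13 / 4)) : False := by
  obtain ⟨s, hs, rfl⟩ := h
  obtain ⟨t, ht, h⟩ := h'
  have a1 := hs.1
  have a2 := hs.2
  have a3 := ht.1
  have a4 := ht.2
  have := NTF_eq h (by linarith) (by linarith)
  linarith

theorem NTF_ar1 {z : V2} (h : z ∈ ar1) : z ∈ wnd '' Icc (3 / 4) (5 / 4) :=
  image_mono Ioo_subset_Icc_self h

theorem NTF_ar3 {z : V2} (h : z ∈ ar3) : z ∈ wnd '' Icc (11 / 4) (13 / 4) :=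
  image_mono Ioo_subset_Icc_self h

/-- a point of the removed tubes has a coordinate in the first arc -/
theorem NTF_mem {x : V6} (h : x ∈ tub3 '' ((gam ×ˢ J3) ×ˢ ball (0 : V2) 1)) :
    ∃ i, co3 i x ∈ wnd '' Icc (3 / 4) (5 / 4) := by
  rcases (mem_tub3 x).1 h with ⟨-, h1, -⟩ | ⟨-, h1, -⟩ | ⟨-, h1, -⟩
  · exact ⟨1, NTF_ar1 h1⟩
  · exact ⟨2, NTF_ar1 h1⟩
  · exact ⟨0, NTF_ar1 h1⟩

open Classical in
theorem NTF_cross (p : ℕ) (l : ℕ) {a c : ℤ} {T : V2 × V2 → V2 × V2}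
    (hTm : MapsTo T (gam ×ˢ gam) (gam ×ˢ gam))
    (hTf : ∀ s t : ℝ, T (wnd s, wnd t) = (wnd (a * s + p * t), wnd (c * s + l * t)))
    (i : Fin 3) {A : Set V6} {f : V6 → ZMod p}
    (hf : (∀ x ∈ A, co3 i x ∈ wnd '' Icc 7 8 ∧ f x = if co3 i x = wnd 0 then 1 else 0) ∨
      ∀ x ∈ A, co3 i x ∈ wnd '' Icc 0 7 ∧ f x = 0) (d : Fin 3 × Bool) :
    ∀ y ∈ DB3, y ∈ NTF_A d → phi3 T y ∈ A → ∃ U ∈ 𝓝 y, ∀ y' ∈ U ∩ DB3,
      y' ∈ NTF_A d → phi3 T y' ∈ A →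
      f (phi3 T y') - NTF_phi p a i d y' = f (phi3 T y) - NTF_phi p a i d y := by
  obtain ⟨j, b⟩ := d
  by_cases hij : i = j
  · subst hij
    rintro ⟨⟨z, r⟩, w⟩ hy hyd hyA
    obtain ⟨s₀, hs₀, hz⟩ : z ∈ wnd '' NTF_I b := hyd.1.1
    have hr : r = ((i : ℕ) : ℝ) := hyd.1.2
    obtain ⟨t₀, -, hw⟩ := wnd_surj 0 (show w ∈ gam from hy.2)
    subst hz hr hw
    obtain ⟨ε, hε0, hε1, hε⟩ : ∃ ε : ℝ, 0 < ε ∧ ε ≤ 1 ∧ (|(a : ℝ)| + p) * ε < 1 := by
      refine ⟨(|(a : ℝ)| + p + 1)⁻¹, by positivity, ?_, ?_⟩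
      · exact inv_le_one_of_one_le₀ (by have := abs_nonneg (a : ℝ); linarith [Nat.cast_nonneg (α := ℝ) p])
      · rw [← div_eq_mul_inv, div_lt_one (by positivity)]
        linarith
    have hc1 : Continuous (fun q : (V2 × ℝ) × V2 => q.1.1) := continuous_fst.comp continuous_fst
    refine ⟨{q | (∀ s ∈ NTF_I b, wnd s = q.1.1 → |s - s₀| < ε) ∧
      (q.2 ∈ gam → ∃ t, wnd t = q.2 ∧ |t - t₀| < ε)}, ?_, ?_⟩
    · have q1 : Filter.Tendsto (fun q : (V2 × ℝ) × V2 => q.1.1)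
          (𝓝 ((wnd s₀, ((i : ℕ) : ℝ)), wnd t₀)) (𝓝 (wnd s₀)) := hc1.tendsto _
      have q2 : Filter.Tendsto (fun q : (V2 × ℝ) × V2 => q.2)
          (𝓝 ((wnd s₀, ((i : ℕ) : ℝ)), wnd t₀)) (𝓝 (wnd t₀)) := continuous_snd.tendsto _
      exact Filter.inter_mem (q1.eventually (NTF_near b hs₀ hε0 hε1))
        (q2.eventually (NTF_near' t₀ hε0))
    rintro ⟨⟨z', r'⟩, w'⟩ ⟨⟨hU1, hU2⟩, hy'⟩ hyd' hyA'
    obtain ⟨s, hs, hz'⟩ : z' ∈ wnd '' NTF_I b := hyd'.1.1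
    have hr' : r' = ((i : ℕ) : ℝ) := hyd'.1.2
    obtain ⟨t, hw', ht⟩ := hU2 hy'.2
    have hss := hU1 s hs hz'
    dsimp only at hw'
    subst hz' hr' hw'
    have hu : |(a * s + p * t) - (a * s₀ + p * t₀)| < 1 := by
      have e : ((a : ℝ) * s + p * t) - (a * s₀ + p * t₀) = a * (s - s₀) + p * (t - t₀) := by ring
      rw [e]
      refine (abs_add_le _ _).trans_lt ?_
      rw [abs_mul, abs_mul, Nat.abs_cast]
      have h1 : |(a : ℝ)| * |s - s₀| ≤ |(a : ℝ)| * ε :=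
        mul_le_mul_of_nonneg_left hss.le (abs_nonneg _)
      have h2 : (p : ℝ) * |t - t₀| ≤ p * ε := mul_le_mul_of_nonneg_left ht.le (Nat.cast_nonneg p)
      linarith
    have k1 := (NTF_co hTm (wnd_mem s) (wnd_mem t) i).1
    have k0 := (NTF_co hTm (wnd_mem s₀) (wnd_mem t₀) i).1
    rw [hTf] at k1 k0
    rw [NTF_phi_gam p a i b hs, NTF_phi_gam p a i b hs₀]
    rcases hf with hf | hf
    · obtain ⟨m1, m2⟩ := hf _ hyA'
      obtain ⟨m3, m4⟩ := hf _ hyA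
      rw [m2, m4, k1, k0]
      rw [k1] at m1
      rw [k0] at m3
      exact NTF_slab p m3 m1 hu
    · obtain ⟨m1, m2⟩ := hf _ hyA'
      obtain ⟨m3, m4⟩ := hf _ hyA
      rw [k1] at m1
      rw [k0] at m3
      rw [m2, m4, NTF_fl, NTF_fl, NTF_rest m3 m1 hu]
  · have key : ∀ y ∈ DB3, y ∈ NTF_A (j, b) → phi3 T y ∈ A → f (phi3 T y) = 0 := by
      rintro ⟨⟨z, r⟩, w⟩ hy hyd hyA
      have hr : r = ((j : ℕ) : ℝ) := hyd.1.2
      subst hr
      have h1 := (NTF_co hTm (show z ∈ gam from hy.1.1) (show w ∈ gam from hy.2) j).2.2 i hij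
      rcases hf with hf | hf
      · exfalso
        rcases h1 with h1 | h1
        · exact NTF_d78_1 (hf _ hyA).1 h1
        · exact NTF_d78_3 (hf _ hyA).1 h1
      · exact (hf _ hyA).2
    intro y hy hyd hyA
    refine ⟨univ, Filter.univ_mem, fun y' hy' hyd' hyA' => ?_⟩
    rw [key y hy hyd hyA, key y' hy'.2 hyd' hyA', NTF_phi_ne p a (c := (j, b)) hij,
      NTF_phi_ne p a (c := (j, b)) hij]

theorem base_evc {H : Type*} [NormedAddCommGroup H] [NormedSpace ℝ H] [FiniteDimensional ℝ H]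
    (p : ℕ) [Fact p.Prime] (l : ℕ) {a c : ℤ} {T : V2 × V2 → V2 × V2}
    (hT : PLOn T (gam ×ˢ gam)) (hTm : MapsTo T (gam ×ˢ gam) (gam ×ˢ gam))
    (hTf : ∀ s t : ℝ, T (wnd s, wnd t) = (wnd (a * s + p * t), wnd (c * s + l * t)))
    {jA : V6 → H} {jB : (V2 × ℝ) × V2 → H} (g : Glued A3 B3 DB3 (phi3 T) jA jB)
    (hDB : IsPoly DB3) : Nonempty (EvC 3 (jA '' A3 ∪ jB '' B3) (ZMod p)) := by
  obtain ⟨D, hD1, hD2, hD3⟩ := T3_evc (ZMod p)
  have hA3 : IsPoly A3 := tub3_tube.poly_remove J3_mfd.1 T3_mfd.1 (by norm_num)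
  obtain ⟨D', hι, hκ', ho', hA'⟩ := D.restrict hA3 sdiff_subset (fun x hx => by
      refine ⟨?_, fun h => ?_⟩
      · rw [D.cover]
        exact mem_iUnion.2 ⟨_, hx⟩
      · obtain ⟨i, hi⟩ := NTF_mem h
        exact NTF_d78_1 (hD2 x hx i) hi)
    (fun v hv => by
      refine ⟨D.cube.maps hv, fun h => ?_⟩
      obtain ⟨i, hi⟩ := NTF_mem h
      exact NTF_d13 hi (hD3 v hv i))
  have hDBj : ∀ y ∈ DB3, ∃ j : Fin 3, y.1.2 = ((j : ℕ) : ℝ) := fun y hy => (NTF_J3 _).1 hy.1.2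
  have har : ∀ y ∈ DB3, ∃ i, co3 i (phi3 T y) ∈ wnd '' Icc (3 / 4) (5 / 4) := by
    rintro ⟨⟨z, r⟩, w⟩ hy
    obtain ⟨j, hj⟩ := hDBj _ hy
    have hr : r = ((j : ℕ) : ℝ) := hj
    subst hr
    obtain ⟨i, -, hi⟩ :=
      (NTF_co hTm (show z ∈ gam from hy.1.1) (show w ∈ gam from hy.2) j).2.1
    exact ⟨i, hi⟩
  refine g.evc hDB D' (NTF_B p a) ?_ ?_ ?_
  · intro i a' d
    obtain ⟨a₀, ha₀, hφ⟩ := hA' a'
    intro y hy hyd hyA
    have hf : (∀ x ∈ D'.A a', co3 i x ∈ wnd '' Icc 7 8 ∧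
        D'.φ i a' x = open Classical in if co3 i x = wnd 0 then 1 else 0) ∨
        ∀ x ∈ D'.A a', co3 i x ∈ wnd '' Icc 0 7 ∧ D'.φ i a' x = 0 := by
      rcases hD1 i a₀ with h | h
      · refine Or.inl fun x hx => ?_
        rw [ha₀] at hx
        rw [hφ]
        exact h x hx.1
      · refine Or.inr fun x hx => ?_
        rw [ha₀] at hx
        rw [hφ]
        exact h x hx.1
    exact NTF_cross p l hTm hTf i hf d y hy hyd hyA
  · intro y hy h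
    rw [ho'] at h
    obtain ⟨i, hi⟩ := har y hy
    exact NTF_d78_1 (hD2 _ h i) hi
  · rintro u hu ⟨y, hy, h⟩
    obtain ⟨i, hi⟩ := har y hy
    rw [h, hκ'] at hi
    exact NTF_d13 hi (hD3 u hu i)

end Pool.H54.UB
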