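import Pool.Agent.H54.UB.EVP
import Pool.Agent.H54.UB.EVG

/-!
# Row STE: evaluation data after the surgery

`X = N × gam`, tube `θ q = (D.κ (κ q).2, (κ q).1)`, `A = X \ θ (gam × ball 0 1)`.
* `D₁` on `X` from `EvC.prodGam D`; restrict to `A` (`EvC.restrict`, `Tube.poly_remove`): the distinguished
  piece `D₁.A D₁.o ⊆ D.A D.o × gam` does not meet the image of `θ` (`D.disj`), the new cube has first
  coordinate `D.κ w` with all coordinates of `w` at least `3/2 - 1/4 > 1`, so (injectivity of `D.κ`,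
  `n ≥ 1`) it does not meet the image of `θ`, whose points have `‖(κ q).2‖ ≤ 1`.
* `EvB` on `B = closedBall × sphere`: one piece, `φ (castSucc i) = 0`,
  `φ last (z, u) = (⌊p * ang z / 8⌋ : ZMod p)` (cast of an integer floor).
* cross condition for `y = (z, u) ∈ DB`: for `castSucc i`: the first clause of `prodGam` and continuity of
  `κ`.  For `last`, second alternative (`rest`): `(θ y).2 = wnd (p s) ∈ wnd '' Icc 0 7` for `z = wnd s`; the
  integer `⌊p s / 8⌋ mod p` (independent of the choice of `s`, since `s + 8` adds `p = 0`) is locally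
  constant on `{s : wnd (p s) ∈ wnd '' Icc 0 7} = {s : p s ∈ ⋃ [8k, 8k+7]}` and the fractional parts stay
  away from `1`.  First alternative (`slab`): `p s ∈ ⋃ [8k+7, 8k+8]`, the difference of
  `if wnd (p s) = wnd 0 then 1 else 0` and `⌊p s / 8⌋` equals `-k` on `[8k+7, 8k+8]`: locally constant.
  Near `z = wnd s` every point of `gam` is `wnd s'` with `s'` near `s` (`wnd_open`).
* `Glued.evc`.
-/

open Set Topology Metric

namespace Pool.H54.UB

variable {E H : Type*} [NormedAddCommGroup E] [NormedSpace ℝ E] [FiniteDimensional ℝ E]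
  [NormedAddCommGroup H] [NormedSpace ℝ H] [FiniteDimensional ℝ H]

private theorem STE_floor (p : ℕ) (s : ℝ) :
    ((⌊(p : ℝ) * ang (wnd s) / 8⌋ : ℤ) : ZMod p) = ((⌊(p : ℝ) * s / 8⌋ : ℤ) : ZMod p) := by
  obtain ⟨k, hk⟩ := ang_wnd s
  rw [hk]
  have h1 : (p : ℝ) * (s + 8 * k) / 8 = (p : ℝ) * s / 8 + (((p : ℤ) * k : ℤ) : ℝ) := by
    push_cast
    ring
  rw [h1, Int.floor_add_intCast]
  push_cast
  rw [ZMod.natCast_self, zero_mul, add_zero]

private theorem STE_slab (p : ℕ) {x : ℝ} (h : wnd x ∈ wnd '' Icc 7 8) :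
    ∃ k : ℤ, 8 * (k : ℝ) + 7 ≤ x ∧ x ≤ 8 * k + 8 ∧
      (open Classical in if wnd x = wnd 0 then (1 : ZMod p) else 0) - ((⌊x / 8⌋ : ℤ) : ZMod p) =
        -(k : ZMod p) := by
  classical
  obtain ⟨t, ht, he⟩ := h
  obtain ⟨k, hk⟩ := wnd_eq_iff.1 he
  refine ⟨k, by linarith [ht.1], by linarith [ht.2], ?_⟩
  rcases eq_or_lt_of_le ht.2 with h8 | h8
  · have h1 : wnd x = wnd 0 := by
      rw [hk, h8]
      have := wnd_per 0 (k + 1)
      rw [← this]
      congr 1
      push_cast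
      ring
    have h2 : ⌊x / 8⌋ = k + 1 := by
      rw [Int.floor_eq_iff]
      push_cast
      constructor
      · linarith
      · linarith
    rw [if_pos h1, h2]
    push_cast
    ring
  · have h1 : ¬ wnd x = wnd 0 := by
      intro hc
      obtain ⟨m, hm⟩ := wnd_eq_iff.1 hc
      have h3 : (0 : ℝ) = t + 8 * ((k + m : ℤ) : ℝ) := by
        push_cast
        linarith
      have h4 : ((k + m : ℤ) : ℝ) < 0 := by linarith [ht.1]
      have h5 : (-1 : ℝ) < ((k + m : ℤ) : ℝ) := by linarith [ht.1]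
      have h6 : k + m < 0 := by exact_mod_cast h4
      have h7 : -1 < k + m := by exact_mod_cast h5
      omega
    have h2 : ⌊x / 8⌋ = k := by
      rw [Int.floor_eq_iff]
      constructor
      · linarith [ht.1]
      · linarith
    rw [if_neg h1, h2]
    ring

private theorem STE_rest {x : ℝ} (h : wnd x ∈ wnd '' Icc 0 7) :
    ∃ k : ℤ, 8 * (k : ℝ) ≤ x ∧ x ≤ 8 * k + 7 ∧ ⌊x / 8⌋ = k := by
  obtain ⟨t, ht, he⟩ := h
  obtain ⟨k, hk⟩ := wnd_eq_iff.1 he
  refine ⟨k, by linarith [ht.1], by linarith [ht.2], ?_⟩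
  rw [Int.floor_eq_iff]
  constructor
  · linarith [ht.1]
  · linarith [ht.2]

private theorem STE_eq {k l : ℤ} (h1 : (8 : ℝ) * k - 8 < 8 * l) (h2 : (8 : ℝ) * l < 8 * k + 8) :
    k = l := by
  have h3 : ((k - 1 : ℤ) : ℝ) < l := by push_cast; linarith
  have h4 : (l : ℝ) < ((k + 1 : ℤ) : ℝ) := by push_cast; linarith
  have h5 : k - 1 < l := by exact_mod_cast h3
  have h6 : l < k + 1 := by exact_mod_cast h4
  omega

private theorem STE_lift {X : Type*} [TopologicalSpace X] {S V : Set X} {y : X}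
    (h : V ∈ 𝓝[S] y) : ∃ U ∈ 𝓝 y, ∀ y' ∈ U ∩ S, y' ∈ V := by
  obtain ⟨W, hW, hyW, hWsub⟩ := mem_nhdsWithin.1 h
  exact ⟨W, hW.mem_nhds hyW, fun y' hy' => hWsub hy'⟩

private noncomputable def STE_B {n : ℕ} (hn : 1 ≤ n) (p : ℕ) :
    EvB (n + 1) (closedBall (0 : V2) 1 ×ˢ sphere (0 : Fin n → ℝ) 1) (ZMod p) where
  ι := Unit
  fin := inferInstance
  A := fun _ => closedBall (0 : V2) 1 ×ˢ sphere (0 : Fin n → ℝ) 1
  poly := fun _ => (isPoly_closedBall 2 1).prod (isPoly_sphere n)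
  cover := (iUnion_const _).symm
  φ := fun i _ q => Fin.lastCases (motive := fun _ => ZMod p)
    ((⌊(p : ℝ) * ang q.1 / 8⌋ : ℤ) : ZMod p) (fun _ => 0) i
  compat := fun i a b x _ => ⟨univ, Filter.univ_mem, fun y _ => by rw [sub_self, sub_self]⟩
  off := fun a => ⟨Fin.castSucc ⟨0, hn⟩, fun x _ x' _ => by
    rw [Fin.lastCases_castSucc, Fin.lastCases_castSucc]⟩

theorem step_evc {n : ℕ} (hn : 1 ≤ n) {N : Set E} (hN : IsPoly N) (p : ℕ) [Fact p.Prime]
    (D : EvC n N (ZMod p)) {κ : V2 × (Fin n → ℝ) → V2 × (Fin n → ℝ)}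
    (hκ : Tube gam n (gam ×ˢ closedBall (0 : Fin n → ℝ) 2) κ)
    (hκ1 : MapsTo κ (gam ×ˢ closedBall (0 : Fin n → ℝ) 2) (gam ×ˢ closedBall (0 : Fin n → ℝ) 1))
    (hκ2 : ∀ (s : ℝ) (u : Fin n → ℝ), (κ (wnd s, u)).1 = wnd (p * s))
    (hθ : Tube gam n (N ×ˢ gam) (fun q => (D.κ (κ q).2, (κ q).1)))
    {jA : E × V2 → H} {jB : V2 × (Fin n → ℝ) → H}
    (g : Glued ((N ×ˢ gam) \ (fun q : V2 × (Fin n → ℝ) => (D.κ (κ q).2, (κ q).1)) ''
          (gam ×ˢ ball (0 : Fin n → ℝ) 1))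
        (closedBall (0 : V2) 1 ×ˢ sphere (0 : Fin n → ℝ) 1) (gam ×ˢ sphere (0 : Fin n → ℝ) 1)
        (fun q : V2 × (Fin n → ℝ) => (D.κ (κ q).2, (κ q).1)) jA jB) :
    Nonempty (EvC (n + 1) (jA '' ((N ×ˢ gam) \ (fun q : V2 × (Fin n → ℝ) =>
        (D.κ (κ q).2, (κ q).1)) '' (gam ×ˢ ball (0 : Fin n → ℝ) 1)) ∪
        jB '' (closedBall (0 : V2) 1 ×ˢ sphere (0 : Fin n → ℝ) 1)) (ZMod p)) := by
  classical
  have hp : 0 < p := (Fact.out : p.Prime).pos
  have hp' : (0 : ℝ) < p := by exact_mod_cast hp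
  obtain ⟨D₁, h1, h2, h3, h4⟩ := D.prodGam
  have hκm : ∀ q ∈ gam ×ˢ closedBall (0 : Fin n → ℝ) 2,
      (κ q).1 ∈ gam ∧ (κ q).2 ∈ closedBall (0 : Fin n → ℝ) 1 := fun q hq => hκ1 hq
  have h12 : closedBall (0 : Fin n → ℝ) 1 ⊆ closedBall (0 : Fin n → ℝ) 2 :=
    closedBall_subset_closedBall (by norm_num)
  have hb : gam ×ˢ ball (0 : Fin n → ℝ) 1 ⊆ gam ×ˢ closedBall (0 : Fin n → ℝ) 2 :=
    prod_mono_right (ball_subset_closedBall.trans h12)
  have hsp : gam ×ˢ sphere (0 : Fin n → ℝ) 1 ⊆ gam ×ˢ closedBall (0 : Fin n → ℝ) 2 :=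
    prod_mono_right (sphere_subset_closedBall.trans h12)
  have hAo : ∀ q ∈ gam ×ˢ closedBall (0 : Fin n → ℝ) 2,
      ((D.κ (κ q).2, (κ q).1) : E × V2) ∉ D₁.A D₁.o := by
    intro q hq hcon
    exact D.disj _ (h12 (hκm q hq).2) (h3 hcon).1
  have hκθ : ∀ v ∈ closedBall (0 : Fin (n + 1) → ℝ) 2,
      ∀ q ∈ gam ×ˢ closedBall (0 : Fin n → ℝ) 2,
      D₁.κ v ≠ ((D.κ (κ q).2, (κ q).1) : E × V2) := by
    intro v hv q hq he
    rw [h4] at he
    have e1 : D.κ ((fun _ => 3 / 2) + (1 / 8 : ℝ) • fun i => v i.succ) = D.κ (κ q).2 :=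
      congrArg Prod.fst he
    have hv' : ∀ i, |v i| ≤ 2 := by
      intro i
      have := norm_le_pi_norm v i
      rw [mem_closedBall_zero_iff] at hv
      rw [Real.norm_eq_abs] at this
      linarith
    have hw : ((fun _ => 3 / 2) + (1 / 8 : ℝ) • fun i => v i.succ) ∈
        closedBall (0 : Fin n → ℝ) 2 := by
      rw [mem_closedBall_zero_iff, pi_norm_le_iff_of_nonneg (by norm_num)]
      intro i
      have h5 := abs_le.1 (hv' i.succ)
      show ‖(3 / 2 : ℝ) + (1 / 8) * v i.succ‖ ≤ 2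
      rw [Real.norm_eq_abs, abs_le]
      constructor <;> linarith
    have e2 := D.cube.inj hw (h12 (hκm q hq).2) e1
    have h5 := (hκm q hq).2
    rw [← e2, mem_closedBall_zero_iff, pi_norm_le_iff_of_nonneg (by norm_num)] at h5
    have h6 : ‖(3 / 2 : ℝ) + (1 / 8) * v (Fin.succ ⟨0, hn⟩)‖ ≤ 1 := h5 ⟨0, hn⟩
    have h7 := abs_le.1 (hv' (Fin.succ ⟨0, hn⟩))
    rw [Real.norm_eq_abs] at h6
    have h8 := abs_le.1 h6
    linarith
  have hX : IsPoly (N ×ˢ gam) := hN.prod gam_mfd.1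
  have hA := hθ.poly_remove gam_mfd.1 hX hn
  obtain ⟨D₂, -, k1, k2, k3⟩ := D₁.restrict hA sdiff_subset (by
      intro x hx
      refine ⟨?_, ?_⟩
      · rw [D₁.cover]
        exact mem_iUnion.2 ⟨_, hx⟩
      · rintro ⟨q, hq, rfl⟩
        exact hAo q (hb hq) hx) (by
      intro v hv
      refine ⟨D₁.cube.maps hv, ?_⟩
      rintro ⟨q, hq, he⟩
      exact hκθ v hv q (hb hq) he.symm)
  refine g.evc (gam_mfd.1.prod (isPoly_sphere n)) D₂ (STE_B hn p) ?_ ?_ ?_
  · intro i a b y hy hyB hya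
    obtain ⟨a₁, ka, kφ⟩ := k3 a
    have hya1 : ((D.κ (κ y).2, (κ y).1) : E × V2) ∈ D₁.A a₁ := by
      have hya' : ((D.κ (κ y).2, (κ y).1) : E × V2) ∈ D₂.A a := hya
      rw [ka] at hya'
      exact hya'.1
    induction i using Fin.lastCases with
    | last =>
      obtain ⟨s, -, hs⟩ := wnd_surj 0 hy.1
      have hnb : {q : V2 × (Fin n → ℝ) | q.1 ∈ wnd '' Ioo (s - 1 / p) (s + 1 / p)} ∈
          𝓝[gam ×ˢ sphere (0 : Fin n → ℝ) 1] y := by
        have h5 := wnd_open s (ε := 1 / p) (by positivity)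
        rw [hs] at h5
        have h6 : Filter.Tendsto (fun q : V2 × (Fin n → ℝ) => q.1)
            (𝓝[gam ×ˢ sphere (0 : Fin n → ℝ) 1] y) (𝓝[gam] y.1) :=
          tendsto_nhdsWithin_of_tendsto_nhds_of_eventually_within _
            (continuous_fst.continuousWithinAt.tendsto)
            (Filter.eventually_of_mem self_mem_nhdsWithin fun q hq => hq.1)
        exact h6 h5
      obtain ⟨W, hW, hW2⟩ := STE_lift hnb
      refine ⟨W, hW, ?_⟩
      intro y' hy' hyB' hya'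
      obtain ⟨s', hs', hse'⟩ := hW2 y' hy'
      have hya2 : ((D.κ (κ y').2, (κ y').1) : E × V2) ∈ D₁.A a₁ := by
        have hya'' : ((D.κ (κ y').2, (κ y').1) : E × V2) ∈ D₂.A a := hya'
        rw [ka] at hya''
        exact hya''.1
      have e1 : (κ y).1 = wnd (p * s) := by
        have := hκ2 s y.2
        rwa [hs] at this
      have e2 : (κ y').1 = wnd (p * s') := by
        have := hκ2 s' y'.2
        rwa [hse'] at this
      have v1 : (STE_B hn p).φ (Fin.last n) b y = ((⌊(p : ℝ) * s / 8⌋ : ℤ) : ZMod p) := by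
        rw [← STE_floor, hs]
        show Fin.lastCases (motive := fun _ => ZMod p) _ _ _ = _
        rw [Fin.lastCases_last]
      have v2 : (STE_B hn p).φ (Fin.last n) b y' = ((⌊(p : ℝ) * s' / 8⌋ : ℤ) : ZMod p) := by
        rw [← STE_floor, hse']
        show Fin.lastCases (motive := fun _ => ZMod p) _ _ _ = _
        rw [Fin.lastCases_last]
      have hd1 : (p : ℝ) * s - 1 < p * s' := by
        have h5 : (p : ℝ) * (s - 1 / p) < p * s' := mul_lt_mul_of_pos_left hs'.1 hp'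
        have h6 : (p : ℝ) * (s - 1 / p) = p * s - 1 := by field_simp
        linarith
      have hd2 : (p : ℝ) * s' < p * s + 1 := by
        have h5 : (p : ℝ) * s' < p * (s + 1 / p) := mul_lt_mul_of_pos_left hs'.2 hp'
        have h6 : (p : ℝ) * (s + 1 / p) = p * s + 1 := by field_simp
        linarith
      rw [v1, v2, kφ, kφ]
      rcases h2 a₁ with hsl | hre
      · obtain ⟨m1, m1'⟩ := hsl _ hya1
        obtain ⟨m2, m2'⟩ := hsl _ hya2
        have m3 : (κ y).1 ∈ wnd '' Icc 7 8 := m1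
        have m4 : (κ y').1 ∈ wnd '' Icc 7 8 := m2
        rw [e1] at m3
        rw [e2] at m4
        obtain ⟨k, a1, a2, a3⟩ := STE_slab p m3
        obtain ⟨l, b1, b2, b3⟩ := STE_slab p m4
        have hkl : k = l := STE_eq (by linarith) (by linarith)
        have m5 : D₁.φ (Fin.last n) a₁ (D.κ (κ y).2, (κ y).1) =
            if wnd (p * s) = wnd 0 then 1 else 0 := by
          rw [m1']
          show (if (κ y).1 = wnd 0 then (1 : ZMod p) else 0) = _
          rw [e1]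
        have m6 : D₁.φ (Fin.last n) a₁ (D.κ (κ y').2, (κ y').1) =
            if wnd (p * s') = wnd 0 then 1 else 0 := by
          rw [m2']
          show (if (κ y').1 = wnd 0 then (1 : ZMod p) else 0) = _
          rw [e2]
        rw [m5, m6, a3, b3, hkl]
      · obtain ⟨m1, m1'⟩ := hre _ hya1
        obtain ⟨m2, m2'⟩ := hre _ hya2
        have m3 : (κ y).1 ∈ wnd '' Icc 0 7 := m1
        have m4 : (κ y').1 ∈ wnd '' Icc 0 7 := m2
        rw [e1] at m3
        rw [e2] at m4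
        obtain ⟨k, a1, a2, a3⟩ := STE_rest m3
        obtain ⟨l, b1, b2, b3⟩ := STE_rest m4
        have hkl : k = l := STE_eq (by linarith) (by linarith)
        rw [m1', m2', a3, b3, hkl]
    | cast i =>
      have hval : ∀ y', (STE_B hn p).φ i.castSucc b y' = 0 := by
        intro y'
        show Fin.lastCases (motive := fun _ => ZMod p) _ _ _ = _
        rw [Fin.lastCases_castSucc]
      obtain ⟨hz, hv⟩ := hκm y (hsp hy)
      obtain ⟨U, hU, hU2⟩ := h1 i a₁ (κ y).2 (h12 hv) (κ y).1 hz hya1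
      have hc1 : ContinuousWithinAt κ (gam ×ˢ sphere (0 : Fin n → ℝ) 1) y :=
        (hκ.pl.continuousOn y (hsp hy)).mono hsp
      have hc2 : ContinuousWithinAt (fun q => ((κ q).2, (κ q).1))
          (gam ×ˢ sphere (0 : Fin n → ℝ) 1) y := hc1.snd.prodMk hc1.fst
      obtain ⟨W, hW, hW2⟩ := STE_lift (hc2.preimage_mem_nhdsWithin hU)
      refine ⟨W, hW, ?_⟩
      intro y' hy' hyB' hya'
      have hya2 : ((D.κ (κ y').2, (κ y').1) : E × V2) ∈ D₁.A a₁ := by
        have hya'' : ((D.κ (κ y').2, (κ y').1) : E × V2) ∈ D₂.A a := hya'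
        rw [ka] at hya''
        exact hya''.1
      obtain ⟨hz', hv'⟩ := hκm y' (hsp hy'.2)
      rw [hval, hval, sub_zero, sub_zero, kφ, kφ]
      exact hU2 ((κ y').2, (κ y').1) (hW2 y' hy') (h12 hv') hz' hya2
  · intro y hy
    rw [k2]
    exact hAo y (hsp hy)
  · intro u hu
    rw [k1]
    rintro ⟨q, hq, he⟩
    exact hκθ u hu q (hsp hq) he.symm

end Pool.H54.UB
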