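import Pool.Agent.H54.UB.ASB

/-!
# Row PRL: cocycles near the diagonal of a product

* `NCoc.unif`: Lebesgue number of the cover of the compact set `S` by the neighbourhoods from `NCoc`:
  there is `δ > 0` such that the identity holds for `a b d ∈ S` with pairwise distances `< δ`.
* `NTriv.prod_move`: fix `δ` for `S = A ×ˢ B`.  If `b, b' ∈ B`, `dist b b' < δ` and `g` is a primitive of
  `c` on `A × {b}`, then `h a = g a * c (a,b) (a,b')` is a primitive on `A × {b'}`: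
  `c (a,b') (a',b') = c (a,b') (a,b) * c (a,b) (a',b) * c (a',b) (a',b')` for `a'` near `a` (and
  `c x x = 1`, `c x y * c y x = 1` for `dist x y < δ`).  So the set of `b ∈ B` for which `c` is trivial on
  `A × {b}` is relatively open with relatively open complement: it is everything as `B` is preconnected.
* `NTriv.prod`: by `prod_move` (with the factors exchanged) `c` is trivial on `{x} × B` for every `x ∈ A`.
  Let `g₀` be a primitive on `A × {b}` and let `g x` be the primitive on `{x} × B` normalised by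
  `g x b = g₀ x` (multiply by a constant on the left).  Put `G (x,y) = g x y`.  For `x, x' ∈ A` with
  `dist x x' < δ` the function `h y = G (x,y) * c (x,y) (x',y)` is a primitive on `{x'} × B`, so
  `h = q * G (x', ·)` on `B` (`const_of_local`), and `h b = g₀ x * c (x,b) (x',b)`, which is `g₀ x'` for `x'`
  near `x`, so `q = 1`.  Hence near `(x,y)`:
  `c (x',y') (x'',y'') = ... = (G (x',y'))⁻¹ * G (x'',y'')` (go through `(x, y')`, `(x, y'')`).
-/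

open Set Topology

namespace Pool.H54.UB

variable {X Y Q : Type*} [MetricSpace X] [MetricSpace Y] [Group Q]

theorem NCoc.unif {c : X → X → Q} {S : Set X} (hS : IsCompact S) (hc : NCoc c S) :
    ∃ δ : ℝ, 0 < δ ∧ ∀ a ∈ S, ∀ b ∈ S, ∀ d ∈ S, dist a b < δ → dist b d < δ → dist a d < δ →
      c a b * c b d = c a d := by
  choose U hU hUc using fun x : S => hc x.1 x.2
  obtain ⟨δ, hδ, h⟩ := lebesgue_number_lemma_of_metric (c := fun x : S => interior (U x)) hS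
    (fun x => isOpen_interior)
    (fun x hx => mem_iUnion.2 ⟨⟨x, hx⟩, mem_interior_iff_mem_nhds.2 (hU ⟨x, hx⟩)⟩)
  refine ⟨δ, hδ, fun a ha b hb d hd h1 h2 h3 => ?_⟩
  obtain ⟨i, hi⟩ := h a ha
  have hsub := hi.trans interior_subset
  exact hUc i a ⟨hsub (Metric.mem_ball_self hδ), ha⟩ b ⟨hsub (Metric.mem_ball'.2 h1), hb⟩ d
    ⟨hsub (Metric.mem_ball'.2 h3), hd⟩

theorem PRL_quad {c : X → X → Q} {S : Set X} (hc : NCoc c S) {δ : ℝ} (hδ : 0 < δ)
    (h : ∀ a ∈ S, ∀ b ∈ S, ∀ d ∈ S, dist a b < δ → dist b d < δ → dist a d < δ →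
      c a b * c b d = c a d)
    {p q p' q' : X} (hp : p ∈ S) (hq : q ∈ S) (hp' : p' ∈ S) (hq' : q' ∈ S) (h1 : dist p p' < δ)
    (h2 : dist p q < δ) (h3 : dist p' q < δ) (h4 : dist q q' < δ) (h5 : dist p' q' < δ) :
    c p' q' = (c p p')⁻¹ * c p q * c q q' := by
  have h1' : dist p' p < δ := by rwa [dist_comm]
  have e1 : c p p' * c p' p = 1 := by
    rw [h p hp p' hp' p hp h1 h1' (by rwa [dist_self]), hc.self hp]
  have e2 : c p' p = (c p p')⁻¹ := eq_inv_of_mul_eq_one_right e1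
  have e3 := h p' hp' p hp q hq h1' h2 h3
  have e4 := h p' hp' q hq q' hq' h3 h4 h5
  rw [← e4, ← e3, e2]

theorem PRL_dist {δ : ℝ} {a a' : X} {b b' : Y} (h1 : dist a a' < δ) (h2 : dist b b' < δ) :
    dist (a, b) (a', b') < δ := by
  rw [Prod.dist_eq]
  exact max_lt h1 h2

theorem PRL_self {δ : ℝ} (hδ : 0 < δ) (a : X) : dist a a < δ := by
  rw [dist_self]
  exact hδ

theorem NTriv.prod_move {A : Set X} {B : Set Y} (hA : IsCompact A) (hB : IsCompact B)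
    (hBc : IsPreconnected B) {c : X × Y → X × Y → Q} (hc : NCoc c (A ×ˢ B)) {b b' : Y}
    (hb : b ∈ B) (hb' : b' ∈ B) (h : NTriv c (A ×ˢ {b})) : NTriv c (A ×ˢ {b'}) := by
  obtain ⟨δ, hδ, hu⟩ := hc.unif (hA.prod hB)
  have key : ∀ b₁ ∈ B, ∀ b₂ ∈ B, dist b₁ b₂ < δ →
      NTriv c (A ×ˢ {b₁}) → NTriv c (A ×ˢ {b₂}) := by
    rintro b₁ hb₁ b₂ hb₂ hd ⟨g, hg⟩
    have hd' : dist b₂ b₁ < δ := by rwa [dist_comm]
    refine ⟨fun p => g (p.1, b₁) * c (p.1, b₁) (p.1, b₂), ?_⟩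
    intro p hp
    obtain ⟨U, hU, h1⟩ := hg (p.1, b₁) ⟨hp.1, rfl⟩
    refine ⟨{q | (q.1, b₁) ∈ U ∧ dist q.1 p.1 < δ / 2}, ?_, ?_⟩
    · apply Filter.inter_mem
      · have h2 : Continuous (fun q : X × Y => (q.1, b₁)) :=
          Continuous.prodMk continuous_fst continuous_const
        exact h2.continuousAt.preimage_mem_nhds hU
      · have h2 : Continuous (fun q : X × Y => dist q.1 p.1) := continuous_fst.dist continuous_const
        refine h2.continuousAt.preimage_mem_nhds (Iio_mem_nhds ?_)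
        rw [dist_self]
        exact half_pos hδ
    · rintro ⟨a, y₁⟩ ⟨⟨ha1, ha2⟩, ha3, hy₁⟩ ⟨a', y₂⟩ ⟨⟨ha1', ha2'⟩, ha3', hy₂⟩
      have e1 : y₁ = b₂ := hy₁
      have e2 : y₂ = b₂ := hy₂
      rw [e1, e2]
      have haa : dist a a' < δ := by
        have h2 := dist_triangle_right a a' p.1
        have h3 : dist a p.1 < δ / 2 := ha2
        have h4 : dist a' p.1 < δ / 2 := ha2'
        linarith
      show c (a, b₂) (a', b₂) = (g (a, b₁) * c (a, b₁) (a, b₂))⁻¹ *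
        (g (a', b₁) * c (a', b₁) (a', b₂))
      rw [PRL_quad hc hδ hu (p := (a, b₁)) (q := (a', b₁)) (p' := (a, b₂)) (q' := (a', b₂))
        ⟨ha3, hb₁⟩ ⟨ha3', hb₁⟩ ⟨ha3, hb₂⟩ ⟨ha3', hb₂⟩ (PRL_dist (PRL_self hδ a) hd)
        (PRL_dist haa (PRL_self hδ b₁)) (PRL_dist haa hd') (PRL_dist (PRL_self hδ a') hd)
        (PRL_dist haa (PRL_self hδ b₂)), h1 (a, b₁) ⟨ha1, ha3, rfl⟩ (a', b₁) ⟨ha1', ha3', rfl⟩]
      group
  exact hBc.induction₂' (fun b₁ b₂ => NTriv c (A ×ˢ {b₁}) → NTriv c (A ×ˢ {b₂}))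
    (fun x hx => by
      filter_upwards [mem_nhdsWithin_of_mem_nhds (Metric.ball_mem_nhds x hδ),
        self_mem_nhdsWithin] with y hy hyB
      have hy' : dist x y < δ := by
        rw [dist_comm]
        exact hy
      exact ⟨key x hx y hyB hy', key y hyB x hx hy⟩)
    (fun _ _ _ _ _ _ h1 h2 h3 => h2 (h1 h3)) hb hb' h

omit [MetricSpace X] [MetricSpace Y] [Group Q] in
theorem PRL_swap_swap (c : X × Y → X × Y → Q) :
    (fun p q : X × Y => (fun p q : Y × X => c p.swap q.swap) p.swap q.swap) = c := by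
  funext p q
  simp only [Prod.swap_swap]

theorem NTriv.prod_move' {A : Set X} {B : Set Y} (hA : IsCompact A) (hB : IsCompact B)
    (hAc : IsPreconnected A) {c : X × Y → X × Y → Q} (hc : NCoc c (A ×ˢ B)) {a a' : X}
    (ha : a ∈ A) (ha' : a' ∈ A) (h : NTriv c ({a} ×ˢ B)) : NTriv c ({a'} ×ˢ B) := by
  have hc' : NCoc (fun p q : Y × X => c p.swap q.swap) (B ×ˢ A) :=
    NCoc.comp (φ := Prod.swap) continuous_swap.continuousOn (by rwa [image_swap_prod])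
  have h' : NTriv (fun p q : Y × X => c p.swap q.swap) (B ×ˢ {a}) :=
    NTriv.comp (φ := Prod.swap) continuous_swap.continuousOn (by rwa [image_swap_prod])
  have h2 := NTriv.prod_move hB hA hAc hc' ha ha' h'
  have h3 : NTriv (fun p q : X × Y => (fun p q : Y × X => c p.swap q.swap) p.swap q.swap)
      ({a'} ×ˢ B) :=
    NTriv.comp (φ := Prod.swap) continuous_swap.continuousOn (by rwa [image_swap_prod])
  rwa [PRL_swap_swap] at h3

theorem NTriv.prod {A : Set X} {B : Set Y} (hA : IsCompact A) (hB : IsCompact B)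
    (hAc : IsPreconnected A) (hBc : IsPreconnected B) {c : X × Y → X × Y → Q}
    (hc : NCoc c (A ×ˢ B)) {a : X} {b : Y} (ha : a ∈ A) (hb : b ∈ B)
    (h1 : NTriv c (A ×ˢ {b})) (h2 : NTriv c ({a} ×ˢ B)) : NTriv c (A ×ˢ B) := by
  obtain ⟨δ, hδ, hu⟩ := hc.unif (hA.prod hB)
  obtain ⟨g₀, hg₀⟩ := h1
  have hex : ∀ x : X, ∃ g : X × Y → Q, x ∈ A → ∀ p ∈ ({x} : Set X) ×ˢ B, ∃ U ∈ 𝓝 p,
      ∀ q ∈ U ∩ (({x} : Set X) ×ˢ B), ∀ r ∈ U ∩ (({x} : Set X) ×ˢ B),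
        c q r = (g q)⁻¹ * g r := by
    intro x
    by_cases hx : x ∈ A
    · obtain ⟨g, hg⟩ := NTriv.prod_move' hA hB hAc hc ha hx h2
      exact ⟨g, fun _ => hg⟩
    · exact ⟨fun _ => 1, fun h => absurd h hx⟩
  choose γ hγ using hex
  obtain ⟨G, hGdef⟩ : ∃ G : X × Y → Q, ∀ p, G p = g₀ (p.1, b) * (γ p.1 (p.1, b))⁻¹ * γ p.1 p :=
    ⟨_, fun _ => rfl⟩
  have hGb : ∀ x, G (x, b) = g₀ (x, b) := fun x => by
    rw [hGdef, inv_mul_cancel_right]
  have hG : ∀ x ∈ A, ∀ y ∈ B, ∃ W ∈ 𝓝 y, ∀ y' ∈ W ∩ B, ∀ y'' ∈ W ∩ B,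
      c (x, y') (x, y'') = (G (x, y'))⁻¹ * G (x, y'') := by
    intro x hxA y hy
    obtain ⟨U, hU, h3⟩ := hγ x hxA (x, y) ⟨rfl, hy⟩
    have h4 : Continuous (fun y' : Y => (x, y')) := Continuous.prodMk_right x
    refine ⟨{y' | (x, y') ∈ U}, h4.continuousAt.preimage_mem_nhds hU, ?_⟩
    intro y' hy' y'' hy''
    rw [h3 (x, y') ⟨hy'.1, rfl, hy'.2⟩ (x, y'') ⟨hy''.1, rfl, hy''.2⟩, hGdef, hGdef]
    group
  have hV : ∀ x ∈ A, ∃ V ∈ 𝓝 x, ∀ x' ∈ V ∩ A, ∀ y ∈ B,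
      c (x, y) (x', y) = (G (x, y))⁻¹ * G (x', y) := by
    intro x hxA
    obtain ⟨U, hU, h3⟩ := hg₀ (x, b) ⟨hxA, rfl⟩
    have h4 : Continuous (fun x' : X => (x', b)) := Continuous.prodMk_left b
    refine ⟨{x' | (x', b) ∈ U} ∩ Metric.ball x δ,
      Filter.inter_mem (h4.continuousAt.preimage_mem_nhds hU) (Metric.ball_mem_nhds x hδ), ?_⟩
    rintro x' ⟨⟨hx'U, hx'δ⟩, hx'A⟩ y hy
    have hd : dist x x' < δ := by
      rw [dist_comm]
      exact hx'δ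
    have key := const_of_local (g := fun y => G (x, y) * c (x, y) (x', y))
      (g' := fun y => G (x', y)) hBc (fun y hy => by
        obtain ⟨W, hW, h4⟩ := hG x hxA y hy
        obtain ⟨W', hW', h5⟩ := hG x' hx'A y hy
        refine ⟨W ∩ W' ∩ Metric.ball y δ,
          Filter.inter_mem (Filter.inter_mem hW hW') (Metric.ball_mem_nhds y hδ), ?_⟩
        rintro y' ⟨⟨⟨hy1, hy2⟩, hy3⟩, hy4⟩
        have hd2 : dist y y' < δ := by
          rw [dist_comm]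
          exact hy3
        have hd' : dist x' x < δ := hx'δ
        have h6 := PRL_quad hc hδ hu (p := (x, y)) (p' := (x', y)) (q := (x, y'))
          (q' := (x', y')) ⟨hxA, hy⟩ ⟨hxA, hy4⟩ ⟨hx'A, hy⟩ ⟨hx'A, hy4⟩
          (PRL_dist hd (PRL_self hδ y)) (PRL_dist (PRL_self hδ x) hd2) (PRL_dist hd' hd2)
          (PRL_dist hd (PRL_self hδ y')) (PRL_dist (PRL_self hδ x') hd2)
        rw [h5 y ⟨mem_of_mem_nhds hW', hy⟩ y' ⟨hy2, hy4⟩,
          h4 y ⟨mem_of_mem_nhds hW, hy⟩ y' ⟨hy1, hy4⟩] at h6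
        show (G (x, y) * c (x, y) (x', y))⁻¹ * (G (x, y') * c (x, y') (x', y')) =
          (G (x', y))⁻¹ * G (x', y')
        rw [h6]
        group) hy hb
    have h5 := h3 (x, b) ⟨mem_of_mem_nhds hU, hxA, rfl⟩ (x', b) ⟨hx'U, hx'A, rfl⟩
    rw [hGb, hGb, h5, mul_inv_cancel_left, mul_inv_cancel] at key
    rw [← mul_inv_eq_one.1 key, inv_mul_cancel_left]
  refine ⟨G, ?_⟩
  rintro ⟨x, y⟩ ⟨hxA, hyB⟩
  obtain ⟨V, hV1, hV2⟩ := hV x hxA
  obtain ⟨W, hW, h4⟩ := hG x hxA y hyB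
  refine ⟨(V ∩ Metric.ball x (δ / 2)) ×ˢ (W ∩ Metric.ball y (δ / 2)),
    prod_mem_nhds (Filter.inter_mem hV1 (Metric.ball_mem_nhds x (half_pos hδ)))
      (Filter.inter_mem hW (Metric.ball_mem_nhds y (half_pos hδ))), ?_⟩
  rintro ⟨x', y'⟩ ⟨⟨⟨hx1, hx2⟩, hy1, hy2⟩, hx3, hy3⟩ ⟨x'', y''⟩
    ⟨⟨⟨hx1', hx2'⟩, hy1', hy2'⟩, hx3', hy3'⟩
  have d1 : dist x' x < δ / 2 := hx2
  have d2 : dist y' y < δ / 2 := hy2
  have d3 : dist x'' x < δ / 2 := hx2'
  have d4 : dist y'' y < δ / 2 := hy2'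
  have d5 : dist x x' < δ := by
    rw [dist_comm]
    linarith
  have d6 : dist x x'' < δ := by
    rw [dist_comm]
    linarith
  have d7 : dist x' x < δ := by linarith
  have d8 : dist y' y'' < δ := by
    have := dist_triangle_right y' y'' y
    linarith
  have d9 : dist x' x'' < δ := by
    have := dist_triangle_right x' x'' x
    linarith
  rw [PRL_quad hc hδ hu (p := (x, y')) (p' := (x', y')) (q := (x, y'')) (q' := (x'', y''))
    ⟨hxA, hy3⟩ ⟨hxA, hy3'⟩ ⟨hx3, hy3⟩ ⟨hx3', hy3'⟩ (PRL_dist d5 (PRL_self hδ y'))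
    (PRL_dist (PRL_self hδ x) d8) (PRL_dist d7 d8) (PRL_dist d6 (PRL_self hδ y''))
    (PRL_dist d9 d8), hV2 x' ⟨hx1, hx3⟩ y' hy3, h4 y' ⟨hy1, hy3⟩ y'' ⟨hy1', hy3'⟩,
    hV2 x'' ⟨hx1', hx3'⟩ y'' hy3']
  group

/-- Triviality on a slice, in two forms. -/
theorem NTriv.slice_iff {A : Set X} {y : Y} {c : X × Y → X × Y → Q} :
    NTriv c (A ×ˢ {y}) ↔ NTriv (fun a a' => c (a, y) (a', y)) A := by
  constructor
  · intro h
    refine NTriv.comp (φ := fun a => (a, y)) (Continuous.prodMk_left y).continuousOn ?_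
    rwa [prod_singleton] at h
  · rintro ⟨g, hg⟩
    refine ⟨fun p => g p.1, ?_⟩
    rintro ⟨a, y₁⟩ ⟨ha, -⟩
    obtain ⟨U, hU, h1⟩ := hg a ha
    refine ⟨{p | p.1 ∈ U}, continuous_fst.continuousAt.preimage_mem_nhds hU, ?_⟩
    rintro ⟨a₁, y₁⟩ ⟨h2, h3, h4⟩ ⟨a₂, y₂⟩ ⟨h5, h6, h7⟩
    have e1 : y₁ = y := h4
    have e2 : y₂ = y := h7
    rw [e1, e2]
    exact h1 a₁ ⟨h2, h3⟩ a₂ ⟨h5, h6⟩

theorem NTriv.slice_iff' {B : Set Y} {x : X} {c : X × Y → X × Y → Q} :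
    NTriv c ({x} ×ˢ B) ↔ NTriv (fun b b' => c (x, b) (x, b')) B := by
  constructor
  · intro h
    refine NTriv.comp (φ := fun b => (x, b)) (Continuous.prodMk_right x).continuousOn ?_
    rwa [singleton_prod] at h
  · rintro ⟨g, hg⟩
    refine ⟨fun p => g p.2, ?_⟩
    rintro ⟨x₁, b⟩ ⟨-, hb⟩
    obtain ⟨U, hU, h1⟩ := hg b hb
    refine ⟨{p | p.2 ∈ U}, continuous_snd.continuousAt.preimage_mem_nhds hU, ?_⟩
    rintro ⟨x₁, b₁⟩ ⟨h2, h3, h4⟩ ⟨x₂, b₂⟩ ⟨h5, h6, h7⟩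
    have e1 : x₁ = x := h3
    have e2 : x₂ = x := h6
    rw [e1, e2]
    exact h1 b₁ ⟨h2, h4⟩ b₂ ⟨h5, h7⟩

theorem QTriv.prod {A : Set X} {B : Set Y} (hA : IsCompact A) (hB : IsCompact B)
    (hAc : IsPreconnected A) (hBc : IsPreconnected B) (h1 : QTriv Q A) (h2 : QTriv Q B) :
    QTriv Q (A ×ˢ B) := by
  intro c hc
  rcases A.eq_empty_or_nonempty with hE | ⟨a, ha⟩
  · refine ⟨fun _ => 1, fun p hp => ?_⟩
    rw [hE] at hp
    exact absurd hp.1 (notMem_empty _)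
  rcases B.eq_empty_or_nonempty with hE | ⟨b, hb⟩
  · refine ⟨fun _ => 1, fun p hp => ?_⟩
    rw [hE] at hp
    exact absurd hp.2 (notMem_empty _)
  refine NTriv.prod hA hB hAc hBc hc ha hb ?_ ?_
  · rw [NTriv.slice_iff]
    refine h1 _ (NCoc.comp (φ := fun a => (a, b)) (Continuous.prodMk_left b).continuousOn
      (hc.mono ?_))
    rintro _ ⟨a', ha', rfl⟩
    exact ⟨ha', hb⟩
  · rw [NTriv.slice_iff']
    refine h2 _ (NCoc.comp (φ := fun b => (a, b)) (Continuous.prodMk_right a).continuousOn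
      (hc.mono ?_))
    rintro _ ⟨b', hb', rfl⟩
    exact ⟨ha, hb'⟩

end Pool.H54.UB
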