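import Pool.Agent.H54.UB.WND

/-!
# Row STL: cocycles on a solid torus `gam × C`, `C` convex

Fix `e₀ ∈ C`.  The cocycle `(s, t) ↦ c (wnd s, e₀) (wnd t, e₀)` on the line (`NCoc.comp`) has a primitive
`G : ℝ → Q` (`QTriv.convex` for `univ`).  `s ↦ G (s + 8)` is a primitive of the same cocycle (`wnd_per`),
so `G (s + 8) = τ * G s` for a constant `τ` (`const_of_local` on `univ`), and `G (s + 8 n) = τ ^ n * G s`
for `n : ℤ`.

* `τ = 1`: `G` is 8-periodic, `z ↦ G (ang z)` is a primitive on `gam` (near `wnd s` every point of `gam` is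
  `wnd t` with `t` near `s` by `wnd_open`, and `G (ang (wnd t)) = G t` by `ang_wnd`); then
  `NTriv.prod_convex`.
* A loop `κ` with `(κ (wnd s)).1 = wnd (n s + r)`: by `NTriv.move` with
  `Φ (z, t) = ((κ z).1, (1-t) • (κ z).2 + t • e₀)`, `c` is trivial along `κ` iff it is trivial along
  `z ↦ ((κ z).1, e₀)`.  If `h` is a primitive of the latter on `gam`, then `s ↦ h (wnd s)` and
  `s ↦ G (n s + r)` are primitives of the same cocycle on the line, so `h (wnd s) = q * G (n s + r)`;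
  periodicity of the left side gives `τ ^ n = 1`.  Conversely, if `τ ^ n = 1` then `s ↦ G (n s + r)` is
  periodic and descends to `gam` as above.
-/

open Set Topology

namespace Pool.H54.UB

variable {E : Type*} [NormedAddCommGroup E] [NormedSpace ℝ E]

theorem STL_per {Q : Type*} [Group Q] {G : ℝ → Q} {τ : Q} (h : ∀ s, G (s + 8) = τ * G s) (n : ℤ)
    (s : ℝ) : G (s + 8 * n) = τ ^ n * G s := by
  have hp : ∀ (k : ℕ) (s : ℝ), G (s + 8 * k) = τ ^ (k : ℤ) * G s := by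
    intro k
    induction k with
    | zero => intro s; simp
    | succ k ih =>
      intro s
      have h1 : s + 8 * ((k + 1 : ℕ) : ℝ) = (s + 8) + 8 * (k : ℝ) := by push_cast; ring
      rw [h1, ih, h s, ← mul_assoc]
      congr 1
      push_cast
      rw [zpow_add_one]
  obtain ⟨k, rfl | rfl⟩ := n.eq_nat_or_neg
  · have h1 := hp k s
    exact_mod_cast h1
  · have h1 := hp k (s + 8 * ((-(k : ℤ) : ℤ) : ℝ))
    have h2 : s + 8 * ((-(k : ℤ) : ℤ) : ℝ) + 8 * (k : ℝ) = s := by push_cast; ring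
    rw [h2] at h1
    rw [h1, ← mul_assoc, ← zpow_add]
    simp

/-- two primitives on the line differ by a constant -/
theorem STL_const {Q : Type*} [Group Q] {c : ℝ → ℝ → Q} {g g' : ℝ → Q}
    (h : ∀ s, ∃ U ∈ 𝓝 s, ∀ a ∈ U, ∀ b ∈ U, c a b = (g a)⁻¹ * g b)
    (h' : ∀ s, ∃ U ∈ 𝓝 s, ∀ a ∈ U, ∀ b ∈ U, c a b = (g' a)⁻¹ * g' b) (s t : ℝ) :
    g s * (g' s)⁻¹ = g t * (g' t)⁻¹ := by
  refine const_of_local (S := univ) isPreconnected_univ ?_ (mem_univ _) (mem_univ _)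
  intro x _
  obtain ⟨U, hU, h1⟩ := h x
  obtain ⟨V, hV, h2⟩ := h' x
  refine ⟨U ∩ V, Filter.inter_mem hU hV, fun y hy => ?_⟩
  rw [← h1 x (mem_of_mem_nhds hU) y hy.1.1, ← h2 x (mem_of_mem_nhds hV) y hy.1.2]

/-- periodic primitives descend -/
theorem STL_desc {Q : Type*} [Group Q] {c : V2 → V2 → Q} {H : ℝ → Q}
    (h : ∀ s, ∃ U ∈ 𝓝 s, ∀ a ∈ U, ∀ b ∈ U, c (wnd a) (wnd b) = (H a)⁻¹ * H b)
    (hper : ∀ (k : ℤ) (s : ℝ), H (s + 8 * k) = H s) : NTriv c gam := by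
  refine ⟨fun z => H (ang z), fun x hx => ?_⟩
  obtain ⟨-, hs⟩ := ang_mem hx
  obtain ⟨U, hU, h1⟩ := h (ang x)
  obtain ⟨ε, hε, hεU⟩ := Metric.mem_nhds_iff.1 hU
  have h2 := wnd_open (ang x) hε
  rw [hs] at h2
  obtain ⟨V, hV, hVs⟩ := mem_nhdsWithin_iff_exists_mem_nhds_inter.1 h2
  have hIoo : Ioo (ang x - ε) (ang x + ε) ⊆ U := by
    rw [← Real.ball_eq_Ioo]
    exact hεU
  refine ⟨V, hV, ?_⟩
  rintro a ha b hb
  obtain ⟨α, hα, rfl⟩ := hVs ha
  obtain ⟨β, hβ, rfl⟩ := hVs hb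
  have hA : ∀ s, H (ang (wnd s)) = H s := by
    intro s
    obtain ⟨k, hk⟩ := ang_wnd s
    rw [hk, hper]
  show c (wnd α) (wnd β) = (H (ang (wnd α)))⁻¹ * H (ang (wnd β))
  rw [hA, hA, h1 α (hIoo hα) β (hIoo hβ)]

theorem solid_torus {Q : Type*} [Group Q] {C : Set E} (hC : Convex ℝ C) (hne : C.Nonempty)
    {c : V2 × E → V2 × E → Q} (hc : NCoc c (gam ×ˢ C)) :
    ∃ τ : Q, (τ = 1 → NTriv c (gam ×ˢ C)) ∧
      ∀ (n : ℤ) (r : ℝ) (κ : V2 → V2 × E), ContinuousOn κ gam → MapsTo κ gam (gam ×ˢ C) →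
        (∀ s : ℝ, (κ (wnd s)).1 = wnd (n * s + r)) →
        (NTriv (fun a b => c (κ a) (κ b)) gam ↔ τ ^ n = 1) := by
  obtain ⟨e₀, he₀⟩ := hne
  -- the cocycle on the line
  have hl : NCoc (fun s t : ℝ => c (wnd s, e₀) (wnd t, e₀)) univ := by
    refine NCoc.comp (c := c) (φ := fun s : ℝ => (wnd s, e₀)) ?_ (hc.mono ?_)
    · exact (wnd_cont.prodMk continuous_const).continuousOn
    · rintro _ ⟨s, -, rfl⟩
      exact ⟨wnd_mem s, he₀⟩
  obtain ⟨G, hG0⟩ := QTriv.convex (convex_univ (𝕜 := ℝ) (E := ℝ)) _ hl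
  have hG : ∀ s, ∃ U ∈ 𝓝 s, ∀ a ∈ U, ∀ b ∈ U, c (wnd a, e₀) (wnd b, e₀) = (G a)⁻¹ * G b := by
    intro s
    obtain ⟨U, hU, h1⟩ := hG0 s (mem_univ s)
    exact ⟨U, hU, fun a ha b hb => h1 a ⟨ha, mem_univ a⟩ b ⟨hb, mem_univ b⟩⟩
  have hpull : ∀ (n r : ℝ) (s : ℝ), ∃ U ∈ 𝓝 s, ∀ a ∈ U, ∀ b ∈ U,
      c (wnd (n * a + r), e₀) (wnd (n * b + r), e₀) = (G (n * a + r))⁻¹ * G (n * b + r) := by
    intro n r s
    obtain ⟨U, hU, h1⟩ := hG (n * s + r)
    have hcont : Continuous (fun x : ℝ => n * x + r) := by fun_prop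
    exact ⟨(fun x : ℝ => n * x + r) ⁻¹' U, hcont.continuousAt.preimage_mem_nhds hU,
      fun a ha b hb => h1 _ ha _ hb⟩
  have hper1 : ∀ s, wnd (s + 8) = wnd s := by
    intro s
    have := wnd_per s 1
    rwa [Int.cast_one, mul_one] at this
  have h8 : ∀ s, ∃ U ∈ 𝓝 s, ∀ a ∈ U, ∀ b ∈ U,
      c (wnd a, e₀) (wnd b, e₀) = (G (a + 8))⁻¹ * G (b + 8) := by
    intro s
    obtain ⟨U, hU, h1⟩ := hpull 1 8 s
    refine ⟨U, hU, fun a ha b hb => ?_⟩
    have := h1 a ha b hb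
    rwa [one_mul, one_mul, hper1, hper1] at this
  obtain ⟨τ, hτ⟩ : ∃ τ : Q, ∀ s, G (s + 8) = τ * G s := by
    refine ⟨G (0 + 8) * (G 0)⁻¹, fun s => ?_⟩
    have := STL_const h8 hG s 0
    rw [← this]
    group
  refine ⟨τ, ?_, ?_⟩
  · intro h1
    refine NTriv.prod_convex hC he₀ hc (STL_desc (c := fun a b => c (a, e₀) (b, e₀)) hG ?_)
    intro k s
    rw [STL_per hτ k s, h1, one_zpow, one_mul]
  · intro n r κ hκ hκm hκ1
    -- the line cocycle of the loop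
    have hline : ∀ s, ∃ U ∈ 𝓝 s, ∀ a ∈ U, ∀ b ∈ U,
        c ((κ (wnd a)).1, e₀) ((κ (wnd b)).1, e₀) = (G (n * a + r))⁻¹ * G (n * b + r) := by
      intro s
      obtain ⟨U, hU, h1⟩ := hpull n r s
      refine ⟨U, hU, fun a ha b hb => ?_⟩
      rw [hκ1, hκ1]
      exact h1 a ha b hb
    have hB : NTriv (fun a b => c ((κ a).1, e₀) ((κ b).1, e₀)) gam ↔ τ ^ n = 1 := by
      constructor
      · rintro ⟨h, hh⟩
        have h1 : ∀ s, ∃ U ∈ 𝓝 s, ∀ a ∈ U, ∀ b ∈ U,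
            c ((κ (wnd a)).1, e₀) ((κ (wnd b)).1, e₀) = (h (wnd a))⁻¹ * h (wnd b) := by
          intro s
          obtain ⟨U, hU, h1⟩ := hh (wnd s) (wnd_mem s)
          exact ⟨wnd ⁻¹' U, wnd_cont.continuousAt.preimage_mem_nhds hU,
            fun a ha b hb => h1 _ ⟨ha, wnd_mem a⟩ _ ⟨hb, wnd_mem b⟩⟩
        have h2 := STL_const h1 hline 0 (0 + 8)
        rw [hper1] at h2
        have h3 := mul_left_cancel h2
        rw [inv_inj] at h3
        have h4 : (n : ℝ) * (0 + 8) + r = (n * 0 + r) + 8 * n := by ring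
        rw [h4, STL_per hτ] at h3
        exact (mul_eq_right.1 h3.symm)
      · intro hn
        refine STL_desc (c := fun a b => c ((κ a).1, e₀) ((κ b).1, e₀)) hline ?_
        intro k s
        have h4 : (n : ℝ) * (s + 8 * k) + r = (n * s + r) + 8 * ((n * k : ℤ) : ℝ) := by
          push_cast
          ring
        show G ((n : ℝ) * (s + 8 * k) + r) = G (n * s + r)
        rw [h4, STL_per hτ, zpow_mul, hn, one_zpow, one_mul]
    rw [← hB]
    -- the homotopy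
    obtain ⟨Φ, hΦ⟩ : ∃ Φ : V2 × ℝ → V2 × E, Φ = fun p =>
        ((κ p.1).1, (1 - p.2) • (κ p.1).2 + p.2 • e₀) := ⟨_, rfl⟩
    have hκ' : ContinuousOn (fun p : V2 × ℝ => κ p.1) (gam ×ˢ Icc (0 : ℝ) 1) :=
      hκ.comp continuous_fst.continuousOn (fun p hp => hp.1)
    have hΦc : ContinuousOn Φ (gam ×ˢ Icc (0 : ℝ) 1) := by
      rw [hΦ]
      refine ContinuousOn.prodMk (continuous_fst.comp_continuousOn hκ') ?_
      refine ContinuousOn.add (ContinuousOn.smul (by fun_prop)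
        (continuous_snd.comp_continuousOn hκ')) (by fun_prop)
    have hΦm : Φ '' (gam ×ˢ Icc (0 : ℝ) 1) ⊆ gam ×ˢ C := by
      rintro _ ⟨⟨z, t⟩, ⟨hz, ht⟩, rfl⟩
      rw [hΦ]
      refine ⟨(hκm hz).1, ?_⟩
      exact hC (hκm hz).2 he₀ (by linarith [ht.2]) ht.1 (by ring)
    have hcΦ := hc.mono hΦm
    have h0 : (0 : ℝ) ∈ Icc (0 : ℝ) 1 := ⟨le_rfl, zero_le_one⟩
    have h1 : (1 : ℝ) ∈ Icc (0 : ℝ) 1 := ⟨zero_le_one, le_rfl⟩
    have e0 : (fun a b => c (Φ (a, 0)) (Φ (b, 0))) = fun a b => c (κ a) (κ b) := by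
      rw [hΦ]
      funext a b
      simp
    have e1 : (fun a b => c (Φ (a, 1)) (Φ (b, 1))) = fun a b => c ((κ a).1, e₀) ((κ b).1, e₀) := by
      rw [hΦ]
      funext a b
      simp
    constructor
    · intro h
      rw [← e1]
      rw [← e0] at h
      exact NTriv.move hΦc hcΦ h0 h h1
    · intro h
      rw [← e0]
      rw [← e1] at h
      exact NTriv.move hΦc hcΦ h1 h h0

end Pool.H54.UB
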