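import Pool.Agent.H54.UB.EVG
import Pool.Agent.H54.UB.EXT
import Pool.Agent.H54.UB.PRL
import Pool.Agent.H54.UB.STL
import Pool.Agent.H54.UB.ASC

/-!
# Row STQ: cocycles on the result of a surgery

* `step_qtriv`: let `c` be a cocycle on `jA '' A ∪ jB '' B`.  `cB x y = c (jB x) (jB y)` is a cocycle on
  `B = closedBall × sphere` (`NCoc.comp`), trivial by `QTriv.prod` (`QTriv.convex`, `sphere_qtriv` for the
  sphere in `Fin n → ℝ`, `n ≥ 3`; write `n = k + 1`).  So `c` is trivial on `jB '' DB = jA '' (ι '' ..)`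
  and `cA x y = c (jA x) (jA y)` is trivial on `ι '' (gam × sphere 0 1)` (`NTriv.comp`, `NTriv.mono`).
  `tube_extend` gives `c'` on `X`; by `hT` it is trivial on `X`, so `cA` is trivial on `A`
  (`NTriv.of_local_eq`).  Then `c` is trivial on `jA '' A` and on `jB '' B` (compose with the inverse,
  continuous on the compact image, `NTriv.comp`), and `NTriv.union_closed` applies: the intersection is
  `jB '' DB`, `DB = gam × sphere` connected.
* `strand_triv`: `c` is a cocycle on `N × gam` which is trivial on the strand tube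
  `(ι (κ p).2, (κ p).1)`.  On the solid torus put `c₂ (z,v) (z',v') = c (ι v, z) (ι v', z')` on
  `gam × closedBall 0 1`.  `solid_torus` gives `τ`; the loop `z ↦ κ (z, 0)` (in `gam × closedBall 0 1`,
  first coordinate `wnd (p s)`) is trivial, so `τ ^ p = 1`; with `τ ^ l = 1` and `p ∤ l`, `τ = 1`
  (`p` prime).  So `c₂` is trivial, hence `c` is trivial on `{ι 0} × gam`; on `N × {wnd 0}` it is trivial by
  `hQ`; `NTriv.prod`.
-/

open Set Topology Metric

namespace Pool.H54.UB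

variable {E H : Type*} [NormedAddCommGroup E] [NormedSpace ℝ E] [FiniteDimensional ℝ E]
  [NormedAddCommGroup H] [NormedSpace ℝ H] [FiniteDimensional ℝ H]

/-- transport of triviality to the image of an embedding -/
theorem STQ_inv {X Y Q : Type*} [TopologicalSpace X] [TopologicalSpace Y] [T2Space Y] [Group Q]
    {K : Set X} (hK : IsCompact K) {j : X → Y} (hj : ContinuousOn j K) (hi : InjOn j K)
    {c : Y → Y → Q} (h : NTriv (fun a b => c (j a) (j b)) K) : NTriv c (j '' K) := by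
  rcases K.eq_empty_or_nonempty with hE | ⟨x₀, hx₀⟩
  · refine ⟨fun _ => 1, fun x hx => ?_⟩
    rw [hE, image_empty] at hx
    exact absurd hx (notMem_empty x)
  have : Nonempty X := ⟨x₀⟩
  have hψ : ContinuousOn (Function.invFunOn j K) (j '' K) := by
    rintro _ ⟨q, hq, rfl⟩
    rw [ContinuousWithinAt, hi.leftInvOn_invFunOn hq]
    intro V hV
    have h1 := emb_nhds hK hj hi hq (mem_nhdsWithin_of_mem_nhds hV)
    rw [Filter.mem_map]
    refine Filter.mem_of_superset h1 ?_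
    rintro _ ⟨q', ⟨hq1, hq2⟩, rfl⟩
    show Function.invFunOn j K (j q') ∈ V
    rw [hi.leftInvOn_invFunOn hq2]
    exact hq1
  have h1 : Function.invFunOn j K '' (j '' K) ⊆ K := by
    rintro _ ⟨_, ⟨q, hq, rfl⟩, rfl⟩
    rw [hi.leftInvOn_invFunOn hq]
    exact hq
  obtain ⟨g, hg⟩ := NTriv.comp hψ (h.mono h1)
  refine ⟨g, fun x hx => ?_⟩
  obtain ⟨U, hU, h2⟩ := hg x hx
  refine ⟨U, hU, fun a ha b hb => ?_⟩
  have h3 : c (j (Function.invFunOn j K a)) (j (Function.invFunOn j K b)) = (g a)⁻¹ * g b :=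
    h2 a ha b hb
  rwa [Function.invFunOn_eq ha.2, Function.invFunOn_eq hb.2] at h3

theorem STQ_B (k : ℕ) (hk : 2 ≤ k) (Q : Type*) [Group Q] :
    QTriv Q (closedBall (0 : V2) 1 ×ˢ sphere (0 : Fin (k + 1) → ℝ) 1) :=
  QTriv.prod (isCompact_closedBall _ _) (isCompact_sphere _ _)
    (convex_closedBall _ _).isPreconnected (sphere_connected k (by omega)).isPreconnected
    (QTriv.convex (convex_closedBall _ _)) (sphere_qtriv k hk Q)

theorem step_qtriv {n : ℕ} (hn : 3 ≤ n) {X : Set E} (hX : IsPoly X)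
    {ι : V2 × (Fin n → ℝ) → E} (h : Tube gam n X ι) {jA : E → H} {jB : V2 × (Fin n → ℝ) → H}
    (g : Glued (X \ ι '' (gam ×ˢ ball (0 : Fin n → ℝ) 1))
        (closedBall (0 : V2) 1 ×ˢ sphere (0 : Fin n → ℝ) 1) (gam ×ˢ sphere (0 : Fin n → ℝ) 1)
        ι jA jB) (Q : Type*) [Group Q]
    (hT : ∀ c : E → E → Q, NCoc c X →
      NTriv c (ι '' (gam ×ˢ closedBall (0 : Fin n → ℝ) 2)) → NTriv c X) :
    QTriv Q (jA '' (X \ ι '' (gam ×ˢ ball (0 : Fin n → ℝ) 1)) ∪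
        jB '' (closedBall (0 : V2) 1 ×ˢ sphere (0 : Fin n → ℝ) 1)) := by
  obtain ⟨k, rfl⟩ : ∃ k, n = k + 1 := ⟨n - 1, by omega⟩
  intro c hc
  have hAc : IsCompact (X \ ι '' (gam ×ˢ ball (0 : Fin (k + 1) → ℝ) 1)) :=
    g.plA.domain.isCompact
  have hBc : IsCompact (closedBall (0 : V2) 1 ×ˢ sphere (0 : Fin (k + 1) → ℝ) 1) :=
    (isCompact_closedBall _ _).prod (isCompact_sphere _ _)
  have hjA := g.plA.continuousOn
  have hjB := g.plB.continuousOn
  have hdiff := fun x (hx : x ∈ gam ×ˢ sphere (0 : Fin (k + 1) → ℝ) 1) => g.comm x hx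
  -- the second part
  have hB : NTriv c (jB '' (closedBall (0 : V2) 1 ×ˢ sphere (0 : Fin (k + 1) → ℝ) 1)) :=
    STQ_inv hBc hjB g.injB (STQ_B k (by omega) Q _ (NCoc.comp hjB (hc.mono subset_union_right)))
  -- the first part
  have hcA := NCoc.comp hjA (hc.mono subset_union_left)
  have hsubA : ι '' (gam ×ˢ sphere (0 : Fin (k + 1) → ℝ) 1) ⊆
      X \ ι '' (gam ×ˢ ball (0 : Fin (k + 1) → ℝ) 1) := g.maps.image_subset
  have hshell : NTriv (fun a b => c (jA a) (jA b)) (ι '' (gam ×ˢ sphere (0 : Fin (k + 1) → ℝ) 1)) := by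
    refine NTriv.comp (hjA.mono hsubA) (hB.mono ?_)
    rintro _ ⟨_, ⟨y, hy, rfl⟩, rfl⟩
    rw [hdiff y hy]
    exact mem_image_of_mem _ (g.sub hy)
  obtain ⟨c', hc'1, hc'2, hc'3⟩ := tube_extend h gam_mfd.1 hX.isCompact.isClosed hcA hshell
  have hA : NTriv c (jA '' (X \ ι '' (gam ×ˢ ball (0 : Fin (k + 1) → ℝ) 1))) :=
    STQ_inv hAc hjA g.injA (NTriv.of_local_eq hc'2 ((hT c' hc'1 hc'3).mono sdiff_subset))
  refine NTriv.union_closed (hAc.image_of_continuousOn hjA).isClosed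
    (hBc.image_of_continuousOn hjB).isClosed hc ?_ hA hB
  have hint : jA '' (X \ ι '' (gam ×ˢ ball (0 : Fin (k + 1) → ℝ) 1)) ∩
      jB '' (closedBall (0 : V2) 1 ×ˢ sphere (0 : Fin (k + 1) → ℝ) 1) =
      jB '' (gam ×ˢ sphere (0 : Fin (k + 1) → ℝ) 1) := by
    apply Subset.antisymm
    · rintro _ ⟨⟨x, hx, rfl⟩, ⟨y, hy, hxy⟩⟩
      rw [← hxy]
      exact mem_image_of_mem _ (g.sep x hx y hy hxy.symm).1
    · rintro _ ⟨y, hy, rfl⟩
      refine ⟨?_, mem_image_of_mem _ (g.sub hy)⟩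
      rw [← hdiff y hy]
      exact mem_image_of_mem _ (g.maps hy)
  rw [hint]
  exact (gam_conn.isPreconnected.prod (sphere_connected k (by omega)).isPreconnected).image _
    (hjB.mono g.sub)

theorem strand_triv {n : ℕ} {N : Set E} (hN : IsPoly N) (hc : IsConnected N)
    {ι : (Fin n → ℝ) → E} (h : CubeT n N ι) (Q : Type*) [Group Q] (hQ : QTriv Q N) {p l : ℕ}
    (hp : p.Prime) (hpl : ¬ p ∣ l) (hl : ∀ q : Q, q ^ l = 1)
    {κ : V2 × (Fin n → ℝ) → V2 × (Fin n → ℝ)}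
    (hκ : Tube gam n (gam ×ˢ closedBall (0 : Fin n → ℝ) 2) κ)
    (hκ1 : MapsTo κ (gam ×ˢ closedBall (0 : Fin n → ℝ) 2) (gam ×ˢ closedBall (0 : Fin n → ℝ) 1))
    (hκ2 : ∀ (s : ℝ) (u : Fin n → ℝ), (κ (wnd s, u)).1 = wnd (p * s))
    (c : E × V2 → E × V2 → Q) (hcc : NCoc c (N ×ˢ gam))
    (ht : NTriv c ((fun q : V2 × (Fin n → ℝ) => (ι (κ q).2, (κ q).1)) ''
      (gam ×ˢ closedBall (0 : Fin n → ℝ) 2))) : NTriv c (N ×ˢ gam) := by
  have h0 : (0 : Fin n → ℝ) ∈ closedBall (0 : Fin n → ℝ) 1 := mem_closedBall_self zero_le_one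
  have h02 : (0 : Fin n → ℝ) ∈ closedBall (0 : Fin n → ℝ) 2 := mem_closedBall_self (by norm_num)
  have h12 : closedBall (0 : Fin n → ℝ) 1 ⊆ closedBall (0 : Fin n → ℝ) 2 :=
    closedBall_subset_closedBall (by norm_num)
  have hιc := h.pl.continuousOn
  have hκc := hκ.pl.continuousOn
  -- the cocycle on the solid torus
  obtain ⟨φ, hφ⟩ : ∃ φ : V2 × (Fin n → ℝ) → E × V2, ∀ q, φ q = (ι q.2, q.1) := ⟨_, fun _ => rfl⟩
  have hφc : ContinuousOn φ (gam ×ˢ closedBall (0 : Fin n → ℝ) 1) := by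
    have h1 : φ = fun q => (ι q.2, q.1) := funext hφ
    rw [h1]
    refine ContinuousOn.prodMk ?_ continuous_fst.continuousOn
    exact (hιc.mono h12).comp continuous_snd.continuousOn fun q hq => hq.2
  have hφm : φ '' (gam ×ˢ closedBall (0 : Fin n → ℝ) 1) ⊆ N ×ˢ gam := by
    rintro _ ⟨q, hq, rfl⟩
    rw [hφ]
    exact ⟨h.maps (h12 hq.2), hq.1⟩
  have hc₂ := NCoc.comp hφc (hcc.mono hφm)
  obtain ⟨τ, hτ1, hτ2⟩ := solid_torus (convex_closedBall (0 : Fin n → ℝ) 1) ⟨0, h0⟩ hc₂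
  have hm0 : ∀ z ∈ gam, (z, (0 : Fin n → ℝ)) ∈ gam ×ˢ closedBall (0 : Fin n → ℝ) 2 :=
    fun z hz => ⟨hz, h02⟩
  have hκ0 : ContinuousOn (fun z : V2 => κ (z, 0)) gam :=
    hκc.comp (Continuous.prodMk_left (0 : Fin n → ℝ)).continuousOn hm0
  have hκm0 : MapsTo (fun z : V2 => κ (z, 0)) gam (gam ×ˢ closedBall (0 : Fin n → ℝ) 1) :=
    fun z hz => hκ1 (hm0 z hz)
  have hτ3 := hτ2 (p : ℤ) 0 (fun z => κ (z, 0)) hκ0 hκm0 (fun s => by
    rw [hκ2, add_zero]
    norm_num)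
  have hloop : NTriv (fun a b => c (φ (κ (a, 0))) (φ (κ (b, 0)))) gam := by
    refine NTriv.comp (φ := fun z => φ (κ (z, 0))) (hφc.comp hκ0 hκm0) (ht.mono ?_)
    rintro _ ⟨z, hz, rfl⟩
    refine ⟨(z, 0), hm0 z hz, ?_⟩
    beta_reduce
    rw [hφ]
  have hτp : τ ^ p = 1 := by
    have := hτ3.1 hloop
    rwa [zpow_natCast] at this
  have hτ : τ = 1 := by
    have h1 : orderOf τ ∣ p := orderOf_dvd_of_pow_eq_one hτp
    have h2 : orderOf τ ∣ l := orderOf_dvd_of_pow_eq_one (hl τ)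
    have h3 : Nat.Coprime p l := (Nat.Prime.coprime_iff_not_dvd hp).2 hpl
    have h4 : orderOf τ ∣ 1 := by
      have := Nat.dvd_gcd h1 h2
      rwa [h3] at this
    exact orderOf_eq_one_iff.1 (Nat.dvd_one.1 h4)
  have hS := hτ1 hτ
  have hι0 : ι 0 ∈ N := h.maps h02
  have hgc : IsCompact gam := gam_mfd.1.isCompact
  refine NTriv.prod hN.isCompact hgc hc.isPreconnected gam_conn.isPreconnected hcc hι0
    (wnd_mem 0) ?_ ?_
  · rw [NTriv.slice_iff]
    refine hQ _ (NCoc.comp (φ := fun a => (a, wnd 0)) (Continuous.prodMk_left _).continuousOn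
      (hcc.mono ?_))
    rintro _ ⟨a, ha, rfl⟩
    exact ⟨ha, wnd_mem 0⟩
  · rw [NTriv.slice_iff']
    have h1 : NTriv (fun a b : V2 => c (φ (a, 0)) (φ (b, 0))) gam := by
      refine NTriv.comp (c := fun x y => c (φ x) (φ y)) (φ := fun z : V2 => (z, (0 : Fin n → ℝ)))
        (Continuous.prodMk_left _).continuousOn (hS.mono ?_)
      rintro _ ⟨z, hz, rfl⟩
      exact ⟨hz, h0⟩
    have h2 : (fun a b : V2 => c (φ (a, 0)) (φ (b, 0))) =
        fun b b' => c (ι 0, b) (ι 0, b') := by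
      funext a b
      rw [hφ, hφ]
    rwa [h2] at h1

end Pool.H54.UB
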