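import Pool.Agent.H54.UB.TUB

/-!
# Row STR: the tube around a closed braid with `p` strands in `gam × (cube)`

On `[0, 8p]` put
`X r = min (r/8) ((p-1) * max 0 (min 1 ((8p-2-r)/4)))`,
`Y r = max 0 (min 1 (min ((r - 8(p-1))/2) ((8p-r)/2)))`.
`X 0 = X (8p) = 0 = Y 0 = Y (8p)`, `0 ≤ X ≤ p-1`, `0 ≤ Y ≤ 1`.
Separation: if `r, r' = r + 8 i ∈ [0, 8p]`, `i ≥ 1` an integer and `(r, r') ≠ (0, 8p)` then
`|X r - X r'| ≥ 3/4` or `|Y r - Y r'| ≥ 3/4`:
if `r' ≤ 8(p-1)`: `X r' - X r = i`.  Otherwise `t = r' - 8(p-1) ∈ (0,8]`, `r = 8 j + t`, `j = p-1-i`,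
`X r = j + t/8`, `Y r = 0` (as `r ≤ 8(p-1)`; here `j + t/8 > 0`).  If `t ≤ 2`: `X r' = p-1` and
`p-1-j-t/8 ≥ 1 - 1/4`.  If `2 ≤ t ≤ 6`: `Y r' = 1`.  If `t ≥ 6`: `X r' = 0` and `X r ≥ 3/4`.

`Z z ∈ Fin n → ℝ`, with coordinates `X (p θ)/(2p)`, `Y (p θ)/(2p)`, `0, ..., 0`, `θ = ang z` (`pl_desc`);
`ψ z = wnd (p * ang z)`; `δ = 1/(16p)`; `κ (z,u) = (ψ z, Z z + δ • u)`.
* PL: `pl_desc`, `PLOn.prodMap`, `PLOn.add`.
* `‖Z z + δ u‖ ≤ 1/2 + 1/8 ≤ 1` for `‖u‖ ≤ 2`.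
* injective: `ψ z = ψ z'` gives `p θ' = p θ + 8 i`; if `i ≠ 0` the separation gives
  `‖Z z - Z z'‖ ≥ 3/(8p) > 1/(4p) ≥ ‖δ u - δ u'‖`.
* neighbourhood: given `(z, u)`, `‖u‖ < 2`, `z = wnd s`: points `(r, y)` near `κ (z,u)`: `r = wnd (p s')` with
  `s'` near `s` (`wnd_open`), `z' = wnd s'`, `u' = (y - Z z')/δ` has norm `< 2` by continuity of `Z`.
-/

open Set Topology Metric

namespace Pool.H54.UB

/-- first coordinate -/
noncomputable def STR_X (p r : ℝ) : ℝ :=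
  min (r / 8) ((p - 1) * max 0 (min 1 ((8 * p - 2 - r) / 4)))

/-- second coordinate -/
noncomputable def STR_Y (p r : ℝ) : ℝ :=
  max 0 (min 1 (min ((r - 8 * (p - 1)) / 2) ((8 * p - r) / 2)))

/-- the displacement -/
noncomputable def STR_V (n : ℕ) (p r : ℝ) : Fin n → ℝ := fun i =>
  if i.1 = 0 then STR_X p r / (2 * p) else if i.1 = 1 then STR_Y p r / (2 * p) else 0

theorem STR_X_low {p r : ℝ} (_hp : 2 ≤ p) (h : r ≤ 8 * (p - 1)) : STR_X p r = r / 8 := by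
  unfold STR_X
  have h1 : min 1 ((8 * p - 2 - r) / 4) = 1 := min_eq_left (by linarith)
  rw [h1, max_eq_right zero_le_one, mul_one]
  exact min_eq_left (by linarith)

theorem STR_X_mid {p r : ℝ} (_hp : 2 ≤ p) (h : 8 * (p - 1) ≤ r) (h' : r ≤ 8 * p - 6) :
    STR_X p r = p - 1 := by
  unfold STR_X
  have h1 : min 1 ((8 * p - 2 - r) / 4) = 1 := min_eq_left (by linarith)
  rw [h1, max_eq_right zero_le_one, mul_one]
  exact min_eq_right (by linarith)

theorem STR_X_high {p r : ℝ} (hp : 2 ≤ p) (h : 8 * p - 2 ≤ r) : STR_X p r = 0 := by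
  unfold STR_X
  have h1 : min 1 ((8 * p - 2 - r) / 4) = (8 * p - 2 - r) / 4 := min_eq_right (by linarith)
  rw [h1, max_eq_left (by linarith), mul_zero]
  exact min_eq_right (by linarith)

theorem STR_X_nonneg {p r : ℝ} (hp : 2 ≤ p) (h : 0 ≤ r) : 0 ≤ STR_X p r := by
  unfold STR_X
  refine le_min (by linarith) (mul_nonneg (by linarith) (le_max_left _ _))

theorem STR_X_le {p r : ℝ} (hp : 2 ≤ p) : STR_X p r ≤ p - 1 := by
  unfold STR_X
  refine (min_le_right _ _).trans ?_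
  have h1 : max 0 (min 1 ((8 * p - 2 - r) / 4)) ≤ 1 := max_le zero_le_one (min_le_left _ _)
  have h2 : (p - 1) * max 0 (min 1 ((8 * p - 2 - r) / 4)) ≤ (p - 1) * 1 :=
    mul_le_mul_of_nonneg_left h1 (by linarith)
  linarith

theorem STR_Y_low {p r : ℝ} (h : r ≤ 8 * (p - 1)) : STR_Y p r = 0 := by
  unfold STR_Y
  refine max_eq_left ((min_le_right _ _).trans ((min_le_left _ _).trans (by linarith)))

theorem STR_Y_end {p r : ℝ} (h : 8 * p ≤ r) : STR_Y p r = 0 := by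
  unfold STR_Y
  refine max_eq_left ((min_le_right _ _).trans ((min_le_right _ _).trans (by linarith)))

theorem STR_Y_mid {p r : ℝ} (h : 8 * p - 6 ≤ r) (h' : r ≤ 8 * p - 2) : STR_Y p r = 1 := by
  unfold STR_Y
  have h1 : min 1 (min ((r - 8 * (p - 1)) / 2) ((8 * p - r) / 2)) = 1 :=
    min_eq_left (le_min (by linarith) (by linarith))
  rw [h1, max_eq_right zero_le_one]

theorem STR_Y_nonneg (p r : ℝ) : 0 ≤ STR_Y p r := le_max_left _ _

theorem STR_Y_le (p r : ℝ) : STR_Y p r ≤ 1 := max_le zero_le_one (min_le_left _ _)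

theorem STR_sep {p : ℕ} (hp : 2 ≤ p) {r r' : ℝ} {i : ℤ} (hi : 1 ≤ i) (hr : 0 ≤ r)
    (hr' : r' < 8 * p) (h : r' = r + 8 * i) :
    3 / 4 ≤ |STR_X p r - STR_X p r'| ∨ 3 / 4 ≤ |STR_Y p r - STR_Y p r'| := by
  have hp' : (2 : ℝ) ≤ p := by exact_mod_cast hp
  have hi' : (1 : ℝ) ≤ i := by exact_mod_cast hi
  rcases le_total r' (8 * ((p : ℝ) - 1)) with h1 | h1
  · left
    rw [STR_X_low hp' h1, STR_X_low hp' (by linarith), h, abs_sub_comm]
    refine le_trans ?_ (le_abs_self _)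
    linarith
  · have hX : STR_X p r = r / 8 := STR_X_low hp' (by linarith)
    have hY : STR_Y p r = 0 := STR_Y_low (by linarith)
    rcases le_total r' (8 * (p : ℝ) - 6) with h2 | h2
    · left
      rw [STR_X_mid hp' h1 h2, hX, abs_sub_comm]
      refine le_trans ?_ (le_abs_self _)
      linarith
    · rcases le_total r' (8 * (p : ℝ) - 2) with h3 | h3
      · right
        rw [hY, STR_Y_mid h2 h3]
        norm_num
      · left
        rw [STR_X_high hp' h3, hX, sub_zero]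
        refine le_trans ?_ (le_abs_self _)
        have h4 : (i : ℝ) < p := by linarith
        have h5 : i < (p : ℤ) := by exact_mod_cast h4
        have h6 : i + 1 ≤ (p : ℤ) := h5
        have h7 : (i : ℝ) + 1 ≤ p := by exact_mod_cast h6
        linarith

theorem STR_aff (c d a b : ℝ) : PLOn (fun r : ℝ => c * r + d) (Icc a b) := by
  have h := ((PLOn.id (isPoly_Icc a b)).const_smul c).add (PLOn.const (isPoly_Icc a b) d)
  exact h.congr fun x _ => by simp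

theorem STR_X_pl (p a b : ℝ) : PLOn (STR_X p) (Icc a b) := by
  have hc : ∀ c : ℝ, PLOn (fun _ : ℝ => c) (Icc a b) := fun c => PLOn.const (isPoly_Icc a b) c
  have h := (STR_aff (1 / 8) 0 a b).min
    (((hc 0).max ((hc 1).min (STR_aff (-1 / 4) ((8 * p - 2) / 4) a b))).const_smul (p - 1))
  refine h.congr fun x _ => ?_
  simp only [STR_X, smul_eq_mul]
  congr 1
  · ring
  · congr 3
    ring

theorem STR_Y_pl (p a b : ℝ) : PLOn (STR_Y p) (Icc a b) := by
  have hc : ∀ c : ℝ, PLOn (fun _ : ℝ => c) (Icc a b) := fun c => PLOn.const (isPoly_Icc a b) c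
  have h := (hc 0).max ((hc 1).min ((STR_aff (1 / 2) (-(8 * (p - 1)) / 2) a b).min
    (STR_aff (-1 / 2) (8 * p / 2) a b)))
  refine h.congr fun x _ => ?_
  simp only [STR_Y]
  congr 3
  · ring
  · ring

theorem STR_V_pl (n : ℕ) (p a b : ℝ) : PLOn (STR_V n p) (Icc a b) := by
  refine PLOn.pi (isPoly_Icc a b) fun i => ?_
  by_cases h0 : i.1 = 0
  · refine ((STR_X_pl p a b).const_smul (1 / (2 * p))).congr fun x _ => ?_
    simp only [STR_V, if_pos h0, smul_eq_mul]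
    ring
  · by_cases h1 : i.1 = 1
    · refine ((STR_Y_pl p a b).const_smul (1 / (2 * p))).congr fun x _ => ?_
      simp only [STR_V, if_neg h0, if_pos h1, smul_eq_mul]
      ring
    · refine (PLOn.const (isPoly_Icc a b) (0 : ℝ)).congr fun x _ => ?_
      simp only [STR_V, if_neg h0, if_neg h1]

theorem STR_V_norm (n : ℕ) {p r : ℝ} (hp : 2 ≤ p) (hr : 0 ≤ r) : ‖STR_V n p r‖ ≤ 1 / 2 := by
  refine (pi_norm_le_iff_of_nonneg (by norm_num)).2 fun i => ?_
  have hp2 : 0 < 2 * p := by linarith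
  by_cases h0 : i.1 = 0
  · simp only [STR_V, if_pos h0, Real.norm_eq_abs]
    have h1 := STR_X_nonneg hp hr
    have h2 := STR_X_le (r := r) hp
    rw [abs_of_nonneg (div_nonneg h1 hp2.le), div_le_iff₀ hp2]
    linarith
  · by_cases h1 : i.1 = 1
    · simp only [STR_V, if_neg h0, if_pos h1, Real.norm_eq_abs]
      have h1 := STR_Y_nonneg p r
      have h2 := STR_Y_le p r
      rw [abs_of_nonneg (div_nonneg h1 hp2.le), div_le_iff₀ hp2]
      linarith
    · simp only [STR_V, if_neg h0, if_neg h1, norm_zero]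
      norm_num

theorem STR_V_sep {n : ℕ} (hn : 2 ≤ n) {p : ℕ} (hp : 2 ≤ p) {r r' : ℝ} {i : ℤ} (hi : 1 ≤ i)
    (hr : 0 ≤ r) (hr' : r' < 8 * p) (h : r' = r + 8 * i) :
    3 / (8 * p) ≤ ‖STR_V n p r - STR_V n p r'‖ := by
  have hp' : (2 : ℝ) ≤ p := by exact_mod_cast hp
  have hp2 : 0 < 2 * (p : ℝ) := by linarith
  have key : ∀ x y : ℝ, 3 / 4 ≤ |x - y| → 3 / (8 * (p : ℝ)) ≤ |x / (2 * p) - y / (2 * p)| := by
    intro x y hxy
    rw [← sub_div, abs_div, abs_of_pos hp2, le_div_iff₀ hp2]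
    have : 3 / (8 * (p : ℝ)) * (2 * p) = 3 / 4 := by
      field_simp
      norm_num
    rw [this]
    exact hxy
  rcases STR_sep hp hi hr hr' h with h1 | h1
  · refine (key _ _ h1).trans ?_
    have h2 := norm_le_pi_norm (STR_V n p r - STR_V n p r') ⟨0, by omega⟩
    simpa [STR_V] using h2
  · refine (key _ _ h1).trans ?_
    have h2 := norm_le_pi_norm (STR_V n p r - STR_V n p r') ⟨1, by omega⟩
    simpa [STR_V] using h2

/-- the core curve -/
noncomputable def STR_F (n : ℕ) (p : ℝ) (s : ℝ) : V2 × (Fin n → ℝ) := (wnd (p * s), STR_V n p (p * s))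

theorem STR_F_pl (n : ℕ) {p : ℝ} (hp : 2 ≤ p) : PLOn (STR_F n p) (Icc 0 8) := by
  have hm : MapsTo (fun s : ℝ => p * s + 0) (Icc 0 8) (Icc 0 (p * 8)) := by
    intro s hs
    have h0 : 0 ≤ s := hs.1
    have h8 : s ≤ 8 := hs.2
    refine ⟨?_, ?_⟩
    · have : 0 ≤ p * s := mul_nonneg (by linarith) h0
      simpa using this
    · have : p * s ≤ p * 8 := mul_le_mul_of_nonneg_left h8 (by linarith)
      simpa using this
  have h1 := (wnd_pl 0 (p * 8)).comp (STR_aff p 0 0 8) hm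
  have h2 := (STR_V_pl n p 0 (p * 8)).comp (STR_aff p 0 0 8) hm
  refine (h1.prodMk h2).congr fun x _ => ?_
  simp only [STR_F, add_zero]

theorem STR_F_per (n : ℕ) {p : ℕ} (hp : 2 ≤ p) : STR_F n p 8 = STR_F n p 0 := by
  have hp' : (2 : ℝ) ≤ p := by exact_mod_cast hp
  have h1 : wnd ((p : ℝ) * 8) = wnd ((p : ℝ) * 0) := by
    have := wnd_per ((p : ℝ) * 0) (p : ℤ)
    rw [← this]
    congr 1
    push_cast
    ring
  have h2 : STR_V n p ((p : ℝ) * 8) = STR_V n p ((p : ℝ) * 0) := by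
    funext i
    have hX : STR_X p ((p : ℝ) * 8) = STR_X p ((p : ℝ) * 0) := by
      rw [STR_X_high hp' (by linarith), STR_X_low hp' (by linarith)]
      simp
    have hY : STR_Y p ((p : ℝ) * 8) = STR_Y p ((p : ℝ) * 0) := by
      rw [STR_Y_end (by linarith), STR_Y_low (by linarith)]
    simp only [STR_V, hX, hY]
  simp only [STR_F, h1, h2]

/-- the affine map `((a, b), u) ↦ (a, b + δ u)` -/
noncomputable def STR_A (n : ℕ) (δ : ℝ) : (V2 × (Fin n → ℝ)) × (Fin n → ℝ) →ᵃ[ℝ] V2 × (Fin n → ℝ) :=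
  (((LinearMap.fst ℝ V2 (Fin n → ℝ)).comp
    (LinearMap.fst ℝ (V2 × (Fin n → ℝ)) (Fin n → ℝ))).prod
    ((LinearMap.snd ℝ V2 (Fin n → ℝ)).comp
      (LinearMap.fst ℝ (V2 × (Fin n → ℝ)) (Fin n → ℝ)) +
      δ • LinearMap.snd ℝ (V2 × (Fin n → ℝ)) (Fin n → ℝ))).toAffineMap

theorem STR_A_apply (n : ℕ) (δ : ℝ) (q : V2 × (Fin n → ℝ)) (u : Fin n → ℝ) :
    STR_A n δ (q, u) = (q.1, q.2 + δ • u) := rfl

theorem STR_cball (n : ℕ) (r : ℝ) : IsPoly (closedBall (0 : Fin n → ℝ) r) := by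
  rcases lt_or_ge r 0 with hr | hr
  · rw [closedBall_eq_empty.2 hr]
    exact IsPoly.empty
  · have h := isPoly_box (fun _ : Fin n => -r) (fun _ : Fin n => r)
    have h1 : {y : Fin n → ℝ | ∀ i, -r ≤ y i ∧ y i ≤ r} = closedBall (0 : Fin n → ℝ) r := by
      ext y
      rw [mem_closedBall_zero_iff, pi_norm_le_iff_of_nonneg hr]
      simp only [Set.mem_ofPred_eq, Real.norm_eq_abs, abs_le]
    rw [← h1]
    exact h

theorem strand_tube (n : ℕ) (hn : 2 ≤ n) (p : ℕ) (hp : 2 ≤ p) :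
    ∃ κ : V2 × (Fin n → ℝ) → V2 × (Fin n → ℝ),
      Tube gam n (gam ×ˢ closedBall (0 : Fin n → ℝ) 2) κ ∧
      MapsTo κ (gam ×ˢ closedBall (0 : Fin n → ℝ) 2) (gam ×ˢ closedBall (0 : Fin n → ℝ) 1) ∧
      ∀ (s : ℝ) (u : Fin n → ℝ), (κ (wnd s, u)).1 = wnd (p * s) := by
  have hp' : (2 : ℝ) ≤ p := by exact_mod_cast hp
  have hp0 : (0 : ℝ) < p := by linarith
  obtain ⟨hpl, hdesc⟩ := pl_desc (STR_F_pl n hp') (STR_F_per n hp)
  obtain ⟨δ, hδ⟩ : ∃ δ : ℝ, δ = 1 / (16 * p) := ⟨_, rfl⟩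
  have hδ0 : 0 < δ := by rw [hδ]; positivity
  have hδp : δ * (16 * p) = 1 := by rw [hδ]; field_simp
  obtain ⟨Q, hQ⟩ : ∃ Q : V2 → V2 × (Fin n → ℝ), Q = fun z => STR_F n p (ang z) := ⟨_, rfl⟩
  have hQpl : PLOn Q gam := by rw [hQ]; exact hpl
  have hQw : ∀ s : ℝ, (Q (wnd s)).1 = wnd (p * s) := by
    intro s
    obtain ⟨k, hk⟩ := ang_wnd s
    have h1 := wnd_per ((p : ℝ) * s) ((p : ℤ) * k)
    rw [← h1]
    simp only [hQ, STR_F, hk]
    congr 1
    push_cast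
    ring
  have hQ2 : ∀ z ∈ gam, ‖(Q z).2‖ ≤ 1 / 2 := by
    intro z hz
    have h1 := (ang_mem hz).1.1
    simp only [hQ, STR_F]
    exact STR_V_norm n hp' (mul_nonneg hp0.le h1)
  have hQ1 : ∀ z ∈ gam, (Q z).1 ∈ gam := by
    intro z hz
    simp only [hQ, STR_F]
    exact wnd_mem _
  obtain ⟨κ, hκ⟩ : ∃ κ : V2 × (Fin n → ℝ) → V2 × (Fin n → ℝ),
      κ = fun q => ((Q q.1).1, (Q q.1).2 + δ • q.2) := ⟨_, rfl⟩
  have hκa : ∀ z u, κ (z, u) = ((Q z).1, (Q z).2 + δ • u) := by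
    intro z u
    rw [hκ]
  have hκpl : PLOn κ (gam ×ˢ closedBall (0 : Fin n → ℝ) 2) := by
    have h1 := (hQpl.prodMap (PLOn.id (STR_cball n 2))).affine_comp (STR_A n δ)
    refine h1.congr fun q _ => ?_
    rw [hκ]
    exact STR_A_apply n δ (Q q.1) q.2
  have hmaps : MapsTo κ (gam ×ˢ closedBall (0 : Fin n → ℝ) 2)
      (gam ×ˢ closedBall (0 : Fin n → ℝ) 1) := by
    rintro ⟨z, u⟩ ⟨hz, hu⟩
    rw [hκa]
    refine ⟨hQ1 z hz, ?_⟩
    rw [mem_closedBall_zero_iff] at hu ⊢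
    simp only at hu ⊢
    have h1 : ‖(Q z).2 + δ • u‖ ≤ ‖(Q z).2‖ + ‖δ • u‖ := norm_add_le _ _
    have h2 := hQ2 z hz
    have h3 : ‖δ • u‖ ≤ δ * 2 := by
      rw [norm_smul, Real.norm_eq_abs, abs_of_pos hδ0]
      exact mul_le_mul_of_nonneg_left hu hδ0.le
    have h4 : δ * 32 ≤ 1 := by
      rw [← hδp]
      exact mul_le_mul_of_nonneg_left (by linarith) hδ0.le
    linarith
  have hinj1 : ∀ z ∈ gam, ∀ z' ∈ gam, ∀ u ∈ closedBall (0 : Fin n → ℝ) 2,
      ∀ u' ∈ closedBall (0 : Fin n → ℝ) 2, κ (z, u) = κ (z', u') → ∀ i : ℤ, 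
      (p : ℝ) * ang z' = p * ang z + 8 * i → ¬ 1 ≤ i := by
    intro z hz z' hz' u hu u' hu' he i hi h1i
    have hz1 := (ang_mem hz).1
    have hz1' := (ang_mem hz').1
    rw [hκa, hκa, Prod.mk.injEq] at he
    have he2 := he.2
    have hsep := STR_V_sep hn hp h1i (mul_nonneg hp0.le hz1.1)
      (show (p : ℝ) * ang z' < 8 * p by
        have := mul_lt_mul_of_pos_left hz1'.2 hp0
        linarith) hi
    have hQz : (Q z).2 = STR_V n p (p * ang z) := by rw [hQ]; rfl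
    have hQz' : (Q z').2 = STR_V n p (p * ang z') := by rw [hQ]; rfl
    rw [← hQz, ← hQz'] at hsep
    have h2 : (Q z).2 - (Q z').2 = δ • (u' - u) := by
      rw [smul_sub, sub_eq_sub_iff_add_eq_add, he2, add_comm]
    rw [h2, norm_smul, Real.norm_eq_abs, abs_of_pos hδ0] at hsep
    rw [mem_closedBall_zero_iff] at hu hu'
    have h3 : ‖u' - u‖ ≤ 4 := (norm_sub_le _ _).trans (by linarith)
    have h4 : δ * ‖u' - u‖ ≤ δ * 4 := mul_le_mul_of_nonneg_left h3 hδ0.le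
    have h5 : 3 / (8 * (p : ℝ)) ≤ δ * 4 := hsep.trans h4
    rw [div_le_iff₀ (by positivity)] at h5
    linarith
  refine ⟨κ, ⟨hκpl, ?_, ?_, ?_⟩, hmaps, ?_⟩
  · rintro ⟨z, u⟩ ⟨hz, hu⟩ ⟨z', u'⟩ ⟨hz', hu'⟩ he
    change z ∈ gam at hz
    change z' ∈ gam at hz'
    change u ∈ closedBall (0 : Fin n → ℝ) 2 at hu
    change u' ∈ closedBall (0 : Fin n → ℝ) 2 at hu'
    have he' := he
    rw [hκa, hκa, Prod.mk.injEq] at he'
    have hz1 := (ang_mem hz)
    have hz1' := (ang_mem hz')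
    have hw : wnd (p * ang z) = wnd (p * ang z') := by
      have h1 := he'.1
      simp only [hQ, STR_F] at h1
      exact h1
    obtain ⟨k, hk⟩ := wnd_eq_iff.1 hw
    have hk1 := hinj1 z hz z' hz' u hu u' hu' he k hk
    have hk2 := hinj1 z' hz' z hz u' hu' u hu he.symm (-k) (by push_cast; linarith)
    have hk0 : k = 0 := by omega
    rw [hk0] at hk
    simp only [Int.cast_zero, mul_zero, add_zero] at hk
    have hang : ang z' = ang z := mul_left_cancel₀ hp0.ne' hk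
    have hzz : z' = z := by rw [← hz1'.2, ← hz1.2, hang]
    subst hzz
    have h3 : δ • u = δ • u' := add_left_cancel he'.2
    have h4 : u = u' := smul_right_injective _ hδ0.ne' h3
    rw [h4]
  · intro q hq
    have h1 := hmaps hq
    exact ⟨h1.1, closedBall_subset_closedBall one_le_two h1.2⟩
  · rintro ⟨z, u⟩ ⟨hz, hu⟩
    change z ∈ gam at hz
    change u ∈ ball (0 : Fin n → ℝ) 2 at hu
    rw [mem_ball_zero_iff] at hu
    obtain ⟨s, hs, hsz⟩ := wnd_surj 0 hz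
    obtain ⟨η, hη⟩ : ∃ η : ℝ, η = δ * (2 - ‖u‖) / 2 := ⟨_, rfl⟩
    have hη0 : 0 < η := by
      rw [hη]
      have : 0 < δ * (2 - ‖u‖) := mul_pos hδ0 (by linarith)
      linarith
    have hG : Continuous fun t : ℝ => (Q (wnd t)).2 := by
      have h1 : Continuous fun t : ℝ => Q (wnd t) := by
        rw [← continuousOn_univ]
        exact hQpl.continuousOn.comp wnd_cont.continuousOn fun t _ => wnd_mem t
      exact continuous_snd.comp h1
    obtain ⟨ε, hε0, hε⟩ := Metric.continuousAt_iff.1 (hG.continuousAt (x := s)) η hη0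
    have hpε : 0 < (p : ℝ) * ε := mul_pos hp0 hε0
    have hW1 := wnd_open ((p : ℝ) * s) hpε
    have hW2 : ball ((Q z).2 + δ • u) η ∈
        𝓝[closedBall (0 : Fin n → ℝ) 2] ((Q z).2 + δ • u) :=
      mem_nhdsWithin_of_mem_nhds (ball_mem_nhds _ hη0)
    have hz1 : (Q z).1 = wnd (p * s) := by rw [← hsz, hQw]
    rw [hκa, hz1, nhdsWithin_prod_eq]
    refine Filter.mem_of_superset (Filter.prod_mem_prod hW1 hW2) ?_
    rintro ⟨r, y⟩ ⟨hr, hy⟩
    obtain ⟨t, ht, rfl⟩ := hr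
    have hst : |t / p - s| < ε := by
      have h1 : t / p - s = (t - p * s) / p := by field_simp
      rw [h1, abs_div, abs_of_pos hp0, div_lt_iff₀ hp0, abs_lt]
      have ht1 := ht.1
      have ht2 := ht.2
      constructor <;> linarith
    have hGd := hε (x := t / p) (by rw [Real.dist_eq]; exact hst)
    rw [hsz, dist_eq_norm] at hGd
    rw [mem_ball, dist_eq_norm] at hy
    refine ⟨(wnd (t / p), δ⁻¹ • (y - (Q (wnd (t / p))).2)), ⟨wnd_mem _, ?_⟩, ?_⟩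
    · rw [mem_closedBall_zero_iff]
      simp only
      rw [norm_smul, norm_inv, Real.norm_eq_abs, abs_of_pos hδ0, inv_mul_le_iff₀ hδ0]
      have h1 : y - (Q (wnd (t / p))).2 = (y - ((Q z).2 + δ • u)) -
          ((Q (wnd (t / p))).2 - (Q z).2) + δ • u := by abel
      have h2 : ‖δ • u‖ = δ * ‖u‖ := by
        rw [norm_smul, Real.norm_eq_abs, abs_of_pos hδ0]
      have h3 : ‖y - (Q (wnd (t / p))).2‖ ≤ η + η + δ * ‖u‖ := by
        rw [h1]
        refine (norm_add_le _ _).trans ?_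
        rw [h2]
        have := norm_sub_le (y - ((Q z).2 + δ • u)) ((Q (wnd (t / p))).2 - (Q z).2)
        linarith
      have h4 : η + η + δ * ‖u‖ = δ * 2 := by rw [hη]; ring
      linarith
    · rw [hκa, hQw, smul_inv_smul₀ hδ0.ne']
      refine Prod.ext ?_ ?_
      · simp only
        congr 1
        field_simp
      · simp only
        abel
  · intro s u
    rw [hκa]
    exact hQw s


end Pool.H54.UB
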