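import Pool.Agent.H54.UB.STM
import Pool.Agent.H54.UB.STQ
import Pool.Agent.H54.UB.STE
import Pool.Agent.H54.UB.STR
import Pool.Agent.H54.UB.MBP

/-!
# Row STA: the induction step for the test manifolds

`strand_tube` gives `κ`, `D.cube.tubeGam` and `Tube.comp` the tube
`θ q = (D.κ (κ q).2, (κ q).1)` in `X = N × gam`, a closed PL `(n+1)`-manifold
(`IsClosedPLManifold.prod`, `gam_mfd`).  `step_glue`, then `step_qtriv` with `strand_triv`, and
`step_evc`.
-/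

open Set Topology Metric

namespace Pool.H54.UB

theorem test_step {E : Type} [NormedAddCommGroup E] [NormedSpace ℝ E] [FiniteDimensional ℝ E]
    {n : ℕ} (hn : 3 ≤ n) {N : Set E} (hN : IsClosedPLManifold n N) (hc : IsConnected N)
    (p : ℕ) [Fact p.Prime] (l : ℕ) (hl : ¬ p ∣ l)
    (hQ : ∀ (Q : Type) [Group Q], (∀ q : Q, q ^ l = 1) → QTriv Q N) (D : EvC n N (ZMod p)) :
    ∃ N' : Set ((E × V2) × (V2 × (Fin n → ℝ)) × ℝ),
      IsClosedPLManifold (n + 1) N' ∧ IsConnected N' ∧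
      (∀ (Q : Type) [Group Q], (∀ q : Q, q ^ l = 1) → QTriv Q N') ∧
      Nonempty (EvC (n + 1) N' (ZMod p)) := by
  have hp : p.Prime := Fact.out
  obtain ⟨κ, hκ, hκ1, hκ2⟩ := strand_tube n (by omega) p hp.two_le
  have hm : MapsTo κ (gam ×ˢ closedBall (0 : Fin n → ℝ) 2) (gam ×ˢ ball (0 : Fin n → ℝ) 2) := by
    intro q hq
    have h1 := hκ1 hq
    exact ⟨h1.1, closedBall_subset_ball one_lt_two h1.2⟩
  have hθ : Tube gam n (N ×ˢ gam) (fun q => (D.κ (κ q).2, (κ q).1)) :=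
    Tube.comp D.cube.tubeGam hκ hm
  have hX : IsClosedPLManifold (n + 1) (N ×ˢ gam) := hN.prod gam_mfd
  have hXc : IsConnected (N ×ˢ gam) := hc.prod gam_conn
  obtain ⟨jA, jB, g, hM, hC⟩ := step_glue (by omega) hX hXc hθ
  refine ⟨_, hM, hC, ?_, ?_⟩
  · intro Q _ hl1
    refine step_qtriv hn hX.1 hθ g Q ?_
    intro c hcc ht
    exact strand_triv hN.1 hc D.cube Q (hQ Q hl1) hp hl hl1 hκ hκ1 hκ2 c hcc ht
  · exact step_evc (by omega) hN.1 p D hκ hκ1 hκ2 hθ g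

end Pool.H54.UB
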