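import Pool.Agent.H54.UB.NTQ
import Pool.Agent.H54.UB.NTF
import Pool.Agent.H54.UB.STA

/-!
# Row NTG: the test manifolds

* `base3`: `a, c` with `a l - p c = 1` (`p` prime, `p ∤ l`: Bezout), `torus_auto a p c l`, `base_glue`,
  `base_qtriv`, `base_evc`.
* `test_pre`: induction on `m ≥ 3` with `test_step`.
* `test_manifold`: `E` has dimension `r`; a linear equivalence `L : E ≃L[ℝ] (Fin r → ℝ)`
  (`ContinuousLinearEquiv.ofFinrankEq`); the image `L '' N` is a closed PL manifold (`IntPt.image`, or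
  directly), connected, `QTriv` (`QTriv.retract`), and `EvC.map`, `EvC.toEvalData`.
-/

open Set Topology Metric

namespace Pool.H54.UB

theorem base3 (p : ℕ) [Fact p.Prime] (l : ℕ) (hl : ¬ p ∣ l) :
    ∃ N : Set (V6 × ((V2 × ℝ) × V2) × ℝ), IsClosedPLManifold 3 N ∧ IsConnected N ∧
      (∀ (Q : Type) [Group Q], (∀ q : Q, q ^ l = 1) → QTriv Q N) ∧
      Nonempty (EvC 3 N (ZMod p)) := by
  have hp : p.Prime := Fact.out
  obtain ⟨a, c, hac⟩ : ∃ a c : ℤ, a * l - p * c = 1 := by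
    obtain ⟨u, v, h⟩ := Nat.isCoprime_iff_coprime.2 ((Nat.Prime.coprime_iff_not_dvd hp).2 hl)
    exact ⟨v, -u, by linear_combination h⟩
  obtain ⟨T, T', h1, h2, h3, h4, h5, h6, h7⟩ := torus_auto a p c l hac
  have hTm : MapsTo T (gam ×ˢ gam) (gam ×ˢ gam) := by
    intro q hq
    rw [← h3]
    exact ⟨q, hq, rfl⟩
  have hTf : ∀ s t : ℝ, T (wnd s, wnd t) = (wnd (a * s + p * t), wnd (c * s + l * t)) := by
    intro s t
    have := h4 s t
    rw [Int.cast_natCast, Int.cast_natCast] at this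
    exact this
  have hTf' : ∀ s t : ℝ, T' (wnd s, wnd t) = (wnd (l * s - p * t), wnd (-c * s + a * t)) := by
    intro s t
    have := h7 s t
    rw [Int.cast_natCast, Int.cast_natCast] at this
    exact this
  obtain ⟨jA, jB, g, hDB, hM, hC⟩ := base_glue h1 h2 h3
  exact ⟨_, hM, hC, fun Q _ hq => base_qtriv hp hl hac h1 h5 h6 hTm hTf hTf' g Q hq,
    base_evc p l h1 hTm hTf g hDB⟩

theorem test_pre (m : ℕ) (hm : 3 ≤ m) (p : ℕ) [Fact p.Prime] (l : ℕ) (hl : ¬ p ∣ l) :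
    ∃ (E : Type) (_ : NormedAddCommGroup E) (_ : NormedSpace ℝ E) (_ : FiniteDimensional ℝ E)
      (N : Set E), IsClosedPLManifold m N ∧ IsConnected N ∧
      (∀ (Q : Type) [Group Q], (∀ q : Q, q ^ l = 1) → QTriv Q N) ∧
      Nonempty (EvC m N (ZMod p)) := by
  induction m, hm using Nat.le_induction with
  | base =>
    obtain ⟨N, h1, h2, h3, h4⟩ := base3 p l hl
    exact ⟨V6 × ((V2 × ℝ) × V2) × ℝ, inferInstance, inferInstance, inferInstance, N, h1, h2, h3, h4⟩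
  | succ n hn ih =>
    obtain ⟨E, i1, i2, i3, N, h1, h2, h3, ⟨D⟩⟩ := ih
    obtain ⟨N', g1, g2, g3, g4⟩ := test_step hn h1 h2 p l hl h3 D
    exact ⟨(E × V2) × (V2 × (Fin n → ℝ)) × ℝ, inferInstance, inferInstance, inferInstance, N',
      g1, g2, g3, g4⟩

theorem test_manifold (m : ℕ) (hm : 3 ≤ m) (p : ℕ) [Fact p.Prime] (l : ℕ) (hl : ¬ p ∣ l) :
    ∃ (r : ℕ) (N : Set (Fin r → ℝ)), IsClosedPLManifold m N ∧ IsConnected N ∧
      (∀ (Q : Type) [Group Q], (∀ q : Q, q ^ l = 1) → QTriv Q N) ∧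
      Nonempty (EvalData m N (ZMod p)) := by
  obtain ⟨E, i1, i2, i3, N, h1, h2, h3, ⟨D⟩⟩ := test_pre m hm p l hl
  obtain ⟨L⟩ : Nonempty (E ≃L[ℝ] (Fin (Module.finrank ℝ E) → ℝ)) :=
    ⟨ContinuousLinearEquiv.ofFinrankEq (by simp)⟩
  obtain ⟨A, hA⟩ : ∃ A : E →ᵃ[ℝ] (Fin (Module.finrank ℝ E) → ℝ), ∀ v, A v = L v :=
    ⟨(L : E →ₗ[ℝ] (Fin (Module.finrank ℝ E) → ℝ)).toAffineMap, fun _ => rfl⟩
  have hpl : PLOn L N := (PLOn.affine A h1.1).congr fun v _ => hA v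
  refine ⟨Module.finrank ℝ E, L '' N, ⟨hpl.image, ?_⟩, h2.image _ L.continuous.continuousOn, ?_, ?_⟩
  · rintro _ ⟨x, hx, rfl⟩
    exact IntPt.image hpl L.injective.injOn hx (h1.2 x hx)
  · intro Q _ hq
    refine QTriv.retract (φ := L) (ψ := L.symm) L.continuous.continuousOn
      L.symm.continuous.continuousOn (mapsTo_image _ _) ?_ (fun y _ => L.apply_symm_apply y) (h3 Q hq)
    rintro _ ⟨x, hx, rfl⟩
    rw [L.symm_apply_apply]
    exact hx
  · obtain ⟨D'⟩ := D.map L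
    exact D'.toEvalData

end Pool.H54.UB
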