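import Pool.Agent.H54.UB.PUR

/-!
# Row TWO: a facet lies in exactly two top simplices

Proof.  `x` = barycentre of `r`, chart `(U, h)` at `x`, `L, L'` from `chart_refine` (`Y` = hulls of the
faces of `K`).  By `GC.exists_face_dim` (for the face `r` of `K`, an open neighbourhood `O` of `x` with
`O ∩ M ⊆ U` and `h (O ∩ U) ⊆ interior (cube m)`) there is an `L`-face `r₁` with `m` vertices,
`convexHull r₁ ⊆ convexHull r`, and `y ∈ O` with `L`-carrier `r₁`, `K`-carrier `r`.  `h y` has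
`L'`-carrier `h(r₁)` and is an interior point of the cube: `GC.two_of_interior` gives exactly two
`L'`-faces `h(a₁) ≠ h(b₁)` with `m+1` vertices containing `h(r₁)`, so `r₁ ⊆ a₁, b₁`.
Let `a, b` be the `K`-carriers of the barycentres of `a₁, b₁`; `m+1` vertices; `r ⊆ a, b` because
`y ∈ convexHull a₁ ⊆ convexHull a` has `K`-carrier `r`.

`a ≠ b`: suppose `a = b = insert u r`.  Let `λ` be the barycentric coordinate of `u` on
`convexHull a` (affine).  `a₁ = insert u₁ r₁`, `b₁ = insert v₁ r₁`, `λ = 0` on `r₁`, and `λ u₁ > 0`,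
`λ v₁ > 0` (otherwise `a₁ ⊆ convexHull r` would have `m+1` affinely independent points).
`u₁ - (λ u₁/λ v₁) v₁` has barycentric coordinate `0` at `u`, so it is `(1 - λ u₁/λ v₁)` times..: an affine
combination of `r`, hence of `r₁` (`m` affinely independent points in `affineSpan r` span it):
`u₁ = α v₁ + ∑ β_x x`, `α > 0`: contradiction with `GC.no_same_side`.

Any other `d ⊇ r` with `m+1` vertices: by `GC.exists_face_dim` applied to `d` at the point `y` with
arbitrarily small open neighbourhoods of `y` (finitely many `L`-faces, so one face `d₁` works for all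
small neighbourhoods, and then `y ∈ convexHull d₁` by closedness): `d₁` has `m+1` vertices,
`convexHull d₁ ⊆ convexHull d`, `r₁ ⊆ d₁` (`carrier_sub`).  So `d₁ = a₁` or `b₁`, and the `K`-carrier of the
barycentre of `d₁` is `d`: `d = a` or `d = b`.

`top_sides`: the same picture with a chart, in the form needed for orientations: for a facet `r` and
`a = insert u r`, `b = insert v r` the two top simplices and any chart `(U, h)` at the barycentre `x`
of `r` and any neighbourhood `O` of `x`: there are `m+1`-element sets `a₁ ⊆ convexHull a ∩ O`.. see the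
statement.  (Take `O` into account by intersecting it with the neighbourhood above; all of `a₁`, `b₁`
need not be inside `O`, only in `U`; this is what we state.)
-/

open Set Topology

namespace Pool.H54.UB

set_option linter.unusedSectionVars false

variable {E : Type*} [NormedAddCommGroup E] [NormedSpace ℝ E] [FiniteDimensional ℝ E]

theorem TWO_fun {ι : Type*} [Finite ι] (p : ι → E) (hp : AffineIndependent ℝ p) (c : ι → ℝ) :
    ∃ F : E →ᵃ[ℝ] ℝ, ∀ i, F (p i) = c i := by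
  classical
  rcases isEmpty_or_nonempty ι with hi | ⟨⟨i₀⟩⟩
  · exact ⟨AffineMap.const ℝ E 0, fun i => (hi.false i).elim⟩
  have hli := (affineIndependent_iff_linearIndependent_vsub ℝ p i₀).1 hp
  obtain ⟨g, hg⟩ := ((Finsupp.linearCombination ℝ (fun i : {x // x ≠ i₀} => c i - c i₀)).comp
    hli.repr).exists_extend
  have hg' : ∀ i : {x // x ≠ i₀}, g (p i -ᵥ p i₀) = c i - c i₀ := by
    intro i
    have hmem : (p i -ᵥ p i₀) ∈ Submodule.span ℝ (range fun i : {x // x ≠ i₀} => (p i -ᵥ p i₀ : E)) :=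
      Submodule.subset_span ⟨i, rfl⟩
    have h1 := congrArg (fun f => f ⟨_, hmem⟩) hg
    simp only [LinearMap.comp_apply, Submodule.subtype_apply] at h1
    rw [h1, hli.repr_eq_single i ⟨_, hmem⟩ rfl]
    simp
  refine ⟨g.toAffineMap + AffineMap.const ℝ E (c i₀ - g (p i₀)), fun i => ?_⟩
  by_cases h : i = i₀
  · subst h
    simp
  · have h1 := hg' ⟨i, h⟩
    simp only [vsub_eq_sub, map_sub] at h1
    simp only [AffineMap.coe_add, Pi.add_apply, LinearMap.coe_toAffineMap, AffineMap.const_apply]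
    linarith

theorem TWO_comb {ι : Type*} [Fintype ι] (p : ι → E) (z : E) (hz : z ∈ affineSpan ℝ (range p)) :
    ∃ w : ι → ℝ, ∑ i, w i = 1 ∧ z = ∑ i, w i • p i := by
  obtain ⟨w, hw, h⟩ := eq_affineCombination_of_mem_affineSpan_of_fintype hz
  refine ⟨w, hw, ?_⟩
  rw [h, Finset.affineCombination_eq_linear_combination _ _ _ hw]

theorem TWO_map {F : Type*} [NormedAddCommGroup F] [NormedSpace ℝ F] {ι : Type*} (s : Finset ι)
    (A : E →ᵃ[ℝ] F) (p : ι → E) (w : ι → ℝ) (hw : ∑ i ∈ s, w i = 1) :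
    A (∑ i ∈ s, w i • p i) = ∑ i ∈ s, w i • A (p i) := by
  rw [← Finset.affineCombination_eq_linear_combination _ _ _ hw, Finset.map_affineCombination _ _ _ hw,
    Finset.affineCombination_eq_linear_combination _ _ _ hw]
  rfl

theorem TWO_ind {s : Finset E} (hs : AffineIndependent ℝ (fun x : s => (x : E))) {n : ℕ}
    {p : Fin n → E} (hp : Function.Injective p) (hr : ∀ i, p i ∈ s) : AffineIndependent ℝ p := by
  have h := hs.comp_embedding (⟨fun i => (⟨p i, hr i⟩ : s), fun i j hij => hp (congrArg Subtype.val hij)⟩ : Fin n ↪ s)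
  exact h

theorem TWO_enum {s : Finset E} {n : ℕ} (h : s.card = n) :
    ∃ p : Fin n → E, Function.Injective p ∧ range p = (s : Set E) := by
  refine ⟨fun i => ((s.equivFinOfCardEq h).symm i : E), ?_, ?_⟩
  · intro i j hij
    exact (s.equivFinOfCardEq h).symm.injective (Subtype.ext hij)
  · ext z
    constructor
    · rintro ⟨i, rfl⟩
      exact ((s.equivFinOfCardEq h).symm i).2
    · intro hz
      exact ⟨s.equivFinOfCardEq h ⟨z, hz⟩, by simp⟩

theorem TWO_insert {r a : Finset E} {m : ℕ} (hr : r.card = m) (ha : a.card = m + 1) (h : r ⊆ a) :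
    ∃ u, u ∉ r ∧ (a : Set E) = insert u (r : Set E) := by
  classical
  obtain ⟨u, hu, hau⟩ := Finset.exists_eq_insert_iff.2 ⟨h, by rw [hr, ha]⟩
  exact ⟨u, hu, by rw [← hau, Finset.coe_insert]⟩

/-- equality of affine spans -/
theorem TWO_span {n : ℕ} {p q : Fin (n + 1) → E} (hp : AffineIndependent ℝ p)
    (hq : AffineIndependent ℝ q) (h : ∀ i, q i ∈ affineSpan ℝ (range p)) :
    affineSpan ℝ (range q) = affineSpan ℝ (range p) := by
  apply hq.affineSpan_eq_of_le_of_card_eq_finrank_add_one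
  · rw [affineSpan_le]
    rintro _ ⟨i, rfl⟩
    exact h i
  · rw [direction_affineSpan, hp.finrank_vectorSpan (n := n) (by simp), Fintype.card_fin]

theorem TWO_bary {L : GC E} {d : Finset E} (hd : d ∈ L.faces) : ∃ p, L.IsCarrier p d := by
  have h1 : (0 : ℝ) < d.card := by exact_mod_cast (L.ne d hd).card_pos
  refine ⟨∑ y ∈ d, (1 / (d.card : ℝ)) • y, hd, fun _ => 1 / (d.card : ℝ), fun _ _ => by positivity, ?_, rfl⟩
  rw [Finset.sum_const, nsmul_eq_mul]
  field_simp

/-- the local picture at a facet `r` of `K` with top simplices `a`, `b` -/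
structure TWO_Pic {m : ℕ} (K : GC E) (U : Set E) (h : E → Fin m → ℝ) (r a b : Finset E)
    (u₁ v₁ : E) (ρ : Fin m → E) (A B : E →ᵃ[ℝ] (Fin m → ℝ)) : Prop where
  ha : a ∈ K.faces
  hb : b ∈ K.faces
  hac : a.card = m + 1
  hbc : b.card = m + 1
  hra : r ⊆ a
  hrb : r ⊆ b
  hab : a ≠ b
  uniq : ∀ d ∈ K.faces, d.card = m + 1 → r ⊆ d → d = a ∨ d = b
  ρr : ∀ i, ρ i ∈ convexHull ℝ (r : Set E)
  ρi : AffineIndependent ℝ ρ
  iu : AffineIndependent ℝ (Fin.cons u₁ ρ : Fin (m + 1) → E)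
  iv : AffineIndependent ℝ (Fin.cons v₁ ρ : Fin (m + 1) → E)
  ua : u₁ ∈ convexHull ℝ (a : Set E)
  vb : v₁ ∈ convexHull ℝ (b : Set E)
  Ua : convexHull ℝ (range (Fin.cons u₁ ρ : Fin (m + 1) → E)) ⊆ U
  Ub : convexHull ℝ (range (Fin.cons v₁ ρ : Fin (m + 1) → E)) ⊆ U
  hA : EqOn h A (convexHull ℝ (range (Fin.cons u₁ ρ : Fin (m + 1) → E)))
  hB : EqOn h B (convexHull ℝ (range (Fin.cons v₁ ρ : Fin (m + 1) → E)))
  neg : sdet A (Fin.cons u₁ ρ : Fin (m + 1) → E) * sdet B (Fin.cons v₁ ρ : Fin (m + 1) → E) < 0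

theorem TWO_Pic.symm {m : ℕ} {K : GC E} {U : Set E} {h : E → Fin m → ℝ} {r a b : Finset E}
    {u₁ v₁ : E} {ρ : Fin m → E} {A B : E →ᵃ[ℝ] (Fin m → ℝ)} (P : TWO_Pic K U h r a b u₁ v₁ ρ A B) :
    TWO_Pic K U h r b a v₁ u₁ ρ B A where
  ha := P.hb
  hb := P.ha
  hac := P.hbc
  hbc := P.hac
  hra := P.hrb
  hrb := P.hra
  hab := P.hab.symm
  uniq := fun d hd hdc hrd => (P.uniq d hd hdc hrd).symm
  ρr := P.ρr
  ρi := P.ρi
  iu := P.iv
  iv := P.iu
  ua := P.vb
  vb := P.ua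
  Ua := P.Ub
  Ub := P.Ua
  hA := P.hB
  hB := P.hA
  neg := by rw [mul_comm]; exact P.neg

/-- the functional that vanishes on the facet -/
theorem TWO_func {a r : Finset E} (ha : AffineIndependent ℝ (fun x : a => (x : E))) {u : E}
    (hu : u ∉ r) (hau : (a : Set E) = insert u (r : Set E)) :
    ∃ F : E →ᵃ[ℝ] ℝ, (∀ x ∈ r, F x = 0) ∧ (∀ z ∈ convexHull ℝ (r : Set E), F z = 0) ∧
      ∀ z ∈ convexHull ℝ (a : Set E), 0 ≤ F z ∧ (F z = 0 → z ∈ convexHull ℝ (r : Set E)) := by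
  classical
  have hau' : a = insert u r := by
    apply Finset.coe_injective
    rw [hau, Finset.coe_insert]
  obtain ⟨F, hF⟩ := TWO_fun (fun x : a => (x : E)) ha (fun x => if (x : E) = u then 1 else 0)
  have hF0 : ∀ x ∈ r, F x = 0 := by
    intro x hx
    have hxa : x ∈ a := by rw [hau']; exact Finset.mem_insert_of_mem hx
    have h1 := hF ⟨x, hxa⟩
    have hne : x ≠ u := fun h => hu (h ▸ hx)
    simpa [hne] using h1
  have hFu : F u = 1 := by
    have hua : u ∈ a := by rw [hau']; exact Finset.mem_insert_self u r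
    have h1 := hF ⟨u, hua⟩
    simpa using h1
  refine ⟨F, hF0, ?_, ?_⟩
  · intro z hz
    obtain ⟨w, hw0, hw1, hwz⟩ := Finset.mem_convexHull'.1 hz
    rw [← hwz, TWO_map r F (fun x => x) w hw1]
    refine Finset.sum_eq_zero fun x hx => ?_
    rw [hF0 x hx, smul_zero]
  · intro z hz
    obtain ⟨w, hw0, hw1, hwz⟩ := Finset.mem_convexHull'.1 hz
    have h1 : F z = w u := by
      rw [← hwz, TWO_map a F (fun x => x) w hw1, hau', Finset.sum_insert hu, hFu]
      rw [Finset.sum_eq_zero (fun x hx => by rw [hF0 x hx, smul_zero])]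
      simp
    refine ⟨?_, fun h0 => ?_⟩
    · rw [h1]
      exact hw0 u (by rw [hau']; exact Finset.mem_insert_self u r)
    · rw [h1] at h0
      rw [hau', Finset.sum_insert hu, h0, zero_add] at hw1
      rw [hau', Finset.sum_insert hu, h0, zero_smul, zero_add] at hwz
      refine Finset.mem_convexHull'.2 ⟨w, fun x hx => hw0 x ?_, hw1, hwz⟩
      rw [hau']
      exact Finset.mem_insert_of_mem hx

/-- the two top simplices of `L` at `r₁` cannot lie in the same top simplex of `K` -/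
theorem TWO_ne {m : ℕ} (L : GC E) {a r a₁ b₁ r₁ : Finset E}
    (hai : AffineIndependent ℝ (fun x : a => (x : E))) (hac : a.card = m + 1) (hrc : r.card = m)
    (hra : r ⊆ a) (ha₁ : a₁ ∈ L.faces) (hb₁ : b₁ ∈ L.faces) (hr₁ : r₁.Nonempty)
    (hab : a₁ ≠ b₁) (hr₁c : r₁.card = m) (ha₁c : a₁.card = m + 1) (hb₁c : b₁.card = m + 1)
    (hra₁ : r₁ ⊆ a₁) (hrb₁ : r₁ ⊆ b₁)
    (hr₁r : convexHull ℝ (r₁ : Set E) ⊆ convexHull ℝ (r : Set E))
    (ha₁a : convexHull ℝ (a₁ : Set E) ⊆ convexHull ℝ (a : Set E))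
    (hb₁a : convexHull ℝ (b₁ : Set E) ⊆ convexHull ℝ (a : Set E)) : False := by
  classical
  obtain ⟨u, hu, hau⟩ := TWO_insert hrc hac hra
  obtain ⟨u₁, hu₁, hau₁⟩ := TWO_insert hr₁c ha₁c hra₁
  obtain ⟨v₁, hv₁, hbv₁⟩ := TWO_insert hr₁c hb₁c hrb₁
  obtain ⟨F, hF0, hFr, hFa⟩ := TWO_func hai hu hau
  have hpos : ∀ (d : Finset E) (z : E), d ∈ L.faces → d.card = m + 1 → z ∉ r₁ →
      (d : Set E) = insert z (r₁ : Set E) → convexHull ℝ (d : Set E) ⊆ convexHull ℝ (a : Set E) →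
      0 < F z := by
    intro d z hd hdc hz hdz hda
    have hzd : z ∈ convexHull ℝ (d : Set E) := subset_convexHull ℝ _ (by rw [hdz]; exact mem_insert z _)
    obtain ⟨h1, h2⟩ := hFa z (hda hzd)
    rcases h1.lt_or_eq with h3 | h3
    · exact h3
    · exfalso
      have h4 := h2 h3.symm
      have h5 : convexHull ℝ (d : Set E) ⊆ convexHull ℝ (r : Set E) := by
        refine convexHull_min ?_ (convex_convexHull ℝ _)
        rw [hdz]
        refine insert_subset h4 ?_
        exact (subset_convexHull ℝ _).trans hr₁r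
      have h6 := card_le_of_hull_subset (L.affineIndependent hd) h5
      omega
  have hFu := hpos a₁ u₁ ha₁ ha₁c hu₁ hau₁ ha₁a
  have hFv := hpos b₁ v₁ hb₁ hb₁c hv₁ hbv₁ hb₁a
  -- enumerate
  obtain ⟨p, hp, hpa⟩ := TWO_enum hac
  obtain ⟨q, hq, hqb⟩ := TWO_enum hb₁c
  have hpi : AffineIndependent ℝ p := TWO_ind hai hp fun i => by
    have : p i ∈ (a : Set E) := by rw [← hpa]; exact mem_range_self i
    exact this
  have hqi : AffineIndependent ℝ q := TWO_ind (L.affineIndependent hb₁) hq fun i => by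
    have : q i ∈ (b₁ : Set E) := by rw [← hqb]; exact mem_range_self i
    exact this
  have hsub : ∀ i, q i ∈ affineSpan ℝ (range p) := by
    intro i
    have h1 : q i ∈ convexHull ℝ (b₁ : Set E) := subset_convexHull ℝ _ (by rw [← hqb]; exact mem_range_self i)
    have h2 := hb₁a h1
    rw [← hpa] at h2
    exact convexHull_subset_affineSpan _ h2
  have hspan := TWO_span hpi hqi hsub
  have hu₁s : u₁ ∈ affineSpan ℝ (range q) := by
    rw [hspan, hpa]
    apply convexHull_subset_affineSpan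
    apply ha₁a
    exact subset_convexHull ℝ _ (by rw [hau₁]; exact mem_insert u₁ _)
  rw [hqb] at hu₁s
  have hu₁s' : u₁ ∈ affineSpan ℝ (range (fun x : b₁ => (x : E))) := by
    rw [Subtype.range_coe_subtype]
    exact hu₁s
  obtain ⟨w, hw1, hwu⟩ := TWO_comb _ _ hu₁s'
  obtain ⟨W, hW⟩ : ∃ W : E → ℝ, ∀ x : b₁, w x = W x :=
    ⟨fun x => if h : x ∈ b₁ then w ⟨x, h⟩ else 0, fun x => by simp⟩
  have hb₁' : b₁ = insert v₁ r₁ := by
    apply Finset.coe_injective
    rw [hbv₁, Finset.coe_insert]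
  have hw1' : W v₁ + ∑ x ∈ r₁, W x = 1 := by
    rw [← Finset.sum_insert hv₁, ← hb₁', ← hw1, ← Finset.sum_coe_sort b₁ W]
    exact Finset.sum_congr rfl fun x _ => (hW x).symm
  have hwu' : u₁ = W v₁ • v₁ + ∑ x ∈ r₁, W x • x := by
    rw [← Finset.sum_insert (f := fun x => W x • x) hv₁, ← hb₁']
    rw [← Finset.sum_coe_sort b₁ (fun x => W x • x)]
    conv_lhs => rw [hwu]
    exact Finset.sum_congr rfl fun x _ => by rw [hW x]
  have hFeq : F u₁ = W v₁ * F v₁ := by
    have h1 : u₁ = ∑ x ∈ b₁, W x • x := by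
      rw [hb₁', Finset.sum_insert hv₁]
      exact hwu'
    have h2 : ∑ x ∈ b₁, W x = 1 := by
      rw [hb₁', Finset.sum_insert hv₁]
      exact hw1'
    rw [h1, TWO_map b₁ F (fun x => x) W h2, hb₁', Finset.sum_insert hv₁]
    rw [Finset.sum_eq_zero (fun x hx => by
      rw [hFr x (hr₁r (subset_convexHull ℝ _ hx)), smul_zero])]
    simp
  have hα : 0 < W v₁ := by
    by_contra hcon
    have h1 : W v₁ * F v₁ ≤ 0 := mul_nonpos_of_nonpos_of_nonneg (not_lt.1 hcon) hFv.le
    linarith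
  exact L.no_same_side ha₁ hb₁ hab hr₁ hau₁ hbv₁ hu₁ hv₁ hα hw1' hwu'

theorem TWO_exists_pic {m : ℕ} {M : Set E} (hM : IsClosedPLManifold m M) (K : GC E)
    (hK : K.space = M) {r : Finset E} (hr : r ∈ K.faces) (hrc : r.card = m) {U : Set E}
    {h : E → Fin m → ℝ} {x : E} (hx : K.IsCarrier x r) (hc : ChartAt m M U h x) :
    ∃ (a b : Finset E) (u₁ v₁ : E) (ρ : Fin m → E) (A B : E →ᵃ[ℝ] (Fin m → ℝ)),
      TWO_Pic K U h r a b u₁ v₁ ρ A B := by
  classical
  obtain ⟨⟨hUM, hPL, hinj, himg⟩, hxU, hnhd, hint⟩ := hc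
  obtain ⟨Y, hY1, hY2⟩ := K.exists_hulls
  obtain ⟨L, L', hLs, hLY, hLaff, hL's, hL'f, hL'c, hL'h⟩ :=
    chart_refine ⟨hUM, hPL, hinj, himg⟩ Y hY2
  have hLad : ∀ s ∈ K.faces, L.Adapted (convexHull ℝ (s : Set E)) :=
    fun s hs => hLY _ ((hY1 _).2 ⟨s, hs, rfl⟩)
  have hcont : ContinuousOn h U := hPL.continuousOn
  obtain ⟨O, hO, hxO, hOM, hOint⟩ : ∃ O : Set E, IsOpen O ∧ x ∈ O ∧ O ∩ M ⊆ U ∧
      ∀ y ∈ O ∩ U, h y ∈ interior (cube m) := by
    have h1 : h ⁻¹' interior (cube m) ∈ 𝓝[U] x :=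
      (hcont x hxU).preimage_mem_nhdsWithin (isOpen_interior.mem_nhds (interior_cube_mem hint))
    obtain ⟨O1, hO1, hx1, hs1⟩ := mem_nhdsWithin.1 hnhd
    obtain ⟨O2, hO2, hx2, hs2⟩ := mem_nhdsWithin.1 h1
    exact ⟨O1 ∩ O2, hO1.inter hO2, ⟨hx1, hx2⟩, fun y hy => hs1 ⟨hy.1.1, hy.2⟩,
      fun y hy => hs2 ⟨hy.1.2, hy.2⟩⟩
  have hKM : ∀ s ∈ K.faces, convexHull ℝ (s : Set E) ⊆ M := by
    rw [← hK]
    exact fun s hs => Set.subset_biUnion_of_mem (u := fun s : Finset E => convexHull ℝ (s : Set E)) hs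
  obtain ⟨r₁, hr₁, hr₁c, hr₁r, y, hyO, hyL, hyK⟩ := GC.exists_face_dim hr (hLad r hr) hO hxO
    hx.mem_hull (by rw [hLs]; exact fun z hz => hOM ⟨hz.2, hKM r hr hz.1⟩)
  rw [hrc] at hr₁c
  have hLU : ∀ s ∈ L.faces, convexHull ℝ (s : Set E) ⊆ U := by
    rw [← hLs]
    exact fun s hs => Set.subset_biUnion_of_mem (u := fun s : Finset E => convexHull ℝ (s : Set E)) hs
  have hLU' : ∀ s ∈ L.faces, (s : Set E) ⊆ U := fun s hs => (subset_convexHull ℝ _).trans (hLU s hs)
  have hyU : y ∈ U := hLU r₁ hr₁ hyL.mem_hull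
  have himgL : ∀ s ∈ L.faces, s.image h ∈ L'.faces := fun s hs =>
    (hL'f _).2 ⟨s, hs, by rw [Finset.coe_image]⟩
  have hcard : ∀ s ∈ L.faces, (s.image h).card = s.card := fun s hs =>
    Finset.card_image_of_injOn (hinj.mono (hLU' s hs))
  have hyL' : L'.IsCarrier (h y) (r₁.image h) := hL'c y r₁ hyL _ (by rw [Finset.coe_image])
  obtain ⟨a', ha', b', hb', hab', hac', hbc', hra', hrb', huniq'⟩ :=
    L'.two_of_interior (himgL r₁ hr₁) (by rw [hcard r₁ hr₁, hr₁c]) hyL'
      (by rw [hL's]; exact hOint y ⟨hyO, hyU⟩)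
  have pull : ∀ d' ∈ L'.faces, d'.card = m + 1 → r₁.image h ⊆ d' →
      ∃ d ∈ L.faces, d.image h = d' ∧ d.card = m + 1 ∧ r₁ ⊆ d := by
    intro d' hd' hdc' hrd'
    obtain ⟨d, hd, hdd'⟩ := (hL'f d').1 hd'
    have h1 : d.image h = d' := by
      apply Finset.coe_injective
      rw [Finset.coe_image, hdd']
    refine ⟨d, hd, h1, ?_, ?_⟩
    · rw [← hcard d hd, h1, hdc']
    · intro z hz
      have h2 : h z ∈ d.image h := by
        rw [h1]
        exact hrd' (Finset.mem_image_of_mem h hz)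
      obtain ⟨z', hz', hzz'⟩ := Finset.mem_image.1 h2
      rw [← hinj (hLU' d hd hz') (hLU' r₁ hr₁ hz) hzz']
      exact hz'
  obtain ⟨a₁, ha₁, rfl, ha₁c, hra₁⟩ := pull a' ha' hac' hra'
  obtain ⟨b₁, hb₁, rfl, hb₁c, hrb₁⟩ := pull b' hb' hbc' hrb'
  have hab₁ : a₁ ≠ b₁ := fun h => hab' (by rw [h])
  have up : ∀ d ∈ L.faces, d.card = m + 1 → r₁ ⊆ d →
      ∃ e ∈ K.faces, e.card = m + 1 ∧ r ⊆ e ∧ convexHull ℝ (d : Set E) ⊆ convexHull ℝ (e : Set E) ∧
        ∀ z, L.IsCarrier z d → K.IsCarrier z e := by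
    intro d hd hdc hrd
    obtain ⟨p, hp⟩ := TWO_bary hd
    have hpM : p ∈ K.space := by
      rw [hK]
      exact hUM (hLU d hd hp.mem_hull)
    obtain ⟨e, he⟩ := GC.exists_carrier' hpM
    have hde : convexHull ℝ (d : Set E) ⊆ convexHull ℝ (e : Set E) :=
      (GC.carrier_refine hLad hp hp he).2
    have hec : e.card = m + 1 := by
      apply le_antisymm ((GC.pure hM K hK).2 e he.1)
      rw [← hdc]
      exact card_le_of_hull_subset (L.affineIndependent hd) hde
    refine ⟨e, he.1, hec, ?_, hde, fun z hz => (GC.carrier_refine hLad hp hz he).1⟩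
    have hye : y ∈ convexHull ℝ (e : Set E) :=
      hde (convexHull_mono (by exact_mod_cast hrd) hyL.mem_hull)
    exact GC.carrier_sub he.1 hye hyK
  obtain ⟨a, ha, hac, hra, haa, hca⟩ := up a₁ ha₁ ha₁c hra₁
  obtain ⟨b, hb, hbc, hrb, hbb, hcb⟩ := up b₁ hb₁ hb₁c hrb₁
  have hr₁ne : r₁.Nonempty := L.ne r₁ hr₁
  have hab : a ≠ b := by
    intro hab
    subst hab
    exact TWO_ne L (K.affineIndependent ha) hac hrc hra ha₁ hb₁ hr₁ne hab₁ hr₁c ha₁c hb₁c hra₁ hrb₁
      hr₁r haa hbb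
  have huniq : ∀ d ∈ K.faces, d.card = m + 1 → r ⊆ d → d = a ∨ d = b := by
    intro d hd hdc hrd
    obtain ⟨V, hV, hVs⟩ := GC.exists_nhd_star hyL
    have hyd : y ∈ convexHull ℝ (d : Set E) :=
      convexHull_mono (by exact_mod_cast hrd) hyK.mem_hull
    obtain ⟨d₁, hd₁, hd₁c, hd₁d, z, hzO, hzL, hzK⟩ := GC.exists_face_dim (L := L) hd (hLad d hd)
      (O := O ∩ interior V) (hO.inter isOpen_interior) (x := y)
      ⟨hyO, mem_interior_iff_mem_nhds.2 hV⟩ hyd
      (by rw [hLs]; exact fun z hz => hOM ⟨hz.2.1, hKM d hd hz.1⟩)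
    have hzU : z ∈ L.space := by
      rw [hLs]
      exact hLU d₁ hd₁ hzL.mem_hull
    have hrd₁ : r₁ ⊆ d₁ := hVs z ⟨interior_subset hzO.2, hzU⟩ d₁ hzL
    have hsub : r₁.image h ⊆ d₁.image h := Finset.image_subset_image hrd₁
    have hinjL : ∀ c ∈ L.faces, c.image h = d₁.image h → c = d₁ := by
      intro c hcL hcd
      apply Finset.coe_injective
      have h1 : h '' (c : Set E) = h '' (d₁ : Set E) := by
        rw [← Finset.coe_image, hcd, Finset.coe_image]
      exact (hinj.image_eq_image_iff (hLU' c hcL) (hLU' d₁ hd₁)).1 h1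
    rcases huniq' (d₁.image h) (himgL d₁ hd₁) (by rw [hcard d₁ hd₁, hd₁c, hdc]) hsub with h1 | h1
    · left
      have h2 := hinjL a₁ ha₁ h1.symm
      rw [← h2] at hzL
      exact GC.carrier_unique hzK (hca z hzL)
    · right
      have h2 := hinjL b₁ hb₁ h1.symm
      rw [← h2] at hzL
      exact GC.carrier_unique hzK (hcb z hzL)
  obtain ⟨u₁, hu₁, hau₁⟩ := TWO_insert hr₁c ha₁c hra₁
  obtain ⟨v₁, hv₁, hbv₁⟩ := TWO_insert hr₁c hb₁c hrb₁
  obtain ⟨ρ, hρ, hρr⟩ := TWO_enum hr₁c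
  have hρm : ∀ i, ρ i ∈ r₁ := by
    intro i
    have h1 : ρ i ∈ (r₁ : Set E) := by
      rw [← hρr]
      exact mem_range_self i
    exact h1
  have hru : range (Fin.cons u₁ ρ : Fin (m + 1) → E) = (a₁ : Set E) := by
    rw [Fin.range_cons, hρr, hau₁]
  have hrv : range (Fin.cons v₁ ρ : Fin (m + 1) → E) = (b₁ : Set E) := by
    rw [Fin.range_cons, hρr, hbv₁]
  have hju : Function.Injective (Fin.cons u₁ ρ : Fin (m + 1) → E) := by
    rw [Fin.cons_injective_iff]
    exact ⟨by rw [hρr]; exact hu₁, hρ⟩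
  have hjv : Function.Injective (Fin.cons v₁ ρ : Fin (m + 1) → E) := by
    rw [Fin.cons_injective_iff]
    exact ⟨by rw [hρr]; exact hv₁, hρ⟩
  have hmu : ∀ i, (Fin.cons u₁ ρ : Fin (m + 1) → E) i ∈ a₁ := by
    intro i
    have h1 : (Fin.cons u₁ ρ : Fin (m + 1) → E) i ∈ (a₁ : Set E) := by
      rw [← hru]
      exact mem_range_self i
    exact h1
  have hmv : ∀ i, (Fin.cons v₁ ρ : Fin (m + 1) → E) i ∈ b₁ := by
    intro i
    have h1 : (Fin.cons v₁ ρ : Fin (m + 1) → E) i ∈ (b₁ : Set E) := by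
      rw [← hrv]
      exact mem_range_self i
    exact h1
  obtain ⟨A, hA⟩ := hLaff a₁ ha₁
  obtain ⟨B, hB⟩ := hLaff b₁ hb₁
  have hu₁a : u₁ ∈ a₁ := by
    have := hmu 0
    rwa [Fin.cons_zero] at this
  have hv₁b : v₁ ∈ b₁ := by
    have := hmv 0
    rwa [Fin.cons_zero] at this
  have hopp := L'.opposite (himgL a₁ ha₁) (himgL b₁ hb₁) (by rw [hcard a₁ ha₁, ha₁c])
    (by rw [hcard b₁ hb₁, hb₁c]) hab' (fun i => h (ρ i))
    (fun i j hij => hρ (hinj (hLU' r₁ hr₁ (hρm i)) (hLU' r₁ hr₁ (hρm j)) hij))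
    (fun i => Finset.mem_image_of_mem h (hra₁ (hρm i)))
    (fun i => Finset.mem_image_of_mem h (hrb₁ (hρm i)))
    (u := h u₁) (v := h v₁) (Finset.mem_image_of_mem h hu₁a)
    (by
      rintro ⟨i, hi⟩
      have h1 := hinj (hLU' r₁ hr₁ (hρm i)) (hLU' a₁ ha₁ hu₁a) hi
      exact hu₁ (h1 ▸ hρm i))
    (Finset.mem_image_of_mem h hv₁b)
    (by
      rintro ⟨i, hi⟩
      have h1 := hinj (hLU' r₁ hr₁ (hρm i)) (hLU' b₁ hb₁ hv₁b) hi
      exact hv₁ (h1 ▸ hρm i))
  have hsA : sdet A (Fin.cons u₁ ρ : Fin (m + 1) → E) =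
      sdet (fun x : Fin m → ℝ => x) (Fin.cons (h u₁) (fun i => h (ρ i)) : Fin (m + 1) → (Fin m → ℝ)) := by
    rw [sdet_congr (h' := h) (fun i => (hA (subset_convexHull ℝ _ (hmu i))).symm), sdet_comp]
    refine congrArg _ ?_
    funext i
    refine Fin.cases ?_ (fun j => ?_) i
    · simp
    · simp
  have hsB : sdet B (Fin.cons v₁ ρ : Fin (m + 1) → E) =
      sdet (fun x : Fin m → ℝ => x) (Fin.cons (h v₁) (fun i => h (ρ i)) : Fin (m + 1) → (Fin m → ℝ)) := by
    rw [sdet_congr (h' := h) (fun i => (hB (subset_convexHull ℝ _ (hmv i))).symm), sdet_comp]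
    refine congrArg _ ?_
    funext i
    refine Fin.cases ?_ (fun j => ?_) i
    · simp
    · simp
  refine ⟨a, b, u₁, v₁, ρ, A, B, ?_⟩
  exact
    { ha := ha
      hb := hb
      hac := hac
      hbc := hbc
      hra := hra
      hrb := hrb
      hab := hab
      uniq := huniq
      ρr := fun i => hr₁r (subset_convexHull ℝ _ (hρm i))
      ρi := TWO_ind (L.affineIndependent hr₁) hρ hρm
      iu := TWO_ind (L.affineIndependent ha₁) hju hmu
      iv := TWO_ind (L.affineIndependent hb₁) hjv hmv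
      ua := haa (subset_convexHull ℝ _ hu₁a)
      vb := hbb (subset_convexHull ℝ _ hv₁b)
      Ua := by rw [hru]; exact hLU a₁ ha₁
      Ub := by rw [hrv]; exact hLU b₁ hb₁
      hA := by rw [hru]; exact hA
      hB := by rw [hrv]; exact hB
      neg := by rw [hsA, hsB]; exact hopp }

theorem TWO_open {n : ℕ} {p q : Fin (n + 1) → E} (hp : AffineIndependent ℝ p)
    (hq : AffineIndependent ℝ q) (hqp : ∀ i, q i ∈ convexHull ℝ (range p)) :
    ∃ O : Set E, IsOpen O ∧ (O ∩ convexHull ℝ (range p)).Nonempty ∧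
      O ∩ convexHull ℝ (range p) ⊆ convexHull ℝ (range q) := by
  classical
  have hF : ∀ i : Fin (n + 1), ∃ F : E →ᵃ[ℝ] ℝ, ∀ j, F (q j) = if i = j then 1 else 0 :=
    fun i => TWO_fun q hq fun j => if i = j then 1 else 0
  choose F hF using hF
  have hval : ∀ (w : Fin (n + 1) → ℝ), ∑ j, w j = 1 → ∀ i, F i (∑ j, w j • q j) = w i := by
    intro w hw i
    rw [TWO_map _ (F i) q w hw]
    simp [hF]
  refine ⟨{y | ∀ i, 0 < F i y}, ?_, ?_, ?_⟩
  · have h1 : {y : E | ∀ i, 0 < F i y} = ⋂ i, {y | 0 < F i y} := by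
      ext y
      simp
    rw [h1]
    exact isOpen_iInter_of_finite fun i =>
      isOpen_lt continuous_const (F i).continuous_of_finiteDimensional
  · have h1 : ∑ _j : Fin (n + 1), (1 / ((n : ℝ) + 1)) = 1 := by
      rw [Finset.sum_const, Finset.card_univ, Fintype.card_fin, nsmul_eq_mul]
      push_cast
      field_simp
    refine ⟨∑ j, (1 / ((n : ℝ) + 1)) • q j, ?_, ?_⟩
    · intro i
      rw [hval (fun _ => 1 / ((n : ℝ) + 1)) h1 i]
      positivity
    · exact (convex_convexHull ℝ _).sum_mem (fun i _ => by positivity) h1 (fun i _ => hqp i)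
  · rintro y ⟨hy, hyp⟩
    have hspan := TWO_span hp hq fun i => convexHull_subset_affineSpan _ (hqp i)
    have h1 : y ∈ affineSpan ℝ (range q) := by
      rw [hspan]
      exact convexHull_subset_affineSpan _ hyp
    obtain ⟨w, hw, rfl⟩ := TWO_comb q y h1
    refine (convex_convexHull ℝ _).sum_mem (fun i _ => ?_) hw
      (fun i _ => subset_convexHull ℝ _ (mem_range_self i))
    have h2 := hy i
    rw [hval w hw i] at h2
    exact h2.le

theorem TWO_sdet {m : ℕ} (A : E →ᵃ[ℝ] (Fin m → ℝ)) (u u₁ : E) (t ρ : Fin m → E)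
    (w : Fin (m + 1) → ℝ) (hw : ∑ k, w k = 1)
    (hu₁ : u₁ = ∑ k, w k • (Fin.cons u t : Fin (m + 1) → E) k) (W : Matrix (Fin m) (Fin m) ℝ)
    (hW : ∀ i, ∑ j, W i j = 1) (hρ : ∀ i, ρ i = ∑ j, W i j • t j) :
    sdet A (Fin.cons u₁ ρ : Fin (m + 1) → E) =
      w 0 * W.det * sdet A (Fin.cons u t : Fin (m + 1) → E) := by
  have h1 := sdet_comb A (Fin.cons u t : Fin (m + 1) → E) (Fin.cons u₁ ρ : Fin (m + 1) → E)
    (Matrix.of (Fin.cons w (fun i => (Fin.cons 0 (W i) : Fin (m + 1) → ℝ)) :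
      Fin (m + 1) → Fin (m + 1) → ℝ)) ?_ ?_
  · rw [h1]
    congr 1
    rw [Matrix.det_succ_column_zero, Fin.sum_univ_succ]
    rw [Finset.sum_eq_zero (fun i _ => by simp)]
    have h2 : (Matrix.of (Fin.cons w (fun i => (Fin.cons 0 (W i) : Fin (m + 1) → ℝ)) :
        Fin (m + 1) → Fin (m + 1) → ℝ)).submatrix (Fin.succAbove 0) Fin.succ = W := by
      ext i j
      simp
    rw [h2]
    simp
  · intro i
    refine Fin.cases ?_ (fun j => ?_) i
    · simpa using hw
    · rw [Fin.sum_univ_succ]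
      simpa using hW j
  · intro i
    refine Fin.cases ?_ (fun j => ?_) i
    · simpa using hu₁
    · rw [Fin.sum_univ_succ]
      simpa using hρ j

theorem TWO_weights {n : ℕ} {p : Fin n → E} (hp : Function.Injective p) {s : Finset E}
    (hs : range p = (s : Set E)) {z : E} (hz : z ∈ convexHull ℝ (s : Set E)) :
    ∃ w : Fin n → ℝ, (∀ i, 0 ≤ w i) ∧ ∑ i, w i = 1 ∧ z = ∑ i, w i • p i := by
  classical
  have hs' : s = Finset.univ.image p := by
    apply Finset.coe_injective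
    rw [← hs, Finset.coe_image, Finset.coe_univ, image_univ]
  obtain ⟨w, hw0, hw1, hwz⟩ := Finset.mem_convexHull'.1 hz
  rw [hs', Finset.sum_image (fun i _ j _ h => hp h)] at hw1 hwz
  refine ⟨fun i => w (p i), fun i => hw0 _ ?_, hw1, hwz.symm⟩
  rw [hs']
  exact Finset.mem_image_of_mem p (Finset.mem_univ i)

/-- The local statement on sides, for given enumerations of the simplices. -/
theorem TWO_side {m : ℕ} (hm : 1 ≤ m) {K : GC E} {U : Set E} {h : E → Fin m → ℝ}
    {r a b : Finset E} {u₁ v₁ : E} {ρ : Fin m → E} {A B : E →ᵃ[ℝ] (Fin m → ℝ)}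
    (P : TWO_Pic K U h r a b u₁ v₁ ρ A B) {t : Fin m → E} {u v : E}
    (hu : Function.Injective (Fin.cons u t : Fin (m + 1) → E))
    (hv : Function.Injective (Fin.cons v t : Fin (m + 1) → E)) (hr : range t = (r : Set E))
    (ha : range (Fin.cons u t : Fin (m + 1) → E) = (a : Set E))
    (hb : range (Fin.cons v t : Fin (m + 1) → E) = (b : Set E)) :
    (∀ i, A (t i) = B (t i)) ∧
      (∃ O : Set E, IsOpen O ∧
        (O ∩ convexHull ℝ (range (Fin.cons u t : Fin (m + 1) → E))).Nonempty ∧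
        O ∩ convexHull ℝ (range (Fin.cons u t : Fin (m + 1) → E)) ⊆ U ∧
        EqOn h A (O ∩ convexHull ℝ (range (Fin.cons u t : Fin (m + 1) → E)))) ∧
      (∃ O : Set E, IsOpen O ∧
        (O ∩ convexHull ℝ (range (Fin.cons v t : Fin (m + 1) → E))).Nonempty ∧
        O ∩ convexHull ℝ (range (Fin.cons v t : Fin (m + 1) → E)) ⊆ U ∧
        EqOn h B (O ∩ convexHull ℝ (range (Fin.cons v t : Fin (m + 1) → E)))) ∧
      sdet A (Fin.cons u t : Fin (m + 1) → E) * sdet B (Fin.cons v t : Fin (m + 1) → E) < 0 := by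
  classical
  have ht : Function.Injective t := (Fin.cons_injective_iff.1 hu).2
  have hai := K.affineIndependent P.ha
  have hbi := K.affineIndependent P.hb
  have hmem : ∀ {n : ℕ} {p : Fin n → E} {s : Finset E}, range p = (s : Set E) → ∀ i, p i ∈ s := by
    intro n p s hps i
    have h1 : p i ∈ (s : Set E) := by
      rw [← hps]
      exact mem_range_self i
    exact h1
  have hui : AffineIndependent ℝ (Fin.cons u t : Fin (m + 1) → E) := TWO_ind hai hu (hmem ha)
  have hvi : AffineIndependent ℝ (Fin.cons v t : Fin (m + 1) → E) := TWO_ind hbi hv (hmem hb)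
  have hti : AffineIndependent ℝ t := TWO_ind hai ht fun i => P.hra (hmem hr i)
  have hrU : range ρ ⊆ convexHull ℝ (range t) := by
    rintro _ ⟨i, rfl⟩
    rw [hr]
    exact P.ρr i
  have hra : convexHull ℝ (r : Set E) ⊆ convexHull ℝ (a : Set E) :=
    convexHull_mono (by exact_mod_cast P.hra)
  have hrb : convexHull ℝ (r : Set E) ⊆ convexHull ℝ (b : Set E) :=
    convexHull_mono (by exact_mod_cast P.hrb)
  refine ⟨?_, ?_, ?_, ?_⟩
  · intro i
    obtain ⟨k, rfl⟩ : ∃ k, m = k + 1 := ⟨m - 1, by omega⟩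
    have hspan := TWO_span hti P.ρi fun i => convexHull_subset_affineSpan _ (hrU (mem_range_self i))
    have h1 : t i ∈ affineSpan ℝ (range ρ) := by
      rw [hspan]
      exact subset_affineSpan ℝ _ (mem_range_self i)
    obtain ⟨w, hw, hwt⟩ := TWO_comb ρ (t i) h1
    rw [hwt, TWO_map _ A ρ w hw, TWO_map _ B ρ w hw]
    refine Finset.sum_congr rfl fun j _ => ?_
    have h2 : h (ρ j) = A (ρ j) := P.hA (subset_convexHull ℝ _ (by
      rw [Fin.range_cons]
      exact mem_insert_of_mem _ (mem_range_self j)))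
    have h3 : h (ρ j) = B (ρ j) := P.hB (subset_convexHull ℝ _ (by
      rw [Fin.range_cons]
      exact mem_insert_of_mem _ (mem_range_self j)))
    rw [← h2, ← h3]
  · obtain ⟨O, hO, hne, hsub⟩ := TWO_open hui P.iu (by
      intro i
      rw [ha]
      refine Fin.cases ?_ (fun j => ?_) i
      · rw [Fin.cons_zero]
        exact P.ua
      · rw [Fin.cons_succ]
        exact hra (P.ρr j))
    exact ⟨O, hO, hne, hsub.trans P.Ua, P.hA.mono hsub⟩
  · obtain ⟨O, hO, hne, hsub⟩ := TWO_open hvi P.iv (by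
      intro i
      rw [hb]
      refine Fin.cases ?_ (fun j => ?_) i
      · rw [Fin.cons_zero]
        exact P.vb
      · rw [Fin.cons_succ]
        exact hrb (P.ρr j))
    exact ⟨O, hO, hne, hsub.trans P.Ub, P.hB.mono hsub⟩
  · obtain ⟨w, hw0, hw1, hwu⟩ := TWO_weights hu ha P.ua
    obtain ⟨w', hw0', hw1', hwu'⟩ := TWO_weights hv hb P.vb
    have hρw : ∀ i, ∃ W : Fin m → ℝ, (∀ j, 0 ≤ W j) ∧ ∑ j, W j = 1 ∧ ρ i = ∑ j, W j • t j :=
      fun i => TWO_weights ht hr (P.ρr i)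
    choose W hW0 hW1 hWρ using hρw
    have e1 := TWO_sdet A u u₁ t ρ w hw1 hwu (Matrix.of W) hW1 hWρ
    have e2 := TWO_sdet B v v₁ t ρ w' hw1' hwu' (Matrix.of W) hW1 hWρ
    have hneg := P.neg
    rw [e1, e2] at hneg
    by_contra hcon
    have h1 : 0 ≤ w 0 * w' 0 * (Matrix.of W).det ^ 2 *
        (sdet A (Fin.cons u t : Fin (m + 1) → E) * sdet B (Fin.cons v t : Fin (m + 1) → E)) :=
      mul_nonneg (mul_nonneg (mul_nonneg (hw0 0) (hw0' 0)) (sq_nonneg _)) (not_lt.1 hcon)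
    have h2 : w 0 * w' 0 * (Matrix.of W).det ^ 2 *
        (sdet A (Fin.cons u t : Fin (m + 1) → E) * sdet B (Fin.cons v t : Fin (m + 1) → E)) =
        w 0 * (Matrix.of W).det * sdet A (Fin.cons u t : Fin (m + 1) → E) *
          (w' 0 * (Matrix.of W).det * sdet B (Fin.cons v t : Fin (m + 1) → E)) := by ring
    linarith

theorem GC.two_tops {m : ℕ} {M : Set E} (hM : IsClosedPLManifold m M) (K : GC E)
    (hK : K.space = M) {r : Finset E} (hr : r ∈ K.faces) (hrc : r.card = m) :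
    ∃ a ∈ K.faces, ∃ b ∈ K.faces, a ≠ b ∧ a.card = m + 1 ∧ b.card = m + 1 ∧ r ⊆ a ∧ r ⊆ b ∧
      ∀ d ∈ K.faces, d.card = m + 1 → r ⊆ d → d = a ∨ d = b := by
  obtain ⟨x, hx⟩ := TWO_bary hr
  have hxM : x ∈ M := by
    rw [← hK]
    exact Set.mem_biUnion hr hx.mem_hull
  obtain ⟨U, h, hc⟩ := hM.2 x hxM
  obtain ⟨a, b, u₁, v₁, ρ, A, B, P⟩ := TWO_exists_pic hM K hK hr hrc hx hc
  exact ⟨a, P.ha, b, P.hb, P.hab, P.hac, P.hbc, P.hra, P.hrb, P.uniq⟩

/-- For an oriented pair of top simplices `(u, t)`, `(v, t)` sharing the facet `t` and a chart at the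
barycentre `x` of the facet: there are points `p ∈ convexHull (u, t)`, `q ∈ convexHull (v, t)` and affine
germs `B`, `B'` of `h` (near `p` resp. `q`), which agree on `t`, such that `h p = B p` and `h q = B' q`
are on opposite sides of the hyperplane through `B ∘ t`. -/
theorem GC.top_sides {m : ℕ} {M : Set E} (hM : IsClosedPLManifold m M) (K : GC E)
    (hK : K.space = M) (hm : 1 ≤ m) (t : Fin m → E) (u v : E) (huv : u ≠ v)
    (hu : (Fin.cons u t : Fin (m + 1) → E) ∈ K.tops m)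
    (hv : (Fin.cons v t : Fin (m + 1) → E) ∈ K.tops m) {U : Set E} {h : E → Fin m → ℝ}
    (hc : ChartAt m M U h (Finset.centroid ℝ Finset.univ t)) :
    ∃ B B' : E →ᵃ[ℝ] (Fin m → ℝ), (∀ i, B (t i) = B' (t i)) ∧
      (∃ O : Set E, IsOpen O ∧
        (O ∩ convexHull ℝ (range (Fin.cons u t : Fin (m + 1) → E))).Nonempty ∧
        O ∩ convexHull ℝ (range (Fin.cons u t : Fin (m + 1) → E)) ⊆ U ∧
        EqOn h B (O ∩ convexHull ℝ (range (Fin.cons u t : Fin (m + 1) → E)))) ∧
      (∃ O : Set E, IsOpen O ∧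
        (O ∩ convexHull ℝ (range (Fin.cons v t : Fin (m + 1) → E))).Nonempty ∧
        O ∩ convexHull ℝ (range (Fin.cons v t : Fin (m + 1) → E)) ⊆ U ∧
        EqOn h B' (O ∩ convexHull ℝ (range (Fin.cons v t : Fin (m + 1) → E)))) ∧
      sdet B (Fin.cons u t : Fin (m + 1) → E) * sdet B' (Fin.cons v t : Fin (m + 1) → E) < 0 := by
  classical
  obtain ⟨hui, su, hsu, hsu'⟩ := GC.mem_tops.1 hu
  obtain ⟨hvi, sv, hsv, hsv'⟩ := GC.mem_tops.1 hv
  have ht : Function.Injective t := (Fin.cons_injective_iff.1 hui).2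
  have hm' : Nonempty (Fin m) := ⟨⟨0, by omega⟩⟩
  obtain ⟨r, hr⟩ : ∃ r : Finset E, r = Finset.univ.image t := ⟨_, rfl⟩
  obtain ⟨a, ha⟩ : ∃ a : Finset E, a = Finset.univ.image (Fin.cons u t : Fin (m + 1) → E) := ⟨_, rfl⟩
  obtain ⟨b, hb⟩ : ∃ b : Finset E, b = Finset.univ.image (Fin.cons v t : Fin (m + 1) → E) := ⟨_, rfl⟩
  have hrr : range t = (r : Set E) := by
    rw [hr, Finset.coe_image, Finset.coe_univ, image_univ]
  have haa : range (Fin.cons u t : Fin (m + 1) → E) = (a : Set E) := by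
    rw [ha, Finset.coe_image, Finset.coe_univ, image_univ]
  have hbb : range (Fin.cons v t : Fin (m + 1) → E) = (b : Set E) := by
    rw [hb, Finset.coe_image, Finset.coe_univ, image_univ]
  have hrc : r.card = m := by
    rw [hr, Finset.card_image_of_injective _ ht, Finset.card_univ, Fintype.card_fin]
  have hac : a.card = m + 1 := by
    rw [ha, Finset.card_image_of_injective _ hui, Finset.card_univ, Fintype.card_fin]
  have hbc : b.card = m + 1 := by
    rw [hb, Finset.card_image_of_injective _ hvi, Finset.card_univ, Fintype.card_fin]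
  have hra : r ⊆ a := by
    rw [← Finset.coe_subset, ← hrr, ← haa, Fin.range_cons]
    exact subset_insert _ _
  have hrb : r ⊆ b := by
    rw [← Finset.coe_subset, ← hrr, ← hbb, Fin.range_cons]
    exact subset_insert _ _
  have haf : a ∈ K.faces := by
    refine K.down su hsu a ?_ (Finset.card_pos.1 (by omega))
    rw [ha]
    intro z hz
    obtain ⟨i, _, rfl⟩ := Finset.mem_image.1 hz
    exact hsu' i
  have hbf : b ∈ K.faces := by
    refine K.down sv hsv b ?_ (Finset.card_pos.1 (by omega))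
    rw [hb]
    intro z hz
    obtain ⟨i, _, rfl⟩ := Finset.mem_image.1 hz
    exact hsv' i
  have hrf : r ∈ K.faces := K.down a haf r hra (Finset.card_pos.1 (by omega))
  have hab : a ≠ b := by
    intro hab
    have h1 : u ∈ (b : Set E) := by
      rw [← hab, ← haa, Fin.range_cons]
      exact mem_insert u _
    rw [← hbb, Fin.range_cons] at h1
    rcases h1 with h1 | h1
    · exact huv h1
    · exact (Fin.cons_injective_iff.1 hui).1 h1
  have hx : K.IsCarrier (Finset.centroid ℝ Finset.univ t) r := by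
    have hmpos : (0 : ℝ) < m := by exact_mod_cast hm
    refine ⟨hrf, fun _ => (m : ℝ)⁻¹, fun _ _ => by positivity, ?_, ?_⟩
    · rw [Finset.sum_const, hrc, nsmul_eq_mul]
      field_simp
    · rw [hr, Finset.sum_image (fun i _ j _ h => ht h), Finset.centroid_def,
        Finset.affineCombination_eq_linear_combination _ _ _
          (Finset.sum_centroidWeights_eq_one_of_nonempty ℝ _ Finset.univ_nonempty)]
      refine Finset.sum_congr rfl fun i _ => ?_
      rw [Finset.centroidWeights_apply, Finset.card_univ, Fintype.card_fin]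
  obtain ⟨a', b', u₁, v₁, ρ, A, B, P⟩ := TWO_exists_pic hM K hK hrf hrc hx hc
  rcases P.uniq a haf hac hra with h1 | h1
  · rcases P.uniq b hbf hbc hrb with h2 | h2
    · exact absurd (h1.trans h2.symm) hab
    · subst h1
      subst h2
      exact ⟨A, B, TWO_side hm P hui hvi hrr haa hbb⟩
  · rcases P.uniq b hbf hbc hrb with h2 | h2
    · subst h1
      subst h2
      exact ⟨B, A, TWO_side hm P.symm hui hvi hrr haa hbb⟩
    · exact absurd (h1.trans h2.symm) hab

end Pool.H54.UB
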