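import Pool.Agent.H54.UB.ORA
import Pool.Agent.H54.UB.TWO
import Pool.Agent.H54.UB.STK

/-!
# Row ORB: the fundamental cycle of an oriented closed PL manifold

Let `A` be the oriented atlas.  `AGerm t B`: `∃ c ∈ A, Germ c.1 c.2 t univ B`.
1. For an interior point `x` of the simplex `t` (carrier `range t`) there is a neighbourhood `V_x` such
   that all germs of all charts of `A` inside `V_x` have the same sign: take `c ∈ A` with `ChartAt` at `x`
   and `V` from `germ_local`; if `(O, B')` is a germ of another chart `c' ∈ A` inside `V`, then choose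
   (`exists_germ` applied inside `O`; i.e. with `V := V ∩ O`, at a point of `O ∩ convexHull (range t)`
   near which `c.1` is a neighbourhood) a germ `(O'', B'')` of `c` with `O'' ⊆ O`, pick `m+1` affinely
   independent points `a` of `O'' ∩ convexHull (range t)` close together, so that
   `convexHull (range a) ⊆ O'' ∩ ..` (`O''` may be shrunk to a ball: convex): both charts are affine on
   it, so `0 ≤ sdet c.2 a * sdet c'.2 a`, and both are nonzero, hence `0 < sdet B'' t * sdet B' t` by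
   `sdet_mul_pos_of_comb`.
2. The set of interior points of the simplex is convex, hence connected, so all germs on `t` have the
   same sign (a germ inside `O` can be restricted to a neighbourhood of an interior point in `O`).
3. `ε t = 1` if there is `B` with `AGerm t B` and `0 < sdet B t`, else `-1`.  `Germ` only depends on
   `range t`; `sdet_perm` gives the alternating property.
4. For a facet tuple `r` with `cons u r ∈ K.tops m`: `GC.two_tops` gives exactly two extensions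
   `u ≠ v`; `GC.top_sides` for a chart of `A` at the barycentre of `r` gives germs `B`, `B'` with
   `sdet B (cons u r) * sdet B' (cons v r) < 0`: `ε (cons u r) = - ε (cons v r)`.
5. `stokes_of_two`.
-/

open Set Topology

namespace Pool.H54.UB

variable {E : Type*} [NormedAddCommGroup E] [NormedSpace ℝ E] [FiniteDimensional ℝ E]

/-- `B` is a germ on `t`, inside `V`, of a chart of the atlas `A`. -/
private def ORB_AG {m : ℕ} (A : Set (Set E × (E → Fin m → ℝ))) (t : Fin (m + 1) → E) (V : Set E)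
    (B : E →ᵃ[ℝ] (Fin m → ℝ)) : Prop := ∃ c ∈ A, Germ c.1 c.2 t V B

private theorem ORB_scale {m : ℕ} (B : E →ᵃ[ℝ] (Fin m → ℝ)) (t : Fin (m + 1) → E)
    (y : E) (w : Fin (m + 1) → ℝ) (hw : ∑ k, w k = 1) (hy : ∑ k, w k • t k = y) (e : ℝ)
    (he : e ≠ 0) :
    sdet B t = (Matrix.of fun i k : Fin (m + 1) =>
      (1 - 1 / e) * w k + (if i = k then 1 / e else 0)).det *
      sdet B (fun i => (1 - e) • y + e • t i) := by
  classical
  apply sdet_comb
  · intro i
    simp only [Matrix.of_apply]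
    rw [Finset.sum_add_distrib, ← Finset.mul_sum, hw, Finset.sum_ite_eq Finset.univ i]
    simp
  · intro i
    simp only [Matrix.of_apply]
    have h1 : ∑ k, w k • ((1 - e) • y + e • t k) = y := by
      simp only [smul_add]
      rw [Finset.sum_add_distrib, ← Finset.sum_smul, hw, one_smul]
      have h2 : ∑ k, w k • e • t k = e • y := by
        rw [← hy, Finset.smul_sum]
        exact Finset.sum_congr rfl fun k _ => smul_comm _ _ _
      rw [h2, ← add_smul]
      simp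
    have h3 : ∀ k, ((1 - 1 / e) * w k + (if i = k then 1 / e else 0)) • ((1 - e) • y + e • t k) =
        (1 - 1 / e) • (w k • ((1 - e) • y + e • t k)) +
          (if i = k then (1 / e) • ((1 - e) • y + e • t k) else 0) := by
      intro k
      rw [add_smul, mul_smul]
      by_cases hik : i = k
      · rw [if_pos hik, if_pos hik]
      · rw [if_neg hik, if_neg hik, zero_smul]
    rw [Finset.sum_congr rfl fun k _ => h3 k, Finset.sum_add_distrib, ← Finset.smul_sum, h1,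
      Finset.sum_ite_eq Finset.univ i]
    simp only [Finset.mem_univ, if_true]
    rw [smul_add, smul_smul, smul_smul]
    have h4 : 1 / e * e = 1 := by field_simp
    have h5 : 1 / e * (1 - e) = 1 / e - 1 := by field_simp
    rw [h4, h5, one_smul, ← add_assoc, ← add_smul]
    simp

private theorem ORB_small {m : ℕ} (t : Fin (m + 1) → E) {y : E}
    (hy : y ∈ convexHull ℝ (range t)) {O : Set E} (hO : IsOpen O) (hyO : y ∈ O) :
    ∃ e : ℝ, 0 < e ∧ convexHull ℝ (range fun i => (1 - e) • y + e • t i) ⊆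
      O ∩ convexHull ℝ (range t) := by
  obtain ⟨r, hr, hball⟩ := Metric.isOpen_iff.1 hO y hyO
  have h1 : ∀ i, ∀ᶠ e in 𝓝[>] (0 : ℝ), (1 - e) • y + e • t i ∈ Metric.ball y r := by
    intro i
    have hφ : Continuous (fun e : ℝ => (1 - e) • y + e • t i) := by fun_prop
    have h3 : (fun e : ℝ => (1 - e) • y + e • t i) ⁻¹' (Metric.ball y r) ∈ 𝓝 (0 : ℝ) := by
      apply hφ.continuousAt.preimage_mem_nhds
      have : (1 - (0 : ℝ)) • y + (0 : ℝ) • t i = y := by simp
      rw [this]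
      exact Metric.ball_mem_nhds y hr
    exact nhdsWithin_le_nhds h3
  have h2 : ∀ᶠ e in 𝓝[>] (0 : ℝ), e ∈ Ioo (0 : ℝ) 1 := Ioo_mem_nhdsGT (by norm_num)
  obtain ⟨e, h1, h2⟩ := ((Filter.eventually_all.2 h1).and h2).exists
  refine ⟨e, h2.1, subset_inter ?_ ?_⟩
  · refine (convexHull_min ?_ (convex_ball y r)).trans hball
    rintro _ ⟨i, rfl⟩
    exact h1 i
  · refine convexHull_min ?_ (convex_convexHull ℝ _)
    rintro _ ⟨i, rfl⟩
    exact convex_convexHull ℝ _ hy (subset_convexHull ℝ _ ⟨i, rfl⟩) (by linarith [h2.2]) h2.1.le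
      (by ring)

section ORB

variable {m : ℕ} {M : Set E} {A : Set (Set E × (E → Fin m → ℝ))} {K : GC E}
  {t : Fin (m + 1) → E}

private theorem ORB_pair (hM : IsClosedPLManifold m M)
    (hK : K.space = M) (hA1 : ∀ c ∈ A, IsChart m M c.1 c.2)
    (hA3 : ∀ c ∈ A, ∀ c' ∈ A, ∀ a : Fin (m + 1) → E,
      convexHull ℝ (range a) ⊆ c.1 ∩ c'.1 →
      AffOn c.2 (convexHull ℝ (range a)) → AffOn c'.2 (convexHull ℝ (range a)) →
      0 ≤ sdet c.2 a * sdet c'.2 a)
    (ht : t ∈ K.tops m) {c c' : Set E × (E → Fin m → ℝ)} (hc : c ∈ A) (hc' : c' ∈ A)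
    {O O' : Set E} (hO : IsOpen O) (hO' : IsOpen O') {B B' : E →ᵃ[ℝ] (Fin m → ℝ)}
    (hne : ((O ∩ O') ∩ convexHull ℝ (range t)).Nonempty)
    (h1 : O ∩ convexHull ℝ (range t) ⊆ c.1) (h2 : EqOn c.2 B (O ∩ convexHull ℝ (range t)))
    (h1' : O' ∩ convexHull ℝ (range t) ⊆ c'.1)
    (h2' : EqOn c'.2 B' (O' ∩ convexHull ℝ (range t))) : 0 < sdet B t * sdet B' t := by
  obtain ⟨y, hyO, hyC⟩ := hne
  have hB : Germ c.1 c.2 t univ B :=
    ⟨O, hO, ⟨y, hyO.1, hyC⟩, fun z hz => ⟨h1 hz, mem_univ z⟩, h2⟩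
  have hB' : Germ c'.1 c'.2 t univ B' :=
    ⟨O', hO', ⟨y, hyO.2, hyC⟩, fun z hz => ⟨h1' hz, mem_univ z⟩, h2'⟩
  have hn := germ_ne_zero hM K hK ht (hA1 c hc) hB
  have hn' := germ_ne_zero hM K hK ht (hA1 c' hc') hB'
  obtain ⟨e, he, hsub⟩ := ORB_small t hyC (hO.inter hO') hyO
  obtain ⟨w, hw0, hw1, hwy⟩ : ∃ w : Fin (m + 1) → ℝ, (∀ k, 0 ≤ w k) ∧ ∑ k, w k = 1 ∧
      ∑ k, w k • t k = y := by
    rw [convexHull_range_eq_exists_affineCombination] at hyC
    obtain ⟨s, w, hw0, hw1, hwy⟩ := hyC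
    classical
    refine ⟨fun k => if k ∈ s then w k else 0, fun k => ?_, ?_, ?_⟩
    · by_cases hk : k ∈ s
      · simp only [if_pos hk]; exact hw0 k hk
      · simp only [if_neg hk]; exact le_refl 0
    · rw [← hw1, Finset.sum_ite_mem, Finset.univ_inter]
    · rw [← hwy, Finset.affineCombination_eq_linear_combination _ _ _ hw1]
      simp only [ite_smul, zero_smul]
      rw [Finset.sum_ite_mem, Finset.univ_inter]
  obtain ⟨a, ha⟩ : ∃ a : Fin (m + 1) → E, a = fun i => (1 - e) • y + e • t i := ⟨_, rfl⟩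
  rw [← ha] at hsub
  have hs1 : convexHull ℝ (range a) ⊆ O ∩ convexHull ℝ (range t) :=
    fun z hz => ⟨(hsub hz).1.1, (hsub hz).2⟩
  have hs2 : convexHull ℝ (range a) ⊆ O' ∩ convexHull ℝ (range t) :=
    fun z hz => ⟨(hsub hz).1.2, (hsub hz).2⟩
  have hpos := hA3 c hc c' hc' a (fun z hz => ⟨h1 (hs1 hz), h1' (hs2 hz)⟩)
    ⟨B, fun z hz => h2 (hs1 hz)⟩ ⟨B', fun z hz => h2' (hs2 hz)⟩
  have hmem : ∀ i, a i ∈ convexHull ℝ (range a) := fun i => subset_convexHull ℝ _ ⟨i, rfl⟩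
  rw [sdet_congr (h := c.2) (h' := B) (fun i => h2 (hs1 (hmem i))),
    sdet_congr (h := c'.2) (h' := B') (fun i => h2' (hs2 (hmem i)))] at hpos
  have e1 := ORB_scale B t y w hw1 hwy e he.ne'
  have e2 := ORB_scale B' t y w hw1 hwy e he.ne'
  rw [← ha] at e1 e2
  have h3 : 0 ≤ sdet B t * sdet B' t := by
    rw [e1, e2, mul_mul_mul_comm]
    exact mul_nonneg (mul_self_nonneg _) hpos
  exact lt_of_le_of_ne h3 (Ne.symm (mul_ne_zero hn hn'))

/-- interior points of the simplex `t` -/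
private def ORB_I (t : Fin (m + 1) → E) : Set E :=
  {x | ∃ w : Fin (m + 1) → ℝ, (∀ i, 0 < w i) ∧ ∑ i, w i = 1 ∧ ∑ i, w i • t i = x}

omit [FiniteDimensional ℝ E] in
private theorem ORB_I_convex (t : Fin (m + 1) → E) : Convex ℝ (ORB_I t) := by
  rintro x ⟨w, hw0, hw1, rfl⟩ y ⟨v, hv0, hv1, rfl⟩ a b ha hb hab
  refine ⟨fun i => a * w i + b * v i, fun i => ?_, ?_, ?_⟩
  · rcases ha.eq_or_lt with h | h
    · have hb' : 0 < b := by linarith
      have := mul_pos hb' (hv0 i)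
      have := mul_nonneg ha (hw0 i).le
      linarith
    · have := mul_pos h (hw0 i)
      have := mul_nonneg hb (hv0 i).le
      linarith
  · rw [Finset.sum_add_distrib, ← Finset.mul_sum, ← Finset.mul_sum, hw1, hv1]
    linarith
  · rw [Finset.smul_sum, Finset.smul_sum, ← Finset.sum_add_distrib]
    refine Finset.sum_congr rfl fun i _ => ?_
    rw [add_smul, mul_smul, mul_smul]

omit [FiniteDimensional ℝ E] in
private theorem ORB_I_hull {x : E} (hx : x ∈ ORB_I t) : x ∈ convexHull ℝ (range t) := by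
  obtain ⟨w, hw0, hw1, rfl⟩ := hx
  exact (convex_convexHull ℝ (range t)).sum_mem (fun i _ => (hw0 i).le) hw1
    (fun i _ => subset_convexHull ℝ _ ⟨i, rfl⟩)

private theorem ORB_I_carrier (hM : IsClosedPLManifold m M) (hK : K.space = M)
    (ht : t ∈ K.tops m) {x : E} (hx : x ∈ ORB_I t) :
    ∀ s, K.IsCarrier x s → (s : Set E) = range t := by
  classical
  obtain ⟨st, hst, hstr, hstc⟩ := ORA_top hM K hK ht
  obtain ⟨hinj, _⟩ := GC.mem_tops.1 ht
  obtain ⟨w, hw0, hw1, hwx⟩ := hx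
  have hst' : st = Finset.univ.map ⟨t, hinj⟩ := by
    apply Finset.coe_injective
    rw [hstr, Finset.coe_map, Finset.coe_univ, image_univ]
    rfl
  have hinv : ∀ i, Function.invFun t (t i) = i := Function.leftInverse_invFun hinj
  have hc : K.IsCarrier x st := by
    refine ⟨hst, fun z => w (Function.invFun t z), ?_, ?_, ?_⟩
    · intro y _
      exact hw0 _
    · rw [hst', Finset.sum_map]
      simp only [Function.Embedding.coeFn_mk, hinv]
      exact hw1
    · rw [hst', Finset.sum_map]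
      simp only [Function.Embedding.coeFn_mk, hinv]
      exact hwx
  intro s hs
  rw [GC.carrier_unique hs hc, hstr]

private theorem ORB_I_meets (hM : IsClosedPLManifold m M) (hK : K.space = M)
    (ht : t ∈ K.tops m) {y : E} (hy : y ∈ convexHull ℝ (range t)) {O : Set E} (hO : IsOpen O)
    (hyO : y ∈ O) : ∃ x ∈ O, x ∈ ORB_I t := by
  classical
  obtain ⟨st, hst, hstr, hstc⟩ := ORA_top hM K hK ht
  obtain ⟨hinj, _⟩ := GC.mem_tops.1 ht
  have hst' : st = Finset.univ.map ⟨t, hinj⟩ := by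
    apply Finset.coe_injective
    rw [hstr, Finset.coe_map, Finset.coe_univ, image_univ]
    rfl
  rw [← hstr] at hy
  obtain ⟨w, hw0, hw1, hwO⟩ := ORA_move st (K.ne st hst) hy hO hyO
  have hmem : ∀ i, t i ∈ st := by
    intro i
    have : t i ∈ (st : Set E) := by rw [hstr]; exact ⟨i, rfl⟩
    exact this
  refine ⟨_, hwO, fun i => w (t i), fun i => hw0 _ (hmem i), ?_, ?_⟩
  · rw [hst', Finset.sum_map] at hw1
    exact hw1
  · rw [hst', Finset.sum_map]
    rfl

private theorem ORB_hullM (hK : K.space = M) (ht : t ∈ K.tops m) :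
    convexHull ℝ (range t) ⊆ M := by
  obtain ⟨_, s, hs, hts⟩ := GC.mem_tops.1 ht
  rw [← hK]
  refine Subset.trans (convexHull_mono ?_)
    (subset_biUnion_of_mem (u := fun t : Finset E => convexHull ℝ (t : Set E)) hs)
  rintro _ ⟨i, rfl⟩
  exact hts i

private theorem ORB_exists (hM : IsClosedPLManifold m M) (hK : K.space = M)
    (hA1 : ∀ c ∈ A, IsChart m M c.1 c.2)
    (hA2 : ∀ x ∈ M, ∃ c ∈ A, ChartAt m M c.1 c.2 x)
    (ht : t ∈ K.tops m) {x : E} (hx : x ∈ convexHull ℝ (range t)) {V : Set E} (hV : IsOpen V)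
    (hxV : x ∈ V) : ∃ B, ORB_AG A t V B := by
  obtain ⟨c, hc, hcx⟩ := hA2 x (ORB_hullM hK ht hx)
  obtain ⟨B, hB⟩ := exists_germ hM K hK ht (hA1 c hc) hV ⟨x, hxV, hcx.2.2.1, hx⟩
  exact ⟨B, c, hc, hB⟩

private theorem ORB_local (hM : IsClosedPLManifold m M)
    (hK : K.space = M) (hA1 : ∀ c ∈ A, IsChart m M c.1 c.2)
    (hA2 : ∀ x ∈ M, ∃ c ∈ A, ChartAt m M c.1 c.2 x)
    (hA3 : ∀ c ∈ A, ∀ c' ∈ A, ∀ a : Fin (m + 1) → E,
      convexHull ℝ (range a) ⊆ c.1 ∩ c'.1 →
      AffOn c.2 (convexHull ℝ (range a)) → AffOn c'.2 (convexHull ℝ (range a)) →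
      0 ≤ sdet c.2 a * sdet c'.2 a)
    (ht : t ∈ K.tops m) {x : E} (hx : x ∈ ORB_I t) :
    ∃ V, IsOpen V ∧ x ∈ V ∧ ∀ B B', ORB_AG A t V B → ORB_AG A t V B' →
      0 < sdet B t * sdet B' t := by
  have hxC := ORB_I_hull hx
  obtain ⟨c, hc, hcx⟩ := hA2 x (ORB_hullM hK ht hxC)
  obtain ⟨V0, hV0, hxV0, hloc⟩ := germ_local hM K hK ht hcx (ORB_I_carrier hM hK ht hx)
  obtain ⟨Ox, hOx, hxOx, hsubx⟩ := mem_nhdsWithin.1 hcx.2.2.1
  refine ⟨V0 ∩ Ox, hV0.inter hOx, ⟨hxV0, hxOx⟩, ?_⟩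
  have key : ∀ B, ORB_AG A t (V0 ∩ Ox) B → ∃ B2, Germ c.1 c.2 t V0 B2 ∧
      0 < sdet B t * sdet B2 t := by
    rintro B ⟨c', hc', O, hO, ⟨z, hzO, hzC⟩, hsub, hEq⟩
    have hzV := hsub ⟨hzO, hzC⟩
    obtain ⟨B2, O2, hO2, ⟨z2, hz2O, hz2C⟩, hsub2, hEq2⟩ := exists_germ hM K hK ht (hA1 c hc)
      (V := (V0 ∩ Ox) ∩ O) ((hV0.inter hOx).inter hO) ⟨z, ⟨hzV.2, hzO⟩,
        mem_nhdsWithin.2 ⟨Ox, hOx, hzV.2.2, hsubx⟩, hzC⟩
    refine ⟨B2, ⟨O2, hO2, ⟨z2, hz2O, hz2C⟩, fun y hy => ⟨(hsub2 hy).1, (hsub2 hy).2.1.1⟩, hEq2⟩,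
      ?_⟩
    exact ORB_pair hM hK hA1 hA3 ht hc' hc hO hO2
      ⟨z2, ⟨(hsub2 ⟨hz2O, hz2C⟩).2.2, hz2O⟩, hz2C⟩ (fun y hy => (hsub hy).1) hEq
      (fun y hy => (hsub2 hy).1) hEq2
  intro B B' hB hB'
  obtain ⟨B2, hB2, h2⟩ := key B hB
  obtain ⟨B3, hB3, h3⟩ := key B' hB'
  have h4 := hloc B2 B3 hB2 hB3
  have h5 := mul_pos (mul_pos h2 h4) h3
  have h6 : sdet B t * sdet B2 t * (sdet B2 t * sdet B3 t) * (sdet B' t * sdet B3 t) =
      (sdet B t * sdet B' t) * (sdet B2 t * sdet B3 t) ^ 2 := by ring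
  rw [h6] at h5
  exact ORA_pos h5

private theorem ORB_global (hM : IsClosedPLManifold m M)
    (hK : K.space = M) (hA1 : ∀ c ∈ A, IsChart m M c.1 c.2)
    (hA2 : ∀ x ∈ M, ∃ c ∈ A, ChartAt m M c.1 c.2 x)
    (hA3 : ∀ c ∈ A, ∀ c' ∈ A, ∀ a : Fin (m + 1) → E,
      convexHull ℝ (range a) ⊆ c.1 ∩ c'.1 →
      AffOn c.2 (convexHull ℝ (range a)) → AffOn c'.2 (convexHull ℝ (range a)) →
      0 ≤ sdet c.2 a * sdet c'.2 a)
    (ht : t ∈ K.tops m) :
    (∀ B, ORB_AG A t univ B → 0 < sdet B t) ∨ (∀ B, ORB_AG A t univ B → sdet B t < 0) := by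
  obtain ⟨u, hu⟩ : ∃ u : Set E, u = ⋃₀ {V | IsOpen V ∧ ∀ B, ORB_AG A t V B → 0 < sdet B t} :=
    ⟨_, rfl⟩
  obtain ⟨v, hv⟩ : ∃ v : Set E, v = ⋃₀ {V | IsOpen V ∧ ∀ B, ORB_AG A t V B → sdet B t < 0} :=
    ⟨_, rfl⟩
  have huo : IsOpen u := by
    rw [hu]
    exact isOpen_sUnion fun V hV => hV.1
  have hvo : IsOpen v := by
    rw [hv]
    exact isOpen_sUnion fun V hV => hV.1
  have hcov : ORB_I t ⊆ u ∪ v := by
    intro x hx
    obtain ⟨V, hV, hxV, hloc⟩ := ORB_local hM hK hA1 hA2 hA3 ht hx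
    obtain ⟨B0, hB0⟩ := ORB_exists hM hK hA1 hA2 ht (ORB_I_hull hx) hV hxV
    have h0 := hloc B0 B0 hB0 hB0
    have hne : sdet B0 t ≠ 0 := by
      intro h
      rw [h] at h0
      simp at h0
    rcases lt_or_gt_of_ne hne with h | h
    · right
      rw [hv]
      refine ⟨V, ⟨hV, fun B hB => ?_⟩, hxV⟩
      have h1 := hloc B0 B hB0 hB
      by_contra hcon
      push Not at hcon
      have := mul_nonpos_of_nonpos_of_nonneg h.le hcon
      linarith
    · left
      rw [hu]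
      refine ⟨V, ⟨hV, fun B hB => ?_⟩, hxV⟩
      have h1 := hloc B0 B hB0 hB
      by_contra hcon
      push Not at hcon
      have := mul_nonpos_of_nonneg_of_nonpos h.le hcon
      linarith
  have hdis : ORB_I t ∩ (u ∩ v) = ∅ := by
    rw [eq_empty_iff_forall_notMem]
    rintro x ⟨hx, hxu, hxv⟩
    rw [hu] at hxu
    rw [hv] at hxv
    obtain ⟨V, ⟨hV, hV1⟩, hxV⟩ := hxu
    obtain ⟨V', ⟨hV', hV1'⟩, hxV'⟩ := hxv
    obtain ⟨B, c, hc, O, hO, hne, hsub, hEq⟩ := ORB_exists hM hK hA1 hA2 ht (ORB_I_hull hx)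
      (hV.inter hV') ⟨hxV, hxV'⟩
    have h1 := hV1 B ⟨c, hc, O, hO, hne, fun z hz => ⟨(hsub hz).1, (hsub hz).2.1⟩, hEq⟩
    have h2 := hV1' B ⟨c, hc, O, hO, hne, fun z hz => ⟨(hsub hz).1, (hsub hz).2.2⟩, hEq⟩
    linarith
  have hpre := (ORB_I_convex t).isPreconnected
  have hres : ∀ B, ORB_AG A t univ B → ∀ W : Set E, IsOpen W → (ORB_I t ⊆ W) →
      ∃ x ∈ ORB_I t, x ∈ W ∧ ∀ V, IsOpen V → x ∈ V → ORB_AG A t V B := by
    rintro B ⟨c, hc, O, hO, ⟨z, hzO, hzC⟩, hsub, hEq⟩ W _ hIW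
    obtain ⟨x, hxO, hxI⟩ := ORB_I_meets hM hK ht hzC hO hzO
    refine ⟨x, hxI, hIW hxI, fun V hV hxV => ⟨c, hc, O ∩ V, hO.inter hV,
      ⟨x, ⟨hxO, hxV⟩, ORB_I_hull hxI⟩, ?_, ?_⟩⟩
    · rintro y ⟨⟨hy1, hy2⟩, hy3⟩
      exact ⟨(hsub ⟨hy1, hy3⟩).1, hy2⟩
    · rintro y ⟨⟨hy1, hy2⟩, hy3⟩
      exact hEq ⟨hy1, hy3⟩
  rcases isPreconnected_iff_subset_of_disjoint.1 hpre u v huo hvo hcov hdis with h | h
  · left
    intro B hB
    obtain ⟨x, hxI, hxW, hV⟩ := hres B hB u huo h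
    rw [hu] at hxW
    obtain ⟨V, ⟨hVo, hV1⟩, hxV⟩ := hxW
    exact hV1 B (hV V hVo hxV)
  · right
    intro B hB
    obtain ⟨x, hxI, hxW, hV⟩ := hres B hB v hvo h
    rw [hv] at hxW
    obtain ⟨V, ⟨hVo, hV1⟩, hxV⟩ := hxW
    exact hV1 B (hV V hVo hxV)

end ORB

theorem GC.orientation {m : ℕ} (hm : 1 ≤ m) {M : Set E} (hM : IsClosedPLManifold m M)
    (ho : IsOrientable m M) (K : GC E) (hK : K.space = M) :
    ∃ ε : (Fin (m + 1) → E) → ℤ, (∀ t ∈ K.tops m, ε t = 1 ∨ ε t = -1) ∧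
      (∀ t ∈ K.tops m, ∀ π : Equiv.Perm (Fin (m + 1)),
        ε (t ∘ π) = (Equiv.Perm.sign π : ℤ) * ε t) ∧
      (∀ r : Fin m → E, (∃ u, (Fin.cons u r : Fin (m + 1) → E) ∈ K.tops m) →
        ∃ u v, u ≠ v ∧ (Fin.cons u r : Fin (m + 1) → E) ∈ K.tops m ∧
          (Fin.cons v r : Fin (m + 1) → E) ∈ K.tops m ∧
          (∀ w, (Fin.cons w r : Fin (m + 1) → E) ∈ K.tops m → w = u ∨ w = v) ∧
          ε (Fin.cons u r : Fin (m + 1) → E) = - ε (Fin.cons v r : Fin (m + 1) → E)) ∧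
      ∀ (R : Type) [CommRing R] (φ : (Fin m → E) → R),
        ∑ t ∈ K.tops m, (ε t : R) * ∑ j : Fin (m + 1), (-1) ^ (j : ℕ) * φ (t ∘ j.succAbove) = 0 := by
  classical
  obtain ⟨A, hA1, hA2, hA3⟩ := ho
  obtain ⟨ε, hε⟩ : ∃ ε : (Fin (m + 1) → E) → ℤ, ∀ t, ε t =
      if ∃ B, ORB_AG A t univ B ∧ 0 < sdet B t then 1 else -1 := ⟨_, fun _ => rfl⟩
  have hgl := fun (t : Fin (m + 1) → E) (ht : t ∈ K.tops m) =>
    ORB_global hM hK hA1 hA2 hA3 ht
  have hpos : ∀ t ∈ K.tops m, ∀ B, ORB_AG A t univ B → 0 < sdet B t → ε t = 1 := by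
    intro t _ B hB h
    rw [hε, if_pos ⟨B, hB, h⟩]
  have hneg : ∀ t ∈ K.tops m, ∀ B, ORB_AG A t univ B → sdet B t < 0 → ε t = -1 := by
    intro t ht B hB h
    rw [hε, if_neg]
    rintro ⟨B', hB', h'⟩
    rcases hgl t ht with h1 | h1
    · linarith [h1 B hB]
    · linarith [h1 B' hB']
  have hex : ∀ t ∈ K.tops m, ∃ B, ORB_AG A t univ B := by
    intro t ht
    exact ORB_exists hM hK hA1 hA2 ht (x := t 0) (subset_convexHull ℝ _ ⟨0, rfl⟩) isOpen_univ
      (mem_univ _)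
  have hne0 : ∀ t ∈ K.tops m, ∀ B, ORB_AG A t univ B → sdet B t < 0 ∨ 0 < sdet B t := by
    rintro t ht B ⟨c, hc, hB⟩
    exact lt_or_gt_of_ne (germ_ne_zero hM K hK ht (hA1 c hc) hB)
  have hperm : ∀ t ∈ K.tops m, ∀ π : Equiv.Perm (Fin (m + 1)), t ∘ π ∈ K.tops m := by
    intro t ht π
    obtain ⟨hinj, s, hs, hts⟩ := GC.mem_tops.1 ht
    exact GC.mem_tops.2 ⟨hinj.comp π.injective, s, hs, fun i => hts (π i)⟩
  have halt : ∀ t ∈ K.tops m, ∀ π : Equiv.Perm (Fin (m + 1)),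
      ε (t ∘ π) = (Equiv.Perm.sign π : ℤ) * ε t := by
    intro t ht π
    have htπ := hperm t ht π
    obtain ⟨B, hB⟩ := hex t ht
    have hr : range (t ∘ π) = range t := π.surjective.range_comp t
    have hBπ : ORB_AG A (t ∘ π) univ B := by
      obtain ⟨c, hc, hg⟩ := hB
      refine ⟨c, hc, ?_⟩
      unfold Germ at hg ⊢
      rw [hr]
      exact hg
    have hd := sdet_perm B t π
    rcases Int.units_eq_one_or (Equiv.Perm.sign π) with h1 | h1
    · rw [h1] at hd ⊢
      simp only [Units.val_one, Int.cast_one, one_mul] at hd ⊢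
      rcases hne0 t ht B hB with h2 | h2
      · rw [hneg t ht B hB h2, hneg _ htπ B hBπ (by rw [hd]; exact h2)]
      · rw [hpos t ht B hB h2, hpos _ htπ B hBπ (by rw [hd]; exact h2)]
    · rw [h1] at hd ⊢
      simp only [Units.val_neg, Units.val_one, Int.cast_neg, Int.cast_one, neg_mul, one_mul]
        at hd ⊢
      rcases hne0 t ht B hB with h2 | h2
      · rw [hneg t ht B hB h2, hpos _ htπ B hBπ (by rw [hd]; linarith)]
        norm_num
      · rw [hpos t ht B hB h2, hneg _ htπ B hBπ (by rw [hd]; linarith)]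
  have htwo : ∀ r : Fin m → E, (∃ u, (Fin.cons u r : Fin (m + 1) → E) ∈ K.tops m) →
        ∃ u v, u ≠ v ∧ (Fin.cons u r : Fin (m + 1) → E) ∈ K.tops m ∧
          (Fin.cons v r : Fin (m + 1) → E) ∈ K.tops m ∧
          (∀ w, (Fin.cons w r : Fin (m + 1) → E) ∈ K.tops m → w = u ∨ w = v) ∧
          ε (Fin.cons u r : Fin (m + 1) → E) = - ε (Fin.cons v r : Fin (m + 1) → E) := by
    rintro r ⟨u0, hu0⟩
    obtain ⟨hinj0, s0, hs0, hts0⟩ := GC.mem_tops.1 hu0
    have hrinj : Function.Injective r := by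
      intro i j hij
      have h1 : (Fin.cons u0 r : Fin (m + 1) → E) i.succ = (Fin.cons u0 r : Fin (m + 1) → E) j.succ := by
        rw [Fin.cons_succ, Fin.cons_succ, hij]
      exact Fin.succ_injective _ (hinj0 h1)
    obtain ⟨rf, hrf⟩ : ∃ rf : Finset E, rf = Finset.univ.image r := ⟨_, rfl⟩
    have hrfc : rf.card = m := by
      rw [hrf, Finset.card_image_of_injective _ hrinj, Finset.card_univ, Fintype.card_fin]
    have hmemr : ∀ z, z ∈ rf ↔ ∃ i, r i = z := by
      intro z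
      rw [hrf]
      simp
    have hrs0 : rf ⊆ s0 := by
      intro z hz
      obtain ⟨i, rfl⟩ := (hmemr z).1 hz
      have := hts0 i.succ
      rwa [Fin.cons_succ] at this
    have hrne : rf.Nonempty := by
      rw [← Finset.card_pos]
      omega
    have hrface : rf ∈ K.faces := K.down s0 hs0 rf hrs0 hrne
    obtain ⟨a, ha, b, hb, hab, hac, hbc, hra, hrb, huniq⟩ := GC.two_tops hM K hK hrface hrfc
    have hins : ∀ d : Finset E, d ∈ K.faces → d.card = m + 1 → rf ⊆ d →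
        ∃ u, u ∉ rf ∧ d = insert u rf := by
      intro d _ hdc hrd
      have h1 : (d \ rf).card = 1 := by
        rw [Finset.card_sdiff_of_subset hrd]
        omega
      obtain ⟨u, hu⟩ := Finset.card_eq_one.1 h1
      have hu' : u ∈ d \ rf := by rw [hu]; exact Finset.mem_singleton_self u
      refine ⟨u, (Finset.mem_sdiff.1 hu').2, ?_⟩
      rw [← Finset.union_sdiff_of_subset hrd, hu, Finset.union_comm]
      rfl
    obtain ⟨u, hur, hau⟩ := hins a ha hac hra
    obtain ⟨v, hvr, hbv⟩ := hins b hb hbc hrb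
    have huv : u ≠ v := by
      rintro rfl
      exact hab (hau.trans hbv.symm)
    have htop : ∀ (d : Finset E) (w : E), d ∈ K.faces → w ∉ rf → d = insert w rf →
        (Fin.cons w r : Fin (m + 1) → E) ∈ K.tops m := by
      intro d w hd hw hdw
      refine GC.mem_tops.2 ⟨?_, d, hd, ?_⟩
      · rw [Fin.cons_injective_iff]
        refine ⟨?_, hrinj⟩
        rintro ⟨i, hi⟩
        exact hw ((hmemr w).2 ⟨i, hi⟩)
      · intro i
        rw [hdw]
        refine Fin.cases ?_ (fun j => ?_) i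
        · rw [Fin.cons_zero]
          exact Finset.mem_insert_self _ _
        · rw [Fin.cons_succ]
          exact Finset.mem_insert_of_mem ((hmemr _).2 ⟨j, rfl⟩)
    have hut := htop a u ha hur hau
    have hvt := htop b v hb hvr hbv
    refine ⟨u, v, huv, hut, hvt, ?_, ?_⟩
    · intro w hw
      obtain ⟨hinjw, sw, hsw, htsw⟩ := GC.mem_tops.1 hw
      have hwr : w ∉ rf := by
        intro h
        obtain ⟨i, hi⟩ := (hmemr w).1 h
        have h1 : (Fin.cons w r : Fin (m + 1) → E) i.succ =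
            (Fin.cons w r : Fin (m + 1) → E) 0 := by
          rw [Fin.cons_succ, Fin.cons_zero, hi]
        exact Fin.succ_ne_zero i (hinjw h1)
      have hsub : insert w rf ⊆ sw := by
        intro z hz
        rcases Finset.mem_insert.1 hz with h | h
        · rw [h]
          have := htsw 0
          rwa [Fin.cons_zero] at this
        · obtain ⟨i, rfl⟩ := (hmemr z).1 h
          have := htsw i.succ
          rwa [Fin.cons_succ] at this
      have hface : insert w rf ∈ K.faces :=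
        K.down sw hsw _ hsub (Finset.insert_nonempty _ _)
      have hcard : (insert w rf).card = m + 1 := by
        rw [Finset.card_insert_of_notMem hwr, hrfc]
      rcases huniq _ hface hcard (Finset.subset_insert _ _) with h | h
      · left
        have h1 : w ∈ insert u rf := by
          rw [← hau, ← h]
          exact Finset.mem_insert_self _ _
        rcases Finset.mem_insert.1 h1 with h2 | h2
        · exact h2
        · exact absurd h2 hwr
      · right
        have h1 : w ∈ insert v rf := by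
          rw [← hbv, ← h]
          exact Finset.mem_insert_self _ _
        rcases Finset.mem_insert.1 h1 with h2 | h2
        · exact h2
        · exact absurd h2 hwr
    · have hcen : Finset.centroid ℝ Finset.univ r ∈ M := by
        have hne : (Finset.univ : Finset (Fin m)).Nonempty := by
          rw [Finset.univ_nonempty_iff]
          exact ⟨⟨0, by omega⟩⟩
        have h1 : Finset.centroid ℝ Finset.univ r ∈ convexHull ℝ (range r) := by
          rw [Finset.centroid_eq_centerMass _ hne]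
          refine Finset.centerMass_mem_convexHull _ ?_ ?_ ?_
          · intro i _
            rw [Finset.centroidWeights_apply]
            positivity
          · rw [Finset.sum_centroidWeights_eq_one_of_nonempty ℝ _ hne]
            norm_num
          · intro i _
            exact ⟨i, rfl⟩
        refine ORB_hullM hK hut (convexHull_mono ?_ h1)
        rintro _ ⟨i, rfl⟩
        exact ⟨i.succ, Fin.cons_succ _ _ _⟩
      obtain ⟨c, hc, hcx⟩ := hA2 _ hcen
      obtain ⟨B, B', _, ⟨O, hO, hOn, hOs, hOe⟩, ⟨O', hO', hOn', hOs', hOe'⟩, hlt⟩ :=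
        GC.top_sides hM K hK hm r u v huv hut hvt hcx
      have hBg : ORB_AG A (Fin.cons u r : Fin (m + 1) → E) univ B :=
        ⟨c, hc, O, hO, hOn, fun z hz => ⟨hOs hz, mem_univ z⟩, hOe⟩
      have hBg' : ORB_AG A (Fin.cons v r : Fin (m + 1) → E) univ B' :=
        ⟨c, hc, O', hO', hOn', fun z hz => ⟨hOs' hz, mem_univ z⟩, hOe'⟩
      rcases hne0 _ hut B hBg with h1 | h1 <;> rcases hne0 _ hvt B' hBg' with h2 | h2
      · have := mul_pos_of_neg_of_neg h1 h2
        linarith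
      · rw [hneg _ hut B hBg h1, hpos _ hvt B' hBg' h2]
      · rw [hpos _ hut B hBg h1, hneg _ hvt B' hBg' h2]
        norm_num
      · have := mul_pos h1 h2
        linarith
  refine ⟨ε, ?_, halt, htwo, fun R _ φ => stokes_of_two (K.tops m) hperm ε halt htwo φ⟩
  intro t ht
  obtain ⟨B, hB⟩ := hex t ht
  rcases hne0 t ht B hB with h | h
  · right
    exact hneg t ht B hB h
  · left
    exact hpos t ht B hB h

end Pool.H54.UB
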