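import Pool.Agent.H54.UB.ORC
import Pool.Agent.H54.UB.ASA

/-!
# Row ORD: no nontrivial `ℤˣ`-cocycle implies orientable

Proof.  `m = 0`: any atlas works (`sdet = 1`).  Let `m ≥ 1`.
1. `X` is compact.  For each `x` choose a chart; finitely many `(U_i, h_i)`, `i ∈ I`, and closed sets
   `C_i ⊆ X` covering `X` such that every `x ∈ C_i` satisfies `ChartAt m X U_i h_i x`
   (the set `W_i` of such `x` is open in `X`: it is the preimage of the open cube intersected with the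
   interior of `U_i` relative to `X`; shrink the finite open cover of the compact space `X` to a closed
   cover, or use a Lebesgue number: `C_i = {x ∈ X | closed ball (x, δ) ∩ X ⊆ W_i}`).
   Choose `i(x)` with `x ∈ C_{i(x)}`.
2. For `x ∈ W_i ∩ W_j` let `s_ij x ∈ ℤˣ` be the sign `σ` of `pair_sign` (unique, by
   `exists_small_simplex`).  It is locally constant on `W_i ∩ W_j` (same `V`; at `y ∈ V` compare on a
   small simplex at `y`), `s_ij s_jk = s_ik` on triple intersections (compare on a small simplex on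
   which the three charts are affine and nondegenerate; `exists_small_simplex` for two charts, then
   subdivide for the third: or prove a three chart version), `s_ii = 1`, `s_ij = s_ji`.
3. `c x y = s_{i(x) i(y)} x`.  `NCoc c X`: near `x₀` all points `x` have `x₀ ∈ C_{i(x)}` (finite closed
   cover), and all the finitely many `s_ij` with `x₀ ∈ W_i ∩ W_j` are constant near `x₀`.
4. Let `g` be a primitive (`hQ`); near every `x₀`: `c x y = g x * g y` (`ℤˣ` is commutative of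
   exponent 2).
5. Atlas: for `x ∈ X` a chart `(U_x, h_x)` at `x` with `U_x = h_{i(x)}⁻¹ (small cube around h_{i(x)} x)`,
   rescaled to the standard cube (positive homothety), contained in a neighbourhood of `x` on which
   `c y z = g y g z` and `s_{i(x) j}` is constant for the `j` with `x ∈ C_j` and all points `y` have
   `x ∈ C_{i(y)}`; if `g x = -1` compose with the reflection of the coordinate `0` (`m ≥ 1`), which
   changes the sign of `sdet`.  For two such charts at `x`, `y` and a simplex `a` in `U_x ∩ U_y`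
   (nondegenerate) let `z` be a point of its hull: `c x z = s_{i(x) i(z)} x = s_{i(x) i(z)} z`,
   `c y z = s_{i(y) i(z)} z`, so `s_{i(x) i(y)} z = c x z * c y z = g x g z g y g z = g x g y`; hence the
   signs of the modified charts agree.
-/

open Set Topology

namespace Pool.H54.UB

variable {E : Type*} [NormedAddCommGroup E] [NormedSpace ℝ E] [FiniteDimensional ℝ E]

/-- a Lebesgue number -/
theorem ORD_leb {X : Set E} (hX : IsCompact X) (Q : Set E → Prop)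
    (h : ∀ x ∈ X, ∃ O : Set E, IsOpen O ∧ x ∈ O ∧ Q O) :
    ∃ δ > 0, ∀ x ∈ X, ∃ O : Set E, Q O ∧ Metric.ball x δ ⊆ O := by
  choose! O hO1 hO2 hO3 using h
  obtain ⟨δ, hδ, hδ'⟩ := lebesgue_number_lemma_of_metric (c := fun x : X => O x) hX
    (fun x => hO1 x x.2) (fun x hx => mem_iUnion.2 ⟨⟨x, hx⟩, hO2 x hx⟩)
  refine ⟨δ, hδ, fun x hx => ?_⟩
  obtain ⟨i, hi⟩ := hδ' x hx
  exact ⟨O i, hO3 i i.2, hi⟩

/-- the domain of validity of a chart is open -/
theorem ORD_open {m : ℕ} {X U : Set E} {h : E → Fin m → ℝ} {x : E} (hc : ChartAt m X U h x) :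
    ∃ O : Set E, IsOpen O ∧ x ∈ O ∧ ∀ y ∈ O ∩ X, ChartAt m X U h y := by
  obtain ⟨h1, h2, h3, h4⟩ := hc
  obtain ⟨O₁, hO₁, hx₁, hs₁⟩ := mem_nhdsWithin.1 h3
  have hcont : ContinuousOn h U := h1.2.1.continuousOn
  have hop : IsOpen {y : Fin m → ℝ | ∀ i, -1 < y i ∧ y i < 1} := by
    have : {y : Fin m → ℝ | ∀ i, -1 < y i ∧ y i < 1} =
        ⋂ i, {y : Fin m → ℝ | -1 < y i ∧ y i < 1} := by
      ext y
      simp
    rw [this]
    refine isOpen_iInter_of_finite fun i => ?_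
    exact (isOpen_lt continuous_const (continuous_apply i)).inter
      (isOpen_lt (continuous_apply i) continuous_const)
  obtain ⟨O₂, hO₂, hs₂⟩ := (continuousOn_iff'.1 hcont) _ hop
  refine ⟨O₁ ∩ O₂, hO₁.inter hO₂, ⟨hx₁, ?_⟩, ?_⟩
  · have : x ∈ h ⁻¹' {y : Fin m → ℝ | ∀ i, -1 < y i ∧ y i < 1} ∩ U := ⟨h4, h2⟩
    rw [hs₂] at this
    exact this.1
  · rintro y ⟨⟨hy1, hy2⟩, hyX⟩
    have hyU : y ∈ U := hs₁ ⟨hy1, hyX⟩
    refine ⟨h1, hyU, mem_nhdsWithin.2 ⟨O₁, hO₁, hy1, hs₁⟩, ?_⟩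
    have : y ∈ O₂ ∩ U := ⟨hy2, hyU⟩
    rw [← hs₂] at this
    exact this.1

theorem ORD_weights {m : ℕ} {a a' : Fin (m + 1) → E}
    (ha' : ∀ i, a' i ∈ convexHull ℝ (range a)) :
    ∃ W : Matrix (Fin (m + 1)) (Fin (m + 1)) ℝ, (∀ i, ∑ k, W i k = 1) ∧
      ∀ i, a' i = ∑ k, W i k • a k := by
  have h : ∀ i, ∃ w : Fin (m + 1) → ℝ, ∑ k, w k = 1 ∧ a' i = ∑ k, w k • a k := by
    intro i
    obtain ⟨w, hw, hw'⟩ := eq_affineCombination_of_mem_affineSpan_of_fintype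
      (convexHull_subset_affineSpan _ (ha' i))
    refine ⟨w, hw, ?_⟩
    rw [hw', Finset.affineCombination_eq_linear_combination _ _ _ hw]
  choose W h1 h2 using h
  exact ⟨W, h1, h2⟩

theorem ORD_sdet {m : ℕ} {h : E → Fin m → ℝ} {a a' : Fin (m + 1) → E}
    (hA : AffOn h (convexHull ℝ (range a))) (ha' : ∀ i, a' i ∈ convexHull ℝ (range a))
    (W : Matrix (Fin (m + 1)) (Fin (m + 1)) ℝ) (hW : ∀ i, ∑ k, W i k = 1)
    (hW' : ∀ i, a' i = ∑ k, W i k • a k) : sdet h a' = W.det * sdet h a := by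
  obtain ⟨A, hA⟩ := hA
  have h1 : sdet h a' = sdet A a' := sdet_congr fun i => hA (ha' i)
  have h2 : sdet h a = sdet A a := sdet_congr fun i =>
    hA (subset_convexHull ℝ _ (mem_range_self i))
  rw [h1, h2]
  exact sdet_comb A a a' W hW hW'

/-- the relative sign of two charts at a point -/
def ORD_P (m : ℕ) (U U' : Set E) (h h' : E → Fin m → ℝ) (z : E) (σ : ℤˣ) : Prop :=
  ∃ V : Set E, IsOpen V ∧ z ∈ V ∧ ∀ a : Fin (m + 1) → E,
      convexHull ℝ (range a) ⊆ U ∩ U' ∩ V → AffOn h (convexHull ℝ (range a)) →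
      AffOn h' (convexHull ℝ (range a)) → 0 ≤ ((σ : ℤ) : ℝ) * (sdet h a * sdet h' a)

theorem ORD_sign {σ τ : ℤˣ} {p : ℝ} (hp : p ≠ 0) (h1 : 0 ≤ ((σ : ℤ) : ℝ) * p)
    (h2 : 0 ≤ ((τ : ℤ) : ℝ) * p) : σ = τ := by
  rcases Int.units_eq_one_or σ with rfl | rfl <;> rcases Int.units_eq_one_or τ with rfl | rfl
  · rfl
  · exfalso
    simp only [Units.val_one, Int.cast_one, one_mul, Units.val_neg, Int.cast_neg, neg_mul] at h1 h2
    exact hp (le_antisymm (by linarith) h1)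
  · exfalso
    simp only [Units.val_one, Int.cast_one, one_mul, Units.val_neg, Int.cast_neg, neg_mul] at h1 h2
    exact hp (le_antisymm (by linarith) h2)
  · rfl

theorem ORD_uniq {m : ℕ} {X U U' : Set E} {h h' : E → Fin m → ℝ} {z : E}
    (hc : ChartAt m X U h z) (hc' : ChartAt m X U' h' z) {σ τ : ℤˣ}
    (h1 : ORD_P m U U' h h' z σ) (h2 : ORD_P m U U' h h' z τ) : σ = τ := by
  obtain ⟨V, hV, hz, h1⟩ := h1
  obtain ⟨V', hV', hz', h2⟩ := h2
  obtain ⟨a, ha1, ha2, ha3, ha4, ha5⟩ := exists_small_simplex hc hc' (hV.inter hV') ⟨hz, hz'⟩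
  exact ORD_sign (mul_ne_zero ha4 ha5)
    (h1 a (fun y hy => ⟨(ha1 hy).1, (ha1 hy).2.1⟩) ha2 ha3)
    (h2 a (fun y hy => ⟨(ha1 hy).1, (ha1 hy).2.2⟩) ha2 ha3)

theorem ORD_loc {m : ℕ} {U U' : Set E} {h h' : E → Fin m → ℝ} {z : E} {σ : ℤˣ}
    (h1 : ORD_P m U U' h h' z σ) :
    ∃ V : Set E, IsOpen V ∧ z ∈ V ∧ ∀ y ∈ V, ORD_P m U U' h h' y σ := by
  obtain ⟨V, hV, hz, h1⟩ := h1
  exact ⟨V, hV, hz, fun y hy => ⟨V, hV, hy, h1⟩⟩

/-- a small simplex for three charts -/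
theorem ORD_three {m : ℕ} {X U₁ U₂ U₃ : Set E} {h₁ h₂ h₃ : E → Fin m → ℝ} {z : E}
    (hc₁ : ChartAt m X U₁ h₁ z) (hc₂ : ChartAt m X U₂ h₂ z) (hc₃ : ChartAt m X U₃ h₃ z)
    {V : Set E} (hV : IsOpen V) (hz : z ∈ V) :
    ∃ a : Fin (m + 1) → E, convexHull ℝ (range a) ⊆ U₁ ∩ U₂ ∩ U₃ ∩ V ∧
      AffOn h₁ (convexHull ℝ (range a)) ∧ AffOn h₂ (convexHull ℝ (range a)) ∧
      AffOn h₃ (convexHull ℝ (range a)) ∧ sdet h₁ a ≠ 0 ∧ sdet h₂ a ≠ 0 ∧ sdet h₃ a ≠ 0 := by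
  obtain ⟨O₁, hO₁, hz₁, ho₁⟩ := ORD_open hc₁
  obtain ⟨O₂, hO₂, hz₂, ho₂⟩ := ORD_open hc₂
  obtain ⟨a, ha1, ha2, ha3, ha4, ha5⟩ := exists_small_simplex hc₁ hc₃
    (hV.inter (hO₁.inter hO₂)) ⟨hz, hz₁, hz₂⟩
  have hind : AffineIndependent ℝ (fun i => h₁ (a i)) := (sdet_ne_zero_iff h₁ a).1 ha4
  have htop : affineSpan ℝ (range fun i => h₁ (a i)) = ⊤ := by
    rw [hind.affineSpan_eq_top_iff_card_eq_finrank_add_one]
    simp
  have hint : (interior (convexHull ℝ (range fun i => h₁ (a i)))).Nonempty :=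
    interior_convexHull_nonempty_iff_affineSpan_eq_top.2 htop
  have himg : convexHull ℝ (range fun i => h₁ (a i)) = h₁ '' convexHull ℝ (range a) := by
    obtain ⟨A, hA⟩ := ha2
    have e1 : (range fun i => h₁ (a i)) = A '' range a := by
      rw [← range_comp]
      congr 1
      funext i
      exact hA (subset_convexHull ℝ _ (mem_range_self i))
    rw [e1, ← AffineMap.image_convexHull]
    exact (image_congr hA).symm
  obtain ⟨w, hw⟩ := hint
  have hw2 : w ∈ h₁ '' convexHull ℝ (range a) := by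
    rw [← himg]
    exact interior_subset hw
  obtain ⟨z', hz', hzw⟩ := hw2
  obtain ⟨O₃, hO₃, hs₃⟩ := (continuousOn_iff'.1 hc₁.1.2.1.continuousOn) _
    (isOpen_interior (s := convexHull ℝ (range fun i => h₁ (a i))))
  have hz'1 : z' ∈ U₁ := (ha1 hz').1.1
  have hz'O₃ : z' ∈ O₃ := by
    have h5 : z' ∈ h₁ ⁻¹' interior (convexHull ℝ (range fun i => h₁ (a i))) ∩ U₁ := by
      refine ⟨?_, hz'1⟩
      rw [mem_preimage, hzw]
      exact hw
    rw [hs₃] at h5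
    exact h5.1
  have hsub : ∀ y ∈ O₃ ∩ U₁, y ∈ convexHull ℝ (range a) := by
    intro y hy
    have hyU : y ∈ U₁ := hy.2
    rw [← hs₃] at hy
    have h5 : h₁ y ∈ h₁ '' convexHull ℝ (range a) := by
      rw [← himg]
      exact interior_subset hy.1
    obtain ⟨y', hy', he⟩ := h5
    have : y' = y := hc₁.1.2.2.1 (ha1 hy').1.1 hyU he
    rwa [← this]
  have hz'X : z' ∈ X := hc₁.1.1 hz'1
  obtain ⟨b, hb1, hb2, hb3, hb4, hb5⟩ := exists_small_simplex
    (ho₁ z' ⟨(ha1 hz').2.2.1, hz'X⟩) (ho₂ z' ⟨(ha1 hz').2.2.2, hz'X⟩) hO₃ hz'O₃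
  have hba : convexHull ℝ (range b) ⊆ convexHull ℝ (range a) := fun y hy =>
    hsub y ⟨(hb1 hy).2, (hb1 hy).1.1⟩
  have hbi : ∀ i, b i ∈ convexHull ℝ (range a) := fun i =>
    hba (subset_convexHull ℝ _ (mem_range_self i))
  obtain ⟨W, hW, hW'⟩ := ORD_weights hbi
  have e1 := ORD_sdet ha2 hbi W hW hW'
  have e3 := ORD_sdet ha3 hbi W hW hW'
  refine ⟨b, fun y hy => ⟨⟨(hb1 hy).1, (ha1 (hba hy)).1.2⟩, (ha1 (hba hy)).2.1⟩, hb2, hb3, ?_,
    hb4, hb5, ?_⟩
  · obtain ⟨A, hA⟩ := ha3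
    exact ⟨A, hA.mono hba⟩
  · rw [e3]
    rw [e1] at hb4
    exact mul_ne_zero (left_ne_zero_of_mul hb4) ha5

theorem ORD_mul {m : ℕ} {X U₁ U₂ U₃ : Set E} {h₁ h₂ h₃ : E → Fin m → ℝ} {z : E}
    (hc₁ : ChartAt m X U₁ h₁ z) (hc₂ : ChartAt m X U₂ h₂ z) (hc₃ : ChartAt m X U₃ h₃ z)
    {σ τ ρ : ℤˣ} (h12 : ORD_P m U₁ U₂ h₁ h₂ z σ) (h23 : ORD_P m U₂ U₃ h₂ h₃ z τ)
    (h13 : ORD_P m U₁ U₃ h₁ h₃ z ρ) : σ * τ = ρ := by
  obtain ⟨V, hV, hz, h12⟩ := h12
  obtain ⟨V', hV', hz', h23⟩ := h23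
  obtain ⟨V'', hV'', hz'', h13⟩ := h13
  obtain ⟨a, ha, a1, a2, a3, d1, d2, d3⟩ := ORD_three hc₁ hc₂ hc₃
    (hV.inter (hV'.inter hV'')) ⟨hz, hz', hz''⟩
  have e12 := h12 a (fun y hy => ⟨⟨(ha hy).1.1.1, (ha hy).1.1.2⟩, (ha hy).2.1⟩) a1 a2
  have e23 := h23 a (fun y hy => ⟨⟨(ha hy).1.1.2, (ha hy).1.2⟩, (ha hy).2.2.1⟩) a2 a3
  have e13 := h13 a (fun y hy => ⟨⟨(ha hy).1.1.1, (ha hy).1.2⟩, (ha hy).2.2.2⟩) a1 a3
  refine ORD_sign (mul_ne_zero d1 d3) ?_ e13
  have h5 := mul_nonneg e12 e23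
  have h6 : 0 < sdet h₂ a * sdet h₂ a := mul_self_pos.2 d2
  have h7 : (((σ * τ : ℤˣ) : ℤ) : ℝ) = ((σ : ℤ) : ℝ) * ((τ : ℤ) : ℝ) := by
    rw [Units.val_mul, Int.cast_mul]
  rw [h7]
  refine nonneg_of_mul_nonneg_left (b := sdet h₂ a * sdet h₂ a) ?_ h6
  calc (0 : ℝ) ≤ _ := h5
    _ = _ := by ring

theorem ORD_const {m : ℕ} {X U U' : Set E} {h h' : E → Fin m → ℝ} (hX : IsClosedPLManifold m X)
    {N : Set E} (hN : IsPreconnected N) (h1 : ∀ z ∈ N, ChartAt m X U h z)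
    (h2 : ∀ z ∈ N, ChartAt m X U' h' z) {x y : E} (hx : x ∈ N) (hy : y ∈ N) {σ : ℤˣ}
    (hP : ORD_P m U U' h h' x σ) : ORD_P m U U' h h' y σ := by
  have hex : ∀ z ∈ N, ∃ τ : ℤˣ, ORD_P m U U' h h' z τ := fun z hz =>
    pair_sign hX (h1 z hz) (h2 z hz)
  choose! s hs using hex
  let _ : TopologicalSpace ℤˣ := ⊥
  have _ : DiscreteTopology ℤˣ := ⟨rfl⟩
  have hc : ContinuousOn s N := by
    intro z hz
    obtain ⟨V, hV, hzV, hV'⟩ := ORD_loc (hs z hz)
    refine (continuousWithinAt_const (b := s z)).congr_of_eventuallyEq ?_ rfl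
    filter_upwards [mem_nhdsWithin_of_mem_nhds (hV.mem_nhds hzV), self_mem_nhdsWithin]
      with w hw hw'
    exact ORD_uniq (h1 w hw') (h2 w hw') (hs w hw') (hV' w hw)
  have e1 : s x = s y := hN.constant hc hx hy
  have e2 : s x = σ := ORD_uniq (h1 x hx) (h2 x hx) (hs x hx) hP
  have e3 := hs y hy
  rwa [← e1, e2] at e3

/-- small preconnected chart domains -/
theorem ORD_small {m : ℕ} {X U : Set E} {h : E → Fin m → ℝ} {x : E} (hc : ChartAt m X U h x)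
    {ε : ℝ} (hε : 0 < ε) :
    ∃ ρ : ℝ, 0 < ρ ∧ ∃ N : Set E, N ⊆ U ∧ N ⊆ Metric.ball x ε ∧ IsPreconnected N ∧ x ∈ N ∧
      N ∈ 𝓝[X] x ∧ IsPoly N ∧ h '' N = {y | ∀ i, h x i - ρ ≤ y i ∧ y i ≤ h x i + ρ} := by
  obtain ⟨⟨h1, h2, h3, h4⟩, h5, h6, h7⟩ := hc
  have hU : IsCompact U := h2.domain.isCompact
  have hcont : ContinuousOn h U := h2.continuousOn
  -- the far away part
  have hK : IsCompact (h '' (U \ Metric.ball x ε)) :=
    (hU.diff Metric.isOpen_ball).image_of_continuousOn (hcont.mono diff_subset)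
  have hxK : h x ∈ (h '' (U \ Metric.ball x ε))ᶜ := by
    rintro ⟨y, hy, he⟩
    have : y = x := h3 hy.1 h5 he
    rw [this] at hy
    exact hy.2 (Metric.mem_ball_self hε)
  obtain ⟨r₁, hr₁, hb₁⟩ := Metric.isOpen_iff.1 hK.isClosed.isOpen_compl _ hxK
  have hxc : h x ∈ interior (cube m) := interior_cube_mem h7
  obtain ⟨r₂, hr₂, hb₂⟩ := Metric.isOpen_iff.1 isOpen_interior _ hxc
  obtain ⟨ρ, hρ, hρ1, hρ2⟩ : ∃ ρ : ℝ, 0 < ρ ∧ ρ < r₁ ∧ ρ < r₂ :=
    ⟨min r₁ r₂ / 2, by positivity, by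
      have := min_le_left r₁ r₂
      linarith, by
      have := min_le_right r₁ r₂
      linarith⟩
  obtain ⟨B, hB⟩ : ∃ B : Set (Fin m → ℝ), B = {y | ∀ i, h x i - ρ ≤ y i ∧ y i ≤ h x i + ρ} :=
    ⟨_, rfl⟩
  have hBball : ∀ y ∈ B, dist y (h x) ≤ ρ := by
    intro y hy
    rw [hB] at hy
    rw [dist_pi_le_iff hρ.le]
    intro i
    rw [Real.dist_eq, abs_le]
    have := hy i
    constructor <;> linarith [this.1, this.2]
  have hBcube : B ⊆ cube m := fun y hy =>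
    interior_subset (hb₂ (Metric.mem_ball.2 (lt_of_le_of_lt (hBball y hy) hρ2)))
  have hBconv : Convex ℝ B := by
    have : B = Set.pi univ fun i => Icc (h x i - ρ) (h x i + ρ) := by
      rw [hB]
      ext y
      simp only [mem_setOf_eq, mem_pi, mem_univ, forall_const, mem_Icc]
    rw [this]
    exact convex_pi fun i _ => convex_Icc _ _
  have hBpoly : IsPoly B := by
    rw [hB]
    exact isPoly_box _ _
  have hxB : h x ∈ B := by
    rw [hB]
    intro i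
    constructor <;> linarith
  refine ⟨ρ, hρ, U ∩ h ⁻¹' B, inter_subset_left, ?_, ?_, ⟨h5, hxB⟩, ?_, h2.preimage hBpoly, ?_⟩
  · rintro y ⟨hy, hyB⟩
    by_contra hcon
    exact hb₁ (Metric.mem_ball.2 (lt_of_le_of_lt (hBball _ hyB) hρ1)) ⟨y, ⟨hy, hcon⟩, rfl⟩
  · -- preconnected
    have : CompactSpace U := isCompact_iff_compactSpace.1 hU
    have hcr : Continuous (U.restrict h) := continuousOn_iff_continuous_restrict.1 hcont
    have hpre : IsPreconnected ((U.restrict h) ⁻¹' B) := by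
      refine IsPreconnected.preimage_of_isClosedMap hBconv.isPreconnected ?_ hcr.isClosedMap ?_
      · exact h3.injective
      · intro y hy
        have : y ∈ h '' U := by
          rw [h4]
          exact hBcube hy
        obtain ⟨u, hu, rfl⟩ := this
        exact ⟨⟨u, hu⟩, rfl⟩
    have heq : U ∩ h ⁻¹' B = Subtype.val '' ((U.restrict h) ⁻¹' B) := by
      ext y
      constructor
      · rintro ⟨hy, hyB⟩
        exact ⟨⟨y, hy⟩, hyB, rfl⟩
      · rintro ⟨⟨u, hu⟩, huB, rfl⟩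
        exact ⟨hu, huB⟩
    rw [heq]
    exact hpre.image _ continuous_subtype_val.continuousOn
  · -- neighbourhood
    have hBn : B ∈ 𝓝 (h x) := by
      refine Filter.mem_of_superset (Metric.ball_mem_nhds (h x) hρ) ?_
      intro y hy
      rw [hB]
      intro i
      have h8 : dist (y i) (h x i) < ρ := lt_of_le_of_lt (dist_le_pi_dist y (h x) i)
        (Metric.mem_ball.1 hy)
      rw [Real.dist_eq, abs_lt] at h8
      constructor <;> linarith [h8.1, h8.2]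
    have h8 : h ⁻¹' B ∈ 𝓝[U] x := hcont x h5 hBn
    have h9 : 𝓝[X] x ≤ 𝓝[U] x := by
      rw [nhdsWithin_le_iff]
      exact h6
    exact Filter.inter_mem h6 (h9 h8)
  · ext y
    constructor
    · rintro ⟨u, ⟨_, hu⟩, rfl⟩
      rw [hB] at hu
      exact hu
    · intro hy
      have hyB : y ∈ B := by
        rw [hB]
        exact hy
      have : y ∈ h '' U := by
        rw [h4]
        exact hBcube hyB
      obtain ⟨u, hu, rfl⟩ := this
      exact ⟨u, ⟨hu, hyB⟩, rfl⟩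

/-- shrinking a simplex towards one of its vertices -/
theorem ORD_shrink {m : ℕ} {U U' : Set E} {h h' : E → Fin m → ℝ} {a : Fin (m + 1) → E} {σ : ℤˣ}
    (hP : ORD_P m U U' h h' (a 0) σ) (ha : convexHull ℝ (range a) ⊆ U ∩ U')
    (h1 : AffOn h (convexHull ℝ (range a))) (h2 : AffOn h' (convexHull ℝ (range a))) :
    0 ≤ ((σ : ℤ) : ℝ) * (sdet h a * sdet h' a) := by
  obtain ⟨V, hV, hz, hP⟩ := hP
  obtain ⟨r, hr, hrV⟩ := Metric.isOpen_iff.1 hV _ hz
  obtain ⟨η, hη1, hη0, hη2⟩ : ∃ η : ℝ, (∀ i, AffineMap.lineMap (a 0) (a i) η ∈ Metric.ball (a 0) r)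
      ∧ 0 < η ∧ η < 1 := by
    have e1 : ∀ᶠ η : ℝ in 𝓝[>] 0, ∀ i, AffineMap.lineMap (a 0) (a i) η ∈ Metric.ball (a 0) r := by
      rw [Filter.eventually_all]
      intro i
      have hcl : Continuous fun η : ℝ => (AffineMap.lineMap (a 0) (a i) η : E) :=
        AffineMap.lineMap_continuous
      have h5 : (fun η : ℝ => (AffineMap.lineMap (a 0) (a i) η : E)) ⁻¹' Metric.ball (a 0) r ∈
          𝓝 (0 : ℝ) := by
        refine hcl.continuousAt.preimage_mem_nhds ?_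
        rw [AffineMap.lineMap_apply_zero]
        exact Metric.ball_mem_nhds _ hr
      exact mem_nhdsWithin_of_mem_nhds h5
    have e2 : ∀ᶠ η : ℝ in 𝓝[>] 0, 0 < η := self_mem_nhdsWithin
    have e3 : ∀ᶠ η : ℝ in 𝓝[>] 0, η < 1 :=
      mem_nhdsWithin_of_mem_nhds (Iio_mem_nhds one_pos)
    exact (e1.and (e2.and e3)).exists
  obtain ⟨b, hb⟩ : ∃ b : Fin (m + 1) → E, b = fun i => AffineMap.lineMap (a 0) (a i) η := ⟨_, rfl⟩
  have hba : ∀ i, b i ∈ convexHull ℝ (range a) := by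
    intro i
    rw [hb]
    exact (convex_convexHull ℝ (range a)).lineMap_mem (subset_convexHull ℝ _ (mem_range_self 0))
      (subset_convexHull ℝ _ (mem_range_self i)) ⟨hη0.le, hη2.le⟩
  have hsub : convexHull ℝ (range b) ⊆ convexHull ℝ (range a) := by
    refine convexHull_min ?_ (convex_convexHull ℝ _)
    rintro _ ⟨i, rfl⟩
    exact hba i
  have hsub2 : convexHull ℝ (range b) ⊆ Metric.ball (a 0) r := by
    refine convexHull_min ?_ (convex_ball _ _)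
    rintro _ ⟨i, rfl⟩
    rw [hb]
    exact hη1 i
  have key : ∀ k : E → Fin m → ℝ, AffOn k (convexHull ℝ (range a)) →
      sdet k b = η ^ m * sdet k a := by
    rintro k ⟨A, hA⟩
    have e0 : ∀ i, k (a i) = A (a i) := fun i => hA (subset_convexHull ℝ _ (mem_range_self i))
    have e1 : ∀ i j, k (b i) j = k (a 0) j + η * (k (a i) j - k (a 0) j) := by
      intro i j
      rw [hA (hba i), hb]
      beta_reduce
      rw [AffineMap.apply_lineMap, e0, e0, AffineMap.lineMap_apply]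
      simp only [vsub_eq_sub, vadd_eq_add, Pi.add_apply, Pi.smul_apply, Pi.sub_apply, smul_eq_mul]
      ring
    unfold sdet
    have e2 : (Matrix.of fun i j : Fin m => k (b i.succ) j - k (b 0) j) =
        η • (Matrix.of fun i j : Fin m => k (a i.succ) j - k (a 0) j) := by
      ext i j
      rw [Matrix.smul_apply, Matrix.of_apply, Matrix.of_apply, e1, e1, smul_eq_mul]
      ring
    rw [e2, Matrix.det_smul, Fintype.card_fin]
  have h5 := hP b (fun y hy => ⟨ha (hsub hy), hrV (hsub2 hy)⟩)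
    (h1.imp fun A hA => hA.mono hsub) (h2.imp fun A hA => hA.mono hsub)
  rw [key h h1, key h' h2] at h5
  have h6 : 0 < η ^ m * η ^ m := by positivity
  refine nonneg_of_mul_nonneg_left (b := η ^ m * η ^ m) ?_ h6
  calc (0 : ℝ) ≤ _ := h5
    _ = _ := by ring

/-- the affine coordinate change `w ↦ c (w - p)` -/
noncomputable def ORD_aff {m : ℕ} (c p : Fin m → ℝ) : (Fin m → ℝ) →ᵃ[ℝ] (Fin m → ℝ) :=
  (LinearMap.pi fun i => c i • LinearMap.proj (R := ℝ) (φ := fun _ : Fin m => ℝ) i).toAffineMap +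
    AffineMap.const ℝ (Fin m → ℝ) (fun i => -(c i * p i))

theorem ORD_aff_apply {m : ℕ} (c p w : Fin m → ℝ) (i : Fin m) :
    ORD_aff c p w i = c i * (w i - p i) := by
  have : ORD_aff c p w i = c i * w i + -(c i * p i) := rfl
  rw [this]
  ring

theorem ORD_sdet_aff {m : ℕ} (c p : Fin m → ℝ) (h : E → Fin m → ℝ) (a : Fin (m + 1) → E) :
    sdet (fun y => ORD_aff c p (h y)) a = (∏ i, c i) * sdet h a := by
  unfold sdet
  rw [← Matrix.det_mul_row]
  congr 1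
  ext i j
  change ORD_aff c p (h (a i.succ)) j - ORD_aff c p (h (a 0)) j =
    c j * (h (a i.succ) j - h (a 0) j)
  rw [ORD_aff_apply, ORD_aff_apply]
  ring

theorem ORD_affOn {m : ℕ} {c p : Fin m → ℝ} (hc : ∀ i, c i ≠ 0) {h : E → Fin m → ℝ} {S : Set E}
    (hA : AffOn (fun y => ORD_aff c p (h y)) S) : AffOn h S := by
  obtain ⟨A, hA⟩ := hA
  refine ⟨(ORD_aff (fun i => (c i)⁻¹) (fun i => -(c i * p i))).comp A, fun y hy => ?_⟩
  rw [AffineMap.comp_apply, ← hA hy]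
  funext i
  beta_reduce
  rw [ORD_aff_apply, ORD_aff_apply]
  field_simp [hc i]
  ring

/-- the small oriented chart -/
theorem ORD_chart {m : ℕ} {X U N : Set E} {h : E → Fin m → ℝ} {x : E} (hc : ChartAt m X U h x)
    {ρ : ℝ} (hρ : 0 < ρ) (hNU : N ⊆ U) (hxN : x ∈ N) (hN : N ∈ 𝓝[X] x) (hpoly : IsPoly N)
    (himg : h '' N = {y | ∀ i, h x i - ρ ≤ y i ∧ y i ≤ h x i + ρ}) {c : Fin m → ℝ}
    (hcρ : ∀ i, c i = ρ⁻¹ ∨ c i = -ρ⁻¹) :
    ChartAt m X N (fun y => ORD_aff c (h x) (h y)) x := by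
  obtain ⟨⟨h1, h2, h3, h4⟩, h5, h6, h7⟩ := hc
  have hρ' : 0 < ρ⁻¹ := inv_pos.2 hρ
  have hc0 : ∀ i, c i ≠ 0 := by
    intro i
    rcases hcρ i with h8 | h8
    · rw [h8]
      exact hρ'.ne'
    · rw [h8]
      exact neg_ne_zero.2 hρ'.ne'
  refine ⟨⟨hNU.trans h1, (h2.mono hpoly hNU).affine_comp _, ?_, ?_⟩, hxN, hN, ?_⟩
  · intro y hy y' hy' he
    apply h3 (hNU hy) (hNU hy')
    funext i
    have h8 := congrFun he i
    beta_reduce at h8
    rw [ORD_aff_apply, ORD_aff_apply] at h8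
    have h9 := mul_left_cancel₀ (hc0 i) h8
    linarith
  · ext w
    constructor
    · rintro ⟨y, hy, rfl⟩ i
      have h8 : h y ∈ h '' N := mem_image_of_mem h hy
      rw [himg] at h8
      have h9 := h8 i
      beta_reduce
      rw [ORD_aff_apply]
      have h10 : -1 ≤ ρ⁻¹ * (h y i - h x i) ∧ ρ⁻¹ * (h y i - h x i) ≤ 1 := by
        rw [← div_eq_inv_mul, le_div_iff₀ hρ, div_le_iff₀ hρ]
        constructor <;> linarith [h9.1, h9.2]
      rcases hcρ i with h11 | h11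
      · rw [h11]
        exact h10
      · rw [h11]
        constructor <;> linarith [h10.1, h10.2]
    · intro hw
      have h8 : (fun i => h x i + (c i)⁻¹ * w i) ∈ h '' N := by
        rw [himg]
        intro i
        have h9 := hw i
        have h10 : -ρ ≤ ρ * w i ∧ ρ * w i ≤ ρ := by
          constructor <;> nlinarith [h9.1, h9.2]
        beta_reduce
        rcases hcρ i with h11 | h11
        · rw [h11, inv_inv]
          constructor <;> linarith [h10.1, h10.2]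
        · rw [h11, inv_neg, inv_inv]
          constructor <;> linarith [h10.1, h10.2]
      obtain ⟨y, hy, he⟩ := h8
      refine ⟨y, hy, ?_⟩
      funext i
      beta_reduce
      rw [ORD_aff_apply, he]
      have := hc0 i
      field_simp
      ring
  · intro i
    beta_reduce
    rw [ORD_aff_apply, sub_self, mul_zero]
    constructor <;> norm_num

theorem orientable_of_qtriv {m : ℕ} {X : Set E} (hX : IsClosedPLManifold m X)
    (hQ : QTriv ℤˣ X) : IsOrientable m X := by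
  have hcomp : IsCompact X := hX.1.isCompact
  rcases Nat.eq_zero_or_pos m with rfl | hm
  · refine ⟨{c | IsChart 0 X c.1 c.2}, fun c hc => hc, fun x hx => ?_, ?_⟩
    · obtain ⟨U, h, hc⟩ := hX.2 x hx
      exact ⟨(U, h), hc.1, hc⟩
    · intro c _ c' _ a _ _ _
      unfold sdet
      rw [Matrix.det_isEmpty, Matrix.det_isEmpty, mul_one]
      exact zero_le_one
  obtain ⟨n, rfl⟩ : ∃ n, m = n + 1 := ⟨m - 1, by omega⟩
  -- uniform charts
  obtain ⟨δ₁, hδ₁, hL₁⟩ := ORD_leb hcomp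
    (fun O => ∃ (U : Set E) (h : E → Fin (n + 1) → ℝ), ∀ y ∈ O ∩ X, ChartAt (n + 1) X U h y)
    (fun x hx => by
      obtain ⟨U, h, hc⟩ := hX.2 x hx
      obtain ⟨O, hO, hxO, hO'⟩ := ORD_open hc
      exact ⟨O, hO, hxO, U, h, hO'⟩)
  have hch : ∀ x ∈ X, ∃ (U : Set E) (h : E → Fin (n + 1) → ℝ),
      ∀ y ∈ X, dist y x < δ₁ → ChartAt (n + 1) X U h y := by
    intro x hx
    obtain ⟨O, ⟨U, h, hO⟩, hO'⟩ := hL₁ x hx
    exact ⟨U, h, fun y hy hd => hO y ⟨hO' (Metric.mem_ball.2 hd), hy⟩⟩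
  choose! U h hUh using hch
  have hself : ∀ x ∈ X, ChartAt (n + 1) X (U x) (h x) x := fun x hx =>
    hUh x hx x hx (by rw [dist_self]; exact hδ₁)
  have hsg : ∀ x ∈ X, ∀ y ∈ X, dist x y < δ₁ →
      ∃ σ : ℤˣ, ORD_P (n + 1) (U x) (U y) (h x) (h y) x σ := fun x hx y hy hd =>
    pair_sign hX (hself x hx) (hUh y hy x hx hd)
  choose! c hc using hsg
  -- the cocycle
  have hcoc : NCoc c X := by
    intro x₀ hx₀
    obtain ⟨ρ, hρ, N, hN1, hN2, hN3, hN4, hN5, hN6, hN7⟩ :=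
      ORD_small (hself x₀ hx₀) (half_pos hδ₁)
    obtain ⟨O, hO, hxO, hON⟩ := mem_nhdsWithin.1 hN5
    have hNX : N ⊆ X := hN1.trans (hself x₀ hx₀).1.1
    have hd : ∀ a ∈ N, ∀ b ∈ N, dist a b < δ₁ := by
      intro a ha b hb
      have e1 := Metric.mem_ball.1 (hN2 ha)
      have e2 := Metric.mem_ball.1 (hN2 hb)
      have e3 := dist_triangle_right a b x₀
      linarith
    refine ⟨O, hO.mem_nhds hxO, fun a ha b hb d hd' => ?_⟩
    have haN := hON ha
    have hbN := hON hb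
    have hdN := hON hd'
    have hC : ∀ u ∈ N, ∀ z ∈ N, ChartAt (n + 1) X (U u) (h u) z := fun u hu z hz =>
      hUh u (hNX hu) z (hNX hz) (hd z hz u hu)
    have p1 := hc a (hNX haN) b (hNX hbN) (hd a haN b hbN)
    have p2 := hc b (hNX hbN) d (hNX hdN) (hd b hbN d hdN)
    have p3 := hc a (hNX haN) d (hNX hdN) (hd a haN d hdN)
    have p2' := ORD_const hX hN3 (hC b hbN) (hC d hdN) hbN haN p2
    exact ORD_mul (hC a haN a haN) (hC b hbN a haN) (hC d hdN a haN) p1 p2' p3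
  obtain ⟨g, hg⟩ := hQ c hcoc
  obtain ⟨δ₂, hδ₂, hL₂⟩ := ORD_leb hcomp
    (fun O => ∀ a ∈ O ∩ X, ∀ b ∈ O ∩ X, c a b = (g a)⁻¹ * g b)
    (fun x hx => by
      obtain ⟨V, hV, hV'⟩ := hg x hx
      obtain ⟨O, hOV, hO, hxO⟩ := mem_nhds_iff.1 hV
      exact ⟨O, hO, hxO, fun a ha b hb => hV' a ⟨hOV ha.1, ha.2⟩ b ⟨hOV hb.1, hb.2⟩⟩)
  have hg2 : ∀ a ∈ X, ∀ b ∈ X, dist a b < δ₂ → c a b = (g a)⁻¹ * g b := by
    intro a ha b hb hd
    obtain ⟨O, hO, hO'⟩ := hL₂ a ha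
    refine hO a ⟨hO' (Metric.mem_ball_self hδ₂), ha⟩ b ⟨hO' ?_, hb⟩
    rw [Metric.mem_ball, dist_comm]
    exact hd
  obtain ⟨ε, hε, hε1, hε2⟩ : ∃ ε : ℝ, 0 < ε ∧ 3 * ε < δ₁ ∧ 3 * ε < δ₂ :=
    ⟨min δ₁ δ₂ / 4, by positivity, by
      have := min_le_left δ₁ δ₂
      have : 0 < min δ₁ δ₂ := lt_min hδ₁ hδ₂
      linarith, by
      have := min_le_right δ₁ δ₂
      have : 0 < min δ₁ δ₂ := lt_min hδ₁ hδ₂
      linarith⟩
  have hsm := fun x (hx : x ∈ X) => ORD_small (hself x hx) hε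
  choose! ρ hρ N hN1 hN2 hN3 hN4 hN5 hN6 hN7 using hsm
  obtain ⟨s, hs⟩ : ∃ s : E → ℝ, s = fun x => (((g x : ℤˣ) : ℤ) : ℝ) := ⟨_, rfl⟩
  obtain ⟨C, hC⟩ : ∃ C : E → Fin (n + 1) → ℝ,
      C = fun x => Fin.cons (s x * (ρ x)⁻¹) (fun _ => (ρ x)⁻¹) := ⟨_, rfl⟩
  have hs1 : ∀ x, s x = 1 ∨ s x = -1 := by
    intro x
    rw [hs]
    beta_reduce
    rcases Int.units_eq_one_or (g x) with h1 | h1
    · left
      rw [h1]
      simp
    · right
      rw [h1]
      simp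
  have hC1 : ∀ x i, C x i = (ρ x)⁻¹ ∨ C x i = -(ρ x)⁻¹ := by
    intro x i
    rw [hC]
    beta_reduce
    refine Fin.cases ?_ (fun j => ?_) i
    · rw [Fin.cons_zero]
      rcases hs1 x with h1 | h1
      · left
        rw [h1, one_mul]
      · right
        rw [h1, neg_one_mul]
    · left
      rw [Fin.cons_succ]
  have hC2 : ∀ x, ∏ i, C x i = s x * (ρ x)⁻¹ ^ (n + 1) := by
    intro x
    rw [Fin.prod_univ_succ, hC]
    simp only [Fin.cons_zero, Fin.cons_succ, Finset.prod_const, Finset.card_univ,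
      Fintype.card_fin]
    ring
  have hC3 : ∀ x ∈ X, ∀ i, C x i ≠ 0 := by
    intro x hx i
    have h1 : 0 < (ρ x)⁻¹ := inv_pos.2 (hρ x hx)
    rcases hC1 x i with h2 | h2
    · rw [h2]
      exact h1.ne'
    · rw [h2]
      exact neg_ne_zero.2 h1.ne'
  have hchart : ∀ x ∈ X, ChartAt (n + 1) X (N x) (fun y => ORD_aff (C x) (h x x) (h x y)) x :=
    fun x hx => ORD_chart (hself x hx) (hρ x hx) (hN1 x hx) (hN4 x hx) (hN5 x hx) (hN6 x hx)
      (hN7 x hx) (hC1 x)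
  refine ⟨{q | ∃ x ∈ X, q = (N x, fun y => ORD_aff (C x) (h x x) (h x y))}, ?_, ?_, ?_⟩
  · rintro _ ⟨x, hx, rfl⟩
    exact (hchart x hx).1
  · intro x hx
    exact ⟨_, ⟨x, hx, rfl⟩, hchart x hx⟩
  · rintro _ ⟨x, hx, rfl⟩ _ ⟨y, hy, rfl⟩ a ha h1 h2
    simp only at ha h1 h2 ⊢
    have h1' := ORD_affOn (hC3 x hx) h1
    have h2' := ORD_affOn (hC3 y hy) h2
    have hz := ha (subset_convexHull ℝ _ (mem_range_self (0 : Fin (n + 1 + 1))))
    have d1 := Metric.mem_ball.1 (hN2 x hx hz.1)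
    have d2 := Metric.mem_ball.1 (hN2 y hy hz.2)
    have d3 : dist x y < 2 * ε := by
      have := dist_triangle_left x y (a 0)
      linarith
    have hcxy : c x y = (g x)⁻¹ * g y := hg2 x hx y hy (by linarith)
    have p1 := hc x hx y hy (by linarith)
    have hNX : N x ⊆ X := (hN1 x hx).trans (hself x hx).1.1
    have q1 : ∀ z ∈ N x, ChartAt (n + 1) X (U x) (h x) z := fun z hz =>
      hUh x hx z (hNX hz) (by
        have := Metric.mem_ball.1 (hN2 x hx hz)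
        linarith)
    have q2 : ∀ z ∈ N x, ChartAt (n + 1) X (U y) (h y) z := fun z hz =>
      hUh y hy z (hNX hz) (by
        have := Metric.mem_ball.1 (hN2 x hx hz)
        have := dist_triangle z x y
        linarith)
    have p2 := ORD_const hX (hN3 x hx) q1 q2 (hN4 x hx) hz.1 p1
    have p3 := ORD_shrink p2 (fun z hz => ⟨hN1 x hx (ha hz).1, hN1 y hy (ha hz).2⟩) h1' h2'
    rw [ORD_sdet_aff, ORD_sdet_aff, hC2, hC2]
    have e1 : ((c x y : ℤ) : ℝ) = s x * s y := by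
      rw [hcxy, Int.units_inv_eq_self, Units.val_mul, Int.cast_mul, hs]
    rw [e1] at p3
    have e2 : 0 ≤ (ρ x)⁻¹ ^ (n + 1) * (ρ y)⁻¹ ^ (n + 1) := by
      have h3 := hρ x hx
      have h4 := hρ y hy
      positivity
    calc (0 : ℝ) ≤ ((ρ x)⁻¹ ^ (n + 1) * (ρ y)⁻¹ ^ (n + 1)) *
          (s x * s y * (sdet (h x) a * sdet (h y) a)) := mul_nonneg e2 p3
      _ = _ := by ring

end Pool.H54.UB
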