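import Pool.Agent.H54.UB.FA
import Pool.Agent.H54.UB.FB
import Pool.Agent.H54.UB.FC
import Pool.Agent.H54.UB.BEB
import Pool.Agent.H54.UB.ORB
import Pool.Agent.H54.UB.ORD
import Pool.Agent.H54.UB.TRI
import Pool.Agent.H54.UB.ASC
import Pool.Agent.H54.UB.NTG

/-!
# Row FD: dimension at least 3

`Q = FundamentalGroup M x`, `l = card Q` (`Fintype.ofFinite`).  Choose a prime `p > m + 1 + k + 2 l`.
`N` from `test_manifold m p (2 l)`: `q ^ (2l) = 1` for `q ∈ Q` and for `q ∈ ℤˣ`; so `QTriv Q N`,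
`QTriv ℤˣ N`, `IsOrientable` (`orientable_of_qtriv`), and `hu` gives a branched cover `f : N → M`.
The sphere `S^m` in `Fin (m+1) → ℝ` (`sphere_manifold`, `sphere_connected`, `sphere_qtriv` for `Q` and `ℤˣ`)
gives `f₀ : S^m → M`.
`R = ZMod p`: `(m+1)! ≠ 0`, `(k : R) ≠ 0` (`0 < k < p`).
`Y` from `brc_eval`, families `G` from `brc_family` for `f` (with `Y`) and for `f₀` (with `∅`); `K` from
`triang M` adapted to the union of both.  `Ori` from `GC.orientation`.  `c` from `ccov_pi1`; `g`, `g₀` from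
`lprim_exists`.  `til_degree` for `f`: `d * l = k`.  `cover_acyclic` for `f₀`.
If `d < m`: `berstein_edmonds` for `T = tilT c (K.tops m)`, `L = tilL (lifts S f) g`,
`ε u = (ε₀ (fst ∘ u) : R)`, `stokes` from `til_stokes`, gives that the sum over `tilT` is `0`; by `til_sum` it
equals the sum in `brc_eval`, which is not `0`.  So `m ≤ d` and `m * l ≤ d * l = k`.
-/

open Set Topology

namespace Pool.H54.UB

theorem main_ge_three {m n k : ℕ} (hm : 3 ≤ m) {M : Set (Fin n → ℝ)}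
    (hM : IsClosedPLManifold m M) (hc : IsConnected M) (ho : IsOrientable m M) (x : M)
    [Finite (FundamentalGroup M x)] (hk : 2 ≤ k) (hu : IsUniversalBase m k M) :
    m * Nat.card (FundamentalGroup M x) ≤ k := by
  classical
  haveI : Fintype (FundamentalGroup M x) := Fintype.ofFinite _
  have hl : 0 < Nat.card (FundamentalGroup M x) := Nat.card_pos
  obtain ⟨l, hldef⟩ : ∃ l, l = Nat.card (FundamentalGroup M x) := ⟨_, rfl⟩
  rw [← hldef] at hl ⊢
  obtain ⟨p, hpge, hp⟩ := Nat.exists_infinite_primes (m + 1 + k + 2 * l + 1)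
  haveI : Fact p.Prime := ⟨hp⟩
  have hnd : ¬ p ∣ 2 * l := fun h => by
    have := Nat.le_of_dvd (by omega) h
    omega
  obtain ⟨r, N, hN, hNc, hNQ, ⟨D⟩⟩ := test_manifold m hm p (2 * l) hnd
  have hQ1 : QTriv (FundamentalGroup M x) N := hNQ _ (fun q => by
    rw [mul_comm, pow_mul, hldef, pow_card_eq_one', one_pow])
  have hQ2 : QTriv ℤˣ N := hNQ _ (fun u => by
    rw [pow_mul, Int.units_sq, one_pow])
  obtain ⟨f, hf⟩ := hu r N hN hNc (orientable_of_qtriv hN hQ2)
  have hS := sphere_manifold m (by omega)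
  obtain ⟨f₀, hf₀⟩ := hu (m + 1) (Metric.sphere 0 1) hS (sphere_connected m (by omega))
    (orientable_of_qtriv hS (sphere_qtriv m (by omega) ℤˣ))
  have hfac : (((m + 1).factorial : ℕ) : ZMod p) ≠ 0 := by
    rw [Ne, ZMod.natCast_eq_zero_iff, hp.dvd_factorial]
    omega
  have hfac' : (((m).factorial : ℕ) : ZMod p) ≠ 0 := by
    rw [Ne, ZMod.natCast_eq_zero_iff, hp.dvd_factorial]
    omega
  have hkR : (k : ZMod p) ≠ 0 := by
    rw [Ne, ZMod.natCast_eq_zero_iff]
    intro h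
    have := Nat.le_of_dvd (by omega) h
    omega
  obtain ⟨Y, hY, hYe⟩ := brc_eval (F := Fin n → ℝ) D hfac
  obtain ⟨S, G, hG, hGK⟩ := brc_family (by omega) hM hf Y hY
  obtain ⟨S₀, G₀, hG₀, hGK₀⟩ := brc_family (by omega) hM hf₀ ∅ (by simp)
  obtain ⟨K, hK, hKad⟩ := triang M hM.1 (G ∪ G₀) (by
    intro A hA
    rcases Finset.mem_union.1 hA with h | h
    · exact hG A h
    · exact hG₀ A h)
  obtain ⟨hB, hBY⟩ := hGK K hK (fun A hA => hKad A (Finset.mem_union_left _ hA))
  obtain ⟨hB₀, -⟩ := hGK₀ K hK (fun A hA => hKad A (Finset.mem_union_right _ hA))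
  obtain ⟨ε, e1, e2, e3, e4⟩ := GC.orientation (by omega) hM ho K hK
  obtain ⟨c, hcc, hcov⟩ := ccov_pi1 hM hc K hK x
  obtain ⟨g, hg⟩ := lprim_exists (m := m) hB.adm hf.1.continuousOn hQ1 c hcc
  obtain ⟨g₀, hg₀⟩ := lprim_exists (m := m) hB₀.adm hf₀.1.continuousOn
    (sphere_qtriv m (by omega) (FundamentalGroup M x)) c hcc
  obtain ⟨d, hd, hdcard, hdfac, hdcons⟩ := til_degree hB hcov hg
  have hacyc := cover_acyclic (by omega) hB₀ hcov hg₀ (ZMod p) hkR
  rw [← Nat.card_eq_fintype_card, ← hldef] at hd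
  by_contra hcon
  have hdm : d < m := by
    by_contra h
    have h1 : m * l ≤ d * l := Nat.mul_le_mul_right l (not_lt.1 h)
    omega
  obtain ⟨y, hy, hne⟩ := hYe K S f hB hBY ε ⟨e1, e2, e3, e4⟩
  apply hne
  have h1 := berstein_edmonds m d hdm (tilT c (K.tops m))
    (fun u => ((ε (fun i => (u i).1) : ℤ) : ZMod p))
    (fun φ => til_stokes (by omega) c (K.tops m) hcov.coc (fun t => ((ε t : ℤ) : ZMod p))
      (e4 (ZMod p)) φ)
    (tilL (lifts S f) g) hdcard hdfac hdcons hacyc y (by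
      intro i u hu σ hσ a b c'
      have h2 := ((mem_tilT hcov.coc).1 hu).1
      have h3 : σ ∈ lifts S f (fun i => (u i).1) := by
        unfold tilL at hσ
        exact (Finset.mem_filter.1 hσ).1
      exact hy i _ h2 σ h3 a b c') hfac'
  rw [til_sum c (K.tops m) hcov.coc (lifts S f) g hg (fun t => ((ε t : ℤ) : ZMod p))] at h1
  exact h1

end Pool.H54.UB
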