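import Mathlib

/-!
# Row TIL: the covering complex of a cocycle

`c : V → V → Q` is a cocycle on the tuples of `T`.  The tuples of the covering:
`tilT c T = {(i ↦ (t i, q * c (t 0) (t i))) | t ∈ T, q ∈ Q}`.
Lifts: `tilL L g u = {σ ∈ L (fst ∘ u) | ∀ i, g (σ i) = (u i).2}`.

* `tilT` members satisfy `(u b).2 = (u a).2 * c (u a).1 (u b).1`.  A member is determined by its first
  components and one of the second components.
* `til_stokes`: for fixed `t, j` the tuples `u ∘ δ_j`, `u` over `t`, are exactly the lifts of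
  `r = t ∘ δ_j`: `i ↦ (r i, q' * c (r 0) (r i))`, `q' ∈ Q` (if `m ≥ 1`); so
  `∑_q φ (u_q ∘ δ_j) = φ̃ (r)` with `φ̃ r = ∑_{q'} φ (i ↦ (r i, q' * c (r 0) (r i)))`; apply Stokes.
* `til_card`: for `u ∈ tilT`, `|tilL u| =: D`; define
  `D v q = |{σ ∈ L t | g (σ a) = q}|` for any `t ∈ T`, `a` with `t a = v` (well defined by `hcons` with
  `b = 1`); `D (t a) q = D (t b) (q * c (t a) (t b))` for `t ∈ T`; so by `conn` it is constant `= d`,
  and summing over `q` gives `d * |Q| = k` (using some `t ∈ T`; if `T` is empty take any `d`... we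
  assume `T` nonempty).
* `til_facet`: subset of the injectivity set.  `til_cons`: from `hcons`: filter by the condition
  `g (σ a) = (u a).2` for one index `a`, which is a condition on `σ ∘ α` if `a` is in the range of
  `α`; if `b = 0` both multisets consist of `d` copies of the unique function.
* `til_sum`: `L t` is the disjoint union of the `tilL u`, `u` over `t`.
-/

namespace Pool.H54.UB

open Finset

section
variable {V W Q R : Type*} [Group Q] [Fintype Q] {m : ℕ}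

open Classical in
/-- Tuples of the covering. -/
noncomputable def tilT (c : V → V → Q) (T : Finset (Fin (m + 1) → V)) :
    Finset (Fin (m + 1) → V × Q) :=
  (T ×ˢ (univ : Finset Q)).image (fun p => fun i => (p.1 i, p.2 * c (p.1 0) (p.1 i)))

open Classical in
/-- Lifts of the tuples of the covering. -/
noncomputable def tilL (L : (Fin (m + 1) → V) → Finset (Fin (m + 1) → W)) (g : W → Q)
    (u : Fin (m + 1) → V × Q) : Finset (Fin (m + 1) → W) :=
  (L (fun i => (u i).1)).filter (fun σ => ∀ i, g (σ i) = (u i).2)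

omit [Fintype Q] in
theorem TIL_self {c : V → V → Q} {t : Fin (m + 1) → V}
    (hc : ∀ i j k, c (t i) (t j) * c (t j) (t k) = c (t i) (t k)) (i : Fin (m + 1)) :
    c (t i) (t i) = 1 := by
  have h := hc i i i
  exact mul_eq_left.1 h

theorem mem_tilT {c : V → V → Q} {T : Finset (Fin (m + 1) → V)}
    (hc : ∀ t ∈ T, ∀ i j k, c (t i) (t j) * c (t j) (t k) = c (t i) (t k))
    {u : Fin (m + 1) → V × Q} :
    u ∈ tilT c T ↔ (fun i => (u i).1) ∈ T ∧ ∀ i j, (u j).2 = (u i).2 * c (u i).1 (u j).1 := by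
  classical
  unfold tilT
  simp only [mem_image, mem_product, mem_univ, and_true, Prod.exists]
  constructor
  · rintro ⟨t, q, ht, rfl⟩
    refine ⟨ht, fun i j => ?_⟩
    change q * c (t 0) (t j) = q * c (t 0) (t i) * c (t i) (t j)
    rw [mul_assoc, hc t ht]
  · rintro ⟨ht, h⟩
    refine ⟨_, (u 0).2, ht, ?_⟩
    funext i
    exact Prod.ext rfl (h 0 i).symm

theorem TIL_inj {c : V → V → Q} {T : Finset (Fin (m + 1) → V)}
    (_ : ∀ t ∈ T, ∀ i j k, c (t i) (t j) * c (t j) (t k) = c (t i) (t k)) :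
    Set.InjOn (fun p : (Fin (m + 1) → V) × Q => fun i => (p.1 i, p.2 * c (p.1 0) (p.1 i)))
      (T ×ˢ (univ : Finset Q) : Finset _) := by
  rintro ⟨t, q⟩ h ⟨t', q'⟩ h' e
  simp only [coe_product, Set.mem_prod, mem_coe] at h h'
  have e1 : t = t' := by
    funext i
    exact congrArg Prod.fst (congrFun e i)
  subst e1
  have e2 : q * c (t 0) (t 0) = q' * c (t 0) (t 0) := congrArg Prod.snd (congrFun e 0)
  rw [mul_left_inj] at e2
  rw [e2]

theorem TIL_sum {R : Type*} [AddCommMonoid R] {c : V → V → Q} {T : Finset (Fin (m + 1) → V)}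
    (hc : ∀ t ∈ T, ∀ i j k, c (t i) (t j) * c (t j) (t k) = c (t i) (t k))
    (F : (Fin (m + 1) → V × Q) → R) :
    ∑ u ∈ tilT c T, F u = ∑ t ∈ T, ∑ q : Q, F (fun i => (t i, q * c (t 0) (t i))) := by
  classical
  unfold tilT
  rw [Finset.sum_image (TIL_inj hc), Finset.sum_product]

theorem til_stokes [CommRing R] (hm : 1 ≤ m) (c : V → V → Q) (T : Finset (Fin (m + 1) → V))
    (hc : ∀ t ∈ T, ∀ i j k, c (t i) (t j) * c (t j) (t k) = c (t i) (t k))
    (ε : (Fin (m + 1) → V) → R)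
    (stokes : ∀ φ : (Fin m → V) → R,
      ∑ t ∈ T, ε t * ∑ j : Fin (m + 1), (-1) ^ (j : ℕ) * φ (t ∘ j.succAbove) = 0)
    (φ : (Fin m → V × Q) → R) :
    ∑ u ∈ tilT c T, ε (fun i => (u i).1) *
      ∑ j : Fin (m + 1), (-1) ^ (j : ℕ) * φ (u ∘ j.succAbove) = 0 := by
  classical
  obtain ⟨m, rfl⟩ : ∃ m', m = m' + 1 := ⟨m - 1, by omega⟩
  rw [TIL_sum hc]
  rw [← stokes (fun r => ∑ q : Q, φ (fun i => (r i, q * c (r 0) (r i))))]
  refine Finset.sum_congr rfl fun t ht => ?_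
  change ∑ q : Q, ε t * ∑ j : Fin (m + 2), (-1) ^ (j : ℕ) *
    φ ((fun i => (t i, q * c (t 0) (t i))) ∘ j.succAbove) = _
  rw [← Finset.mul_sum]
  congr 1
  rw [Finset.sum_comm]
  refine Finset.sum_congr rfl fun j _ => ?_
  rw [← Finset.mul_sum]
  congr 1
  refine Fintype.sum_equiv (Equiv.mulRight (c (t 0) (t (j.succAbove 0)))) _ _ fun q => ?_
  congr 1
  funext i
  refine Prod.ext rfl ?_
  change q * c (t 0) (t (j.succAbove i)) =
    q * c (t 0) (t (j.succAbove 0)) * c (t (j.succAbove 0)) (t (j.succAbove i))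
  rw [mul_assoc, hc t ht]

omit [Fintype Q] in
/-- The lifts are determined by one second component. -/
theorem TIL_lift {c : V → V → Q} {T : Finset (Fin (m + 1) → V)}
    {L : (Fin (m + 1) → V) → Finset (Fin (m + 1) → W)} {g : W → Q}
    (hg : ∀ t ∈ T, ∀ σ ∈ L t, ∀ i j, c (t i) (t j) = (g (σ i))⁻¹ * g (σ j))
    {u : Fin (m + 1) → V × Q} (hu : (fun i => (u i).1) ∈ T)
    (hu' : ∀ i j, (u j).2 = (u i).2 * c (u i).1 (u j).1) (a : Fin (m + 1)) [DecidableEq Q] :
    tilL L g u = (L (fun i => (u i).1)).filter (fun σ => g (σ a) = (u a).2) := by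
  classical
  unfold tilL
  ext σ
  simp only [mem_filter]
  constructor
  · rintro ⟨h1, h2⟩
    exact ⟨h1, h2 a⟩
  · rintro ⟨h1, h2⟩
    refine ⟨h1, fun i => ?_⟩
    have h3 := hg _ hu σ h1 a i
    rw [hu' a i, h3, h2, mul_inv_cancel_left]

/-- Number of lifts. -/
theorem til_card (k : ℕ) (c : V → V → Q) (T : Finset (Fin (m + 1) → V)) (hT : T.Nonempty)
    (hc : ∀ t ∈ T, ∀ i j k, c (t i) (t j) * c (t j) (t k) = c (t i) (t k))
    (L : (Fin (m + 1) → V) → Finset (Fin (m + 1) → W)) (hcard : ∀ t ∈ T, (L t).card = k)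
    (hcons : ∀ t ∈ T, ∀ t' ∈ T, ∀ (b : ℕ) (α α' : Fin b → Fin (m + 1)), t ∘ α = t' ∘ α' →
      (L t).val.map (fun σ => σ ∘ α) = (L t').val.map (fun σ => σ ∘ α'))
    (g : W → Q)
    (hg : ∀ t ∈ T, ∀ σ ∈ L t, ∀ i j, c (t i) (t j) = (g (σ i))⁻¹ * g (σ j))
    (conn : ∀ D : V → Q → ℕ,
      (∀ t ∈ T, ∀ i j, ∀ q, D (t i) q = D (t j) (q * c (t i) (t j))) →
      ∀ t ∈ T, ∀ t' ∈ T, ∀ i j q q', D (t i) q = D (t' j) q') :
    ∃ d : ℕ, d * Fintype.card Q = k ∧ ∀ u ∈ tilT c T, (tilL L g u).card = d := by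
  classical
  have key : ∀ t ∈ T, ∀ t' ∈ T, ∀ a a' q, t a = t' a' →
      ((L t).filter (fun σ => g (σ a) = q)).card = ((L t').filter (fun σ => g (σ a') = q)).card := by
    intro t ht t' ht' a a' q h
    have h1 := hcons t ht t' ht' 1 (fun _ => a) (fun _ => a') (by funext _; exact h)
    have h2 := congrArg (fun s : Multiset (Fin 1 → W) => (s.filter (fun τ => g (τ 0) = q)).card) h1
    simp only [Multiset.filter_map, Multiset.card_map] at h2
    exact h2
  let D : V → Q → ℕ := fun v q =>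
    if h : ∃ p : (Fin (m + 1) → V) × Fin (m + 1), p.1 ∈ T ∧ p.1 p.2 = v then
      ((L h.choose.1).filter (fun σ => g (σ h.choose.2) = q)).card else 0
  have hD : ∀ t ∈ T, ∀ a q, D (t a) q = ((L t).filter (fun σ => g (σ a) = q)).card := by
    intro t ht a q
    have h : ∃ p : (Fin (m + 1) → V) × Fin (m + 1), p.1 ∈ T ∧ p.1 p.2 = t a := ⟨(t, a), ht, rfl⟩
    change (if h : ∃ p : (Fin (m + 1) → V) × Fin (m + 1), p.1 ∈ T ∧ p.1 p.2 = t a then
      ((L h.choose.1).filter (fun σ => g (σ h.choose.2) = q)).card else 0) = _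
    rw [dif_pos h]
    exact key _ h.choose_spec.1 _ ht _ _ q h.choose_spec.2
  have hD2 : ∀ t ∈ T, ∀ i j, ∀ q, D (t i) q = D (t j) (q * c (t i) (t j)) := by
    intro t ht i j q
    rw [hD t ht, hD t ht]
    congr 1
    refine Finset.filter_congr fun σ hσ => ?_
    rw [hg t ht σ hσ i j]
    constructor
    · intro h
      rw [← h, mul_inv_cancel_left]
    · intro h
      have h' : g (σ i) * ((g (σ i))⁻¹ * g (σ j)) = q * ((g (σ i))⁻¹ * g (σ j)) := by
        rw [mul_inv_cancel_left]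
        exact h
      exact mul_right_cancel h'
  have hc2 := conn D hD2
  obtain ⟨t₀, ht₀⟩ := hT
  refine ⟨D (t₀ 0) 1, ?_, ?_⟩
  · have h1 : ∑ q : Q, D (t₀ 0) q = k := by
      rw [← hcard t₀ ht₀, Finset.card_eq_sum_card_fiberwise (f := fun σ => g (σ 0)) (t := univ)
        (fun _ _ => mem_coe.2 (mem_univ _))]
      exact Finset.sum_congr rfl fun q _ => hD t₀ ht₀ 0 q
    rw [← h1, Finset.sum_congr rfl (fun q _ => hc2 t₀ ht₀ t₀ ht₀ 0 0 q 1), Finset.sum_const,
      smul_eq_mul, mul_comm, Finset.card_univ]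
  · intro u hu
    obtain ⟨h1, h2⟩ := (mem_tilT hc).1 hu
    rw [TIL_lift hg h1 h2 0]
    have h3 := hD _ h1 0 (u 0).2
    rw [← h3]
    exact hc2 _ h1 _ ht₀ 0 0 _ 1

theorem til_cons (k : ℕ) (c : V → V → Q) (T : Finset (Fin (m + 1) → V)) (hT : T.Nonempty)
    (hc : ∀ t ∈ T, ∀ i j k, c (t i) (t j) * c (t j) (t k) = c (t i) (t k))
    (L : (Fin (m + 1) → V) → Finset (Fin (m + 1) → W)) (hcard : ∀ t ∈ T, (L t).card = k)
    (hcons : ∀ t ∈ T, ∀ t' ∈ T, ∀ (b : ℕ) (α α' : Fin b → Fin (m + 1)), t ∘ α = t' ∘ α' →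
      (L t).val.map (fun σ => σ ∘ α) = (L t').val.map (fun σ => σ ∘ α'))
    (g : W → Q)
    (hg : ∀ t ∈ T, ∀ σ ∈ L t, ∀ i j, c (t i) (t j) = (g (σ i))⁻¹ * g (σ j))
    (conn : ∀ D : V → Q → ℕ,
      (∀ t ∈ T, ∀ i j, ∀ q, D (t i) q = D (t j) (q * c (t i) (t j))) →
      ∀ t ∈ T, ∀ t' ∈ T, ∀ i j q q', D (t i) q = D (t' j) q') :
    ∀ u ∈ tilT c T, ∀ u' ∈ tilT c T, ∀ (b : ℕ) (α α' : Fin b → Fin (m + 1)), u ∘ α = u' ∘ α' →
      (tilL L g u).val.map (fun σ => σ ∘ α) = (tilL L g u').val.map (fun σ => σ ∘ α') := by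
  classical
  intro u hu u' hu' b α α' h
  obtain ⟨h1, h2⟩ := (mem_tilT hc).1 hu
  obtain ⟨h1', h2'⟩ := (mem_tilT hc).1 hu'
  obtain ⟨d, -, hd⟩ := til_card k c T hT hc L hcard hcons g hg conn
  rcases Nat.eq_zero_or_pos b with rfl | hb
  · have e1 : ∀ s : Multiset (Fin 0 → W), s = Multiset.replicate s.card (fun i => i.elim0) := by
      intro s
      rw [Multiset.eq_replicate]
      exact ⟨rfl, fun b _ => Subsingleton.elim _ _⟩
    rw [e1 ((tilL L g u).val.map (fun σ => σ ∘ α)), e1 ((tilL L g u').val.map (fun σ => σ ∘ α')),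
      Multiset.card_map, Multiset.card_map]
    congr 1
    have h3 := hd u hu
    have h4 := hd u' hu'
    exact h3.trans h4.symm
  · have h3 := hcons _ h1 _ h1' b α α' (by
      funext i
      exact congrArg Prod.fst (congrFun h i))
    rw [TIL_lift hg h1 h2 (α ⟨0, hb⟩), TIL_lift hg h1' h2' (α' ⟨0, hb⟩)]
    have h4 : (u (α ⟨0, hb⟩)).2 = (u' (α' ⟨0, hb⟩)).2 :=
      congrArg Prod.snd (congrFun h ⟨0, hb⟩)
    have h5 := congrArg (fun s : Multiset (Fin b → W) =>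
      s.filter (fun τ => g (τ ⟨0, hb⟩) = (u (α ⟨0, hb⟩)).2)) h3
    simp only [Multiset.filter_map] at h5
    rw [← h4]
    exact h5

theorem til_sum [CommRing R] (c : V → V → Q) (T : Finset (Fin (m + 1) → V))
    (hc : ∀ t ∈ T, ∀ i j k, c (t i) (t j) * c (t j) (t k) = c (t i) (t k))
    (L : (Fin (m + 1) → V) → Finset (Fin (m + 1) → W)) (g : W → Q)
    (hg : ∀ t ∈ T, ∀ σ ∈ L t, ∀ i j, c (t i) (t j) = (g (σ i))⁻¹ * g (σ j))
    (ε : (Fin (m + 1) → V) → R) (G : (Fin (m + 1) → W) → R) :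
    ∑ u ∈ tilT c T, ε (fun i => (u i).1) * ∑ σ ∈ tilL L g u, G σ =
      ∑ t ∈ T, ε t * ∑ σ ∈ L t, G σ := by
  classical
  rw [TIL_sum hc]
  refine Finset.sum_congr rfl fun t ht => ?_
  change ∑ q : Q, ε t * ∑ σ ∈ tilL L g (fun i => (t i, q * c (t 0) (t i))), G σ = _
  rw [← Finset.mul_sum]
  congr 1
  rw [← Finset.sum_fiberwise (L t) (fun σ => g (σ 0)) G]
  refine Finset.sum_congr rfl fun q _ => ?_
  have hu : (fun i => (t i, q * c (t 0) (t i))) ∈ tilT c T := by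
    unfold tilT
    rw [mem_image]
    exact ⟨(t, q), mem_product.2 ⟨ht, mem_univ _⟩, rfl⟩
  obtain ⟨h1, h2⟩ := (mem_tilT hc).1 hu
  rw [TIL_lift hg h1 h2 0]
  change ∑ σ ∈ (L t).filter (fun σ => g (σ 0) = q * c (t 0) (t 0)), G σ = _
  rw [TIL_self (hc t ht) 0, mul_one]

end

end Pool.H54.UB
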