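import Pool.Agent.H54.UB.LFB
import Pool.Agent.H54.UB.TIL

/-!
# Definitions for the final assembly
-/

open Set Topology

namespace Pool.H54.UB

variable {E F : Type*} [NormedAddCommGroup E] [NormedSpace ℝ E]
  [NormedAddCommGroup F] [NormedSpace ℝ F]

/-- The combinatorial data of a branched cover of degree `k` adapted to a triangulation `K`. -/
structure BrC (m k : ℕ) (K : GC F) (S : Finset (Finset E)) (f : E → F) (N : Set E) : Prop where
  adm : Adm K S f N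
  cards : ∀ t ∈ K.tops m, (lifts S f t).card = k
  facet : ∀ t ∈ K.tops m, ∀ j : Fin (m + 1),
    InjOn (fun σ : Fin (m + 1) → E => σ ∘ j.succAbove) (lifts S f t)
  cons : ∀ t ∈ K.tops m, ∀ t' ∈ K.tops m, ∀ (b : ℕ) (α α' : Fin b → Fin (m + 1)),
    t ∘ α = t' ∘ α' →
      (lifts S f t).val.map (fun σ => σ ∘ α) = (lifts S f t').val.map (fun σ => σ ∘ α')

/-- A cocycle on the top simplices of `K` whose covering is connected. -/
structure CCov (m : ℕ) (K : GC F) (Q : Type*) [Group Q] (c : F → F → Q) : Prop where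
  coc : ∀ t ∈ K.tops m, ∀ i j k, c (t i) (t j) * c (t j) (t k) = c (t i) (t k)
  conn : ∀ D : F → Q → ℕ,
    (∀ t ∈ K.tops m, ∀ i j, ∀ q, D (t i) q = D (t j) (q * c (t i) (t j))) →
    ∀ t ∈ K.tops m, ∀ t' ∈ K.tops m, ∀ i j q q', D (t i) q = D (t' j) q'
  ne : (K.tops m).Nonempty

/-- `ε` is an orientation: the values are signs, alternating, opposite on the two sides of a facet. -/
structure Ori (m : ℕ) (K : GC F) (ε : (Fin (m + 1) → F) → ℤ) : Prop where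
  sign : ∀ t ∈ K.tops m, ε t = 1 ∨ ε t = -1
  alt : ∀ t ∈ K.tops m, ∀ π : Equiv.Perm (Fin (m + 1)),
    ε (t ∘ π) = (Equiv.Perm.sign π : ℤ) * ε t
  two : ∀ r : Fin m → F, (∃ u, (Fin.cons u r : Fin (m + 1) → F) ∈ K.tops m) →
    ∃ u v, u ≠ v ∧ (Fin.cons u r : Fin (m + 1) → F) ∈ K.tops m ∧
      (Fin.cons v r : Fin (m + 1) → F) ∈ K.tops m ∧
      (∀ w, (Fin.cons w r : Fin (m + 1) → F) ∈ K.tops m → w = u ∨ w = v) ∧
      ε (Fin.cons u r : Fin (m + 1) → F) = - ε (Fin.cons v r : Fin (m + 1) → F)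
  stokes : ∀ (R : Type) [CommRing R] (φ : (Fin m → F) → R),
    ∑ t ∈ K.tops m, (ε t : R) * ∑ j : Fin (m + 1), (-1) ^ (j : ℕ) * φ (t ∘ j.succAbove) = 0

/-- The lifts of `f` carry a primitive `g` of `c ∘ f`. -/
def LPrim (m : ℕ) (K : GC F) (S : Finset (Finset E)) (f : E → F) {Q : Type*} [Group Q]
    (c : F → F → Q) (g : E → Q) : Prop :=
  ∀ t ∈ K.tops m, ∀ σ ∈ lifts S f t, ∀ i j, c (t i) (t j) = (g (σ i))⁻¹ * g (σ j)

/-- `H^i = 0`, `0 < i < m`, for the complex whose ordered top simplices are `T`. -/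
def Acyc {V : Type*} (m : ℕ) (T : Finset (Fin (m + 1) → V)) (R : Type*) [CommRing R] : Prop :=
  ∀ i : ℕ, 0 < i → i < m → ∀ c : (Fin (i + 1) → V) → R,
    (∀ t ∈ T, ∀ α : Fin (i + 2) → Fin (m + 1),
      ∑ j : Fin (i + 2), (-1) ^ (j : ℕ) * c ((t ∘ α) ∘ j.succAbove) = 0) →
    ∃ b : (Fin i → V) → R, ∀ t ∈ T, ∀ α : Fin (i + 1) → Fin (m + 1),
      c (t ∘ α) = ∑ j : Fin (i + 1), (-1) ^ (j : ℕ) * b ((t ∘ α) ∘ j.succAbove)

end Pool.H54.UB
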