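import Pool.Agent.H54.UB.FDF
import Pool.Agent.H54.UB.LCN
import Pool.Agent.H54.UB.PUR

/-!
# Row FE: facets and strong connectivity of the covering complex

`T = K.tops m`, `T' = tilT c T` (`mem_tilT`).

* `til_perm`: immediate from `mem_tilT`.
* `til_two`: `cons u r ∈ T'` with `u : F × Q`, `r : Fin m → F × Q`, `m ≥ 1`.  `Ori.two` for `fst ∘ r` gives
  `u₀ ≠ v₀`; a tuple `cons (w, q) r` is in `T'` iff `cons w (fst ∘ r) ∈ T` and `(r i).2 = q * c w (r i).1` for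
  all `i` (the compatibility of the entries of `r` among themselves holds because `cons u r ∈ T'`);
  so `q = (r 0).2 * (c w (r 0).1)⁻¹` is determined by `w`, and this `q` works by the cocycle identity on the
  top tuple `cons w (fst ∘ r)`.
* `til_strong`: let `P` be as in the statement, `P u₁` for some `u₁ ∈ T'`.  For `v ∈ F`, `q ∈ Q` let
  `D v q = 1` if there is `u ∈ T'` and `i` with `u i = (v, q)` and `P u`, and `0` otherwise.
  Claim A: if `u, u' ∈ T'`, `u i = u' i' = (v, q)` and `P u` then `P u'`.  Use `GC.localConn` at `s = {v}` with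
  the property of a face `a` with `m + 1` vertices: for all `w ∈ T'` with `range (fst ∘ w) = a` and
  `w j = (v, q)` for some `j`: `P w`.  If `a`, `b` have a common facet `ρ ∋ v`, order it as `r₀ : Fin m → F`,
  and lift it: `r i = (r₀ i, q * c v (r₀ i))`; the lifts through `(v, q)` of the tuples `cons x r₀`
  (`range = a`), `cons y r₀` (`range = b`) are `cons _ r`, `cons _ r`; use the second hypothesis on `P`.
  Any other ordering of `a` is a permutation (first hypothesis on `P`), and the lift through `(v, q)` of a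
  given ordering is unique.
  Claim B: `D (t i) q = D (t j) (q * c (t i) (t j))` for `t ∈ T`: the lift of `t` through `(t i, q)` passes
  through `(t j, q * c (t i) (t j))`; by Claim A both sides are `1` iff this lift satisfies `P`.
  By `CCov.conn`, `D = 1` everywhere on the vertices, and by Claim A every `u ∈ T'` satisfies `P`.
-/

open Set Topology

namespace Pool.H54.UB

variable {F : Type*} [NormedAddCommGroup F] [NormedSpace ℝ F] [FiniteDimensional ℝ F]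

private theorem FE_fst {V Q : Type*} {m : ℕ} (u : V × Q) (r : Fin m → V × Q) :
    (fun i => ((Fin.cons u r : Fin (m + 1) → V × Q) i).1) =
      (Fin.cons u.1 (fun i => (r i).1) : Fin (m + 1) → V) := by
  funext i
  refine Fin.cases ?_ (fun k => ?_) i
  · rw [Fin.cons_zero, Fin.cons_zero]
  · rw [Fin.cons_succ, Fin.cons_succ]

private theorem FE_base {V Q : Type*} [Group Q] [Fintype Q] {m : ℕ} {c : V → V → Q}
    {T : Finset (Fin (m + 1) → V)}
    (hc : ∀ t ∈ T, ∀ i j k, c (t i) (t j) * c (t j) (t k) = c (t i) (t k))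
    {u : Fin (m + 1) → V × Q} (hu : (fun i => (u i).1) ∈ T) (b : Fin (m + 1))
    (h : ∀ j, (u j).2 = (u b).2 * c (u b).1 (u j).1) : u ∈ tilT c T := by
  refine (mem_tilT hc).2 ⟨hu, fun i j => ?_⟩
  have h1 : c (u b).1 (u i).1 * c (u i).1 (u j).1 = c (u b).1 (u j).1 := hc _ hu b i j
  rw [h j, h i, mul_assoc, h1]

private theorem FE_perm {V Q : Type*} [Group Q] [Fintype Q] {m : ℕ} {c : V → V → Q}
    {T : Finset (Fin (m + 1) → V)}
    (hc : ∀ t ∈ T, ∀ i j k, c (t i) (t j) * c (t j) (t k) = c (t i) (t k))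
    {u w : Fin (m + 1) → V × Q} (hu : u ∈ tilT c T) (hw : w ∈ tilT c T)
    (hwi : Function.Injective fun i => (w i).1) (h : ∀ i, ∃ j, (u j).1 = (w i).1)
    {i₀ j₀ : Fin (m + 1)} (h0 : u i₀ = w j₀) : ∃ π : Equiv.Perm (Fin (m + 1)), w = u ∘ π := by
  choose f hf using h
  have hinj : Function.Injective f := by
    intro a b hab
    apply hwi
    show (w a).1 = (w b).1
    rw [← hf a, ← hf b, hab]
  refine ⟨Equiv.ofBijective f (Finite.injective_iff_bijective.1 hinj), ?_⟩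
  funext i
  have h1 := ((mem_tilT hc).1 hu).2 i₀ (f i)
  have h2 := ((mem_tilT hc).1 hw).2 j₀ i
  show w i = u (f i)
  refine Prod.ext (hf i).symm ?_
  rw [h1, h2, hf i, h0]

private theorem FE_lift {V Q : Type*} [Group Q] [Fintype Q] {m : ℕ} {c : V → V → Q}
    {T : Finset (Fin (m + 1) → V)}
    (hc : ∀ t ∈ T, ∀ i j k, c (t i) (t j) * c (t j) (t k) = c (t i) (t k))
    {t : Fin (m + 1) → V} (ht : t ∈ T) (i : Fin (m + 1)) (q : Q) :
    (fun j => (t j, q * c (t i) (t j))) ∈ tilT c T := by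
  refine FE_base hc (u := fun j => (t j, q * c (t i) (t j))) ht i (fun j => ?_)
  show q * c (t i) (t j) = q * c (t i) (t i) * c (t i) (t j)
  rw [TIL_self (hc t ht) i, mul_one]

private theorem FE_cons {V Q : Type*} [Group Q] [Fintype Q] {m : ℕ} (hm : 1 ≤ m) {c : V → V → Q}
    {T : Finset (Fin (m + 1) → V)}
    (hc : ∀ t ∈ T, ∀ i j k, c (t i) (t j) * c (t j) (t k) = c (t i) (t k))
    {r : Fin m → V × Q} {u₁ : V × Q} (hr : (Fin.cons u₁ r : Fin (m + 1) → V × Q) ∈ tilT c T)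
    (w : V × Q) : (Fin.cons w r : Fin (m + 1) → V × Q) ∈ tilT c T ↔
      (Fin.cons w.1 (fun i => (r i).1) : Fin (m + 1) → V) ∈ T ∧
        w.2 = (r ⟨0, hm⟩).2 * c (r ⟨0, hm⟩).1 w.1 := by
  constructor
  · intro h
    have h1 := (mem_tilT hc).1 h
    refine ⟨?_, ?_⟩
    · rw [← FE_fst]
      exact h1.1
    · have h2 := h1.2 (Fin.succ ⟨0, hm⟩) 0
      rw [Fin.cons_succ, Fin.cons_zero] at h2
      exact h2
  · rintro ⟨h1, h2⟩
    refine FE_base hc (by rw [FE_fst]; exact h1) (Fin.succ ⟨0, hm⟩) (fun j => ?_)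
    refine Fin.cases ?_ (fun k => ?_) j
    · rw [Fin.cons_succ, Fin.cons_zero]
      exact h2
    · have h3 := ((mem_tilT hc).1 hr).2 (Fin.succ ⟨0, hm⟩) (Fin.succ k)
      rw [Fin.cons_succ, Fin.cons_succ] at h3
      rw [Fin.cons_succ, Fin.cons_succ]
      exact h3

omit [FiniteDimensional ℝ F] in
private theorem FE_cons_tops {m : ℕ} {K : GC F} {ρ : Finset F} {x : F} {r : Fin m → F}
    (hx : x ∉ ρ) (hr : Function.Injective r) (hrρ : ∀ k, r k ∈ ρ) {a : Finset F}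
    (ha : a ∈ K.faces) (hxa : x ∈ a) (hρa : ρ ⊆ a) :
    (Fin.cons x r : Fin (m + 1) → F) ∈ K.tops m := by
  refine GC.mem_tops.2 ⟨?_, a, ha, fun i => ?_⟩
  · refine Fin.cons_injective_iff.2 ⟨?_, hr⟩
    rintro ⟨k, hk⟩
    exact hx (by rw [← hk]; exact hrρ k)
  · refine Fin.cases ?_ (fun k => ?_) i
    · rw [Fin.cons_zero]
      exact hxa
    · rw [Fin.cons_succ]
      exact hρa (hrρ k)

/-- one step through a facet -/
private theorem FE_step {m : ℕ} {K : GC F} {Q : Type*} [Group Q] [Fintype Q] {c : F → F → Q}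
    (hc : CCov m K Q c) (P : (Fin (m + 1) → F × Q) → Prop)
    (h2 : ∀ (r : Fin m → F × Q) u v, (Fin.cons u r : Fin (m + 1) → F × Q) ∈ tilT c (K.tops m) →
      (Fin.cons v r : Fin (m + 1) → F × Q) ∈ tilT c (K.tops m) →
      P (Fin.cons u r : Fin (m + 1) → F × Q) → P (Fin.cons v r : Fin (m + 1) → F × Q))
    (v : F) (q : Q) {ρ : Finset F} {a b : Finset F} (ha : a ∈ K.faces) (hb : b ∈ K.faces)
    (hac : a.card = m + 1) (hbc : b.card = m + 1) (hvρ : v ∈ ρ) (hρa : ρ ⊆ a) (hρb : ρ ⊆ b)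
    (hρ : ρ.card = m)
    (hPa : ∀ w ∈ tilT c (K.tops m), (∀ x, x ∈ a ↔ ∃ j, (w j).1 = x) → (∃ j, w j = (v, q)) → P w) :
    ∃ w ∈ tilT c (K.tops m), (∀ x, x ∈ b → ∃ j, (w j).1 = x) ∧ (∃ j, w j = (v, q)) ∧ P w := by
  classical
  obtain ⟨x, hx, hxa⟩ := Finset.exists_eq_insert_iff.2 ⟨hρa, by rw [hρ, hac]⟩
  obtain ⟨y, hy, hyb⟩ := Finset.exists_eq_insert_iff.2 ⟨hρb, by rw [hρ, hbc]⟩
  obtain ⟨r, hri, hrρ, hrs⟩ : ∃ r : Fin m → F, Function.Injective r ∧ (∀ k, r k ∈ ρ) ∧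
      ∀ z ∈ ρ, ∃ k, r k = z := by
    refine ⟨fun k => ((ρ.equivFinOfCardEq hρ).symm k : F), ?_, ?_, ?_⟩
    · intro k l hkl
      exact (ρ.equivFinOfCardEq hρ).symm.injective (Subtype.ext hkl)
    · intro k
      exact ((ρ.equivFinOfCardEq hρ).symm k).2
    · intro z hz
      refine ⟨ρ.equivFinOfCardEq hρ ⟨z, hz⟩, ?_⟩
      show ((ρ.equivFinOfCardEq hρ).symm (ρ.equivFinOfCardEq hρ ⟨z, hz⟩) : F) = z
      rw [Equiv.symm_apply_apply]
  obtain ⟨k, hk⟩ := hrs v hvρ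
  have key : ∀ z : F, (Fin.cons z r : Fin (m + 1) → F) ∈ K.tops m →
      (Fin.cons (z, q * c v z) (fun i => (r i, q * c v (r i))) : Fin (m + 1) → F × Q) ∈
        tilT c (K.tops m) ∧
      (Fin.cons (z, q * c v z) (fun i => (r i, q * c v (r i))) : Fin (m + 1) → F × Q) k.succ =
        (v, q) := by
    intro z hz
    have h3 := FE_lift hc.coc hz k.succ q
    have h4 : (fun j => ((Fin.cons z r : Fin (m + 1) → F) j,
        q * c ((Fin.cons z r : Fin (m + 1) → F) k.succ) ((Fin.cons z r : Fin (m + 1) → F) j))) =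
        (Fin.cons (z, q * c v z) (fun i => (r i, q * c v (r i))) : Fin (m + 1) → F × Q) := by
      funext j
      refine Fin.cases ?_ (fun l => ?_) j
      · rw [Fin.cons_succ, Fin.cons_zero, Fin.cons_zero, hk]
      · rw [Fin.cons_succ, Fin.cons_succ, Fin.cons_succ, hk]
    rw [h4] at h3
    refine ⟨h3, ?_⟩
    have h5 : c v v = 1 := by
      have h6 := TIL_self (hc.coc _ hz) k.succ
      rw [Fin.cons_succ, hk] at h6
      exact h6
    rw [Fin.cons_succ, hk, h5, mul_one]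
  have hxT := FE_cons_tops hx hri hrρ ha (by rw [← hxa]; exact Finset.mem_insert_self _ _) hρa
  have hyT := FE_cons_tops hy hri hrρ hb (by rw [← hyb]; exact Finset.mem_insert_self _ _) hρb
  obtain ⟨kx1, kx2⟩ := key x hxT
  obtain ⟨ky1, ky2⟩ := key y hyT
  have hran : ∀ z : F, ∀ z', z' ∈ insert z ρ ↔ ∃ j, ((Fin.cons (z, q * c v z)
      (fun i => (r i, q * c v (r i))) : Fin (m + 1) → F × Q) j).1 = z' := by
    intro z z'
    rw [Finset.mem_insert]
    constructor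
    · rintro (h | h)
      · exact ⟨0, by rw [Fin.cons_zero]; exact h.symm⟩
      · obtain ⟨l, hl⟩ := hrs z' h
        exact ⟨l.succ, by rw [Fin.cons_succ]; exact hl⟩
    · rintro ⟨j, hj⟩
      revert hj
      refine Fin.cases ?_ (fun l => ?_) j
      · intro hj
        rw [Fin.cons_zero] at hj
        exact Or.inl hj.symm
      · intro hj
        rw [Fin.cons_succ] at hj
        exact Or.inr (by rw [← hj]; exact hrρ l)
  have hPx := hPa _ kx1 (by rw [← hxa]; exact hran x) ⟨_, kx2⟩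
  have hPy := h2 _ _ _ kx1 ky1 hPx
  refine ⟨_, ky1, ?_, ⟨_, ky2⟩, hPy⟩
  intro z hz
  rw [← hyb] at hz
  exact (hran y z).1 hz

private theorem FE_claimA {m : ℕ} {M : Set F} (hM : IsClosedPLManifold m M)
    {K : GC F} (hK : K.space = M) {Q : Type*} [Group Q] [Fintype Q] {c : F → F → Q}
    (hc : CCov m K Q c) (P : (Fin (m + 1) → F × Q) → Prop)
    (h1 : ∀ t ∈ tilT c (K.tops m), ∀ π : Equiv.Perm (Fin (m + 1)), P t → P (t ∘ π))
    (h2 : ∀ (r : Fin m → F × Q) u v, (Fin.cons u r : Fin (m + 1) → F × Q) ∈ tilT c (K.tops m) →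
      (Fin.cons v r : Fin (m + 1) → F × Q) ∈ tilT c (K.tops m) →
      P (Fin.cons u r : Fin (m + 1) → F × Q) → P (Fin.cons v r : Fin (m + 1) → F × Q))
    {u u' : Fin (m + 1) → F × Q} (hu : u ∈ tilT c (K.tops m)) (hu' : u' ∈ tilT c (K.tops m))
    {i i' : Fin (m + 1)} (he : u i = u' i') (hPu : P u) : P u' := by
  classical
  have hface : ∀ w ∈ tilT c (K.tops m), ∃ a ∈ K.faces, a.card = m + 1 ∧
      ∀ x, x ∈ a ↔ ∃ j, (w j).1 = x := by
    intro w hw
    obtain ⟨hinj, s, hs, hws⟩ := GC.mem_tops.1 ((mem_tilT hc.coc).1 hw).1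
    refine ⟨Finset.univ.image fun j => (w j).1, ?_, ?_, ?_⟩
    · refine K.down s hs _ ?_ ⟨(w 0).1, Finset.mem_image_of_mem _ (Finset.mem_univ _)⟩
      intro x hx
      obtain ⟨j, -, rfl⟩ := Finset.mem_image.1 hx
      exact hws j
    · rw [Finset.card_image_of_injective _ hinj, Finset.card_univ, Fintype.card_fin]
    · intro x
      rw [Finset.mem_image]
      constructor
      · rintro ⟨j, -, hj⟩
        exact ⟨j, hj⟩
      · rintro ⟨j, hj⟩
        exact ⟨j, Finset.mem_univ _, hj⟩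
  have hinj : ∀ w ∈ tilT c (K.tops m), Function.Injective fun j => (w j).1 := fun w hw =>
    (GC.mem_tops.1 ((mem_tilT hc.coc).1 hw).1).1
  obtain ⟨a, ha, hac, har⟩ := hface u hu
  obtain ⟨b, hb, hbc, hbr⟩ := hface u' hu'
  have hva : (u i).1 ∈ a := (har _).2 ⟨i, rfl⟩
  have hvb : (u i).1 ∈ b := by
    rw [he]
    exact (hbr _).2 ⟨i', rfl⟩
  have hs : {(u i).1} ∈ K.faces :=
    K.down a ha _ (Finset.singleton_subset_iff.2 hva) (Finset.singleton_nonempty _)
  have hmain := GC.localConn hM K hK {(u i).1} hs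
    (fun a => ∀ w ∈ tilT c (K.tops m), (∀ x, x ∈ a ↔ ∃ j, (w j).1 = x) →
      (∃ j, w j = ((u i).1, (u i).2)) → P w) (by
      intro a' ha' b' hb' hac' hbc' hr hPa' w hw hwr hwj
      obtain ⟨ρ, hρ1, hρ2, hρ3, hρ4⟩ := hr
      obtain ⟨w', hw', hw'r, ⟨j', hj'⟩, hPw'⟩ := FE_step hc P h2 (u i).1 (u i).2 ha' hb' hac' hbc'
        (Finset.singleton_subset_iff.1 hρ1) hρ2 hρ3 hρ4 hPa'
      obtain ⟨j, hj⟩ := hwj
      obtain ⟨π, hπ⟩ := FE_perm hc.coc hw' hw (hinj w hw)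
        (fun l => hw'r _ ((hwr _).2 ⟨l, rfl⟩)) (hj'.trans hj.symm)
      rw [hπ]
      exact h1 w' hw' π hPw')
    a b ha hb hac hbc (Finset.singleton_subset_iff.2 hva) (Finset.singleton_subset_iff.2 hvb) (by
      intro w hw hwr hwj
      obtain ⟨j, hj⟩ := hwj
      obtain ⟨π, hπ⟩ := FE_perm hc.coc hu hw (hinj w hw) (i₀ := i) (j₀ := j)
        (fun l => (har _).1 ((hwr _).2 ⟨l, rfl⟩)) (by rw [hj])
      rw [hπ]
      exact h1 u hu π hPu)
  exact hmain u' hu' hbr ⟨i', by rw [← he]⟩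

theorem til_perm {m : ℕ} {K : GC F} {Q : Type*} [Group Q] [Fintype Q] {c : F → F → Q}
    (hc : CCov m K Q c) : ∀ t ∈ tilT c (K.tops m), ∀ π : Equiv.Perm (Fin (m + 1)),
      t ∘ π ∈ tilT c (K.tops m) := by
  intro t ht π
  have h1 := (mem_tilT hc.coc).1 ht
  refine (mem_tilT hc.coc).2 ⟨?_, fun i j => h1.2 (π i) (π j)⟩
  obtain ⟨hinj, s, hs, hts⟩ := GC.mem_tops.1 h1.1
  exact GC.mem_tops.2 ⟨hinj.comp π.injective, s, hs, fun a => hts (π a)⟩

theorem til_two {m : ℕ} (hm : 1 ≤ m) {K : GC F} {Q : Type*} [Group Q] [Fintype Q]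
    {c : F → F → Q} (hc : CCov m K Q c) {ε : (Fin (m + 1) → F) → ℤ} (hε : Ori m K ε)
    (r : Fin m → F × Q) (hr : ∃ u, (Fin.cons u r : Fin (m + 1) → F × Q) ∈ tilT c (K.tops m)) :
    ∃ u v, u ≠ v ∧ (Fin.cons u r : Fin (m + 1) → F × Q) ∈ tilT c (K.tops m) ∧
      (Fin.cons v r : Fin (m + 1) → F × Q) ∈ tilT c (K.tops m) ∧
      (∀ w, (Fin.cons w r : Fin (m + 1) → F × Q) ∈ tilT c (K.tops m) → w = u ∨ w = v) ∧
      ε (fun i => ((Fin.cons u r : Fin (m + 1) → F × Q) i).1) =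
        - ε (fun i => ((Fin.cons v r : Fin (m + 1) → F × Q) i).1) := by
  obtain ⟨u₁, hu₁⟩ := hr
  have hcons := FE_cons hm hc.coc hu₁
  obtain ⟨u₀, v₀, hne, hu, hv, huniq, hsgn⟩ := hε.two (fun i => (r i).1)
    ⟨u₁.1, ((hcons u₁).1 hu₁).1⟩
  refine ⟨(u₀, (r ⟨0, hm⟩).2 * c (r ⟨0, hm⟩).1 u₀), (v₀, (r ⟨0, hm⟩).2 * c (r ⟨0, hm⟩).1 v₀),
    fun h => hne (congrArg Prod.fst h), (hcons _).2 ⟨hu, rfl⟩, (hcons _).2 ⟨hv, rfl⟩, ?_, ?_⟩
  · intro w hw
    obtain ⟨h1, h2⟩ := (hcons w).1 hw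
    rcases huniq w.1 h1 with h3 | h3
    · left
      refine Prod.ext h3 ?_
      rw [h2, h3]
    · right
      refine Prod.ext h3 ?_
      rw [h2, h3]
  · rw [FE_fst, FE_fst]
    exact hsgn

theorem til_strong {m : ℕ} (hm : 1 ≤ m) {M : Set F} (hM : IsClosedPLManifold m M) {K : GC F}
    (hK : K.space = M) {Q : Type*} [Group Q] [Fintype Q] {c : F → F → Q} (hc : CCov m K Q c)
    (P : (Fin (m + 1) → F × Q) → Prop)
    (h1 : ∀ t ∈ tilT c (K.tops m), ∀ π : Equiv.Perm (Fin (m + 1)), P t → P (t ∘ π))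
    (h2 : ∀ (r : Fin m → F × Q) u v, (Fin.cons u r : Fin (m + 1) → F × Q) ∈ tilT c (K.tops m) →
      (Fin.cons v r : Fin (m + 1) → F × Q) ∈ tilT c (K.tops m) →
      P (Fin.cons u r : Fin (m + 1) → F × Q) → P (Fin.cons v r : Fin (m + 1) → F × Q)) :
    ∀ t ∈ tilT c (K.tops m), ∀ t' ∈ tilT c (K.tops m), P t → P t' := by
  classical
  have hA := fun {u u' : Fin (m + 1) → F × Q} (hu : u ∈ tilT c (K.tops m))
    (hu' : u' ∈ tilT c (K.tops m)) {i i' : Fin (m + 1)} (he : u i = u' i') (hPu : P u) =>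
    FE_claimA hM hK hc P h1 h2 hu hu' he hPu
  have hconn := hc.conn (fun v q => if ∃ u ∈ tilT c (K.tops m), ∃ i, u i = (v, q) ∧ P u then 1
    else 0) (by
      intro t ht i j q
      have hl := FE_lift hc.coc ht i q
      have hi : (fun j => (t j, q * c (t i) (t j))) i = (t i, q) := by
        show (t i, q * c (t i) (t i)) = (t i, q)
        rw [TIL_self (hc.coc t ht) i, mul_one]
      have hiff1 : (∃ u ∈ tilT c (K.tops m), ∃ l, u l = (t i, q) ∧ P u) ↔
          P (fun j => (t j, q * c (t i) (t j))) := by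
        constructor
        · rintro ⟨u, hu, l, hul, hPu⟩
          exact hA hu hl (i := l) (i' := i) (by rw [hul]; exact hi.symm) hPu
        · intro h
          exact ⟨_, hl, i, hi, h⟩
      have hiff2 : (∃ u ∈ tilT c (K.tops m), ∃ l, u l = (t j, q * c (t i) (t j)) ∧ P u) ↔
          P (fun j => (t j, q * c (t i) (t j))) := by
        constructor
        · rintro ⟨u, hu, l, hul, hPu⟩
          exact hA hu hl (i := l) (i' := j) hul hPu
        · intro h
          exact ⟨_, hl, j, rfl, h⟩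
      show (if ∃ u ∈ tilT c (K.tops m), ∃ l, u l = (t i, q) ∧ P u then 1 else 0) =
        (if ∃ u ∈ tilT c (K.tops m), ∃ l, u l = (t j, q * c (t i) (t j)) ∧ P u then 1 else 0)
      rw [if_congr (hiff1.trans hiff2.symm) rfl rfl])
  intro t ht t' ht' hPt
  have h3 := hconn _ ((mem_tilT hc.coc).1 ht).1 _ ((mem_tilT hc.coc).1 ht').1 0 0 (t 0).2 (t' 0).2
  have h4 : ∃ u ∈ tilT c (K.tops m), ∃ i, u i = ((t 0).1, (t 0).2) ∧ P u := ⟨t, ht, 0, rfl, hPt⟩
  have h5 : ∃ u ∈ tilT c (K.tops m), ∃ i, u i = ((t' 0).1, (t' 0).2) ∧ P u := by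
    by_contra hcon
    have h6 : (if ∃ u ∈ tilT c (K.tops m), ∃ i, u i = ((t 0).1, (t 0).2) ∧ P u then 1 else 0) =
      (if ∃ u ∈ tilT c (K.tops m), ∃ i, u i = ((t' 0).1, (t' 0).2) ∧ P u then 1 else 0) := h3
    rw [if_pos h4, if_neg hcon] at h6
    exact one_ne_zero h6
  obtain ⟨u, hu, i, hui, hPu⟩ := h5
  exact hA hu ht' (i := i) (i' := 0) hui hPu

end Pool.H54.UB
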