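import Pool.Agent.H54.UB.FE
import Pool.Agent.H54.UB.FA
import Pool.Agent.H54.UB.FB
import Pool.Agent.H54.UB.EUC
import Pool.Agent.H54.UB.EUL
import Pool.Agent.H54.UB.ORB
import Pool.Agent.H54.UB.ORD
import Pool.Agent.H54.UB.TRI
import Pool.Agent.H54.UB.ASC

/-!
# Row FG: dimension 2

* `til_euler`: `euler_char` for `T' = tilT c (K.tops 2)`, `R = ℚ`: `hinj` (the first components are
  injective), `til_perm`, `ne`; `conn`: for `D : F × Q → ℚ` constant on the tuples of `T'` and a fixed vertex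
  `w₀`, apply `CCov.conn` to `D' v q = if D (v, q) = D w₀ then 1 else 0`; `H1` is `Acyc` for `i = 1`;
  `ε' u = ε (fst ∘ u)` cast to `ℚ`, not zero by `Ori.sign`; `hεcyc`: for given `r` the tuples `t ∈ T'` with
  `t ∘ succ = r` are `cons u r`, `cons v r` of `til_two` (or there are none), the sum is `0`;
  `Z2`: `cycle_unique` with `til_two`, `til_strong`; its hypothesis `hζc` follows by summing over the fibres of
  `t ↦ t ∘ succ`.
* `main_two`: `f₀ : S^2 → M` from `hu` (`sphere_manifold`, `sphere_connected`, `sphere_qtriv`,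
  `orientable_of_qtriv`), `brc_family` with `Y = ∅`, `triang`, `GC.orientation`, `ccov_pi1`,
  `lprim_exists`, `cover_acyclic` with `R = ℚ`, `(k : ℚ) ≠ 0`.  `til_euler` for `Q = π₁` and `c`; and for
  `Multiplicative Unit` and the trivial cocycle (`ccov_unit`; `LPrim` with `g = 1` is trivial).  With
  `til_counts` for both: `l * (6 V + T) = 3 l E + 12` and `6 V + T = 3 E + 12` (numbers of `K`), so
  `12 l = 12`, `l = 1`, `2 * 1 ≤ k`.
-/

open Set Topology

namespace Pool.H54.UB

theorem FG_lift {F : Type*} [NormedAddCommGroup F] [NormedSpace ℝ F] {m : ℕ} {K : GC F}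
    {Q : Type*} [Group Q] [Fintype Q] {c : F → F → Q} (hc : CCov m K Q c) {t : Fin (m + 1) → F}
    (ht : t ∈ K.tops m) (i : Fin (m + 1)) (q : Q) :
    (fun k => (t k, q * c (t i) (t k))) ∈ tilT c (K.tops m) := by
  rw [mem_tilT hc.coc]
  refine ⟨ht, fun j k => ?_⟩
  change q * c (t i) (t k) = q * c (t i) (t j) * c (t j) (t k)
  rw [mul_assoc, hc.coc t ht]

open Classical Finset in
theorem til_euler {F : Type*} [NormedAddCommGroup F] [NormedSpace ℝ F] [FiniteDimensional ℝ F]
    {M : Set F} (hM : IsClosedPLManifold 2 M) {K : GC F} (hK : K.space = M) {Q : Type*} [Group Q]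
    [Fintype Q] {c : F → F → Q} (hc : CCov 2 K Q c) {ε : (Fin 3 → F) → ℤ} (hε : Ori 2 K ε)
    (ha : Acyc 2 (tilT c (K.tops 2)) ℚ) :
    6 * ((tilT c (K.tops 2)).biUnion fun t => Finset.univ.image t).card + (tilT c (K.tops 2)).card =
      3 * ((tilT c (K.tops 2)).biUnion fun t =>
        (Finset.univ.filter (fun p : Fin 3 × Fin 3 => p.1 ≠ p.2)).image
        (fun p => (t p.1, t p.2))).card + 12 := by
  have hmem : ∀ u ∈ tilT c (K.tops 2), (fun i => (u i).1) ∈ K.tops 2 :=
    fun u hu => ((mem_tilT hc.coc).1 hu).1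
  have hne : (tilT c (K.tops 2)).Nonempty := by
    obtain ⟨t, ht⟩ := hc.ne
    exact ⟨_, FG_lift hc ht 0 1⟩
  have hεne : ∀ t ∈ tilT c (K.tops 2), ((ε (fun i => (t i).1) : ℤ) : ℚ) ≠ 0 := by
    intro t ht
    rcases hε.sign _ (hmem t ht) with h | h
    · rw [h]; norm_num
    · rw [h]; norm_num
  have halt : ∀ t ∈ tilT c (K.tops 2), ∀ π : Equiv.Perm (Fin 3),
      ((ε (fun i => ((t ∘ π) i).1) : ℤ) : ℚ) =
        ((Equiv.Perm.sign π : ℤ) : ℚ) * ((ε (fun i => (t i).1) : ℤ) : ℚ) := by
    intro t ht π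
    have h := hε.alt _ (hmem t ht) π
    have h' : ε (fun i => ((t ∘ π) i).1) = (Equiv.Perm.sign π : ℤ) * ε (fun i => (t i).1) := h
    rw [h', Int.cast_mul]
  have htwo : ∀ r : Fin 2 → F × Q, (∃ u, (Fin.cons u r : Fin 3 → F × Q) ∈ tilT c (K.tops 2)) →
      ∃ u v, u ≠ v ∧ (Fin.cons u r : Fin 3 → F × Q) ∈ tilT c (K.tops 2) ∧
        (Fin.cons v r : Fin 3 → F × Q) ∈ tilT c (K.tops 2) ∧
        (∀ w, (Fin.cons w r : Fin 3 → F × Q) ∈ tilT c (K.tops 2) → w = u ∨ w = v) ∧
        ((ε (fun i => ((Fin.cons u r : Fin 3 → F × Q) i).1) : ℤ) : ℚ) =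
          - ((ε (fun i => ((Fin.cons v r : Fin 3 → F × Q) i).1) : ℤ) : ℚ) := by
    intro r hr
    obtain ⟨u, v, h1, h2, h3, h4, h5⟩ := til_two (m := 2) (by norm_num) hc hε r hr
    refine ⟨u, v, h1, h2, h3, h4, ?_⟩
    rw [h5, Int.cast_neg]
  have main := euler_char (R := ℚ) (by norm_num) (tilT c (K.tops 2))
    (fun t ht => Function.Injective.of_comp (f := Prod.fst) (GC.mem_tops.1 (hmem t ht)).1)
    (til_perm hc) hne ?_ (ha 1 one_pos one_lt_two)
    (fun u => ((ε (fun i => (u i).1) : ℤ) : ℚ)) hεne halt ?_ ?_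
  · have e1 : ∀ (s s' : Finset (F × Q)), (∀ x, x ∈ s ↔ x ∈ s') → s.card = s'.card :=
      fun s s' h => congrArg Finset.card (Finset.ext h)
    have e2 : ∀ (s s' : Finset ((F × Q) × (F × Q))), (∀ x, x ∈ s ↔ x ∈ s') → s.card = s'.card :=
      fun s s' h => congrArg Finset.card (Finset.ext h)
    refine (congrArg₂ (fun a b : ℕ => 6 * a + b) (e1 _ _ fun x => ?_) rfl).trans
      (main.trans (congrArg (fun a : ℕ => 3 * a + 12) (e2 _ _ fun x => ?_)))
    · simp only [Finset.mem_biUnion, Finset.mem_image, Finset.mem_univ, true_and]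
    · simp only [Finset.mem_biUnion, Finset.mem_image, Finset.mem_filter]
  · intro D hD t ht t' ht' a b
    have h := hc.conn (fun v q => if D (v, q) = D (t a) then 1 else 0) ?_ _ (hmem t ht) _
      (hmem t' ht') a b (t a).2 (t' b).2
    · have h1 : (if D (t a) = D (t a) then 1 else 0) = if D (t' b) = D (t a) then 1 else 0 := h
      rw [if_pos rfl] at h1
      by_contra hcon
      rw [if_neg (fun h2 => hcon h2.symm)] at h1
      exact one_ne_zero h1
    · intro s hs i j q
      have h1 := hD _ (FG_lift hc hs i q) i j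
      have h2 : c (s i) (s i) = 1 := TIL_self (hc.coc s hs) i
      simp only [h2, mul_one] at h1
      simp only [h1]
  · intro r
    by_cases hr : ∃ u, (Fin.cons u r : Fin 3 → F × Q) ∈ tilT c (K.tops 2)
    · obtain ⟨u, v, huv, hu, hv, hw, he⟩ := htwo r hr
      have h2 : ({(Fin.cons u r : Fin 3 → F × Q), (Fin.cons v r : Fin 3 → F × Q)} :
          Finset (Fin 3 → F × Q)) =
            (tilT c (K.tops 2)).filter (fun t => (fun i : Fin 2 => t i.succ) = r) := by
        ext t
        simp only [Finset.mem_insert, Finset.mem_singleton, Finset.mem_filter]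
        constructor
        · rintro (rfl | rfl)
          · refine ⟨hu, ?_⟩
            funext i
            rw [Fin.cons_succ]
          · refine ⟨hv, ?_⟩
            funext i
            rw [Fin.cons_succ]
        · rintro ⟨ht, hr⟩
          have h3 : t = (Fin.cons (t 0) r : Fin 3 → F × Q) := by
            rw [← hr]
            exact (Fin.cons_self_tail t).symm
          rw [h3] at ht
          rcases hw _ ht with h4 | h4
          · left
            rw [h3, h4]
          · right
            rw [h3, h4]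
      have h3 : (Fin.cons u r : Fin 3 → F × Q) ≠ (Fin.cons v r : Fin 3 → F × Q) := by
        intro h
        exact huv (congrFun h 0)
      have h4 : ∀ (s₁ s₂ : Finset (Fin 3 → F × Q)), s₁ = s₂ →
          ∑ t ∈ s₁, ((ε (fun i => (t i).1) : ℤ) : ℚ) = ∑ t ∈ s₂, ((ε (fun i => (t i).1) : ℤ) : ℚ) := by
        intro s₁ s₂ h
        rw [h]
      refine (h4 _ _ (Eq.trans (by ext t; simp only [Finset.mem_filter]) h2.symm)).trans ?_
      rw [Finset.sum_pair h3, he]
      ring
    · refine Finset.sum_eq_zero fun t ht' => ?_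
      exfalso
      have ht : t ∈ tilT c (K.tops 2) ∧ (fun i : Fin 2 => t i.succ) = r := by
        simpa using ht'
      refine hr ⟨t 0, ?_⟩
      have h3 : t = (Fin.cons (t 0) r : Fin 3 → F × Q) := by
        rw [← ht.2]
        exact (Fin.cons_self_tail t).symm
      rw [← h3]
      exact ht.1
  · intro ζ hζ hz
    refine cycle_unique (tilT c (K.tops 2)) (til_perm hc) hne
      (fun u => ((ε (fun i => (u i).1) : ℤ) : ℚ)) hεne halt htwo
      (fun P h1 h2 => til_strong (by norm_num) hM hK hc P h1 h2) ζ hζ ?_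
    intro φ
    rw [← Finset.sum_fiberwise_of_maps_to (s := tilT c (K.tops 2))
      (t := (tilT c (K.tops 2)).image (fun t => fun i : Fin 2 => t i.succ))
      (g := fun t => fun i : Fin 2 => t i.succ) (fun t ht => Finset.mem_image_of_mem _ ht)]
    refine Finset.sum_eq_zero fun r _ => ?_
    have h1 : ∀ t ∈ (tilT c (K.tops 2)).filter (fun t => (fun i : Fin 2 => t i.succ) = r),
        ζ t * φ (fun i : Fin 2 => t i.succ) = ζ t * φ r := by
      intro t ht
      rw [Finset.mem_filter] at ht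
      rw [ht.2]
    rw [Finset.sum_congr rfl h1, ← Finset.sum_mul]
    have h2 := hz r
    have h3 : ∑ t ∈ (tilT c (K.tops 2)).filter (fun t => (fun i : Fin 2 => t i.succ) = r), ζ t
        = 0 := by
      exact Eq.trans (Finset.sum_congr (by ext t; simp only [Finset.mem_filter]) fun _ _ => rfl) h2
    rw [h3, zero_mul]

theorem main_two {n k : ℕ} {M : Set (Fin n → ℝ)}
    (hM : IsClosedPLManifold 2 M) (hc : IsConnected M) (ho : IsOrientable 2 M) (x : M)
    [Finite (FundamentalGroup M x)] (hk : 2 ≤ k) (hu : IsUniversalBase 2 k M) :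
    2 * Nat.card (FundamentalGroup M x) ≤ k := by
  classical
  have : Fintype (FundamentalGroup M x) := Fintype.ofFinite _
  have hSm := sphere_manifold 2 (by norm_num)
  obtain ⟨f, hf⟩ := hu 3 (Metric.sphere 0 1) hSm (sphere_connected 2 (by norm_num))
    (orientable_of_qtriv hSm (sphere_qtriv 2 le_rfl ℤˣ))
  obtain ⟨S, G, hG, hG2⟩ := brc_family (by norm_num) hM hf ∅ (by simp)
  obtain ⟨K, hK, hKad⟩ := triang M hM.1 G hG
  obtain ⟨hB, -⟩ := hG2 K hK hKad
  obtain ⟨ε, h1, h2, h3, h4⟩ := GC.orientation (by norm_num) hM ho K hK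
  have hε : Ori 2 K ε := ⟨h1, h2, h3, h4⟩
  obtain ⟨c, hcf, hcc⟩ := ccov_pi1 hM hc K hK x
  have hcont : ContinuousOn f (Metric.sphere 0 1) := hf.1.continuousOn
  obtain ⟨g, hg⟩ := lprim_exists (m := 2) hB.adm hcont (sphere_qtriv 2 le_rfl _) c hcf
  have hk0 : (k : ℚ) ≠ 0 := by
    have : k ≠ 0 := by omega
    exact_mod_cast this
  have ha := cover_acyclic (by norm_num) hB hcc hg ℚ hk0
  have he := til_euler hM hK hcc hε ha
  have hcu := ccov_unit hcc
  have hgu : LPrim 2 K S f (fun _ _ => (1 : Multiplicative Unit)) (fun _ => 1) :=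
    fun t _ σ _ i j => Subsingleton.elim _ _
  have hau := cover_acyclic (by norm_num) hB hcu hgu ℚ hk0
  have heu := til_euler hM hK hcu hε hau
  obtain ⟨a1, a2, a3⟩ := til_counts c (K.tops 2) hcc.coc
  obtain ⟨b1, b2, b3⟩ := til_counts (fun _ _ => (1 : Multiplicative Unit)) (K.tops 2) hcu.coc
  rw [a1, a2, a3] at he
  rw [b1, b2, b3] at heu
  have hone : Fintype.card (Multiplicative Unit) = 1 := Fintype.card_unit
  rw [hone] at heu
  simp only [one_mul] at heu
  rw [Nat.card_eq_fintype_card]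
  generalize Fintype.card (FundamentalGroup M x) = l at he ⊢
  have hl : l * 12 = 12 := by
    have h5 := congrArg (fun z => l * z) heu
    simp only [mul_add] at h5
    have e1 := he
    nlinarith
  omega

end Pool.H54.UB
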