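import Pool.Agent.H54.UB.FD
import Pool.Agent.H54.UB.FG

/-!
# Row FH: the theorem

`m = 0`: trivial.  `m = 1`: `hu` applied to `M` itself gives a branched cover, whose branch set `B` is
nonempty but of codimension two: all the finite sets in `IsCodimTwo 1 B` are empty, so `B` is empty.
`m = 2`: `main_two`.  `m ≥ 3`: `main_ge_three`.
-/

open Set Topology

namespace Pool.H54.UB

theorem universal_base_degree {m n k : ℕ} {M : Set (Fin n → ℝ)}
    (hM : IsClosedPLManifold m M) (hc : IsConnected M) (ho : IsOrientable m M) (x : M)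
    [Finite (FundamentalGroup M x)] (hk : 2 ≤ k) (hu : IsUniversalBase m k M) :
    m * Nat.card (FundamentalGroup M x) ≤ k := by
  match m, hM, ho, hu with
  | 0, _, _, _ => simp
  | 1, hM, ho, hu =>
    exfalso
    obtain ⟨f, -, -, -, B, -, hne, ⟨⟨S, hS, hB⟩, -⟩, -⟩ := hu n M hM hc ho
    obtain ⟨y, hy⟩ := hne
    rw [hB] at hy
    simp only [mem_iUnion] at hy
    obtain ⟨s, hs, hy⟩ := hy
    have h0 : s.card = 0 := by
      have := hS s hs
      omega
    rw [Finset.card_eq_zero] at h0
    rw [h0] at hy
    simp at hy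
  | 2, hM, ho, hu => exact main_two hM hc ho x hk hu
  | (m + 3), hM, ho, hu => exact main_ge_three (by omega) hM hc ho x hk hu

end Pool.H54.UB
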