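import Pool.Agent.H54.UB.GA

/-!
# Row GB: splitting an edge of a geometric complex

Let `{a, b}` be an edge (contained in some face), `0 < t < 1`, `c = (1-t) a + t b`.  New faces:
* the faces of `K` that do not contain both `a` and `b`,
* `insert c s'` where `s'` is a (possibly empty) finset not containing both `a` and `b` with
  `s' ∪ {a, b} ∈ K.faces`.
(`c` is not a vertex of `K`, because its carrier is `{a, b}`.)

`uniq`: for a positive weight `w` on a new face `s` define the weight `Φ w` on `K`:
if `c ∉ s` then `w`, otherwise `w - w c 1_c + w c ((1-t) 1_a + t 1_b)`; it is positive exactly on the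
face `s` resp. `(s \ {c}) ∪ {a, b}` of `K`, and has the same barycentre.  By `K.uniq` the weights
`Φ w = Φ v =: u` agree.  Recover `w` from `u`: `w c = min (u a / (1-t)) (u b / t)` if both `u a` and
`u b` are positive, and `w c = 0` otherwise (because at least one of `w a`, `w b` is `0`), and then
`w a = u a - (1-t) w c`, `w b = u b - t w c`, `w x = u x` for the other `x`.  So `w = v` as functions
supported on the faces, and the faces (supports) are equal.

`space`: `⊆`: every new face lies in the hull of an old face.  `⊇`: given a positive weight `u` on an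
old face `s`: if `s` does not contain both `a` and `b` nothing to do; otherwise use the formula above
to write the point with the new weights.

Edges of the new complex: read off from the description of the new faces.
-/

open Set Topology

namespace Pool.H54.UB

variable {E : Type*} [NormedAddCommGroup E] [NormedSpace ℝ E]

/-- `u ≠ v` are the ends of an edge. -/
def GC.Edge (K : GC E) (u v : E) : Prop := u ≠ v ∧ ∃ s ∈ K.faces, u ∈ s ∧ v ∈ s

set_option linter.unusedSectionVars false

open Classical in
/-- the old face that carries the new face `s` -/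
noncomputable def GB_car (a b c : E) (s : Finset E) : Finset E :=
  if c ∈ s then s.erase c ∪ {a, b} else s

open Classical in
/-- extension by zero -/
noncomputable def GB_ext (s : Finset E) (w : E → ℝ) (x : E) : ℝ := if x ∈ s then w x else 0

open Classical in
/-- the weights on the old face -/
noncomputable def GB_push (a b c : E) (t : ℝ) (s : Finset E) (w : E → ℝ) (x : E) : ℝ :=
  if x = c then 0 else GB_ext s w x + GB_ext s w c * (if x = a then 1 - t else if x = b then t else 0)

theorem GB_ext_nonneg {s : Finset E} {w : E → ℝ} (hw : ∀ x ∈ s, 0 < w x) (x : E) :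
    0 ≤ GB_ext s w x := by
  unfold GB_ext
  split_ifs with h
  · exact (hw x h).le
  · exact le_rfl

theorem GB_ext_pos {s : Finset E} {w : E → ℝ} (hw : ∀ x ∈ s, 0 < w x) (x : E) :
    0 < GB_ext s w x ↔ x ∈ s := by
  unfold GB_ext
  split_ifs with h
  · exact ⟨fun _ => h, fun _ => hw x h⟩
  · exact ⟨fun h1 => absurd h1 (lt_irrefl _), fun h1 => absurd h1 h⟩

theorem GB_ext_zero {s : Finset E} {w : E → ℝ} {x : E} (h : x ∉ s) : GB_ext s w x = 0 := by
  unfold GB_ext
  rw [if_neg h]

theorem GB_ext_mem {s : Finset E} {w : E → ℝ} {x : E} (h : x ∈ s) : GB_ext s w x = w x := by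
  unfold GB_ext
  rw [if_pos h]

theorem GB_car_mem {a b c x : E} {s : Finset E} (hx : x ∈ s) (hxc : x ≠ c) :
    x ∈ GB_car a b c s := by
  classical
  unfold GB_car
  split_ifs
  · exact Finset.mem_union_left _ (Finset.mem_erase.2 ⟨hxc, hx⟩)
  · exact hx

theorem GB_car_ab {a b c : E} {s : Finset E} (hc : c ∈ s) :
    a ∈ GB_car a b c s ∧ b ∈ GB_car a b c s := by
  classical
  unfold GB_car
  rw [if_pos hc]
  constructor <;> apply Finset.mem_union_right <;> simp

theorem GB_car_mono {a b c : E} {s s' : Finset E} (h : s ⊆ s') :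
    GB_car a b c s ⊆ GB_car a b c s' := by
  classical
  intro x hx
  unfold GB_car at hx
  split_ifs at hx with hc
  · rcases Finset.mem_union.1 hx with h1 | h1
    · exact GB_car_mem (h (Finset.mem_of_mem_erase h1)) (Finset.ne_of_mem_erase h1)
    · have h2 := GB_car_ab (a := a) (b := b) (h hc)
      simp only [Finset.mem_insert, Finset.mem_singleton] at h1
      rcases h1 with rfl | rfl
      · exact h2.1
      · exact h2.2
  · exact GB_car_mem (h hx) fun h1 => hc (h1 ▸ hx)

theorem GB_car_ne {a b c : E} {s : Finset E} (h : s.Nonempty) : (GB_car a b c s).Nonempty := by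
  by_cases hc : c ∈ s
  · exact ⟨a, (GB_car_ab hc).1⟩
  · obtain ⟨x, hx⟩ := h
    exact ⟨x, GB_car_mem hx fun h1 => hc (h1 ▸ hx)⟩

theorem GB_push_a {a b c : E} {t : ℝ} {s : Finset E} {w : E → ℝ} (hac : a ≠ c) :
    GB_push a b c t s w a = GB_ext s w a + GB_ext s w c * (1 - t) := by
  unfold GB_push
  rw [if_neg hac, if_pos rfl]

theorem GB_push_b {a b c : E} {t : ℝ} {s : Finset E} {w : E → ℝ} (hab : a ≠ b) (hbc : b ≠ c) :
    GB_push a b c t s w b = GB_ext s w b + GB_ext s w c * t := by
  unfold GB_push
  rw [if_neg hbc, if_neg hab.symm, if_pos rfl]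

theorem GB_push_x {a b c x : E} {t : ℝ} {s : Finset E} {w : E → ℝ} (hxa : x ≠ a) (hxb : x ≠ b)
    (hxc : x ≠ c) : GB_push a b c t s w x = GB_ext s w x := by
  unfold GB_push
  rw [if_neg hxc, if_neg hxa, if_neg hxb, mul_zero, add_zero]

theorem GB_push_pos {a b c : E} {t : ℝ} (ht0 : 0 < t) (ht1 : t < 1) (hab : a ≠ b) (hac : a ≠ c)
    (hbc : b ≠ c) {s : Finset E} {w : E → ℝ} (hw : ∀ x ∈ s, 0 < w x) {x : E}
    (hx : x ∈ GB_car a b c s) : 0 < GB_push a b c t s w x := by
  classical
  have h0 := GB_ext_nonneg hw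
  unfold GB_car at hx
  split_ifs at hx with hc
  · have hcp : 0 < GB_ext s w c := (GB_ext_pos hw c).2 hc
    have ha : 0 < GB_push a b c t s w a := by
      rw [GB_push_a hac]
      have := mul_pos hcp (show 0 < 1 - t by linarith)
      linarith [h0 a]
    have hb : 0 < GB_push a b c t s w b := by
      rw [GB_push_b hab hbc]
      have := mul_pos hcp ht0
      linarith [h0 b]
    by_cases hxa : x = a
    · rw [hxa]; exact ha
    by_cases hxb : x = b
    · rw [hxb]; exact hb
    rcases Finset.mem_union.1 hx with h1 | h1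
    · rw [GB_push_x hxa hxb (Finset.ne_of_mem_erase h1)]
      exact (GB_ext_pos hw x).2 (Finset.mem_of_mem_erase h1)
    · simp only [Finset.mem_insert, Finset.mem_singleton] at h1
      exact absurd h1 (by tauto)
  · have hxc : x ≠ c := fun h => hc (h ▸ hx)
    unfold GB_push
    rw [if_neg hxc, GB_ext_zero hc, zero_mul, add_zero]
    exact (GB_ext_pos hw x).2 hx

theorem GB_push_zero {a b c : E} {t : ℝ} {s : Finset E} {w : E → ℝ} {x : E}
    (hx : x ∉ GB_car a b c s) : GB_push a b c t s w x = 0 := by
  unfold GB_push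
  split_ifs with h1 h2 h3
  · rfl
  · have hc : c ∉ s := fun h => hx (h2 ▸ (GB_car_ab h).1)
    have hxs : x ∉ s := fun h => hx (GB_car_mem h h1)
    rw [GB_ext_zero hc, GB_ext_zero hxs, zero_mul, add_zero]
  · have hc : c ∉ s := fun h => hx (h3 ▸ (GB_car_ab h).2)
    have hxs : x ∉ s := fun h => hx (GB_car_mem h h1)
    rw [GB_ext_zero hc, GB_ext_zero hxs, zero_mul, add_zero]
  · have hxs : x ∉ s := fun h => hx (GB_car_mem h h1)
    rw [GB_ext_zero hxs, mul_zero, add_zero]

theorem GB_push_sum {M : Type*} [AddCommGroup M] [Module ℝ M] {a b c : E} {t : ℝ} (hab : a ≠ b)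
    (hac : a ≠ c) (hbc : b ≠ c) (g : E → M) (hg : g c = (1 - t) • g a + t • g b) (s : Finset E)
    (w : E → ℝ) :
    ∑ x ∈ GB_car a b c s, GB_push a b c t s w x • g x = ∑ x ∈ s, w x • g x := by
  classical
  by_cases hc : c ∈ s
  · have hcar : GB_car a b c s = s.erase c ∪ {a, b} := by
      unfold GB_car
      rw [if_pos hc]
    have hcn : c ∉ GB_car a b c s := by
      rw [hcar, Finset.mem_union, Finset.mem_insert, Finset.mem_singleton]
      rintro (h | h | h)
      · exact Finset.ne_of_mem_erase h rfl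
      · exact hac h.symm
      · exact hbc h.symm
    have h1 : ∀ x ∈ GB_car a b c s, GB_push a b c t s w x • g x = GB_ext s w x • g x +
        w c • ((if x = a then 1 - t else if x = b then t else 0 : ℝ) • g x) := by
      intro x hx
      have hxc : x ≠ c := fun h => hcn (h ▸ hx)
      unfold GB_push
      rw [if_neg hxc, GB_ext_mem hc, add_smul, mul_smul]
    rw [Finset.sum_congr rfl h1, Finset.sum_add_distrib, ← Finset.smul_sum]
    have h2 : ∑ x ∈ GB_car a b c s, GB_ext s w x • g x = ∑ x ∈ s.erase c, w x • g x := by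
      rw [← Finset.sum_subset (s₁ := s.erase c)]
      · exact Finset.sum_congr rfl fun x hx => by rw [GB_ext_mem (Finset.mem_of_mem_erase hx)]
      · rw [hcar]
        exact Finset.subset_union_left
      · intro x hx hx'
        have hxs : x ∉ s := fun h => hx' (Finset.mem_erase.2 ⟨fun h' => hcn (h' ▸ hx), h⟩)
        rw [GB_ext_zero hxs, zero_smul]
    have h3 : ∑ x ∈ GB_car a b c s, (if x = a then 1 - t else if x = b then t else 0 : ℝ) • g x =
        g c := by
      have hpair : ({a, b} : Finset E) ⊆ GB_car a b c s := by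
        rw [hcar]
        exact Finset.subset_union_right
      rw [← Finset.sum_subset hpair]
      · rw [Finset.sum_pair hab, if_pos rfl, if_neg hab.symm, if_pos rfl, hg]
      · intro x _ hx
        simp only [Finset.mem_insert, Finset.mem_singleton, not_or] at hx
        rw [if_neg hx.1, if_neg hx.2, zero_smul]
    rw [h2, h3, Finset.sum_erase_add s _ hc]
  · have hcar : GB_car a b c s = s := by
      unfold GB_car
      rw [if_neg hc]
    rw [hcar]
    refine Finset.sum_congr rfl fun x hx => ?_
    have hxc : x ≠ c := fun h => hc (h ▸ hx)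
    unfold GB_push
    rw [if_neg hxc, GB_ext_zero hc, zero_mul, add_zero, GB_ext_mem hx]

/-- the weights are determined by the pushed weights -/
theorem GB_recover {a b c : E} {t : ℝ} (ht0 : 0 < t) (ht1 : t < 1) (hab : a ≠ b) (hac : a ≠ c)
    (hbc : b ≠ c) {s s' : Finset E} {w v : E → ℝ} (hw : ∀ x ∈ s, 0 < w x) (hv : ∀ x ∈ s', 0 < v x)
    (hs : ¬ (a ∈ s ∧ b ∈ s)) (hs' : ¬ (a ∈ s' ∧ b ∈ s'))
    (h : ∀ x, GB_push a b c t s w x = GB_push a b c t s' v x) :
    s = s' ∧ ∀ x ∈ s, w x = v x := by
  have n1 := GB_ext_nonneg hw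
  have n2 := GB_ext_nonneg hv
  have e1 := h a
  have e2 := h b
  rw [GB_push_a hac, GB_push_a hac] at e1
  rw [GB_push_b hab hbc, GB_push_b hab hbc] at e2
  have z1 : GB_ext s w a = 0 ∨ GB_ext s w b = 0 := by
    by_cases ha : a ∈ s
    · exact Or.inr (GB_ext_zero fun hb => hs ⟨ha, hb⟩)
    · exact Or.inl (GB_ext_zero ha)
  have z2 : GB_ext s' v a = 0 ∨ GB_ext s' v b = 0 := by
    by_cases ha : a ∈ s'
    · exact Or.inr (GB_ext_zero fun hb => hs' ⟨ha, hb⟩)
    · exact Or.inl (GB_ext_zero ha)
  have hcc : GB_ext s w c = GB_ext s' v c := by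
    rcases lt_trichotomy (GB_ext s w c) (GB_ext s' v c) with h1 | h1 | h1
    · exfalso
      have q1 := mul_pos (sub_pos.2 h1) (show 0 < 1 - t by linarith)
      have q2 := mul_pos (sub_pos.2 h1) ht0
      rcases z1 with h2 | h2
      · have := n2 a
        nlinarith
      · have := n2 b
        nlinarith
    · exact h1
    · exfalso
      have q1 := mul_pos (sub_pos.2 h1) (show 0 < 1 - t by linarith)
      have q2 := mul_pos (sub_pos.2 h1) ht0
      rcases z2 with h2 | h2
      · have := n1 a
        nlinarith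
      · have := n1 b
        nlinarith
  have hall : ∀ x, GB_ext s w x = GB_ext s' v x := by
    intro x
    by_cases hxc : x = c
    · rw [hxc]; exact hcc
    by_cases hxa : x = a
    · rw [hxa]
      rw [hcc] at e1
      linarith
    by_cases hxb : x = b
    · rw [hxb]
      rw [hcc] at e2
      linarith
    have e3 := h x
    rwa [GB_push_x hxa hxb hxc, GB_push_x hxa hxb hxc] at e3
  have hss : s = s' := by
    ext x
    rw [← GB_ext_pos hw x, ← GB_ext_pos hv x, hall x]
  refine ⟨hss, fun x hx => ?_⟩
  have := hall x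
  rwa [GB_ext_mem hx, GB_ext_mem (hss ▸ hx)] at this

theorem GB_hull_sum {M : Type*} [AddCommGroup M] [Module ℝ M] {p q c : E} {τ m : ℝ}
    (hpq : p ≠ q) {s : Finset E} (hp : p ∈ s) (hq : q ∈ s) (hcs : c ∉ s)
    {u : E → ℝ} (hmp : m * (1 - τ) = u p) (g : E → M) (hg : g c = (1 - τ) • g p + τ • g q)
    {s' : Finset E} (hs' : ∀ x, x ∈ s' ↔ x = c ∨ (x ∈ s ∧ x ≠ p)) (W : E → ℝ) (hWc : W c = m)
    (hWq : W q = u q - τ * m) (hW : ∀ x, x ≠ c → x ≠ q → W x = u x) :
    ∑ x ∈ s', W x • g x = ∑ x ∈ s, u x • g x := by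
  classical
  have hs'e : s' = insert c (s.erase p) := by
    ext x
    rw [hs', Finset.mem_insert, Finset.mem_erase]
    tauto
  rw [hs'e, Finset.sum_insert (fun h => hcs (Finset.mem_of_mem_erase h)), hWc]
  have hqe : q ∈ s.erase p := Finset.mem_erase.2 ⟨hpq.symm, hq⟩
  have h2 : ∑ x ∈ s.erase p, W x • g x = ∑ x ∈ s.erase p, u x • g x - (τ * m) • g q := by
    rw [← Finset.add_sum_erase _ _ hqe, ← Finset.add_sum_erase (s.erase p)
      (fun x => u x • g x) hqe]
    have h3 : ∀ x ∈ (s.erase p).erase q, W x • g x = u x • g x := by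
      intro x hx
      have hxc : x ≠ c := fun h =>
        hcs (h ▸ Finset.mem_of_mem_erase (Finset.mem_of_mem_erase hx))
      rw [hW x hxc (Finset.ne_of_mem_erase hx)]
    rw [hWq, sub_smul, Finset.sum_congr rfl h3]
    abel
  rw [h2, hg, ← Finset.add_sum_erase s (fun x => u x • g x) hp, ← hmp]
  module

/-- replacing a vertex by the new vertex -/
theorem GB_hull {p q c : E} {τ : ℝ} (h0 : 0 < τ) (h1 : τ < 1) (hpq : p ≠ q)
    (hc : c = (1 - τ) • p + τ • q) {s : Finset E} (hp : p ∈ s) (hq : q ∈ s) (hcs : c ∉ s)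
    {u : E → ℝ} (hu : ∀ x ∈ s, 0 < u x) (hsum : ∑ x ∈ s, u x = 1)
    (hle : τ * u p ≤ (1 - τ) * u q) {s' : Finset E}
    (hs' : ∀ x, x ∈ s' ↔ x = c ∨ (x ∈ s ∧ x ≠ p)) :
    ∑ x ∈ s, u x • x ∈ convexHull ℝ (s' : Set E) := by
  classical
  have h1t : (0 : ℝ) < 1 - τ := by linarith
  obtain ⟨m, hm⟩ : ∃ m, m = u p / (1 - τ) := ⟨_, rfl⟩
  have hmp : m * (1 - τ) = u p := by
    rw [hm]
    field_simp
  have hm0 : 0 < m := by
    rw [hm]
    exact div_pos (hu p hp) h1t
  have hmq : τ * m ≤ u q := by
    have h2 : (τ * m) * (1 - τ) ≤ u q * (1 - τ) := by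
      rw [mul_assoc, hmp]
      linarith
    exact le_of_mul_le_mul_right h2 h1t
  have hqc : q ≠ c := fun h => hcs (h ▸ hq)
  have w1 : (if c = c then m else if c = q then u q - τ * m else u c) = m := if_pos rfl
  have w2 : (if q = c then m else if q = q then u q - τ * m else u q) = u q - τ * m := by
    rw [if_neg hqc, if_pos rfl]
  have w3 : ∀ x, x ≠ c → x ≠ q →
      (if x = c then m else if x = q then u q - τ * m else u x) = u x := by
    intro x h2 h3
    rw [if_neg h2, if_neg h3]
  rw [Finset.mem_convexHull']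
  refine ⟨fun x => if x = c then m else if x = q then u q - τ * m else u x, ?_, ?_, ?_⟩
  · intro x hx
    show 0 ≤ if x = c then m else if x = q then u q - τ * m else u x
    split_ifs with h2 h3
    · exact hm0.le
    · linarith
    · rcases (hs' x).1 hx with h4 | h4
      · exact absurd h4 h2
      · exact (hu x h4.1).le
  · have h2 := GB_hull_sum hpq hp hq hcs hmp (fun _ => (1 : ℝ)) (by simp) hs'
      (fun x => if x = c then m else if x = q then u q - τ * m else u x) w1 w2 w3
    simp only [smul_eq_mul, mul_one] at h2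
    rw [h2, hsum]
  · exact GB_hull_sum hpq hp hq hcs hmp (fun x => x) hc hs'
      (fun x => if x = c then m else if x = q then u q - τ * m else u x) w1 w2 w3

theorem GC.split (K : GC E) (a b : E) (hab : K.Edge a b) (t : ℝ) (ht0 : 0 < t) (ht1 : t < 1) :
    ∃ K' : GC E, K'.space = K.space ∧
      (∀ s ∈ K'.faces, ∃ s' ∈ K.faces, convexHull ℝ (s : Set E) ⊆ convexHull ℝ (s' : Set E)) ∧
      (∀ u v, K'.Edge u v →
        (K.Edge u v ∧ ¬ (u = a ∧ v = b) ∧ ¬ (u = b ∧ v = a)) ∨
        (u = (1 - t) • a + t • b ∧ ∃ s ∈ K.faces, a ∈ s ∧ b ∈ s ∧ v ∈ s) ∨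
        (v = (1 - t) • a + t • b ∧ ∃ s ∈ K.faces, a ∈ s ∧ b ∈ s ∧ u ∈ s)) := by
  classical
  obtain ⟨hne, s₀, hs₀, ha₀, hb₀⟩ := hab
  obtain ⟨c, hc⟩ : ∃ c, c = (1 - t) • a + t • b := ⟨_, rfl⟩
  have hpair : ({a, b} : Finset E) ∈ K.faces := by
    refine K.down s₀ hs₀ _ ?_ ⟨a, by simp⟩
    intro x hx
    simp only [Finset.mem_insert, Finset.mem_singleton] at hx
    rcases hx with rfl | rfl
    · exact ha₀
    · exact hb₀
  -- `c` is not a vertex
  have hcv : ∀ s ∈ K.faces, c ∉ s := by
    intro s hs hcs
    have h1 : ({c} : Finset E) ∈ K.faces :=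
      K.down s hs _ (Finset.singleton_subset_iff.2 hcs) ⟨c, by simp⟩
    have h2 := K.uniq _ h1 _ hpair (fun _ => 1) (fun x => if x = a then 1 - t else t)
      (fun _ _ => one_pos) (fun x _ => by split_ifs <;> linarith)
      (by simp) (by rw [Finset.sum_pair hne, if_pos rfl, if_neg hne.symm]; ring)
      (by
        rw [Finset.sum_pair hne, if_pos rfl, if_neg hne.symm, Finset.sum_singleton, one_smul, hc])
    have h3 := congrArg Finset.card h2.1
    rw [Finset.card_pair hne, Finset.card_singleton] at h3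
    omega
  have hac : a ≠ c := fun h => hcv _ hpair (by rw [← h]; simp)
  have hbc : b ≠ c := fun h => hcv _ hpair (by rw [← h]; simp)
  have hsub : ∀ s : Finset E, GB_car a b c s ∈ K.faces →
      convexHull ℝ (s : Set E) ⊆ convexHull ℝ (GB_car a b c s : Set E) := by
    intro s _
    refine convexHull_min (fun x hx => ?_) (convex_convexHull ℝ _)
    by_cases hxc : x = c
    · rw [hxc]
      rw [hxc] at hx
      have h1 := GB_car_ab (a := a) (b := b) (Finset.mem_coe.1 hx)
      have h2 : (1 - t) • a + t • b ∈ convexHull ℝ (GB_car a b c s : Set E) :=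
        (convex_convexHull ℝ _) (subset_convexHull ℝ _ (Finset.mem_coe.2 h1.1))
          (subset_convexHull ℝ _ (Finset.mem_coe.2 h1.2)) (sub_nonneg.2 ht1.le) ht0.le
          (sub_add_cancel _ _)
      rwa [← hc] at h2
    · exact subset_convexHull ℝ _ (GB_car_mem (Finset.mem_coe.1 hx) hxc)
  let K' : GC E :=
    { faces := {s | s.Nonempty ∧ ¬ (a ∈ s ∧ b ∈ s) ∧ GB_car a b c s ∈ K.faces}
      fin := by
        refine Set.Finite.subset
          (Finset.finite_toSet (insert c K.verts_finite.toFinset).powerset) ?_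
        rintro s ⟨-, -, h3⟩
        rw [Finset.mem_coe, Finset.mem_powerset]
        intro x hx
        by_cases hxc : x = c
        · rw [hxc]
          exact Finset.mem_insert_self _ _
        · refine Finset.mem_insert_of_mem ?_
          rw [Set.Finite.mem_toFinset]
          exact ⟨_, h3, GB_car_mem hx hxc⟩
      ne := fun s hs => hs.1
      down := by
        rintro s ⟨-, h2, h3⟩ s' hs' hne'
        exact ⟨hne', fun h => h2 ⟨hs' h.1, hs' h.2⟩,
          K.down _ h3 _ (GB_car_mono hs') (GB_car_ne hne')⟩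
      uniq := by
        rintro s ⟨-, h2, h3⟩ s' ⟨-, h2', h3'⟩ w v hw hv sw sv hwv
        have q1 := GB_push_sum (t := t) hne hac hbc (fun _ => (1 : ℝ)) (by simp) s w
        have q1' := GB_push_sum (t := t) hne hac hbc (fun _ => (1 : ℝ)) (by simp) s' v
        have q2 := GB_push_sum (t := t) hne hac hbc (fun x => x) hc s w
        have q2' := GB_push_sum (t := t) hne hac hbc (fun x => x) hc s' v
        simp only [smul_eq_mul, mul_one] at q1 q1'
        have h4 := K.uniq _ h3 _ h3' (GB_push a b c t s w) (GB_push a b c t s' v)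
          (fun x hx => GB_push_pos ht0 ht1 hne hac hbc hw hx)
          (fun x hx => GB_push_pos ht0 ht1 hne hac hbc hv hx)
          (q1.trans sw) (q1'.trans sv) ((q2.trans hwv).trans q2'.symm)
        refine GB_recover ht0 ht1 hne hac hbc hw hv h2 h2' fun x => ?_
        by_cases hx : x ∈ GB_car a b c s
        · exact h4.2 x hx
        · rw [GB_push_zero hx]
          rw [h4.1] at hx
          rw [GB_push_zero hx] }
  have hK'f : ∀ s, s ∈ K'.faces ↔ s.Nonempty ∧ ¬ (a ∈ s ∧ b ∈ s) ∧ GB_car a b c s ∈ K.faces :=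
    fun s => Iff.rfl
  have hfaces : ∀ s ∈ K'.faces, ∃ s' ∈ K.faces,
      convexHull ℝ (s : Set E) ⊆ convexHull ℝ (s' : Set E) := fun s hs =>
    ⟨GB_car a b c s, ((hK'f s).1 hs).2.2, hsub s ((hK'f s).1 hs).2.2⟩
  refine ⟨K', ?_, hfaces, ?_⟩
  · apply Subset.antisymm
    · intro x hx
      unfold GC.space at hx ⊢
      simp only [mem_iUnion] at hx ⊢
      obtain ⟨s, hs, hx⟩ := hx
      obtain ⟨s', hs', h⟩ := hfaces s hs
      exact ⟨s', hs', h hx⟩
    · intro x hx
      obtain ⟨s, hs, u, hu, hu1, hux⟩ := GC.exists_carrier' hx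
      have hcs := hcv s hs
      unfold GC.space
      simp only [mem_iUnion]
      by_cases hboth : a ∈ s ∧ b ∈ s
      · rcases le_total (t * u a) ((1 - t) * u b) with hle | hle
        · refine ⟨insert c (s.erase a), (hK'f _).2 ⟨⟨c, Finset.mem_insert_self _ _⟩, ?_, ?_⟩, ?_⟩
          · rintro ⟨h1, -⟩
            rw [Finset.mem_insert] at h1
            rcases h1 with h1 | h1
            · exact hac h1
            · exact Finset.ne_of_mem_erase h1 rfl
          · refine K.down s hs _ ?_ (GB_car_ne ⟨c, Finset.mem_insert_self _ _⟩)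
            intro y hy
            unfold GB_car at hy
            rw [if_pos (Finset.mem_insert_self _ _)] at hy
            simp only [Finset.mem_union, Finset.mem_erase, Finset.mem_insert,
              Finset.mem_singleton] at hy
            rcases hy with ⟨h1, h2 | h2⟩ | h2 | h2
            · exact absurd h2 h1
            · exact h2.2
            · rw [h2]; exact hboth.1
            · rw [h2]; exact hboth.2
          · rw [← hux]
            refine GB_hull ht0 ht1 hne hc hboth.1 hboth.2 hcs hu hu1 hle fun y => ?_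
            rw [Finset.mem_insert, Finset.mem_erase]
            tauto
        · refine ⟨insert c (s.erase b), (hK'f _).2 ⟨⟨c, Finset.mem_insert_self _ _⟩, ?_, ?_⟩, ?_⟩
          · rintro ⟨-, h1⟩
            rw [Finset.mem_insert] at h1
            rcases h1 with h1 | h1
            · exact hbc h1
            · exact Finset.ne_of_mem_erase h1 rfl
          · refine K.down s hs _ ?_ (GB_car_ne ⟨c, Finset.mem_insert_self _ _⟩)
            intro y hy
            unfold GB_car at hy
            rw [if_pos (Finset.mem_insert_self _ _)] at hy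
            simp only [Finset.mem_union, Finset.mem_erase, Finset.mem_insert,
              Finset.mem_singleton] at hy
            rcases hy with ⟨h1, h2 | h2⟩ | h2 | h2
            · exact absurd h2 h1
            · exact h2.2
            · rw [h2]; exact hboth.1
            · rw [h2]; exact hboth.2
          · rw [← hux]
            refine GB_hull (p := b) (q := a) (τ := 1 - t) (by linarith) (by linarith) hne.symm
              (by rw [hc, sub_sub_cancel, add_comm]) hboth.2 hboth.1 hcs hu hu1 (by linarith)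
              fun y => ?_
            rw [Finset.mem_insert, Finset.mem_erase]
            tauto
      · refine ⟨s, (hK'f s).2 ⟨K.ne s hs, hboth, ?_⟩, ?_⟩
        · unfold GB_car
          rw [if_neg hcs]
          exact hs
        · rw [Finset.mem_convexHull']
          exact ⟨u, fun y hy => (hu y hy).le, hu1, hux⟩
  · rintro u v ⟨huv, s, hs, hus, hvs⟩
    obtain ⟨-, h2, h3⟩ := (hK'f s).1 hs
    by_cases huc : u = c
    · refine Or.inr (Or.inl ⟨by rw [huc, hc], GB_car a b c s, h3, ?_⟩)
      have h4 := GB_car_ab (a := a) (b := b) (huc ▸ hus)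
      exact ⟨h4.1, h4.2, GB_car_mem hvs fun h => huv (by rw [huc, h])⟩
    by_cases hvc : v = c
    · refine Or.inr (Or.inr ⟨by rw [hvc, hc], GB_car a b c s, h3, ?_⟩)
      have h4 := GB_car_ab (a := a) (b := b) (hvc ▸ hvs)
      exact ⟨h4.1, h4.2, GB_car_mem hus huc⟩
    · refine Or.inl ⟨⟨huv, GB_car a b c s, h3, GB_car_mem hus huc, GB_car_mem hvs hvc⟩, ?_, ?_⟩
      · rintro ⟨rfl, rfl⟩
        exact h2 ⟨hus, hvs⟩
      · rintro ⟨rfl, rfl⟩
        exact h2 ⟨hvs, hus⟩

end Pool.H54.UB
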