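import Pool.Agent.H54.UB.GB

/-!
# Row GD: refining a complex so that finitely many affine functions have constant sign

`K.NoCross A`: no edge has ends with values of `A` of opposite strict signs.

`refine_one`: induction on the (finite) number of ordered pairs `(u, v)` with `K.Edge u v` and
`A u * A v < 0`.  If there is such an edge `{a, b}` split it at the point `c` of the open segment with
`A c = 0` (`GC.split` with `t = A a / (A a - A b)`).  New edges have an end `c` with `A c = 0`, so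
they are not crossing; the old edges except `{a, b}` remain: the number decreases.
Preservation: if `K.NoCross A'` then the new complex satisfies it: for a new edge `{c, x}`,
`a, b, x` in a common face: `A' c * A' x = (1-t) (A' a * A' x) + t (A' b * A' x) ≥ 0`
(if `x = a`: `A' a * A' a ≥ 0`, fine).

`refine_list`: induction on the number of functionals.

`sign_on_face`: if `K.NoCross A` and `s` is a face then `A ≥ 0` on `s` or `A ≤ 0` on `s`.
-/

open Set Topology

namespace Pool.H54.UB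

variable {E : Type*} [NormedAddCommGroup E] [NormedSpace ℝ E]

def GC.NoCross (K : GC E) (A : E →ᵃ[ℝ] ℝ) : Prop := ∀ u v, K.Edge u v → 0 ≤ A u * A v

theorem GD_aff (A : E →ᵃ[ℝ] ℝ) (a b : E) (t : ℝ) :
    A ((1 - t) • a + t • b) = (1 - t) * A a + t * A b := by
  have h := A.apply_lineMap a b t
  rw [AffineMap.lineMap_apply_module, AffineMap.lineMap_apply_module] at h
  simpa [smul_eq_mul] using h

theorem GD_aff_sum (A : E →ᵃ[ℝ] ℝ) (s : Finset E) (w : E → ℝ) (hw : ∑ x ∈ s, w x = 1) :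
    A (∑ x ∈ s, w x • x) = ∑ x ∈ s, w x * A x := by
  have h1 : ∀ x, A x = A.linear x + A 0 := fun x => by
    have := congrFun A.decomp x
    simpa using this
  rw [h1, map_sum]
  have h2 : ∑ x ∈ s, w x * A x = ∑ x ∈ s, (w x * A.linear x + w x * A 0) :=
    Finset.sum_congr rfl (fun x _ => by rw [h1 x]; ring)
  rw [h2, Finset.sum_add_distrib, ← Finset.sum_mul, hw, one_mul]
  congr 1
  exact Finset.sum_congr rfl (fun x _ => by rw [map_smul, smul_eq_mul])

theorem GD_fin (K : GC E) (A : E →ᵃ[ℝ] ℝ) :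
    {p : E × E | K.Edge p.1 p.2 ∧ A p.1 * A p.2 < 0}.Finite := by
  refine (K.verts_finite.prod K.verts_finite).subset ?_
  rintro ⟨u, v⟩ ⟨⟨-, s, hs, hu, hv⟩, -⟩
  exact ⟨⟨s, hs, hu⟩, ⟨s, hs, hv⟩⟩

theorem GD_pres {K : GC E} {A : E →ᵃ[ℝ] ℝ} (h : K.NoCross A) {a b x : E} {s : Finset E}
    (hs : s ∈ K.faces) (ha : a ∈ s) (hb : b ∈ s) (hx : x ∈ s) {t : ℝ} (ht0 : 0 < t) (ht1 : t < 1) :
    0 ≤ A ((1 - t) • a + t • b) * A x := by
  have key : ∀ y ∈ s, 0 ≤ A y * A x := by
    intro y hy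
    by_cases hyx : y = x
    · rw [hyx]; exact mul_self_nonneg _
    · exact h y x ⟨hyx, s, hs, hy, hx⟩
  rw [GD_aff]
  have h1 := mul_nonneg (sub_nonneg.2 ht1.le) (key a ha)
  have h2 := mul_nonneg ht0.le (key b hb)
  nlinarith

theorem GC.refine_one (K : GC E) (A : E →ᵃ[ℝ] ℝ) :
    ∃ K' : GC E, K'.space = K.space ∧
      (∀ s ∈ K'.faces, ∃ s' ∈ K.faces, convexHull ℝ (s : Set E) ⊆ convexHull ℝ (s' : Set E)) ∧
      K'.NoCross A ∧ ∀ A' : E →ᵃ[ℝ] ℝ, K.NoCross A' → K'.NoCross A' := by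
  obtain ⟨N, hN⟩ : ∃ N, {p : E × E | K.Edge p.1 p.2 ∧ A p.1 * A p.2 < 0}.ncard = N := ⟨_, rfl⟩
  induction N using Nat.strong_induction_on generalizing K with
  | _ N ih =>
    by_cases hemp : ∀ u v, K.Edge u v → 0 ≤ A u * A v
    · exact ⟨K, rfl, fun s hs => ⟨s, hs, subset_rfl⟩, hemp, fun A' h => h⟩
    · push Not at hemp
      obtain ⟨a, b, hab, hneg⟩ := hemp
      have hd : A a - A b ≠ 0 := by
        intro h
        have : A a = A b := by linarith
        rw [this] at hneg
        exact absurd (mul_self_nonneg (A b)) (not_le.2 hneg)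
      obtain ⟨t, ht⟩ : ∃ t, t = A a / (A a - A b) := ⟨_, rfl⟩
      have hmul : t * (A a - A b) = A a := by rw [ht, div_mul_cancel₀ _ hd]
      have hsq : 0 < (A a - A b) ^ 2 := by positivity
      have ht0 : 0 < t := by
        have h1 : t * (A a - A b) ^ 2 = A a * (A a - A b) := by rw [pow_two, ← mul_assoc, hmul]
        have h2 : 0 < A a * (A a - A b) := by nlinarith [mul_self_nonneg (A a)]
        rw [← h1] at h2
        exact (pos_iff_pos_of_mul_pos h2).2 hsq
      have ht1 : t < 1 := by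
        have h1 : (1 - t) * (A a - A b) ^ 2 = - (A b * (A a - A b)) := by
          have : (1 - t) * (A a - A b) = - A b := by linarith
          rw [pow_two, ← mul_assoc, this]; ring
        have h2 : 0 < - (A b * (A a - A b)) := by nlinarith [mul_self_nonneg (A b)]
        rw [← h1] at h2
        have := (pos_iff_pos_of_mul_pos h2).2 hsq
        linarith
      have hc : A ((1 - t) • a + t • b) = 0 := by
        rw [GD_aff]; linarith
      obtain ⟨K1, h1s, h1f, h1e⟩ := K.split a b hab t ht0 ht1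
      have hlt : {p : E × E | K1.Edge p.1 p.2 ∧ A p.1 * A p.2 < 0}.ncard < N := by
        rw [← hN]
        apply Set.ncard_lt_ncard _ (GD_fin K A)
        rw [Set.ssubset_iff_of_subset]
        · refine ⟨(a, b), ⟨hab, hneg⟩, ?_⟩
          rintro ⟨h, -⟩
          rcases h1e a b h with ⟨-, h2, -⟩ | ⟨h2, -⟩ | ⟨h2, -⟩
          · exact h2 ⟨rfl, rfl⟩
          · rw [← h2] at hc
            rw [hc] at hneg; simp at hneg
          · rw [← h2] at hc
            rw [hc] at hneg; simp at hneg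
        · rintro ⟨u, v⟩ ⟨h, hn⟩
          simp only at h hn
          rcases h1e u v h with ⟨h2, -⟩ | ⟨h2, -⟩ | ⟨h2, -⟩
          · exact ⟨h2, hn⟩
          · rw [h2, hc] at hn; simp at hn
          · rw [h2, hc] at hn; simp at hn
      obtain ⟨K2, h2s, h2f, h2c, h2p⟩ := ih _ hlt K1 rfl
      refine ⟨K2, h2s.trans h1s, ?_, h2c, ?_⟩
      · intro s hs
        obtain ⟨s', hs', hss⟩ := h2f s hs
        obtain ⟨s'', hs'', hss'⟩ := h1f s' hs'
        exact ⟨s'', hs'', hss.trans hss'⟩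
      · intro A' hA'
        apply h2p
        intro u v huv
        rcases h1e u v huv with ⟨h3, -⟩ | ⟨h3, s, hs, ha, hb, hv⟩ | ⟨h3, s, hs, ha, hb, hu⟩
        · exact hA' u v h3
        · rw [h3]
          exact GD_pres hA' hs ha hb hv ht0 ht1
        · rw [h3, mul_comm]
          exact GD_pres hA' hs ha hb hu ht0 ht1

theorem GC.refine_list (K : GC E) (L : List (E →ᵃ[ℝ] ℝ)) :
    ∃ K' : GC E, K'.space = K.space ∧
      (∀ s ∈ K'.faces, ∃ s' ∈ K.faces, convexHull ℝ (s : Set E) ⊆ convexHull ℝ (s' : Set E)) ∧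
      ∀ A ∈ L, K'.NoCross A := by
  induction L with
  | nil => exact ⟨K, rfl, fun s hs => ⟨s, hs, subset_rfl⟩, fun A hA => absurd hA (by simp)⟩
  | cons A L ih =>
    obtain ⟨K1, h1s, h1f, h1c⟩ := ih
    obtain ⟨K2, h2s, h2f, h2c, h2p⟩ := K1.refine_one A
    refine ⟨K2, h2s.trans h1s, ?_, ?_⟩
    · intro s hs
      obtain ⟨s', hs', hss⟩ := h2f s hs
      obtain ⟨s'', hs'', hss'⟩ := h1f s' hs'
      exact ⟨s'', hs'', hss.trans hss'⟩
    · intro A' hA'
      rcases List.mem_cons.1 hA' with rfl | h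
      · exact h2c
      · exact h2p A' (h1c A' h)

theorem GC.NoCross.sign_on_face {K : GC E} {A : E →ᵃ[ℝ] ℝ} (h : K.NoCross A) {s : Finset E}
    (hs : s ∈ K.faces) : (∀ x ∈ s, 0 ≤ A x) ∨ (∀ x ∈ s, A x ≤ 0) := by
  by_contra hcon
  push Not at hcon
  obtain ⟨⟨x, hx, hx0⟩, y, hy, hy0⟩ := hcon
  have hne : x ≠ y := by
    rintro rfl
    exact absurd hx0 (not_lt.2 hy0.le)
  have := h x y ⟨hne, s, hs, hx, hy⟩
  exact absurd (mul_neg_of_neg_of_pos hx0 hy0) (not_lt.2 this)

/-- An intersection of half spaces all of whose functionals do not cross is adapted. -/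
theorem GC.adapted_halfspaces {K : GC E} {n : ℕ} (A : Fin n → E →ᵃ[ℝ] ℝ)
    (h : ∀ i, K.NoCross (A i)) : K.Adapted {x | ∀ i, 0 ≤ A i x} := by
  intro s hs w hw hw1 hmem
  have hx : ∀ x ∈ s, ∀ i, 0 ≤ A i x := by
    intro x hx i
    rcases (h i).sign_on_face hs with h1 | h1
    · exact h1 x hx
    · have h2 : 0 ≤ A i (∑ x ∈ s, w x • x) := hmem i
      rw [GD_aff_sum _ _ _ hw1] at h2
      have h3 : ∀ y ∈ s, w y * A i y ≤ 0 := fun y hy => mul_nonpos_of_nonneg_of_nonpos (hw y hy).le (h1 y hy)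
      have h4 : ∑ y ∈ s, w y * A i y = 0 := le_antisymm (Finset.sum_nonpos h3) h2
      have h5 := (Finset.sum_eq_zero_iff_of_nonpos h3).1 h4 x hx
      rcases mul_eq_zero.1 h5 with h6 | h6
      · exact absurd h6 (hw x hx).ne'
      · rw [h6]
  have hconv : Convex ℝ {x : E | ∀ i, 0 ≤ A i x} := by
    have : {x : E | ∀ i, 0 ≤ A i x} = ⋂ i, (A i) ⁻¹' (Set.Ici (0 : ℝ)) := by
      ext x; simp
    rw [this]
    exact convex_iInter fun i => (convex_Ici (0 : ℝ)).affine_preimage (A i)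
  exact convexHull_min (fun x hx' => hx x hx') hconv

end Pool.H54.UB
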