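import Pool.Agent.H54.UB.Core

/-!
# Interface statements (design file; every theorem is proved in its own row)
-/

open Set Topology

namespace Pool.H54.UB

section Poly

variable {E F : Type} [NormedAddCommGroup E] [NormedSpace ℝ E] [FiniteDimensional ℝ E]
  [NormedAddCommGroup F] [NormedSpace ℝ F] [FiniteDimensional ℝ F]

theorem triang (X : Set E) (hX : IsPoly X) (Y : Finset (Set E))
    (hY : ∀ A ∈ Y, IsPoly A ∧ A ⊆ X) :
    ∃ K : GC E, K.space = X ∧ ∀ A ∈ Y, K.Adapted A := sorry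

theorem PLOn.pieces {f : E → F} {N : Set E} (hf : PLOn f N) :
    ∃ S : Finset (Finset E), N = (⋃ s ∈ S, convexHull ℝ (s : Set E)) ∧
      ∀ s ∈ S, AffOn f (convexHull ℝ (s : Set E)) := sorry

theorem PLOn.continuousOn {f : E → F} {N : Set E} (hf : PLOn f N) : ContinuousOn f N := sorry

theorem IsPoly.inter {X Y : Set E} (hX : IsPoly X) (hY : IsPoly Y) : IsPoly (X ∩ Y) := sorry

theorem PLOn.image {f : E → F} {N : Set E} (hf : PLOn f N) : IsPoly (f '' N) := sorry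

theorem PLOn.mono {f : E → F} {N X : Set E} (hf : PLOn f N) (hX : IsPoly X) (h : X ⊆ N) :
    PLOn f X := sorry

theorem PLOn.preimage {f : E → F} {N : Set E} {Y : Set F} (hf : PLOn f N) (hY : IsPoly Y) :
    IsPoly (N ∩ f ⁻¹' Y) := sorry

theorem AffOn.injOn_of_finite {f : E → F} {C : Set E} (hC : Convex ℝ C) (hf : AffOn f C)
    (h : ∀ y, (C ∩ f ⁻¹' {y}).Finite) : InjOn f C := sorry

end Poly

section Mfd

variable {E F : Type} [NormedAddCommGroup E] [NormedSpace ℝ E] [FiniteDimensional ℝ E]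
  [NormedAddCommGroup F] [NormedSpace ℝ F] [FiniteDimensional ℝ F]

theorem GC.pure {m : ℕ} {M : Set E} (hM : IsClosedPLManifold m M) (K : GC E)
    (hK : K.space = M) :
    (∀ s ∈ K.faces, ∃ s' ∈ K.faces, s ⊆ s' ∧ s'.card = m + 1) ∧
      ∀ s ∈ K.faces, s.card ≤ m + 1 := sorry

theorem GC.localConn {m : ℕ} (hm : 2 ≤ m) {M : Set E} (hM : IsClosedPLManifold m M) (K : GC E)
    (hK : K.space = M) (s : Finset E) (hs : s ∈ K.faces) (P : Finset E → Prop)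
    (hP : ∀ a ∈ K.faces, ∀ b ∈ K.faces, a.card = m + 1 → b.card = m + 1 →
      (∃ r : Finset E, s ⊆ r ∧ r ⊆ a ∧ r ⊆ b ∧ r.card = m) → P a → P b)
    (a b : Finset E) (ha : a ∈ K.faces) (hb : b ∈ K.faces) (hac : a.card = m + 1)
    (hbc : b.card = m + 1) (hsa : s ⊆ a) (hsb : s ⊆ b) : P a → P b := sorry

theorem GC.orientation {m : ℕ} (hm : 1 ≤ m) {M : Set E} (hM : IsClosedPLManifold m M)
    (ho : IsOrientable m M) (K : GC E) (hK : K.space = M) :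
    ∃ ε : (Fin (m + 1) → E) → ℤ, (∀ t ∈ K.tops m, ε t = 1 ∨ ε t = -1) ∧
      (∀ t ∈ K.tops m, ∀ π : Equiv.Perm (Fin (m + 1)),
        ε (t ∘ π) = (Equiv.Perm.sign π : ℤ) * ε t) ∧
      ∀ (R : Type) [CommRing R] (φ : (Fin m → E) → R),
        ∑ t ∈ K.tops m, (ε t : R) * ∑ j : Fin (m + 1), (-1) ^ (j : ℕ) * φ (t ∘ j.succAbove) = 0 :=
  sorry

theorem Adm.pullback {K : GC F} {S : Finset (Finset E)} {f : E → F} {N : Set E}
    (h : Adm K S f N) :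
    ∃ K' : GC E, K'.space = N ∧
      (∀ t : Finset E, t ∈ K'.faces ↔ t.Nonempty ∧ (∃ s ∈ S, (t : Set E) ⊆ convexHull ℝ (s : Set E))
        ∧ ∃ u ∈ K.faces, f '' (t : Set E) = u) ∧
      ∀ Y ⊆ N, (∀ s ∈ S, K.Adapted (f '' (Y ∩ convexHull ℝ (s : Set E)))) → K'.Adapted Y := sorry

theorem Adm.mem_lifts {K : GC F} {S : Finset (Finset E)} {f : E → F} {N : Set E}
    (h : Adm K S f N) {n : ℕ} (t : Fin n → F) (σ : Fin n → E) (hn : 0 < n) :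
    σ ∈ lifts S f t ↔ IsLift S f t σ := sorry

theorem Adm.lifts_data {m k : ℕ} (hm : 2 ≤ m) {M : Set F} (hM : IsClosedPLManifold m M)
    {K : GC F} (hK : K.space = M) {S : Finset (Finset E)} {f : E → F} {N : Set E}
    (h : Adm K S f N) (hf : MapsTo f N M) {B : Set F} (hB : B ⊆ M) (hB2 : IsCodimTwo m B)
    (hBad : K.Adapted B)
    (hcov : IsCoveringMap (fun y : ↥(N \ f ⁻¹' B) => (⟨f y, hf y.2.1, y.2.2⟩ : ↥(M \ B))))
    (hcard : ∀ x ∈ M \ B, (N ∩ f ⁻¹' {x}).ncard = k) (hk : k ≠ 0) :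
    (∀ t ∈ K.tops m, (lifts S f t).card = k) ∧
    (∀ t ∈ K.tops m, ∀ j : Fin (m + 1),
      InjOn (fun σ : Fin (m + 1) → E => σ ∘ j.succAbove) (lifts S f t)) ∧
    ∀ t ∈ K.tops m, ∀ t' ∈ K.tops m, ∀ (b : ℕ) (α α' : Fin b → Fin (m + 1)), t ∘ α = t' ∘ α' →
      (lifts S f t).val.map (fun σ => σ ∘ α) = (lifts S f t').val.map (fun σ => σ ∘ α') := sorry

theorem pi1_data {n : ℕ} {M : Set (Fin n → ℝ)} (hc : IsConnected M) (K : GC (Fin n → ℝ))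
    (hK : K.space = M) (x₀ : M) :
    ∃ c : (Fin n → ℝ) → (Fin n → ℝ) → FundamentalGroup M x₀,
      (∀ s ∈ K.faces, ∀ u ∈ s, ∀ v ∈ s, ∀ w ∈ s, c u v * c v w = c u w) ∧
      (∀ (r : ℕ) (N : Set (Fin r → ℝ)) (f : (Fin r → ℝ) → (Fin n → ℝ)), ContinuousOn f N →
        MapsTo f N M → QTriv (FundamentalGroup M x₀) N →
        ∃ g : (Fin r → ℝ) → FundamentalGroup M x₀, ∀ y ∈ N, ∀ y' ∈ N, segment ℝ y y' ⊆ N →
          AffOn f (segment ℝ y y') → (∃ s ∈ K.faces, f y ∈ s ∧ f y' ∈ s) →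
          c (f y) (f y') = (g y)⁻¹ * g y') ∧
      (∀ D : (Fin n → ℝ) → FundamentalGroup M x₀ → ℕ,
        (∀ s ∈ K.faces, ∀ u ∈ s, ∀ v ∈ s, ∀ q, D u q = D v (q * c u v)) →
        ∀ u ∈ K.verts, ∀ v ∈ K.verts, ∀ q q', D u q = D v q') := sorry

theorem orientable_of_qtriv {m : ℕ} {X : Set E} (hX : IsClosedPLManifold m X)
    (h : QTriv ℤˣ X) : IsOrientable m X := sorry

end Mfd

section Sphere

theorem sphere_manifold (m : ℕ) (hm : 1 ≤ m) :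
    IsClosedPLManifold m (Metric.sphere (0 : Fin (m + 1) → ℝ) 1) := sorry

theorem sphere_connected (m : ℕ) (hm : 1 ≤ m) :
    IsConnected (Metric.sphere (0 : Fin (m + 1) → ℝ) 1) := sorry

theorem sphere_qtriv (m : ℕ) (hm : 2 ≤ m) (Q : Type) [Group Q] :
    QTriv Q (Metric.sphere (0 : Fin (m + 1) → ℝ) 1) := sorry

theorem sphere_acyclic (m : ℕ) (K : GC (Fin (m + 1) → ℝ)) (hK : K.space = Metric.sphere 0 1)
    (R : Type) [CommRing R] (i : ℕ) (hi : 0 < i) (him : i < m)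
    (c : (Fin (i + 1) → (Fin (m + 1) → ℝ)) → R)
    (hc : ∀ t : Fin (i + 2) → (Fin (m + 1) → ℝ), K.Tup t →
      ∑ j : Fin (i + 2), (-1) ^ (j : ℕ) * c (t ∘ j.succAbove) = 0) :
    ∃ b : (Fin i → (Fin (m + 1) → ℝ)) → R, ∀ t : Fin (i + 1) → (Fin (m + 1) → ℝ), K.Tup t →
      c t = ∑ j : Fin (i + 1), (-1) ^ (j : ℕ) * b (t ∘ j.succAbove) := sorry

end Sphere

section Comb

/-- Berstein-Edmonds, combinatorial form. -/
theorem berstein_edmonds {V W R : Type} [Field R] (m d : ℕ) (hd : d < m)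
    (T : Finset (Fin (m + 1) → V)) (ε : (Fin (m + 1) → V) → R)
    (stokes : ∀ φ : (Fin m → V) → R,
      ∑ t ∈ T, ε t * ∑ j : Fin (m + 1), (-1) ^ (j : ℕ) * φ (t ∘ j.succAbove) = 0)
    (L : (Fin (m + 1) → V) → Finset (Fin (m + 1) → W))
    (hcard : ∀ t ∈ T, (L t).card = d)
    (hfacet : ∀ t ∈ T, ∀ j : Fin (m + 1),
      InjOn (fun σ : Fin (m + 1) → W => σ ∘ j.succAbove) (L t))
    (hcons : ∀ t ∈ T, ∀ t' ∈ T, ∀ (b : ℕ) (α α' : Fin b → Fin (m + 1)), t ∘ α = t' ∘ α' →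
      (L t).val.map (fun σ => σ ∘ α) = (L t').val.map (fun σ => σ ∘ α'))
    (acyc : ∀ i : ℕ, 0 < i → i < m → ∀ c : (Fin (i + 1) → V) → R,
      (∀ t ∈ T, ∀ α : Fin (i + 2) → Fin (m + 1),
        ∑ j : Fin (i + 2), (-1) ^ (j : ℕ) * c ((t ∘ α) ∘ j.succAbove) = 0) →
      ∃ b : (Fin i → V) → R, ∀ t ∈ T, ∀ α : Fin (i + 1) → Fin (m + 1),
        c (t ∘ α) = ∑ j : Fin (i + 1), (-1) ^ (j : ℕ) * b ((t ∘ α) ∘ j.succAbove))
    (x : Fin m → W → W → R)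
    (hx : ∀ i, ∀ t ∈ T, ∀ σ ∈ L t, ∀ a b c : Fin (m + 1),
      x i (σ a) (σ b) + x i (σ b) (σ c) = x i (σ a) (σ c))
    (hm : ((m.factorial : ℕ) : R) ≠ 0) :
    ∑ t ∈ T, ε t * ∑ σ ∈ L t, ∏ i : Fin m, x i (σ i.castSucc) (σ i.succ) = 0 := sorry

/-- Transfer: a cocycle that becomes a coboundary on the lifts is a coboundary. -/
theorem transfer_acyc {V W R : Type} [Field R] (m d : ℕ)
    (T : Finset (Fin (m + 1) → V))
    (L : (Fin (m + 1) → V) → Finset (Fin (m + 1) → W))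
    (hcard : ∀ t ∈ T, (L t).card = d) (hd : (d : R) ≠ 0)
    (hcons : ∀ t ∈ T, ∀ t' ∈ T, ∀ (b : ℕ) (α α' : Fin b → Fin (m + 1)), t ∘ α = t' ∘ α' →
      (L t).val.map (fun σ => σ ∘ α) = (L t').val.map (fun σ => σ ∘ α'))
    (i : ℕ) (c : (Fin (i + 1) → V) → R) (b : (Fin i → W) → R)
    (hb : ∀ t ∈ T, ∀ σ ∈ L t, ∀ α : Fin (i + 1) → Fin (m + 1),
      c (t ∘ α) = ∑ j : Fin (i + 1), (-1) ^ (j : ℕ) * b ((σ ∘ α) ∘ j.succAbove)) :
    ∃ b' : (Fin i → V) → R, ∀ t ∈ T, ∀ α : Fin (i + 1) → Fin (m + 1),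
      c (t ∘ α) = ∑ j : Fin (i + 1), (-1) ^ (j : ℕ) * b' ((t ∘ α) ∘ j.succAbove) := sorry

end Comb

section Final

variable {E : Type} [NormedAddCommGroup E] [NormedSpace ℝ E] [FiniteDimensional ℝ E]

theorem EvalData.eval_ne_zero {m : ℕ} {N : Set E} {R : Type} [Field R] (D : EvalData m N R)
    (hR : (((m + 1).factorial : ℕ) : R) ≠ 0) (K : GC E) (hK : K.space = N)
    (had : ∀ A ∈ D.P, K.Adapted A)
    (hy : ∀ s ∈ K.faces, convexHull ℝ (s : Set E) ⊆ D.P₀ → AffOn D.y (convexHull ℝ (s : Set E)))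
    (h0 : ∀ i, K.Adapted {v | v ∈ D.P₀ ∧ D.y v i = 0})
    (h1 : ∀ i, K.Adapted {v | v ∈ D.P₀ ∧ D.y v i = 1})
    (ζ : (Fin (m + 1) → E) → ℤ) (hζ : ∀ t ∈ K.tops m, ζ t = 1 ∨ ζ t = -1)
    (halt : ∀ t ∈ K.tops m, ∀ π : Equiv.Perm (Fin (m + 1)),
        ζ (t ∘ π) = (Equiv.Perm.sign π : ℤ) * ζ t)
    (hst : ∀ φ : (Fin m → E) → R,
        ∑ t ∈ K.tops m, (ζ t : R) * ∑ j : Fin (m + 1), (-1) ^ (j : ℕ) * φ (t ∘ j.succAbove) = 0) :
    ∃ x : Fin m → E → E → R,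
      (∀ i, ∀ s ∈ K.faces, ∀ a ∈ s, ∀ b ∈ s, ∀ d ∈ s, x i a b + x i b d = x i a d) ∧
      ∑ t ∈ K.tops m, (ζ t : R) * ∏ i : Fin m, x i (t i.castSucc) (t i.succ) ≠ 0 := sorry

theorem test_manifold (m : ℕ) (hm : 3 ≤ m) (p : ℕ) [Fact p.Prime] (l : ℕ) (hl : ¬ p ∣ l) :
    ∃ (r : ℕ) (N : Set (Fin r → ℝ)), IsClosedPLManifold m N ∧ IsConnected N ∧
      (∀ (Q : Type) [Group Q], (∀ q : Q, q ^ l = 1) → QTriv Q N) ∧
      Nonempty (EvalData m N (ZMod p)) := sorry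

end Final

end Pool.H54.UB
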