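import Pool.Agent.H54.UB.LFA
import Pool.Agent.H54.UB.PUR

/-!
# Row LFB: number of lifts, injectivity on facets

Setting: `f : N → M` is a `k`-sheeted covering outside `B`, `K` triangulates `M` and is adapted to `f` and
to `B`.
* `card_eq`: for a `K`-tuple `t` with positive weights, `σ ↦ ∑ w a • σ a` is a bijection from the
  lifts of `t` onto `N ∩ f⁻¹ {∑ w a • t a}` (`lift_unique`, `exists_lift`, `lift_maps`).
* `not_mem_codim`: if `a` is a face with at least `m` vertices then no point with carrier `a` is in `B`: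
  otherwise `convexHull a ⊆ B` (adapted), a finite union of hulls of at most `m-1` points, impossible by
  dimension (finitely many closed sets, each contained in an affine subspace of smaller dimension,
  cannot cover `convexHull a`; Baire or measure inside the affine span of `a`).
* So for a tuple `t` whose range is a face with `m` or `m+1` vertices there are exactly `k` lifts.
* `facet_inj`: let `σ, σ'` be lifts of `t ∈ K.tops m`, equal off the index `j`; `m ≥ 1`.  Let
  `y = (1/m) ∑_{i} σ (δ_j i)` (same for `σ'`), `x = f y`; `x ∉ B`.  `f : N \ f⁻¹ B → M \ B` is a covering,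
  hence locally injective at `y`.  For `0 < η < 1`: `y_η = (1-η) y + η σ j`, `y'_η = (1-η) y + η σ' j` are
  in `N`, tend to `y`, `f y_η = (1-η) x + η t j = f y'_η` has carrier `range t`, so it is not in `B`.  For
  small `η`, `y_η = y'_η`, so `σ j = σ' j`.
-/

open Set Topology

namespace Pool.H54.UB

variable {E F : Type*} [NormedAddCommGroup E] [NormedSpace ℝ E] [FiniteDimensional ℝ E]
  [NormedAddCommGroup F] [NormedSpace ℝ F] [FiniteDimensional ℝ F]
  {K : GC F} {S : Finset (Finset E)} {f : E → F} {N : Set E}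

theorem Adm.card_eq (h : Adm K S f N) {n : ℕ} {t : Fin n → F} (ht : K.Tup t) {w : Fin n → ℝ}
    (hw : ∀ a, 0 < w a) (hw1 : ∑ a, w a = 1) :
    (lifts S f t).card = (N ∩ f ⁻¹' {∑ a, w a • t a}).ncard := by
  have himg : (fun σ : Fin n → E => ∑ a, w a • σ a) '' (lifts S f t : Set (Fin n → E)) =
      N ∩ f ⁻¹' {∑ a, w a • t a} := by
    ext y
    constructor
    · rintro ⟨σ, hσ, rfl⟩
      have h1 := (h.mem_lifts t σ).1 (by exact_mod_cast hσ)
      have h2 := h.lift_maps h1 (fun a => (hw a).le) hw1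
      exact ⟨h2.1, h2.2⟩
    · rintro ⟨hy, hfy⟩
      obtain ⟨σ, h1, h2⟩ := h.exists_lift ht hw hw1 hy hfy
      exact ⟨σ, by exact_mod_cast (h.mem_lifts t σ).2 h1, h2⟩
  have hinj : InjOn (fun σ : Fin n → E => ∑ a, w a • σ a) (lifts S f t : Set (Fin n → E)) := by
    intro σ hσ σ' hσ' heq
    exact h.lift_unique ht ((h.mem_lifts t σ).1 (by exact_mod_cast hσ))
      ((h.mem_lifts t σ').1 (by exact_mod_cast hσ')) hw hw1 heq
  rw [← himg, hinj.ncard_image, Set.ncard_coe_finset]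

theorem not_mem_codim {m : ℕ} {B : Set F} (hB2 : IsCodimTwo m B) (hBad : K.Adapted B)
    {x : F} {a : Finset F} (hx : K.IsCarrier x a) (ha : m ≤ a.card) : x ∉ B := by
  classical
  intro hxB
  obtain ⟨⟨T, hT, hTB⟩, -⟩ := hB2
  have h1 : convexHull ℝ (a : Set F) ⊆ B := GC.adapted_iff.1 hBad x a hx hxB
  have hpoly : ∀ s : Finset F, IsPoly (convexHull ℝ (s : Set F)) := fun s =>
    ⟨{s}, by simp⟩
  obtain ⟨K', h2, -, h3⟩ := triang_over K (insert (convexHull ℝ (a : Set F))
    (T.image fun s : Finset F => convexHull ℝ (s : Set F))) (by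
      intro A hA
      rcases Finset.mem_insert.1 hA with rfl | hA
      · exact hpoly a
      · obtain ⟨s, -, rfl⟩ := Finset.mem_image.1 hA
        exact hpoly s)
  obtain ⟨b, hb, hbc, hba, y, -, hyb, -⟩ := GC.exists_face_dim (L := K') hx.1
    (h3 _ (Finset.mem_insert_self _ _)) isOpen_univ (mem_univ x) hx.mem_hull (by
      rw [h2]
      exact inter_subset_left.trans (Set.subset_biUnion_of_mem (u := fun t : Finset F =>
        convexHull ℝ (t : Set F)) hx.1))
  have hyB : y ∈ B := h1 (hba hyb.mem_hull)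
  rw [hTB] at hyB
  obtain ⟨s, hs, hys⟩ := Set.mem_iUnion₂.1 hyB
  have h4 := GC.adapted_iff.1 (h3 _ (Finset.mem_insert_of_mem (Finset.mem_image_of_mem (fun s : Finset F => convexHull ℝ (s : Set F)) hs))) y b
    hyb hys
  have h5 := card_le_of_hull_subset (GC.affineIndependent hb) h4
  have h6 := hT s hs
  omega

omit [FiniteDimensional ℝ F] in
private theorem LFB_carrier {n : ℕ} (hn : 0 < n) {t : Fin n → F} (ht : K.Tup t)
    (hinj : Function.Injective t) {w : Fin n → ℝ} (hw : ∀ a, 0 < w a) (hw1 : ∑ a, w a = 1) :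
    ∃ s : Finset F, s.card = n ∧ K.IsCarrier (∑ a, w a • t a) s := by
  classical
  obtain ⟨s, hs, hts⟩ := ht
  refine ⟨Finset.univ.image t, ?_, K.down s hs _ ?_ ?_, Function.extend t w 0, ?_, ?_, ?_⟩
  · rw [Finset.card_image_of_injective _ hinj, Finset.card_univ, Fintype.card_fin]
  · intro y hy
    obtain ⟨a, -, rfl⟩ := Finset.mem_image.1 hy
    exact hts a
  · exact ⟨t ⟨0, hn⟩, Finset.mem_image_of_mem _ (Finset.mem_univ _)⟩
  · intro y hy
    obtain ⟨a, -, rfl⟩ := Finset.mem_image.1 hy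
    rw [hinj.extend_apply]
    exact hw a
  · rw [Finset.sum_image (fun a _ b _ hab => hinj hab)]
    simp only [hinj.extend_apply]
    exact hw1
  · rw [Finset.sum_image (fun a _ b _ hab => hinj hab)]
    simp only [hinj.extend_apply]

omit [FiniteDimensional ℝ F] in
private theorem LFB_space {x : F} {s : Finset F} (hx : K.IsCarrier x s) : x ∈ K.space :=
  Set.mem_iUnion₂.2 ⟨s, hx.1, hx.mem_hull⟩

/-- `k` lifts of ordered facets and top simplices (`t` injective with `m` or `m+1` entries). -/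
theorem Adm.card_lifts (h : Adm K S f N) {m k : ℕ} {M : Set F} (hK : K.space = M) {B : Set F}
    (hB2 : IsCodimTwo m B) (hBad : K.Adapted B)
    (hcard : ∀ x ∈ M \ B, (N ∩ f ⁻¹' {x}).ncard = k) {n : ℕ} (hn : m ≤ n) (hn0 : 0 < n)
    {t : Fin n → F} (ht : K.Tup t) (hinj : Function.Injective t) :
    (lifts S f t).card = k := by
  have hn' : (0 : ℝ) < n := by exact_mod_cast hn0
  have hw : ∀ a : Fin n, (0 : ℝ) < (fun _ => 1 / (n : ℝ)) a := fun a => by positivity
  have hw1 : ∑ a : Fin n, (fun _ => 1 / (n : ℝ)) a = 1 := by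
    simp only [Finset.sum_const, Finset.card_univ, Fintype.card_fin, nsmul_eq_mul]
    field_simp
  rw [h.card_eq ht hw hw1]
  obtain ⟨s, hsc, hs⟩ := LFB_carrier hn0 ht hinj hw hw1
  apply hcard
  refine ⟨?_, not_mem_codim hB2 hBad hs (by omega)⟩
  rw [← hK]
  exact LFB_space hs

theorem Adm.facet_inj (h : Adm K S f N) {m : ℕ} (hm : 1 ≤ m) {M : Set F} (hK : K.space = M)
    (hf : MapsTo f N M) {B : Set F} (hB2 : IsCodimTwo m B) (hBad : K.Adapted B)
    (hcov : IsCoveringMap (fun y : ↥(N \ f ⁻¹' B) => (⟨f y, hf y.2.1, y.2.2⟩ : ↥(M \ B))))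
    {t : Fin (m + 1) → F} (ht : t ∈ K.tops m) (j : Fin (m + 1)) :
    InjOn (fun σ : Fin (m + 1) → E => σ ∘ j.succAbove) (lifts S f t) := by
  intro σ hσ σ' hσ' heq
  have hσ1 := (h.mem_lifts t σ).1 (by exact_mod_cast hσ)
  have hσ1' := (h.mem_lifts t σ').1 (by exact_mod_cast hσ')
  obtain ⟨hinj, htup⟩ := GC.mem_tops.1 ht
  have hm' : (0 : ℝ) < m := by exact_mod_cast hm
  have hoff : ∀ i, σ (j.succAbove i) = σ' (j.succAbove i) := fun i => congrFun heq i
  -- weights
  let w : ℝ → Fin (m + 1) → ℝ := fun η a => if a = j then η else (1 - η) / m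
  have hwj : ∀ η, w η j = η := fun η => if_pos rfl
  have hwo : ∀ η i, w η (j.succAbove i) = (1 - η) / m := fun η i =>
    if_neg (Fin.succAbove_ne j i)
  have hsum : ∀ η, ∑ a, w η a = 1 := by
    intro η
    rw [Fin.sum_univ_succAbove _ j, hwj]
    simp only [hwo, Finset.sum_const, Finset.card_univ, Fintype.card_fin, nsmul_eq_mul]
    field_simp
    ring
  have hw0 : ∀ η, 0 ≤ η → η ≤ 1 → ∀ a, 0 ≤ w η a := by
    intro η h0 h1 a
    simp only [w]
    split_ifs
    · exact h0
    · exact div_nonneg (by linarith) hm'.le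
  have hwp : ∀ η, 0 < η → η < 1 → ∀ a, 0 < w η a := by
    intro η h0 h1 a
    simp only [w]
    split_ifs
    · exact h0
    · exact div_pos (by linarith) hm'
  have hexp : ∀ η (τ : Fin (m + 1) → E), ∑ a, w η a • τ a =
      η • τ j + ∑ i, ((1 - η) / m) • τ (j.succAbove i) := by
    intro η τ
    rw [Fin.sum_univ_succAbove _ j, hwj]
    simp only [hwo]
  have hexpF : ∀ η (τ : Fin (m + 1) → F), ∑ a, w η a • τ a =
      η • τ j + ∑ i, ((1 - η) / m) • τ (j.succAbove i) := by
    intro η τ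
    rw [Fin.sum_univ_succAbove _ j, hwj]
    simp only [hwo]
  -- the centre
  have hy := h.lift_maps hσ1 (hw0 0 le_rfl zero_le_one) (hsum 0)
  have hxB : (∑ a, w 0 a • t a) ∉ B := by
    have h1 : K.Tup (fun i => t (j.succAbove i)) := by
      obtain ⟨s, hs, hts⟩ := htup
      exact ⟨s, hs, fun i => hts _⟩
    obtain ⟨s, hsc, hs⟩ := LFB_carrier (w := fun _ : Fin m => 1 / (m : ℝ)) (by omega) h1
      (hinj.comp Fin.succAbove_right_injective) (fun _ => by positivity) (by
        simp only [Finset.sum_const, Finset.card_univ, Fintype.card_fin, nsmul_eq_mul]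
        field_simp)
    rw [hexpF, zero_smul, zero_add, sub_zero]
    exact not_mem_codim hB2 hBad hs (by omega)
  have hyN : ∑ a, w 0 a • σ a ∈ N \ f ⁻¹' B := by
    refine ⟨hy.1, ?_⟩
    rw [mem_preimage, hy.2]
    exact hxB
  -- points near the centre
  have hpt : ∀ η, 0 < η → η < 1 → ∀ τ : Fin (m + 1) → E, IsLift S f t τ →
      ∑ a, w η a • τ a ∈ N \ f ⁻¹' B ∧ f (∑ a, w η a • τ a) = ∑ a, w η a • t a := by
    intro η h0 h1 τ hτ
    have h2 := h.lift_maps hτ (hw0 η h0.le h1.le) (hsum η)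
    refine ⟨⟨h2.1, ?_⟩, h2.2⟩
    rw [mem_preimage, h2.2]
    obtain ⟨s, hsc, hs⟩ := LFB_carrier (by omega) htup hinj (hwp η h0 h1) (hsum η)
    exact not_mem_codim hB2 hBad hs (by omega)
  obtain ⟨e, he1, he2⟩ := hcov.isLocalHomeomorph ⟨_, hyN⟩
  have hopen := e.open_source
  obtain ⟨U, hU, hUe⟩ := isOpen_induced_iff.1 hopen
  have hyU : ∑ a, w 0 a • σ a ∈ U := by
    have : (⟨_, hyN⟩ : ↥(N \ f ⁻¹' B)) ∈ Subtype.val ⁻¹' U := by rw [hUe]; exact he1
    exact this
  have hsame : ∑ a, w 0 a • σ' a = ∑ a, w 0 a • σ a := by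
    rw [hexp, hexp, zero_smul, zero_smul]
    simp only [hoff]
  have hcont : ∀ τ : Fin (m + 1) → E, Continuous fun η : ℝ => ∑ a, w η a • τ a := by
    intro τ
    have : (fun η : ℝ => ∑ a, w η a • τ a) = fun η : ℝ =>
      η • τ j + ∑ i, ((1 - η) / m) • τ (j.succAbove i) := by
      funext η; exact hexp η τ
    rw [this]
    fun_prop
  have ev1 : ∀ᶠ η in 𝓝 (0 : ℝ), ∑ a, w η a • σ a ∈ U :=
    (hcont σ).continuousAt (hU.mem_nhds hyU)
  have ev2 : ∀ᶠ η in 𝓝 (0 : ℝ), ∑ a, w η a • σ' a ∈ U :=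
    (hcont σ').continuousAt (hU.mem_nhds (by rw [hsame]; exact hyU))
  have ev3 : ∀ᶠ η in 𝓝[>] (0 : ℝ), η < 1 := by
    filter_upwards [mem_nhdsWithin_of_mem_nhds (Iio_mem_nhds (zero_lt_one (α := ℝ)))] with η hη
    exact hη
  obtain ⟨η, ⟨⟨⟨h1, h2⟩, h3⟩, h4⟩⟩ := (((ev1.and ev2).filter_mono nhdsWithin_le_nhds).and ev3 |>.and
    self_mem_nhdsWithin).exists
  have h4' : 0 < η := h4
  obtain ⟨p1, p2⟩ := hpt η h4' h3 σ hσ1
  obtain ⟨p1', p2'⟩ := hpt η h4' h3 σ' hσ1'
  have m1 : (⟨_, p1⟩ : ↥(N \ f ⁻¹' B)) ∈ e.source := by rw [← hUe]; exact h1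
  have m2 : (⟨_, p1'⟩ : ↥(N \ f ⁻¹' B)) ∈ e.source := by rw [← hUe]; exact h2
  have key := e.injOn m1 m2 (by
    rw [← he2]
    apply Subtype.ext
    change f _ = f _
    rw [p2, p2'])
  have key2 : ∑ a, w η a • σ a = ∑ a, w η a • σ' a := congrArg Subtype.val key
  rw [hexp, hexp] at key2
  simp only [hoff] at key2
  have key3 : η • σ j = η • σ' j := add_right_cancel key2
  have key4 : σ j = σ' j := smul_right_injective E h4'.ne' key3
  funext a
  rcases Fin.eq_self_or_eq_succAbove j a with rfl | ⟨i, rfl⟩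
  · exact key4
  · exact hoff i

end Pool.H54.UB
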