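import Pool.Agent.H54.UB.PF
import Pool.Agent.H54.UB.SM

/-!
# Row MBD: interior points and boundary points of PL manifolds, local criteria

`IntPt n X x`: `X` has an `n`-dimensional chart at `x`.  `BdPt n X D x`: `X` has a half space chart at
`x` of dimension `n+1`, in which `D` is the boundary hyperplane.

* `of_nhds`: choose a linear isomorphism `F ≃ (Fin n → ℝ)` (equal dimension), translate `h x` to `0`,
  take `U = W ∩ h⁻¹ (small cube)` (resp. small half cube), rescale (same as `chart_of_local`, row SM).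
  `U` is a polyhedron (`PLOn.preimage`), a neighbourhood of `x` in `X` since `h` is continuous on `W`.
* `data`: trivial from the definitions.
* `congr_nhds`: intersect the domain with a small closed cube around `x` (a polyhedron after choosing
  coordinates of `E`; e.g. use `exists_big_simplex`-like small simplex neighbourhood or
  `isPoly_of_halfspaces`) contained in `V`, and use `of_nhds` (the image is still a neighbourhood of
  `h x` in `ℝ^n`, resp. in the half space, because `h : U → h(U)` is a homeomorphism: `U` compact).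
* `image`: compose with the inverse of `φ` (`PLOn.symm`); `φ` is a homeomorphism onto its image.
-/

open Set Topology

namespace Pool.H54.UB

variable {E F : Type*} [NormedAddCommGroup E] [NormedSpace ℝ E] [FiniteDimensional ℝ E]
  [NormedAddCommGroup F] [NormedSpace ℝ F] [FiniteDimensional ℝ F]

theorem MBD_inj_nhds {A B : Type*} [TopologicalSpace A] [TopologicalSpace B] [T2Space B]
    {W P : Set A} {S : Set B} {x : A} {f : A → B} (hW : IsCompact W) (hf : ContinuousOn f W)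
    (hi : InjOn f W) (hx : x ∈ W) (hP : P ∈ 𝓝 x) (h : f '' W ∈ 𝓝[S] (f x)) :
    f '' (W ∩ P) ∈ 𝓝[S] (f x) := by
  obtain ⟨O, hOP, hO, hxO⟩ := mem_nhds_iff.1 hP
  have hc : IsCompact (f '' (W \ O)) :=
    (hW.diff hO).image_of_continuousOn (hf.mono Set.sdiff_subset)
  have hn : (f '' (W \ O))ᶜ ∈ 𝓝 (f x) := hc.isClosed.isOpen_compl.mem_nhds (by
    rintro ⟨y, ⟨hyW, hyO⟩, hy⟩
    exact hyO (hi hyW hx hy ▸ hxO))
  refine Filter.mem_of_superset (Filter.inter_mem h (mem_nhdsWithin_of_mem_nhds hn)) ?_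
  rintro _ ⟨⟨y, hyW, rfl⟩, hy⟩
  refine ⟨y, ⟨hyW, hOP ?_⟩, rfl⟩
  by_contra hyO
  exact hy ⟨y, ⟨hyW, hyO⟩, rfl⟩

theorem MBD_small {x : E} {V : Set E} (hV : V ∈ 𝓝 x) :
    ∃ P : Set E, IsPoly P ∧ P ⊆ V ∧ P ∈ 𝓝 x := by
  obtain ⟨s, -, -, hs⟩ := exists_big_simplex (X := Metric.closedBall x 1)
    Metric.isBounded_closedBall
  have hK : IsPoly (convexHull ℝ (s : Set E)) := IsPoly.hull s
  obtain ⟨R, hR⟩ := hK.isCompact.isBounded.subset_closedBall x
  obtain ⟨δ, hδ, hδV⟩ := Metric.mem_nhds_iff.1 hV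
  have hR0 : 0 ≤ R := by
    have h1 : x ∈ Metric.closedBall x R := hR (hs (Metric.mem_closedBall_self zero_le_one))
    simpa using h1
  set ε : ℝ := δ / (2 * (R + 1)) with hε
  have hε0 : 0 < ε := by positivity
  refine ⟨AffineMap.homothety x ε '' convexHull ℝ (s : Set E), hK.image_affine _, ?_, ?_⟩
  · rintro _ ⟨y, hy, rfl⟩
    apply hδV
    have h1 : dist y x ≤ R := hR hy
    rw [Metric.mem_ball, AffineMap.homothety_apply, dist_eq_norm]
    simp only [vsub_eq_sub, vadd_eq_add, add_sub_cancel_right, norm_smul, Real.norm_eq_abs,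
      abs_of_pos hε0]
    rw [← dist_eq_norm]
    have h2 : ε * (R + 1) = δ / 2 := by rw [hε]; field_simp
    nlinarith
  · refine Filter.mem_of_superset (Metric.closedBall_mem_nhds x hε0) ?_
    intro y hy
    refine ⟨AffineMap.homothety x ε⁻¹ y, hs ?_, ?_⟩
    · rw [Metric.mem_closedBall, AffineMap.homothety_apply, dist_eq_norm]
      simp only [vsub_eq_sub, vadd_eq_add, add_sub_cancel_right, norm_smul, Real.norm_eq_abs,
        abs_of_pos (inv_pos.2 hε0)]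
      rw [← dist_eq_norm]
      have h1 : dist y x ≤ ε := hy
      calc ε⁻¹ * dist y x ≤ ε⁻¹ * ε := by gcongr
        _ = 1 := inv_mul_cancel₀ hε0.ne'
    · simp only [AffineMap.homothety_apply, vsub_eq_sub, vadd_eq_add, add_sub_cancel_right,
        smul_smul, mul_inv_cancel₀ hε0.ne', one_smul, sub_add_cancel]

/-- Half cube. -/
theorem MBD_half (n : ℕ) : IsPoly {p : (Fin n → ℝ) × ℝ | p.1 ∈ cube n ∧ 0 ≤ p.2 ∧ p.2 ≤ 1} := by
  have h1 : IsPoly (cube n) := isPoly_box (fun _ => -1) (fun _ => 1)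
  have h2 : IsPoly (segment ℝ (0 : ℝ) 1) := IsPoly.segment 0 1
  have h3 := h1.prod h2
  rw [segment_eq_Icc (zero_le_one)] at h3
  exact h3

theorem MBD_cube_nhds {n : ℕ} {y : Fin n → ℝ} (hy : ∀ i, -1 < y i ∧ y i < 1) :
    cube n ∈ 𝓝 y := by
  have h1 : Set.pi univ (fun _ : Fin n => Icc (-1 : ℝ) 1) ∈ 𝓝 y :=
    set_pi_mem_nhds finite_univ fun i _ => Icc_mem_nhds (hy i).1 (hy i).2
  refine Filter.mem_of_superset h1 ?_
  intro z hz i
  exact hz i (mem_univ i)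

theorem MBD_image_nhds {X W : Set E} {x : E} {φ : E → F} (hφ : PLOn φ X) (hi : InjOn φ X)
    (hx : x ∈ X) (hWX : W ⊆ X) (hW : W ∈ 𝓝[X] x) : φ '' W ∈ 𝓝[φ '' X] (φ x) := by
  rw [mem_nhdsWithin_iff_exists_mem_nhds_inter] at hW
  obtain ⟨P, hP, hPW⟩ := hW
  have h1 := MBD_inj_nhds (S := φ '' X) hφ.domain.isCompact hφ.continuousOn hi hx hP
    self_mem_nhdsWithin
  refine Filter.mem_of_superset h1 (image_mono ?_)
  rintro y ⟨h2, h3⟩
  exact hPW ⟨h3, h2⟩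

theorem MBD_image_pl {G : Type*} [NormedAddCommGroup G] [NormedSpace ℝ G]
    [FiniteDimensional ℝ G] {X U : Set E} {φ : E → F} (hφ : PLOn φ X) (hi : InjOn φ X)
    (hU : U ⊆ X) {h : E → G} (hh : PLOn h U) :
    PLOn (fun y => h (Function.invFunOn φ X y)) (φ '' U) := by
  refine PLOn.comp (Y := U) hh ((hφ.symm hi).mono (hφ.image_poly hh.domain hU)
    (image_mono hU)) ?_
  rintro _ ⟨y, hy, rfl⟩
  rw [hi.leftInvOn_invFunOn (hU hy)]
  exact hy

theorem MBD_nhds_congr {X Y V : Set E} {x : E} (hV : V ∈ 𝓝 x) (hXY : X ∩ V = Y ∩ V) :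
    𝓝[X] x = 𝓝[Y] x := by
  rw [← nhdsWithin_inter_of_mem' (s := X) (mem_nhdsWithin_of_mem_nhds hV),
    ← nhdsWithin_inter_of_mem' (s := Y) (mem_nhdsWithin_of_mem_nhds hV), hXY]

def IntPt (n : ℕ) (X : Set E) (x : E) : Prop := ∃ U h, ChartAt n X U h x

def BdPt (n : ℕ) (X D : Set E) (x : E) : Prop :=
  ∃ (U : Set E) (h : E → (Fin n → ℝ) × ℝ), U ⊆ X ∧ x ∈ U ∧ U ∈ 𝓝[X] x ∧ PLOn h U ∧ InjOn h U ∧
    h '' U = {p | p.1 ∈ cube n ∧ 0 ≤ p.2 ∧ p.2 ≤ 1} ∧ (∀ y ∈ U, y ∈ D ↔ (h y).2 = 0) ∧ h x = 0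

theorem IntPt.of_nhds {n : ℕ} {X W : Set E} {x : E} (hF : Module.finrank ℝ F = n) (hWX : W ⊆ X)
    (hx : x ∈ W) (hW : W ∈ 𝓝[X] x) {h : E → F} (hh : PLOn h W) (hi : InjOn h W)
    (him : h '' W ∈ 𝓝 (h x)) : IntPt n X x := by

  let L : F ≃L[ℝ] (Fin n → ℝ) := ContinuousLinearEquiv.ofFinrankEq (by simpa using hF)
  let A : F →ᵃ[ℝ] (Fin n → ℝ) := (L : F →ₗ[ℝ] (Fin n → ℝ)).toAffineMap
  have hA : ∀ v, A v = L v := fun v => rfl
  have h1 : PLOn (fun y => A (h y)) W := hh.affine_comp A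
  have h2 : InjOn (fun y => A (h y)) W := by
    intro y hy z hz hyz
    exact hi hy hz (L.injective hyz)
  have h3 : (fun y => A (h y)) '' W ∈ 𝓝 (A (h x)) := by
    have h4 : L '' (h '' W) ∈ 𝓝 (L (h x)) := L.toHomeomorph.isOpenMap.image_mem_nhds him
    rw [image_image] at h4
    exact h4
  obtain ⟨ε, hε, hεW⟩ := Metric.nhds_basis_closedBall.mem_iff.1 h3
  exact chart_of_local hWX hx hW h1 h2 hε fun y hy => hεW (by
    rw [Metric.mem_closedBall, dist_pi_le_iff hε.le]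
    intro i
    rw [Real.dist_eq]
    exact hy i)

theorem BdPt.of_nhds {n : ℕ} {X D W : Set E} {x : E} (hF : Module.finrank ℝ F = n) (hWX : W ⊆ X)
    (hx : x ∈ W) (hW : W ∈ 𝓝[X] x) {h : E → F × ℝ} (hh : PLOn h W) (hi : InjOn h W)
    (hpos : ∀ y ∈ W, 0 ≤ (h y).2) (hD : ∀ y ∈ W, y ∈ D ↔ (h y).2 = 0) (hx0 : (h x).2 = 0)
    (him : h '' W ∈ 𝓝[{p : F × ℝ | 0 ≤ p.2}] (h x)) : BdPt n X D x := by

  let L : F ≃L[ℝ] (Fin n → ℝ) := ContinuousLinearEquiv.ofFinrankEq (by simpa using hF)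
  -- the image contains a small half ball
  rw [mem_nhdsWithin_iff_exists_mem_nhds_inter] at him
  obtain ⟨P, hP, hPW⟩ := him
  let M : (F × ℝ) ≃L[ℝ] ((Fin n → ℝ) × ℝ) := L.prodCongr (ContinuousLinearEquiv.refl ℝ ℝ)
  have hM : ∀ p : F × ℝ, M p = (L p.1, p.2) := fun p => rfl
  have hMP : M '' P ∈ 𝓝 (M (h x)) := M.toHomeomorph.isOpenMap.image_mem_nhds hP
  obtain ⟨ε, hε, hεP⟩ := Metric.nhds_basis_closedBall.mem_iff.1 hMP
  let T : (Fin n → ℝ) × ℝ →ᵃ[ℝ] (Fin n → ℝ) × ℝ :=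
    ε⁻¹ • (AffineMap.id ℝ ((Fin n → ℝ) × ℝ) - AffineMap.const ℝ ((Fin n → ℝ) × ℝ) (M (h x)))
  have hT : ∀ p, T p = ε⁻¹ • (p - M (h x)) := fun p => rfl
  let A : F × ℝ →ᵃ[ℝ] (Fin n → ℝ) × ℝ :=
    T.comp ((M : (F × ℝ) →ₗ[ℝ] ((Fin n → ℝ) × ℝ)).toAffineMap)
  have hA : ∀ p, A p = ε⁻¹ • (M p - M (h x)) := fun p => rfl
  have hAi : Function.Injective A := by
    intro p q hpq
    rw [hA, hA] at hpq
    have h1 := smul_right_injective _ (inv_ne_zero hε.ne') hpq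
    exact M.injective (sub_left_injective h1)
  have h1 : PLOn (fun y => A (h y)) W := hh.affine_comp A
  have h2 : InjOn (fun y => A (h y)) W := fun y hy z hz hyz => hi hy hz (hAi hyz)
  have hA2 : ∀ p : F × ℝ, (A p).2 = ε⁻¹ * p.2 := by
    intro p
    rw [hA, hM, hM]
    simp [hx0]
  set Q : Set ((Fin n → ℝ) × ℝ) := {p | p.1 ∈ cube n ∧ 0 ≤ p.2 ∧ p.2 ≤ 1} with hQ
  have hA0 : A (h x) = 0 := by rw [hA]; simp
  refine ⟨W ∩ (fun y => A (h y)) ⁻¹' Q, fun y => A (h y), inter_subset_left.trans hWX,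
    ⟨hx, ?_⟩, ?_, h1.mono (h1.preimage (MBD_half n)) inter_subset_left,
    h2.mono inter_subset_left, ?_, ?_, hA0⟩
  · change A (h x) ∈ Q
    rw [hA0]
    refine ⟨fun i => ?_, le_rfl, zero_le_one⟩
    simp
  · refine Filter.inter_mem hW ?_
    have hc : ContinuousWithinAt (fun y => A (h y)) W x := h1.continuousOn x hx
    have hc' : Filter.Tendsto (fun y => A (h y)) (𝓝[X] x) (𝓝 0) := by
      have h3 : Filter.Tendsto (fun y => A (h y)) (𝓝[W] x) (𝓝 (A (h x))) := hc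
      rw [hA0] at h3
      refine h3.mono_left ?_
      rw [← nhdsWithin_inter_of_mem' (s := X) hW]
      exact nhdsWithin_mono _ inter_subset_right
    have h4 : {p : (Fin n → ℝ) × ℝ | p.1 ∈ cube n ∧ p.2 < 1} ∈ 𝓝 (0 : (Fin n → ℝ) × ℝ) := by
      have h5 : cube n ∈ 𝓝 (0 : Fin n → ℝ) := MBD_cube_nhds fun i => by simp
      have h6 : Iio (1 : ℝ) ∈ 𝓝 (0 : ℝ) := Iio_mem_nhds one_pos
      exact prod_mem_nhds h5 h6
    filter_upwards [hc' h4, hW] with y hy hyW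
    refine ⟨hy.1, ?_, hy.2.le⟩
    change 0 ≤ (A (h y)).2
    rw [hA2]
    exact mul_nonneg (inv_nonneg.2 hε.le) (hpos y hyW)
  · apply Subset.antisymm
    · rintro _ ⟨y, hy, rfl⟩
      exact hy.2
    · intro p hp
      have h3 : M (h x) + ε • p ∈ M '' P := by
        apply hεP
        rw [Metric.mem_closedBall, dist_eq_norm, add_sub_cancel_left, norm_smul,
          Real.norm_eq_abs, abs_of_pos hε]
        have h4 : ‖p‖ ≤ 1 := by
          rw [Prod.norm_def]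
          refine max_le ?_ ?_
          · rw [pi_norm_le_iff_of_nonneg zero_le_one]
            intro i
            rw [Real.norm_eq_abs, abs_le]
            exact hp.1 i
          · rw [Real.norm_eq_abs, abs_le]
            exact ⟨by linarith [hp.2.1], hp.2.2⟩
        nlinarith
      obtain ⟨q, hq, hqp⟩ := h3
      have h5 : q.2 = ε * p.2 := by
        have h6 := congrArg Prod.snd hqp
        rw [hM, hM] at h6
        simpa [hx0] using h6
      have h6 : q ∈ h '' W := hPW ⟨hq, by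
        change 0 ≤ q.2
        rw [h5]
        exact mul_nonneg hε.le hp.2.1⟩
      obtain ⟨y, hy, rfl⟩ := h6
      have h7 : A (h y) = p := by
        rw [hA, hqp, add_sub_cancel_left, smul_smul, inv_mul_cancel₀ hε.ne', one_smul]
      exact ⟨y, ⟨hy, by change A (h y) ∈ Q; rw [h7]; exact hp⟩, h7⟩
  · intro y hy
    rw [hD y hy.1]
    change _ ↔ (A (h y)).2 = 0
    rw [hA2]
    constructor
    · intro h3; rw [h3, mul_zero]
    · intro h3
      rcases mul_eq_zero.1 h3 with h4 | h4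
      · exact absurd h4 (inv_ne_zero hε.ne')
      · exact h4

theorem IntPt.data {n : ℕ} {X : Set E} {x : E} (h : IntPt n X x) :
    ∃ (W : Set E) (f : E → Fin n → ℝ), W ⊆ X ∧ x ∈ W ∧ W ∈ 𝓝[X] x ∧ PLOn f W ∧ InjOn f W ∧
      f '' W ∈ 𝓝 (f x) := by

  obtain ⟨U, f, ⟨hU, hf, hi, him⟩, hx, hn, hc⟩ := h
  exact ⟨U, f, hU, hx, hn, hf, hi, by rw [him]; exact MBD_cube_nhds hc⟩

theorem BdPt.data {n : ℕ} {X D : Set E} {x : E} (h : BdPt n X D x) :
    ∃ (W : Set E) (f : E → (Fin n → ℝ) × ℝ), W ⊆ X ∧ x ∈ W ∧ W ∈ 𝓝[X] x ∧ PLOn f W ∧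
      InjOn f W ∧ (∀ y ∈ W, 0 ≤ (f y).2) ∧ (∀ y ∈ W, y ∈ D ↔ (f y).2 = 0) ∧ (f x).2 = 0 ∧
      f '' W ∈ 𝓝[{p : (Fin n → ℝ) × ℝ | 0 ≤ p.2}] (f x) := by

  obtain ⟨U, f, hU, hx, hn, hf, hi, him, hD, h0⟩ := h
  refine ⟨U, f, hU, hx, hn, hf, hi, ?_, hD, by rw [h0]; rfl, ?_⟩
  · intro y hy
    have h1 : f y ∈ f '' U := mem_image_of_mem f hy
    rw [him] at h1
    exact h1.2.1
  · rw [him, h0, mem_nhdsWithin_iff_exists_mem_nhds_inter]
    refine ⟨cube n ×ˢ Iio (1 : ℝ), prod_mem_nhds (MBD_cube_nhds fun i => by simp)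
      (Iio_mem_nhds one_pos), ?_⟩
    rintro p ⟨⟨h1, h2⟩, h3⟩
    exact ⟨h1, h3, le_of_lt h2⟩

theorem BdPt.mem {n : ℕ} {X D : Set E} {x : E} (h : BdPt n X D x) : x ∈ X ∧ x ∈ D := by

  obtain ⟨U, f, hU, hx, hn, hf, hi, him, hD, h0⟩ := h
  exact ⟨hU hx, (hD x hx).2 (by rw [h0]; rfl)⟩

theorem IntPt.congr_nhds {n : ℕ} {X Y V : Set E} {x : E} (hV : V ∈ 𝓝 x) (hXY : X ∩ V = Y ∩ V)
    (h : IntPt n X x) : IntPt n Y x := by

  obtain ⟨W, f, hWX, hx, hn, hf, hi, him⟩ := h.data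
  obtain ⟨P, hP, hPV, hPn⟩ := MBD_small hV
  have hf' : PLOn f (W ∩ P) := hf.mono (hf.domain.inter hP) inter_subset_left
  refine IntPt.of_nhds (F := Fin n → ℝ) (by simp) (W := W ∩ P) ?_ ⟨hx, mem_of_mem_nhds hPn⟩ ?_ hf'
    (hi.mono inter_subset_left) ?_
  · rintro y ⟨hy, hyP⟩
    have h1 : y ∈ X ∩ V := ⟨hWX hy, hPV hyP⟩
    rw [hXY] at h1
    exact h1.1
  · rw [← MBD_nhds_congr hV hXY]
    exact Filter.inter_mem hn (mem_nhdsWithin_of_mem_nhds hPn)
  · have h1 := MBD_inj_nhds (S := univ) hf.domain.isCompact hf.continuousOn hi hx hPn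
      (by rw [nhdsWithin_univ]; exact him)
    rwa [nhdsWithin_univ] at h1

theorem BdPt.congr_nhds {n : ℕ} {X Y D D' V : Set E} {x : E} (hV : V ∈ 𝓝 x)
    (hXY : X ∩ V = Y ∩ V) (hDD : D ∩ V = D' ∩ V) (h : BdPt n X D x) : BdPt n Y D' x := by

  obtain ⟨W, f, hWX, hx, hn, hf, hi, hpos, hD, h0, him⟩ := h.data
  obtain ⟨P, hP, hPV, hPn⟩ := MBD_small hV
  have hf' : PLOn f (W ∩ P) := hf.mono (hf.domain.inter hP) inter_subset_left
  refine BdPt.of_nhds (F := Fin n → ℝ) (by simp) (W := W ∩ P) ?_ ⟨hx, mem_of_mem_nhds hPn⟩ ?_ hf'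
    (hi.mono inter_subset_left) (fun y hy => hpos y hy.1) ?_ h0 ?_
  · rintro y ⟨hy, hyP⟩
    have h1 : y ∈ X ∩ V := ⟨hWX hy, hPV hyP⟩
    rw [hXY] at h1
    exact h1.1
  · rw [← MBD_nhds_congr hV hXY]
    exact Filter.inter_mem hn (mem_nhdsWithin_of_mem_nhds hPn)
  · intro y hy
    rw [← hD y hy.1]
    constructor
    · intro h1
      have h2 : y ∈ D' ∩ V := ⟨h1, hPV hy.2⟩
      rw [← hDD] at h2
      exact h2.1
    · intro h1
      have h2 : y ∈ D ∩ V := ⟨h1, hPV hy.2⟩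
      rw [hDD] at h2
      exact h2.1
  · exact MBD_inj_nhds hf.domain.isCompact hf.continuousOn hi hx hPn him

theorem IntPt.image {n : ℕ} {X : Set E} {x : E} {φ : E → F} (hφ : PLOn φ X) (hi : InjOn φ X)
    (hx : x ∈ X) (h : IntPt n X x) : IntPt n (φ '' X) (φ x) := by

  obtain ⟨U, f, ⟨hU, hf, hfi, him⟩, hxU, hn, hc⟩ := h
  have hinv : ∀ y ∈ U, Function.invFunOn φ X (φ y) = y := fun y hy =>
    hi.leftInvOn_invFunOn (hU hy)
  refine ⟨φ '' U, fun y => f (Function.invFunOn φ X y), ⟨image_mono hU,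
    MBD_image_pl hφ hi hU hf, ?_, ?_⟩, mem_image_of_mem φ hxU,
    MBD_image_nhds hφ hi hx hU hn, ?_⟩
  · rintro _ ⟨y, hy, rfl⟩ _ ⟨z, hz, rfl⟩ hyz
    simp only [hinv y hy, hinv z hz] at hyz
    rw [hfi hy hz hyz]
  · rw [image_image, ← him]
    exact image_congr fun y hy => by rw [hinv y hy]
  · intro i
    simp only [hinv x hxU]
    exact hc i

theorem BdPt.image {n : ℕ} {X D : Set E} {x : E} {φ : E → F} (hφ : PLOn φ X) (hi : InjOn φ X)
    (hD : D ⊆ X) (h : BdPt n X D x) : BdPt n (φ '' X) (φ '' D) (φ x) := by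

  obtain ⟨U, f, hU, hxU, hn, hf, hfi, him, hDf, h0⟩ := h
  have hinv : ∀ y ∈ U, Function.invFunOn φ X (φ y) = y := fun y hy =>
    hi.leftInvOn_invFunOn (hU hy)
  refine ⟨φ '' U, fun y => f (Function.invFunOn φ X y), image_mono hU,
    mem_image_of_mem φ hxU, MBD_image_nhds hφ hi (hU hxU) hU hn,
    MBD_image_pl hφ hi hU hf, ?_, ?_, ?_, ?_⟩
  · rintro _ ⟨y, hy, rfl⟩ _ ⟨z, hz, rfl⟩ hyz
    simp only [hinv y hy, hinv z hz] at hyz
    rw [hfi hy hz hyz]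
  · rw [image_image, ← him]
    exact image_congr fun y hy => by rw [hinv y hy]
  · rintro _ ⟨y, hy, rfl⟩
    simp only [hinv y hy]
    rw [← hDf y hy]
    constructor
    · rintro ⟨z, hz, hzy⟩
      rw [← hi (hD hz) (hU hy) hzy]
      exact hz
    · intro h1
      exact mem_image_of_mem φ h1
  · simp only [hinv x hxU]
    exact h0

end Pool.H54.UB
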