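import Pool.Agent.H54.UB.MBD

/-!
# Row MBG: the boundary is a manifold; gluing along the boundary; balls and shells

* `boundary`: `f : W → (Fin n → ℝ) × ℝ` half space chart at `x ∈ D`; restrict the first component to
  `W ∩ D = W ∩ {f₂ = 0}` (a polyhedron): PL, injective, image a neighbourhood of `f₁ x`.
* `glue`: `f : W → ..`, `g : W' → ..` half space charts of `A`, `B` at `x`.  Shrinking we may assume that
  `W ∩ D` and `W' ∩ D` agree: replace `W'` by the part of `W'` whose vertical projection is in `W`: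
  Let `θ = f₁ ∘ (g₁ restricted to W' ∩ D)⁻¹`, a PL homeomorphism between neighbourhoods of `g₁ x` and
  `f₁ x` in `ℝ^n`.  On a smaller polyhedral neighbourhood `W''` of `x` in `B` (points `y ∈ W'` with
  `(g₁ y, 0)` in the image of `W' ∩ W ∩ D`) put `h y = (θ (g₁ y), - g₂ y)`; on `W` put
  `h = (f₁, f₂)`.  They agree on `D` (`f₂ = g₂ = 0`, `θ (g₁ y) = f₁ y`), so `h` is well defined, PL and
  injective on `W ∪ W''` (`f₂ ≥ 0`, `- g₂ ≤ 0`), and its image contains a half ball on each side: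
  a neighbourhood of `h x` in `ℝ^n × ℝ` (dimension `n+1`).  `W ∪ W''` is a neighbourhood of `x` in
  `A ∪ B`.  Use `A ∩ B = D`.
* `bdpt_ball`, `bdpt_shell`: `y` with `‖y‖ = 1` (sup norm) in `Fin (k+1) → ℝ`, `T = {i | |y i| = 1}`,
  `i₀ ∈ T`, `s i = y i`.  Near `y`, `‖z‖ = max_{i ∈ T} s i z i =: μ z`.  Map
  `z ↦ ((s i z i - s i₀ z i₀ for i ∈ T \ i₀, z i for i ∉ T), ± (μ z - 1))`: a PL homeomorphism of a
  neighbourhood of `y` (inverse: `s i z i = ζ i + (μ - max_T ζ)`, `ζ i₀ = 0`), with `μ z - 1 ≥ 0` on the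
  shell and `1 - μ z ≥ 0` on the ball.
* `intpt_of_interior`: use the inclusion as chart.
-/

open Set Topology

namespace Pool.H54.UB

variable {E : Type*} [NormedAddCommGroup E] [NormedSpace ℝ E] [FiniteDimensional ℝ E]

theorem MBG_nhds_mk {G : Type*} [NormedAddCommGroup G] {S : Set (G × ℝ)} {a : G}
    (h : S ∈ 𝓝[{p : G × ℝ | 0 ≤ p.2}] ((a, 0) : G × ℝ)) : {q : G | (q, (0 : ℝ)) ∈ S} ∈ 𝓝 a := by
  have h1 : Filter.Tendsto (fun q : G => (q, (0 : ℝ))) (𝓝 a)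
      (𝓝[{p : G × ℝ | 0 ≤ p.2}] ((a, 0) : G × ℝ)) := by
    refine tendsto_nhdsWithin_iff.2 ⟨?_, Filter.Eventually.of_forall fun q => ?_⟩
    · exact (by fun_prop : Continuous fun q : G => (q, (0 : ℝ))).tendsto a
    · show (0 : ℝ) ≤ 0
      exact le_rfl
  exact h1 h

theorem BdPt.boundary {n : ℕ} {X D : Set E} {x : E} (h : BdPt n X D x) (hD : D ⊆ X) :
    IntPt n D x := by
  have hmem := h.mem
  obtain ⟨W, f, hWX, hxW, hW, hpl, hinj, hpos, hDW, hx0, him⟩ := h.data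
  have hP : IsPoly (W ∩ f ⁻¹' (f '' W ∩ {p | (LinearMap.snd ℝ (Fin n → ℝ) ℝ).toAffineMap p = 0})) :=
    hpl.preimage (hpl.image.inter_hyperplane _)
  have hWD : W ∩ f ⁻¹' (f '' W ∩ {p | (LinearMap.snd ℝ (Fin n → ℝ) ℝ).toAffineMap p = 0}) =
      W ∩ D := by
    ext y
    constructor
    · rintro ⟨hy, -, hy2⟩
      exact ⟨hy, (hDW y hy).2 hy2⟩
    · rintro ⟨hy, hy2⟩
      exact ⟨hy, mem_image_of_mem f hy, (hDW y hy).1 hy2⟩
  rw [hWD] at hP
  have hfx : f x = ((f x).1, 0) := Prod.ext rfl hx0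
  refine IntPt.of_nhds (F := Fin n → ℝ) (W := W ∩ D) (h := fun y => (f y).1)
    (by simp) inter_subset_right ⟨hxW, hmem.2⟩ ?_ ?_ ?_ ?_
  · exact Filter.inter_mem (nhdsWithin_mono x hD hW) self_mem_nhdsWithin
  · exact (hpl.mono hP inter_subset_left).affine_comp (LinearMap.fst ℝ (Fin n → ℝ) ℝ).toAffineMap
  · intro y hy y' hy' he
    refine hinj hy.1 hy'.1 (Prod.ext he ?_)
    rw [(hDW y hy.1).1 hy.2, (hDW y' hy'.1).1 hy'.2]
  · rw [hfx] at him
    refine Filter.mem_of_superset (MBG_nhds_mk him) ?_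
    rintro q ⟨y, hy, hyq⟩
    refine ⟨y, ⟨hy, (hDW y hy).2 (by rw [hyq])⟩, ?_⟩
    show (f y).1 = q
    rw [hyq]

theorem intpt_of_interior {n : ℕ} (hE : Module.finrank ℝ E = n) {X : Set E} {x : E}
    (hx : x ∈ interior X) : IntPt n X x := by
  obtain ⟨P, hP, hPX, hPx⟩ := MBD_small (isOpen_interior.mem_nhds hx)
  exact IntPt.of_nhds (F := E) (W := P) (h := fun y => y) hE (hPX.trans interior_subset)
    (mem_of_mem_nhds hPx) (mem_nhdsWithin_of_mem_nhds hPx) (PLOn.id hP) (fun _ _ _ _ h => h)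
    (by rwa [image_id'])

theorem isPoly_closedBall (k : ℕ) (r : ℝ) : IsPoly (Metric.closedBall (0 : Fin k → ℝ) r) := by
  rcases lt_or_ge r 0 with hr | hr
  · rw [Metric.closedBall_eq_empty.2 hr]
    exact IsPoly.empty
  · have h1 : Metric.closedBall (0 : Fin k → ℝ) r =
        {y : Fin k → ℝ | ∀ i, (fun _ => -r) i ≤ y i ∧ y i ≤ (fun _ => r) i} := by
      ext y
      rw [mem_closedBall_zero_iff, pi_norm_le_iff_of_nonneg hr]
      simp only [Real.norm_eq_abs, abs_le, mem_setOf_eq]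
    rw [h1]
    exact isPoly_box _ _

theorem MBG_sphere_mem {k : ℕ} (y : Fin k → ℝ) :
    y ∈ Metric.sphere (0 : Fin k → ℝ) 1 ↔ y ∈ Metric.closedBall (0 : Fin k → ℝ) 1 ∧
      ∃ i, |y i| = 1 := by
  rw [mem_sphere_zero_iff_norm, mem_closedBall_zero_iff]
  constructor
  · intro h
    refine ⟨h.le, ?_⟩
    by_contra hne
    push Not at hne
    have : ‖y‖ < 1 := by
      rw [pi_norm_lt_iff zero_lt_one]
      intro i
      have h1 := norm_le_pi_norm y i
      rw [h, Real.norm_eq_abs] at h1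
      rw [Real.norm_eq_abs]
      exact lt_of_le_of_ne h1 (hne i)
    rw [h] at this
    exact lt_irrefl _ this
  · rintro ⟨h1, i, hi⟩
    refine le_antisymm h1 ?_
    rw [← hi, ← Real.norm_eq_abs]
    exact norm_le_pi_norm y i

theorem isPoly_sphere (k : ℕ) : IsPoly (Metric.sphere (0 : Fin k → ℝ) 1) := by
  have hc : ∀ (i : Fin k) (c : ℝ), IsPoly (Metric.closedBall (0 : Fin k → ℝ) 1 ∩
      {y | ((LinearMap.proj (R := ℝ) (φ := fun _ : Fin k => ℝ) i).toAffineMap -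
        AffineMap.const ℝ (Fin k → ℝ) c) y = 0}) := fun i c =>
    (isPoly_closedBall k 1).inter_hyperplane _
  have h1 : Metric.sphere (0 : Fin k → ℝ) 1 = ⋃ p ∈ (univ : Set (Fin k × Bool)),
      (Metric.closedBall (0 : Fin k → ℝ) 1 ∩
      {y | ((LinearMap.proj (R := ℝ) (φ := fun _ : Fin k => ℝ) p.1).toAffineMap -
        AffineMap.const ℝ (Fin k → ℝ) (if p.2 then (1 : ℝ) else -1)) y = 0}) := by
    ext y
    rw [MBG_sphere_mem]
    simp only [mem_iUnion, mem_univ, exists_prop, true_and, mem_inter_iff, mem_setOf_eq]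
    constructor
    · rintro ⟨h1, i, hi⟩
      rcases (abs_eq zero_le_one).1 hi with h | h
      · exact ⟨(i, true), h1, by simp [h]⟩
      · exact ⟨(i, false), h1, by simp [h]⟩
    · rintro ⟨⟨i, b⟩, h1, h2⟩
      refine ⟨h1, i, ?_⟩
      cases b
      · have h3 : y i - (-1) = 0 := h2
        rw [sub_eq_zero] at h3
        rw [h3]; norm_num
      · have h3 : y i - 1 = 0 := h2
        rw [sub_eq_zero] at h3
        rw [h3]; norm_num
  rw [h1]
  exact IsPoly.biUnion finite_univ fun p _ => hc p.1 _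

theorem BdPt.glue {n : ℕ} {A B D : Set E} {x : E} (hA : BdPt n A D x) (hB : BdPt n B D x)
    (hD : A ∩ B = D) : IntPt (n + 1) (A ∪ B) x := by
  classical
  have hxA := hA.mem
  have hxB := hB.mem
  have hDA : D ⊆ A := by rw [← hD]; exact inter_subset_left
  have hDB : D ⊆ B := by rw [← hD]; exact inter_subset_right
  obtain ⟨WA, f, hWA, hxWA, hWAn, hfpl, hfi, hfpos, hfD, hfx, hfim⟩ := hA.data
  obtain ⟨WB, g, hWB, hxWB, hWBn, hgpl, hgi, hgpos, hgD, hgx, hgim⟩ := hB.data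
  have hfx' : f x = ((f x).1, 0) := Prod.ext rfl hfx
  have hgx' : g x = ((g x).1, 0) := Prod.ext rfl hgx
  -- a small polyhedral neighbourhood
  obtain ⟨VA, hVA, hVA'⟩ := mem_nhdsWithin_iff_exists_mem_nhds_inter.1 hWAn
  obtain ⟨VB, hVB, hVB'⟩ := mem_nhdsWithin_iff_exists_mem_nhds_inter.1 hWBn
  obtain ⟨P, hP, hPV, hPn⟩ := MBD_small (Filter.inter_mem hVA hVB)
  have hPA : ∀ y ∈ P, y ∈ A → y ∈ WA := fun y hy hyA => hVA' ⟨(hPV hy).1, hyA⟩
  have hPB : ∀ y ∈ P, y ∈ B → y ∈ WB := fun y hy hyB => hVB' ⟨(hPV hy).2, hyB⟩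
  -- the set Z = D ∩ P
  obtain ⟨Z, hZ⟩ : ∃ Z, Z = D ∩ P := ⟨_, rfl⟩
  have hZm : ∀ y, y ∈ Z ↔ y ∈ D ∧ y ∈ P := fun y => by rw [hZ]; rfl
  have hZA : Z ⊆ WA := fun y hy => hPA y ((hZm y).1 hy).2 (hDA ((hZm y).1 hy).1)
  have hZB : Z ⊆ WB := fun y hy => hPB y ((hZm y).1 hy).2 (hDB ((hZm y).1 hy).1)
  have hZP : IsPoly Z := by
    have h1 : IsPoly (WA ∩ f ⁻¹' (f '' WA ∩
        {p | (LinearMap.snd ℝ (Fin n → ℝ) ℝ).toAffineMap p = 0})) :=
      hfpl.preimage (hfpl.image.inter_hyperplane _)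
    have h2 : Z = WA ∩ f ⁻¹' (f '' WA ∩
        {p | (LinearMap.snd ℝ (Fin n → ℝ) ℝ).toAffineMap p = 0}) ∩ P := by
      ext y
      rw [hZm]
      constructor
      · rintro ⟨h3, h4⟩
        have h5 := hPA y h4 (hDA h3)
        exact ⟨⟨h5, mem_image_of_mem f h5, (hfD y h5).1 h3⟩, h4⟩
      · rintro ⟨⟨h3, -, h4⟩, h5⟩
        exact ⟨(hfD y h3).2 h4, h5⟩
    rw [h2]
    exact h1.inter hP
  have hfZ : ∀ y ∈ Z, (f y).2 = 0 := fun y hy => (hfD y (hZA hy)).1 ((hZm y).1 hy).1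
  have hgZ : ∀ y ∈ Z, (g y).2 = 0 := fun y hy => (hgD y (hZB hy)).1 ((hZm y).1 hy).1
  -- the projections on the boundary
  obtain ⟨g₁, hg₁⟩ : ∃ g₁ : E → Fin n → ℝ, g₁ = fun y => (g y).1 := ⟨_, rfl⟩
  obtain ⟨f₁, hf₁⟩ : ∃ f₁ : E → Fin n → ℝ, f₁ = fun y => (f y).1 := ⟨_, rfl⟩
  have hg₁v : ∀ y, g₁ y = (g y).1 := fun y => by rw [hg₁]
  have hf₁v : ∀ y, f₁ y = (f y).1 := fun y => by rw [hf₁]
  have hg₁Z : PLOn g₁ Z := by
    rw [hg₁]
    exact (hgpl.mono hZP hZB).affine_comp (LinearMap.fst ℝ (Fin n → ℝ) ℝ).toAffineMap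
  have hf₁Z : PLOn f₁ Z := by
    rw [hf₁]
    exact (hfpl.mono hZP hZA).affine_comp (LinearMap.fst ℝ (Fin n → ℝ) ℝ).toAffineMap
  have hg₁i : InjOn g₁ Z := fun y hy y' hy' he => by
    rw [hg₁v, hg₁v] at he
    exact hgi (hZB hy) (hZB hy') (Prod.ext he (by rw [hgZ y hy, hgZ y' hy']))
  have hf₁i : InjOn f₁ Z := fun y hy y' hy' he => by
    rw [hf₁v, hf₁v] at he
    exact hfi (hZA hy) (hZA hy') (Prod.ext he (by rw [hfZ y hy, hfZ y' hy']))
  obtain ⟨θ, hθ⟩ : ∃ θ : (Fin n → ℝ) → Fin n → ℝ,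
    θ = fun q => f₁ (Function.invFunOn g₁ Z q) := ⟨_, rfl⟩
  have hθv : ∀ y ∈ Z, θ (g₁ y) = f₁ y := fun y hy => by
    rw [hθ]
    show f₁ (Function.invFunOn g₁ Z (g₁ y)) = f₁ y
    rw [hg₁i.leftInvOn_invFunOn hy]
  have hθpl : PLOn θ (g₁ '' Z) := by
    rw [hθ]
    exact MBD_image_pl hg₁Z hg₁i (le_refl Z) hf₁Z
  -- the part of B
  obtain ⟨W2, hW2⟩ : ∃ W2, W2 = WB ∩ g₁ ⁻¹' (g₁ '' Z) := ⟨_, rfl⟩
  have hg₁pl : PLOn g₁ WB := by
    rw [hg₁]
    exact hgpl.affine_comp (LinearMap.fst ℝ (Fin n → ℝ) ℝ).toAffineMap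
  have hW2P : IsPoly W2 := by rw [hW2]; exact hg₁pl.preimage hg₁Z.image
  have hW2B : W2 ⊆ WB := by rw [hW2]; exact inter_subset_left
  have hW2m : ∀ y ∈ W2, g₁ y ∈ g₁ '' Z := fun y hy => by rw [hW2] at hy; exact hy.2
  have hW2D : ∀ y ∈ W2, (g y).2 = 0 → y ∈ Z := by
    intro y hy hy0
    obtain ⟨z, hz, hzy⟩ := hW2m y hy
    have h1 : z = y := hgi (hZB hz) (hW2B hy) (Prod.ext (by rw [← hg₁v, ← hg₁v, hzy])
      (by rw [hgZ z hz, hy0]))
    rw [← h1]; exact hz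
  obtain ⟨h, hh⟩ : ∃ h : E → (Fin n → ℝ) × ℝ, h = fun y =>
    if y ∈ WA then f y else (θ (g₁ y), (-1 : ℝ) • (g y).2) := ⟨_, rfl⟩
  have hhA : ∀ y ∈ WA, h y = f y := fun y hy => by rw [hh]; exact if_pos hy
  have hhB : ∀ y ∈ W2, h y = (θ (g₁ y), (-1 : ℝ) • (g y).2) := by
    intro y hy
    by_cases hyA : y ∈ WA
    · rw [hhA y hyA]
      have hyD : y ∈ D := by rw [← hD]; exact ⟨hWA hyA, hWB (hW2B hy)⟩
      have h0 := (hgD y (hW2B hy)).1 hyD
      have hyZ := hW2D y hy h0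
      rw [hθv y hyZ, h0, smul_zero, hf₁v]
      exact Prod.ext rfl (hfZ y hyZ)
    · rw [hh]; exact if_neg hyA
  have hθi : InjOn θ (g₁ '' Z) := by
    rintro _ ⟨y, hy, rfl⟩ _ ⟨y', hy', rfl⟩ he
    rw [hθv y hy, hθv y' hy'] at he
    rw [hf₁i hy hy' he]
  have hpl : PLOn h (WA ∪ W2) := by
    refine PLOn.union (hfpl.congr fun y hy => (hhA y hy).symm) ?_
    refine PLOn.congr (f := fun y => (θ (g₁ y), (-1 : ℝ) • (g y).2)) ?_
      (fun y hy => (hhB y hy).symm)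
    refine PLOn.prodMk ?_ ?_
    · exact hθpl.comp (hg₁pl.mono hW2P hW2B) hW2m
    · exact ((hgpl.mono hW2P hW2B).affine_comp
        (LinearMap.snd ℝ (Fin n → ℝ) ℝ).toAffineMap).const_smul (-1)
  have hcross : ∀ y ∈ WA, ∀ y' ∈ W2, h y = h y' → y = y' := by
    intro y hy y' hy' he
    rw [hhA y hy, hhB y' hy'] at he
    have h1 : (f y).1 = θ (g₁ y') := congrArg Prod.fst he
    have h2 : (f y).2 = (-1 : ℝ) • (g y').2 := congrArg Prod.snd he
    have h3 := hfpos y hy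
    have h4 := hgpos y' (hW2B hy')
    rw [smul_eq_mul] at h2
    have h5 : (f y).2 = 0 := by linarith
    have h6 : (g y').2 = 0 := by linarith
    have h7 := hW2D y' hy' h6
    rw [hθv y' h7, hf₁v] at h1
    exact hfi hy (hZA h7) (Prod.ext h1 (by rw [h5, hfZ y' h7]))
  have hinj : InjOn h (WA ∪ W2) := by
    rintro y (hy | hy) y' (hy' | hy') he
    · rw [hhA y hy, hhA y' hy'] at he
      exact hfi hy hy' he
    · exact hcross y hy y' hy' he
    · exact (hcross y' hy' y hy he.symm).symm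
    · rw [hhB y hy, hhB y' hy'] at he
      have h1 : θ (g₁ y) = θ (g₁ y') := congrArg Prod.fst he
      have h2 : (-1 : ℝ) • (g y).2 = (-1 : ℝ) • (g y').2 := congrArg Prod.snd he
      have h3 := hθi (hW2m y hy) (hW2m y' hy') h1
      rw [smul_eq_mul, smul_eq_mul] at h2
      refine hgi (hW2B hy) (hW2B hy') (Prod.ext ?_ (by linarith))
      rw [← hg₁v, ← hg₁v, h3]
  -- neighbourhoods
  have hZg : g₁ '' Z ∈ 𝓝 (g₁ x) := by
    have h1 : g '' (WB ∩ P) ∈ 𝓝[{p : (Fin n → ℝ) × ℝ | 0 ≤ p.2}] (g x) :=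
      MBD_inj_nhds hgpl.domain.isCompact hgpl.continuousOn hgi hxWB hPn hgim
    rw [hgx'] at h1
    have h2 := MBG_nhds_mk h1
    rw [hg₁v]
    refine Filter.mem_of_superset h2 ?_
    rintro q ⟨y, ⟨hy, hyP⟩, hyq⟩
    have h3 : y ∈ D := (hgD y hy).2 (by rw [hyq])
    exact ⟨y, (hZm y).2 ⟨h3, hyP⟩, by rw [hg₁v, hyq]⟩
  have hxW : x ∈ WA ∪ W2 := Or.inl hxWA
  have hWn : WA ∪ W2 ∈ 𝓝[A ∪ B] x := by
    rw [nhdsWithin_union]
    refine Filter.mem_sup.2 ⟨Filter.mem_of_superset hWAn subset_union_left, ?_⟩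
    have h1 : ContinuousWithinAt g₁ WB x := hg₁pl.continuousOn x hxWB
    have h2 : g₁ ⁻¹' (g₁ '' Z) ∈ 𝓝[WB] x := h1 hZg
    obtain ⟨O, hO, hO'⟩ := mem_nhdsWithin_iff_exists_mem_nhds_inter.1 h2
    refine Filter.mem_of_superset (Filter.inter_mem hWBn (mem_nhdsWithin_of_mem_nhds hO)) ?_
    rintro y ⟨hy, hyO⟩
    right
    rw [hW2]
    exact ⟨hy, hO' ⟨hyO, hy⟩⟩
  refine IntPt.of_nhds (F := (Fin n → ℝ) × ℝ) (W := WA ∪ W2) (h := h) ?_ ?_ hxW hWn hpl hinj ?_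
  · rw [Module.finrank_prod]
    simp
  · exact union_subset_union hWA (hW2B.trans hWB)
  · rw [hhA x hxWA]
    -- product neighbourhood in g '' WB
    have hgim' := hgim
    rw [hgx'] at hgim'
    obtain ⟨O, hO, hO'⟩ := mem_nhdsWithin_iff_exists_mem_nhds_inter.1 hgim'
    rw [nhds_prod_eq, Filter.mem_prod_iff] at hO
    obtain ⟨O₁, hO₁, O₂, hO₂, hOO⟩ := hO
    have h1 : ContinuousWithinAt g₁ WB x := hg₁pl.continuousOn x hxWB
    have h2 : g₁ ⁻¹' O₁ ∈ 𝓝[WB] x := by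
      apply h1
      rw [hg₁v]
      exact hO₁
    obtain ⟨V, hV, hV'⟩ := mem_nhdsWithin_iff_exists_mem_nhds_inter.1 h2
    have h3 : f '' (WA ∩ (P ∩ V)) ∈ 𝓝[{p : (Fin n → ℝ) × ℝ | 0 ≤ p.2}] (f x) :=
      MBD_inj_nhds hfpl.domain.isCompact hfpl.continuousOn hfi hxWA (Filter.inter_mem hPn hV) hfim
    rw [hfx'] at h3
    have h4 := MBG_nhds_mk h3
    have hfim' := hfim
    rw [hfx'] at hfim'
    obtain ⟨U, hU, hU'⟩ := mem_nhdsWithin_iff_exists_mem_nhds_inter.1 hfim'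
    rw [hfx']
    have h5 : {p : (Fin n → ℝ) × ℝ | p ∈ U ∧ p.1 ∈ {q | (q, (0 : ℝ)) ∈ f '' (WA ∩ (P ∩ V))} ∧
        -p.2 ∈ O₂} ∈ 𝓝 (((f x).1, 0) : (Fin n → ℝ) × ℝ) := by
      refine Filter.inter_mem hU (Filter.inter_mem ?_ ?_)
      · exact (continuous_fst.tendsto (((f x).1, (0 : ℝ)) : (Fin n → ℝ) × ℝ)) h4
      · have : ContinuousAt (fun p : (Fin n → ℝ) × ℝ => -p.2) (((f x).1, 0)) := by fun_prop
        refine this.preimage_mem_nhds ?_
        show O₂ ∈ 𝓝 (-(0 : ℝ))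
        rw [neg_zero]
        exact hO₂
    refine Filter.mem_of_superset h5 ?_
    rintro p ⟨hp1, hp2, hp3⟩
    rcases le_total 0 p.2 with hp | hp
    · obtain ⟨y, hy, hyp⟩ := hU' ⟨hp1, hp⟩
      exact ⟨y, Or.inl hy, by rw [hhA y hy, hyp]⟩
    · obtain ⟨y₁, ⟨hy₁, hy₁P, hy₁V⟩, hy₁p⟩ := hp2
      have hy₁D : y₁ ∈ D := (hfD y₁ hy₁).2 (by rw [hy₁p])
      have hy₁Z : y₁ ∈ Z := (hZm y₁).2 ⟨hy₁D, hy₁P⟩
      have h6 : g₁ y₁ ∈ O₁ := hV' ⟨hy₁V, hZB hy₁Z⟩
      have h7 : (g₁ y₁, -p.2) ∈ g '' WB := hO' ⟨hOO ⟨h6, hp3⟩, by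
        show 0 ≤ -p.2
        linarith⟩
      obtain ⟨y, hy, hyp⟩ := h7
      have h8 : g₁ y = g₁ y₁ := by rw [hg₁v, hyp]
      have hy2 : y ∈ W2 := by
        rw [hW2]
        refine ⟨hy, ?_⟩
        show g₁ y ∈ g₁ '' Z
        rw [h8]
        exact mem_image_of_mem g₁ hy₁Z
      refine ⟨y, Or.inr hy2, ?_⟩
      rw [hhB y hy2, h8, hθv y₁ hy₁Z, hf₁v, hy₁p, hyp]
      refine Prod.ext rfl ?_
      show (-1 : ℝ) • (-p.2) = p.2
      rw [smul_eq_mul]
      ring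

theorem MBG_attain {k : ℕ} (z : Fin (k + 1) → ℝ) : ∃ i, |z i| = ‖z‖ := by
  obtain ⟨i, hi⟩ := Finite.exists_max (fun i => |z i|)
  refine ⟨i, le_antisymm ?_ ?_⟩
  · rw [← Real.norm_eq_abs]
    exact norm_le_pi_norm z i
  · rw [pi_norm_le_iff_of_nonneg (abs_nonneg _)]
    intro j
    rw [Real.norm_eq_abs]
    exact hi j

theorem MBG_norm_pl {k : ℕ} {X : Set (Fin (k + 1) → ℝ)} (hX : IsPoly X) :
    PLOn (fun z : Fin (k + 1) → ℝ => ‖z‖) X := by
  have h1 : PLOn (fun z : Fin (k + 1) → ℝ =>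
      Finset.univ.sup' ⟨0, Finset.mem_univ 0⟩ (fun i => max (z i) ((-1 : ℝ) • z i))) X :=
    PLOn.sup' Finset.univ ⟨0, Finset.mem_univ 0⟩ fun i _ =>
      ((PLOn.id hX).apply i).max (((PLOn.id hX).apply i).const_smul (-1))
  refine h1.congr fun z _ => ?_
  have habs : ∀ i, max (z i) ((-1 : ℝ) • z i) = |z i| := fun i => by
    rw [smul_eq_mul, neg_one_mul]
    rfl
  show Finset.univ.sup' _ (fun i => max (z i) ((-1 : ℝ) • z i)) = ‖z‖
  simp only [habs]
  obtain ⟨i, hi⟩ := MBG_attain z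
  refine le_antisymm (Finset.sup'_le _ _ fun j _ => ?_) ?_
  · rw [← Real.norm_eq_abs]
    exact norm_le_pi_norm z j
  · rw [← hi]
    exact Finset.le_sup' (fun i => |z i|) (Finset.mem_univ i)

/-- The ball (`e = -1`) and the shell (`e = 1`) near a boundary point. -/
theorem MBG_bd (k : ℕ) {x : Fin (k + 1) → ℝ} (hx : ‖x‖ = 1) (e : ℝ) (he : e * e = 1)
    (S : Set (Fin (k + 1) → ℝ)) (hSp : IsPoly S)
    (hSm : ∀ z, ‖z‖ ≤ 2 → (z ∈ S ↔ 0 ≤ e * (‖z‖ - 1))) :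
    BdPt k S (Metric.sphere 0 1) x := by
  classical
  have he1 : |e| = 1 := by
    have h1 : |e| * |e| = 1 := by rw [← abs_mul, he, abs_one]
    have h2 := abs_nonneg e
    nlinarith
  have hx1 : ∀ i, |x i| ≤ 1 := fun i => by
    rw [← hx, ← Real.norm_eq_abs]
    exact norm_le_pi_norm x i
  obtain ⟨i₀, hi₀'⟩ := MBG_attain x
  have hi₀ : |x i₀| = 1 := by rw [hi₀', hx]
  have hsq : ∀ i, |x i| = 1 → x i * x i = 1 := by
    intro i hi
    rw [← abs_mul_abs_self, hi, one_mul]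
  obtain ⟨η, hη0, hη1, hη⟩ : ∃ η : ℝ, 0 < η ∧ η < 1 / 2 ∧ ∀ i, |x i| ≠ 1 → |x i| + 2 * η < 1 := by
    have h1 : ∀ᶠ η in 𝓝[>] (0 : ℝ), η < 1 / 2 :=
      mem_nhdsWithin_of_mem_nhds (Iio_mem_nhds (by norm_num))
    have h2 : ∀ᶠ η in 𝓝[>] (0 : ℝ), ∀ i, |x i| ≠ 1 → |x i| + 2 * η < 1 := by
      rw [Filter.eventually_all]
      intro i
      by_cases hi : |x i| = 1
      · exact Filter.Eventually.of_forall fun η h => absurd hi h
      · have hlt : |x i| < 1 := lt_of_le_of_ne (hx1 i) hi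
        have h3 : ∀ᶠ η in 𝓝[>] (0 : ℝ), η < (1 - |x i|) / 2 :=
          mem_nhdsWithin_of_mem_nhds (Iio_mem_nhds (by linarith))
        filter_upwards [h3] with η h4 _
        linarith
    have h3 : ∀ᶠ η in 𝓝[>] (0 : ℝ), 0 < η := self_mem_nhdsWithin
    obtain ⟨η, h4, h5, h6⟩ := (h3.and (h1.and h2)).exists
    exact ⟨η, h4, h5, h6⟩
  obtain ⟨W, hW⟩ : ∃ W, W = S ∩ {y : Fin (k + 1) → ℝ | ∀ i, x i - η ≤ y i ∧ y i ≤ x i + η} :=
    ⟨_, rfl⟩
  have hWp : IsPoly W := by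
    rw [hW]; exact hSp.inter (isPoly_box (fun i => x i - η) (fun i => x i + η))
  have hWm : ∀ y, y ∈ W ↔ y ∈ S ∧ ∀ i, |y i - x i| ≤ η := by
    intro y
    rw [hW]
    show (y ∈ S ∧ ∀ i, x i - η ≤ y i ∧ y i ≤ x i + η) ↔ _
    refine and_congr_right fun _ => forall_congr' fun i => ?_
    rw [abs_le]
    constructor
    · rintro ⟨h1, h2⟩; constructor <;> linarith
    · rintro ⟨h1, h2⟩; constructor <;> linarith
  -- norms in the box
  have hbox2 : ∀ y : Fin (k + 1) → ℝ, (∀ i, |y i - x i| ≤ η) → ‖y‖ ≤ 2 := by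
    intro y hy
    rw [pi_norm_le_iff_of_nonneg (by norm_num)]
    intro i
    rw [Real.norm_eq_abs]
    have h1 := abs_add_le (x i) (y i - x i)
    have h2 : x i + (y i - x i) = y i := by ring
    rw [h2] at h1
    have h3 := hx1 i
    have h4 := hy i
    linarith
  have hle : ∀ y : Fin (k + 1) → ℝ, ∀ i, |x i| = 1 → x i * y i ≤ ‖y‖ := by
    intro y i hi
    have h1 : |x i * y i| ≤ ‖y‖ := by
      rw [abs_mul, hi, one_mul, ← Real.norm_eq_abs]
      exact norm_le_pi_norm y i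
    exact (abs_le.1 h1).2
  have hlow : ∀ y : Fin (k + 1) → ℝ, (∀ i, |y i - x i| ≤ η) → ∀ i, |x i| = 1 →
      1 - η ≤ x i * y i := by
    intro y hy i hi
    have h3 : |x i * (y i - x i)| ≤ η := by rw [abs_mul, hi, one_mul]; exact hy i
    have h4 := (abs_le.1 h3).1
    have h5 : x i * (y i - x i) = x i * y i - x i * x i := by ring
    rw [h5, hsq i hi] at h4
    linarith
  have hat : ∀ y : Fin (k + 1) → ℝ, (∀ i, |y i - x i| ≤ η) →
      ∃ i, |x i| = 1 ∧ x i * y i = ‖y‖ := by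
    intro y hy
    obtain ⟨i, hi⟩ := MBG_attain y
    have h0 := hle y i₀ hi₀
    have h00 := hlow y hy i₀ hi₀
    have hxi : |x i| = 1 := by
      by_contra hne
      have h1 := hη i hne
      have h2 : |y i| ≤ |x i| + |y i - x i| := by
        have h4 := abs_add_le (x i) (y i - x i)
        have h5 : x i + (y i - x i) = y i := by ring
        rwa [h5] at h4
      have h3 := hy i
      rw [hi] at h2
      linarith
    refine ⟨i, hxi, ?_⟩
    have h1 : |x i * y i| = ‖y‖ := by rw [abs_mul, hxi, hi, one_mul]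
    have h2 := hlow y hy i hxi
    rwa [abs_of_nonneg (by linarith)] at h1
  have hxS : x ∈ S := (hSm x (by rw [hx]; norm_num)).2 (by rw [hx]; norm_num)
  have hWS : W ⊆ S := fun y hy => ((hWm y).1 hy).1
  have hxW : x ∈ W := (hWm x).2 ⟨hxS, fun i => by rw [sub_self, abs_zero]; exact hη0.le⟩
  have hWn : W ∈ 𝓝[S] x := by
    have h1 : Metric.closedBall x η ∈ 𝓝[S] x :=
      mem_nhdsWithin_of_mem_nhds (Metric.closedBall_mem_nhds x hη0)
    refine Filter.mem_of_superset (Filter.inter_mem self_mem_nhdsWithin h1) ?_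
    rintro y ⟨hy, hy2⟩
    rw [hWm]
    refine ⟨hy, fun i => ?_⟩
    have h3 := (dist_pi_le_iff hη0.le).1 (Metric.mem_closedBall.1 hy2) i
    rwa [Real.dist_eq] at h3
  -- the chart
  obtain ⟨h, hh⟩ : ∃ h : (Fin (k + 1) → ℝ) → Fin k → ℝ, h = fun y l =>
      if |x (i₀.succAbove l)| = 1 then
        x (i₀.succAbove l) * y (i₀.succAbove l) - x i₀ * y i₀
      else y (i₀.succAbove l) - x (i₀.succAbove l) := ⟨_, rfl⟩
  have hhT : ∀ y l, |x (i₀.succAbove l)| = 1 →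
      h y l = x (i₀.succAbove l) * y (i₀.succAbove l) - x i₀ * y i₀ := by
    intro y l hl
    rw [hh]
    exact if_pos hl
  have hhN : ∀ y l, |x (i₀.succAbove l)| ≠ 1 →
      h y l = y (i₀.succAbove l) - x (i₀.succAbove l) := by
    intro y l hl
    rw [hh]
    exact if_neg hl
  have hhx : h x = 0 := by
    funext l
    show h x l = 0
    by_cases hl : |x (i₀.succAbove l)| = 1
    · rw [hhT x l hl, hsq _ hl, hsq _ hi₀, sub_self]
    · rw [hhN x l hl, sub_self]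
  have hPL : PLOn h W := by
    refine PLOn.pi hWp fun l => ?_
    by_cases hl : |x (i₀.succAbove l)| = 1
    · have h1 := ((((PLOn.id hWp).apply (i₀.succAbove l)).const_smul (x (i₀.succAbove l))).add
        (((PLOn.id hWp).apply i₀).const_smul (-(x i₀))))
      refine h1.congr fun y _ => ?_
      show x (i₀.succAbove l) • y (i₀.succAbove l) + (-(x i₀)) • y i₀ = h y l
      rw [hhT y l hl, smul_eq_mul, smul_eq_mul]
      ring
    · have h1 := ((PLOn.id hWp).apply (i₀.succAbove l)).add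
        (PLOn.const hWp (-(x (i₀.succAbove l))))
      refine h1.congr fun y _ => ?_
      show y (i₀.succAbove l) + (-(x (i₀.succAbove l))) = h y l
      rw [hhN y l hl]
      ring
  have hPL2 : PLOn (fun y : Fin (k + 1) → ℝ => (h y, e * (‖y‖ - 1))) W := by
    refine hPL.prodMk ?_
    have h1 := ((MBG_norm_pl hWp).add (PLOn.const hWp (-1 : ℝ))).const_smul e
    refine h1.congr fun y _ => ?_
    show e • (‖y‖ + -1) = e * (‖y‖ - 1)
    rw [smul_eq_mul]
    ring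
  have hcancel : ∀ i a b, |x i| = 1 → x i * a = x i * b → a = b := by
    intro i a b hi h1
    have hne : x i ≠ 0 := by
      intro h0
      rw [h0, abs_zero] at hi
      exact zero_ne_one hi
    exact mul_left_cancel₀ hne h1
  have hinj : InjOn (fun y : Fin (k + 1) → ℝ => (h y, e * (‖y‖ - 1))) W := by
    have key : ∀ y ∈ W, ∀ y' ∈ W, h y = h y' → ‖y‖ = ‖y'‖ →
        0 ≤ x i₀ * y i₀ - x i₀ * y' i₀ := by
      intro y hy y' hy' he hn
      obtain ⟨j, hj, hj1⟩ := hat y ((hWm y).1 hy).2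
      have h1 : x j * y j - x i₀ * y i₀ = x j * y' j - x i₀ * y' i₀ := by
        by_cases hji : j = i₀
        · rw [hji]; ring
        · obtain ⟨l, rfl⟩ := Fin.exists_succAbove_eq hji
          have := congrFun he l
          rwa [hhT y l hj, hhT y' l hj] at this
      have h2 := hle y' j hj
      linarith
    intro y hy y' hy' heq
    have hh1 : h y = h y' := congrArg Prod.fst heq
    have hn1 : e * (‖y‖ - 1) = e * (‖y'‖ - 1) := congrArg Prod.snd heq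
    have hne : e ≠ 0 := by
      intro h0
      rw [h0] at he
      simp at he
    have hn : ‖y‖ = ‖y'‖ := by
      have := mul_left_cancel₀ hne hn1
      linarith
    have hc : x i₀ * y i₀ = x i₀ * y' i₀ := by
      have h1 := key y hy y' hy' hh1 hn
      have h2 := key y' hy' y hy hh1.symm hn.symm
      linarith
    ext i
    by_cases hii : i = i₀
    · rw [hii]
      exact hcancel i₀ _ _ hi₀ hc
    · obtain ⟨l, rfl⟩ := Fin.exists_succAbove_eq hii
      have h1 := congrFun hh1 l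
      by_cases hl : |x (i₀.succAbove l)| = 1
      · rw [hhT y l hl, hhT y' l hl] at h1
        exact hcancel _ _ _ hl (by linarith)
      · rw [hhN y l hl, hhN y' l hl] at h1
        linarith
  refine BdPt.of_nhds (F := Fin k → ℝ) (W := W) (h := fun y => (h y, e * (‖y‖ - 1))) (by simp)
    hWS hxW hWn hPL2 hinj ?_ ?_ ?_ ?_
  · intro y hy
    have h1 := (hWm y).1 hy
    exact (hSm y (hbox2 y h1.2)).1 h1.1
  · intro y hy
    rw [mem_sphere_zero_iff_norm]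
    show ‖y‖ = 1 ↔ e * (‖y‖ - 1) = 0
    constructor
    · intro h1
      rw [h1, sub_self, mul_zero]
    · intro h1
      rcases mul_eq_zero.1 h1 with h2 | h2
      · rw [h2] at he
        simp at he
      · linarith
  · show e * (‖x‖ - 1) = 0
    rw [hx, sub_self, mul_zero]
  · have hpt : (h x, e * (‖x‖ - 1)) = ((0 : Fin k → ℝ), (0 : ℝ)) := by
      rw [hhx, hx, sub_self, mul_zero]
    show _ ∈ 𝓝[_] ((h x, e * (‖x‖ - 1)) : (Fin k → ℝ) × ℝ)
    rw [hpt]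
    have hball : Metric.closedBall ((0 : Fin k → ℝ), (0 : ℝ)) (η / 4) ∈
        𝓝[{p : (Fin k → ℝ) × ℝ | 0 ≤ p.2}] ((0 : Fin k → ℝ), (0 : ℝ)) :=
      mem_nhdsWithin_of_mem_nhds (Metric.closedBall_mem_nhds _ (by linarith))
    refine Filter.mem_of_superset (Filter.inter_mem hball self_mem_nhdsWithin) ?_
    rintro ⟨z, r⟩ ⟨hzr, hr0⟩
    have hr0' : 0 ≤ r := hr0
    have hzr' : ‖z‖ ≤ η / 4 ∧ ‖r‖ ≤ η / 4 := by
      have h1 := Metric.mem_closedBall.1 hzr
      rw [Prod.dist_eq, max_le_iff] at h1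
      simpa using h1
    have hr1 : r ≤ η / 4 := by
      have := hzr'.2
      rw [Real.norm_eq_abs] at this
      exact (abs_le.1 this).2
    have hz' : ∀ l, |z l| ≤ η / 4 := by
      intro l
      rw [← Real.norm_eq_abs]
      exact (norm_le_pi_norm z l).trans hzr'.1
    have her : |e * r| ≤ η / 4 := by
      rw [abs_mul, he1, one_mul, abs_of_nonneg hr0']
      exact hr1
    obtain ⟨w, hw⟩ : ∃ w : Fin (k + 1) → ℝ, w = Fin.insertNth (α := fun _ => ℝ) i₀ 0 z := ⟨_, rfl⟩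
    have hw0 : w i₀ = 0 := by rw [hw]; exact Fin.insertNth_apply_same _ _ _
    have hwk : ∀ l, w (i₀.succAbove l) = z l := by
      intro l; rw [hw]; exact Fin.insertNth_apply_succAbove _ _ _ _
    have hwb : ∀ i, |w i| ≤ η / 4 := by
      intro i
      by_cases hi : i = i₀
      · rw [hi, hw0, abs_zero]; linarith
      · obtain ⟨l, rfl⟩ := Fin.exists_succAbove_eq hi
        rw [hwk]; exact hz' l
    obtain ⟨j, hj, hjmax⟩ := Finset.exists_max_image
      (Finset.univ.filter fun i => |x i| = 1) w ⟨i₀, Finset.mem_filter.2 ⟨Finset.mem_univ _, hi₀⟩⟩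
    have hj1 : |x j| = 1 := (Finset.mem_filter.1 hj).2
    have hjm : ∀ i, |x i| = 1 → w i ≤ w j := fun i hi =>
      hjmax i (Finset.mem_filter.2 ⟨Finset.mem_univ _, hi⟩)
    obtain ⟨y, hy⟩ : ∃ y : Fin (k + 1) → ℝ, y = fun i =>
      if |x i| = 1 then x i * (1 + e * r + w i - w j) else x i + w i := ⟨_, rfl⟩
    have hyT : ∀ i, |x i| = 1 → y i = x i * (1 + e * r + w i - w j) := by
      intro i hi; rw [hy]; exact if_pos hi
    have hyN : ∀ i, |x i| ≠ 1 → y i = x i + w i := by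
      intro i hi; rw [hy]; exact if_neg hi
    have h1 := abs_le.1 her
    have hybox : ∀ i, |y i - x i| ≤ η := by
      intro i
      by_cases hi : |x i| = 1
      · have h4 : y i - x i = x i * (e * r + w i - w j) := by rw [hyT i hi]; ring
        rw [h4, abs_mul, hi, one_mul, abs_le]
        have h2 := abs_le.1 (hwb i)
        have h3 := abs_le.1 (hwb j)
        constructor <;> linarith
      · rw [hyN i hi, add_sub_cancel_left]
        have h2 := hwb i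
        linarith
    have hxy : ∀ i, |x i| = 1 → x i * y i = 1 + e * r + w i - w j := by
      intro i hi
      rw [hyT i hi, ← mul_assoc, hsq i hi, one_mul]
    have hnorm : ‖y‖ = 1 + e * r := by
      obtain ⟨i, hi, hi2⟩ := hat y hybox
      refine le_antisymm ?_ ?_
      · rw [← hi2, hxy i hi]
        have := hjm i hi
        linarith
      · have := hle y j hj1
        rw [hxy j hj1] at this
        linarith
    refine ⟨y, (hWm y).2 ⟨(hSm y (hbox2 y hybox)).2 ?_, hybox⟩, ?_⟩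
    · rw [hnorm]
      have h5 : e * (1 + e * r - 1) = (e * e) * r := by ring
      rw [h5, he, one_mul]
      exact hr0'
    · refine Prod.ext ?_ ?_
      · funext l
        show h y l = z l
        by_cases hl : |x (i₀.succAbove l)| = 1
        · rw [hhT y l hl, hxy _ hl, hxy _ hi₀, hwk, hw0]
          ring
        · rw [hhN y l hl, hyN _ hl, hwk]
          ring
      · show e * (‖y‖ - 1) = r
        rw [hnorm]
        have h5 : e * (1 + e * r - 1) = (e * e) * r := by ring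
        rw [h5, he, one_mul]

theorem bdpt_ball (k : ℕ) {y : Fin (k + 1) → ℝ} (hy : ‖y‖ = 1) :
    BdPt k (Metric.closedBall (0 : Fin (k + 1) → ℝ) 1) (Metric.sphere 0 1) y := by
  refine MBG_bd k hy (-1) (by norm_num) _ (isPoly_closedBall _ 1) fun z _ => ?_
  rw [mem_closedBall_zero_iff]
  constructor <;> intro h <;> linarith

theorem MBG_shell_poly (k : ℕ) : IsPoly {z : Fin (k + 1) → ℝ | 1 ≤ ‖z‖ ∧ ‖z‖ ≤ 2} := by
  have h1 : PLOn (fun z : Fin (k + 1) → ℝ => ‖z‖) (Metric.closedBall 0 2) :=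
    MBG_norm_pl (isPoly_closedBall _ 2)
  have h2 := h1.preimage (IsPoly.segment (1 : ℝ) 2)
  rw [segment_eq_Icc (by norm_num)] at h2
  have h3 : {z : Fin (k + 1) → ℝ | 1 ≤ ‖z‖ ∧ ‖z‖ ≤ 2} =
      Metric.closedBall 0 2 ∩ (fun z : Fin (k + 1) → ℝ => ‖z‖) ⁻¹' Icc 1 2 := by
    ext z
    constructor
    · rintro ⟨h4, h5⟩
      exact ⟨mem_closedBall_zero_iff.2 h5, h4, h5⟩
    · rintro ⟨-, h4, h5⟩
      exact ⟨h4, h5⟩
  rw [h3]
  exact h2

theorem bdpt_shell (k : ℕ) {y : Fin (k + 1) → ℝ} (hy : ‖y‖ = 1) :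
    BdPt k {z : Fin (k + 1) → ℝ | 1 ≤ ‖z‖ ∧ ‖z‖ ≤ 2} (Metric.sphere 0 1) y := by
  refine MBG_bd k hy 1 (by norm_num) _ (MBG_shell_poly k) fun z hz => ?_
  constructor
  · rintro ⟨h1, -⟩
    linarith
  · intro h1
    exact ⟨by linarith, hz⟩

end Pool.H54.UB
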