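import Pool.Agent.H54.UB.WND

/-!
# Row TOR: linear automorphisms of the torus `gam × gam`

`T (z, z') = (wnd (a θ + b θ'), wnd (c θ + d θ'))` with `θ = ang z`, `θ' = ang z'`.
* `T (wnd s, wnd t) = (wnd (a s + b t), wnd (c s + d t))` by `ang_wnd`, `wnd_per` (integers `a b c d`).
* PL: the graph over `gam × gam` is the image of `[0,8]^2` under the PL map
  `(s, t) ↦ ((wnd s, wnd t), (wnd (a s + b t), wnd (c s + d t)))` (`PLOn.comp` of `wnd_pl` on a large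
  interval with an affine map, `PLOn.prodMk`).
* bijective with inverse the map of the inverse matrix `[d, -b; -c, a]`.
-/

open Set Topology

namespace Pool.H54.UB

theorem TOR_form (a b : ℝ) : ∃ L : ℝ × ℝ →ᵃ[ℝ] ℝ, ∀ p, L p = a * p.1 + b * p.2 :=
  ⟨(a • LinearMap.fst ℝ ℝ ℝ + b • LinearMap.snd ℝ ℝ ℝ).toAffineMap, fun _ => rfl⟩

theorem TOR_pl (a b : ℝ) : PLOn (fun p : ℝ × ℝ => wnd (a * p.1 + b * p.2))
    (Icc (0 : ℝ) 8 ×ˢ Icc (0 : ℝ) 8) := by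
  obtain ⟨L, hL⟩ := TOR_form a b
  have h1 : PLOn L (Icc (0 : ℝ) 8 ×ˢ Icc (0 : ℝ) 8) :=
    PLOn.affine L ((isPoly_Icc 0 8).prod (isPoly_Icc 0 8))
  have h2 : MapsTo L (Icc (0 : ℝ) 8 ×ˢ Icc (0 : ℝ) 8)
      (Icc (-(8 * (|a| + |b|))) (8 * (|a| + |b|))) := by
    rintro ⟨s, t⟩ ⟨hs, ht⟩
    change s ∈ Icc (0 : ℝ) 8 at hs
    change t ∈ Icc (0 : ℝ) 8 at ht
    rw [hL]
    have h3 : |a * s| ≤ 8 * |a| := by
      rw [abs_mul, abs_of_nonneg hs.1]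
      nlinarith [abs_nonneg a, hs.2]
    have h4 : |b * t| ≤ 8 * |b| := by
      rw [abs_mul, abs_of_nonneg ht.1]
      nlinarith [abs_nonneg b, ht.2]
    have h5 := abs_le.1 h3
    have h6 := abs_le.1 h4
    constructor
    · show -(8 * (|a| + |b|)) ≤ a * s + b * t
      linarith [h5.1, h6.1]
    · show a * s + b * t ≤ 8 * (|a| + |b|)
      linarith [h5.2, h6.2]
  refine ((wnd_pl _ _).comp h1 h2).congr fun p _ => ?_
  show wnd (L p) = _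
  rw [hL]

theorem torus_map (a b c d : ℤ) :
    ∃ T : V2 × V2 → V2 × V2, PLOn T (gam ×ˢ gam) ∧
      ∀ s t : ℝ, T (wnd s, wnd t) = (wnd (a * s + b * t), wnd (c * s + d * t)) := by
  obtain ⟨T, hT⟩ : ∃ T : V2 × V2 → V2 × V2, ∀ z z', T (z, z') =
      (wnd (a * ang z + b * ang z'), wnd (c * ang z + d * ang z')) :=
    ⟨fun p => (wnd (a * ang p.1 + b * ang p.2), wnd (c * ang p.1 + d * ang p.2)),
      fun _ _ => rfl⟩
  have h2 : ∀ s t : ℝ, T (wnd s, wnd t) = (wnd (a * s + b * t), wnd (c * s + d * t)) := by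
    intro s t
    obtain ⟨k, hk⟩ := ang_wnd s
    obtain ⟨l, hl⟩ := ang_wnd t
    rw [hT, hk, hl]
    have e1 : (a : ℝ) * (s + 8 * k) + b * (t + 8 * l) =
        (a * s + b * t) + 8 * ((a * k + b * l : ℤ) : ℝ) := by
      push_cast
      ring
    have e2 : (c : ℝ) * (s + 8 * k) + d * (t + 8 * l) =
        (c * s + d * t) + 8 * ((c * k + d * l : ℤ) : ℝ) := by
      push_cast
      ring
    rw [e1, e2, wnd_per, wnd_per]
  refine ⟨T, ?_, h2⟩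
  have hG : PLOn (fun p : ℝ × ℝ => ((wnd p.1, wnd p.2),
      (wnd (a * p.1 + b * p.2), wnd (c * p.1 + d * p.2)))) (Icc (0 : ℝ) 8 ×ˢ Icc (0 : ℝ) 8) := by
    have e1 : PLOn (fun p : ℝ × ℝ => wnd p.1) (Icc (0 : ℝ) 8 ×ˢ Icc (0 : ℝ) 8) :=
      (TOR_pl 1 0).congr fun p _ => by simp
    have e2 : PLOn (fun p : ℝ × ℝ => wnd p.2) (Icc (0 : ℝ) 8 ×ˢ Icc (0 : ℝ) 8) :=
      (TOR_pl 0 1).congr fun p _ => by simp
    exact (e1.prodMk e2).prodMk ((TOR_pl a b).prodMk (TOR_pl c d))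
  have hset : (fun x => (x, T x)) '' (gam ×ˢ gam) = (fun p : ℝ × ℝ => ((wnd p.1, wnd p.2),
      (wnd (a * p.1 + b * p.2), wnd (c * p.1 + d * p.2)))) '' (Icc (0 : ℝ) 8 ×ˢ Icc (0 : ℝ) 8) := by
    apply Subset.antisymm
    · rintro _ ⟨⟨z, z'⟩, ⟨hz, hz'⟩, rfl⟩
      have h3 := ang_mem hz
      have h4 := ang_mem hz'
      refine ⟨(ang z, ang z'), ⟨⟨h3.1.1, h3.1.2.le⟩, ⟨h4.1.1, h4.1.2.le⟩⟩, ?_⟩
      show ((wnd (ang z), wnd (ang z')), _) = ((z, z'), T (z, z'))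
      rw [h3.2, h4.2, hT]
    · rintro _ ⟨⟨s, t⟩, -, rfl⟩
      refine ⟨(wnd s, wnd t), ⟨wnd_mem s, wnd_mem t⟩, ?_⟩
      show ((wnd s, wnd t), T (wnd s, wnd t)) = _
      rw [h2]
  unfold PLOn
  rw [hset]
  exact hG.image

theorem torus_auto (a b c d : ℤ) (h : a * d - b * c = 1) :
    ∃ T T' : V2 × V2 → V2 × V2, PLOn T (gam ×ˢ gam) ∧ InjOn T (gam ×ˢ gam) ∧
      T '' (gam ×ˢ gam) = gam ×ˢ gam ∧
      (∀ s t : ℝ, T (wnd s, wnd t) = (wnd (a * s + b * t), wnd (c * s + d * t))) ∧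
      PLOn T' (gam ×ˢ gam) ∧ (∀ p ∈ gam ×ˢ gam, T' (T p) = p ∧ T (T' p) = p ∧
        T' p ∈ gam ×ˢ gam) ∧
      (∀ s t : ℝ, T' (wnd s, wnd t) = (wnd (d * s - b * t), wnd (- c * s + a * t))) := by
  obtain ⟨T, hT1, hT2⟩ := torus_map a b c d
  obtain ⟨T', hT1', hT2'⟩ := torus_map d (-b) (-c) a
  have h' : (a : ℝ) * d - b * c = 1 := by exact_mod_cast h
  have hT3 : ∀ s t : ℝ, T' (wnd s, wnd t) = (wnd (d * s - b * t), wnd (- c * s + a * t)) := by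
    intro s t
    rw [hT2']
    push_cast
    congr 2
    ring
  have hmaps : ∀ p ∈ gam ×ˢ gam, T p ∈ gam ×ˢ gam := by
    rintro ⟨z, z'⟩ ⟨hz, hz'⟩
    obtain ⟨s, -, rfl⟩ := wnd_surj 0 hz
    obtain ⟨t, -, rfl⟩ := wnd_surj 0 hz'
    rw [hT2]
    exact ⟨wnd_mem _, wnd_mem _⟩
  have hinv : ∀ p ∈ gam ×ˢ gam, T' (T p) = p ∧ T (T' p) = p ∧ T' p ∈ gam ×ˢ gam := by
    rintro ⟨z, z'⟩ ⟨hz, hz'⟩
    obtain ⟨s, -, rfl⟩ := wnd_surj 0 hz
    obtain ⟨t, -, rfl⟩ := wnd_surj 0 hz'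
    refine ⟨?_, ?_, ?_⟩
    · rw [hT2, hT3]
      congr 2
      · linear_combination s * h'
      · linear_combination t * h'
    · rw [hT3, hT2]
      congr 2
      · linear_combination s * h'
      · linear_combination t * h'
    · rw [hT3]
      exact ⟨wnd_mem _, wnd_mem _⟩
  refine ⟨T, T', hT1, ?_, ?_, hT2, hT1', hinv, hT3⟩
  · intro p hp q hq e
    rw [← (hinv p hp).1, ← (hinv q hq).1, e]
  · apply Subset.antisymm
    · rintro _ ⟨p, hp, rfl⟩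
      exact hmaps p hp
    · intro p hp
      exact ⟨T' p, (hinv p hp).2.2, (hinv p hp).2.1⟩

end Pool.H54.UB
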