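import Pool.Agent.H54.UB.NTA
import Pool.Agent.H54.UB.EVG
import Pool.Agent.H54.UB.TOR

/-!
# Row NTB: the base manifold (Dehn filling of the 3-torus minus three tubes)

`T` is the automorphism of `gam × gam` of `torus_auto`.
`B3 = (gam × J3) × closedBall 0 1`, `DB3 = (gam × J3) × gam`,
`phi3 T ((z, j), w) = tub3 ((z', j), w')`, `(z', w') = T (z, w)`.

* manifold: `A3`: `Tube.poly_remove`, `Tube.bdpt` (`j = 1`, `k = 1`), `Tube.intpt` for `tub3_tube`;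
  `DA = tub3 '' (.. × sphere 0 1)`, `gam = sphere 0 1`.  `B3`: `IntPt.prod_bd` with `bdpt_ball 1`,
  `IntPt.prod` with `intpt_of_interior`; `gam × J3` is a closed 1-manifold (`J3_mfd`).
  `phi3 T` is PL, injective with image `DA` because `T` is a PL bijection of `gam × gam`.  `glue_mfd`.
* connected: `connected_remove_finite`: if `X' = X \ tubes` were the union of two disjoint nonempty
  relatively closed sets `U`, `V`, each connected set `tub '' ((gam × {j}) × sphere)` lies in one of them; add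
  the closed tube to that one: a separation of `X`.  (`X' ` nonempty.)  Each `jB '' ((gam × {j}) × ..)` is
  connected and meets `jA '' A3`.
-/

open Set Topology Metric

namespace Pool.H54.UB

variable {E G : Type*} [NormedAddCommGroup E] [NormedSpace ℝ E] [FiniteDimensional ℝ E]
  [NormedAddCommGroup G] [NormedSpace ℝ G] [FiniteDimensional ℝ G]

def B3 : Set ((V2 × ℝ) × V2) := (gam ×ˢ J3) ×ˢ closedBall (0 : V2) 1

def DB3 : Set ((V2 × ℝ) × V2) := (gam ×ˢ J3) ×ˢ gam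

noncomputable def phi3 (T : V2 × V2 → V2 × V2) (q : (V2 × ℝ) × V2) : V6 :=
  tub3 (((T (q.1.1, q.2)).1, q.1.2), (T (q.1.1, q.2)).2)

theorem NTB_poly {J : Set ℝ} (hJ : J.Finite) : IsPoly J := by
  have h := IsPoly.biUnion hJ (X := fun j : ℝ => ({j} : Set ℝ)) fun j _ => IsPoly.singleton j
  have h2 : (⋃ i ∈ J, ({i} : Set ℝ)) = J := by
    ext x
    simp
  rwa [h2] at h

theorem NTB_closed {Q : Set G} {k : ℕ} {X : Set E} {ι : G × (Fin k → ℝ) → E}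
    (h : Tube Q k X ι) (hQ : IsPoly Q) (hXc : IsClosed X) :
    IsClosed (X \ ι '' (Q ×ˢ ball (0 : Fin k → ℝ) 1)) := by
  rw [← closure_subset_iff_isClosed]
  intro y hy
  have hyX : y ∈ X := closure_minimal (fun x hx => hx.1) hXc hy
  refine ⟨hyX, ?_⟩
  rintro ⟨p, hp, rfl⟩
  have h1 := h.isOpen_ball hQ (r := 1) (by norm_num) hp
  obtain ⟨O, hO, hpO, hsub⟩ := mem_nhdsWithin.1 h1
  obtain ⟨x, hxO, hxA⟩ := mem_closure_iff.1 hy O hO hpO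
  exact hxA.2 (hsub ⟨hxO, hxA.1⟩)

theorem Tube.connected_remove_finite {P : Set G} {k : ℕ} {X : Set E} {J : Set ℝ}
    (hJ : J.Finite) (hJne : J.Nonempty) {ι : (G × ℝ) × (Fin k → ℝ) → E}
    (h : Tube (P ×ˢ J) k X ι) (hP : IsPoly P) (hX : IsConnected X) (hXc : IsClosed X)
    (hS : IsConnected (P ×ˢ sphere (0 : Fin k → ℝ) 1)) :
    IsConnected (X \ ι '' ((P ×ˢ J) ×ˢ ball (0 : Fin k → ℝ) 1)) := by
  have hQ : IsPoly (P ×ˢ J) := hP.prod (NTB_poly hJ)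
  have hAc := NTB_closed h hQ hXc
  set A := X \ ι '' ((P ×ˢ J) ×ˢ ball (0 : Fin k → ℝ) 1) with hA
  obtain ⟨f, hf⟩ : ∃ f : ℝ → G × (Fin k → ℝ) → E, ∀ j q, f j q = ι ((q.1, j), q.2) :=
    ⟨fun j q => ι ((q.1, j), q.2), fun _ _ => rfl⟩
  have hfc : ∀ j ∈ J, ContinuousOn (f j) (P ×ˢ closedBall (0 : Fin k → ℝ) 2) := by
    intro j hj
    have h1 : Continuous fun q : G × (Fin k → ℝ) => ((q.1, j), q.2) := by fun_prop
    have h2 : ContinuousOn (fun q : G × (Fin k → ℝ) => ι ((q.1, j), q.2))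
        (P ×ˢ closedBall (0 : Fin k → ℝ) 2) :=
      h.pl.continuousOn.comp h1.continuousOn fun q hq => ⟨⟨hq.1, hj⟩, hq.2⟩
    exact h2.congr fun q _ => hf j q
  have hsub : P ×ˢ sphere (0 : Fin k → ℝ) 1 ⊆ P ×ˢ closedBall (0 : Fin k → ℝ) 2 :=
    prod_mono le_rfl (sphere_subset_closedBall.trans (closedBall_subset_closedBall one_le_two))
  have hsub1 : P ×ˢ closedBall (0 : Fin k → ℝ) 1 ⊆ P ×ˢ closedBall (0 : Fin k → ℝ) 2 :=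
    prod_mono le_rfl (closedBall_subset_closedBall one_le_two)
  have hinj : ∀ j ∈ J, ∀ j' ∈ J, ∀ q ∈ P ×ˢ closedBall (0 : Fin k → ℝ) 2,
      ∀ q' ∈ P ×ˢ closedBall (0 : Fin k → ℝ) 2, f j q = f j' q' → j = j' ∧ q = q' := by
    intro j hj j' hj' q hq q' hq' he
    rw [hf, hf] at he
    have h1 := h.inj (show ((q.1, j), q.2) ∈ (P ×ˢ J) ×ˢ closedBall (0 : Fin k → ℝ) 2 from
      ⟨⟨hq.1, hj⟩, hq.2⟩) (show ((q'.1, j'), q'.2) ∈ (P ×ˢ J) ×ˢ closedBall (0 : Fin k → ℝ) 2 from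
      ⟨⟨hq'.1, hj'⟩, hq'.2⟩) he
    have e1 : q.1 = q'.1 := congrArg (fun z : (G × ℝ) × (Fin k → ℝ) => z.1.1) h1
    have e2 : j = j' := congrArg (fun z : (G × ℝ) × (Fin k → ℝ) => z.1.2) h1
    have e3 : q.2 = q'.2 := congrArg (fun z : (G × ℝ) × (Fin k → ℝ) => z.2) h1
    exact ⟨e2, Prod.ext e1 e3⟩
  set S : ℝ → Set E := fun j => f j '' (P ×ˢ sphere (0 : Fin k → ℝ) 1) with hSdef
  set T : ℝ → Set E := fun j => f j '' (P ×ˢ closedBall (0 : Fin k → ℝ) 1) with hTdef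
  have hSc : ∀ j ∈ J, IsConnected (S j) := fun j hj => hS.image _ ((hfc j hj).mono hsub)
  have hTc : ∀ j ∈ J, IsClosed (T j) := fun j hj =>
    ((hP.isCompact.prod (isCompact_closedBall _ _)).image_of_continuousOn
      ((hfc j hj).mono hsub1)).isClosed
  have hSA : ∀ j ∈ J, S j ⊆ A := by
    rintro j hj _ ⟨q, hq, rfl⟩
    refine ⟨?_, ?_⟩
    · rw [hf]
      exact h.maps ⟨⟨hq.1, hj⟩, (hsub hq).2⟩
    · rintro ⟨⟨⟨z, j'⟩, u⟩, ⟨⟨hz, hj'⟩, hu⟩, he⟩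
      have hu2 : u ∈ closedBall (0 : Fin k → ℝ) 2 :=
        closedBall_subset_closedBall one_le_two (ball_subset_closedBall hu)
      have h1 := hinj j' hj' j hj (z, u) ⟨hz, hu2⟩ q (hsub hq) (by rw [hf]; exact he)
      have h2 : u = q.2 := congrArg Prod.snd h1.2
      have h3 := mem_sphere_zero_iff_norm.1 hq.2
      rw [← h2] at h3
      have h4 := mem_ball_zero_iff.1 hu
      rw [h3] at h4
      exact lt_irrefl _ h4
  have hAT : ∀ j ∈ J, ∀ y ∈ A, y ∈ T j → y ∈ S j := by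
    rintro j hj y hyA ⟨q, hq, rfl⟩
    refine ⟨q, ⟨hq.1, mem_sphere_zero_iff_norm.2 (le_antisymm (mem_closedBall_zero_iff.1 hq.2) ?_)⟩,
      rfl⟩
    by_contra hlt
    refine hyA.2 ⟨((q.1, j), q.2), ⟨⟨hq.1, hj⟩, mem_ball_zero_iff.2 (not_le.1 hlt)⟩, ?_⟩
    rw [hf]
  have hXAT : ∀ y ∈ X, y ∈ A ∨ ∃ j ∈ J, y ∈ T j := by
    intro y hy
    by_cases hyb : y ∈ ι '' ((P ×ˢ J) ×ˢ ball (0 : Fin k → ℝ) 1)
    · obtain ⟨⟨⟨z, j⟩, u⟩, ⟨⟨hz, hj⟩, hu⟩, he⟩ := hyb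
      refine Or.inr ⟨j, hj, (z, u), ⟨hz, ball_subset_closedBall hu⟩, ?_⟩
      rw [hf]
      exact he
    · exact Or.inl ⟨hy, hyb⟩
  refine ⟨?_, ?_⟩
  · obtain ⟨j, hj⟩ := hJne
    exact (hSc j hj).nonempty.mono (hSA j hj)
  rw [isPreconnected_closed_iff]
  intro t t' ht ht' hAtt hAt hAt'
  by_contra hempty
  have hno : ∀ y ∈ A, y ∈ t → y ∉ t' := fun y hy h1 h2 => hempty ⟨y, hy, h1, h2⟩
  have hfin1 : {j | j ∈ J ∧ (S j ∩ t).Nonempty}.Finite := hJ.subset fun j hj => hj.1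
  have hfin2 : {j | j ∈ J ∧ ¬ (S j ∩ t).Nonempty}.Finite := hJ.subset fun j hj => hj.1
  have h1 := isPreconnected_closed_iff.1 hX.isPreconnected
    ((A ∩ t) ∪ ⋃ j ∈ {j | j ∈ J ∧ (S j ∩ t).Nonempty}, T j)
    ((A ∩ t') ∪ ⋃ j ∈ {j | j ∈ J ∧ ¬ (S j ∩ t).Nonempty}, T j)
    ((hAc.inter ht).union (hfin1.isClosed_biUnion fun j hj => hTc j hj.1))
    ((hAc.inter ht').union (hfin2.isClosed_biUnion fun j hj => hTc j hj.1))
    (by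
      intro y hy
      rcases hXAT y hy with hyA | ⟨j, hj, hyT⟩
      · rcases hAtt hyA with h2 | h2
        · exact Or.inl (Or.inl ⟨hyA, h2⟩)
        · exact Or.inr (Or.inl ⟨hyA, h2⟩)
      · by_cases hjt : (S j ∩ t).Nonempty
        · exact Or.inl (Or.inr (mem_iUnion₂.2 ⟨j, ⟨hj, hjt⟩, hyT⟩))
        · exact Or.inr (Or.inr (mem_iUnion₂.2 ⟨j, ⟨hj, hjt⟩, hyT⟩)))
    (by
      obtain ⟨y, hy, hyt⟩ := hAt
      exact ⟨y, hy.1, Or.inl ⟨hy, hyt⟩⟩)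
    (by
      obtain ⟨y, hy, hyt⟩ := hAt'
      exact ⟨y, hy.1, Or.inl ⟨hy, hyt⟩⟩)
  obtain ⟨y, _, hy1, hy2⟩ := h1
  rcases hy1 with ⟨hyA, hyt⟩ | hyT
  · rcases hy2 with ⟨_, hyt'⟩ | hyT'
    · exact hno y hyA hyt hyt'
    · obtain ⟨j, ⟨hj, hjt⟩, hyj⟩ := mem_iUnion₂.1 hyT'
      exact hjt ⟨y, hAT j hj y hyA hyj, hyt⟩
  · obtain ⟨j, ⟨hj, hjt⟩, hyj⟩ := mem_iUnion₂.1 hyT
    rcases hy2 with ⟨hyA, hyt'⟩ | hyT'
    · have hyS := hAT j hj y hyA hyj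
      obtain ⟨z, hz, hzz⟩ := isPreconnected_closed_iff.1 (hSc j hj).isPreconnected t t' ht ht'
        ((hSA j hj).trans hAtt) hjt ⟨y, hyS, hyt'⟩
      exact hno z (hSA j hj hz) hzz.1 hzz.2
    · obtain ⟨j', ⟨hj', hjt'⟩, hyj'⟩ := mem_iUnion₂.1 hyT'
      obtain ⟨q, hq, hqy⟩ := hyj
      obtain ⟨q', hq', hqy'⟩ := hyj'
      have h2 := hinj j hj j' hj' q (hsub1 hq) q' (hsub1 hq') (hqy.trans hqy'.symm)
      rw [h2.1] at hjt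
      exact hjt' hjt

theorem NTB_P : IsPoly (gam ×ˢ J3) := J3_mfd.1

theorem NTB_J3 : J3.Finite := by
  unfold J3
  exact Set.toFinite _

/-- the boundary of the exterior -/
noncomputable def NTB_DA : Set V6 := tub3 '' ((gam ×ˢ J3) ×ˢ sphere (0 : V2) 1)

theorem NTB_sph : (gam ×ˢ J3) ×ˢ sphere (0 : V2) 1 ⊆ (gam ×ˢ J3) ×ˢ closedBall (0 : V2) 2 :=
  prod_mono le_rfl (sphere_subset_closedBall.trans (closedBall_subset_closedBall one_le_two))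

theorem NTB_DA_sub : NTB_DA ⊆ A3 := by
  rintro _ ⟨p, hp, rfl⟩
  refine ⟨tub3_tube.maps (NTB_sph hp), ?_⟩
  rintro ⟨q, hq, he⟩
  have hqp := tub3_tube.inj (show q ∈ (gam ×ˢ J3) ×ˢ closedBall (0 : V2) 2 from
    ⟨hq.1, closedBall_subset_closedBall one_le_two (ball_subset_closedBall hq.2)⟩) (NTB_sph hp) he
  have h4 := hq.2
  rw [hqp, mem_ball_zero_iff] at h4
  have h5 := mem_sphere_zero_iff_norm.1 hp.2
  rw [h5] at h4
  exact lt_irrefl _ h4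

theorem NTB_int {x : V6} (hx : x ∈ A3) (hD : x ∉ NTB_DA) : IntPt 3 A3 x := by
  refine tub3_tube.intpt NTB_P ?_ (T3_mfd.2 x hx.1)
  rintro ⟨p, hp, rfl⟩
  have h1 : ‖p.2‖ ≤ 1 := mem_closedBall_zero_iff.1 hp.2
  rcases h1.lt_or_eq with h2 | h2
  · exact hx.2 ⟨p, ⟨hp.1, mem_ball_zero_iff.2 h2⟩, rfl⟩
  · exact hD ⟨p, ⟨hp.1, mem_sphere_zero_iff_norm.2 h2⟩, rfl⟩

theorem NTB_bd {x : V6} (hD : x ∈ NTB_DA) : BdPt 2 A3 NTB_DA x := by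
  obtain ⟨⟨z, u⟩, hp, rfl⟩ := hD
  exact tub3_tube.bdpt (k := 1) (j := 1) J3_mfd hp.1 (mem_sphere_zero_iff_norm.1 hp.2)

theorem NTB_Bint {x : (V2 × ℝ) × V2} (hx : x ∈ B3) (hD : x ∉ DB3) : IntPt 3 B3 x := by
  obtain ⟨p, u⟩ := x
  have h1 : IntPt 1 (gam ×ˢ J3) p := J3_mfd.2 p hx.1
  have h2 : ‖u‖ ≤ 1 := mem_closedBall_zero_iff.1 hx.2
  have h3 : ‖u‖ < 1 := by
    rcases h2.lt_or_eq with h | h
    · exact h
    · exact absurd ⟨hx.1, mem_sphere_zero_iff_norm.2 h⟩ hD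
  have h4 : IntPt 2 (closedBall (0 : V2) 1) u :=
    intpt_of_interior (by simp) (ball_subset_interior_closedBall (mem_ball_zero_iff.2 h3))
  exact h1.prod h4

theorem NTB_Bbd {x : (V2 × ℝ) × V2} (hD : x ∈ DB3) : BdPt 2 B3 DB3 x := by
  obtain ⟨p, u⟩ := x
  have h1 : IntPt 1 (gam ×ˢ J3) p := J3_mfd.2 p hD.1
  exact h1.prod_bd (bdpt_ball 1 (mem_sphere_zero_iff_norm.1 hD.2))

theorem NTB_phi_maps {T : V2 × V2 → V2 × V2} (him : T '' (gam ×ˢ gam) = gam ×ˢ gam)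
    {q : (V2 × ℝ) × V2} (hq : q ∈ DB3) :
    ((((T (q.1.1, q.2)).1, q.1.2), (T (q.1.1, q.2)).2) : (V2 × ℝ) × V2) ∈
      (gam ×ˢ J3) ×ˢ sphere (0 : V2) 1 := by
  have h1 : T (q.1.1, q.2) ∈ gam ×ˢ gam := by
    rw [← him]
    exact ⟨_, ⟨hq.1.1, hq.2⟩, rfl⟩
  exact ⟨⟨h1.1, hq.1.2⟩, h1.2⟩

theorem NTB_phi_pl {T : V2 × V2 → V2 × V2} (hT : PLOn T (gam ×ˢ gam))
    (him : T '' (gam ×ˢ gam) = gam ×ˢ gam) : PLOn (phi3 T) DB3 := by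
  have hDB : IsPoly DB3 := NTB_P.prod gam_mfd.1
  have a1 : PLOn (fun q : (V2 × ℝ) × V2 => q.1.1) DB3 :=
    PLOn.affine ((LinearMap.fst ℝ V2 ℝ).comp (LinearMap.fst ℝ (V2 × ℝ) V2)).toAffineMap hDB
  have a2 : PLOn (fun q : (V2 × ℝ) × V2 => q.1.2) DB3 :=
    PLOn.affine ((LinearMap.snd ℝ V2 ℝ).comp (LinearMap.fst ℝ (V2 × ℝ) V2)).toAffineMap hDB
  have a3 : PLOn (fun q : (V2 × ℝ) × V2 => q.2) DB3 :=
    PLOn.affine (LinearMap.snd ℝ (V2 × ℝ) V2).toAffineMap hDB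
  have b1 : PLOn (fun q : (V2 × ℝ) × V2 => T (q.1.1, q.2)) DB3 :=
    hT.comp (a1.prodMk a3) fun q hq => ⟨hq.1.1, hq.2⟩
  have b2 : PLOn (fun q : (V2 × ℝ) × V2 => (T (q.1.1, q.2)).1) DB3 :=
    b1.affine_comp (LinearMap.fst ℝ V2 V2).toAffineMap
  have b3 : PLOn (fun q : (V2 × ℝ) × V2 => (T (q.1.1, q.2)).2) DB3 :=
    b1.affine_comp (LinearMap.snd ℝ V2 V2).toAffineMap
  exact tub3_tube.pl.comp ((b2.prodMk a2).prodMk b3) fun q hq => NTB_sph (NTB_phi_maps him hq)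

theorem NTB_phi_inj {T : V2 × V2 → V2 × V2} (hi : InjOn T (gam ×ˢ gam))
    (him : T '' (gam ×ˢ gam) = gam ×ˢ gam) : InjOn (phi3 T) DB3 := by
  intro q hq q' hq' he
  have h1 := tub3_tube.inj (NTB_sph (NTB_phi_maps him hq)) (NTB_sph (NTB_phi_maps him hq')) he
  obtain ⟨e12, e3⟩ := Prod.mk.inj h1
  obtain ⟨e1, e2⟩ := Prod.mk.inj e12
  have e4 : ((q.1.1, q.2) : V2 × V2) = (q'.1.1, q'.2) :=
    hi ⟨hq.1.1, hq.2⟩ ⟨hq'.1.1, hq'.2⟩ (Prod.ext e1 e3)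
  obtain ⟨e5, e6⟩ := Prod.mk.inj e4
  exact Prod.ext (Prod.ext e5 e2) e6

theorem NTB_phi_im {T : V2 × V2 → V2 × V2} (him : T '' (gam ×ˢ gam) = gam ×ˢ gam) :
    phi3 T '' DB3 = NTB_DA := by
  apply Subset.antisymm
  · rintro _ ⟨q, hq, rfl⟩
    exact ⟨_, NTB_phi_maps him hq, rfl⟩
  · rintro _ ⟨⟨⟨z, j⟩, u⟩, ⟨⟨hz, hj⟩, hu⟩, rfl⟩
    have h1 : ((z, u) : V2 × V2) ∈ T '' (gam ×ˢ gam) := by
      rw [him]
      exact ⟨hz, hu⟩
    obtain ⟨⟨a, b⟩, ⟨ha, hb⟩, hab⟩ := h1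
    refine ⟨((a, j), b), ⟨⟨ha, hj⟩, hb⟩, ?_⟩
    show tub3 (((T (a, b)).1, j), (T (a, b)).2) = tub3 ((z, j), u)
    rw [hab]

theorem NTB_A3_conn : IsConnected A3 :=
  Tube.connected_remove_finite NTB_J3 ⟨0, Or.inl rfl⟩ tub3_tube gam_mfd.1 T3_conn
    T3_mfd.1.isCompact.isClosed (gam_conn.prod gam_conn)

theorem base_glue {T : V2 × V2 → V2 × V2} (hT : PLOn T (gam ×ˢ gam))
    (hi : InjOn T (gam ×ˢ gam)) (him : T '' (gam ×ˢ gam) = gam ×ˢ gam) :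
    ∃ (jA : V6 → V6 × ((V2 × ℝ) × V2) × ℝ) (jB : (V2 × ℝ) × V2 → V6 × ((V2 × ℝ) × V2) × ℝ),
      Glued A3 B3 DB3 (phi3 T) jA jB ∧ IsPoly DB3 ∧
      IsClosedPLManifold 3 (jA '' A3 ∪ jB '' B3) ∧ IsConnected (jA '' A3 ∪ jB '' B3) := by
  have hA : IsPoly A3 := tub3_tube.poly_remove NTB_P T3_mfd.1 one_le_two
  have hB : IsPoly B3 := NTB_P.prod (isPoly_closedBall 2 1)
  have hDA : IsPoly NTB_DA := tub3_tube.pl.image_poly (NTB_P.prod gam_mfd.1) NTB_sph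
  have hDB : IsPoly DB3 := NTB_P.prod gam_mfd.1
  have hBs : DB3 ⊆ B3 := prod_mono le_rfl sphere_subset_closedBall
  have hpl := NTB_phi_pl hT him
  have hinj := NTB_phi_inj hi him
  have himg := NTB_phi_im him
  obtain ⟨jA, jB, h1, h2, h3, h4, h5, h6, h7⟩ := glue_mfd (n := 2) hA hB hDA hDB NTB_DA_sub hBs
    (fun x hx => NTB_int hx.1 hx.2) (fun x hx => NTB_bd hx)
    (fun x hx => NTB_Bint hx.1 hx.2) (fun x hx => NTB_Bbd hx) hpl hinj himg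
  have hmaps : MapsTo (phi3 T) DB3 A3 := fun q hq => NTB_DA_sub (by
    rw [← himg]
    exact ⟨q, hq, rfl⟩)
  refine ⟨jA, jB, ⟨h1, h2, h3, h4, hBs, hmaps, hpl, h5, h6⟩, hDB, h7, ?_⟩
  have cA : IsConnected (jA '' A3) := NTB_A3_conn.image _ h1.continuousOn
  have hBj : ∀ j ∈ J3, (gam ×ˢ {j}) ×ˢ closedBall (0 : V2) 1 ⊆ B3 := by
    rintro j hj ⟨⟨z, j'⟩, u⟩ ⟨⟨hz, hj'⟩, hu⟩
    have : j' = j := hj'
    rw [this]
    exact ⟨⟨hz, hj⟩, hu⟩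
  have cB : ∀ j ∈ J3, IsConnected (jB '' ((gam ×ˢ {j}) ×ˢ closedBall (0 : V2) 1)) := by
    intro j hj
    refine IsConnected.image ?_ _ (h3.continuousOn.mono (hBj j hj))
    refine (gam_conn.prod isConnected_singleton).prod ?_
    exact (convex_closedBall (0 : V2) 1).isConnected ⟨0, by simp⟩
  obtain ⟨z0, hz0⟩ := gam_conn.nonempty
  have hmeet : ∀ j ∈ J3, (jA '' A3 ∩ jB '' ((gam ×ˢ {j}) ×ˢ closedBall (0 : V2) 1)).Nonempty := by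
    intro j hj
    have hq : (((z0, j), z0) : (V2 × ℝ) × V2) ∈ DB3 := ⟨⟨hz0, hj⟩, hz0⟩
    refine ⟨jB ((z0, j), z0), ⟨phi3 T ((z0, j), z0), hmaps hq, h5 _ hq⟩, ((z0, j), z0), ?_, rfl⟩
    exact ⟨⟨hz0, rfl⟩, sphere_subset_closedBall hz0⟩
  have c0 := cA.union (hmeet 0 (Or.inl rfl)) (cB 0 (Or.inl rfl))
  have c1 := c0.union ((hmeet 1 (Or.inr (Or.inl rfl))).mono
    (inter_subset_inter_left _ subset_union_left)) (cB 1 (Or.inr (Or.inl rfl)))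
  have c2 := c1.union ((hmeet 2 (Or.inr (Or.inr rfl))).mono
    (inter_subset_inter_left _ (subset_union_left.trans subset_union_left)))
    (cB 2 (Or.inr (Or.inr rfl)))
  have heq : jA '' A3 ∪ jB '' B3 = ((jA '' A3 ∪ jB '' ((gam ×ˢ {0}) ×ˢ closedBall (0 : V2) 1)) ∪
      jB '' ((gam ×ˢ {1}) ×ˢ closedBall (0 : V2) 1)) ∪
      jB '' ((gam ×ˢ {2}) ×ˢ closedBall (0 : V2) 1) := by
    apply Subset.antisymm
    · rintro x (hx | ⟨⟨⟨z, j⟩, u⟩, ⟨⟨hz, hj⟩, hu⟩, rfl⟩)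
      · exact Or.inl (Or.inl (Or.inl hx))
      · have hj' : j = 0 ∨ j = 1 ∨ j = 2 := hj
        rcases hj' with rfl | rfl | rfl
        · exact Or.inl (Or.inl (Or.inr ⟨_, ⟨⟨hz, rfl⟩, hu⟩, rfl⟩))
        · exact Or.inl (Or.inr ⟨_, ⟨⟨hz, rfl⟩, hu⟩, rfl⟩)
        · exact Or.inr ⟨_, ⟨⟨hz, rfl⟩, hu⟩, rfl⟩
    · rintro x (((hx | hx) | hx) | hx)
      · exact Or.inl hx
      · exact Or.inr (image_mono (hBj 0 (Or.inl rfl)) hx)
      · exact Or.inr (image_mono (hBj 1 (Or.inr (Or.inl rfl))) hx)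
      · exact Or.inr (image_mono (hBj 2 (Or.inr (Or.inr rfl))) hx)
  rw [heq]
  exact c2

end Pool.H54.UB
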