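import Pool.Agent.H54.UB.NTA
import Pool.Agent.H54.UB.PRL

/-!
# Row NTC: meridians are trivial if the longitudes are

`A3 = {x ∈ T3 : not (x₂ ∈ ar1 ∧ x₃ ∈ ar3), not (x₃ ∈ ar1 ∧ x₁ ∈ ar3), not (x₁ ∈ ar1 ∧ x₂ ∈ ar3)}` (`mem_tub3`).
Composing with `rho` (`rho_A3`, `c ∘ rho`) it suffices to treat `j = 0` (for `j = 1`, `2` apply the case `0` to
`c (rho ·) (rho ·)`, `c (rho (rho ·)) ..`; the hypothesis is invariant: tube `j` is mapped to `j + 1`).

`j = 0`, at the level `x₁ = wnd 5` (not in `ar1`, `ar3`; so tubes 1, 2 are avoided): the set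
`F = {wnd 5} × (gam × K' ∪ K'' × gam)`, `K' = wnd '' Icc (13/4) (43/4)`, `K'' = wnd '' Icc (5/4) (35/4)` (the
complements in `gam` of `ar3`, `ar1`), is contained in `A3`.
* `c` is trivial on `{wnd 5} × gam × {wnd 1}`: the loop of tube 1 with `u = (0, 1)` is
  `z ↦ (wnd (3+1/4), z, wnd 1)`; move the first coordinate from `13/4` to `5` (`NTriv.move`,
  `Φ (z, t) = (wnd (13/4 + (7/4) t), z, wnd 1)`): third coordinate `wnd 1 ∉ ar3`, first not in `ar3` nor `ar1`.
* `c` is trivial on `{wnd 5} × {wnd 3} × gam`: the loop of tube 2 with `u = (-1, 0)` is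
  `z ↦ (wnd (1 - 1/4), wnd 3, z)`; move the first coordinate from `3/4` down to `-3` (`wnd (-3) = wnd 5`): it
  avoids `ar1` and `ar3`, second coordinate `wnd 3 ∉ ar1`.
* `wnd 1 = wnd 9 ∈ K'`, `arc_qtriv` for `K'`, `NTriv.prod`: trivial on `{wnd 5} × gam × K'`; similarly
  `wnd 3 ∈ K''`: trivial on `{wnd 5} × K'' × gam`.  The intersection `K'' × K'` is connected:
  `NTriv.union_closed`.
* the loop `u ↦ tub3 ((wnd 5, 0), u)`, `u ∈ gam`, is in `F` (`‖u‖ = 1`): `NTriv.mono`, `NTriv.comp`.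
-/

open Set Topology Metric

namespace Pool.H54.UB

private theorem NTC_int (k : ℤ) (h1 : -1 < (k : ℝ)) (h2 : (k : ℝ) < 1) : k = 0 := by
  have h3 : (-1 : ℤ) < k := by exact_mod_cast h1
  have h4 : k < (1 : ℤ) := by exact_mod_cast h2
  omega

private theorem NTC_n1 {t : ℝ} (h : 5 / 4 ≤ t) (h' : t ≤ 35 / 4) : wnd t ∉ ar1 := by
  rintro ⟨s, hs, he⟩
  obtain ⟨k, hk⟩ := wnd_eq_iff.1 he
  have h1 := hs.1
  have h2 := hs.2
  have h0 : k = 0 := NTC_int k (by linarith) (by linarith)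
  rw [h0] at hk
  simp only [Int.cast_zero, mul_zero, add_zero] at hk
  linarith

private theorem NTC_n3 {t : ℝ} (h : 13 / 4 ≤ t) (h' : t ≤ 43 / 4) : wnd t ∉ ar3 := by
  rintro ⟨s, hs, he⟩
  obtain ⟨k, hk⟩ := wnd_eq_iff.1 he
  have h1 := hs.1
  have h2 := hs.2
  have h0 : k = 0 := NTC_int k (by linarith) (by linarith)
  rw [h0] at hk
  simp only [Int.cast_zero, mul_zero, add_zero] at hk
  linarith

private theorem NTC_p1 : wnd 9 = wnd 1 := by
  have := wnd_per 1 1
  norm_num at this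
  exact this

private theorem NTC_p2 : wnd (35 / 4) = wnd (3 / 4) := by
  have := wnd_per (3 / 4) 1
  norm_num at this
  exact this

private theorem NTC_p3 : wnd (43 / 4) = wnd (11 / 4) := by
  have := wnd_per (11 / 4) 1
  norm_num at this
  exact this

private theorem NTC_A3 {x y z : V2} (hx : x ∈ gam) (hy : y ∈ gam) (hz : z ∈ gam)
    (h0 : ¬ (y ∈ ar1 ∧ z ∈ ar3)) (h1 : ¬ (z ∈ ar1 ∧ x ∈ ar3)) (h2 : ¬ (x ∈ ar1 ∧ y ∈ ar3)) :
    ((x, y, z) : V6) ∈ A3 := by
  refine ⟨⟨hx, hy, hz⟩, ?_⟩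
  rw [mem_tub3]
  rintro (h | h | h)
  · exact h0 h.2
  · exact h1 h.2
  · exact h2 h.2

private theorem NTC_gam {y : V2} (h : y ∈ gam) : |y 0| = 1 ∨ |y 1| = 1 := by
  unfold gam at h
  rw [mem_sphere_zero_iff_norm] at h
  by_contra hne
  push Not at hne
  have h1 : ∀ i, |y i| ≤ 1 := by
    intro i
    have := norm_le_pi_norm y i
    rw [h, Real.norm_eq_abs] at this
    exact this
  have : ‖y‖ < 1 := by
    rw [pi_norm_lt_iff zero_lt_one]
    intro i
    rw [Real.norm_eq_abs]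
    fin_cases i
    · exact lt_of_le_of_ne (h1 0) hne.1
    · exact lt_of_le_of_ne (h1 1) hne.2
  rw [h] at this
  exact lt_irrefl _ this

private theorem NTC_compact : IsCompact gam := isCompact_sphere 0 1

private theorem NTC_loop {u : V2} (hu : u ∈ gam) :
    ((wnd (1 + u 0 / 4), wnd (3 + u 1 / 4)) : V2 × V2) ∈
      gam ×ˢ (wnd '' Icc (13 / 4) (43 / 4)) ∪ (wnd '' Icc (5 / 4) (35 / 4)) ×ˢ gam := by
  rcases NTC_gam hu with h | h
  · right
    refine ⟨?_, wnd_mem _⟩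
    show wnd (1 + u 0 / 4) ∈ _
    rcases (abs_eq zero_le_one).1 h with h | h
    · exact ⟨5 / 4, by constructor <;> norm_num, by rw [h]; norm_num⟩
    · refine ⟨35 / 4, by constructor <;> norm_num, ?_⟩
      rw [NTC_p2, h]
      norm_num
  · left
    refine ⟨wnd_mem _, ?_⟩
    show wnd (3 + u 1 / 4) ∈ _
    rcases (abs_eq zero_le_one).1 h with h | h
    · exact ⟨13 / 4, by constructor <;> norm_num, by rw [h]; norm_num⟩
    · refine ⟨43 / 4, by constructor <;> norm_num, ?_⟩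
      rw [NTC_p3, h]
      norm_num

private theorem NTC_core {Q : Type*} [Group Q] {c : V6 → V6 → Q} (hc : NCoc c A3)
    (h1 : NTriv (fun a b : V2 => c (wnd (13 / 4), a, wnd 1) (wnd (13 / 4), b, wnd 1)) gam)
    (h2 : NTriv (fun a b : V2 => c (wnd (3 / 4), wnd 3, a) (wnd (3 / 4), wnd 3, b)) gam) :
    NTriv (fun a b : V2 => c (tub0 (wnd 5, a)) (tub0 (wnd 5, b))) gam := by
  have i0 : (0 : ℝ) ∈ Icc (0 : ℝ) 1 := ⟨le_rfl, zero_le_one⟩
  have i1 : (1 : ℝ) ∈ Icc (0 : ℝ) 1 := ⟨zero_le_one, le_rfl⟩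
  have m1 : NTriv (fun a b : V2 => c (wnd 5, a, wnd 1) (wnd 5, b, wnd 1)) gam := by
    have hcont : Continuous (fun q : V2 × ℝ => ((wnd (13 / 4 + (7 / 4) * q.2), q.1, wnd 1) : V6)) := by
      have := wnd_cont
      fun_prop
    have hm := NTriv.move (S := gam) (c := c)
      (Φ := fun q : V2 × ℝ => ((wnd (13 / 4 + (7 / 4) * q.2), q.1, wnd 1) : V6))
      hcont.continuousOn (hc.mono ?_) i0 ?_ i1
    · have e : (13 / 4 + (7 / 4) * 1 : ℝ) = 5 := by norm_num
      simp only [e] at hm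
      exact hm
    · rintro _ ⟨⟨z, t⟩, ⟨hz, ht⟩, rfl⟩
      have ht1 := ht.1
      have ht2 := ht.2
      simp only at ht1 ht2
      refine NTC_A3 (wnd_mem _) hz (wnd_mem _) ?_ ?_ ?_
      · rintro ⟨-, h⟩
        rw [← NTC_p1] at h
        exact NTC_n3 (by norm_num) (by norm_num) h
      · rintro ⟨-, h⟩
        exact NTC_n3 (by linarith) (by linarith) h
      · rintro ⟨h, -⟩
        exact NTC_n1 (by linarith) (by linarith) h
    · have e : (13 / 4 + (7 / 4) * 0 : ℝ) = 13 / 4 := by norm_num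
      simp only [e]
      exact h1
  have m2 : NTriv (fun a b : V2 => c (wnd 5, wnd 3, a) (wnd 5, wnd 3, b)) gam := by
    have hcont : Continuous (fun q : V2 × ℝ => ((wnd (35 / 4 - (15 / 4) * q.2), wnd 3, q.1) : V6)) := by
      have := wnd_cont
      fun_prop
    have hm := NTriv.move (S := gam) (c := c)
      (Φ := fun q : V2 × ℝ => ((wnd (35 / 4 - (15 / 4) * q.2), wnd 3, q.1) : V6))
      hcont.continuousOn (hc.mono ?_) i0 ?_ i1
    · have e : (35 / 4 - (15 / 4) * 1 : ℝ) = 5 := by norm_num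
      simp only [e] at hm
      exact hm
    · rintro _ ⟨⟨z, t⟩, ⟨hz, ht⟩, rfl⟩
      have ht1 := ht.1
      have ht2 := ht.2
      simp only at ht1 ht2
      refine NTC_A3 (wnd_mem _) (wnd_mem _) hz ?_ ?_ ?_
      · rintro ⟨h, -⟩
        exact NTC_n1 (by norm_num) (by norm_num) h
      · rintro ⟨-, h⟩
        exact NTC_n3 (by linarith) (by linarith) h
      · rintro ⟨h, -⟩
        exact NTC_n1 (by linarith) (by linarith) h
    · have e : (35 / 4 - (15 / 4) * 0 : ℝ) = 35 / 4 := by norm_num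
      simp only [e, NTC_p2]
      exact h2
  -- the cocycle on the level
  have hd : NCoc (fun p q : V2 × V2 => c (wnd 5, p) (wnd 5, q))
      (gam ×ˢ (wnd '' Icc (13 / 4) (43 / 4)) ∪ (wnd '' Icc (5 / 4) (35 / 4)) ×ˢ gam) := by
    refine NCoc.comp (φ := fun p : V2 × V2 => ((wnd 5, p) : V6)) (by fun_prop) (hc.mono ?_)
    rintro _ ⟨⟨y, z⟩, h, rfl⟩
    have hyz : y ∈ gam ∧ z ∈ gam := by
      rcases h with ⟨hy, s, -, hs⟩ | ⟨⟨s, -, hs⟩, hz⟩
      · exact ⟨hy, by rw [← show wnd s = z from hs]; exact wnd_mem s⟩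
      · exact ⟨by rw [← show wnd s = y from hs]; exact wnd_mem s, hz⟩
    refine NTC_A3 (wnd_mem _) hyz.1 hyz.2 ?_ ?_ ?_
    · rintro ⟨h3, h4⟩
      rcases h with ⟨-, s, hs, he⟩ | ⟨⟨s, hs, he⟩, -⟩
      · rw [← show wnd s = z from he] at h4
        exact NTC_n3 hs.1 hs.2 h4
      · rw [← show wnd s = y from he] at h3
        exact NTC_n1 hs.1 hs.2 h3
    · rintro ⟨-, h⟩
      exact NTC_n3 (by norm_num) (by norm_num) h
    · rintro ⟨h, -⟩
      exact NTC_n1 (by norm_num) (by norm_num) h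
  have hK1 : IsCompact (wnd '' Icc (13 / 4) (43 / 4)) := isCompact_Icc.image wnd_cont
  have hK2 : IsCompact (wnd '' Icc (5 / 4) (35 / 4)) := isCompact_Icc.image wnd_cont
  have cK1 : IsConnected (wnd '' Icc (13 / 4) (43 / 4)) := arc_conn (by norm_num)
  have cK2 : IsConnected (wnd '' Icc (5 / 4) (35 / 4)) := arc_conn (by norm_num)
  have sK1 : wnd '' Icc (13 / 4) (43 / 4) ⊆ gam := by
    rintro _ ⟨s, -, rfl⟩
    exact wnd_mem s
  have sK2 : wnd '' Icc (5 / 4) (35 / 4) ⊆ gam := by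
    rintro _ ⟨s, -, rfl⟩
    exact wnd_mem s
  have b1 : wnd 1 ∈ wnd '' Icc (13 / 4) (43 / 4) :=
    ⟨9, by constructor <;> norm_num, NTC_p1⟩
  have b3 : wnd 3 ∈ wnd '' Icc (5 / 4) (35 / 4) := ⟨3, by constructor <;> norm_num, rfl⟩
  have t1 : NTriv (fun p q : V2 × V2 => c (wnd 5, p) (wnd 5, q))
      (gam ×ˢ (wnd '' Icc (13 / 4) (43 / 4))) := by
    have hd1 := hd.mono (subset_union_left)
    refine NTriv.prod NTC_compact hK1 gam_conn.isPreconnected cK1.isPreconnected hd1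
      (wnd_mem 0) b1 ?_ ?_
    · rw [NTriv.slice_iff]
      exact m1
    · rw [NTriv.slice_iff']
      refine arc_qtriv (by norm_num) Q _ (NCoc.comp
        (c := fun p q : V2 × V2 => c (wnd 5, p) (wnd 5, q)) (φ := fun b : V2 => (wnd 0, b))
        (by fun_prop) (hd1.mono ?_))
      rintro _ ⟨b, hb, rfl⟩
      exact ⟨wnd_mem 0, hb⟩
  have t2 : NTriv (fun p q : V2 × V2 => c (wnd 5, p) (wnd 5, q))
      ((wnd '' Icc (5 / 4) (35 / 4)) ×ˢ gam) := by
    have hd2 := hd.mono (subset_union_right)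
    refine NTriv.prod hK2 NTC_compact cK2.isPreconnected gam_conn.isPreconnected hd2
      b3 (wnd_mem 0) ?_ ?_
    · rw [NTriv.slice_iff]
      refine arc_qtriv (by norm_num) Q _ (NCoc.comp
        (c := fun p q : V2 × V2 => c (wnd 5, p) (wnd 5, q)) (φ := fun a : V2 => (a, wnd 0))
        (by fun_prop) (hd2.mono ?_))
      rintro _ ⟨a, ha, rfl⟩
      exact ⟨ha, wnd_mem 0⟩
    · rw [NTriv.slice_iff']
      exact m2
  have t3 : NTriv (fun p q : V2 × V2 => c (wnd 5, p) (wnd 5, q))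
      (gam ×ˢ (wnd '' Icc (13 / 4) (43 / 4)) ∪ (wnd '' Icc (5 / 4) (35 / 4)) ×ˢ gam) := by
    refine NTriv.union_closed (NTC_compact.isClosed.prod hK1.isClosed)
      (hK2.isClosed.prod NTC_compact.isClosed) hd ?_ t1 t2
    rw [prod_inter_prod, inter_eq_right.2 sK2, inter_eq_left.2 sK1]
    exact cK2.isPreconnected.prod cK1.isPreconnected
  have t4 := NTriv.comp (c := fun p q : V2 × V2 => c (wnd 5, p) (wnd 5, q)) (S := gam)
    (φ := fun u : V2 => ((wnd (1 + u 0 / 4), wnd (3 + u 1 / 4)) : V2 × V2))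
    (Continuous.continuousOn (by
      have := wnd_cont
      fun_prop)) (t3.mono (by
      rintro _ ⟨u, hu, rfl⟩
      exact NTC_loop hu))
  exact t4

private theorem NTC_u01 : (![0, 1] : V2) ∈ gam := by
  unfold gam
  rw [mem_sphere_zero_iff_norm]
  apply le_antisymm
  · rw [pi_norm_le_iff_of_nonneg zero_le_one]
    intro i
    fin_cases i <;> simp
  · have := norm_le_pi_norm (![0, 1] : V2) 1
    simpa using this

private theorem NTC_u10 : (![-1, 0] : V2) ∈ gam := by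
  unfold gam
  rw [mem_sphere_zero_iff_norm]
  apply le_antisymm
  · rw [pi_norm_le_iff_of_nonneg zero_le_one]
    intro i
    fin_cases i <;> simp
  · have := norm_le_pi_norm (![-1, 0] : V2) 0
    simpa using this

private theorem NTC_core' {Q : Type*} [Group Q] {c : V6 → V6 → Q} (hc : NCoc c A3)
    (h1 : ∀ u ∈ gam, NTriv (fun a b : V2 => c (rho (tub0 (a, u))) (rho (tub0 (b, u)))) gam)
    (h2 : ∀ u ∈ gam,
      NTriv (fun a b : V2 => c (rho (rho (tub0 (a, u)))) (rho (rho (tub0 (b, u))))) gam) :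
    NTriv (fun a b : V2 => c (tub0 (wnd 5, a)) (tub0 (wnd 5, b))) gam := by
  refine NTC_core hc ?_ ?_
  · have h := h1 _ NTC_u01
    have e : ∀ a : V2, rho (tub0 (a, ![0, 1])) = (wnd (13 / 4), a, wnd 1) := by
      intro a
      simp only [rho, tub0]
      norm_num
    simp only [e] at h
    exact h
  · have h := h2 _ NTC_u10
    have e : ∀ a : V2, rho (rho (tub0 (a, ![-1, 0]))) = (wnd (3 / 4), wnd 3, a) := by
      intro a
      simp only [rho, tub0]
      norm_num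
    simp only [e] at h
    exact h

private theorem NTC_rho3 (x : V6) : rho (rho (rho x)) = x := rfl

private theorem NTC_rho_cont : Continuous rho := by
  unfold rho
  fun_prop

private theorem NTC_rho_coc {Q : Type*} [Group Q] {c : V6 → V6 → Q} (hc : NCoc c A3) :
    NCoc (fun x y : V6 => c (rho x) (rho y)) A3 :=
  NCoc.comp NTC_rho_cont.continuousOn (hc.mono rho_A3.image_subset)

private theorem NTC_t0 (z u : V2) : tub3 ((z, 0), u) = tub0 (z, u) := by
  unfold tub3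
  rw [if_pos rfl]

private theorem NTC_t1 (z u : V2) : tub3 ((z, 1), u) = rho (tub0 (z, u)) := by
  unfold tub3
  rw [if_neg one_ne_zero, if_pos rfl]

private theorem NTC_t2 (z u : V2) : tub3 ((z, 2), u) = rho (rho (tub0 (z, u))) := by
  unfold tub3
  rw [if_neg two_ne_zero, if_neg (by norm_num)]

private theorem NTC_j0 : (0 : ℝ) ∈ J3 := Or.inl rfl
private theorem NTC_j1 : (1 : ℝ) ∈ J3 := Or.inr (Or.inl rfl)
private theorem NTC_j2 : (2 : ℝ) ∈ J3 := Or.inr (Or.inr rfl)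

theorem A3_mu {Q : Type*} [Group Q] {c : V6 → V6 → Q} (hc : NCoc c A3)
    (he : ∀ j ∈ J3, ∀ u ∈ gam,
      NTriv (fun a b : V2 => c (tub3 ((a, j), u)) (tub3 ((b, j), u))) gam) :
    ∀ j ∈ J3, NTriv (fun a b : V2 => c (tub3 ((wnd 5, j), a)) (tub3 ((wnd 5, j), b))) gam := by
  have e0 : ∀ u ∈ gam, NTriv (fun a b : V2 => c (tub0 (a, u)) (tub0 (b, u))) gam := by
    intro u hu
    have h := he 0 NTC_j0 u hu
    simp only [NTC_t0] at h
    exact h
  have e1 : ∀ u ∈ gam,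
      NTriv (fun a b : V2 => c (rho (tub0 (a, u))) (rho (tub0 (b, u)))) gam := by
    intro u hu
    have h := he 1 NTC_j1 u hu
    simp only [NTC_t1] at h
    exact h
  have e2 : ∀ u ∈ gam, NTriv (fun a b : V2 => c (rho (rho (tub0 (a, u))))
      (rho (rho (tub0 (b, u))))) gam := by
    intro u hu
    have h := he 2 NTC_j2 u hu
    simp only [NTC_t2] at h
    exact h
  rintro j (rfl | rfl | rfl)
  · simp only [NTC_t0]
    exact NTC_core' hc e1 e2
  · simp only [NTC_t1]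
    exact NTC_core' (c := fun x y : V6 => c (rho x) (rho y)) (NTC_rho_coc hc) e2
      (fun u hu => e0 u hu)
  · simp only [NTC_t2]
    exact NTC_core' (c := fun x y : V6 => c (rho (rho x)) (rho (rho y)))
      (NTC_rho_coc (c := fun x y : V6 => c (rho x) (rho y)) (NTC_rho_coc hc))
      (fun u hu => e0 u hu) (fun u hu => e1 u hu)

/-- A cocycle on the 3-torus which is trivial on the three tubes is trivial. -/
theorem T3_triv {Q : Type*} [Group Q] {c : V6 → V6 → Q} (hc : NCoc c T3)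
    (h : ∀ j ∈ J3, NTriv (fun a b : V2 => c (tub3 ((a, j), 0)) (tub3 ((b, j), 0))) gam) :
    NTriv c T3 := by
  have h0 : NTriv (fun a b : V2 => c (a, wnd 1, wnd 3) (b, wnd 1, wnd 3)) gam := by
    have h := h 0 NTC_j0
    have e : ∀ a : V2, tub3 ((a, 0), 0) = (a, wnd 1, wnd 3) := by
      intro a
      rw [NTC_t0]
      simp [tub0]
    simp only [e] at h
    exact h
  have h1 : NTriv (fun a b : V2 => c (wnd 3, a, wnd 1) (wnd 3, b, wnd 1)) gam := by
    have h := h 1 NTC_j1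
    have e : ∀ a : V2, tub3 ((a, 1), 0) = (wnd 3, a, wnd 1) := by
      intro a
      rw [NTC_t1]
      simp [rho, tub0]
    simp only [e] at h
    exact h
  have h2 : NTriv (fun a b : V2 => c (wnd 1, wnd 3, a) (wnd 1, wnd 3, b)) gam := by
    have h := h 2 NTC_j2
    have e : ∀ a : V2, tub3 ((a, 2), 0) = (wnd 1, wnd 3, a) := by
      intro a
      rw [NTC_t2]
      simp [rho, tub0]
    simp only [e] at h
    exact h
  have cg := NTC_compact
  have pg := gam_conn.isPreconnected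
  have m2 : NTriv c ({wnd 3} ×ˢ ({wnd 3} ×ˢ gam)) := by
    refine NTriv.prod_move' (A := gam) (B := {wnd 3} ×ˢ gam) cg
      (isCompact_singleton.prod cg) pg (hc.mono ?_) (wnd_mem 1) (wnd_mem 3) ?_
    · rintro ⟨x, y, z⟩ ⟨hx, hy, hz⟩
      refine ⟨hx, ?_, hz⟩
      rw [show y = wnd 3 from hy]
      exact wnd_mem 3
    · rw [NTriv.slice_iff', NTriv.slice_iff']
      exact h2
  have hd : NCoc (fun p q : V2 × V2 => c (wnd 3, p) (wnd 3, q)) (gam ×ˢ gam) := by
    refine NCoc.comp (φ := fun p : V2 × V2 => ((wnd 3, p) : V6)) (by fun_prop) (hc.mono ?_)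
    rintro _ ⟨⟨y, z⟩, h, rfl⟩
    exact ⟨wnd_mem 3, h⟩
  have t1 : NTriv (fun p q : V2 × V2 => c (wnd 3, p) (wnd 3, q)) (gam ×ˢ gam) := by
    refine NTriv.prod cg cg pg pg hd (wnd_mem 3) (wnd_mem 1) ?_ ?_
    · rw [NTriv.slice_iff]
      exact h1
    · rw [NTriv.slice_iff'] at m2
      exact m2
  refine NTriv.prod cg (cg.prod cg) pg (pg.prod pg) hc (wnd_mem 3)
    (b := (wnd 1, wnd 3)) ⟨wnd_mem 1, wnd_mem 3⟩ ?_ ?_
  · rw [NTriv.slice_iff]
    exact h0
  · rw [NTriv.slice_iff']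
    exact t1

end Pool.H54.UB
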