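import Pool.Agent.H54.UB.NTB
import Pool.Agent.H54.UB.NTC
import Pool.Agent.H54.UB.EXT
import Pool.Agent.H54.UB.STL

/-!
# Row NTQ: cocycles on the base manifold

`T (wnd s, wnd t) = (wnd (a s + p t), wnd (c s + l t))`, `T' (wnd s, wnd t) = (wnd (l s - p t), ..)` its inverse.
Let `w` be a cocycle on `jA '' A3 ∪ jB '' B3` with values in `Q`, `q ^ l = 1` for all `q`, `p` prime, `p ∤ l`.
For `j ∈ J3` put `w_j (z,v) (z',v') = w (jB ((z,j),v)) (jB ((z',j),v'))` on `gam × closedBall 0 1`, and let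
`τ_j` be from `solid_torus`.
1. For `u ∈ gam` the loop `z ↦ tub3 ((z,j),u)` is `phi3 T` of `T' (z,u)`: `jA (tub3 ((z,j),u)) = jB ((z',j),v')`
   with `(z',v') = T' (z,u)`, `z' = wnd (l s - p t)` for `z = wnd s`, `u = wnd t`: winding number `l`, and
   `τ_j ^ l = 1`.  So `cA = w (jA ·) (jA ·)` is trivial along it.
2. `A3_mu`: `cA` is trivial along `u ↦ tub3 ((wnd 5, j), u)`, which corresponds to
   `T' (wnd 5, wnd t) = (wnd (5 l - p t), ..)`: winding number `-p`, so `τ_j ^ p = 1`, hence `τ_j = 1`, and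
   `w_j` is trivial on `gam × closedBall 0 1`.
3. So `w` is trivial on `jB '' ((gam × {j}) × closedBall)`, and `cA` is trivial on
   `tub3 '' ((gam × {j}) × gam)` for each `j`, hence on the disjoint union over `j ∈ J3`
   (`NTriv.union_closed` with empty intersections).
4. `tube_extend`: `c'` on `T3`, trivial on the tubes; `T3_triv`: trivial on `T3`; so `cA` is trivial on `A3`,
   `w` on `jA '' A3`.
5. Add the three solid tori one by one (`NTriv.union_closed`): the intersection with the union of `jA '' A3`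
   and the previous ones is the torus `jB '' ((gam × {j}) × gam)`, connected.
-/

open Set Topology Metric

namespace Pool.H54.UB

theorem NTQ_push {X Y Q : Type*} [TopologicalSpace X] [TopologicalSpace Y] [T2Space Y] [Group Q]
    {K S : Set X} (hK : IsCompact K) {ι : X → Y} (hc : ContinuousOn ι K) (hi : InjOn ι K)
    (hS : S ⊆ K) {w : Y → Y → Q} (h : NTriv (fun a b => w (ι a) (ι b)) S) : NTriv w (ι '' S) := by
  rcases S.eq_empty_or_nonempty with he | ⟨x0, _⟩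
  · rw [he, image_empty]
    exact ⟨fun _ => 1, fun x hx => absurd hx (notMem_empty x)⟩
  · have : Nonempty X := ⟨x0⟩
    have hinv : ∀ q ∈ K, Function.invFunOn ι K (ι q) = q := fun q hq => hi.leftInvOn_invFunOn hq
    have h1 : ContinuousOn (Function.invFunOn ι K) (ι '' S) :=
      (EXT_inv hK hc hi).mono (image_mono hS)
    have h2 : Function.invFunOn ι K '' (ι '' S) = S := by
      ext y
      constructor
      · rintro ⟨_, ⟨z, hz, rfl⟩, rfl⟩
        rw [hinv z (hS hz)]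
        exact hz
      · intro hy
        exact ⟨ι y, ⟨y, hy, rfl⟩, hinv y (hS hy)⟩
    have h3 : NTriv (fun a b => w (ι a) (ι b)) (Function.invFunOn ι K '' (ι '' S)) := by
      rw [h2]; exact h
    have h4 := NTriv.comp h1 h3
    refine EXT_congr ?_ h4
    rintro _ ⟨a, ha, rfl⟩ _ ⟨b, hb, rfl⟩
    show w (ι (Function.invFunOn ι K (ι a))) (ι (Function.invFunOn ι K (ι b))) = w (ι a) (ι b)
    rw [hinv a (hS ha), hinv b (hS hb)]

theorem NTQ_gam_ball : gam ⊆ closedBall (0 : V2) 1 := sphere_subset_closedBall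

theorem NTQ_gam_compact : IsCompact gam := isCompact_sphere _ _

theorem NTQ_J3_fin : J3.Finite := by
  unfold J3
  exact Set.toFinite _

/-- adding one solid torus -/
theorem NTQ_step {H : Type*} [NormedAddCommGroup H] [NormedSpace ℝ H] [FiniteDimensional ℝ H]
    {φ : (V2 × ℝ) × V2 → V6} {jA : V6 → H} {jB : (V2 × ℝ) × V2 → H}
    (g : Glued A3 B3 DB3 φ jA jB) {Q : Type*} [Group Q] {w : H → H → Q}
    (hw : NCoc w (jA '' A3 ∪ jB '' B3)) {J : Set ℝ} (hJ : J ⊆ J3) {j : ℝ} (hj : j ∈ J3)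
    (hjJ : j ∉ J) (h1 : NTriv w (jA '' A3 ∪ jB '' ((gam ×ˢ J) ×ˢ closedBall (0 : V2) 1)))
    (h2 : NTriv w (jB '' ((gam ×ˢ {j}) ×ˢ closedBall (0 : V2) 1))) :
    NTriv w (jA '' A3 ∪ jB '' ((gam ×ˢ insert j J) ×ˢ closedBall (0 : V2) 1)) := by
  have hsubJ : (gam ×ˢ J) ×ˢ closedBall (0 : V2) 1 ⊆ B3 :=
    prod_mono (prod_mono le_rfl hJ) le_rfl
  have hsubj : (gam ×ˢ ({j} : Set ℝ)) ×ˢ closedBall (0 : V2) 1 ⊆ B3 :=
    prod_mono (prod_mono le_rfl (singleton_subset_iff.2 hj)) le_rfl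
  have hcB := g.plB.continuousOn
  have hcA := g.plA.continuousOn
  have hAc : IsCompact (jA '' A3) := g.plA.domain.isCompact.image_of_continuousOn hcA
  have hJc : IsCompact (jB '' ((gam ×ˢ J) ×ˢ closedBall (0 : V2) 1)) :=
    ((NTQ_gam_compact.prod (NTQ_J3_fin.subset hJ).isCompact).prod
      (isCompact_closedBall _ _)).image_of_continuousOn (hcB.mono hsubJ)
  have hjc : IsCompact (jB '' ((gam ×ˢ ({j} : Set ℝ)) ×ˢ closedBall (0 : V2) 1)) :=
    ((NTQ_gam_compact.prod isCompact_singleton).prod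
      (isCompact_closedBall _ _)).image_of_continuousOn (hcB.mono hsubj)
  have e : jA '' A3 ∪ jB '' ((gam ×ˢ insert j J) ×ˢ closedBall (0 : V2) 1) =
      (jA '' A3 ∪ jB '' ((gam ×ˢ J) ×ˢ closedBall (0 : V2) 1)) ∪
        jB '' ((gam ×ˢ ({j} : Set ℝ)) ×ˢ closedBall (0 : V2) 1) := by
    rw [union_assoc, ← image_union]
    congr 2
    ext q
    simp only [mem_prod, mem_insert_iff, mem_union, mem_singleton_iff]
    tauto
  rw [e]
  apply NTriv.union_closed (hAc.isClosed.union hJc.isClosed) hjc.isClosed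
  · apply hw.mono
    rintro y ((hy | hy) | hy)
    · exact Or.inl hy
    · exact Or.inr (image_mono hsubJ hy)
    · exact Or.inr (image_mono hsubj hy)
  · have e2 : (jA '' A3 ∪ jB '' ((gam ×ˢ J) ×ˢ closedBall (0 : V2) 1)) ∩
        jB '' ((gam ×ˢ ({j} : Set ℝ)) ×ˢ closedBall (0 : V2) 1) =
        (fun q : V2 × V2 => jB ((q.1, j), q.2)) '' (gam ×ˢ gam) := by
      ext y
      constructor
      · rintro ⟨hy, q, hq, rfl⟩
        have hqB := hsubj hq
        have hq1 : q.1.2 = j := hq.1.2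
        rcases hy with ⟨x, hx, hxy⟩ | ⟨q', hq', hqq⟩
        · have h3 := (g.sep x hx q hqB hxy).1
          refine ⟨(q.1.1, q.2), ⟨hq.1.1, h3.2⟩, ?_⟩
          simp only
          rw [← hq1]
        · have h4 := g.injB (hsubJ hq') hqB hqq
          rw [h4] at hq'
          exact absurd (hq1 ▸ hq'.1.2) hjJ
      · rintro ⟨q, hq, rfl⟩
        have hDB : (((q.1, j), q.2) : (V2 × ℝ) × V2) ∈ DB3 := ⟨⟨hq.1, hj⟩, hq.2⟩
        refine ⟨Or.inl ⟨φ ((q.1, j), q.2), g.maps hDB, g.comm _ hDB⟩, ?_⟩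
        exact ⟨((q.1, j), q.2), ⟨⟨hq.1, rfl⟩, NTQ_gam_ball hq.2⟩, rfl⟩
    rw [e2]
    apply (gam_conn.isPreconnected.prod gam_conn.isPreconnected).image
    apply hcB.comp
    · fun_prop
    · intro q hq
      exact ⟨⟨hq.1, hj⟩, NTQ_gam_ball hq.2⟩
  · exact h1
  · exact h2

/-- adding one tube boundary -/
theorem NTQ_tube {Q : Type*} [Group Q] {c : V6 → V6 → Q} (hc : NCoc c A3)
    (hA : ∀ j ∈ J3, tub3 '' ((gam ×ˢ ({j} : Set ℝ)) ×ˢ gam) ⊆ A3) {J : Set ℝ} (hJ : J ⊆ J3) {j : ℝ}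
    (hj : j ∈ J3) (hjJ : j ∉ J) (h1 : NTriv c (tub3 '' ((gam ×ˢ J) ×ˢ gam)))
    (h2 : NTriv c (tub3 '' ((gam ×ˢ {j}) ×ˢ gam))) :
    NTriv c (tub3 '' ((gam ×ˢ insert j J) ×ˢ gam)) := by
  have hb : gam ⊆ closedBall (0 : V2) 2 := by
    intro u hu
    have : ‖u‖ = 1 := mem_sphere_zero_iff_norm.1 hu
    rw [mem_closedBall_zero_iff, this]
    norm_num
  have hsubJ : (gam ×ˢ J) ×ˢ gam ⊆ (gam ×ˢ J3) ×ˢ closedBall (0 : V2) 2 :=
    prod_mono (prod_mono le_rfl hJ) hb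
  have hsubj : (gam ×ˢ ({j} : Set ℝ)) ×ˢ gam ⊆ (gam ×ˢ J3) ×ˢ closedBall (0 : V2) 2 :=
    prod_mono (prod_mono le_rfl (singleton_subset_iff.2 hj)) hb
  have hct := tub3_tube.pl.continuousOn
  have hJc : IsCompact (tub3 '' ((gam ×ˢ J) ×ˢ gam)) :=
    ((NTQ_gam_compact.prod (NTQ_J3_fin.subset hJ).isCompact).prod
      NTQ_gam_compact).image_of_continuousOn (hct.mono hsubJ)
  have hjc : IsCompact (tub3 '' ((gam ×ˢ ({j} : Set ℝ)) ×ˢ gam)) :=
    ((NTQ_gam_compact.prod isCompact_singleton).prod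
      NTQ_gam_compact).image_of_continuousOn (hct.mono hsubj)
  have e : tub3 '' ((gam ×ˢ insert j J) ×ˢ gam) =
      tub3 '' ((gam ×ˢ J) ×ˢ gam) ∪ tub3 '' ((gam ×ˢ ({j} : Set ℝ)) ×ˢ gam) := by
    rw [← image_union]
    congr 1
    ext q
    simp only [mem_prod, mem_insert_iff, mem_union, mem_singleton_iff]
    tauto
  rw [e]
  apply NTriv.union_closed hJc.isClosed hjc.isClosed
  · apply hc.mono
    rintro _ (⟨q, hq, rfl⟩ | ⟨q, hq, rfl⟩)
    · exact hA q.1.2 (hJ hq.1.2) ⟨q, ⟨⟨hq.1.1, rfl⟩, hq.2⟩, rfl⟩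
    · exact hA j hj ⟨q, hq, rfl⟩
  · have e2 : tub3 '' ((gam ×ˢ J) ×ˢ gam) ∩ tub3 '' ((gam ×ˢ ({j} : Set ℝ)) ×ˢ gam) = ∅ := by
      apply eq_empty_of_forall_notMem
      rintro y ⟨⟨q, hq, rfl⟩, ⟨q', hq', hqq⟩⟩
      have := tub3_tube.inj (hsubj hq') (hsubJ hq) hqq
      rw [this] at hq'
      have h3 : q.1.2 = j := hq'.1.2
      exact hjJ (h3 ▸ hq.1.2)
    rw [e2]
    exact isPreconnected_empty
  · exact h1
  · exact h2

theorem base_qtriv {H : Type*} [NormedAddCommGroup H] [NormedSpace ℝ H] [FiniteDimensional ℝ H]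
    {p l : ℕ} (hp : p.Prime) (hpl : ¬ p ∣ l) {a c : ℤ} (hdet : a * l - p * c = 1)
    {T T' : V2 × V2 → V2 × V2} (hT : PLOn T (gam ×ˢ gam)) (hT' : PLOn T' (gam ×ˢ gam))
    (hTT : ∀ q ∈ gam ×ˢ gam, T' (T q) = q ∧ T (T' q) = q ∧ T' q ∈ gam ×ˢ gam)
    (hTm : MapsTo T (gam ×ˢ gam) (gam ×ˢ gam))
    (hTf : ∀ s t : ℝ, T (wnd s, wnd t) = (wnd (a * s + p * t), wnd (c * s + l * t)))
    (hTf' : ∀ s t : ℝ, T' (wnd s, wnd t) = (wnd (l * s - p * t), wnd (-c * s + a * t)))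
    {jA : V6 → H} {jB : (V2 × ℝ) × V2 → H} (g : Glued A3 B3 DB3 (phi3 T) jA jB)
    (Q : Type*) [Group Q] (hl : ∀ q : Q, q ^ l = 1) : QTriv Q (jA '' A3 ∪ jB '' B3) := by
  intro w hw
  have hcA := g.plA.continuousOn
  have hcB := g.plB.continuousOn
  have hct := tub3_tube.pl.continuousOn
  have hcT' := hT'.continuousOn
  have hwA : NCoc (fun a b => w (jA a) (jA b)) A3 := NCoc.comp hcA (hw.mono subset_union_left)
  -- the corresponding points
  have hcorr : ∀ j ∈ J3, ∀ z ∈ gam, ∀ u ∈ gam,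
      jB (((T' (z, u)).1, j), (T' (z, u)).2) = jA (tub3 ((z, j), u)) ∧ tub3 ((z, j), u) ∈ A3 := by
    intro j hj z hz u hu
    obtain ⟨-, h2, h3⟩ := hTT (z, u) ⟨hz, hu⟩
    have hDB : ((((T' (z, u)).1, j), (T' (z, u)).2) : (V2 × ℝ) × V2) ∈ DB3 := ⟨⟨h3.1, hj⟩, h3.2⟩
    have e : phi3 T (((T' (z, u)).1, j), (T' (z, u)).2) = tub3 ((z, j), u) := by
      unfold phi3
      have e1 : T ((T' (z, u)).1, (T' (z, u)).2) = (z, u) := h2
      simp only [e1]
    have h4 := g.comm _ hDB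
    have h5 := g.maps hDB
    rw [e] at h4 h5
    exact ⟨h4.symm, h5⟩
  -- the solid tori
  have hmapj : ∀ j ∈ J3, ContinuousOn (fun q : V2 × V2 => jB ((q.1, j), q.2))
      (gam ×ˢ closedBall (0 : V2) 1) := by
    intro j hj
    apply hcB.comp
    · fun_prop
    · intro q hq
      exact ⟨⟨hq.1, hj⟩, hq.2⟩
  have hCne : (closedBall (0 : V2) 1).Nonempty := ⟨0, mem_closedBall_self zero_le_one⟩
  have hτ : ∀ j ∈ J3, ∃ τ : Q,
      (τ = 1 → NTriv (fun q q' : V2 × V2 => w (jB ((q.1, j), q.2)) (jB ((q'.1, j), q'.2)))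
        (gam ×ˢ closedBall (0 : V2) 1)) ∧
      ∀ (n : ℤ) (r : ℝ) (κ : V2 → V2 × V2), ContinuousOn κ gam →
        MapsTo κ gam (gam ×ˢ closedBall (0 : V2) 1) →
        (∀ s : ℝ, (κ (wnd s)).1 = wnd (n * s + r)) →
        (NTriv (fun a b => w (jB (((κ a).1, j), (κ a).2)) (jB (((κ b).1, j), (κ b).2))) gam ↔
          τ ^ n = 1) := by
    intro j hj
    have h1 : NCoc (fun q q' : V2 × V2 => w (jB ((q.1, j), q.2)) (jB ((q'.1, j), q'.2)))
        (gam ×ˢ closedBall (0 : V2) 1) := by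
      apply NCoc.comp (hmapj j hj)
      apply hw.mono
      rintro _ ⟨q, hq, rfl⟩
      exact Or.inr ⟨_, ⟨⟨hq.1, hj⟩, hq.2⟩, rfl⟩
    exact solid_torus (convex_closedBall _ _) hCne h1
  choose! τ hτ1 hτ2 using hτ
  -- step 1
  have hstep1 : ∀ j ∈ J3, ∀ u ∈ gam, NTriv (fun a b : V2 =>
      w (jA (tub3 ((a, j), u))) (jA (tub3 ((b, j), u)))) gam := by
    intro j hj u hu
    obtain ⟨t, -, ht⟩ := wnd_surj 0 hu
    have hκc : ContinuousOn (fun z : V2 => T' (z, u)) gam := by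
      apply hcT'.comp
      · fun_prop
      · intro z hz
        exact ⟨hz, hu⟩
    have h1 := (hτ2 j hj l (-(p * t)) (fun z => T' (z, u)) hκc (by
        intro z hz
        have := (hTT (z, u) ⟨hz, hu⟩).2.2
        exact ⟨this.1, NTQ_gam_ball this.2⟩) (by
        intro s
        have := hTf' s t
        rw [ht] at this
        simp only [this]
        push_cast
        rw [sub_eq_add_neg])).2 (by
        rw [zpow_natCast]
        exact hl _)
    refine EXT_congr ?_ h1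
    intro a ha b hb
    rw [(hcorr j hj a ha u hu).1, (hcorr j hj b hb u hu).1]
  -- step 2
  have hmu := A3_mu hwA hstep1
  have hτ3 : ∀ j ∈ J3, τ j = 1 := by
    intro j hj
    have h5 : wnd 5 ∈ gam := wnd_mem 5
    have hκc : ContinuousOn (fun u : V2 => T' (wnd 5, u)) gam := by
      apply hcT'.comp
      · fun_prop
      · intro z hz
        exact ⟨h5, hz⟩
    have h1 := (hτ2 j hj (-p) (l * 5) (fun u => T' (wnd 5, u)) hκc (by
        intro z hz
        have := (hTT (wnd 5, z) ⟨h5, hz⟩).2.2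
        exact ⟨this.1, NTQ_gam_ball this.2⟩) (by
        intro s
        have := hTf' 5 s
        simp only [this]
        push_cast
        congr 1
        ring)).1 (by
        refine EXT_congr ?_ (hmu j hj)
        intro a ha b hb
        rw [(hcorr j hj _ h5 a ha).1, (hcorr j hj _ h5 b hb).1])
    rw [zpow_neg, zpow_natCast, inv_eq_one] at h1
    have h2 := pow_gcd_eq_one.2 ⟨h1, hl (τ j)⟩
    rwa [(hp.coprime_iff_not_dvd.2 hpl).gcd_eq_one, pow_one] at h2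
  -- `w` on the solid tori
  have hSj : ∀ j ∈ J3, NTriv w (jB '' ((gam ×ˢ ({j} : Set ℝ)) ×ˢ closedBall (0 : V2) 1)) := by
    intro j hj
    have h1 := hτ1 j hj (hτ3 j hj)
    have h2 := NTQ_push (w := w) (NTQ_gam_compact.prod (isCompact_closedBall (0 : V2) 1)) (hmapj j hj) (by
      intro q hq q' hq' he
      have := g.injB (show (((q.1, j), q.2) : (V2 × ℝ) × V2) ∈ B3 from ⟨⟨hq.1, hj⟩, hq.2⟩)
        (show (((q'.1, j), q'.2) : (V2 × ℝ) × V2) ∈ B3 from ⟨⟨hq'.1, hj⟩, hq'.2⟩) he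
      have h3 : q.1 = q'.1 := congrArg (fun r : (V2 × ℝ) × V2 => r.1.1) this
      have h4 : q.2 = q'.2 := congrArg (fun r : (V2 × ℝ) × V2 => r.2) this
      exact Prod.ext h3 h4) le_rfl h1
    have e : (fun q : V2 × V2 => jB ((q.1, j), q.2)) '' (gam ×ˢ closedBall (0 : V2) 1) =
        jB '' ((gam ×ˢ ({j} : Set ℝ)) ×ˢ closedBall (0 : V2) 1) := by
      ext y
      constructor
      · rintro ⟨q, hq, rfl⟩
        exact ⟨_, ⟨⟨hq.1, mem_singleton j⟩, hq.2⟩, rfl⟩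
      · rintro ⟨q, hq, rfl⟩
        have hq1 : q.1.2 = j := hq.1.2
        refine ⟨(q.1.1, q.2), ⟨hq.1.1, hq.2⟩, ?_⟩
        simp only
        rw [← hq1]
    rw [← e]
    exact h2
  -- `cA` on the tube boundaries
  have hAj : ∀ j ∈ J3, tub3 '' ((gam ×ˢ ({j} : Set ℝ)) ×ˢ gam) ⊆ A3 := by
    rintro j hj _ ⟨q, hq, rfl⟩
    have hq1 : q.1.2 = j := hq.1.2
    have := (hcorr j hj q.1.1 hq.1.1 q.2 hq.2).2
    rw [← hq1] at this
    exact this
  have hEj : ∀ j ∈ J3, NTriv (fun a b => w (jA a) (jA b)) (tub3 '' ((gam ×ˢ ({j} : Set ℝ)) ×ˢ gam)) := by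
    intro j hj
    apply NTriv.comp (hcA.mono (hAj j hj))
    apply (hSj j hj).mono
    rintro _ ⟨_, ⟨q, hq, rfl⟩, rfl⟩
    have hq1 : q.1.2 = j := hq.1.2
    have h1 := (hcorr j hj q.1.1 hq.1.1 q.2 hq.2).1
    have h3 := (hTT (q.1.1, q.2) ⟨hq.1.1, hq.2⟩).2.2
    have e : (((q.1.1, j), q.2) : (V2 × ℝ) × V2) = q := by rw [← hq1]
    rw [e] at h1
    rw [← h1]
    exact ⟨_, ⟨⟨h3.1, mem_singleton j⟩, NTQ_gam_ball h3.2⟩, rfl⟩
  have hE : NTriv (fun a b => w (jA a) (jA b)) (tub3 '' ((gam ×ˢ J3) ×ˢ gam)) := by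
    have e0 : tub3 '' ((gam ×ˢ (∅ : Set ℝ)) ×ˢ gam) = ∅ := by simp
    have k0 : NTriv (fun a b => w (jA a) (jA b)) (tub3 '' ((gam ×ˢ (∅ : Set ℝ)) ×ˢ gam)) := by
      rw [e0]
      exact ⟨fun _ => 1, fun x hx => absurd hx (notMem_empty x)⟩
    have m0 : (0 : ℝ) ∈ J3 := by simp [J3]
    have m1 : (1 : ℝ) ∈ J3 := by simp [J3]
    have m2 : (2 : ℝ) ∈ J3 := by simp [J3]
    have k1 := NTQ_tube hwA hAj (empty_subset _) m2 (notMem_empty _) k0 (hEj 2 m2)
    have k2 := NTQ_tube hwA hAj (J := insert 2 ∅)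
      (by intro x hx; simp at hx; rw [hx]; exact m2) m1 (by simp) k1 (hEj 1 m1)
    have k3 := NTQ_tube hwA hAj (J := insert 1 (insert 2 ∅))
      (by intro x hx; simp at hx; rcases hx with h | h <;> rw [h] <;> assumption) m0
      (by simp) k2 (hEj 0 m0)
    have e3 : insert (0 : ℝ) (insert 1 (insert 2 ∅)) = J3 := by simp [J3]
    rwa [e3] at k3
  -- step 4
  have hT3 : IsClosed T3 := (NTQ_gam_compact.prod (NTQ_gam_compact.prod NTQ_gam_compact)).isClosed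
  obtain ⟨c', hc'1, hc'2, hc'3⟩ := tube_extend tub3_tube J3_mfd.1 hT3 (c := fun a b => w (jA a) (jA b))
    hwA hE
  have hA3 : NTriv (fun a b => w (jA a) (jA b)) A3 := by
    apply NTriv.of_local_eq hc'2
    apply (T3_triv hc'1 ?_).mono sdiff_subset
    intro j hj
    have h0 : (0 : V2) ∈ closedBall (0 : V2) 2 := mem_closedBall_self (by norm_num)
    apply NTriv.comp (φ := fun a : V2 => tub3 ((a, j), 0))
    · apply hct.comp
      · fun_prop
      · intro z hz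
        exact ⟨⟨hz, hj⟩, h0⟩
    · apply hc'3.mono
      rintro _ ⟨z, hz, rfl⟩
      exact ⟨_, ⟨⟨hz, hj⟩, h0⟩, rfl⟩
  have hwA3 : NTriv w (jA '' A3) :=
    NTQ_push g.plA.domain.isCompact hcA g.injA le_rfl hA3
  -- step 5
  have m0 : (0 : ℝ) ∈ J3 := by simp [J3]
  have m1 : (1 : ℝ) ∈ J3 := by simp [J3]
  have m2 : (2 : ℝ) ∈ J3 := by simp [J3]
  have e0 : jA '' A3 ∪ jB '' ((gam ×ˢ (∅ : Set ℝ)) ×ˢ closedBall (0 : V2) 1) = jA '' A3 := by simp
  have k0 : NTriv w (jA '' A3 ∪ jB '' ((gam ×ˢ (∅ : Set ℝ)) ×ˢ closedBall (0 : V2) 1)) := by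
    rw [e0]
    exact hwA3
  have k1 := NTQ_step g hw (empty_subset _) m2 (notMem_empty _) k0 (hSj 2 m2)
  have k2 := NTQ_step g hw (J := insert 2 ∅)
    (by intro x hx; simp at hx; rw [hx]; exact m2) m1 (by simp) k1 (hSj 1 m1)
  have k3 := NTQ_step g hw (J := insert 1 (insert 2 ∅))
    (by intro x hx; simp at hx; rcases hx with h | h <;> rw [h] <;> assumption) m0
    (by simp) k2 (hSj 0 m0)
  have e3 : insert (0 : ℝ) (insert 1 (insert 2 ∅)) = J3 := by simp [J3]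
  rw [e3] at k3
  exact k3

end Pool.H54.UB
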