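import Pool.Agent.H54.UB.PUR
import Pool.Agent.H54.UB.GRC

/-!
# Row ORA: the orientation sign of a top simplex, local statement

Setting: `K` triangulates the closed PL manifold `M`, `t` an ordered top simplex,
`C = convexHull (range t)`, `x ∈ C` with `K`-carrier `range t` (an interior point of the simplex),
`(U, h)` a chart at `x`.

Claim: there is a neighbourhood `V` of `x` such that all affine germs of `h` at points of `V` have the
same sign: if `O` is open, `O ∩ C` nonempty, `O ∩ C ⊆ U ∩ V`, `h = B` on `O ∩ C`, similarly `O', B'`, then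
`0 < sdet B t * sdet B' t`.

Proof.  `L, L'` from `chart_refine` (`Y` = hulls of the faces of `K`).  For an `L`-face `a` with `m+1`
vertices contained in `C` let `B_a` be an affine map with `h = B_a` on `convexHull a`; `B_a` is determined
on the affine span of `t`, and `sdet B_a t ≠ 0` (`h(a)` is affinely independent; `sdet_comb`,
`sdet_ne_zero_iff`).  Choose an open ball `D` around `h x` in the cube with `h⁻¹ D ∩ U` contained in the
set of points with `K`-carrier `range t` (`GC.exists_nhd_star`; top faces are maximal), and put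
`V = ` an open set with `V ∩ M ⊆ h⁻¹ D`.
Apply `GC.conn_convex` to `P' (h(a)) :⟺ 0 < sdet B_a t` (resp. `< 0`).  Adjacent faces: `a, b ⊆ C`
(they meet the set of points with `K`-carrier `range t`), `r ⊆ a ∩ b` with `m` vertices, enumerate `r` by
`ρ : Fin m → E`, `a = insert u r`, `b = insert v r`.  In the affine span of `t` (of dimension `m`, spanned
by `b`) write `u = α v + ∑ β_x x`; `α ≠ 0`, and `α < 0` by `GC.no_same_side`.  `B_a = B_b` on `r`; let
`δ z = sdet id (cons z (h ∘ ρ))`.  `δ (h u) * δ (h v) < 0` by `GC.opposite` for `L'`.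
`δ (B_a u) = α δ (B_a v)` (`sdet_cons_comb`, terms with `z ∈ ρ` vanish), so
`sdet B_a (cons v ρ) * sdet B_b (cons v ρ) = δ (B_a v) δ (B_b v) = δ (h u) δ (h v) / α > 0`, and
`sdet_mul_pos_of_comb` gives `0 < sdet B_a t * sdet B_b t`.

A germ `(O, B)` as in the claim: `O ∩ C` contains points with `K`-carrier `range t`, so by
`GC.exists_face_dim` it meets an `L`-face `a ⊆ C` with `m+1` vertices in a point with `L`-carrier `a`, hence
`B = B_a` on a nonempty open subset of the hull of `a`, so on its affine span.  (m+1 affinely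
independent points close to this point.)
-/

open Set Topology

namespace Pool.H54.UB

variable {E : Type*} [NormedAddCommGroup E] [NormedSpace ℝ E] [FiniteDimensional ℝ E]

/-- `B` is an affine germ of the chart `(U, h)` on the simplex `t`, inside the set `V`. -/
def Germ {m : ℕ} (U : Set E) (h : E → Fin m → ℝ) (t : Fin (m + 1) → E) (V : Set E)
    (B : E →ᵃ[ℝ] (Fin m → ℝ)) : Prop :=
  ∃ O : Set E, IsOpen O ∧ (O ∩ convexHull ℝ (range t)).Nonempty ∧
    O ∩ convexHull ℝ (range t) ⊆ U ∩ V ∧ EqOn h B (O ∩ convexHull ℝ (range t))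

/-- enumeration of a finset -/
theorem ORA_enum {α : Type*} (a : Finset α) (n : ℕ) (h : a.card = n) :
    ∃ β : Fin n → α, Function.Injective β ∧ ∀ x, x ∈ a ↔ ∃ i, β i = x := by
  refine ⟨fun i => ((a.equivFinOfCardEq h).symm i : α), ?_, ?_⟩
  · intro i j hij
    exact (a.equivFinOfCardEq h).symm.injective (Subtype.ext hij)
  · intro x
    constructor
    · intro hx
      exact ⟨a.equivFinOfCardEq h ⟨x, hx⟩, by simp⟩
    · rintro ⟨i, rfl⟩
      exact ((a.equivFinOfCardEq h).symm i).2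

theorem ORA_top {m : ℕ} {M : Set E} (hM : IsClosedPLManifold m M) (K : GC E)
    (hK : K.space = M) {t : Fin (m + 1) → E} (ht : t ∈ K.tops m) :
    ∃ s ∈ K.faces, (s : Set E) = range t ∧ s.card = m + 1 := by
  classical
  obtain ⟨hinj, s, hs, hts⟩ := GC.mem_tops.1 ht
  have hcard := (GC.pure hM K hK).2 s hs
  have h1 : (Finset.univ.image t).card = m + 1 := by
    rw [Finset.card_image_of_injective _ hinj, Finset.card_univ, Fintype.card_fin]
  have h2 : Finset.univ.image t ⊆ s := by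
    intro x hx
    obtain ⟨i, _, rfl⟩ := Finset.mem_image.1 hx
    exact hts i
  have h3 : Finset.univ.image t = s := Finset.eq_of_subset_of_card_le h2 (by omega)
  refine ⟨s, hs, ?_, ?_⟩
  · rw [← h3, Finset.coe_image, Finset.coe_univ, image_univ]
  · rw [← h3, h1]

theorem ORA_affind {m : ℕ} {M : Set E} (hM : IsClosedPLManifold m M) (K : GC E)
    (hK : K.space = M) {t : Fin (m + 1) → E} (ht : t ∈ K.tops m) : AffineIndependent ℝ t := by
  obtain ⟨s, hs, hsr, _⟩ := ORA_top hM K hK ht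
  obtain ⟨hinj, _⟩ := GC.mem_tops.1 ht
  have hmem : ∀ i, t i ∈ s := by
    intro i
    have : t i ∈ (s : Set E) := by rw [hsr]; exact ⟨i, rfl⟩
    exact this
  have h1 := (GC.affineIndependent hs).comp_embedding
    ⟨fun i => (⟨t i, hmem i⟩ : s), fun i j hij => hinj (congrArg Subtype.val hij)⟩
  exact h1

/-- data of a refinement adapted to a chart -/
structure ORA_CD {m : ℕ} (K : GC E) (U : Set E) (h : E → Fin m → ℝ) (L : GC E)
    (L' : GC (Fin m → ℝ)) : Prop where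
  space : L.space = U
  ad : ∀ s ∈ K.faces, L.Adapted (convexHull ℝ (s : Set E))
  aff : ∀ s ∈ L.faces, AffOn h (convexHull ℝ (s : Set E))
  inj : InjOn h U
  sp' : L'.space = cube m
  faces' : ∀ s' : Finset (Fin m → ℝ), s' ∈ L'.faces ↔
    ∃ s ∈ L.faces, (s' : Set (Fin m → ℝ)) = h '' (s : Set E)
  hull : ∀ s ∈ L.faces, h '' convexHull ℝ (s : Set E) = convexHull ℝ (h '' (s : Set E))

theorem ORA_exists {m : ℕ} {M U : Set E} {h : E → Fin m → ℝ} (K : GC E)
    (hc : IsChart m M U h) : ∃ L L', ORA_CD K U h L L' := by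
  obtain ⟨Y, hY1, hY2⟩ := K.exists_hulls
  obtain ⟨L, L', h1, h2, h3, h4, h5, _, h7⟩ := chart_refine hc Y hY2
  exact ⟨L, L', ⟨h1, fun s hs => h2 _ ((hY1 _).2 ⟨s, hs, rfl⟩), h3, hc.2.2.1, h4, h5, h7⟩⟩

section CD

variable {m : ℕ} {K : GC E} {U : Set E} {h : E → Fin m → ℝ} {L : GC E} {L' : GC (Fin m → ℝ)}

omit [FiniteDimensional ℝ E] in
theorem ORA_CD.hullU (hd : ORA_CD K U h L L') {s : Finset E} (hs : s ∈ L.faces) :
    convexHull ℝ (s : Set E) ⊆ U := by
  rw [← hd.space]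
  exact subset_biUnion_of_mem (u := fun t : Finset E => convexHull ℝ (t : Set E)) hs

omit [FiniteDimensional ℝ E] in
theorem ORA_CD.subU (hd : ORA_CD K U h L L') {s : Finset E} (hs : s ∈ L.faces) :
    (s : Set E) ⊆ U :=
  (subset_convexHull ℝ _).trans (hd.hullU hs)

omit [FiniteDimensional ℝ E] in
theorem ORA_CD.img (hd : ORA_CD K U h L L') {s : Finset E} (hs : s ∈ L.faces) :
    ∃ s' ∈ L'.faces, (s' : Set (Fin m → ℝ)) = h '' (s : Set E) ∧ s'.card = s.card := by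
  classical
  have h1 : ((s.image h : Finset (Fin m → ℝ)) : Set (Fin m → ℝ)) = h '' (s : Set E) :=
    Finset.coe_image
  refine ⟨s.image h, (hd.faces' _).2 ⟨s, hs, h1⟩, h1, ?_⟩
  exact Finset.card_image_of_injOn (hd.inj.mono (hd.subU hs))

omit [FiniteDimensional ℝ E] in
theorem ORA_CD.card (hd : ORA_CD K U h L L') {s : Finset E} (hs : s ∈ L.faces) :
    s.card ≤ m + 1 := by
  obtain ⟨s', hs', _, hc⟩ := hd.img hs
  rw [← hc]
  exact L'.card_le hs'

omit [FiniteDimensional ℝ E] in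
theorem ORA_CD.ind (hd : ORA_CD K U h L L') {s : Finset E} (hs : s ∈ L.faces)
    {β : Fin (m + 1) → E} (hβ : Function.Injective β) (hβs : ∀ i, β i ∈ s) :
    AffineIndependent ℝ (fun i => h (β i)) := by
  obtain ⟨s', hs', hc, _⟩ := hd.img hs
  have hmem : ∀ i, h (β i) ∈ s' := by
    intro i
    have : h (β i) ∈ (s' : Set (Fin m → ℝ)) := by
      rw [hc]
      exact ⟨β i, hβs i, rfl⟩
    exact this
  have h1 := (GC.affineIndependent hs').comp_embedding
    ⟨fun i => (⟨h (β i), hmem i⟩ : s'), fun i j hij => hβ (hd.inj (hd.subU hs (hβs i))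
      (hd.subU hs (hβs j)) (congrArg Subtype.val hij))⟩
  exact h1

end CD

omit [FiniteDimensional ℝ E] in
theorem ORA_same {m : ℕ} {h : E → Fin m → ℝ} (B1 B2 : E →ᵃ[ℝ] (Fin m → ℝ))
    (t β : Fin (m + 1) → E) (hβ : ∀ i, β i ∈ affineSpan ℝ (range t))
    (h1 : ∀ i, B1 (β i) = h (β i)) (h2 : ∀ i, B2 (β i) = h (β i))
    (hi : AffineIndependent ℝ (fun i => h (β i))) : 0 < sdet B1 t * sdet B2 t := by
  refine sdet_mul_pos_of_comb B1 B2 t β hβ ?_
  have e1 : sdet B1 β = sdet h β := sdet_congr h1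
  have e2 : sdet B2 β = sdet h β := sdet_congr h2
  rw [e1, e2]
  exact mul_self_pos.2 ((sdet_ne_zero_iff h β).2 hi)

omit [FiniteDimensional ℝ E] in
theorem ORA_move (b : Finset E) (hb : b.Nonempty) {y : E} (hy : y ∈ convexHull ℝ (b : Set E))
    {O : Set E} (hO : IsOpen O) (hyO : y ∈ O) :
    ∃ w : E → ℝ, (∀ z ∈ b, 0 < w z) ∧ ∑ z ∈ b, w z = 1 ∧ ∑ z ∈ b, w z • z ∈ O := by
  obtain ⟨w, hw0, hw1, hwy⟩ := Finset.mem_convexHull'.1 hy
  have hn : (0 : ℝ) < b.card := by exact_mod_cast hb.card_pos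
  obtain ⟨g, hg⟩ : ∃ g : E, g = ∑ z ∈ b, (1 / (b.card : ℝ)) • z := ⟨_, rfl⟩
  have hφ : Continuous (fun ε : ℝ => (1 - ε) • y + ε • g) := by fun_prop
  have h1 : ∀ᶠ ε in 𝓝[>] (0 : ℝ), (1 - ε) • y + ε • g ∈ O := by
    have h3 : (fun ε : ℝ => (1 - ε) • y + ε • g) ⁻¹' O ∈ 𝓝 (0 : ℝ) := by
      apply hφ.continuousAt.preimage_mem_nhds
      have : (1 - (0 : ℝ)) • y + (0 : ℝ) • g = y := by simp
      rw [this]
      exact hO.mem_nhds hyO
    exact nhdsWithin_le_nhds h3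
  have h2 : ∀ᶠ ε in 𝓝[>] (0 : ℝ), ε ∈ Ioo (0 : ℝ) 1 := Ioo_mem_nhdsGT (by norm_num)
  obtain ⟨ε, h1, h2⟩ := (h1.and h2).exists
  refine ⟨fun z => (1 - ε) * w z + ε * (1 / (b.card : ℝ)), ?_, ?_, ?_⟩
  · intro z hz
    have h3 : 0 ≤ (1 - ε) * w z := mul_nonneg (by linarith [h2.2]) (hw0 z hz)
    have h4 : 0 < ε * (1 / (b.card : ℝ)) := mul_pos h2.1 (by positivity)
    linarith
  · rw [Finset.sum_add_distrib, ← Finset.mul_sum, hw1, Finset.sum_const, nsmul_eq_mul]
    field_simp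
    ring
  · have h5 : ∑ z ∈ b, ((1 - ε) * w z + ε * (1 / (b.card : ℝ))) • z = (1 - ε) • y + ε • g := by
      rw [hg, ← hwy, Finset.smul_sum, Finset.smul_sum, ← Finset.sum_add_distrib]
      refine Finset.sum_congr rfl ?_
      intro z _
      rw [add_smul, mul_smul, mul_smul]
    rw [h5]
    exact h1

omit [FiniteDimensional ℝ E] in
/-- affine maps that agree near a point of a convex set agree on it -/
theorem ORA_ext {F : Type*} [AddCommGroup F] [Module ℝ F] (B B' : E →ᵃ[ℝ] F) {C O : Set E}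
    (hC : Convex ℝ C) (hO : IsOpen O) {y : E} (hyO : y ∈ O) (hyC : y ∈ C)
    (hEq : EqOn B B' (O ∩ C)) : EqOn B B' C := by
  intro z hz
  have hφ : Continuous (fun ε : ℝ => (1 - ε) • y + ε • z) := by fun_prop
  have h1 : ∀ᶠ ε in 𝓝[>] (0 : ℝ), (1 - ε) • y + ε • z ∈ O := by
    have h3 : (fun ε : ℝ => (1 - ε) • y + ε • z) ⁻¹' O ∈ 𝓝 (0 : ℝ) := by
      apply hφ.continuousAt.preimage_mem_nhds
      have : (1 - (0 : ℝ)) • y + (0 : ℝ) • z = y := by simp
      rw [this]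
      exact hO.mem_nhds hyO
    exact nhdsWithin_le_nhds h3
  have h2 : ∀ᶠ ε in 𝓝[>] (0 : ℝ), ε ∈ Ioo (0 : ℝ) 1 := Ioo_mem_nhdsGT (by norm_num)
  obtain ⟨ε, h1, h2⟩ := (h1.and h2).exists
  have hmem : (1 - ε) • y + ε • z ∈ C := hC hyC hz (by linarith [h2.2]) h2.1.le (by ring)
  have h3 := hEq ⟨h1, hmem⟩
  have h4 := hEq ⟨hyO, hyC⟩
  have h5 : (1 - ε) • y + ε • z = AffineMap.lineMap y z ε := by
    rw [AffineMap.lineMap_apply_module]
  rw [h5, AffineMap.apply_lineMap, AffineMap.apply_lineMap, AffineMap.lineMap_apply_module,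
    AffineMap.lineMap_apply_module, h4] at h3
  have h6 : ε • B z = ε • B' z := add_left_cancel h3
  exact smul_right_injective F h2.1.ne' h6

theorem exists_germ {m : ℕ} {M : Set E} (hM : IsClosedPLManifold m M) (K : GC E)
    (hK : K.space = M) {t : Fin (m + 1) → E} (ht : t ∈ K.tops m) {U : Set E} {h : E → Fin m → ℝ}
    (hc : IsChart m M U h) {V : Set E} (hV : IsOpen V)
    (hne : ∃ x ∈ V, U ∈ 𝓝[M] x ∧ x ∈ convexHull ℝ (range t)) :
    ∃ B, Germ U h t V B := by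
  obtain ⟨x, hxV, hxU, hxC⟩ := hne
  obtain ⟨st, hst, hstr, hstc⟩ := ORA_top hM K hK ht
  obtain ⟨L, L', hd⟩ := ORA_exists K hc
  obtain ⟨O1, hO1, hxO1, hsub1⟩ := mem_nhdsWithin.1 hxU
  have hCM : convexHull ℝ (st : Set E) ⊆ M := by
    rw [← hK]
    exact subset_biUnion_of_mem (u := fun t : Finset E => convexHull ℝ (t : Set E)) hst
  rw [← hstr] at hxC
  obtain ⟨b, hb, hbc, hbC, y, hyO, hyb, hyK⟩ := GC.exists_face_dim (L := L) hst (hd.ad st hst)
    (hO1.inter hV) ⟨hxO1, hxV⟩ hxC (by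
      rw [hd.space]
      rintro z ⟨hz1, hz2⟩
      exact hsub1 ⟨hz2.1, hCM hz1⟩)
  obtain ⟨U0, hU0, hstar⟩ := GC.exists_nhd_star hyb
  have hcar : ∀ z ∈ U0 ∩ L.space, z ∈ convexHull ℝ (b : Set E) := by
    rintro z ⟨hz0, hzL⟩
    obtain ⟨c, hcz⟩ := GC.exists_carrier' hzL
    have h1 := hstar z ⟨hz0, hzL⟩ c hcz
    have h2 := hd.card hcz.1
    have h3 : b = c := Finset.eq_of_subset_of_card_le h1 (by omega)
    rw [h3]
    exact hcz.mem_hull
  obtain ⟨B, hB⟩ := hd.aff b hb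
  refine ⟨B, interior U0 ∩ (O1 ∩ V), isOpen_interior.inter (hO1.inter hV), ⟨y,
    ⟨mem_interior_iff_mem_nhds.2 hU0, hyO⟩, ?_⟩, ?_, ?_⟩
  · rw [← hstr]
    exact hbC hyb.mem_hull
  · rintro z ⟨⟨hz0, hz1, hz2⟩, hzC⟩
    rw [← hstr] at hzC
    exact ⟨hsub1 ⟨hz1, hCM hzC⟩, hz2⟩
  · rintro z ⟨⟨hz0, hz1, hz2⟩, hzC⟩
    rw [← hstr] at hzC
    refine hB (hcar z ⟨interior_subset hz0, ?_⟩)
    rw [hd.space]
    exact hsub1 ⟨hz1, hCM hzC⟩

theorem germ_ne_zero {m : ℕ} {M : Set E} (hM : IsClosedPLManifold m M) (K : GC E)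
    (hK : K.space = M) {t : Fin (m + 1) → E} (ht : t ∈ K.tops m) {U : Set E} {h : E → Fin m → ℝ}
    (hc : IsChart m M U h) {V : Set E} {B : E →ᵃ[ℝ] (Fin m → ℝ)} (hB : Germ U h t V B) :
    sdet B t ≠ 0 := by
  obtain ⟨st, hst, hstr, hstc⟩ := ORA_top hM K hK ht
  have htA := ORA_affind hM K hK ht
  obtain ⟨hinj, _⟩ := GC.mem_tops.1 ht
  obtain ⟨O, hO, ⟨x0, hx0O, hx0C⟩, hsub, hEq⟩ := hB
  rw [← hstr] at hx0C
  obtain ⟨w, hw0, hw1, hwO⟩ := ORA_move st (K.ne st hst) hx0C hO hx0O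
  have hst' : st = Finset.univ.map ⟨t, hinj⟩ := by
    apply Finset.coe_injective
    rw [hstr, Finset.coe_map, Finset.coe_univ, image_univ]
    rfl
  have hw0' : ∀ i, 0 < w (t i) := by
    intro i
    apply hw0
    have : t i ∈ (st : Set E) := by rw [hstr]; exact ⟨i, rfl⟩
    exact this
  have hw1' : ∑ i, w (t i) = 1 := by
    rw [← hw1, hst', Finset.sum_map]
    rfl
  have hwO' : ∑ i, w (t i) • t i ∈ O := by
    have : ∑ z ∈ st, w z • z = ∑ i, w (t i) • t i := by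
      rw [hst', Finset.sum_map]
      rfl
    rw [← this]
    exact hwO
  rw [sdet_ne_zero_iff, affineIndependent_iff]
  intro s c hc0 hc1 e he
  classical
  obtain ⟨v, hv⟩ : ∃ v : E, v = ∑ e ∈ s, c e • t e := ⟨_, rfl⟩
  have hdec : ∀ z, B z = B.linear z + B 0 := by
    intro z
    have := congrFun B.decomp z
    simpa using this
  have hlin : B.linear v = 0 := by
    rw [hv, map_sum]
    have h1 : ∀ e ∈ s, B.linear (c e • t e) = c e • B (t e) - c e • B 0 := by
      intro e _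
      rw [map_smul, hdec (t e), smul_add, add_sub_cancel_right]
    rw [Finset.sum_congr rfl h1, Finset.sum_sub_distrib, hc1, ← Finset.sum_smul, hc0, zero_smul,
      sub_zero]
  obtain ⟨x, hx⟩ : ∃ x : E, x = ∑ i, w (t i) • t i := ⟨_, rfl⟩
  rw [← hx] at hwO'
  obtain ⟨c', hc'⟩ : ∃ c' : Fin (m + 1) → ℝ, c' = fun i => if i ∈ s then c i else 0 := ⟨_, rfl⟩
  have hc's : ∑ i, c' i = 0 := by
    rw [hc', Finset.sum_ite_mem, Finset.univ_inter]
    exact hc0
  have hc'v : ∑ i, c' i • t i = v := by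
    rw [hv, hc']
    simp only [ite_smul, zero_smul]
    rw [Finset.sum_ite_mem, Finset.univ_inter]
  have h1 : ∀ᶠ δ in 𝓝[>] (0 : ℝ), x + δ • v ∈ O := by
    have hφ : Continuous (fun δ : ℝ => x + δ • v) := by fun_prop
    have h3 : (fun δ : ℝ => x + δ • v) ⁻¹' O ∈ 𝓝 (0 : ℝ) := by
      apply hφ.continuousAt.preimage_mem_nhds
      rw [zero_smul, add_zero]
      exact hO.mem_nhds hwO'
    exact nhdsWithin_le_nhds h3
  have h2 : ∀ᶠ δ in 𝓝[>] (0 : ℝ), ∀ i, 0 < w (t i) + δ * c' i := by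
    rw [Filter.eventually_all]
    intro i
    have hφ : Continuous (fun δ : ℝ => w (t i) + δ * c' i) := by fun_prop
    have h3 : (fun δ : ℝ => w (t i) + δ * c' i) ⁻¹' (Ioi 0) ∈ 𝓝 (0 : ℝ) := by
      apply hφ.continuousAt.preimage_mem_nhds
      rw [zero_mul, add_zero]
      exact isOpen_Ioi.mem_nhds (hw0' i)
    exact nhdsWithin_le_nhds h3
  have h3 : ∀ᶠ δ in 𝓝[>] (0 : ℝ), 0 < δ := eventually_mem_nhdsWithin
  obtain ⟨δ, ⟨h1, h2⟩, h3⟩ := ((h1.and h2).and h3).exists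
  have hxC : x ∈ convexHull ℝ (range t) := by
    rw [hx]
    exact (convex_convexHull ℝ _).sum_mem (fun i _ => (hw0' i).le) hw1'
      (fun i _ => subset_convexHull ℝ _ ⟨i, rfl⟩)
  have hxC' : x + δ • v ∈ convexHull ℝ (range t) := by
    have h4 : x + δ • v = ∑ i, (w (t i) + δ * c' i) • t i := by
      rw [hx, ← hc'v, Finset.smul_sum, ← Finset.sum_add_distrib]
      refine Finset.sum_congr rfl ?_
      intro i _
      rw [add_smul, mul_smul]
    rw [h4]
    refine (convex_convexHull ℝ _).sum_mem (fun i _ => (h2 i).le) ?_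
      (fun i _ => subset_convexHull ℝ _ ⟨i, rfl⟩)
    rw [Finset.sum_add_distrib, hw1', ← Finset.mul_sum, hc's, mul_zero, add_zero]
  have h5 : h (x + δ • v) = h x := by
    rw [hEq ⟨h1, hxC'⟩, hEq ⟨hwO', hxC⟩, hdec (x + δ • v), hdec x, map_add, map_smul, hlin,
      smul_zero, add_zero]
  have h6 : x + δ • v = x := hc.2.2.1 (hsub ⟨h1, hxC'⟩).1 (hsub ⟨hwO', hxC⟩).1 h5
  have h7 : v = 0 := by
    have h8 : δ • v = 0 := by
      have := add_eq_left.1 h6
      exact this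
    exact (smul_eq_zero.1 h8).resolve_left h3.ne'
  rw [affineIndependent_iff] at htA
  exact htA s c hc0 (by rw [← hv, h7]) e he

theorem ORA_pos {a c : ℝ} (h : 0 < a * c ^ 2) : 0 < a := by
  by_contra hcon
  push Not at hcon
  have := mul_nonpos_of_nonpos_of_nonneg hcon (sq_nonneg c)
  linarith

omit [FiniteDimensional ℝ E] in
/-- germs in adjacent simplices -/
theorem ORA_adj {m : ℕ} {K : GC E} {U : Set E} {h : E → Fin m → ℝ} {L : GC E}
    {L' : GC (Fin m → ℝ)} (hd : ORA_CD K U h L L') {a b r : Finset E} (ha : a ∈ L.faces)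
    (hb : b ∈ L.faces) (hac : a.card = m + 1) (hbc : b.card = m + 1) (hab : a ≠ b) (hra : r ⊆ a)
    (hrb : r ⊆ b) (hrc : r.card = m) (hrne : r.Nonempty) {t : Fin (m + 1) → E}
    (htA : AffineIndependent ℝ t)
    (haC : convexHull ℝ (a : Set E) ⊆ convexHull ℝ (range t))
    (hbC : convexHull ℝ (b : Set E) ⊆ convexHull ℝ (range t)) {Ba Bb : E →ᵃ[ℝ] (Fin m → ℝ)}
    (hBa : EqOn h Ba (convexHull ℝ (a : Set E))) (hBb : EqOn h Bb (convexHull ℝ (b : Set E))) :
    0 < sdet Ba t * sdet Bb t := by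
  classical
  obtain ⟨u, hur, hua⟩ := Finset.exists_eq_insert_iff.2 (⟨hra, by omega⟩ : r ⊆ a ∧ r.card + 1 = a.card)
  obtain ⟨v, hvr, hvb⟩ := Finset.exists_eq_insert_iff.2 (⟨hrb, by omega⟩ : r ⊆ b ∧ r.card + 1 = b.card)
  obtain ⟨ρ, hρ, hρr⟩ := ORA_enum r m hrc
  have hρm : ∀ i, ρ i ∈ r := fun i => (hρr _).2 ⟨i, rfl⟩
  have huam : u ∈ a := by rw [← hua]; exact Finset.mem_insert_self u r
  have hvbm : v ∈ b := by rw [← hvb]; exact Finset.mem_insert_self v r
  -- the enumeration of b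
  obtain ⟨β, hβ⟩ : ∃ β : Fin (m + 1) → E, β = Fin.cons v ρ := ⟨_, rfl⟩
  have hβ0 : β 0 = v := by rw [hβ, Fin.cons_zero]
  have hβs : ∀ i : Fin m, β i.succ = ρ i := by intro i; rw [hβ, Fin.cons_succ]
  have hβinj : Function.Injective β := by
    rw [hβ, Fin.cons_injective_iff]
    refine ⟨?_, hρ⟩
    rintro ⟨i, hi⟩
    exact hvr (hi ▸ hρm i)
  have hβb : ∀ i, β i ∈ b := by
    intro i
    refine Fin.cases ?_ (fun j => ?_) i
    · rw [hβ0]; exact hvbm
    · rw [hβs]; exact hrb (hρm j)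
  have hspanC : ∀ z ∈ convexHull ℝ (range t), z ∈ affineSpan ℝ (range t) :=
    fun z hz => convexHull_subset_affineSpan _ hz
  have hβsp : ∀ i, β i ∈ affineSpan ℝ (range t) :=
    fun i => hspanC _ (hbC (subset_convexHull ℝ _ (hβb i)))
  have hβind : AffineIndependent ℝ β := by
    have h1 := (GC.affineIndependent hb).comp_embedding
      ⟨fun i => (⟨β i, hβb i⟩ : b), fun i j hij => hβinj (congrArg Subtype.val hij)⟩
    exact h1
  have hspan : affineSpan ℝ (range β) = affineSpan ℝ (range t) := by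
    refine hβind.affineSpan_eq_of_le_of_card_eq_finrank_add_one ?_ ?_
    · rw [affineSpan_le]
      rintro _ ⟨i, rfl⟩
      exact hβsp i
    · rw [direction_affineSpan, htA.finrank_vectorSpan (n := m) (by simp), Fintype.card_fin]
  have husp : u ∈ affineSpan ℝ (range β) := by
    rw [hspan]
    exact hspanC _ (haC (subset_convexHull ℝ _ huam))
  obtain ⟨w, hw1, hwu⟩ := eq_affineCombination_of_mem_affineSpan_of_fintype husp
  rw [Finset.affineCombination_eq_linear_combination _ _ _ hw1] at hwu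
  rw [Fin.sum_univ_succ] at hw1 hwu
  simp only [hβs, hβ0] at hwu
  -- the function on r
  obtain ⟨γ, hγ⟩ : ∃ γ : E → ℝ, ∀ i, γ (ρ i) = w i.succ :=
    ⟨Function.extend ρ (fun i => w i.succ) 0, fun i => hρ.extend_apply _ _ i⟩
  have hrmap : r = Finset.univ.map ⟨ρ, hρ⟩ := by
    ext z
    rw [hρr, Finset.mem_map]
    constructor
    · rintro ⟨i, hi⟩; exact ⟨i, Finset.mem_univ _, hi⟩
    · rintro ⟨i, _, hi⟩; exact ⟨i, hi⟩
  have hsum1 : w 0 + ∑ x ∈ r, γ x = 1 := by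
    rw [hrmap, Finset.sum_map, ← hw1]
    congr 1
    exact Finset.sum_congr rfl (fun i _ => hγ i)
  have hsum2 : u = w 0 • v + ∑ x ∈ r, γ x • x := by
    rw [hrmap, Finset.sum_map, hwu]
    congr 1
    refine Finset.sum_congr rfl (fun i _ => ?_)
    change w i.succ • ρ i = γ (ρ i) • ρ i
    rw [hγ i]
  have hα : ¬ 0 < w 0 := by
    intro hα
    exact L.no_same_side ha hb hab hrne (u := u) (v := v)
      (by rw [← hua, Finset.coe_insert]) (by rw [← hvb, Finset.coe_insert]) hur hvr hα hsum1 hsum2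
  -- opposite signs
  obtain ⟨a', ha', ha'c, ha'n⟩ := hd.img ha
  obtain ⟨b', hb', hb'c, hb'n⟩ := hd.img hb
  have hma : ∀ z ∈ a, h z ∈ a' := by
    intro z hz
    have : h z ∈ (a' : Set (Fin m → ℝ)) := by rw [ha'c]; exact ⟨z, hz, rfl⟩
    exact this
  have hmb : ∀ z ∈ b, h z ∈ b' := by
    intro z hz
    have : h z ∈ (b' : Set (Fin m → ℝ)) := by rw [hb'c]; exact ⟨z, hz, rfl⟩
    exact this
  have hab' : a' ≠ b' := by
    intro he
    apply hab
    apply Finset.coe_injective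
    have h1 : h '' (a : Set E) = h '' (b : Set E) := by rw [← ha'c, ← hb'c, he]
    exact (hd.inj.image_eq_image_iff (hd.subU ha) (hd.subU hb)).1 h1
  have hopp := L'.opposite ha' hb' (by omega) (by omega) hab' (fun i => h (ρ i))
    (fun i j hij => hρ (hd.inj (hd.subU ha (hra (hρm i))) (hd.subU ha (hra (hρm j))) hij))
    (fun i => hma _ (hra (hρm i))) (fun i => hmb _ (hrb (hρm i))) (u := h u) (v := h v)
    (hma u huam)
    (by
      rintro ⟨i, hi⟩
      apply hur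
      rw [← hd.inj (hd.subU ha (hra (hρm i))) (hd.subU ha huam) hi]
      exact hρm i)
    (hmb v hvbm)
    (by
      rintro ⟨i, hi⟩
      apply hvr
      rw [← hd.inj (hd.subU hb (hrb (hρm i))) (hd.subU hb hvbm) hi]
      exact hρm i)
  have hconsu : (fun i => h ((Fin.cons u ρ : Fin (m + 1) → E) i)) =
      (Fin.cons (h u) (fun i => h (ρ i)) : Fin (m + 1) → (Fin m → ℝ)) := by
    funext i
    refine Fin.cases ?_ (fun j => ?_) i
    · rw [Fin.cons_zero, Fin.cons_zero]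
    · rw [Fin.cons_succ, Fin.cons_succ]
  have hconsv : (fun i => h ((Fin.cons v ρ : Fin (m + 1) → E) i)) =
      (Fin.cons (h v) (fun i => h (ρ i)) : Fin (m + 1) → (Fin m → ℝ)) := by
    funext i
    refine Fin.cases ?_ (fun j => ?_) i
    · rw [Fin.cons_zero, Fin.cons_zero]
    · rw [Fin.cons_succ, Fin.cons_succ]
  rw [← hconsu, ← hconsv, ← sdet_comp, ← sdet_comp] at hopp
  have hBaa : ∀ z ∈ a, h z = Ba z := fun z hz => hBa (subset_convexHull ℝ _ hz)
  have hBbb : ∀ z ∈ b, h z = Bb z := fun z hz => hBb (subset_convexHull ℝ _ hz)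
  have e1 : sdet h (Fin.cons u ρ : Fin (m + 1) → E) = sdet Ba (Fin.cons u ρ : Fin (m + 1) → E) := by
    apply sdet_congr
    intro i
    refine Fin.cases ?_ (fun j => ?_) i
    · rw [Fin.cons_zero]; exact hBaa u huam
    · rw [Fin.cons_succ]; exact hBaa _ (hra (hρm j))
  have e2 : sdet h (Fin.cons v ρ : Fin (m + 1) → E) = sdet Bb (Fin.cons v ρ : Fin (m + 1) → E) := by
    apply sdet_congr
    intro i
    refine Fin.cases ?_ (fun j => ?_) i
    · rw [Fin.cons_zero]; exact hBbb v hvbm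
    · rw [Fin.cons_succ]; exact hBbb _ (hrb (hρm j))
  have e3 : sdet Ba (Fin.cons u ρ : Fin (m + 1) → E) =
      w 0 * sdet Ba (Fin.cons v ρ : Fin (m + 1) → E) := by
    have hu2 : u = ∑ i : Fin (m + 1), w i • β i := by
      rw [Fin.sum_univ_succ]
      simp only [hβs, hβ0]
      exact hwu
    have hw2 : ∑ i : Fin (m + 1), w i = 1 := by
      rw [Fin.sum_univ_succ]
      exact hw1
    conv_lhs => rw [hu2]
    rw [sdet_cons_comb Finset.univ w β hw2 Ba ρ, Fin.sum_univ_succ]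
    simp only [hβs, hβ0, sdet_cons_self, mul_zero, Finset.sum_const_zero, add_zero]
  rw [e1, e2, e3] at hopp
  have hw0 : w 0 < 0 := by
    rcases lt_trichotomy (w 0) 0 with h1 | h1 | h1
    · exact h1
    · rw [h1] at hopp
      simp at hopp
    · exact absurd h1 hα
  have hpos : 0 < sdet Ba (Fin.cons v ρ : Fin (m + 1) → E) *
      sdet Bb (Fin.cons v ρ : Fin (m + 1) → E) := by
    have h1 : w 0 * (sdet Ba (Fin.cons v ρ : Fin (m + 1) → E) *
      sdet Bb (Fin.cons v ρ : Fin (m + 1) → E)) < 0 := by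
      rw [← mul_assoc]
      exact hopp
    by_contra hcon
    push Not at hcon
    have h2 := mul_nonneg_of_nonpos_of_nonpos hw0.le hcon
    linarith
  exact sdet_mul_pos_of_comb Ba Bb t (Fin.cons v ρ) (fun i => hβ ▸ hβsp i) hpos

theorem germ_local {m : ℕ} {M : Set E} (hM : IsClosedPLManifold m M) (K : GC E)
    (hK : K.space = M) {t : Fin (m + 1) → E} (ht : t ∈ K.tops m) {U : Set E} {h : E → Fin m → ℝ}
    {x : E} (hc : ChartAt m M U h x) (hx : ∀ s, K.IsCarrier x s → (s : Set E) = range t) :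
    ∃ V : Set E, IsOpen V ∧ x ∈ V ∧ ∀ B B', Germ U h t V B → Germ U h t V B' →
      0 < sdet B t * sdet B' t := by
  obtain ⟨st, hst, hstr, hstc⟩ := ORA_top hM K hK ht
  have htA := ORA_affind hM K hK ht
  obtain ⟨hch, hxU, hUn, hcube⟩ := hc
  obtain ⟨L, L', hd⟩ := ORA_exists K hch
  have hxM : x ∈ M := hch.1 hxU
  have hcont : ContinuousOn h U := hch.2.1.continuousOn
  have hCM : convexHull ℝ (st : Set E) ⊆ M := by
    rw [← hK]
    exact subset_biUnion_of_mem (u := fun t : Finset E => convexHull ℝ (t : Set E)) hst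
  have hxc : K.IsCarrier x st := by
    obtain ⟨s, hs⟩ := GC.exists_carrier' (K := K) (x := x) (by rw [hK]; exact hxM)
    have : s = st := by
      apply Finset.coe_injective
      rw [hx s hs, hstr]
    rwa [this] at hs
  obtain ⟨V0', hV0', hstar⟩ := GC.exists_nhd_star hxc
  have hV0 : ∀ z ∈ interior V0', z ∈ M → z ∈ convexHull ℝ (st : Set E) := by
    intro z hz hzM
    obtain ⟨c, hcz⟩ := GC.exists_carrier' (K := K) (x := z) (by rw [hK]; exact hzM)
    have h1 := hstar z ⟨interior_subset hz, by rw [hK]; exact hzM⟩ c hcz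
    have h2 := (GC.pure hM K hK).2 c hcz.1
    have h3 : st = c := Finset.eq_of_subset_of_card_le h1 (by omega)
    rw [h3]
    exact hcz.mem_hull
  -- faces of L that meet the neighbourhood are in the simplex
  have hsubC : ∀ b ∈ L.faces, ∀ y ∈ convexHull ℝ (b : Set E), y ∈ interior V0' →
      convexHull ℝ (b : Set E) ⊆ convexHull ℝ (st : Set E) := by
    intro b hb y hyb hy
    obtain ⟨w, hw0, hw1, hwO⟩ := ORA_move b (L.ne b hb) hyb isOpen_interior hy
    have h1 : ∑ z ∈ b, w z • z ∈ convexHull ℝ (b : Set E) :=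
      Finset.mem_convexHull'.2 ⟨w, fun z hz => (hw0 z hz).le, hw1, rfl⟩
    exact hd.ad st hst b hb w hw0 hw1 (hV0 _ hwO (hch.1 (hd.hullU hb h1)))
  obtain ⟨D, hDo, hDc, hhx, hDcube, hDpre⟩ : ∃ D : Set (Fin m → ℝ), IsOpen D ∧ Convex ℝ D ∧
      h x ∈ D ∧ D ⊆ cube m ∧ ∀ z ∈ U, h z ∈ D → z ∈ interior V0' := by
    have hcomp : IsCompact (U \ interior V0') :=
      (IsPoly.isCompact hch.2.1.domain).diff isOpen_interior
    have hcl : IsClosed (h '' (U \ interior V0')) :=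
      (hcomp.image_of_continuousOn (hcont.mono sdiff_subset)).isClosed
    have hnot : h x ∉ h '' (U \ interior V0') := by
      rintro ⟨z, ⟨hz1, hz2⟩, hz3⟩
      have := hch.2.2.1 hz1 hxU hz3
      rw [this] at hz2
      exact hz2 (mem_interior_iff_mem_nhds.2 hV0')
    have hopen : IsOpen ((h '' (U \ interior V0'))ᶜ ∩ interior (cube m)) :=
      hcl.isOpen_compl.inter isOpen_interior
    obtain ⟨r, hr, hball⟩ := Metric.isOpen_iff.1 hopen (h x) ⟨hnot, interior_cube_mem hcube⟩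
    refine ⟨Metric.ball (h x) r, Metric.isOpen_ball, convex_ball _ _, Metric.mem_ball_self hr,
      fun z hz => interior_subset (hball hz).2, fun z hz hzD => ?_⟩
    by_contra hcon
    exact (hball hzD).1 ⟨z, ⟨hz, hcon⟩, rfl⟩
  obtain ⟨V, hVo, hxV, hVsub⟩ : ∃ V : Set E, IsOpen V ∧ x ∈ V ∧ V ∩ M ⊆ h ⁻¹' D ∩ U := by
    have h1 : h ⁻¹' D ∈ 𝓝[U] x := (hcont x hxU).preimage_mem_nhdsWithin (hDo.mem_nhds hhx)
    have h2 : 𝓝[M] x ≤ 𝓝[U] x := nhdsWithin_le_of_mem hUn
    have h3 : h ⁻¹' D ∩ U ∈ 𝓝[M] x := Filter.inter_mem (h2 h1) hUn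
    obtain ⟨V, hV1, hV2, hV3⟩ := mem_nhdsWithin.1 h3
    exact ⟨V, hV1, hV2, hV3⟩
  refine ⟨V, hVo, hxV, fun B B' hB hB' => ?_⟩
  have key : ∀ B, Germ U h t V B → ∃ b ∈ L.faces, b.card = m + 1 ∧
      convexHull ℝ (b : Set E) ⊆ convexHull ℝ (range t) ∧
      (∃ z ∈ convexHull ℝ (b : Set E), h z ∈ D) ∧ ∃ Bb : E →ᵃ[ℝ] (Fin m → ℝ),
        EqOn h Bb (convexHull ℝ (b : Set E)) ∧ 0 < sdet B t * sdet Bb t := by
    rintro B ⟨O, hO, ⟨x1, hx1O, hx1C⟩, hsub, hEq⟩
    rw [← hstr] at hx1C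
    obtain ⟨b, hb, hbc, hbC, y, hyO, hyb, hyK⟩ := GC.exists_face_dim (L := L) hst (hd.ad st hst)
      hO hx1O hx1C (by
        rw [hd.space]
        rintro z ⟨hz1, hz2⟩
        rw [hstr] at hz1
        exact (hsub ⟨hz2, hz1⟩).1)
    rw [hstr] at hbC
    obtain ⟨Bb, hBb⟩ := hd.aff b hb
    have hyb' := hyb.mem_hull
    have hbm : b.card = m + 1 := hbc.trans hstc
    have hyV := hsub ⟨hyO, hbC hyb'⟩
    have hyD : h y ∈ D := (hVsub ⟨hyV.2, hch.1 hyV.1⟩).1
    refine ⟨b, hb, hbm, hbC, ⟨y, hyb', hyD⟩, Bb, hBb, ?_⟩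
    have hEq2 : EqOn B Bb (convexHull ℝ (b : Set E)) := by
      refine ORA_ext B Bb (convex_convexHull ℝ _) hO hyO hyb' ?_
      rintro z ⟨hzO, hzb⟩
      rw [← hEq ⟨hzO, hbC hzb⟩]
      exact hBb hzb
    obtain ⟨β, hβ, hβb⟩ := ORA_enum b (m + 1) hbm
    have hβm : ∀ i, β i ∈ b := fun i => (hβb _).2 ⟨i, rfl⟩
    refine ORA_same (h := h) B Bb t β (fun i => convexHull_subset_affineSpan _
      (hbC (subset_convexHull ℝ _ (hβm i)))) (fun i => ?_) (fun i => ?_) (hd.ind hb hβ hβm)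
    · rw [hEq2 (subset_convexHull ℝ _ (hβm i))]
      exact (hBb (subset_convexHull ℝ _ (hβm i))).symm
    · exact (hBb (subset_convexHull ℝ _ (hβm i))).symm
  obtain ⟨b1, hb1, hb1c, hb1C, ⟨z1, hz1, hz1D⟩, B1, hB1, hs1⟩ := key B hB
  obtain ⟨b2, hb2, hb2c, hb2C, ⟨z2, hz2, hz2D⟩, B2, hB2, hs2⟩ := key B' hB'
  obtain ⟨b1', hb1', hb1'c, hb1'n⟩ := hd.img hb1
  obtain ⟨b2', hb2', hb2'c, hb2'n⟩ := hd.img hb2
  have hconn : ∃ a ∈ L.faces, (b2' : Set (Fin m → ℝ)) = h '' (a : Set E) ∧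
      convexHull ℝ (a : Set E) ⊆ convexHull ℝ (range t) ∧ ∃ Ba : E →ᵃ[ℝ] (Fin m → ℝ),
        EqOn h Ba (convexHull ℝ (a : Set E)) ∧ 0 < sdet B t * sdet Ba t := by
    refine L'.conn_convex D hDo hDc (by rw [hd.sp']; exact hDcube)
      (fun s' => ∃ a ∈ L.faces, (s' : Set (Fin m → ℝ)) = h '' (a : Set E) ∧
        convexHull ℝ (a : Set E) ⊆ convexHull ℝ (range t) ∧ ∃ Ba : E →ᵃ[ℝ] (Fin m → ℝ),
        EqOn h Ba (convexHull ℝ (a : Set E)) ∧ 0 < sdet B t * sdet Ba t) ?_ hb1' hb2'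
      (by omega) (by omega) ?_ ?_ ?_
    · rintro a' ha' b' hb' ha'm hb'm ⟨a, ha, haa', haC, Ba, hBa, hsa⟩ ⟨r', z, hzD, hzr, hra', hrb', hrm⟩
      obtain ⟨b, hb, hbb'⟩ := (hd.faces' b').1 hb'
      obtain ⟨r, hr, hrr'⟩ := (hd.faces' r').1 hzr.1
      have hzm := hzr.mem_hull
      rw [hrr', ← hd.hull r hr] at hzm
      obtain ⟨y, hyr, hyz⟩ := hzm
      have hsubr : ∀ (c : Finset E) (c' : Finset (Fin m → ℝ)), c ∈ L.faces →
          (c' : Set (Fin m → ℝ)) = h '' (c : Set E) → r' ⊆ c' → r ⊆ c := by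
        intro c c' hcf hcc' hrc' p hp
        have h1 : h p ∈ (r' : Set (Fin m → ℝ)) := by rw [hrr']; exact ⟨p, hp, rfl⟩
        have h2 : h p ∈ (c' : Set (Fin m → ℝ)) := hrc' h1
        rw [hcc'] at h2
        obtain ⟨p', hp', hpp'⟩ := h2
        have := hd.inj (hd.subU hcf hp') (hd.subU hr hp) hpp'
        rw [← this]
        exact hp'
      have hra := hsubr a a' ha haa' hra'
      have hrb := hsubr b b' hb hbb' hrb'
      have hcardeq : ∀ (c : Finset E) (c' : Finset (Fin m → ℝ)), c ∈ L.faces →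
          (c' : Set (Fin m → ℝ)) = h '' (c : Set E) → c.card = c'.card := by
        intro c c' hcf hcc'
        obtain ⟨c'', _, h2, h3⟩ := hd.img hcf
        have : c'' = c' := by
          apply Finset.coe_injective
          rw [h2, hcc']
        rw [← this, h3]
      have hac := hcardeq a a' ha haa'
      have hbc := hcardeq b b' hb hbb'
      have hrc := hcardeq r r' hr hrr'
      have hyU : y ∈ U := hd.hullU hr hyr
      have hyV0 : y ∈ interior V0' := hDpre y hyU (by rw [hyz]; exact hzD)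
      have hbC : convexHull ℝ (b : Set E) ⊆ convexHull ℝ (range t) := by
        rw [← hstr]
        exact hsubC b hb y (convexHull_mono (by exact_mod_cast hrb) hyr) hyV0
      by_cases hab : a = b
      · subst hab
        exact ⟨a, ha, hbb', haC, Ba, hBa, hsa⟩
      · obtain ⟨Bb, hBb⟩ := hd.aff b hb
        refine ⟨b, hb, hbb', hbC, Bb, hBb, ?_⟩
        have h1 := ORA_adj hd ha hb (by omega) (by omega) hab hra hrb (by omega) (L.ne r hr) htA
          haC hbC hBa hBb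
        have h2 := mul_pos hsa h1
        have h3 : sdet B t * sdet Ba t * (sdet Ba t * sdet Bb t) =
            (sdet B t * sdet Bb t) * (sdet Ba t) ^ 2 := by ring
        rw [h3] at h2
        exact ORA_pos h2
    · refine ⟨h z1, ?_, hz1D⟩
      rw [hb1'c, ← hd.hull b1 hb1]
      exact ⟨z1, hz1, rfl⟩
    · refine ⟨h z2, ?_, hz2D⟩
      rw [hb2'c, ← hd.hull b2 hb2]
      exact ⟨z2, hz2, rfl⟩
    · exact ⟨b1, hb1, hb1'c, hb1C, B1, hB1, hs1⟩
  obtain ⟨a, ha, haa', haC, Ba, hBa, hsa⟩ := hconn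
  have hab2 : a = b2 := by
    apply Finset.coe_injective
    have h1 : h '' (a : Set E) = h '' (b2 : Set E) := by rw [← haa', ← hb2'c]
    exact (hd.inj.image_eq_image_iff (hd.subU ha) (hd.subU hb2)).1 h1
  subst hab2
  obtain ⟨β, hβ, hβb⟩ := ORA_enum a (m + 1) hb2c
  have hβm : ∀ i, β i ∈ a := fun i => (hβb _).2 ⟨i, rfl⟩
  have hs3 : 0 < sdet Ba t * sdet B2 t :=
    ORA_same (h := h) Ba B2 t β (fun i => convexHull_subset_affineSpan _
      (haC (subset_convexHull ℝ _ (hβm i))))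
      (fun i => (hBa (subset_convexHull ℝ _ (hβm i))).symm)
      (fun i => (hB2 (subset_convexHull ℝ _ (hβm i))).symm) (hd.ind ha hβ hβm)
  have h4 := mul_pos (mul_pos hsa hs3) hs2
  have h5 : sdet B t * sdet Ba t * (sdet Ba t * sdet B2 t) * (sdet B' t * sdet B2 t) =
      (sdet B t * sdet B' t) * (sdet Ba t * sdet B2 t) ^ 2 := by ring
  rw [h5] at h4
  exact ORA_pos h4

end Pool.H54.UB
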