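import Pool.Agent.H54.UB.PUR
import Pool.Agent.H54.UB.GRC

/-!
# Row ORC: relative sign of two charts

`exists_small_simplex`: two charts `(U, h)`, `(U', h')` at `x` (both `ChartAt`), `V ∋ x` open: there is an
ordered `m`-simplex `a` with hull in `U ∩ U' ∩ V` on which both charts are affine, nondegenerate for both.
Proof: `chart_refine` for `(U, h)` with `Y = {U ∩ U'} ∪ {pieces of h' on U ∩ U'}` (`IsPoly.inter`,
`PLOn.mono`, `PLOn.pieces`).  `h x` is an interior point of the cube, so it lies in the hull of an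
`L'`-face `h(b)` with `m+1` vertices; points of the interior of the simplex `b` close to `x` are in
`U ∩ U'` (neighbourhood of `x` in `X`), so `convexHull b ⊆ U ∩ U'`, and in a piece of `h'`; so `h'` is
affine on it.  Shrink `b` towards `x` (homothety `z ↦ x + η (z - x)`).

`pair_sign`: near `x` all such simplices have the same sign `σ` of `sdet h a * sdet h' a`.
Proof: same `L, L'`.  For `L`-faces `b` with `m+1` vertices contained in `U ∩ U'` the sign of
`sdet h b̂ * sdet h' b̂` (`b̂` any ordering of `b`) is well defined and nonzero.  Let `D` be an open ball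
around `h x` in the cube such that `h⁻¹(D) ∩ U` is contained in an open set `V₀ ∩ X ⊆ U ∩ U'` around `x`
(neighbourhood in `X`).  If `b, b'` are adjacent along `r`, and the facet `h(r)` has a carrier point in
`D`, then `b, b' ⊆ U ∩ U'` (adaptedness: points of the open simplices close to a point of `V₀`), and both
`h(b), h(b')` and `h'(b), h'(b')` are on opposite sides (`GC.opposite` for `L'` and for the image complex
of `L` restricted to `U ∩ U'` under `h'`), so the two signs (products) agree.  `GC.conn_convex`: all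
`b` with `h(b)` meeting `D` have the same sign `σ`.  Let `V` be open with `x ∈ V`, `V ∩ X ⊆ h⁻¹ D`.  A
simplex `a` with hull in `U ∩ U' ∩ V` on which both are affine: if `sdet h a = 0` the product is `0`;
otherwise `h(a)` is a nondegenerate simplex in `D`, its interior meets the interior of some `h(b)`
(`b` top), and comparing on a small simplex in the intersection (`sdet_comb`) both `sdet h a` and
`sdet h b̂` differ by the same factor as `sdet h' a` and `sdet h' b̂`, so the products have the same sign.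
-/

open Set Topology

namespace Pool.H54.UB

section ORCaux

variable {E : Type*} [NormedAddCommGroup E] [NormedSpace ℝ E]
  {F : Type*} [NormedAddCommGroup F] [NormedSpace ℝ F]

theorem ORC_aff_sum {ι : Type*} (s : Finset ι) (w : ι → ℝ) (z : ι → E) (hw : ∑ i ∈ s, w i = 1)
    (A : E →ᵃ[ℝ] F) : A (∑ i ∈ s, w i • z i) = ∑ i ∈ s, w i • A (z i) := by
  have hd : ∀ x, A x = A.linear x + A 0 := fun x => by
    have := A.map_vadd 0 x
    simpa using this
  have h2 : ∑ i ∈ s, w i • A (z i) = ∑ i ∈ s, (A.linear (w i • z i) + w i • A 0) :=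
    Finset.sum_congr rfl fun i _ => by rw [hd (z i), smul_add, map_smul]
  rw [h2, Finset.sum_add_distrib, ← Finset.sum_smul, hw, one_smul, ← map_sum]
  exact hd _

theorem ORC_mem_hull {n : ℕ} {a : Fin n → E} {x : E} (hx : x ∈ convexHull ℝ (range a)) :
    ∃ w : Fin n → ℝ, (∀ i, 0 ≤ w i) ∧ ∑ i, w i = 1 ∧ ∑ i, w i • a i = x := by
  have hconv : Convex ℝ ((Fintype.linearCombination ℝ a) '' stdSimplex ℝ (Fin n)) :=
    (convex_stdSimplex ℝ (Fin n)).linear_image _
  have hsub : range a ⊆ (Fintype.linearCombination ℝ a) '' stdSimplex ℝ (Fin n) := by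
    rintro _ ⟨i, rfl⟩
    exact ⟨Pi.single i 1, single_mem_stdSimplex ℝ i, by
      simp [Fintype.linearCombination_apply_single]⟩
  obtain ⟨w, hw, rfl⟩ := convexHull_min hsub hconv hx
  exact ⟨w, hw.1, hw.2, by simp [Fintype.linearCombination_apply]⟩

/-- an affine map injective on a nondegenerate simplex maps it to a nondegenerate simplex -/
theorem ORC_indep {n : ℕ} {β : Fin (n + 1) → E} (hβ : AffineIndependent ℝ β) {h : E → F}
    (hA : AffOn h (convexHull ℝ (range β))) (hi : InjOn h (convexHull ℝ (range β))) :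
    AffineIndependent ℝ (fun i => h (β i)) := by
  classical
  obtain ⟨A, hA⟩ := hA
  rw [affineIndependent_iff]
  intro s w hw0 hw1
  obtain ⟨v, hv⟩ : ∃ v : Fin (n + 1) → ℝ, v = fun i => if i ∈ s then w i else 0 := ⟨_, rfl⟩
  have hv0 : ∑ i, v i = 0 := by
    rw [hv]
    simp only [Finset.sum_ite_mem, Finset.univ_inter]
    exact hw0
  have hv1 : ∑ i, v i • h (β i) = 0 := by
    rw [hv]
    simp only [ite_smul, zero_smul, Finset.sum_ite_mem, Finset.univ_inter]
    exact hw1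
  obtain ⟨M, hM⟩ : ∃ M : ℝ, M = 1 + ∑ i, |v i| := ⟨_, rfl⟩
  have hM0 : 0 < M := by
    have : 0 ≤ ∑ i, |v i| := Finset.sum_nonneg fun i _ => abs_nonneg _
    rw [hM]; linarith
  have hvM : ∀ i, |v i| ≤ M := fun i => by
    have : |v i| ≤ ∑ i, |v i| :=
      Finset.single_le_sum (f := fun i => |v i|) (fun i _ => abs_nonneg _) (Finset.mem_univ i)
    rw [hM]; linarith
  have hN : (0 : ℝ) < (n : ℝ) + 1 := by positivity
  obtain ⟨ε, hε⟩ : ∃ ε : ℝ, ε = 1 / (((n : ℝ) + 1) * M) := ⟨_, rfl⟩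
  have hε0 : 0 < ε := by rw [hε]; positivity
  have hεv : ∀ i, |ε * v i| ≤ 1 / ((n : ℝ) + 1) := by
    intro i
    rw [abs_mul, abs_of_pos hε0, hε]
    calc 1 / (((n : ℝ) + 1) * M) * |v i| ≤ 1 / (((n : ℝ) + 1) * M) * M :=
          mul_le_mul_of_nonneg_left (hvM i) (by positivity)
      _ = 1 / ((n : ℝ) + 1) := by field_simp
  have hsum0 : ∑ _i : Fin (n + 1), (1 / ((n : ℝ) + 1)) = 1 := by
    simp only [Finset.sum_const, Finset.card_univ, Fintype.card_fin, nsmul_eq_mul]
    push_cast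
    field_simp
  have hsum1 : ∑ i : Fin (n + 1), (1 / ((n : ℝ) + 1) + ε * v i) = 1 := by
    rw [Finset.sum_add_distrib, ← Finset.mul_sum, hv0, hsum0]
    ring
  have hp0 : ∑ i : Fin (n + 1), (1 / ((n : ℝ) + 1)) • β i ∈ convexHull ℝ (range β) :=
    (convex_convexHull ℝ _).sum_mem (fun i _ => by positivity) hsum0
      (fun i _ => subset_convexHull ℝ _ (mem_range_self i))
  have hp1 : ∑ i : Fin (n + 1), (1 / ((n : ℝ) + 1) + ε * v i) • β i ∈ convexHull ℝ (range β) :=
    (convex_convexHull ℝ _).sum_mem (fun i _ => by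
        have := (abs_le.1 (hεv i)).1
        linarith) hsum1
      (fun i _ => subset_convexHull ℝ _ (mem_range_self i))
  have hAβ : ∀ i, A (β i) = h (β i) := fun i =>
    (hA (subset_convexHull ℝ _ (mem_range_self i))).symm
  have heq : h (∑ i : Fin (n + 1), (1 / ((n : ℝ) + 1) + ε * v i) • β i) =
      h (∑ i : Fin (n + 1), (1 / ((n : ℝ) + 1)) • β i) := by
    rw [hA hp0, hA hp1, ORC_aff_sum _ _ _ hsum1, ORC_aff_sum _ _ _ hsum0]
    simp only [hAβ, add_smul, Finset.sum_add_distrib, mul_smul]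
    rw [← Finset.smul_sum (r := ε), hv1, smul_zero, add_zero]
  have h3 := hi hp1 hp0 heq
  simp only [add_smul, Finset.sum_add_distrib, mul_smul] at h3
  rw [← Finset.smul_sum (r := ε), add_eq_left, smul_eq_zero] at h3
  have h4 : ∑ i, v i • β i = 0 := h3.resolve_left hε0.ne'
  have h5 := (affineIndependent_iff.1 hβ) Finset.univ v hv0 h4
  intro e he
  have h6 := h5 e (Finset.mem_univ e)
  rw [hv] at h6
  simpa [he] using h6

theorem ORC_hom_indep {n : ℕ} {q : Fin n → F} (hq : AffineIndependent ℝ q) (p : F)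
    {η : ℝ} (h0 : η ≠ 0) : AffineIndependent ℝ (fun i => (1 - η) • p + η • q i) := by
  have hinj : Function.Injective (AffineMap.homothety p η : F →ᵃ[ℝ] F) := by
    intro x y hxy
    simp only [AffineMap.homothety_apply, vsub_eq_sub, vadd_eq_add, add_left_inj] at hxy
    have := smul_right_injective F h0 hxy
    simpa using this
  have h1 := hq.map' (AffineMap.homothety p η : F →ᵃ[ℝ] F) hinj
  convert h1 using 1
  funext i
  simp only [Function.comp_apply, AffineMap.homothety_apply, vsub_eq_sub, vadd_eq_add]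
  module

theorem ORC_hom_mem {C : Set E} (hC : Convex ℝ C) {z w : E} (hz : z ∈ C) (hw : w ∈ C) {η : ℝ}
    (h0 : 0 < η) (h1 : η ≤ 1) : (1 - η) • z + η • w ∈ C :=
  hC hz hw (by linarith) h0.le (by ring)

theorem ORC_hom_map {h : E → F} {C : Set E} (hC : Convex ℝ C) (hA : AffOn h C) {z w : E}
    (hz : z ∈ C) (hw : w ∈ C) {η : ℝ} (h0 : 0 < η) (h1 : η ≤ 1) :
    h ((1 - η) • z + η • w) = (1 - η) • h z + η • h w := by
  obtain ⟨A, hA⟩ := hA
  rw [hA (ORC_hom_mem hC hz hw h0 h1), hA hz, hA hw]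
  have hd : ∀ x, A x = A.linear x + A 0 := fun x => by
    have := A.map_vadd 0 x
    simpa using this
  rw [hd, hd z, hd w, map_add, map_smul, map_smul]
  module

theorem ORC_carrier {L : GC E} {b : Finset E} (hb : b ∈ L.faces) {z : E}
    (hz : z ∈ convexHull ℝ (b : Set E)) :
    ∃ g ∈ convexHull ℝ (b : Set E), ∀ η : ℝ, 0 < η → η ≤ 1 →
      L.IsCarrier ((1 - η) • z + η • g) b := by
  have hne := L.ne b hb
  have hc : (0 : ℝ) < b.card := by exact_mod_cast hne.card_pos
  have hs : ∑ _y ∈ b, (1 / (b.card : ℝ)) = 1 := by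
    rw [Finset.sum_const, nsmul_eq_mul]
    field_simp
  refine ⟨∑ y ∈ b, (1 / (b.card : ℝ)) • y, ?_, ?_⟩
  · exact Finset.mem_convexHull'.2 ⟨fun _ => 1 / (b.card : ℝ), fun _ _ => by positivity, hs, rfl⟩
  · intro η h0 h1
    obtain ⟨w, hw0, hw1, hwz⟩ := Finset.mem_convexHull'.1 hz
    refine ⟨hb, fun y => (1 - η) * w y + η * (1 / (b.card : ℝ)), ?_, ?_, ?_⟩
    · intro y hy
      have h2 := hw0 y hy
      have h3 : 0 ≤ (1 - η) * w y := mul_nonneg (by linarith) h2
      have h4 : 0 < η * (1 / (b.card : ℝ)) := by positivity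
      linarith
    · rw [Finset.sum_add_distrib, ← Finset.mul_sum, ← Finset.mul_sum, hw1, hs]
      ring
    · rw [← hwz]
      simp only [add_smul, Finset.sum_add_distrib, mul_smul, Finset.smul_sum]

theorem ORC_lim {O : Set E} (hO : IsOpen O) {z : E} (hz : z ∈ O) (g : E) :
    ∃ δ : ℝ, 0 < δ ∧ δ ≤ 1 ∧ ∀ η : ℝ, 0 < η → η ≤ δ → (1 - η) • z + η • g ∈ O := by
  have hcont : Continuous (fun η : ℝ => (1 - η) • z + η • g) := by fun_prop
  have hmem : (fun η : ℝ => (1 - η) • z + η • g) ⁻¹' O ∈ 𝓝 (0 : ℝ) := by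
    apply hcont.continuousAt.preimage_mem_nhds
    apply hO.mem_nhds
    simpa using hz
  obtain ⟨ε, hε, hb⟩ := Metric.mem_nhds_iff.1 hmem
  refine ⟨min (ε / 2) 1, by positivity, min_le_right _ _, ?_⟩
  intro η h0 h1
  apply hb
  rw [Metric.mem_ball, Real.dist_eq, sub_zero, abs_of_pos h0]
  have := h1.trans (min_le_left _ _)
  linarith

theorem ORC_enum {b : Finset E} {n : ℕ} (hb : b.card = n) :
    ∃ β : Fin n → E, Function.Injective β ∧ range β = (b : Set E) := by
  let e := b.equivFinOfCardEq hb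
  refine ⟨fun i => (e.symm i : E), ?_, ?_⟩
  · exact Subtype.coe_injective.comp e.symm.injective
  · ext y
    constructor
    · rintro ⟨i, rfl⟩
      exact (e.symm i).2
    · intro hy
      exact ⟨e ⟨y, hy⟩, by simp⟩

theorem ORC_perm {n : ℕ} {β γ : Fin n → E} (hβ : Function.Injective β)
    (hγ : Function.Injective γ) (h : range β = range γ) :
    ∃ π : Equiv.Perm (Fin n), γ = β ∘ π := by
  have h1 : ∀ i, ∃ j, β j = γ i := fun i => by
    have : γ i ∈ range β := by rw [h]; exact mem_range_self i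
    exact this
  choose f hf using h1
  have hfi : Function.Injective f := by
    intro i j hij
    apply hγ
    rw [← hf i, ← hf j, hij]
  refine ⟨Equiv.ofBijective f (Finite.injective_iff_bijective.1 hfi), ?_⟩
  funext i
  simp [hf i]

theorem ORC_face_indep {L : GC E} {b : Finset E} (hb : b ∈ L.faces) {n : ℕ} {β : Fin n → E}
    (hβ : Function.Injective β) (hr : range β = (b : Set E)) : AffineIndependent ℝ β := by
  have h1 := GC.affineIndependent hb
  have hmem : ∀ i, β i ∈ b := fun i => by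
    have : β i ∈ (b : Set E) := by rw [← hr]; exact mem_range_self i
    exact this
  let e : Fin n ↪ b := ⟨fun i => ⟨β i, hmem i⟩, fun i j hij => hβ (congrArg Subtype.val hij)⟩
  exact h1.comp_embedding e

end ORCaux

section ORCsdet

variable {E : Type*} [NormedAddCommGroup E] [NormedSpace ℝ E] {m : ℕ}

theorem ORC_prod_perm (h h' : E → Fin m → ℝ) {β γ : Fin (m + 1) → E}
    (hβ : Function.Injective β) (hγ : Function.Injective γ) (hr : range β = range γ) :
    sdet h γ * sdet h' γ = sdet h β * sdet h' β := by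
  obtain ⟨π, rfl⟩ := ORC_perm hβ hγ hr
  rw [sdet_perm, sdet_perm]
  have : ((Equiv.Perm.sign π : ℤ) : ℝ) * ((Equiv.Perm.sign π : ℤ) : ℝ) = 1 := by
    rcases Int.units_eq_one_or (Equiv.Perm.sign π) with h1 | h1 <;> rw [h1] <;> norm_num
  calc ((Equiv.Perm.sign π : ℤ) : ℝ) * sdet h β * (((Equiv.Perm.sign π : ℤ) : ℝ) * sdet h' β)
      = (((Equiv.Perm.sign π : ℤ) : ℝ) * ((Equiv.Perm.sign π : ℤ) : ℝ)) *
        (sdet h β * sdet h' β) := by ring
    _ = _ := by rw [this, one_mul]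

theorem ORC_comb {a c : Fin (m + 1) → E} (hc : ∀ i, c i ∈ convexHull ℝ (range a))
    {h h' : E → Fin m → ℝ} (hA : AffOn h (convexHull ℝ (range a)))
    (hA' : AffOn h' (convexHull ℝ (range a))) :
    ∃ d : ℝ, sdet h c = d * sdet h a ∧ sdet h' c = d * sdet h' a := by
  obtain ⟨A, hA⟩ := hA
  obtain ⟨A', hA'⟩ := hA'
  choose W hW0 hW1 hW using fun i => ORC_mem_hull (hc i)
  have ha : ∀ i, a i ∈ convexHull ℝ (range a) := fun i => subset_convexHull ℝ _ (mem_range_self i)
  refine ⟨Matrix.det (Matrix.of W), ?_, ?_⟩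
  · rw [sdet_congr (h' := A) (fun i => hA (hc i)), sdet_congr (h' := A) (fun i => hA (ha i))]
    exact sdet_comb A a c (Matrix.of W) hW1 (fun i => (hW i).symm)
  · rw [sdet_congr (h' := A') (fun i => hA' (hc i)), sdet_congr (h' := A') (fun i => hA' (ha i))]
    exact sdet_comb A' a c (Matrix.of W) hW1 (fun i => (hW i).symm)

theorem ORC_interior {a : Fin (m + 1) → (Fin m → ℝ)} (ha : AffineIndependent ℝ a) :
    (interior (convexHull ℝ (range a))).Nonempty := by
  rw [interior_convexHull_nonempty_iff_affineSpan_eq_top]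
  rw [ha.affineSpan_eq_top_iff_card_eq_finrank_add_one]
  simp

theorem ORC_image {h : E → Fin m → ℝ} {a : Fin (m + 1) → E}
    (hA : AffOn h (convexHull ℝ (range a))) :
    convexHull ℝ (range fun i => h (a i)) = h '' convexHull ℝ (range a) := by
  obtain ⟨A, hA⟩ := hA
  have h1 : h '' convexHull ℝ (range a) = A '' convexHull ℝ (range a) := hA.image_eq
  have h2 : (range fun i => h (a i)) = A '' range a := by
    rw [← range_comp]
    congr 1
    funext i
    exact hA (subset_convexHull ℝ _ (mem_range_self i))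
  rw [h1, h2, AffineMap.image_convexHull]

end ORCsdet

variable {E : Type*} [NormedAddCommGroup E] [NormedSpace ℝ E] [FiniteDimensional ℝ E]

theorem ORC_opp {m : ℕ} (K : GC E) (h : E → Fin m → ℝ)
    (hh : ∀ s ∈ K.faces, AffOn h (convexHull ℝ (s : Set E))) (hi : InjOn h K.space)
    {a b : Finset E} (ha : a ∈ K.faces) (hb : b ∈ K.faces) (hac : a.card = m + 1)
    (hbc : b.card = m + 1) (hab : a ≠ b) (t : Fin m → E) (ht : Function.Injective t)
    (hta : ∀ i, t i ∈ a) (htb : ∀ i, t i ∈ b) {u v : E} (hu : u ∈ a) (hu' : u ∉ range t)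
    (hv : v ∈ b) (hv' : v ∉ range t) :
    sdet h (Fin.cons u t : Fin (m + 1) → E) * sdet h (Fin.cons v t : Fin (m + 1) → E) < 0 := by
  classical
  obtain ⟨K', hK'f, -, -, -⟩ := GC.image_complex K h hh hi
  have hsp : ∀ {s : Finset E}, s ∈ K.faces → ∀ {y : E}, y ∈ s → y ∈ K.space := by
    intro s hs y hy
    exact mem_iUnion₂.2 ⟨s, hs, subset_convexHull ℝ _ hy⟩
  have hinja : Set.InjOn h (a : Set E) := fun x hx y hy hxy => hi (hsp ha hx) (hsp ha hy) hxy
  have hinjb : Set.InjOn h (b : Set E) := fun x hx y hy hxy => hi (hsp hb hx) (hsp hb hy) hxy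
  have ha' : a.image h ∈ K'.faces := (hK'f _).2 ⟨a, ha, by rw [Finset.coe_image]⟩
  have hb' : b.image h ∈ K'.faces := (hK'f _).2 ⟨b, hb, by rw [Finset.coe_image]⟩
  have hac' : (a.image h).card = m + 1 := by rw [Finset.card_image_of_injOn hinja, hac]
  have hbc' : (b.image h).card = m + 1 := by rw [Finset.card_image_of_injOn hinjb, hbc]
  have hab' : a.image h ≠ b.image h := by
    intro e
    apply hab
    have key : ∀ {s t : Finset E}, s ∈ K.faces → t ∈ K.faces → s.image h = t.image h → s ⊆ t := by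
      intro s t hs ht e y hy
      have h1 : h y ∈ t.image h := by rw [← e]; exact Finset.mem_image_of_mem h hy
      obtain ⟨z, hz, hzy⟩ := Finset.mem_image.1 h1
      have := hi (hsp ht hz) (hsp hs hy) hzy
      rw [← this]; exact hz
    exact Finset.Subset.antisymm (key ha hb e) (key hb ha e.symm)
  have ht' : Function.Injective (fun i => h (t i)) := by
    intro i j hij
    exact ht (hi (hsp ha (hta i)) (hsp ha (hta j)) hij)
  have hu'' : h u ∉ range (fun i => h (t i)) := by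
    rintro ⟨i, hi'⟩
    exact hu' ⟨i, hi (hsp ha (hta i)) (hsp ha hu) hi'⟩
  have hv'' : h v ∉ range (fun i => h (t i)) := by
    rintro ⟨i, hi'⟩
    exact hv' ⟨i, hi (hsp hb (htb i)) (hsp hb hv) hi'⟩
  have key := GC.opposite K' ha' hb' hac' hbc' hab' (fun i => h (t i)) ht'
    (fun i => Finset.mem_image_of_mem h (hta i)) (fun i => Finset.mem_image_of_mem h (htb i))
    (Finset.mem_image_of_mem h hu) hu'' (Finset.mem_image_of_mem h hv) hv''
  have hcons : ∀ w : E, (fun i => h ((Fin.cons w t : Fin (m + 1) → E) i)) =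
      (Fin.cons (h w) (fun i => h (t i)) : Fin (m + 1) → (Fin m → ℝ)) := by
    intro w
    funext i
    refine Fin.cases ?_ (fun j => ?_) i
    · simp
    · simp
  rw [sdet_comp h, sdet_comp h (Fin.cons v t), hcons, hcons]
  exact key

/-- the data of a chart refined by a second chart -/
theorem ORC_setup {m : ℕ} {X U U' : Set E} {h h' : E → Fin m → ℝ}
    (hc : IsChart m X U h) (hc' : IsChart m X U' h') :
    ∃ (L : GC E) (L' : GC (Fin m → ℝ)), L.space = U ∧ L.Adapted (U ∩ U') ∧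
      (∀ b ∈ L.faces, convexHull ℝ (b : Set E) ⊆ U ∩ U' → AffOn h' (convexHull ℝ (b : Set E))) ∧
      (∀ s ∈ L.faces, AffOn h (convexHull ℝ (s : Set E))) ∧ L'.space = cube m ∧
      (∀ s' : Finset (Fin m → ℝ), s' ∈ L'.faces ↔
        ∃ s ∈ L.faces, (s' : Set (Fin m → ℝ)) = h '' (s : Set E)) ∧
      (∀ x s, L.IsCarrier x s → ∀ s' : Finset (Fin m → ℝ),
        (s' : Set (Fin m → ℝ)) = h '' (s : Set E) → L'.IsCarrier (h x) s') ∧
      (∀ s ∈ L.faces, h '' convexHull ℝ (s : Set E) = convexHull ℝ (h '' (s : Set E))) := by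
  classical
  have hU : IsPoly U := hc.2.1.domain
  have hU' : IsPoly U' := hc'.2.1.domain
  have hUU : IsPoly (U ∩ U') := hU.inter hU'
  have hPL : PLOn h' (U ∩ U') := hc'.2.1.mono hUU inter_subset_right
  obtain ⟨S, hS, hSaff⟩ := hPL.pieces
  obtain ⟨L, L', h1, h2, h3, h4, h5, h6, h7⟩ := chart_refine hc
    (insert (U ∩ U') (S.image fun s : Finset E => convexHull ℝ (s : Set E))) (by
      intro A hA
      rcases Finset.mem_insert.1 hA with rfl | hA
      · exact hUU
      · obtain ⟨s, -, rfl⟩ := Finset.mem_image.1 hA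
        exact IsPoly.hull s)
  refine ⟨L, L', h1, h2 _ (Finset.mem_insert_self _ _), ?_, h3, h4, h5, h6, h7⟩
  intro b hb hsub
  have hne : (convexHull ℝ (b : Set E)).Nonempty := by
    obtain ⟨y, hy⟩ := L.ne b hb
    exact ⟨y, subset_convexHull ℝ _ hy⟩
  obtain ⟨z, hz⟩ := hne
  obtain ⟨g, hg, hgc⟩ := ORC_carrier hb hz
  have hgb := hgc 1 one_pos le_rfl
  have hgm : (1 - (1 : ℝ)) • z + (1 : ℝ) • g ∈ U ∩ U' := hsub hgb.mem_hull
  rw [hS] at hgm
  obtain ⟨s, hs, hgs⟩ := mem_iUnion₂.1 hgm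
  have had := h2 (convexHull ℝ (s : Set E))
    (Finset.mem_insert_of_mem (Finset.mem_image_of_mem (fun s : Finset E => convexHull ℝ (s : Set E)) hs))
  have hbs := (GC.adapted_iff.1 had) _ _ hgb hgs
  obtain ⟨A, hA⟩ := (hSaff s hs).2.2
  exact ⟨A, hA.mono hbs⟩

theorem ORC_top {m : ℕ} {U : Set E} {h : E → Fin m → ℝ} (hi : InjOn h U) {L : GC E}
    {L' : GC (Fin m → ℝ)} (hLs : L.space = U)
    (hf : ∀ s' : Finset (Fin m → ℝ), s' ∈ L'.faces ↔
        ∃ s ∈ L.faces, (s' : Set (Fin m → ℝ)) = h '' (s : Set E))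
    (hh : ∀ s ∈ L.faces, h '' convexHull ℝ (s : Set E) = convexHull ℝ (h '' (s : Set E)))
    {x : E} (hx : x ∈ U) {s' : Finset (Fin m → ℝ)} (hs' : s' ∈ L'.faces)
    (hxs : h x ∈ convexHull ℝ (s' : Set (Fin m → ℝ))) :
    ∃ b ∈ L.faces, (s' : Set (Fin m → ℝ)) = h '' (b : Set E) ∧ b.card = s'.card ∧
      x ∈ convexHull ℝ (b : Set E) := by
  classical
  obtain ⟨b, hb, hbs⟩ := (hf s').1 hs'
  refine ⟨b, hb, hbs, ?_, ?_⟩
  · have h1 : s' = b.image h := by
      apply Finset.coe_injective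
      rw [Finset.coe_image, hbs]
    rw [h1, Finset.card_image_of_injOn]
    intro y hy z hz hyz
    apply hi _ _ hyz
    · rw [← hLs]; exact mem_iUnion₂.2 ⟨b, hb, subset_convexHull ℝ _ hy⟩
    · rw [← hLs]; exact mem_iUnion₂.2 ⟨b, hb, subset_convexHull ℝ _ hz⟩
  · rw [hbs, ← hh b hb] at hxs
    obtain ⟨z, hz, hzx⟩ := hxs
    have hzU : z ∈ U := by rw [← hLs]; exact mem_iUnion₂.2 ⟨b, hb, hz⟩
    rw [← hi hzU hx hzx]
    exact hz

theorem ORC_nhd {m : ℕ} {X U U' : Set E} {h h' : E → Fin m → ℝ} {x : E}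
    (hc : ChartAt m X U h x) (hc' : ChartAt m X U' h' x) :
    ∃ V₀ : Set E, IsOpen V₀ ∧ x ∈ V₀ ∧ V₀ ∩ X ⊆ U ∩ U' := by
  have := Filter.inter_mem hc.2.2.1 hc'.2.2.1
  exact mem_nhdsWithin.1 this

/-- a face of `L` through a point of the open set `V₀` is contained in `U ∩ U'` -/
theorem ORC_sub {X U U' V₀ : Set E} (hUX : U ⊆ X) (hV₀ : IsOpen V₀) (hV : V₀ ∩ X ⊆ U ∩ U')
    {L : GC E} (hLs : L.space = U) (had : L.Adapted (U ∩ U')) {b : Finset E} (hb : b ∈ L.faces)
    {z : E} (hz : z ∈ V₀) (hzb : z ∈ convexHull ℝ (b : Set E)) :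
    convexHull ℝ (b : Set E) ⊆ U ∩ U' := by
  obtain ⟨g, hg, hgc⟩ := ORC_carrier hb hzb
  obtain ⟨δ, hδ, hδ1, hlim⟩ := ORC_lim hV₀ hz g
  have hc := hgc δ hδ hδ1
  apply (GC.adapted_iff.1 had) _ _ hc
  apply hV
  refine ⟨hlim δ hδ le_rfl, hUX ?_⟩
  rw [← hLs]
  exact mem_iUnion₂.2 ⟨b, hb, hc.mem_hull⟩

theorem exists_small_simplex {m : ℕ} {X U U' : Set E} {h h' : E → Fin m → ℝ} {x : E}
    (hc : ChartAt m X U h x) (hc' : ChartAt m X U' h' x) {V : Set E} (hV : IsOpen V)
    (hx : x ∈ V) :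
    ∃ a : Fin (m + 1) → E, convexHull ℝ (range a) ⊆ U ∩ U' ∩ V ∧
      AffOn h (convexHull ℝ (range a)) ∧ AffOn h' (convexHull ℝ (range a)) ∧
      sdet h a ≠ 0 ∧ sdet h' a ≠ 0 := by
  obtain ⟨L, L', hLs, had, haff', haff, hL's, hf, hcar, hh⟩ := ORC_setup hc.1 hc'.1
  obtain ⟨V₀, hV₀, hxV₀, hVU⟩ := ORC_nhd hc hc'
  have hi : InjOn h U := hc.1.2.2.1
  have hi' : InjOn h' U' := hc'.1.2.2.1
  obtain ⟨s', hs', hs'c, hxs'⟩ := L'.exists_top_of_interior (x := h x)
    (by rw [hL's]; exact interior_cube_mem hc.2.2.2)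
  obtain ⟨b, hb, hbs, hbc, hxb⟩ := ORC_top hi hLs hf hh hc.2.1 hs' hxs'
  have hsub := ORC_sub hc.1.1 hV₀ hVU hLs had hb hxV₀ hxb
  obtain ⟨β, hβ, hβr⟩ := ORC_enum (hbc.trans hs'c)
  have hβi := ORC_face_indep hb hβ hβr
  rw [← hβr] at hxb hsub
  have hA : AffOn h (convexHull ℝ (range β)) := by rw [hβr]; exact haff b hb
  have hA' : AffOn h' (convexHull ℝ (range β)) := by
    rw [hβr]; exact haff' b hb (by rw [← hβr]; exact hsub)
  have hind := ORC_indep hβi hA (hi.mono (hsub.trans inter_subset_left))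
  have hind' := ORC_indep hβi hA' (hi'.mono (hsub.trans inter_subset_right))
  -- a ball inside V
  obtain ⟨r, hr, hrV⟩ := Metric.isOpen_iff.1 hV x hx
  have hlim : ∀ i, ∃ δ : ℝ, 0 < δ ∧ δ ≤ 1 ∧ ∀ η : ℝ, 0 < η → η ≤ δ →
      (1 - η) • x + η • β i ∈ Metric.ball x r := fun i =>
    ORC_lim Metric.isOpen_ball (Metric.mem_ball_self hr) (β i)
  choose δ hδ0 hδ1 hδ using hlim
  obtain ⟨η, hη0, hηle⟩ : ∃ η : ℝ, 0 < η ∧ ∀ i, η ≤ δ i := by
    refine ⟨Finset.univ.inf' Finset.univ_nonempty δ, ?_, fun i => Finset.inf'_le _ (Finset.mem_univ i)⟩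
    rw [Finset.lt_inf'_iff]
    exact fun i _ => hδ0 i
  have hη1 : η ≤ 1 := (hηle 0).trans (hδ1 0)
  have hcvx : Convex ℝ (convexHull ℝ (range β)) := convex_convexHull ℝ _
  have hmem : ∀ i, β i ∈ convexHull ℝ (range β) := fun i =>
    subset_convexHull ℝ _ (mem_range_self i)
  have hsub2 : convexHull ℝ (range fun i => (1 - η) • x + η • β i) ⊆ convexHull ℝ (range β) := by
    apply convexHull_min _ hcvx
    rintro _ ⟨i, rfl⟩
    exact ORC_hom_mem hcvx hxb (hmem i) hη0 hη1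
  refine ⟨fun i => (1 - η) • x + η • β i, ?_, ?_, ?_, ?_, ?_⟩
  · intro y hy
    refine ⟨hsub (hsub2 hy), hrV ?_⟩
    have : convexHull ℝ (range fun i => (1 - η) • x + η • β i) ⊆ Metric.ball x r := by
      apply convexHull_min _ (convex_ball x r)
      rintro _ ⟨i, rfl⟩
      exact hδ i η hη0 (hηle i)
    exact this hy
  · obtain ⟨A, hA⟩ := hA
    exact ⟨A, hA.mono hsub2⟩
  · obtain ⟨A, hA⟩ := hA'
    exact ⟨A, hA.mono hsub2⟩
  · rw [sdet_ne_zero_iff]
    have e : (fun i => h ((1 - η) • x + η • β i)) = fun i => (1 - η) • h x + η • h (β i) :=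
      funext fun i => ORC_hom_map hcvx hA hxb (hmem i) hη0 hη1
    show AffineIndependent ℝ (fun i => h ((1 - η) • x + η • β i))
    rw [e]
    exact ORC_hom_indep hind (h x) hη0.ne'
  · rw [sdet_ne_zero_iff]
    have e : (fun i => h' ((1 - η) • x + η • β i)) = fun i => (1 - η) • h' x + η • h' (β i) :=
      funext fun i => ORC_hom_map hcvx hA' hxb (hmem i) hη0 hη1
    show AffineIndependent ℝ (fun i => h' ((1 - η) • x + η • β i))
    rw [e]
    exact ORC_hom_indep hind' (h' x) hη0.ne'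

/-- crossing a facet does not change the sign of the product -/
theorem ORC_adj {m : ℕ} {U U' : Set E} {h h' : E → Fin m → ℝ} (hi : InjOn h U)
    (hi' : InjOn h' U') {L : GC E} (hLs : L.space = U) (had : L.Adapted (U ∩ U'))
    (haff' : ∀ b ∈ L.faces, convexHull ℝ (b : Set E) ⊆ U ∩ U' →
      AffOn h' (convexHull ℝ (b : Set E)))
    (haff : ∀ s ∈ L.faces, AffOn h (convexHull ℝ (s : Set E)))
    {a b r : Finset E} (ha : a ∈ L.faces) (hb : b ∈ L.faces) (hac : a.card = m + 1)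
    (hbc : b.card = m + 1) (hra : r ⊆ a) (hrb : r ⊆ b) (hrc : r.card = m)
    (haN : convexHull ℝ (a : Set E) ⊆ U ∩ U') (hbN : convexHull ℝ (b : Set E) ⊆ U ∩ U')
    {α β : Fin (m + 1) → E} (hα : Function.Injective α) (hαr : range α = (a : Set E))
    (hβ : Function.Injective β) (hβr : range β = (b : Set E))
    (hpos : 0 < sdet h α * sdet h' α) : 0 < sdet h β * sdet h' β := by
  by_cases hab : a = b
  · subst hab
    rw [ORC_prod_perm h h' hα hβ (hαr.trans hβr.symm)]
    exact hpos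
  obtain ⟨t, ht, htr⟩ := ORC_enum hrc
  have hta : ∀ i, t i ∈ a := fun i => hra (by
    have : t i ∈ (r : Set E) := by rw [← htr]; exact mem_range_self i
    exact this)
  have htb : ∀ i, t i ∈ b := fun i => hrb (by
    have : t i ∈ (r : Set E) := by rw [← htr]; exact mem_range_self i
    exact this)
  have hex : ∀ {c : Finset E}, r ⊆ c → c.card = m + 1 → ∃ u ∈ c, u ∉ range t := by
    intro c hrc' hcc
    by_contra hcon
    push Not at hcon
    have : c ⊆ r := fun y hy => by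
      have := hcon y hy
      rw [htr] at this
      exact this
    have := Finset.card_le_card this
    omega
  obtain ⟨u, hu, hu'⟩ := hex hra hac
  obtain ⟨v, hv, hv'⟩ := hex hrb hbc
  have hcons : ∀ {c : Finset E} {w : E}, (∀ i, t i ∈ c) → c.card = m + 1 → w ∈ c →
      w ∉ range t → Function.Injective (Fin.cons w t : Fin (m + 1) → E) ∧
        range (Fin.cons w t : Fin (m + 1) → E) = (c : Set E) := by
    classical
    intro c w htc hcc hw hw'
    have hinj : Function.Injective (Fin.cons w t : Fin (m + 1) → E) :=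
      Fin.cons_injective_iff.2 ⟨hw', ht⟩
    refine ⟨hinj, ?_⟩
    have h1 : Finset.univ.image (Fin.cons w t : Fin (m + 1) → E) = c := by
      apply Finset.eq_of_subset_of_card_le
      · intro y hy
        obtain ⟨i, -, rfl⟩ := Finset.mem_image.1 hy
        refine Fin.cases ?_ (fun j => ?_) i
        · simpa using hw
        · simpa using htc j
      · rw [Finset.card_image_of_injective _ hinj, hcc]
        simp
    rw [← h1]
    simp
  obtain ⟨hci, hcr⟩ := hcons hta hac hu hu'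
  obtain ⟨hdi, hdr⟩ := hcons htb hbc hv hv'
  have e1 := ORC_opp L h haff (by rw [hLs]; exact hi) ha hb hac hbc hab t ht hta htb hu hu' hv hv'
  obtain ⟨K, hKf, hKs, -⟩ := GC.restrict L (U ∩ U') had
  have e2 := ORC_opp K h' (fun s hs => haff' s ((hKf s).1 hs).1 ((hKf s).1 hs).2)
    (hi'.mono (by rw [hKs]; exact fun y hy => hy.2.2)) ((hKf a).2 ⟨ha, haN⟩)
    ((hKf b).2 ⟨hb, hbN⟩) hac hbc hab t ht hta htb hu hu' hv hv'
  rw [ORC_prod_perm h h' hci hα (hcr.trans hαr.symm)] at hpos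
  rw [ORC_prod_perm h h' hdi hβ (hdr.trans hβr.symm)]
  have h4 := mul_pos_of_neg_of_neg e1 e2
  have h5 : 0 < (sdet h (Fin.cons u t : Fin (m + 1) → E) * sdet h' (Fin.cons u t : Fin (m + 1) → E)) *
      (sdet h (Fin.cons v t : Fin (m + 1) → E) * sdet h' (Fin.cons v t : Fin (m + 1) → E)) := by
    calc 0 < _ := h4
      _ = _ := by ring
  exact (mul_pos_iff_of_pos_left hpos).1 h5

theorem pair_sign {m : ℕ} {X U U' : Set E} {h h' : E → Fin m → ℝ} {x : E}
    (hX : IsClosedPLManifold m X) (hc : ChartAt m X U h x) (hc' : ChartAt m X U' h' x) :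
    ∃ σ : ℤˣ, ∃ V : Set E, IsOpen V ∧ x ∈ V ∧ ∀ a : Fin (m + 1) → E,
      convexHull ℝ (range a) ⊆ U ∩ U' ∩ V → AffOn h (convexHull ℝ (range a)) →
      AffOn h' (convexHull ℝ (range a)) → 0 ≤ ((σ : ℤ) : ℝ) * (sdet h a * sdet h' a) := by
  obtain ⟨L, L', hLs, had, haff', haff, hL's, hf, hcar, hh⟩ := ORC_setup hc.1 hc'.1
  obtain ⟨V₀, hV₀, hxV₀, hVU⟩ := ORC_nhd hc hc'
  have hi : InjOn h U := hc.1.2.2.1
  have hi' : InjOn h' U' := hc'.1.2.2.1
  have hcont : ContinuousOn h U := hc.1.2.1.continuousOn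
  have hUc : IsCompact U := hc.1.2.1.domain.isCompact
  have himg : h '' U = cube m := hc.1.2.2.2
  -- the ball `D`
  have hclosed : IsClosed (h '' (U \ V₀)) :=
    ((hUc.diff hV₀).image_of_continuousOn (hcont.mono sdiff_subset)).isClosed
  have hxn : h x ∉ h '' (U \ V₀) := by
    rintro ⟨y, ⟨hyU, hyV⟩, hyx⟩
    rw [hi hyU hc.2.1 hyx] at hyV
    exact hyV hxV₀
  obtain ⟨ρ, hρ, hρD⟩ := Metric.isOpen_iff.1 (hclosed.isOpen_compl.inter isOpen_interior) (h x)
    ⟨hxn, interior_cube_mem hc.2.2.2⟩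
  obtain ⟨D, hDdef⟩ : ∃ D, D = Metric.ball (h x) ρ := ⟨_, rfl⟩
  rw [← hDdef] at hρD
  have hDo : IsOpen D := by rw [hDdef]; exact Metric.isOpen_ball
  have hDc : Convex ℝ D := by rw [hDdef]; exact convex_ball _ _
  have hxD : h x ∈ D := by rw [hDdef]; exact Metric.mem_ball_self hρ
  have hDint : D ⊆ interior (cube m) := fun y hy => (hρD hy).2
  have hDs : D ⊆ L'.space := by rw [hL's]; exact hDint.trans interior_subset
  have hDV : ∀ y ∈ U, h y ∈ D → y ∈ V₀ := by
    intro y hy hyD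
    by_contra hyV
    exact (hρD hyD).1 ⟨y, ⟨hy, hyV⟩, rfl⟩
  -- the open set `V`
  obtain ⟨V, hVo, hxV, hVD⟩ := mem_nhdsWithin.1 ((hcont x hc.2.1).preimage_mem_nhdsWithin (hDo.mem_nhds hxD))
  -- injectivity on faces
  have hUmem : ∀ {s : Finset E}, s ∈ L.faces → convexHull ℝ (s : Set E) ⊆ U := by
    intro s hs y hy
    rw [← hLs]
    exact mem_iUnion₂.2 ⟨s, hs, hy⟩
  have hfinj : ∀ {s t : Finset E}, s ∈ L.faces → t ∈ L.faces →
      h '' (s : Set E) ⊆ h '' (t : Set E) → s ⊆ t := by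
    intro s t hs ht hst y hy
    obtain ⟨z, hz, hzy⟩ := hst ⟨y, hy, rfl⟩
    have := hi (hUmem ht (subset_convexHull ℝ _ hz)) (hUmem hs (subset_convexHull ℝ _ hy)) hzy
    rw [← this]
    exact hz
  have hfcard : ∀ {s : Finset E} {s' : Finset (Fin m → ℝ)}, s ∈ L.faces →
      (s' : Set (Fin m → ℝ)) = h '' (s : Set E) → s.card = s'.card := by
    classical
    intro s s' hs hss
    have h1 : s' = s.image h := by
      apply Finset.coe_injective
      rw [Finset.coe_image, hss]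
    rw [h1, Finset.card_image_of_injOn]
    intro y hy z hz hyz
    exact hi (hUmem hs (subset_convexHull ℝ _ hy)) (hUmem hs (subset_convexHull ℝ _ hz)) hyz
  have hcar' : ∀ {z : E} {s' : Finset (Fin m → ℝ)} {r : Finset E}, z ∈ U → r ∈ L.faces →
      (s' : Set (Fin m → ℝ)) = h '' (r : Set E) → L'.IsCarrier (h z) s' → L.IsCarrier z r := by
    classical
    intro z s' r hz hr hrs hcz
    rw [← hLs] at hz
    obtain ⟨q, hq⟩ := GC.exists_carrier' hz
    have h1 := hcar z q hq (q.image h) (by rw [Finset.coe_image])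
    have h2 := GC.carrier_unique h1 hcz
    have h3 : h '' (q : Set E) = h '' (r : Set E) := by
      rw [← hrs, ← h2, Finset.coe_image]
    have h4 : q = r := Finset.Subset.antisymm (hfinj hq.1 hr h3.subset) (hfinj hr hq.1 h3.symm.subset)
    rw [← h4]
    exact hq
  -- the predicate
  obtain ⟨P, hP⟩ : ∃ P : Finset (Fin m → ℝ) → Prop, P = fun s' : Finset (Fin m → ℝ) => ∀ b ∈ L.faces,
      (s' : Set (Fin m → ℝ)) = h '' (b : Set E) → ∀ β : Fin (m + 1) → E, Function.Injective β →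
      range β = (b : Set E) → 0 < sdet h β * sdet h' β := ⟨_, rfl⟩
  -- faces meeting `D` are inside `U ∩ U'`
  have hsubD : ∀ {b : Finset E} {s' : Finset (Fin m → ℝ)}, b ∈ L.faces →
      (s' : Set (Fin m → ℝ)) = h '' (b : Set E) →
      (convexHull ℝ (s' : Set (Fin m → ℝ)) ∩ D).Nonempty →
      convexHull ℝ (b : Set E) ⊆ U ∩ U' := by
    intro b s' hb hbs hne
    obtain ⟨y, hy, hyD⟩ := hne
    rw [hbs, ← hh b hb] at hy
    obtain ⟨z, hz, rfl⟩ := hy
    exact ORC_sub hc.1.1 hV₀ hVU hLs had hb (hDV z (hUmem hb hz) hyD) hz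
  have hstep : ∀ a ∈ L'.faces, ∀ b ∈ L'.faces, a.card = m + 1 → b.card = m + 1 → P a →
      (∃ (r : Finset (Fin m → ℝ)) (x : Fin m → ℝ),
        x ∈ D ∧ L'.IsCarrier x r ∧ r ⊆ a ∧ r ⊆ b ∧ r.card = m) → P b := by
    intro a' ha' b' hb' hac hbc hPa ⟨r', y, hyD, hyr, hra, hrb, hrc⟩
    obtain ⟨r, hr, hrs⟩ := (hf r').1 hyr.1
    obtain ⟨a, ha, has⟩ := (hf a').1 ha'
    have hyr' : y ∈ convexHull ℝ (r' : Set (Fin m → ℝ)) := hyr.mem_hull
    have hyD' : ∀ {s' : Finset (Fin m → ℝ)}, r' ⊆ s' →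
        (convexHull ℝ (s' : Set (Fin m → ℝ)) ∩ D).Nonempty := fun hs =>
      ⟨y, convexHull_mono (Finset.coe_subset.2 hs) hyr', hyD⟩
    rw [hP] at hPa ⊢
    intro b hb hbs β hβ hβr
    have hrab : ∀ {c : Finset E} {c' : Finset (Fin m → ℝ)}, c ∈ L.faces →
        (c' : Set (Fin m → ℝ)) = h '' (c : Set E) → r' ⊆ c' → r ⊆ c := by
      intro c c' hc hcc hrc
      apply hfinj hr hc
      rw [← hrs, ← hcc]
      exact Finset.coe_subset.2 hrc
    obtain ⟨α, hα, hαr⟩ := ORC_enum ((hfcard ha has).trans hac)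
    exact ORC_adj hi hi' hLs had haff' haff ha hb ((hfcard ha has).trans hac)
      ((hfcard hb hbs).trans hbc) (hrab ha has hra) (hrab hb hbs hrb) ((hfcard hr hrs).trans hrc)
      (hsubD ha has (hyD' hra)) (hsubD hb hbs (hyD' hrb)) hα hαr hβ hβr
      (hPa a ha has α hα hαr)
  -- nonvanishing on top faces in `U ∩ U'`
  have hnz : ∀ {b : Finset E}, b ∈ L.faces → convexHull ℝ (b : Set E) ⊆ U ∩ U' →
      ∀ β : Fin (m + 1) → E, Function.Injective β → range β = (b : Set E) →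
      AffineIndependent ℝ (fun i => h (β i)) ∧ AffineIndependent ℝ (fun i => h' (β i)) := by
    intro b hb hbN β hβ hβr
    have hβi := ORC_face_indep hb hβ hβr
    have h1 := haff b hb
    have h2 := haff' b hb hbN
    rw [← hβr] at h1 h2 hbN
    exact ⟨ORC_indep hβi h1 (hi.mono (hbN.trans inter_subset_left)),
      ORC_indep hβi h2 (hi'.mono (hbN.trans inter_subset_right))⟩
  -- the top face at `x`
  obtain ⟨s₀, hs₀, hs₀c, hxs₀⟩ := L'.exists_top_of_interior (x := h x)
    (by rw [hL's]; exact interior_cube_mem hc.2.2.2)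
  have hs₀D : (convexHull ℝ (s₀ : Set (Fin m → ℝ)) ∩ D).Nonempty := ⟨h x, hxs₀, hxD⟩
  -- local comparison
  have hcmp : ∀ a : Fin (m + 1) → E,
      convexHull ℝ (range a) ⊆ U ∩ U' ∩ V → AffOn h (convexHull ℝ (range a)) →
      AffOn h' (convexHull ℝ (range a)) → sdet h a ≠ 0 →
      ∃ s' ∈ L'.faces, s'.card = m + 1 ∧ (convexHull ℝ (s' : Set (Fin m → ℝ)) ∩ D).Nonempty ∧
        ∃ b ∈ L.faces, (s' : Set (Fin m → ℝ)) = h '' (b : Set E) ∧
        ∃ β : Fin (m + 1) → E, Function.Injective β ∧ range β = (b : Set E) ∧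
        sdet h β * sdet h' β ≠ 0 ∧
        ∃ p q κ : ℝ, κ ≠ 0 ∧ κ = p ^ 2 * (sdet h β * sdet h' β) ∧
          κ = q ^ 2 * (sdet h a * sdet h' a) := by
    intro a haN hA hA' ha0
    have hai : AffineIndependent ℝ (fun i => h (a i)) := (sdet_ne_zero_iff h a).1 ha0
    obtain ⟨y₀, hy₀⟩ := ORC_interior hai
    have hD1 : interior (convexHull ℝ (range fun i => h (a i))) ⊆ D := by
      intro y hy
      have := interior_subset hy
      rw [ORC_image hA] at this
      obtain ⟨z, hz, rfl⟩ := this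
      exact hVD ⟨(haN hz).2, (haN hz).1.1⟩
    obtain ⟨s', hs', hs'c, hy₀s'⟩ := L'.exists_top_of_interior (x := y₀)
      (by rw [hL's]; exact hDint (hD1 hy₀))
    obtain ⟨g, hg, hgc⟩ := ORC_carrier hs' hy₀s'
    obtain ⟨δ, hδ, hδ1, hlim⟩ := ORC_lim isOpen_interior hy₀ g
    have hyc := hgc δ hδ hδ1
    have hyi := hlim δ hδ le_rfl
    obtain ⟨y, hy⟩ : ∃ y, y = (1 - δ) • y₀ + δ • g := ⟨_, rfl⟩
    rw [← hy] at hyc hyi
    have hya := interior_subset hyi
    rw [ORC_image hA] at hya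
    obtain ⟨z, hza, hzy⟩ := hya
    have hzU : z ∈ U := (haN hza).1.1
    obtain ⟨b, hb, hbs, hbc, hzb⟩ := ORC_top hi hLs hf hh hzU hs' (by
      rw [hzy]; exact hyc.mem_hull)
    have hzc : L.IsCarrier z b := hcar' hzU hb hbs (by rw [hzy]; exact hyc)
    have hbN : convexHull ℝ (b : Set E) ⊆ U ∩ U' :=
      (GC.adapted_iff.1 had) _ _ hzc (haN hza).1
    obtain ⟨β, hβ, hβr⟩ := ORC_enum (hbc.trans hs'c)
    obtain ⟨hind, hind'⟩ := hnz hb hbN β hβ hβr
    have hB : AffOn h (convexHull ℝ (range β)) := by rw [hβr]; exact haff b hb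
    have hB' : AffOn h' (convexHull ℝ (range β)) := by rw [hβr]; exact haff' b hb hbN
    have hzβ : z ∈ convexHull ℝ (range β) := by rw [hβr]; exact hzb
    have hcvx : Convex ℝ (convexHull ℝ (range β)) := convex_convexHull ℝ _
    have hmem : ∀ i, β i ∈ convexHull ℝ (range β) := fun i =>
      subset_convexHull ℝ _ (mem_range_self i)
    have hlim2 : ∀ i, ∃ δ : ℝ, 0 < δ ∧ δ ≤ 1 ∧ ∀ η : ℝ, 0 < η → η ≤ δ →
        (1 - η) • y + η • h (β i) ∈ interior (convexHull ℝ (range fun i => h (a i))) := fun i =>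
      ORC_lim isOpen_interior hyi (h (β i))
    choose ε hε0 hε1 hε using hlim2
    obtain ⟨η, hη0, hηle⟩ : ∃ η : ℝ, 0 < η ∧ ∀ i, η ≤ ε i := by
      refine ⟨Finset.univ.inf' Finset.univ_nonempty ε, ?_,
        fun i => Finset.inf'_le _ (Finset.mem_univ i)⟩
      rw [Finset.lt_inf'_iff]
      exact fun i _ => hε0 i
    have hη1 : η ≤ 1 := (hηle 0).trans (hε1 0)
    have hcβ : ∀ i, (1 - η) • z + η • β i ∈ convexHull ℝ (range β) := fun i =>
      ORC_hom_mem hcvx hzβ (hmem i) hη0 hη1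
    have hcmap : ∀ i, h ((1 - η) • z + η • β i) = (1 - η) • y + η • h (β i) := fun i => by
      rw [ORC_hom_map hcvx hB hzβ (hmem i) hη0 hη1, hzy]
    have hca : ∀ i, (1 - η) • z + η • β i ∈ convexHull ℝ (range a) := by
      intro i
      have h1 := interior_subset (hε i η hη0 (hηle i))
      rw [ORC_image hA, ← hcmap i] at h1
      obtain ⟨z', hz', hzz⟩ := h1
      have h2 : (1 - η) • z + η • β i ∈ U := by
        apply hUmem hb
        rw [← hβr]
        exact hcβ i
      rw [← hi (haN hz').1.1 h2 hzz]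
      exact hz'
    obtain ⟨p, hp1, hp2⟩ := ORC_comb hcβ hB hB'
    obtain ⟨q, hq1, hq2⟩ := ORC_comb hca hA hA'
    have hκ1 : sdet h (fun i => (1 - η) • z + η • β i) ≠ 0 := by
      rw [sdet_ne_zero_iff]
      have e : (fun i => h ((1 - η) • z + η • β i)) = fun i => (1 - η) • h z + η • h (β i) :=
        funext fun i => ORC_hom_map hcvx hB hzβ (hmem i) hη0 hη1
      show AffineIndependent ℝ (fun i => h ((1 - η) • z + η • β i))
      rw [e]
      exact ORC_hom_indep hind (h z) hη0.ne'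
    have hκ2 : sdet h' (fun i => (1 - η) • z + η • β i) ≠ 0 := by
      rw [sdet_ne_zero_iff]
      have e : (fun i => h' ((1 - η) • z + η • β i)) = fun i => (1 - η) • h' z + η • h' (β i) :=
        funext fun i => ORC_hom_map hcvx hB' hzβ (hmem i) hη0 hη1
      show AffineIndependent ℝ (fun i => h' ((1 - η) • z + η • β i))
      rw [e]
      exact ORC_hom_indep hind' (h' z) hη0.ne'
    refine ⟨s', hs', hs'c, ⟨y, hyc.mem_hull, hD1 hyi⟩, b, hb, hbs, β, hβ, hβr,
      mul_ne_zero ((sdet_ne_zero_iff h β).2 hind) ((sdet_ne_zero_iff h' β).2 hind'),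
      p, q, sdet h (fun i => (1 - η) • z + η • β i) * sdet h' (fun i => (1 - η) • z + η • β i),
      mul_ne_zero hκ1 hκ2, ?_, ?_⟩
    · rw [hp1, hp2]; ring
    · rw [hq1, hq2]; ring
  by_cases hPs : P s₀
  · refine ⟨1, V, hVo, hxV, ?_⟩
    intro a haN hA hA'
    by_cases ha0 : sdet h a = 0
    · rw [ha0]; simp
    obtain ⟨s', hs', hs'c, hs'D, b, hb, hbs, β, hβ, hβr, hne, p, q, κ, hκ, hκp, hκq⟩ :=
      hcmp a haN hA hA' ha0
    have hPs' := L'.conn_convex D hDo hDc hDs P hstep hs₀ hs' hs₀c hs'c hs₀D hs'D hPs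
    rw [hP] at hPs'
    have hpos := hPs' b hb hbs β hβ hβr
    have hκ0 : 0 ≤ κ := by rw [hκp]; positivity
    have hκ1 : 0 < κ := lt_of_le_of_ne hκ0 hκ.symm
    simp only [Units.val_one, Int.cast_one, one_mul]
    by_contra hneg
    push Not at hneg
    have : κ ≤ 0 := by
      rw [hκq]
      exact mul_nonpos_of_nonneg_of_nonpos (sq_nonneg q) hneg.le
    linarith
  · refine ⟨-1, V, hVo, hxV, ?_⟩
    intro a haN hA hA'
    by_cases ha0 : sdet h a = 0
    · rw [ha0]; simp
    obtain ⟨s', hs', hs'c, hs'D, b, hb, hbs, β, hβ, hβr, hne, p, q, κ, hκ, hκp, hκq⟩ :=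
      hcmp a haN hA hA' ha0
    have hPs' : ¬ P s' := fun hPs' =>
      hPs (L'.conn_convex D hDo hDc hDs P hstep hs' hs₀ hs'c hs₀c hs'D hs₀D hPs')
    have hneg : sdet h β * sdet h' β ≤ 0 := by
      by_contra hpos
      push Not at hpos
      apply hPs'
      rw [hP]
      intro b₂ hb₂ hbs₂ γ hγ hγr
      have : b₂ = b := Finset.Subset.antisymm (hfinj hb₂ hb (by rw [← hbs₂, hbs]))
        (hfinj hb hb₂ (by rw [← hbs₂, hbs]))
      rw [this] at hγr
      rw [ORC_prod_perm h h' hβ hγ (hβr.trans hγr.symm)]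
      exact hpos
    have hκ0 : κ ≤ 0 := by
      rw [hκp]
      exact mul_nonpos_of_nonneg_of_nonpos (sq_nonneg p) hneg
    have hκ1 : κ < 0 := lt_of_le_of_ne hκ0 hκ
    simp only [Units.val_neg, Units.val_one, Int.cast_neg, Int.cast_one, neg_mul, one_mul]
    by_contra hcon
    push Not at hcon
    have : 0 ≤ κ := by
      rw [hκq]
      have : 0 ≤ sdet h a * sdet h' a := by linarith
      positivity
    linarith

end Pool.H54.UB
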