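import Pool.Agent.H54.UB.Core

/-!
# Row PA: closure properties of compact polyhedra

`IsPoly X` = finite union of convex hulls of finite sets.  Everything here is elementary.

* `exists_simplices`: Caratheodory (`convexHull_eq_union`): `convexHull s` is the union of the
  `convexHull t`, `t ⊆ s` affinely independent (nonempty if the point exists); finitely many `t`.
* `prod`: `convexHull_prod`.  `image_affine`: `AffineMap.image_convexHull`.
* `isCompact`: `Set.Finite.isCompact_convexHull`.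
-/

open Set Topology

namespace Pool.H54.UB

variable {E F : Type*} [NormedAddCommGroup E] [NormedSpace ℝ E]
  [NormedAddCommGroup F] [NormedSpace ℝ F]

theorem IsPoly.hull (s : Finset E) : IsPoly (convexHull ℝ (s : Set E)) := ⟨{s}, by simp⟩

theorem IsPoly.hull_finite {s : Set E} (hs : s.Finite) : IsPoly (convexHull ℝ s) := by
  have h := IsPoly.hull hs.toFinset
  rwa [hs.coe_toFinset] at h

theorem IsPoly.empty : IsPoly (∅ : Set E) := ⟨∅, by simp⟩

theorem IsPoly.singleton (x : E) : IsPoly ({x} : Set E) := by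
  have h := IsPoly.hull ({x} : Finset E)
  rwa [Finset.coe_singleton, convexHull_singleton] at h

theorem IsPoly.segment (x y : E) : IsPoly (segment ℝ x y) := by
  rw [← convexHull_pair]
  exact IsPoly.hull_finite (Set.toFinite _)

theorem IsPoly.union {X Y : Set E} (hX : IsPoly X) (hY : IsPoly Y) : IsPoly (X ∪ Y) := by
  classical
  obtain ⟨S, rfl⟩ := hX
  obtain ⟨T, rfl⟩ := hY
  refine ⟨S ∪ T, ?_⟩
  ext x
  simp only [mem_union, mem_iUnion, Finset.mem_union, exists_prop]
  constructor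
  · rintro (⟨s, hs, h⟩ | ⟨s, hs, h⟩)
    · exact ⟨s, Or.inl hs, h⟩
    · exact ⟨s, Or.inr hs, h⟩
  · rintro ⟨s, hs | hs, h⟩
    · exact Or.inl ⟨s, hs, h⟩
    · exact Or.inr ⟨s, hs, h⟩

theorem IsPoly.biUnion {ι : Type*} {s : Set ι} (hs : s.Finite) {X : ι → Set E}
    (h : ∀ i ∈ s, IsPoly (X i)) : IsPoly (⋃ i ∈ s, X i) := by
  induction s, hs using Set.Finite.induction_on with
  | empty =>
    rw [Set.biUnion_empty]
    exact IsPoly.empty
  | insert _ _ ih =>
    rw [Set.biUnion_insert]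
    exact (h _ (Set.mem_insert _ _)).union (ih fun i hi => h i (Set.mem_insert_of_mem _ hi))

theorem IsPoly.image_affine {X : Set E} (hX : IsPoly X) (A : E →ᵃ[ℝ] F) : IsPoly (A '' X) := by
  obtain ⟨S, rfl⟩ := hX
  have h1 : A '' (⋃ s ∈ S, convexHull ℝ (s : Set E)) =
      ⋃ s ∈ (S : Set (Finset E)), A '' convexHull ℝ (s : Set E) := by
    rw [Set.image_iUnion₂]
    rfl
  rw [h1]
  refine IsPoly.biUnion S.finite_toSet fun s _ => ?_
  rw [AffineMap.image_convexHull]
  exact IsPoly.hull_finite (s.finite_toSet.image _)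

theorem IsPoly.prod {X : Set E} {Y : Set F} (hX : IsPoly X) (hY : IsPoly Y) :
    IsPoly (X ×ˢ Y) := by
  obtain ⟨S, rfl⟩ := hX
  obtain ⟨T, rfl⟩ := hY
  have h1 : (⋃ s ∈ S, convexHull ℝ (s : Set E)) ×ˢ (⋃ t ∈ T, convexHull ℝ (t : Set F)) =
      ⋃ s ∈ (S : Set (Finset E)), ⋃ t ∈ (T : Set (Finset F)),
        convexHull ℝ (s : Set E) ×ˢ convexHull ℝ (t : Set F) := by
    ext ⟨x, y⟩
    simp only [mem_prod, mem_iUnion, exists_prop, Finset.mem_coe]
    constructor
    · rintro ⟨⟨s, hs, hx⟩, t, ht, hy⟩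
      exact ⟨s, hs, t, ht, hx, hy⟩
    · rintro ⟨s, hs, t, ht, hx, hy⟩
      exact ⟨⟨s, hs, hx⟩, t, ht, hy⟩
  rw [h1]
  refine IsPoly.biUnion S.finite_toSet fun s _ => IsPoly.biUnion T.finite_toSet fun t _ => ?_
  rw [← convexHull_prod]
  exact IsPoly.hull_finite (s.finite_toSet.prod t.finite_toSet)

theorem IsPoly.isCompact {X : Set E} (hX : IsPoly X) : IsCompact X := by
  obtain ⟨S, rfl⟩ := hX
  exact S.finite_toSet.isCompact_biUnion fun s _ => Set.Finite.isCompact_convexHull ℝ s.finite_toSet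

/-- Decomposition into simplices. -/
theorem IsPoly.exists_simplices {X : Set E} (hX : IsPoly X) :
    ∃ S : Finset (Finset E), X = (⋃ s ∈ S, convexHull ℝ (s : Set E)) ∧
      ∀ s ∈ S, s.Nonempty ∧ AffineIndependent ℝ (fun x : s => (x : E)) := by
  classical
  obtain ⟨S, rfl⟩ := hX
  refine ⟨(S.biUnion (fun s => s.powerset)).filter
    (fun t => t.Nonempty ∧ AffineIndependent ℝ (fun x : t => (x : E))), ?_, ?_⟩
  · ext x
    simp only [mem_iUnion, Finset.mem_filter, Finset.mem_biUnion, Finset.mem_powerset, exists_prop]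
    constructor
    · rintro ⟨s, hs, hx⟩
      rw [convexHull_eq_union] at hx
      simp only [mem_iUnion, exists_prop] at hx
      obtain ⟨t, hts, ht, hx⟩ := hx
      refine ⟨t, ⟨⟨s, hs, ?_⟩, ?_, ht⟩, hx⟩
      · exact Finset.coe_subset.1 hts
      · have : (t : Set E).Nonempty := convexHull_nonempty_iff.1 ⟨x, hx⟩
        exact Finset.coe_nonempty.1 this
    · rintro ⟨t, ⟨⟨s, hs, hts⟩, -⟩, hx⟩
      exact ⟨s, hs, convexHull_mono (Finset.coe_subset.2 hts) hx⟩
  · intro t ht
    exact (Finset.mem_filter.1 ht).2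

end Pool.H54.UB
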