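import Pool.Agent.H54.UB.Core

/-!
# Row PB: a bounded intersection of finitely many closed half spaces is a polyhedron

Proof.  `P = {x | ∀ i, 0 ≤ A i x}` is convex, closed (affine maps are continuous in finite
dimension) and bounded, hence compact.  By Krein-Milman (`closure_convexHull_extremePoints` or
similar) `P = closure (convexHull (P.extremePoints ℝ))`.  The set of extreme points is finite: the
map `x ↦ {i | A i x = 0}` is injective on extreme points: if `x ≠ y` are extreme with the same
active set, then for small `ε > 0` the points `x ± ε (x - y)` are in `P` (the active constraints are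
affine and vanish at `x` and `y`, hence on the line; the others are positive at `x`), so `x` is the
midpoint of two different points of `P`.  The convex hull of a finite set is compact, hence closed,
so `P = convexHull (finite set)`.  (If `ι` is empty then boundedness forces `E` to be trivial, the
same proof works.)
-/

open Set Topology

namespace Pool.H54.UB

variable {E : Type*} [NormedAddCommGroup E] [NormedSpace ℝ E] [FiniteDimensional ℝ E]

omit [FiniteDimensional ℝ E] in
private theorem PB_val (A : E →ᵃ[ℝ] ℝ) (x y : E) (t : ℝ) :
    A (x + t • (x - y)) = A x + t * (A x - A y) := by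
  have h1 : A (x + t • (x - y)) = A.linear (t • (x - y)) + A x := by
    have := A.map_vadd x (t • (x - y))
    rwa [vadd_eq_add, vadd_eq_add, add_comm (t • (x - y)) x] at this
  have h2 : A.linear (x - y) = A x - A y := by
    have := A.linearMap_vsub x y
    rwa [vsub_eq_sub, vsub_eq_sub] at this
  rw [h1, map_smul, h2, smul_eq_mul]
  ring

theorem isPoly_of_halfspaces {ι : Type*} [Finite ι] (A : ι → E →ᵃ[ℝ] ℝ)
    (hb : Bornology.IsBounded {x : E | ∀ i, 0 ≤ A i x}) :
    IsPoly {x : E | ∀ i, 0 ≤ A i x} := by
  obtain ⟨P, hP⟩ : ∃ P, P = {x : E | ∀ i, 0 ≤ A i x} := ⟨_, rfl⟩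
  rw [← hP] at hb ⊢
  have hmem : ∀ x, x ∈ P ↔ ∀ i, 0 ≤ A i x := fun x => by rw [hP]; rfl
  have hPi : P = ⋂ i, (A i) ⁻¹' Ici 0 := by
    rw [hP]
    ext x
    simp
  have hconv : Convex ℝ P := by
    rw [hPi]
    exact convex_iInter fun i => (convex_Ici 0).affine_preimage (A i)
  have hclosed : IsClosed P := by
    rw [hPi]
    exact isClosed_iInter fun i => isClosed_Ici.preimage (A i).continuous_of_finiteDimensional
  have hcomp : IsCompact P := Metric.isCompact_of_isClosed_isBounded hclosed hb
  have hinj : InjOn (fun x : E => {i | A i x = 0}) (P.extremePoints ℝ) := by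
    intro x hx y hy hxy
    by_contra hne
    have hx' := mem_extremePoints.1 hx
    have hy' := mem_extremePoints.1 hy
    have hev : ∀ᶠ t in 𝓝 (0 : ℝ), ∀ i, 0 ≤ A i x + t * (A i x - A i y) := by
      rw [Filter.eventually_all]
      intro i
      by_cases h0 : A i x = 0
      · have h1 : A i y = 0 := by
          have : i ∈ {i | A i x = 0} := h0
          have h2 : i ∈ {i | A i y = 0} := by
            have h3 : {i | A i x = 0} = {i | A i y = 0} := hxy
            rw [← h3]
            exact this
          exact h2
        refine Filter.Eventually.of_forall fun t => ?_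
        rw [h0, h1]
        simp
      · have hpos : 0 < A i x := lt_of_le_of_ne ((hmem x).1 hx'.1 i) (Ne.symm h0)
        have hc : Continuous fun t : ℝ => A i x + t * (A i x - A i y) := by fun_prop
        have h2 := hc.continuousAt (x := (0 : ℝ))
        have h3 : (0 : ℝ) < A i x + 0 * (A i x - A i y) := by rw [zero_mul, add_zero]; exact hpos
        exact (h2.eventually (lt_mem_nhds h3)).mono fun t ht => ht.le
    obtain ⟨δ, hδ, hball⟩ := Metric.eventually_nhds_iff.1 hev
    have hp1 : x + (δ / 2) • (x - y) ∈ P := by
      rw [hmem]
      intro i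
      rw [PB_val]
      refine hball ?_ i
      rw [Real.dist_eq, sub_zero, abs_of_pos (by positivity)]
      linarith
    have hp2 : x + (-(δ / 2)) • (x - y) ∈ P := by
      rw [hmem]
      intro i
      rw [PB_val]
      refine hball ?_ i
      rw [Real.dist_eq, sub_zero, abs_neg, abs_of_pos (by positivity)]
      linarith
    have hseg : x ∈ openSegment ℝ (x + (δ / 2) • (x - y)) (x + (-(δ / 2)) • (x - y)) := by
      refine ⟨1 / 2, 1 / 2, by norm_num, by norm_num, by norm_num, ?_⟩
      module
    have h4 := (hx'.2 _ hp1 _ hp2 hseg).1
    have h5 : (δ / 2) • (x - y) = 0 := by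
      have := congrArg (fun z => z - x) h4
      simpa using this
    rcases smul_eq_zero.1 h5 with h6 | h6
    · linarith
    · exact hne (sub_eq_zero.1 h6)
  have hfin : (P.extremePoints ℝ).Finite := (Set.toFinite _).of_finite_image hinj
  have hkm := closure_convexHull_extremePoints hcomp hconv
  have hcl : IsClosed (convexHull ℝ (P.extremePoints ℝ)) := hfin.isClosed_convexHull ℝ
  rw [hcl.closure_eq] at hkm
  refine ⟨{hfin.toFinset}, ?_⟩
  rw [Finset.set_biUnion_singleton, hfin.coe_toFinset, hkm]

end Pool.H54.UB
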