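import Pool.Agent.H54.UB.Core

/-!
# Row PC: a simplex is an intersection of half spaces

Proof.  Let `s` be affinely independent and nonempty.  Extend it to an affine basis `b` of `E`
(`exists_affineBasis` / `AffineBasis.exists_affine_subbasis`, `AffineIndependent.exists_subset_...`;
finite because `E` is finite dimensional) and take the barycentric coordinates `b.coord i`
(affine functionals `E →ᵃ[ℝ] ℝ`): a point is in `convexHull s` iff all coordinates are `≥ 0` and the
coordinates outside `s` are `= 0`, i.e. also `0 ≤ - b.coord i x` for `i ∉ s`.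
(`AffineBasis.convexHull_eq_nonneg_coord` is the case where `s` is the whole basis.)
-/

open Set Topology

namespace Pool.H54.UB

variable {E : Type*} [NormedAddCommGroup E] [NormedSpace ℝ E] [FiniteDimensional ℝ E]

theorem simplex_halfspaces (s : Finset E) (hne : s.Nonempty)
    (hs : AffineIndependent ℝ (fun x : s => (x : E))) :
    ∃ (n : ℕ) (A : Fin n → E →ᵃ[ℝ] ℝ), convexHull ℝ (s : Set E) = {x | ∀ i, 0 ≤ A i x} := by
  classical
  obtain ⟨t, hst, hti, htop⟩ := exists_subset_affineIndependent_affineSpan_eq_top hs
  have htf : t.Finite := finite_set_of_fin_dim_affineIndependent ℝ hti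
  have : Fintype t := htf.fintype
  let b : AffineBasis t ℝ E := ⟨fun p => (p : E), hti, by rw [Subtype.range_coe]; exact htop⟩
  have hb : ∀ i : t, b i = (i : E) := fun _ => rfl
  let ι := t ⊕ {i : t // (i : E) ∉ s}
  let e : ι ≃ Fin (Fintype.card ι) := Fintype.equivFin ι
  let A : ι → E →ᵃ[ℝ] ℝ := Sum.elim (fun i => b.coord i) (fun i => -b.coord i.1)
  refine ⟨Fintype.card ι, fun i => A (e.symm i), ?_⟩
  have h1 : {x : E | ∀ i, 0 ≤ A (e.symm i) x} =
      {x | (∀ i : t, 0 ≤ b.coord i x) ∧ ∀ i : t, (i : E) ∉ s → b.coord i x = 0} := by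
    ext x
    simp only [mem_ofPred_eq]
    constructor
    · intro h
      have h' : ∀ i : ι, 0 ≤ A i x := fun i => by
        have := h (e i)
        rwa [Equiv.symm_apply_apply] at this
      refine ⟨fun i => h' (Sum.inl i), fun i hi => le_antisymm ?_ (h' (Sum.inl i))⟩
      have h2 : 0 ≤ -(b.coord i x) := h' (Sum.inr ⟨i, hi⟩)
      linarith
    · rintro ⟨h2, h3⟩ i
      rcases e.symm i with j | j
      · exact h2 j
      · change 0 ≤ -(b.coord j.1 x)
        rw [h3 j.1 j.2, neg_zero]
  rw [h1]
  apply subset_antisymm
  · refine convexHull_min ?_ ?_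
    · intro x hx
      have hxt : x ∈ t := hst hx
      have h2 : x = b ⟨x, hxt⟩ := rfl
      refine ⟨fun i => ?_, fun i hi => ?_⟩
      · rw [h2, b.coord_apply]
        split_ifs <;> norm_num
      · rw [h2, b.coord_apply_ne]
        rintro rfl
        exact hi hx
    · intro x hx y hy a c ha hc hac
      have hcomb : ∀ i : t, b.coord i (a • x + c • y) = a * b.coord i x + c * b.coord i y := by
        intro i
        have h := Convex.combo_affine_apply (f := b.coord i) (x := x) (y := y) hac
        simpa using h
      refine ⟨fun i => ?_, fun i hi => ?_⟩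
      · rw [hcomb]
        have := hx.1 i
        have := hy.1 i
        positivity
      · rw [hcomb, hx.2 i hi, hy.2 i hi]
        ring
  · rintro x ⟨hx1, hx2⟩
    have h3 : ∑ i ∈ Finset.univ.filter (fun i : t => (i : E) ∈ s), b.coord i x = 1 := by
      rw [← b.sum_coord_apply_eq_one x]
      refine Finset.sum_subset (Finset.subset_univ _) fun i _ hi => hx2 i ?_
      simpa using hi
    have h4 : ∑ i ∈ Finset.univ.filter (fun i : t => (i : E) ∈ s), b.coord i x • (i : E) = x := by
      conv_rhs => rw [← b.linear_combination_coord_eq_self x]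
      refine Finset.sum_subset (Finset.subset_univ _) fun i _ hi => ?_
      rw [hx2 i (by simpa using hi), zero_smul]
    rw [← h4]
    refine (convex_convexHull ℝ _).sum_mem (fun i _ => hx1 i) h3 fun i hi => ?_
    exact subset_convexHull ℝ _ (Finset.mem_coe.2 (Finset.mem_filter.1 hi).2)

open scoped Pointwise in
/-- Every bounded set is contained in a simplex. -/
theorem exists_big_simplex {X : Set E} (hX : Bornology.IsBounded X) :
    ∃ s : Finset E, s.Nonempty ∧ AffineIndependent ℝ (fun x : s => (x : E)) ∧
      X ⊆ convexHull ℝ (s : Set E) := by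
  classical
  obtain ⟨b, hb, -⟩ := exists_mem_interior_convexHull_affineBasis (s := (univ : Set E)) (x := 0)
    Filter.univ_mem
  obtain ⟨ε, hε, hball⟩ := Metric.isOpen_iff.1 isOpen_interior 0 hb
  obtain ⟨M, hM⟩ := hX.subset_closedBall (0 : E)
  let R : ℝ := (|M| + 1) / ε
  have hM0 : 0 < |M| + 1 := by positivity
  have hR : 0 < R := div_pos hM0 hε
  have hRi : AffineIndependent ℝ (fun i => R • b i) := by
    have h := b.ind.map' ((R • (LinearMap.id : E →ₗ[ℝ] E)).toAffineMap) (by
      intro x y hxy
      have h2 : R • x = R • y := hxy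
      exact smul_right_injective E hR.ne' h2)
    exact h
  refine ⟨Finset.univ.image (fun i => R • b i), ?_, ?_, ?_⟩
  · exact Finset.univ_nonempty.image _
  · have h := hRi.range
    have hr : ((Finset.univ.image (fun i => R • b i) : Finset E) : Set E) = range (fun i => R • b i) := by
      simp
    have h2 : AffineIndependent ℝ (fun x : ((Finset.univ.image (fun i => R • b i) : Finset E) : Set E) => (x : E)) := by
      rw [hr]
      exact h
    exact h2
  · have hr : ((Finset.univ.image (fun i => R • b i) : Finset E) : Set E) = R • range b := by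
      rw [Finset.coe_image, Finset.coe_univ, image_univ, ← image_smul, ← range_comp]
      rfl
    rw [hr, convexHull_smul]
    intro x hx
    rw [mem_smul_set_iff_inv_smul_mem₀ hR.ne']
    apply interior_subset
    apply hball
    have h5 : ‖x‖ ≤ M := by simpa using hM hx
    rw [mem_ball_zero_iff, norm_smul, norm_inv, Real.norm_of_nonneg hR.le]
    have h6 : R⁻¹ * (|M| + 1) = ε := by
      change ((|M| + 1) / ε)⁻¹ * (|M| + 1) = ε
      field_simp
    have h7 : ‖x‖ < |M| + 1 := by
      have := le_abs_self M
      linarith
    calc R⁻¹ * ‖x‖ < R⁻¹ * (|M| + 1) := by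
          apply mul_lt_mul_of_pos_left h7
          positivity
      _ = ε := h6

end Pool.H54.UB
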