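import Pool.Agent.H54.UB.PA
import Pool.Agent.H54.UB.PB
import Pool.Agent.H54.UB.PC

/-!
# Row PD: intersections and affine preimages of polyhedra

Proof.  By `IsPoly.exists_simplices` reduce to simplices; by `simplex_halfspaces` the set in
question (`conv s ∩ conv t`, resp. `conv s ∩ A⁻¹ (conv t)`, resp. `conv s ∩ {0 ≤ a}`) is a bounded
intersection of finitely many half spaces; apply `isPoly_of_halfspaces`, and take finite unions.
-/

open Set Topology

namespace Pool.H54.UB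

variable {E F : Type*} [NormedAddCommGroup E] [NormedSpace ℝ E] [FiniteDimensional ℝ E]
  [NormedAddCommGroup F] [NormedSpace ℝ F] [FiniteDimensional ℝ F]

/-- Adding finitely many affine inequalities to a polyhedron. -/
theorem PD_core {X : Set E} (hX : IsPoly X) {ι : Type*} [Finite ι] (B : ι → E →ᵃ[ℝ] ℝ) :
    IsPoly (X ∩ {x | ∀ i, 0 ≤ B i x}) := by
  obtain ⟨S, hS, hSs⟩ := hX.exists_simplices
  have h1 : X ∩ {x | ∀ i, 0 ≤ B i x} =
      ⋃ s ∈ (S : Set (Finset E)), (convexHull ℝ (s : Set E) ∩ {x | ∀ i, 0 ≤ B i x}) := by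
    rw [hS]
    ext x
    simp only [mem_inter_iff, mem_iUnion, Finset.mem_coe, exists_prop]
    constructor
    · rintro ⟨⟨s, hs, hx⟩, hb⟩
      exact ⟨s, hs, hx, hb⟩
    · rintro ⟨s, hs, hx, hb⟩
      exact ⟨⟨s, hs, hx⟩, hb⟩
  rw [h1]
  refine IsPoly.biUnion S.finite_toSet ?_
  intro s hs
  obtain ⟨n, A, hA⟩ := simplex_halfspaces s (hSs s hs).1 (hSs s hs).2
  have hset : convexHull ℝ (s : Set E) ∩ {x | ∀ i, 0 ≤ B i x} =
      {x | ∀ i : Fin n ⊕ ι, 0 ≤ (Sum.elim A B i) x} := by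
    rw [hA]
    ext x
    simp only [mem_inter_iff, mem_setOf_eq, Sum.forall, Sum.elim_inl, Sum.elim_inr]
  rw [hset]
  refine isPoly_of_halfspaces _ ?_
  rw [← hset]
  exact ((IsPoly.hull s).isCompact.isBounded).subset inter_subset_left

theorem IsPoly.inter_preimage {X : Set E} {Y : Set F} (hX : IsPoly X) (hY : IsPoly Y)
    (A : E →ᵃ[ℝ] F) : IsPoly (X ∩ A ⁻¹' Y) := by
  obtain ⟨T, hT, hTs⟩ := hY.exists_simplices
  have h1 : X ∩ A ⁻¹' Y =
      ⋃ t ∈ (T : Set (Finset F)), (X ∩ A ⁻¹' (convexHull ℝ (t : Set F))) := by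
    rw [hT]
    ext x
    simp only [mem_inter_iff, mem_preimage, mem_iUnion, Finset.mem_coe, exists_prop]
    constructor
    · rintro ⟨hx, t, ht, hA⟩
      exact ⟨t, ht, hx, hA⟩
    · rintro ⟨t, ht, hx, hA⟩
      exact ⟨hx, t, ht, hA⟩
  rw [h1]
  refine IsPoly.biUnion T.finite_toSet ?_
  intro t ht
  obtain ⟨n, B, hB⟩ := simplex_halfspaces t (hTs t ht).1 (hTs t ht).2
  have hset : X ∩ A ⁻¹' (convexHull ℝ (t : Set F)) =
      X ∩ {x | ∀ i, 0 ≤ ((B i).comp A) x} := by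
    rw [hB]
    rfl
  rw [hset]
  exact PD_core hX _

theorem IsPoly.inter {X Y : Set E} (hX : IsPoly X) (hY : IsPoly Y) : IsPoly (X ∩ Y) :=
  hX.inter_preimage hY (AffineMap.id ℝ E)

theorem IsPoly.inter_halfspace {X : Set E} (hX : IsPoly X) (a : E →ᵃ[ℝ] ℝ) :
    IsPoly (X ∩ {x | 0 ≤ a x}) := by
  have h := PD_core hX (fun _ : Unit => a)
  have hset : {x : E | ∀ _ : Unit, 0 ≤ a x} = {x | 0 ≤ a x} := by
    ext x
    simp
  rwa [hset] at h

theorem IsPoly.inter_hyperplane {X : Set E} (hX : IsPoly X) (a : E →ᵃ[ℝ] ℝ) :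
    IsPoly (X ∩ {x | a x = 0}) := by
  have h := (hX.inter_halfspace a).inter_halfspace (-a)
  have hset : X ∩ {x : E | 0 ≤ a x} ∩ {x | 0 ≤ (-a) x} = X ∩ {x | a x = 0} := by
    ext x
    simp only [mem_inter_iff, mem_setOf_eq]
    have hn : (-a) x = -(a x) := rfl
    rw [hn]
    constructor
    · rintro ⟨⟨hx, h1⟩, h2⟩
      exact ⟨hx, by linarith⟩
    · rintro ⟨hx, h1⟩
      exact ⟨⟨hx, by linarith⟩, by linarith⟩
  rwa [hset] at h

/-- Bounded half space intersections, version with an index set and inequalities `a ≤ b`. -/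
theorem isPoly_box {m : ℕ} (a b : Fin m → ℝ) :
    IsPoly {y : Fin m → ℝ | ∀ i, a i ≤ y i ∧ y i ≤ b i} := by
  let P : Fin m → (Fin m → ℝ) →ᵃ[ℝ] ℝ := fun i =>
    (LinearMap.proj (R := ℝ) (φ := fun _ : Fin m => ℝ) i).toAffineMap
  let C : ℝ → (Fin m → ℝ) →ᵃ[ℝ] ℝ := fun c => AffineMap.const ℝ (Fin m → ℝ) c
  have hset : {y : Fin m → ℝ | ∀ i, a i ≤ y i ∧ y i ≤ b i} =
      {y | ∀ k : Fin m ⊕ Fin m, 0 ≤ (Sum.elim (fun i => P i - C (a i))
        (fun i => C (b i) - P i) k) y} := by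
    ext y
    simp only [mem_setOf_eq, Sum.forall, Sum.elim_inl, Sum.elim_inr]
    have h1 : ∀ i, (P i - C (a i)) y = y i - a i := fun i => rfl
    have h2 : ∀ i, (C (b i) - P i) y = b i - y i := fun i => rfl
    simp only [h1, h2, sub_nonneg]
    exact forall_and
  rw [hset]
  refine isPoly_of_halfspaces _ ?_
  rw [← hset]
  refine (Metric.isBounded_Icc a b).subset ?_
  intro y hy
  exact ⟨fun i => (hy i).1, fun i => (hy i).2⟩

end Pool.H54.UB
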