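import Pool.Agent.H54.UB.GA

/-!
# Row PIA: paths in a finite geometric complex

* `space_pathConnected`: connected implies path connected: path components of `K.space` are unions of
  hulls of faces (hulls are convex, so path connected), finitely many, closed, hence clopen.
* `seg`: the straight path between two points of the hull of a face, as a `Path` in `↥K.space`.
* `seg_trans`: in the hull of a face `seg x y` followed by `seg y z` is homotopic to `seg x z` (the hull
  is convex; homotopy inside the hull, e.g. via `convexHull` simply connected / contractible, or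
  an explicit straight line homotopy).
* `star_path`: let `v` be a vertex and `β` a path in `K.space` all of whose points have a carrier
  containing `v`.  Then `β` is homotopic to `seg (β 0) v` followed by `seg v (β 1)`: the straight line
  homotopy `H (s,t) = (1-s) β t + s v` stays in `K.space` (the segment from `v` to a point with carrier
  `∋ v` lies in the hull of the carrier) and gives `β ≃ seg (β 0) v · const · seg v (β 1)`.
-/

open Set Topology

namespace Pool.H54.UB

variable {E : Type*} [NormedAddCommGroup E] [NormedSpace ℝ E]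

private lemma PIA_hull_sub (K : GC E) {s : Finset E} (hs : s ∈ K.faces) :
    convexHull ℝ (s : Set E) ⊆ K.space := fun _ hx => mem_biUnion hs hx

private lemma PIA_joined (K : GC E) {s : Finset E} (hs : s ∈ K.faces) {x y : E}
    (hx : x ∈ convexHull ℝ (s : Set E)) (hy : y ∈ convexHull ℝ (s : Set E)) :
    JoinedIn K.space x y := by
  have hpc : IsPathConnected (convexHull ℝ (s : Set E)) :=
    (convex_convexHull ℝ (s : Set E)).isPathConnected ⟨x, hx⟩
  exact (hpc.joinedIn x hx y hy).mono (PIA_hull_sub K hs)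

theorem GC.space_pathConnected (K : GC E) (hc : IsConnected K.space) :
    PathConnectedSpace ↥K.space := by
  rw [← isPathConnected_iff_pathConnectedSpace]
  obtain ⟨x0, hx0⟩ := hc.nonempty
  refine ⟨x0, hx0, ?_⟩
  intro y hy
  by_contra hny
  have hclosed : ∀ P : Finset E → Prop,
      IsClosed (⋃ t ∈ {t | t ∈ K.faces ∧ P t}, convexHull ℝ (t : Set E)) := by
    intro P
    have hfin : {t | t ∈ K.faces ∧ P t}.Finite := K.fin.subset (fun t ht => ht.1)
    exact hfin.isClosed_biUnion (fun t _ => (t.finite_toSet.isCompact_convexHull ℝ).isClosed)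
  have key := isPreconnected_closed_iff.1 hc.isPreconnected
    (⋃ t ∈ {t | t ∈ K.faces ∧ ∃ z ∈ convexHull ℝ (t : Set E), JoinedIn K.space x0 z},
      convexHull ℝ (t : Set E))
    (⋃ t ∈ {t | t ∈ K.faces ∧ ∃ z ∈ convexHull ℝ (t : Set E), ¬ JoinedIn K.space x0 z},
      convexHull ℝ (t : Set E)) (hclosed _) (hclosed _)
    (by
      intro z hz
      obtain ⟨t, ht, hzt⟩ := mem_iUnion₂.1 hz
      by_cases hj : JoinedIn K.space x0 z
      · exact Or.inl (mem_iUnion₂.2 ⟨t, ⟨ht, z, hzt, hj⟩, hzt⟩)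
      · exact Or.inr (mem_iUnion₂.2 ⟨t, ⟨ht, z, hzt, hj⟩, hzt⟩))
    (by
      obtain ⟨t, ht, hzt⟩ := mem_iUnion₂.1 hx0
      exact ⟨x0, hx0, mem_iUnion₂.2 ⟨t, ⟨ht, x0, hzt, JoinedIn.refl hx0⟩, hzt⟩⟩)
    (by
      obtain ⟨t, ht, hzt⟩ := mem_iUnion₂.1 hy
      exact ⟨y, hy, mem_iUnion₂.2 ⟨t, ⟨ht, y, hzt, hny⟩, hzt⟩⟩)
  obtain ⟨z, hz, hz1, hz2⟩ := key
  obtain ⟨t1, ⟨ht1, w1, hw1, hj1⟩, hzt1⟩ := mem_iUnion₂.1 hz1
  obtain ⟨t2, ⟨ht2, w2, hw2, hj2⟩, hzt2⟩ := mem_iUnion₂.1 hz2
  exact hj2 ((hj1.trans (PIA_joined K ht1 hw1 hzt1)).trans (PIA_joined K ht2 hzt2 hw2))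

/-- Straight path in the hull of a face. -/
noncomputable def GC.seg (K : GC E) {s : Finset E} (hs : s ∈ K.faces) {x y : E}
    (hx : x ∈ convexHull ℝ (s : Set E)) (hy : y ∈ convexHull ℝ (s : Set E)) :
    Path (⟨x, mem_biUnion hs hx⟩ : ↥K.space) (⟨y, mem_biUnion hs hy⟩ : ↥K.space) where
  toFun t := ⟨AffineMap.lineMap x y (t : ℝ), mem_biUnion hs
    ((convex_convexHull ℝ (s : Set E)).segment_subset hx hy
      (by rw [segment_eq_image_lineMap]; exact ⟨t, t.2, rfl⟩))⟩
  continuous_toFun := by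
    refine Continuous.subtype_mk ?_ _
    exact AffineMap.lineMap_continuous.comp continuous_subtype_val
  source' := by ext; simp
  target' := by ext; simp

private lemma PIA_seg_mem (K : GC E) {s : Finset E} (hs : s ∈ K.faces) {x y : E}
    (hx : x ∈ convexHull ℝ (s : Set E)) (hy : y ∈ convexHull ℝ (s : Set E)) (t : unitInterval) :
    (K.seg hs hx hy t : E) ∈ convexHull ℝ (s : Set E) :=
  (convex_convexHull ℝ (s : Set E)).segment_subset hx hy
      (by rw [segment_eq_image_lineMap]; exact ⟨t, t.2, rfl⟩)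

/-- Two paths with values in a simply connected subset are homotopic. -/
private lemma PIA_hom {X : Set E} (D : Set E) (hD : D ⊆ X) [SimplyConnectedSpace ↥D]
    {a b : ↥X} (γ δ : Path a b) (hγ : ∀ t, (γ t : E) ∈ D) (hδ : ∀ t, (δ t : E) ∈ D) :
    γ.Homotopic δ := by
  have ha : (a : E) ∈ D := by simpa using hγ 0
  have hb : (b : E) ∈ D := by simpa using hγ 1
  have hlift : ∀ η : Path a b, (∀ t, (η t : E) ∈ D) →
      ∃ η' : Path (⟨a, ha⟩ : ↥D) (⟨b, hb⟩ : ↥D),
        (η : Path a b) = η'.map (continuous_inclusion hD) := by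
    intro η hη
    refine ⟨{ toFun := fun t => ⟨η t, hη t⟩
              continuous_toFun := (continuous_subtype_val.comp η.continuous).subtype_mk _
              source' := by ext; simp
              target' := by ext; simp }, ?_⟩
    ext t
    rfl
  obtain ⟨γ', h1⟩ := hlift γ hγ
  obtain ⟨δ', h2⟩ := hlift δ hδ
  have h3 := (SimplyConnectedSpace.paths_homotopic γ' δ').map
    (⟨Set.inclusion hD, continuous_inclusion hD⟩ : C(↥D, ↥X))
  rw [h1, h2]
  exact h3

private lemma PIA_trans_mem {X : Set E} (D : Set E) {a b c : ↥X} (γ : Path a b) (δ : Path b c)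
    (hγ : ∀ t, (γ t : E) ∈ D) (hδ : ∀ t, (δ t : E) ∈ D) (t : unitInterval) :
    (γ.trans δ t : E) ∈ D := by
  rw [Path.trans_apply]
  split_ifs
  · exact hγ _
  · exact hδ _

theorem GC.seg_trans (K : GC E) {s : Finset E} (hs : s ∈ K.faces) {x y z : E}
    (hx : x ∈ convexHull ℝ (s : Set E)) (hy : y ∈ convexHull ℝ (s : Set E))
    (hz : z ∈ convexHull ℝ (s : Set E)) :
    ((K.seg hs hx hy).trans (K.seg hs hy hz)).Homotopic (K.seg hs hx hz) := by
  haveI : ContractibleSpace ↥(convexHull ℝ (s : Set E)) :=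
    (convex_convexHull ℝ (s : Set E)).contractibleSpace ⟨x, hx⟩
  refine PIA_hom (convexHull ℝ (s : Set E)) (PIA_hull_sub K hs) _ _ ?_ ?_
  · exact PIA_trans_mem _ _ _ (PIA_seg_mem K hs hx hy) (PIA_seg_mem K hs hy hz)
  · exact PIA_seg_mem K hs hx hz

theorem GC.seg_symm (K : GC E) {s : Finset E} (hs : s ∈ K.faces) {x y : E}
    (hx : x ∈ convexHull ℝ (s : Set E)) (hy : y ∈ convexHull ℝ (s : Set E)) :
    (K.seg hs hx hy).symm = K.seg hs hy hx := by
  ext t
  show AffineMap.lineMap x y ((unitInterval.symm t : unitInterval) : ℝ)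
    = AffineMap.lineMap y x (t : ℝ)
  rw [unitInterval.coe_symm_eq, AffineMap.lineMap_apply_one_sub]

theorem GC.star_path (K : GC E) {v : E} {a b : ↥K.space} (β : Path a b)
    (hβ : ∀ t s, K.IsCarrier (β t : E) s → v ∈ s) {s s' : Finset E} (hs : s ∈ K.faces)
    (hs' : s' ∈ K.faces) (ha : (a : E) ∈ convexHull ℝ (s : Set E))
    (hb : (b : E) ∈ convexHull ℝ (s' : Set E)) (hv : v ∈ s) (hv' : v ∈ s') :
    β.Homotopic ((K.seg hs ha (subset_convexHull ℝ _ hv)).trans
      (K.seg hs' (subset_convexHull ℝ _ hv') hb)) := by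
  have hface : ∀ {t : Finset E}, t ∈ K.faces → v ∈ t → ∀ {z : E}, z ∈ convexHull ℝ (t : Set E) →
      z ∈ {x : E | segment ℝ v x ⊆ K.space} := by
    intro t ht hvt z hz
    show segment ℝ v z ⊆ K.space
    exact ((convex_convexHull ℝ (t : Set E)).segment_subset
      (subset_convexHull ℝ _ hvt) hz).trans (PIA_hull_sub K ht)
  have hDK : {x : E | segment ℝ v x ⊆ K.space} ⊆ K.space := by
    intro z hz
    exact hz (right_mem_segment ℝ v z)
  have hstar : StarConvex ℝ v {x : E | segment ℝ v x ⊆ K.space} := by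
    rw [starConvex_iff_segment_subset]
    intro z hz w hw
    show segment ℝ v w ⊆ K.space
    refine Set.Subset.trans ?_ hz
    exact (convex_segment v z).segment_subset (left_mem_segment ℝ v z) hw
  haveI : ContractibleSpace ↥{x : E | segment ℝ v x ⊆ K.space} :=
    hstar.contractibleSpace ⟨a, hface hs hv ha⟩
  refine PIA_hom {x : E | segment ℝ v x ⊆ K.space} hDK _ _ ?_ ?_
  · intro t
    obtain ⟨u, hu⟩ := GC.exists_carrier' (K := K) (β t).2
    exact hface hu.1 (hβ t u hu) hu.mem_hull
  · refine PIA_trans_mem _ _ _ (fun t => ?_) (fun t => ?_)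
    · exact hface hs hv (PIA_seg_mem K hs ha (subset_convexHull ℝ _ hv) t)
    · exact hface hs' hv' (PIA_seg_mem K hs' (subset_convexHull ℝ _ hv') hb t)

end Pool.H54.UB
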