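import Pool.Agent.H54.UB.MBP
import Pool.Agent.H54.UB.MBG
import Pool.Agent.H54.UB.TRI

/-!
# Row REM: removing an open tube from a manifold

`Tube P k X ι`: `ι : P × [-2,2]^k → X` is a PL embedding whose restriction to the open tube
`P × (-2,2)^k` is open.  (`closedBall 0 2`, `ball 0 2` for the sup norm.)

* `closure_diff`: triangulate `X` adapted to `X ∩ Y` (`triang`): `X \ Y` is the union of the open
  simplices whose hull is not contained in `Y` (i.e. whose carrier points are not in `Y`), its closure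
  is the union of their hulls.
* `poly_remove`: `X \ ι(P × ball 0 1) = closure (X \ ι(P × closedBall 0 1))`: `⊇`: `ι(P × ball 0 1)` is open
  in `X` (from `nhd`: for `p ∈ P × ball 0 1` the image of `P × closedBall 0 2` is a neighbourhood of `ι p`
  in `X`, and `ι⁻¹` is continuous on it (compact), so a smaller neighbourhood lies in
  `ι(P × ball 0 1)`) and `X` is closed; `⊆`: points of `ι(P × sphere 0 1)` are limits of
  `ι(z, (1+η) u)`.
* `bdpt`: near `ι(z,u)`, `‖u‖ = 1`, the set `X \ ι(P × ball 0 1)` agrees with the image under `ι` of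
  `P × {1 ≤ ‖u'‖ ≤ 2}`; use `IntPt.prod_bd` (`P` at `z`, `bdpt_shell`), `BdPt.image` for `ι`,
  `BdPt.congr_nhds`.
* `intpt`: `ι(P × closedBall 0 1)` is closed and does not contain `x`: `IntPt.congr_nhds`.
-/

open Set Topology Metric

namespace Pool.H54.UB

variable {E G : Type*} [NormedAddCommGroup E] [NormedSpace ℝ E] [FiniteDimensional ℝ E]
  [NormedAddCommGroup G] [NormedSpace ℝ G] [FiniteDimensional ℝ G]

structure Tube (P : Set G) (k : ℕ) (X : Set E) (ι : G × (Fin k → ℝ) → E) : Prop where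
  pl : PLOn ι (P ×ˢ closedBall (0 : Fin k → ℝ) 2)
  inj : InjOn ι (P ×ˢ closedBall (0 : Fin k → ℝ) 2)
  maps : MapsTo ι (P ×ˢ closedBall (0 : Fin k → ℝ) 2) X
  nhd : ∀ p ∈ P ×ˢ ball (0 : Fin k → ℝ) 2, ι '' (P ×ˢ closedBall (0 : Fin k → ℝ) 2) ∈ 𝓝[X] (ι p)

theorem IsPoly.closure_diff {X Y : Set E} (hX : IsPoly X) (hY : IsPoly Y) :
    IsPoly (closure (X \ Y)) := by
  classical
  have hXY : IsPoly (X ∩ Y) := hX.inter hY
  obtain ⟨K, hK, hKa⟩ := triang X hX {X ∩ Y} (by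
    intro A hA
    rw [Finset.mem_singleton] at hA
    subst hA
    exact ⟨hXY, inter_subset_left⟩)
  have hKY : K.Adapted (X ∩ Y) := hKa _ (Finset.mem_singleton_self _)
  have hfin : {s | s ∈ K.faces ∧ ¬ convexHull ℝ (s : Set E) ⊆ X ∩ Y}.Finite :=
    K.fin.subset fun s hs => hs.1
  have hEq : closure (X \ Y) = ⋃ s ∈ {s | s ∈ K.faces ∧ ¬ convexHull ℝ (s : Set E) ⊆ X ∩ Y},
      convexHull ℝ (s : Set E) := by
    apply Subset.antisymm
    · refine closure_minimal ?_ (hfin.isClosed_biUnion fun s _ =>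
        (IsPoly.hull s).isCompact.isClosed)
      rintro x ⟨hx, hxY⟩
      rw [← hK] at hx
      obtain ⟨s, hs, hxs⟩ := mem_iUnion₂.1 hx
      exact mem_iUnion₂.2 ⟨s, ⟨hs, fun h => hxY (h hxs).2⟩, hxs⟩
    · refine iUnion₂_subset ?_
      rintro s ⟨hs, hns⟩ x hx
      have hsne := K.ne s hs
      have hcard : (0 : ℝ) < s.card := by exact_mod_cast hsne.card_pos
      obtain ⟨w, hw0, hw1, hwx⟩ := Finset.mem_convexHull'.1 hx
      have hpt : ∀ t : ℝ, 0 < t → t ≤ 1 →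
          ((1 - t) • x + t • (∑ y ∈ s, (s.card : ℝ)⁻¹ • y)) ∈ X \ Y := by
        intro t ht ht1
        have hform : (1 - t) • x + t • (∑ y ∈ s, (s.card : ℝ)⁻¹ • y) =
            ∑ y ∈ s, ((1 - t) * w y + t * (s.card : ℝ)⁻¹) • y := by
          rw [← hwx, Finset.smul_sum, Finset.smul_sum, ← Finset.sum_add_distrib]
          refine Finset.sum_congr rfl fun y _ => ?_
          rw [smul_smul, smul_smul, add_smul]
        have hpos : ∀ y ∈ s, 0 < (1 - t) * w y + t * (s.card : ℝ)⁻¹ := by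
          intro y hy
          have h1 : 0 ≤ (1 - t) * w y := mul_nonneg (by linarith) (hw0 y hy)
          have h2 : 0 < t * (s.card : ℝ)⁻¹ := by positivity
          linarith
        have hsum : ∑ y ∈ s, ((1 - t) * w y + t * (s.card : ℝ)⁻¹) = 1 := by
          rw [Finset.sum_add_distrib, ← Finset.mul_sum, hw1, Finset.sum_const, nsmul_eq_mul]
          field_simp
          ring
        rw [hform]
        refine ⟨?_, fun hYm => hns ?_⟩
        · rw [← hK]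
          refine mem_iUnion₂.2 ⟨s, hs, ?_⟩
          exact Finset.mem_convexHull'.2 ⟨_, fun y hy => (hpos y hy).le, hsum, rfl⟩
        · refine hKY s hs _ hpos hsum ⟨?_, hYm⟩
          rw [← hK]
          refine mem_iUnion₂.2 ⟨s, hs, ?_⟩
          exact Finset.mem_convexHull'.2 ⟨_, fun y hy => (hpos y hy).le, hsum, rfl⟩
      have hlim : Filter.Tendsto (fun t : ℝ => (1 - t) • x + t • (∑ y ∈ s, (s.card : ℝ)⁻¹ • y))
          (𝓝[>] 0) (𝓝 x) := by
        have hc : Continuous fun t : ℝ => (1 - t) • x + t • (∑ y ∈ s, (s.card : ℝ)⁻¹ • y) := by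
          fun_prop
        have h1 := hc.tendsto 0
        simp only [sub_zero, one_smul, zero_smul, add_zero] at h1
        exact h1.mono_left nhdsWithin_le_nhds
      refine mem_closure_of_tendsto hlim ?_
      filter_upwards [Ioc_mem_nhdsGT (zero_lt_one' ℝ)] with t ht
      exact hpt t ht.1 ht.2
  rw [hEq]
  exact IsPoly.biUnion hfin fun s _ => IsPoly.hull s

private theorem REM_sub (k : ℕ) (P : Set G) {r : ℝ} (hr : r ≤ 2) :
    P ×ˢ ball (0 : Fin k → ℝ) r ⊆ P ×ˢ closedBall (0 : Fin k → ℝ) 2 :=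
  prod_mono le_rfl (ball_subset_closedBall.trans (closedBall_subset_closedBall hr))

private theorem REM_sub' (k : ℕ) (P : Set G) :
    P ×ˢ closedBall (0 : Fin k → ℝ) 1 ⊆ P ×ˢ closedBall (0 : Fin k → ℝ) 2 :=
  prod_mono le_rfl (closedBall_subset_closedBall one_le_two)

theorem Tube.isOpen_ball {P : Set G} {k : ℕ} {X : Set E} {ι : G × (Fin k → ℝ) → E}
    (h : Tube P k X ι) (hP : IsPoly P) {r : ℝ} (hr : r ≤ 2) {p : G × (Fin k → ℝ)}
    (hp : p ∈ P ×ˢ ball (0 : Fin k → ℝ) r) : ι '' (P ×ˢ ball (0 : Fin k → ℝ) r) ∈ 𝓝[X] (ι p) := by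
  have hC : IsCompact (P ×ˢ closedBall (0 : Fin k → ℝ) 2) := h.pl.domain.isCompact
  have hpC : p ∈ P ×ˢ closedBall (0 : Fin k → ℝ) 2 := REM_sub k P hr hp
  have hcl : IsClosed {q : G × (Fin k → ℝ) | r ≤ ‖q.2‖} :=
    isClosed_le continuous_const continuous_snd.norm
  have hC' : IsCompact (P ×ˢ closedBall (0 : Fin k → ℝ) 2 ∩ {q | r ≤ ‖q.2‖}) := hC.inter_right hcl
  have himg : IsClosed (ι '' (P ×ˢ closedBall (0 : Fin k → ℝ) 2 ∩ {q | r ≤ ‖q.2‖})) :=
    (hC'.image_of_continuousOn (h.pl.continuousOn.mono inter_subset_left)).isClosed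
  have hpn : ι p ∉ ι '' (P ×ˢ closedBall (0 : Fin k → ℝ) 2 ∩ {q | r ≤ ‖q.2‖}) := by
    rintro ⟨q, ⟨hq, hqr⟩, he⟩
    have hqp := h.inj hq hpC he
    rw [hqp] at hqr
    have h1 := hp.2
    rw [mem_ball_zero_iff] at h1
    exact absurd hqr (not_le.2 h1)
  have hn1 : (ι '' (P ×ˢ closedBall (0 : Fin k → ℝ) 2 ∩ {q | r ≤ ‖q.2‖}))ᶜ ∈ 𝓝[X] (ι p) :=
    mem_nhdsWithin_of_mem_nhds (himg.isOpen_compl.mem_nhds hpn)
  have hn2 := h.nhd p ⟨hp.1, ball_subset_ball hr hp.2⟩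
  filter_upwards [hn1, hn2] with y hy1 hy2
  obtain ⟨q, hq, rfl⟩ := hy2
  refine ⟨q, ⟨hq.1, ?_⟩, rfl⟩
  rw [mem_ball_zero_iff]
  by_contra hlt
  exact hy1 ⟨q, ⟨hq, not_lt.1 hlt⟩, rfl⟩

private theorem REM_closed {P : Set G} {k : ℕ} {X : Set E} {ι : G × (Fin k → ℝ) → E}
    (h : Tube P k X ι) (hP : IsPoly P) {A : Set E} (hA : A ⊆ X)
    (hd : ∀ y ∈ A, y ∉ ι '' (P ×ˢ ball (0 : Fin k → ℝ) 1)) :
    ∀ y ∈ closure A, y ∉ ι '' (P ×ˢ ball (0 : Fin k → ℝ) 1) := by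
  rintro y hy ⟨p, hp, rfl⟩
  have h1 := h.isOpen_ball hP one_le_two hp
  have h2 : ι '' (P ×ˢ ball (0 : Fin k → ℝ) 1) ∈ 𝓝[A] (ι p) := nhdsWithin_mono _ hA h1
  have h3 : (𝓝[A] (ι p)).NeBot := mem_closure_iff_nhdsWithin_neBot.1 hy
  obtain ⟨z, hz1, hz2⟩ := h3.nonempty_of_mem (Filter.inter_mem h2 self_mem_nhdsWithin)
  exact hd z hz2 hz1

theorem Tube.poly_remove {P : Set G} {k : ℕ} {X : Set E} {ι : G × (Fin k → ℝ) → E}
    (h : Tube P k X ι) (hP : IsPoly P) (hX : IsPoly X) (hk : 1 ≤ k) :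
    IsPoly (X \ ι '' (P ×ˢ ball (0 : Fin k → ℝ) 1)) := by
  have hT : IsPoly (ι '' (P ×ˢ closedBall (0 : Fin k → ℝ) 1)) :=
    h.pl.image_poly (hP.prod (isPoly_closedBall k 1)) (REM_sub' k P)
  have hEq : X \ ι '' (P ×ˢ ball (0 : Fin k → ℝ) 1) =
      closure (X \ ι '' (P ×ˢ closedBall (0 : Fin k → ℝ) 1)) := by
    apply Subset.antisymm
    · rintro x ⟨hx, hxb⟩
      by_cases hxc : x ∈ ι '' (P ×ˢ closedBall (0 : Fin k → ℝ) 1)
      · obtain ⟨⟨z, u⟩, ⟨hz, hu⟩, rfl⟩ := hxc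
        have hu1 : ‖u‖ = 1 := by
          have h1 : ‖u‖ ≤ 1 := mem_closedBall_zero_iff.1 hu
          refine le_antisymm h1 ?_
          by_contra hlt
          exact hxb ⟨(z, u), ⟨hz, mem_ball_zero_iff.2 (not_le.1 hlt)⟩, rfl⟩
        have hmap : MapsTo (fun η : ℝ => ((z, (1 + η) • u) : G × (Fin k → ℝ))) (Icc 0 1)
            (P ×ˢ closedBall (0 : Fin k → ℝ) 2) := by
          intro η hη
          refine ⟨hz, mem_closedBall_zero_iff.2 ?_⟩
          show ‖(1 + η) • u‖ ≤ 2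
          rw [norm_smul, hu1, mul_one, Real.norm_of_nonneg (by linarith [hη.1])]
          linarith [hη.2]
        have hcont : ContinuousOn (fun η : ℝ => ι (z, (1 + η) • u)) (Icc 0 1) :=
          h.pl.continuousOn.comp (by fun_prop) hmap
        have hlim : Filter.Tendsto (fun η : ℝ => ι (z, (1 + η) • u)) (𝓝[Ioc 0 1] 0)
            (𝓝 (ι (z, u))) := by
          have h1 := hcont 0 (left_mem_Icc.2 zero_le_one)
          have h2 : Filter.Tendsto (fun η : ℝ => ι (z, (1 + η) • u)) (𝓝[Icc 0 1] 0)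
              (𝓝 (ι (z, (1 + (0 : ℝ)) • u))) := h1
          rw [add_zero, one_smul] at h2
          exact h2.mono_left (nhdsWithin_mono _ Ioc_subset_Icc_self)
        have hne : (𝓝[Ioc (0 : ℝ) 1] 0).NeBot := by
          rw [← mem_closure_iff_nhdsWithin_neBot, closure_Ioc (zero_ne_one' ℝ)]
          exact left_mem_Icc.2 zero_le_one
        refine mem_closure_of_tendsto hlim ?_
        filter_upwards [self_mem_nhdsWithin] with η hη
        have hη' : η ∈ Icc (0 : ℝ) 1 := Ioc_subset_Icc_self hη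
        refine ⟨h.maps (hmap hη'), ?_⟩
        rintro ⟨q, hq, he⟩
        have hqq := h.inj (REM_sub' k P hq) (hmap hη') he
        have h3 := hq.2
        rw [hqq, mem_closedBall_zero_iff] at h3
        have h4 : ‖(1 + η) • u‖ ≤ 1 := h3
        rw [norm_smul, hu1, mul_one, Real.norm_of_nonneg (by linarith [hη.1])] at h4
        linarith [hη.1]
      · exact subset_closure ⟨hx, hxc⟩
    · intro x hx
      refine ⟨?_, ?_⟩
      · exact closure_minimal diff_subset hX.isCompact.isClosed hx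
      · refine REM_closed h hP diff_subset ?_ x hx
        rintro y ⟨_, hy⟩ hyb
        exact hy (image_mono (prod_mono le_rfl ball_subset_closedBall) hyb)
  rw [hEq]
  exact hX.closure_diff hT

private theorem REM_shell (k : ℕ) : IsPoly {z : Fin (k + 1) → ℝ | 1 ≤ ‖z‖ ∧ ‖z‖ ≤ 2} := by
  have hEq : {z : Fin (k + 1) → ℝ | 1 ≤ ‖z‖ ∧ ‖z‖ ≤ 2} =
      ⋃ i ∈ (univ : Set (Fin (k + 1))),
        ((closedBall (0 : Fin (k + 1) → ℝ) 2 ∩ {z | 0 ≤ ((LinearMap.proj (R := ℝ)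
            (φ := fun _ : Fin (k + 1) => ℝ) i).toAffineMap -
            AffineMap.const ℝ (Fin (k + 1) → ℝ) (1 : ℝ)) z}) ∪
          (closedBall (0 : Fin (k + 1) → ℝ) 2 ∩ {z | 0 ≤ (-(LinearMap.proj (R := ℝ)
            (φ := fun _ : Fin (k + 1) => ℝ) i).toAffineMap -
            AffineMap.const ℝ (Fin (k + 1) → ℝ) (1 : ℝ)) z})) := by
    ext z
    simp only [mem_setOf_eq, mem_iUnion, mem_univ, exists_prop, true_and, mem_union, mem_inter_iff,
      mem_closedBall_zero_iff]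
    have h1 : ∀ i, (0 ≤ ((LinearMap.proj (R := ℝ) (φ := fun _ : Fin (k + 1) => ℝ) i).toAffineMap -
            AffineMap.const ℝ (Fin (k + 1) → ℝ) (1 : ℝ)) z) ↔ 1 ≤ z i := by
      intro i
      have : ((LinearMap.proj (R := ℝ) (φ := fun _ : Fin (k + 1) => ℝ) i).toAffineMap -
            AffineMap.const ℝ (Fin (k + 1) → ℝ) (1 : ℝ)) z = z i - 1 := rfl
      rw [this]
      constructor <;> intro h <;> linarith
    have h2 : ∀ i, (0 ≤ (-(LinearMap.proj (R := ℝ) (φ := fun _ : Fin (k + 1) => ℝ) i).toAffineMap -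
            AffineMap.const ℝ (Fin (k + 1) → ℝ) (1 : ℝ)) z) ↔ z i ≤ -1 := by
      intro i
      have : (-(LinearMap.proj (R := ℝ) (φ := fun _ : Fin (k + 1) => ℝ) i).toAffineMap -
            AffineMap.const ℝ (Fin (k + 1) → ℝ) (1 : ℝ)) z = -(z i) - 1 := rfl
      rw [this]
      constructor <;> intro h <;> linarith
    simp only [h1, h2]
    constructor
    · rintro ⟨ha, hb⟩
      have hex : ∃ i, 1 ≤ ‖z i‖ := by
        by_contra hno
        push Not at hno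
        have : ‖z‖ < 1 := (pi_norm_lt_iff one_pos).2 hno
        linarith
      obtain ⟨i, hi⟩ := hex
      refine ⟨i, ?_⟩
      rw [Real.norm_eq_abs, le_abs'] at hi
      rcases hi with hi | hi
      · exact Or.inr ⟨hb, hi⟩
      · exact Or.inl ⟨hb, hi⟩
    · rintro ⟨i, ⟨hb, hi⟩ | ⟨hb, hi⟩⟩
      · refine ⟨?_, hb⟩
        calc (1 : ℝ) ≤ z i := hi
          _ ≤ ‖z i‖ := le_abs_self _
          _ ≤ ‖z‖ := norm_le_pi_norm z i
      · refine ⟨?_, hb⟩
        calc (1 : ℝ) ≤ -z i := by linarith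
          _ ≤ ‖z i‖ := neg_le_abs _
          _ ≤ ‖z‖ := norm_le_pi_norm z i
  rw [hEq]
  refine IsPoly.biUnion (Set.finite_univ) fun i _ => IsPoly.union ?_ ?_
  · exact (isPoly_closedBall (k + 1) 2).inter_halfspace _
  · exact (isPoly_closedBall (k + 1) 2).inter_halfspace _

theorem Tube.bdpt {P : Set G} {j k : ℕ} {X : Set E} {ι : G × (Fin (k + 1) → ℝ) → E}
    (h : Tube P (k + 1) X ι) (hP : IsClosedPLManifold j P) {z : G} (hz : z ∈ P)
    {u : Fin (k + 1) → ℝ} (hu : ‖u‖ = 1) :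
    BdPt (j + k) (X \ ι '' (P ×ˢ ball (0 : Fin (k + 1) → ℝ) 1))
      (ι '' (P ×ˢ sphere (0 : Fin (k + 1) → ℝ) 1)) (ι (z, u)) := by
  have h1 : IntPt j P z := hP.2 z hz
  have h2 := IntPt.prod_bd h1 (bdpt_shell k hu)
  have hsub : P ×ˢ {z : Fin (k + 1) → ℝ | 1 ≤ ‖z‖ ∧ ‖z‖ ≤ 2} ⊆
      P ×ˢ closedBall (0 : Fin (k + 1) → ℝ) 2 :=
    prod_mono le_rfl fun w hw => mem_closedBall_zero_iff.2 hw.2
  have hpl : PLOn ι (P ×ˢ {z : Fin (k + 1) → ℝ | 1 ≤ ‖z‖ ∧ ‖z‖ ≤ 2}) :=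
    h.pl.mono (hP.1.prod (REM_shell k)) hsub
  have hDs : P ×ˢ sphere (0 : Fin (k + 1) → ℝ) 1 ⊆
      P ×ˢ {z : Fin (k + 1) → ℝ | 1 ≤ ‖z‖ ∧ ‖z‖ ≤ 2} := by
    refine prod_mono le_rfl fun w hw => ?_
    rw [mem_sphere_zero_iff_norm] at hw
    exact ⟨hw.ge, by rw [hw]; norm_num⟩
  have h3 := h2.image hpl (h.inj.mono hsub) hDs
  have huz : (z, u) ∈ P ×ˢ ball (0 : Fin (k + 1) → ℝ) 2 :=
    ⟨hz, mem_ball_zero_iff.2 (by rw [hu]; norm_num)⟩
  obtain ⟨V, hV, hVX⟩ := mem_nhdsWithin_iff_exists_mem_nhds_inter.1 (h.nhd (z, u) huz)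
  refine h3.congr_nhds hV ?_ rfl
  ext y
  constructor
  · rintro ⟨⟨p, hp, rfl⟩, hyV⟩
    refine ⟨⟨h.maps (hsub hp), ?_⟩, hyV⟩
    rintro ⟨q, hq, he⟩
    have hqp := h.inj (REM_sub (k + 1) P one_le_two hq) (hsub hp) he
    have h4 := hq.2
    rw [hqp, mem_ball_zero_iff] at h4
    exact absurd hp.2.1 (not_le.2 h4)
  · rintro ⟨⟨hyX, hyb⟩, hyV⟩
    obtain ⟨p, hp, rfl⟩ := hVX ⟨hyV, hyX⟩
    refine ⟨⟨p, ⟨hp.1, ?_, mem_closedBall_zero_iff.1 hp.2⟩, rfl⟩, hyV⟩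
    by_contra hlt
    exact hyb ⟨p, ⟨hp.1, mem_ball_zero_iff.2 (not_le.1 hlt)⟩, rfl⟩

private theorem REM_T {P : Set G} {k : ℕ} {X : Set E} {ι : G × (Fin k → ℝ) → E}
    (h : Tube P k X ι) (hP : IsPoly P) : IsClosed (ι '' (P ×ˢ closedBall (0 : Fin k → ℝ) 1)) :=
  ((hP.isCompact.prod (isCompact_closedBall _ _)).image_of_continuousOn
    (h.pl.continuousOn.mono (REM_sub' k P))).isClosed

theorem Tube.intpt {P : Set G} {n k : ℕ} {X : Set E} {ι : G × (Fin k → ℝ) → E}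
    (h : Tube P k X ι) (hP : IsPoly P) {x : E}
    (hx : x ∉ ι '' (P ×ˢ closedBall (0 : Fin k → ℝ) 1)) (hX : IntPt n X x) :
    IntPt n (X \ ι '' (P ×ˢ ball (0 : Fin k → ℝ) 1)) x := by
  refine hX.congr_nhds ((REM_T h hP).isOpen_compl.mem_nhds hx) ?_
  ext y
  constructor
  · rintro ⟨hy, hyc⟩
    refine ⟨⟨hy, fun hyb => hyc ?_⟩, hyc⟩
    exact image_mono (prod_mono le_rfl ball_subset_closedBall) hyb
  · rintro ⟨⟨hy, _⟩, hyc⟩
    exact ⟨hy, hyc⟩

/-- Removing an open tube with connected boundary leaves a connected set. -/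
theorem Tube.connected_remove {P : Set G} {k : ℕ} {X : Set E} {ι : G × (Fin k → ℝ) → E}
    (h : Tube P k X ι) (hP : IsPoly P) (hX : IsConnected X) (hXc : IsClosed X)
    (hS : IsConnected (P ×ˢ sphere (0 : Fin k → ℝ) 1)) :
    IsConnected (X \ ι '' (P ×ˢ ball (0 : Fin k → ℝ) 1)) := by
  set A := X \ ι '' (P ×ˢ ball (0 : Fin k → ℝ) 1) with hA
  set T := ι '' (P ×ˢ closedBall (0 : Fin k → ℝ) 1) with hT
  set S := ι '' (P ×ˢ sphere (0 : Fin k → ℝ) 1) with hSd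
  have hTc : IsClosed T := REM_T h hP
  have hAc : IsClosed A := by
    rw [← closure_subset_iff_isClosed]
    intro y hy
    exact ⟨closure_minimal diff_subset hXc hy, REM_closed h hP diff_subset (fun y hy => hy.2) y hy⟩
  have hsub : P ×ˢ sphere (0 : Fin k → ℝ) 1 ⊆ P ×ˢ closedBall (0 : Fin k → ℝ) 2 :=
    (prod_mono le_rfl sphere_subset_closedBall).trans (REM_sub' k P)
  have hSc : IsConnected S := hS.image _ (h.pl.continuousOn.mono hsub)
  have hSA : S ⊆ A := by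
    rintro _ ⟨p, hp, rfl⟩
    refine ⟨h.maps (hsub hp), ?_⟩
    rintro ⟨q, hq, he⟩
    have hqp := h.inj (REM_sub k P one_le_two hq) (hsub hp) he
    have h4 := hq.2
    rw [hqp, mem_ball_zero_iff] at h4
    have h5 := mem_sphere_zero_iff_norm.1 hp.2
    rw [h5] at h4
    exact lt_irrefl _ h4
  have hAT : ∀ y ∈ A, y ∈ T → y ∈ S := by
    rintro y hyA ⟨p, hp, rfl⟩
    refine ⟨p, ⟨hp.1, mem_sphere_zero_iff_norm.2 (le_antisymm (mem_closedBall_zero_iff.1 hp.2) ?_)⟩,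
      rfl⟩
    by_contra hlt
    exact hyA.2 ⟨p, ⟨hp.1, mem_ball_zero_iff.2 (not_le.1 hlt)⟩, rfl⟩
  have hXAT : X ⊆ A ∪ T := by
    intro y hy
    by_cases hyb : y ∈ ι '' (P ×ˢ ball (0 : Fin k → ℝ) 1)
    · exact Or.inr (image_mono (prod_mono le_rfl ball_subset_closedBall) hyb)
    · exact Or.inl ⟨hy, hyb⟩
  have key : ∀ t t' : Set E, IsClosed t → IsClosed t' → A ⊆ t ∪ t' → (A ∩ t').Nonempty →
      (S ∩ t).Nonempty → ¬ (S ∩ t').Nonempty → (A ∩ (t ∩ t')).Nonempty := by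
    intro t t' ht ht' hAtt hAt' hSt hSt'
    have h1 := isPreconnected_closed_iff.1 hX.isPreconnected ((A ∩ t) ∪ T) (A ∩ t')
      ((hAc.inter ht).union hTc) (hAc.inter ht')
      (by
        intro y hy
        rcases hXAT hy with hyA | hyT
        · rcases hAtt hyA with h2 | h2
          · exact Or.inl (Or.inl ⟨hyA, h2⟩)
          · exact Or.inr ⟨hyA, h2⟩
        · exact Or.inl (Or.inr hyT))
      (by
        obtain ⟨y, hy, hyt⟩ := hSt
        exact ⟨y, (hSA hy).1, Or.inl ⟨hSA hy, hyt⟩⟩)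
      (by
        obtain ⟨y, hy, hyt⟩ := hAt'
        exact ⟨y, hy.1, hy, hyt⟩)
    obtain ⟨y, _, hy1, hyA, hyt'⟩ := h1
    rcases hy1 with ⟨_, hyt⟩ | hyT
    · exact ⟨y, hyA, hyt, hyt'⟩
    · exact absurd ⟨y, hAT y hyA hyT, hyt'⟩ hSt'
  refine ⟨hSc.nonempty.mono hSA, ?_⟩
  rw [isPreconnected_closed_iff]
  intro t t' ht ht' hAtt hAt hAt'
  by_cases hSt : (S ∩ t).Nonempty
  · by_cases hSt' : (S ∩ t').Nonempty
    · obtain ⟨y, hy, hyy⟩ := isPreconnected_closed_iff.1 hSc.isPreconnected t t' ht ht'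
        (hSA.trans hAtt) hSt hSt'
      exact ⟨y, hSA hy, hyy⟩
    · exact key t t' ht ht' hAtt hAt' hSt hSt'
  · have hSt' : (S ∩ t').Nonempty := by
      obtain ⟨y, hy⟩ := hSc.nonempty
      rcases hAtt (hSA hy) with h1 | h1
      · exact absurd ⟨y, hy, h1⟩ hSt
      · exact ⟨y, hy, h1⟩
    have h1 := key t' t ht' ht (by rw [union_comm]; exact hAtt) hAt hSt' hSt
    rwa [inter_comm t' t] at h1

end Pool.H54.UB
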