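import Mathlib

/-!
# Row SA: chains of tuples; the Vietoris-Rips complex of a convex set is acyclic

Chains of degree `n`: finitely supported functions on `(n+1)`-tuples (repetitions allowed),
`bd n : C_{n+1 entries} → C_{n entries}`, `bd (t) = ∑_j (-1)^j (t ∘ δ_j)`; `bd 0` is the augmentation.

* `bd_bd`, `bd_cone` (cone `Fin.cons a t`): `bd (n+1) (cone a z) = z - cone a (bd n z)`,
  `bd 0 (cone a z) = z`.
* `vr_acyclic`: let `z` be a cycle whose tuples have entries in the convex set `C` and pairwise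
  distances `< ε`.  Let `e < ε` be the maximal distance occurring and `M` a bound for the norms of the
  entries minus `x₀`, where `x₀ ∈ C` is fixed; choose `N` with `e + 2 M / N < ε` and put
  `h_k x = (1 - k/N) x + (k/N) x₀` (maps `C` to `C`, does not increase distances,
  `dist (h_k x) (h_{k+1} x') ≤ dist x x' + M / N ..`).  Prism operator for two maps `f, g`:
  `P (t) = ∑_k (-1)^k (f t_0, .., f t_k, g t_k, .., g t_n)`, `bd P + P bd = g_* - f_*`.
  So `z = (h_0)_* z` is homologous to `(h_N)_* z = λ (x₀, .., x₀)`.  If `n` is even, its boundary is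
  `λ (x₀, .., x₀)` (one entry less) which must be `0`, so `λ = 0`; if `n` is odd it is
  `bd (λ (x₀, .., x₀))` with one more entry.
-/

namespace Pool.H54.UB

open Finset

/-- Boundary of chains of tuples. -/
noncomputable def bd {X R : Type*} [CommRing R] (n : ℕ) :
    ((Fin (n + 1) → X) →₀ R) →ₗ[R] ((Fin n → X) →₀ R) :=
  Finsupp.linearCombination R
    (fun t => ∑ j : Fin (n + 1), Finsupp.single (t ∘ j.succAbove) ((-1 : R) ^ (j : ℕ)))

/-- Cone. -/
noncomputable def cone {X R : Type*} [CommRing R] (n : ℕ) (a : X) :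
    ((Fin n → X) →₀ R) →ₗ[R] ((Fin (n + 1) → X) →₀ R) :=
  Finsupp.lmapDomain R R (fun t => Fin.cons a t)

theorem bd_single {X R : Type*} [CommRing R] (n : ℕ) (t : Fin (n + 1) → X) (r : R) :
    bd n (Finsupp.single t r) =
      ∑ j : Fin (n + 1), Finsupp.single (t ∘ j.succAbove) (r * (-1 : R) ^ (j : ℕ)) := by
  rw [bd, Finsupp.linearCombination_single, Finset.smul_sum]
  refine Finset.sum_congr rfl fun j _ => ?_
  rw [Finsupp.smul_single, smul_eq_mul]

theorem SA_sign {R : Type*} [CommRing R] (n : ℕ) (i : Fin (n + 2)) (j : Fin (n + 1)) :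
    (-1 : R) ^ (i.succAbove j : ℕ) * (-1 : R) ^ (j.predAbove i : ℕ) =
      -((-1 : R) ^ (i : ℕ) * (-1 : R) ^ (j : ℕ)) := by
  rcases lt_or_ge j.castSucc i with h | h
  · rw [Fin.succAbove_of_castSucc_lt _ _ h, Fin.predAbove_of_castSucc_lt _ _ h, Fin.val_castSucc]
    have h1 : (i : ℕ) = (i.pred (Fin.ne_zero_of_lt h) : ℕ) + 1 := by
      rw [Fin.val_pred]
      have : (j.castSucc : ℕ) < i := h
      omega
    rw [h1, pow_succ]
    ring
  · rw [Fin.succAbove_of_le_castSucc _ _ h, Fin.predAbove_of_le_castSucc _ _ h, Fin.val_succ,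
      Fin.coe_castPred, pow_succ]
    ring

theorem bd_bd {X R : Type*} [CommRing R] (n : ℕ) (z : (Fin (n + 2) → X) →₀ R) :
    bd n (bd (n + 1) z) = 0 := by
  induction z using Finsupp.induction_linear with
  | zero => simp
  | add f g hf hg => rw [map_add, map_add, hf, hg, add_zero]
  | single t r =>
    rw [bd_single, map_sum]
    simp only [bd_single]
    rw [← Finset.sum_product']
    refine Finset.sum_involution
      (fun (p : Fin (n + 2) × Fin (n + 1)) _ => (p.1.succAbove p.2, p.2.predAbove p.1)) ?_ ?_ ?_ ?_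
    · rintro ⟨i, j⟩ -
      have h1 : (t ∘ (i.succAbove j).succAbove) ∘ (j.predAbove i).succAbove =
          (t ∘ i.succAbove) ∘ j.succAbove := by
        funext x
        simp only [Function.comp_apply]
        rw [Fin.succAbove_succAbove_succAbove_predAbove]
      show Finsupp.single ((t ∘ i.succAbove) ∘ j.succAbove)
          (r * (-1 : R) ^ (i : ℕ) * (-1 : R) ^ (j : ℕ)) +
        Finsupp.single ((t ∘ (i.succAbove j).succAbove) ∘ (j.predAbove i).succAbove)
          (r * (-1 : R) ^ (i.succAbove j : ℕ) * (-1 : R) ^ (j.predAbove i : ℕ)) = 0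
      rw [h1, ← Finsupp.single_add, mul_assoc r, mul_assoc r, SA_sign]
      have h2 : r * ((-1 : R) ^ (i : ℕ) * (-1 : R) ^ (j : ℕ)) +
          r * -((-1 : R) ^ (i : ℕ) * (-1 : R) ^ (j : ℕ)) = 0 := by ring
      rw [h2, Finsupp.single_zero]
    · rintro ⟨i, j⟩ - - h
      have h1 : i.succAbove j = i := congrArg Prod.fst h
      exact Fin.succAbove_ne i j h1
    · rintro ⟨i, j⟩ -
      exact Finset.mem_product.2 ⟨Finset.mem_univ _, Finset.mem_univ _⟩
    · rintro ⟨i, j⟩ -
      show ((i.succAbove j).succAbove (j.predAbove i), (j.predAbove i).predAbove (i.succAbove j)) =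
        (i, j)
      rcases lt_or_ge j.castSucc i with h | h
      · rw [Fin.succAbove_of_castSucc_lt _ _ h, Fin.predAbove_of_castSucc_lt _ _ h]
        have h1 : j.castSucc ≤ (i.pred (Fin.ne_zero_of_lt h)).castSucc := by
          rw [Fin.le_def, Fin.val_castSucc, Fin.val_castSucc, Fin.val_pred]
          have : (j.castSucc : ℕ) < i := h
          rw [Fin.val_castSucc] at this
          omega
        rw [Fin.succAbove_of_le_castSucc _ _ h1, Fin.predAbove_of_le_castSucc _ _ h1,
          Fin.succ_pred, Fin.castPred_castSucc]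
      · rw [Fin.succAbove_of_le_castSucc _ _ h, Fin.predAbove_of_le_castSucc _ _ h]
        have h1 : (i.castPred (Fin.ne_last_of_lt (lt_of_le_of_lt h (Fin.castSucc_lt_last j)))).castSucc
            < j.succ := by
          rw [Fin.castSucc_castPred]
          exact lt_of_le_of_lt h (Fin.castSucc_lt_succ)
        rw [Fin.succAbove_of_castSucc_lt _ _ h1, Fin.predAbove_of_castSucc_lt _ _ h1,
          Fin.pred_succ]
        exact Prod.ext (Fin.castSucc_castPred _ _) rfl

theorem SA_cons {X : Type*} (n : ℕ) (a : X) (t : Fin (n + 1) → X) (i : Fin (n + 1)) :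
    (Fin.cons a t : Fin (n + 2) → X) ∘ i.succ.succAbove =
      (Fin.cons a (t ∘ i.succAbove) : Fin (n + 1) → X) := by
  funext x
  refine Fin.cases ?_ (fun k => ?_) x
  · simp
  · simp [Fin.succ_succAbove_succ]

theorem cone_single {X R : Type*} [CommRing R] (n : ℕ) (a : X) (t : Fin n → X) (r : R) :
    cone n a (Finsupp.single t r) = Finsupp.single (Fin.cons a t : Fin (n + 1) → X) r := by
  rw [cone, Finsupp.lmapDomain_apply, Finsupp.mapDomain_single]

theorem bd_cone {X R : Type*} [CommRing R] (n : ℕ) (a : X) (z : (Fin (n + 1) → X) →₀ R) :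
    bd (n + 1) (cone (n + 1) a z) = z - cone n a (bd n z) := by
  induction z using Finsupp.induction_linear with
  | zero => simp
  | add f g hf hg => rw [map_add, map_add, hf, hg, map_add, map_add]; abel
  | single t r =>
    rw [cone_single, bd_single, bd_single, Fin.sum_univ_succ, map_sum]
    have h1 : (Fin.cons a t : Fin (n + 2) → X) ∘ (0 : Fin (n + 2)).succAbove = t := by
      funext x
      simp
    rw [h1, Fin.val_zero, pow_zero, mul_one, sub_eq_add_neg, ← Finset.sum_neg_distrib]
    congr 1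
    refine Finset.sum_congr rfl fun i _ => ?_
    rw [SA_cons, cone_single, ← Finsupp.single_neg, Fin.val_succ, pow_succ]
    congr 1
    ring

theorem bd_cone_zero {X R : Type*} [CommRing R] (a : X) (z : (Fin 0 → X) →₀ R) :
    bd 0 (cone 0 a z) = z := by
  induction z using Finsupp.induction_linear with
  | zero => simp
  | add f g hf hg => rw [map_add, map_add, hf, hg]
  | single t r =>
    rw [cone_single, bd_single]
    rw [Fin.sum_univ_one, Fin.val_zero, pow_zero, mul_one]
    congr 1

theorem cone_support {X R : Type*} [CommRing R] (n : ℕ) (a : X) (z : (Fin n → X) →₀ R)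
    {t : Fin (n + 1) → X} (ht : t ∈ (cone n a z).support) :
    ∃ u ∈ z.support, t = Fin.cons a u := by
  classical
  rw [cone, Finsupp.lmapDomain_apply] at ht
  have h := Finsupp.mapDomain_support ht
  obtain ⟨u, hu, rfl⟩ := Finset.mem_image.1 h
  exact ⟨u, hu, rfl⟩

/-- Push forward. -/
noncomputable def SA_mp {X Y R : Type*} [CommRing R] (f : X → Y) (n : ℕ) :
    ((Fin n → X) →₀ R) →ₗ[R] ((Fin n → Y) →₀ R) :=
  Finsupp.lmapDomain R R (fun t => f ∘ t)

theorem SA_mp_single {X Y R : Type*} [CommRing R] (f : X → Y) (n : ℕ) (t : Fin n → X) (r : R) :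
    SA_mp f n (Finsupp.single t r) = Finsupp.single (f ∘ t) r := by
  rw [SA_mp, Finsupp.lmapDomain_apply, Finsupp.mapDomain_single]

theorem SA_bd_mp {X Y R : Type*} [CommRing R] (f : X → Y) (n : ℕ) (z : (Fin (n + 1) → X) →₀ R) :
    bd n (SA_mp f (n + 1) z) = SA_mp f n (bd n z) := by
  induction z using Finsupp.induction_linear with
  | zero => simp
  | add f g hf hg => rw [map_add, map_add, hf, hg, map_add, map_add]
  | single t r =>
    rw [SA_mp_single, bd_single, bd_single, map_sum]
    refine Finset.sum_congr rfl fun i _ => ?_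
    rw [SA_mp_single]
    rfl

/-- The homotopy between two maps. -/
noncomputable def SA_P {X Y R : Type*} [CommRing R] (f g : X → Y) :
    (n : ℕ) → ((Fin n → X) →₀ R) →ₗ[R] ((Fin (n + 1) → Y) →₀ R)
  | 0 => 0
  | n + 1 => Finsupp.linearCombination R (fun t : Fin (n + 1) → X =>
      cone (n + 1) (f (t 0)) (Finsupp.single (g ∘ t) 1 - Finsupp.single (f ∘ t) 1 -
        SA_P f g n (bd n (Finsupp.single t 1))))

theorem SA_P_single {X Y R : Type*} [CommRing R] (f g : X → Y) (n : ℕ) (t : Fin (n + 1) → X) :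
    SA_P (R := R) f g (n + 1) (Finsupp.single t 1) =
      cone (n + 1) (f (t 0)) (Finsupp.single (g ∘ t) 1 - Finsupp.single (f ∘ t) 1 -
        SA_P f g n (bd n (Finsupp.single t 1))) := by
  rw [SA_P, Finsupp.linearCombination_single, one_smul]

theorem SA_P_eq {X Y R : Type*} [CommRing R] (f g : X → Y) (n : ℕ)
    (z : (Fin (n + 1) → X) →₀ R) :
    bd (n + 1) (SA_P f g (n + 1) z) =
      SA_mp g (n + 1) z - SA_mp f (n + 1) z - SA_P f g n (bd n z) := by
  induction n with
  | zero =>
    induction z using Finsupp.induction_linear with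
    | zero => simp
    | add u v hu hv => simp only [map_add, hu, hv]; abel
    | single t r =>
      have h1 : (Finsupp.single t r : (Fin 1 → X) →₀ R) = r • Finsupp.single t 1 := by
        rw [Finsupp.smul_single, smul_eq_mul, mul_one]
      rw [h1]
      simp only [map_smul]
      rw [← smul_sub, ← smul_sub]
      congr 1
      rw [SA_P_single, bd_cone]
      have h2 : bd 0 (Finsupp.single (g ∘ t) (1 : R) - Finsupp.single (f ∘ t) 1 -
          SA_P f g 0 (bd 0 (Finsupp.single t 1))) = 0 := by
        rw [map_sub, map_sub, SA_P, LinearMap.zero_apply, map_zero, sub_zero, bd_single, bd_single]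
        rw [sub_eq_zero]
        refine Finset.sum_congr rfl fun i _ => ?_
        congr 1
        exact Subsingleton.elim _ _
      rw [h2, map_zero, sub_zero, SA_mp_single, SA_mp_single]
  | succ n ih =>
    induction z using Finsupp.induction_linear with
    | zero => simp
    | add u v hu hv => simp only [map_add, hu, hv]; abel
    | single t r =>
      have h1 : (Finsupp.single t r : (Fin (n + 2) → X) →₀ R) = r • Finsupp.single t 1 := by
        rw [Finsupp.smul_single, smul_eq_mul, mul_one]
      rw [h1]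
      simp only [map_smul]
      rw [← smul_sub, ← smul_sub]
      congr 1
      rw [SA_P_single, bd_cone]
      have h2 : bd (n + 1) (Finsupp.single (g ∘ t) (1 : R) - Finsupp.single (f ∘ t) 1 -
          SA_P f g (n + 1) (bd (n + 1) (Finsupp.single t 1))) = 0 := by
        rw [map_sub, map_sub, ih, bd_bd, map_zero, sub_zero, ← SA_bd_mp, ← SA_bd_mp,
          SA_mp_single, SA_mp_single]
        abel
      rw [h2, map_zero, sub_zero, SA_mp_single, SA_mp_single]

theorem SA_bd_support {X R : Type*} [CommRing R] (n : ℕ) (u : Fin (n + 1) → X)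
    {v : Fin n → X} (hv : v ∈ (bd n (Finsupp.single u (1 : R))).support) :
    ∀ i, ∃ j, v i = u j := by
  classical
  rw [bd_single] at hv
  have h := Finsupp.support_finsetSum hv
  obtain ⟨j, -, hj⟩ := Finset.mem_biUnion.1 h
  have h1 := Finset.mem_singleton.1 (Finsupp.support_single_subset hj)
  intro i
  exact ⟨j.succAbove i, by rw [h1]; rfl⟩

theorem SA_P_support {X Y R : Type*} [CommRing R] (f g : X → Y) (n : ℕ)
    (z : (Fin n → X) →₀ R) {t : Fin (n + 1) → Y} (ht : t ∈ (SA_P f g n z).support) :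
    ∃ u ∈ z.support, ∀ i, ∃ j, t i = f (u j) ∨ t i = g (u j) := by
  classical
  induction n with
  | zero =>
    rw [SA_P, LinearMap.zero_apply] at ht
    simp at ht
  | succ n ih =>
    rw [SA_P, Finsupp.linearCombination_apply, Finsupp.sum] at ht
    have h := Finsupp.support_finsetSum ht
    obtain ⟨u, hu, hj⟩ := Finset.mem_biUnion.1 h
    have h1 := Finsupp.support_smul hj
    obtain ⟨v, hv, rfl⟩ := cone_support _ _ _ h1
    refine ⟨u, hu, fun i => ?_⟩
    refine Fin.cases ?_ (fun k => ?_) i
    · exact ⟨0, Or.inl (by simp)⟩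
    · rw [Fin.cons_succ]
      rcases Finset.mem_union.1 (Finsupp.support_sub hv) with h2 | h2
      · rcases Finset.mem_union.1 (Finsupp.support_sub h2) with h3 | h3
        · have h4 := Finset.mem_singleton.1 (Finsupp.support_single_subset h3)
          exact ⟨k, Or.inr (by rw [h4]; rfl)⟩
        · have h4 := Finset.mem_singleton.1 (Finsupp.support_single_subset h3)
          exact ⟨k, Or.inl (by rw [h4]; rfl)⟩
      · obtain ⟨u', hu', h3⟩ := ih _ h2
        obtain ⟨j, hj⟩ := h3 k
        obtain ⟨l, hl⟩ := SA_bd_support n u hu' j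
        refine ⟨l, ?_⟩
        rwa [← hl]

theorem SA_mp_const {X Y R : Type*} [CommRing R] (y : Y) (n : ℕ) (z : (Fin n → X) →₀ R)
    {t : Fin n → Y} (ht : t ∈ (SA_mp (fun _ : X => y) n z).support) : t = fun _ => y := by
  classical
  rw [SA_mp, Finsupp.lmapDomain_apply] at ht
  have h := Finsupp.mapDomain_support ht
  obtain ⟨u, hu, rfl⟩ := Finset.mem_image.1 h
  rfl

theorem SA_mp_id {X R : Type*} [CommRing R] (f : X → X) (hf : ∀ x, f x = x) (n : ℕ)
    (z : (Fin n → X) →₀ R) : SA_mp f n z = z := by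
  have h1 : (fun t : Fin n → X => f ∘ t) = id := by
    funext t i
    exact hf _
  rw [SA_mp, Finsupp.lmapDomain_apply, h1, Finsupp.mapDomain_id]

theorem vr_acyclic {E R : Type*} [NormedAddCommGroup E] [NormedSpace ℝ E] [CommRing R]
    (C : Set E) (hC : Convex ℝ C) (hne : C.Nonempty) (ε : ℝ) (hε : 0 < ε) (n : ℕ)
    (z : (Fin (n + 1) → E) →₀ R)
    (hz : ∀ t ∈ z.support, (∀ a, t a ∈ C) ∧ ∀ a b, dist (t a) (t b) < ε) (hcyc : bd n z = 0) :
    ∃ w : (Fin (n + 2) → E) →₀ R,
      (∀ t ∈ w.support, (∀ a, t a ∈ C) ∧ ∀ a b, dist (t a) (t b) < ε) ∧ bd (n + 1) w = z := by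
  classical
  obtain ⟨x0, hx0⟩ := hne
  -- the maximal distance
  obtain ⟨e, he, hed⟩ : ∃ e < ε, ∀ t ∈ z.support, ∀ a b, dist (t a) (t b) ≤ e := by
    have h1 : ∀ t ∈ z.support, ∃ e < ε, ∀ a b, dist (t a) (t b) ≤ e := by
      intro t ht
      have hne : (Finset.univ : Finset (Fin (n + 1) × Fin (n + 1))).Nonempty :=
        ⟨(0, 0), Finset.mem_univ _⟩
      refine ⟨Finset.univ.sup' hne (fun p : Fin (n + 1) × Fin (n + 1) => dist (t p.1) (t p.2)),
        ?_, fun a b => ?_⟩
      · rw [Finset.sup'_lt_iff]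
        intro p _
        exact (hz t ht).2 _ _
      · exact Finset.le_sup' (fun p : Fin (n + 1) × Fin (n + 1) => dist (t p.1) (t p.2))
          (Finset.mem_univ (a, b))
    choose! e he1 he2 using h1
    rcases z.support.eq_empty_or_nonempty with h | h
    · refine ⟨0, hε, fun t ht => ?_⟩
      rw [h] at ht
      exact absurd ht (Finset.notMem_empty t)
    · refine ⟨z.support.sup' h e, ?_, fun t ht a b => ?_⟩
      · rw [Finset.sup'_lt_iff]
        exact he1
      · exact (he2 t ht a b).trans (Finset.le_sup' e ht)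
  obtain ⟨M, hM, hMd⟩ : ∃ M : ℝ, 0 ≤ M ∧ ∀ t ∈ z.support, ∀ a, dist (t a) x0 ≤ M := by
    refine ⟨∑ t ∈ z.support, ∑ a, dist (t a) x0,
      Finset.sum_nonneg fun t _ => Finset.sum_nonneg fun a _ => dist_nonneg, fun t ht a => ?_⟩
    have h1 : dist (t a) x0 ≤ ∑ a, dist (t a) x0 :=
      Finset.single_le_sum (f := fun a => dist (t a) x0) (fun a _ => dist_nonneg)
        (Finset.mem_univ a)
    have h2 : ∑ a, dist (t a) x0 ≤ ∑ t ∈ z.support, ∑ a, dist (t a) x0 :=
      Finset.single_le_sum (f := fun t : Fin (n + 1) → E => ∑ a, dist (t a) x0)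
        (fun t _ => Finset.sum_nonneg fun a _ => dist_nonneg) ht
    exact h1.trans h2
  obtain ⟨N, hN⟩ := exists_nat_gt (M / (ε - e))
  have hN0 : (0 : ℝ) < N := lt_of_le_of_lt (div_nonneg hM (by linarith)) hN
  have hN1 : e + M / N < ε := by
    rw [div_lt_iff₀ (by linarith)] at hN
    have : M / N < ε - e := by
      rw [div_lt_iff₀ hN0]
      linarith
    linarith
  set h : ℕ → E → E := fun k x => AffineMap.lineMap x x0 ((k : ℝ) / N) with hh
  have hmem : ∀ k ≤ N, ∀ x ∈ C, h k x ∈ C := by
    intro k hk x hx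
    have h1 : (k : ℝ) / N ∈ Set.Icc (0 : ℝ) 1 := by
      refine ⟨by positivity, ?_⟩
      rw [div_le_one hN0]
      exact_mod_cast hk
    exact hC.lineMap_mem hx hx0 h1
  have hd1 : ∀ k ≤ N, ∀ x y, dist (h k x) (h k y) ≤ dist x y := by
    intro k hk x y
    have h1 : h k x - h k y = (1 - (k : ℝ) / N) • (x - y) := by
      simp only [hh, AffineMap.lineMap_apply_module]
      module
    rw [dist_eq_norm, h1, norm_smul, dist_eq_norm]
    have h2 : (k : ℝ) / N ≤ 1 := by
      rw [div_le_one hN0]
      exact_mod_cast hk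
    have h3 : 0 ≤ (k : ℝ) / N := by positivity
    rw [Real.norm_of_nonneg (by linarith)]
    exact mul_le_of_le_one_left (norm_nonneg _) (by linarith)
  have hd2 : ∀ k x, dist (h k x) (h (k + 1) x) ≤ dist x x0 / N := by
    intro k x
    have h1 : h k x - h (k + 1) x = (1 / (N : ℝ)) • (x - x0) := by
      simp only [hh, AffineMap.lineMap_apply_module]
      push_cast
      module
    rw [dist_eq_norm, h1, norm_smul, Real.norm_of_nonneg (by positivity), dist_eq_norm]
    apply le_of_eq
    ring
  -- smallness of the homotopies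
  have hsmall : ∀ k < N, ∀ t ∈ (SA_P (h k) (h (k + 1)) (n + 1) z).support,
      (∀ a, t a ∈ C) ∧ ∀ a b, dist (t a) (t b) < ε := by
    intro k hk t ht
    obtain ⟨u, hu, hut⟩ := SA_P_support _ _ _ _ ht
    have hC' := (hz u hu).1
    refine ⟨fun a => ?_, fun a b => ?_⟩
    · obtain ⟨j, hj | hj⟩ := hut a
      · rw [hj]
        exact hmem k hk.le _ (hC' j)
      · rw [hj]
        exact hmem (k + 1) hk _ (hC' j)
    · obtain ⟨j, hj⟩ := hut a
      obtain ⟨l, hl⟩ := hut b
      have e1 := hd1 k hk.le (u j) (u l)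
      have e2 := hd1 (k + 1) hk (u j) (u l)
      have e3 := hed u hu j l
      have e4 := hd2 k (u j)
      have e5 := hd2 k (u l)
      have e6 : dist (u j) x0 / N ≤ M / N := div_le_div_of_nonneg_right (hMd u hu j) hN0.le
      have e7 : dist (u l) x0 / N ≤ M / N := div_le_div_of_nonneg_right (hMd u hu l) hN0.le
      have e8 : 0 ≤ M / N := div_nonneg hM hN0.le
      rcases hj with hj | hj <;> rcases hl with hl | hl <;> rw [hj, hl]
      · linarith
      · have := dist_triangle (h k (u j)) (h k (u l)) (h (k + 1) (u l))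
        linarith
      · have := dist_triangle_left (h (k + 1) (u j)) (h k (u l)) (h k (u j))
        linarith
      · linarith
  -- the homotopy step
  have hstep : ∀ k ≤ N, ∃ w : (Fin (n + 2) → E) →₀ R,
      (∀ t ∈ w.support, (∀ a, t a ∈ C) ∧ ∀ a b, dist (t a) (t b) < ε) ∧
        bd (n + 1) w = SA_mp (h k) (n + 1) z - z := by
    intro k
    induction k with
    | zero =>
      intro _
      refine ⟨0, fun t ht => absurd ht (by simp), ?_⟩
      rw [map_zero, SA_mp_id (h 0) (fun x => by simp [hh]), sub_self]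
    | succ k ih =>
      intro hk
      obtain ⟨w, hw, hw'⟩ := ih (by omega)
      refine ⟨w + SA_P (h k) (h (k + 1)) (n + 1) z, fun t ht => ?_, ?_⟩
      · rcases Finset.mem_union.1 (Finsupp.support_add ht) with h1 | h1
        · exact hw t h1
        · exact hsmall k (by omega) t h1
      · rw [map_add, hw', SA_P_eq, hcyc, map_zero]
        abel
  obtain ⟨w, hw, hw'⟩ := hstep N le_rfl
  have hconst : h N = fun _ => x0 := by
    funext x
    simp only [hh]
    rw [div_self hN0.ne', AffineMap.lineMap_apply_one]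
  have hcN : bd n (SA_mp (h N) (n + 1) z) = 0 := by
    rw [SA_bd_mp, hcyc, map_zero]
  refine ⟨cone (n + 1) x0 (SA_mp (h N) (n + 1) z) - w, fun t ht => ?_, ?_⟩
  · rcases Finset.mem_union.1 (Finsupp.support_sub ht) with h1 | h1
    · obtain ⟨u, hu, rfl⟩ := cone_support _ _ _ h1
      rw [hconst] at hu
      have h2 := SA_mp_const _ _ _ hu
      have h3 : ∀ a, (Fin.cons x0 u : Fin (n + 2) → E) a = x0 := by
        intro a
        refine Fin.cases ?_ (fun k => ?_) a
        · simp
        · rw [Fin.cons_succ, h2]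
      refine ⟨fun a => ?_, fun a b => ?_⟩
      · rw [h3]
        exact hx0
      · rw [h3, h3, dist_self]
        exact hε
    · exact hw t h1
  · rw [map_sub, bd_cone, hcN, map_zero, sub_zero, hw']
    abel

end Pool.H54.UB
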