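import Pool.Agent.H54.UB.SA

/-!
# Row SB: the subdivision chain map and a chain homotopy

`exists_subdiv`: recursion on `n` (choice): `T 0 t = t`, `T 1 t = t`; given `T` up to `n ≥ 1`, for a
tuple `t : Fin (n+1) → E` the chain `z = ∑_j (-1)^j T n (t ∘ δ_j)` is a cycle (`bd T n = ∑ T (n-1)`,
double sum cancels as in `bd_bd`) supported on tuples with entries in `convexHull (range t)` and
pairwise distances `< ε`; take `T (n+1) t = w` from `vr_acyclic` for `C = convexHull ℝ (range t)`.
To organise the recursion: construct by `Nat.rec` the pair (function, properties), or show by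
induction on `N` the existence of `T` with the properties for `n ≤ N` in a subtype with dependent
choice.

`exists_homotopy`: recursion on `n`: `D 0 = 0`,
`D (n+1) t = cone (t 0) (T' (n+1) t - single t 1 - ∑_j (-1)^j D n (t ∘ δ_j))`; the chain in the
bracket is a cycle (formal computation with the induction hypothesis; for `n = 0` use `h0`), so
`bd (D (n+1) t) = ` the bracket by `bd_cone`.  Supports: entries in `range t`.
-/

namespace Pool.H54.UB

open Finset

theorem SB_alt {X R M : Type*} [CommRing R] [AddCommGroup M] [Module R M] (n : ℕ)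
    (G : (Fin n → X) → M) (t : Fin (n + 2) → X) :
    ∑ j : Fin (n + 2), ((-1 : R) ^ (j : ℕ)) • ∑ i : Fin (n + 1), ((-1 : R) ^ (i : ℕ)) •
      G ((t ∘ j.succAbove) ∘ i.succAbove) = 0 := by
  have h := bd_bd n (Finsupp.single t (1 : R))
  rw [bd_single, map_sum] at h
  have h2 := congrArg (Finsupp.linearCombination R G) h
  rw [map_zero, map_sum] at h2
  rw [← h2]
  refine Finset.sum_congr rfl fun j _ => ?_
  rw [bd_single, map_sum, Finset.smul_sum]
  refine Finset.sum_congr rfl fun i _ => ?_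
  rw [Finsupp.linearCombination_single, one_mul, smul_smul]

open Classical in
/-- the subdivision -/
noncomputable def SB_T (E R : Type*) [NormedAddCommGroup E] [NormedSpace ℝ E] [CommRing R]
    (ε : ℝ) : ∀ n : ℕ, (Fin n → E) → ((Fin n → E) →₀ R)
  | 0, t => Finsupp.single t 1
  | 1, t => Finsupp.single t 1
  | n + 2, t =>
    if h : ∃ w : (Fin (n + 2) → E) →₀ R, (∀ u ∈ w.support,
        (∀ a, u a ∈ convexHull ℝ (Set.range t)) ∧ ∀ a b, dist (u a) (u b) < ε) ∧
        bd (n + 1) w = ∑ j : Fin (n + 2), ((-1 : R) ^ (j : ℕ)) •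
          SB_T E R ε (n + 1) (t ∘ j.succAbove)
    then h.choose else 0

theorem SB_supp1 {E R : Type*} [NormedAddCommGroup E] [NormedSpace ℝ E] [CommRing R]
    {ε : ℝ} (hε : 0 < ε) {n : ℕ} (hn : n ≤ 1) (t : Fin n → E) (r : R)
    (u : Fin n → E) (hu : u ∈ (Finsupp.single t r).support) :
    (∀ a, u a ∈ convexHull ℝ (Set.range t)) ∧ ∀ a b, dist (u a) (u b) < ε := by
  have h1 : u = t := by
    by_contra hne
    rw [Finsupp.mem_support_iff, Finsupp.single_eq_of_ne hne] at hu
    exact hu rfl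
  subst h1
  refine ⟨fun a => subset_convexHull ℝ _ ⟨a, rfl⟩, fun a b => ?_⟩
  have h2 : a = b := by
    apply Fin.ext
    have := a.2
    have := b.2
    omega
  rw [h2, dist_self]
  exact hε

theorem SB_main {E R : Type*} [NormedAddCommGroup E] [NormedSpace ℝ E] [CommRing R]
    (ε : ℝ) (hε : 0 < ε) (n : ℕ) :
    (∀ t : Fin (n + 1) → E, ∀ u ∈ (SB_T E R ε (n + 1) t).support,
        (∀ a, u a ∈ convexHull ℝ (Set.range t)) ∧ ∀ a b, dist (u a) (u b) < ε) ∧
      ∀ t : Fin (n + 1) → E, bd n (SB_T E R ε (n + 1) t) =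
        ∑ j : Fin (n + 1), ((-1 : R) ^ (j : ℕ)) • SB_T E R ε n (t ∘ j.succAbove) := by
  induction n with
  | zero =>
    constructor
    · intro t u hu
      unfold SB_T at hu
      exact SB_supp1 hε le_rfl t 1 u hu
    · intro t
      unfold SB_T
      rw [bd_single]
      refine Finset.sum_congr rfl fun j _ => ?_
      rw [Finsupp.smul_single, smul_eq_mul, mul_one, one_mul]
  | succ n ih =>
    obtain ⟨ih1, ih2⟩ := ih
    have key : ∀ t : Fin (n + 2) → E, ∃ w : (Fin (n + 2) → E) →₀ R, (∀ u ∈ w.support,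
        (∀ a, u a ∈ convexHull ℝ (Set.range t)) ∧ ∀ a b, dist (u a) (u b) < ε) ∧
        bd (n + 1) w = ∑ j : Fin (n + 2), ((-1 : R) ^ (j : ℕ)) •
          SB_T E R ε (n + 1) (t ∘ j.succAbove) := by
      intro t
      apply vr_acyclic (convexHull ℝ (Set.range t)) (convex_convexHull ℝ _)
        ⟨t 0, subset_convexHull ℝ _ ⟨0, rfl⟩⟩ ε hε n
      · have hmem : (∑ j : Fin (n + 2), ((-1 : R) ^ (j : ℕ)) •
            SB_T E R ε (n + 1) (t ∘ j.succAbove)) ∈ Finsupp.supported R R
            {u : Fin (n + 1) → E | (∀ a, u a ∈ convexHull ℝ (Set.range t)) ∧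
              ∀ a b, dist (u a) (u b) < ε} := by
          apply Submodule.sum_mem
          intro j _
          apply Submodule.smul_mem
          rw [Finsupp.mem_supported]
          intro u hu
          obtain ⟨h1, h2⟩ := ih1 _ u hu
          refine ⟨fun a => ?_, h2⟩
          exact convexHull_mono (Set.range_comp_subset_range _ _) (h1 a)
        rw [Finsupp.mem_supported] at hmem
        intro u hu
        exact hmem hu
      · rw [map_sum]
        have h3 := SB_alt (R := R) n (SB_T E R ε n) t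
        rw [← h3]
        refine Finset.sum_congr rfl fun j _ => ?_
        rw [map_smul, ih2]
    constructor
    · intro t u hu
      have h := key t
      unfold SB_T at hu
      rw [dif_pos h] at hu
      exact h.choose_spec.1 u hu
    · intro t
      have h := key t
      have h4 : SB_T E R ε (n + 1 + 1) t = h.choose := by
        rw [SB_T]
        exact dif_pos h
      rw [h4]
      exact h.choose_spec.2

/-- the homotopy -/
noncomputable def SB_D {V R : Type*} [CommRing R] (T' : ∀ n : ℕ, (Fin n → V) → ((Fin n → V) →₀ R)) :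
    ∀ n : ℕ, (Fin n → V) → ((Fin (n + 1) → V) →₀ R)
  | 0, _ => 0
  | n + 1, t => cone (n + 1) (t 0) (T' (n + 1) t - Finsupp.single t 1 -
      ∑ j : Fin (n + 1), ((-1 : R) ^ (j : ℕ)) • SB_D T' n (t ∘ j.succAbove))

theorem SB_hom {V R : Type*} [CommRing R] (Tp : ∀ n : ℕ, (Fin n → V) → Prop)
    (hTp : ∀ n t, Tp (n + 1) t → ∀ j : Fin (n + 1), Tp n (t ∘ j.succAbove))
    (T' : ∀ n : ℕ, (Fin n → V) → ((Fin n → V) →₀ R))
    (h0 : ∀ t, T' 0 t = Finsupp.single t 1)
    (hsupp : ∀ n t, Tp (n + 1) t → ∀ u ∈ (T' (n + 1) t).support, ∀ a, u a ∈ Set.range t)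
    (hbd : ∀ n t, Tp (n + 1) t → bd n (T' (n + 1) t) =
      ∑ j : Fin (n + 1), ((-1 : R) ^ (j : ℕ)) • T' n (t ∘ j.succAbove)) (n : ℕ) :
    ∀ t, Tp (n + 1) t → (∀ u ∈ (SB_D T' (n + 1) t).support, ∀ a, u a ∈ Set.range t) ∧
        bd (n + 1) (SB_D T' (n + 1) t) +
            ∑ j : Fin (n + 1), ((-1 : R) ^ (j : ℕ)) • SB_D T' n (t ∘ j.succAbove)
          = T' (n + 1) t - Finsupp.single t 1 := by
  induction n with
  | zero =>
    intro t ht
    have hB : bd 0 (T' 1 t - Finsupp.single t 1 -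
        ∑ j : Fin 1, ((-1 : R) ^ (j : ℕ)) • SB_D T' 0 (t ∘ j.succAbove)) = 0 := by
      have hz : ∀ s : Fin 0 → V, SB_D T' 0 s = 0 := fun s => rfl
      simp only [hz, smul_zero, Finset.sum_const_zero, sub_zero]
      rw [map_sub, hbd 0 t ht, bd_single, sub_eq_zero]
      refine Finset.sum_congr rfl fun j _ => ?_
      rw [h0, Finsupp.smul_single, smul_eq_mul, mul_one, one_mul]
    constructor
    · intro u hu
      have hu' : u ∈ (cone 1 (t 0) (T' 1 t - Finsupp.single t 1 -
        ∑ j : Fin 1, ((-1 : R) ^ (j : ℕ)) • SB_D T' 0 (t ∘ j.succAbove))).support := hu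
      obtain ⟨v, hv, rfl⟩ := cone_support _ _ _ hu'
      have hmem : (T' 1 t - Finsupp.single t 1 -
          ∑ j : Fin 1, ((-1 : R) ^ (j : ℕ)) • SB_D T' 0 (t ∘ j.succAbove)) ∈
          Finsupp.supported R R {u : Fin 1 → V | ∀ a, u a ∈ Set.range t} := by
        apply Submodule.sub_mem
        · apply Submodule.sub_mem
          · rw [Finsupp.mem_supported]
            exact fun u hu => hsupp 0 t ht u hu
          · apply Finsupp.single_mem_supported
            exact fun a => ⟨a, rfl⟩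
        · apply Submodule.sum_mem
          intro j _
          apply Submodule.smul_mem
          exact Submodule.zero_mem _
      rw [Finsupp.mem_supported] at hmem
      intro a
      refine Fin.cases ?_ (fun b => ?_) a
      · exact ⟨0, rfl⟩
      · rw [Fin.cons_succ]
        exact hmem hv b
    · show bd (0 + 1) (cone (0 + 1) (t 0) (T' (0 + 1) t - Finsupp.single t 1 -
        ∑ j : Fin (0 + 1), ((-1 : R) ^ (j : ℕ)) • SB_D T' 0 (t ∘ j.succAbove))) + _ = _
      rw [bd_cone, hB, map_zero, sub_zero, sub_add_cancel]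
  | succ n ih =>
    intro t ht
    have hB : bd (n + 1) (T' (n + 2) t - Finsupp.single t 1 -
        ∑ j : Fin (n + 2), ((-1 : R) ^ (j : ℕ)) • SB_D T' (n + 1) (t ∘ j.succAbove)) = 0 := by
      have h1 : ∀ j : Fin (n + 2), bd (n + 1) (SB_D T' (n + 1) (t ∘ j.succAbove)) =
          T' (n + 1) (t ∘ j.succAbove) - Finsupp.single (t ∘ j.succAbove) 1 -
            ∑ i : Fin (n + 1), ((-1 : R) ^ (i : ℕ)) • SB_D T' n ((t ∘ j.succAbove) ∘ i.succAbove) :=
        fun j => eq_sub_of_add_eq (ih _ (hTp _ t ht j)).2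
      rw [map_sub, map_sub, hbd (n + 1) t ht, bd_single, map_sum]
      simp only [map_smul, h1, smul_sub, Finset.sum_sub_distrib]
      rw [SB_alt n (SB_D T' n) t, sub_zero]
      have h2 : ∑ x : Fin (n + 2), ((-1 : R) ^ (x : ℕ)) • Finsupp.single (t ∘ x.succAbove) (1 : R) =
          ∑ x : Fin (n + 2), Finsupp.single (t ∘ x.succAbove) (1 * (-1 : R) ^ (x : ℕ)) := by
        refine Finset.sum_congr rfl fun j _ => ?_
        rw [Finsupp.smul_single, smul_eq_mul, mul_one, one_mul]
      rw [h2]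
      abel
    constructor
    · intro u hu
      have hu' : u ∈ (cone (n + 2) (t 0) (T' (n + 2) t - Finsupp.single t 1 -
        ∑ j : Fin (n + 2), ((-1 : R) ^ (j : ℕ)) • SB_D T' (n + 1) (t ∘ j.succAbove))).support := hu
      obtain ⟨v, hv, rfl⟩ := cone_support _ _ _ hu'
      have hmem : (T' (n + 2) t - Finsupp.single t 1 -
          ∑ j : Fin (n + 2), ((-1 : R) ^ (j : ℕ)) • SB_D T' (n + 1) (t ∘ j.succAbove)) ∈
          Finsupp.supported R R {u : Fin (n + 2) → V | ∀ a, u a ∈ Set.range t} := by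
        apply Submodule.sub_mem
        · apply Submodule.sub_mem
          · rw [Finsupp.mem_supported]
            exact fun u hu => hsupp (n + 1) t ht u hu
          · apply Finsupp.single_mem_supported
            exact fun a => ⟨a, rfl⟩
        · apply Submodule.sum_mem
          intro j _
          apply Submodule.smul_mem
          rw [Finsupp.mem_supported]
          intro u hu a
          exact Set.range_comp_subset_range _ _ ((ih _ (hTp _ t ht j)).1 u hu a)
      rw [Finsupp.mem_supported] at hmem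
      intro a
      refine Fin.cases ?_ (fun b => ?_) a
      · exact ⟨0, rfl⟩
      · rw [Fin.cons_succ]
        exact hmem hv b
    · show bd (n + 1 + 1) (cone (n + 1 + 1) (t 0) (T' (n + 1 + 1) t - Finsupp.single t 1 -
        ∑ j : Fin (n + 1 + 1), ((-1 : R) ^ (j : ℕ)) • SB_D T' (n + 1) (t ∘ j.succAbove))) + _ = _
      rw [bd_cone, hB, map_zero, sub_zero, sub_add_cancel]

theorem exists_subdiv {E R : Type*} [NormedAddCommGroup E] [NormedSpace ℝ E] [CommRing R]
    (ε : ℝ) (hε : 0 < ε) :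
    ∃ T : ∀ n : ℕ, (Fin n → E) → ((Fin n → E) →₀ R),
      (∀ n t, ∀ u ∈ (T n t).support,
        (∀ a, u a ∈ convexHull ℝ (Set.range t)) ∧ ∀ a b, dist (u a) (u b) < ε) ∧
      (∀ t, T 0 t = Finsupp.single t 1) ∧ (∀ t, T 1 t = Finsupp.single t 1) ∧
      ∀ n t, bd n (T (n + 1) t) =
        ∑ j : Fin (n + 1), ((-1 : R) ^ (j : ℕ)) • T n (t ∘ j.succAbove) := by
  refine ⟨SB_T E R ε, ?_, fun t => rfl, fun t => rfl, fun n => (SB_main ε hε n).2⟩
  intro n t
  cases n with
  | zero =>
    intro u hu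
    exact SB_supp1 hε (Nat.zero_le 1) t 1 u hu
  | succ n => exact (SB_main ε hε n).1 t

theorem exists_homotopy {V R : Type*} [CommRing R] (Tp : ∀ n : ℕ, (Fin n → V) → Prop)
    (hTp : ∀ n t, Tp (n + 1) t → ∀ j : Fin (n + 1), Tp n (t ∘ j.succAbove))
    (T' : ∀ n : ℕ, (Fin n → V) → ((Fin n → V) →₀ R))
    (h0 : ∀ t, T' 0 t = Finsupp.single t 1)
    (hsupp : ∀ n t, Tp (n + 1) t → ∀ u ∈ (T' (n + 1) t).support, ∀ a, u a ∈ Set.range t)
    (hbd : ∀ n t, Tp (n + 1) t → bd n (T' (n + 1) t) =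
      ∑ j : Fin (n + 1), ((-1 : R) ^ (j : ℕ)) • T' n (t ∘ j.succAbove)) :
    ∃ D : ∀ n : ℕ, (Fin n → V) → ((Fin (n + 1) → V) →₀ R),
      (∀ n t, Tp (n + 1) t → ∀ u ∈ (D (n + 1) t).support, ∀ a, u a ∈ Set.range t) ∧
      (∀ t, D 0 t = 0) ∧
      ∀ n t, Tp (n + 1) t →
        bd (n + 1) (D (n + 1) t) + ∑ j : Fin (n + 1), ((-1 : R) ^ (j : ℕ)) • D n (t ∘ j.succAbove)
          = T' (n + 1) t - Finsupp.single t 1 := by
  have h := SB_hom Tp hTp T' h0 hsupp hbd
  exact ⟨SB_D T', fun n t ht => (h n t ht).1, fun t => rfl, fun n t ht => (h n t ht).2⟩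

end Pool.H54.UB
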