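import Pool.Agent.H54.UB.EVG

/-!
# Row STM: surgery on a tube `gam × cube`

`A = X \ ι (gam × ball 0 1)`, `B = closedBall 0 1 × sphere 0 1` (in `ℝ^2 × ℝ^n`), glued along
`DB = gam × sphere 0 1` (`gam` is the boundary of `closedBall 0 1 ⊆ ℝ^2`) by `ι`.

* Write `n = k + 1`.  `DA = ι '' (gam × sphere 0 1)`.  `IsPoly A`: `Tube.poly_remove`; points of `DA`:
  `Tube.bdpt` (`BdPt (1 + k) = BdPt n`); other points of `A`: `Tube.intpt` (dimension `n + 1`).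
* `B`: boundary points: `BdPt.prod_int` (`bdpt_ball 1`, and `sphere 0 1` in `Fin (k+1) → ℝ` is a closed
  PL `k`-manifold: `sphere_manifold`; for `k ≥ 1`); interior points: `IntPt.prod` with
  `intpt_of_interior` (`finrank (Fin 2 → ℝ) = 2`).
* `glue_mfd` with `φ = ι` gives `jA`, `jB`.
* connected: `jA '' A` is connected (`Tube.connected_remove`, `gam × sphere 0 1` is connected), `jB '' B` is
  connected, and they meet.
-/

open Set Topology Metric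

namespace Pool.H54.UB

variable {E : Type*} [NormedAddCommGroup E] [NormedSpace ℝ E] [FiniteDimensional ℝ E]

theorem STM_aux {k : ℕ} (hk : 1 ≤ k) {X : Set E} (hX : IsClosedPLManifold (k + 1 + 1) X)
    (hc : IsConnected X) {ι : V2 × (Fin (k + 1) → ℝ) → E} (h : Tube gam (k + 1) X ι) :
    ∃ (jA : E → E × (V2 × (Fin (k + 1) → ℝ)) × ℝ)
      (jB : V2 × (Fin (k + 1) → ℝ) → E × (V2 × (Fin (k + 1) → ℝ)) × ℝ),
      Glued (X \ ι '' (gam ×ˢ ball (0 : Fin (k + 1) → ℝ) 1))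
        (closedBall (0 : V2) 1 ×ˢ sphere (0 : Fin (k + 1) → ℝ) 1)
        (gam ×ˢ sphere (0 : Fin (k + 1) → ℝ) 1) ι jA jB ∧
      IsClosedPLManifold (k + 1 + 1) (jA '' (X \ ι '' (gam ×ˢ ball (0 : Fin (k + 1) → ℝ) 1)) ∪
        jB '' (closedBall (0 : V2) 1 ×ˢ sphere (0 : Fin (k + 1) → ℝ) 1)) ∧
      IsConnected (jA '' (X \ ι '' (gam ×ˢ ball (0 : Fin (k + 1) → ℝ) 1)) ∪
        jB '' (closedBall (0 : V2) 1 ×ˢ sphere (0 : Fin (k + 1) → ℝ) 1)) := by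
  have hP : IsPoly gam := gam_mfd.1
  have hsph : IsClosedPLManifold k (sphere (0 : Fin (k + 1) → ℝ) 1) := sphere_manifold k hk
  have hA : IsPoly (X \ ι '' (gam ×ˢ ball (0 : Fin (k + 1) → ℝ) 1)) :=
    h.poly_remove hP hX.1 (by omega)
  have hB : IsPoly (closedBall (0 : V2) 1 ×ˢ sphere (0 : Fin (k + 1) → ℝ) 1) :=
    (isPoly_closedBall 2 1).prod hsph.1
  have hDB : IsPoly (gam ×ˢ sphere (0 : Fin (k + 1) → ℝ) 1) := hP.prod hsph.1
  have hsub2 : gam ×ˢ sphere (0 : Fin (k + 1) → ℝ) 1 ⊆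
      gam ×ˢ closedBall (0 : Fin (k + 1) → ℝ) 2 :=
    prod_mono Subset.rfl (sphere_subset_closedBall.trans (closedBall_subset_closedBall one_le_two))
  have hsub1 : gam ×ˢ ball (0 : Fin (k + 1) → ℝ) 1 ⊆
      gam ×ˢ closedBall (0 : Fin (k + 1) → ℝ) 2 :=
    prod_mono Subset.rfl (ball_subset_closedBall.trans (closedBall_subset_closedBall one_le_two))
  have hDA : IsPoly (ι '' (gam ×ˢ sphere (0 : Fin (k + 1) → ℝ) 1)) := h.pl.image_poly hDB hsub2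
  have hAs : ι '' (gam ×ˢ sphere (0 : Fin (k + 1) → ℝ) 1) ⊆
      X \ ι '' (gam ×ˢ ball (0 : Fin (k + 1) → ℝ) 1) := by
    rintro _ ⟨q, hq, rfl⟩
    refine ⟨h.maps (hsub2 hq), ?_⟩
    rintro ⟨q', hq', e⟩
    have e' : q' = q := h.inj (hsub1 hq') (hsub2 hq) e
    rw [e'] at hq'
    have h1 := hq.2
    have h2 := hq'.2
    rw [mem_sphere_zero_iff_norm] at h1
    rw [mem_ball_zero_iff] at h2
    linarith
  have hBs : gam ×ˢ sphere (0 : Fin (k + 1) → ℝ) 1 ⊆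
      closedBall (0 : V2) 1 ×ˢ sphere (0 : Fin (k + 1) → ℝ) 1 :=
    prod_mono sphere_subset_closedBall Subset.rfl
  have hAi : ∀ x ∈ (X \ ι '' (gam ×ˢ ball (0 : Fin (k + 1) → ℝ) 1)) \
      ι '' (gam ×ˢ sphere (0 : Fin (k + 1) → ℝ) 1),
      IntPt (k + 1 + 1) (X \ ι '' (gam ×ˢ ball (0 : Fin (k + 1) → ℝ) 1)) x := by
    rintro x ⟨⟨hxX, hx1⟩, hx2⟩
    refine h.intpt hP ?_ (hX.2 x hxX)
    rintro ⟨q, hq, e⟩
    have hq1 := hq.2
    rw [mem_closedBall_zero_iff] at hq1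
    rcases eq_or_lt_of_le hq1 with h1 | h1
    · exact hx2 ⟨q, ⟨hq.1, by rw [mem_sphere_zero_iff_norm]; exact h1⟩, e⟩
    · exact hx1 ⟨q, ⟨hq.1, by rw [mem_ball_zero_iff]; exact h1⟩, e⟩
  have hAb : ∀ x ∈ ι '' (gam ×ˢ sphere (0 : Fin (k + 1) → ℝ) 1),
      BdPt (k + 1) (X \ ι '' (gam ×ˢ ball (0 : Fin (k + 1) → ℝ) 1))
        (ι '' (gam ×ˢ sphere (0 : Fin (k + 1) → ℝ) 1)) x := by
    rintro _ ⟨⟨z, u⟩, ⟨hz, hu⟩, rfl⟩
    have h1 := h.bdpt gam_mfd hz (u := u) (by rwa [← mem_sphere_zero_iff_norm])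
    rw [add_comm 1 k] at h1
    exact h1
  have hBi : ∀ x ∈ (closedBall (0 : V2) 1 ×ˢ sphere (0 : Fin (k + 1) → ℝ) 1) \
      (gam ×ˢ sphere (0 : Fin (k + 1) → ℝ) 1),
      IntPt (k + 1 + 1) (closedBall (0 : V2) 1 ×ˢ sphere (0 : Fin (k + 1) → ℝ) 1) x := by
    rintro ⟨w, u⟩ ⟨⟨hw, hu⟩, hn⟩
    change w ∈ closedBall (0 : V2) 1 at hw
    change u ∈ sphere (0 : Fin (k + 1) → ℝ) 1 at hu
    have hw1 : w ∈ ball (0 : V2) 1 := by
      rw [mem_closedBall_zero_iff] at hw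
      rw [mem_ball_zero_iff]
      refine lt_of_le_of_ne hw fun e => hn ⟨?_, hu⟩
      show w ∈ sphere (0 : V2) 1
      rw [mem_sphere_zero_iff_norm]
      exact e
    have h1 : IntPt 2 (closedBall (0 : V2) 1) w :=
      intpt_of_interior (by simp) (ball_subset_interior_closedBall hw1)
    have h2 := h1.prod (show IntPt k (sphere (0 : Fin (k + 1) → ℝ) 1) u from hsph.2 u hu)
    have h3 : 2 + k = k + 1 + 1 := by omega
    rw [h3] at h2
    exact h2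
  have hBb : ∀ x ∈ gam ×ˢ sphere (0 : Fin (k + 1) → ℝ) 1,
      BdPt (k + 1) (closedBall (0 : V2) 1 ×ˢ sphere (0 : Fin (k + 1) → ℝ) 1)
        (gam ×ˢ sphere (0 : Fin (k + 1) → ℝ) 1) x := by
    rintro ⟨w, u⟩ ⟨hw, hu⟩
    change w ∈ sphere (0 : V2) 1 at hw
    change u ∈ sphere (0 : Fin (k + 1) → ℝ) 1 at hu
    have h1 : BdPt 1 (closedBall (0 : V2) 1) (sphere (0 : V2) 1) w :=
      bdpt_ball 1 (by rwa [← mem_sphere_zero_iff_norm])
    have h2 := h1.prod_int (show IntPt k (sphere (0 : Fin (k + 1) → ℝ) 1) u from hsph.2 u hu)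
    rw [add_comm 1 k] at h2
    exact h2
  obtain ⟨jA, jB, g1, g2, g3, g4, g5, g6, g7⟩ := glue_mfd hA hB hDA hDB hAs hBs hAi hAb hBi hBb
    (φ := ι) (h.pl.mono hDB hsub2) (h.inj.mono hsub2) rfl
  refine ⟨jA, jB, ?_, g7, ?_⟩
  · exact
      { plA := g1
        injA := g2
        plB := g3
        injB := g4
        sub := hBs
        maps := fun q hq => hAs ⟨q, hq, rfl⟩
        plφ := h.pl.mono hDB hsub2
        comm := g5
        sep := g6 }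
  · have hS : IsConnected (gam ×ˢ sphere (0 : Fin (k + 1) → ℝ) 1) :=
      gam_conn.prod (sphere_connected k hk)
    have hAc : IsConnected (X \ ι '' (gam ×ˢ ball (0 : Fin (k + 1) → ℝ) 1)) :=
      h.connected_remove hP hc hX.1.isCompact.isClosed hS
    have hBall : IsConnected (closedBall (0 : V2) 1) :=
      ⟨⟨0, mem_closedBall_self zero_le_one⟩, (convex_closedBall (0 : V2) 1).isPreconnected⟩
    have hBc : IsConnected (closedBall (0 : V2) 1 ×ˢ sphere (0 : Fin (k + 1) → ℝ) 1) :=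
      hBall.prod (sphere_connected k hk)
    obtain ⟨q, hq⟩ := hS.nonempty
    refine IsConnected.union ⟨jB q, ⟨ι q, hAs ⟨q, hq, rfl⟩, g5 q hq⟩, ⟨q, hBs hq, rfl⟩⟩
      (hAc.image _ g1.continuousOn) (hBc.image _ g3.continuousOn)

theorem step_glue {n : ℕ} (hn : 2 ≤ n) {X : Set E} (hX : IsClosedPLManifold (n + 1) X)
    (hc : IsConnected X) {ι : V2 × (Fin n → ℝ) → E} (h : Tube gam n X ι) :
    ∃ (jA : E → E × (V2 × (Fin n → ℝ)) × ℝ) (jB : V2 × (Fin n → ℝ) → E × (V2 × (Fin n → ℝ)) × ℝ),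
      Glued (X \ ι '' (gam ×ˢ ball (0 : Fin n → ℝ) 1))
        (closedBall (0 : V2) 1 ×ˢ sphere (0 : Fin n → ℝ) 1) (gam ×ˢ sphere (0 : Fin n → ℝ) 1)
        ι jA jB ∧
      IsClosedPLManifold (n + 1) (jA '' (X \ ι '' (gam ×ˢ ball (0 : Fin n → ℝ) 1)) ∪
        jB '' (closedBall (0 : V2) 1 ×ˢ sphere (0 : Fin n → ℝ) 1)) ∧
      IsConnected (jA '' (X \ ι '' (gam ×ˢ ball (0 : Fin n → ℝ) 1)) ∪
        jB '' (closedBall (0 : V2) 1 ×ˢ sphere (0 : Fin n → ℝ) 1)) := by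
  obtain ⟨k, rfl⟩ : ∃ k, n = k + 1 := ⟨n - 1, by omega⟩
  exact STM_aux (by omega) hX hc h

end Pool.H54.UB
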