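import Pool.Agent.H54.UB.PF
import Pool.Agent.H54.UB.SM
import Pool.Agent.H54.UB.SD
import Pool.Agent.H54.UB.ASB

/-!
# Row WND: the square `gam = ∂[-1,1]^2` as a circle of length 8

`wnd s = (wf s, wf (s - 2))` runs around the square with period 8: `wnd 0 = (1,-1)`, `wnd 2 = (1,1)`,
`wnd 4 = (-1,1)`, `wnd 6 = (-1,-1)`.  `wf s = max (-1) (min 1 (2 - d s))`, where
`d s = |(s-1) - 8 round((s-1)/8)|` is the distance of `s - 1` to `8 ℤ`.
On one period: `wf s = 1` on `[0,2]`, `3 - s` on `[2,4]`, `-1` on `[4,6]`, `s - 7` on `[6,8]`.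

* `wnd_per`: `round (x + k) = round x + k`.
* `wnd_eq_iff`: reduce to `s, t ∈ [0,8)` by `wnd_per` and inspect the four sides (on each side one of the
  coordinates is `±1` and the other determines `s`).
* `wnd_cont`: `wf` is continuous because the distance to `8 ℤ` is (`|x - 8 round (x/8)|`; e.g. show that
  it is 1-Lipschitz, or glue the formulas on the intervals `[8k-3, 8k+5]`).
* `wnd_pl`: on an interval of length at most 1 with integer end points both coordinates are affine; cover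
  `Icc a b` by the finitely many intervals `[k, k+1] ∩ [a,b]` and use `PLOn.biUnion`, `PLOn.mono`.
* `wnd_open`: `wnd '' (gam-complement)`: the set `wnd '' (Icc (s+ε) (s+8-ε))` is compact, does not
  contain `wnd s`, and together with `wnd '' Ioo (s-ε) (s+ε)` covers `gam` (`ε < 4`).
* `ang z` is the parameter in `[0,8)`.
* `pl_desc`: the graph over `gam` is `{(wnd s, F s) : s ∈ [0,8]}`, the image of a PL map; for
  `s ∈ [0,8]`: `ang (wnd s) = s` for `s < 8` and `ang (wnd 8) = 0`.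
* `arc_qtriv`: `QTriv.retract` from `Icc a b` with the inverse of `wnd` on the arc (compactness).
-/

open Set Topology

namespace Pool.H54.UB

/-- The plane. -/
abbrev V2 : Type := Fin 2 → ℝ

noncomputable def wf (s : ℝ) : ℝ := max (-1) (min 1 (2 - |(s - 1) - 8 * round ((s - 1) / 8)|))

noncomputable def wnd (s : ℝ) : V2 := ![wf s, wf (s - 2)]

def gam : Set V2 := Metric.sphere 0 1

private theorem WND_mem (y : V2) : y ∈ gam ↔ (∀ i, |y i| ≤ 1) ∧ ∃ i, |y i| = 1 := by
  unfold gam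
  rw [mem_sphere_zero_iff_norm]
  constructor
  · intro h
    have h1 : ∀ i, |y i| ≤ 1 := by
      intro i
      have := norm_le_pi_norm y i
      rw [h, Real.norm_eq_abs] at this
      exact this
    refine ⟨h1, ?_⟩
    by_contra hne
    push Not at hne
    have : ‖y‖ < 1 := by
      rw [pi_norm_lt_iff zero_lt_one]
      intro i
      rw [Real.norm_eq_abs]
      exact lt_of_le_of_ne (h1 i) (hne i)
    rw [h] at this
    exact lt_irrefl _ this
  · rintro ⟨h1, i, hi⟩
    apply le_antisymm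
    · rw [pi_norm_le_iff_of_nonneg zero_le_one]
      intro j
      rw [Real.norm_eq_abs]
      exact h1 j
    · rw [← hi, ← Real.norm_eq_abs]
      exact norm_le_pi_norm y i

private theorem WND_wf_per (s : ℝ) (k : ℤ) : wf (s + 8 * k) = wf s := by
  unfold wf
  have h1 : (s + 8 * k - 1) / 8 = (s - 1) / 8 + k := by ring
  rw [h1, round_add_intCast]
  have h2 : s + 8 * (k : ℝ) - 1 - 8 * ((round ((s - 1) / 8) + k : ℤ) : ℝ) =
      (s - 1) - 8 * (round ((s - 1) / 8) : ℝ) := by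
    push_cast
    ring
  rw [h2]

/-- the formula on the central period -/
private theorem WND_wf_mid (s : ℝ) (h1 : -3 ≤ s) (h2 : s ≤ 5) :
    wf s = max (-1) (min 1 (2 - |s - 1|)) := by
  unfold wf
  rcases eq_or_lt_of_le h2 with h3 | h3
  · subst h3
    have h4 : round (((5 : ℝ) - 1) / 8) = 1 := by
      rw [round_eq]
      norm_num
    rw [h4]
    norm_num
  · have h4 : round ((s - 1) / 8) = 0 := by
      rw [round_eq, Int.floor_eq_zero_iff]
      constructor
      · linarith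
      · linarith
    rw [h4]
    norm_num

private theorem WND_a1 (s : ℝ) (h1 : 0 ≤ s) (h2 : s ≤ 2) : wf s = 1 := by
  rw [WND_wf_mid s (by linarith) (by linarith)]
  have h3 : |s - 1| ≤ 1 := abs_le.2 ⟨by linarith, by linarith⟩
  rw [min_eq_left (by linarith), max_eq_right (by norm_num)]

private theorem WND_a2 (s : ℝ) (h1 : 2 ≤ s) (h2 : s ≤ 4) : wf s = 3 - s := by
  rw [WND_wf_mid s (by linarith) (by linarith), abs_of_nonneg (by linarith),
    min_eq_right (by linarith), max_eq_right (by linarith)]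
  ring

private theorem WND_a0 (s : ℝ) (h1 : -2 ≤ s) (h2 : s ≤ 0) : wf s = s + 1 := by
  rw [WND_wf_mid s (by linarith) (by linarith), abs_of_nonpos (by linarith),
    min_eq_right (by linarith), max_eq_right (by linarith)]
  ring

private theorem WND_a3 (s : ℝ) (h1 : 4 ≤ s) (h2 : s ≤ 6) : wf s = -1 := by
  rcases le_total s 5 with h3 | h3
  · rw [WND_wf_mid s (by linarith) (by linarith), abs_of_nonneg (by linarith),
      min_eq_right (by linarith), max_eq_left (by linarith)]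
  · have h4 := WND_wf_per s (-1)
    rw [← h4, WND_wf_mid _ (by push_cast; linarith) (by push_cast; linarith),
      abs_of_nonpos (by push_cast; linarith), min_eq_right (by push_cast; linarith),
      max_eq_left (by push_cast; linarith)]

private theorem WND_a4 (s : ℝ) (h1 : 6 ≤ s) (h2 : s ≤ 8) : wf s = s - 7 := by
  have h4 := WND_wf_per s (-1)
  rw [← h4, WND_a0 _ (by push_cast; linarith) (by push_cast; linarith)]
  push_cast
  ring

private theorem WND_s1 (s : ℝ) (h1 : 0 ≤ s) (h2 : s ≤ 2) : wnd s = ![1, s - 1] := by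
  unfold wnd
  rw [WND_a1 s h1 h2, WND_a0 (s - 2) (by linarith) (by linarith)]
  congr 2
  ring_nf

private theorem WND_s2 (s : ℝ) (h1 : 2 ≤ s) (h2 : s ≤ 4) : wnd s = ![3 - s, 1] := by
  unfold wnd
  rw [WND_a2 s h1 h2, WND_a1 (s - 2) (by linarith) (by linarith)]

private theorem WND_s3 (s : ℝ) (h1 : 4 ≤ s) (h2 : s ≤ 6) : wnd s = ![-1, 5 - s] := by
  unfold wnd
  rw [WND_a3 s h1 h2, WND_a2 (s - 2) (by linarith) (by linarith)]
  congr 2
  ring_nf

private theorem WND_s4 (s : ℝ) (h1 : 6 ≤ s) (h2 : s ≤ 8) : wnd s = ![s - 7, -1] := by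
  unfold wnd
  rw [WND_a4 s h1 h2, WND_a3 (s - 2) (by linarith) (by linarith)]

theorem wnd_per (s : ℝ) (k : ℤ) : wnd (s + 8 * k) = wnd s := by
  unfold wnd
  have h1 : s + 8 * (k : ℝ) - 2 = (s - 2) + 8 * k := by ring
  rw [h1, WND_wf_per, WND_wf_per]

/-- reduction to a period -/
private theorem WND_red (s a : ℝ) : ∃ k : ℤ, a ≤ s + 8 * k ∧ s + 8 * k < a + 8 := by
  refine ⟨-⌊(s - a) / 8⌋, ?_, ?_⟩
  · have := Int.floor_le ((s - a) / 8)
    push_cast
    linarith
  · have := Int.lt_floor_add_one ((s - a) / 8)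
    push_cast
    linarith

private theorem WND_mem0 (s : ℝ) (h1 : 0 ≤ s) (h2 : s ≤ 8) : wnd s ∈ gam := by
  rw [WND_mem]
  rcases le_total s 2 with h3 | h3
  · rw [WND_s1 s h1 h3]
    refine ⟨fun i => ?_, 0, by simp⟩
    fin_cases i
    · simp
    · show |s - 1| ≤ 1
      exact abs_le.2 ⟨by linarith, by linarith⟩
  rcases le_total s 4 with h4 | h4
  · rw [WND_s2 s h3 h4]
    refine ⟨fun i => ?_, 1, by simp⟩
    fin_cases i
    · show |3 - s| ≤ 1
      exact abs_le.2 ⟨by linarith, by linarith⟩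
    · simp
  rcases le_total s 6 with h5 | h5
  · rw [WND_s3 s h4 h5]
    refine ⟨fun i => ?_, 0, by simp⟩
    fin_cases i
    · simp
    · show |5 - s| ≤ 1
      exact abs_le.2 ⟨by linarith, by linarith⟩
  · rw [WND_s4 s h5 h2]
    refine ⟨fun i => ?_, 1, by simp⟩
    fin_cases i
    · show |s - 7| ≤ 1
      exact abs_le.2 ⟨by linarith, by linarith⟩
    · simp

theorem wnd_mem (s : ℝ) : wnd s ∈ gam := by
  obtain ⟨k, h1, h2⟩ := WND_red s 0
  rw [← wnd_per s k]
  exact WND_mem0 _ h1 (by linarith)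

/-- explicit inverse on the period -/
private noncomputable def WND_inv (z : V2) : ℝ :=
  if z 0 = 1 ∧ z 1 < 1 then z 1 + 1 else
  if z 1 = 1 ∧ -1 < z 0 then 3 - z 0 else
  if z 0 = -1 ∧ -1 < z 1 then 5 - z 1 else z 0 + 7

private theorem WND_inv_wnd (s : ℝ) (h1 : 0 ≤ s) (h2 : s < 8) : WND_inv (wnd s) = s := by
  unfold WND_inv
  rcases lt_or_ge s 2 with h3 | h3
  · rw [WND_s1 s h1 h3.le]
    have e0 : (![1, s - 1] : V2) 0 = 1 := rfl
    have e1 : (![1, s - 1] : V2) 1 = s - 1 := rfl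
    rw [e0, e1, if_pos ⟨rfl, by linarith⟩]
    ring
  rcases lt_or_ge s 4 with h4 | h4
  · rw [WND_s2 s h3 h4.le]
    have e0 : (![3 - s, 1] : V2) 0 = 3 - s := rfl
    have e1 : (![3 - s, 1] : V2) 1 = 1 := rfl
    rw [e0, e1, if_neg (fun h => lt_irrefl _ h.2), if_pos ⟨rfl, by linarith⟩]
    ring
  rcases lt_or_ge s 6 with h5 | h5
  · rw [WND_s3 s h4 h5.le]
    have e0 : (![-1, 5 - s] : V2) 0 = -1 := rfl
    have e1 : (![-1, 5 - s] : V2) 1 = 5 - s := rfl
    rw [e0, e1, if_neg (fun h => by linarith [h.1]), if_neg (fun h => lt_irrefl _ h.2),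
      if_pos ⟨rfl, by linarith⟩]
    ring
  · rw [WND_s4 s h5 h2.le]
    have e0 : (![s - 7, -1] : V2) 0 = s - 7 := rfl
    have e1 : (![s - 7, -1] : V2) 1 = -1 := rfl
    rw [e0, e1, if_neg (fun h => by linarith [h.1]), if_neg (fun h => by linarith [h.1]),
      if_neg (fun h => lt_irrefl _ h.2)]
    ring

theorem wnd_eq_iff {s t : ℝ} : wnd s = wnd t ↔ ∃ k : ℤ, t = s + 8 * k := by
  constructor
  · intro h
    obtain ⟨k, h1, h2⟩ := WND_red s 0
    obtain ⟨l, h3, h4⟩ := WND_red t 0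
    have h5 : WND_inv (wnd (s + 8 * k)) = WND_inv (wnd (t + 8 * l)) := by
      rw [wnd_per, wnd_per, h]
    rw [WND_inv_wnd _ h1 (by linarith), WND_inv_wnd _ h3 (by linarith)] at h5
    refine ⟨k - l, ?_⟩
    push_cast
    linarith
  · rintro ⟨k, rfl⟩
    rw [wnd_per]

theorem wnd_surj (a : ℝ) {z : V2} (hz : z ∈ gam) : ∃ s ∈ Ico a (a + 8), wnd s = z := by
  have hz0 : z = ![z 0, z 1] := by
    funext i
    fin_cases i <;> rfl
  obtain ⟨s, hs⟩ : ∃ s, wnd s = z := by
    obtain ⟨hle, i, hi⟩ := (WND_mem z).1 hz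
    have hl0 := abs_le.1 (hle 0)
    have hl1 := abs_le.1 (hle 1)
    fin_cases i
    · rcases (abs_eq zero_le_one).1 hi with h | h
      · have h' : z 0 = 1 := h
        refine ⟨z 1 + 1, ?_⟩
        rw [WND_s1 _ (by linarith) (by linarith)]
        conv_rhs => rw [hz0, h']
        congr 2
        ring_nf
      · have h' : z 0 = -1 := h
        refine ⟨5 - z 1, ?_⟩
        rw [WND_s3 _ (by linarith) (by linarith)]
        conv_rhs => rw [hz0, h']
        congr 2
        ring_nf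
    · rcases (abs_eq zero_le_one).1 hi with h | h
      · have h' : z 1 = 1 := h
        refine ⟨3 - z 0, ?_⟩
        rw [WND_s2 _ (by linarith) (by linarith)]
        conv_rhs => rw [hz0, h']
        congr 1
        ring
      · have h' : z 1 = -1 := h
        refine ⟨z 0 + 7, ?_⟩
        rw [WND_s4 _ (by linarith) (by linarith)]
        conv_rhs => rw [hz0, h']
        congr 1
        ring
  obtain ⟨k, h1, h2⟩ := WND_red s a
  exact ⟨s + 8 * k, ⟨h1, h2⟩, by rw [wnd_per, hs]⟩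

private theorem WND_int (k : ℤ) (h1 : (-8 : ℝ) < 8 * k) (h2 : (8 : ℝ) * k < 8) : k = 0 := by
  have h3 : ((-1 : ℤ) : ℝ) < k := by push_cast; linarith
  have h4 : (k : ℝ) < ((1 : ℤ) : ℝ) := by push_cast; linarith
  have h5 : -1 < k := by exact_mod_cast h3
  have h6 : k < 1 := by exact_mod_cast h4
  omega

theorem wnd_injOn {a b : ℝ} (hab : b < a + 8) : InjOn wnd (Icc a b) := by
  intro s hs t ht h
  obtain ⟨k, hk⟩ := wnd_eq_iff.1 h
  have h0 : k = 0 := WND_int k (by linarith [hs.1, hs.2, ht.1, ht.2]) (by linarith [hs.1, hs.2, ht.1, ht.2])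
  rw [h0] at hk
  simp only [Int.cast_zero, mul_zero, add_zero] at hk
  exact hk.symm

private theorem WND_wf_cont : Continuous wf := by
  have h1 : wf = fun s => max (-1) (min 1 (2 - 8 * ‖(((s - 1) / 8 : ℝ) : UnitAddCircle)‖)) := by
    funext s
    unfold wf
    rw [UnitAddCircle.norm_eq]
    have h2 : |(s - 1) - 8 * (round ((s - 1) / 8) : ℝ)| =
        8 * |(s - 1) / 8 - (round ((s - 1) / 8) : ℝ)| := by
      rw [← abs_of_pos (show (0 : ℝ) < 8 by norm_num), ← abs_mul]
      congr 1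
      rw [abs_of_pos (show (0 : ℝ) < 8 by norm_num)]
      ring
    rw [h2]
  rw [h1]
  have h3 : Continuous fun s : ℝ => (((s - 1) / 8 : ℝ) : UnitAddCircle) :=
    (AddCircle.continuous_mk' (1 : ℝ)).comp (by fun_prop)
  exact continuous_const.max (continuous_const.min (continuous_const.sub
    (continuous_const.mul h3.norm)))

theorem wnd_cont : Continuous wnd := by
  refine continuous_pi fun i => ?_
  fin_cases i
  · exact WND_wf_cont
  · exact WND_wf_cont.comp (continuous_id.sub continuous_const)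

theorem isPoly_Icc (a b : ℝ) : IsPoly (Icc a b) := by
  rcases le_or_gt a b with h | h
  · rw [← segment_eq_Icc h]
    exact IsPoly.segment a b
  · rw [Icc_eq_empty (not_le.2 h)]
    exact IsPoly.empty

private theorem WND_aff (j : ℤ) : ∃ c v : V2, ∀ s : ℝ, 2 * (j : ℝ) ≤ s → s ≤ 2 * j + 2 →
    wnd s = c + s • v := by
  obtain ⟨k, i, hi, rfl⟩ : ∃ k i : ℤ, (i = 0 ∨ i = 1 ∨ i = 2 ∨ i = 3) ∧ j = 4 * k + i :=
    ⟨j / 4, j % 4, by omega, by omega⟩
  have hk : ∀ s : ℝ, wnd s = wnd (s - 8 * k) := by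
    intro s
    have := wnd_per s (-k)
    push_cast at this
    rw [← this]
    congr 1
    ring
  rcases hi with rfl | rfl | rfl | rfl
  · refine ⟨![1, -8 * k - 1], ![0, 1], fun s h1 h2 => ?_⟩
    push_cast at h1 h2
    rw [hk, WND_s1 _ (by linarith) (by linarith)]
    funext i
    fin_cases i
    · simp
    · simp; ring
  · refine ⟨![3 + 8 * k, 1], ![-1, 0], fun s h1 h2 => ?_⟩
    push_cast at h1 h2
    rw [hk, WND_s2 _ (by linarith) (by linarith)]
    funext i
    fin_cases i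
    · simp; ring
    · simp
  · refine ⟨![-1, 5 + 8 * k], ![0, -1], fun s h1 h2 => ?_⟩
    push_cast at h1 h2
    rw [hk, WND_s3 _ (by linarith) (by linarith)]
    funext i
    fin_cases i
    · simp
    · simp; ring
  · refine ⟨![-8 * k - 7, -1], ![1, 0], fun s h1 h2 => ?_⟩
    push_cast at h1 h2
    rw [hk, WND_s4 _ (by linarith) (by linarith)]
    funext i
    fin_cases i
    · simp; ring
    · simp

theorem wnd_pl (a b : ℝ) : PLOn wnd (Icc a b) := by
  have h1 : ∀ j : ℤ, PLOn wnd (Icc (2 * (j : ℝ)) (2 * j + 2)) := by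
    intro j
    obtain ⟨c, v, hcv⟩ := WND_aff j
    have h2 := PLOn.affine (AffineMap.lineMap (k := ℝ) c (c + v) : ℝ →ᵃ[ℝ] V2)
      (isPoly_Icc (2 * (j : ℝ)) (2 * j + 2))
    refine h2.congr fun s hs => ?_
    rw [hcv s hs.1 hs.2, AffineMap.lineMap_apply_module', add_sub_cancel_left, add_comm]
  have h2 : PLOn wnd (⋃ j ∈ Icc ⌊a / 2⌋ ⌊b / 2⌋, Icc (2 * (j : ℝ)) (2 * j + 2)) :=
    PLOn.biUnion (Set.finite_Icc _ _) fun j _ => h1 j
  refine h2.mono (isPoly_Icc a b) ?_
  intro s hs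
  refine mem_iUnion₂.2 ⟨⌊s / 2⌋, ⟨Int.floor_le_floor (by linarith [hs.1]),
    Int.floor_le_floor (by linarith [hs.2])⟩, ?_, ?_⟩
  · have := Int.floor_le (s / 2)
    linarith
  · have := Int.lt_floor_add_one (s / 2)
    linarith

theorem wnd_open (s : ℝ) {ε : ℝ} (hε : 0 < ε) : wnd '' Ioo (s - ε) (s + ε) ∈ 𝓝[gam] (wnd s) := by
  have hK : IsClosed (wnd '' Icc (s + ε) (s + 8 - ε)) :=
    (isCompact_Icc.image wnd_cont).isClosed
  have hn : wnd s ∉ wnd '' Icc (s + ε) (s + 8 - ε) := by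
    rintro ⟨t, ht, he⟩
    obtain ⟨k, hk⟩ := wnd_eq_iff.1 he.symm
    have h1 := ht.1
    have h2 := ht.2
    have h3 : k = 0 := WND_int k (by linarith) (by linarith)
    rw [h3] at hk
    simp only [Int.cast_zero, mul_zero, add_zero] at hk
    linarith
  have h1 : (wnd '' Icc (s + ε) (s + 8 - ε))ᶜ ∈ 𝓝[gam] (wnd s) :=
    mem_nhdsWithin_of_mem_nhds (hK.isOpen_compl.mem_nhds hn)
  refine Filter.mem_of_superset (Filter.inter_mem self_mem_nhdsWithin h1) ?_
  rintro z ⟨hz, hzK⟩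
  obtain ⟨t, ht, rfl⟩ := wnd_surj (s - ε) hz
  rcases eq_or_lt_of_le ht.1 with h2 | h2
  · by_cases h4 : ε ≤ 4
    · exfalso
      apply hzK
      refine ⟨t + 8 * ((1 : ℤ) : ℝ), ⟨?_, ?_⟩, wnd_per t 1⟩
      · push_cast; linarith
      · push_cast; linarith
    · refine ⟨t + 8 * ((1 : ℤ) : ℝ), ⟨?_, ?_⟩, wnd_per t 1⟩
      · push_cast; linarith
      · push_cast; linarith
  · rcases lt_or_ge t (s + ε) with h3 | h3
    · exact ⟨t, ⟨h2, h3⟩, rfl⟩
    · exfalso
      apply hzK
      exact ⟨t, ⟨h3, by linarith [ht.2]⟩, rfl⟩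

theorem gam_mfd : IsClosedPLManifold 1 gam := sphere_manifold 1 le_rfl

theorem gam_conn : IsConnected gam := sphere_connected 1 le_rfl

noncomputable def ang (z : V2) : ℝ := Function.invFunOn wnd (Ico 0 8) z

theorem ang_mem {z : V2} (hz : z ∈ gam) : ang z ∈ Ico (0 : ℝ) 8 ∧ wnd (ang z) = z := by
  obtain ⟨s, hs, hsz⟩ := wnd_surj 0 hz
  rw [zero_add] at hs
  exact ⟨Function.invFunOn_mem ⟨s, hs, hsz⟩, Function.invFunOn_eq ⟨s, hs, hsz⟩⟩

theorem ang_wnd (s : ℝ) : ∃ k : ℤ, ang (wnd s) = s + 8 * k :=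
  wnd_eq_iff.1 (ang_mem (wnd_mem s)).2.symm

variable {E : Type*} [NormedAddCommGroup E] [NormedSpace ℝ E] [FiniteDimensional ℝ E]

theorem pl_desc {F : ℝ → E} (hF : PLOn F (Icc 0 8)) (hper : F 8 = F 0) :
    PLOn (fun z => F (ang z)) gam ∧ ∀ s ∈ Icc (0 : ℝ) 8, F (ang (wnd s)) = F s := by
  have key : ∀ s ∈ Icc (0 : ℝ) 8, F (ang (wnd s)) = F s := by
    intro s hs
    obtain ⟨k, hk⟩ := ang_wnd s
    have h1 := (ang_mem (wnd_mem s)).1
    rcases eq_or_lt_of_le hs.2 with h2 | h2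
    · have h3 : k + 1 = 0 := WND_int (k + 1) (by push_cast; linarith [h1.1, h1.2])
        (by push_cast; linarith [h1.1, h1.2])
      have h4 : k = -1 := by omega
      rw [h4] at hk
      push_cast at hk
      have h5 : ang (wnd s) = 0 := by rw [hk, h2]; norm_num
      rw [h5, h2, hper]
    · have h3 : k = 0 := WND_int k (by linarith [h1.1, h1.2, hs.1]) (by linarith [h1.1, h1.2, hs.1])
      rw [h3] at hk
      simp only [Int.cast_zero, mul_zero, add_zero] at hk
      rw [hk]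
  refine ⟨?_, key⟩
  have h1 : IsPoly ((fun s => (wnd s, F s)) '' Icc (0 : ℝ) 8) := ((wnd_pl 0 8).prodMk hF).image
  have h2 : (fun z => (z, F (ang z))) '' gam = (fun s => (wnd s, F s)) '' Icc (0 : ℝ) 8 := by
    ext p
    constructor
    · rintro ⟨z, hz, rfl⟩
      obtain ⟨h3, h4⟩ := ang_mem hz
      refine ⟨ang z, ⟨h3.1, h3.2.le⟩, ?_⟩
      show (wnd (ang z), F (ang z)) = (z, F (ang z))
      rw [h4]
    · rintro ⟨s, hs, rfl⟩
      refine ⟨wnd s, wnd_mem s, ?_⟩
      show (wnd s, F (ang (wnd s))) = (wnd s, F s)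
      rw [key s hs]
  unfold PLOn
  rw [h2]
  exact h1

theorem arc_qtriv {a b : ℝ} (hab : b < a + 8) (Q : Type*) [Group Q] :
    QTriv Q (wnd '' Icc a b) := by
  have hinj := wnd_injOn hab
  refine QTriv.retract (S := Icc a b) (φ := wnd) (ψ := Function.invFunOn wnd (Icc a b))
    wnd_cont.continuousOn ?_ (mapsTo_image _ _) ?_ ?_ (qtriv_Icc a b)
  · rw [continuousOn_iff_isClosed]
    intro C hC
    refine ⟨wnd '' (Icc a b ∩ C), ((isCompact_Icc.inter_right hC).image wnd_cont).isClosed, ?_⟩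
    ext z
    constructor
    · rintro ⟨hz, hzT⟩
      refine ⟨⟨Function.invFunOn wnd (Icc a b) z, ⟨Function.invFunOn_mem hzT, hz⟩,
        Function.invFunOn_eq hzT⟩, hzT⟩
    · rintro ⟨⟨r, ⟨hr, hrC⟩, rfl⟩, hzT⟩
      refine ⟨?_, hzT⟩
      show Function.invFunOn wnd (Icc a b) (wnd r) ∈ C
      rw [hinj.leftInvOn_invFunOn hr]
      exact hrC
  · intro z hz
    exact Function.invFunOn_mem hz
  · intro z hz
    exact Function.invFunOn_eq hz

theorem arc_conn {a b : ℝ} (hab : a ≤ b) : IsConnected (wnd '' Icc a b) :=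
  (isConnected_Icc hab).image _ wnd_cont.continuousOn

end Pool.H54.UB
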