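import Pool.Agent.H54.UB.REM
import Pool.Agent.H54.UB.WND

/-!
# Row TUB: calculus of tubes

* `emb_nhds`: a continuous injection on a compact set is a homeomorphism onto its image.
* `Tube.image_nhds`, `CubeT.image_nhds`: `emb_nhds` and the field `nhd`
  (`𝓝[X] y ≤ 𝓝[ι '' (..)] y` because `ι '' (..) ∈ 𝓝[X] y`; a neighbourhood of `p` within the closed tube
  is mapped to a neighbourhood of `ι p` within `ι '' (..)`, hence within `X`).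
* `Tube.comp`, `CubeT.comp`: `PLOn.comp`, injectivity, `maps`, and `image_nhds` for the outer tube applied
  to the neighbourhood `κ '' (..)` of `κ p` in `P × closedBall 0 2` (`κ p` is in `P × ball 0 2`).
* `CubeT.tubeGam`: `(z, u) ↦ (ι u, z)`; `nhds` of a product.
* `Tube.finite`: the tubes `ι j`, `j ∈ J` (finite set of reals) have disjoint images; the tube
  `((z, j), u) ↦ ι j (z, u)` over `P × J`.  PL: union over `j ∈ J` of PL maps (`PLOn.biUnion`,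
  `PLOn.congr`).
-/

open Set Topology Metric

namespace Pool.H54.UB

variable {E F G G' : Type*} [NormedAddCommGroup E] [NormedSpace ℝ E] [FiniteDimensional ℝ E]
  [NormedAddCommGroup F] [NormedSpace ℝ F] [FiniteDimensional ℝ F]
  [NormedAddCommGroup G] [NormedSpace ℝ G] [FiniteDimensional ℝ G]
  [NormedAddCommGroup G'] [NormedSpace ℝ G'] [FiniteDimensional ℝ G']

theorem emb_nhds {X Y : Type*} [TopologicalSpace X] [TopologicalSpace Y] [T2Space Y] {K : Set X}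
    (hK : IsCompact K) {ι : X → Y} (hc : ContinuousOn ι K) (hi : InjOn ι K) {p : X} (hp : p ∈ K)
    {V : Set X} (hV : V ∈ 𝓝[K] p) : ι '' (V ∩ K) ∈ 𝓝[ι '' K] (ι p) := by
  obtain ⟨O, hO, hpO, hOV⟩ := mem_nhdsWithin.1 hV
  have hcl : IsClosed (ι '' (K \ O)) :=
    ((hK.diff hO).image_of_continuousOn (hc.mono diff_subset)).isClosed
  have hnot : ι p ∈ (ι '' (K \ O))ᶜ := by
    rintro ⟨q, hq, he⟩
    have : q = p := hi hq.1 hp he
    rw [this] at hq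
    exact hq.2 hpO
  refine mem_nhdsWithin.2 ⟨(ι '' (K \ O))ᶜ, hcl.isOpen_compl, hnot, ?_⟩
  rintro y ⟨hy1, q, hq, rfl⟩
  have hqO : q ∈ O := by
    by_contra hcon
    exact hy1 ⟨q, ⟨hq, hcon⟩, rfl⟩
  exact ⟨q, ⟨hOV ⟨hqO, hq⟩, hq⟩, rfl⟩

/-- A PL cube `ι : [-2,2]^k → X`, open on the interior. -/
structure CubeT (k : ℕ) (X : Set E) (ι : (Fin k → ℝ) → E) : Prop where
  pl : PLOn ι (closedBall (0 : Fin k → ℝ) 2)
  inj : InjOn ι (closedBall (0 : Fin k → ℝ) 2)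
  maps : MapsTo ι (closedBall (0 : Fin k → ℝ) 2) X
  nhd : ∀ p ∈ ball (0 : Fin k → ℝ) 2, ι '' closedBall (0 : Fin k → ℝ) 2 ∈ 𝓝[X] (ι p)

theorem TUB_sub (k : ℕ) (P : Set G) {p : G × (Fin k → ℝ)} (hp : p ∈ P ×ˢ ball (0 : Fin k → ℝ) 2) :
    p ∈ P ×ˢ closedBall (0 : Fin k → ℝ) 2 := ⟨hp.1, ball_subset_closedBall hp.2⟩

theorem TUB_le {X Y : Set E} {y : E} (h : Y ∈ 𝓝[X] y) {W : Set E} (hW : W ∈ 𝓝[Y] y) :
    W ∈ 𝓝[X] y := by
  have h1 : 𝓝[X] y ≤ 𝓝[Y] y := by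
    rw [nhdsWithin_le_iff]
    exact h
  exact h1 hW

theorem Tube.image_nhds {P : Set G} {k : ℕ} {X : Set E} {ι : G × (Fin k → ℝ) → E}
    (h : Tube P k X ι) {p : G × (Fin k → ℝ)} (hp : p ∈ P ×ˢ ball (0 : Fin k → ℝ) 2)
    {V : Set (G × (Fin k → ℝ))} (hV : V ∈ 𝓝[P ×ˢ closedBall (0 : Fin k → ℝ) 2] p) :
    ι '' (V ∩ P ×ˢ closedBall (0 : Fin k → ℝ) 2) ∈ 𝓝[X] (ι p) :=
  TUB_le (h.nhd p hp) (emb_nhds h.pl.domain.isCompact h.pl.continuousOn h.inj (TUB_sub k P hp) hV)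

theorem CubeT.image_nhds {k : ℕ} {X : Set E} {ι : (Fin k → ℝ) → E} (h : CubeT k X ι)
    {p : Fin k → ℝ} (hp : p ∈ ball (0 : Fin k → ℝ) 2) {V : Set (Fin k → ℝ)} (hV : V ∈ 𝓝 p) :
    ι '' (V ∩ closedBall (0 : Fin k → ℝ) 2) ∈ 𝓝[X] (ι p) :=
  TUB_le (h.nhd p hp) (emb_nhds h.pl.domain.isCompact h.pl.continuousOn h.inj
    (ball_subset_closedBall hp) (mem_nhdsWithin_of_mem_nhds hV))

theorem Tube.comp {P : Set G} {P' : Set G'} {k k' : ℕ} {X : Set E} {ι : G × (Fin k → ℝ) → E}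
    {κ : G' × (Fin k' → ℝ) → G × (Fin k → ℝ)} (h : Tube P k X ι)
    (h' : Tube P' k' (P ×ˢ closedBall (0 : Fin k → ℝ) 2) κ)
    (hm : MapsTo κ (P' ×ˢ closedBall (0 : Fin k' → ℝ) 2) (P ×ˢ ball (0 : Fin k → ℝ) 2)) :
    Tube P' k' X (fun p => ι (κ p)) where
  pl := h.pl.comp h'.pl h'.maps
  inj := fun p hp q hq he => h'.inj hp hq (h.inj (h'.maps hp) (h'.maps hq) he)
  maps := fun p hp => h.maps (h'.maps hp)
  nhd := by
    intro p hp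
    have hpC := TUB_sub k' P' hp
    have h1 := h.image_nhds (hm hpC) (h'.nhd p hp)
    refine Filter.mem_of_superset h1 ?_
    rintro _ ⟨_, ⟨⟨q, hq, rfl⟩, -⟩, rfl⟩
    exact ⟨q, hq, rfl⟩

theorem CubeT.comp {P : Set G} {k k' : ℕ} {X : Set E} {ι : G × (Fin k → ℝ) → E}
    {κ : (Fin k' → ℝ) → G × (Fin k → ℝ)} (h : Tube P k X ι)
    (h' : CubeT k' (P ×ˢ closedBall (0 : Fin k → ℝ) 2) κ)
    (hm : MapsTo κ (closedBall (0 : Fin k' → ℝ) 2) (P ×ˢ ball (0 : Fin k → ℝ) 2)) :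
    CubeT k' X (fun p => ι (κ p)) where
  pl := h.pl.comp h'.pl h'.maps
  inj := fun p hp q hq he => h'.inj hp hq (h.inj (h'.maps hp) (h'.maps hq) he)
  maps := fun p hp => h.maps (h'.maps hp)
  nhd := by
    intro p hp
    have hpC := ball_subset_closedBall hp
    have h1 := h.image_nhds (hm hpC) (h'.nhd p hp)
    refine Filter.mem_of_superset h1 ?_
    rintro _ ⟨_, ⟨⟨q, hq, rfl⟩, -⟩, rfl⟩
    exact ⟨q, hq, rfl⟩

/-- The solid torus `gam × cube` in `X × gam`. -/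
theorem CubeT.tubeGam {k : ℕ} {X : Set E} {ι : (Fin k → ℝ) → E} (h : CubeT k X ι) :
    Tube gam k (X ×ˢ gam) (fun p : V2 × (Fin k → ℝ) => (ι p.2, p.1)) where
  pl := by
    have hP : IsPoly (gam ×ˢ closedBall (0 : Fin k → ℝ) 2) := gam_mfd.1.prod h.pl.domain
    have h1 : PLOn (fun p : V2 × (Fin k → ℝ) => p.2) (gam ×ˢ closedBall (0 : Fin k → ℝ) 2) :=
      PLOn.affine (LinearMap.snd ℝ V2 (Fin k → ℝ)).toAffineMap hP
    have h2 : PLOn (fun p : V2 × (Fin k → ℝ) => p.1) (gam ×ˢ closedBall (0 : Fin k → ℝ) 2) :=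
      PLOn.affine (LinearMap.fst ℝ V2 (Fin k → ℝ)).toAffineMap hP
    exact (h.pl.comp h1 fun p hp => hp.2).prodMk h2
  inj := by
    intro p hp q hq he
    have e1 : ι p.2 = ι q.2 := congrArg Prod.fst he
    have e2 : p.1 = q.1 := congrArg Prod.snd he
    exact Prod.ext e2 (h.inj hp.2 hq.2 e1)
  maps := fun p hp => ⟨h.maps hp.2, hp.1⟩
  nhd := by
    intro p hp
    have h1 := nhdsWithin_prod (h.nhd p.2 hp.2) (self_mem_nhdsWithin (s := gam) (a := p.1))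
    refine Filter.mem_of_superset h1 ?_
    rintro ⟨a, b⟩ ⟨⟨u, hu, hua⟩, hb⟩
    refine ⟨(b, u), ⟨hb, hu⟩, ?_⟩
    exact Prod.ext hua rfl

theorem CubeT.mono {k : ℕ} {X Y : Set E} {ι : (Fin k → ℝ) → E} (h : CubeT k X ι) (hYX : Y ⊆ X)
    (hY : MapsTo ι (closedBall (0 : Fin k → ℝ) 2) Y) : CubeT k Y ι where
  pl := h.pl
  inj := h.inj
  maps := hY
  nhd := fun p hp => nhdsWithin_mono _ hYX (h.nhd p hp)

theorem Tube.finite {P : Set G} {k : ℕ} {X : Set E} {J : Set ℝ} (hJ : J.Finite)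
    {ι : ℝ → G × (Fin k → ℝ) → E} (h : ∀ j ∈ J, Tube P k X (ι j))
    (hd : ∀ j ∈ J, ∀ j' ∈ J, j ≠ j' →
      Disjoint (ι j '' (P ×ˢ closedBall (0 : Fin k → ℝ) 2))
        (ι j' '' (P ×ˢ closedBall (0 : Fin k → ℝ) 2))) :
    Tube (P ×ˢ J) k X (fun q : (G × ℝ) × (Fin k → ℝ) => ι q.1.2 (q.1.1, q.2)) where
  pl := by
    have hset : (P ×ˢ J) ×ˢ closedBall (0 : Fin k → ℝ) 2 =
        ⋃ j ∈ J, (P ×ˢ {j}) ×ˢ closedBall (0 : Fin k → ℝ) 2 := by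
      ext ⟨⟨a, b⟩, u⟩
      simp only [mem_prod, mem_iUnion, mem_singleton_iff, exists_prop]
      constructor
      · rintro ⟨⟨h1, h2⟩, h3⟩
        exact ⟨b, h2, ⟨h1, rfl⟩, h3⟩
      · rintro ⟨j, hj, ⟨h1, h2⟩, h3⟩
        rw [h2]
        exact ⟨⟨h1, hj⟩, h3⟩
    rw [hset]
    refine PLOn.biUnion hJ fun j hj => ?_
    have hB : IsPoly ((P ×ˢ {j}) ×ˢ closedBall (0 : Fin k → ℝ) 2) := by
      obtain ⟨A, hA⟩ : ∃ A : G × (Fin k → ℝ) →ᵃ[ℝ] (G × ℝ) × (Fin k → ℝ),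
          ∀ p, A p = ((p.1, j), p.2) :=
        ⟨(((LinearMap.fst ℝ G (Fin k → ℝ)).toAffineMap).prod
          (AffineMap.const ℝ (G × (Fin k → ℝ)) j)).prod
            (LinearMap.snd ℝ G (Fin k → ℝ)).toAffineMap, fun p => rfl⟩
      have h1 := (h j hj).pl.domain.image_affine A
      have h2 : A '' (P ×ˢ closedBall (0 : Fin k → ℝ) 2) =
          (P ×ˢ {j}) ×ˢ closedBall (0 : Fin k → ℝ) 2 := by
        ext ⟨⟨a, b⟩, u⟩
        constructor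
        · rintro ⟨p, hp, he⟩
          rw [hA] at he
          have e1 : p.1 = a := congrArg (fun q : (G × ℝ) × (Fin k → ℝ) => q.1.1) he
          have e2 : j = b := congrArg (fun q : (G × ℝ) × (Fin k → ℝ) => q.1.2) he
          have e3 : p.2 = u := congrArg (fun q : (G × ℝ) × (Fin k → ℝ) => q.2) he
          rw [← e1, ← e2, ← e3]
          exact ⟨⟨hp.1, rfl⟩, hp.2⟩
        · rintro ⟨⟨h3, h4⟩, h5⟩
          have h6 : b = j := h4
          refine ⟨(a, u), ⟨h3, h5⟩, ?_⟩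
          rw [hA, h6]
      rwa [h2] at h1
    obtain ⟨A, hA⟩ : ∃ A : (G × ℝ) × (Fin k → ℝ) →ᵃ[ℝ] G × (Fin k → ℝ),
        ∀ q, A q = (q.1.1, q.2) :=
      ⟨((LinearMap.fst ℝ G ℝ).comp (LinearMap.fst ℝ (G × ℝ) (Fin k → ℝ))).toAffineMap.prod
        (LinearMap.snd ℝ (G × ℝ) (Fin k → ℝ)).toAffineMap, fun q => rfl⟩
    have h1 : PLOn (fun q => ι j (A q)) ((P ×ˢ {j}) ×ˢ closedBall (0 : Fin k → ℝ) 2) := by
      refine (h j hj).pl.comp (PLOn.affine A hB) ?_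
      intro q hq
      rw [hA]
      exact ⟨hq.1.1, hq.2⟩
    refine h1.congr ?_
    intro q hq
    have h2 : q.1.2 = j := hq.1.2
    show ι j (A q) = ι q.1.2 (q.1.1, q.2)
    rw [hA, h2]
  inj := by
    intro p hp q hq he
    have he' : ι p.1.2 (p.1.1, p.2) = ι q.1.2 (q.1.1, q.2) := he
    have m1 : ((p.1.1, p.2) : G × (Fin k → ℝ)) ∈ P ×ˢ closedBall (0 : Fin k → ℝ) 2 :=
      ⟨hp.1.1, hp.2⟩
    have m2 : ((q.1.1, q.2) : G × (Fin k → ℝ)) ∈ P ×ˢ closedBall (0 : Fin k → ℝ) 2 :=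
      ⟨hq.1.1, hq.2⟩
    have hj : p.1.2 = q.1.2 := by
      by_contra hne
      refine Set.disjoint_left.1 (hd _ hp.1.2 _ hq.1.2 hne) ⟨_, m1, rfl⟩ ?_
      rw [he']
      exact ⟨_, m2, rfl⟩
    rw [← hj] at he'
    have h3 := (h _ hp.1.2).inj m1 m2 he'
    obtain ⟨e1, e2⟩ := Prod.mk.inj h3
    exact Prod.ext (Prod.ext e1 hj) e2
  maps := fun p hp => (h _ hp.1.2).maps ⟨hp.1.1, hp.2⟩
  nhd := by
    intro p hp
    have h1 := (h _ hp.1.2).nhd (p.1.1, p.2) ⟨hp.1.1, hp.2⟩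
    refine Filter.mem_of_superset h1 ?_
    rintro _ ⟨q, hq, rfl⟩
    exact ⟨((q.1, p.1.2), q.2), ⟨⟨hq.1, hp.1.2⟩, hq.2⟩, rfl⟩

end Pool.H54.UB
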